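import Pool.Agent.Lib.L1S.L101

/-! # L1S, module L1, chunk L102 (S): the exponential is Mathlib's; conjugation and sign of divided powers -/

namespace Pool.Agent.Lib.L1S

open Matrix

noncomputable section

variable {n : Type} [Fintype n] [DecidableEq n] {A B : Type} [CommRing A] [CommRing B] {X Y : Matrix n n ℤ}

theorem toA_mul (X Y : Matrix n n ℤ) : toA A (X * Y) = toA A X * toA A Y :=
  Matrix.map_mul (f := Int.castRingHom A)

theorem toA_one : toA A (1 : Matrix n n ℤ) = 1 :=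
  Matrix.map_one _ Int.cast_zero Int.cast_one

theorem toA_pow (X : Matrix n n ℤ) (k : ℕ) : toA A (X ^ k) = toA A X ^ k := by
  induction k with
  | zero => rw [pow_zero, pow_zero]; exact toA_one
  | succ k ih => rw [pow_succ, pow_succ, toA_mul, ih]

theorem toA_zsmul (m : ℤ) (X : Matrix n n ℤ) : toA A (m • X) = m • toA A X := by
  ext r c
  show (((m * X r c : ℤ)) : A) = m • ((X r c : ℤ) : A)
  rw [zsmul_eq_mul]
  push_cast
  rfl

theorem toA_sub (X Y : Matrix n n ℤ) : toA A (X - Y) = toA A X - toA A Y := by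
  ext r c
  show (((X r c - Y r c : ℤ)) : A) = ((X r c : ℤ) : A) - ((Y r c : ℤ) : A)
  push_cast
  rfl

/-- Over a nontrivial `ℚ`-algebra `toA` is injective. -/
theorem toA_inj [Algebra ℚ A] [Nontrivial A] (h : toA A X = toA A Y) : X = Y := by
  have hc : CharZero A := algebraRat.charZero A
  ext r c
  have h1 := congrFun (congrFun h r) c
  exact Int.cast_injective (α := A) h1

/-- `(k!) • dvp = X ^ k` over `A`. -/
theorem DP.factA (h : DP X) (k : ℕ) : (k.factorial : A) • toA A (dvp X k) = toA A X ^ k := by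
  rw [← toA_pow, ← h.fact k, toA_zsmul]
  ext r c
  show (k.factorial : A) * _ = (k.factorial : ℤ) • _
  rw [zsmul_eq_mul]
  push_cast
  rfl

/-- PROOF: `IsNilpotent.exp_eq_sum` with `(t • toA A X) ^ 4 = 0`, and `(k!)⁻¹ • (t • X) ^ k = t ^ k • dvp X k` by `DP.factA`. -/
theorem DP.ex_eq_exp [Algebra ℚ A] (h : DP X) (t : A) : ex X t = IsNilpotent.exp (t • toA A X) := by
  have h4 : (t • toA A X) ^ 4 = 0 := by
    rw [smul_pow, ← toA_pow, h.pow4]
    have : toA A (0 : Matrix n n ℤ) = 0 := Matrix.map_zero _ Int.cast_zero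
    rw [this, smul_zero]
  rw [IsNilpotent.exp_eq_sum h4]
  unfold ex
  refine Finset.sum_congr rfl fun k _ => ?_
  rw [smul_pow, ← h.factA k]
  have hk : (k.factorial : ℚ) ≠ 0 := by
    have := k.factorial_ne_zero
    positivity
  have e1 : (k.factorial : A) • toA A (dvp X k) = (k.factorial : ℚ) • toA A (dvp X k) := by
    ext r c
    show (k.factorial : A) * _ = (k.factorial : ℚ) • _
    rw [Algebra.smul_def, map_natCast]
  rw [e1, smul_comm (t ^ k) (k.factorial : ℚ), smul_smul, inv_mul_cancel₀ hk, one_smul]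

/-- `(k + 1) dvp (k + 1) = X dvp k`. PROOF: `DP.mul h 1 k`. -/
theorem DP.succ (h : DP X) (k : ℕ) : X * dvp X k = ((k : ℤ) + 1) • dvp X (k + 1) := by
  have h1 := h.mul 1 k
  rw [dvp_one, Nat.choose_one_right, add_comm 1 k] at h1
  rw [h1]
  push_cast
  rfl

theorem DP.succ' (h : DP X) (k : ℕ) : dvp X k * X = ((k : ℤ) + 1) • dvp X (k + 1) := by
  have h1 := h.mul k 1
  have h2 : (k + 1).choose k = k + 1 := by
    rw [Nat.choose_succ_self_right]
  rw [dvp_one, h2] at h1
  rw [h1]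
  push_cast
  rfl

/-! Conjugation by a unimodular matrix and the sign. -/

theorem conj_pow {w w' : Matrix n n ℤ} (h : w' * w = 1) (h' : w * w' = 1) (X : Matrix n n ℤ) (k : ℕ) : (w * X * w') ^ k = w * X ^ k * w' := by
  induction k with
  | zero => rw [pow_zero, pow_zero, mul_one, h']
  | succ k ih =>
    rw [pow_succ, pow_succ, ih]
    calc w * X ^ k * w' * (w * X * w') = w * X ^ k * (w' * w) * X * w' := by
          simp only [Matrix.mul_assoc]
      _ = w * (X ^ k * X) * w' := by rw [h, mul_one]; simp only [Matrix.mul_assoc]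

theorem l102_conj_fact {w w' : Matrix n n ℤ} (h : w' * w = 1) (h' : w * w' = 1) (hX : DP X) (k : ℕ) :
    (w * X * w') ^ k = (k.factorial : ℤ) • (w * dvp X k * w') := by
  rw [conj_pow h h', ← hX.fact k, Matrix.mul_smul, Matrix.smul_mul]

/-- PROOF: `conj_pow`; divisibility of the entries of a product. -/
theorem DP.conjW {w w' : Matrix n n ℤ} (h : w' * w = 1) (h' : w * w' = 1) (hX : DP X) : DP (w * X * w') where
  pow4 := by rw [conj_pow h h', hX.pow4, mul_zero, zero_mul]
  dvd := fun k r c => by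
    rw [l102_conj_fact h h' hX]
    exact ⟨_, rfl⟩

theorem l102_dvp_of {Z : Matrix n n ℤ} {k : ℕ} {D : Matrix n n ℤ} (h : Z ^ k = (k.factorial : ℤ) • D) :
    dvp Z k = D := by
  have h0 : (k.factorial : ℤ) ≠ 0 := by
    have := k.factorial_ne_zero
    positivity
  ext r c
  show (Z ^ k) r c / (k.factorial : ℤ) = D r c
  rw [h]
  exact Int.mul_ediv_cancel_left _ h0

/-- PROOF: multiply by `k!` (`DP.fact` for both sides). -/
theorem DP.dvp_conjW {w w' : Matrix n n ℤ} (h : w' * w = 1) (h' : w * w' = 1) (hX : DP X) (k : ℕ) : dvp (w * X * w') k = w * dvp X k * w' :=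
  l102_dvp_of (l102_conj_fact h h' hX k)

theorem DP.ex_conjW {w w' : Matrix n n ℤ} (h : w' * w = 1) (h' : w * w' = 1) (hX : DP X) (t : A) : ex (w * X * w') t = toA A w * ex X t * toA A w' := by
  unfold ex
  rw [Finset.mul_sum, Finset.sum_mul]
  refine Finset.sum_congr rfl fun k _ => ?_
  rw [hX.dvp_conjW h h', toA_mul, toA_mul, Matrix.mul_smul, Matrix.smul_mul]

/-- The sign `ε = ±1`. -/
theorem l102_smul_fact {ε : ℤ} (hX : DP X) (k : ℕ) :
    (ε • X) ^ k = (k.factorial : ℤ) • (ε ^ k • dvp X k) := by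
  rw [smul_pow, ← hX.fact k, smul_comm]

theorem DP.smul {ε : ℤ} (hε : ε = 1 ∨ ε = -1) (hX : DP X) : DP (ε • X) where
  pow4 := by rw [smul_pow, hX.pow4, smul_zero]
  dvd := fun k r c => by
    rw [l102_smul_fact hX]
    exact ⟨_, rfl⟩

theorem DP.dvp_smul {ε : ℤ} (hε : ε = 1 ∨ ε = -1) (hX : DP X) (k : ℕ) : dvp (ε • X) k = ε ^ k • dvp X k :=
  l102_dvp_of (l102_smul_fact hX k)

theorem DP.ex_smul {ε : ℤ} (hε : ε = 1 ∨ ε = -1) (hX : DP X) (t : A) : ex (ε • X) t = ex X ((ε : A) * t) := by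
  unfold ex
  refine Finset.sum_congr rfl fun k _ => ?_
  rw [hX.dvp_smul hε, toA_zsmul, mul_pow]
  ext r c
  show t ^ k * ((ε ^ k : ℤ) • _) = (ε : A) ^ k * t ^ k * _
  rw [zsmul_eq_mul]
  push_cast
  ring

end

end Pool.Agent.Lib.L1S
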