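import Pool.Agent.Lib.L1S.L102

/-! # L1S, module L1, chunk L103 (S/M): commutation of `ex X t` with `Y` when `[X, [X, [X, Y]]] = 0`; intertwining -/

namespace Pool.Agent.Lib.L1S

open Matrix

noncomputable section

variable {n : Type} [Fintype n] [DecidableEq n] {A B : Type} [CommRing A] [CommRing B] {X Y : Matrix n n ℤ}

theorem l103_unit [Algebra ℚ A] (k : ℕ) (hk : k ≠ 0) : IsUnit (k : A) := by
  have : (k : A) = algebraMap ℚ A (k : ℚ) := by simp
  rw [this]
  exact (IsUnit.mk0 _ (by exact_mod_cast hk)).map _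

theorem l103_cancel [Algebra ℚ A] (k : ℕ) (hk : k ≠ 0) {M N : Matrix n n A}
    (h : (k : A) • M = (k : A) • N) : M = N := by
  obtain ⟨u, hu⟩ := l103_unit (A := A) k hk
  have h1 := congrArg (fun T => (↑u⁻¹ : A) • T) h
  simp only [smul_smul] at h1
  rw [← hu, Units.inv_mul, one_smul, one_smul] at h1
  exact h1

theorem l103_succ (h : DP X) (k : ℕ) :
    toA A X * toA A (dvp X k) = ((k : A) + 1) • toA A (dvp X (k + 1)) := by
  rw [← toA_mul, h.succ k, toA_zsmul, ← Int.cast_smul_eq_zsmul A]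
  push_cast
  rfl

theorem l103_succ' (h : DP X) (k : ℕ) :
    toA A (dvp X k) * toA A X = ((k : A) + 1) • toA A (dvp X (k + 1)) := by
  rw [← toA_mul, h.succ' k, toA_zsmul, ← Int.cast_smul_eq_zsmul A]
  push_cast
  rfl

/-- `a_k Y = Y a_k + Z a_(k-1) + W a_(k-2)`, `a_k = X ^ k / k!`, `[X, Y] = Z`, `[X, Z] = 2 W`, `[X, W] = 0`. PROOF: induction on `k`: multiply the claim for `k + 3` by the unit `k + 3` (`A` is a `ℚ`-algebra; `DP.succ`, `DP.succ'`):
`(k+1) a_(k+1) Y = X a_k Y = X (Y a_k + Z a_(k-1) + W a_(k-2)) = (Y X + Z) a_k + (Z X + 2 W) a_(k-1) + W X a_(k-2) = (k+1) (Y a_(k+1) + Z a_k + W a_(k-1))`. -/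
theorem DP.comm3 [Algebra ℚ A] (h : DP X) {Y Z W : Matrix n n A} (h1 : toA A X * Y - Y * toA A X = Z) (h2 : toA A X * Z - Z * toA A X = (2 : A) • W) (h3 : toA A X * W = W * toA A X) (k : ℕ) :
    toA A (dvp X (k + 2)) * Y = Y * toA A (dvp X (k + 2)) + Z * toA A (dvp X (k + 1)) + W * toA A (dvp X k) ∧
      toA A (dvp X 1) * Y = Y * toA A (dvp X 1) + Z ∧ toA A (dvp X 0) * Y = Y * toA A (dvp X 0) := by
  have h1' : toA A X * Y = Y * toA A X + Z := by rw [← h1]; abel
  have h2' : toA A X * Z = Z * toA A X + (2 : A) • W := by rw [← h2]; abel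
  have e0 : toA A (dvp X 0) = 1 := by rw [dvp_zero, toA_one]
  have e1 : toA A (dvp X 1) = toA A X := by rw [dvp_one]
  refine ⟨?_, by rw [e1, h1'], by rw [e0, one_mul, mul_one]⟩
  induction k with
  | zero =>
    apply l103_cancel (A := A) 2 two_ne_zero
    have s1 := l103_succ (A := A) h 1
    rw [e1] at s1
    have s2 : ((2 : ℕ) : A) • toA A (dvp X (0 + 2)) = toA A X * toA A X := by
      rw [s1]
      norm_num
    rw [← smul_mul_assoc, s2, smul_add, smul_add, ← mul_smul_comm, s2, zero_add, e1, e0, mul_one,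
      mul_assoc, h1', mul_add, ← mul_assoc, h1', h2', add_mul]
    push_cast
    rw [two_smul A (Z * toA A X)]
    simp only [mul_assoc]
    abel
  | succ k ih =>
    apply l103_cancel (A := A) (k + 3) (by omega)
    have s1 := l103_succ (A := A) h (k + 2)
    have s2 := l103_succ (A := A) h (k + 1)
    have s3 := l103_succ (A := A) h k
    have s4 : ((k + 3 : ℕ) : A) • toA A (dvp X (k + 1 + 2)) = toA A X * toA A (dvp X (k + 2)) := by
      rw [s1]
      congr 1
      push_cast
      ring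
    rw [← smul_mul_assoc, s4, mul_assoc, ih, mul_add, mul_add, ← mul_assoc, h1', ← mul_assoc, h2',
      ← mul_assoc, h3, smul_add, smul_add, ← mul_smul_comm, s4, add_mul, add_mul, mul_assoc,
      mul_assoc Z, s2, mul_assoc W, s3]
    have e5 : k + 1 + 1 = k + 2 := rfl
    rw [e5]
    simp only [mul_smul_comm, smul_mul_assoc, mul_assoc]
    push_cast
    module

/-- `exp(tX) Y = (Y + t Z + t² W) exp(tX)`. PROOF: `DP.comm3`, `ex X t = ∑_(k < 6) t ^ k dvp k` (`DP.dvp_four`); write the finite sums out. -/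
theorem DP.ex_comm3 [Algebra ℚ A] (h : DP X) {Y Z W : Matrix n n A} (h1 : toA A X * Y - Y * toA A X = Z) (h2 : toA A X * Z - Z * toA A X = (2 : A) • W) (h3 : toA A X * W = W * toA A X) (t : A) :
    ex X t * Y = (Y + t • Z + t ^ 2 • W) * ex X t := by
  obtain ⟨c2, c1, c0⟩ := h.comm3 h1 h2 h3 0
  have c3 := (h.comm3 h1 h2 h3 1).1
  have c4 := (h.comm3 h1 h2 h3 2).1
  have c5 := (h.comm3 h1 h2 h3 3).1
  have z4 : toA A (dvp X 4) = 0 := by
    rw [h.dvp_four le_rfl]; ext r c; simp
  have z5 : toA A (dvp X 5) = 0 := by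
    rw [h.dvp_four (by norm_num)]; ext r c; simp
  have e0 : toA A (dvp X 0) = 1 := by rw [dvp_zero, toA_one]
  norm_num at c2 c3 c4 c5
  rw [z4] at c4 c5
  rw [z5] at c5
  rw [zero_mul, mul_zero, zero_add] at c4
  rw [zero_mul, mul_zero, mul_zero, zero_add, zero_add] at c5
  have hex : ex X t = toA A (dvp X 0) + t • toA A (dvp X 1) + t ^ 2 • toA A (dvp X 2) +
      t ^ 3 • toA A (dvp X 3) := by
    unfold ex
    rw [Finset.sum_range_succ, Finset.sum_range_succ, Finset.sum_range_succ, Finset.sum_range_one,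
      pow_zero, one_smul, pow_one]
  rw [hex]
  simp only [add_mul, mul_add, smul_mul_assoc, mul_smul_comm, smul_add, smul_smul]
  rw [c0, c1, c2, c3, ← c5, e0]
  have c4' : W * toA A (dvp X 2) = -(Z * toA A (dvp X 3)) := by
    rw [eq_neg_iff_add_eq_zero, add_comm]
    exact c4.symm
  rw [c4']
  simp only [smul_add, smul_neg, smul_zero, mul_one]
  module

/-- Conjugation of `ex`: if `g X = c Y g` then `g exp(t X) = exp(c t Y) g`. PROOF: `g X ^ k = c ^ k Y ^ k g`, divide by `k!` (`DP.factA`; `A` is a `ℚ`-algebra). -/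
theorem DP.conj (hX : DP X) (hY : DP Y) [Algebra ℚ A] (g : Matrix n n A) (c t : A) (h : g * toA A X = (c • toA A Y) * g) :
    g * ex X t = ex Y (c * t) * g := by
  have key : ∀ k : ℕ, g * toA A X ^ k = c ^ k • (toA A Y ^ k * g) := by
    intro k
    induction k with
    | zero => simp
    | succ k ih =>
      rw [pow_succ, ← mul_assoc, ih, smul_mul_assoc, mul_assoc, h, smul_mul_assoc, mul_smul_comm,
        smul_smul, ← mul_assoc, ← pow_succ, pow_succ (toA A Y)]
  have key2 : ∀ k : ℕ, g * toA A (dvp X k) = c ^ k • (toA A (dvp Y k) * g) := by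
    intro k
    apply l103_cancel (A := A) k.factorial (Nat.factorial_ne_zero k)
    have e2 : (k.factorial : A) • (toA A (dvp Y k) * g) = toA A Y ^ k * g := by
      rw [← smul_mul_assoc, hY.factA]
    rw [← mul_smul_comm, hX.factA, key, smul_comm, e2]
  unfold ex
  rw [Finset.mul_sum, Finset.sum_mul]
  refine Finset.sum_congr rfl fun k _ => ?_
  rw [mul_smul_comm, key2, smul_smul, smul_mul_assoc, mul_pow, mul_comm]

end

end Pool.Agent.Lib.L1S
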