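import Pool.Agent.Lib.L1S.L102

/-! # L1S, module L1, chunk L104 (M): `Ad(exp(tX))` preserves every submodule which is stable under `ad X` -/

namespace Pool.Agent.Lib.L1S

open Matrix

noncomputable section

variable {n : Type} [Fintype n] [DecidableEq n] {A B : Type} [CommRing A] [CommRing B] {X Y : Matrix n n ℤ}

/-- `(ad X)^m (Y) / m!`. -/
def adk (X : Matrix n n ℤ) (Y : Matrix n n A) (m : ℕ) : Matrix n n A :=
  ∑ p ∈ Finset.range (m + 1), (-1 : A) ^ p • (toA A (dvp X (m - p)) * Y * toA A (dvp X p))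

/-- The iterated commutator in divided powers: `adk X Y m = ∑_(j + k = m) (-1) ^ k X^(j) Y X^(k) = (ad X)^m (Y) / m!`.
PROOF: `X X^(j) = (j+1) X^(j+1)`, `X^(k) X = (k+1) X^(k+1)` (`DP.succ`, `DP.succ'`), so the left side is `∑_(j+k=m) (-1)^k ((j+1) X^(j+1) Y X^(k) - (k+1) X^(j) Y X^(k+1))`; the coefficient of `X^(j) Y X^(k)`, `j + k = m + 1`,
is `(-1)^k (j + k)` (`Finset.sum_range_succ`, `Finset.sum_range_succ'` for the two sums). -/
theorem DP.ad_div (h : DP X) (Y : Matrix n n A) (m : ℕ) :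
    toA A X * adk X Y m - adk X Y m * toA A X = ((m : A) + 1) • adk X Y (m + 1) := by
  have hs : ∀ k : ℕ, toA A X * toA A (dvp X k) = ((k : A) + 1) • toA A (dvp X (k + 1)) := by
    intro k
    rw [← toA_mul, h.succ, toA_zsmul, ← Int.cast_smul_eq_zsmul A]
    push_cast
    rfl
  have hs' : ∀ k : ℕ, toA A (dvp X k) * toA A X = ((k : A) + 1) • toA A (dvp X (k + 1)) := by
    intro k
    rw [← toA_mul, h.succ', toA_zsmul, ← Int.cast_smul_eq_zsmul A]
    push_cast
    rfl
  set G : ℕ → Matrix n n A := fun p => toA A (dvp X (m + 1 - p)) * Y * toA A (dvp X p) with hG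
  have h1 : toA A X * adk X Y m =
      ∑ p ∈ Finset.range (m + 1 + 1), ((-1 : A) ^ p * ((m : A) + 1 - p)) • G p := by
    rw [Finset.sum_range_succ]
    have h0 : ((m : A) + 1 - ((m + 1 : ℕ) : A)) = 0 := by push_cast; ring
    rw [h0, mul_zero, zero_smul, add_zero, adk, Finset.mul_sum]
    refine Finset.sum_congr rfl fun p hp => ?_
    have hpm : p ≤ m := Nat.lt_succ_iff.1 (Finset.mem_range.1 hp)
    have e1 : m + 1 - p = (m - p) + 1 := by omega
    have e2 : (m : A) + 1 - p = ((m - p : ℕ) : A) + 1 := by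
      rw [Nat.cast_sub hpm]
      ring
    rw [hG]
    simp only
    rw [mul_smul_comm, ← mul_assoc, ← mul_assoc, hs, e1, e2, smul_mul_assoc, smul_mul_assoc, smul_smul]
  have h2 : adk X Y m * toA A X =
      ∑ p ∈ Finset.range (m + 1 + 1), (-((-1 : A) ^ p * p)) • G p := by
    rw [Finset.sum_range_succ', Nat.cast_zero, mul_zero, neg_zero, zero_smul, add_zero, adk, Finset.sum_mul]
    refine Finset.sum_congr rfl fun p hp => ?_
    have e1 : m + 1 - (p + 1) = m - p := by omega
    rw [hG]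
    simp only
    rw [smul_mul_assoc, mul_assoc, hs', mul_smul_comm, smul_smul, e1]
    congr 1
    push_cast
    ring
  rw [h1, h2, ← Finset.sum_sub_distrib, adk, Finset.smul_sum]
  refine Finset.sum_congr rfl fun p _ => ?_
  rw [← sub_smul, smul_smul]
  congr 1
  ring

/-- PROOF: all `D_m = adk X Y m` lie in `S` by induction (`DP.ad_div`; divide by `m + 1`: `A` is a `ℚ`-algebra, `S` is an `A`-submodule). -/
theorem DP.adk_mem [Algebra ℚ A] (h : DP X) (S : Submodule A (Matrix n n A)) (hS : ∀ Y ∈ S, toA A X * Y - Y * toA A X ∈ S) {Y : Matrix n n A} (hY : Y ∈ S) (m : ℕ) :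
    adk X Y m ∈ S := by
  induction m with
  | zero =>
    have h0 : adk X Y 0 = Y := by
      rw [adk, Finset.sum_range_one, pow_zero, one_smul, Nat.sub_zero, dvp_zero, toA_one, one_mul, mul_one]
    rw [h0]
    exact hY
  | succ m ih =>
    have h1 := hS _ ih
    rw [h.ad_div] at h1
    have h2 : algebraMap ℚ A (((m : ℚ) + 1)⁻¹) * ((m : A) + 1) = 1 := by
      have e : ((m : A) + 1) = algebraMap ℚ A ((m : ℚ) + 1) := by
        rw [map_add, map_natCast, map_one]
      rw [e, ← map_mul, inv_mul_cancel₀ (by positivity), map_one]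
    have h3 := S.smul_mem (algebraMap ℚ A (((m : ℚ) + 1)⁻¹)) h1
    rw [smul_smul, h2, one_smul] at h3
    exact h3

/-- PROOF: the double sum over `range 4 × range 4` is regrouped by `m = j + k ≤ 6`; in `adk X Y m` the terms with an index `≥ 4` vanish (`DP.dvp_four`); write all sums out (`Finset.sum_range_succ`, `noncomm_ring`/`module`). -/
theorem DP.conj_eq_adk (h : DP X) (Y : Matrix n n A) (t : A) : ex X t * Y * ex X (-t) = ∑ m ∈ Finset.range 7, t ^ m • adk X Y m := by
  have h0 : toA A (0 : Matrix n n ℤ) = 0 := by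
    ext i j
    simp
  have h4 : toA A (dvp X 4) = 0 := by rw [h.dvp_four (le_refl 4), h0]
  have h5 : toA A (dvp X 5) = 0 := by rw [h.dvp_four (by norm_num : 4 ≤ 5), h0]
  have h6 : toA A (dvp X 6) = 0 := by rw [h.dvp_four (by norm_num : 4 ≤ 6), h0]
  simp only [ex, adk, Finset.sum_range_succ, Finset.sum_range_zero, zero_add]
  norm_num only [h4, h5, h6]
  generalize toA A (dvp X 0) = D0
  generalize toA A (dvp X 1) = D1
  generalize toA A (dvp X 2) = D2
  generalize toA A (dvp X 3) = D3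
  simp only [add_mul, mul_add, smul_mul_assoc, mul_smul_comm, smul_smul, smul_add, zero_mul, mul_zero,
    smul_zero, add_zero, zero_add]
  module

/-- **Ad preserves `S`.** -/
theorem DP.ad_mem [Algebra ℚ A] (h : DP X) (S : Submodule A (Matrix n n A)) (hS : ∀ Y ∈ S, toA A X * Y - Y * toA A X ∈ S) (t : A) {Y : Matrix n n A} (hY : Y ∈ S) :
    ex X t * Y * ex X (-t) ∈ S := by
  rw [h.conj_eq_adk]
  exact Submodule.sum_mem _ fun m _ => S.smul_mem _ (h.adk_mem S hS hY m)

end

end Pool.Agent.Lib.L1S
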