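import Pool.Agent.Lib.L1S.L10

/-! # L1S, module L1, chunk L105 (S): algebra of weights -/

namespace Pool.Agent.Lib.L1S

open Matrix

noncomputable section

variable {ι M N : Type} [Fintype ι] [DecidableEq ι] [AddCommGroup M] [Module ℚ M] [AddCommGroup N] [Module ℚ N]
  {P : RootPairing ι ℚ M N} [P.IsCrystallographic] {b : P.Base} {A : Type} [CommRing A]

theorem HasWt.mul {μ ν : M} {X Y : Matrix (I b) (I b) A} (hX : HasWt b μ X) (hY : HasWt b ν Y) : HasWt b (μ + ν) (X * Y) := by
  intro r c h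
  rw [Matrix.mul_apply] at h
  obtain ⟨j, -, hj⟩ := Finset.exists_ne_zero_of_sum_ne_zero h
  have h1 := hX r j (left_ne_zero_of_mul hj)
  have h2 := hY j c (right_ne_zero_of_mul hj)
  rw [h1, h2]
  abel

theorem HasWt.add {μ : M} {X Y : Matrix (I b) (I b) A} (hX : HasWt b μ X) (hY : HasWt b μ Y) : HasWt b μ (X + Y) := by
  intro r c h
  rw [Matrix.add_apply] at h
  by_cases h1 : X r c = 0
  · rw [h1, zero_add] at h
    exact hY r c h
  · exact hX r c h1

theorem HasWt.sub {μ : M} {X Y : Matrix (I b) (I b) A} (hX : HasWt b μ X) (hY : HasWt b μ Y) : HasWt b μ (X - Y) := by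
  intro r c h
  rw [Matrix.sub_apply] at h
  by_cases h1 : X r c = 0
  · rw [h1, zero_sub] at h
    exact hY r c (neg_ne_zero.1 h)
  · exact hX r c h1

theorem HasWt.smul {μ : M} {X : Matrix (I b) (I b) A} (hX : HasWt b μ X) (a : A) : HasWt b μ (a • X) := by
  intro r c h
  rw [Matrix.smul_apply, smul_eq_mul] at h
  exact hX r c (right_ne_zero_of_mul h)

theorem HasWt.zero (μ : M) : HasWt b μ (0 : Matrix (I b) (I b) A) := by
  intro r c h
  exact absurd (Matrix.zero_apply r c) h

theorem HasWt.one : HasWt b (0 : M) (1 : Matrix (I b) (I b) A) := by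
  intro r c h
  by_cases h1 : r = c
  · rw [h1, add_zero]
  · exact absurd (Matrix.one_apply_ne h1) h

/-- The commutator. -/
theorem HasWt.lie {μ ν : M} {X Y : Matrix (I b) (I b) A} (hX : HasWt b μ X) (hY : HasWt b ν Y) : HasWt b (μ + ν) (X * Y - Y * X) := by
  refine (hX.mul hY).sub ?_
  rw [add_comm]
  exact hY.mul hX

/-- A nonzero matrix has at most one weight. -/
theorem HasWt.unique {μ ν : M} {X : Matrix (I b) (I b) A} (hX : HasWt b μ X) (hY : HasWt b ν X) (h : X ≠ 0) : μ = ν := by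
  obtain ⟨r, c, hrc⟩ : ∃ r c, X r c ≠ 0 := by
    by_contra hcon
    push Not at hcon
    exact h (by ext r c; rw [hcon, Matrix.zero_apply])
  have h1 := hX r c hrc
  rw [hY r c hrc] at h1
  exact (add_left_cancel h1).symm

/-- Matrices over `ℤ`. -/
theorem HasWt.toA {μ : M} {X : Matrix (I b) (I b) ℤ} (hX : HasWt b μ X) : HasWt b μ (toA A X) := by
  intro r c h
  refine hX r c fun h1 => h ?_
  change ((X r c : ℤ) : A) = 0
  rw [h1, Int.cast_zero]

theorem l105_cast [Algebra ℚ A] [Nontrivial A] {m : ℤ} (h : m ≠ 0) : (m : A) ≠ 0 := by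
  have : (m : A) = algebraMap ℚ A (m : ℚ) := by simp
  rw [this]
  intro h1
  have h2 := (algebraMap ℚ A).injective (h1.trans (map_zero _).symm)
  exact h (by exact_mod_cast h2)

theorem HasWt.of_toA [Algebra ℚ A] [Nontrivial A] {μ : M} {X : Matrix (I b) (I b) ℤ} (hX : HasWt b μ (Pool.Agent.Lib.L1S.toA A X)) : HasWt b μ X := by
  intro r c h
  refine hX r c ?_
  change ((X r c : ℤ) : A) ≠ 0
  exact l105_cast h

theorem OverW.of_toA [Algebra ℚ A] [Nontrivial A] {s : M → M} {X : Matrix (I b) (I b) ℤ} (hX : OverW b s (toA A X)) : OverW b s X := by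
  intro r c h
  refine hX r c ?_
  change ((X r c : ℤ) : A) ≠ 0
  exact l105_cast h

theorem OverW.toA {s : M → M} {X : Matrix (I b) (I b) ℤ} (hX : OverW b s X) : OverW b s (Pool.Agent.Lib.L1S.toA A X) := by
  intro r c h
  refine hX r c fun h1 => h ?_
  change ((X r c : ℤ) : A) = 0
  rw [h1, Int.cast_zero]

theorem OverW.mul {s t : M → M} {X Y : Matrix (I b) (I b) A} (hX : OverW b s X) (hY : OverW b t Y) : OverW b (s ∘ t) (X * Y) := by
  intro r c h
  rw [Matrix.mul_apply] at h
  obtain ⟨j, -, hj⟩ := Finset.exists_ne_zero_of_sum_ne_zero h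
  have h1 := hX r j (left_ne_zero_of_mul hj)
  have h2 := hY j c (right_ne_zero_of_mul hj)
  rw [h1, h2]
  rfl

/-- `w X w'` has the weight `s μ` if `w` is over the linear map `s` and `w'` over its inverse. -/
theorem OverW.conj (s : M ≃ₗ[ℚ] M) {μ : M} {w w' X : Matrix (I b) (I b) A} (hw : OverW b s w) (hw' : OverW b s.symm w') (hX : HasWt b μ X) : HasWt b (s μ) (w * X * w') := by
  intro r c h
  rw [Matrix.mul_apply] at h
  obtain ⟨j, -, hj⟩ := Finset.exists_ne_zero_of_sum_ne_zero h
  have h1 := left_ne_zero_of_mul hj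
  have h2 := hw' j c (right_ne_zero_of_mul hj)
  rw [Matrix.mul_apply] at h1
  obtain ⟨i, -, hi⟩ := Finset.exists_ne_zero_of_sum_ne_zero h1
  have h3 := hw r i (left_ne_zero_of_mul hi)
  have h4 := hX i j (right_ne_zero_of_mul hi)
  rw [h3, h4, h2, map_add, LinearEquiv.apply_symm_apply]

/-- The diagonal matrix of the coweight `l`. -/
def Dl (b : P.Base) (A : Type) [CommRing A] [Algebra ℚ A] (l : M →ₗ[ℚ] ℚ) : Matrix (I b) (I b) A := Matrix.diagonal fun r => algebraMap ℚ A (l (wt b r))

theorem Dl_comm [Algebra ℚ A] (l : M →ₗ[ℚ] ℚ) {μ : M} {X : Matrix (I b) (I b) A} (hX : HasWt b μ X) : X * Dl b A l - Dl b A l * X = -(algebraMap ℚ A (l μ) • X) := by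
  ext r c
  rw [Matrix.sub_apply, Dl, Matrix.mul_diagonal, Matrix.diagonal_mul, Matrix.neg_apply,
    Matrix.smul_apply, smul_eq_mul]
  by_cases h : X r c = 0
  · rw [h]; ring
  · rw [hX r c h, map_add, map_add]
    ring

/-- PROOF: the entry `(r, c)` of the hypothesis is `(l (wt r) - l (s (wt c))) X r c = 0`; if `wt r ≠ s (wt c)` choose `l` with `l (wt r) ≠ l (s (wt c))` (dual of a vector space), then the rational number is invertible. -/
theorem OverW.of_comm [Algebra ℚ A] (s : M →ₗ[ℚ] M) {X : Matrix (I b) (I b) A} (h : ∀ l : M →ₗ[ℚ] ℚ, Dl b A l * X = X * Dl b A (l ∘ₗ s)) : OverW b s X := by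
  intro r c hrc
  by_contra hne
  have hne' : wt b r - s (wt b c) ≠ 0 := sub_ne_zero.2 hne
  obtain ⟨l, hl⟩ : ∃ l : M →ₗ[ℚ] ℚ, l (wt b r - s (wt b c)) ≠ 0 := by
    by_contra hcon
    push Not at hcon
    exact hne' ((Module.forall_dual_apply_eq_zero_iff ℚ _).1 hcon)
  have h1 := congrFun (congrFun (h l) r) c
  rw [Dl, Dl, Matrix.mul_diagonal, Matrix.diagonal_mul] at h1
  have h2 : algebraMap ℚ A (l (wt b r - s (wt b c))) * X r c = 0 := by
    rw [map_sub, map_sub, sub_mul, h1, LinearMap.comp_apply]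
    ring
  have hu : IsUnit (algebraMap ℚ A (l (wt b r - s (wt b c)))) := (IsUnit.mk0 _ hl).map _
  exact hrc ((hu.mul_right_eq_zero).1 h2)

/-- The component of the weight `μ`. -/
def pW (b : P.Base) (A : Type) [CommRing A] (μ : M) : Matrix (I b) (I b) A →ₗ[A] Matrix (I b) (I b) A := by
  classical
  exact { toFun := fun X => Matrix.of fun r c => if wt b r = wt b c + μ then X r c else 0
          map_add' := by intro X Y; ext r c; simp only [Matrix.of_apply, Matrix.add_apply]; split_ifs <;> simp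
          map_smul' := by intro a X; ext r c; simp only [Matrix.of_apply, Matrix.smul_apply, RingHom.id_apply]; split_ifs <;> simp }

theorem l105_pW (μ : M) (X : Matrix (I b) (I b) A) (r c : I b) :
    (wt b r = wt b c + μ → pW b A μ X r c = X r c) ∧ (wt b r ≠ wt b c + μ → pW b A μ X r c = 0) := by
  classical
  constructor
  · intro h
    exact if_pos h
  · intro h
    exact if_neg h

theorem pW_self {μ : M} {X : Matrix (I b) (I b) A} (hX : HasWt b μ X) : pW b A μ X = X := by
  ext r c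
  by_cases h : wt b r = wt b c + μ
  · exact (l105_pW μ X r c).1 h
  · rw [(l105_pW μ X r c).2 h]
    by_contra h1
    exact h (hX r c (Ne.symm h1))

theorem pW_ne {μ ν : M} {X : Matrix (I b) (I b) A} (hX : HasWt b ν X) (h : μ ≠ ν) : pW b A μ X = 0 := by
  ext r c
  rw [Matrix.zero_apply]
  by_cases h1 : wt b r = wt b c + μ
  · rw [(l105_pW μ X r c).1 h1]
    by_contra h2
    have h3 := hX r c h2
    rw [h1] at h3
    exact h (add_left_cancel h3)
  · exact (l105_pW μ X r c).2 h1

end

end Pool.Agent.Lib.L1S
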