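import Pool.Agent.Lib.L1S.L105
import Pool.Agent.Lib.L1S.L102

/-! # L1S, module L1, chunk L106 (S/M): the integral Geck matrices and Mathlib's; relations -/

namespace Pool.Agent.Lib.L1S

open Matrix

noncomputable section

variable {ι M N : Type} [Fintype ι] [DecidableEq ι] [AddCommGroup M] [Module ℚ M] [AddCommGroup N] [Module ℚ N]
  {P : RootPairing ι ℚ M N} [P.IsCrystallographic] {b : P.Base} {A : Type} [CommRing A]

theorem toA_eZ (i : b.support) : toA ℚ (eZ b i) = RootPairing.GeckConstruction.e i := by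
  ext (r | r) (c | c)
  · simp [eZ, RootPairing.GeckConstruction.e]
  · simp [eZ, RootPairing.GeckConstruction.e]
  · simp only [eZ, RootPairing.GeckConstruction.e, Matrix.map_apply, Matrix.fromBlocks_apply₂₁,
      Matrix.of_apply]
    split_ifs <;> simp
  · simp only [eZ, RootPairing.GeckConstruction.e, Matrix.map_apply, Matrix.fromBlocks_apply₂₂,
      Matrix.of_apply]
    split_ifs <;> simp

theorem toA_fZ (i : b.support) : toA ℚ (fZ b i) = RootPairing.GeckConstruction.f i := by
  ext (r | r) (c | c)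
  · simp [fZ, RootPairing.GeckConstruction.f]
  · simp only [fZ, RootPairing.GeckConstruction.f, Matrix.map_apply, Matrix.fromBlocks_apply₁₂,
      Matrix.of_apply]
    split_ifs <;> simp
  · simp only [fZ, RootPairing.GeckConstruction.f, Matrix.map_apply, Matrix.fromBlocks_apply₂₁,
      Matrix.of_apply]
    by_cases h : r = ng P i
    · rw [if_pos h, if_pos (show r = (P.indexNeg).neg i from h)]
    · rw [if_neg h, if_neg (show ¬ r = (P.indexNeg).neg i from h)]
      simp
  · simp only [fZ, RootPairing.GeckConstruction.f, Matrix.map_apply, Matrix.fromBlocks_apply₂₂,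
      Matrix.of_apply]
    split_ifs <;> simp

theorem toA_hZ (i : b.support) : toA ℚ (hZ b i) = RootPairing.GeckConstruction.h i := by
  rw [RootPairing.GeckConstruction.h_eq_diagonal]
  ext (r | r) (c | c)
  · simp [hZ, Matrix.diagonal_apply]
  · simp [hZ, Matrix.diagonal_apply]
  · simp [hZ, Matrix.diagonal_apply]
  · simp only [hZ, Matrix.map_apply, Matrix.diagonal_apply, Sum.elim_inr]
    split_ifs <;> simp

/-- Geck's involution over `ℤ`. -/
def oZ (b : P.Base) : Matrix (I b) (I b) ℤ := .fromBlocks 1 0 0 (.of fun i j => if i = ng P j then 1 else 0)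

theorem l106_oZ : toA ℚ (oZ b) = RootPairing.GeckConstruction.ω b := by
  ext (r | r) (c | c)
  · simp [oZ, RootPairing.GeckConstruction.ω, Matrix.one_apply]
  · simp [oZ, RootPairing.GeckConstruction.ω]
  · simp [oZ, RootPairing.GeckConstruction.ω]
  · simp only [oZ, RootPairing.GeckConstruction.ω, Matrix.map_apply, Matrix.fromBlocks_apply₂₂,
      Matrix.of_apply]
    by_cases h : r = ng P c
    · rw [if_pos h, if_pos (show r = (P.indexNeg).neg c from h), Int.cast_one]
    · rw [if_neg h, if_neg (show ¬ r = (P.indexNeg).neg c from h), Int.cast_zero]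

theorem oZ_mul : oZ b * oZ b = 1 := by
  apply toA_inj (A := ℚ)
  rw [toA_mul, toA_one, l106_oZ, RootPairing.GeckConstruction.ω_mul_ω]

/-- PROOF: over `ℚ` this is `RootPairing.GeckConstruction.ω_mul_e` (`toA_inj`). -/
theorem oZ_eZ (i : b.support) : fZ b i = oZ b * eZ b i * oZ b := by
  apply toA_inj (A := ℚ)
  rw [toA_mul, toA_mul, l106_oZ, toA_eZ, toA_fZ, RootPairing.GeckConstruction.ω_mul_e, mul_assoc,
    RootPairing.GeckConstruction.ω_mul_ω, mul_one]

theorem l106_ng (i : ι) : P.root (ng P i) = -P.root i := by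
  rw [RootPairing.root_reflectionPerm, RootPairing.reflection_apply_self]

/-- `ω V_γ = V_(-γ)`. -/
theorem oZ_over : OverW b (fun μ => -μ) (oZ b) := by
  rintro (r | r) (c | c) h
  · simp [wt]
  · exact absurd (by simp [oZ]) h
  · exact absurd (by simp [oZ]) h
  · by_cases h1 : r = ng P c
    · simp only [wt, Sum.elim_inr]
      rw [h1, l106_ng]
    · exact absurd (by simp only [oZ, Matrix.fromBlocks_apply₂₂, Matrix.of_apply]; rw [if_neg h1]) h

theorem hasWt_eZ (i : b.support) : HasWt b (P.root i) (eZ b i) := by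
  rintro (r | r) (c | c) h
  · exact absurd (by simp [eZ]) h
  · simp only [eZ, Matrix.fromBlocks_apply₁₂, Matrix.of_apply] at h
    simp only [wt, Sum.elim_inr, Sum.elim_inl]
    split_ifs at h with h1
    · rw [h1.2, l106_ng, neg_add_cancel]
    · exact absurd rfl h
  · simp only [eZ, Matrix.fromBlocks_apply₂₁, Matrix.of_apply] at h
    simp only [wt, Sum.elim_inr, Sum.elim_inl]
    split_ifs at h with h1
    · rw [h1, zero_add]
    · exact absurd rfl h
  · simp only [eZ, Matrix.fromBlocks_apply₂₂, Matrix.of_apply] at h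
    simp only [wt, Sum.elim_inr]
    split_ifs at h with h1
    · rw [h1, add_comm]
    · exact absurd rfl h

theorem hasWt_fZ (i : b.support) : HasWt b (-P.root i) (fZ b i) := by
  rintro (r | r) (c | c) h
  · exact absurd (by simp [fZ]) h
  · simp only [fZ, Matrix.fromBlocks_apply₁₂, Matrix.of_apply] at h
    simp only [wt, Sum.elim_inr, Sum.elim_inl]
    split_ifs at h with h1
    · rw [h1.2, add_neg_cancel]
    · exact absurd rfl h
  · simp only [fZ, Matrix.fromBlocks_apply₂₁, Matrix.of_apply] at h
    simp only [wt, Sum.elim_inr, Sum.elim_inl]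
    split_ifs at h with h1
    · rw [h1, zero_add, l106_ng]
    · exact absurd rfl h
  · simp only [fZ, Matrix.fromBlocks_apply₂₂, Matrix.of_apply] at h
    simp only [wt, Sum.elim_inr]
    split_ifs at h with h1
    · rw [h1, sub_eq_add_neg]
    · exact absurd rfl h

theorem hasWt_hZ (i : b.support) : HasWt b (0 : M) (hZ b i) := by
  intro r c h
  by_cases h1 : r = c
  · rw [h1, add_zero]
  · exact absurd (Matrix.diagonal_apply_ne _ h1) h

/-- `h_i` is the diagonal matrix of the coroot. -/
theorem toA_hZ_eq [Algebra ℚ A] (i : b.support) : toA A (hZ b i) = Dl b A (P.coroot' i) := by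
  unfold toA Dl hZ
  rw [Matrix.diagonal_map Int.cast_zero]
  congr 1
  ext (r | r)
  · simp [wt]
  · simp only [Sum.elim_inr, wt]
    rw [RootPairing.root_coroot'_eq_pairing, ← P.algebraMap_pairingIn ℤ]
    simp

variable [P.IsReduced] [P.IsIrreducible] [P.IsRootSystem]

/-- `[e_i, f_i] = h_i`. PROOF: over `ℚ` this is Mathlib's `RootPairing.GeckConstruction.lie_e_f_same` / `isSl2Triple`; `toA_inj`. -/
theorem eZ_fZ (i : b.support) : eZ b i * fZ b i - fZ b i * eZ b i = hZ b i := by
  apply toA_inj (A := ℚ)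
  rw [toA_sub, toA_mul, toA_mul, toA_eZ, toA_fZ, toA_hZ, ← RootPairing.GeckConstruction.lie_e_f_same,
    Ring.lie_def]

theorem hZ_eZ (i : b.support) : hZ b i * eZ b i - eZ b i * hZ b i = (2 : ℤ) • eZ b i := by
  apply toA_inj (A := ℚ)
  have h := RootPairing.GeckConstruction.lie_h_e (R := ℚ) (b := b) i i
  rw [Ring.lie_def] at h
  rw [toA_sub, toA_mul, toA_mul, toA_zsmul, toA_eZ, toA_hZ, h]
  simp [RootPairing.Base.cartanMatrix, RootPairing.Base.cartanMatrixIn_def]

theorem hZ_fZ (i : b.support) : hZ b i * fZ b i - fZ b i * hZ b i = (-2 : ℤ) • fZ b i := by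
  apply toA_inj (A := ℚ)
  have h := RootPairing.GeckConstruction.lie_h_f (R := ℚ) (b := b) i i
  rw [Ring.lie_def] at h
  rw [toA_sub, toA_mul, toA_mul, toA_zsmul, toA_fZ, toA_hZ, h]
  simp [RootPairing.Base.cartanMatrix, RootPairing.Base.cartanMatrixIn_def]

/-- The entries of `e_i` from the weight `-α_i` to the zero weight. -/
theorem eZ_entry (i j : b.support) : eZ b i (Sum.inl j) (Sum.inr (ng P i)) = if j = i then 1 else 0 := by
  simp [eZ]

theorem fZ_entry (i j : b.support) : fZ b i (Sum.inl j) (Sum.inr (i : ι)) = if j = i then 1 else 0 := by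
  simp [fZ]

end

end Pool.Agent.Lib.L1S
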