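import Pool.Agent.Lib.L1S.L107
import Pool.Agent.Lib.L1S.L106

/-! # L1S, module L1, chunk L108 (S): divided powers of `e_i`, `f_i`; `n_i` -/

namespace Pool.Agent.Lib.L1S

open Matrix

noncomputable section

variable {ι M N : Type} [Fintype ι] [DecidableEq ι] [AddCommGroup M] [Module ℚ M] [AddCommGroup N] [Module ℚ N]
  {P : RootPairing ι ℚ M N} [P.IsCrystallographic] {b : P.Base} [P.IsReduced]

theorem l108_col {n : Type} [Fintype n] [DecidableEq n] (X Y : Matrix n n ℤ) (c : n) :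
    (X * Y).col c = X *ᵥ Y.col c := by
  rw [← Matrix.mulVec_single_one, ← Matrix.mulVec_single_one, Matrix.mulVec_mulVec]

theorem l108_inl (i j : b.support) (k : ℕ) : (eZ b i ^ (k + 2)).col (Sum.inl j) = 0 := by
  rw [pow_add, l108_col, eZ_sq_inl, Matrix.mulVec_zero]

theorem l108_col_one (i : b.support) : (eZ b i).col (Sum.inr (ng P i)) = Pi.single (Sum.inl i) 1 := by
  ext (r | r)
  · have h0 : eZ b i (Sum.inl r) (Sum.inr (ng P i)) = if r = i then 1 else 0 := by simp [eZ]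
    rw [Matrix.col_apply, h0]
    by_cases h : r = i
    · rw [if_pos h, h, Pi.single_eq_same]
    · rw [if_neg h, Pi.single_eq_of_ne (fun h1 => h (Sum.inl_injective h1))]
  · have h0 : P.root r ≠ P.root i + P.root (ng P i) := by
      rw [l106_ng, add_neg_cancel]
      exact P.ne_zero r
    rw [Matrix.col_apply, Pi.single_eq_of_ne Sum.inr_ne_inl]
    simp only [eZ, Matrix.fromBlocks_apply₂₂, Matrix.of_apply]
    rw [if_neg h0]

theorem l108_neg (i : b.support) (k : ℕ) : (eZ b i ^ (k + 3)).col (Sum.inr (ng P i)) = 0 := by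
  rw [show k + 3 = (k + 2) + 1 from rfl, pow_succ, l108_col, l108_col_one, Matrix.mulVec_single_one,
    l108_inl]

/-- PROOF: columns: `inl j`: `e ^ 2 = 0` there (`eZ_sq_inl`); `inr (-i)`: `e ^ 2 v_(-i) = 2 v_i`, `e ^ 3 v_(-i) = 0` (`e v_i = 0` because `2 α_i` is not a root: or `e ^ 3 v_(-i) = e ^ 2 (e v_(-i)) = e ^ 2 u_i = 0`);
the other columns by `eZ_pow_col` and `Nat.factorial_dvd_ascFactorial`; `k ≥ 4`: zero. -/
theorem DP_eZ (i : b.support) : DP (eZ b i) := by
  constructor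
  · ext r c
    rw [Matrix.zero_apply, ← Matrix.col_apply (eZ b i ^ 4)]
    rcases c with j | j
    · rw [l108_inl i j 2, Pi.zero_apply]
    · by_cases hj : j = ng P i
      · rw [hj, l108_neg i 1, Pi.zero_apply]
      · rw [eZ_pow_four_col i j hj, Pi.zero_apply]
  · intro k r c
    rw [← Matrix.col_apply (eZ b i ^ k)]
    by_cases hk : k < 2
    · have h1 : (k.factorial : ℤ) = 1 := by interval_cases k <;> rfl
      rw [h1]
      exact one_dvd _
    obtain ⟨m, rfl⟩ : ∃ m, k = m + 2 := ⟨k - 2, by omega⟩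
    rcases c with j | j
    · rw [l108_inl i j m, Pi.zero_apply]
      exact dvd_zero _
    · by_cases hj : j = ng P i
      · rw [hj]
        cases m with
        | zero =>
          rw [zero_add, eZ_sq_neg i, Pi.smul_apply, smul_eq_mul]
          exact Dvd.intro _ rfl
        | succ m =>
          rw [show m + 1 + 2 = m + 3 from rfl, l108_neg i m, Pi.zero_apply]
          exact dvd_zero _
      · rcases eZ_pow_col i j hj (m + 2) with h | ⟨l, -, h⟩
        · rw [h, Pi.zero_apply]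
          exact dvd_zero _
        · rw [h, Pi.smul_apply, smul_eq_mul]
          exact Dvd.dvd.mul_right (Int.natCast_dvd_natCast.2 (Nat.factorial_dvd_ascFactorial _ _)) _

/-- PROOF: `oZ_eZ`, `oZ_mul`, `DP.conjW`. -/
theorem DP_fZ (i : b.support) : DP (fZ b i) := by
  rw [oZ_eZ i]
  exact DP.conjW oZ_mul oZ_mul (DP_eZ i)

/-- PROOF: `DP.ex_mul_neg`, `DP.ex_neg_mul`. -/
theorem nZ_mul (b : P.Base) (i : b.support) : nZ b i * nZ' b i = 1 := by
  have h1 := (DP_eZ (b := b) i).ex_mul_neg (1 : ℤ)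
  have h2 := (DP_fZ (b := b) i).ex_neg_mul (1 : ℤ)
  unfold nZ nZ'
  calc ex (eZ b i) (1 : ℤ) * ex (fZ b i) (-1 : ℤ) * ex (eZ b i) (1 : ℤ) *
        (ex (eZ b i) (-1 : ℤ) * ex (fZ b i) (1 : ℤ) * ex (eZ b i) (-1 : ℤ))
      = ex (eZ b i) (1 : ℤ) * (ex (fZ b i) (-1 : ℤ) * (ex (eZ b i) (1 : ℤ) *
        ex (eZ b i) (-1 : ℤ)) * ex (fZ b i) (1 : ℤ)) * ex (eZ b i) (-1 : ℤ) := by
        simp only [mul_assoc]
    _ = 1 := by rw [h1, mul_one, h2, mul_one, h1]

theorem nZ_mul' (b : P.Base) (i : b.support) : nZ' b i * nZ b i = 1 := by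
  have h1 := (DP_eZ (b := b) i).ex_neg_mul (1 : ℤ)
  have h2 := (DP_fZ (b := b) i).ex_mul_neg (1 : ℤ)
  unfold nZ nZ'
  calc ex (eZ b i) (-1 : ℤ) * ex (fZ b i) (1 : ℤ) * ex (eZ b i) (-1 : ℤ) *
        (ex (eZ b i) (1 : ℤ) * ex (fZ b i) (-1 : ℤ) * ex (eZ b i) (1 : ℤ))
      = ex (eZ b i) (-1 : ℤ) * (ex (fZ b i) (1 : ℤ) * (ex (eZ b i) (-1 : ℤ) *
        ex (eZ b i) (1 : ℤ)) * ex (fZ b i) (-1 : ℤ)) * ex (eZ b i) (1 : ℤ) := by
        simp only [mul_assoc]
    _ = 1 := by rw [h1, mul_one, h2, mul_one, h1]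

theorem nL_mul (b : P.Base) (l : List b.support) : nL b l * nL' b l = 1 := by
  induction l with
  | nil => simp [nL, nL']
  | cons i l ih =>
    have e1 : nL b (i :: l) = nZ b i * nL b l := by simp [nL]
    have e2 : nL' b (i :: l) = nL' b l * nZ' b i := by simp [nL']
    rw [e1, e2, mul_assoc, ← mul_assoc (nL b l), ih, one_mul, nZ_mul]

theorem nL_mul' (b : P.Base) (l : List b.support) : nL' b l * nL b l = 1 := by
  induction l with
  | nil => simp [nL, nL']
  | cons i l ih =>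
    have e1 : nL b (i :: l) = nZ b i * nL b l := by simp [nL]
    have e2 : nL' b (i :: l) = nL' b l * nZ' b i := by simp [nL']
    rw [e1, e2, mul_assoc, ← mul_assoc (nZ' b i), nZ_mul', one_mul, ih]

/-- The weights of the divided powers. PROOF: multiply by `k!`: `X ^ k` has the weight `k μ`. -/
theorem DP.dvp_wt {X : Matrix (I b) (I b) ℤ} (h : DP X) {μ : M} (hX : HasWt b μ X) (k : ℕ) : HasWt b ((k : ℚ) • μ) (dvp X k) := by
  have key : ∀ k : ℕ, HasWt b ((k : ℚ) • μ) (X ^ k) := by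
    intro k
    induction k with
    | zero =>
      rw [pow_zero, Nat.cast_zero, zero_smul]
      exact HasWt.one
    | succ k ih =>
      rw [pow_succ, Nat.cast_succ, add_smul, one_smul]
      exact ih.mul hX
  intro r c hrc
  refine key k r c fun h0 => hrc ?_
  change (X ^ k) r c / (k.factorial : ℤ) = 0
  rw [h0, Int.zero_ediv]

end

end Pool.Agent.Lib.L1S
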