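import Pool.Agent.Lib.L1S.L109

/-! # L1S, module L1, chunk L110 (S): `m e_i m⁻¹ = -s⁻² f_i`, `m f_i m⁻¹ = -s² e_i` -/

namespace Pool.Agent.Lib.L1S

open Matrix

noncomputable section

variable {ι M N : Type} [Fintype ι] [DecidableEq ι] [AddCommGroup M] [Module ℚ M] [AddCommGroup N] [Module ℚ N]
  {P : RootPairing ι ℚ M N} [P.IsCrystallographic] {b : P.Base} [P.IsReduced] [P.IsIrreducible] [P.IsRootSystem] {A : Type} [CommRing A] [Algebra ℚ A]

theorem l110_xE (i : b.support) (t : A) : ex (eZ b i) t * toA A (eZ b i) = toA A (eZ b i) * ex (eZ b i) t := by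
  have h := (DP_eZ (b := b) i).ex_comm3 (A := A) (Y := toA A (eZ b i)) (Z := 0) (W := 0) (sub_self _)
    (by rw [mul_zero, zero_mul, sub_self, smul_zero]) (by rw [mul_zero, zero_mul]) t
  rwa [smul_zero, smul_zero, add_zero, add_zero] at h

theorem l110_yF (i : b.support) (t : A) : ex (fZ b i) t * toA A (fZ b i) = toA A (fZ b i) * ex (fZ b i) t := by
  have h := (DP_fZ (b := b) i).ex_comm3 (A := A) (Y := toA A (fZ b i)) (Z := 0) (W := 0) (sub_self _)
    (by rw [mul_zero, zero_mul, sub_self, smul_zero]) (by rw [mul_zero, zero_mul]) t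
  rwa [smul_zero, smul_zero, add_zero, add_zero] at h

/-- PROOF: `t = -1/s`. `exp(se) e = e exp(se)`; `exp(tf) e = (e - t h - t² f) exp(tf)`; `exp(se) (e - t h - t² f) = (e - t (h - 2 s e) - t² (f + s h - s² e)) exp(se) = -t² f exp(se)` because `1 + 2 s t + s² t² = 0`, `t + s t² = 0`. -/
theorem mm_eZ (i : b.support) (s : Aˣ) : mm b i s * toA A (eZ b i) = (-(((s⁻¹ : Aˣ) : A) ^ 2) • toA A (fZ b i)) * mm b i s := by
  obtain ⟨t, ht⟩ : ∃ t : A, t = -((s⁻¹ : Aˣ) : A) := ⟨_, rfl⟩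
  have hst : (s : A) * t = -1 := by
    rw [ht, mul_neg, Units.mul_inv]
  have ht2 : ((s⁻¹ : Aˣ) : A) ^ 2 = t ^ 2 := by
    rw [ht, neg_sq]
  unfold mm
  rw [ht2, ← ht]
  have hxE := l110_xE (b := b) i (s : A)
  have hyE := ex_fZ_eZ (b := b) i t
  have hxF := ex_eZ_fZ (b := b) i (s : A)
  have hxH := ex_eZ_hZ (b := b) i (s : A)
  generalize ex (eZ b i) (s : A) = x at *
  generalize ex (fZ b i) t = y at *
  generalize toA A (eZ b i) = E' at *
  generalize toA A (fZ b i) = F at *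
  generalize toA A (hZ b i) = H at *
  have h1 : x * (E' - t • H - t ^ 2 • F) = (-(t ^ 2) • F) * x := by
    have h2 : x * (E' - t • H - t ^ 2 • F) =
        (E' - t • (H - (2 * (s : A)) • E') - t ^ 2 • (F + (s : A) • H - (s : A) ^ 2 • E')) * x := by
      rw [mul_sub, mul_sub, mul_smul_comm, mul_smul_comm, hxE, hxF, hxH]
      simp only [sub_mul, add_mul, smul_mul_assoc]
    have h3 : E' - t • (H - (2 * (s : A)) • E') - t ^ 2 • (F + (s : A) • H - (s : A) ^ 2 • E') =
        (1 + 2 * ((s : A) * t) + ((s : A) * t) ^ 2) • E' + (-(t * (1 + (s : A) * t))) • H +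
          (-(t ^ 2)) • F := by module
    rw [h2, h3, hst]
    congr 1
    module
  calc x * y * x * E' = x * (y * E') * x := by rw [mul_assoc, hxE]; noncomm_ring
    _ = (x * (E' - t • H - t ^ 2 • F)) * y * x := by rw [hyE]; noncomm_ring
    _ = (-(t ^ 2) • F) * (x * y * x) := by rw [h1]; noncomm_ring

/-- PROOF: `exp(se) f = (f + s h - s² e) exp(se)`, `exp(tf) (f + s h - s² e) = (f + s (h + 2 t f) - s² (e - t h - t² f)) exp(tf) = -s² e exp(tf)`. -/
theorem mm_fZ (i : b.support) (s : Aˣ) : mm b i s * toA A (fZ b i) = (-((s : A) ^ 2) • toA A (eZ b i)) * mm b i s := by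
  obtain ⟨t, ht⟩ : ∃ t : A, t = -((s⁻¹ : Aˣ) : A) := ⟨_, rfl⟩
  have hst : (s : A) * t = -1 := by
    rw [ht, mul_neg, Units.mul_inv]
  unfold mm
  rw [← ht]
  have hxE := l110_xE (b := b) i (s : A)
  have hyE := ex_fZ_eZ (b := b) i t
  have hyF := l110_yF (b := b) i t
  have hxF := ex_eZ_fZ (b := b) i (s : A)
  have hyH := ex_fZ_hZ (b := b) i t
  generalize ex (eZ b i) (s : A) = x at *
  generalize ex (fZ b i) t = y at *
  generalize toA A (eZ b i) = E' at *
  generalize toA A (fZ b i) = F at *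
  generalize toA A (hZ b i) = H at *
  have h1 : y * (F + (s : A) • H - (s : A) ^ 2 • E') = (-((s : A) ^ 2) • E') * y := by
    have h2 : y * (F + (s : A) • H - (s : A) ^ 2 • E') =
        (F + (s : A) • (H + (2 * t) • F) - (s : A) ^ 2 • (E' - t • H - t ^ 2 • F)) * y := by
      rw [mul_sub, mul_add, mul_smul_comm, mul_smul_comm, hyE, hyF, hyH]
      simp only [sub_mul, add_mul, smul_mul_assoc]
    have h3 : F + (s : A) • (H + (2 * t) • F) - (s : A) ^ 2 • (E' - t • H - t ^ 2 • F) =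
        (1 + 2 * ((s : A) * t) + ((s : A) * t) ^ 2) • F + ((s : A) * (1 + (s : A) * t)) • H +
          (-((s : A) ^ 2)) • E' := by module
    rw [h2, h3, hst]
    congr 1
    module
  calc x * y * x * F = x * (y * (F + (s : A) • H - (s : A) ^ 2 • E')) * x := by
        rw [mul_assoc, hxF]; noncomm_ring
    _ = (-((s : A) ^ 2)) • ((x * E') * y * x) := by
        rw [h1, smul_mul_assoc, mul_smul_comm, smul_mul_assoc, ← mul_assoc]
    _ = (-((s : A) ^ 2) • E') * (x * y * x) := by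
        rw [hxE, smul_mul_assoc, mul_assoc, mul_assoc, mul_assoc]

omit [Algebra ℚ A] in
theorem l110_ex {n : Type} [Fintype n] [DecidableEq n] (X : Matrix n n ℤ) (t : ℤ) :
    toA A (ex X t) = ex X (t : A) := ex_map X (Int.castRingHom A) t

omit [Algebra ℚ A] in
theorem toA_nZ (i : b.support) : toA A (nZ b i) = mm b i (1 : Aˣ) := by
  unfold nZ mm
  rw [toA_mul, toA_mul, l110_ex, l110_ex, inv_one, Units.val_one, Int.cast_one, Int.cast_neg,
    Int.cast_one]

omit [Algebra ℚ A] in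
theorem toA_nZ' (i : b.support) : toA A (nZ' b i) = mm' b i (1 : Aˣ) := by
  unfold nZ' mm'
  rw [toA_mul, toA_mul, l110_ex, l110_ex, inv_one, Units.val_one, Int.cast_one, Int.cast_neg,
    Int.cast_one]

/-- PROOF: over `ℚ` (`toA_nZ`, `mm_over`, `OverW.of_toA`). -/
theorem nZ_over (b : P.Base) (i : b.support) : OverW b (P.reflection i) (nZ b i) := by
  refine OverW.of_toA (A := ℚ) ?_
  rw [toA_nZ]
  exact mm_over i 1

theorem nZ_over' (b : P.Base) (i : b.support) : OverW b (P.reflection i) (nZ' b i) := by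
  refine OverW.of_toA (A := ℚ) ?_
  rw [toA_nZ']
  exact mm_over' i 1

/-- `f_i = - n_i e_i n_i⁻¹`. -/
theorem fZ_eq (i : b.support) : fZ b i = -(nZ b i * eZ b i * nZ' b i) := by
  refine toA_inj (A := ℚ) ?_
  have h1 := mm_eZ (b := b) (A := ℚ) i 1
  have h2 : toA ℚ (-(nZ b i * eZ b i * nZ' b i)) = -(toA ℚ (nZ b i * eZ b i * nZ' b i)) := by
    ext r c
    simp [toA]
  rw [h2, toA_mul, toA_mul, toA_nZ, toA_nZ', h1, inv_one, Units.val_one, one_pow, mul_assoc,
    mm_mul, mul_one, neg_smul, one_smul, neg_neg]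

end

end Pool.Agent.Lib.L1S
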