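import Pool.Agent.Lib.L1S.L110

/-! # L1S, module L1, chunk L117 (S): words in the Weyl group -/

namespace Pool.Agent.Lib.L1S

open Matrix

noncomputable section

variable {ι M N : Type} [Fintype ι] [DecidableEq ι] [AddCommGroup M] [Module ℚ M] [AddCommGroup N] [Module ℚ N]
  {P : RootPairing ι ℚ M N} [P.IsCrystallographic] {b : P.Base} [P.IsReduced] [P.IsIrreducible] [P.IsRootSystem]

omit [Fintype ι] [DecidableEq ι] [P.IsCrystallographic] [P.IsReduced] [P.IsIrreducible] [P.IsRootSystem] in
theorem l117_root_ng (β : ι) : P.root (ng P β) = -P.root β := by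
  rw [P.root_reflectionPerm, P.reflection_apply_self]

omit [P.IsReduced] [P.IsIrreducible] [P.IsRootSystem] in
theorem l117_cons (i : b.support) (l : List b.support) (β : ι) :
    wL b (i :: l) β = P.reflectionPerm i (wL b l β) := rfl

omit [P.IsReduced] [P.IsIrreducible] [P.IsRootSystem] in
theorem l117_ng (l : List b.support) (β : ι) : wL b l (ng P β) = ng P (wL b l β) := by
  induction l with
  | nil => rfl
  | cons i l ih =>
    rw [l117_cons, l117_cons, ih]
    refine P.root.injective ?_
    rw [P.root_reflectionPerm, l117_root_ng, map_neg, ← P.root_reflectionPerm, l117_root_ng]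

/-- Every root is conjugate to a simple root. PROOF: `b.induction_reflect` (Mathlib); `-(w α_i) = w s_i α_i`. -/
theorem exists_word (b : P.Base) (β : ι) : ∃ p : List b.support × b.support, wL b p.1 p.2 = β := by
  refine b.induction_reflect β (p := fun β => ∃ p : List b.support × b.support, wL b p.1 p.2 = β)
    ?_ ?_ ?_
  · rintro β ⟨⟨l, i⟩, rfl⟩
    refine ⟨⟨l ++ [i], i⟩, ?_⟩
    have h1 : wL b (l ++ [i]) (i : ι) = wL b l (ng P i) := by
      unfold wL
      rw [List.map_append, List.prod_append, List.map_singleton, List.prod_singleton,
        Equiv.Perm.mul_apply]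
    rw [h1]
    exact l117_ng l i
  · intro i hi
    exact ⟨⟨[], ⟨i, hi⟩⟩, rfl⟩
  · rintro β j ⟨⟨l, i⟩, rfl⟩ hj
    exact ⟨⟨⟨j, hj⟩ :: l, i⟩, rfl⟩

/-- The product of the reflections of a word. -/
def sL (b : P.Base) (l : List b.support) : M ≃ₗ[ℚ] M := (l.map fun i : b.support => P.reflection i).prod

theorem root_wL (l : List b.support) (β : ι) : P.root (wL b l β) = sL b l (P.root β) := by
  induction l with
  | nil => rfl
  | cons i l ih =>
    rw [l117_cons, P.root_reflectionPerm, ih]
    rfl

/-- PROOF: induction on the word, `nZ_over`, `OverW.mul`. -/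
theorem nL_over (l : List b.support) : OverW b (sL b l) (nL b l) := by
  induction l with
  | nil =>
    intro r c h
    have h1 : r = c := by
      by_contra hne
      exact h (Matrix.one_apply_ne hne)
    rw [h1]
    rfl
  | cons i l ih =>
    have h1 : nL b (i :: l) = nZ b i * nL b l := by
      unfold nL
      rw [List.map_cons, List.prod_cons]
    rw [h1]
    exact (nZ_over b i).mul ih

theorem nL_over' (l : List b.support) : OverW b (sL b l).symm (nL' b l) := by
  induction l with
  | nil =>
    intro r c h
    have h1 : r = c := by
      by_contra hne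
      exact h (Matrix.one_apply_ne hne)
    rw [h1]
    rfl
  | cons i l ih =>
    have h1 : nL' b (i :: l) = nL' b l * nZ' b i := by
      unfold nL'
      rw [List.reverse_cons, List.map_append, List.prod_append, List.map_singleton,
        List.prod_singleton]
    rw [h1]
    intro r c h
    have h2 := (ih.mul (nZ_over' b i)) r c h
    rw [h2]
    have h3 : sL b (i :: l) = (P.reflection i : M ≃ₗ[ℚ] M) * sL b l := rfl
    rw [h3, Function.comp_apply]
    refine ((LinearEquiv.symm_apply_eq _).2 ?_).symm
    rw [LinearEquiv.mul_apply, LinearEquiv.apply_symm_apply, P.reflection_same]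

theorem wL_append (l l' : List b.support) : wL b (l ++ l') = wL b l * wL b l' := by
  unfold wL
  rw [List.map_append, List.prod_append]

theorem nL_append (l l' : List b.support) : nL b (l ++ l') = nL b l * nL b l' := by
  unfold nL
  rw [List.map_append, List.prod_append]

theorem nL_append' (l l' : List b.support) : nL' b (l ++ l') = nL' b l' * nL' b l := by
  unfold nL'
  rw [List.reverse_append, List.map_append, List.prod_append]

end

end Pool.Agent.Lib.L1S
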