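import Pool.Agent.Lib.L1S.L117

/-! # L1S, module L1, chunk L118 (S/M): the root vectors `E_β` -/

namespace Pool.Agent.Lib.L1S

open Matrix

noncomputable section

variable {ι M N : Type} [Fintype ι] [DecidableEq ι] [AddCommGroup M] [Module ℚ M] [AddCommGroup N] [Module ℚ N]
  {P : RootPairing ι ℚ M N} [P.IsCrystallographic] [P.IsReduced] [P.IsIrreducible] [P.IsRootSystem] (b : P.Base)

theorem E_simple (i : b.support) : E b i = eZ b i := by
  classical
  have h : ∃ j : b.support, (j : ι) = (i : ι) := ⟨i, rfl⟩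
  unfold E
  rw [dif_pos h]
  congr 1
  exact Subtype.ext h.choose_spec

/-- PROOF: `-α_i` is not simple (heights: `b.height_reflectionPerm_self`, `b.height_one_of_mem_support`); `-α_i = -α_j` implies `i = j`. -/
theorem E_neg_simple (i : b.support) : E b (ng P i) = fZ b i := by
  classical
  have h0 : ¬ ∃ j : b.support, (j : ι) = ng P i := by
    rintro ⟨j, hj⟩
    have h1 := b.height_one_of_mem_support j.2
    have h2 := b.height_one_of_mem_support i.2
    have h3 : b.height (ng P i) = -b.height (i : ι) := b.height_reflectionPerm_self (i : ι)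
    rw [← hj, h1, h2] at h3
    norm_num at h3
  have h : ∃ j : b.support, ng P j = ng P i := ⟨i, rfl⟩
  unfold E
  rw [dif_neg h0, dif_pos h]
  congr 1
  refine Subtype.ext (P.root.injective ?_)
  have h1 := congrArg P.root h.choose_spec
  rw [l117_root_ng, l117_root_ng] at h1
  exact neg_injective h1

/-- Every root vector is conjugate to a simple one, up to sign. PROOF: the three cases of the definition: empty word; `fZ_eq` with the word `[i]` and `ε = -1`; the chosen word, `ε = 1` (`exists_word`). -/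
theorem E_word (β : ι) : ∃ (l : List b.support) (i : b.support) (ε : ℤ), (ε = 1 ∨ ε = -1) ∧ wL b l i = β ∧ E b β = ε • (nL b l * eZ b i * nL' b l) := by
  classical
  by_cases h1 : ∃ i : b.support, (i : ι) = β
  · obtain ⟨i, rfl⟩ := h1
    refine ⟨[], i, 1, Or.inl rfl, rfl, ?_⟩
    rw [E_simple, one_smul]
    unfold nL nL'
    simp
  · by_cases h2 : ∃ i : b.support, ng P i = β
    · obtain ⟨i, rfl⟩ := h2
      refine ⟨[i], i, -1, Or.inr rfl, rfl, ?_⟩
      rw [E_neg_simple, fZ_eq]
      unfold nL nL'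
      simp
    · have h3 := exists_word b β
      refine ⟨h3.choose.1, h3.choose.2, 1, Or.inl rfl, h3.choose_spec, ?_⟩
      unfold E
      rw [dif_neg h1, dif_neg h2, dif_pos h3, one_smul]

/-- PROOF: `E_word`, `DP_eZ`, `DP.conjW`, `DP.smul`. -/
theorem DP_E (β : ι) : DP (E b β) := by
  obtain ⟨l, i, ε, hε, -, h⟩ := E_word b β
  rw [h]
  exact DP.smul hε (DP.conjW (nL_mul' b l) (nL_mul b l) (DP_eZ i))

/-- PROOF: `E_word`, `OverW.conj` with `s = sL b l`, `root_wL`. -/
theorem hasWt_E (β : ι) : HasWt b (P.root β) (E b β) := by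
  obtain ⟨l, i, ε, -, hβ, h⟩ := E_word b β
  have h1 := OverW.conj (sL b l) (nL_over l) (nL_over' l) (hasWt_eZ i)
  rw [← root_wL, hβ] at h1
  rw [h]
  exact h1.smul ε

/-- `(E_β ^ k / k!) V_γ ⊆ V_(γ + k β)`. PROOF: `DP.dvp_wt`. -/
theorem dvp_wt (β : ι) (k : ℕ) (r c : I b) (h : dvp (E b β) k r c ≠ 0) : wt b r = wt b c + (k : ℚ) • P.root β := by
  exact (DP_E b β).dvp_wt (hasWt_E b β) k r c h

theorem E_simple_entry (i j : b.support) : E b i (Sum.inl j) (Sum.inr (ng P i)) = if j = i then 1 else 0 := by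
  rw [E_simple]
  exact eZ_entry i j

end

end Pool.Agent.Lib.L1S
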