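import Pool.Agent.Lib.L1S.L118

/-! # L1S, module L1, chunk L119 (M): the coordinate functional -/

namespace Pool.Agent.Lib.L1S

open Matrix

noncomputable section

variable {ι M N : Type} [Fintype ι] [DecidableEq ι] [AddCommGroup M] [Module ℚ M] [AddCommGroup N] [Module ℚ N]
  {P : RootPairing ι ℚ M N} [P.IsCrystallographic] [P.IsReduced] [P.IsIrreducible] [P.IsRootSystem] (b : P.Base) {A : Type} [CommRing A]

/-- Coordinate functional: integers `z_j` with `∑ z_j E_β(u_j, v_(-β)) = 1`.
PROOF: `E_β = ε w e_i w'` (`E_word`; `w = nL b l`, `w' = nL' b l`), `β = w α_i`. By the weights (`nL_over`, `nL_over'`, `hasWt_eZ`; a root is not `0`, `wt (inr γ) = wt (inr δ)` only for `γ = δ`):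
`E_β(inl j, inr (-β)) = ε ∑_k w(inl j, inl k) e_i(inl k, inr (-i)) w'(inr (-i), inr (-β)) = ε w(inl j, inl i) u` with `u = w'(inr (-i), inr (-β))` (`eZ_entry`), and `u = ± 1` because
`w(inr (-β), inr (-i)) u = (w w')(inr (-β), inr (-β)) = 1` in `ℤ`. Take `z_j = ε u w'(inl i, inl j)`: `∑_j w'(inl i, inl j) w(inl j, inl i) = (w' w)(inl i, inl i) = 1` (the other terms `w'(inl i, inr γ)` vanish). -/
theorem exists_cf (β : ι) : ∃ z : b.support → ℤ, ∑ j, z j * E b β (Sum.inl j) (Sum.inr (ng P β)) = 1 := by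
  obtain ⟨l, i, ε, hε, hw, hE⟩ := E_word b β
  have hε2 : ε * ε = 1 := by
    rcases hε with rfl | rfl <;> norm_num
  have hroot : P.root β = sL b l (P.root i) := by rw [← hw, root_wL]
  have hneg : ∀ γ : ι, P.root (ng P γ) = -P.root γ := fun γ => by simp
  have hs : (sL b l).symm (P.root (ng P β)) = P.root (ng P i) := by
    rw [hneg, hneg, hroot, map_neg, LinearEquiv.symm_apply_apply]
  -- the entry `u`
  set u : ℤ := nL' b l (Sum.inr (ng P i)) (Sum.inr (ng P β)) with hu
  have hcol : ∀ k : I b, nL' b l k (Sum.inr (ng P β)) ≠ 0 → k = Sum.inr (ng P i) := by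
    intro k hk
    have h1 : wt b k = (sL b l).symm (P.root (ng P β)) := nL_over' l k _ hk
    rw [hs] at h1
    rcases k with j | γ
    · exact absurd (show (0 : M) = P.root (ng P i) from h1).symm (P.ne_zero _)
    · have h2 : P.root γ = P.root (ng P i) := h1
      rw [P.root.injective h2]
  have hu1 : nL b l (Sum.inr (ng P β)) (Sum.inr (ng P i)) * u = 1 := by
    have h1 : (nL b l * nL' b l) (Sum.inr (ng P β)) (Sum.inr (ng P β)) = 1 := by
      rw [nL_mul, Matrix.one_apply_eq]
    rw [Matrix.mul_apply, Finset.sum_eq_single (Sum.inr (ng P i))] at h1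
    · exact h1
    · intro k _ hk
      have : nL' b l k (Sum.inr (ng P β)) = 0 := by
        by_contra hne
        exact hk (hcol k hne)
      rw [this, mul_zero]
    · intro h
      exact absurd (Finset.mem_univ _) h
  have hu2 : u * u = 1 := by
    rcases Int.eq_one_or_neg_one_of_mul_eq_one' hu1 with ⟨-, h⟩ | ⟨-, h⟩ <;> rw [h] <;> norm_num
  have hwe : ∀ j : b.support, (nL b l * eZ b i) (Sum.inl j) (Sum.inr (ng P i)) = nL b l (Sum.inl j) (Sum.inl i) := by
    intro j
    rw [Matrix.mul_apply, Finset.sum_eq_single (Sum.inl i)]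
    · rw [eZ_entry, if_pos rfl, mul_one]
    · intro k _ hk
      have : eZ b i k (Sum.inr (ng P i)) = 0 := by
        by_contra hne
        have h1 := hasWt_eZ i k _ hne
        have h2 : wt b k = 0 := by
          rw [h1]
          change P.root (ng P i) + P.root i = 0
          rw [hneg, neg_add_cancel]
        rcases k with k | γ
        · rw [eZ_entry] at hne
          by_cases h3 : k = i
          · exact hk (by rw [h3])
          · rw [if_neg h3] at hne
            exact hne rfl
        · exact P.ne_zero γ h2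
      rw [this, mul_zero]
    · intro h
      exact absurd (Finset.mem_univ _) h
  have hent : ∀ j : b.support, E b β (Sum.inl j) (Sum.inr (ng P β)) = ε * (nL b l (Sum.inl j) (Sum.inl i) * u) := by
    intro j
    rw [hE, Matrix.smul_apply, smul_eq_mul, Matrix.mul_apply, Finset.sum_eq_single (Sum.inr (ng P i))]
    · rw [hwe]
    · intro k _ hk
      have : nL' b l k (Sum.inr (ng P β)) = 0 := by
        by_contra hne
        exact hk (hcol k hne)
      rw [this, mul_zero]
    · intro h
      exact absurd (Finset.mem_univ _) h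
  refine ⟨fun j => ε * u * nL' b l (Sum.inl i) (Sum.inl j), ?_⟩
  have h1 : (nL' b l * nL b l) (Sum.inl i) (Sum.inl i) = 1 := by
    rw [nL_mul', Matrix.one_apply_eq]
  rw [Matrix.mul_apply, Fintype.sum_sum_type] at h1
  have h2 : ∑ γ : ι, nL' b l (Sum.inl i) (Sum.inr γ) * nL b l (Sum.inr γ) (Sum.inl i) = 0 := by
    refine Finset.sum_eq_zero fun γ _ => ?_
    have : nL' b l (Sum.inl i) (Sum.inr γ) = 0 := by
      by_contra hne
      have h3 : (0 : M) = (sL b l).symm (P.root γ) := nL_over' l _ _ hne
      have h4 : P.root γ = 0 := by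
        rw [eq_comm, LinearEquiv.symm_apply_eq, map_zero] at h3
        exact h3
      exact P.ne_zero γ h4
    rw [this, zero_mul]
  rw [h2, add_zero] at h1
  calc ∑ j, ε * u * nL' b l (Sum.inl i) (Sum.inl j) * E b β (Sum.inl j) (Sum.inr (ng P β)) =
      ∑ j, ε * ε * (u * u) * (nL' b l (Sum.inl i) (Sum.inl j) * nL b l (Sum.inl j) (Sum.inl i)) := by
        refine Finset.sum_congr rfl fun j _ => ?_
        rw [hent]
        ring
    _ = 1 := by
        rw [← Finset.mul_sum, h1, hε2, hu2]
        norm_num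

/-- The coefficient of `E_β`: an integral linear combination of the entries `(u_j, v_(-β))`. -/
def cf (β : ι) (X : Matrix (I b) (I b) A) : A := ∑ j, ((exists_cf b β).choose j : A) * X (Sum.inl j) (Sum.inr (ng P β))

theorem cf_add (β : ι) (X Y : Matrix (I b) (I b) A) : cf b β (X + Y) = cf b β X + cf b β Y := by
  simp only [cf, Matrix.add_apply, mul_add, Finset.sum_add_distrib]

theorem cf_smul (β : ι) (a : A) (X : Matrix (I b) (I b) A) : cf b β (a • X) = a * cf b β X := by
  simp only [cf, Matrix.smul_apply, smul_eq_mul, Finset.mul_sum]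
  exact Finset.sum_congr rfl fun j _ => by ring

theorem cf_sum (β : ι) {κ : Type} (s : Finset κ) (X : κ → Matrix (I b) (I b) A) : cf b β (∑ k ∈ s, X k) = ∑ k ∈ s, cf b β (X k) := by
  simp only [cf, Matrix.sum_apply, Finset.mul_sum]
  rw [Finset.sum_comm]

/-- PROOF: for `γ ≠ β` the entries `(inl j, inr (-β))` of `E_γ` vanish by the weight (`hasWt_E`, `P.root` injective). -/
theorem cf_E (β γ : ι) : cf b β (toA A (E b γ)) = if γ = β then 1 else 0 := by
  by_cases h : γ = β
  · subst h
    rw [if_pos rfl]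
    have h1 := (exists_cf b γ).choose_spec
    have h2 : (((∑ j, (exists_cf b γ).choose j * E b γ (Sum.inl j) (Sum.inr (ng P γ)) : ℤ)) : A) = 1 := by
      rw [h1, Int.cast_one]
    rw [Int.cast_sum] at h2
    rw [← h2, cf]
    refine Finset.sum_congr rfl fun j _ => ?_
    rw [Int.cast_mul]
    rfl
  · rw [if_neg h, cf]
    refine Finset.sum_eq_zero fun j _ => ?_
    have h1 : E b γ (Sum.inl j) (Sum.inr (ng P β)) = 0 := by
      by_contra hne
      have h2 : (0 : M) = P.root (ng P β) + P.root γ := hasWt_E b γ _ _ hne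
      have h3 : P.root (ng P β) = -P.root β := by simp
      rw [h3] at h2
      apply h
      apply P.root.injective
      exact (neg_add_eq_zero.1 h2.symm).symm
    have h4 : toA A (E b γ) (Sum.inl j) (Sum.inr (ng P β)) = ((E b γ (Sum.inl j) (Sum.inr (ng P β)) : ℤ) : A) := rfl
    rw [h4, h1, Int.cast_zero, mul_zero]

theorem cf_h (β : ι) (i : b.support) : cf b β (toA A (hZ b i)) = 0 := by
  refine Finset.sum_eq_zero fun j _ => ?_
  have h4 : toA A (hZ b i) (Sum.inl j) (Sum.inr (ng P β)) = ((hZ b i (Sum.inl j) (Sum.inr (ng P β)) : ℤ) : A) := rfl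
  have h1 : hZ b i (Sum.inl j) (Sum.inr (ng P β)) = 0 := Matrix.diagonal_apply_ne _ Sum.inl_ne_inr
  rw [h4, h1, Int.cast_zero, mul_zero]

end

end Pool.Agent.Lib.L1S
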