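import Pool.Agent.Lib.L1S.L116
import Pool.Agent.Lib.L1S.L118

/-! # L1S, module L1, chunk L120 (S/M): Geck's Lie algebra is the span of the `h_i` and the `E_β` -/

namespace Pool.Agent.Lib.L1S

open Matrix

noncomputable section

attribute [local instance 100] LieRing.ofAssociativeRing

variable {ι M N : Type} [Fintype ι] [DecidableEq ι] [AddCommGroup M] [Module ℚ M] [AddCommGroup N] [Module ℚ N]
  {P : RootPairing ι ℚ M N} [P.IsCrystallographic] [P.IsReduced] [P.IsIrreducible] [P.IsRootSystem] (b : P.Base)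

/-- PROOF: `E_word`, `gg_nL`, `eZ_mem`. -/
theorem E_mem (β : ι) : toA ℚ (E b β) ∈ gg b := by
  obtain ⟨l, i, ε, -, -, h⟩ := E_word b β
  rw [h, toA_zsmul, toA_mul, toA_mul]
  exact zsmul_mem (gg_nL l (eZ_mem i)) ε

/-- **The root spaces are lines.** PROOF: `E_β = ε w e_i w'`, `X' = w' X w ∈ gg b` (`gg_nL'`) has the weight `(sL b l).symm (root β) = root i` (`OverW.conj`, `root_wL`), so `X' = a e_i` (`gg_simple` with `m = 1`) and `X = w X' w' = a ε E_β`. -/
theorem gg_E {X : Matrix (I b) (I b) ℚ} (hX : X ∈ gg b) (β : ι) (h : HasWt b (P.root β) X) : ∃ a : ℚ, X = a • toA ℚ (E b β) := by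
  obtain ⟨l, i, ε, hε, hw, hE⟩ := E_word b β
  have h1 : toA ℚ (nL' b l) * X * toA ℚ (nL b l) ∈ gg b := gg_nL' l hX
  have h2 : HasWt b ((sL b l).symm (P.root β)) (toA ℚ (nL' b l) * X * toA ℚ (nL b l)) := by
    refine OverW.conj (sL b l).symm ?_ ?_ h
    · exact (nL_over' l).toA
    · rw [LinearEquiv.symm_symm]
      exact (nL_over l).toA
  have h3 : (sL b l).symm (P.root β) = P.root i := by
    rw [← hw, root_wL, LinearEquiv.symm_apply_apply]
  rw [h3] at h2
  obtain ⟨a, ha⟩ := gg_simple h1 i one_ne_zero (by simpa using h2)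
  have h4 : toA ℚ (nL b l) * toA ℚ (nL' b l) = 1 := by rw [← toA_mul, nL_mul, toA_one]
  have h5 : X = toA ℚ (nL b l) * (toA ℚ (nL' b l) * X * toA ℚ (nL b l)) * toA ℚ (nL' b l) := by
    calc X = (toA ℚ (nL b l) * toA ℚ (nL' b l)) * X * (toA ℚ (nL b l) * toA ℚ (nL' b l)) := by rw [h4]; simp
      _ = _ := by simp only [Matrix.mul_assoc]
  have h6 : toA ℚ (nL b l) * toA ℚ (eZ b i) * toA ℚ (nL' b l) = (ε : ℚ) • toA ℚ (E b β) := by
    rw [hE, toA_zsmul, toA_mul, toA_mul]
    rcases hε with rfl | rfl <;> simp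
  refine ⟨a * ε, ?_⟩
  rw [h5, ha, mul_smul, ← h6]
  simp

/-- PROOF: `⊆`: `gg_decomp`; the elements of `TE`, `TF` are in `gg b` and homogeneous of a nonzero weight (linear independence of the simple roots), so zero or of the weight `root β` (`gg_root`) and then multiples of `E_β` (`gg_E`).
`⊇`: `hZ_mem`, `E_mem`. -/
theorem gg_iff (X : Matrix (I b) (I b) ℚ) : X ∈ gg b ↔ X ∈ gR b ℚ := by
  have lin : ∀ n : b.support → ℕ, n ≠ 0 → ∑ i, (n i : ℚ) • P.root i ≠ 0 := by
    intro n hn h0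
    apply hn
    have h1 : LinearIndependent ℚ (fun i : b.support => P.root i) := b.linearIndepOn_root
    rw [Fintype.linearIndependent_iff] at h1
    funext i
    have := h1 (fun i => (n i : ℚ)) h0 i
    exact_mod_cast this
  have key : ∀ (g : b.support → Matrix (I b) (I b) ℚ) (σ : ℚ), σ ≠ 0 → ∀ Y ∈ TS b g σ, Y ∈ gR b ℚ := by
    rintro g σ hσ Y ⟨hY, n, hn, hwt, -⟩
    by_cases h0 : Y = 0
    · rw [h0]
      exact Submodule.zero_mem _
    · obtain ⟨β, hβ⟩ := gg_root hY h0 (smul_ne_zero hσ (lin n hn)) hwt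
      rw [← hβ] at hwt
      obtain ⟨a, ha⟩ := gg_E b hY β hwt
      rw [ha]
      exact Submodule.smul_mem _ _ (Submodule.subset_span (Or.inr ⟨β, rfl⟩))
  constructor
  · intro hX
    obtain ⟨H, hH, U, hU, L, hL, e⟩ := gg_decomp hX
    rw [e]
    refine Submodule.add_mem _ (Submodule.add_mem _ ?_ ?_) ?_
    · exact Submodule.span_mono Set.subset_union_left hH
    · exact (Submodule.span_le.2 fun Y hY => key _ 1 one_ne_zero Y hY) hU
    · exact (Submodule.span_le.2 fun Y hY => key _ (-1) (by norm_num) Y hY) hL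
  · intro hX
    have : gR b ℚ ≤ (gg b).toSubmodule := by
      rw [gR, Submodule.span_le]
      rintro Y (⟨i, rfl⟩ | ⟨β, rfl⟩)
      · exact hZ_mem i
      · exact E_mem b β
    exact this hX

end

end Pool.Agent.Lib.L1S
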