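import Pool.Agent.Lib.L1S.L119
import Pool.Agent.Lib.L1S.L120

/-! # L1S, module L1, chunk L121 (S/M): `n_i E_β n_i⁻¹ = ± E_(s_i β)` -/

namespace Pool.Agent.Lib.L1S

open Matrix

noncomputable section

attribute [local instance 100] LieRing.ofAssociativeRing

variable {ι M N : Type} [Fintype ι] [DecidableEq ι] [AddCommGroup M] [Module ℚ M] [AddCommGroup N] [Module ℚ N]
  {P : RootPairing ι ℚ M N} [P.IsCrystallographic] [P.IsReduced] [P.IsIrreducible] [P.IsRootSystem] (b : P.Base)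

/-- An integral matrix in `g` of the weight `γ` is an integral multiple of `E_γ`. -/
theorem l121_int {Y : Matrix (I b) (I b) ℤ} (hY : toA ℚ Y ∈ gg b) (γ : ι)
    (h : HasWt b (P.root γ) Y) : ∃ m : ℤ, Y = m • E b γ := by
  obtain ⟨a, ha⟩ := gg_E b hY γ h.toA
  have h1 : cf b γ (toA ℚ Y) = a := by
    rw [ha, cf_smul, cf_E, if_pos rfl, mul_one]
  have h2 : cf b γ (toA ℚ Y) =
      ((∑ j, (exists_cf b γ).choose j * Y (Sum.inl j) (Sum.inr (ng P γ)) : ℤ) : ℚ) := by
    unfold cf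
    push_cast
    rfl
  refine ⟨∑ j, (exists_cf b γ).choose j * Y (Sum.inl j) (Sum.inr (ng P γ)), ?_⟩
  refine toA_inj (A := ℚ) ?_
  rw [toA_zsmul, ha, ← h1, h2]
  exact Int.cast_smul_eq_zsmul ℚ _ _

/-- `n_i E_β n_i⁻¹ = ± E_(s_i β)`. PROOF: over `ℚ` the left side lies in `gg b` (`E_mem`, `gg_nZ`) and has the weight `s_i (root β)` (`OverW.conj`), so it is `a E_(s_i β)`, `a ∈ ℚ` (`gg_E`); applying `cf b (s_i β)` (which maps
`toA ℚ` of an integral matrix to an integer, `cf_smul`, `cf_E`) `a` is an integer; in the same way `n_i⁻¹ E_(s_i β) n_i = a' E_β` with an integer `a'`, and `a a' = 1`. -/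
theorem nZ_E (i : b.support) (β : ι) : ∃ ε : ℤ, (ε = 1 ∨ ε = -1) ∧ nZ b i * E b β * nZ' b i = ε • E b (P.reflectionPerm i β) := by
  have hw : HasWt b (P.root (P.reflectionPerm i β)) (nZ b i * E b β * nZ' b i) := by
    rw [P.root_reflectionPerm]
    exact OverW.conj (P.reflection i) (nZ_over b i) (nZ_over' b i) (hasWt_E b β)
  have hg : toA ℚ (nZ b i * E b β * nZ' b i) ∈ gg b := by
    rw [toA_mul, toA_mul]
    exact gg_nZ i (E_mem b β)
  obtain ⟨m, hm⟩ := l121_int b hg _ hw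
  have hw' : HasWt b (P.root β) (nZ' b i * E b (P.reflectionPerm i β) * nZ b i) := by
    have h1 := OverW.conj (P.reflection i) (nZ_over' b i) (nZ_over b i)
      (hasWt_E b (P.reflectionPerm i β))
    rwa [P.root_reflectionPerm, P.reflection_same] at h1
  have hg' : toA ℚ (nZ' b i * E b (P.reflectionPerm i β) * nZ b i) ∈ gg b := by
    rw [toA_mul, toA_mul]
    exact gg_nZ' i (E_mem b _)
  obtain ⟨m', hm'⟩ := l121_int b hg' _ hw'
  have h1 : E b β = (m * m') • E b β := by
    have h2 : nZ' b i * (nZ b i * E b β * nZ' b i) * nZ b i = E b β := by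
      have h3 : nZ' b i * (nZ b i * E b β * nZ' b i) * nZ b i =
          (nZ' b i * nZ b i) * E b β * (nZ' b i * nZ b i) := by
        simp only [mul_assoc]
      rw [h3, nZ_mul', one_mul, mul_one]
    calc E b β = nZ' b i * (nZ b i * E b β * nZ' b i) * nZ b i := h2.symm
      _ = m • (nZ' b i * E b (P.reflectionPerm i β) * nZ b i) := by
        rw [hm, mul_smul_comm, smul_mul_assoc]
      _ = (m * m') • E b β := by rw [hm', smul_smul]
  have h2 : m * m' = 1 := by
    have h3 : cf b β (toA ℚ (E b β)) = cf b β (toA ℚ ((m * m') • E b β)) :=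
      congrArg (fun X => cf b β (toA ℚ X)) h1
    rw [toA_zsmul, ← Int.cast_smul_eq_zsmul ℚ, cf_smul, cf_E, if_pos rfl, mul_one] at h3
    exact_mod_cast h3.symm
  exact ⟨m, Int.isUnit_iff.1 (IsUnit.of_mul_eq_one _ h2), hm⟩

end

end Pool.Agent.Lib.L1S
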