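import Pool.Agent.Lib.L1S.L118

/-! # L1S, module L1, chunk L122 (S/M): the elements `x_β(t)` and `m_i(s)` of `GL`, generation of `G(K)` -/

namespace Pool.Agent.Lib.L1S

open Matrix

noncomputable section

variable {ι M N : Type} [Fintype ι] [DecidableEq ι] [AddCommGroup M] [Module ℚ M] [AddCommGroup N] [Module ℚ N]
  {P : RootPairing ι ℚ M N} [P.IsCrystallographic] [P.IsReduced] [P.IsIrreducible] [P.IsRootSystem] (b : P.Base)
  {A B : Type} [CommRing A] [CommRing B]

theorem xx_add (β : ι) (s t : A) : xx b β (s + t) = xx b β s * xx b β t := (DP_E b β).ex_add s t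

omit [P.IsReduced] [P.IsIrreducible] [P.IsRootSystem] in
theorem xx_map (β : ι) (f : A →+* B) (t : A) : (xx b β t).map f = xx b β (f t) := ex_map _ f t

/-- `x_β(t)` as an element of `GL`. -/
def xG (β : ι) (t : A) : GL (I b) A := ⟨xx b β t, xx b β (-t), (DP_E b β).ex_mul_neg t, (DP_E b β).ex_neg_mul t⟩

theorem xG_add (β : ι) (s t : A) : xG b β (s + t) = xG b β s * xG b β t := Units.ext (xx_add b β s t)

theorem xG_map (β : ι) (f : A →+* B) (t : A) : GeneralLinearGroup.map f (xG b β t) = xG b β (f t) := Units.ext (xx_map b β f t)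

theorem xG_inv (β : ι) (t : A) : (xG b β t)⁻¹ = xG b β (-t) := by
  exact Units.ext rfl

theorem xG_zero (β : ι) : xG b β (0 : A) = 1 := by
  exact Units.ext (ex_zero _)

/-- PROOF: `toA_eZ` and `Rat.cast`. -/
theorem eM_eq (K : Type) [Field K] [CharZero K] (i : b.support) : eM b K i = toA K (eZ b i) := by
  unfold eM
  rw [← toA_eZ]
  ext r c
  simp [toA]

theorem fM_eq (K : Type) [Field K] [CharZero K] (i : b.support) : fM b K i = toA K (fZ b i) := by
  unfold fM
  rw [← toA_fZ]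
  ext r c
  simp [toA]

/-- `G(K)` is generated by the `x_(±α_i)(t)`. PROOF: `DP.ex_eq_exp`, `E_simple`, `E_neg_simple`, `eM_eq`, `fM_eq`. -/
theorem GQ_eq (K : Type) [Field K] [CharZero K] :
    GQ b K = Subgroup.closure {g | ∃ (i : b.support) (t : K), g = xG b (i : ι) t ∨ g = xG b (ng P i) t} := by
  unfold GQ
  refine congrArg Subgroup.closure (Set.ext fun g => ?_)
  have h1 : ∀ (i : b.support) (t : K), g.1 = IsNilpotent.exp (t • eM b K i) ↔ g = xG b (i : ι) t := by
    intro i t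
    rw [eM_eq, ← (DP_eZ i).ex_eq_exp, Units.ext_iff]
    have h2 : (xG b (i : ι) t).1 = ex (eZ b i) t := by
      show ex (E b i) t = _
      rw [E_simple]
    rw [h2]
  have h3 : ∀ (i : b.support) (t : K), g.1 = IsNilpotent.exp (t • fM b K i) ↔ g = xG b (ng P i) t := by
    intro i t
    rw [fM_eq, ← (DP_fZ i).ex_eq_exp, Units.ext_iff]
    have h2 : (xG b (ng P i) t).1 = ex (fZ b i) t := by
      show ex (E b (ng P i)) t = _
      rw [E_neg_simple]
    rw [h2]
  constructor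
  · rintro ⟨i, t, h | h⟩
    · exact ⟨i, t, Or.inl ((h1 i t).1 h)⟩
    · exact ⟨i, t, Or.inr ((h3 i t).1 h)⟩
  · rintro ⟨i, t, h | h⟩
    · exact ⟨i, t, Or.inl ((h1 i t).2 h)⟩
    · exact ⟨i, t, Or.inr ((h3 i t).2 h)⟩

/-- `m_i(s) = x_i(s) x_(-i)(-1/s) x_i(s)`. -/
def mG (i : b.support) (s : Aˣ) : GL (I b) A := xG b (i : ι) (s : A) * xG b (ng P i) (-((s⁻¹ : Aˣ) : A)) * xG b (i : ι) (s : A)

theorem mG_val (i : b.support) (s : Aˣ) : (mG b i s).1 = mm b i s := by
  show ex (E b i) (s : A) * ex (E b (ng P i)) (-((s⁻¹ : Aˣ) : A)) * ex (E b i) (s : A) = _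
  rw [E_simple, E_neg_simple]
  rfl

theorem mG_inv_val (i : b.support) (s : Aˣ) : (mG b i s)⁻¹.1 = mm' b i s := by
  show ex (E b i) (-(s : A)) * (ex (E b (ng P i)) (- -((s⁻¹ : Aˣ) : A)) * ex (E b i) (-(s : A))) = _
  rw [E_simple, E_neg_simple, neg_neg, ← mul_assoc]
  rfl

theorem mG_one (i : b.support) : (mG b i (1 : Aˣ)).1 = toA A (nZ b i) := by
  rw [mG_val, toA_nZ]

theorem mG_one_inv (i : b.support) : (mG b i (1 : Aˣ))⁻¹.1 = toA A (nZ' b i) := by
  rw [mG_inv_val, toA_nZ']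

theorem mG_mem {K : Type} [Field K] [CharZero K] (i : b.support) (s : Kˣ) : mG b i s ∈ GQ b K := by
  rw [GQ_eq]
  refine Subgroup.mul_mem _ (Subgroup.mul_mem _ ?_ ?_) ?_
  · exact Subgroup.subset_closure ⟨i, _, Or.inl rfl⟩
  · exact Subgroup.subset_closure ⟨i, _, Or.inr rfl⟩
  · exact Subgroup.subset_closure ⟨i, _, Or.inl rfl⟩

/-- The product of the `m_j(1)` along a word. -/
def l122_W (K : Type) [Field K] [CharZero K] (l : List b.support) : GL (I b) K :=
  (l.map fun j => mG b j (1 : Kˣ)).prod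

theorem l122_cons (K : Type) [Field K] [CharZero K] (j : b.support) (l : List b.support) :
    l122_W b K (j :: l) = mG b j (1 : Kˣ) * l122_W b K l := by
  unfold l122_W
  rw [List.map_cons, List.prod_cons]

theorem l122_val (K : Type) [Field K] [CharZero K] (l : List b.support) :
    (l122_W b K l).1 = toA K (nL b l) := by
  induction l with
  | nil => exact toA_one.symm
  | cons j l ih =>
    rw [l122_cons, Units.val_mul, ih, mG_one, ← toA_mul]
    unfold nL
    rw [List.map_cons, List.prod_cons]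

theorem l122_inv_val (K : Type) [Field K] [CharZero K] (l : List b.support) :
    ((l122_W b K l)⁻¹).1 = toA K (nL' b l) := by
  induction l with
  | nil =>
    have h1 : (l122_W b K [])⁻¹ = 1 := inv_one
    rw [h1]
    exact toA_one.symm
  | cons j l ih =>
    rw [l122_cons, _root_.mul_inv_rev, Units.val_mul, ih, mG_one_inv, ← toA_mul]
    unfold nL'
    rw [List.reverse_cons, List.map_append, List.prod_append, List.map_singleton,
      List.prod_singleton]

theorem l122_mem (K : Type) [Field K] [CharZero K] (l : List b.support) :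
    l122_W b K l ∈ GQ b K := by
  induction l with
  | nil => exact Subgroup.one_mem _
  | cons j l ih =>
    rw [l122_cons]
    exact Subgroup.mul_mem _ (mG_mem b j 1) ih

/-- PROOF: `E_word`; `x_β(t) = n_w x_i(ε t) n_w⁻¹` (`DP.ex_conjW`, `DP.ex_smul`) where `n_w` is the product of the `mG b j 1 ∈ GQ` (`mG_one`, `mG_mem`). -/
theorem xG_mem {K : Type} [Field K] [CharZero K] (β : ι) (t : K) : xG b β t ∈ GQ b K := by
  obtain ⟨l, i, ε, hε, -, h⟩ := E_word b β
  have h1 : xG b β t = l122_W b K l * xG b (i : ι) ((ε : K) * t) * (l122_W b K l)⁻¹ := by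
    refine Units.ext ?_
    show ex (E b β) t = (l122_W b K l).1 * ex (E b i) ((ε : K) * t) * ((l122_W b K l)⁻¹).1
    rw [l122_val, l122_inv_val, h, DP.ex_smul hε (DP.conjW (nL_mul' b l) (nL_mul b l) (DP_eZ i)),
      DP.ex_conjW (nL_mul' b l) (nL_mul b l) (DP_eZ i), E_simple]
  rw [h1]
  refine Subgroup.mul_mem _ (Subgroup.mul_mem _ (l122_mem b K l) ?_)
    (Subgroup.inv_mem _ (l122_mem b K l))
  rw [GQ_eq]
  exact Subgroup.subset_closure ⟨i, _, Or.inl rfl⟩

/-- `x_(-i)(t) = x_i(1/t) m_i(-1/t) x_i(1/t)`. -/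
theorem xG_neg_eq (i : b.support) (t : Aˣ) : xG b (ng P i) (t : A) = xG b (i : ι) ((t⁻¹ : Aˣ) : A) * mG b i (-t⁻¹) * xG b (i : ι) ((t⁻¹ : Aˣ) : A) := by
  unfold mG
  have h1 : xG b (i : ι) ((t⁻¹ : Aˣ) : A) * xG b (i : ι) ((-t⁻¹ : Aˣ) : A) = 1 := by
    rw [← xG_add, Units.val_neg, add_neg_cancel, xG_zero]
  have h2 : xG b (i : ι) ((-t⁻¹ : Aˣ) : A) * xG b (i : ι) ((t⁻¹ : Aˣ) : A) = 1 := by
    rw [← xG_add, Units.val_neg, neg_add_cancel, xG_zero]
  have h3 : -((((-t⁻¹ : Aˣ))⁻¹ : Aˣ) : A) = (t : A) := by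
    rw [inv_neg, inv_inv, Units.val_neg, neg_neg]
  rw [h3]
  calc xG b (ng P i) (t : A) = 1 * xG b (ng P i) (t : A) * 1 := by rw [one_mul, mul_one]
    _ = (xG b (i : ι) ((t⁻¹ : Aˣ) : A) * xG b (i : ι) ((-t⁻¹ : Aˣ) : A)) * xG b (ng P i) (t : A) *
        (xG b (i : ι) ((-t⁻¹ : Aˣ) : A) * xG b (i : ι) ((t⁻¹ : Aˣ) : A)) := by rw [h1, h2]
    _ = _ := by simp only [mul_assoc]

end

end Pool.Agent.Lib.L1S
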