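import Pool.Agent.Lib.L1S.L119

/-! # L1S, module L1, chunk L123 (M): the Lie algebra over a ring: coordinates -/

namespace Pool.Agent.Lib.L1S

open Matrix

noncomputable section

variable {ι M N : Type} [Fintype ι] [DecidableEq ι] [AddCommGroup M] [Module ℚ M] [AddCommGroup N] [Module ℚ N]
  {P : RootPairing ι ℚ M N} [P.IsCrystallographic] [P.IsReduced] [P.IsIrreducible] [P.IsRootSystem] (b : P.Base)
  {A B : Type} [CommRing A] [CommRing B]

omit [P.IsReduced] [P.IsIrreducible] [P.IsRootSystem] in
/-- PROOF: `Submodule.span_union`, `Submodule.mem_sup`, `Submodule.mem_span_range_iff_exists_fun`. -/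
theorem gR_iff (X : Matrix (I b) (I b) A) : X ∈ gR b A ↔ ∃ (a : b.support → A) (y : ι → A), X = ∑ i, a i • toA A (hZ b i) + ∑ β, y β • toA A (E b β) := by
  unfold gR
  rw [Submodule.span_union, Submodule.mem_sup]
  constructor
  · rintro ⟨x, hx, y, hy, rfl⟩
    obtain ⟨a, rfl⟩ := (Submodule.mem_span_range_iff_exists_fun A).1 hx
    obtain ⟨c, rfl⟩ := (Submodule.mem_span_range_iff_exists_fun A).1 hy
    exact ⟨a, c, rfl⟩
  · rintro ⟨a, y, rfl⟩
    exact ⟨_, (Submodule.mem_span_range_iff_exists_fun A).2 ⟨a, rfl⟩, _,
      (Submodule.mem_span_range_iff_exists_fun A).2 ⟨y, rfl⟩, rfl⟩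

/-- The coefficient of `E_β` of an element of the Lie algebra is `cf b β X`. PROOF: `cf_add`, `cf_sum`, `cf_smul`, `cf_E`, `cf_h`. -/
theorem gR_coord {X : Matrix (I b) (I b) A} (hX : X ∈ gR b A) : ∃ a : b.support → A, X = ∑ i, a i • toA A (hZ b i) + ∑ β, cf b β X • toA A (E b β) := by
  obtain ⟨a, y, hXe⟩ := (gR_iff b X).1 hX
  refine ⟨a, ?_⟩
  have h1 : ∀ β, cf b β X = y β := by
    intro β
    rw [hXe, cf_add, cf_sum, cf_sum]
    have h2 : ∑ i, cf b β (a i • toA A (hZ b i)) = 0 :=
      Finset.sum_eq_zero fun i _ => by rw [cf_smul, cf_h, mul_zero]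
    have h3 : ∑ γ, cf b β (y γ • toA A (E b γ)) = ∑ γ, (if γ = β then y γ else 0) := by
      refine Finset.sum_congr rfl fun γ _ => ?_
      rw [cf_smul, cf_E]
      split_ifs
      · rw [mul_one]
      · rw [mul_zero]
    rw [h2, h3, zero_add, Finset.sum_ite_eq' Finset.univ β y, if_pos (Finset.mem_univ β)]
  simp only [h1]
  exact hXe

/-- An element of the Lie algebra of the weight `β` is a multiple of `E_β`. PROOF: `gR_coord` and `pW b A (root β)`. -/
theorem gR_root {X : Matrix (I b) (I b) A} (hX : X ∈ gR b A) (β : ι) (h : HasWt b (P.root β) X) : X = cf b β X • toA A (E b β) := by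
  obtain ⟨a, hXe⟩ := gR_coord b hX
  have h1 : pW b A (P.root β) X = X := pW_self h
  rw [← h1]
  conv_lhs => rw [hXe]
  rw [h1, map_add, map_sum, map_sum]
  have h2 : ∑ i, pW b A (P.root β) (a i • toA A (hZ b i)) = 0 := by
    refine Finset.sum_eq_zero fun i _ => ?_
    rw [map_smul, pW_ne (HasWt.toA (hasWt_hZ i)) (P.ne_zero β), smul_zero]
  have h3 : ∑ γ, pW b A (P.root β) (cf b γ X • toA A (E b γ)) = cf b β X • toA A (E b β) := by
    rw [Finset.sum_eq_single β]
    · rw [map_smul, pW_self (HasWt.toA (hasWt_E b β))]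
    · intro γ _ hγ
      rw [map_smul, pW_ne (HasWt.toA (hasWt_E b γ)), smul_zero]
      intro h4
      exact hγ (P.root.injective h4).symm
    · intro h4
      exact absurd (Finset.mem_univ β) h4
  rw [h2, h3, zero_add]

omit [P.IsReduced] [P.IsIrreducible] [P.IsRootSystem] in
/-- A matrix of weight `root β` raises the height by the height of `β`. PROOF: entry by entry: `root r = root c + root β` gives `b.height_add`; the cases with `inl` are easy (`b.height_reflectionPerm_self`). -/
theorem HasWt.ht {β : ι} {X : Matrix (I b) (I b) A} (h : HasWt b (P.root β) X) (r c : I b) (hrc : X r c ≠ 0) : Pool.Agent.Lib.L1S.ht b r = Pool.Agent.Lib.L1S.ht b c + b.height β := by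
  have h1 := h r c hrc
  rcases r with r | r <;> rcases c with c | c
  · exfalso
    change (0 : M) = 0 + P.root β at h1
    rw [zero_add] at h1
    exact P.ne_zero β h1.symm
  · change (0 : M) = P.root c + P.root β at h1
    change (0 : ℤ) = b.height c + b.height β
    have h2 : P.root (P.reflectionPerm c c) = P.root β := by
      rw [P.root_reflectionPerm, P.reflection_apply_self]
      exact neg_eq_of_add_eq_zero_right h1.symm
    have h3 : P.reflectionPerm c c = β := P.root.injective h2
    have h4 : b.height (P.reflectionPerm c c) = - b.height c := b.height_reflectionPerm_self c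
    rw [h3] at h4
    rw [h4, add_neg_cancel]
  · change P.root r = 0 + P.root β at h1
    change b.height r = 0 + b.height β
    rw [zero_add] at h1 ⊢
    rw [P.root.injective h1]
  · change P.root r = P.root c + P.root β at h1
    exact b.height_add h1

/-- The components of an element of the Lie algebra which is homogeneous of height `k ≠ 0`. PROOF: `gR_coord`; compare the entries `(r, c)` with `ht r = ht c + k` of both sides: `h_i` is diagonal, `E_β` contributes only if
`b.height β = k` (`HasWt.ht`); the other entries of both sides are zero. -/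
theorem gR_ht {X : Matrix (I b) (I b) A} (hX : X ∈ gR b A) (k : ℤ) (hk : k ≠ 0) (h : ∀ r c, X r c ≠ 0 → ht b r = ht b c + k) :
    X = ∑ β with b.height β = k, cf b β X • toA A (E b β) := by
  obtain ⟨a, hXe⟩ := gR_coord b hX
  have hE : ∀ β r c, toA A (E b β) r c ≠ 0 → ht b r = ht b c + b.height β := fun β r c hrc =>
    HasWt.ht b (HasWt.toA (hasWt_E b β)) r c hrc
  ext r c
  by_cases hrc : ht b r = ht b c + k
  · have hne : r ≠ c := by
      rintro rfl
      apply hk
      linarith
    have h1 : X r c = (∑ i, a i • toA A (hZ b i) + ∑ β, cf b β X • toA A (E b β)) r c :=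
      congrFun (congrFun hXe r) c
    rw [h1, Matrix.add_apply, Matrix.sum_apply, Matrix.sum_apply, Matrix.sum_apply]
    have h2 : ∑ i, (a i • toA A (hZ b i)) r c = 0 := by
      refine Finset.sum_eq_zero fun i _ => ?_
      rw [Matrix.smul_apply]
      have h3 : toA A (hZ b i) r c = 0 := by
        have h4 : hZ b i r c = 0 := Matrix.diagonal_apply_ne _ hne
        change ((hZ b i r c : ℤ) : A) = 0
        rw [h4, Int.cast_zero]
      rw [h3, smul_zero]
    rw [h2, zero_add]
    symm
    refine Finset.sum_subset (Finset.filter_subset _ _) fun β _ hβ => ?_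
    rw [Matrix.smul_apply]
    have h3 : toA A (E b β) r c = 0 := by
      by_contra h4
      apply hβ
      rw [Finset.mem_filter]
      refine ⟨Finset.mem_univ β, ?_⟩
      have := hE β r c h4
      linarith
    rw [h3, smul_zero]
  · have h1 : X r c = 0 := by
      by_contra h2
      exact hrc (h r c h2)
    rw [h1, Matrix.sum_apply]
    symm
    refine Finset.sum_eq_zero fun β hβ => ?_
    rw [Finset.mem_filter] at hβ
    rw [Matrix.smul_apply]
    have h3 : toA A (E b β) r c = 0 := by
      by_contra h4
      apply hrc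
      rw [← hβ.2]
      exact hE β r c h4
    rw [h3, smul_zero]

omit [P.IsReduced] [P.IsIrreducible] in
/-- The diagonal matrices of the coweights lie in the Lie algebra. PROOF: `l = ∑ c_i α_i^∨` with rational `c_i` (the coroots of the base span the dual of `M`: `b.span_coroot_support`, perfect pairing), `D_l = ∑ c_i h_i` (`toA_hZ_eq`). -/
theorem gR_diag [Algebra ℚ A] (l : M →ₗ[ℚ] ℚ) : Matrix.diagonal (fun r => algebraMap ℚ A (l (wt b r))) ∈ gR b A := by
  have hsurj : ∃ n : N, P.toLinearMap.flip n = l := by
    have := P.toLinearMap.flip.toPerfPair.surjective l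
    obtain ⟨n, hn⟩ := this
    exact ⟨n, hn⟩
  obtain ⟨n, rfl⟩ := hsurj
  have hn : n ∈ Submodule.span ℚ (P.coroot '' b.support) := by
    have htop : P.corootSpan ℚ = ⊤ := RootPairing.IsRootSystem.span_coroot_eq_top
    rw [b.span_coroot_support, htop]
    exact Submodule.mem_top
  induction hn using Submodule.span_induction with
  | mem x hx =>
    obtain ⟨i, hi, rfl⟩ := hx
    have h1 : toA A (hZ b ⟨i, hi⟩) = Dl b A (P.coroot' i) := toA_hZ_eq ⟨i, hi⟩
    have h2 : Dl b A (P.coroot' i) ∈ gR b A := by
      rw [← h1]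
      exact Submodule.subset_span (Or.inl ⟨⟨i, hi⟩, rfl⟩)
    exact h2
  | zero =>
    have h1 : (Matrix.diagonal fun r => algebraMap ℚ A ((P.toLinearMap.flip 0) (wt b r)))
        = (0 : Matrix (I b) (I b) A) := by
      simp
    rw [h1]
    exact Submodule.zero_mem _
  | add x y _ _ hx hy =>
    have h1 : (Matrix.diagonal fun r => algebraMap ℚ A ((P.toLinearMap.flip (x + y)) (wt b r)))
        = (Matrix.diagonal fun r => algebraMap ℚ A ((P.toLinearMap.flip x) (wt b r)))
          + (Matrix.diagonal fun r => algebraMap ℚ A ((P.toLinearMap.flip y) (wt b r)) :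
            Matrix (I b) (I b) A) := by
      rw [Matrix.diagonal_add]
      congr 1
      funext r
      rw [map_add, LinearMap.add_apply, map_add]
    rw [h1]
    exact Submodule.add_mem _ hx hy
  | smul a x _ hx =>
    have h1 : (Matrix.diagonal fun r => algebraMap ℚ A ((P.toLinearMap.flip (a • x)) (wt b r)))
        = (algebraMap ℚ A a) • (Matrix.diagonal fun r => algebraMap ℚ A ((P.toLinearMap.flip x) (wt b r)) :
            Matrix (I b) (I b) A) := by
      rw [← Matrix.diagonal_smul]
      congr 1
      funext r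
      rw [map_smul, LinearMap.smul_apply, smul_eq_mul, map_mul]
      rfl
    rw [h1]
    exact Submodule.smul_mem _ _ hx

end

end Pool.Agent.Lib.L1S
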