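import Pool.Agent.Lib.L1S.L120
import Pool.Agent.Lib.L1S.L122
import Pool.Agent.Lib.L1S.L123

/-! # L1S, module L1, chunk L124 (M): the Lie algebra over a ring: bracket, `Ad(x_β(t))`, normalised by `G(K)` -/

namespace Pool.Agent.Lib.L1S

open Matrix

noncomputable section

attribute [local instance 100] LieRing.ofAssociativeRing

variable {ι M N : Type} [Fintype ι] [DecidableEq ι] [AddCommGroup M] [Module ℚ M] [AddCommGroup N] [Module ℚ N]
  {P : RootPairing ι ℚ M N} [P.IsCrystallographic] [P.IsReduced] [P.IsIrreducible] [P.IsRootSystem] (b : P.Base)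
  {A B : Type} [CommRing A] [CommRing B]

/-- If an integral matrix lies in the Lie algebra over `ℚ` then it lies in the Lie algebra over every `ℚ`-algebra. PROOF: `gR_iff` over `ℚ`, map the identity entrywise by `algebraMap ℚ A`. -/
theorem gR_of_rat [Algebra ℚ A] {X : Matrix (I b) (I b) ℤ} (h : toA ℚ X ∈ gR b ℚ) : toA A X ∈ gR b A := by
  obtain ⟨a, y, hXe⟩ := (gR_iff b _).1 h
  refine (gR_iff b _).2 ⟨fun i => algebraMap ℚ A (a i), fun β => algebraMap ℚ A (y β), ?_⟩
  ext r c
  have h1 : toA ℚ X r c = (∑ i, a i • toA ℚ (hZ b i) + ∑ β, y β • toA ℚ (E b β)) r c :=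
    congrFun (congrFun hXe r) c
  rw [Matrix.add_apply, Matrix.sum_apply, Matrix.sum_apply] at h1 ⊢
  have h2 := congrArg (algebraMap ℚ A) h1
  rw [map_add, map_sum, map_sum] at h2
  have h3 : ∀ Z : Matrix (I b) (I b) ℤ, algebraMap ℚ A (toA ℚ Z r c) = toA A Z r c := by
    intro Z
    change algebraMap ℚ A ((Z r c : ℤ) : ℚ) = ((Z r c : ℤ) : A)
    exact map_intCast _ _
  rw [h3] at h2
  rw [h2]
  refine congrArg₂ _ (Finset.sum_congr rfl fun i _ => ?_) (Finset.sum_congr rfl fun β _ => ?_)
  · rw [Matrix.smul_apply, Matrix.smul_apply, smul_eq_mul, smul_eq_mul, map_mul, h3]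
  · rw [Matrix.smul_apply, Matrix.smul_apply, smul_eq_mul, smul_eq_mul, map_mul, h3]

theorem l124_gen [Algebra ℚ A] {X Y : Matrix (I b) (I b) ℤ} (hX : toA ℚ X ∈ gg b)
    (hY : toA ℚ Y ∈ gg b) : toA A X * toA A Y - toA A Y * toA A X ∈ gR b A := by
  rw [← toA_mul, ← toA_mul, ← toA_sub]
  refine gR_of_rat b ?_
  rw [toA_sub, toA_mul, toA_mul, ← gg_iff]
  have h := (gg b).lie_mem hX hY
  exact h

theorem l124_set {S : Set (Matrix (I b) (I b) A)} (hS : S = (Set.range (fun i => toA A (hZ b i)) ∪ Set.range fun β => toA A (E b β)))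
    {X : Matrix (I b) (I b) A} (hX : X ∈ S) : ∃ Z : Matrix (I b) (I b) ℤ, toA ℚ Z ∈ gg b ∧ X = toA A Z := by
  subst hS
  rcases hX with ⟨i, rfl⟩ | ⟨β, rfl⟩
  · exact ⟨hZ b i, hZ_mem i, rfl⟩
  · exact ⟨E b β, E_mem b β, rfl⟩

/-- The Lie algebra is closed under the bracket. PROOF: span induction in both variables; for the generators (`hZ_mem`, `E_mem`) the bracket of the integral matrices is in `gg b` over `ℚ`, `gg_iff`, `gR_of_rat`. -/
theorem gR_lie [Algebra ℚ A] {X Y : Matrix (I b) (I b) A} (hX : X ∈ gR b A) (hY : Y ∈ gR b A) : X * Y - Y * X ∈ gR b A := by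
  have h1 : ∀ X ∈ (Set.range (fun i => toA A (hZ b i)) ∪ Set.range fun β => toA A (E b β)),
      ∀ Y ∈ gR b A, X * Y - Y * X ∈ gR b A := by
    intro X hX Y hY
    obtain ⟨Z, hZ, rfl⟩ := l124_set b rfl hX
    unfold gR at hY
    induction hY using Submodule.span_induction with
    | mem Y hY =>
      obtain ⟨Z', hZ', rfl⟩ := l124_set b rfl hY
      exact l124_gen b hZ hZ'
    | zero =>
      rw [mul_zero, zero_mul, sub_zero]
      exact Submodule.zero_mem _
    | add Y Y' _ _ h h' =>
      have h2 : toA A Z * (Y + Y') - (Y + Y') * toA A Z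
          = (toA A Z * Y - Y * toA A Z) + (toA A Z * Y' - Y' * toA A Z) := by
        rw [mul_add, add_mul]
        abel
      rw [h2]
      exact Submodule.add_mem _ h h'
    | smul a Y _ h =>
      have h2 : toA A Z * (a • Y) - (a • Y) * toA A Z = a • (toA A Z * Y - Y * toA A Z) := by
        rw [mul_smul_comm, smul_mul_assoc, smul_sub]
      rw [h2]
      exact Submodule.smul_mem _ _ h
  unfold gR at hX
  induction hX using Submodule.span_induction with
  | mem X hX => exact h1 X hX Y hY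
  | zero =>
    rw [mul_zero, zero_mul, sub_zero]
    exact Submodule.zero_mem _
  | add X X' _ _ h h' =>
    have h2 : (X + X') * Y - Y * (X + X') = (X * Y - Y * X) + (X' * Y - Y * X') := by
      rw [mul_add, add_mul]
      abel
    rw [h2]
    exact Submodule.add_mem _ h h'
  | smul a X _ h =>
    have h2 : (a • X) * Y - Y * (a • X) = a • (X * Y - Y * X) := by
      rw [mul_smul_comm, smul_mul_assoc, smul_sub]
    rw [h2]
    exact Submodule.smul_mem _ _ h

theorem l124_E (β : ι) : toA A (E b β) ∈ gR b A :=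
  Submodule.subset_span (Or.inr ⟨β, rfl⟩)

/-- `Ad(x_β(t))` preserves the Lie algebra. PROOF: `DP.ad_mem` with `S = gR b A`, `gR_lie`. -/
theorem gR_conj [Algebra ℚ A] {X : Matrix (I b) (I b) A} (hX : X ∈ gR b A) (β : ι) (t : A) : xx b β t * X * xx b β (-t) ∈ gR b A := by
  exact (DP_E b β).ad_mem (gR b A) (fun Y hY => gR_lie b (l124_E b β) hY) t hX

/-- `G(K)` normalises the Lie algebra, over every ring `A` over `K`. PROOF: `GQ_eq`, closure induction for the statement for `g` and `g⁻¹`, `xx_map`, `gR_conj`. -/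
theorem gR_GQ {K : Type} [Field K] [CharZero K] [Algebra ℚ A] (f : K →+* A) {g : GL (I b) K} (hg : g ∈ GQ b K) {X : Matrix (I b) (I b) A} (hX : X ∈ gR b A) :
    g.1.map f * X * g⁻¹.1.map f ∈ gR b A := by
  have hgen : ∀ (β : ι) (t : K), (∀ X ∈ gR b A, (xG b β t).1.map f * X * (xG b β t)⁻¹.1.map f ∈ gR b A) ∧
      ∀ X ∈ gR b A, (xG b β t)⁻¹.1.map f * X * (xG b β t).1.map f ∈ gR b A := by
    intro β t
    have h1 : (xG b β t).1.map f = xx b β (f t) := xx_map b β f t
    have h2 : (xG b β t)⁻¹.1.map f = xx b β (-(f t)) := by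
      have h3 : (xG b β t)⁻¹.1 = xx b β (-t) := rfl
      rw [h3, xx_map, map_neg]
    refine ⟨fun X hX => ?_, fun X hX => ?_⟩
    · rw [h1, h2]
      exact gR_conj b hX β (f t)
    · rw [h1, h2]
      have h4 := gR_conj b hX β (-(f t))
      rwa [neg_neg] at h4
  have key : (∀ X ∈ gR b A, g.1.map f * X * g⁻¹.1.map f ∈ gR b A) ∧
      ∀ X ∈ gR b A, g⁻¹.1.map f * X * g.1.map f ∈ gR b A := by
    rw [GQ_eq] at hg
    induction hg using Subgroup.closure_induction with
    | mem g hg =>
      obtain ⟨i, t, rfl | rfl⟩ := hg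
      · exact hgen i t
      · exact hgen (ng P i) t
    | one =>
      have h1 : (1 : GL (I b) K).1.map f = 1 := by
        change (1 : Matrix (I b) (I b) K).map f = 1
        exact Matrix.map_one f (map_zero f) (map_one f)
      refine ⟨fun X hX => ?_, fun X hX => ?_⟩
      · rw [inv_one, h1, one_mul, mul_one]
        exact hX
      · rw [inv_one, h1, one_mul, mul_one]
        exact hX
    | mul g h _ _ ihg ihh =>
      have h1 : (g * h).1.map f = g.1.map f * h.1.map f := Matrix.map_mul
      have h2 : (g * h)⁻¹.1.map f = h⁻¹.1.map f * g⁻¹.1.map f := by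
        rw [_root_.mul_inv_rev]
        exact Matrix.map_mul
      refine ⟨fun X hX => ?_, fun X hX => ?_⟩
      · have h3 := ihg.1 _ (ihh.1 X hX)
        rw [h1, h2]
        have h4 : g.1.map f * h.1.map f * X * (h⁻¹.1.map f * g⁻¹.1.map f)
            = g.1.map f * (h.1.map f * X * h⁻¹.1.map f) * g⁻¹.1.map f := by
          simp only [mul_assoc]
        rw [h4]
        exact h3
      · have h3 := ihh.2 _ (ihg.2 X hX)
        rw [h1, h2]
        have h4 : h⁻¹.1.map f * g⁻¹.1.map f * X * (g.1.map f * h.1.map f)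
            = h⁻¹.1.map f * (g⁻¹.1.map f * X * g.1.map f) * h.1.map f := by
          simp only [mul_assoc]
        rw [h4]
        exact h3
    | inv g _ ih =>
      rw [inv_inv]
      exact ⟨ih.2, ih.1⟩
  exact key.1 X hX

end

end Pool.Agent.Lib.L1S
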