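import Pool.Agent.Lib.L1S.L124

/-! # L1S, module L1, chunk L125 (M): `m_i(s)` and the root vectors -/

namespace Pool.Agent.Lib.L1S

open Matrix

noncomputable section

variable {ι M N : Type} [Fintype ι] [DecidableEq ι] [AddCommGroup M] [Module ℚ M] [AddCommGroup N] [Module ℚ N]
  {P : RootPairing ι ℚ M N} [P.IsCrystallographic] [P.IsReduced] [P.IsIrreducible] [P.IsRootSystem] (b : P.Base)
  {A B : Type} [CommRing A] [CommRing B]

/-- `m_i(s) V_γ = V_(s_i γ)`. PROOF: `mG_val`, `mm_over`. -/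
theorem mG_over [Algebra ℚ A] (i : b.support) (s : Aˣ) : OverW b (P.reflection i) (mG b i s).1 := by
  rw [mG_val]
  exact mm_over i s

theorem mG_over_inv [Algebra ℚ A] (i : b.support) (s : Aˣ) : OverW b (P.reflection i) (mG b i s)⁻¹.1 := by
  rw [mG_inv_val]
  exact mm_over' i s

theorem l125_x [Algebra ℚ A] (β : ι) (t : A) {X : Matrix (I b) (I b) A} (hX : X ∈ gR b A) :
    (xG b β t).1 * X * (xG b β t)⁻¹.1 ∈ gR b A :=
  gR_conj b hX β t

theorem l125_x' [Algebra ℚ A] (β : ι) (t : A) {X : Matrix (I b) (I b) A} (hX : X ∈ gR b A) :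
    (xG b β t)⁻¹.1 * X * (xG b β t).1 ∈ gR b A := by
  have h := gR_conj b hX β (-t)
  rw [neg_neg] at h
  exact h

theorem l125_mul {g h : GL (I b) A} (hg : ∀ X ∈ gR b A, g.1 * X * g⁻¹.1 ∈ gR b A)
    (hh : ∀ X ∈ gR b A, h.1 * X * h⁻¹.1 ∈ gR b A) : ∀ X ∈ gR b A, (g * h).1 * X * (g * h)⁻¹.1 ∈ gR b A := by
  intro X hX
  have h1 : (g * h).1 * X * (g * h)⁻¹.1 = g.1 * (h.1 * X * h⁻¹.1) * g⁻¹.1 := by
    rw [_root_.mul_inv_rev]
    change g.1 * h.1 * X * (h⁻¹.1 * g⁻¹.1) = _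
    simp only [mul_assoc]
  rw [h1]
  exact hg _ (hh X hX)

theorem l125_mul' {g h : GL (I b) A} (hg : ∀ X ∈ gR b A, g⁻¹.1 * X * g.1 ∈ gR b A)
    (hh : ∀ X ∈ gR b A, h⁻¹.1 * X * h.1 ∈ gR b A) : ∀ X ∈ gR b A, (g * h)⁻¹.1 * X * (g * h).1 ∈ gR b A := by
  intro X hX
  have h1 : (g * h)⁻¹.1 * X * (g * h).1 = h⁻¹.1 * (g⁻¹.1 * X * g.1) * h.1 := by
    rw [_root_.mul_inv_rev]
    change h⁻¹.1 * g⁻¹.1 * X * (g.1 * h.1) = _
    simp only [mul_assoc]
  rw [h1]
  exact hh _ (hg X hX)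

/-- `m_i(s)` preserves the Lie algebra. PROOF: `gR_conj` three times. -/
theorem mG_gR [Algebra ℚ A] (i : b.support) (s : Aˣ) {X : Matrix (I b) (I b) A} (hX : X ∈ gR b A) : (mG b i s).1 * X * (mG b i s)⁻¹.1 ∈ gR b A := by
  refine l125_mul b (l125_mul b ?_ ?_) ?_ X hX
  · intro X hX
    exact l125_x b _ _ hX
  · intro X hX
    exact l125_x b _ _ hX
  · intro X hX
    exact l125_x b _ _ hX

theorem mG_gR_inv [Algebra ℚ A] (i : b.support) (s : Aˣ) {X : Matrix (I b) (I b) A} (hX : X ∈ gR b A) : (mG b i s)⁻¹.1 * X * (mG b i s).1 ∈ gR b A := by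
  refine l125_mul' b (l125_mul' b ?_ ?_) ?_ X hX
  · intro X hX
    exact l125_x' b _ _ hX
  · intro X hX
    exact l125_x' b _ _ hX
  · intro X hX
    exact l125_x' b _ _ hX

theorem l125_perm (i β : ι) : P.root (P.reflectionPerm i β) = P.reflection i (P.root β) :=
  P.root_reflectionPerm i β

theorem l125_perm2 (i β : ι) : P.reflectionPerm i (P.reflectionPerm i β) = β := by
  exact P.reflectionPerm_self i β

/-- `m_i(s) E_β m_i(s)⁻¹ = c E_(s_i β)` with a unit `c`. PROOF: the left side is in `gR` (`mG_gR`) and has the weight `s_i (root β) = root (s_i β)` (`OverW.conj`, `s_i⁻¹ = s_i`), so it is `c E_(s_i β)` (`gR_root`); in the same way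
`m⁻¹ E_(s_i β) m = c' E_β`, so `E_β = c c' E_β`, `c c' = 1` by `cf_E`. The second statement: `DP.conj`. -/
theorem mG_E [Algebra ℚ A] (i : b.support) (s : Aˣ) (β : ι) :
    ∃ c : Aˣ, (mG b i s).1 * toA A (E b β) * (mG b i s)⁻¹.1 = (c : A) • toA A (E b (P.reflectionPerm i β)) ∧
      ∀ t : A, mG b i s * xG b β t * (mG b i s)⁻¹ = xG b (P.reflectionPerm i β) ((c : A) * t) := by
  set m := mG b i s with hm
  set β' := P.reflectionPerm i β with hβ'
  have hsymm : (P.reflection (i : ι)).symm = P.reflection i := P.reflection_inv i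
  have hmm : m⁻¹.1 * m.1 = 1 := m.inv_mul
  have hmm' : m.1 * m⁻¹.1 = 1 := m.mul_inv
  have h1 : HasWt b (P.root β') (m.1 * toA A (E b β) * m⁻¹.1) := by
    rw [hβ', l125_perm]
    refine OverW.conj (P.reflection (i : ι)) (mG_over b i s) ?_ (HasWt.toA (hasWt_E b β))
    rw [hsymm]
    exact mG_over_inv b i s
  have h2 := gR_root b (mG_gR b i s (l124_E b β)) β' h1
  have h3 : HasWt b (P.root β) (m⁻¹.1 * toA A (E b β') * m.1) := by
    have h4 : P.root β = P.reflection i (P.root β') := by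
      rw [← l125_perm, hβ', l125_perm2]
    rw [h4]
    refine OverW.conj (P.reflection (i : ι)) (mG_over_inv b i s) ?_ (HasWt.toA (hasWt_E b β'))
    rw [hsymm]
    exact mG_over b i s
  have h4 := gR_root b (mG_gR_inv b i s (l124_E b β')) β h3
  rw [← hm] at h2 h4
  set c := cf b β' (m.1 * toA A (E b β) * m⁻¹.1) with hc
  set c' := cf b β (m⁻¹.1 * toA A (E b β') * m.1) with hc'
  have h5 : toA A (E b β) = (c * c') • toA A (E b β) := by
    calc toA A (E b β) = (m⁻¹.1 * m.1) * toA A (E b β) * (m⁻¹.1 * m.1) := by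
          rw [hmm, one_mul, mul_one]
      _ = m⁻¹.1 * (m.1 * toA A (E b β) * m⁻¹.1) * m.1 := by simp only [mul_assoc]
      _ = c • (m⁻¹.1 * toA A (E b β') * m.1) := by
          rw [h2, mul_smul_comm, smul_mul_assoc]
      _ = (c * c') • toA A (E b β) := by
          rw [h4, smul_smul]
  have h6 : c * c' = 1 := by
    have h7 := congrArg (cf b β) h5
    rw [cf_smul, cf_E, if_pos rfl, mul_one] at h7
    exact h7.symm
  refine ⟨⟨c, c', h6, by rw [mul_comm]; exact h6⟩, h2, ?_⟩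
  intro t
  have h7 : m.1 * toA A (E b β) = (c • toA A (E b β')) * m.1 := by
    rw [← h2, mul_assoc (m.1 * toA A (E b β)), hmm, mul_one]
  have h8 := DP.conj (DP_E b β) (DP_E b β') m.1 c t h7
  refine Units.ext ?_
  change m.1 * ex (E b β) t * m⁻¹.1 = ex (E b β') (c * t)
  rw [h8, mul_assoc, hmm', mul_one]

/-- The `(v_(s_i γ), v_γ)` entry of `m_i(s)` is a unit: the only nonzero entry of the column `v_γ`. PROOF: `1 = (m⁻¹ m)(v_γ, v_γ) = m⁻¹(v_γ, v_(s_i γ)) m(v_(s_i γ), v_γ)`: the other terms vanish by `mG_over` (`wt (inl j) = 0` is not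
a root, the roots are distinct). -/
theorem mG_entry [Algebra ℚ A] (i : b.support) (s : Aˣ) (γ : ι) : IsUnit ((mG b i s).1 (Sum.inr (P.reflectionPerm i γ)) (Sum.inr γ)) := by
  set m := mG b i s with hm
  have hmm : m⁻¹.1 * m.1 = 1 := m.inv_mul
  have h1 : (m⁻¹.1 * m.1) (Sum.inr γ) (Sum.inr γ) = 1 := by
    rw [hmm, Matrix.one_apply_eq]
  rw [Matrix.mul_apply, Finset.sum_eq_single (Sum.inr (P.reflectionPerm i γ))] at h1
  · exact IsUnit.of_mul_eq_one_right _ h1
  · intro r _ hr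
    have h2 : m.1 r (Sum.inr γ) = 0 := by
      by_contra h3
      apply hr
      have h4 : wt b r = P.reflection i (P.root γ) := mG_over b i s r (Sum.inr γ) h3
      rw [← l125_perm] at h4
      rcases r with r | r
      · exfalso
        exact P.ne_zero _ h4.symm
      · exact congrArg Sum.inr (P.root.injective h4)
    rw [h2, mul_zero]
  · intro h2
    exact absurd (Finset.mem_univ _) h2

end

end Pool.Agent.Lib.L1S
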