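import Pool.Agent.Lib.L1S.L118

/-! # L1S, module L1, chunk L127 (S): `x_β(t) ≡ 1` modulo `𝔫` for `t ∈ 𝔫` -/

namespace Pool.Agent.Lib.L1S

open Matrix NumberField

noncomputable section

variable {ι M N : Type} [Fintype ι] [DecidableEq ι] [AddCommGroup M] [Module ℚ M] [AddCommGroup N] [Module ℚ N]
  {P : RootPairing ι ℚ M N} [P.IsCrystallographic] [P.IsReduced] [P.IsIrreducible] [P.IsRootSystem] (b : P.Base)

/-- PROOF: `x_β(t) - 1 = ∑_(1 ≤ k < 4) t ^ k dvp (E_β) k` (`dvp_zero`), an integer is in `⊤` (`InI.mul`, `InI.sum`). -/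
theorem xx_InI {K : Type} [Field K] [NumberField K] (𝔫 : Ideal (𝓞 K)) (β : ι) {t : K} (h : InI 𝔫 t) (r c : I b) : InI 𝔫 ((xx b β t - 1) r c) := by
  obtain ⟨t0, ht0, rfl⟩ := h
  have h1 : (xx b β (t0 : K) - 1) r c =
      ∑ k ∈ Finset.range 3, (t0 : K) ^ (k + 1) * ((dvp (E b β) (k + 1) r c : ℤ) : K) := by
    unfold xx ex
    rw [Finset.sum_range_succ', pow_zero, one_smul, dvp_zero, toA_one, add_sub_cancel_right,
      Matrix.sum_apply]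
    rfl
  rw [h1]
  refine InI.sum _ _ fun k _ => ?_
  refine ⟨t0 * (t0 ^ k * ((dvp (E b β) (k + 1) r c : ℤ) : 𝓞 K)), 𝔫.mul_mem_right _ ht0, ?_⟩
  have h2 : (((dvp (E b β) (k + 1) r c : ℤ) : 𝓞 K) : K) = ((dvp (E b β) (k + 1) r c : ℤ) : K) :=
    map_intCast (algebraMap (𝓞 K) K) _
  have h3 : ((t0 * (t0 ^ k * ((dvp (E b β) (k + 1) r c : ℤ) : 𝓞 K)) : 𝓞 K) : K) =
      (t0 : K) * ((t0 : K) ^ k * (((dvp (E b β) (k + 1) r c : ℤ) : 𝓞 K) : K)) := by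
    push_cast
    ring
  rw [h3, h2, pow_succ]
  ring

end

end Pool.Agent.Lib.L1S
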