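import Pool.Agent.Lib.L1S.L101
import Pool.Agent.Lib.L1S.L102
import Pool.Agent.Lib.L1S.L103
import Pool.Agent.Lib.L1S.L104
import Pool.Agent.Lib.L1S.L105
import Pool.Agent.Lib.L1S.L108
import Pool.Agent.Lib.L1S.L110
import Pool.Agent.Lib.L1S.L117
import Pool.Agent.Lib.L1S.L118
import Pool.Agent.Lib.L1S.L119
import Pool.Agent.Lib.L1S.L121
import Pool.Agent.Lib.L1S.L122
import Pool.Agent.Lib.L1S.L123
import Pool.Agent.Lib.L1S.L124
import Pool.Agent.Lib.L1S.L125
import Pool.Agent.Lib.L1S.L126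
import Pool.Agent.Lib.L1S.L127

/-!
# L1S, module L1: the statements for the other modules

All statements of the first version of this file are in the imported files `L101` .. `L127`, with the same names and in the same form:
`dvp_zero`, `dvp_one`, `DP.fact`, `DP.dvp_four`, `DP.mul`, `ex_zero`, `DP.ex_add`, `DP.ex_mul_neg`, `DP.ex_neg_mul`, `ex_map` (L101); `DP.ex_eq_exp`, `toA_mul` .. (L102); `DP.ex_comm3`, `DP.conj` (L103); `DP.ad_mem` (L104);
weights: `HasWt.*`, `OverW.*`, `Dl`, `pW` (L105); Geck matrices (L106-L108): `hasWt_eZ`, `eZ_fZ`, `DP_eZ`, `nZ_mul`, `nL_mul`; `mm` (L109), `nZ_over` (L110); words `sL`, `root_wL`, `nL_over` (L117);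
`E_simple`, `E_neg_simple`, `E_word`, `DP_E`, `hasWt_E`, `dvp_wt`, `E_simple_entry` (L118); `exists_cf`, `cf`, `cf_E`, `cf_h` (L119); `gg_iff` (L120); `nZ_E` (L121);
`xG`, `xG_add`, `xG_map`, `xG_inv`, `xG_zero`, `GQ_eq`, `xG_mem`, `mG`, `mG_one`, `mG_mem`, `xG_neg_eq` (L122); `gR_iff`, `gR_root`, `gR_ht`, `gR_diag` (L123); `gR_lie`, `gR_conj`, `gR_GQ` (L124);
`mG_over`, `mG_E`, `mG_entry` (L125); `scalar_of_comm` (L126); `xx_InI` (L127).
-/
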