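import Pool.Agent.Lib.L1S.Defs

/-!
# L1S, module D (minors): definitions. Owner: helper29.

`Dm b i w g` is the minor of `g` with the rows `inr (w β)` and the columns `inr β`, `β ∈ Φ_i`; it is used when `w Φ_i = - Φ_j`.
-/

namespace Pool.Agent.Lib.L1S

open MeasureTheory Matrix NumberField IsDedekindDomain Pool.Agent.Lib.H89N Pool.Agent.Lib.H33W

noncomputable section

variable {ι M N : Type} [Fintype ι] [DecidableEq ι] [AddCommGroup M] [Module ℚ M] [AddCommGroup N] [Module ℚ N]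
  {P : RootPairing ι ℚ M N} [P.IsCrystallographic] [P.IsRootSystem]

/-- The coefficients of the weights of the adjoint representation with respect to the simple roots. -/
def wq (b : P.Base) : I b → b.support → ℚ := Sum.elim (fun _ _ => 0) fun β k => b.toWeightBasis.repr (P.root β) k

/-- The entries of `g - 1` are zero except at `(r, c)` with `r - c` a nonzero sum of simple roots. -/
def Uni (b : P.Base) {R : Type} [CommRing R] (g : Matrix (I b) (I b) R) : Prop :=
  ∀ r c, g r c = (1 : Matrix (I b) (I b) R) r c ∨ (ht b c < ht b r ∧ ∀ k, wq b c k ≤ wq b r k)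

/-- `w Φ_i = - Φ_j`. -/
def OppW (b : P.Base) (i j : b.support) (w : Equiv.Perm ι) : Prop :=
  ∀ β, β ∈ Phi b i ↔ P.reflectionPerm (w β) (w β) ∈ Phi b j

/-- The minor of `g` with the rows `w Φ_i` and the columns `Φ_i`. -/
def Dm (b : P.Base) (i : b.support) (w : Equiv.Perm ι) {R : Type} [CommRing R] (g : Matrix (I b) (I b) R) : R :=
  Matrix.det (Matrix.of fun β β' : Phi b i => g (Sum.inr (w β.1)) (Sum.inr β'.1))

/-- `S_i = ∑_{β ∈ Φ_i} ⟨β, λ⟩`. -/
def sS (b : P.Base) (c : b.support → ℤ) (i : b.support) : ℤ := ∑ β ∈ Phi b i, pr b c (Sum.inr β)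

/-- `H_i = ∑_{β ∈ Φ_i} ht β`. -/
def HH (b : P.Base) (i : b.support) : ℤ := ∑ β ∈ Phi b i, b.height β

/-- `A(σ_i) = ∑_{β ∈ Φ_i} A(β)`. -/
def AA (b : P.Base) (A : M →ₗ[ℚ] ℝ) (i : b.support) : ℝ := ∑ β ∈ Phi b i, A (P.root β)

end

end Pool.Agent.Lib.L1S
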