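import Pool.Agent.Lib.L1S.L20

/-! L1S, module L2 (helper89), file L22. -/

namespace Pool.Agent.Lib.L1S

open Matrix NumberField

variable {ι M N : Type} [Fintype ι] [DecidableEq ι] [AddCommGroup M] [Module ℚ M] [AddCommGroup N] [Module ℚ N]
  {P : RootPairing ι ℚ M N} [P.IsCrystallographic] (b : P.Base) {A : Type} [CommRing A]

/-- Products of matrices of level `k ≥ 0`: `gh - 1 = (g-1)(h-1) + (g-1) + (h-1)`; the entry `(r,c)` of `(g-1)(h-1)` is a sum over `l` with `ht r ≥ ht l + k`, `ht l ≥ ht c + k`. -/
theorem UTk_mul {k : ℤ} (hk : 0 ≤ k) {g h : Matrix (I b) (I b) A} (hg : UTk b k g) (hh : UTk b k h) : UTk b k (g * h) := by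
  intro r c hrc
  rw [Matrix.mul_apply, Finset.sum_eq_single r]
  · rw [hh r c hrc]
    by_cases h1 : r = c
    · subst h1
      rw [hg r r hrc, Matrix.one_apply_eq, one_mul]
    · rw [Matrix.one_apply_ne h1, mul_zero]
  · intro l _ hl
    by_cases h1 : ht b r < ht b l + k
    · rw [hg r l h1, Matrix.one_apply_ne hl.symm, zero_mul]
    · have h2 : ht b l < ht b c := by omega
      have h3 : l ≠ c := by
        rintro rfl
        exact absurd h2 (lt_irrefl _)
      rw [hh l c (by omega), Matrix.one_apply_ne h3, mul_zero]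
  · intro h
    exact absurd (Finset.mem_univ r) h

/-- The inverse of a matrix of level `k ≥ 1` has level `k`. Let `n = g - 1`, `g' = 1 - n g'` (from `g g' = 1`). Show for all `N : ℕ`, `r` with `ht r ≤ -B + N` (`-B` a lower bound of the heights, induction on `N`) and all `c` with `ht r < ht c + k`: `g' r c = 1 r c`:
`g' r c = 1 r c - ∑_l n r l g' l c`, `n r l ≠ 0` implies `ht l + k ≤ ht r`, so `ht l ≤ ht r - 1` and `ht l < ht c`, hence `g' l c = 1 l c = 0` (`l ≠ c`). -/
theorem UTk_inv {k : ℤ} (hk : 1 ≤ k) {g g' : Matrix (I b) (I b) A} (h1 : g * g' = 1) (hg : UTk b k g) : UTk b k g' := by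
  obtain ⟨B, hB⟩ : ∃ B : ℤ, ∀ r : I b, B ≤ ht b r := by
    refine ⟨-∑ r : I b, |ht b r|, fun r => ?_⟩
    have h2 := Finset.single_le_sum (f := fun r : I b => |ht b r|) (fun r _ => abs_nonneg _)
      (Finset.mem_univ r)
    have h3 := neg_abs_le (ht b r)
    have h4 : |ht b r| ≤ ∑ r : I b, |ht b r| := h2
    omega
  have key : ∀ n : ℕ, ∀ r c : I b, (ht b r - B).toNat < n → ht b r < ht b c + k →
      g' r c = (1 : Matrix (I b) (I b) A) r c := by
    intro n
    induction n with
    | zero => intro r c h; exact absurd h (Nat.not_lt_zero _)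
    | succ n ih =>
      intro r c hn hrc
      have h2 : (g * g') r c = (1 : Matrix (I b) (I b) A) r c := by rw [h1]
      rw [Matrix.mul_apply, Finset.sum_eq_single r] at h2
      · rw [hg r r (by omega), Matrix.one_apply_eq, one_mul] at h2
        exact h2
      · intro l _ hl
        by_cases h3 : ht b r < ht b l + k
        · rw [hg r l h3, Matrix.one_apply_ne hl.symm, zero_mul]
        · have h4 : l ≠ c := by
            rintro rfl
            omega
          have h5 := hB l
          have h6 := hB r
          rw [ih l c (by omega) (by omega), Matrix.one_apply_ne h4, mul_zero]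
      · intro h
        exact absurd (Finset.mem_univ r) h
  intro r c hrc
  exact key _ r c (Nat.lt_succ_self _) hrc

/-- A matrix of level above all differences of heights is `1`: take `K = 1 + 2 ∑_r |ht r|`. -/
theorem UTk_top : ∃ K : ℤ, 1 ≤ K ∧ ∀ (A : Type) [CommRing A] (g : Matrix (I b) (I b) A), UTk b K g → g = 1 := by
  have h0 : ∀ r : I b, |ht b r| ≤ ∑ r : I b, |ht b r| := fun r =>
    Finset.single_le_sum (f := fun r : I b => |ht b r|) (fun r _ => abs_nonneg _)
      (Finset.mem_univ r)
  have hnn : 0 ≤ ∑ r : I b, |ht b r| := Finset.sum_nonneg fun r _ => abs_nonneg _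
  refine ⟨1 + 2 * ∑ r : I b, |ht b r|, by omega, fun A _ g hg => ?_⟩
  ext r c
  apply hg
  have h1 := h0 r
  have h2 := h0 c
  have h3 := le_abs_self (ht b r)
  have h4 := neg_abs_le (ht b c)
  omega

/-- If `g` has level `k` and its part of degree `k` is zero it has level `k + 1` (`k ≥ 1`, so `1 r c = 0` in degree `k`). -/
theorem UTk_succ {k : ℤ} (hk : 1 ≤ k) {g : Matrix (I b) (I b) A} (hg : UTk b k g) (h0 : hcp b k g = 0) : UTk b (k + 1) g := by
  intro r c hrc
  by_cases h1 : ht b r < ht b c + k
  · exact hg r c h1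
  · have h2 : ht b r = ht b c + k := by omega
    have h3 : hcp b k g r c = 0 := by rw [h0, Matrix.zero_apply]
    have h4 : r ≠ c := by
      rintro rfl
      omega
    rw [Matrix.one_apply_ne h4, ← h3]
    simp only [hcp, Matrix.of_apply, if_pos h2]

/-- The part of degree `k ≥ 1` of a product of matrices of level `k` is the sum of the parts: `(g-1)(h-1)` has degrees `≥ 2k > k`. -/
theorem hcp_mul {k : ℤ} (hk : 1 ≤ k) {g h : Matrix (I b) (I b) A} (hg : UTk b k g) (hh : UTk b k h) : hcp b k (g * h) = hcp b k g + hcp b k h := by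
  ext r c
  simp only [hcp, Matrix.add_apply, Matrix.of_apply]
  by_cases h1 : ht b r = ht b c + k
  · rw [if_pos h1, if_pos h1, if_pos h1]
    have hrc : r ≠ c := by
      rintro rfl
      omega
    have h2 : (g * h) r c = ∑ l ∈ ({r, c} : Finset (I b)), g r l * h l c := by
      rw [Matrix.mul_apply]
      refine (Finset.sum_subset (Finset.subset_univ _) fun l _ hl => ?_).symm
      rw [Finset.mem_insert, Finset.mem_singleton, not_or] at hl
      by_cases h3 : ht b r < ht b l + k
      · rw [hg r l h3, Matrix.one_apply_ne (Ne.symm hl.1), zero_mul]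
      · rw [hh l c (by omega), Matrix.one_apply_ne hl.2, mul_zero]
    rw [h2, Finset.sum_pair hrc, hg r r (by omega), hh c c (by omega), Matrix.one_apply_eq,
      Matrix.one_apply_eq, one_mul, mul_one, add_comm]
  · rw [if_neg h1, if_neg h1, if_neg h1, add_zero]

theorem hcp_one {k : ℤ} (hk : 1 ≤ k) : hcp b k (1 : Matrix (I b) (I b) A) = 0 := by
  ext r c
  simp only [hcp, Matrix.of_apply, Matrix.zero_apply]
  by_cases h1 : ht b r = ht b c + k
  · rw [if_pos h1]
    have hrc : r ≠ c := by
      rintro rfl
      omega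
    exact Matrix.one_apply_ne hrc
  · rw [if_neg h1]

end Pool.Agent.Lib.L1S
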