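import Pool.Agent.Lib.L1S.L21
import Pool.Agent.Lib.L1S.L22
import Pool.Agent.Lib.L1S.D0

/-! L1S, module L2 (helper89), file L27. -/

namespace Pool.Agent.Lib.L1S

open Matrix NumberField

variable {ι M N : Type} [Fintype ι] [DecidableEq ι] [AddCommGroup M] [Module ℚ M] [AddCommGroup N] [Module ℚ N]
  {P : RootPairing ι ℚ M N} [P.IsCrystallographic] [P.IsReduced] [P.IsIrreducible] [P.IsRootSystem] (b : P.Base) {A : Type} [CommRing A]

/-- A root of positive height has nonnegative coefficients `b.toWeightBasis.repr (root β) k` (`b.exists_root_eq_sum_nat_or_neg` and the sign of the height). This is `b2_nonneg` of `B2.lean` (import it if you like). -/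
theorem repr_nonneg (β : ι) (hβ : 0 < b.height β) (k : b.support) : 0 ≤ b.toWeightBasis.repr (P.root β) k := by
  have h : b.IsPos β := (b.isPos_iff).mpr hβ
  refine h.induction_on_add (p := fun β => 0 ≤ b.toWeightBasis.repr (P.root β) k) ?_ ?_
  · intro i hi
    have e := b.toWeightBasis_repr_root ⟨i, hi⟩
    rw [e]
    by_cases hk : (⟨i, hi⟩ : b.support) = k
    · simp [hk]
    · simp [hk]
  · intro i j l hl hi hj
    have e := b.toWeightBasis_repr_root ⟨j, hj⟩
    rw [hl, map_add, Finsupp.add_apply, e]
    refine add_nonneg hi ?_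
    by_cases hk : (⟨j, hj⟩ : b.support) = k
    · simp [hk]
    · simp [hk]

theorem l27_wq (r : I b) (k : b.support) : wq b r k = b.toWeightBasis.repr (wt b r) k := by
  rcases r with j | β
  · change (0 : ℚ) = b.toWeightBasis.repr 0 k
    rw [map_zero]
    rfl
  · rfl

/-- `x_β(t)`, `β` positive, is unipotent in the strong sense of `D0`: if `(x_β(t) - 1) r c ≠ 0` then `wt r = wt c + k β` with `1 ≤ k` (`dvp_wt`; `dvp_zero` is the identity), so `ht r > ht c` (`ht_of_wt`) and the coefficients `wq` increase
(`wq b r k = b.toWeightBasis.repr (wt b r) k`). -/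
theorem xx_Uni (β : ι) (hβ : 0 < b.height β) (t : A) : Uni b (xx b β t) := by
  intro r c
  by_cases hex : ∃ k : ℕ, 1 ≤ k ∧ dvp (E b β) k r c ≠ 0
  · right
    obtain ⟨k, hk, hne⟩ := hex
    have h1 := dvp_wt b β k r c hne
    have h2 := ht_of_wt b r c k β h1
    constructor
    · rw [h2]
      have : 0 < (k : ℤ) * b.height β := mul_pos (by exact_mod_cast hk) hβ
      omega
    · intro j
      rw [l27_wq, l27_wq, h1, map_add, map_smul, Finsupp.add_apply, Finsupp.smul_apply, smul_eq_mul]
      have := repr_nonneg b β hβ j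
      have h3 : (0 : ℚ) ≤ (k : ℚ) := by positivity
      nlinarith [mul_nonneg h3 this]
  · left
    push Not at hex
    unfold xx ex
    rw [Finset.sum_range_succ', Matrix.add_apply, Matrix.sum_apply]
    have h1 : ∑ k ∈ Finset.range 3, (t ^ (k + 1) • toA A (dvp (E b β) (k + 1))) r c = 0 := by
      apply Finset.sum_eq_zero
      intro k _
      change t ^ (k + 1) * (((dvp (E b β) (k + 1)) r c : ℤ) : A) = 0
      rw [hex (k + 1) (by omega), Int.cast_zero, mul_zero]
    rw [h1, dvp_zero, pow_zero, one_smul, zero_add]
    change (((1 : Matrix (I b) (I b) ℤ) r c : ℤ) : A) = _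
    by_cases hrc : r = c
    · subst hrc
      rw [Matrix.one_apply_eq, Matrix.one_apply_eq, Int.cast_one]
    · rw [Matrix.one_apply_ne hrc, Matrix.one_apply_ne hrc, Int.cast_zero]

/-- `Uni` is closed under products: `(gh) r c = ∑_l g r l h l c`; if all terms with `l ≠ r`, `l ≠ c` vanish, `(gh) r c` is `1 r c`-like; otherwise some `l` gives both chains of inequalities. Precisely: if NOT (`ht c < ht r` and `wq c ≤ wq r`) then every term is
`1 r l * 1 l c`: for each `l`, if `g r l ≠ 1 r l` and `h l c ≠ 1 l c` transitivity contradicts; if `g r l ≠ 1 r l` and `h l c = 1 l c ≠ 0` then `l = c`, contradiction; similarly the other case. -/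
theorem Uni_mul {g h : Matrix (I b) (I b) A} (hg : Uni b g) (hh : Uni b h) : Uni b (g * h) := by
  intro r c
  by_cases hcon : ht b c < ht b r ∧ ∀ k, wq b c k ≤ wq b r k
  · exact Or.inr hcon
  · left
    have h1 : ∀ l, g r l * h l c = (1 : Matrix (I b) (I b) A) r l * (1 : Matrix (I b) (I b) A) l c := by
      intro l
      rcases hg r l with h2 | h2
      · rcases hh l c with h3 | h3
        · rw [h2, h3]
        · have hne : r ≠ l := by
            rintro rfl
            exact hcon h3
          rw [h2, Matrix.one_apply_ne hne]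
          ring
      · rcases hh l c with h3 | h3
        · have hne : l ≠ c := by
            rintro rfl
            exact hcon h2
          rw [h3, Matrix.one_apply_ne hne]
          ring
        · exact absurd ⟨h3.1.trans h2.1, fun k => (h3.2 k).trans (h2.2 k)⟩ hcon
    rw [Matrix.mul_apply, Finset.sum_congr rfl (fun l _ => h1 l), ← Matrix.mul_apply, Matrix.one_mul]

theorem PL_Uni (L : List ι) (hL : ∀ β ∈ L, 0 < b.height β) (t : ι → A) : Uni b (PL b L t) := by
  induction L with
  | nil => exact fun r c => Or.inl rfl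
  | cons β L ih =>
    have h1 : PL b (β :: L) t = xx b β (t β) * PL b L t := by
      unfold PL
      rw [List.map_cons, List.prod_cons]
    rw [h1]
    exact Uni_mul b (xx_Uni b β (hL β (by simp)) _) (ih fun γ hγ => hL γ (by simp [hγ]))

/-- Ordered products over positive roots are unitriangular: `UTk_mul`, `xx_UTk`, `UTk_mono`. -/
theorem PL_UTk (L : List ι) (hL : ∀ β ∈ L, 0 < b.height β) (t : ι → A) : UTk b 1 (PL b L t) := by
  induction L with
  | nil => exact fun r c _ => rfl
  | cons β L ih =>
    have h1 : PL b (β :: L) t = xx b β (t β) * PL b L t := by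
      unfold PL
      rw [List.map_cons, List.prod_cons]
    rw [h1]
    have hβ : 0 < b.height β := hL β (by simp)
    exact UTk_mul b zero_le_one (UTk_mono (by omega) (xx_UTk b β hβ _))
      (ih fun γ hγ => hL γ (by simp [hγ]))

end Pool.Agent.Lib.L1S
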