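import Pool.Agent.Lib.L1S.L21
import Pool.Agent.Lib.L1S.L22

/-! L1S, module L2 (helper89), file L28. -/

namespace Pool.Agent.Lib.L1S

open Matrix NumberField

variable {ι M N : Type} [Fintype ι] [DecidableEq ι] [AddCommGroup M] [Module ℚ M] [AddCommGroup N] [Module ℚ N]
  {P : RootPairing ι ℚ M N} [P.IsCrystallographic] [P.IsReduced] [P.IsIrreducible] [P.IsRootSystem] (b : P.Base) {A : Type} [CommRing A]

/-- `c_i` is additive on unitriangular matrices: `(g h)(inl i, inr (-i)) = ∑_l g (inl i) l * h l (inr (-i))`; `g (inl i) l ≠ 0` needs `ht l < 0` or `l = inl i`; `h l (inr (-i)) ≠ 0` needs `ht l > -1` or `l = inr (-i)` (`ht (inr (-i)) = -1`: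
`RootPairing.Base.height_reflectionPerm_self`, `RootPairing.Base.height_one_of_mem_support`): only `l = inl i` and `l = inr (-i)` contribute. -/
theorem c_add (g h : Matrix (I b) (I b) A) (hg : UTk b 1 g) (hh : UTk b 1 h) (i : b.support) :
    (g * h) (Sum.inl i) (Sum.inr (ng P i)) = g (Sum.inl i) (Sum.inr (ng P i)) + h (Sum.inl i) (Sum.inr (ng P i)) := by
  obtain ⟨r, hr⟩ : ∃ r : I b, r = Sum.inl i := ⟨_, rfl⟩
  obtain ⟨c, hc⟩ : ∃ c : I b, c = Sum.inr (ng P i) := ⟨_, rfl⟩
  rw [← hr, ← hc]
  have hr0 : ht b r = 0 := by rw [hr]; rfl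
  have hc0 : ht b c = -1 := by
    rw [hc]
    change b.height (ng P i) = -1
    have h2 : b.height (ng P i) = - b.height i := b.height_reflectionPerm_self i
    rw [h2, b.height_one_of_mem_support i.2]
  have hrc : r ≠ c := by
    rintro rfl
    omega
  have h2 : (g * h) r c = ∑ l ∈ ({r, c} : Finset (I b)), g r l * h l c := by
    rw [Matrix.mul_apply]
    refine (Finset.sum_subset (Finset.subset_univ _) fun l _ hl => ?_).symm
    rw [Finset.mem_insert, Finset.mem_singleton, not_or] at hl
    by_cases h3 : ht b r < ht b l + 1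
    · rw [hg r l h3, Matrix.one_apply_ne (Ne.symm hl.1), zero_mul]
    · rw [hh l c (by omega), Matrix.one_apply_ne hl.2, mul_zero]
  rw [h2, Finset.sum_pair hrc, hg r r (by omega), hh c c (by omega), Matrix.one_apply_eq,
    Matrix.one_apply_eq, one_mul, mul_one, add_comm]

/-- `c_i(x_β(t)) = t` if `β = α_i`, `0` for the other positive roots: the entry `(inl i, inr (-i))` of `dvp E_β k` vanishes unless `0 = -α_i + k β` (`dvp_wt`), heights: `k ht β = 1`, so `k = 1` and `root β = α_i`; for `β = α_i`, `k = 1` the entry is `1` (`E_simple_entry`);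
`k = 0`: `dvp_zero`, off the diagonal. -/
theorem c_xx (β : ι) (hβ : 0 < b.height β) (t : A) (i : b.support) : xx b β t (Sum.inl i) (Sum.inr (ng P i)) = if β = i then t else 0 := by
  have hc0 : ht b (Sum.inr (ng P i)) = -1 := by
    change b.height (ng P i) = -1
    have h2 : b.height (ng P i) = - b.height i := b.height_reflectionPerm_self i
    rw [h2, b.height_one_of_mem_support i.2]
  have hr0 : ht b (Sum.inl i) = 0 := rfl
  have h1 : ∀ k : ℕ, dvp (E b β) k (Sum.inl i) (Sum.inr (ng P i)) ≠ 0 → k = 1 ∧ β = i := by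
    intro k hne
    have h2 := dvp_wt b β k _ _ hne
    have h3 := ht_of_wt b _ _ k β h2
    rw [hc0, hr0] at h3
    have h4 : (k : ℤ) * b.height β = 1 := by omega
    have h5 : (k : ℤ) = 1 := Int.eq_one_of_mul_eq_one_right (Int.natCast_nonneg k) h4
    have h6 : k = 1 := by exact_mod_cast h5
    refine ⟨h6, ?_⟩
    apply P.root.injective
    have h7 : (0 : M) = P.root (ng P i) + (k : ℚ) • P.root β := h2
    rw [h6, Nat.cast_one, one_smul, RootPairing.root_reflectionPerm, RootPairing.reflection_apply_self] at h7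
    have h8 : P.root β - P.root i = 0 := by rw [h7]; abel
    exact sub_eq_zero.1 h8
  simp only [xx, ex, Matrix.sum_apply, Matrix.smul_apply, Matrix.map_apply, smul_eq_mul]
  by_cases hβi : β = i
  · rw [if_pos hβi, Finset.sum_eq_single 1]
    · rw [dvp_one, pow_one, hβi, E_simple_entry, if_pos rfl, Int.cast_one, mul_one]
    · intro k _ hk
      have h2 : dvp (E b β) k (Sum.inl i) (Sum.inr (ng P i)) = 0 := by
        by_contra hne
        exact hk (h1 k hne).1
      rw [h2, Int.cast_zero, mul_zero]
    · intro h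
      exact absurd (Finset.mem_range.2 (by norm_num)) h
  · rw [if_neg hβi]
    refine Finset.sum_eq_zero fun k _ => ?_
    have h2 : dvp (E b β) k (Sum.inl i) (Sum.inr (ng P i)) = 0 := by
      by_contra hne
      exact hβi (h1 k hne).2
    rw [h2, Int.cast_zero, mul_zero]

/-- `c_i` of an ordered product without repetition: `c_add`, `c_xx` (the partial products are unitriangular: `UTk_mul`, `xx_UTk`). -/
theorem c_PL (L : List ι) (hL : ∀ β ∈ L, 0 < b.height β) (hn : L.Nodup) (t : ι → A) (i : b.support) :
    PL b L t (Sum.inl i) (Sum.inr (ng P i)) = if (i : ι) ∈ L then t i else 0 := by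
  have hut : ∀ L : List ι, (∀ β ∈ L, 0 < b.height β) → UTk b 1 (PL b L t) := by
    intro L
    induction L with
    | nil =>
      intro _ r c _
      rfl
    | cons β L ih =>
      intro hL
      have h1 : PL b (β :: L) t = xx b β (t β) * PL b L t := by
        simp only [PL, List.map_cons, List.prod_cons]
      rw [h1]
      refine UTk_mul b (by norm_num) ?_ (ih fun γ hγ => hL γ (List.mem_cons_of_mem _ hγ))
      have h2 := hL β List.mem_cons_self
      exact UTk_mono (by omega) (xx_UTk b β h2 (t β))
  induction L with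
  | nil =>
    have h1 : PL b [] t = 1 := rfl
    rw [h1, if_neg (List.not_mem_nil)]
    exact Matrix.one_apply_ne (by simp)
  | cons β L ih =>
    have h1 : PL b (β :: L) t = xx b β (t β) * PL b L t := by
      simp only [PL, List.map_cons, List.prod_cons]
    have h2 := hL β List.mem_cons_self
    have h3 : ∀ γ ∈ L, 0 < b.height γ := fun γ hγ => hL γ (List.mem_cons_of_mem _ hγ)
    rw [h1, c_add b _ _ (UTk_mono (by omega) (xx_UTk b β h2 (t β))) (hut L h3), c_xx b β h2,
      ih h3 (List.nodup_cons.1 hn).2]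
    by_cases h4 : β = i
    · have h5 : (i : ι) ∉ L := by rw [← h4]; exact (List.nodup_cons.1 hn).1
      rw [if_pos h4, if_neg h5, if_pos (by rw [h4]; exact List.mem_cons_self), add_zero, h4]
    · rw [if_neg h4, zero_add]
      by_cases h5 : (i : ι) ∈ L
      · rw [if_pos h5, if_pos (List.mem_cons_of_mem _ h5)]
      · rw [if_neg h5, if_neg]
        intro h6
        rcases List.mem_cons.1 h6 with h7 | h7
        · exact h4 h7.symm
        · exact h5 h7

end Pool.Agent.Lib.L1S
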