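import Pool.Agent.Lib.L1S.L26
import Pool.Agent.Lib.L1S.L28
import Pool.Agent.Lib.L1S.L125

/-! L1S, module L2 (helper89), file L29. -/

namespace Pool.Agent.Lib.L1S

open Matrix NumberField

variable {ι M N : Type} [Fintype ι] [DecidableEq ι] [AddCommGroup M] [Module ℚ M] [AddCommGroup N] [Module ℚ N]
  {P : RootPairing ι ℚ M N} [P.IsCrystallographic] [P.IsReduced] [P.IsIrreducible] [P.IsRootSystem] (b : P.Base) {A : Type} [CommRing A]

/-- **`m_i(s) (U ∩ {c_i = 0}) m_i(s)⁻¹ ⊆ U`.** `g = ∏ x_β(t_β)` (`prod_exists`), `t_{α_i} = c_i(g) = 0` (`c_PL`, `posL_nodup`, `posL_mem`). For `β ≠ α_i` positive `m_i(s) x_β(t) m_i(s)⁻¹ = x_{s_i β}(c t)` (`mG_E`) and `s_i β` is positive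
(`RootPairing.Base.IsPos.reflectionPerm`); the factor `x_{α_i}(0) = 1` does no harm. So the conjugate of each factor is unitriangular (`xx_UTk`, `UTk_mono`), and so is the product (`UTk_mul`): induction on the list with `m g m⁻¹ = ∏ m x m⁻¹`. -/
theorem m_conj [Algebra ℚ A] (i : b.support) (s : Aˣ) {g g' : Matrix (I b) (I b) A} (h : Nmz b g g') (hg : UTk b 1 g)
    (h0 : g (Sum.inl i) (Sum.inr (ng P i)) = 0) : UTk b 1 ((mG b i s).1 * g * (mG b i s)⁻¹.1) := by
  obtain ⟨t, ht⟩ := prod_exists b h hg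
  have hi : 0 < b.height (i : ι) := by
    rw [b.height_one_of_mem_support i.2]
    exact one_pos
  have hti : t (i : ι) = 0 := by
    have h1 := c_PL b (posL b) (fun β hβ => (posL_mem b β).mp hβ) (posL_nodup b) t i
    rw [← ht, h0, if_pos ((posL_mem b (i : ι)).mpr hi)] at h1
    exact h1.symm
  have hinv1 : (mG b i s)⁻¹.1 * (mG b i s).1 = 1 := (mG b i s).inv_mul
  have hinv2 : (mG b i s).1 * (mG b i s)⁻¹.1 = 1 := (mG b i s).mul_inv
  have key : ∀ L : List ι, (∀ β ∈ L, 0 < b.height β) →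
      UTk b 1 ((mG b i s).1 * PL b L t * (mG b i s)⁻¹.1) := by
    intro L
    induction L with
    | nil =>
      intro _
      have h1 : (mG b i s).1 * PL b [] t * (mG b i s)⁻¹.1 = 1 := by
        have h2 : PL b [] t = (1 : Matrix (I b) (I b) A) := rfl
        rw [h2, Matrix.mul_one, hinv2]
      rw [h1]
      exact fun r c _ => rfl
    | cons β L ih =>
      intro hL
      have h1 : PL b (β :: L) t = xx b β (t β) * PL b L t := by
        unfold PL
        rw [List.map_cons, List.prod_cons]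
      have h2 : (mG b i s).1 * PL b (β :: L) t * (mG b i s)⁻¹.1
          = ((mG b i s).1 * xx b β (t β) * (mG b i s)⁻¹.1) * ((mG b i s).1 * PL b L t * (mG b i s)⁻¹.1) := by
        rw [h1]
        simp only [Matrix.mul_assoc]
        rw [← Matrix.mul_assoc (mG b i s)⁻¹.1 (mG b i s).1, hinv1, Matrix.one_mul]
      rw [h2]
      apply UTk_mul b zero_le_one _ (ih fun γ hγ => hL γ (by simp [hγ]))
      by_cases hβ : β = (i : ι)
      · rw [hβ, hti]
        have h3 : xx b (i : ι) (0 : A) = 1 := ex_zero _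
        rw [h3, Matrix.mul_one, hinv2]
        exact fun r c _ => rfl
      · have hβ0 : 0 < b.height β := hL β (by simp)
        obtain ⟨c, -, hc⟩ := mG_E b i s β
        have h3 := congrArg (fun u : GL (I b) A => (u.1 : Matrix (I b) (I b) A)) (hc (t β))
        have h4 : (mG b i s).1 * xx b β (t β) * (mG b i s)⁻¹.1 = xx b (P.reflectionPerm i β) ((c : A) * t β) := h3
        rw [h4]
        have h5 : b.IsPos (P.reflectionPerm i β) :=
          ((b.isPos_iff).mpr hβ0).reflectionPerm i.2 hβ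
        have h6 : 0 < b.height (P.reflectionPerm i β) := (b.isPos_iff).mp h5
        exact UTk_mono (by omega) (xx_UTk b _ h6 _)
  rw [ht]
  exact key (posL b) fun β hβ => (posL_mem b β).mp hβ

end Pool.Agent.Lib.L1S
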