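import Pool.Agent.Lib.L1S.T1

/-!
# Module M: common definitions

`HU` = the unipotent subgroup of `G(K)`, the actions of `G(K)` on `G(K ⊗ ℝ)` and of `HU` on `U`, the congruence condition modulo `M`, the minors `D_ij`.
-/

namespace Pool.Agent.Lib.L1S

open MeasureTheory Matrix NumberField IsDedekindDomain Pool.Agent.Lib.H89N Pool.Agent.Lib.H33W

noncomputable section

variable {ι M N : Type} [Fintype ι] [DecidableEq ι] [AddCommGroup M] [Module ℚ M] [AddCommGroup N] [Module ℚ N]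
  {P : RootPairing ι ℚ M N} [P.IsCrystallographic]

/-- `g - 1` raises the height. -/
def UT (b : P.Base) {R : Type} [CommRing R] (g : Matrix (I b) (I b) R) : Prop := ∀ r c, ht b r ≤ ht b c → g r c = (1 : Matrix (I b) (I b) R) r c

/-- The unipotent subgroup `U(K)` of `G(K)`. -/
def HU (b : P.Base) (K : Type) [Field K] [NumberField K] : Subgroup (GK b K) := (UR b K).comap (emb b K)

/-- `G(K)` acts on `G(K ⊗ ℝ)` by left multiplication. -/
instance actG (b : P.Base) (K : Type) [Field K] [NumberField K] : MulAction (GK b K) (GR b K) := MulAction.compHom _ (emb b K)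

/-- The embedding `U(K) → U(K ⊗ ℝ)`. -/
def kU (b : P.Base) (K : Type) [Field K] [NumberField K] : HU b K →* UR b K where
  toFun g := ⟨emb b K g.1, g.2⟩
  map_one' := Subtype.ext (map_one _)
  map_mul' g h := Subtype.ext (map_mul _ _ _)

/-- `U(K)` acts on `U(K ⊗ ℝ)` by left multiplication. -/
instance actU (b : P.Base) (K : Type) [Field K] [NumberField K] : MulAction (HU b K) (UR b K) := MulAction.compHom _ (kU b K)

theorem smul_def (b : P.Base) (K : Type) [Field K] [NumberField K] (g : GK b K) (x : GR b K) : g • x = emb b K g * x := rfl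

theorem smulU_def (b : P.Base) (K : Type) [Field K] [NumberField K] (g : HU b K) (x : UR b K) : g • x = kU b K g * x := rfl

/-- The group `h⁻¹ Γ h`. -/
def Gh (b : P.Base) {K : Type} [Field K] [NumberField K] (𝔫 : Ideal (𝓞 K)) (v : HeightOneSpectrum (𝓞 K)) (r s : ℕ) (h : GK b K) : Subgroup (GK b K) :=
  (GamK b 𝔫 v r s).comap (MulAut.conj h).toMonoidHom

/-- The group `h⁻¹ Γ_m h`, `Γ_m` the subgroup of `Γ` of the elements congruent to `1` modulo `m 𝔫`. -/
def Gm (b : P.Base) {K : Type} [Field K] [NumberField K] (𝔫 : Ideal (𝓞 K)) (v : HeightOneSpectrum (𝓞 K)) (r s m : ℕ) (h : GK b K) : Subgroup (GK b K) :=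
  Gh b (Ideal.span {(m : 𝓞 K)} * 𝔫) v r s h

/-- The hypotheses on the ideal `𝔫`, the place `v`, the level `r, s` at `v`, the dominant coweight `c`, the uniformiser `π` and the Hecke element `h`. -/
structure Lv [P.IsRootSystem] (b : P.Base) {K : Type} [Field K] [NumberField K] (𝔫 : Ideal (𝓞 K)) (v : HeightOneSpectrum (𝓞 K)) (r s : ℕ) (c : b.support → ℤ) (π : K) (h : GK b K) : Prop where
  ne : 𝔫 ≠ ⊥
  nv : ¬𝔫 ≤ v.asIdeal
  dom : ∀ i : b.support, 0 ≤ pr b c (Sum.inr i)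
  hπ : v.valuation K π = WithZero.exp (-1 : ℤ)
  hh : h ∈ HG b 𝔫 v
  hv : AtV b v r s π c h

/-- The size condition of the theorem. -/
def Sz [P.IsRootSystem] (b : P.Base) {K : Type} [Field K] [NumberField K] (𝔫 : Ideal (𝓞 K)) (v : HeightOneSpectrum (𝓞 K)) (r s : ℕ) (c : b.support → ℤ) : Prop :=
  ∀ i j, Opp b i j → (Ideal.absNorm v.asIdeal : ℝ) ^ (∑ β ∈ Phi b i, pr b c (Sum.inr β) + ∑ β ∈ Phi b j, pr b c (Sum.inr β) - ((r : ℤ) + s) * (Phi b i).card) ≤
    (Ideal.absNorm 𝔫 : ℝ) ^ (((Phi b i).card : ℤ) + ∑ β ∈ Phi b i, b.height β + ∑ β ∈ Phi b j, b.height β)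

/-- `γ` moves a point of `U a Ω` to a point of `U a Ω`: `γ = u' a κ a⁻¹ u` with `κ ∈ Ω`. -/
def Mv (b : P.Base) {K : Type} [Field K] [NumberField K] (Ω : Set (GL (I b) (EE K))) (A : M →ₗ[ℚ] ℝ) (γ : GR b K) : Prop :=
  ∃ u ∈ UR b K, ∃ u' ∈ UR b K, ∃ κ ∈ Ω, γ.1.1 = u'.1.1 * (dg b K A * κ.1 * dg b K (-A)) * u.1.1

/-- The alternative for `γ`: there is `v ∈ U(K)` with `v' = γ v γ⁻¹ ∈ U(K)` and `ψ(v') ≠ ψ(v)`. -/
def Alt (b : P.Base) {K : Type} [Field K] [NumberField K] (θ : b.support → (EE K →ₗ[ℝ] ℝ)) (γ : GK b K) : Prop :=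
  ∃ v v' : HU b K, γ * (v : GK b K) = (v' : GK b K) * γ ∧ psi b θ (kU b K v') ≠ psi b θ (kU b K v)

end

end Pool.Agent.Lib.L1S
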