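import Pool.Agent.Lib.L1S.L20
import Pool.Agent.Lib.L1S.MDefs
import Pool.Agent.Lib.L1S.L124

/-! L1S, module L2 (helper89), file L2G. -/

namespace Pool.Agent.Lib.L1S

open Matrix NumberField

variable {ι M N : Type} [Fintype ι] [DecidableEq ι] [AddCommGroup M] [Module ℚ M] [AddCommGroup N] [Module ℚ N]
  {P : RootPairing ι ℚ M N} [P.IsCrystallographic] [P.IsReduced] [P.IsIrreducible] [P.IsRootSystem] (b : P.Base) {A : Type} [CommRing A]

open Pool.Agent.Lib.H89N

/-- `G(K)` normalises the Lie algebra over `K`: `gR_GQ` with `f = RingHom.id K`, applied to `g` and `g⁻¹`. -/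
theorem GQ_Nmz {K : Type} [Field K] [CharZero K] {g : GL (I b) K} (hg : g ∈ GQ b K) : Nmz b g.1 g⁻¹.1 := by
  refine ⟨g.mul_inv, g.inv_mul, fun X hX => ⟨?_, ?_⟩⟩
  · have h := gR_GQ b (RingHom.id K) hg hX
    have e : ∀ m : Matrix (I b) (I b) K, m.map (RingHom.id K) = m := fun m => by
      ext i j
      rfl
    rw [e, e] at h
    exact h
  · have h := gR_GQ b (RingHom.id K) (inv_mem hg) hX
    have e : ∀ m : Matrix (I b) (I b) K, m.map (RingHom.id K) = m := fun m => by
      ext i j
      rfl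
    rw [e, e, inv_inv] at h
    exact h

/-- **`G(K ⊗ ℝ)` normalises the Lie algebra over `K ⊗ ℝ`.** The set of `g` in `GL(K ⊗ ℝ)` with `g X g⁻¹`, `g⁻¹ X g` in `gR b (EE K)` for all `X` in `gR b (EE K)` is closed: `gR b (EE K)` is a submodule of the finite dimensional real vector space of matrices (restrict scalars to
`ℝ`), hence closed (`Submodule.closed_of_finiteDimensional`), and `g ↦ g X g⁻¹` is continuous. It contains the image of `G(K)` by `gR_GQ` with `f = mixedEmbedding K`. Then `GE` is the topological closure of this image: `closure_minimal`. -/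
theorem GE_Nmz {K : Type} [Field K] [NumberField K] {g : GL (I b) (EE K)} (hg : g ∈ GE b K) : Nmz b g.1 g⁻¹.1 := by
  have hcl : IsClosed (gR b (EE K) : Set (Matrix (I b) (I b) (EE K))) := by
    have h : IsClosed (((gR b (EE K)).restrictScalars ℝ : Submodule ℝ (Matrix (I b) (I b) (EE K))) : Set (Matrix (I b) (I b) (EE K))) :=
      Submodule.closed_of_finiteDimensional _
    exact h
  have key : (GE b K : Set (GL (I b) (EE K))) ⊆
      {g | ∀ X ∈ gR b (EE K), g.1 * X * g⁻¹.1 ∈ gR b (EE K) ∧ g⁻¹.1 * X * g.1 ∈ gR b (EE K)} := by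
    refine closure_minimal ?_ ?_
    · rintro _ ⟨g, hg, rfl⟩ X hX
      exact ⟨gR_GQ b (mixedEmbedding K) hg hX, by
        have h := gR_GQ b (mixedEmbedding K) (inv_mem hg) hX
        rw [inv_inv] at h
        exact h⟩
    · have e : {g : GL (I b) (EE K) | ∀ X ∈ gR b (EE K), g.1 * X * g⁻¹.1 ∈ gR b (EE K) ∧ g⁻¹.1 * X * g.1 ∈ gR b (EE K)} =
          ⋂ (X : Matrix (I b) (I b) (EE K)) (_ : X ∈ gR b (EE K)),
            ((fun g : GL (I b) (EE K) => g.1 * X * g⁻¹.1) ⁻¹' (gR b (EE K) : Set (Matrix (I b) (I b) (EE K))) ∩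
              (fun g : GL (I b) (EE K) => g⁻¹.1 * X * g.1) ⁻¹' (gR b (EE K) : Set (Matrix (I b) (I b) (EE K)))) := by
        ext g
        simp only [Set.mem_iInter]
        rfl
      rw [e]
      have c1 : Continuous fun g : GL (I b) (EE K) => g.1 := Units.continuous_val
      have c2 : Continuous fun g : GL (I b) (EE K) => g⁻¹.1 := Units.continuous_val.comp continuous_inv
      refine isClosed_iInter fun X => isClosed_iInter fun _ => ?_
      exact (hcl.preimage ((c1.mul continuous_const).mul c2)).inter (hcl.preimage ((c2.mul continuous_const).mul c1))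
  exact ⟨g.mul_inv, g.inv_mul, fun X hX => key hg X hX⟩

end Pool.Agent.Lib.L1S
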