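import Pool.Agent.Lib.L1S.L26
import Pool.Agent.Lib.L1S.L27
import Pool.Agent.Lib.L1S.L29
import Pool.Agent.Lib.L1S.L2G

/-! L1S, module L2 (helper89), file ApiL2. -/

namespace Pool.Agent.Lib.L1S

open Matrix NumberField

variable {ι M N : Type} [Fintype ι] [DecidableEq ι] [AddCommGroup M] [Module ℚ M] [AddCommGroup N] [Module ℚ N]
  {P : RootPairing ι ℚ M N} [P.IsCrystallographic] [P.IsReduced] [P.IsIrreducible] [P.IsRootSystem] (b : P.Base) {A : Type} [CommRing A]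

open Pool.Agent.Lib.H89N

variable {K : Type} [Field K] [NumberField K]

/-- Membership in `U` in terms of `UTk` (`ht r < ht c + 1 ↔ ht r ≤ ht c`); the condition on the inverse follows (`UTk_inv`). -/
theorem mem_UR_iff (g : GR b K) : g ∈ UR b K ↔ UTk b 1 g.1.1 := by
  constructor
  · intro h r c hrc
    have h' : ∀ r c, ht b r ≤ ht b c → g.1.1 r c = (1 : Matrix (I b) (I b) (EE K)) r c ∧ g⁻¹.1.1 r c = (1 : Matrix (I b) (I b) (EE K)) r c := h
    exact (h' r c (by omega)).1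
  · intro h
    have h2 : UTk b 1 g⁻¹.1.1 := UTk_inv b le_rfl (g.1.mul_inv) h
    have h' : ∀ r c, ht b r ≤ ht b c → g.1.1 r c = (1 : Matrix (I b) (I b) (EE K)) r c ∧ g⁻¹.1.1 r c = (1 : Matrix (I b) (I b) (EE K)) r c :=
      fun r c hrc => ⟨h r c (by omega), h2 r c (by omega)⟩
    exact h'

/-- The same for `U(K)`: `mixedEmbedding K` is injective. -/
theorem mem_HU_iff (g : GK b K) : g ∈ HU b K ↔ UTk b 1 g.1.1 := by
  have h1 : g ∈ HU b K ↔ emb b K g ∈ UR b K := Iff.rfl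
  rw [h1, mem_UR_iff]
  have h2 : ∀ r c : I b, (emb b K g).1.1 r c = mixedEmbedding K (g.1.1 r c) := fun r c => rfl
  have h3 : ∀ r c : I b, (1 : Matrix (I b) (I b) (EE K)) r c = mixedEmbedding K ((1 : Matrix (I b) (I b) K) r c) := by
    intro r c
    rw [Matrix.one_apply, Matrix.one_apply]
    split_ifs
    · rw [map_one]
    · rw [map_zero]
  constructor
  · intro h r c hrc
    have h4 := h r c hrc
    rw [h2, h3] at h4
    exact mixedEmbedding_injective K h4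
  · intro h r c hrc
    rw [h2, h3, h r c hrc]

/-- **Leading parts in `G(K)`**: `lead`, `GQ_Nmz`. -/
theorem lead_K (g : GK b K) {k : ℤ} (hk : 1 ≤ k) (hg : UTk b k g.1.1) : hcp b k g.1.1 = ∑ β with b.height β = k, cf b β g.1.1 • toA K (E b β) := by
  exact lead b (GQ_Nmz b g.2) hk hg

/-- **Leading parts in `G(K ⊗ ℝ)`**: `lead`, `GE_Nmz`. -/
theorem lead_E (g : GR b K) {k : ℤ} (hk : 1 ≤ k) (hg : UTk b k g.1.1) : hcp b k g.1.1 = ∑ β with b.height β = k, cf b β g.1.1 • toA (EE K) (E b β) := by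
  exact lead b (GE_Nmz b g.2) hk hg

/-- Elements of `U(K)` are unipotent in the strong sense: `prod_exists`, `PL_Uni`. -/
theorem uni_HU {u : GK b K} (hu : u ∈ HU b K) : Uni b u.1.1 := by
  obtain ⟨t, ht⟩ := prod_exists b (GQ_Nmz b u.2) ((mem_HU_iff b u).1 hu)
  rw [ht]
  exact PL_Uni b _ (fun β hβ => (posL_mem b β).1 hβ) t

/-- Elements of `U(K ⊗ ℝ)` are unipotent in the strong sense: `prod_exists`, `PL_Uni`. -/
theorem uni_UR {u : GR b K} (hu : u ∈ UR b K) : Uni b u.1.1 := by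
  obtain ⟨t, ht⟩ := prod_exists b (GE_Nmz b u.2) ((mem_UR_iff b u).1 hu)
  rw [ht]
  exact PL_Uni b _ (fun β hβ => (posL_mem b β).1 hβ) t

/-- Ordered product decomposition in `U(K)` with coefficients in an ideal `J` of a subring `O`. -/
theorem prod_K (O : Subring K) (J : AddSubgroup K) (hJO : ∀ y ∈ J, y ∈ O) (hOJ : ∀ x ∈ O, ∀ y ∈ J, x * y ∈ J) {u : GK b K} (hu : u ∈ HU b K) (hJ : ∀ r c, (u.1.1 - 1) r c ∈ J) :
    ∃ t : ι → K, (∀ β, t β ∈ J) ∧ u.1.1 = PL b (posL b) t := by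
  exact prod_exists' b O J hJO hOJ (GQ_Nmz b u.2) ((mem_HU_iff b u).1 hu) hJ

/-- Ordered product decomposition in `U(K ⊗ ℝ)`. -/
theorem prod_E {u : GR b K} (hu : u ∈ UR b K) : ∃ t : ι → EE K, u.1.1 = PL b (posL b) t := by
  exact prod_exists b (GE_Nmz b u.2) ((mem_UR_iff b u).1 hu)

/-- **`m_i(s) (U(K) ∩ {c_i = 0}) m_i(s)⁻¹ ⊆ U(K)`**: `m_conj`, `GQ_Nmz`, `mG_mem`. -/
theorem m_conj_K (i : b.support) (s : Kˣ) {u : GK b K} (hu : u ∈ HU b K) (h0 : u.1.1 (Sum.inl i) (Sum.inr (ng P i)) = 0) :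
    (⟨mG b i s, mG_mem b i s⟩ : GK b K) * u * (⟨mG b i s, mG_mem b i s⟩ : GK b K)⁻¹ ∈ HU b K := by
  exact (mem_HU_iff b _).2 (m_conj b i s (GQ_Nmz b u.2) ((mem_HU_iff b u).1 hu) h0)

end Pool.Agent.Lib.L1S
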