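import Pool.Agent.Lib.L1S.B0
import Pool.Agent.Lib.L1S.ApiL1
import Pool.Agent.Lib.L1S.ApiL2
import Pool.Agent.Lib.L1S.L28

/-!
# L1S, module B1 (helper33): the Bruhat decomposition ((3.1) of PROOF.md)

`G(K) = U(K) N_0 U(K)`. The product set is stable under left multiplication by the generators
`x_i(t)` and `x_(-i)(t) = x_i(1/t) m_i(-1/t) x_i(1/t)`.
-/

namespace Pool.Agent.Lib.L1S

open Matrix NumberField Pool.Agent.Lib.H89N Pool.Agent.Lib.H33W

noncomputable section

variable {ι M N : Type} [Fintype ι] [DecidableEq ι] [AddCommGroup M] [Module ℚ M] [AddCommGroup N] [Module ℚ N]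
  {P : RootPairing ι ℚ M N} [P.IsCrystallographic]

/-! ## Elements over `w` -/

theorem b1_one (b : P.Base) (K : Type) [Field K] [NumberField K] : IsN b K 1 (1 : GK b K) where
  mem := one_mem _
  v0 := by
    intro r j h
    refine ⟨j, ?_⟩
    by_contra hne
    exact h (Matrix.one_apply_ne hne)
  vr := by
    intro r β h
    by_contra hne
    exact h (Matrix.one_apply_ne hne)
  rt := fun β => ⟨1, one_ne_zero, by
    change (1 : Matrix (I b) (I b) K) * _ = _ * (1 : Matrix (I b) (I b) K)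
    rw [one_mul, mul_one, one_smul, Equiv.Perm.one_apply]⟩

theorem b1_mul (b : P.Base) (K : Type) [Field K] [NumberField K] {w w' : Equiv.Perm ι} {n n' : GK b K}
    (h : IsN b K w n) (h' : IsN b K w' n') : IsN b K (w * w') (n * n') where
  mem := mul_mem h.mem h'.mem
  v0 := by
    intro r j hr
    have e : (n * n').1.1 r (Sum.inl j) = ∑ k, n.1.1 r k * n'.1.1 k (Sum.inl j) := Matrix.mul_apply
    rw [e] at hr
    obtain ⟨k, -, hk⟩ := Finset.exists_ne_zero_of_sum_ne_zero hr
    obtain ⟨i, rfl⟩ := h'.v0 k j (right_ne_zero_of_mul hk)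
    exact h.v0 r i (left_ne_zero_of_mul hk)
  vr := by
    intro r β hr
    have e : (n * n').1.1 r (Sum.inr β) = ∑ k, n.1.1 r k * n'.1.1 k (Sum.inr β) := Matrix.mul_apply
    rw [e] at hr
    obtain ⟨k, -, hk⟩ := Finset.exists_ne_zero_of_sum_ne_zero hr
    have h1 := h'.vr k β (right_ne_zero_of_mul hk)
    subst h1
    exact h.vr r (w' β) (left_ne_zero_of_mul hk)
  rt := by
    intro β
    obtain ⟨c', hc', e'⟩ := h'.rt β
    obtain ⟨c, hc, e⟩ := h.rt (w' β)
    refine ⟨c' * c, mul_ne_zero hc' hc, ?_⟩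
    change n.1.1 * n'.1.1 * _ = _ * (n.1.1 * n'.1.1)
    rw [Matrix.mul_assoc, e', ← Matrix.mul_assoc, Matrix.mul_smul, e, Matrix.smul_mul, ← Matrix.mul_assoc,
      Equiv.Perm.mul_apply, Matrix.smul_mul, Matrix.smul_mul, smul_smul, Matrix.smul_mul,
      Matrix.smul_mul]

/-- The entry of an element over `w` from `V_γ` to `V_(w γ)` is not zero. -/
theorem b1_entry (b : P.Base) (K : Type) [Field K] [NumberField K] {w : Equiv.Perm ι} {n : GK b K}
    (h : IsN b K w n) (r : I b) (γ : ι) :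
    n⁻¹.1.1 r (Sum.inr (w γ)) * n.1.1 (Sum.inr (w γ)) (Sum.inr γ) = (1 : Matrix (I b) (I b) K) r (Sum.inr γ) := by
  have h1 : n⁻¹.1.1 * n.1.1 = 1 := n.1.inv_mul
  rw [← h1, Matrix.mul_apply, Finset.sum_eq_single (Sum.inr (w γ))]
  · intro k _ hk
    have : n.1.1 k (Sum.inr γ) = 0 := by
      by_contra hne
      exact hk (h.vr k γ hne)
    rw [this, mul_zero]
  · intro h
    exact absurd (Finset.mem_univ _) h

theorem b1_entry_ne (b : P.Base) (K : Type) [Field K] [NumberField K] {w : Equiv.Perm ι} {n : GK b K}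
    (h : IsN b K w n) (γ : ι) : n.1.1 (Sum.inr (w γ)) (Sum.inr γ) ≠ 0 := by
  have h1 := b1_entry b K h (Sum.inr γ) γ
  rw [Matrix.one_apply_eq] at h1
  exact right_ne_zero_of_mul (h1 ▸ one_ne_zero)

/-- The inverse of an element over `w` lies over `w⁻¹`. -/
theorem b1_inv (b : P.Base) (K : Type) [Field K] [NumberField K] {w : Equiv.Perm ι} {n : GK b K}
    (h : IsN b K w n) : IsN b K w⁻¹ n⁻¹ where
  mem := inv_mem h.mem
  v0 := by
    intro r j hr
    rcases r with i | γ
    · exact ⟨i, rfl⟩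
    · exfalso
      have h1 : n.1.1 * n⁻¹.1.1 = 1 := n.1.mul_inv
      have h2 : (n.1.1 * n⁻¹.1.1) (Sum.inr (w γ)) (Sum.inl j) = 0 := by
        rw [h1, Matrix.one_apply_ne Sum.inr_ne_inl]
      rw [Matrix.mul_apply, Finset.sum_eq_single (Sum.inr γ)] at h2
      · rcases mul_eq_zero.1 h2 with h3 | h3
        · exact b1_entry_ne b K h γ h3
        · exact hr h3
      · intro k _ hk
        have : n.1.1 (Sum.inr (w γ)) k = 0 := by
          by_contra hne
          rcases k with j' | γ'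
          · obtain ⟨i, hi⟩ := h.v0 _ j' hne
            exact absurd hi Sum.inr_ne_inl
          · have h4 := h.vr _ γ' hne
            have h5 : w γ = w γ' := Sum.inr_injective h4
            exact hk (by rw [w.injective h5])
        rw [this, zero_mul]
      · intro h
        exact absurd (Finset.mem_univ _) h
  vr := by
    intro r β hr
    have e : w (w⁻¹ β) = β := w.apply_symm_apply β
    have h1 := b1_entry b K h r (w⁻¹ β)
    rw [e] at h1
    by_contra hne
    rw [Matrix.one_apply_ne hne] at h1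
    rcases mul_eq_zero.1 h1 with h3 | h3
    · exact hr h3
    · have h4 := b1_entry_ne b K h (w⁻¹ β)
      rw [e] at h4
      exact h4 h3
  rt := by
    intro β
    have e : w (w⁻¹ β) = β := w.apply_symm_apply β
    obtain ⟨c, hc, h1⟩ := h.rt (w⁻¹ β)
    rw [e] at h1
    refine ⟨c⁻¹, inv_ne_zero hc, ?_⟩
    have h2 : n⁻¹.1.1 * n.1.1 = 1 := n.1.inv_mul
    have h3 : n.1.1 * n⁻¹.1.1 = 1 := n.1.mul_inv
    have h4 : toA K (E b (w⁻¹ β)) * n⁻¹.1.1 = c • (n⁻¹.1.1 * toA K (E b β)) := by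
      calc toA K (E b (w⁻¹ β)) * n⁻¹.1.1 = n⁻¹.1.1 * (n.1.1 * toA K (E b (w⁻¹ β))) * n⁻¹.1.1 := by
            rw [← Matrix.mul_assoc, h2, Matrix.one_mul]
        _ = n⁻¹.1.1 * (c • toA K (E b β)) * (n.1.1 * n⁻¹.1.1) := by
            rw [h1]
            simp only [Matrix.mul_assoc]
        _ = c • (n⁻¹.1.1 * toA K (E b β)) := by
            rw [h3, Matrix.mul_one, Matrix.mul_smul]
    rw [Matrix.smul_mul, h4, smul_smul, inv_mul_cancel₀ hc, one_smul]


section Red

variable [P.IsReduced] [P.IsIrreducible] [P.IsRootSystem] (b : P.Base) (K : Type) [Field K] [NumberField K]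

/-- `x_β(t)` as an element of `G(K)`. -/
def b1x (β : ι) (t : K) : GK b K := ⟨xG b β t, xG_mem b β t⟩

/-- `m_i(s)` as an element of `G(K)`. -/
def b1m (i : b.support) (s : Kˣ) : GK b K := ⟨mG b i s, mG_mem b i s⟩

theorem b1x_add (β : ι) (s t : K) : b1x b K β (s + t) = b1x b K β s * b1x b K β t :=
  Subtype.ext (xG_add b β s t)

theorem b1x_inv (β : ι) (t : K) : (b1x b K β t)⁻¹ = b1x b K β (-t) :=
  Subtype.ext (xG_inv b β t)

theorem b1x_zero (β : ι) : b1x b K β (0 : K) = 1 :=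
  Subtype.ext (xG_zero b β)

/-- `m_i(s)` lies over `s_i`. -/
theorem b1_m (i : b.support) (s : Kˣ) : IsN b K (P.reflectionPerm i) (b1m b K i s) where
  mem := Subgroup.subset_closure ⟨i, rfl⟩
  v0 := by
    intro r j h
    have h1 : wt b r = P.reflection i (wt b (Sum.inl j)) := mG_over b i s r (Sum.inl j) h
    rcases r with k | γ
    · exact ⟨k, rfl⟩
    · exfalso
      have h2 : P.root γ = P.reflection i 0 := h1
      rw [map_zero] at h2
      exact P.ne_zero γ h2
  vr := by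
    intro r β h
    have h1 : wt b r = P.reflection i (wt b (Sum.inr β)) := mG_over b i s r (Sum.inr β) h
    have h2 : wt b r = P.root (P.reflectionPerm i β) := by
      rw [P.root_reflectionPerm]
      exact h1
    rcases r with k | γ
    · exfalso
      have h3 : (0 : M) = P.root (P.reflectionPerm i β) := h2
      exact P.ne_zero _ h3.symm
    · have h3 : P.root γ = P.root (P.reflectionPerm i β) := h2
      rw [P.root.injective h3]
  rt := by
    intro β
    obtain ⟨c, hc, -⟩ := mG_E b i s β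
    refine ⟨c, c.ne_zero, ?_⟩
    change (mG b i s).1 * _ = _ * (mG b i s).1
    rw [← hc, Matrix.mul_assoc _ (mG b i s)⁻¹.1 (mG b i s).1]
    have e : (mG b i s)⁻¹.1 * (mG b i s).1 = 1 := (mG b i s).inv_mul
    rw [e, Matrix.mul_one]

/-- Conjugation of `x_β(t)` by an element over `w`. -/
theorem b1_conj {w : Equiv.Perm ι} {n : GK b K} (h : IsN b K w n) (β : ι) :
    ∃ c : K, c ≠ 0 ∧ ∀ t, n * b1x b K β t = b1x b K (w β) (c * t) * n := by
  obtain ⟨c, hc, e⟩ := h.rt β
  refine ⟨c, hc, fun t => Subtype.ext (Units.ext ?_)⟩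
  exact (DP_E b β).conj (DP_E b (w β)) n.1.1 c t e

/-- The same from the other side. -/
theorem b1_conj' {w : Equiv.Perm ι} {n : GK b K} (h : IsN b K w n) (β : ι) :
    ∃ c : K, c ≠ 0 ∧ ∀ t, b1x b K β t * n = n * b1x b K (w⁻¹ β) (c * t) := by
  obtain ⟨c, hc, e⟩ := b1_conj b K h (w⁻¹ β)
  refine ⟨c⁻¹, inv_ne_zero hc, fun t => ?_⟩
  have e1 : w (w⁻¹ β) = β := w.apply_symm_apply β
  rw [e (c⁻¹ * t), e1, mul_inv_cancel_left₀ hc]

/-- The height of a root is the sum of its coefficients. -/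
theorem b1_height (γ : ι) : ((b.height γ : ℤ) : ℚ) = ∑ j, b.toWeightBasis.repr (P.root γ) j := by
  obtain ⟨f, -, -, hf⟩ := b.exists_root_eq_sum_int γ
  rw [RootPairing.Base.height_eq_sum hf, hf]
  rw [map_sum]
  have h1 : ∀ j : b.support, b.toWeightBasis.repr (P.root j) = Finsupp.single j 1 :=
    fun j => b.toWeightBasis_repr_root j
  have h2 : ∑ j ∈ b.support, b.toWeightBasis.repr (f j • P.root j) =
      ∑ j : b.support, Finsupp.single j ((f j : ℤ) : ℚ) := by
    rw [← Finset.sum_coe_sort b.support]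
    refine Finset.sum_congr rfl fun j _ => ?_
    rw [← Int.cast_smul_eq_zsmul ℚ, map_smul, h1, Finsupp.smul_single, smul_eq_mul, mul_one]
  rw [h2]
  have h3 : ∀ j : b.support, (∑ i : b.support, Finsupp.single i ((f i : ℤ) : ℚ)) j = ((f j : ℤ) : ℚ) := by
    intro j
    rw [Finsupp.finsetSum_apply, Finset.sum_eq_single j]
    · rw [Finsupp.single_eq_same]
    · intro i _ hij
      exact Finsupp.single_eq_of_ne hij.symm
    · intro h
      exact absurd (Finset.mem_univ j) h
  simp only [h3]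
  rw [Int.cast_sum, ← Finset.sum_coe_sort b.support]

theorem b1_ht (r : I b) : ((ht b r : ℤ) : ℚ) = ∑ j, b.toWeightBasis.repr (wt b r) j := by
  rcases r with i | γ
  · simp [ht, wt]
  · exact b1_height b γ

theorem b1_ht_add {r c : I b} {β : ι} {k : ℕ} (h : wt b r = wt b c + (k : ℚ) • P.root β) :
    ht b r = ht b c + k * b.height β := by
  have h1 : ((ht b r : ℤ) : ℚ) = ((ht b c : ℤ) : ℚ) + k * ((b.height β : ℤ) : ℚ) := by
    rw [b1_ht, b1_ht, b1_height, h, Finset.mul_sum, ← Finset.sum_add_distrib]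
    refine Finset.sum_congr rfl fun j _ => ?_
    rw [map_add, map_smul, Finsupp.add_apply, Finsupp.smul_apply, smul_eq_mul]
  exact_mod_cast h1

/-- `x_β(t)` is unitriangular for a positive root `β`. -/
theorem b1_ut (β : ι) (hβ : 0 < b.height β) (t : K) (r c : I b) (hrc : ht b r ≤ ht b c) :
    xx b β t r c = (1 : Matrix (I b) (I b) K) r c := by
  have h1 : ∀ k : ℕ, k ≠ 0 → (toA K (dvp (E b β) k)) r c = 0 := by
    intro k hk
    by_contra hne
    have h2 : dvp (E b β) k r c ≠ 0 := by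
      intro h
      apply hne
      change ((dvp (E b β) k r c : ℤ) : K) = 0
      rw [h, Int.cast_zero]
    have h3 := b1_ht_add b (dvp_wt b β k r c h2)
    have h4 : (0 : ℤ) < k * b.height β := mul_pos (by exact_mod_cast Nat.pos_of_ne_zero hk) hβ
    omega
  rw [xx, ex, Matrix.sum_apply, Finset.sum_eq_single 0]
  · rw [pow_zero, one_smul, dvp_zero]
    by_cases h : r = c
    · subst h
      change (((1 : Matrix (I b) (I b) ℤ) r r : ℤ) : K) = _
      rw [Matrix.one_apply_eq, Matrix.one_apply_eq, Int.cast_one]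
    · change (((1 : Matrix (I b) (I b) ℤ) r c : ℤ) : K) = _
      rw [Matrix.one_apply_ne h, Matrix.one_apply_ne h, Int.cast_zero]
  · intro k _ hk
    rw [Matrix.smul_apply, h1 k hk, smul_zero]
  · intro h
    exact absurd (Finset.mem_range.2 (by norm_num)) h

theorem b1_pos (β : ι) (hβ : 0 < b.height β) (t : K) : b1x b K β t ∈ HU b K := by
  rw [mem_HU]
  intro r c hrc
  rw [b1x_inv]
  exact ⟨b1_ut b K β hβ t r c hrc, b1_ut b K β hβ (-t) r c hrc⟩

/-- Splitting off the coordinate `c_i` (module L2: `c_i` is additive on `U(K)`, and `c_i(u) = 0` implies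
`m_i(s) u m_i(s)⁻¹ ∈ U(K)`). -/
theorem b1_split (i : b.support) (s : Kˣ) (u : GK b K) (hu : u ∈ HU b K) :
    ∃ r : K, ∃ u1 : GK b K, u = u1 * b1x b K i r ∧ b1m b K i s * u1 * (b1m b K i s)⁻¹ ∈ HU b K := by
  have hi : b.IsPos (i : ι) := b.isPos_of_mem_support i.2
  let r : K := u.1.1 (Sum.inl i) (Sum.inr (ng P i))
  have hu1 : u * b1x b K i (-r) ∈ HU b K := mul_mem hu (b1_pos b K _ hi _)
  refine ⟨r, u * b1x b K i (-r), ?_, ?_⟩
  · rw [mul_assoc, ← b1x_add, neg_add_cancel, b1x_zero, mul_one]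
  · refine m_conj_K b i s hu1 ?_
    change (u.1.1 * xx b (i : ι) (-r)) (Sum.inl i) (Sum.inr (ng P i)) = 0
    have h1 : UTk b 1 u.1.1 := (mem_HU_iff b u).1 hu
    have h2 : UTk b 1 (xx b (i : ι) (-r)) := (mem_HU_iff b (b1x b K i (-r))).1 (b1_pos b K _ hi _)
    rw [c_add b _ _ h1 h2, c_xx b (i : ι) hi, if_pos rfl, add_neg_cancel]

/-- The Bruhat set `U(K) N_0 U(K)`. -/
def BS : Set (GK b K) :=
  {g | ∃ u ∈ HU b K, ∃ (w : Equiv.Perm ι) (n : GK b K), IsN b K w n ∧ ∃ u' ∈ HU b K, g = u * n * u'}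

omit [P.IsReduced] [P.IsIrreducible] [P.IsRootSystem] in
theorem b1_BS_left {g u : GK b K} (hu : u ∈ HU b K) (hg : g ∈ BS b K) : u * g ∈ BS b K := by
  obtain ⟨u1, hu1, w, n, hn, u2, hu2, rfl⟩ := hg
  exact ⟨u * u1, mul_mem hu hu1, w, n, hn, u2, hu2, by group⟩

omit [P.IsReduced] [P.IsIrreducible] [P.IsRootSystem] in
theorem b1_BS_right {g u : GK b K} (hu : u ∈ HU b K) (hg : g ∈ BS b K) : g * u ∈ BS b K := by
  obtain ⟨u1, hu1, w, n, hn, u2, hu2, rfl⟩ := hg
  exact ⟨u1, hu1, w, n, hn, u2 * u, mul_mem hu2 hu, by group⟩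

omit [P.IsIrreducible] in
/-- `w⁻¹ (-β) = -(w⁻¹ β)`. -/
theorem b1_neg {w : Equiv.Perm ι} (hw : w ∈ WP P) (β : ι) : w (ng P β) = ng P (w β) := by
  obtain ⟨L, hL⟩ := b2_lin hw
  apply P.root.injective
  rw [← hL, b2_root_neg, b2_root_neg, map_neg, hL]

/-- The case `n` in the middle. -/
theorem b1_step (i : b.support) (s : Kˣ) (r : K) {w : Equiv.Perm ι} {n : GK b K} (hn : IsN b K w n) :
    b1m b K i s * b1x b K i r * n ∈ BS b K := by
  have hmn := b1_mul b K (b1_m b K i s) hn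
  have hi : b.IsPos (i : ι) := b.isPos_of_mem_support i.2
  rcases RootPairing.Base.IsPos.or_neg b (w⁻¹ (i : ι)) with hpos | hneg
  · obtain ⟨c, -, hc⟩ := b1_conj' b K hn (i : ι)
    refine ⟨1, one_mem _, _, b1m b K i s * n, hmn, b1x b K (w⁻¹ (i : ι)) (c * r),
      b1_pos b K _ hpos _, ?_⟩
    rw [mul_assoc, hc r]
    group
  · by_cases hr : r = 0
    · refine ⟨1, one_mem _, _, b1m b K i s * n, hmn, 1, one_mem _, ?_⟩
      rw [hr, b1x_zero]
      group
    · obtain ⟨c, hc0, hc⟩ := b1_conj b K (b1_m b K i s) (i : ι)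
      have hcr : c * r ≠ 0 := mul_ne_zero hc0 hr
      let t : Kˣ := Units.mk0 (c * r) hcr
      have h1 : b1m b K i s * b1x b K i r = b1x b K (ng P i) (c * r) * b1m b K i s := hc r
      have h2 : b1x b K (ng P i) (c * r) = b1x b K i ((t⁻¹ : Kˣ) : K) * b1m b K i (-t⁻¹) *
          b1x b K i ((t⁻¹ : Kˣ) : K) := Subtype.ext (xG_neg_eq b i t)
      -- `(s_i w)⁻¹ α_i > 0`
      obtain ⟨c', -, hc'⟩ := b1_conj' b K hmn (i : ι)
      have h3 : (P.reflectionPerm i * w)⁻¹ (i : ι) = ng P (w⁻¹ i) := by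
        rw [_root_.mul_inv_rev, Equiv.Perm.mul_apply, ← b1_neg (inv_mem hn.mem)]
        congr 1
        rw [P.reflectionPerm_inv]
      have h4 : 0 < b.height ((P.reflectionPerm i * w)⁻¹ (i : ι)) := by
        rw [h3]
        exact hneg
      refine ⟨b1x b K i ((t⁻¹ : Kˣ) : K), b1_pos b K _ hi _, _, b1m b K i (-t⁻¹) * (b1m b K i s * n),
        b1_mul b K (b1_m b K i (-t⁻¹)) hmn,
        b1x b K ((P.reflectionPerm i * w)⁻¹ (i : ι)) (c' * ((t⁻¹ : Kˣ) : K)), b1_pos b K _ h4 _, ?_⟩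
      have h5 := hc' ((t⁻¹ : Kˣ) : K)
      rw [h1, h2]
      calc b1x b K i ((t⁻¹ : Kˣ) : K) * b1m b K i (-t⁻¹) * b1x b K i ((t⁻¹ : Kˣ) : K) * b1m b K i s * n =
          b1x b K i ((t⁻¹ : Kˣ) : K) * b1m b K i (-t⁻¹) *
            (b1x b K i ((t⁻¹ : Kˣ) : K) * (b1m b K i s * n)) := by group
        _ = _ := by
          rw [h5]
          group

theorem b1_m_stable (i : b.support) (s : Kˣ) {g : GK b K} (hg : g ∈ BS b K) :
    b1m b K i s * g ∈ BS b K := by
  obtain ⟨u, hu, w, n, hn, u', hu', rfl⟩ := hg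
  obtain ⟨r, u1, rfl, h1⟩ := b1_split b K i s u hu
  have e : b1m b K i s * (u1 * b1x b K i r * n * u') =
      (b1m b K i s * u1 * (b1m b K i s)⁻¹) * (b1m b K i s * b1x b K i r * n * u') := by group
  rw [e]
  exact b1_BS_left b K h1 (b1_BS_right b K hu' (b1_step b K i s r hn))

theorem b1_gen_stable (i : b.support) (t : K) {g : GK b K} (hg : g ∈ BS b K) :
    b1x b K (ng P i) t * g ∈ BS b K := by
  by_cases ht : t = 0
  · rw [ht, b1x_zero, one_mul]
    exact hg
  · let s : Kˣ := Units.mk0 t ht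
    have hi : b.IsPos (i : ι) := b.isPos_of_mem_support i.2
    have h2 : b1x b K (ng P i) t = b1x b K i ((s⁻¹ : Kˣ) : K) * b1m b K i (-s⁻¹) *
        b1x b K i ((s⁻¹ : Kˣ) : K) := Subtype.ext (xG_neg_eq b i s)
    rw [h2, mul_assoc, mul_assoc]
    exact b1_BS_left b K (b1_pos b K _ hi _)
      (b1_m_stable b K i _ (b1_BS_left b K (b1_pos b K _ hi _) hg))

/-- **Bruhat**: `G(K) = U(K) N_0 U(K)`. -/
theorem bruhat (g : GK b K) :
    ∃ u ∈ HU b K, ∃ (w : Equiv.Perm ι) (n : GK b K), IsN b K w n ∧ ∃ u' ∈ HU b K, g = u * n * u' := by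
  have key : ∀ (h : GL (I b) K) (hh : h ∈ GQ b K), (⟨h, hh⟩ : GK b K) ∈ BS b K := by
    intro h hh
    have hh' := hh
    rw [GQ_eq] at hh'
    revert hh
    induction hh' using Subgroup.closure_induction_left with
    | one =>
      intro hh
      exact ⟨1, one_mem _, 1, 1, b1_one b K, 1, one_mem _, by
        rw [mul_one, mul_one]
        rfl⟩
    | mul_left x hx y _ ih =>
      intro hh
      obtain ⟨i, t, rfl | rfl⟩ := hx
      · have hy : y ∈ GQ b K := by
          have := mul_mem (inv_mem (xG_mem b (i : ι) t)) hh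
          rwa [inv_mul_cancel_left] at this
        exact b1_BS_left b K (b1_pos b K _ (b.isPos_of_mem_support i.2) t) (ih hy)
      · have hy : y ∈ GQ b K := by
          have := mul_mem (inv_mem (xG_mem b (ng P i) t)) hh
          rwa [inv_mul_cancel_left] at this
        exact b1_gen_stable b K i t (ih hy)
    | inv_mul_cancel x hx y _ ih =>
      intro hh
      obtain ⟨i, t, rfl | rfl⟩ := hx
      · have hy : y ∈ GQ b K := by
          have := mul_mem (xG_mem b (i : ι) t) hh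
          rwa [mul_inv_cancel_left] at this
        have h1 := b1_BS_left b K (b1_pos b K _ (b.isPos_of_mem_support i.2) (-t)) (ih hy)
        rw [← b1x_inv] at h1
        exact h1
      · have hy : y ∈ GQ b K := by
          have := mul_mem (xG_mem b (ng P i) t) hh
          rwa [mul_inv_cancel_left] at this
        have h1 := b1_gen_stable b K i (-t) (ih hy)
        rw [← b1x_inv] at h1
        exact h1
  exact key g.1 g.2

end Red

end

end Pool.Agent.Lib.L1S
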