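import Pool.Agent.Lib.L1S.Stm

/-!
# L1S: the statement, version 2 (a large sieve in `λ`)
-/

namespace Pool.Agent.Lib.L1S

open MeasureTheory Matrix NumberField IsDedekindDomain Pool.Agent.Lib.H89N Pool.Agent.Lib.H33W

noncomputable section

variable {ι M N : Type} [Fintype ι] [DecidableEq ι] [AddCommGroup M] [Module ℚ M] [AddCommGroup N] [Module ℚ N]
  {P : RootPairing ι ℚ M N} [P.IsCrystallographic]

/-- The coefficient of the simple root `α_l` in a weight of the adjoint representation. -/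
def mc [P.IsRootSystem] (b : P.Base) (l : b.support) : I b → ℤ := Sum.elim (fun _ => 0) fun β => b.toWeightBasisInt.repr (P.rootSpanMem ℤ β) l

/-- `S_i(λ) = ∑_{β ∈ Φ_i} ⟨β, λ⟩`. -/
def Sl [P.IsRootSystem] (b : P.Base) (i : b.support) (c : b.support → ℤ) : ℤ := ∑ β ∈ Phi b i, pr b c (Sum.inr β)

/-- `H_i`, the sum of the heights of the roots in `Φ_i`. -/
def SH [P.IsRootSystem] (b : P.Base) (i : b.support) : ℤ := ∑ β ∈ Phi b i, b.height β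

/-- The sum of the coefficients of `α_l` of the roots in `Φ_i`. -/
def SM [P.IsRootSystem] (b : P.Base) (i l : b.support) : ℤ := ∑ β ∈ Phi b i, mc b l (Sum.inr β)

/-- **The size condition** for two dominant coweights `λ`, `λ'`, `q = N(v)`, `N = N(𝔫)`: for `w Φ_i = - Φ_j` and `k_i = |Φ_i|`: `q ^ (S_i(λ) + S_j(λ')) ≤ (N q ^ (r + s)) ^ k_i N ^ (H_i + H_j)`, or
for some simple root `α_l` and `T ≥ m_l(β)` for all `β`: `q ^ (T (S_i(λ) + S_j(λ'))) ≤ (N q ^ (r + s)) ^ P N ^ (T (H_i + H_j))`, `P` the sum of the coefficients `m_l` of the roots in `Φ_i` and in `Φ_j`. -/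
def Sz2 [P.IsRootSystem] (b : P.Base) {K : Type} [Field K] [NumberField K] (𝔫 : Ideal (𝓞 K)) (v : HeightOneSpectrum (𝓞 K)) (r s : ℕ) (c c' : b.support → ℤ) : Prop :=
  ∀ i j, Opp b i j →
    (Ideal.absNorm v.asIdeal : ℝ) ^ (Sl b i c + Sl b j c') ≤
      ((Ideal.absNorm 𝔫 : ℝ) * (Ideal.absNorm v.asIdeal : ℝ) ^ (r + s)) ^ (Phi b i).card * (Ideal.absNorm 𝔫 : ℝ) ^ (SH b i + SH b j) ∨
    ∃ (l : b.support) (T : ℕ), (∀ β, mc b l (Sum.inr β) ≤ T) ∧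
      (Ideal.absNorm v.asIdeal : ℝ) ^ (T * (Sl b i c + Sl b j c')) ≤
        ((Ideal.absNorm 𝔫 : ℝ) * (Ideal.absNorm v.asIdeal : ℝ) ^ (r + s)) ^ (SM b i l + SM b j l) * (Ideal.absNorm 𝔫 : ℝ) ^ (T * (SH b i + SH b j))

/-- **The statement**: density theorem for the globally generic spectrum of the split simple group of type `P` over `K`.
(C) For every coweight `λ = ∑ c_j α_j^∨` of the simply connected group there is a Hecke element `h ∈ Γ_v λ(π)⁻¹`.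
For orthonormal `F_1, …, F_m` in `L²(Γ \ G)`, distinct dominant coweights `λ_k` (with the Hecke elements `h_k`) which satisfy the size condition, and complex numbers `a_k`:
(A) `∑_l |∑_k a_k W_{F_l}(x, π^{λ_k})|² ≤ C (∑_k |a_k|² q ^ (-∑_{β > 0} ⟨β, λ_k⟩)) ∏_{β > 0} exp(d A(β)) / N`, `W_F(x, π^{λ_k})` the Whittaker coefficient of `F (h_k ·)`;
(B) if `r + s ≥ 1` and `t_{l,k}` is the eigenvalue of `U_{λ_k}` on `F_l`, then `∑_l |∑_k a_k t_{l,k}|² |W_{F_l}(x)|² ≤ C (∑_k |a_k|² q ^ (∑_{β > 0} ⟨β, λ_k⟩)) ∏_{β > 0} exp(d A(β)) / N`. -/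
def Statement2 [P.IsRootSystem] (b : P.Base) (K : Type) [Field K] [NumberField K] : Prop :=
  (∀ (v : HeightOneSpectrum (𝓞 K)) (𝔫 : Ideal (𝓞 K)), ¬𝔫 ≤ v.asIdeal → ∀ (r s : ℕ) (c : b.support → ℤ) (π : K), v.valuation K π = WithZero.exp (-1 : ℤ) →
    ∃ h ∈ HG b 𝔫 v, AtV b v r s π c h) ∧
  ∀ (μ : Measure (GR b K)) [μ.IsHaarMeasure] (φ : GR b K → ℂ), Continuous φ → HasCompactSupport φ →
    ∀ Ω : Set (GL (I b) (EE K)), IsCompact Ω → ∃ C : ℝ, ∀ (v : HeightOneSpectrum (𝓞 K)) (𝔫 : Ideal (𝓞 K)), 𝔫 ≠ ⊥ → ¬𝔫 ≤ v.asIdeal → ∀ r s : ℕ,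
    ∀ (n : ℕ) (c : Fin n → b.support → ℤ), Function.Injective c → (∀ k (i : b.support), 0 ≤ pr b (c k) (Sum.inr i)) → (∀ k k', Sz2 b 𝔫 v r s (c k) (c k')) →
    ∀ π : K, v.valuation K π = WithZero.exp (-1 : ℤ) → ∀ h : Fin n → GK b K, (∀ k, h k ∈ HG b 𝔫 v ∧ AtV b v r s π (c k) (h k)) →
    ∀ θ : b.support → (EE K →ₗ[ℝ] ℝ), Gen b 𝔫 θ →
    ∀ A : M →ₗ[ℚ] ℝ, (∀ i : b.support, Real.log (Ideal.absNorm 𝔫) ≤ Module.finrank ℚ K * A (P.root i)) → ∀ x, InRange b Ω A x →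
    ∀ (ν : Measure (UR b K)) [ν.IsHaarMeasure] (D : Set (GR b K)), IsFundamentalDomain (Gam b 𝔫 v r s) D μ →
    ∀ (m : ℕ) (F : Fin m → GR b K → ℂ), (∀ l, Aut b 𝔫 v r s μ D φ (F l)) →
    (∀ l k, ∫ x in D, star (F l x) * F k x ∂μ = if l = k then 1 else 0) → ∀ a : Fin n → ℂ,
    (∀ D' : Fin n → Set (UR b K), (∀ k, IsFundamentalDomain (GamH b 𝔫 v r s (h k)) (D' k) ν) →
      ∑ l, ‖∑ k, a k * Wh b ν (D' k) θ (fun y => F l (emb b K (h k) * y)) x‖ ^ 2 ≤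
        C * (∑ k, ‖a k‖ ^ 2 * (Ideal.absNorm v.asIdeal : ℝ) ^ (-∑ β ∈ Pos b, pr b (c k) (Sum.inr β))) *
          ∏ β ∈ Pos b, Real.exp (Module.finrank ℚ K * A (P.root β)) / (Ideal.absNorm 𝔫 : ℝ)) ∧
    (1 ≤ r + s → ∀ t : Fin m → Fin n → ℂ, (∀ l k, IsT b 𝔫 v r s (h k) (F l) (t l k)) →
      ∀ D' : Set (UR b K), IsFundamentalDomain (GamU b 𝔫 v r s) D' ν →
      ∑ l, ‖∑ k, a k * t l k‖ ^ 2 * ‖Wh b ν D' θ (F l) x‖ ^ 2 ≤
        C * (∑ k, ‖a k‖ ^ 2 * (Ideal.absNorm v.asIdeal : ℝ) ^ (∑ β ∈ Pos b, pr b (c k) (Sum.inr β))) *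
          ∏ β ∈ Pos b, Real.exp (Module.finrank ℚ K * A (P.root β)) / (Ideal.absNorm 𝔫 : ℝ))

end

end Pool.Agent.Lib.L1S
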