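import Pool.Agent.Lib.L1S.IW
import Pool.Agent.Lib.L1S.Stm2

/-!
# L1S, IW2: the minors (helper33)
-/

namespace Pool.Agent.Lib.L1S

open MeasureTheory Matrix NumberField IsDedekindDomain Pool.Agent.Lib.H89N Pool.Agent.Lib.H33W

noncomputable section

set_option linter.unusedSectionVars false

variable {ι M N : Type} [Fintype ι] [DecidableEq ι] [AddCommGroup M] [Module ℚ M] [AddCommGroup N] [Module ℚ N]
  {P : RootPairing ι ℚ M N} [P.IsCrystallographic] [P.IsReduced] [P.IsIrreducible] [P.IsRootSystem] {b : P.Base}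

variable {K : Type} [Field K] [NumberField K] {v : HeightOneSpectrum (𝓞 K)}

theorem iw_mc (b : P.Base) (l : b.support) (a : I b) : ((mc b l a : ℤ) : ℚ) = wq b a l := by
  rcases a with i | β
  · simp [mc, wq]
  · change ((b.toWeightBasisInt.repr (P.rootSpanMem ℤ β) l : ℤ) : ℚ) = b.toWeightBasis.repr (P.root β) l
    have h1 : P.root β = ∑ k, b.toWeightBasisInt.repr (P.rootSpanMem ℤ β) k • P.root k := by
      have h2 := congrArg (Subtype.val) (b.toWeightBasisInt.sum_repr (P.rootSpanMem ℤ β))
      rw [Submodule.coe_sum] at h2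
      have h3 : ((P.rootSpanMem ℤ β : P.rootSpan ℤ) : M) = P.root β := rfl
      rw [h3] at h2
      rw [← h2]
      refine Finset.sum_congr rfl fun k _ => ?_
      rw [Submodule.coe_smul, b.coe_toWeightBasisInt_apply]
    have h4 : b.toWeightBasis.repr (P.root β) l = ∑ k, (b.toWeightBasisInt.repr (P.rootSpanMem ℤ β) k : ℚ) * (b.toWeightBasis.repr (P.root k) l) := by
      refine (congrArg (fun y => b.toWeightBasis.repr y l) h1).trans ?_
      rw [map_sum, Finsupp.finsetSum_apply]
      refine Finset.sum_congr rfl fun k _ => ?_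
      rw [← Int.cast_smul_eq_zsmul ℚ, map_smul, Finsupp.smul_apply, smul_eq_mul]
    rw [h4, Finset.sum_eq_single l]
    · have h3 : P.root l = b.toWeightBasis l := by simp
      rw [h3, Module.Basis.repr_self, Finsupp.single_eq_same, mul_one]
    · intro k _ hk
      have h3 : P.root k = b.toWeightBasis k := by simp
      rw [h3, Module.Basis.repr_self, Finsupp.single_eq_of_ne hk.symm, mul_zero]
    · intro h
      exact absurd (Finset.mem_univ l) h

/-- The minor of a matrix with the property of the Iwahori lemma. -/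
theorem iw_minor {e T : ℕ} (hT : T ≠ 0) {l : b.support} {X : Matrix (I b) (I b) K} (hX : IwQ b v e T (mc b l) X) {i j : b.support} {w : Equiv.Perm ι} (hw : OppW b i j w) :
    v.valuation K (Dm b i w X) ^ T ≤ WithZero.exp (-((e : ℤ) * (SM b i l + SM b j l))) := by
  unfold Dm
  rw [Matrix.det_apply]
  refine iw_sum_pow _ _ T hT _ fun σ _ => ?_
  have e1 : v.valuation K (Equiv.Perm.sign σ • ∏ β : Phi b i, (Matrix.of fun β β' : Phi b i => X (Sum.inr (w β.1)) (Sum.inr β'.1)) (σ β) β) =
      ∏ β : Phi b i, v.valuation K (X (Sum.inr (w (σ β).1)) (Sum.inr β.1)) := by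
    rcases Int.units_eq_one_or (Equiv.Perm.sign σ) with h1 | h1
    · rw [h1, one_smul, map_prod]
      rfl
    · rw [h1, Units.neg_smul, one_smul, Valuation.map_neg, map_prod]
      rfl
  rw [e1, ← Finset.prod_pow]
  have h1 : ∀ β : Phi b i, v.valuation K (X (Sum.inr (w (σ β).1)) (Sum.inr β.1)) ^ T ≤ WithZero.exp (-((e : ℤ) * (mc b l (Sum.inr β.1) - mc b l (Sum.inr (w (σ β).1))))) := fun β => hX _ _
  refine (Finset.prod_le_prod' fun β _ => h1 β).trans (le_of_eq ?_)
  have hexp : ∀ (s : Finset (Phi b i)) (f : Phi b i → ℤ), ∏ β ∈ s, WithZero.exp (f β) = WithZero.exp (∑ β ∈ s, f β) := by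
    intro s f
    induction s using Finset.induction_on with
    | empty => simp
    | insert a s ha ih => rw [Finset.prod_insert ha, Finset.sum_insert ha, WithZero.exp_add, ih]
  rw [hexp]
  congr 1
  rw [Finset.sum_neg_distrib, ← Finset.mul_sum, Finset.sum_sub_distrib]
  congr 2
  rw [sub_eq_add_neg]
  congr 1
  · exact Finset.sum_coe_sort (Phi b i) fun β => mc b l (Sum.inr β)
  · rw [Equiv.sum_comp σ (fun β : Phi b i => mc b l (Sum.inr (w β.1))), Finset.sum_coe_sort (Phi b i) fun β => mc b l (Sum.inr (w β)), ← Finset.sum_neg_distrib]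
    unfold SM
    rw [← d2_bij hw (fun γ => mc b l (Sum.inr γ))]
    refine Finset.sum_congr rfl fun β _ => ?_
    have h2 : ((-mc b l (Sum.inr (w β)) : ℤ) : ℚ) = ((mc b l (Sum.inr (P.reflectionPerm (w β) (w β))) : ℤ) : ℚ) := by
      push_cast
      rw [iw_mc, iw_mc, dc3_wq, dc3_wq]
      change -b.toWeightBasis.repr (P.root (w β)) l = b.toWeightBasis.repr (P.root (P.reflectionPerm (w β) (w β))) l
      rw [P.root_reflectionPerm, P.reflection_apply_self, map_neg, Finsupp.neg_apply]
    exact_mod_cast h2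

end

end Pool.Agent.Lib.L1S
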