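import Pool.Agent.Lib.L1S.DC3

/-!
# L1S, LI2: diagram automorphisms (helper33)

`DA b σ`: the permutation `σ` of the roots preserves the Cartan integers and the base. It acts on the weights of the adjoint representation (`DA.pI`), preserves Geck's matrices and maps `E_β` to `± E_(σ β)`.
-/

namespace Pool.Agent.Lib.L1S

open MeasureTheory Matrix NumberField IsDedekindDomain Pool.Agent.Lib.H89N Pool.Agent.Lib.H33W

noncomputable section

set_option linter.unusedSectionVars false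

variable {ι M N : Type} [Fintype ι] [DecidableEq ι] [AddCommGroup M] [Module ℚ M] [AddCommGroup N] [Module ℚ N]
  {P : RootPairing ι ℚ M N} [P.IsCrystallographic]

/-- **Diagram automorphisms**: permutations of the roots which preserve the Cartan integers and the base. -/
structure DA (b : P.Base) (σ : Equiv.Perm ι) : Prop where
  base : ∀ i, σ i ∈ b.support ↔ i ∈ b.support
  pair : ∀ β γ, P.pairingIn ℤ (σ β) (σ γ) = P.pairingIn ℤ β γ

namespace DA

variable {b : P.Base} {σ τ : Equiv.Perm ι}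

theorem one : DA b (1 : Equiv.Perm ι) := ⟨fun _ => Iff.rfl, fun _ _ => rfl⟩

theorem mul (hσ : DA b σ) (hτ : DA b τ) : DA b (σ * τ) :=
  ⟨fun i => (hσ.base (τ i)).trans (hτ.base i), fun β γ => (hσ.pair (τ β) (τ γ)).trans (hτ.pair β γ)⟩

theorem inv (hσ : DA b σ) : DA b σ⁻¹ := by
  have e : ∀ i, σ (σ⁻¹ i) = i := fun i => σ.apply_symm_apply i
  refine ⟨fun i => ?_, fun β γ => ?_⟩
  · have h := hσ.base (σ⁻¹ i)
    rw [e] at h
    exact h.symm
  · have h := hσ.pair (σ⁻¹ β) (σ⁻¹ γ)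
    rw [e, e] at h
    exact h.symm

theorem pairing (hσ : DA b σ) (β γ : ι) : P.pairing (σ β) (σ γ) = P.pairing β γ := by
  rw [← P.algebraMap_pairingIn ℤ, ← P.algebraMap_pairingIn ℤ, hσ.pair]

/-- The permutation of the base. -/
def sp (hσ : DA b σ) : Equiv.Perm b.support := σ.subtypePerm hσ.base

theorem sp_coe (hσ : DA b σ) (k : b.support) : ((hσ.sp k : b.support) : ι) = σ k := rfl

/-- The permutation of the weights of the adjoint representation. -/
def pI (hσ : DA b σ) : Equiv.Perm (I b) := Equiv.sumCongr hσ.sp σ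

theorem pI_inl (hσ : DA b σ) (k : b.support) : hσ.pI (Sum.inl k) = Sum.inl (hσ.sp k) := rfl

theorem pI_inr (hσ : DA b σ) (β : ι) : hσ.pI (Sum.inr β) = Sum.inr (σ β) := rfl

variable [P.IsRootSystem]

/-- The linear automorphism. -/
theorem lin (hσ : DA b σ) : ∃ L : M ≃ₗ[ℚ] M, ∀ β, L (P.root β) = P.root (σ β) := by
  refine ⟨b.toWeightBasis.equiv b.toWeightBasis hσ.sp, fun β => ?_⟩
  have h1 : P.root β = ∑ k, b.toWeightBasis.repr (P.root β) k • P.root k := by
    refine (b.toWeightBasis.sum_repr (P.root β)).symm.trans ?_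
    refine Finset.sum_congr rfl fun k _ => ?_
    congr 1
    simp
  have h2 : (b.toWeightBasis.equiv b.toWeightBasis hσ.sp) (P.root β) = ∑ k, b.toWeightBasis.repr (P.root β) k • P.root (σ k) := by
    refine (congrArg (b.toWeightBasis.equiv b.toWeightBasis hσ.sp) h1).trans ?_
    rw [map_sum]
    refine Finset.sum_congr rfl fun k _ => ?_
    rw [map_smul]
    congr 1
    have h3 : P.root k = b.toWeightBasis k := by simp
    rw [h3, Module.Basis.equiv_apply]
    simp [hσ.sp_coe]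
  rw [h2, ← sub_eq_zero, P.eq_zero_iff_forall_coroot'_eq_zero]
  intro γ
  obtain ⟨γ, rfl⟩ := σ.surjective γ
  rw [map_sub, map_sum, P.root_coroot'_eq_pairing, hσ.pairing, ← P.root_coroot'_eq_pairing, sub_eq_zero]
  conv_rhs => rw [h1, map_sum]
  refine Finset.sum_congr rfl fun k _ => ?_
  rw [map_smul, map_smul, P.root_coroot'_eq_pairing, P.root_coroot'_eq_pairing, hσ.pairing]

/-- The linear automorphism. -/
def L (hσ : DA b σ) : M ≃ₗ[ℚ] M := hσ.lin.choose

theorem L_root (hσ : DA b σ) (β : ι) : hσ.L (P.root β) = P.root (σ β) := hσ.lin.choose_spec β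

theorem wt_pI (hσ : DA b σ) (r : I b) : wt b (hσ.pI r) = hσ.L (wt b r) := by
  rcases r with k | β
  · change (0 : M) = hσ.L 0
    rw [map_zero]
  · exact (hσ.L_root β).symm

theorem repr (hσ : DA b σ) (x : M) (k : b.support) : b.toWeightBasis.repr (hσ.L x) (hσ.sp k) = b.toWeightBasis.repr x k := by
  have h1 : x = ∑ j, b.toWeightBasis.repr x j • P.root j := by
    refine (b.toWeightBasis.sum_repr x).symm.trans ?_
    refine Finset.sum_congr rfl fun k _ => ?_
    congr 1
    simp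
  have h2 : hσ.L x = ∑ j, b.toWeightBasis.repr x j • b.toWeightBasis (hσ.sp j) := by
    refine (congrArg hσ.L h1).trans ?_
    rw [map_sum]
    refine Finset.sum_congr rfl fun k _ => ?_
    rw [map_smul, hσ.L_root]
    congr 1
    simp [hσ.sp_coe]
  rw [h2, map_sum, Finsupp.finsetSum_apply, Finset.sum_eq_single k]
  · rw [map_smul, Finsupp.smul_apply, Module.Basis.repr_self, Finsupp.single_eq_same, smul_eq_mul, mul_one]
  · intro j _ hj
    rw [map_smul, Finsupp.smul_apply, Module.Basis.repr_self, Finsupp.single_eq_of_ne (fun h => hj (hσ.sp.injective h.symm)), smul_zero]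
  · intro h
    exact absurd (Finset.mem_univ k) h

theorem wq_pI [P.IsReduced] [P.IsIrreducible] (hσ : DA b σ) (r : I b) (k : b.support) : wq b (hσ.pI r) (hσ.sp k) = wq b r k := by
  rw [dc3_wq, dc3_wq, hσ.wt_pI, hσ.repr]

theorem ht_pI [P.IsReduced] [P.IsIrreducible] (hσ : DA b σ) (r : I b) : ht b (hσ.pI r) = ht b r := by
  have h1 : ((ht b (hσ.pI r) : ℤ) : ℚ) = ((ht b r : ℤ) : ℚ) := by
    rw [dc3_ht, dc3_ht, ← Equiv.sum_comp hσ.sp]
    exact Finset.sum_congr rfl fun k _ => hσ.wq_pI r k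
  exact_mod_cast h1

theorem height [P.IsReduced] [P.IsIrreducible] (hσ : DA b σ) (β : ι) : b.height (σ β) = b.height β := hσ.ht_pI (Sum.inr β)

theorem refl (hσ : DA b σ) (β γ : ι) : σ (P.reflectionPerm β γ) = P.reflectionPerm (σ β) (σ γ) := by
  apply P.root.injective
  rw [← hσ.L_root, P.root_reflectionPerm, P.root_reflectionPerm, P.reflection_apply_root, P.reflection_apply_root, map_sub, map_smul, hσ.L_root, hσ.L_root, hσ.pairing]

theorem ng (hσ : DA b σ) (β : ι) : σ (ng P β) = Pool.Agent.Lib.L1S.ng P (σ β) := hσ.refl β β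

theorem root_add (hσ : DA b σ) (i j k : ι) : P.root (σ k) = P.root (σ i) + P.root (σ j) ↔ P.root k = P.root i + P.root j := by
  rw [← hσ.L_root, ← hσ.L_root, ← hσ.L_root, ← map_add]
  exact hσ.L.injective.eq_iff

theorem root_sub (hσ : DA b σ) (i j k : ι) : P.root (σ k) = P.root (σ i) - P.root (σ j) ↔ P.root k = P.root i - P.root j := by
  rw [← hσ.L_root, ← hσ.L_root, ← hσ.L_root, ← map_sub]
  exact hσ.L.injective.eq_iff

theorem mem_range (hσ : DA b σ) (x : M) : hσ.L x ∈ Set.range P.root ↔ x ∈ Set.range P.root := by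
  constructor
  · rintro ⟨β, hβ⟩
    have e : σ (σ⁻¹ β) = β := σ.apply_symm_apply β
    refine ⟨σ⁻¹ β, hσ.L.injective ?_⟩
    rw [hσ.L_root, e, hβ]
  · rintro ⟨β, rfl⟩
    exact ⟨σ β, (hσ.L_root β).symm⟩

theorem li (hσ : DA b σ) (i j : ι) : LinearIndependent ℚ ![P.root (σ i), P.root (σ j)] ↔ LinearIndependent ℚ ![P.root i, P.root j] := by
  have h1 : (![P.root (σ i), P.root (σ j)] : Fin 2 → M) = hσ.L.toLinearMap ∘ ![P.root i, P.root j] := by
    ext k
    fin_cases k
    · exact (hσ.L_root i).symm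
    · exact (hσ.L_root j).symm
  rw [h1]
  exact hσ.L.toLinearMap.linearIndependent_iff (LinearMap.ker_eq_bot.2 hσ.L.injective)

theorem chainBot (hσ : DA b σ) (i j : ι) : P.chainBotCoeff (σ i) (σ j) = P.chainBotCoeff i j := by
  by_cases h : LinearIndependent ℚ ![P.root i, P.root j]
  · have h' := (hσ.li i j).2 h
    refine eq_of_forall_le_iff fun n => ?_
    rw [← P.root_sub_nsmul_mem_range_iff_le_chainBotCoeff h', ← P.root_sub_nsmul_mem_range_iff_le_chainBotCoeff h, ← hσ.L_root, ← hσ.L_root, ← map_nsmul, ← map_sub, hσ.mem_range]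
  · rw [P.chainBotCoeff_of_not_linearIndependent h, P.chainBotCoeff_of_not_linearIndependent fun h' => h ((hσ.li i j).1 h')]

theorem chainTop (hσ : DA b σ) (i j : ι) : P.chainTopCoeff (σ i) (σ j) = P.chainTopCoeff i j := by
  by_cases h : LinearIndependent ℚ ![P.root i, P.root j]
  · have h' := (hσ.li i j).2 h
    refine eq_of_forall_le_iff fun n => ?_
    rw [← P.root_add_nsmul_mem_range_iff_le_chainTopCoeff h', ← P.root_add_nsmul_mem_range_iff_le_chainTopCoeff h, ← hσ.L_root, ← hσ.L_root, ← map_nsmul, ← map_add, hσ.mem_range]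
  · rw [P.chainTopCoeff_of_not_linearIndependent h, P.chainTopCoeff_of_not_linearIndependent fun h' => h ((hσ.li i j).1 h')]

theorem pI_mul (hσ : DA b σ) (hτ : DA b τ) (r : I b) : (hσ.mul hτ).pI r = hσ.pI (hτ.pI r) := by
  rcases r with k | β
  · rfl
  · rfl

open scoped Classical in
/-- Geck's matrix `e_i`. -/
theorem eZ_pI (hσ : DA b σ) (i : b.support) (r c : I b) : eZ b (hσ.sp i) (hσ.pI r) (hσ.pI c) = eZ b i r c := by
  have hi : ∀ j, σ j = Pool.Agent.Lib.L1S.ng P (hσ.sp i) ↔ j = Pool.Agent.Lib.L1S.ng P i := fun j => by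
    rw [hσ.sp_coe, ← hσ.ng]
    exact σ.injective.eq_iff
  rcases r with i' | i' <;> rcases c with j | j
  · rfl
  · change (if hσ.sp i' = hσ.sp i ∧ σ j = Pool.Agent.Lib.L1S.ng P (hσ.sp i) then (1 : ℤ) else 0) = if i' = i ∧ j = Pool.Agent.Lib.L1S.ng P i then 1 else 0
    simp only [hσ.sp.injective.eq_iff, hi]
  · change (if σ i' = (hσ.sp i : ι) then |P.pairingIn ℤ (hσ.sp i : ι) (hσ.sp j : ι)| else 0) = if i' = (i : ι) then |P.pairingIn ℤ (i : ι) (j : ι)| else 0
    rw [hσ.sp_coe, hσ.sp_coe, hσ.pair]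
    simp only [σ.injective.eq_iff]
  · change (if P.root (σ i') = P.root (hσ.sp i : ι) + P.root (σ j) then (P.chainBotCoeff (hσ.sp i : ι) (σ j) + 1 : ℤ) else 0) =
      if P.root i' = P.root (i : ι) + P.root j then (P.chainBotCoeff (i : ι) j + 1 : ℤ) else 0
    rw [hσ.sp_coe, hσ.chainBot]
    simp only [hσ.root_add]

open scoped Classical in
/-- Geck's matrix `f_i`. -/
theorem fZ_pI (hσ : DA b σ) (i : b.support) (r c : I b) : fZ b (hσ.sp i) (hσ.pI r) (hσ.pI c) = fZ b i r c := by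
  have hi : ∀ j, σ j = Pool.Agent.Lib.L1S.ng P (hσ.sp i) ↔ j = Pool.Agent.Lib.L1S.ng P i := fun j => by
    rw [hσ.sp_coe, ← hσ.ng]
    exact σ.injective.eq_iff
  rcases r with i' | i' <;> rcases c with j | j
  · rfl
  · change (if hσ.sp i' = hσ.sp i ∧ σ j = (hσ.sp i : ι) then (1 : ℤ) else 0) = if i' = i ∧ j = (i : ι) then 1 else 0
    rw [hσ.sp_coe]
    simp only [hσ.sp.injective.eq_iff, σ.injective.eq_iff]
  · change (if σ i' = Pool.Agent.Lib.L1S.ng P (hσ.sp i) then |P.pairingIn ℤ (hσ.sp i : ι) (hσ.sp j : ι)| else 0) = if i' = Pool.Agent.Lib.L1S.ng P i then |P.pairingIn ℤ (i : ι) (j : ι)| else 0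
    rw [hσ.sp_coe i, hσ.sp_coe j, hσ.pair]
    rw [hσ.sp_coe] at hi
    simp only [hi]
  · change (if P.root (σ i') = P.root (σ j) - P.root (hσ.sp i : ι) then (P.chainTopCoeff (hσ.sp i : ι) (σ j) + 1 : ℤ) else 0) =
      if P.root i' = P.root j - P.root (i : ι) then (P.chainTopCoeff (i : ι) j + 1 : ℤ) else 0
    rw [hσ.sp_coe, hσ.chainTop]
    simp only [hσ.root_sub]

end DA

end

end Pool.Agent.Lib.L1S
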