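import Pool.Agent.Lib.L1S.Q0
import Pool.Agent.Lib.L1S.LI2
import Pool.Agent.Lib.L1S.Stm2

/-!
# L1S: the statement for all quasi-split groups (version V1; helper43)

`L / K` is a finite Galois extension of number fields, `Q : QS b K L` an action of the Galois group on the Dynkin diagram; `s ∈ Gal(L/K)` acts on the matrices over `L` by `τ_s(X) = D_s s(X) D_s⁻¹`, `D_s` the permutation
matrix of `s` (permutation of the simple roots and of the roots). The group `HQ Q` is generated by the unipotent upper and the unipotent lower elements of `G(L)` which are fixed by all `τ_s`: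
the image in the adjoint group of the group of the `K`-points of the simply connected quasi-split group of type `(P, Q)`. For `L = K` it is `G(K)`.
-/

namespace Pool.Agent.Lib.L1S

open MeasureTheory Matrix NumberField IsDedekindDomain Pool.Agent.Lib.H89N Pool.Agent.Lib.H33W

noncomputable section

set_option linter.unusedSectionVars false

variable {ι M N : Type} [Fintype ι] [DecidableEq ι] [AddCommGroup M] [Module ℚ M] [AddCommGroup N] [Module ℚ N]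
  {P : RootPairing ι ℚ M N} [P.IsCrystallographic] {b : P.Base}

/-! ## Definitions for a subgroup `H` of `G(L)` -/

section group

variable {L : Type} [Field L] [NumberField L] (H : Subgroup (GK b L))

/-- The inclusion of `U` in the unipotent group of `G(L ⊗ ℝ)`. -/
def iU : UHR H →* UR b L where
  toFun u := ⟨u.1.1, u.2⟩
  map_one' := rfl
  map_mul' _ _ := rfl

/-- The character `ψ(u) = e(∑ θ_i(c_i(u)))` of `U`. -/
def psiH (θ : b.support → (EE L →ₗ[ℝ] ℝ)) (u : UHR H) : ℂ := psi b θ (iU H u)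

/-- **The Whittaker coefficient** of `F` at `x`: the mean value of `F (u x) ψ(u)⁻¹` over `Γ_U \ U` (`D` a fundamental domain). -/
def WhH (ν : Measure (UHR H)) (D : Set (UHR H)) (θ : b.support → (EE L →ₗ[ℝ] ℝ)) (F : HRt H → ℂ) (x : HRt H) : ℂ :=
  ⨍ u in D, F (u.1 * x) * star (psiH H θ u) ∂ν

/-- The alternative for `γ`: there is `v ∈ U(K)` with `v' = γ v γ⁻¹ ∈ U(K)` and `ψ(v') ≠ ψ(v)`. -/
def AltH (θ : b.support → (EE L →ₗ[ℝ] ℝ)) (γ : H) : Prop :=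
  ∃ v v' : HUH H, γ * (v : H) = (v' : H) * γ ∧ psiH H θ (kUH H v') ≠ psiH H θ (kUH H v)

/-- `x ∈ U a Ω`. -/
def InRangeH (Ω : Set (GL (I b) (EE L))) (A : M →ₗ[ℚ] ℝ) (x : HRt H) : Prop :=
  ∃ u : UHR H, ∃ ω ∈ Ω, x.1.1.1 = u.1.1.1.1 * dg b L A * ω.1

variable {K : Type} [Field K] [NumberField K] [Algebra K L]

/-- **The arithmetic group** `Γ`. -/
def GamHR (𝔫 : Ideal (𝓞 K)) (v : HeightOneSpectrum (𝓞 K)) (r s : ℕ) : Subgroup (HRt H) := ((GamL b L 𝔫 v r s).subgroupOf H).map (embH H)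

/-- `Γ ∩ U` as a subgroup of `U`. -/
def GamUH (𝔫 : Ideal (𝓞 K)) (v : HeightOneSpectrum (𝓞 K)) (r s : ℕ) : Subgroup (UHR H) := (GamHR H 𝔫 v r s).subgroupOf (UHR H)

/-- `h⁻¹ Γ h ∩ U` as a subgroup of `U`. -/
def GamHH (𝔫 : Ideal (𝓞 K)) (v : HeightOneSpectrum (𝓞 K)) (r s : ℕ) (h : H) : Subgroup (UHR H) :=
  ((GamHR H 𝔫 v r s).comap (MulAut.conj (embH H h)).toMonoidHom).subgroupOf (UHR H)

/-- `w ∈ Γ h Γ`. -/
def InTH (𝔫 : Ideal (𝓞 K)) (v : HeightOneSpectrum (𝓞 K)) (r s : ℕ) (h : H) (w : HRt H) : Prop :=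
  ∃ γ ∈ GamHR H 𝔫 v r s, ∃ γ' ∈ GamHR H 𝔫 v r s, w = γ * embH H h * γ'

/-- **The Hecke operator** `U_λ`: `F` is an eigenfunction with the eigenvalue `θ` of the operator of the double coset `Γ h Γ`, `h ∈ Γ_v λ(π)⁻¹`: `∑ F (w x) = θ F (x)`, the sum over `w ∈ Γ \ Γ h Γ`. -/
def IsTH (𝔫 : Ideal (𝓞 K)) (v : HeightOneSpectrum (𝓞 K)) (r s : ℕ) (h : H) (F : HRt H → ℂ) (θ : ℂ) : Prop :=
  ∃ S : Finset (HRt H), (∀ w ∈ S, InTH H 𝔫 v r s h w) ∧ (∀ w, InTH H 𝔫 v r s h w → ∃! w', w' ∈ S ∧ w * w'⁻¹ ∈ GamHR H 𝔫 v r s) ∧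
    ∀ x, ∑ w ∈ S, F (w * x) = θ * F x

/-- `F` is an eigenfunction with the eigenvalue `θ` of the operator `∑ F (h u x) = θ F (x)`, the sum over `u ∈ (Γ_U ∩ h⁻¹ Γ h) \ Γ_U`, `Γ_U = Γ ∩ U`. -/
def IsUH (𝔫 : Ideal (𝓞 K)) (v : HeightOneSpectrum (𝓞 K)) (r s : ℕ) (h : H) (F : HRt H → ℂ) (θ : ℂ) : Prop :=
  ∃ S : Finset (HRt H), (∀ w ∈ S, w ∈ GamHR H 𝔫 v r s ⊓ UHR H) ∧
    (∀ u ∈ GamHR H 𝔫 v r s ⊓ UHR H, ∃! w, w ∈ S ∧ embH H h * (u * w⁻¹) * (embH H h)⁻¹ ∈ GamHR H 𝔫 v r s) ∧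
    ∀ x, ∑ w ∈ S, F (embH H h * w * x) = θ * F x

/-- Continuous functions in `L²(Γ \ G)` (`D` a fundamental domain) which are eigenfunctions of the convolution operator of `φ` with eigenvalue at least one in absolute value: `∫ F (x y) φ (y) dy = c F (x)`, `|c| ≥ 1`. -/
structure AutH (𝔫 : Ideal (𝓞 K)) (v : HeightOneSpectrum (𝓞 K)) (r s : ℕ) (μ : Measure (HRt H)) (D : Set (HRt H)) (φ F : HRt H → ℂ) : Prop where
  cont : Continuous F
  inv : ∀ γ ∈ GamHR H 𝔫 v r s, ∀ x, F (γ * x) = F x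
  l2 : MemLp F 2 (μ.restrict D)
  eig : ∃ c : ℂ, 1 ≤ ‖c‖ ∧ ∀ x, ∫ y, F (x * y) * φ y ∂μ = c * F x

end group

/-! ## Quasi-split groups -/

/-- **An action of the Galois group on the Dynkin diagram.** -/
structure QS (b : P.Base) (K L : Type) [Field K] [Field L] [Algebra K L] where
  /-- The action on the roots. -/
  act : (L ≃ₐ[K] L) →* Equiv.Perm ι
  /-- It preserves the base and the Cartan integers. -/
  da : ∀ s, DA b (act s)

variable {K L : Type} [Field K] [NumberField K] [Field L] [NumberField L] [Algebra K L]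

/-- `X` is fixed by all `τ_s`: `D_s s(X) D_s⁻¹ = X`. -/
def Fx (Q : QS b K L) (X : Matrix (I b) (I b) L) : Prop := ∀ s r c, X ((Q.da s).pI r) ((Q.da s).pI c) = s (X r c)

/-- `g - 1` lowers the height. -/
def LT (b : P.Base) {R : Type} [CommRing R] (g : Matrix (I b) (I b) R) : Prop := ∀ r c, ht b c ≤ ht b r → g r c = (1 : Matrix (I b) (I b) R) r c

/-- **The group of the `K`-points of the quasi-split group** (of the simply connected form; the image in the adjoint group): generated by the elements of the unipotent groups of `G(L)` which are fixed by the Galois group. -/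
def HQ (Q : QS b K L) : Subgroup (GK b L) := Subgroup.closure {g | Fx Q g.1.1 ∧ (UT b g.1.1 ∨ LT b g.1.1)}

/-- The coweight `λ = ∑ c_j α_j^∨` is fixed by the Galois group. -/
def InvC (Q : QS b K L) (c : b.support → ℤ) : Prop := ∀ s i, c ((Q.da s).sp i) = c i

/-- The linear form `A` is fixed by the Galois group. -/
def InvA (Q : QS b K L) (A : M →ₗ[ℚ] ℝ) : Prop := ∀ s β, A (P.root (Q.act s β)) = A (P.root β)

/-- **Nondegenerate characters**: `ψ` is trivial on `Γ ∩ U`, and for every simple root `α_i` the form `z ↦ ∑_s θ_(s i)(s z)` on `L` is not zero (it is the restriction of the exponent of `ψ` to the root group of the orbit of `α_i`;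
for `L = K` it is `θ_i`). -/
def GenQ (Q : QS b K L) (𝔫 : Ideal (𝓞 K)) (v : HeightOneSpectrum (𝓞 K)) (r s : ℕ) (θ : b.support → (EE L →ₗ[ℝ] ℝ)) : Prop :=
  (∀ i, ∃ z : L, ∑ t : L ≃ₐ[K] L, θ ((Q.da t).sp i) (mixedEmbedding L (t z)) ≠ 0) ∧ ∀ u ∈ GamUH (HQ Q) 𝔫 v r s, psiH (HQ Q) θ u = 1

/-- **The statement**: density theorem for the globally generic spectrum of the quasi-split simple group `(P, Q)` over `K`.
(C) For every coweight `λ = ∑ c_j α_j^∨` fixed by the Galois group there is a Hecke element `h ∈ Γ_v λ(π)⁻¹`.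
For orthonormal `F_1, …, F_m` in `L²(Γ \ G)`, distinct dominant coweights `λ_k` fixed by the Galois group (with the Hecke elements `h_k`) which satisfy the size condition, and complex numbers `a_k`:
(A) `∑_l |∑_k a_k W_{F_l}(x, π^{λ_k})|² ≤ C (∑_k |a_k|² q ^ (-∑_{β > 0} ⟨β, λ_k⟩)) ∏_{β > 0} exp(d A(β)) / N`, `W_F(x, π^{λ_k})` the Whittaker coefficient of `F (h_k ·)`;
(B) if `r + s ≥ 1` and `t_{l,k}` is the eigenvalue of `U_{λ_k}` on `F_l`, then `∑_l |∑_k a_k t_{l,k}|² |W_{F_l}(x)|² ≤ C (∑_k |a_k|² q ^ (∑_{β > 0} ⟨β, λ_k⟩)) ∏_{β > 0} exp(d A(β)) / N`.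
Here `d = [K : ℚ]`, `N = N(𝔫)`, `q = N(v)` (`𝔫`, `v` ideals of `𝓞 K`, `v` may ramify in `L`), `β` runs through the absolute positive roots. -/
def StatementQ [P.IsRootSystem] (Q : QS b K L) : Prop :=
  (∀ (v : HeightOneSpectrum (𝓞 K)) (𝔫 : Ideal (𝓞 K)), ¬𝔫 ≤ v.asIdeal → ∀ (r s : ℕ) (c : b.support → ℤ), InvC Q c → ∀ π : K, v.valuation K π = WithZero.exp (-1 : ℤ) →
    ∃ h ∈ HQ Q, h ∈ HGL b L 𝔫 v ∧ AtVL b v r s π c h) ∧
  ∀ (μ : Measure (HRt (HQ Q))) [μ.IsHaarMeasure] (φ : HRt (HQ Q) → ℂ), Continuous φ → HasCompactSupport φ →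
    ∀ Ω : Set (GL (I b) (EE L)), IsCompact Ω → ∃ C : ℝ, ∀ (v : HeightOneSpectrum (𝓞 K)) (𝔫 : Ideal (𝓞 K)), 𝔫 ≠ ⊥ → ¬𝔫 ≤ v.asIdeal → ∀ r s : ℕ,
    ∀ (n : ℕ) (c : Fin n → b.support → ℤ), Function.Injective c → (∀ k, InvC Q (c k)) → (∀ k (i : b.support), 0 ≤ pr b (c k) (Sum.inr i)) → (∀ k k', Sz2 b 𝔫 v r s (c k) (c k')) →
    ∀ π : K, v.valuation K π = WithZero.exp (-1 : ℤ) → ∀ h : Fin n → HQ Q, (∀ k, (h k).1 ∈ HGL b L 𝔫 v ∧ AtVL b v r s π (c k) (h k).1) →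
    ∀ θ : b.support → (EE L →ₗ[ℝ] ℝ), GenQ Q 𝔫 v r s θ →
    ∀ A : M →ₗ[ℚ] ℝ, InvA Q A → (∀ i : b.support, Real.log (Ideal.absNorm 𝔫) ≤ Module.finrank ℚ K * A (P.root i)) → ∀ x : HRt (HQ Q), InRangeH (HQ Q) Ω A x →
    ∀ (ν : Measure (UHR (HQ Q))) [ν.IsHaarMeasure] (D : Set (HRt (HQ Q))), IsFundamentalDomain (GamHR (HQ Q) 𝔫 v r s) D μ →
    ∀ (m : ℕ) (F : Fin m → HRt (HQ Q) → ℂ), (∀ l, AutH (HQ Q) 𝔫 v r s μ D φ (F l)) →
    (∀ l k, ∫ x in D, star (F l x) * F k x ∂μ = if l = k then 1 else 0) → ∀ a : Fin n → ℂ,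
    (∀ D' : Fin n → Set (UHR (HQ Q)), (∀ k, IsFundamentalDomain (GamHH (HQ Q) 𝔫 v r s (h k)) (D' k) ν) →
      ∑ l, ‖∑ k, a k * WhH (HQ Q) ν (D' k) θ (fun y => F l (embH (HQ Q) (h k) * y)) x‖ ^ 2 ≤
        C * (∑ k, ‖a k‖ ^ 2 * (Ideal.absNorm v.asIdeal : ℝ) ^ (-∑ β ∈ Pos b, pr b (c k) (Sum.inr β))) *
          ∏ β ∈ Pos b, Real.exp (Module.finrank ℚ K * A (P.root β)) / (Ideal.absNorm 𝔫 : ℝ)) ∧
    (1 ≤ r + s → ∀ t : Fin m → Fin n → ℂ, (∀ l k, IsTH (HQ Q) 𝔫 v r s (h k) (F l) (t l k)) →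
      ∀ D' : Set (UHR (HQ Q)), IsFundamentalDomain (GamUH (HQ Q) 𝔫 v r s) D' ν →
      ∑ l, ‖∑ k, a k * t l k‖ ^ 2 * ‖WhH (HQ Q) ν D' θ (F l) x‖ ^ 2 ≤
        C * (∑ k, ‖a k‖ ^ 2 * (Ideal.absNorm v.asIdeal : ℝ) ^ (∑ β ∈ Pos b, pr b (c k) (Sum.inr β))) *
          ∏ β ∈ Pos b, Real.exp (Module.finrank ℚ K * A (P.root β)) / (Ideal.absNorm 𝔫 : ℝ))

end

end Pool.Agent.Lib.L1S
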