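import Pool.Agent.Lib.L1S.R0
import Pool.Agent.Lib.H33W.T4
import Pool.Agent.Lib.H33W.U5
import Pool.Agent.Lib.H33W.W12

/-!
# L1S, module R (arithmetic), R2B: ideals: indices, boxes, lattice points
-/

namespace Pool.Agent.Lib.L1S

open MeasureTheory Matrix NumberField IsDedekindDomain Pool.Agent.Lib.H89N Pool.Agent.Lib.H33W
open scoped ENNReal Pointwise

noncomputable section

set_option linter.unusedSectionVars false

variable {ι M N : Type} [Fintype ι] [DecidableEq ι] [AddCommGroup M] [Module ℚ M] [AddCommGroup N] [Module ℚ N]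
  {P : RootPairing ι ℚ M N} [P.IsCrystallographic] [P.IsRootSystem] {b : P.Base} {K : Type} [Field K] [NumberField K]

theorem r2b_le {R : Type} [CommRing R] (a c : Ideal R) : (a * c).toAddSubgroup ≤ a.toAddSubgroup :=
  fun x hx => (Ideal.mul_le_left : a * c ≤ a) hx

theorem r2b_index {R : Type} [CommRing R] [IsDedekindDomain R] [Module.Free ℤ R] (J : Ideal R) : J.toAddSubgroup.index = Ideal.absNorm J := by
  rw [Ideal.absNorm_apply, Submodule.cardQuot]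

theorem r2b_idx {R : Type} [CommRing R] [IsDedekindDomain R] [Module.Free ℤ R] [Module.Finite ℤ R] {a : Ideal R} (h0 : Ideal.absNorm a ≠ 0) (c : Ideal R) :
    ((a * c).toAddSubgroup).relIndex a.toAddSubgroup = Ideal.absNorm c := by
  have h1 := AddSubgroup.relIndex_mul_index (r2b_le a c)
  rw [r2b_index a, r2b_index (a * c), map_mul] at h1
  rw [mul_comm (Ideal.absNorm a)] at h1
  exact Nat.eq_of_mul_eq_mul_right (Nat.pos_of_ne_zero h0) h1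

/-- PROOF. `Ideal.absNorm 𝔞 = Nat.card (𝓞 ⧸ 𝔞) = (index of the additive group of 𝔞)` (`Ideal.absNorm_apply`, `Submodule.cardQuot_apply`), `AddSubgroup.relIndex_mul_index` for `𝔞 * 𝔠 ≤ 𝔞`, `map_mul`, `absNorm 𝔞 ≠ 0`. -/
theorem r2_idx {𝔞 : Ideal (𝓞 K)} (h : 𝔞 ≠ ⊥) (𝔠 : Ideal (𝓞 K)) : ((𝔞 * 𝔠).toAddSubgroup).relIndex 𝔞.toAddSubgroup = Ideal.absNorm 𝔠 := by
  have h0 : Ideal.absNorm 𝔞 ≠ 0 := fun h3 => h (Ideal.absNorm_eq_zero_iff.1 h3)
  exact r2b_idx h0 𝔠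

/-- PROOF. `H33W.exists_LD`, `H33W.u5_ex`; the closure of a bounded set is compact. -/
theorem r2_box {𝔞 : Ideal (𝓞 K)} (h : 𝔞 ≠ ⊥) : ∃ B : Set (EE K), IsCompact B ∧ ∀ y : EE K, ∃ t : K, Pool.Agent.Lib.L1S.InI 𝔞 t ∧ mixedEmbedding K t + y ∈ B := by
  obtain ⟨D, hD, -⟩ := exists_LD h
  refine ⟨closure D, hD.bdd.isCompact_closure, fun y => ?_⟩
  obtain ⟨t, ⟨⟨z, hz, ht⟩, h2⟩, -⟩ := u5_ex hD y
  exact ⟨t, ⟨z, hz, ht.symm⟩, subset_closure h2⟩

/-- PROOF. `H33W.lp_nz` with `𝔫 = ⊤`, `k = 0` (`absNorm ⊤ = 1`, `dg K = finrank ℚ K`) for the nonzero elements, and the element `0` (`X ≥ 1`). -/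
theorem r2_cnt (K : Type) [Field K] [NumberField K] : ∃ C : ℝ, 1 ≤ C ∧ ∀ (_ : HeightOneSpectrum (𝓞 K)) (X : ℝ), 1 ≤ X →
    ({t : K | Pool.Agent.Lib.L1S.InI ⊤ t ∧ ‖mixedEmbedding K t‖ ≤ X}.encard : ENNReal) ≤ ENNReal.ofReal (C * X ^ Module.finrank ℚ K) := by
  obtain ⟨C, hC, h⟩ := lp_nz K
  refine ⟨C + 1, by linarith, fun v X hX => ?_⟩
  have h1 := h v ⊤ 0 X (by simp) (by linarith)
  have hsub : {t : K | Pool.Agent.Lib.L1S.InI ⊤ t ∧ ‖mixedEmbedding K t‖ ≤ X} ⊆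
      insert 0 {b : K | b ≠ 0 ∧ Den ⊤ v 0 b ∧ ‖mixedEmbedding K b‖ ≤ X} := by
    rintro t ⟨⟨z, hz, rfl⟩, h2⟩
    by_cases h3 : (z : K) = 0
    · exact Or.inl h3
    · refine Or.inr ⟨h3, ?_, h2⟩
      intro x _
      exact ⟨x * z, trivial, by push_cast; rfl⟩
  have h2 : ({t : K | Pool.Agent.Lib.L1S.InI ⊤ t ∧ ‖mixedEmbedding K t‖ ≤ X}.encard : ENNReal) ≤
      ({b : K | b ≠ 0 ∧ Den ⊤ v 0 b ∧ ‖mixedEmbedding K b‖ ≤ X}.encard : ENNReal) + 1 := by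
    have h3 := (Set.encard_le_encard hsub).trans (Set.encard_insert_le _ _)
    exact_mod_cast h3
  refine h2.trans ?_
  have hXp : (1 : ℝ) ≤ X ^ Module.finrank ℚ K := one_le_pow₀ hX
  have h4 : ENNReal.ofReal ((C + 1) * X ^ Module.finrank ℚ K) =
      ENNReal.ofReal (C * X ^ Module.finrank ℚ K) + ENNReal.ofReal (X ^ Module.finrank ℚ K) := by
    rw [add_mul, one_mul, ENNReal.ofReal_add (by positivity) (by positivity)]
  rw [h4]
  refine add_le_add (h1.trans (ENNReal.ofReal_le_ofReal ?_)) ?_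
  · rw [Ideal.absNorm_top]
    simp
  · rw [← ENNReal.ofReal_one]
    exact ENNReal.ofReal_le_ofReal hXp

end

end Pool.Agent.Lib.L1S
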