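import Pool.Agent.Lib.L1S.R0
import Pool.Agent.Lib.L1S.R2B

/-!
# L1S, module R (arithmetic), R8A: congruence subgroups: indices
-/

namespace Pool.Agent.Lib.L1S

open MeasureTheory Matrix NumberField IsDedekindDomain Pool.Agent.Lib.H89N Pool.Agent.Lib.H33W
open scoped ENNReal Pointwise

noncomputable section

set_option linter.unusedSectionVars false

variable {ι M N : Type} [Fintype ι] [DecidableEq ι] [AddCommGroup M] [Module ℚ M] [AddCommGroup N] [Module ℚ N]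
  {P : RootPairing ι ℚ M N} [P.IsCrystallographic] [P.IsRootSystem] {b : P.Base} {K : Type} [Field K] [NumberField K]

/-- PROOF. The map of the cosets `Γ / Γ'` into `T` is injective: `Subgroup.relIndex`, `Subgroup.index_eq_card`, `Nat.card_le_card_of_injective`, `Finite`. -/
theorem r8_card {G T : Type} [Group G] [Finite T] {Γ Γ' : Subgroup G} (h1 : Γ' ≤ Γ) (f : G → T) (h2 : ∀ g ∈ Γ, ∀ h ∈ Γ, f g = f h → g⁻¹ * h ∈ Γ') :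
    Γ'.relIndex Γ ≤ Nat.card T ∧ Γ'.relIndex Γ ≠ 0 := by
  have hinj : Function.Injective (fun q : Γ ⧸ Γ'.subgroupOf Γ => f (q.out : G)) := by
    intro q q' e
    have h3 : (q.out : G)⁻¹ * (q'.out : G) ∈ Γ' := h2 _ q.out.2 _ q'.out.2 e
    rw [← QuotientGroup.out_eq' q, ← QuotientGroup.out_eq' q', QuotientGroup.eq, Subgroup.mem_subgroupOf]
    exact h3
  have hfin : Finite (Γ ⧸ Γ'.subgroupOf Γ) := Finite.of_injective _ hinj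
  constructor
  · exact Nat.card_le_card_of_injective _ hinj
  · have h3 : Nat.card (Γ ⧸ Γ'.subgroupOf Γ) ≠ 0 := Nat.card_ne_zero.2 ⟨⟨QuotientGroup.mk 1⟩, hfin⟩
    exact h3

theorem r8a_neg {𝔞 : Ideal (𝓞 K)} {x : K} (h : Pool.Agent.Lib.L1S.InI 𝔞 x) : Pool.Agent.Lib.L1S.InI 𝔞 (-x) := by
  obtain ⟨y, hy, rfl⟩ := h
  exact ⟨-y, 𝔞.neg_mem hy, by simp⟩

theorem r8a_q (𝔞 𝔠 : Ideal (𝓞 K)) : ∃ q : K → 𝔞.toAddSubgroup ⧸ ((𝔞 * 𝔠).toAddSubgroup).addSubgroupOf 𝔞.toAddSubgroup,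
    ∀ x x', Pool.Agent.Lib.L1S.InI 𝔞 x → Pool.Agent.Lib.L1S.InI 𝔞 x' → q x = q x' → Pool.Agent.Lib.L1S.InI (𝔞 * 𝔠) (x' - x) := by
  classical
  refine ⟨fun x => if h : Pool.Agent.Lib.L1S.InI 𝔞 x then QuotientAddGroup.mk ⟨h.choose, h.choose_spec.1⟩ else 0, fun x x' h h' e => ?_⟩
  dsimp only at e
  rw [dif_pos h, dif_pos h', QuotientAddGroup.eq, AddSubgroup.mem_addSubgroupOf] at e
  have e1 : -h.choose + h'.choose ∈ 𝔞 * 𝔠 := e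
  refine ⟨_, e1, ?_⟩
  have e2 := h.choose_spec.2
  have e3 := h'.choose_spec.2
  calc ((-h.choose + h'.choose : 𝓞 K) : K) = -((h.choose : 𝓞 K) : K) + ((h'.choose : 𝓞 K) : K) := by simp
    _ = x' - x := by rw [e2, e3]; ring

theorem r8a_int {𝔫 : Ideal (𝓞 K)} {g : Matrix (I b) (I b) K} (h : ∀ i j, Pool.Agent.Lib.L1S.InI 𝔫 ((g - 1) i j)) (i j : I b) : Pool.Agent.Lib.L1S.InI ⊤ (g i j) := by
  have e : g i j = (g - 1) i j + (1 : Matrix (I b) (I b) K) i j := by simp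
  rw [e]
  refine (h i j).top.add ?_
  by_cases h : i = j
  · subst h
    rw [Matrix.one_apply_eq]
    exact ⟨1, Submodule.mem_top, by simp⟩
  · rw [Matrix.one_apply_ne h]
    exact Pool.Agent.Lib.L1S.InI.zero _

/-- `g⁻¹ h ≡ 1` if `g ≡ h`. -/
theorem r8a_cong {𝔫 : Ideal (𝓞 K)} {g h : GK b K} (h1 : ∀ i j, Pool.Agent.Lib.L1S.InI ⊤ (g⁻¹.1.1 i j)) (h2 : ∀ i j, Pool.Agent.Lib.L1S.InI 𝔫 (h.1.1 i j - g.1.1 i j)) (i j : I b) :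
    Pool.Agent.Lib.L1S.InI 𝔫 (((g⁻¹ * h).1.1 - 1) i j) := by
  have e1 : g⁻¹.1.1 * g.1.1 = 1 := congrArg (fun x : GK b K => x.1.1) (inv_mul_cancel g)
  have e : (g⁻¹ * h).1.1 - 1 = g⁻¹.1.1 * (h.1.1 - g.1.1) := by
    rw [Matrix.mul_sub, e1]
    rfl
  rw [e, Matrix.mul_apply]
  refine Pool.Agent.Lib.L1S.InI.sum _ _ fun k _ => ?_
  rw [Matrix.sub_apply]
  exact (h1 i k).mul' (h2 k j)

/-- PROOF. `Nat.card (𝔞 / 𝔞 𝔠) = absNorm 𝔠` (`r2_idx`), so `T = (I b × I b → 𝔞 / 𝔞 𝔠)` has `(absNorm 𝔠) ^ (card (I b) ^ 2)` elements; `f g = ((g - 1) i j mod 𝔞 𝔠)` (for `g` not in `Γ = GamK 𝔞 v r s` anything). If `f g = f h`: `g⁻¹ h - 1 = g⁻¹ ((h - 1) - (g - 1))` and `(g⁻¹ h)⁻¹ - 1 = h⁻¹ ((g - 1) - (h - 1))` have entries in `𝔞 𝔠` (the entries of `g⁻¹`, `h⁻¹` are integral);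
the conditions at `v` hold because `g⁻¹ h ∈ GamK 𝔞 v r s`. `r8_card`. -/
theorem r8_rel {𝔞 𝔠 : Ideal (𝓞 K)} (h1 : 𝔞 ≠ ⊥) (h2 : 𝔠 ≠ ⊥) (v : HeightOneSpectrum (𝓞 K)) (r s : ℕ) :
    (GamK b (𝔞 * 𝔠) v r s).relIndex (GamK b 𝔞 v r s) ≤ Ideal.absNorm 𝔠 ^ (Fintype.card (I b) ^ 2) ∧ (GamK b (𝔞 * 𝔠) v r s).relIndex (GamK b 𝔞 v r s) ≠ 0 := by
  classical
  obtain ⟨q, hq⟩ := r8a_q 𝔞 𝔠
  have hcard : Nat.card (𝔞.toAddSubgroup ⧸ ((𝔞 * 𝔠).toAddSubgroup).addSubgroupOf 𝔞.toAddSubgroup) = Ideal.absNorm 𝔠 := r2_idx h1 𝔠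
  have h0 : Ideal.absNorm 𝔠 ≠ 0 := fun h => h2 (Ideal.absNorm_eq_zero_iff.1 h)
  have hfin : Finite (𝔞.toAddSubgroup ⧸ ((𝔞 * 𝔠).toAddSubgroup).addSubgroupOf 𝔞.toAddSubgroup) := Nat.finite_of_card_ne_zero (by rw [hcard]; exact h0)
  have hT : Nat.card (I b → I b → 𝔞.toAddSubgroup ⧸ ((𝔞 * 𝔠).toAddSubgroup).addSubgroupOf 𝔞.toAddSubgroup) = Ideal.absNorm 𝔠 ^ (Fintype.card (I b) ^ 2) := by
    rw [Nat.card_fun, Nat.card_fun, hcard, Nat.card_eq_fintype_card, ← pow_mul, sq]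
  have hle : GamK b (𝔞 * 𝔠) v r s ≤ GamK b 𝔞 v r s := by
    intro g hg i j
    have hm : ∀ x : K, Pool.Agent.Lib.L1S.InI (𝔞 * 𝔠) x → Pool.Agent.Lib.L1S.InI 𝔞 x := fun x ⟨y, hy, e⟩ => ⟨y, Ideal.mul_le_left hy, e⟩
    exact ⟨⟨hm _ (hg i j).1.1, (hg i j).1.2⟩, hm _ (hg i j).2.1, (hg i j).2.2⟩
  rw [← hT]
  refine r8_card hle (fun g i j => q ((g.1.1 - 1) i j)) fun g hg h hh e => ?_
  have h3 : ∀ i j, Pool.Agent.Lib.L1S.InI (𝔞 * 𝔠) (h.1.1 i j - g.1.1 i j) := by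
    intro i j
    have h4 := hq _ _ (hg i j).1.1 (hh i j).1.1 (congrFun (congrFun e i) j)
    rw [Matrix.sub_apply, Matrix.sub_apply] at h4
    rwa [sub_sub_sub_cancel_right] at h4
  have h5 : ∀ i j, Pool.Agent.Lib.L1S.InI (𝔞 * 𝔠) (g.1.1 i j - h.1.1 i j) := by
    intro i j
    have := r8a_neg (h3 i j)
    rwa [neg_sub] at this
  have h6 : g⁻¹ * h ∈ GamK b 𝔞 v r s := mul_mem (inv_mem hg) hh
  intro i j
  have e2 : (g⁻¹ * h)⁻¹ = h⁻¹ * g := by group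
  refine ⟨⟨r8a_cong (r8a_int fun i j => (hg i j).2.1) h3 i j, (h6 i j).1.2⟩, ?_, (h6 i j).2.2⟩
  rw [e2]
  exact r8a_cong (r8a_int fun i j => (hh i j).2.1) h5 i j

end

end Pool.Agent.Lib.L1S
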