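import Pool.Agent.Lib.L1S.R0
import Pool.Agent.Lib.L1S.R8A

/-!
# L1S, module R (arithmetic), R8B: congruence subgroups: the auxiliary level
-/

namespace Pool.Agent.Lib.L1S

open MeasureTheory Matrix NumberField IsDedekindDomain Pool.Agent.Lib.H89N Pool.Agent.Lib.H33W
open scoped ENNReal Pointwise

noncomputable section

set_option linter.unusedSectionVars false

variable {ι M N : Type} [Fintype ι] [DecidableEq ι] [AddCommGroup M] [Module ℚ M] [AddCommGroup N] [Module ℚ N]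
  {P : RootPairing ι ℚ M N} [P.IsCrystallographic] [P.IsRootSystem] {b : P.Base} {K : Type} [Field K] [NumberField K]

/-- PROOF. `Gm = (GamK (m 𝔫)).comap (conj h)`, `Gh = (GamK 𝔫).comap (conj h)`, `conj h` is surjective: `Subgroup.relIndex_comap`, `Subgroup.map_comap_eq_self_of_surjective`. -/
theorem r8_comap {G : Type} [Group G] (A B : Subgroup G) (h : G) : (A.comap (MulAut.conj h).toMonoidHom).relIndex (B.comap (MulAut.conj h).toMonoidHom) = A.relIndex B := by
  rw [Subgroup.relIndex_comap, Subgroup.map_comap_eq_self_of_surjective]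
  exact (MulAut.conj h).surjective

/-- PROOF. `r8_comap`, `r8_rel` with `𝔠 = (m)`, `absNorm (m) = m ^ d` (`Ideal.absNorm_span_singleton`, `Algebra.norm_algebraMap..`, compare `H33W`, `H67G`; `finrank ℤ (𝓞 K) = finrank ℚ K`: `RingOfIntegers.rank`). -/
theorem r8_m {𝔫 : Ideal (𝓞 K)} (h0 : 𝔫 ≠ ⊥) (v : HeightOneSpectrum (𝓞 K)) (r s m : ℕ) (hm : m ≠ 0) (h : GK b K) :
    (Gm b 𝔫 v r s m h).relIndex (Gh b 𝔫 v r s h) ≤ (m ^ Module.finrank ℚ K) ^ (Fintype.card (I b) ^ 2) := by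
  have hm0 : (Ideal.span {(m : 𝓞 K)} : Ideal (𝓞 K)) ≠ ⊥ := by
    rw [Ne, Ideal.span_singleton_eq_bot]
    exact Nat.cast_ne_zero.mpr hm
  have h1 := (r8_rel (b := b) h0 hm0 v r s).1
  have h2 : Ideal.absNorm (Ideal.span {(m : 𝓞 K)}) = m ^ Module.finrank ℚ K := by
    rw [Ideal.absNorm_span_singleton]
    have h3 : (m : 𝓞 K) = algebraMap ℤ (𝓞 K) (m : ℤ) := by simp
    rw [h3, Algebra.norm_algebraMap, RingOfIntegers.rank, Int.natAbs_pow, Int.natAbs_natCast]
  rw [h2, mul_comm 𝔫] at h1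
  refine le_trans (le_of_eq ?_) h1
  exact r8_comap (GamK b (Ideal.span {(m : 𝓞 K)} * 𝔫) v r s) (GamK b 𝔫 v r s) h

end

end Pool.Agent.Lib.L1S
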