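import Pool.Agent.Lib.L1S.R0

/-!
# L1S, module R (arithmetic), R9A: congruence subgroups in `h⁻¹ Γ h`
-/

namespace Pool.Agent.Lib.L1S

open MeasureTheory Matrix NumberField IsDedekindDomain Pool.Agent.Lib.H89N Pool.Agent.Lib.H33W
open scoped ENNReal Pointwise

noncomputable section

set_option linter.unusedSectionVars false

variable {ι M N : Type} [Fintype ι] [DecidableEq ι] [AddCommGroup M] [Module ℚ M] [AddCommGroup N] [Module ℚ N]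
  {P : RootPairing ι ℚ M N} [P.IsCrystallographic] [P.IsRootSystem] {b : P.Base} {K : Type} [Field K] [NumberField K]

/-- Denominators of the entries. PROOF. `K` is the fraction field of `𝓞`: `IsLocalization.exist_integer_multiples` (a common denominator of finitely many elements). -/
theorem r9_den (k : GK b K) : ∃ D : 𝓞 K, D ≠ 0 ∧ ∀ i j, Pool.Agent.Lib.L1S.InI ⊤ ((D : K) * k.1.1 i j) ∧ Pool.Agent.Lib.L1S.InI ⊤ ((D : K) * k⁻¹.1.1 i j) := by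
  classical
  obtain ⟨D, hD⟩ := IsLocalization.exist_integer_multiples_of_finite (nonZeroDivisors (𝓞 K)) (S := K)
    (fun p : (I b × I b) × Bool => if p.2 then k.1.1 p.1.1 p.1.2 else k⁻¹.1.1 p.1.1 p.1.2)
  refine ⟨(D : 𝓞 K), nonZeroDivisors.coe_ne_zero D, fun i j => ⟨?_, ?_⟩⟩
  · obtain ⟨y, hy⟩ := hD ((i, j), true)
    refine ⟨y, Submodule.mem_top, ?_⟩
    rw [if_pos rfl, Algebra.smul_def] at hy
    exact hy
  · obtain ⟨y, hy⟩ := hD ((i, j), false)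
    refine ⟨y, Submodule.mem_top, ?_⟩
    rw [if_neg (by simp), Algebra.smul_def] at hy
    exact hy

/-- PROOF. `𝔞 = (D ^ 2) * (𝔫 * v ^ (r + s))`. For `γ ∈ GamK 𝔞 v 0 0`: `k γ k⁻¹ - 1 = k (γ - 1) k⁻¹` has entries in `𝔫 v ^ (r + s)`: `(D k) (D ^ (-2) (γ - 1)) (D k⁻¹)`; the same for `γ⁻¹`. So the entries of `k γ k⁻¹ - 1` are in `𝔫` and in `v ^ (r + s) ≤ v ^ r` (for `ht i < ht j` the entry of `k γ k⁻¹` is the entry of `k γ k⁻¹ - 1`). -/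
theorem r9_cong {𝔫 : Ideal (𝓞 K)} (h0 : 𝔫 ≠ ⊥) (v : HeightOneSpectrum (𝓞 K)) (r s : ℕ) (k : GK b K) : ∃ 𝔞 : Ideal (𝓞 K), 𝔞 ≠ ⊥ ∧ GamK b 𝔞 v 0 0 ≤ Gh b 𝔫 v r s k := by
  classical
  obtain ⟨D, hD, hk⟩ := r9_den k
  have hDK : (D : K) ≠ 0 := fun h => hD (by exact_mod_cast h)
  have hv : v.asIdeal ^ (r + s) ≠ ⊥ := pow_ne_zero _ v.ne_bot
  have m1 : 𝔫 * v.asIdeal ^ (r + s) ≤ 𝔫 := Ideal.mul_le_left
  have m2 : 𝔫 * v.asIdeal ^ (r + s) ≤ v.asIdeal ^ (r + s) := Ideal.mul_le_right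
  have m3 : v.asIdeal ^ (r + s) ≤ v.asIdeal ^ r := Ideal.pow_le_pow_right (Nat.le_add_right r s)
  refine ⟨Ideal.span {D ^ 2} * (𝔫 * v.asIdeal ^ (r + s)), ?_, ?_⟩
  · have h1 : Ideal.span {D ^ 2} ≠ ⊥ := by
      rw [Ne, Ideal.span_singleton_eq_bot]
      exact pow_ne_zero 2 hD
    exact mul_ne_zero h1 (mul_ne_zero h0 hv)
  have key : ∀ X : Matrix (I b) (I b) K, (∀ i j, InI (Ideal.span {D ^ 2} * (𝔫 * v.asIdeal ^ (r + s))) (X i j)) →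
      ∀ i j, InI (𝔫 * v.asIdeal ^ (r + s)) ((k.1.1 * X * k⁻¹.1.1) i j) := by
    intro X hX i j
    rw [Matrix.mul_apply]
    refine InI.sum _ _ fun c _ => ?_
    rw [Matrix.mul_apply, Finset.sum_mul]
    refine InI.sum _ _ fun a _ => ?_
    obtain ⟨y, hy, hxy⟩ := hX a c
    obtain ⟨z, hz, hzy⟩ := Ideal.mem_span_singleton_mul.1 hy
    have h1 : k.1.1 i a * X a c * k⁻¹.1.1 c j = ((D : K) * k.1.1 i a) * (z : K) * ((D : K) * k⁻¹.1.1 c j) := by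
      rw [← hxy, ← hzy]
      push_cast
      ring
    rw [h1]
    exact ((hk i a).1.mul' (show InI (𝔫 * v.asIdeal ^ (r + s)) (z : K) from ⟨z, hz, rfl⟩)).mul (hk c j).2
  have hone : k.1.1 * k⁻¹.1.1 = 1 := by
    have h1 : k.1.1 * k⁻¹.1.1 = (k * k⁻¹).1.1 := rfl
    rw [h1, mul_inv_cancel]
    rfl
  have conj : ∀ Y : Matrix (I b) (I b) K, k.1.1 * Y * k⁻¹.1.1 - 1 = k.1.1 * (Y - 1) * k⁻¹.1.1 := by
    intro Y
    rw [mul_sub, sub_mul, mul_one, hone]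
  have fin : ∀ Y : Matrix (I b) (I b) K, (∀ i j, InI (Ideal.span {D ^ 2} * (𝔫 * v.asIdeal ^ (r + s))) ((Y - 1) i j)) →
      ∀ i j, InI 𝔫 ((k.1.1 * Y * k⁻¹.1.1 - 1) i j) ∧ (ht b i < ht b j → InI (v.asIdeal ^ (r + s)) ((k.1.1 * Y * k⁻¹.1.1) i j)) ∧
        (ht b i = ht b j → InI (v.asIdeal ^ r) ((k.1.1 * Y * k⁻¹.1.1 - 1) i j)) := by
    intro Y hY i j
    have h1 := key _ hY i j
    rw [← conj] at h1
    refine ⟨?_, ?_, ?_⟩
    · obtain ⟨y, hy, e⟩ := h1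
      exact ⟨y, m1 hy, e⟩
    · intro hij
      have hne : i ≠ j := by
        rintro rfl
        exact absurd hij (lt_irrefl _)
      obtain ⟨y, hy, e⟩ := h1
      refine ⟨y, m2 hy, ?_⟩
      rw [e, Matrix.sub_apply, Matrix.one_apply_ne hne, sub_zero]
    · intro _
      obtain ⟨y, hy, e⟩ := h1
      exact ⟨y, m3 (m2 hy), e⟩
  intro γ hγ
  rw [mem_Gh]
  intro i j
  have e1 : (k * γ * k⁻¹).1.1 = k.1.1 * γ.1.1 * k⁻¹.1.1 := rfl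
  have e2 : (k * γ * k⁻¹)⁻¹.1.1 = k.1.1 * γ⁻¹.1.1 * k⁻¹.1.1 := by
    have h1 : (k * γ * k⁻¹)⁻¹ = k * γ⁻¹ * k⁻¹ := by group
    rw [h1]
    rfl
  rw [e1, e2]
  exact ⟨fin _ (fun i j => (hγ i j).1.1) i j, fin _ (fun i j => (hγ i j).2.1) i j⟩

end

end Pool.Agent.Lib.L1S
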