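import Pool.Agent.Lib.L1S.R0
import Pool.Agent.Lib.L1S.R8B
import Pool.Agent.Lib.L1S.R9A

/-!
# L1S, module R (arithmetic), R9B: commensurability
-/

namespace Pool.Agent.Lib.L1S

open MeasureTheory Matrix NumberField IsDedekindDomain Pool.Agent.Lib.H89N Pool.Agent.Lib.H33W
open scoped ENNReal Pointwise

noncomputable section

set_option linter.unusedSectionVars false

variable {ι M N : Type} [Fintype ι] [DecidableEq ι] [AddCommGroup M] [Module ℚ M] [AddCommGroup N] [Module ℚ N]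
  {P : RootPairing ι ℚ M N} [P.IsCrystallographic] [P.IsRootSystem] {b : P.Base} {K : Type} [Field K] [NumberField K]

theorem r9b_le {𝔪 : Ideal (𝓞 K)} (v w : HeightOneSpectrum (𝓞 K)) (r' s' : ℕ) : GamK b 𝔪 w r' s' ≤ GamK b ⊤ v 0 0 := by
  intro g hg i j
  have key : ∀ x : Matrix (I b) (I b) K, (∀ i j, Pool.Agent.Lib.L1S.InI 𝔪 ((x - 1) i j)) → ∀ i j,
      Pool.Agent.Lib.L1S.InI ⊤ ((x - 1) i j) ∧ (ht b i < ht b j → Pool.Agent.Lib.L1S.InI (v.asIdeal ^ (0 + 0)) (x i j)) ∧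
        (ht b i = ht b j → Pool.Agent.Lib.L1S.InI (v.asIdeal ^ 0) ((x - 1) i j)) := by
    intro x hx i j
    have e0 : v.asIdeal ^ (0 + 0) = ⊤ := by rw [add_zero, pow_zero, Ideal.one_eq_top]
    rw [e0]
    exact ⟨(hx i j).top, fun _ => r8a_int hx i j, fun _ => (hx i j).top⟩
  exact ⟨key _ (fun i j => (hg i j).1.1) i j, key _ (fun i j => (hg i j).2.1) i j⟩

/-- PROOF. `Gh 𝔫 g = (Gh 𝔫 (g h⁻¹)).comap (conj h)` and `Gh 𝔪 h = (GamK 𝔪).comap (conj h)`: `r8_comap` reduces to `(Gh 𝔫 (g h⁻¹)).relIndex (GamK 𝔪 w r' s') ≠ 0`. `GamK 𝔞 v 0 0 ≤ Gh 𝔫 (g h⁻¹)` (`r9_cong`), `GamK 𝔪 w r' s' ≤ GamK ⊤ v 0 0` (an entry of `g` is an entry of `g - 1` plus `0` or `1`), `(GamK 𝔞 v 0 0).relIndex (GamK ⊤ v 0 0) ≠ 0` (`r8_rel` with `𝔞 = ⊤`),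
`Subgroup.relIndex_ne_zero_..` / `Subgroup.relIndex_dvd_of_le_left`, `relIndex_eq_zero_of_le_right`. -/
theorem r9_comm {𝔫 𝔪 : Ideal (𝓞 K)} (h0 : 𝔫 ≠ ⊥) (v w : HeightOneSpectrum (𝓞 K)) (r s r' s' : ℕ) (g h : GK b K) :
    (Gh b 𝔫 v r s g).relIndex (Gh b 𝔪 w r' s' h) ≠ 0 := by
  have e1 : Gh b 𝔫 v r s g = (Gh b 𝔫 v r s (g * h⁻¹)).comap (MulAut.conj h).toMonoidHom := by
    ext x
    have e : g * h⁻¹ * (h * x * h⁻¹) * (g * h⁻¹)⁻¹ = g * x * g⁻¹ := by group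
    rw [Subgroup.mem_comap, mem_Gh, mem_Gh]
    show g * x * g⁻¹ ∈ _ ↔ g * h⁻¹ * (h * x * h⁻¹) * (g * h⁻¹)⁻¹ ∈ _
    rw [e]
  have e2 : Gh b 𝔪 w r' s' h = (GamK b 𝔪 w r' s').comap (MulAut.conj h).toMonoidHom := rfl
  rw [e1, e2, r8_comap]
  obtain ⟨𝔞, h1, h2⟩ := r9_cong (b := b) h0 v r s (g * h⁻¹)
  have h3 := (r8_rel (b := b) (K := K) (𝔞 := ⊤) (𝔠 := 𝔞) top_ne_bot h1 v 0 0).2
  rw [Ideal.top_mul] at h3
  have h4 : (GamK b 𝔞 v 0 0).relIndex (GamK b 𝔪 w r' s') ≠ 0 := fun h5 =>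
    h3 (Subgroup.relIndex_eq_zero_of_le_right (r9b_le v w r' s') h5)
  intro h5
  have h6 := Subgroup.relIndex_dvd_of_le_left (GamK b 𝔪 w r' s') h2
  rw [h5] at h6
  exact h4 (Nat.eq_zero_of_zero_dvd h6)

end

end Pool.Agent.Lib.L1S
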