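import Mathlib

/-!
# L1S, LI1: Galois descent for a semilinear action (helper33)
-/

namespace Pool.Agent.Lib.L1S

open Module

set_option linter.unusedSectionVars false
set_option linter.style.haveILetI false

variable {K L W : Type} [Field K] [Field L] [Algebra K L] [FiniteDimensional K L] [IsGalois K L] [AddCommGroup W] [Module L W]

open scoped Classical in
/-- Elements `c`, `d_c` of `L` with `∑ d_c s(c) = 1` for `s = 1` and `0` otherwise. -/
theorem li1_dual (K L : Type) [Field K] [Field L] [Algebra K L] [FiniteDimensional K L] : ∃ (S : Finset L) (d : L → L), ∀ s : L ≃ₐ[K] L, ∑ c ∈ S, d c * s c = if s = 1 then 1 else 0 := by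
  have hspan : Submodule.span L (Set.range fun (c : L) (s : L ≃ₐ[K] L) => s c) = ⊤ := by
    by_contra hne
    obtain ⟨f, hf0, hf⟩ := Submodule.exists_le_ker_of_lt_top _ (lt_top_iff_ne_top.2 hne)
    apply hf0
    have hli := linearIndependent_toLinearMap K L L
    have h2 : ∀ s : L ≃ₐ[K] L, f (Pi.single s 1) = 0 := by
      have h3 : LinearIndependent L fun s : L ≃ₐ[K] L => ((s : L →ₐ[K] L).toLinearMap : L →ₗ[K] L) :=
        hli.comp (fun s : L ≃ₐ[K] L => (s : L →ₐ[K] L)) fun s t h => by
          ext x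
          exact DFunLike.congr_fun h x
      have h4 := Fintype.linearIndependent_iff.1 h3 (fun s => f (Pi.single s 1)) ?_
      · exact h4
      · ext c
        rw [LinearMap.sum_apply, LinearMap.zero_apply]
        have h5 : f (fun s : L ≃ₐ[K] L => s c) = 0 := LinearMap.mem_ker.1 (hf (Submodule.subset_span ⟨c, rfl⟩))
        have h6 : (fun s : L ≃ₐ[K] L => s c) = ∑ s : L ≃ₐ[K] L, (s c) • (Pi.single s (1 : L) : (L ≃ₐ[K] L) → L) := by
          ext t
          rw [Finset.sum_apply, Finset.sum_eq_single t]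
          · simp
          · intro s _ hs
            simp [Pi.single_eq_of_ne hs.symm]
          · intro h
            exact absurd (Finset.mem_univ t) h
        rw [h6, map_sum] at h5
        rw [← h5]
        refine Finset.sum_congr rfl fun s _ => ?_
        rw [map_smul]
        simp [mul_comm]
    ext s
    simpa using h2 s
  have h1 : (fun s : L ≃ₐ[K] L => if s = 1 then (1 : L) else 0) ∈ Submodule.span L (Set.range fun (c : L) (s : L ≃ₐ[K] L) => s c) := by
    rw [hspan]
    exact Submodule.mem_top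
  rw [Finsupp.mem_span_range_iff_exists_finsupp] at h1
  obtain ⟨l, hl⟩ := h1
  refine ⟨l.support, l, fun s => ?_⟩
  have h2 := congrFun hl s
  rw [← h2, Finsupp.sum, Finset.sum_apply]
  rfl

/-- The data of a semilinear action. -/
structure SemiLin (K L : Type) [Field K] [Field L] [Algebra K L] (W : Type) [AddCommGroup W] [Module L W] (τ : (L ≃ₐ[K] L) → W → W) : Prop where
  one : ∀ w, τ 1 w = w
  mul : ∀ s t w, τ (s * t) w = τ s (τ t w)
  add : ∀ s w w', τ s (w + w') = τ s w + τ s w'
  smul : ∀ s (c : L) w, τ s (c • w) = s c • τ s w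

theorem SemiLin.zero {τ : (L ≃ₐ[K] L) → W → W} (h : SemiLin K L W τ) (s : L ≃ₐ[K] L) : τ s 0 = 0 := by
  have h1 := h.smul s 0 0
  rw [zero_smul, map_zero, zero_smul] at h1
  exact h1

theorem SemiLin.sum {τ : (L ≃ₐ[K] L) → W → W} (h : SemiLin K L W τ) (s : L ≃ₐ[K] L) {α : Type} (S : Finset α) (f : α → W) : τ s (∑ a ∈ S, f a) = ∑ a ∈ S, τ s (f a) := by
  classical
  induction S using Finset.induction_on with
  | empty => rw [Finset.sum_empty, Finset.sum_empty, h.zero]
  | insert a S ha ih => rw [Finset.sum_insert ha, Finset.sum_insert ha, h.add, ih]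

/-- The fixed vectors span. -/
theorem SemiLin.span {τ : (L ≃ₐ[K] L) → W → W} (h : SemiLin K L W τ) : Submodule.span L {w : W | ∀ s, τ s w = w} = ⊤ := by
  classical
  rw [eq_top_iff]
  intro w _
  obtain ⟨S, d, hd⟩ := li1_dual K L
  have h1 : w = ∑ c ∈ S, d c • ∑ s : L ≃ₐ[K] L, τ s (c • w) := by
    have h2 : ∀ c ∈ S, d c • ∑ s : L ≃ₐ[K] L, τ s (c • w) = ∑ s : L ≃ₐ[K] L, (d c * s c) • τ s w := by
      intro c _
      rw [Finset.smul_sum]
      refine Finset.sum_congr rfl fun s _ => ?_
      rw [h.smul, smul_smul]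
    rw [Finset.sum_congr rfl h2, Finset.sum_comm]
    have h3 : ∀ s ∈ (Finset.univ : Finset (L ≃ₐ[K] L)), ∑ c ∈ S, (d c * s c) • τ s w = if s = 1 then w else 0 := by
      intro s _
      rw [← Finset.sum_smul, hd s]
      split_ifs with h4
      · rw [h4, h.one, one_smul]
      · rw [zero_smul]
    rw [Finset.sum_congr rfl h3, Finset.sum_ite_eq' Finset.univ (1 : L ≃ₐ[K] L) fun _ => w, if_pos (Finset.mem_univ _)]
  rw [h1]
  refine Submodule.sum_mem _ fun c _ => Submodule.smul_mem _ _ (Submodule.subset_span ?_)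
  intro t
  rw [h.sum]
  refine Fintype.sum_equiv (Equiv.mulLeft t) _ _ fun s => ?_
  rw [← h.mul]
  rfl

/-- **Galois descent**: a basis of fixed vectors. -/
theorem SemiLin.basis {τ : (L ≃ₐ[K] L) → W → W} (h : SemiLin K L W τ) {O : Type} [Fintype O] (e : Basis O L W) : ∃ y : Basis O L W, ∀ i s, τ s (y i) = y i := by
  classical
  have hs := h.span
  let y0 := Basis.ofSpan (K := L) (s := {w : W | ∀ s, τ s w = w}) hs.ge
  have h1 : ∀ i, y0 i ∈ {w : W | ∀ s, τ s w = w} := fun i => Basis.ofSpan_subset hs.ge ⟨i, rfl⟩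
  haveI := Module.Finite.of_basis e
  haveI : Fintype _ := FiniteDimensional.fintypeBasisIndex y0
  exact ⟨y0.reindex (y0.indexEquiv e), fun i s => by rw [Basis.reindex_apply]; exact h1 _ s⟩

/-- The coordinates of a fixed vector with respect to a basis of fixed vectors are in `K`. -/
theorem SemiLin.repr {τ : (L ≃ₐ[K] L) → W → W} (h : SemiLin K L W τ) {O : Type} [Fintype O] (y : Basis O L W) (hy : ∀ i s, τ s (y i) = y i) {w : W} (hw : ∀ s, τ s w = w) (i : O) :
    ∃ c : K, algebraMap K L c = y.repr w i := by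
  have h1 : ∀ s : L ≃ₐ[K] L, s (y.repr w i) = y.repr w i := by
    intro s
    have h2 : w = ∑ j, s (y.repr w j) • y j := by
      conv_lhs => rw [← hw s, ← y.sum_repr w, h.sum]
      exact Finset.sum_congr rfl fun j _ => by rw [h.smul, hy]
    have h3 : y.repr w i = y.repr (∑ j, s (y.repr w j) • y j) i := congrArg (fun v => y.repr v i) h2
    rw [Basis.repr_sum_self y (fun j => s (y.repr w j))] at h3
    exact h3.symm
  exact (IsGalois.mem_bot_iff_fixed _).2 h1

end Pool.Agent.Lib.L1S
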