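import Pool.Agent.Lib.L1S.Defs

/-!
# Module T (topology), part 1: instances

`GL(K ⊗ ℝ)` is a locally compact, second countable Hausdorff group; `G_E` and `U` are closed.
-/

namespace Pool.Agent.Lib.L1S

open MeasureTheory Matrix NumberField IsDedekindDomain Pool.Agent.Lib.H89N Pool.Agent.Lib.H33W Topology

noncomputable section

variable {ι M N : Type} [Fintype ι] [DecidableEq ι] [AddCommGroup M] [Module ℚ M] [AddCommGroup N] [Module ℚ N]
  {P : RootPairing ι ℚ M N} [P.IsCrystallographic]

instance EE_lc (K : Type) [Field K] [NumberField K] : LocallyCompactSpace (EE K) :=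
  inferInstanceAs (LocallyCompactSpace (({w : InfinitePlace K // w.IsReal} → ℝ) × ({w : InfinitePlace K // w.IsComplex} → ℂ)))

instance EE_sc (K : Type) [Field K] [NumberField K] : SecondCountableTopology (EE K) :=
  inferInstanceAs (SecondCountableTopology (({w : InfinitePlace K // w.IsReal} → ℝ) × ({w : InfinitePlace K // w.IsComplex} → ℂ)))

instance MatE_lc (m K : Type) [Fintype m] [Field K] [NumberField K] : LocallyCompactSpace (Matrix m m (EE K)) :=
  inferInstanceAs (LocallyCompactSpace (m → m → EE K))

instance MatE_sc (m K : Type) [Fintype m] [Field K] [NumberField K] : SecondCountableTopology (Matrix m m (EE K)) :=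
  inferInstanceAs (SecondCountableTopology (m → m → EE K))

instance GLE_t2 (m K : Type) [Fintype m] [DecidableEq m] [Field K] [NumberField K] : T2Space (GL m (EE K)) :=
  Units.instT2Space

instance GLE_lc (m K : Type) [Fintype m] [DecidableEq m] [Field K] [NumberField K] : LocallyCompactSpace (GL m (EE K)) := by
  have : LocallyCompactSpace (Matrix m m (EE K))ᵐᵒᵖ := MulOpposite.opHomeomorph.symm.isClosedEmbedding.locallyCompactSpace
  exact (Units.isClosedEmbedding_embedProduct (α := Matrix m m (EE K))).locallyCompactSpace

instance GLE_sc (m K : Type) [Fintype m] [DecidableEq m] [Field K] [NumberField K] : SecondCountableTopology (GL m (EE K)) := by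
  have : SecondCountableTopology (Matrix m m (EE K))ᵐᵒᵖ := MulOpposite.opHomeomorph.symm.isEmbedding.secondCountableTopology
  exact (Units.isEmbedding_embedProduct (M := Matrix m m (EE K))).secondCountableTopology

theorem GE_closed (b : P.Base) (K : Type) [Field K] [NumberField K] : IsClosed (GE b K : Set (GL (I b) (EE K))) :=
  Subgroup.isClosed_topologicalClosure _

instance GR_lc (b : P.Base) (K : Type) [Field K] [NumberField K] : LocallyCompactSpace (GR b K) :=
  (GE_closed b K).isClosedEmbedding_subtypeVal.locallyCompactSpace

instance GR_sc (b : P.Base) (K : Type) [Field K] [NumberField K] : SecondCountableTopology (GR b K) :=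
  TopologicalSpace.Subtype.secondCountableTopology _

instance GR_t2 (b : P.Base) (K : Type) [Field K] [NumberField K] : T2Space (GR b K) := inferInstance

theorem UR_closed (b : P.Base) (K : Type) [Field K] [NumberField K] : IsClosed (UR b K : Set (GR b K)) := by
  have h1 : ∀ r c, Continuous fun g : GR b K => g.1.1 r c := fun r c =>
    (Units.continuous_val.comp continuous_subtype_val).matrix_elem r c
  have h2 : (UR b K : Set (GR b K)) = ⋂ (r : I b) (c : I b) (_ : ht b r ≤ ht b c),
      {g : GR b K | g.1.1 r c = (1 : Matrix (I b) (I b) (EE K)) r c} ∩ {g : GR b K | g⁻¹.1.1 r c = (1 : Matrix (I b) (I b) (EE K)) r c} := by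
    ext g
    simp only [Set.mem_iInter]
    rfl
  rw [h2]
  refine isClosed_iInter fun r => isClosed_iInter fun c => isClosed_iInter fun _ => ?_
  exact (isClosed_eq (h1 r c) continuous_const).inter (isClosed_eq ((h1 r c).comp continuous_inv) continuous_const)

instance UR_lc (b : P.Base) (K : Type) [Field K] [NumberField K] : LocallyCompactSpace (UR b K) :=
  (UR_closed b K).isClosedEmbedding_subtypeVal.locallyCompactSpace

instance UR_sc (b : P.Base) (K : Type) [Field K] [NumberField K] : SecondCountableTopology (UR b K) :=
  TopologicalSpace.Subtype.secondCountableTopology _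

instance UR_t2 (b : P.Base) (K : Type) [Field K] [NumberField K] : T2Space (UR b K) := inferInstance

instance GR_tg (b : P.Base) (K : Type) [Field K] [NumberField K] : IsTopologicalGroup (GR b K) := inferInstance

instance UR_tg (b : P.Base) (K : Type) [Field K] [NumberField K] : IsTopologicalGroup (UR b K) := inferInstance

/-- The coordinates of `g` and `g⁻¹` are continuous. -/
theorem cont_entry (b : P.Base) (K : Type) [Field K] [NumberField K] (r c : I b) : Continuous fun g : GR b K => g.1.1 r c :=
  (Units.continuous_val.comp continuous_subtype_val).matrix_elem r c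

theorem cont_entry_inv (b : P.Base) (K : Type) [Field K] [NumberField K] (r c : I b) : Continuous fun g : GR b K => g⁻¹.1.1 r c :=
  (cont_entry b K r c).comp continuous_inv

end

end Pool.Agent.Lib.L1S
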