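import Pool.Agent.Lib.L1S.MDefs
import Pool.Agent.Lib.L1S.T1

/-!
# L1S, version V1 (quasi-split groups): definitions of the groups

`K ⊆ L` number fields, `H` a subgroup of `G(L)` (the `K`-points of a quasi-split form), `HR` the closure of `H` in `G(L ⊗ ℝ)`; levels are given by ideals of `𝓞 K` and by one prime `v` of `K`.
-/

namespace Pool.Agent.Lib.L1S

open MeasureTheory Matrix NumberField IsDedekindDomain Pool.Agent.Lib.H89N Pool.Agent.Lib.H33W

noncomputable section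

variable {ι M N : Type} [Fintype ι] [DecidableEq ι] [AddCommGroup M] [Module ℚ M] [AddCommGroup N] [Module ℚ N]
  {P : RootPairing ι ℚ M N} [P.IsCrystallographic] {b : P.Base}

section group

variable {L : Type} [Field L] [NumberField L] (H : Subgroup (GK b L))

/-- The real group: the closure of `H` in `G(L ⊗ ℝ)`. -/
def HRs : Subgroup (GR b L) := (H.map (emb b L)).topologicalClosure

/-- The real group as a type. -/
abbrev HRt : Type := ↥(HRs H)

instance : MeasurableSpace (HRt H) := borel _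

instance : BorelSpace (HRt H) := ⟨rfl⟩

/-- The embedding `H → HR`. -/
def embH : H →* HRt H where
  toFun g := ⟨emb b L g.1, Subgroup.le_topologicalClosure _ ⟨g.1, g.2, rfl⟩⟩
  map_one' := Subtype.ext (by simp)
  map_mul' g h := Subtype.ext (by simp)

/-- **The unipotent group** `U` of the real group. -/
def UHR : Subgroup (HRt H) := (UR b L).subgroupOf (HRs H)

instance : MeasurableSpace (UHR H) := borel _

instance : BorelSpace (UHR H) := ⟨rfl⟩

/-- The unipotent subgroup of `H`. -/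
def HUH : Subgroup H := (UHR H).comap (embH H)

/-- The embedding `U(K) → U`. -/
def kUH : HUH H →* UHR H where
  toFun g := ⟨embH H g.1, g.2⟩
  map_one' := Subtype.ext (map_one _)
  map_mul' g h := Subtype.ext (map_mul _ _ _)

/-- `H` acts on the real group by left multiplication. -/
instance actHG : MulAction H (HRt H) := MulAction.compHom _ (embH H)

/-- `U(K)` acts on `U` by left multiplication. -/
instance actHU : MulAction (HUH H) (UHR H) := MulAction.compHom _ (kUH H)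

end group

section level

variable {K : Type} (L : Type) [Field K] [NumberField K] [Field L] [NumberField L] [Algebra K L]

/-- The ideal of `𝓞 L` generated by an ideal of `𝓞 K`. -/
def up (𝔞 : Ideal (𝓞 K)) : Ideal (𝓞 L) := 𝔞.map (algebraMap (𝓞 K) (𝓞 L))

theorem up_mono {𝔞 𝔟 : Ideal (𝓞 K)} (h : 𝔞 ≤ 𝔟) : up L 𝔞 ≤ up L 𝔟 := Ideal.map_mono h

variable {L}

/-- `v ^ j x ⊆ 𝔫 𝓞_L`. -/
def DenL (𝔫 : Ideal (𝓞 K)) (v : HeightOneSpectrum (𝓞 K)) (j : ℕ) (x : L) : Prop :=
  ∀ a ∈ v.asIdeal ^ j, InI (up L 𝔫) (algebraMap K L (a : K) * x)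

/-- `x` is integral over the localisation of `𝓞 K` at `v` (integral at all places of `L` over `v`). -/
def IntV (v : HeightOneSpectrum (𝓞 K)) (x : L) : Prop := ∃ a : 𝓞 K, a ∉ v.asIdeal ∧ InI ⊤ (algebraMap K L (a : K) * x)

variable (b)

/-- The elements `g` of `G(L)` with `g`, `g⁻¹` congruent to `1` modulo `𝔫`, lower entries (those which lower the height) in `v ^ (r + s)`, diagonal blocks congruent to `1` modulo `v ^ r`. -/
def GamL (L : Type) [Field L] [NumberField L] [Algebra K L] (𝔫 : Ideal (𝓞 K)) (v : HeightOneSpectrum (𝓞 K)) (r s : ℕ) : Subgroup (GK b L) where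
  carrier := {g | ∀ i j, (InI (up L 𝔫) ((g.1.1 - 1) i j) ∧ (ht b i < ht b j → InI (up L (v.asIdeal ^ (r + s))) (g.1.1 i j)) ∧ (ht b i = ht b j → InI (up L (v.asIdeal ^ r)) ((g.1.1 - 1) i j))) ∧
    (InI (up L 𝔫) ((g⁻¹.1.1 - 1) i j) ∧ (ht b i < ht b j → InI (up L (v.asIdeal ^ (r + s))) (g⁻¹.1.1 i j)) ∧ (ht b i = ht b j → InI (up L (v.asIdeal ^ r)) ((g⁻¹.1.1 - 1) i j)))}
  one_mem' := by
    intro i j
    have e : (1 : GK b L)⁻¹.1.1 = 1 := by rw [inv_one]; rfl
    have e0 : (1 : GK b L).1.1 = 1 := rfl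
    rw [e, e0, sub_self]
    have key : InI (up L 𝔫) ((0 : Matrix (I b) (I b) L) i j) ∧ (ht b i < ht b j → InI (up L (v.asIdeal ^ (r + s))) ((1 : Matrix (I b) (I b) L) i j)) ∧
        (ht b i = ht b j → InI (up L (v.asIdeal ^ r)) ((0 : Matrix (I b) (I b) L) i j)) := by
      refine ⟨InI.zero _, fun h => ?_, fun _ => InI.zero _⟩
      have hij : i ≠ j := by
        rintro rfl
        exact absurd h (lt_irrefl _)
      rw [Matrix.one_apply_ne hij]
      exact InI.zero _
    exact ⟨key, key⟩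
  mul_mem' := by
    intro g h hg hh i j
    have e : (g * h)⁻¹.1.1 = h⁻¹.1.1 * g⁻¹.1.1 := by
      rw [_root_.mul_inv_rev]
      rfl
    have e0 : (g * h).1.1 = g.1.1 * h.1.1 := rfl
    have hld : up L (v.asIdeal ^ (r + s)) ≤ up L (v.asIdeal ^ r) := up_mono L (Ideal.pow_le_pow_right (Nat.le_add_right r s))
    rw [e, e0]
    exact ⟨congr_mul (ht b) _ _ _ hld _ _ (fun i j => (hg i j).1) (fun i j => (hh i j).1) i j,
      congr_mul (ht b) _ _ _ hld _ _ (fun i j => (hh i j).2) (fun i j => (hg i j).2) i j⟩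
  inv_mem' := by
    intro g hg i j
    rw [inv_inv]
    exact ⟨(hg i j).2, (hg i j).1⟩

/-- The elements `g` of `G(L)` over `𝓞_L[1/v]` with `g ≡ 1` modulo `𝔫` (`𝔫` prime to `v`). -/
def HGL (L : Type) [Field L] [NumberField L] [Algebra K L] (𝔫 : Ideal (𝓞 K)) (v : HeightOneSpectrum (𝓞 K)) : Set (GK b L) :=
  {g | ∃ j, ∀ r c, DenL 𝔫 v j ((g.1.1 - 1) r c) ∧ DenL 𝔫 v j ((g⁻¹.1.1 - 1) r c)}

/-- The matrices which are integral at `v` with the lower entries in `v ^ (r + s)` and diagonal blocks congruent to `1` modulo `v ^ r`. -/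
def IwV {L : Type} [Field L] [NumberField L] [Algebra K L] (v : HeightOneSpectrum (𝓞 K)) (r s : ℕ) (π : K) (g : Matrix (I b) (I b) L) : Prop :=
  ∀ i j, IntV v (g i j) ∧ (ht b i < ht b j → IntV v ((algebraMap K L π)⁻¹ ^ (r + s) * g i j)) ∧ (ht b i = ht b j → IntV v ((algebraMap K L π)⁻¹ ^ r * (g - 1) i j))

/-- `h ∈ Γ_v λ(π)⁻¹`. -/
def AtVL {L : Type} [Field L] [NumberField L] [Algebra K L] (v : HeightOneSpectrum (𝓞 K)) (r s : ℕ) (π : K) (c : b.support → ℤ) (h : GK b L) : Prop :=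
  IwV b v r s π (h.1.1 * Matrix.diagonal fun i => algebraMap K L π ^ pr b c i) ∧ IwV b v r s π ((Matrix.diagonal fun i => algebraMap K L π ^ (-pr b c i)) * h⁻¹.1.1)

/-- The group `h⁻¹ Γ h`. -/
def GhL {L : Type} [Field L] [NumberField L] [Algebra K L] (𝔫 : Ideal (𝓞 K)) (v : HeightOneSpectrum (𝓞 K)) (r s : ℕ) (h : GK b L) : Subgroup (GK b L) :=
  (GamL b L 𝔫 v r s).comap (MulAut.conj h).toMonoidHom

/-- The hypotheses on the ideal `𝔫`, the place `v`, the level `r, s` at `v`, the dominant coweight `c`, the uniformiser `π` and the Hecke element `h`. -/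
structure LvL {L : Type} [Field L] [NumberField L] [Algebra K L] (𝔫 : Ideal (𝓞 K)) (v : HeightOneSpectrum (𝓞 K)) (r s : ℕ) (c : b.support → ℤ) (π : K) (h : GK b L) : Prop where
  ne : 𝔫 ≠ ⊥
  nv : ¬𝔫 ≤ v.asIdeal
  dom : ∀ i : b.support, 0 ≤ pr b c (Sum.inr i)
  hπ : v.valuation K π = WithZero.exp (-1 : ℤ)
  hh : h ∈ HGL b L 𝔫 v
  hv : AtVL b v r s π c h

end level

section sub

variable {K L : Type} [Field K] [NumberField K] [Field L] [NumberField L] [Algebra K L] (H : Subgroup (GK b L))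

/-- **The arithmetic group** `Γ` as a subgroup of `H`. -/
def GamQ (𝔫 : Ideal (𝓞 K)) (v : HeightOneSpectrum (𝓞 K)) (r s : ℕ) : Subgroup H := (GamL b L 𝔫 v r s).subgroupOf H

/-- The group `h⁻¹ Γ h`. -/
def GhQ (𝔫 : Ideal (𝓞 K)) (v : HeightOneSpectrum (𝓞 K)) (r s : ℕ) (h : H) : Subgroup H := (GamQ H 𝔫 v r s).comap (MulAut.conj h).toMonoidHom

/-- The group `h⁻¹ Γ_m h`, `Γ_m` the subgroup of `Γ` of the elements congruent to `1` modulo `m 𝔫`. -/
def GmQ (𝔫 : Ideal (𝓞 K)) (v : HeightOneSpectrum (𝓞 K)) (r s m : ℕ) (h : H) : Subgroup H := GhQ H (Ideal.span {(m : 𝓞 K)} * 𝔫) v r s h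

end sub

end

end Pool.Agent.Lib.L1S
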