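import Pool.Agent.Lib.L1S.LI3
import Pool.Agent.Lib.L1S.LI1
import Pool.Agent.Lib.L1S.Q0

/-!
# L1S, LI4: the semilinear action of the Galois group and a homogeneous basis of fixed vectors (helper33)
-/

namespace Pool.Agent.Lib.L1S

open MeasureTheory Matrix NumberField IsDedekindDomain Pool.Agent.Lib.H89N Pool.Agent.Lib.H33W

noncomputable section

set_option linter.unusedSectionVars false

variable {ι M N : Type} [Fintype ι] [DecidableEq ι] [AddCommGroup M] [Module ℚ M] [AddCommGroup N] [Module ℚ N]
  {P : RootPairing ι ℚ M N} [P.IsCrystallographic] [P.IsReduced] [P.IsIrreducible] [P.IsRootSystem] {b : P.Base}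

variable {K L : Type} [Field K] [Field L] [Algebra K L]

/-- `τ_s(X) = D_s s(X) D_s⁻¹`. -/
def tauM (act : (L ≃ₐ[K] L) →* Equiv.Perm ι) (hact : ∀ s, DA b (act s)) (s : L ≃ₐ[K] L) (X : Matrix (I b) (I b) L) : Matrix (I b) (I b) L := (hact s).cj (X.map s)

variable (act : (L ≃ₐ[K] L) →* Equiv.Perm ι) (hact : ∀ s, DA b (act s))

theorem tauM_apply (s : L ≃ₐ[K] L) (X : Matrix (I b) (I b) L) (r c : I b) : tauM act hact s X ((hact s).pI r) ((hact s).pI c) = s (X r c) := by
  unfold tauM
  rw [DA.cj_apply, Matrix.map_apply]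

theorem tauM_mul (s : L ≃ₐ[K] L) (X Y : Matrix (I b) (I b) L) : tauM act hact s (X * Y) = tauM act hact s X * tauM act hact s Y := by
  unfold tauM
  rw [← DA.cj_mul]
  congr 1
  exact Matrix.map_mul (f := (s : L →+* L))

theorem tauM_one (s : L ≃ₐ[K] L) : tauM act hact s (1 : Matrix (I b) (I b) L) = 1 := by
  unfold tauM
  rw [Matrix.map_one s (map_zero s) (map_one s), DA.cj_one]

/-- The semilinear action on matrices. -/
theorem tauM_semi : SemiLin K L (Matrix (I b) (I b) L) (tauM act hact) where
  one := by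
    intro X
    have h1 : (hact 1).pI = 1 := by
      ext r
      rcases r with k | β
      · change Sum.inl ((hact 1).sp k) = _
        congr 1
        apply Subtype.ext
        change act 1 k = k
        rw [map_one]
        rfl
      · change Sum.inr (act 1 β) = _
        rw [map_one]
        rfl
    unfold tauM DA.cj
    rw [h1]
    rfl
  mul := by
    intro s t X
    ext r c
    obtain ⟨r, rfl⟩ := (hact (s * t)).pI.surjective r
    obtain ⟨c, rfl⟩ := (hact (s * t)).pI.surjective c
    have h1 : ∀ r, (hact (s * t)).pI r = (hact s).pI ((hact t).pI r) := by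
      intro r
      rcases r with k | β
      · change Sum.inl ((hact (s * t)).sp k) = Sum.inl _
        congr 1
        apply Subtype.ext
        change act (s * t) k = act s (act t k)
        rw [map_mul]
        rfl
      · change Sum.inr (act (s * t) β) = Sum.inr (act s (act t β))
        rw [map_mul]
        rfl
    rw [tauM_apply, h1, h1, tauM_apply, tauM_apply]
    rfl
  add := by
    intro s X Y
    unfold tauM
    rw [← DA.cj_add]
    congr 1
    ext r c
    simp
  smul := by
    intro s a X
    unfold tauM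
    rw [← DA.cj_smul]
    congr 1
    ext r c
    simp

/-- The sign in `D_s E_γ D_s⁻¹ = ± E_(s γ)`. -/
def eps (s : L ≃ₐ[K] L) (γ : ι) : ℤ := ((hact s).cj_E γ).choose

theorem eps_or (s : L ≃ₐ[K] L) (γ : ι) : eps act hact s γ = 1 ∨ eps act hact s γ = -1 := ((hact s).cj_E γ).choose_spec.1

theorem eps_cj (s : L ≃ₐ[K] L) (γ : ι) : (hact s).cj (E b γ) = eps act hact s γ • E b (act s γ) := ((hact s).cj_E γ).choose_spec.2

theorem tauM_E (s : L ≃ₐ[K] L) (γ : ι) : tauM act hact s (toA L (E b γ)) = (eps act hact s γ : L) • toA L (E b (act s γ)) := by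
  unfold tauM
  have h1 : (toA L (E b γ)).map s = toA L (E b γ) := by
    ext r c
    simp
  have h2 : (hact s).cj (toA L (E b γ)) = toA L ((hact s).cj (E b γ)) := rfl
  rw [h1, h2, eps_cj, toA_zsmul]
  exact (Int.cast_smul_eq_zsmul L _ _).symm

/-- The root vectors are independent. -/
theorem li4_indep [CharZero L] {f g : ι → L} (h : ∑ γ, f γ • toA L (E b γ) = ∑ γ, g γ • toA L (E b γ)) : f = g := by
  have key : ∀ (f : ι → L) (β : ι), cf b β (∑ γ, f γ • toA L (E b γ)) = f β := by
    intro f β
    have h1 : ∀ (S : Finset ι), cf b β (∑ γ ∈ S, f γ • toA L (E b γ)) = ∑ γ ∈ S, f γ * cf b β (toA L (E b γ)) := by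
      intro S
      classical
      induction S using Finset.induction_on with
      | empty => rw [Finset.sum_empty, Finset.sum_empty, l25_cf_zero]
      | insert a S ha ih => rw [Finset.sum_insert ha, Finset.sum_insert ha, l25_cf_add, l25_cf_smul, ih]
    rw [h1, Finset.sum_eq_single β]
    · rw [cf_E, if_pos rfl, mul_one]
    · intro γ _ hγ
      rw [cf_E, if_neg hγ, mul_zero]
    · intro h
      exact absurd (Finset.mem_univ β) h
  ext β
  rw [← key f β, h, key]

theorem eps_mul [CharZero L] (s t : L ≃ₐ[K] L) (γ : ι) : (eps act hact (s * t) γ : L) = eps act hact s (act t γ) * eps act hact t γ := by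
  have h1 := (tauM_semi act hact).mul s t (toA L (E b γ))
  rw [tauM_E, tauM_E, (tauM_semi act hact).smul, tauM_E, smul_smul] at h1
  have h2 : act (s * t) γ = act s (act t γ) := by
    rw [map_mul]
    rfl
  rw [h2] at h1
  have h3 := congrArg (cf b (act s (act t γ))) h1
  rw [l25_cf_smul, l25_cf_smul, cf_E, if_pos rfl, mul_one, mul_one] at h3
  rw [h3]
  simp [mul_comm]

theorem eps_one [CharZero L] (γ : ι) : (eps act hact 1 γ : L) = 1 := by
  have h1 := (tauM_semi act hact).one (toA L (E b γ))
  rw [tauM_E] at h1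
  have h2 : act 1 γ = γ := by
    rw [map_one]
    rfl
  rw [h2] at h1
  have h3 := congrArg (cf b γ) h1
  rw [l25_cf_smul, cf_E, if_pos rfl, mul_one] at h3
  exact h3

end

end Pool.Agent.Lib.L1S
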