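import Pool.Agent.Lib.L1S.QB0
import Pool.Agent.Lib.L1S.LI4

/-!
# L1S, V1, module B_H, file QB1 (helper43): the Galois action and the character
-/

namespace Pool.Agent.Lib.L1S

set_option linter.unusedSectionVars false

open Matrix NumberField IsDedekindDomain Pool.Agent.Lib.H89N Pool.Agent.Lib.H33W

noncomputable section

variable {ι M N : Type} [Fintype ι] [DecidableEq ι] [AddCommGroup M] [Module ℚ M] [AddCommGroup N] [Module ℚ N]
  {P : RootPairing ι ℚ M N} [P.IsCrystallographic] [P.IsReduced] [P.IsIrreducible] [P.IsRootSystem] {b : P.Base}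

section tau

variable {K L : Type} [Field K] [Field L] [Algebra K L]

/-- The action `τ_s(X) = D_s s(X) D_s⁻¹` on matrices as a ring homomorphism. -/
def qtau (Q : QS b K L) (s : L ≃ₐ[K] L) : Matrix (I b) (I b) L →+* Matrix (I b) (I b) L where
  toFun := tauM Q.act Q.da s
  map_one' := tauM_one Q.act Q.da s
  map_mul' := tauM_mul Q.act Q.da s
  map_zero' := by
    have h := (tauM_semi Q.act Q.da).smul s 0 0
    rw [zero_smul, map_zero, zero_smul] at h
    exact h
  map_add' := (tauM_semi Q.act Q.da).add s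

theorem qtau_eq (Q : QS b K L) (s : L ≃ₐ[K] L) (X : Matrix (I b) (I b) L) : qtau Q s X = tauM Q.act Q.da s X := rfl

theorem qtau_apply (Q : QS b K L) (s : L ≃ₐ[K] L) (X : Matrix (I b) (I b) L) (r c : I b) : qtau Q s X ((Q.da s).pI r) ((Q.da s).pI c) = s (X r c) :=
  tauM_apply Q.act Q.da s X r c

theorem qtau_mul (Q : QS b K L) (s t : L ≃ₐ[K] L) (X : Matrix (I b) (I b) L) : qtau Q (s * t) X = qtau Q s (qtau Q t X) := (tauM_semi Q.act Q.da).mul s t X

theorem Fx_iff (Q : QS b K L) (X : Matrix (I b) (I b) L) : Fx Q X ↔ ∀ s, qtau Q s X = X := by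
  constructor
  · intro h s
    ext r c
    obtain ⟨r, rfl⟩ := (Q.da s).pI.surjective r
    obtain ⟨c, rfl⟩ := (Q.da s).pI.surjective c
    rw [qtau_apply, h]
  · intro h s r c
    rw [← qtau_apply Q s X r c, h s]

/-- Elements of `H(K)` are fixed. -/
theorem HQ_fx [NumberField L] (Q : QS b K L) {g : GK b L} (hg : g ∈ HQ Q) : Fx Q g.1.1 ∧ Fx Q g⁻¹.1.1 := by
  have hm : ∀ X Y : Matrix (I b) (I b) L, Fx Q X → Fx Q Y → Fx Q (X * Y) := by
    intro X Y hX hY
    rw [Fx_iff] at hX hY ⊢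
    intro s
    rw [map_mul, hX s, hY s]
  have hi : ∀ g : GK b L, Fx Q g.1.1 → Fx Q g⁻¹.1.1 := by
    intro g h
    rw [Fx_iff] at h ⊢
    intro s
    have h1 : g.1.1 * g⁻¹.1.1 = 1 := g.1.mul_inv
    have h2 : g⁻¹.1.1 * g.1.1 = 1 := g.1.inv_mul
    have h3 : qtau Q s g.1.1 * qtau Q s g⁻¹.1.1 = 1 := by rw [← map_mul, h1, map_one]
    rw [h s] at h3
    calc qtau Q s g⁻¹.1.1 = g⁻¹.1.1 * (g.1.1 * qtau Q s g⁻¹.1.1) := by rw [← Matrix.mul_assoc, h2, one_mul]
      _ = g⁻¹.1.1 := by rw [h3, mul_one]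
  have key : Fx Q g.1.1 := by
    unfold HQ at hg
    induction hg using Subgroup.closure_induction with
    | mem g hg => exact hg.1
    | one =>
      rw [Fx_iff]
      intro s
      exact map_one (qtau Q s)
    | mul g h _ _ ihg ihh => exact hm _ _ ihg ihh
    | inv g _ ih => exact hi g ih
  exact ⟨key, hi g key⟩

/-- Sums over the group are fixed. -/
theorem qb1_sum [FiniteDimensional K L] (Q : QS b K L) (X : Matrix (I b) (I b) L) : Fx Q (∑ t : L ≃ₐ[K] L, qtau Q t X) := by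
  rw [Fx_iff]
  intro s
  rw [map_sum]
  have e : ∀ t, qtau Q s (qtau Q t X) = qtau Q (s * t) X := fun t => (qtau_mul Q s t X).symm
  simp only [e]
  exact Fintype.sum_equiv (Equiv.mulLeft s) _ _ fun t => rfl

theorem qb1_gR (Q : QS b K L) (s : L ≃ₐ[K] L) {X : Matrix (I b) (I b) L} (hX : X ∈ gR b L) : qtau Q s X ∈ gR b L := by
  refine (Q.da s).cj_gR ?_
  obtain ⟨a, y, rfl⟩ := (gR_iff b X).1 hX
  refine (gR_iff b _).2 ⟨fun i => s (a i), fun β => s (y β), ?_⟩
  ext r c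
  rw [Matrix.map_apply, Matrix.add_apply, Matrix.add_apply, map_add, Matrix.sum_apply, Matrix.sum_apply, Matrix.sum_apply, Matrix.sum_apply, map_sum, map_sum]
  simp

theorem qb1_raise (Q : QS b K L) (s : L ≃ₐ[K] L) {k : ℤ} {X : Matrix (I b) (I b) L} (hX : RaiseBy (ht b) k X) : RaiseBy (ht b) k (qtau Q s X) := by
  intro r c hrc
  obtain ⟨r, rfl⟩ := (Q.da s).pI.surjective r
  obtain ⟨c, rfl⟩ := (Q.da s).pI.surjective c
  rw [DA.ht_pI, DA.ht_pI] at hrc
  rw [qtau_apply, hX r c hrc, map_zero]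

/-- The coordinates. -/
def qb1_c (b : P.Base) {L : Type} (i : b.support) (X : Matrix (I b) (I b) L) : L := X (Sum.inl i) (Sum.inr (P.reflectionPerm i i))

theorem qb1_c_tau (Q : QS b K L) (s : L ≃ₐ[K] L) (X : Matrix (I b) (I b) L) (i : b.support) : qb1_c b ((Q.da s).sp i) (qtau Q s X) = s (qb1_c b i X) := by
  have h := qtau_apply Q s X (Sum.inl i) (Sum.inr (P.reflectionPerm i i))
  have e : (Q.da s).pI (Sum.inr (P.reflectionPerm i i)) = Sum.inr (P.reflectionPerm ((Q.da s).sp i : ι) ((Q.da s).sp i : ι)) := congrArg Sum.inr ((Q.da s).ng i)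
  rw [e] at h
  exact h

end tau

section char

variable {K L : Type} [Field K] [NumberField K] [Field L] [NumberField L] [Algebra K L]

/-- The restriction of the exponent of `ψ` to the root group of the orbit of `α_i`. -/
def Thq (Q : QS b K L) (θ : b.support → (EE L →ₗ[ℝ] ℝ)) (i : b.support) (z : L) : ℝ := ∑ t : L ≃ₐ[K] L, θ ((Q.da t).sp i) (mixedEmbedding L (t z))

theorem Thq_add (Q : QS b K L) (θ : b.support → (EE L →ₗ[ℝ] ℝ)) (i : b.support) (z z' : L) : Thq Q θ i (z + z') = Thq Q θ i z + Thq Q θ i z' := by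
  unfold Thq
  rw [← Finset.sum_add_distrib]
  refine Finset.sum_congr rfl fun t _ => ?_
  rw [map_add, map_add, map_add]

theorem Thq_zero (Q : QS b K L) (θ : b.support → (EE L →ₗ[ℝ] ℝ)) (i : b.support) : Thq Q θ i 0 = 0 := by
  unfold Thq
  refine Finset.sum_eq_zero fun t _ => ?_
  rw [map_zero, map_zero, map_zero]

theorem Thq_rat (Q : QS b K L) (θ : b.support → (EE L →ₗ[ℝ] ℝ)) (i : b.support) (q : ℚ) (z : L) : Thq Q θ i (q • z) = q * Thq Q θ i z := by
  unfold Thq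
  rw [Finset.mul_sum]
  refine Finset.sum_congr rfl fun t _ => ?_
  have e1 : t (q • z) = q • t z := map_rat_smul t q z
  rw [e1, map_rat_smul (mixedEmbedding L)]
  have : ∀ (q : ℚ) (x : EE L), q • x = (q : ℝ) • x := fun q x => (Rat.cast_smul_eq_qsmul ℝ q x).symm
  rw [this, map_smul, smul_eq_mul]

/-- If the form is not zero then it takes a value on `L` which is not an integer. -/
theorem Thq_ex (Q : QS b K L) (θ : b.support → (EE L →ₗ[ℝ] ℝ)) (i : b.support) {z : L} (hz : Thq Q θ i z ≠ 0) : ∃ s : L, ee (Thq Q θ i s) ≠ 1 := by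
  by_cases h1 : ee (Thq Q θ i z) = 1
  · obtain ⟨m, hm⟩ := ee_eq_one h1
    have hm0 : (m : ℝ) ≠ 0 := by rwa [← hm]
    refine ⟨((2 * m : ℚ)⁻¹) • z, ?_⟩
    rw [Thq_rat, hm]
    have e2 : (((2 * (m : ℚ))⁻¹ : ℚ) : ℝ) * m = 1 / 2 := by
      push_cast
      field_simp
    rw [e2, t3_half]
    norm_num
  · exact ⟨z, h1⟩

/-- The exponent of the character at `∑_t τ_t(X)`. -/
theorem qb1_exp (Q : QS b K L) (θ : b.support → (EE L →ₗ[ℝ] ℝ)) (X : Matrix (I b) (I b) L) :
    ∑ j, θ j (mixedEmbedding L (qb1_c b j (∑ t : L ≃ₐ[K] L, qtau Q t X))) = ∑ i, Thq Q θ i (qb1_c b i X) := by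
  unfold Thq
  rw [Finset.sum_comm]
  have h1 : ∀ j, θ j (mixedEmbedding L (qb1_c b j (∑ t : L ≃ₐ[K] L, qtau Q t X))) = ∑ t : L ≃ₐ[K] L, θ j (mixedEmbedding L (qb1_c b j (qtau Q t X))) := by
    intro j
    have e : qb1_c b j (∑ t : L ≃ₐ[K] L, qtau Q t X) = ∑ t : L ≃ₐ[K] L, qb1_c b j (qtau Q t X) := by
      unfold qb1_c
      rw [Matrix.sum_apply]
    rw [e, map_sum, map_sum]
  simp only [h1]
  rw [Finset.sum_comm]
  refine Finset.sum_congr rfl fun t _ => ?_
  rw [← Equiv.sum_comp (Q.da t).sp]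
  refine Finset.sum_congr rfl fun i _ => ?_
  rw [qb1_c_tau]

theorem qb1_single (Q : QS b K L) (θ : b.support → (EE L →ₗ[ℝ] ℝ)) (i : b.support) (s : L) : ∑ j, Thq Q θ j (if j = i then s else 0) = Thq Q θ i s := by
  rw [Finset.sum_eq_single i]
  · rw [if_pos rfl]
  · intro j _ hj
    rw [if_neg hj, Thq_zero]
  · intro h
    exact absurd (Finset.mem_univ i) h

end char

end

end Pool.Agent.Lib.L1S
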