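import Pool.Agent.Lib.L1S.Defs

/-!
# L1S, module L1: definitions (integral Geck matrices, divided powers, root vectors, the groups `x_β(t)`, the Lie algebra over a ring)

Everything is defined over `ℤ` and mapped to an arbitrary commutative ring `A`. `-β` is `ng P β`.
-/

namespace Pool.Agent.Lib.L1S

open Matrix

noncomputable section

/-! ## Divided powers of an integral nilpotent matrix -/

section DP

variable {n : Type} [Fintype n] [DecidableEq n]

/-- The matrix `X` over the ring `A`. -/
abbrev toA (A : Type) [CommRing A] (X : Matrix n n ℤ) : Matrix n n A := X.map (Int.cast : ℤ → A)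

/-- The divided power `X ^ k / k!` of an integral matrix. -/
def dvp (X : Matrix n n ℤ) (k : ℕ) : Matrix n n ℤ := (X ^ k).map (· / (k.factorial : ℤ))

/-- `X ^ 4 = 0` and `X ^ k / k!` is integral. -/
structure DP (X : Matrix n n ℤ) : Prop where
  pow4 : X ^ 4 = 0
  dvd : ∀ k r c, (k.factorial : ℤ) ∣ (X ^ k) r c

/-- `exp(t X)` over an arbitrary commutative ring. -/
def ex (X : Matrix n n ℤ) {A : Type} [CommRing A] (t : A) : Matrix n n A := ∑ k ∈ Finset.range 4, t ^ k • toA A (dvp X k)

end DP

variable {ι M N : Type} [Fintype ι] [DecidableEq ι] [AddCommGroup M] [Module ℚ M] [AddCommGroup N] [Module ℚ N]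
  {P : RootPairing ι ℚ M N}

/-- The index of the root `-β`. -/
abbrev ng (P : RootPairing ι ℚ M N) (β : ι) : ι := P.reflectionPerm β β

variable [P.IsCrystallographic]

/-! ## Weights -/

/-- The weights of the adjoint representation. -/
def wt (b : P.Base) : I b → M := Sum.elim (fun _ => 0) P.root

/-- `X` maps the weight space `V_γ` to `V_(γ + μ)` for all `γ`. -/
def HasWt (b : P.Base) {A : Type} [Zero A] (μ : M) (X : Matrix (I b) (I b) A) : Prop := ∀ r c, X r c ≠ 0 → wt b r = wt b c + μ

/-- `X` maps the weight space `V_γ` to `V_(s γ)` for all `γ`. -/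
def OverW (b : P.Base) {A : Type} [Zero A] (s : M → M) (X : Matrix (I b) (I b) A) : Prop := ∀ r c, X r c ≠ 0 → wt b r = s (wt b c)

/-! ## The integral Geck matrices -/

/-- Geck's `h_i` over `ℤ`. -/
def hZ (b : P.Base) (i : b.support) : Matrix (I b) (I b) ℤ := Matrix.diagonal (Sum.elim (fun _ => 0) fun β => P.pairingIn ℤ β i)

open scoped Classical in
/-- Geck's `e_i` over `ℤ`. -/
def eZ (b : P.Base) (i : b.support) : Matrix (I b) (I b) ℤ :=
  .fromBlocks 0
    (.of fun i' j => if i' = i ∧ j = ng P i then 1 else 0)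
    (.of fun i' j => if i' = i then |b.cartanMatrix i j| else 0)
    (.of fun i' j => if P.root i' = P.root i + P.root j then (P.chainBotCoeff i j + 1 : ℤ) else 0)

open scoped Classical in
/-- Geck's `f_i` over `ℤ`. -/
def fZ (b : P.Base) (i : b.support) : Matrix (I b) (I b) ℤ :=
  .fromBlocks 0
    (.of fun i' j => if i' = i ∧ j = i then 1 else 0)
    (.of fun i' j => if i' = ng P i then |b.cartanMatrix i j| else 0)
    (.of fun i' j => if P.root i' = P.root j - P.root i then (P.chainTopCoeff i j + 1 : ℤ) else 0)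

/-- `n_i = exp(e_i) exp(-f_i) exp(e_i)` over `ℤ`. -/
def nZ (b : P.Base) (i : b.support) : Matrix (I b) (I b) ℤ := ex (eZ b i) (1 : ℤ) * ex (fZ b i) (-1 : ℤ) * ex (eZ b i) (1 : ℤ)

/-- The inverse of `n_i`. -/
def nZ' (b : P.Base) (i : b.support) : Matrix (I b) (I b) ℤ := ex (eZ b i) (-1 : ℤ) * ex (fZ b i) (1 : ℤ) * ex (eZ b i) (-1 : ℤ)

/-- The product of the `n_i` along a word. -/
def nL (b : P.Base) (l : List b.support) : Matrix (I b) (I b) ℤ := (l.map (nZ b)).prod

/-- The inverse of `nL`. -/
def nL' (b : P.Base) (l : List b.support) : Matrix (I b) (I b) ℤ := (l.reverse.map (nZ' b)).prod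

/-- The permutation of the roots given by a word. -/
def wL (b : P.Base) (l : List b.support) : Equiv.Perm ι := (l.map fun i : b.support => P.reflectionPerm i).prod

open scoped Classical in
/-- **The root vector** `E_β`: `e_i` for `β = α_i`, `f_i` for `β = -α_i`, `n_w e_i n_w⁻¹` with a chosen word `w` and `β = w α_i` otherwise. -/
def E (b : P.Base) (β : ι) : Matrix (I b) (I b) ℤ :=
  if h : ∃ i : b.support, (i : ι) = β then eZ b h.choose
  else if h : ∃ i : b.support, ng P i = β then fZ b h.choose
  else if h : ∃ p : List b.support × b.support, wL b p.1 p.2 = β then nL b h.choose.1 * eZ b h.choose.2 * nL' b h.choose.1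
  else 0

/-- The element `x_β(t) = exp(t E_β)` over a commutative ring. -/
def xx (b : P.Base) (β : ι) {A : Type} [CommRing A] (t : A) : Matrix (I b) (I b) A := ex (E b β) t

/-- **The Lie algebra** `g_A = span of the h_i and the E_β` over a commutative ring `A`. -/
def gR (b : P.Base) (A : Type) [CommRing A] : Submodule A (Matrix (I b) (I b) A) :=
  Submodule.span A (Set.range (fun i => toA A (hZ b i)) ∪ Set.range fun β => toA A (E b β))

end

end Pool.Agent.Lib.L1S
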