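import Pool.Agent.Lib.L1S.L10

/-! # L1S, module L1, chunk L115 (M): positivity of the invariant form -/

namespace Pool.Agent.Lib.L1S

open Matrix

noncomputable section

variable {ι M N : Type} [Fintype ι] [DecidableEq ι] [AddCommGroup M] [Module ℚ M] [AddCommGroup N] [Module ℚ N]
  {P : RootPairing ι ℚ M N} [P.IsCrystallographic] {b : P.Base}

/-- `2 B(μ, α) = ⟨μ, α^∨⟩ B(α, α)`. PROOF: `B = P.RootForm` is invariant (`P.rootForm_reflection_reflection_apply`): `B(s_α μ, s_α α) = B(μ, α)`, `s_α α = -α`, `s_α μ = μ - ⟨μ, α^∨⟩ α`. -/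
theorem two_form (i : ι) (μ : M) : 2 * P.RootForm μ (P.root i) = P.coroot' i μ * P.RootForm (P.root i) (P.root i) := by
  have h1 := P.rootForm_reflection_reflection_apply i μ (P.root i)
  rw [P.reflection_apply_self, P.reflection_apply, map_neg, map_sub, map_smul, LinearMap.sub_apply,
    LinearMap.smul_apply, smul_eq_mul] at h1
  linarith

/-- PROOF: `B(μ, μ) = ∑_β ⟨μ, β^∨⟩²` (`P.rootForm_apply_apply`); it is positive unless all `⟨μ, β^∨⟩ = 0`, and then `μ = 0` (the coroots span: `P.IsRootSystem`, perfect pairing). -/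
theorem form_pos [P.IsRootSystem] {μ : M} (h : μ ≠ 0) : 0 < P.RootForm μ μ := by
  refine P.rootForm_pos_of_ne_zero ?_ h
  have h1 : P.rootSpan ℚ = ⊤ := by
    simp
  rw [h1]
  exact Submodule.mem_top

/-- PROOF: `μ = ∑ n_j α_j ≠ 0` (`b.linearIndepOn_root`), `0 < 2 B(μ, μ) = ∑ n_i ⟨μ, α_i^∨⟩ B(α_i, α_i)` (`two_form`) and `B(α_i, α_i) > 0`, so some term is positive. -/
theorem exists_pos [P.IsRootSystem] (n : b.support → ℕ) (hn : n ≠ 0) : ∃ i : b.support, n i ≠ 0 ∧ 0 < P.coroot' i (∑ j, (n j : ℚ) • P.root j) := by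
  by_contra hcon
  push Not at hcon
  set μ : M := ∑ j, (n j : ℚ) • P.root j with hμ
  have hμ0 : μ ≠ 0 := by
    intro h0
    apply hn
    have h1 : LinearIndependent ℚ fun j : b.support => P.root j := b.linearIndepOn_root
    have h2 := Fintype.linearIndependent_iff.1 h1 (fun j => (n j : ℚ)) h0
    funext j
    have h3 : (n j : ℚ) = 0 := h2 j
    exact_mod_cast h3
  have h1 := form_pos (P := P) hμ0
  have h2 : P.RootForm μ μ = ∑ j : b.support, (n j : ℚ) * P.RootForm μ (P.root j) := by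
    conv_lhs => rw [hμ]
    rw [← hμ, map_sum]
    refine Finset.sum_congr rfl fun j _ => ?_
    rw [map_smul, smul_eq_mul]
  have h3 : ∀ j : b.support, (n j : ℚ) * P.RootForm μ (P.root j) ≤ 0 := by
    intro j
    by_cases hj : n j = 0
    · rw [hj, Nat.cast_zero, zero_mul]
    · have h4 := hcon j hj
      have h5 := two_form (P := P) (j : ι) μ
      have h6 : 0 < P.RootForm (P.root j) (P.root j) := form_pos (P.ne_zero j)
      have h7 : P.RootForm μ (P.root j) ≤ 0 := by nlinarith
      exact mul_nonpos_of_nonneg_of_nonpos (Nat.cast_nonneg _) h7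
  have h4 : P.RootForm μ μ ≤ 0 := by
    rw [h2]
    exact Finset.sum_nonpos fun j _ => h3 j
  exact absurd h1 (not_lt.2 h4)

end

end Pool.Agent.Lib.L1S
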