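import Pool.Agent.Lib.L1S.QX3
import Pool.Agent.Lib.L1S.L115

/-!
# L1S, QX4: the orbits of simple roots: pairwise orthogonal, or every root has exactly one neighbour in its orbit
-/

namespace Pool.Agent.Lib.L1S

open MeasureTheory Matrix NumberField IsDedekindDomain Pool.Agent.Lib.H89N Pool.Agent.Lib.H33W

noncomputable section

set_option linter.unusedSectionVars false

variable {ι M N : Type} [Fintype ι] [DecidableEq ι] [AddCommGroup M] [Module ℚ M] [AddCommGroup N] [Module ℚ N]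
  {P : RootPairing ι ℚ M N} [P.IsCrystallographic] [P.IsReduced] [P.IsIrreducible] [P.IsRootSystem]

variable {b : P.Base} {K L : Type} [Field K] [NumberField K] [Field L] [NumberField L] [Algebra K L] (Q : QS b K L)

/-- The roots of an orbit have the same length. -/
theorem qx_len (s : L ≃ₐ[K] L) (j : b.support) : P.RootForm (P.root ((Q.da s).sp j)) (P.root ((Q.da s).sp j)) = P.RootForm (P.root j) (P.root j) := by
  rw [P.rootForm_root_self, P.rootForm_root_self]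
  refine (Fintype.sum_equiv (Q.act s) (fun i => P.pairing j i * P.pairing j i) (fun i => P.pairing ((Q.da s).sp j) i * P.pairing ((Q.da s).sp j) i) fun i => ?_).symm
  have h : P.pairing ((Q.da s).sp j : b.support) (Q.act s i) = P.pairing j i := (Q.da s).pairing j i
  rw [h]

theorem qx_len_So {i j k : b.support} (hj : j ∈ So Q i) (hk : k ∈ So Q i) : P.RootForm (P.root j) (P.root j) = P.RootForm (P.root k) (P.root k) := by
  obtain ⟨s, rfl⟩ := mem_So.1 hj
  obtain ⟨t, rfl⟩ := mem_So.1 hk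
  rw [qx_len, qx_len]

theorem qx_pair_sp (s : L ≃ₐ[K] L) (j k : b.support) : P.pairingIn ℤ ((Q.da s).sp j : b.support) ((Q.da s).sp k : b.support) = P.pairingIn ℤ (j : ι) (k : ι) := (Q.da s).pair j k

theorem qx_pair (β γ : ι) : ((P.pairingIn ℤ β γ : ℤ) : ℚ) = P.coroot' γ (P.root β) := by
  rw [P.root_coroot'_eq_pairing, ← P.algebraMap_pairingIn ℤ]
  rfl

/-- The Cartan integers of an orbit are symmetric. -/
theorem qx_sym {i j k : b.support} (hj : j ∈ So Q i) (hk : k ∈ So Q i) : P.pairingIn ℤ (j : ι) (k : ι) = P.pairingIn ℤ (k : ι) (j : ι) := by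
  have h1 := two_form (P := P) (k : ι) (P.root j)
  have h2 := two_form (P := P) (j : ι) (P.root k)
  have h3 : P.RootForm (P.root j) (P.root k) = P.RootForm (P.root k) (P.root j) := by
    rw [P.rootForm_apply_apply, P.rootForm_apply_apply]
    exact Finset.sum_congr rfl fun i _ => mul_comm _ _
  have h4 : 0 < P.RootForm (P.root k) (P.root k) := form_pos (P.ne_zero k)
  rw [h3, h2, qx_len_So Q hj hk, ← qx_pair, ← qx_pair] at h1
  have h5 := mul_right_cancel₀ h4.ne' h1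
  exact_mod_cast h5.symm

/-- `∑_(j in the orbit) ⟨α_j, α_k^∨⟩` is the same for all `k` in the orbit. -/
theorem qx_p_const {i k : b.support} (hk : k ∈ So Q i) : ∑ j ∈ So Q i, P.pairingIn ℤ (j : ι) (k : ι) = ∑ j ∈ So Q i, P.pairingIn ℤ (j : ι) (i : ι) := by
  obtain ⟨s, rfl⟩ := mem_So.1 hk
  rw [← So_sum Q i s]
  exact Finset.sum_congr rfl fun j _ => qx_pair_sp Q s j i

/-- It is positive. -/
theorem qx_pos (i : b.support) : 0 < ∑ j ∈ So Q i, P.pairingIn ℤ (j : ι) (i : ι) := by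
  set p := ∑ j ∈ So Q i, P.pairingIn ℤ (j : ι) (i : ι) with hp
  set x : M := ∑ j ∈ So Q i, P.root j with hx
  have hx0 : x ≠ 0 := by
    intro h0
    have h1 : ∑ l, b.toWeightBasis.repr x l = ((So Q i).card : ℚ) := by
      rw [hx]
      simp only [map_sum, Finsupp.finsetSum_apply]
      rw [Finset.sum_comm]
      have h2 : ∀ j ∈ So Q i, ∑ l, b.toWeightBasis.repr (P.root j) l = 1 := by
        intro j _
        have h3 := b1_height b (j : ι)
        rw [RootPairing.Base.height_one_of_mem_support j.2] at h3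
        exact_mod_cast h3.symm
      rw [Finset.sum_congr rfl h2]
      simp
    rw [h0, map_zero] at h1
    simp only [Finsupp.coe_zero, Pi.zero_apply, Finset.sum_const_zero] at h1
    have h2 : (So Q i).card ≠ 0 := Finset.card_ne_zero_of_mem (So_self Q i)
    exact h2 (by exact_mod_cast h1.symm)
  have h1 : 0 < P.RootForm x x := form_pos hx0
  have h2 : 2 * P.RootForm x x = ∑ k ∈ So Q i, ((p : ℤ) : ℚ) * P.RootForm (P.root i) (P.root i) := by
    have e1 : P.RootForm x x = ∑ k ∈ So Q i, P.RootForm x (P.root k) := by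
      conv_lhs => rw [hx, ← hx, map_sum]
    rw [e1, Finset.mul_sum]
    refine Finset.sum_congr rfl fun k hk => ?_
    rw [two_form, qx_len_So Q hk (So_self Q i)]
    congr 1
    rw [hx, map_sum, hp, ← qx_p_const Q hk]
    push_cast
    exact Finset.sum_congr rfl fun j _ => (qx_pair _ _).symm
  rw [Finset.sum_const, nsmul_eq_mul] at h2
  have h3 : 0 < P.RootForm (P.root i) (P.root i) := form_pos (P.ne_zero i)
  by_contra hneg
  have h4 : ((p : ℤ) : ℚ) ≤ 0 := by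
    have : p ≤ 0 := not_lt.1 hneg
    exact_mod_cast this
  have h5 : (((So Q i).card : ℕ) : ℚ) * (((p : ℤ) : ℚ) * P.RootForm (P.root i) (P.root i)) ≤ 0 :=
    mul_nonpos_of_nonneg_of_nonpos (Nat.cast_nonneg _) (mul_nonpos_of_nonpos_of_nonneg h4 h3.le)
  linarith

theorem qx_nonpos {j k : b.support} (h : j ≠ k) : P.pairingIn ℤ (j : ι) (k : ι) ≤ 0 := b.pairingIn_le_zero_of_ne (fun h' => h (Subtype.ext h')) j.2 k.2

/-- `⟨α_k, α_k^∨⟩ + ∑_(j ≠ k)`. -/
theorem qx_split {i k : b.support} (hk : k ∈ So Q i) : ∑ j ∈ So Q i, P.pairingIn ℤ (j : ι) (k : ι) = 2 + ∑ j ∈ (So Q i).erase k, P.pairingIn ℤ (j : ι) (k : ι) := by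
  rw [← Finset.add_sum_erase _ _ hk]
  congr 1
  simp

theorem qx_rest (i : b.support) {k : b.support} (hk : k ∈ So Q i) : -1 ≤ ∑ j ∈ (So Q i).erase k, P.pairingIn ℤ (j : ι) (k : ι) ∧ ∑ j ∈ (So Q i).erase k, P.pairingIn ℤ (j : ι) (k : ι) ≤ 0 := by
  have h1 := qx_pos Q i
  rw [← qx_p_const Q hk, qx_split Q hk] at h1
  exact ⟨by omega, Finset.sum_nonpos fun j hj => qx_nonpos (Finset.ne_of_mem_erase hj)⟩

/-- Case A: all pairings are zero. -/
theorem qx_caseA {i : b.support} (h : ∑ j ∈ So Q i, P.pairingIn ℤ (j : ι) (i : ι) = 2) {j k : b.support} (hj : j ∈ So Q i) (hk : k ∈ So Q i) (hjk : j ≠ k) : P.pairingIn ℤ (j : ι) (k : ι) = 0 := by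
  rw [← qx_p_const Q hk, qx_split Q hk] at h
  have h1 : ∑ j ∈ (So Q i).erase k, P.pairingIn ℤ (j : ι) (k : ι) = 0 := by omega
  exact (Finset.sum_eq_zero_iff_of_nonpos fun j hj => qx_nonpos (Finset.ne_of_mem_erase hj)).1 h1 j (Finset.mem_erase.2 ⟨hjk, hj⟩)

/-- Case B: exactly one neighbour. -/
theorem qx_caseB {i : b.support} (h : ∑ j ∈ So Q i, P.pairingIn ℤ (j : ι) (i : ι) ≠ 2) {k : b.support} (hk : k ∈ So Q i) :
    ∃ j ∈ So Q i, j ≠ k ∧ P.pairingIn ℤ (j : ι) (k : ι) = -1 ∧ ∀ l ∈ So Q i, l ≠ k → l ≠ j → P.pairingIn ℤ (l : ι) (k : ι) = 0 := by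
  obtain ⟨h1, h2⟩ := qx_rest Q i hk
  rw [← qx_p_const Q hk, qx_split Q hk] at h
  have h3 : ∑ j ∈ (So Q i).erase k, P.pairingIn ℤ (j : ι) (k : ι) = -1 := by omega
  have h4 : ∃ j ∈ (So Q i).erase k, P.pairingIn ℤ (j : ι) (k : ι) ≠ 0 := by
    by_contra hcon
    push Not at hcon
    rw [Finset.sum_eq_zero hcon] at h3
    omega
  obtain ⟨j, hj, hj0⟩ := h4
  obtain ⟨hjk, hjS⟩ := Finset.mem_erase.1 hj
  have h5 := qx_nonpos hjk
  rw [← Finset.add_sum_erase _ _ hj] at h3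
  have h6 : ∑ l ∈ ((So Q i).erase k).erase j, P.pairingIn ℤ (l : ι) (k : ι) ≤ 0 := Finset.sum_nonpos fun l hl => qx_nonpos (Finset.ne_of_mem_erase (Finset.mem_of_mem_erase hl))
  have h7 : P.pairingIn ℤ (j : ι) (k : ι) = -1 := by omega
  refine ⟨j, hjS, hjk, h7, fun l hl hlk hlj => ?_⟩
  have h8 : ∑ l ∈ ((So Q i).erase k).erase j, P.pairingIn ℤ (l : ι) (k : ι) = 0 := by omega
  exact (Finset.sum_eq_zero_iff_of_nonpos fun l hl => qx_nonpos (Finset.ne_of_mem_erase (Finset.mem_of_mem_erase hl))).1 h8 l (Finset.mem_erase.2 ⟨hlj, Finset.mem_erase.2 ⟨hlk, hl⟩⟩)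

/-- The neighbour in the orbit. -/
structure Nb (i : b.support) (nb : b.support → b.support) : Prop where
  mem : ∀ k ∈ So Q i, nb k ∈ So Q i
  ne : ∀ k ∈ So Q i, nb k ≠ k
  pair : ∀ k ∈ So Q i, P.pairingIn ℤ (nb k : ι) (k : ι) = -1
  zero : ∀ k ∈ So Q i, ∀ l ∈ So Q i, l ≠ k → l ≠ nb k → P.pairingIn ℤ (l : ι) (k : ι) = 0

theorem exists_nb {i : b.support} (h : ∑ j ∈ So Q i, P.pairingIn ℤ (j : ι) (i : ι) ≠ 2) : ∃ nb, Nb Q i nb := by
  have key : ∀ k : b.support, ∃ j : b.support, k ∈ So Q i → (j ∈ So Q i ∧ j ≠ k ∧ P.pairingIn ℤ (j : ι) (k : ι) = -1 ∧ ∀ l ∈ So Q i, l ≠ k → l ≠ j → P.pairingIn ℤ (l : ι) (k : ι) = 0) := by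
    intro k
    by_cases hk : k ∈ So Q i
    · obtain ⟨j, h1, h2, h3, h4⟩ := qx_caseB Q h hk
      exact ⟨j, fun _ => ⟨h1, h2, h3, h4⟩⟩
    · exact ⟨k, fun h => absurd h hk⟩
  choose nb hnb using key
  exact ⟨nb, fun k hk => (hnb k hk).1, fun k hk => (hnb k hk).2.1, fun k hk => (hnb k hk).2.2.1, fun k hk => (hnb k hk).2.2.2⟩

variable {Q}

namespace Nb

variable {i : b.support} {nb : b.support → b.support} (H : Nb Q i nb)

include H

/-- Uniqueness. -/
theorem uniq {k l : b.support} (hk : k ∈ So Q i) (hl : l ∈ So Q i) (h1 : l ≠ k) (h2 : P.pairingIn ℤ (l : ι) (k : ι) ≠ 0) : l = nb k := by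
  by_contra h
  exact h2 (H.zero k hk l hl h1 h)

theorem nbnb {k : b.support} (hk : k ∈ So Q i) : nb (nb k) = k := by
  refine (H.uniq (H.mem k hk) hk (H.ne k hk).symm ?_).symm
  rw [qx_sym Q hk (H.mem k hk), H.pair k hk]
  norm_num

theorem nb_sp (s : L ≃ₐ[K] L) {k : b.support} (hk : k ∈ So Q i) : nb ((Q.da s).sp k) = (Q.da s).sp (nb k) := by
  refine (H.uniq ((So_sp s).2 hk) ((So_sp s).2 (H.mem k hk)) (fun h => H.ne k hk ((Q.da s).sp.injective h)) ?_).symm
  rw [qx_pair_sp, H.pair k hk]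
  norm_num

/-- `∑_(l in the orbit) ⟨α_j, α_l^∨⟩ = 1`. -/
theorem sum_one {j : b.support} (hj : j ∈ So Q i) : ∑ l ∈ So Q i, P.pairingIn ℤ (j : ι) (l : ι) = 1 := by
  have h0 : ∑ l ∈ So Q i, P.pairingIn ℤ (j : ι) (l : ι) = ∑ l ∈ So Q i, P.pairingIn ℤ (l : ι) (j : ι) := Finset.sum_congr rfl fun l hl => qx_sym Q hj hl
  rw [h0, qx_split Q hj, ← Finset.add_sum_erase _ _ (Finset.mem_erase.2 ⟨H.ne j hj, H.mem j hj⟩), H.pair j hj]
  rw [Finset.sum_eq_zero fun l hl => ?_]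
  · norm_num
  · exact H.zero j hj l (Finset.mem_of_mem_erase (Finset.mem_of_mem_erase hl)) (Finset.ne_of_mem_erase (Finset.mem_of_mem_erase hl)) (Finset.ne_of_mem_erase hl)

end Nb

end

end Pool.Agent.Lib.L1S
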