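import Pool.Agent.Lib.L1S.QB1

/-!
# L1S, V1, module B_H, file QB2 (helper43): the dichotomy for a single element of `H(K)`
-/

namespace Pool.Agent.Lib.L1S

set_option linter.unusedSectionVars false

open Matrix NumberField IsDedekindDomain Pool.Agent.Lib.H89N Pool.Agent.Lib.H33W

noncomputable section

variable {ι M N : Type} [Fintype ι] [DecidableEq ι] [AddCommGroup M] [Module ℚ M] [AddCommGroup N] [Module ℚ N]
  {P : RootPairing ι ℚ M N} [P.IsCrystallographic] [P.IsReduced] [P.IsIrreducible] [P.IsRootSystem] {b : P.Base}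

section

variable {L : Type} [Field L] [NumberField L]

theorem qb2_inv_raise {u : GK b L} (hu : u ∈ HU b L) : RaiseBy (ht b) 1 (u⁻¹.1.1 - 1) := b3_raise (inv_mem hu)

theorem qb2_r0 {u : GK b L} (hu : u ∈ HU b L) : RaiseBy (ht b) 0 u.1.1 := by
  have h : u.1.1 = (u.1.1 - 1) + 1 := by rw [sub_add_cancel]
  rw [h]
  refine b3_add (b3_mono (by norm_num) (b3_raise hu)) ?_
  intro r c hrc
  exact Matrix.one_apply_ne (by rintro rfl; lia)

/-- Conjugation by `u ∈ U(L)`. -/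
theorem qb2_conj_raise {u : GK b L} (hu : u ∈ HU b L) {k : ℤ} {X : Matrix (I b) (I b) L} (hX : RaiseBy (ht b) k X) : RaiseBy (ht b) k (u.1.1 * X * u⁻¹.1.1) := by
  have h := b3_mul (b3_mul (qb2_r0 hu) hX) (qb2_r0 (inv_mem hu))
  exact b3_mono (by lia) h

theorem qb2_conj_gR (u : GK b L) {X : Matrix (I b) (I b) L} (hX : X ∈ gR b L) : u.1.1 * X * u⁻¹.1.1 ∈ gR b L := by
  have h := gR_GQ b (RingHom.id L) u.2 hX
  have e : ∀ Z : Matrix (I b) (I b) L, Z.map (RingHom.id L) = Z := fun Z => by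
    ext r c
    rfl
  rw [e, e] at h
  exact h

theorem qb2_c_conj {u : GK b L} (hu : u ∈ HU b L) {X : Matrix (I b) (I b) L} (hX : RaiseBy (ht b) 1 X) (i : b.support) : qb1_c b i (u.1.1 * X * u⁻¹.1.1) = qb1_c b i X := by
  have e : u.1.1 * X * u⁻¹.1.1 = (u.1.1 - 1) * X * u⁻¹.1.1 + X * (u⁻¹.1.1 - 1) + X := by noncomm_ring
  have h1 := b3_mul (b3_mul (b3_raise hu) hX) (qb2_r0 (inv_mem hu)) (Sum.inl i) (Sum.inr (P.reflectionPerm i i)) (by rw [b3_hneg]; simp [ht])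
  have h2 := b3_mul hX (qb2_inv_raise hu) (Sum.inl i) (Sum.inr (P.reflectionPerm i i)) (by rw [b3_hneg]; simp [ht])
  unfold qb1_c
  rw [e, Matrix.add_apply, Matrix.add_apply, h1, h2, zero_add, zero_add]

theorem qb2_c_exp {X : Matrix (I b) (I b) L} (hX : RaiseBy (ht b) 1 X) (i : b.support) : qb1_c b i (IsNilpotent.exp X) = qb1_c b i X := by
  have h := b3_exp hX (Sum.inl i) (Sum.inr (P.reflectionPerm i i)) (by rw [b3_hneg]; simp [ht])
  rw [Matrix.sub_apply, Matrix.sub_apply, Matrix.one_apply_ne (by simp), sub_zero, sub_eq_zero] at h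
  exact h

theorem qb2_c_two {β : ι} (hβ : 2 ≤ b.height β) (z : L) (i : b.support) : qb1_c b i (z • toA L (E b β)) = 0 :=
  b3_smul z (b3_E L β) (Sum.inl i) (Sum.inr (P.reflectionPerm i i)) (by rw [b3_hneg]; simp [ht]; lia)

theorem qb2_c_simple (i j : b.support) (z : L) : qb1_c b j (z • toA L (E b (i : ι))) = if j = i then z else 0 := by
  have h := b3_co_simple (K := L) (b := b) i j z
  have hi : b.height (i : ι) = 1 := RootPairing.Base.height_one_of_mem_support i.2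
  have h0 : RaiseBy (ht b) 1 (z • toA L (E b (i : ι))) := b3_smul z (hi ▸ b3_E L (i : ι))
  have e : b3_co b j (b3_x b i z) = qb1_c b j (IsNilpotent.exp (z • toA L (E b (i : ι)))) := by
    rw [← b3_x_val]
    rfl
  rw [e, qb2_c_exp h0] at h
  exact h

end

variable {K L : Type} [Field K] [NumberField K] [Field L] [NumberField L] [Algebra K L]

/-- Elements of `U(K)`. -/
theorem qb2_mem_HUH (H : Subgroup (GK b L)) (g : H) : g ∈ HUH H ↔ g.1 ∈ HU b L := Iff.rfl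

theorem qb2_psi (H : Subgroup (GK b L)) (θ : b.support → (EE L →ₗ[ℝ] ℝ)) (v : HUH H) : psiH H θ (kUH H v) = ee (∑ i, θ i (mixedEmbedding L (qb1_c b i v.1.1.1.1))) := rfl

/-- The exponential of a fixed element of the Lie algebra which raises the height, as an element of `U_H(K)`. -/
theorem qb2_exists (Q : QS b K L) {Y : Matrix (I b) (I b) L} (hY : Y ∈ gR b L) (hr : RaiseBy (ht b) 1 Y) (hf : Fx Q Y) : ∃ v : HUH (HQ Q), v.1.1.1.1 = IsNilpotent.exp Y := by
  obtain ⟨g, hg⟩ := qb0_exists hY hr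
  have hnil := b3_nil hr
  have h1 : UT b g.1.1 := by
    intro r c hrc
    have h := b3_exp' le_rfl hr r c (by lia)
    rw [Matrix.sub_apply, sub_eq_zero] at h
    rw [hg]
    exact h
  have h2 : Fx Q g.1.1 := by
    rw [Fx_iff] at hf ⊢
    intro s
    rw [hg, IsNilpotent.map_exp hnil (qtau Q s), hf s]
  have h3 : g ∈ HQ Q := Subgroup.subset_closure ⟨h2, Or.inl h1⟩
  have h4 : g ∈ HU b L := by
    rw [mem_HU_iff]
    intro r c hrc
    exact h1 r c (by lia)
  exact ⟨⟨⟨g, h3⟩, h4⟩, hg⟩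

/-- The alternative. -/
theorem qb2_alt (Q : QS b K L) {θ : b.support → (EE L →ₗ[ℝ] ℝ)} {g : HQ Q} {u n u' : GK b L} (hu : u ∈ HU b L) (hu' : u' ∈ HU b L) (hg : g.1 = u * n * u')
    {X X' : Matrix (I b) (I b) L} (hX : X ∈ gR b L) (hX' : X' ∈ gR b L) (hr : RaiseBy (ht b) 1 X) (hr' : RaiseBy (ht b) 1 X') (hn : n.1.1 * X = X' * n.1.1)
    (hne : ee (∑ i, Thq Q θ i (qb1_c b i X')) ≠ ee (∑ i, Thq Q θ i (qb1_c b i X))) : AltH (HQ Q) θ g := by
  set X1 : Matrix (I b) (I b) L := u'⁻¹.1.1 * X * u'.1.1 with hX1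
  set X2 : Matrix (I b) (I b) L := u.1.1 * X' * u⁻¹.1.1 with hX2
  have hinv : ∀ x : GK b L, x⁻¹.1.1 * x.1.1 = 1 ∧ x.1.1 * x⁻¹.1.1 = 1 := fun x => ⟨x.1.inv_mul, x.1.mul_inv⟩
  have g1 : X1 ∈ gR b L := by
    have h := qb2_conj_gR u'⁻¹ hX
    rw [inv_inv] at h
    exact h
  have g2 : X2 ∈ gR b L := qb2_conj_gR u hX'
  have r1 : RaiseBy (ht b) 1 X1 := by
    have h := qb2_conj_raise (inv_mem hu') hr
    rw [inv_inv] at h
    exact h
  have r2 : RaiseBy (ht b) 1 X2 := qb2_conj_raise hu hr'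
  have c1 : ∀ i, qb1_c b i X1 = qb1_c b i X := by
    intro i
    have h := qb2_c_conj (inv_mem hu') hr i
    rw [inv_inv] at h
    exact h
  have c2 : ∀ i, qb1_c b i X2 = qb1_c b i X' := fun i => qb2_c_conj hu hr' i
  have hgv : g.1.1.1 = u.1.1 * n.1.1 * u'.1.1 := by
    rw [hg]
    rfl
  have hcom : g.1.1.1 * X1 = X2 * g.1.1.1 := by
    rw [hgv, hX1, hX2]
    calc u.1.1 * n.1.1 * u'.1.1 * (u'⁻¹.1.1 * X * u'.1.1) = u.1.1 * n.1.1 * (u'.1.1 * u'⁻¹.1.1) * X * u'.1.1 := by simp only [Matrix.mul_assoc]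
      _ = u.1.1 * (n.1.1 * X) * u'.1.1 := by rw [(hinv u').2, mul_one, Matrix.mul_assoc u.1.1]
      _ = u.1.1 * X' * (u⁻¹.1.1 * u.1.1) * n.1.1 * u'.1.1 := by rw [hn, (hinv u).1, mul_one]; simp only [Matrix.mul_assoc]
      _ = u.1.1 * X' * u⁻¹.1.1 * (u.1.1 * n.1.1 * u'.1.1) := by simp only [Matrix.mul_assoc]
  set Y : Matrix (I b) (I b) L := ∑ t : L ≃ₐ[K] L, qtau Q t X1 with hY
  set Y' : Matrix (I b) (I b) L := ∑ t : L ≃ₐ[K] L, qtau Q t X2 with hY'
  have gY : Y ∈ gR b L := Submodule.sum_mem _ fun t _ => qb1_gR Q t g1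
  have gY' : Y' ∈ gR b L := Submodule.sum_mem _ fun t _ => qb1_gR Q t g2
  have rY : RaiseBy (ht b) 1 Y := b3_sum _ _ fun t _ => qb1_raise Q t r1
  have rY' : RaiseBy (ht b) 1 Y' := b3_sum _ _ fun t _ => qb1_raise Q t r2
  obtain ⟨v, hv⟩ := qb2_exists Q gY rY (qb1_sum Q X1)
  obtain ⟨v', hv'⟩ := qb2_exists Q gY' rY' (qb1_sum Q X2)
  have hgf := (Fx_iff Q _).1 (HQ_fx Q g.2).1
  have hgY : g.1.1.1 * Y = Y' * g.1.1.1 := by
    rw [hY, hY', Finset.mul_sum, Finset.sum_mul]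
    refine Finset.sum_congr rfl fun t _ => ?_
    have h1 := congrArg (qtau Q t) hcom
    rw [(qtau Q t).map_mul g.1.1.1 X1, (qtau Q t).map_mul X2 g.1.1.1, hgf t] at h1
    exact h1
  refine ⟨v, v', ?_, ?_⟩
  · apply Subtype.ext
    apply Subtype.ext
    apply Units.ext
    change g.1.1.1 * v.1.1.1.1 = v'.1.1.1.1 * g.1.1.1
    rw [hv, hv']
    exact qb0_comm (b3_nil rY) (b3_nil rY') hgY
  · rw [qb2_psi, qb2_psi, hv, hv']
    have e1 : ∀ i, qb1_c b i (IsNilpotent.exp Y) = qb1_c b i Y := qb2_c_exp rY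
    have e2 : ∀ i, qb1_c b i (IsNilpotent.exp Y') = qb1_c b i Y' := qb2_c_exp rY'
    simp only [e1, e2]
    rw [hY, hY', qb1_exp, qb1_exp]
    simp only [c1, c2]
    exact hne

/-- **The dichotomy** for `g ∈ H(K)`, `g = u n u'` (Bruhat decomposition in `G(L)`). -/
theorem qb2_dich (Q : QS b K L) {θ : b.support → (EE L →ₗ[ℝ] ℝ)} (hθ : ∀ i, ∃ z : L, Thq Q θ i z ≠ 0) {g : HQ Q} {u n u' : GK b L} {w : Equiv.Perm ι} (hu : u ∈ HU b L) (hu' : u' ∈ HU b L) (hn : IsN b L w n)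
    (hg : g.1 = u * n * u') :
    (∃ z : L, ∃ u ∈ HU b L, g.1.1.1 = z • u.1.1) ∨ AltH (HQ Q) θ g ∨ ∃ i j w, w ∈ WP P ∧ OppW b i j w ∧ Dm b i w g.1.1.1 ≠ 0 := by
  rcases b2_comb b hn.mem with h1 | ⟨i, hi, hp, hs⟩ | ⟨i, j, hij⟩
  · subst h1
    by_cases hc : ∀ i : b.support, n.1.1 * toA L (E b (i : ι)) = toA L (E b (i : ι)) * n.1.1
    · left
      obtain ⟨z, hz⟩ := b3_scalar hn hc
      refine ⟨z, u * u', mul_mem hu hu', ?_⟩
      have e : g.1.1.1 = u.1.1 * n.1.1 * u'.1.1 := by rw [hg]; rfl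
      have e' : (u * u').1.1 = u.1.1 * u'.1.1 := rfl
      rw [e, hz, e', Matrix.mul_smul, Matrix.smul_mul, mul_one]
    · right
      left
      push Not at hc
      obtain ⟨i, hi⟩ := hc
      obtain ⟨c, hc0, h1, -⟩ := b3_conj hn (i : ι)
      have hw1 : (1 : Equiv.Perm ι) (i : ι) = i := rfl
      rw [hw1] at h1
      have hc1 : c ≠ 1 := by
        rintro rfl
        rw [one_smul] at h1
        exact hi h1
      obtain ⟨z0, hz0⟩ := hθ i
      obtain ⟨s0, hs0⟩ := Thq_ex Q θ i hz0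
      have hi1 : b.height (i : ι) = 1 := RootPairing.Base.height_one_of_mem_support i.2
      have hr : ∀ z : L, RaiseBy (ht b) 1 (z • toA L (E b (i : ι))) := fun z => b3_smul z (hi1 ▸ b3_E L (i : ι))
      refine qb2_alt Q hu hu' hg (X := (s0 / (c - 1)) • toA L (E b (i : ι))) (X' := (c * (s0 / (c - 1))) • toA L (E b (i : ι))) (Submodule.smul_mem _ _ (l124_E b _)) (Submodule.smul_mem _ _ (l124_E b _)) (hr _) (hr _) ?_ ?_
      · rw [Matrix.mul_smul, h1, Matrix.smul_mul, Matrix.smul_mul, smul_smul, mul_comm c]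
      · simp only [qb2_c_simple, qb1_single]
        intro heq
        have e : c * (s0 / (c - 1)) = s0 / (c - 1) + s0 := by
          have : c - 1 ≠ 0 := sub_ne_zero.2 hc1
          field_simp
          ring
        rw [e, Thq_add, ee_add] at heq
        have h3 : ee (Thq Q θ i (s0 / (c - 1))) ≠ 0 := by
          intro h
          have := ee_norm (Thq Q θ i (s0 / (c - 1)))
          rw [h, norm_zero] at this
          exact absurd this (by norm_num)
        exact hs0 (mul_left_cancel₀ h3 (by rw [heq, mul_one]))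
  · right
    left
    obtain ⟨c, hc0, h1, -⟩ := b3_conj hn i
    obtain ⟨z0, hz0⟩ := hθ ⟨i, hi⟩
    obtain ⟨s0, hs0⟩ := Thq_ex Q θ ⟨i, hi⟩ hz0
    have hi1 : b.height i = 1 := RootPairing.Base.height_one_of_mem_support hi
    have hr : RaiseBy (ht b) 1 (s0 • toA L (E b i)) := b3_smul s0 (hi1 ▸ b3_E L i)
    have h2 : 2 ≤ b.height (w i) := b3_height hp hs
    have hr' : RaiseBy (ht b) 1 ((c * s0) • toA L (E b (w i))) := b3_smul _ (b3_mono (by lia) (b3_E L (w i)))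
    refine qb2_alt Q hu hu' hg (X := s0 • toA L (E b i)) (X' := (c * s0) • toA L (E b (w i))) (Submodule.smul_mem _ _ (l124_E b _)) (Submodule.smul_mem _ _ (l124_E b _)) hr hr' ?_ ?_
    · rw [Matrix.mul_smul, h1, Matrix.smul_mul, Matrix.smul_mul, smul_smul, mul_comm c]
    · have e2 : ∀ j, qb1_c b j ((c * s0) • toA L (E b (w i))) = 0 := fun j => qb2_c_two h2 _ j
      have e3 : ∀ j, qb1_c b j (s0 • toA L (E b i)) = if j = ⟨i, hi⟩ then s0 else 0 := fun j => qb2_c_simple ⟨i, hi⟩ j s0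
      simp only [e2, e3, qb1_single, Thq_zero, Finset.sum_const_zero, ee_zero]
      exact hs0.symm
  · right
    right
    refine ⟨i, j, w, hn.mem, hij, ?_⟩
    have e : g.1.1.1 = u.1.1 * n.1.1 * u'.1.1 := by rw [hg]; rfl
    rw [e, dm_uni (j := j) hij (uni_HU b hu) (uni_HU b hu')]
    refine dm_mono_ne (fun β _ r hr => ?_) fun β _ => ?_
    · by_contra hne
      exact hr (hn.vr _ _ hne)
    · intro h0
      have h1 : n.1⁻¹.1 * n.1.1 = 1 := by rw [← Units.val_mul, inv_mul_cancel, Units.val_one]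
      have h2 := congrFun (congrFun h1 (Sum.inr β)) (Sum.inr β)
      rw [Matrix.mul_apply, Matrix.one_apply_eq, Finset.sum_eq_zero] at h2
      · exact absurd h2 zero_ne_one
      · intro m _
        by_cases hm : m = Sum.inr (w β)
        · rw [hm, h0, mul_zero]
        · have : n.1.1 m (Sum.inr β) = 0 := by
            by_contra hne
            exact hm (hn.vr _ _ hne)
          rw [this, mul_zero]

end

end Pool.Agent.Lib.L1S
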