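import Pool.Agent.Lib.L1S.D4
import Pool.Agent.Lib.L1S.L10
import Pool.Agent.Lib.L1S.Stm2

/-!
# L1S, D5: integer coefficients of the weights, the highest root, determinants with powers (version 2 of the size condition)
-/

namespace Pool.Agent.Lib.L1S

open MeasureTheory Matrix NumberField IsDedekindDomain Pool.Agent.Lib.H89N Pool.Agent.Lib.H33W

noncomputable section

set_option linter.unusedSectionVars false

variable {ι M N : Type} [Fintype ι] [DecidableEq ι] [AddCommGroup M] [Module ℚ M] [AddCommGroup N] [Module ℚ N]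
  {P : RootPairing ι ℚ M N} [P.IsCrystallographic] [P.IsRootSystem]

theorem d5_mc (b : P.Base) (l : b.support) (r : I b) : ((mc b l r : ℤ) : ℚ) = wq b r l := by
  rcases r with i | β
  · simp [mc, wq]
  · have h1 : P.root β = ∑ k, b.toWeightBasisInt.repr (P.rootSpanMem ℤ β) k • P.root k := by
      have h2 := congrArg (Submodule.subtype (P.rootSpan ℤ)) (b.toWeightBasisInt.sum_repr (P.rootSpanMem ℤ β))
      rw [map_sum] at h2
      refine h2.symm.trans (Finset.sum_congr rfl fun k _ => ?_)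
      rw [map_smul]
      congr 1
      exact b.coe_toWeightBasisInt_apply k
    change ((b.toWeightBasisInt.repr (P.rootSpanMem ℤ β) l : ℤ) : ℚ) = b.toWeightBasis.repr (P.root β) l
    rw [h1, map_sum, Finsupp.finsetSum_apply, Finset.sum_eq_single l]
    · rw [← Int.cast_smul_eq_zsmul ℚ, map_smul, Finsupp.smul_apply, b.toWeightBasis_repr_root, Finsupp.single_eq_same, smul_eq_mul, mul_one]
    · intro k _ hk
      rw [← Int.cast_smul_eq_zsmul ℚ, map_smul, Finsupp.smul_apply, b.toWeightBasis_repr_root, Finsupp.single_eq_of_ne hk.symm, smul_zero]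
    · intro h
      exact absurd (Finset.mem_univ l) h

theorem d5_mc_nonneg [P.IsReduced] {b : P.Base} (l : b.support) {β : ι} (h : 0 < b.height β) : 0 ≤ mc b l (Sum.inr β) := by
  have h1 : (0 : ℚ) ≤ ((mc b l (Sum.inr β) : ℤ) : ℚ) := by
    rw [d5_mc]
    exact b2_nonneg b h l
  exact_mod_cast h1

theorem d5_phi {b : P.Base} {i : b.support} {β : ι} : β ∈ Phi b i ↔ 0 < mc b i (Sum.inr β) := by
  rw [d1_mem_phi, ← d5_mc]
  exact Int.cast_pos

theorem d5_root (b : P.Base) (β : ι) : P.root β = ∑ k : b.support, ((mc b k (Sum.inr β) : ℤ) : ℚ) • P.root k := by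
  refine (b.toWeightBasis.sum_repr (P.root β)).symm.trans (Finset.sum_congr rfl fun k _ => ?_)
  rw [d5_mc]
  unfold wq
  simp only [Sum.elim_inr]
  congr 1
  simp

/-- `⟨β, α_j^∨⟩ = ∑ m_k(β) ⟨α_k, α_j^∨⟩`. -/
theorem d5_pairing (b : P.Base) (β : ι) (j : b.support) : P.pairingIn ℤ β j = ∑ k : b.support, mc b k (Sum.inr β) * b.cartanMatrix k j := by
  have h1 : ((P.pairingIn ℤ β j : ℤ) : ℚ) = ((∑ k : b.support, mc b k (Sum.inr β) * b.cartanMatrix k j : ℤ) : ℚ) := by
    have h2 : ((P.pairingIn ℤ β j : ℤ) : ℚ) = P.coroot' j (P.root β) := by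
      rw [P.root_coroot'_eq_pairing, ← P.algebraMap_pairingIn ℤ]
      rfl
    rw [h2, d5_root b β, map_sum]
    push_cast
    refine Finset.sum_congr rfl fun k _ => ?_
    rw [map_smul, smul_eq_mul, P.root_coroot'_eq_pairing, ← P.algebraMap_pairingIn ℤ]
    rfl
  exact_mod_cast h1

/-- **The highest root** has positive coefficients. -/
theorem d5_theta [P.IsReduced] [P.IsIrreducible] (b : P.Base) (i : b.support) : ∃ θ : ι, ∀ k : b.support, 0 < mc b k (Sum.inr θ) := by
  obtain ⟨θ, -, hmax⟩ := Finset.exists_max_image (Finset.univ : Finset ι) (fun β => b.height β) ⟨(i : ι), Finset.mem_univ _⟩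
  have hpos : 0 < b.height θ := by
    have h1 := hmax (i : ι) (Finset.mem_univ _)
    rw [RootPairing.Base.height_one_of_mem_support i.2] at h1
    omega
  have hnn : ∀ k, 0 ≤ mc b k (Sum.inr θ) := fun k => d5_mc_nonneg k hpos
  have hdom : ∀ j : b.support, 0 ≤ P.pairingIn ℤ θ j := by
    intro j
    by_contra hneg
    push Not at hneg
    have h1 : P.root (P.reflectionPerm j θ) = P.root θ + (-P.pairingIn ℤ θ j) • P.root j := by
      rw [P.root_reflectionPerm, P.reflection_apply_root, neg_smul, ← sub_eq_add_neg, ← P.algebraMap_pairingIn ℤ, ← Int.cast_smul_eq_zsmul ℚ]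
      rfl
    have h2 := b.height_add_zsmul h1
    rw [RootPairing.Base.height_one_of_mem_support j.2] at h2
    have h3 := hmax (P.reflectionPerm j θ) (Finset.mem_univ _)
    rw [h2, smul_eq_mul, mul_one] at h3
    omega
  have hex : ∃ k, 0 < mc b k (Sum.inr θ) := by
    by_contra h
    push Not at h
    apply P.ne_zero θ
    rw [d5_root b θ]
    refine Finset.sum_eq_zero fun k _ => ?_
    rw [le_antisymm (h k) (hnn k), Int.cast_zero, zero_smul]
  obtain ⟨i0, hi0⟩ := hex
  refine ⟨θ, fun k => b.induction_on_cartanMatrix (fun k => 0 < mc b k (Sum.inr θ)) hi0 fun k j hk hkj => ?_⟩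
  by_contra hj
  have hj0 : mc b j (Sum.inr θ) = 0 := le_antisymm (not_lt.1 hj) (hnn j)
  have h1 := hdom j
  rw [d5_pairing] at h1
  have hne : k ≠ j := by
    rintro rfl
    exact hj hk
  have hkj' : b.cartanMatrix k j < 0 := by
    refine lt_of_le_of_ne (b.cartanMatrix_le_zero_of_ne k j hne) fun h => hkj ?_
    rwa [b.cartanMatrix_apply_eq_zero_iff_symm] at h
  have h2 : ∑ l : b.support, mc b l (Sum.inr θ) * b.cartanMatrix l j < 0 := by
    refine (Finset.sum_lt_sum (g := fun _ => (0 : ℤ)) (fun l _ => ?_) ⟨k, Finset.mem_univ _, mul_neg_of_pos_of_neg hk hkj'⟩).trans_le (by simp)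
    by_cases hl : l = j
    · rw [hl, hj0, zero_mul]
    · exact mul_nonpos_of_nonneg_of_nonpos (hnn l) (b.cartanMatrix_le_zero_of_ne l j hl)
  omega

/-- A determinant over a field with a nonarchimedean absolute value, with powers. -/
theorem d5_det {K : Type} [Field K] [NumberField K] {n : Type} [Fintype n] [DecidableEq n] (f : AbsoluteValue K ℝ) (hf : IsNonarchimedean (f : K → ℝ)) (T : ℕ) (A : Matrix n n K) (r c : n → ℝ)
    (h : ∀ k l, f (A k l) ^ T ≤ r k * c l) : f A.det ^ T ≤ (∏ k, r k) * ∏ k, c k := by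
  have hperm : ∀ σ : Equiv.Perm n, f (Equiv.Perm.sign σ • ∏ i, A (σ i) i) ^ T ≤ (∏ k, r k) * ∏ k, c k := by
    intro σ
    have e1 : f (Equiv.Perm.sign σ • ∏ i, A (σ i) i) = ∏ i, f (A (σ i) i) := by
      rcases Int.units_eq_one_or (Equiv.Perm.sign σ) with h1 | h1
      · rw [h1, one_smul, map_prod]
      · rw [h1, Units.neg_smul, one_smul, AbsoluteValue.map_neg, map_prod]
    rw [e1, ← Finset.prod_pow]
    calc ∏ i, f (A (σ i) i) ^ T ≤ ∏ i, (r (σ i) * c i) := Finset.prod_le_prod (fun i _ => pow_nonneg (f.nonneg _) _) fun i _ => h _ _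
      _ = (∏ i, r (σ i)) * ∏ i, c i := Finset.prod_mul_distrib
      _ = (∏ k, r k) * ∏ k, c k := by rw [Equiv.prod_comp σ r]
  obtain ⟨σ0, -, hσ0⟩ := Finset.exists_max_image (Finset.univ : Finset (Equiv.Perm n)) (fun σ => f (Equiv.Perm.sign σ • ∏ i, A (σ i) i)) ⟨1, Finset.mem_univ _⟩
  have h1 : f A.det ≤ f (Equiv.Perm.sign σ0 • ∏ i, A (σ0 i) i) := by
    rw [Matrix.det_apply]
    exact d3_sum_le f hf _ _ (f.nonneg _) fun σ hσ => hσ0 σ hσ
  exact (pow_le_pow_left₀ (f.nonneg _) h1 T).trans (hperm σ0)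

end

end Pool.Agent.Lib.L1S
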