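import Pool.Agent.Lib.H67G.B2
import Pool.Agent.Lib.H67G.B5
import Pool.Agent.Lib.H33W.U2

/-!
# AN0: definitions for the abstract part (unfolding) of L1*

`H` is a countable group acting on the space `X` (both with invariant measures), `HU` a subgroup of `H` which acts on the space `T` (a unipotent group), `tr t x` the product of `t ∈ T` and `x ∈ X`, `ι` the inverse in `T`
(`H67G.Avg`), `e` a character of `T` and `χ` the same character on `HU`.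
-/

namespace Pool.Agent.Lib.L1S

open MeasureTheory Pool.Agent.Lib.H33W Pool.Agent.Lib.H67G
open scoped ENNReal

noncomputable section

variable {H X T : Type} [Group H] [MulAction H X]

/-- The subgroup `Λ_γ = {δ ∈ Γ ∩ U : γ δ γ⁻¹ ∈ Γ ∩ U}` of `U`. -/
def La (Γ HU : Subgroup H) (γ : H) : Subgroup HU where
  carrier := {δ | (δ : H) ∈ Γ ∧ γ * (δ : H) * γ⁻¹ ∈ Γ ⊓ HU}
  mul_mem' := by
    rintro a b ⟨ha, ha'⟩ ⟨hb, hb'⟩
    refine ⟨Γ.mul_mem ha hb, ?_⟩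
    have e : γ * ((a * b : HU) : H) * γ⁻¹ = (γ * (a : H) * γ⁻¹) * (γ * (b : H) * γ⁻¹) := by
      rw [Subgroup.coe_mul]; group
    rw [e]
    exact mul_mem ha' hb'
  one_mem' := by
    refine ⟨Γ.one_mem, ?_⟩
    rw [Subgroup.coe_one, mul_one, mul_inv_cancel]
    exact one_mem _
  inv_mem' := by
    rintro a ⟨ha, ha'⟩
    refine ⟨Γ.inv_mem ha, ?_⟩
    have e : γ * ((a⁻¹ : HU) : H) * γ⁻¹ = (γ * (a : H) * γ⁻¹)⁻¹ := by
      rw [Subgroup.coe_inv]; group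
    rw [e]
    exact inv_mem ha'

/-- The double coset of `γ`. -/
def DC (Γ HU : Subgroup H) (γ : H) : Set H := {g | ∃ u ∈ Γ ⊓ HU, ∃ δ ∈ Γ ⊓ HU, g = u * γ * δ}

/-- The hypothesis on the elements `γ` outside `U`: there is `v ∈ U` with `γ v γ⁻¹ = v' ∈ U` and `χ(v') ≠ χ(v)`, such that `Λ_γ` and `v Λ_γ v⁻¹` are commensurable. -/
def Dich (Γ HU : Subgroup H) (χ : HU → ℂ) (γ : H) : Prop :=
  ∃ v v' : HU, γ * (v : H) = (v' : H) * γ ∧ χ v' ≠ χ v ∧ ∃ Λ₁ Λ₂ : Subgroup HU, Λ₁ ≤ La Γ HU γ ∧ Λ₂ ≤ La Γ HU γ ∧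
    Λ₁.relIndex (La Γ HU γ) ≠ 0 ∧ Λ₂.relIndex (La Γ HU γ) ≠ 0 ∧ ∀ h : HU, h ∈ Λ₂ ↔ v * h * v⁻¹ ∈ Λ₁

/-- The data for the computation of the mean: `Ψ` is equivariant for `T` (character `e`), bounded, zero outside `S`, and for every `x` at most `N` cosets `(Γ ∩ U) γ` have `Ψ(γ x) ≠ 0`; `D` is a fundamental domain of `Γ ∩ U` in `T`. -/
structure MD [MeasurableSpace X] [MeasurableSpace T] (μ : Measure X) (ν : Measure T) (tr : T → X → X) (ι : T → T) (Γ HU : Subgroup H)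
    [MulAction HU T] (D : Set T) (e : T → ℂ) (χ : HU → ℂ) (S : Set X) (Ψ : X → ℂ) : Prop where
  avg : Avg HU μ ν tr ι
  sfD : SF (Γ.subgroupOf HU) D
  pD : ν D ≠ 0
  fD : ν D ≠ ⊤
  me : Measurable e
  ne : ∀ t, ‖e t‖ = 1
  he : ∀ (h : HU) t, e (h • t) = χ h * e t
  hχ : ∀ h : HU, (h : H) ∈ Γ → χ h = 1
  mΨ : Measurable Ψ
  bΨ : ∃ B : ℝ, ∀ x, ‖Ψ x‖ ≤ B
  eq : ∀ t x, Ψ (tr t x) = e t * Ψ x
  mS : MeasurableSet S
  hS : ∀ t x, tr t x ∈ S ↔ x ∈ S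
  sΨ : ∀ x, x ∉ S → Ψ x = 0
  fs : ∃ N : ℕ, ∀ x, {c : H ⧸ (Γ ⊓ HU) | (Quotient.out c)⁻¹ ∈ Γ ∧ Ψ ((Quotient.out c)⁻¹ • x) ≠ 0}.encard ≤ N

section

variable [MeasurableSpace X] [MeasurableSpace T] {μ : Measure X} {ν : Measure T} {tr : T → X → X} {ι : T → T} {Γ HU : Subgroup H}
    [MulAction HU T] {D : Set T} {e : T → ℂ} {χ : HU → ℂ} {S : Set X} {Ψ : X → ℂ}

/-- `T` is not empty. -/
theorem MD.nonempty (M : MD μ ν tr ι Γ HU D e χ S Ψ) : Nonempty T := by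
  by_contra h
  rw [not_nonempty_iff] at h
  exact M.pD (by rw [Set.eq_empty_of_isEmpty D, measure_empty])

theorem MD.conj_e (M : MD μ ν tr ι Γ HU D e χ S Ψ) (t : T) : star (e t) * e t = 1 := by
  have h := Complex.conj_mul' (e t)
  rw [← Complex.star_def] at h
  rw [h, M.ne t]
  norm_num

/-- `Ψ` is equivariant for `HU`. -/
theorem MD.eqU (M : MD μ ν tr ι Γ HU D e χ S Ψ) (h : HU) (x : X) : Ψ ((h : H) • x) = χ h * Ψ x := by
  obtain ⟨t⟩ := M.nonempty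
  have e1 : x = tr t (tr (ι t) x) := (M.avg.inv2 t x).symm
  have e2 : (h : H) • x = tr (h • t) (tr (ι t) x) := by
    rw [M.avg.act]
    exact congrArg (fun y => (h : H) • y) e1
  rw [e2, M.eq, M.he, mul_assoc, ← M.eq, ← e1]

theorem MD.inv (M : MD μ ν tr ι Γ HU D e χ S Ψ) {g : H} (hg : g ∈ Γ ⊓ HU) (x : X) : Ψ (g • x) = Ψ x := by
  have h := M.eqU ⟨g, hg.2⟩ x
  rw [M.hχ _ hg.1, one_mul] at h
  exact h

end

end

end Pool.Agent.Lib.L1S
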