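import Pool.Agent.Lib.L1S.AN0

/-!
# AN1 (S/M): fundamental domains of smaller subgroups
-/

namespace Pool.Agent.Lib.L1S

open MeasureTheory Pool.Agent.Lib.H33W Pool.Agent.Lib.H67G
open scoped ENNReal

noncomputable section

/-- PROOF. `R = {r ∈ Λ₀ | Quotient.out (QuotientGroup.mk r : H ⧸ Λ) = r}` is a set of representatives of the cosets `δ Λ`, `δ ∈ Λ₀` (for `δ ∈ Λ₀` the element `r = Quotient.out (mk δ)` is in `δ Λ ⊆ Λ₀`, `QuotientGroup.eq`, `QuotientGroup.out_eq'`;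
two elements of `R` in the same coset are equal). `F = {t | ∃ r ∈ R, r • t ∈ D}` (a countable union of preimages). Let `δ` be the unique element of `Λ₀` with `δ • t ∈ D`. For `λ ∈ Λ`: `λ • t ∈ F` iff `(r λ) • t ∈ D` for some `r ∈ R` iff `δ λ⁻¹ ∈ R`:
exactly one `λ`, namely `λ = r⁻¹ δ`, `r = Quotient.out (mk δ)`. -/
theorem an_sf {H T : Type} [Group H] [Countable H] [MulAction H T] [MeasurableSpace T] (hm : ∀ h : H, Measurable fun t : T => h • t) {Λ Λ₀ : Subgroup H}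
    (hle : Λ ≤ Λ₀) {D : Set T} (hD : SF Λ₀ D) : ∃ F : Set T, SF Λ F := by
  obtain ⟨R, hR⟩ : ∃ R : Set H, R = {r : H | r ∈ Λ₀ ∧ Quotient.out (QuotientGroup.mk r : H ⧸ Λ) = r} := ⟨_, rfl⟩
  refine ⟨{t | ∃ r : H, r ∈ R ∧ r • t ∈ D}, ?_, ?_⟩
  · have e : {t : T | ∃ r : H, r ∈ R ∧ r • t ∈ D} = ⋃ (r : H) (_ : r ∈ R), (fun t : T => r • t) ⁻¹' D := by
      ext t
      simp only [Set.mem_setOf_eq, Set.mem_iUnion, Set.mem_preimage, exists_prop]
    rw [e]
    exact MeasurableSet.iUnion fun r => MeasurableSet.iUnion fun _ => (hm r) hD.meas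
  · intro t
    obtain ⟨δ, hδ, hu⟩ := hD.fd t
    obtain ⟨r, hr⟩ : ∃ r : H, r = Quotient.out (QuotientGroup.mk (δ : H) : H ⧸ Λ) := ⟨_, rfl⟩
    have hmk : (QuotientGroup.mk r : H ⧸ Λ) = QuotientGroup.mk (δ : H) := by
      rw [hr]
      exact QuotientGroup.out_eq' _
    have h1 : r⁻¹ * (δ : H) ∈ Λ := QuotientGroup.eq.1 hmk
    have h2 : r ∈ Λ₀ := by
      have e : r = (δ : H) * (r⁻¹ * (δ : H))⁻¹ := by group
      rw [e]
      exact Λ₀.mul_mem δ.2 (Λ₀.inv_mem (hle h1))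
    have h3 : r ∈ R := by
      rw [hR]
      refine ⟨h2, ?_⟩
      rw [hmk]
      exact hr.symm
    refine ⟨⟨r⁻¹ * (δ : H), h1⟩, ?_, ?_⟩
    · refine ⟨r, h3, ?_⟩
      show r • ((r⁻¹ * (δ : H)) • t) ∈ D
      rw [smul_smul, mul_inv_cancel_left]
      exact hδ
    · rintro ⟨l, hl⟩ ⟨s, hs, hsD⟩
      have hsD' : s • (l • t) ∈ D := hsD
      rw [hR] at hs
      rw [smul_smul] at hsD'
      have h4 := hu ⟨s * l, Λ₀.mul_mem hs.1 (hle hl)⟩ hsD'
      have h5 : s * l = (δ : H) := congrArg Subtype.val h4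
      have h6 : s = r := by
        rw [← hs.2, hr, ← h5]
        congr 1
        exact QuotientGroup.eq.2 (by rw [inv_mul_cancel_left]; exact hl)
      refine Subtype.ext ?_
      show l = r⁻¹ * (δ : H)
      rw [← h5, h6, inv_mul_cancel_left]

/-- PROOF. `u2k G G' = ∑' (_ : G ⧸ G'.subgroupOf G), 1`, a finite sum if the index is not zero (`Subgroup.relIndex`, `Subgroup.index`, `Subgroup.FiniteIndex`, `Nat.card`): `tsum_fintype`, `ENNReal.natCast_ne_top`. -/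
theorem an_u2k {H : Type} [Group H] {G G' : Subgroup H} (h : G'.relIndex G ≠ 0) : u2k G G' = (G'.relIndex G : ℝ≥0∞) := by
  have h' : (G'.subgroupOf G).index ≠ 0 := h
  have hfi : (G'.subgroupOf G).FiniteIndex := ⟨h'⟩
  have hf : Finite (G ⧸ G'.subgroupOf G) := Subgroup.finite_quotient_of_finiteIndex
  have := Fintype.ofFinite (G ⧸ G'.subgroupOf G)
  unfold u2k
  rw [tsum_fintype, Finset.sum_const, Finset.card_univ, nsmul_eq_mul, mul_one]
  show ((Fintype.card (G ⧸ G'.subgroupOf G) : ℕ) : ℝ≥0∞) = ((G'.subgroupOf G).index : ℝ≥0∞)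
  rw [Subgroup.index, Nat.card_eq_fintype_card]

end

end Pool.Agent.Lib.L1S
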