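import Pool.Agent.Lib.L1S.AN0

/-!
# AN8 (S/M): the data on the level of groups

`G` a topological group with the left invariant measure `μ`, `T` a group (the unipotent group) with the bi-invariant measure `ν`, `j : T → G` a homomorphism, `H` the countable group of rational points, `emb : H → G`, `HU` the rational unipotent subgroup, `k : HU → T` with `j (k h) = emb h`.
-/

namespace Pool.Agent.Lib.L1S

open MeasureTheory Pool.Agent.Lib.H33W Pool.Agent.Lib.H67G
open scoped ENNReal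

noncomputable section

/-- The data on the level of groups. -/
structure GD {H G T : Type} [Group H] [Group G] [Group T] [TopologicalSpace G] [MeasurableSpace G] [MeasurableSpace T] [MulAction H G] {HU : Subgroup H} [MulAction HU T]
    (emb : H →* G) (j : T →* G) (k : HU →* T) (μ : Measure G) (ν : Measure T) (ψ : T → ℂ) : Prop where
  act : ∀ (h : H) (x : G), h • x = emb h * x
  actT : ∀ (h : HU) (t : T), h • t = k h * t
  jk : ∀ h : HU, j (k h) = emb h
  mj : Measurable fun p : T × G => j p.1 * p.2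
  lm : ∀ g : G, MeasurePreserving (fun x : G => g * x) μ μ
  lT : ∀ s : T, MeasurePreserving (fun t : T => s * t) ν ν
  rT : ∀ s : T, MeasurePreserving (fun t : T => t * s) ν ν
  iT : MeasurePreserving (fun t : T => t⁻¹) ν ν
  mψ : Measurable ψ
  nψ : ∀ t, ‖ψ t‖ = 1
  hψ : ∀ s t, ψ (s * t) = ψ s * ψ t

/-- The mean of `h(t x) conj(ψ(t))` over the fundamental domain `D`. -/
def Wm {G T : Type} [Group G] [Group T] [MeasurableSpace T] (j : T →* G) (ψ : T → ℂ) (ν : Measure T) (D : Set T) (h : G → ℂ) (x : G) : ℂ :=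
  ⨍ t in D, star (ψ t) * h (j t * x) ∂ν

variable {H G T : Type} [Group H] [Group G] [Group T] [TopologicalSpace G] [MeasurableSpace G] [MeasurableSpace T] [MulAction H G] {HU : Subgroup H} [MulAction HU T]
    {emb : H →* G} {j : T →* G} {k : HU →* T} {μ : Measure G} {ν : Measure T} {ψ : T → ℂ}

/-- PROOF. All fields are immediate: `trm = mj`, `trp` from `lm`, `im = iT`, `act`: `j (k h * t) * x = emb h * (j t * x)`, `ht` from `lT`. -/
theorem gd_avg (hG : GD emb j k μ ν ψ) : Avg HU μ ν (fun t x => j t * x) (fun t => t⁻¹) := by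
  refine ⟨hG.mj, fun t => hG.lm (j t), hG.iT, fun t x => ?_, fun t x => ?_, fun h t x => ?_, fun h => ?_⟩
  · change j t⁻¹ * (j t * x) = x
    rw [map_inv, inv_mul_cancel_left]
  · change j t * (j t⁻¹ * x) = x
    rw [map_inv, mul_inv_cancel_left]
  · change j (h • t) * x = (h : H) • (j t * x)
    rw [hG.actT, map_mul, hG.jk, hG.act, mul_assoc]
  · have e : (fun t : T => h • t) = fun t => k h * t := funext fun t => hG.actT h t
    rw [e]
    exact hG.lT (k h)

/-- PROOF. `SF.fd` is the same statement for `Γ ⊓ HU` acting on `G` and for `Γ.subgroupOf HU` acting on `G` through `HU` (copy of `H67G.sf_sub`, file H67G/S2.lean). -/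
theorem gd_sub {Γ : Subgroup H} {F : Set G} : SF (Γ ⊓ HU) F ↔ SF (Γ.subgroupOf HU) F := by
  constructor
  · intro h
    refine ⟨h.meas, fun x => ?_⟩
    obtain ⟨g, hg, hu⟩ := h.fd x
    refine ⟨⟨⟨g.1, g.2.2⟩, Subgroup.mem_subgroupOf.2 g.2.1⟩, hg, ?_⟩
    rintro ⟨⟨g', h1⟩, h2⟩ h3
    have h4 := hu ⟨g', Subgroup.mem_subgroupOf.1 h2, h1⟩ h3
    apply Subtype.ext
    apply Subtype.ext
    exact congrArg (fun z : ↥(Γ ⊓ HU) => (z : H)) h4
  · intro h
    refine ⟨h.meas, fun x => ?_⟩
    obtain ⟨g, hg, hu⟩ := h.fd x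
    refine ⟨⟨((g : HU) : H), Subgroup.mem_subgroupOf.1 g.2, g.1.2⟩, hg, ?_⟩
    rintro ⟨g', h1, h2⟩ h3
    have h4 := hu ⟨⟨g', h2⟩, Subgroup.mem_subgroupOf.2 h1⟩ h3
    apply Subtype.ext
    exact congrArg (fun z : ↥(Γ.subgroupOf HU) => ((z : HU) : H)) h4

/-- The mean does not depend on the fundamental domain. PROOF. `f(t) = star (ψ t) * h (j t * x)` is invariant under `Γ ∩ HU` (`ψ (k h * t) = ψ t`, `h (emb h * (j t * x)) = h (j t * x)`); `u2_int` with `G = G'` for `D`, `D'` and for the constant function `1` (`u2_vol`): `ν D' = c ν D`, `∫_{D'} f = c ∫_D f`, `c = u2k G G = 1`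
(or `c` arbitrary: `setAverage_eq`, the factor cancels; `c ≠ 0` by `u2_k_ne`, `c ≠ ⊤` by `u2_k_top` if `0 < ν D`, `ν D' < ⊤`; if `ν D = 0` both averages are zero). `u2k G G = 1`: `G ⧸ G.subgroupOf G` has one element. -/
theorem wm_indep [Countable H] (hG : GD emb j k μ ν ψ) {Γ : Subgroup H} (hψ : ∀ h : HU, (h : H) ∈ Γ → ψ (k h) = 1) {D D' : Set T} (hD : SF (Γ.subgroupOf HU) D)
    (hD' : SF (Γ.subgroupOf HU) D') {h : G → ℂ} (mh : Measurable h) (ih : ∀ γ ∈ Γ, ∀ x, h (γ • x) = h x) (x : G) : Wm j ψ ν D h x = Wm j ψ ν D' h x := by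
  have hpres : ∀ g : HU, MeasurePreserving (fun t : T => g • t) ν ν := (gd_avg hG).ht
  have mf : Measurable fun t : T => star (ψ t) * h (j t * x) := by
    have h1 : Measurable fun t : T => j t * x :=
      hG.mj.comp (measurable_id.prodMk measurable_const)
    exact (continuous_star.measurable.comp hG.mψ).mul (mh.comp h1)
  have inv : ∀ g ∈ Γ.subgroupOf HU, ∀ t : T, star (ψ (g • t)) * h (j (g • t) * x) = star (ψ t) * h (j t * x) := by
    intro g hg t
    rw [hG.actT, hG.hψ, hψ g (Subgroup.mem_subgroupOf.1 hg), one_mul, map_mul, hG.jk, mul_assoc, ← hG.act, ih _ (Subgroup.mem_subgroupOf.1 hg)]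
  have e1 := u2_int_eq hpres hD hD' mf inv
  have e2 : ν D' = ν D := by
    have h1 := u2_vol hpres le_rfl hD hD'
    rwa [← u2_count le_rfl hD (1 : T), u2_sum_inv hD (1 : T), one_mul] at h1
  rw [Wm, Wm, setAverage_eq, setAverage_eq, e1, measureReal_def, measureReal_def, e2]

/-- PROOF. `Wm (j s * x) = ⨍_{t ∈ D} star(ψ t) h(j (t s) x)`; substitute `t = t' s⁻¹` (`hG.rT`): `= ψ(s) ⨍_{t' ∈ D s} star(ψ t') h(j t' x)` (`star(ψ(t' s⁻¹)) = star(ψ t') ψ(s)` as `ψ(s⁻¹) = star(ψ s)`), `D s = {t | t s⁻¹ ∈ D}` is a fundamental domain of the same group with the same measure; `wm_indep`. -/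
theorem wm_eq [Countable H] (hG : GD emb j k μ ν ψ) {Γ : Subgroup H} (hψ : ∀ h : HU, (h : H) ∈ Γ → ψ (k h) = 1) {D : Set T} (hD : SF (Γ.subgroupOf HU) D)
    {h : G → ℂ} (mh : Measurable h) (ih : ∀ γ ∈ Γ, ∀ x, h (γ • x) = h x) (s : T) (x : G) : Wm j ψ ν D h (j s * x) = ψ s * Wm j ψ ν D h x := by
  have h1 : ψ 1 = 1 := by
    have h2 := hG.hψ 1 1
    rw [mul_one] at h2
    have h3 : ψ 1 ≠ 0 := by
      intro h4
      have h5 := hG.nψ 1
      rw [h4, norm_zero] at h5
      exact zero_ne_one h5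
    exact (mul_left_cancel₀ h3 (by rw [mul_one]; exact h2)).symm
  have h2 : star (ψ s⁻¹) = ψ s := by
    have h3 : ψ s⁻¹ * ψ s = 1 := by rw [← hG.hψ, inv_mul_cancel, h1]
    have h4 : star (ψ s⁻¹) * ψ s⁻¹ = 1 := by
      have h := Complex.conj_mul' (ψ s⁻¹)
      rw [← Complex.star_def] at h
      rw [h, hG.nψ]
      norm_num
    calc star (ψ s⁻¹) = star (ψ s⁻¹) * (ψ s⁻¹ * ψ s) := by rw [h3, mul_one]
      _ = ψ s := by rw [← mul_assoc, h4, one_mul]
  set D' : Set T := {t | t * s⁻¹ ∈ D} with hD'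
  have mD' : MeasurableSet D' := (hG.rT s⁻¹).measurable hD.meas
  have sD' : SF (Γ.subgroupOf HU) D' := by
    refine ⟨mD', fun t => ?_⟩
    have e : ∀ g : Γ.subgroupOf HU, (g • t ∈ D') ↔ g • (t * s⁻¹) ∈ D := by
      intro g
      change ((g : HU) • t) * s⁻¹ ∈ D ↔ (g : HU) • (t * s⁻¹) ∈ D
      rw [hG.actT, hG.actT, mul_assoc]
    obtain ⟨g, hg, hu⟩ := hD.fd (t * s⁻¹)
    exact ⟨g, (e g).2 hg, fun g' h' => hu g' ((e g').1 h')⟩
  have em : MeasurableEmbedding fun t : T => t * s := by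
    let E : T ≃ᵐ T :=
      { toFun := fun t => t * s
        invFun := fun t => t * s⁻¹
        left_inv := fun t => mul_inv_cancel_right t s
        right_inv := fun t => inv_mul_cancel_right t s
        measurable_toFun := (hG.rT s).measurable
        measurable_invFun := (hG.rT s⁻¹).measurable }
    exact E.measurableEmbedding
  have ep : (fun t : T => t * s) ⁻¹' D' = D := by
    ext t
    change t * s * s⁻¹ ∈ D ↔ t ∈ D
    rw [mul_inv_cancel_right]
  have e1 : ∫ t in D, star (ψ t) * h (j t * (j s * x)) ∂ν = ∫ t in D', ψ s * (star (ψ t) * h (j t * x)) ∂ν := by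
    rw [← (hG.rT s).setIntegral_preimage_emb em _ D', ep]
    refine integral_congr_ae (Filter.Eventually.of_forall fun t => ?_)
    change star (ψ t) * h (j t * (j s * x)) = ψ s * (star (ψ (t * s)) * h (j (t * s) * x))
    have h3 : ψ s * star (ψ (t * s)) = star (ψ t) := by
      have h4 : ψ s * star (ψ s) = 1 := by
        have h := Complex.mul_conj' (ψ s)
        rw [← Complex.star_def] at h
        rw [h, hG.nψ]
        norm_num
      rw [hG.hψ, star_mul', mul_comm (star (ψ t)), ← mul_assoc, h4, one_mul]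
    calc star (ψ t) * h (j t * (j s * x)) = ψ s * star (ψ (t * s)) * h (j (t * s) * x) := by
          rw [h3, map_mul, mul_assoc]
      _ = _ := mul_assoc _ _ _
  have e2 : ν D' = ν D := (hG.rT s⁻¹).measure_preimage hD.meas.nullMeasurableSet
  rw [wm_indep hG hψ hD sD' mh ih x, Wm, Wm, setAverage_eq, setAverage_eq, e1, measureReal_def, measureReal_def, e2, integral_const_mul, mul_smul_comm]

/-- PROOF. `Measurable` in the parameter: `(x, t) ↦ star (ψ t) * h (j t * x)` is measurable (`hG.mj`), `StronglyMeasurable.integral_prod_right'`, `setAverage_eq`. -/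
theorem wm_meas [SFinite ν] (hG : GD emb j k μ ν ψ) {D : Set T} {h : G → ℂ} (mh : Measurable h) : Measurable (Wm j ψ ν D h) := by
  have m1 : Measurable fun p : G × T => star (ψ p.2) * h (j p.2 * p.1) := by
    have h1 : Measurable fun p : G × T => j p.2 * p.1 := hG.mj.comp (measurable_snd.prodMk measurable_fst)
    exact (continuous_star.measurable.comp (hG.mψ.comp measurable_snd)).mul (mh.comp h1)
  have m2 : Measurable fun x : G => ∫ t, star (ψ t) * h (j t * x) ∂(ν.restrict D) :=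
    (StronglyMeasurable.integral_prod_right' m1.stronglyMeasurable).measurable
  have e : Wm j ψ ν D h = fun x => ((ν.real D)⁻¹ : ℝ) • ∫ t in D, star (ψ t) * h (j t * x) ∂ν := by
    funext x
    rw [Wm, setAverage_eq]
  rw [e]
  exact m2.const_smul ((ν.real D)⁻¹ : ℝ)

/-- PROOF. `norm_setAverage`..: `‖⨍_D f‖ ≤ B` if `‖f‖ ≤ B` on `D` (`0 < ν D < ⊤`; also trivially true if `ν D = 0` or `⊤`, `0 ≤ B`): `setAverage_eq`, `norm_setIntegral_le_of_norm_le_const`. -/
theorem wm_bdd (hG : GD emb j k μ ν ψ) {D : Set T} {h : G → ℂ} {B : ℝ} (hB : 0 ≤ B) {x : G} (hb : ∀ t, ‖h (j t * x)‖ ≤ B) : ‖Wm j ψ ν D h x‖ ≤ B := by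
  rw [Wm, setAverage_eq]
  by_cases hD : ν D = ⊤
  · rw [measureReal_def, hD]
    simp [hB]
  · have h1 : ‖∫ t in D, star (ψ t) * h (j t * x) ∂ν‖ ≤ B * ν.real D := by
      refine norm_setIntegral_le_of_norm_le_const (lt_top_iff_ne_top.2 hD) fun t _ => ?_
      rw [norm_mul, norm_star, hG.nψ, one_mul]
      exact hb t
    rw [norm_smul, Real.norm_of_nonneg (inv_nonneg.2 measureReal_nonneg)]
    by_cases h0 : ν.real D = 0
    · rw [h0]; simp [hB]
    · have hpos : 0 < ν.real D := lt_of_le_of_ne measureReal_nonneg (Ne.symm h0)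
      rw [inv_mul_le_iff₀ hpos, mul_comm]
      exact h1

end

end Pool.Agent.Lib.L1S
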