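import Pool.Agent.Lib.L1S.AN0

/-!
# AN9 (M): finiteness
-/

namespace Pool.Agent.Lib.L1S

open MeasureTheory Pool.Agent.Lib.H33W Pool.Agent.Lib.H67G
open scoped ENNReal

noncomputable section

/-- `S` is covered by the translates of `Q` under `Γ ∩ U`, only finitely many elements of `Γ` move `Q` to a set which meets `Q`. -/
structure FQ {H X : Type} [Group H] [MulAction H X] [MeasurableSpace X] (μ : Measure X) (Γ HU : Subgroup H) (S Q : Set X) : Prop where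
  cov : ∀ x ∈ S, ∃ u ∈ Γ ⊓ HU, u • x ∈ Q
  fin : {γ : H | γ ∈ Γ ∧ ∃ q ∈ Q, γ • q ∈ Q}.Finite
  mQ : MeasurableSet Q
  top : μ Q ≠ ⊤

variable {H X : Type} [Group H] [MulAction H X] [MeasurableSpace X] {μ : Measure X} {Γ HU : Subgroup H} {S Q : Set X}

/-- PROOF. `N` = the number of elements `γ ∈ Γ` with `γ Q ∩ Q ≠ ∅`. Let `c₀` be in the set (if it is empty there is nothing to prove), `g₀ = (out c₀)⁻¹`, `y₀ = g₀ • x ∈ S`, `δ₀ • y₀ = q₀ ∈ Q`, `δ₀ ∈ U₀ = Γ ⊓ HU`. For `c` in the set put `g = (out c)⁻¹`, `g • x ∈ S`, choose `δ ∈ U₀` with `δ • g • x ∈ Q` and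
`γ_c = δ g (δ₀ g₀)⁻¹ ∈ Γ`: `γ_c • q₀ = δ • g • x ∈ Q`. The map `c ↦ γ_c` is injective: `γ_c = γ_{c'}` gives `δ g = δ' g'`, so `U₀ g = U₀ g'`, `c = c'` (`c = mk (out c)`, `QuotientGroup.eq`). `Set.encard_le_encard_of_injOn`, `Set.Finite.encard_eq_coe_toFinset_card`. -/
theorem fq_count (h : FQ μ Γ HU S Q) : ∃ N : ℕ, ∀ x, {c : H ⧸ (Γ ⊓ HU) | (Quotient.out c)⁻¹ ∈ Γ ∧ (Quotient.out c)⁻¹ • x ∈ S}.encard ≤ N := by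
  classical
  refine ⟨h.fin.toFinset.card, fun x => ?_⟩
  obtain ⟨Z, hZ⟩ : ∃ Z : Set (H ⧸ (Γ ⊓ HU)), Z = {c : H ⧸ (Γ ⊓ HU) | (Quotient.out c)⁻¹ ∈ Γ ∧ (Quotient.out c)⁻¹ • x ∈ S} := ⟨_, rfl⟩
  rw [← hZ]
  rcases Z.eq_empty_or_nonempty with h0 | ⟨c₀, hc₀⟩
  · rw [h0, Set.encard_empty]
    exact zero_le
  have mem : ∀ c ∈ Z, (Quotient.out c)⁻¹ ∈ Γ ∧ (Quotient.out c)⁻¹ • x ∈ S := by
    intro c hc
    rw [hZ] at hc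
    exact hc
  have key : ∀ c : H ⧸ (Γ ⊓ HU), ∃ δ : H, c ∈ Z → δ ∈ Γ ⊓ HU ∧ δ • ((Quotient.out c)⁻¹ • x) ∈ Q := by
    intro c
    by_cases hc : c ∈ Z
    · obtain ⟨u, hu, hq⟩ := h.cov _ (mem c hc).2
      exact ⟨u, fun _ => ⟨hu, hq⟩⟩
    · exact ⟨1, fun hc' => absurd hc' hc⟩
  choose δ hδ using key
  obtain ⟨g₀, hg₀⟩ : ∃ g₀ : H, g₀ = δ c₀ * (Quotient.out c₀)⁻¹ := ⟨_, rfl⟩
  have hg₀Γ : g₀ ∈ Γ := by
    rw [hg₀]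
    exact Γ.mul_mem (hδ c₀ hc₀).1.1 (mem c₀ hc₀).1
  have hq₀ : g₀ • x ∈ Q := by
    rw [hg₀, mul_smul]
    exact (hδ c₀ hc₀).2
  have hmaps : ∀ c ∈ Z, δ c * (Quotient.out c)⁻¹ * g₀⁻¹ ∈ (h.fin.toFinset : Set H) := by
    intro c hc
    rw [Set.Finite.coe_toFinset]
    refine ⟨Γ.mul_mem (Γ.mul_mem (hδ c hc).1.1 (mem c hc).1) (Γ.inv_mem hg₀Γ), g₀ • x, hq₀, ?_⟩
    rw [smul_smul, inv_mul_cancel_right, mul_smul]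
    exact (hδ c hc).2
  have hinj : Set.InjOn (fun c => δ c * (Quotient.out c)⁻¹ * g₀⁻¹) Z := by
    intro c hc c' hc' e
    have e1 : δ c * (Quotient.out c)⁻¹ = δ c' * (Quotient.out c')⁻¹ := mul_right_cancel e
    rw [← QuotientGroup.out_eq' c, ← QuotientGroup.out_eq' c']
    refine QuotientGroup.eq.2 ?_
    have e2 : (Quotient.out c)⁻¹ * Quotient.out c' = (δ c)⁻¹ * δ c' := by
      have e3 : (Quotient.out c)⁻¹ = (δ c)⁻¹ * (δ c' * (Quotient.out c')⁻¹) := by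
        rw [← e1, inv_mul_cancel_left]
      rw [e3, mul_assoc, mul_assoc, inv_mul_cancel, mul_one]
    rw [e2]
    exact mul_mem (inv_mem (hδ c hc).1) (hδ c' hc').1
  have h1 := Set.encard_le_encard_of_injOn (f := fun c => δ c * (Quotient.out c)⁻¹ * g₀⁻¹) hmaps hinj
  rw [Set.encard_coe_eq_coe_finsetCard] at h1
  exact h1

/-- PROOF. `F_U ∩ S ⊆ ⋃_{u ∈ U₀} (F_U ∩ u⁻¹ Q)` (`cov`), so `μ(F_U ∩ S) ≤ ∑_u μ(F_U ∩ {x | u • x ∈ Q}) = ∑_u μ({y | u⁻¹ • y ∈ F_U} ∩ Q)` (the action preserves `μ`) `= μ(Q)` (every `y` is in exactly one of the sets `{y | u⁻¹ • y ∈ F_U}`: `H33W.u2_sum_inv`, or `measure_iUnion`). -/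
theorem fq_top [Countable H] [MeasurableConstSMul H X] [SMulInvariantMeasure H X μ] (h : FQ μ Γ HU S Q) {F_U : Set X} (hU : SF (Γ ⊓ HU) F_U) : μ (F_U ∩ S) ≠ ⊤ := by
  have hsub : F_U ∩ S ⊆ ⋃ u : ↥(Γ ⊓ HU), F_U ∩ {x | (u : H) • x ∈ Q} := by
    rintro x ⟨h1, h2⟩
    obtain ⟨u, hu, hq⟩ := h.cov x h2
    exact Set.mem_iUnion.2 ⟨⟨u, hu⟩, h1, hq⟩
  have mF := hU.meas
  have mi : ∀ u : ↥(Γ ⊓ HU), μ (F_U ∩ {x | (u : H) • x ∈ Q}) = μ ({y | u⁻¹ • y ∈ F_U} ∩ Q) := by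
    intro u
    have e : F_U ∩ {x | (u : H) • x ∈ Q} = (fun x : X => (u : H) • x) ⁻¹' ({y | u⁻¹ • y ∈ F_U} ∩ Q) := by
      ext x
      have e1 : u⁻¹ • ((u : H) • x) = x := inv_smul_smul (u : H) x
      show x ∈ F_U ∧ (u : H) • x ∈ Q ↔ u⁻¹ • ((u : H) • x) ∈ F_U ∧ (u : H) • x ∈ Q
      rw [e1]
    rw [e]
    exact SMulInvariantMeasure.measure_preimage_smul (u : H) (((measurable_const_smul ((u⁻¹ : ↥(Γ ⊓ HU)) : H)) mF).inter h.mQ)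
  have hle : μ (F_U ∩ S) ≤ ∑' u : ↥(Γ ⊓ HU), μ ({y | u⁻¹ • y ∈ F_U} ∩ Q) := by
    refine (measure_mono hsub).trans ((measure_iUnion_le _).trans ?_)
    exact ENNReal.tsum_le_tsum fun u => (mi u).le
  have hQ : ∑' u : ↥(Γ ⊓ HU), μ ({y | u⁻¹ • y ∈ F_U} ∩ Q) = μ Q := by
    have m2 : ∀ u : ↥(Γ ⊓ HU), MeasurableSet ({y | u⁻¹ • y ∈ F_U} : Set X) := fun u => (measurable_const_smul ((u⁻¹ : ↥(Γ ⊓ HU)) : H)) mF
    have e2 : ∀ u : ↥(Γ ⊓ HU), μ ({y | u⁻¹ • y ∈ F_U} ∩ Q) = ∫⁻ y in Q, F_U.indicator (1 : X → ℝ≥0∞) (u⁻¹ • y) ∂μ := by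
      intro u
      have e3 : ∀ y : X, F_U.indicator (1 : X → ℝ≥0∞) (u⁻¹ • y) = ({y | u⁻¹ • y ∈ F_U} : Set X).indicator (1 : X → ℝ≥0∞) y := fun y => rfl
      simp only [e3]
      rw [lintegral_indicator_one (m2 u), Measure.restrict_apply (m2 u)]
    simp only [e2]
    have m3 : ∀ u : ↥(Γ ⊓ HU), Measurable fun y : X => F_U.indicator (1 : X → ℝ≥0∞) (u⁻¹ • y) := fun u =>
      (measurable_one.indicator mF).comp (measurable_const_smul ((u⁻¹ : ↥(Γ ⊓ HU)) : H))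
    rw [← lintegral_tsum fun u => (m3 u).aemeasurable]
    have e4 : ∀ y : X, ∑' u : ↥(Γ ⊓ HU), F_U.indicator (1 : X → ℝ≥0∞) (u⁻¹ • y) = 1 := fun y => u2_sum_inv hU y
    simp only [e4]
    rw [setLIntegral_one]
  rw [hQ] at hle
  exact ne_top_of_le_ne_top h.top hle

/-- PROOF. `h` is invariant under `Γ`, so `|h(x)| = |h(u • x)| ≤ B`. -/
theorem fq_bdd (hQ : FQ μ Γ HU S Q) {h : X → ℂ} (ih : ∀ γ ∈ Γ, ∀ x, h (γ • x) = h x) {B : ℝ} (hB : ∀ x ∈ Q, ‖h x‖ ≤ B) : ∀ x ∈ S, ‖h x‖ ≤ B := by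
  intro x hx
  obtain ⟨u, hu, hq⟩ := hQ.cov x hx
  rw [← ih u hu.1 x]
  exact hB _ hq

end

end Pool.Agent.Lib.L1S
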