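import Pool.Agent.Lib.L1S.AN7
import Pool.Agent.Lib.L1S.AN8
import Pool.Agent.Lib.L1S.AN9

/-!
# AN10 (M): the large sieve inequality for groups
-/

namespace Pool.Agent.Lib.L1S

open MeasureTheory Pool.Agent.Lib.H33W Pool.Agent.Lib.H67G
open scoped ENNReal

noncomputable section

/-- The data of the large sieve for the group `Γ`: `D` a fundamental domain of `Γ ∩ U` in `T`, `S` invariant under `T` on the left, covered by `Q`, and the dichotomy for the elements of `Γ` outside `U` which move a point of `S` to a point of `S`. -/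
structure SD {H G T : Type} [Group H] [Group G] [Group T] [MeasurableSpace G] [MeasurableSpace T] [MulAction H G] {HU : Subgroup H} [MulAction HU T]
    (j : T →* G) (k : HU →* T) (μ : Measure G) (ν : Measure T) (ψ : T → ℂ) (Γ : Subgroup H) (D : Set T) (S Q : Set G) : Prop where
  sfD : SF (Γ.subgroupOf HU) D
  pD : ν D ≠ 0
  fD : ν D ≠ ⊤
  one : ∀ h : HU, (h : H) ∈ Γ → ψ (k h) = 1
  mS : MeasurableSet S
  hS : ∀ t x, j t * x ∈ S ↔ x ∈ S
  fq : FQ μ Γ HU S Q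
  dich : ∀ γ ∈ Γ, γ ∉ HU → (∃ y ∈ S, γ • y ∈ S) → Dich Γ HU (fun h => ψ (k h)) γ

/-- The function `Wm` on `S`. -/
def an10_psi {G T : Type} [Group G] [Group T] [MeasurableSpace T] (j : T →* G) (ψ : T → ℂ) (ν : Measure T) (D : Set T) (S : Set G) (h : G → ℂ) : G → ℂ :=
  S.indicator (Wm j ψ ν D h)

theorem an10_eq {H G T : Type} [Group H] [Countable H] [Group G] [Group T] [TopologicalSpace G] [MeasurableSpace G] [MeasurableSpace T] [MulAction H G] {HU : Subgroup H} [MulAction HU T]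
    {emb : H →* G} {j : T →* G} {k : HU →* T} {μ : Measure G} {ν : Measure T} {ψ : T → ℂ} (hG : GD emb j k μ ν ψ)
    {Γ : Subgroup H} {D : Set T} {S Q : Set G} (hS : SD j k μ ν ψ Γ D S Q)
    {h : G → ℂ} (mh : Measurable h) (ih : ∀ γ ∈ Γ, ∀ x, h (γ • x) = h x) (t : T) (x : G) :
    an10_psi j ψ ν D S h (j t * x) = ψ t * an10_psi j ψ ν D S h x := by
  unfold an10_psi
  by_cases hx : x ∈ S
  · rw [Set.indicator_of_mem ((hS.hS t x).2 hx), Set.indicator_of_mem hx]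
    exact wm_eq hG hS.one hS.sfD mh ih t x
  · rw [Set.indicator_of_notMem (fun h' => hx ((hS.hS t x).1 h')), Set.indicator_of_notMem hx, mul_zero]

theorem an10_fun {H G T : Type} [Group H] [Group G] [Group T] [TopologicalSpace G] [MeasurableSpace G] [MeasurableSpace T] [MulAction H G] {HU : Subgroup H} [MulAction HU T]
    {emb : H →* G} {j : T →* G} {k : HU →* T} {μ : Measure G} {ν : Measure T} {ψ : T → ℂ} (hG : GD emb j k μ ν ψ) (c : H) :
    MeasurePreserving (fun x : G => c • x) μ μ := by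
  have e : (fun x : G => c • x) = fun x => emb c * x := funext fun x => hG.act c x
  rw [e]
  exact hG.lm (emb c)

/-- **The large sieve inequality.**
PROOF. `Ψ = S.indicator (Wm j ψ ν D h)`. The data `MD` (with `tr t x = j t * x`, `ι t = t⁻¹`, `e = ψ`, `χ h = ψ (k h)`): `gd_avg`, `wm_meas`, `wm_eq`, `wm_bdd` (`h` is bounded on `S` by `fq_bdd`, `j t * x ∈ S`), `fs` by `fq_count` (`Ψ(y) ≠ 0` implies `y ∈ S`). Then `an_ls` (`hW`: on `S` the mean is `Ψ` by definition), `fq_top`.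
The left side: `Ψ = Wm` on `S`, zero outside: `∫⁻_{F_U ∩ S} ‖Wm‖ₑ² = ∫⁻_{F_U} ‖Ψ‖ₑ²`. The instances `MeasurableConstSMul H G`, `SMulInvariantMeasure H G μ` from `hG.act`, `hG.lm`. -/
theorem ls_group {H G T : Type} [Group H] [Countable H] [Group G] [Group T] [TopologicalSpace G] [MeasurableSpace G] [MeasurableSpace T] [MulAction H G] {HU : Subgroup H} [MulAction HU T]
    {emb : H →* G} {j : T →* G} {k : HU →* T} {μ : Measure G} {ν : Measure T} [SFinite μ] [SFinite ν] {ψ : T → ℂ} (hG : GD emb j k μ ν ψ)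
    {Γ : Subgroup H} {D : Set T} {S Q : Set G} (hS : SD j k μ ν ψ Γ D S Q) {F' F_U : Set G} (hF' : SF Γ F') (hU : SF (Γ ⊓ HU) F_U)
    {h : G → ℂ} (mh : Measurable h) (ih : ∀ γ ∈ Γ, ∀ x, h (γ • x) = h x) {B : ℝ} (hB : ∀ x ∈ Q, ‖h x‖ ≤ B) :
    ∫⁻ x in F_U ∩ S, ‖Wm j ψ ν D h x‖ₑ ^ 2 ∂μ ≤ ∫⁻ x in F', ‖h x‖ₑ ^ 2 ∂μ := by
  have i1 : MeasurableConstSMul H G := ⟨fun c => (an10_fun hG c).measurable⟩
  have i2 : SMulInvariantMeasure H G μ :=
    ⟨fun c s hs => (an10_fun hG c).measure_preimage hs.nullMeasurableSet⟩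
  have bS : ∀ x ∈ S, ‖h x‖ ≤ max B 0 := fun x hx => (fq_bdd hS.fq ih hB x hx).trans (le_max_left _ _)
  have M : MD μ ν (fun t x => j t * x) (fun t => t⁻¹) Γ HU D ψ (fun u => ψ (k u)) S (an10_psi j ψ ν D S h) :=
    { avg := gd_avg hG
      sfD := hS.sfD
      pD := hS.pD
      fD := hS.fD
      me := hG.mψ
      ne := hG.nψ
      he := fun u t => by rw [hG.actT, hG.hψ]
      hχ := fun u hu => hS.one u hu
      mΨ := (wm_meas hG mh).indicator hS.mS
      bΨ := ⟨max B 0, fun x => by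
        by_cases hx : x ∈ S
        · rw [an10_psi, Set.indicator_of_mem hx]
          exact wm_bdd hG (le_max_right _ _) fun t => bS _ ((hS.hS t x).2 hx)
        · rw [an10_psi, Set.indicator_of_notMem hx, norm_zero]
          exact le_max_right _ _⟩
      eq := an10_eq hG hS mh ih
      mS := hS.mS
      hS := hS.hS
      sΨ := fun x hx => Set.indicator_of_notMem hx _
      fs := by
        obtain ⟨N, hN⟩ := fq_count hS.fq
        refine ⟨N, fun x => (Set.encard_le_encard ?_).trans (hN x)⟩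
        rintro c ⟨h1, h2⟩
        refine ⟨h1, ?_⟩
        by_contra h3
        exact h2 (Set.indicator_of_notMem h3 _) }
  have key := an_ls M hS.dich hF' hU (fq_top hS.fq hU) mh ih ⟨max B 0, bS⟩ (fun x hx => by
    rw [an10_psi, Set.indicator_of_mem hx]
    rfl)
  refine le_trans (le_of_eq ?_) key
  have e1 : ∀ x, ‖an10_psi j ψ ν D S h x‖ₑ ^ 2 = S.indicator (fun x => ‖Wm j ψ ν D h x‖ₑ ^ 2) x := by
    intro x
    by_cases hx : x ∈ S
    · rw [an10_psi, Set.indicator_of_mem hx, Set.indicator_of_mem hx]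
    · rw [an10_psi, Set.indicator_of_notMem hx, Set.indicator_of_notMem hx, enorm_zero]
      simp
  rw [lintegral_congr e1, lintegral_indicator hS.mS, Measure.restrict_restrict hS.mS, Set.inter_comm]

/-- PROOF. `H67G.avu_q` with `φ = ‖Wm‖ₑ² 1_S` (invariant under `T`: `wm_eq`, `hS.hS`), the set `A ⊆ S`: `ν(D) ∫_A φ = ∫_{F_U} φ(z) ν{s | j s⁻¹ z ∈ A} ≤ P ∫_{F_U ∩ S} ‖Wm‖ₑ²`. -/
theorem ls_point {H G T : Type} [Group H] [Countable H] [Group G] [Group T] [TopologicalSpace G] [MeasurableSpace G] [MeasurableSpace T] [MulAction H G] {HU : Subgroup H} [MulAction HU T]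
    {emb : H →* G} {j : T →* G} {k : HU →* T} {μ : Measure G} {ν : Measure T} [SFinite μ] [SFinite ν] {ψ : T → ℂ} (hG : GD emb j k μ ν ψ)
    {Γ : Subgroup H} {D : Set T} {S Q : Set G} (hS : SD j k μ ν ψ Γ D S Q) {F_U : Set G} (hU : SF (Γ ⊓ HU) F_U)
    {h : G → ℂ} (mh : Measurable h) (ih : ∀ γ ∈ Γ, ∀ x, h (γ • x) = h x) {A : Set G} (mA : MeasurableSet A) (hA : A ⊆ S) {P : ℝ≥0∞}
    (hP : ∀ z, ν {s | j s⁻¹ * z ∈ A} ≤ P) :
    ν D * ∫⁻ x in A, ‖Wm j ψ ν D h x‖ₑ ^ 2 ∂μ ≤ P * ∫⁻ x in F_U ∩ S, ‖Wm j ψ ν D h x‖ₑ ^ 2 ∂μ := by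
  have i1 : MeasurableConstSMul HU G := ⟨fun c => (an10_fun hG (c : H)).measurable⟩
  have i2 : SMulInvariantMeasure HU G μ :=
    ⟨fun c s hs => (an10_fun hG (c : H)).measure_preimage hs.nullMeasurableSet⟩
  have e1 : ∀ x, ‖an10_psi j ψ ν D S h x‖ₑ ^ 2 = S.indicator (fun x => ‖Wm j ψ ν D h x‖ₑ ^ 2) x := by
    intro x
    by_cases hx : x ∈ S
    · rw [an10_psi, Set.indicator_of_mem hx, Set.indicator_of_mem hx]
    · rw [an10_psi, Set.indicator_of_notMem hx, Set.indicator_of_notMem hx, enorm_zero]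
      simp
  have mΨ : Measurable (an10_psi j ψ ν D S h) := (wm_meas hG mh).indicator hS.mS
  have uΨ : ∀ t x, ‖an10_psi j ψ ν D S h (j t * x)‖ₑ ^ 2 = ‖an10_psi j ψ ν D S h x‖ₑ ^ 2 := by
    intro t x
    rw [an10_eq hG hS mh ih, enorm_mul]
    have h1 : ‖ψ t‖ₑ = 1 := by
      rw [← ofReal_norm, hG.nψ, ENNReal.ofReal_one]
    rw [h1, one_mul]
  have key := avu_q (gd_avg hG) hS.sfD (gd_sub.1 hU) (φ := fun x => ‖an10_psi j ψ ν D S h x‖ₑ ^ 2)
    (mΨ.enorm.pow_const 2) (fun γ _ x => by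
      have h1 : (γ • x : G) = j (k γ) * x := by
        have h2 : (γ • x : G) = (γ : H) • x := rfl
        rw [h2, hG.act, hG.jk]
      show ‖an10_psi j ψ ν D S h (γ • x)‖ₑ ^ 2 = _
      rw [h1, uΨ]) uΨ mA
  have e2 : ∫⁻ x in A, ‖Wm j ψ ν D h x‖ₑ ^ 2 ∂μ = ∫⁻ x in A, ‖an10_psi j ψ ν D S h x‖ₑ ^ 2 ∂μ := by
    refine setLIntegral_congr_fun mA fun x hx => ?_
    show _ = ‖an10_psi j ψ ν D S h x‖ₑ ^ 2
    rw [e1, Set.indicator_of_mem (hA hx)]
  have e3 : ∫⁻ x in F_U ∩ S, ‖Wm j ψ ν D h x‖ₑ ^ 2 ∂μ = ∫⁻ x in F_U, ‖an10_psi j ψ ν D S h x‖ₑ ^ 2 ∂μ := by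
    rw [lintegral_congr e1, lintegral_indicator hS.mS, Measure.restrict_restrict hS.mS, Set.inter_comm]
  rw [e2, e3, key, mul_comm P, ← lintegral_mul_const _ (mΨ.enorm.pow_const 2)]
  refine lintegral_mono fun z => ?_
  exact mul_le_mul_right (hP z) _

end

end Pool.Agent.Lib.L1S
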