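import Pool.Agent.Lib.L1S.AN1
import Pool.Agent.Lib.L1S.AN8

/-!
# AN11 (M): Hecke operators and means
-/

namespace Pool.Agent.Lib.L1S

open MeasureTheory Pool.Agent.Lib.H33W Pool.Agent.Lib.H67G
open scoped ENNReal

noncomputable section

theorem an11_fin {G : Type} [Group G] {U₀ Γ : Subgroup G} (h : U₀.relIndex Γ ≠ 0) :
    {c : G ⧸ U₀ | (Quotient.out c)⁻¹ ∈ Γ}.Finite := by
  have hfi : (U₀.subgroupOf Γ).FiniteIndex := ⟨h⟩
  have hf : Finite (Γ ⧸ U₀.subgroupOf Γ) := Subgroup.finite_quotient_of_finiteIndex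
  have hmem : ∀ c : {c : G ⧸ U₀ | (Quotient.out c)⁻¹ ∈ Γ}, Quotient.out c.1 ∈ Γ := fun c => by
    have h1 := Γ.inv_mem c.2
    rwa [inv_inv] at h1
  have : Finite {c : G ⧸ U₀ | (Quotient.out c)⁻¹ ∈ Γ} := by
    refine Finite.of_injective (fun c => (QuotientGroup.mk (⟨Quotient.out c.1, hmem c⟩ : Γ) : Γ ⧸ U₀.subgroupOf Γ)) ?_
    intro c c' e
    have e1 := QuotientGroup.eq.1 e
    have e2 : (Quotient.out c.1)⁻¹ * Quotient.out c'.1 ∈ U₀ := Subgroup.mem_subgroupOf.1 e1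
    have e3 : (QuotientGroup.mk (Quotient.out c.1) : G ⧸ U₀) = QuotientGroup.mk (Quotient.out c'.1) := QuotientGroup.eq.2 e2
    rw [QuotientGroup.out_eq', QuotientGroup.out_eq'] at e3
    exact Subtype.ext e3
  exact Set.toFinite _

open Classical in
theorem an11_mul {G : Type} [Group G] {U₀ Γ : Subgroup G} (h : U₀.relIndex Γ ≠ 0) (a : ℂ) (b : G → ℂ) :
    a * cs U₀ (Γ : Set G) b = cs U₀ (Γ : Set G) (fun c => a * b c) := by
  unfold cs
  rw [mul_finsum' _ _ ?_]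
  · refine finsum_congr fun c => ?_
    by_cases hc : (Quotient.out c)⁻¹ ∈ (Γ : Set G)
    · rw [if_pos hc, if_pos hc]
    · rw [if_neg hc, if_neg hc, mul_zero]
  · refine (an11_fin h).subset fun c hc => ?_
    by_contra hc2
    have hc3 : (Quotient.out c)⁻¹ ∉ (Γ : Set G) := hc2
    exact hc (if_neg hc3)

/-- PROOF. `θ(t) = star (ψ t) * F (h₀ • (j t * x))`. `β ∫_D star(ψ t) F(j t x) dν = ∫_D star(ψ t) cs (c ↦ F(h₀ • c • (j t * x)))` (`hβ`) `= ∫_D cs (c ↦ θ(c • t))` (`j (k c * t) = emb c * j t`, `ψ(k c * t) = ψ t` for `c ∈ Γ ∩ HU`; the terms outside do not occur) `= ∫_{D'} θ`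
(`H67G.unfold_cs` for `HU` acting on `T`, `U₀ = Γ'.subgroupOf HU`, `F₁ = D`, `F_U = D'`; `θ` is invariant under `Γ' ∩ HU` by `hΓ'` and `iF`; `∫⁻_{D'} ‖θ‖ₑ ≤ B ν(D') < ∞`, `ν(D') = q ν(D)` by `u2_vol`, `an_u2k`; the set of the cosets in `Γ ∩ HU` is finite, as the index is not zero).
So `β ν(D) W = ν(D') W' = q ν(D) W'` (`setAverage_eq`). -/
theorem an_hecke {H G T : Type} [Group H] [Countable H] [Group G] [Group T] [TopologicalSpace G] [MeasurableSpace G] [MeasurableSpace T] [MulAction H G] {HU : Subgroup H} [MulAction HU T]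
    {emb : H →* G} {j : T →* G} {k : HU →* T} {μ : Measure G} {ν : Measure T} {ψ : T → ℂ} (hG : GD emb j k μ ν ψ)
    {Γ Γ' : Subgroup H} (hle : Γ' ⊓ HU ≤ Γ) {D D' : Set T} (hD : SF (Γ.subgroupOf HU) D) (hD' : SF (Γ'.subgroupOf HU) D') (pD : ν D ≠ 0) (fD : ν D ≠ ⊤)
    {q : ℕ} (hq : (Γ'.subgroupOf HU).relIndex (Γ.subgroupOf HU) = q) (hq0 : q ≠ 0) (one : ∀ h : HU, (h : H) ∈ Γ → ψ (k h) = 1)
    {F : G → ℂ} (mF : Measurable F) (iF : ∀ γ ∈ Γ, ∀ x, F (γ • x) = F x) {h₀ : H} (hΓ' : ∀ g ∈ Γ', h₀ * g * h₀⁻¹ ∈ Γ) {x : G} {B : ℝ}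
    (hB : ∀ t, ‖F (h₀ • (j t * x))‖ ≤ B) {β : ℂ}
    (hβ : ∀ y, cs (Γ'.subgroupOf HU) ((Γ.subgroupOf HU : Subgroup HU) : Set HU) (fun c : HU => F (h₀ • ((c : H) • y))) = β * F y) :
    β * Wm j ψ ν D F x = q * Wm j ψ ν D' (fun y => F (h₀ • y)) x := by
  classical
  have hA := gd_avg hG
  have i1 : MeasurableConstSMul HU T := ⟨fun c => (hA.ht c).measurable⟩
  have i2 : SMulInvariantMeasure HU T ν := ⟨fun c s hs => (hA.ht c).measure_preimage hs.nullMeasurableSet⟩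
  have hle' : Γ'.subgroupOf HU ≤ Γ.subgroupOf HU := fun δ hδ =>
    Subgroup.mem_subgroupOf.2 (hle ⟨Subgroup.mem_subgroupOf.1 hδ, δ.2⟩)
  have hidx : (Γ'.subgroupOf HU).relIndex (Γ.subgroupOf HU) ≠ 0 := by rw [hq]; exact hq0
  obtain ⟨θ, hθ⟩ : ∃ θ : T → ℂ, θ = fun t => star (ψ t) * F (h₀ • (j t * x)) := ⟨_, rfl⟩
  have mjx : Measurable fun t : T => j t * x := hG.mj.comp (measurable_id.prodMk measurable_const)
  have mh0 : Measurable fun y : G => h₀ • y := by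
    have e : (fun y : G => h₀ • y) = fun y => emb h₀ * y := funext fun y => hG.act h₀ y
    rw [e]
    exact (hG.lm (emb h₀)).measurable
  have mst : Measurable fun t : T => star (ψ t) := continuous_star.measurable.comp hG.mψ
  have mθ : Measurable θ := by
    rw [hθ]
    exact mst.mul (mF.comp (mh0.comp mjx))
  have hjk : ∀ (c : HU) (t : T), j (c • t) * x = (c : H) • (j t * x) := by
    intro c t
    rw [hG.actT, map_mul, hG.jk, mul_assoc, hG.act]
  have hψk : ∀ (c : HU) (t : T), (c : H) ∈ Γ → ψ (c • t) = ψ t := by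
    intro c t hc
    rw [hG.actT, hG.hψ, one c hc, one_mul]
  have hθc : ∀ (c : HU) (t : T), (c : H) ∈ Γ → θ (c • t) = star (ψ t) * F (h₀ • ((c : H) • (j t * x))) := by
    intro c t hc
    rw [hθ]
    show star (ψ (c • t)) * F (h₀ • (j (c • t) * x)) = _
    rw [hψk c t hc, hjk]
  have iθ : ∀ u ∈ Γ'.subgroupOf HU, ∀ t, θ (u • t) = θ t := by
    intro u hu t
    have hu1 : (u : H) ∈ Γ' := Subgroup.mem_subgroupOf.1 hu
    have hu2 : (u : H) ∈ Γ := hle ⟨hu1, u.2⟩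
    rw [hθc u t hu2]
    have e1 : h₀ • ((u : H) • (j t * x)) = (h₀ * (u : H) * h₀⁻¹) • (h₀ • (j t * x)) := by
      rw [smul_smul, smul_smul, inv_mul_cancel_right]
    rw [e1, iF _ (hΓ' _ hu1), hθ]
  have hp : ∀ h : HU, MeasurePreserving (fun t : T => h • t) ν ν := hA.ht
  have hvol : ν D' = (q : ℝ≥0∞) * ν D := by
    have e1 := u2_vol hp hle' hD hD'
    rw [an_u2k hidx, hq] at e1
    exact e1
  have fD' : ν D' ≠ ⊤ := by
    rw [hvol]
    exact ENNReal.mul_ne_top (ENNReal.natCast_ne_top q) fD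
  have hint : ∫⁻ t in D', ‖θ t‖ₑ ∂ν ≠ ⊤ := by
    have hb : ∀ t, ‖θ t‖ₑ ≤ ENNReal.ofReal B := by
      intro t
      rw [← ofReal_norm_eq_enorm]
      refine ENNReal.ofReal_le_ofReal ?_
      rw [hθ]
      show ‖star (ψ t) * F (h₀ • (j t * x))‖ ≤ B
      rw [norm_mul, norm_star, hG.nψ, one_mul]
      exact hB t
    refine ne_top_of_le_ne_top (ENNReal.mul_ne_top (ENNReal.ofReal_ne_top (r := B)) fD') ((lintegral_mono fun t => hb t).trans ?_)
    rw [lintegral_const, Measure.restrict_apply_univ]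
  have hfin := an11_fin hidx
  have hunf := unfold_cs hle' hD hD' (θ := θ) (μ := ν) mθ iθ hint (fun t => hfin.subset fun c hc => hc.1)
  have hpt : ∀ t, cs (Γ'.subgroupOf HU) ((Γ.subgroupOf HU : Subgroup HU) : Set HU) (fun c : HU => θ (c • t)) =
      β * (star (ψ t) * F (j t * x)) := by
    intro t
    have e1 : β * (star (ψ t) * F (j t * x)) = star (ψ t) * (β * F (j t * x)) := by ring
    rw [e1, ← hβ (j t * x), an11_mul hidx]
    unfold cs
    refine finsum_congr fun c => ?_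
    by_cases hc : (Quotient.out c)⁻¹ ∈ ((Γ.subgroupOf HU : Subgroup HU) : Set HU)
    · rw [if_pos hc, if_pos hc]
      exact hθc _ t (Subgroup.mem_subgroupOf.1 hc)
    · rw [if_neg hc, if_neg hc]
  have hI : β * ∫ t in D, star (ψ t) * F (j t * x) ∂ν = ∫ t in D', θ t ∂ν := by
    rw [← hunf, ← integral_const_mul]
    refine integral_congr_ae (Filter.Eventually.of_forall fun t => ?_)
    exact (hpt t).symm
  have hν : ((ν D).toReal : ℂ) ≠ 0 := by
    have h0 := ENNReal.toReal_pos pD fD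
    exact_mod_cast h0.ne'
  have hqC : (q : ℂ) ≠ 0 := Nat.cast_ne_zero.2 hq0
  have hW' : Wm j ψ ν D' (fun y => F (h₀ • y)) x = ((q : ℂ) * ((ν D).toReal : ℂ))⁻¹ * ∫ t in D', θ t ∂ν := by
    unfold Wm
    rw [setAverage_eq, measureReal_def, hvol, ENNReal.toReal_mul, ENNReal.toReal_natCast, Complex.real_smul, hθ]
    push_cast
    rfl
  have hW : Wm j ψ ν D F x = ((ν D).toReal : ℂ)⁻¹ * ∫ t in D, star (ψ t) * F (j t * x) ∂ν := by
    unfold Wm
    rw [setAverage_eq, measureReal_def, Complex.real_smul]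
    push_cast
    rfl
  rw [hW, hW', ← hI]
  field_simp

end

end Pool.Agent.Lib.L1S
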