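import Pool.Agent.Lib.L1S.AN8

/-!
# AN12 (M): convolution
-/

namespace Pool.Agent.Lib.L1S

open MeasureTheory Pool.Agent.Lib.H33W Pool.Agent.Lib.H67G
open scoped ENNReal

noncomputable section

variable {H G T : Type} [Group H] [Group G] [Group T] [TopologicalSpace G] [MeasurableSpace G] [MeasurableSpace T] [MulAction H G] {HU : Subgroup H} [MulAction HU T]
    {emb : H →* G} {j : T →* G} {k : HU →* T} {μ : Measure G} {ν : Measure T} {ψ : T → ℂ}

/-- PROOF. `‖∫‖ₑ ≤ ∫⁻ ‖W(x y)‖ₑ ‖φ(y)‖ₑ dy = ∫⁻ ‖W(z)‖ₑ ‖φ(x⁻¹ z)‖ₑ dz` (`hG.lm`, left invariance) `= ∫⁻_A ‖W(z)‖ₑ ‖φ(x⁻¹ z)‖ₑ dz`, Cauchy-Schwarz (`H67G.b5_csq` for `μ.restrict A`) and `∫⁻_A ‖φ(x⁻¹ z)‖ₑ² ≤ ∫⁻ ‖φ(x⁻¹ z)‖ₑ² = ∫⁻ ‖φ‖ₑ²`. -/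
theorem lf_sq [MeasurableMul G] (hG : GD emb j k μ ν ψ) {φ W : G → ℂ} (mφ : Measurable φ) (mW : Measurable W) (x : G) :
    ‖∫ y, W (x * y) * φ y ∂μ‖ₑ ^ 2 ≤ (∫⁻ y, ‖φ y‖ₑ ^ 2 ∂μ) * ∫⁻ z in {z | φ (x⁻¹ * z) ≠ 0}, ‖W z‖ₑ ^ 2 ∂μ := by
  set A : Set G := {z | φ (x⁻¹ * z) ≠ 0} with hA
  have mA : MeasurableSet A := by
    have h1 : Measurable fun z : G => φ (x⁻¹ * z) := mφ.comp (measurable_const_mul x⁻¹)
    exact (measurableSet_eq_fun h1 measurable_const).compl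
  set A' : Set G := {y | φ y ≠ 0} with hA'
  have mA' : MeasurableSet A' := (measurableSet_eq_fun mφ measurable_const).compl
  have mWx : Measurable fun y : G => W (x * y) := mW.comp (measurable_const_mul x)
  have h1 : ‖∫ y, W (x * y) * φ y ∂μ‖ₑ ≤ ∫⁻ y, ‖φ y‖ₑ * A'.indicator (fun y => ‖W (x * y)‖ₑ) y ∂μ := by
    refine (enorm_integral_le_lintegral_enorm _).trans (le_of_eq (lintegral_congr fun y => ?_))
    by_cases hy : φ y = 0
    · rw [hy]; simp
    · have hy' : y ∈ A' := hy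
      rw [Set.indicator_of_mem hy', enorm_mul, mul_comm]
  have h2 := b5_csq μ mφ.enorm (mWx.enorm.indicator mA')
  have h3 : ∫⁻ y, (A'.indicator (fun y => ‖W (x * y)‖ₑ) y) ^ 2 ∂μ = ∫⁻ z in A, ‖W z‖ₑ ^ 2 ∂μ := by
    rw [← lintegral_indicator mA]
    rw [← (hG.lm x).lintegral_comp ((mW.enorm.pow_const 2).indicator mA)]
    refine lintegral_congr fun y => ?_
    by_cases hy : φ y = 0
    · have e1 : y ∉ A' := fun h => h hy
      have e2 : x * y ∉ A := by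
        intro h
        apply h
        rw [inv_mul_cancel_left]
        exact hy
      rw [Set.indicator_of_notMem e1, Set.indicator_of_notMem e2]
      simp
    · have e1 : y ∈ A' := hy
      have e2 : x * y ∈ A := by
        change φ (x⁻¹ * (x * y)) ≠ 0
        rw [inv_mul_cancel_left]
        exact hy
      rw [Set.indicator_of_mem e1, Set.indicator_of_mem e2]
  calc ‖∫ y, W (x * y) * φ y ∂μ‖ₑ ^ 2 ≤ (∫⁻ y, ‖φ y‖ₑ * A'.indicator (fun y => ‖W (x * y)‖ₑ) y ∂μ) ^ 2 :=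
        pow_le_pow_left' h1 2
    _ ≤ (∫⁻ y, ‖φ y‖ₑ ^ 2 ∂μ) * ∫⁻ y, (A'.indicator (fun y => ‖W (x * y)‖ₑ) y) ^ 2 ∂μ := h2
    _ = (∫⁻ y, ‖φ y‖ₑ ^ 2 ∂μ) * ∫⁻ z in A, ‖W z‖ₑ ^ 2 ∂μ := by rw [h3]

/-- PROOF. Fubini: `∫_y (⨍_{t ∈ D} star(ψ t) F(j t x y)) φ(y) = ⨍_{t ∈ D} star(ψ t) ∫_y F((j t x) y) φ(y) = ⨍_{t ∈ D} star(ψ t) lam F(j t x)`. Integrability on `D × G`: `|F(j t x y) φ(y)| ≤ B |φ(y)|` on the support of `φ` (compact `K = tsupport φ`, the compact set `x K`), `ν D < ∞`, `φ` integrable (continuous with compact support, `μ` finite on compact sets).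
`integral_integral_swap`, measurability from `hG.mj`. -/
theorem wm_conv [IsTopologicalGroup G] [BorelSpace G] [SecondCountableTopology G] [IsFiniteMeasureOnCompacts μ] [SFinite μ] [SFinite ν] (hG : GD emb j k μ ν ψ) {D : Set T} (fD : ν D ≠ ⊤) {φ F : G → ℂ} (cφ : Continuous φ)
    (sφ : HasCompactSupport φ) (mF : Measurable F) (bF : ∀ K : Set G, IsCompact K → ∃ B : ℝ, ∀ t, ∀ y ∈ K, ‖F (j t * y)‖ ≤ B) {lam : ℂ}
    (hl : ∀ x, ∫ y, F (x * y) * φ y ∂μ = lam * F x) (x : G) : ∫ y, Wm j ψ ν D F (x * y) * φ y ∂μ = lam * Wm j ψ ν D F x := by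
  have hxK : IsCompact ((fun y => x * y) '' tsupport φ) := sφ.isCompact.image (continuous_const_mul x)
  obtain ⟨B, hB⟩ := bF _ hxK
  have e1 : ∀ y, Wm j ψ ν D F (x * y) * φ y = ((ν.real D)⁻¹ : ℝ) • ∫ t in D, star (ψ t) * F (j t * (x * y)) * φ y ∂ν := by
    intro y
    rw [Wm, setAverage_eq, smul_mul_assoc, ← integral_mul_const]
  have e2 : lam * Wm j ψ ν D F x = ((ν.real D)⁻¹ : ℝ) • ∫ t in D, star (ψ t) * (lam * F (j t * x)) ∂ν := by
    rw [Wm, setAverage_eq, mul_smul_comm, ← integral_const_mul]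
    congr 1
    refine integral_congr_ae (Filter.Eventually.of_forall fun t => ?_)
    change lam * (star (ψ t) * F (j t * x)) = star (ψ t) * (lam * F (j t * x))
    ring
  rw [e2]
  simp only [e1]
  rw [integral_smul]
  congr 1
  have mJ : Measurable fun p : G × T => F (j p.2 * (x * p.1)) := by
    have h1 : Measurable fun p : G × T => ((p.2, x * p.1) : T × G) :=
      measurable_snd.prodMk ((measurable_const_mul x).comp measurable_fst)
    exact mF.comp (hG.mj.comp h1)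
  have mS : Measurable fun p : G × T => star (ψ p.2) :=
    (continuous_star.measurable).comp (hG.mψ.comp measurable_snd)
  have mAll : Measurable fun p : G × T => star (ψ p.2) * F (j p.2 * (x * p.1)) * φ p.1 :=
    (mS.mul mJ).mul (cφ.measurable.comp measurable_fst)
  have iφ : Integrable φ μ := cφ.integrable_of_hasCompactSupport sφ
  have i0 : Integrable (fun p : G × T => (B : ℝ) * ‖φ p.1‖ * 1) (μ.prod (ν.restrict D)) := by
    have : IsFiniteMeasure (ν.restrict D) := ⟨by rw [Measure.restrict_apply_univ]; exact fD.lt_top⟩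
    exact (iφ.norm.const_mul B).mul_prod (integrable_const (1 : ℝ))
  have iAll : Integrable (fun p : G × T => star (ψ p.2) * F (j p.2 * (x * p.1)) * φ p.1) (μ.prod (ν.restrict D)) := by
    refine i0.mono' mAll.aestronglyMeasurable (Filter.Eventually.of_forall fun p => ?_)
    by_cases hp : φ p.1 = 0
    · rw [hp]; simp
    · have hp' : x * p.1 ∈ (fun y => x * y) '' tsupport φ := ⟨p.1, subset_tsupport φ hp, rfl⟩
      rw [norm_mul, norm_mul, norm_star, hG.nψ, one_mul, mul_one]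
      exact mul_le_mul_of_nonneg_right (hB p.2 _ hp') (norm_nonneg _)
  rw [integral_integral_swap iAll]
  refine integral_congr_ae (Filter.Eventually.of_forall fun t => ?_)
  change ∫ y, star (ψ t) * F (j t * (x * y)) * φ y ∂μ = star (ψ t) * (lam * F (j t * x))
  rw [← hl (j t * x), ← integral_const_mul]
  refine integral_congr_ae (Filter.Eventually.of_forall fun y => ?_)
  change star (ψ t) * F (j t * (x * y)) * φ y = star (ψ t) * (F (j t * x * y) * φ y)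
  rw [mul_assoc (j t) x y, mul_assoc]

/-- PROOF. `c i = star (a i)`: `(∑ ‖a i‖²)² ≤ C ∑ ‖a i‖²`; divide (`∑ ‖a i‖ₑ² < ∞`; if it is zero there is nothing to prove). -/
theorem bessel {m : ℕ} (a : Fin m → ℂ) {C : ℝ≥0∞} (h : ∀ c : Fin m → ℂ, ‖∑ i, c i * a i‖ₑ ^ 2 ≤ C * ∑ i, ‖c i‖ₑ ^ 2) : ∑ i, ‖a i‖ₑ ^ 2 ≤ C := by
  set S : ℝ≥0∞ := ∑ i, ‖a i‖ₑ ^ 2 with hS
  have h1 := h fun i => star (a i)
  have e1 : ∑ i, ‖star (a i)‖ₑ ^ 2 = S := by
    refine Finset.sum_congr rfl fun i _ => ?_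
    rw [← ofReal_norm, ← ofReal_norm, norm_star]
  have e2 : ‖∑ i, star (a i) * a i‖ₑ = S := by
    have e3 : ∑ i, star (a i) * a i = ((∑ i, ‖a i‖ ^ 2 : ℝ) : ℂ) := by
      rw [Complex.ofReal_sum]
      refine Finset.sum_congr rfl fun i _ => ?_
      have := Complex.conj_mul' (a i)
      rw [← Complex.star_def] at this
      rw [this]
      push_cast
      rfl
    rw [e3, ← ofReal_norm, Complex.norm_real, Real.norm_of_nonneg (Finset.sum_nonneg fun i _ => sq_nonneg _),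
      ENNReal.ofReal_sum_of_nonneg fun i _ => sq_nonneg _]
    refine Finset.sum_congr rfl fun i _ => ?_
    rw [ENNReal.ofReal_pow (norm_nonneg _), ofReal_norm]
  rw [e1, e2] at h1
  have fS : S ≠ ⊤ := by
    rw [hS]
    exact (ENNReal.sum_lt_top.2 fun i _ => ENNReal.pow_lt_top enorm_lt_top).ne
  by_cases h0 : S = 0
  · rw [h0]; exact zero_le
  · rw [sq] at h1
    exact (ENNReal.mul_le_mul_iff_left h0 fS).1 h1

end

end Pool.Agent.Lib.L1S
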