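import Pool.Agent.Lib.L1S.AN8

/-!
# AN13 (S/M): transport of an orthonormal family by a Hecke translation
-/

namespace Pool.Agent.Lib.L1S

open MeasureTheory Pool.Agent.Lib.H33W Pool.Agent.Lib.H67G
open scoped ENNReal

noncomputable section

/-- PROOF. Measurable: preimage under `x ↦ h₀ • x`. `γ' • x ∈ F'` iff `(h₀ γ' h₀⁻¹) • (h₀ • x) ∈ F`, and `γ' ↦ h₀ γ' h₀⁻¹` is a bijection `Γ' → Γ`. -/
theorem tr_sf {H X : Type} [Group H] [MulAction H X] [MeasurableSpace X] [MeasurableConstSMul H X] {Γ Γ' : Subgroup H} {h₀ : H} (h : ∀ g, g ∈ Γ' ↔ h₀ * g * h₀⁻¹ ∈ Γ)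
    {F : Set X} (hF : SF Γ F) : SF Γ' {x | h₀ • x ∈ F} := by
  refine ⟨(measurable_const_smul h₀) hF.meas, fun x => ?_⟩
  obtain ⟨γ, hγ, hu⟩ := hF.fd (h₀ • x)
  have hm : h₀⁻¹ * (γ : H) * h₀ ∈ Γ' := by
    rw [h]
    have e : h₀ * (h₀⁻¹ * (γ : H) * h₀) * h₀⁻¹ = γ := by group
    rw [e]
    exact γ.2
  refine ⟨⟨h₀⁻¹ * (γ : H) * h₀, hm⟩, ?_, ?_⟩
  · show h₀ • (h₀⁻¹ * (γ : H) * h₀) • x ∈ F
    rw [smul_smul]
    have e : h₀ * (h₀⁻¹ * (γ : H) * h₀) = γ * h₀ := by group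
    rw [e, mul_smul]
    exact hγ
  · rintro ⟨g, hg⟩ hgx
    have hg2 : h₀ * g * h₀⁻¹ ∈ Γ := (h g).1 hg
    have h1 : (⟨h₀ * g * h₀⁻¹, hg2⟩ : Γ) = γ := by
      apply hu
      show (h₀ * g * h₀⁻¹) • h₀ • x ∈ F
      rw [smul_smul]
      have e : h₀ * g * h₀⁻¹ * h₀ = h₀ * g := by group
      rw [e, mul_smul]
      exact hgx
    apply Subtype.ext
    show g = h₀⁻¹ * (γ : H) * h₀
    rw [← h1]
    show g = h₀⁻¹ * (h₀ * g * h₀⁻¹) * h₀
    group

/-- PROOF. `x ↦ h₀ • x` preserves `μ` (`SMulInvariantMeasure`), so the left side is `∫⁻_F ‖∑ c_i f_i‖ₑ²` (`MeasurePreserving.setLIntegral_comp_preimage`), and this is `∑ ‖c_i‖²` by orthonormality: `‖∑ c_i f_i‖² = ∑_{i,k} star(c_i) c_k star(f_i) f_k`, integrable as the `f_i` are in `L²` (`MemLp.integrable_mul` or `MemLp.integrable_sq`);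
`∫⁻ ‖·‖ₑ²` of an `L²` function is `ofReal` of the Bochner integral of `‖·‖²` (compare `H67G.b5_sq`). -/
theorem tr_norm {H X : Type} [Group H] [MulAction H X] [MeasurableSpace X] [MeasurableConstSMul H X] {μ : Measure X} [SMulInvariantMeasure H X μ] (h₀ : H)
    {F : Set X} (mF : MeasurableSet F) {m : ℕ} {f : Fin m → X → ℂ} (mf : ∀ i, Measurable (f i)) (l2 : ∀ i, MemLp (f i) 2 (μ.restrict F))
    (ho : ∀ i l, ∫ x in F, star (f i x) * f l x ∂μ = if i = l then 1 else 0) (c : Fin m → ℂ) :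
    ∫⁻ x in {x | h₀ • x ∈ F}, ‖∑ i, c i * f i (h₀ • x)‖ₑ ^ 2 ∂μ = ∑ i, ‖c i‖ₑ ^ 2 := by
  have mp : MeasurePreserving (fun x : X => h₀ • x) μ μ := measurePreserving_smul h₀ μ
  have mS : Measurable fun x : X => ∑ i, c i * f i x :=
    Finset.measurable_sum _ fun i _ => (mf i).const_mul (c i)
  have e1 : ∫⁻ x in {x | h₀ • x ∈ F}, ‖∑ i, c i * f i (h₀ • x)‖ₑ ^ 2 ∂μ = ∫⁻ x in F, ‖∑ i, c i * f i x‖ₑ ^ 2 ∂μ := by
    rw [← mp.setLIntegral_comp_preimage mF (f := fun x => ‖∑ i, c i * f i x‖ₑ ^ 2) (mS.enorm.pow_const 2)]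
    rfl
  rw [e1]
  -- the square of the norm of the sum
  have l2S : MemLp (fun x => ∑ i, c i * f i x) 2 (μ.restrict F) :=
    memLp_finset_sum _ fun i _ => (l2 i).const_mul (c i)
  have hint : ∀ i l, Integrable (fun x => star (f i x) * f l x) (μ.restrict F) := fun i l =>
    ((l2 i).star).integrable_mul (l2 l)
  have e2 : ∀ x, (((‖∑ i, c i * f i x‖ ^ 2 : ℝ)) : ℂ) = ∑ i, ∑ l, star (c i) * c l * (star (f i x) * f l x) := by
    intro x
    have h1 : (((‖∑ i, c i * f i x‖ ^ 2 : ℝ)) : ℂ) = star (∑ i, c i * f i x) * ∑ i, c i * f i x := by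
      rw [Complex.star_def, Complex.conj_mul']
      push_cast
      rfl
    rw [h1, star_sum, Finset.sum_mul_sum]
    refine Finset.sum_congr rfl fun i _ => Finset.sum_congr rfl fun l _ => ?_
    rw [star_mul']
    ring
  have e3 : ∫ x in F, (((‖∑ i, c i * f i x‖ ^ 2 : ℝ)) : ℂ) ∂μ = ((∑ i, ‖c i‖ ^ 2 : ℝ) : ℂ) := by
    simp_rw [e2]
    rw [integral_finset_sum _ fun i _ => integrable_finset_sum _ fun l _ => (hint i l).const_mul _]
    push_cast
    refine Finset.sum_congr rfl fun i _ => ?_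
    rw [integral_finset_sum _ fun l _ => (hint i l).const_mul _]
    have e4 : ∀ l, ∫ x in F, star (c i) * c l * (star (f i x) * f l x) ∂μ = if i = l then star (c i) * c l else 0 := by
      intro l
      rw [integral_const_mul, ho i l]
      split_ifs <;> simp
    simp_rw [e4]
    rw [Finset.sum_ite_eq Finset.univ i, if_pos (Finset.mem_univ i), Complex.star_def, Complex.conj_mul']
  have hfin : ∫⁻ x in F, ‖∑ i, c i * f i x‖ₑ ^ 2 ∂μ ≠ ⊤ := by
    have h1 := l2S.eLpNorm_lt_top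
    rw [eLpNorm_lt_top_iff_lintegral_rpow_enorm_lt_top two_ne_zero ENNReal.ofNat_ne_top] at h1
    refine ne_of_lt (lt_of_le_of_lt (le_of_eq ?_) h1)
    refine lintegral_congr fun x => ?_
    rw [ENNReal.toReal_ofNat, ENNReal.rpow_ofNat]
  have e5 := b5_sq (μ.restrict F) mS hfin
  rw [← e5, e3, enorm_eq_nnnorm]
  rw [Complex.nnnorm_real]
  rw [← enorm_eq_nnnorm, ← ofReal_norm_eq_enorm, Real.norm_of_nonneg (Finset.sum_nonneg fun i _ => sq_nonneg _),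
    ENNReal.ofReal_sum_of_nonneg fun i _ => sq_nonneg _]
  refine Finset.sum_congr rfl fun i _ => ?_
  rw [ENNReal.ofReal_pow (norm_nonneg _), ofReal_norm_eq_enorm]

end

end Pool.Agent.Lib.L1S
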