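import Pool.Agent.Lib.L1S.AN1
import Pool.Agent.Lib.L1S.AN8

/-!
# AN16 (S/M): subgroups of finite index; sums over representatives
-/

namespace Pool.Agent.Lib.L1S

open MeasureTheory Pool.Agent.Lib.H33W Pool.Agent.Lib.H67G
open scoped ENNReal

noncomputable section

variable {H G T : Type} [Group H] [Group G] [Group T] [TopologicalSpace G] [MeasurableSpace G] [MeasurableSpace T] [MulAction H G] {HU : Subgroup H} [MulAction HU T]
    {emb : H →* G} {j : T →* G} {k : HU →* T} {μ : Measure G} {ν : Measure T} {ψ : T → ℂ}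

/-- The mean does not change if `Γ` is replaced by a subgroup of finite index. PROOF. As `wm_indep` (AN8): `∫_{D''} f = c ∫_{D'} f`, `ν D'' = c ν D'` with the same `c = u2k ..`, `0 < c < ∞` (`u2_int`, `u2_vol`, `u2_k_ne`, `u2_k_top`; if `ν D' = 0` both averages are zero). -/
theorem wm_sub [Countable H] (hG : GD emb j k μ ν ψ) {Γ Γ' : Subgroup H} (hle : Γ' ⊓ HU ≤ Γ) (hψ : ∀ h : HU, (h : H) ∈ Γ → ψ (k h) = 1) {D D' : Set T} (hD : SF (Γ.subgroupOf HU) D)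
    (hD' : SF (Γ'.subgroupOf HU) D') (fD : ν D' ≠ ⊤) {h : G → ℂ} (mh : Measurable h) (ih : ∀ γ ∈ Γ, ∀ x, h (γ • x) = h x) (x : G) : Wm j ψ ν D' h x = Wm j ψ ν D h x := by
  have hpres : ∀ g : HU, MeasurePreserving (fun t : T => g • t) ν ν := (gd_avg hG).ht
  have hle' : Γ'.subgroupOf HU ≤ Γ.subgroupOf HU := fun u hu => hle ⟨hu, u.2⟩
  have mf : Measurable fun t : T => star (ψ t) * h (j t * x) := by
    have h1 : Measurable fun t : T => j t * x :=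
      hG.mj.comp (measurable_id.prodMk measurable_const)
    exact (continuous_star.measurable.comp hG.mψ).mul (mh.comp h1)
  have inv : ∀ g ∈ Γ.subgroupOf HU, ∀ t : T, star (ψ (g • t)) * h (j (g • t) * x) = star (ψ t) * h (j t * x) := by
    intro g hg t
    rw [hG.actT, hG.hψ, hψ g (Subgroup.mem_subgroupOf.1 hg), one_mul, map_mul, hG.jk, mul_assoc, ← hG.act, ih _ (Subgroup.mem_subgroupOf.1 hg)]
  by_cases h0 : ν D = 0
  · have h1 : ν D' = 0 := by rw [u2_vol hpres hle' hD hD', h0, mul_zero]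
    rw [Wm, Wm, setAverage_eq, setAverage_eq, measureReal_def, measureReal_def, h0, h1]
    simp
  · exact u2_mean hpres hle' hD hD' h0 fD mf inv

/-- PROOF. `u2_vol` and `1 ≤ u2k`, `u2k ≠ ⊤` by `an_u2k`: the index of `Γ'.subgroupOf HU` in `Γ.subgroupOf HU` is not zero if the one of `Γ'` in `Γ` is not (`Subgroup.relIndex_inf_ne_zero`-type lemmas; `(Γ' ⊓ HU).relIndex (Γ ⊓ HU)`, or: an injection of the cosets). -/
theorem vol_sub [Countable H] (hG : GD emb j k μ ν ψ) {Γ Γ' : Subgroup H} (hle : Γ' ≤ Γ) (hi : Γ'.relIndex Γ ≠ 0) {D D' : Set T} (hD : SF (Γ.subgroupOf HU) D)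
    (hD' : SF (Γ'.subgroupOf HU) D') (fD : ν D ≠ ⊤) : ν D ≤ ν D' ∧ ν D' ≠ ⊤ := by
  have hpres : ∀ g : HU, MeasurePreserving (fun t : T => g • t) ν ν := (gd_avg hG).ht
  have hle' : Γ'.subgroupOf HU ≤ Γ.subgroupOf HU := fun u hu => hle hu
  have h1 : (Γ'.subgroupOf HU).relIndex (Γ.subgroupOf HU) = Γ'.relIndex (Γ ⊓ HU) := by
    rw [← Subgroup.inf_subgroupOf_right Γ HU]
    exact Subgroup.relIndex_subgroupOf inf_le_right
  have h2 : Γ'.relIndex (Γ ⊓ HU) ≠ 0 := fun h => hi (Subgroup.relIndex_eq_zero_of_le_right inf_le_left h)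
  have h3 : (Γ'.subgroupOf HU).relIndex (Γ.subgroupOf HU) ≠ 0 := by rw [h1]; exact h2
  have h4 : ν D' = ((Γ'.subgroupOf HU).relIndex (Γ.subgroupOf HU) : ℝ≥0∞) * ν D := by
    rw [u2_vol hpres hle' hD hD', an_u2k h3]
  have h5 : (1 : ℝ≥0∞) ≤ ((Γ'.subgroupOf HU).relIndex (Γ.subgroupOf HU) : ℝ≥0∞) := by
    exact_mod_cast Nat.one_le_iff_ne_zero.2 h3
  refine ⟨?_, ?_⟩
  · rw [h4]
    calc ν D = 1 * ν D := (one_mul _).symm
      _ ≤ _ := mul_le_mul_left h5 _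
  · rw [h4]
    exact ENNReal.mul_ne_top (ENNReal.natCast_ne_top _) fD

/-- The sum `cs` over cosets as a sum over representatives. PROOF. `w ↦ mk w⁻¹` is a bijection from `S` to the cosets `c` with `(Quotient.out c)⁻¹ ∈ Γ` (`H67G.out_coset`, `QuotientGroup.eq`), the terms agree by `H67G.b3_inv`: `finsum_mem_eq_of_bijOn`, `finsum_mem_coe_finset` (compare `H67G.b4_pt`). -/
theorem cs_fin {H : Type} [Group H] {U₀ Γ : Subgroup H} (hle : U₀ ≤ Γ) {S : Finset H} (hS : ∀ w ∈ S, w ∈ Γ) (hS' : ∀ u ∈ Γ, ∃! w, w ∈ S ∧ u * w⁻¹ ∈ U₀)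
    {b : H → ℂ} (hb : ∀ u ∈ U₀, ∀ g, b (u * g) = b g) : cs U₀ (Γ : Set H) b = ∑ w ∈ S, b w := by
  classical
  have e2 : cs U₀ (Γ : Set H) b = ∑ᶠ c ∈ {c : H ⧸ U₀ | (Quotient.out c)⁻¹ ∈ Γ}, b (Quotient.out c)⁻¹ := by
    rw [finsum_mem_def]
    refine finsum_congr fun c => ?_
    by_cases h : (Quotient.out c)⁻¹ ∈ (Γ : Set H)
    · rw [if_pos h, Set.indicator_of_mem (show c ∈ {c : H ⧸ U₀ | (Quotient.out c)⁻¹ ∈ Γ} from h)]
    · rw [if_neg h, Set.indicator_of_notMem (show c ∉ {c : H ⧸ U₀ | (Quotient.out c)⁻¹ ∈ Γ} from h)]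
  have hb1 : Set.BijOn (fun w : H => (QuotientGroup.mk w⁻¹ : H ⧸ U₀)) (S : Set H) {c : H ⧸ U₀ | (Quotient.out c)⁻¹ ∈ Γ} := by
    refine ⟨fun w hw => ?_, fun w hw w' hw' e => ?_, fun c hc => ?_⟩
    · obtain ⟨u, hu, e⟩ := out_coset U₀ w
      show (Quotient.out (QuotientGroup.mk w⁻¹ : H ⧸ U₀))⁻¹ ∈ Γ
      rw [e]
      exact Γ.mul_mem (hle hu) (hS w hw)
    · have h1 : (w⁻¹)⁻¹ * w'⁻¹ ∈ U₀ := QuotientGroup.eq.1 e
      rw [inv_inv] at h1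
      obtain ⟨z, _, hz⟩ := hS' w (hS w hw)
      have h2 : w = z := hz w ⟨hw, by rw [mul_inv_cancel]; exact U₀.one_mem⟩
      have h3 : w' = z := hz w' ⟨hw', h1⟩
      rw [h2, h3]
    · obtain ⟨w, ⟨hw, hu⟩, _⟩ := hS' (Quotient.out c)⁻¹ hc
      refine ⟨w, hw, ?_⟩
      show (QuotientGroup.mk w⁻¹ : H ⧸ U₀) = c
      rw [← QuotientGroup.out_eq' c]
      refine QuotientGroup.eq.2 ?_
      have e : (w⁻¹)⁻¹ * Quotient.out c = ((Quotient.out c)⁻¹ * w⁻¹)⁻¹ := by group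
      rw [e]
      exact U₀.inv_mem hu
  rw [e2, ← finsum_mem_coe_finset]
  refine (finsum_mem_eq_of_bijOn _ hb1 fun w _ => ?_).symm
  exact (b3_inv U₀ hb w).symm

/-- PROOF. The same bijection: the index is the number of cosets (`Subgroup.relIndex`, `Subgroup.index`, `Nat.card`; left cosets `w⁻¹ U₀`). -/
theorem card_fin {H : Type} [Group H] {U₀ Γ : Subgroup H} (hle : U₀ ≤ Γ) {S : Finset H} (hS : ∀ w ∈ S, w ∈ Γ) (hS' : ∀ u ∈ Γ, ∃! w, w ∈ S ∧ u * w⁻¹ ∈ U₀) :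
    U₀.relIndex Γ = S.card := by
  classical
  let f : S → (Γ ⧸ U₀.subgroupOf Γ) := fun w => QuotientGroup.mk (⟨w.1⁻¹, Γ.inv_mem (hS w.1 w.2)⟩ : Γ)
  have hf : Function.Bijective f := by
    refine ⟨fun w w' e => ?_, fun c => ?_⟩
    · have h0 : (⟨w.1⁻¹, Γ.inv_mem (hS w.1 w.2)⟩ : Γ)⁻¹ * ⟨w'.1⁻¹, Γ.inv_mem (hS w'.1 w'.2)⟩ ∈ U₀.subgroupOf Γ := QuotientGroup.eq.1 e
      have h1 : (w.1⁻¹)⁻¹ * w'.1⁻¹ ∈ U₀ := Subgroup.mem_subgroupOf.1 h0
      rw [inv_inv] at h1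
      obtain ⟨z, _, hz⟩ := hS' w.1 (hS w.1 w.2)
      have h2 : w.1 = z := hz w.1 ⟨w.2, by rw [mul_inv_cancel]; exact U₀.one_mem⟩
      have h3 : w'.1 = z := hz w'.1 ⟨w'.2, h1⟩
      exact Subtype.ext (h2.trans h3.symm)
    · obtain ⟨⟨g, hg⟩, rfl⟩ := QuotientGroup.mk_surjective c
      obtain ⟨w, ⟨hw, hu⟩, _⟩ := hS' g⁻¹ (Γ.inv_mem hg)
      refine ⟨⟨w, hw⟩, ?_⟩
      refine QuotientGroup.eq.2 (Subgroup.mem_subgroupOf.2 ?_)
      show (w⁻¹)⁻¹ * g ∈ U₀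
      have e : (w⁻¹)⁻¹ * g = (g⁻¹ * w⁻¹)⁻¹ := by group
      rw [e]
      exact U₀.inv_mem hu
  have h1 : Nat.card S = Nat.card (Γ ⧸ U₀.subgroupOf Γ) := Nat.card_congr (Equiv.ofBijective f hf)
  rw [Nat.card_eq_fintype_card, Fintype.card_coe] at h1
  exact h1.symm

end

end Pool.Agent.Lib.L1S
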