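import Pool.Agent.Lib.L1S.AN10
import Pool.Agent.Lib.L1S.AN11
import Pool.Agent.Lib.L1S.AN12
import Pool.Agent.Lib.L1S.AN13
import Pool.Agent.Lib.L1S.AN16

/-!
# AN14 (M/L): the density inequality in the abstract setting
-/

namespace Pool.Agent.Lib.L1S

open MeasureTheory Pool.Agent.Lib.H33W Pool.Agent.Lib.H67G
open scoped ENNReal

noncomputable section

/-- A function as in the theorem: continuous, invariant, in `L²`, eigenfunction of the convolution operator of `φ` with eigenvalue at least one in absolute value. -/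
structure AF {H G : Type} [Group H] [Group G] [TopologicalSpace G] [MeasurableSpace G] [MulAction H G] (μ : Measure G) (Γ : Subgroup H) (F : Set G)
    (φ f : G → ℂ) : Prop where
  cont : Continuous f
  inv : ∀ γ ∈ Γ, ∀ x, f (γ • x) = f x
  l2 : MemLp f 2 (μ.restrict F)
  eig : ∃ lam : ℂ, 1 ≤ ‖lam‖ ∧ ∀ x, ∫ y, f (x * y) * φ y ∂μ = lam * f x

section aux

variable {H G T : Type} [Group H] [Group G] [Group T] [TopologicalSpace G] [MeasurableSpace G] [MeasurableSpace T] [MulAction H G] {HU : Subgroup H} [MulAction HU T]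
    {emb : H →* G} {j : T →* G} {k : HU →* T} {μ : Measure G} {ν : Measure T} {ψ : T → ℂ}

/-- The mean is linear. -/
theorem an14_lin (hG : GD emb j k μ ν ψ) {D : Set T} (fD : ν D ≠ ⊤) {m : ℕ} {g : Fin m → G → ℂ} (mg : ∀ i, Measurable (g i))
    (x : G) (bg : ∀ i, ∃ B : ℝ, ∀ t, ‖g i (j t * x)‖ ≤ B) (c : Fin m → ℂ) :
    Wm j ψ ν D (fun y => ∑ i, c i * g i y) x = ∑ i, c i * Wm j ψ ν D (g i) x := by
  have hfin : IsFiniteMeasure (ν.restrict D) := ⟨by rw [Measure.restrict_apply_univ]; exact lt_top_iff_ne_top.2 fD⟩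
  have hmt : Measurable fun t : T => j t * x := hG.mj.comp (measurable_id.prodMk measurable_const)
  have hint : ∀ i, Integrable (fun t => star (ψ t) * g i (j t * x)) (ν.restrict D) := fun i => by
    obtain ⟨B, hB⟩ := bg i
    have hms : Measurable fun t => star (ψ t) := by
      have h1 : (fun t => star (ψ t)) = fun t => (starRingEnd ℂ) (ψ t) := rfl
      rw [h1]
      exact Complex.continuous_conj.measurable.comp hG.mψ
    refine Integrable.of_bound ((hms.mul ((mg i).comp hmt)).aestronglyMeasurable) B (Filter.Eventually.of_forall fun t => ?_)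
    rw [norm_mul, norm_star, hG.nψ, one_mul]
    exact hB t
  unfold Wm
  simp only [setAverage_eq]
  have h1 : ∫ t in D, star (ψ t) * ∑ i, c i * g i (j t * x) ∂ν = ∑ i, c i * ∫ t in D, star (ψ t) * g i (j t * x) ∂ν := by
    calc ∫ t in D, star (ψ t) * ∑ i, c i * g i (j t * x) ∂ν = ∫ t in D, ∑ i, c i * (star (ψ t) * g i (j t * x)) ∂ν := by
          refine integral_congr_ae (Filter.Eventually.of_forall fun t => ?_)
          show star (ψ t) * ∑ i, c i * g i (j t * x) = ∑ i, c i * (star (ψ t) * g i (j t * x))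
          rw [Finset.mul_sum]
          refine Finset.sum_congr rfl fun i _ => ?_
          ring
      _ = ∑ i, ∫ t in D, c i * (star (ψ t) * g i (j t * x)) ∂ν := integral_finsetSum _ fun i _ => (hint i).const_mul _
      _ = _ := Finset.sum_congr rfl fun i _ => integral_const_mul _ _
  rw [h1, Finset.smul_sum]
  refine Finset.sum_congr rfl fun i _ => ?_
  rw [mul_smul_comm]

/-- A continuous function which is invariant under `Γ'` is bounded on `T K`, `K` compact, if `Γ' ∩ U` is cocompact in `T`. -/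
theorem an14_bdd [TopologicalSpace T] [IsTopologicalGroup G] (hG : GD emb j k μ ν ψ) (cj : Continuous j) {Γ' : Subgroup H}
    (hcc : ∃ KT : Set T, IsCompact KT ∧ ∀ t, ∃ δ : HU, (δ : H) ∈ Γ' ∧ ∃ s ∈ KT, t = k δ * s) {g : G → ℂ} (cg : Continuous g) (ig : ∀ γ ∈ Γ', ∀ y, g (γ • y) = g y)
    (K : Set G) (hK : IsCompact K) : ∃ B : ℝ, ∀ t : T, ∀ y ∈ K, ‖g (j t * y)‖ ≤ B := by
  obtain ⟨KT, cKT, hKT⟩ := hcc
  have hc : IsCompact ((fun p : T × G => j p.1 * p.2) '' (KT ×ˢ K)) :=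
    (cKT.prod hK).image ((cj.comp continuous_fst).mul continuous_snd)
  obtain ⟨B, hB⟩ := hc.exists_bound_of_continuousOn cg.continuousOn
  refine ⟨B, fun t y hy => ?_⟩
  obtain ⟨δ, hδ, s, hs, rfl⟩ := hKT t
  have e : j (k δ * s) * y = (δ : H) • (j s * y) := by
    rw [hG.act, map_mul, hG.jk, mul_assoc]
  rw [e, ig _ hδ]
  exact hB _ ⟨(s, y), ⟨hs, hy⟩, rfl⟩

end aux

/-- **The density inequality.** `Γ' = h₀⁻¹ Γ h₀`, `Γ' ∩ U ⊆ Γ ∩ U` of index `q`, `β_i` the eigenvalue of `f_i` for the operator `f ↦ ∑_{c ∈ (Γ' ∩ U) \ (Γ ∩ U)} f(h₀ c ·)`. The dichotomy is needed for a subgroup `Γ₁` of index `c₁` in `Γ'` and the set `S ⊇ A = {z : φ(x⁻¹ z) ≠ 0}`.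
PROOF. Notation: `Φ = ∫⁻ ‖φ‖ₑ²`. Fundamental domains: `F' = {x | h₀ • x ∈ F}` of `Γ'` (`tr_sf`), `F₁` of `Γ₁`, `F_U` of `Γ₁ ⊓ HU` in `G`, `D'` of `Γ'.subgroupOf HU` in `T` (from `D`, `hle`), `D₁` of `Γ₁.subgroupOf HU` in `T` (all by `an_sf`). `ν D' = q ν D` (`u2_vol`, `an_u2k`), `ν D' ≤ ν D₁ < ∞` (`vol_sub`).
The data `SD` for `Γ₁`, `D₁`, `S`, `Q`. `h_i(y) = f_i(h₀ • y)` is invariant under `Γ'`; `W'(h) = Wm j ψ ν D' h = Wm j ψ ν D₁ h` (`wm_sub`; `ψ (k h) = 1` for `h ∈ Γ'` by `hle` and `one`), `l'(h) = ∫ W'_h(x y) φ(y) dy`.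
(1) For `c : Fin m → ℂ`, `h = ∑ c_i h_i`: `‖l'(h)‖ₑ² ≤ Φ ∫⁻_A ‖W'_h‖ₑ²` (`lf_sq`) and `ν(D₁) ∫⁻_A ‖W'_h‖ₑ² ≤ P ∫⁻_{F_U ∩ S} ‖W'_h‖ₑ² ≤ P ∫⁻_{F₁} ‖h‖ₑ² = P c₁ ∫⁻_{F'} ‖h‖ₑ² = P c₁ ∑ ‖c_i‖ₑ²` (`ls_point`, `ls_group`, `u2_lint`, `an_u2k`, `tr_norm`; `h` is bounded on `Q ⊆ K`, `K` compact). `l'` is linear in `h` on the span of the `h_i` (all integrals converge: `an14_bdd`). (2) `bessel`: `q ν(D) ∑ ‖l'(h_i)‖ₑ² ≤ Φ P c₁`. (3) `β_i Wm_D f_i (z) = q Wm_{D'} h_i (z)` for all `z` (`an_hecke`; the bound: `an14_bdd` for `h_i`), so `β_i l(f_i) = q l'(h_i)`, `l(f_i) = ∫ Wm_D f_i (x y) φ(y) dy = lam_i Wm_D f_i (x)` (`wm_conv`), `‖Wm_D f_i(x)‖ ≤ ‖l(f_i)‖`. (4) `∑ ‖β_i‖² ‖W_i‖² ≤ q² ∑ ‖l'(h_i)‖²`, so `q ν(D) ∑ ‖β_i W_i‖² ≤ q² Φ P c₁`. -/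
theorem l1_abs {H G T : Type} [Group H] [Countable H] [Group G] [Group T] [TopologicalSpace G] [IsTopologicalGroup G] [SecondCountableTopology G] [MeasurableSpace G] [BorelSpace G]
    [TopologicalSpace T] [MeasurableSpace T] [MulAction H G] {HU : Subgroup H} [MulAction HU T] {emb : H →* G} {j : T →* G} {k : HU →* T} {μ : Measure G} {ν : Measure T}
    [IsFiniteMeasureOnCompacts μ] [SFinite μ] [SFinite ν] {ψ : T → ℂ} (hG : GD emb j k μ ν ψ) (cj : Continuous j)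
    {Γ Γ' Γ₁ : Subgroup H} {h₀ : H} (hΓ : ∀ g, g ∈ Γ' ↔ h₀ * g * h₀⁻¹ ∈ Γ) (hle : Γ' ⊓ HU ≤ Γ) {D : Set T} (hD : SF (Γ.subgroupOf HU) D) (pD : ν D ≠ 0) (fD : ν D ≠ ⊤)
    {q : ℕ} (hq : (Γ'.subgroupOf HU).relIndex (Γ.subgroupOf HU) = q) (hq0 : q ≠ 0) (one : ∀ h : HU, (h : H) ∈ Γ → ψ (k h) = 1)
    (hcc : ∃ KT : Set T, IsCompact KT ∧ ∀ t, ∃ δ : HU, (δ : H) ∈ Γ' ∧ ∃ s ∈ KT, t = k δ * s) (hle1 : Γ₁ ≤ Γ') {c₁ : ℕ} (hc : Γ₁.relIndex Γ' = c₁) (hc0 : c₁ ≠ 0)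
    {S Q K : Set G} (mS : MeasurableSet S) (hS : ∀ t x, j t * x ∈ S ↔ x ∈ S) (fq : FQ μ Γ₁ HU S Q)
    (dich : ∀ γ ∈ Γ₁, γ ∉ HU → (∃ y ∈ S, γ • y ∈ S) → Dich Γ₁ HU (fun h => ψ (k h)) γ)
    (hK : IsCompact K) (hQK : Q ⊆ K) {φ : G → ℂ} (cφ : Continuous φ) (sφ : HasCompactSupport φ) {x : G}
    (hA : {z | φ (x⁻¹ * z) ≠ 0} ⊆ S) {P : ℝ≥0∞} (hP : ∀ z, ν {s | j s⁻¹ * z ∈ {z | φ (x⁻¹ * z) ≠ 0}} ≤ P)
    {F : Set G} (hF : SF Γ F) {m : ℕ} {f : Fin m → G → ℂ} (hf : ∀ i, AF μ Γ F φ (f i))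
    (ho : ∀ i l, ∫ x in F, star (f i x) * f l x ∂μ = if i = l then 1 else 0) {β : Fin m → ℂ}
    (hβ : ∀ i y, cs (Γ'.subgroupOf HU) ((Γ.subgroupOf HU : Subgroup HU) : Set HU) (fun c : HU => f i (h₀ • ((c : H) • y))) = β i * f i y) :
    ν D * ∑ i, ‖β i‖ₑ ^ 2 * ‖Wm j ψ ν D (f i) x‖ₑ ^ 2 ≤ c₁ * q * P * ∫⁻ y, ‖φ y‖ₑ ^ 2 ∂μ := by
  classical
  -- instances
  have hpres : ∀ g : H, MeasurePreserving (fun y : G => g • y) μ μ := fun g => by
    rw [show (fun y : G => g • y) = fun y => emb g * y from funext fun y => hG.act g y]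
    exact hG.lm (emb g)
  have i1 : MeasurableConstSMul H G := ⟨fun g => (hpres g).measurable⟩
  have i2 : SMulInvariantMeasure H G μ := ⟨fun g s hs => (hpres g).measure_preimage hs.nullMeasurableSet⟩
  have hpT : ∀ g : HU, MeasurePreserving (fun t : T => g • t) ν ν := fun g => by
    rw [show (fun t : T => g • t) = fun t => k g * t from funext fun t => hG.actT g t]
    exact hG.lT (k g)
  -- fundamental domains
  have hF' : SF Γ' {y | h₀ • y ∈ F} := tr_sf hΓ hF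
  obtain ⟨F₁, hF₁⟩ := an_sf (fun g => (hpres g).measurable) hle1 hF'
  obtain ⟨F_U, hFU⟩ := an_sf (fun g => (hpres g).measurable) (inf_le_left : Γ₁ ⊓ HU ≤ Γ₁) hF₁
  have hleU : Γ'.subgroupOf HU ≤ Γ.subgroupOf HU := fun u hu => hle ⟨hu, u.2⟩
  have hleU1 : Γ₁.subgroupOf HU ≤ Γ'.subgroupOf HU := fun u hu => hle1 hu
  obtain ⟨D', hD'⟩ := an_sf (fun g => (hpT g).measurable) hleU hD
  obtain ⟨D₁, hD₁⟩ := an_sf (fun g => (hpT g).measurable) hleU1 hD'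
  have vD' : ν D' = q * ν D := by
    rw [u2_vol hpT hleU hD hD', an_u2k (by rw [hq]; exact hq0), hq]
  have q0 : (q : ℝ≥0∞) ≠ 0 := by exact_mod_cast hq0
  have pD' : ν D' ≠ 0 := by rw [vD']; exact mul_ne_zero q0 pD
  have fD' : ν D' ≠ ⊤ := by rw [vD']; exact ENNReal.mul_ne_top (ENNReal.natCast_ne_top q) fD
  obtain ⟨v1, fD₁⟩ := vol_sub hG hle1 (by rw [hc]; exact hc0) hD' hD₁ fD'
  have pD₁ : ν D₁ ≠ 0 := fun h => pD' (le_antisymm (h ▸ v1) bot_le)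
  have one' : ∀ h : HU, (h : H) ∈ Γ' → ψ (k h) = 1 := fun h hh => one h (hle ⟨hh, h.2⟩)
  have one1 : ∀ h : HU, (h : H) ∈ Γ₁ → ψ (k h) = 1 := fun h hh => one' h (hle1 hh)
  have hSD : SD j k μ ν ψ Γ₁ D₁ S Q := ⟨hD₁, pD₁, fD₁, one1, mS, hS, fq, dich⟩
  -- the functions
  have mf : ∀ i, Measurable (f i) := fun i => (hf i).cont.measurable
  set g : Fin m → G → ℂ := fun i y => f i (h₀ • y) with hg
  have mg : ∀ i, Measurable (g i) := fun i => (mf i).comp (hpres h₀).measurable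
  have ig : ∀ i, ∀ γ ∈ Γ', ∀ y, g i (γ • y) = g i y := fun i γ hγ y => by
    show f i (h₀ • (γ • y)) = f i (h₀ • y)
    have e : h₀ • (γ • y) = (h₀ * γ * h₀⁻¹) • (h₀ • y) := by
      rw [← mul_smul, ← mul_smul, inv_mul_cancel_right]
    rw [e]
    exact (hf i).inv _ ((hΓ γ).1 hγ) _
  have cg : ∀ i, Continuous (g i) := fun i => by
    have e : g i = fun y => f i (emb h₀ * y) := funext fun y => by
      show f i (h₀ • y) = _
      rw [hG.act]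
    rw [e]
    exact (hf i).cont.comp (continuous_const.mul continuous_id)
  have bg : ∀ i, ∀ K' : Set G, IsCompact K' → ∃ B : ℝ, ∀ t : T, ∀ y ∈ K', ‖g i (j t * y)‖ ≤ B := fun i =>
    an14_bdd hG cj hcc (cg i) (ig i)
  have bf : ∀ i, ∀ K' : Set G, IsCompact K' → ∃ B : ℝ, ∀ t : T, ∀ y ∈ K', ‖f i (j t * y)‖ ≤ B := fun i =>
    an14_bdd (Γ' := Γ' ⊓ HU) hG cj (by
      obtain ⟨KT, cKT, hKT⟩ := hcc
      refine ⟨KT, cKT, fun t => ?_⟩
      obtain ⟨δ, hδ, h⟩ := hKT t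
      exact ⟨δ, ⟨hδ, δ.2⟩, h⟩) (hf i).cont fun γ hγ y => (hf i).inv γ (hle hγ) y
  have bg1 : ∀ i y, ∃ B : ℝ, ∀ t, ‖g i (j t * y)‖ ≤ B := fun i y => by
    obtain ⟨B, hB⟩ := bg i {y} isCompact_singleton
    exact ⟨B, fun t => hB t y rfl⟩
  -- the functional
  set a : Fin m → ℂ := fun i => ∫ y, Wm j ψ ν D' (g i) (x * y) * φ y ∂μ with ha
  have iφ : Integrable φ μ := cφ.integrable_of_hasCompactSupport sφ
  have hint : ∀ i, Integrable (fun y => Wm j ψ ν D' (g i) (x * y) * φ y) μ := fun i => by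
    obtain ⟨B, hB⟩ := bg i ((fun y => x * y) '' tsupport φ) (sφ.isCompact.image (continuous_const.mul continuous_id))
    have mW : Measurable fun y => Wm j ψ ν D' (g i) (x * y) := (wm_meas hG (mg i)).comp (hG.lm x).measurable
    refine Integrable.mono' (iφ.norm.const_mul |B|) ((mW.mul cφ.measurable).aestronglyMeasurable)
      (Filter.Eventually.of_forall fun y => ?_)
    by_cases hy : y ∈ tsupport φ
    · rw [norm_mul]
      refine mul_le_mul_of_nonneg_right ?_ (norm_nonneg _)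
      exact wm_bdd hG (abs_nonneg B) fun t => (hB t _ ⟨y, hy, rfl⟩).trans (le_abs_self B)
    · rw [image_eq_zero_of_notMem_tsupport hy]
      simp
  have hlin : ∀ c : Fin m → ℂ, ∫ y, Wm j ψ ν D' (fun z => ∑ i, c i * g i z) (x * y) * φ y ∂μ = ∑ i, c i * a i := fun c => by
    calc ∫ y, Wm j ψ ν D' (fun z => ∑ i, c i * g i z) (x * y) * φ y ∂μ
        = ∫ y, ∑ i, c i * (Wm j ψ ν D' (g i) (x * y) * φ y) ∂μ := by
          refine integral_congr_ae (Filter.Eventually.of_forall fun y => ?_)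
          show Wm j ψ ν D' (fun z => ∑ i, c i * g i z) (x * y) * φ y = ∑ i, c i * (Wm j ψ ν D' (g i) (x * y) * φ y)
          rw [an14_lin hG fD' mg _ (fun i => bg1 i _), Finset.sum_mul]
          refine Finset.sum_congr rfl fun i _ => ?_
          ring
      _ = ∑ i, ∫ y, c i * (Wm j ψ ν D' (g i) (x * y) * φ y) ∂μ := integral_finsetSum _ fun i _ => (hint i).const_mul _
      _ = _ := Finset.sum_congr rfl fun i _ => integral_const_mul _ _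
  set Φ : ℝ≥0∞ := ∫⁻ y, ‖φ y‖ₑ ^ 2 ∂μ with hΦ
  have mA : MeasurableSet {z | φ (x⁻¹ * z) ≠ 0} := by
    have h1 : Continuous fun z => φ (x⁻¹ * z) := cφ.comp (continuous_const.mul continuous_id)
    exact (isOpen_ne_fun h1 continuous_const).measurableSet
  -- step (1)
  have step1 : ∀ c : Fin m → ℂ, ν D' * ‖∑ i, c i * a i‖ₑ ^ 2 ≤ Φ * P * c₁ * ∑ i, ‖c i‖ₑ ^ 2 := fun c => by
    set h : G → ℂ := fun z => ∑ i, c i * g i z with hh
    have mh : Measurable h := Finset.measurable_fun_sum _ fun i _ => (mg i).const_mul _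
    have ih : ∀ γ ∈ Γ', ∀ y, h (γ • y) = h y := fun γ hγ y => by
      show ∑ i, c i * g i (γ • y) = ∑ i, c i * g i y
      exact Finset.sum_congr rfl fun i _ => by rw [ig i γ hγ y]
    have ih1 : ∀ γ ∈ Γ₁, ∀ y, h (γ • y) = h y := fun γ hγ y => ih γ (hle1 hγ) y
    have hB : ∃ B : ℝ, ∀ y ∈ Q, ‖h y‖ ≤ B := by
      choose B hB using fun i => bg i K hK
      refine ⟨∑ i, ‖c i‖ * B i, fun y hy => ?_⟩
      refine (norm_sum_le _ _).trans (Finset.sum_le_sum fun i _ => ?_)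
      rw [norm_mul]
      refine mul_le_mul_of_nonneg_left ?_ (norm_nonneg _)
      have := hB i 1 y (hQK hy)
      rwa [map_one, one_mul] at this
    obtain ⟨B, hB⟩ := hB
    have eW : Wm j ψ ν D' h = Wm j ψ ν D₁ h := funext fun z =>
      (wm_sub hG (inf_le_left.trans hle1) one' hD' hD₁ fD₁ mh ih z).symm
    have s1 := lf_sq hG cφ.measurable (wm_meas hG mh : Measurable (Wm j ψ ν D' h)) x
    rw [hlin c, eW] at s1
    have s2 := ls_point hG hSD hFU mh ih1 mA hA hP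
    have s3 := ls_group hG hSD hF₁ hFU mh ih1 hB
    have s4 : ∫⁻ y in F₁, ‖h y‖ₑ ^ 2 ∂μ = c₁ * ∑ i, ‖c i‖ₑ ^ 2 := by
      rw [u2_lint hpres hle1 hF' hF₁ (Φ := fun y => ‖h y‖ₑ ^ 2) (mh.enorm.pow_const 2) (fun γ hγ y => by
        show ‖h (γ • y)‖ₑ ^ 2 = ‖h y‖ₑ ^ 2
        rw [ih γ hγ y]), an_u2k (by rw [hc]; exact hc0), hc]
      congr 1
      exact tr_norm h₀ hF.meas mf (fun i => (hf i).l2) ho c
    calc ν D' * ‖∑ i, c i * a i‖ₑ ^ 2 ≤ ν D₁ * (Φ * ∫⁻ z in {z | φ (x⁻¹ * z) ≠ 0}, ‖Wm j ψ ν D₁ h z‖ₑ ^ 2 ∂μ) :=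
          mul_le_mul' v1 s1
      _ = Φ * (ν D₁ * ∫⁻ z in {z | φ (x⁻¹ * z) ≠ 0}, ‖Wm j ψ ν D₁ h z‖ₑ ^ 2 ∂μ) := by ring
      _ ≤ Φ * (P * ∫⁻ z in F_U ∩ S, ‖Wm j ψ ν D₁ h z‖ₑ ^ 2 ∂μ) := mul_le_mul_right s2 _
      _ ≤ Φ * (P * (c₁ * ∑ i, ‖c i‖ₑ ^ 2)) := mul_le_mul_right (mul_le_mul_right (s3.trans s4.le) _) _
      _ = _ := by ring
  -- step (2)
  have step2 : ν D' * ∑ i, ‖a i‖ₑ ^ 2 ≤ Φ * P * c₁ := by
    rw [ENNReal.mul_le_iff_le_inv pD' fD']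
    refine bessel a fun c => ?_
    have h1 := (ENNReal.mul_le_iff_le_inv pD' fD').1 (step1 c)
    refine h1.trans (le_of_eq ?_)
    ring
  -- step (3)
  have step3 : ∀ i, ‖β i‖ₑ ^ 2 * ‖Wm j ψ ν D (f i) x‖ₑ ^ 2 ≤ (q : ℝ≥0∞) ^ 2 * ‖a i‖ₑ ^ 2 := fun i => by
    obtain ⟨lam, hl1, hl⟩ := (hf i).eig
    have h1 : ∀ z, β i * Wm j ψ ν D (f i) z = q * Wm j ψ ν D' (g i) z := fun z => by
      obtain ⟨B, hB⟩ := bg1 i z
      exact an_hecke hG hle hD hD' pD fD hq hq0 one (mf i) (hf i).inv (fun γ hγ => (hΓ γ).1 hγ) hB (hβ i)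
    have h2 : β i * (lam * Wm j ψ ν D (f i) x) = q * a i := by
      rw [← wm_conv hG fD cφ sφ (mf i) (bf i) hl x, ha, ← integral_const_mul, ← integral_const_mul]
      refine integral_congr_ae (Filter.Eventually.of_forall fun y => ?_)
      show β i * (Wm j ψ ν D (f i) (x * y) * φ y) = q * (Wm j ψ ν D' (g i) (x * y) * φ y)
      rw [← mul_assoc, h1, mul_assoc]
    have h3 : ‖β i * Wm j ψ ν D (f i) x‖ₑ ≤ ‖(q : ℂ) * a i‖ₑ := by
      rw [← h2]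
      have h4 : β i * (lam * Wm j ψ ν D (f i) x) = lam * (β i * Wm j ψ ν D (f i) x) := by ring
      rw [h4, enorm_mul lam]
      have h5 : (1 : ℝ≥0∞) ≤ ‖lam‖ₑ := by
        rw [← ofReal_norm, ← ENNReal.ofReal_one]
        exact ENNReal.ofReal_le_ofReal hl1
      calc ‖β i * Wm j ψ ν D (f i) x‖ₑ = 1 * ‖β i * Wm j ψ ν D (f i) x‖ₑ := (one_mul _).symm
        _ ≤ _ := mul_le_mul_left h5 _
    have h6 : ‖(q : ℂ)‖ₑ = (q : ℝ≥0∞) := by
      rw [← ofReal_norm, Complex.norm_natCast, ENNReal.ofReal_natCast]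
    rw [enorm_mul, enorm_mul, h6] at h3
    rw [← mul_pow, ← mul_pow]
    exact pow_le_pow_left' h3 2
  -- step (4)
  calc ν D * ∑ i, ‖β i‖ₑ ^ 2 * ‖Wm j ψ ν D (f i) x‖ₑ ^ 2 ≤ ν D * ∑ i, (q : ℝ≥0∞) ^ 2 * ‖a i‖ₑ ^ 2 :=
        mul_le_mul_right (Finset.sum_le_sum fun i _ => step3 i) _
    _ = q * (ν D' * ∑ i, ‖a i‖ₑ ^ 2) := by
        rw [← Finset.mul_sum, vD']
        ring
    _ ≤ q * (Φ * P * c₁) := mul_le_mul_right step2 _
    _ = c₁ * q * P * Φ := by ring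

end

end Pool.Agent.Lib.L1S
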