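import Pool.Agent.Lib.L1S.AN1

/-!
# AN15 (M): a locally compact group with a lattice is unimodular
-/

namespace Pool.Agent.Lib.L1S

open MeasureTheory Pool.Agent.Lib.H33W Pool.Agent.Lib.H67G
open scoped ENNReal

noncomputable section

/-- PROOF. For `s : T` the measure `ν.map (· * s)` is again a Haar measure (`MeasureTheory.Measure.isHaarMeasure_map..`), so equal to `c • ν` (`isMulLeftInvariant_eq_smul` or `isHaarMeasure_eq_smul`); `D s⁻¹..`: the preimage `D₁ = {t | t * s ∈ D}` of `D` is again a strict fundamental domain of `Δ` (the action is by left multiplication), so `ν D₁ = ν D`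
(`H33W.u2_vol` with `G = G'`, `u2k G G = 1`), and `ν D₁ = c ν D`: `c = 1`. So `ν` is right invariant. The inverse: `ν.inv` is right invariant (`MeasureTheory.Measure.inv.instIsMulRightInvariant`), hence also left invariant by the same argument for.. : `ν.inv` is a right Haar measure; as `ν` is right invariant, `ν.inv` is left invariant, `ν.inv = c • ν`;
`D⁻¹` is a fundamental domain for the right action, so use instead: a compact neighbourhood `K` of `1` with `K⁻¹ = K` (`K ∩ K⁻¹`): `0 < ν K < ∞`, `ν.inv K = ν K⁻¹ = ν K`, so `c = 1`. -/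
theorem an_unimod {H T : Type} [Group H] [Countable H] [Group T] [TopologicalSpace T] [IsTopologicalGroup T] [LocallyCompactSpace T] [SecondCountableTopology T] [T2Space T]
    [MeasurableSpace T] [BorelSpace T] [MulAction H T] (k : H →* T) (hk : ∀ (h : H) (t : T), h • t = k h * t) {ν : Measure T} [ν.IsHaarMeasure] {Δ : Subgroup H} {D : Set T} (hD : SF Δ D)
    (fD : ν D ≠ ⊤) : (∀ s : T, MeasurePreserving (fun t : T => t * s) ν ν) ∧ MeasurePreserving (fun t : T => t⁻¹) ν ν := by
  have hpres : ∀ g : H, MeasurePreserving (fun x : T => g • x) ν ν := by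
    intro g
    have h1 := measurePreserving_mul_left ν (k g)
    have h2 : (fun x : T => g • x) = fun x : T => k g * x := funext fun x => hk g x
    rw [h2]
    exact h1
  have h0 : ν D ≠ 0 := by
    intro hz
    have h1 : ν Set.univ = 0 := by
      refine measure_mono_null (t := ⋃ g : Δ, (fun x : T => (g : H) • x) ⁻¹' D) ?_ ?_
      · intro x _
        obtain ⟨g, hg, -⟩ := hD.fd x
        exact Set.mem_iUnion.2 ⟨g, hg⟩
      · rw [measure_iUnion_null_iff]
        intro g
        rw [(hpres g).measure_preimage hD.meas.nullMeasurableSet]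
        exact hz
    exact (isOpen_univ.measure_pos ν ⟨1, trivial⟩).ne' h1
  have key : ∀ c : NNReal, (c : ℝ≥0∞) * ν D = ν D → c = 1 := by
    intro c hc
    have h1 : (c : ℝ≥0∞) * ν D = 1 * ν D := by rw [hc, one_mul]
    have h2 : (c : ℝ≥0∞) = 1 := (ENNReal.mul_left_inj h0 fD).1 h1
    exact_mod_cast h2
  have right : ∀ s : T, MeasurePreserving (fun t : T => t * s) ν ν := by
    intro s
    have hms : Measurable (fun t : T => t * s) := (continuous_mul_const s).measurable
    have hD1 : SF Δ {t : T | t * s ∈ D} := by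
      refine ⟨hms hD.meas, ?_⟩
      intro x
      obtain ⟨g, hg, hu⟩ := hD.fd (x * s)
      have e : ∀ g : Δ, (g • x) * s = g • (x * s) := by
        intro g
        show ((g : H) • x) * s = (g : H) • (x * s)
        rw [hk, hk, mul_assoc]
      refine ⟨g, ?_, ?_⟩
      · show (g • x) * s ∈ D
        rw [e]
        exact hg
      · intro g' hg'
        apply hu
        have h3 : (g' • x) * s ∈ D := hg'
        rw [e] at h3
        exact h3
    have v1 : ν {t : T | t * s ∈ D} = ν D :=
      (u2_vol hpres le_rfl hD hD1).trans (u2_vol hpres le_rfl hD hD).symm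
    have e1 : (ν.map fun t : T => t * s) = Measure.haarScalarFactor (ν.map fun t : T => t * s) ν • ν :=
      Measure.isMulLeftInvariant_eq_smul _ ν
    have e2 : Measure.haarScalarFactor (ν.map fun t : T => t * s) ν = 1 := by
      apply key
      have h3 : (ν.map fun t : T => t * s) D = ν D := by
        rw [Measure.map_apply hms hD.meas]
        exact v1
      have h4 : (Measure.haarScalarFactor (ν.map fun t : T => t * s) ν • ν) D = ν D := by
        rw [← e1]
        exact h3
      exact h4
    refine ⟨hms, ?_⟩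
    rw [e2, one_smul] at e1
    exact e1
  refine ⟨right, ?_⟩
  have : ν.IsMulRightInvariant := ⟨fun s => (right s).map_eq⟩
  have : IsFiniteMeasureOnCompacts ν.inv := ⟨fun K hK => by
    rw [Measure.inv_apply]
    exact hK.inv.measure_lt_top⟩
  have e1 : ν.inv = Measure.haarScalarFactor ν.inv ν • ν := Measure.isMulLeftInvariant_eq_smul _ ν
  obtain ⟨K, hK, hK1⟩ := exists_compact_mem_nhds (1 : T)
  have hKi : K ∩ K⁻¹ ∈ nhds (1 : T) := by
    refine Filter.inter_mem hK1 ?_
    have : (fun t : T => t⁻¹) ⁻¹' K ∈ nhds (1 : T) := continuous_inv.continuousAt.preimage_mem_nhds (by rw [inv_one]; exact hK1)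
    exact this
  have hKc : IsCompact (K ∩ K⁻¹) := hK.inter hK.inv
  have hKinv : (K ∩ K⁻¹)⁻¹ = K ∩ K⁻¹ := by
    rw [Set.inter_inv, inv_inv, Set.inter_comm]
  have p1 : ν (K ∩ K⁻¹) ≠ 0 := (Measure.measure_pos_of_mem_nhds ν hKi).ne'
  have p2 : ν (K ∩ K⁻¹) ≠ ⊤ := hKc.measure_lt_top.ne
  have e2 : Measure.haarScalarFactor ν.inv ν = 1 := by
    have h3 : ν.inv (K ∩ K⁻¹) = ν (K ∩ K⁻¹) := by
      rw [Measure.inv_apply, hKinv]
    have h4 : (Measure.haarScalarFactor ν.inv ν : ℝ≥0∞) * ν (K ∩ K⁻¹) = 1 * ν (K ∩ K⁻¹) := by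
      rw [one_mul]
      have h5 : (Measure.haarScalarFactor ν.inv ν • ν) (K ∩ K⁻¹) = ν (K ∩ K⁻¹) := by
        rw [← e1]
        exact h3
      exact h5
    have h2 : (Measure.haarScalarFactor ν.inv ν : ℝ≥0∞) = 1 := (ENNReal.mul_left_inj p1 p2).1 h4
    exact_mod_cast h2
  refine ⟨continuous_inv.measurable, ?_⟩
  rw [e2, one_smul] at e1
  exact e1

end

end Pool.Agent.Lib.L1S
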