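import Pool.Agent.Lib.L1S.AN14

/-!
# AN17: the density inequality in the abstract setting, without Hecke eigenvalues (form A)
-/

namespace Pool.Agent.Lib.L1S

open MeasureTheory Pool.Agent.Lib.H33W Pool.Agent.Lib.H67G
open scoped ENNReal

noncomputable section

/-- **The density inequality, form A.** `Γ' = h₀⁻¹ Γ h₀`, `Γ' ∩ U ⊆ Γ ∩ U`, `D'` a fundamental domain of `Γ' ∩ U`: the mean square of the `Γ'`-means of `f_i(h₀ ·)`. No Hecke eigenvalues. The proof is the one of `l1_abs` (steps 1 and 2) and `wm_conv` for `f_i(h₀ ·)`. -/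
theorem l1_absA {H G T : Type} [Group H] [Countable H] [Group G] [Group T] [TopologicalSpace G] [IsTopologicalGroup G] [SecondCountableTopology G] [MeasurableSpace G] [BorelSpace G]
    [TopologicalSpace T] [MeasurableSpace T] [MulAction H G] {HU : Subgroup H} [MulAction HU T] {emb : H →* G} {j : T →* G} {k : HU →* T} {μ : Measure G} {ν : Measure T}
    [IsFiniteMeasureOnCompacts μ] [SFinite μ] [SFinite ν] {ψ : T → ℂ} (hG : GD emb j k μ ν ψ) (cj : Continuous j)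
    {Γ Γ' Γ₁ : Subgroup H} {h₀ : H} (hΓ : ∀ g, g ∈ Γ' ↔ h₀ * g * h₀⁻¹ ∈ Γ) {D' : Set T} (hD' : SF (Γ'.subgroupOf HU) D') (pD' : ν D' ≠ 0) (fD' : ν D' ≠ ⊤) (one' : ∀ h : HU, (h : H) ∈ Γ' → ψ (k h) = 1)
    (hcc : ∃ KT : Set T, IsCompact KT ∧ ∀ t, ∃ δ : HU, (δ : H) ∈ Γ' ∧ ∃ s ∈ KT, t = k δ * s) (hle1 : Γ₁ ≤ Γ') {c₁ : ℕ} (hc : Γ₁.relIndex Γ' = c₁) (hc0 : c₁ ≠ 0)
    {S Q K : Set G} (mS : MeasurableSet S) (hS : ∀ t x, j t * x ∈ S ↔ x ∈ S) (fq : FQ μ Γ₁ HU S Q)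
    (dich : ∀ γ ∈ Γ₁, γ ∉ HU → (∃ y ∈ S, γ • y ∈ S) → Dich Γ₁ HU (fun h => ψ (k h)) γ)
    (hK : IsCompact K) (hQK : Q ⊆ K) {φ : G → ℂ} (cφ : Continuous φ) (sφ : HasCompactSupport φ) {x : G}
    (hA : {z | φ (x⁻¹ * z) ≠ 0} ⊆ S) {P : ℝ≥0∞} (hP : ∀ z, ν {s | j s⁻¹ * z ∈ {z | φ (x⁻¹ * z) ≠ 0}} ≤ P)
    {F : Set G} (hF : SF Γ F) {m : ℕ} {f : Fin m → G → ℂ} (hf : ∀ i, AF μ Γ F φ (f i))
    (ho : ∀ i l, ∫ x in F, star (f i x) * f l x ∂μ = if i = l then 1 else 0) :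
    ν D' * ∑ i, ‖Wm j ψ ν D' (fun y => f i (h₀ • y)) x‖ₑ ^ 2 ≤ c₁ * P * ∫⁻ y, ‖φ y‖ₑ ^ 2 ∂μ := by
  classical
  -- instances
  have hpres : ∀ g : H, MeasurePreserving (fun y : G => g • y) μ μ := fun g => by
    rw [show (fun y : G => g • y) = fun y => emb g * y from funext fun y => hG.act g y]
    exact hG.lm (emb g)
  have i1 : MeasurableConstSMul H G := ⟨fun g => (hpres g).measurable⟩
  have i2 : SMulInvariantMeasure H G μ := ⟨fun g s hs => (hpres g).measure_preimage hs.nullMeasurableSet⟩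
  have hpT : ∀ g : HU, MeasurePreserving (fun t : T => g • t) ν ν := fun g => by
    rw [show (fun t : T => g • t) = fun t => k g * t from funext fun t => hG.actT g t]
    exact hG.lT (k g)
  -- fundamental domains
  have hF' : SF Γ' {y | h₀ • y ∈ F} := tr_sf hΓ hF
  obtain ⟨F₁, hF₁⟩ := an_sf (fun g => (hpres g).measurable) hle1 hF'
  obtain ⟨F_U, hFU⟩ := an_sf (fun g => (hpres g).measurable) (inf_le_left : Γ₁ ⊓ HU ≤ Γ₁) hF₁
  have hleU1 : Γ₁.subgroupOf HU ≤ Γ'.subgroupOf HU := fun u hu => hle1 hu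
  obtain ⟨D₁, hD₁⟩ := an_sf (fun g => (hpT g).measurable) hleU1 hD'
  obtain ⟨v1, fD₁⟩ := vol_sub hG hle1 (by rw [hc]; exact hc0) hD' hD₁ fD'
  have pD₁ : ν D₁ ≠ 0 := fun h => pD' (le_antisymm (h ▸ v1) bot_le)
  have one1 : ∀ h : HU, (h : H) ∈ Γ₁ → ψ (k h) = 1 := fun h hh => one' h (hle1 hh)
  have hSD : SD j k μ ν ψ Γ₁ D₁ S Q := ⟨hD₁, pD₁, fD₁, one1, mS, hS, fq, dich⟩
  -- the functions
  have mf : ∀ i, Measurable (f i) := fun i => (hf i).cont.measurable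
  set g : Fin m → G → ℂ := fun i y => f i (h₀ • y) with hg
  have mg : ∀ i, Measurable (g i) := fun i => (mf i).comp (hpres h₀).measurable
  have ig : ∀ i, ∀ γ ∈ Γ', ∀ y, g i (γ • y) = g i y := fun i γ hγ y => by
    show f i (h₀ • (γ • y)) = f i (h₀ • y)
    have e : h₀ • (γ • y) = (h₀ * γ * h₀⁻¹) • (h₀ • y) := by
      rw [← mul_smul, ← mul_smul, inv_mul_cancel_right]
    rw [e]
    exact (hf i).inv _ ((hΓ γ).1 hγ) _
  have cg : ∀ i, Continuous (g i) := fun i => by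
    have e : g i = fun y => f i (emb h₀ * y) := funext fun y => by
      show f i (h₀ • y) = _
      rw [hG.act]
    rw [e]
    exact (hf i).cont.comp (continuous_const.mul continuous_id)
  have bg : ∀ i, ∀ K' : Set G, IsCompact K' → ∃ B : ℝ, ∀ t : T, ∀ y ∈ K', ‖g i (j t * y)‖ ≤ B := fun i =>
    an14_bdd hG cj hcc (cg i) (ig i)
  have bg1 : ∀ i y, ∃ B : ℝ, ∀ t, ‖g i (j t * y)‖ ≤ B := fun i y => by
    obtain ⟨B, hB⟩ := bg i {y} isCompact_singleton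
    exact ⟨B, fun t => hB t y rfl⟩
  -- the functional
  set a : Fin m → ℂ := fun i => ∫ y, Wm j ψ ν D' (g i) (x * y) * φ y ∂μ with ha
  have iφ : Integrable φ μ := cφ.integrable_of_hasCompactSupport sφ
  have hint : ∀ i, Integrable (fun y => Wm j ψ ν D' (g i) (x * y) * φ y) μ := fun i => by
    obtain ⟨B, hB⟩ := bg i ((fun y => x * y) '' tsupport φ) (sφ.isCompact.image (continuous_const.mul continuous_id))
    have mW : Measurable fun y => Wm j ψ ν D' (g i) (x * y) := (wm_meas hG (mg i)).comp (hG.lm x).measurable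
    refine Integrable.mono' (iφ.norm.const_mul |B|) ((mW.mul cφ.measurable).aestronglyMeasurable)
      (Filter.Eventually.of_forall fun y => ?_)
    by_cases hy : y ∈ tsupport φ
    · rw [norm_mul]
      refine mul_le_mul_of_nonneg_right ?_ (norm_nonneg _)
      exact wm_bdd hG (abs_nonneg B) fun t => (hB t _ ⟨y, hy, rfl⟩).trans (le_abs_self B)
    · rw [image_eq_zero_of_notMem_tsupport hy]
      simp
  have hlin : ∀ c : Fin m → ℂ, ∫ y, Wm j ψ ν D' (fun z => ∑ i, c i * g i z) (x * y) * φ y ∂μ = ∑ i, c i * a i := fun c => by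
    calc ∫ y, Wm j ψ ν D' (fun z => ∑ i, c i * g i z) (x * y) * φ y ∂μ
        = ∫ y, ∑ i, c i * (Wm j ψ ν D' (g i) (x * y) * φ y) ∂μ := by
          refine integral_congr_ae (Filter.Eventually.of_forall fun y => ?_)
          show Wm j ψ ν D' (fun z => ∑ i, c i * g i z) (x * y) * φ y = ∑ i, c i * (Wm j ψ ν D' (g i) (x * y) * φ y)
          rw [an14_lin hG fD' mg _ (fun i => bg1 i _), Finset.sum_mul]
          refine Finset.sum_congr rfl fun i _ => ?_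
          ring
      _ = ∑ i, ∫ y, c i * (Wm j ψ ν D' (g i) (x * y) * φ y) ∂μ := integral_finsetSum _ fun i _ => (hint i).const_mul _
      _ = _ := Finset.sum_congr rfl fun i _ => integral_const_mul _ _
  set Φ : ℝ≥0∞ := ∫⁻ y, ‖φ y‖ₑ ^ 2 ∂μ with hΦ
  have mA : MeasurableSet {z | φ (x⁻¹ * z) ≠ 0} := by
    have h1 : Continuous fun z => φ (x⁻¹ * z) := cφ.comp (continuous_const.mul continuous_id)
    exact (isOpen_ne_fun h1 continuous_const).measurableSet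
  -- step (1)
  have step1 : ∀ c : Fin m → ℂ, ν D' * ‖∑ i, c i * a i‖ₑ ^ 2 ≤ Φ * P * c₁ * ∑ i, ‖c i‖ₑ ^ 2 := fun c => by
    set h : G → ℂ := fun z => ∑ i, c i * g i z with hh
    have mh : Measurable h := Finset.measurable_fun_sum _ fun i _ => (mg i).const_mul _
    have ih : ∀ γ ∈ Γ', ∀ y, h (γ • y) = h y := fun γ hγ y => by
      show ∑ i, c i * g i (γ • y) = ∑ i, c i * g i y
      exact Finset.sum_congr rfl fun i _ => by rw [ig i γ hγ y]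
    have ih1 : ∀ γ ∈ Γ₁, ∀ y, h (γ • y) = h y := fun γ hγ y => ih γ (hle1 hγ) y
    have hB : ∃ B : ℝ, ∀ y ∈ Q, ‖h y‖ ≤ B := by
      choose B hB using fun i => bg i K hK
      refine ⟨∑ i, ‖c i‖ * B i, fun y hy => ?_⟩
      refine (norm_sum_le _ _).trans (Finset.sum_le_sum fun i _ => ?_)
      rw [norm_mul]
      refine mul_le_mul_of_nonneg_left ?_ (norm_nonneg _)
      have := hB i 1 y (hQK hy)
      rwa [map_one, one_mul] at this
    obtain ⟨B, hB⟩ := hB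
    have eW : Wm j ψ ν D' h = Wm j ψ ν D₁ h := funext fun z =>
      (wm_sub hG (inf_le_left.trans hle1) one' hD' hD₁ fD₁ mh ih z).symm
    have s1 := lf_sq hG cφ.measurable (wm_meas hG mh : Measurable (Wm j ψ ν D' h)) x
    rw [hlin c, eW] at s1
    have s2 := ls_point hG hSD hFU mh ih1 mA hA hP
    have s3 := ls_group hG hSD hF₁ hFU mh ih1 hB
    have s4 : ∫⁻ y in F₁, ‖h y‖ₑ ^ 2 ∂μ = c₁ * ∑ i, ‖c i‖ₑ ^ 2 := by
      rw [u2_lint hpres hle1 hF' hF₁ (Φ := fun y => ‖h y‖ₑ ^ 2) (mh.enorm.pow_const 2) (fun γ hγ y => by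
        show ‖h (γ • y)‖ₑ ^ 2 = ‖h y‖ₑ ^ 2
        rw [ih γ hγ y]), an_u2k (by rw [hc]; exact hc0), hc]
      congr 1
      exact tr_norm h₀ hF.meas mf (fun i => (hf i).l2) ho c
    calc ν D' * ‖∑ i, c i * a i‖ₑ ^ 2 ≤ ν D₁ * (Φ * ∫⁻ z in {z | φ (x⁻¹ * z) ≠ 0}, ‖Wm j ψ ν D₁ h z‖ₑ ^ 2 ∂μ) :=
          mul_le_mul' v1 s1
      _ = Φ * (ν D₁ * ∫⁻ z in {z | φ (x⁻¹ * z) ≠ 0}, ‖Wm j ψ ν D₁ h z‖ₑ ^ 2 ∂μ) := by ring
      _ ≤ Φ * (P * ∫⁻ z in F_U ∩ S, ‖Wm j ψ ν D₁ h z‖ₑ ^ 2 ∂μ) := mul_le_mul_right s2 _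
      _ ≤ Φ * (P * (c₁ * ∑ i, ‖c i‖ₑ ^ 2)) := mul_le_mul_right (mul_le_mul_right (s3.trans s4.le) _) _
      _ = _ := by ring
  -- step (2)
  have step2 : ν D' * ∑ i, ‖a i‖ₑ ^ 2 ≤ Φ * P * c₁ := by
    rw [ENNReal.mul_le_iff_le_inv pD' fD']
    refine bessel a fun c => ?_
    have h1 := (ENNReal.mul_le_iff_le_inv pD' fD').1 (step1 c)
    refine h1.trans (le_of_eq ?_)
    ring
  -- step (3)
  have step3 : ∀ i, ‖Wm j ψ ν D' (g i) x‖ₑ ^ 2 ≤ ‖a i‖ₑ ^ 2 := fun i => by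
    obtain ⟨lam, hl1, hl⟩ := (hf i).eig
    have hl' : ∀ y, ∫ z, g i (y * z) * φ z ∂μ = lam * g i y := fun y => by
      have h1 := hl (h₀ • y)
      have h2 : ∀ z, g i (y * z) = f i (h₀ • y * z) := fun z => by
        show f i (h₀ • (y * z)) = _
        rw [hG.act, hG.act, mul_assoc]
      rw [← h1]
      refine integral_congr_ae (Filter.Eventually.of_forall fun z => ?_)
      show g i (y * z) * φ z = _
      rw [h2 z]
    have h2 : a i = lam * Wm j ψ ν D' (g i) x := wm_conv hG fD' cφ sφ (mg i) (bg i) hl' x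
    rw [h2, enorm_mul]
    have h5 : (1 : ℝ≥0∞) ≤ ‖lam‖ₑ := by
      rw [← ofReal_norm, ← ENNReal.ofReal_one]
      exact ENNReal.ofReal_le_ofReal hl1
    refine pow_le_pow_left' ?_ 2
    calc ‖Wm j ψ ν D' (g i) x‖ₑ = 1 * ‖Wm j ψ ν D' (g i) x‖ₑ := (one_mul _).symm
      _ ≤ _ := mul_le_mul_left h5 _
  calc ν D' * ∑ i, ‖Wm j ψ ν D' (fun y => f i (h₀ • y)) x‖ₑ ^ 2 ≤ ν D' * ∑ i, ‖a i‖ₑ ^ 2 :=
        mul_le_mul_right (Finset.sum_le_sum fun i _ => step3 i) _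
    _ ≤ Φ * P * c₁ := step2
    _ = c₁ * P * Φ := by ring

end

end Pool.Agent.Lib.L1S
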