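import Pool.Agent.Lib.L1S.AN1

/-!
# AN2 (M): the integral over a fundamental domain of a function which is multiplied by a constant of modulus one by a commensurating translation
-/

namespace Pool.Agent.Lib.L1S

open MeasureTheory Pool.Agent.Lib.H33W Pool.Agent.Lib.H67G
open scoped ENNReal

noncomputable section

/-- PROOF. `F₁` a fundamental domain of `Λ₁` (`an_sf`). `F₂ = {t | v • t ∈ F₁}` is one of `Λ₂` (`h ∈ Λ₂` iff `v h v⁻¹ ∈ Λ₁`, `(v h v⁻¹) • (v • t) = v • (h • t)`). With `I = ∫_F f`: `∫_{F₁} f = a I`, `∫_{F₂} f = b I` (`u2_int`; `a`, `b` positive real numbers: `an_u2k`, `u2_k_ne`).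
`∫_{F₁} f = ∫_{F₂} f(v • t) dt` (`t ↦ v • t` preserves the measure and `F₂` is the preimage of `F₁`: `MeasurePreserving.setIntegral_preimage_emb` needs an embedding, which `t ↦ v • t` is (it has the measurable inverse `t ↦ v⁻¹ • t`: `MeasurableEquiv`); or write with indicators and `integral_map`)
`= κ ∫_{F₂} f`. So `a I = κ b I`; if `I ≠ 0` then `a = κ b`, the absolute values give `a = b`, hence `κ = 1`. -/
theorem an_zero {H T : Type} [Group H] [Countable H] [MulAction H T] [MeasurableSpace T] {ν : Measure T} (hp : ∀ h : H, MeasurePreserving (fun t : T => h • t) ν ν)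
    {Λ Λ₁ Λ₂ : Subgroup H} (h1 : Λ₁ ≤ Λ) (h2 : Λ₂ ≤ Λ) (i1 : Λ₁.relIndex Λ ≠ 0) (i2 : Λ₂.relIndex Λ ≠ 0) {v : H} (hv : ∀ h : H, h ∈ Λ₂ ↔ v * h * v⁻¹ ∈ Λ₁)
    {F : Set T} (hF : SF Λ F) {f : T → ℂ} (mf : Measurable f) (inv : ∀ h ∈ Λ, ∀ t, f (h • t) = f t) {κ : ℂ} (hκ : ‖κ‖ = 1) (hκ1 : κ ≠ 1)
    (hf : ∀ t, f (v • t) = κ * f t) : ∫ t in F, f t ∂ν = 0 := by
  obtain ⟨F₁, hF₁⟩ := an_sf (fun h => (hp h).measurable) h1 hF
  have hF₂ : SF Λ₂ {t | v • t ∈ F₁} := by
    refine ⟨(hp v).measurable hF₁.meas, fun t => ?_⟩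
    obtain ⟨l, hl, hu⟩ := hF₁.fd (v • t)
    have e1 : v⁻¹ * l.1 * v ∈ Λ₂ := by
      rw [hv]
      have e : v * (v⁻¹ * l.1 * v) * v⁻¹ = l.1 := by group
      rw [e]
      exact l.2
    refine ⟨⟨_, e1⟩, ?_, ?_⟩
    · show v • ((v⁻¹ * l.1 * v) • t) ∈ F₁
      have e2 : v • ((v⁻¹ * l.1 * v) • t) = l.1 • (v • t) := by
        rw [smul_smul, smul_smul]
        congr 1
        group
      rw [e2]
      exact hl
    · rintro ⟨m, hm⟩ hm1
      have hm1' : v • (m • t) ∈ F₁ := hm1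
      have e3 : v • (m • t) = (v * m * v⁻¹) • (v • t) := by
        rw [smul_smul, smul_smul]
        congr 1
        group
      rw [e3] at hm1'
      have h3 := hu ⟨v * m * v⁻¹, (hv m).1 hm⟩ hm1'
      have h4 : v * m * v⁻¹ = l.1 := congrArg Subtype.val h3
      refine Subtype.ext ?_
      show m = v⁻¹ * l.1 * v
      rw [← h4]
      group
  have a1 := u2_int hp h1 hF hF₁ mf inv
  have a2 := u2_int hp h2 hF hF₂ mf inv
  have hval : ∫ t in F₁, f t ∂ν = κ * ∫ t in {t | v • t ∈ F₁}, f t ∂ν := by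
    have hm := (hp v).measurable
    have e4 : ∫ t in F₁, f t ∂ν = ∫ t in {t | v • t ∈ F₁}, f (v • t) ∂ν := by
      have m2 : MeasurableSet {t : T | v • t ∈ F₁} := hm hF₁.meas
      rw [← integral_indicator hF₁.meas, ← integral_indicator m2]
      have e5 : ∀ t, ({t | v • t ∈ F₁} : Set T).indicator (fun t => f (v • t)) t = (F₁.indicator f) (v • t) := by
        intro t
        by_cases ht : v • t ∈ F₁
        · rw [Set.indicator_of_mem (show t ∈ {t | v • t ∈ F₁} from ht), Set.indicator_of_mem ht]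
        · rw [Set.indicator_of_notMem (show t ∉ {t | v • t ∈ F₁} from ht), Set.indicator_of_notMem ht]
      simp only [e5]
      conv_lhs => rw [← (hp v).map_eq]
      exact integral_map hm.aemeasurable (mf.indicator hF₁.meas).aestronglyMeasurable
    rw [e4]
    simp only [hf]
    exact integral_const_mul κ f
  have p : ∀ {Λ' : Subgroup H}, Λ'.relIndex Λ ≠ 0 → 0 < (u2k Λ Λ').toReal := by
    intro Λ' hi
    refine ENNReal.toReal_pos (u2_k_ne Λ Λ') ?_
    rw [an_u2k hi]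
    exact ENNReal.natCast_ne_top _
  have p1 := p i1
  have p2 := p i2
  by_contra hI
  rw [a1, a2] at hval
  rw [Complex.real_smul, Complex.real_smul, ← mul_assoc] at hval
  have hval' := mul_right_cancel₀ hI hval
  have hn := congrArg norm hval'
  rw [norm_mul, hκ, one_mul, Complex.norm_real, Complex.norm_real, Real.norm_eq_abs, Real.norm_eq_abs, abs_of_pos p1, abs_of_pos p2] at hn
  rw [hn] at hval'
  have h0 : ((u2k Λ Λ₂).toReal : ℂ) ≠ 0 := by exact_mod_cast p2.ne'
  exact hκ1 (mul_right_cancel₀ h0 (by rw [one_mul]; exact hval'.symm))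

end

end Pool.Agent.Lib.L1S
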