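import Pool.Agent.Lib.L1S.AN0

/-!
# AN3 (M): double cosets
-/

namespace Pool.Agent.Lib.L1S

open MeasureTheory Pool.Agent.Lib.H33W Pool.Agent.Lib.H67G
open scoped ENNReal

noncomputable section

variable {H : Type} [Group H] {Γ HU : Subgroup H}

/-- PROOF. As `H67G.b4_bij`. Representatives `r = (Quotient.out c)⁻¹`: `mk (γ r)⁻¹` is the coset `U₀ γ r`, `U₀ = Γ ⊓ HU`; its representative is `u γ r` with `u ∈ U₀` (`H67G.out_coset`), in `DC` as `r ∈ Γ ∩ HU`.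
Injective: `U₀ γ r = U₀ γ r'` gives `γ r r'⁻¹ γ⁻¹ ∈ U₀`, `r r'⁻¹ ∈ La`, so `c = c'` (`QuotientGroup.eq`, `c = mk (out c)`, `out c = r⁻¹`). Surjective: `(out c)⁻¹ = u γ δ`; take the coset `mk δ⁻¹` of `La`, its representative is `l δ` with `l ∈ La` (`out_coset`),
`γ l δ = (γ l γ⁻¹) γ δ` is in the same coset of `U₀` as `γ δ`, that is in the coset of `(out c)⁻¹`. (`HU` as a type: the elements `δ` of `Γ ⊓ HU` as elements `⟨δ, hδ.2⟩` of `HU`.) -/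
theorem an_bij (γ : H) : Set.BijOn (fun c : HU ⧸ La Γ HU γ => (QuotientGroup.mk (γ * (((Quotient.out c)⁻¹ : HU) : H))⁻¹ : H ⧸ (Γ ⊓ HU)))
    {c : HU ⧸ La Γ HU γ | (Quotient.out c)⁻¹ ∈ Γ.subgroupOf HU} {c : H ⧸ (Γ ⊓ HU) | (Quotient.out c)⁻¹ ∈ DC Γ HU γ} := by
  refine ⟨?_, ?_, ?_⟩
  · intro c hc
    obtain ⟨u, hu, e⟩ := out_coset (Γ ⊓ HU) (γ * (((Quotient.out c)⁻¹ : HU) : H))
    have hc1 : (((Quotient.out c)⁻¹ : HU) : H) ∈ Γ := Subgroup.mem_subgroupOf.1 hc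
    refine ⟨u, hu, (((Quotient.out c)⁻¹ : HU) : H), ⟨hc1, SetLike.coe_mem _⟩, ?_⟩
    rw [e, mul_assoc]
  · intro c hc c' hc' e
    have hc1 : (((Quotient.out c)⁻¹ : HU) : H) ∈ Γ := Subgroup.mem_subgroupOf.1 hc
    have hc1' : (((Quotient.out c')⁻¹ : HU) : H) ∈ Γ := Subgroup.mem_subgroupOf.1 hc'
    have h : ((γ * (((Quotient.out c)⁻¹ : HU) : H))⁻¹)⁻¹ * (γ * (((Quotient.out c')⁻¹ : HU) : H))⁻¹ ∈ Γ ⊓ HU :=
      QuotientGroup.eq.1 e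
    have h1 : (Quotient.out c)⁻¹ * Quotient.out c' ∈ La Γ HU γ := by
      refine ⟨?_, ?_⟩
      · have h2 : (((Quotient.out c)⁻¹ * Quotient.out c' : HU) : H) =
            (((Quotient.out c)⁻¹ : HU) : H) * ((((Quotient.out c')⁻¹ : HU) : H))⁻¹ := by
          rw [Subgroup.coe_mul, Subgroup.coe_inv (H := HU) (Quotient.out c'), inv_inv]
        rw [h2]
        exact Γ.mul_mem hc1 (Γ.inv_mem hc1')
      · have h2 : γ * (((Quotient.out c)⁻¹ * Quotient.out c' : HU) : H) * γ⁻¹ =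
            ((γ * (((Quotient.out c)⁻¹ : HU) : H))⁻¹)⁻¹ * (γ * (((Quotient.out c')⁻¹ : HU) : H))⁻¹ := by
          rw [Subgroup.coe_mul, Subgroup.coe_inv (H := HU) (Quotient.out c')]
          group
        rw [h2]
        exact h
    have h3 : (QuotientGroup.mk (Quotient.out c) : HU ⧸ La Γ HU γ) = QuotientGroup.mk (Quotient.out c') :=
      QuotientGroup.eq.2 h1
    rwa [QuotientGroup.out_eq', QuotientGroup.out_eq'] at h3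
  · intro c2 hc2
    obtain ⟨u, hu, δ, hδ, e⟩ := hc2
    obtain ⟨l, hl, e2⟩ := out_coset (La Γ HU γ) (⟨δ, hδ.2⟩ : HU)
    refine ⟨QuotientGroup.mk (⟨δ, hδ.2⟩ : HU)⁻¹, ?_, ?_⟩
    · show (Quotient.out (QuotientGroup.mk (⟨δ, hδ.2⟩ : HU)⁻¹ : HU ⧸ La Γ HU γ))⁻¹ ∈ Γ.subgroupOf HU
      rw [e2, Subgroup.mem_subgroupOf, Subgroup.coe_mul]
      exact Γ.mul_mem hl.1 hδ.1
    · show (QuotientGroup.mk (γ * (((Quotient.out (QuotientGroup.mk (⟨δ, hδ.2⟩ : HU)⁻¹ : HU ⧸ La Γ HU γ))⁻¹ : HU) : H))⁻¹ :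
        H ⧸ (Γ ⊓ HU)) = c2
      rw [e2]
      have h3 : (QuotientGroup.mk (Quotient.out c2) : H ⧸ (Γ ⊓ HU)) = c2 := QuotientGroup.out_eq' c2
      rw [← h3, QuotientGroup.eq]
      have h4 : Quotient.out c2 = (u * γ * δ)⁻¹ := by rw [← e, inv_inv]
      rw [h4]
      have h5 : ((γ * ((l * ⟨δ, hδ.2⟩ : HU) : H))⁻¹)⁻¹ * (u * γ * δ)⁻¹ = (γ * (l : H) * γ⁻¹) * u⁻¹ := by
        rw [Subgroup.coe_mul]
        group
      rw [h5]
      exact mul_mem hl.2 (inv_mem hu)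

/-- PROOF. Both sides as sums over the elements of a set (`finsum_mem_def`, compare `H67G.b4_pt`), `finsum_mem_eq_of_bijOn` with `an_bij`; the terms agree by `H67G.b3_inv`. -/
theorem an_cs (γ : H) {b : H → ℂ} (hb : ∀ u ∈ Γ ⊓ HU, ∀ g, b (u * g) = b g) :
    cs (Γ ⊓ HU) (DC Γ HU γ) b = cs (La Γ HU γ) ((Γ.subgroupOf HU : Subgroup HU) : Set HU) fun δ : HU => b (γ * (δ : H)) := by
  classical
  have e1 : cs (Γ ⊓ HU) (DC Γ HU γ) b =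
      ∑ᶠ c ∈ {c : H ⧸ (Γ ⊓ HU) | (Quotient.out c)⁻¹ ∈ DC Γ HU γ}, b (Quotient.out c)⁻¹ := by
    unfold cs
    refine finsum_congr fun c => ?_
    by_cases h : (Quotient.out c)⁻¹ ∈ DC Γ HU γ
    · rw [if_pos h, finsum_eq_if]
      rw [if_pos (show c ∈ {c : H ⧸ (Γ ⊓ HU) | (Quotient.out c)⁻¹ ∈ DC Γ HU γ} from h)]
    · rw [if_neg h, finsum_eq_if]
      rw [if_neg (show c ∉ {c : H ⧸ (Γ ⊓ HU) | (Quotient.out c)⁻¹ ∈ DC Γ HU γ} from h)]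
  have e2 : cs (La Γ HU γ) ((Γ.subgroupOf HU : Subgroup HU) : Set HU) (fun δ : HU => b (γ * (δ : H))) =
      ∑ᶠ c ∈ {c : HU ⧸ La Γ HU γ | (Quotient.out c)⁻¹ ∈ Γ.subgroupOf HU},
        b (γ * (((Quotient.out c)⁻¹ : HU) : H)) := by
    unfold cs
    refine finsum_congr fun c => ?_
    by_cases h : (Quotient.out c)⁻¹ ∈ Γ.subgroupOf HU
    · rw [if_pos (show (Quotient.out c)⁻¹ ∈ ((Γ.subgroupOf HU : Subgroup HU) : Set HU) from h), finsum_eq_if]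
      rw [if_pos (show c ∈ {c : HU ⧸ La Γ HU γ | (Quotient.out c)⁻¹ ∈ Γ.subgroupOf HU} from h)]
    · rw [if_neg (show (Quotient.out c)⁻¹ ∉ ((Γ.subgroupOf HU : Subgroup HU) : Set HU) from h), finsum_eq_if]
      rw [if_neg (show c ∉ {c : HU ⧸ La Γ HU γ | (Quotient.out c)⁻¹ ∈ Γ.subgroupOf HU} from h)]
  rw [e1, e2]
  symm
  refine finsum_mem_eq_of_bijOn _ (an_bij γ) fun c _ => ?_
  exact (b3_inv (Γ ⊓ HU) hb _).symm

/-- PROOF. The map of `an_bij` is injective on the first set and sends it to the second (`DC Γ HU γ ⊆ Γ` for `γ ∈ Γ`; `p` is invariant: `b3_inv` with values in `Prop`): `Set.encard_le_encard_of_injOn`. -/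
theorem an_card {γ : H} (hγ : γ ∈ Γ) {p : H → Prop} (hp : ∀ u ∈ Γ ⊓ HU, ∀ g, p (u * g) ↔ p g) :
    {c : HU ⧸ La Γ HU γ | (Quotient.out c)⁻¹ ∈ Γ.subgroupOf HU ∧ p (γ * (((Quotient.out c)⁻¹ : HU) : H))}.encard ≤
      {c : H ⧸ (Γ ⊓ HU) | (Quotient.out c)⁻¹ ∈ Γ ∧ p (Quotient.out c)⁻¹}.encard := by
  refine Set.encard_le_encard_of_injOn (f := fun c : HU ⧸ La Γ HU γ =>
    (QuotientGroup.mk (γ * (((Quotient.out c)⁻¹ : HU) : H))⁻¹ : H ⧸ (Γ ⊓ HU))) ?_ ?_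
  · rintro c ⟨h1, h2⟩
    obtain ⟨u, hu, e⟩ := out_coset (Γ ⊓ HU) (γ * (((Quotient.out c)⁻¹ : HU) : H))
    refine ⟨?_, ?_⟩
    · show (Quotient.out (QuotientGroup.mk (γ * (((Quotient.out c)⁻¹ : HU) : H))⁻¹ : H ⧸ (Γ ⊓ HU)))⁻¹ ∈ Γ
      rw [e]
      exact Γ.mul_mem hu.1 (Γ.mul_mem hγ (Subgroup.mem_subgroupOf.1 h1))
    · show p (Quotient.out (QuotientGroup.mk (γ * (((Quotient.out c)⁻¹ : HU) : H))⁻¹ : H ⧸ (Γ ⊓ HU)))⁻¹
      rw [e, hp u hu]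
      exact h2
  · exact (an_bij γ).injOn.mono fun c hc => hc.1

end

end Pool.Agent.Lib.L1S
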