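import Pool.Agent.Lib.L1S.AN0

/-!
# AN4 (M, general measure theory): decomposition of a sum over cosets into countably many classes
-/

namespace Pool.Agent.Lib.L1S

open MeasureTheory Pool.Agent.Lib.H33W Pool.Agent.Lib.H67G
open scoped ENNReal

noncomputable section

theorem an4_fin {H T : Type} [Group H] {U₀ : Subgroup H} {S : Set H} {b : H → T → ℂ} {N : ℕ} {t : T}
    (hN : {c : H ⧸ U₀ | (Quotient.out c)⁻¹ ∈ S ∧ b (Quotient.out c)⁻¹ t ≠ 0}.encard ≤ N) :
    {c : H ⧸ U₀ | (Quotient.out c)⁻¹ ∈ S ∧ b (Quotient.out c)⁻¹ t ≠ 0}.Finite :=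
  Set.finite_of_encard_le_coe hN

open Classical in
theorem an4_cs {H T : Type} [Group H] {U₀ : Subgroup H} {S S' : Set H} (hS : S' ⊆ S) {b : H → T → ℂ} {t : T}
    (hf : {c : H ⧸ U₀ | (Quotient.out c)⁻¹ ∈ S ∧ b (Quotient.out c)⁻¹ t ≠ 0}.Finite) :
    cs U₀ S' (fun g => b g t) = ∑ c ∈ hf.toFinset, if (Quotient.out c)⁻¹ ∈ S' then b (Quotient.out c)⁻¹ t else 0 := by
  unfold cs
  rw [finsum_eq_sum_of_support_subset (s := hf.toFinset)]
  intro c hc
  rw [Function.mem_support] at hc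
  rw [Set.Finite.coe_toFinset]
  by_cases h : (Quotient.out c)⁻¹ ∈ S'
  · rw [if_pos h] at hc
    exact ⟨hS h, hc⟩
  · rw [if_neg h] at hc
    exact absurd rfl hc

/-- PROOF. For every `t` there are at most `N` cosets with a nonzero term, so `cs U₀ S b_t = ∑'_i cs U₀ (S ∩ κ⁻¹ i) b_t` (`finsum` over the finite support; only finitely many `i` contribute) and `∑_i ‖cs U₀ (S ∩ κ⁻¹ i) b_t‖ₑ ≤ ce U₀ S ‖b_t‖ₑ ≤ N B`
(`H67G.cs_norm`; `∑_i ce U₀ (S ∩ κ⁻¹ i) = ce U₀ S` by `ENNReal.tsum_comm`; compare `H67G.b5_bd`). Every term is measurable in `t` (`H67G.cs_meas`). So `∫ cs = ∑'_i ∫ cs_i` (`integral_tsum` or `hasSum_integral_of_summable_integral_norm`), all terms are zero. -/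
theorem an_classes {H T I : Type} [Group H] [Countable H] [Countable I] [MeasurableSpace T] {ρ : Measure T} [IsFiniteMeasure ρ] {U₀ : Subgroup H} {S : Set H}
    (hS : LInv U₀ S) (κ : H → I) (hκ : ∀ u ∈ U₀, ∀ g, κ (u * g) = κ g) {b : H → T → ℂ} (mb : ∀ g, Measurable (b g)) (hb : ∀ u ∈ U₀, ∀ g t, b (u * g) t = b g t)
    {N : ℕ} (hN : ∀ t, {c : H ⧸ U₀ | (Quotient.out c)⁻¹ ∈ S ∧ b (Quotient.out c)⁻¹ t ≠ 0}.encard ≤ N) {B : ℝ} (hB : ∀ g t, ‖b g t‖ ≤ B)
    (h0 : ∀ i, ∫ t, cs U₀ (S ∩ {g | κ g = i}) (fun g => b g t) ∂ρ = 0) : ∫ t, cs U₀ S (fun g => b g t) ∂ρ = 0 := by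
  classical
  have hf : ∀ t, {c : H ⧸ U₀ | (Quotient.out c)⁻¹ ∈ S ∧ b (Quotient.out c)⁻¹ t ≠ 0}.Finite := fun t => an4_fin (hN t)
  have hsub : ∀ i, S ∩ {g | κ g = i} ⊆ S := fun i => Set.inter_subset_left
  have hs : ∀ i t, cs U₀ (S ∩ {g | κ g = i}) (fun g => b g t) =
      ∑ c ∈ (hf t).toFinset, if κ (Quotient.out c)⁻¹ = i then b (Quotient.out c)⁻¹ t else 0 := by
    intro i t
    rw [an4_cs (hsub i) (hf t)]
    refine Finset.sum_congr rfl fun c hc => ?_
    have h1 : (Quotient.out c)⁻¹ ∈ S := ((Set.Finite.mem_toFinset _).1 hc).1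
    by_cases h : κ (Quotient.out c)⁻¹ = i
    · rw [if_pos h, if_pos ⟨h1, h⟩]
    · rw [if_neg h, if_neg fun h2 => h h2.2]
  have ht : ∀ t, cs U₀ S (fun g => b g t) = ∑ c ∈ (hf t).toFinset, b (Quotient.out c)⁻¹ t := by
    intro t
    rw [an4_cs (le_refl S) (hf t)]
    refine Finset.sum_congr rfl fun c hc => ?_
    rw [if_pos ((Set.Finite.mem_toFinset _).1 hc).1]
  have hsum : ∀ t, HasSum (fun i => cs U₀ (S ∩ {g | κ g = i}) (fun g => b g t)) (cs U₀ S (fun g => b g t)) := by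
    intro t
    simp only [hs, ht]
    refine hasSum_sum fun c _ => ?_
    have := hasSum_ite_eq (κ (Quotient.out c)⁻¹) (b (Quotient.out c)⁻¹ t)
    simpa only [eq_comm] using this
  have hB' : ∀ g t, ‖b g t‖ₑ ≤ ENNReal.ofReal B := by
    intro g t
    rw [← ofReal_norm]
    exact ENNReal.ofReal_le_ofReal (hB g t)
  have hcard : ∀ t, ((hf t).toFinset.card : ℝ≥0∞) ≤ N := by
    intro t
    have h1 := hN t
    rw [(hf t).encard_eq_coe_toFinset_card] at h1
    exact_mod_cast h1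
  have hbd : ∀ t, ∑' i, ‖cs U₀ (S ∩ {g | κ g = i}) (fun g => b g t)‖ₑ ≤ N * ENNReal.ofReal B := by
    intro t
    calc ∑' i, ‖cs U₀ (S ∩ {g | κ g = i}) (fun g => b g t)‖ₑ
        ≤ ∑' i, ∑ c ∈ (hf t).toFinset, (if κ (Quotient.out c)⁻¹ = i then ENNReal.ofReal B else 0) := by
          refine ENNReal.tsum_le_tsum fun i => ?_
          rw [hs]
          refine (enorm_sum_le _ _).trans (Finset.sum_le_sum fun c _ => ?_)
          by_cases h : κ (Quotient.out c)⁻¹ = i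
          · rw [if_pos h, if_pos h]
            exact hB' _ _
          · rw [if_neg h, if_neg h, enorm_zero]
      _ = ∑ c ∈ (hf t).toFinset, ∑' i, (if κ (Quotient.out c)⁻¹ = i then ENNReal.ofReal B else 0) := by
          rw [Summable.tsum_finsetSum fun c _ => ENNReal.summable]
      _ = ∑ c ∈ (hf t).toFinset, ENNReal.ofReal B := by
          refine Finset.sum_congr rfl fun c _ => ?_
          have := tsum_ite_eq (κ (Quotient.out c)⁻¹) (fun _ => ENNReal.ofReal B)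
          simpa only [eq_comm] using this
      _ ≤ N * ENNReal.ofReal B := by
          rw [Finset.sum_const, nsmul_eq_mul]
          exact mul_le_mul_left (hcard t) _
  have hm : ∀ i, Measurable fun t => cs U₀ (S ∩ {g | κ g = i}) (fun g => b g t) := by
    intro i
    let _ : MulAction H T := { smul := fun _ t => t, one_smul := fun _ => rfl, mul_smul := fun _ _ _ => rfl }
    exact cs_meas U₀ _ mb fun t => (hf t).subset fun c hc => ⟨hc.1.1, hc.2⟩
  have h1 : ∀ t, cs U₀ S (fun g => b g t) = ∑' i, cs U₀ (S ∩ {g | κ g = i}) (fun g => b g t) :=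
    fun t => (hsum t).tsum_eq.symm
  simp only [h1]
  rw [integral_tsum (fun i => (hm i).aestronglyMeasurable)]
  · simp only [h0]
    exact tsum_zero
  · rw [← lintegral_tsum fun i => (hm i).enorm.aemeasurable]
    refine ne_top_of_le_ne_top ?_ (lintegral_mono hbd)
    rw [lintegral_const]
    exact ENNReal.mul_ne_top (ENNReal.mul_ne_top (ENNReal.natCast_ne_top N) ENNReal.ofReal_ne_top) (measure_ne_top _ _)

end

end Pool.Agent.Lib.L1S
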