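import Pool.Agent.Lib.L1S.AN0

/-!
# AN5A (S): the function of one double coset
-/

namespace Pool.Agent.Lib.L1S

open MeasureTheory Pool.Agent.Lib.H33W Pool.Agent.Lib.H67G
open scoped ENNReal

noncomputable section

variable {H X T : Type} [Group H] [Countable H] [MulAction H X] [MeasurableSpace X] [MeasurableSpace T] [MeasurableConstSMul H X] {μ : Measure X} {ν : Measure T}
  {tr : T → X → X} {ι : T → T} {Γ HU : Subgroup H} [MulAction HU T] {D : Set T} {e : T → ℂ} {χ : HU → ℂ} {S : Set X} {Ψ : X → ℂ}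

/-- The function `f(t) = conj(e(t)) Ψ(γ t x)`. -/
def fg (e : T → ℂ) (Ψ : X → ℂ) (tr : T → X → X) (γ : H) (x : X) (t : T) : ℂ := star (e t) * Ψ (γ • tr t x)

omit [Countable H] in
/-- PROOF. `tr`, `e`, `Ψ` are measurable (`M.avg.trm` with `x` fixed, `M.me`, `M.mΨ`, `measurable_const_smul γ`). -/
theorem fg_meas (M : MD μ ν tr ι Γ HU D e χ S Ψ) (γ : H) (x : X) : Measurable (fg e Ψ tr γ x) := by
  have h1 : Measurable fun t : T => tr t x := M.avg.trm.comp (measurable_id.prodMk measurable_const)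
  exact (continuous_star.measurable.comp M.me).mul (M.mΨ.comp ((measurable_const_smul γ).comp h1))

omit [Countable H] [MeasurableConstSMul H X] in
/-- PROOF. `tr (h • t) x = h • tr t x` (`M.avg.act`), `γ • h • y = (h' γ) • y = h' • (γ • y)` with `γ h = h' γ`, `Ψ(h' • z) = χ(h') Ψ(z)` (`M.eqU`), `e(h • t) = χ(h) e(t)` (`M.he`). -/
theorem fg_v (M : MD μ ν tr ι Γ HU D e χ S Ψ) {γ : H} {h h' : HU} (hh : γ * (h : H) = (h' : H) * γ) (x : X) (t : T) :
    fg e Ψ tr γ x (h • t) = star (χ h) * χ h' * fg e Ψ tr γ x t := by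
  have e1 : tr (h • t) x = (h : H) • tr t x := M.avg.act h t x
  have e2 : γ • ((h : H) • tr t x) = (h' : H) • (γ • tr t x) := by
    rw [smul_smul, smul_smul, hh]
  unfold fg
  rw [e1, e2, M.eqU, M.he, star_mul']
  ring

omit [Countable H] [MeasurableConstSMul H X] in
/-- PROOF. `fg_v` with `h' = γ h γ⁻¹`; `χ h = 1`, `χ h' = 1` (`M.hχ`). -/
theorem fg_inv (M : MD μ ν tr ι Γ HU D e χ S Ψ) {γ : H} {h : HU} (hh : h ∈ La Γ HU γ) (x : X) (t : T) :
    fg e Ψ tr γ x (h • t) = fg e Ψ tr γ x t := by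
  obtain ⟨h1, h2⟩ := hh
  rw [fg_v M (h' := ⟨γ * (h : H) * γ⁻¹, h2.2⟩) (by simp) x t, M.hχ h h1, M.hχ _ h2.1, star_one, one_mul, one_mul]

end

end Pool.Agent.Lib.L1S
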