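import Pool.Agent.Lib.L1S.AN4
import Pool.Agent.Lib.L1S.AN5

/-!
# AN6 (M): the mean of the Poincare series
-/

namespace Pool.Agent.Lib.L1S

open MeasureTheory Pool.Agent.Lib.H33W Pool.Agent.Lib.H67G
open scoped ENNReal

noncomputable section

variable {H X T : Type} [Group H] [Countable H] [MulAction H X] [MeasurableSpace X] [MeasurableSpace T] [MeasurableConstSMul H X] {μ : Measure X} {ν : Measure T}
  {tr : T → X → X} {ι : T → T} {Γ HU : Subgroup H} [MulAction HU T] {D : Set T} {e : T → ℂ} {χ : HU → ℂ} {S : Set X} {Ψ : X → ℂ}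

omit [Countable H] [MulAction H X] [MeasurableSpace X] [MeasurableSpace T] [MeasurableConstSMul H X] [MulAction HU T] in
theorem an6_refl (γ : H) : γ ∈ DC Γ HU γ :=
  ⟨1, one_mem _, 1, one_mem _, by rw [one_mul, mul_one]⟩

omit [Countable H] [MulAction H X] [MeasurableSpace X] [MeasurableSpace T] [MeasurableConstSMul H X] [MulAction HU T] in
theorem an6_sub {γ g : H} (h : g ∈ DC Γ HU γ) : DC Γ HU g ⊆ DC Γ HU γ := by
  obtain ⟨u, hu, δ, hδ, rfl⟩ := h
  rintro _ ⟨u', hu', δ', hδ', rfl⟩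
  exact ⟨u' * u, mul_mem hu' hu, δ * δ', mul_mem hδ hδ', by group⟩

omit [Countable H] [MulAction H X] [MeasurableSpace X] [MeasurableSpace T] [MeasurableConstSMul H X] [MulAction HU T] in
theorem an6_symm {γ g : H} (h : g ∈ DC Γ HU γ) : γ ∈ DC Γ HU g := by
  obtain ⟨u, hu, δ, hδ, rfl⟩ := h
  exact ⟨u⁻¹, inv_mem hu, δ⁻¹, inv_mem hδ, by group⟩

omit [Countable H] [MulAction H X] [MeasurableSpace X] [MeasurableSpace T] [MeasurableConstSMul H X] [MulAction HU T] in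
theorem an6_eq {γ g : H} : DC Γ HU g = DC Γ HU γ ↔ g ∈ DC Γ HU γ := by
  constructor
  · intro h
    rw [← h]
    exact an6_refl g
  · intro h
    exact Set.Subset.antisymm (an6_sub h) (an6_sub (an6_symm h))

/-- The sum over the elements of `Γ` outside `U` has mean zero. -/
theorem an6_zero (M : MD μ ν tr ι Γ HU D e χ S Ψ) (hd : ∀ γ ∈ Γ, γ ∉ HU → (∃ y ∈ S, γ • y ∈ S) → Dich Γ HU χ γ) {x : X}
    (hx : x ∈ S) {N : ℕ}
    (hN : ∀ x, {c : H ⧸ (Γ ⊓ HU) | (Quotient.out c)⁻¹ ∈ Γ ∧ Ψ ((Quotient.out c)⁻¹ • x) ≠ 0}.encard ≤ N)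
    {B : ℝ} (hB : ∀ x, ‖Ψ x‖ ≤ B) (mb : ∀ g : H, Measurable fun t : T => star (e t) * Ψ (g • tr t x)) :
    ∫ t in D, cs (Γ ⊓ HU) ((Γ : Set H) \ ((Γ ⊓ HU : Subgroup H) : Set H)) (fun g => star (e t) * Ψ (g • tr t x)) ∂ν = 0 := by
  have _ : IsFiniteMeasure (ν.restrict D) := ⟨by rw [Measure.restrict_apply_univ]; exact lt_top_iff_ne_top.2 M.fD⟩
  have _ : Countable (Set.range fun g : H => DC Γ HU g) := (Set.countable_range _).to_subtype
  have hU : ∀ u ∈ Γ ⊓ HU, ∀ g : H, u * g ∈ Γ ↔ g ∈ Γ := fun u hu g => Γ.mul_mem_cancel_left hu.1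
  have hU' : ∀ u ∈ Γ ⊓ HU, ∀ g : H, u * g ∈ Γ ⊓ HU ↔ g ∈ Γ ⊓ HU := fun u hu g => (Γ ⊓ HU).mul_mem_cancel_left hu
  refine an_classes (I := Set.range fun g : H => DC Γ HU g) (ρ := ν.restrict D) (U₀ := Γ ⊓ HU)
    (fun u hu g => ?_) (fun g => ⟨DC Γ HU g, g, rfl⟩) (fun u hu g => ?_)
    (b := fun g t => star (e t) * Ψ (g • tr t x)) mb (fun u hu g t => ?_) (N := N) (fun t => ?_) (B := B)
    (fun g t => ?_) ?_
  · constructor
    · rintro ⟨h1, h2⟩
      exact ⟨(hU u hu g).1 h1, fun h3 => h2 ((hU' u hu g).2 h3)⟩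
    · rintro ⟨h1, h2⟩
      exact ⟨(hU u hu g).2 h1, fun h3 => h2 ((hU' u hu g).1 h3)⟩
  · refine Subtype.ext ?_
    exact an6_eq.2 ⟨u, hu, 1, one_mem _, by rw [mul_one]⟩
  · rw [mul_smul, M.inv hu]
  · refine le_trans (Set.encard_le_encard ?_) (hN (tr t x))
    rintro c ⟨h1, h2⟩
    exact ⟨h1.1, right_ne_zero_of_mul h2⟩
  · rw [norm_mul, norm_star, M.ne t, one_mul]
    exact hB _
  · rintro ⟨_, γ, rfl⟩
    have hset : {g : H | (⟨DC Γ HU g, g, rfl⟩ : Set.range fun g : H => DC Γ HU g) = ⟨DC Γ HU γ, γ, rfl⟩} = DC Γ HU γ := by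
      ext g
      constructor
      · intro h
        exact an6_eq.1 (congrArg Subtype.val h)
      · intro h
        exact Subtype.ext (an6_eq.2 h)
    rw [hset]
    by_cases hγ : γ ∈ Γ ∧ γ ∉ HU
    · have h1 : ((Γ : Set H) \ ((Γ ⊓ HU : Subgroup H) : Set H)) ∩ DC Γ HU γ = DC Γ HU γ := by
        refine Set.inter_eq_right.2 ?_
        rintro _ ⟨u, hu, δ, hδ, rfl⟩
        refine ⟨mul_mem (mul_mem hu.1 hγ.1) hδ.1, fun h2 => hγ.2 ?_⟩
        have h3 : γ = u⁻¹ * (u * γ * δ) * δ⁻¹ := by group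
        rw [h3]
        exact mul_mem (mul_mem (inv_mem hu.2) h2.2) (inv_mem hδ.2)
      rw [h1]
      by_cases h2 : ∃ y ∈ S, γ • y ∈ S
      · exact an_orb M hγ.1 (hd γ hγ.1 hγ.2 h2) x
      · have h3 : ∀ t : T, cs (Γ ⊓ HU) (DC Γ HU γ) (fun g => star (e t) * Ψ (g • tr t x)) = 0 := by
          intro t
          unfold cs
          refine finsum_eq_zero_of_forall_eq_zero fun c => ?_
          by_cases h4 : (Quotient.out c)⁻¹ ∈ DC Γ HU γ
          · rw [if_pos h4]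
            obtain ⟨u, hu, δ, hδ, h5⟩ := h4
            have h6 : ((⟨δ, hδ.2⟩ : HU) : H) • tr t x = tr ((⟨δ, hδ.2⟩ : HU) • t) x := (M.avg.act ⟨δ, hδ.2⟩ t x).symm
            have h7 : (Quotient.out c)⁻¹ • tr t x = u • γ • tr ((⟨δ, hδ.2⟩ : HU) • t) x := by
              rw [h5, mul_smul, mul_smul, ← h6]
            have h8 : tr ((⟨δ, hδ.2⟩ : HU) • t) x ∈ S := (M.hS _ _).2 hx
            have h9 : γ • tr ((⟨δ, hδ.2⟩ : HU) • t) x ∉ S := fun h10 => h2 ⟨_, h8, h10⟩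
            change star (e t) * Ψ ((Quotient.out c)⁻¹ • tr t x) = 0
            rw [h7, M.inv hu, M.sΨ _ h9, mul_zero]
          · rw [if_neg h4]
        simp only [h3]
        exact integral_zero _ _
    · have h1 : ((Γ : Set H) \ ((Γ ⊓ HU : Subgroup H) : Set H)) ∩ DC Γ HU γ = ∅ := by
        rw [Set.eq_empty_iff_forall_notMem]
        rintro _ ⟨⟨h2, h3⟩, u, hu, δ, hδ, rfl⟩
        have h4 : γ = u⁻¹ * (u * γ * δ) * δ⁻¹ := by group
        have h5 : γ ∈ Γ := by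
          rw [h4]
          exact mul_mem (mul_mem (inv_mem hu.1) h2) (inv_mem hδ.1)
        have h6 : γ ∈ HU := by
          by_contra h7
          exact hγ ⟨h5, h7⟩
        exact h3 ⟨h2, mul_mem (mul_mem hu.2 h6) hδ.2⟩
      rw [h1]
      have h2 : ∀ t : T, cs (Γ ⊓ HU) ∅ (fun g => star (e t) * Ψ (g • tr t x)) = 0 := by
        intro t
        unfold cs
        refine finsum_eq_zero_of_forall_eq_zero fun c => ?_
        rw [if_neg (Set.notMem_empty _)]
      simp only [h2]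
      exact integral_zero _ _

/-- PROOF. `U₀ = Γ ⊓ HU`. For every `t`: `cs U₀ Γ b_t = cs U₀ U₀ b_t + cs U₀ (Γ \ U₀) b_t` (`H67G.cs_mono`, finite support by `M.fs`), `b_t(g) = star(e t) Ψ(g • tr t x)`; the first term is `b_t(1) = star(e t) e(t) Ψ(x) = Ψ(x)` (`cs_self`, `M.conj_e`). The integral of the second is zero: `an_classes` with `ρ = ν.restrict D`,
`I = Set (Set H)`-free choice: `I = DoubleCoset.Quotient (U₀ : Set H) (U₀ : Set H)` or `I = Quotient` of the relation `DC` (countable as a quotient of `H`), `κ(g)` the double coset of `g`. For a class `i`: `(Γ \ U₀) ∩ κ⁻¹ i` is empty (then `cs = 0`) or `DC Γ HU γ` with `γ ∈ Γ`, `γ ∉ HU`.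
In the second case: if there is `y ∈ S` with `γ • y ∈ S`: `an_orb` with `hd`. Otherwise all terms are zero: `tr t x ∈ S` iff `x ∈ S` (`M.hS`), if `x ∉ S` then `Ψ(g • tr t x)`, hmm: `g = u γ δ`: `Ψ(g • tr t x) = Ψ(γ • tr (δ • t) x)`; `x ∈ S` by assumption, so `y = tr (δ • t) x ∈ S` and `γ • y ∉ S`, `Ψ(γ • y) = 0` (`M.sΨ`). -/
theorem an_mean (M : MD μ ν tr ι Γ HU D e χ S Ψ) (hd : ∀ γ ∈ Γ, γ ∉ HU → (∃ y ∈ S, γ • y ∈ S) → Dich Γ HU χ γ) {x : X} (hx : x ∈ S) :
    ⨍ t in D, star (e t) * cs (Γ ⊓ HU) (Γ : Set H) (fun γ => Ψ (γ • tr t x)) ∂ν = Ψ x := by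
  classical
  obtain ⟨N, hN⟩ := M.fs
  obtain ⟨B, hB⟩ := M.bΨ
  have _ : IsFiniteMeasure (ν.restrict D) := ⟨by rw [Measure.restrict_apply_univ]; exact lt_top_iff_ne_top.2 M.fD⟩
  have mtr : Measurable fun t : T => tr t x := M.avg.trm.comp (measurable_id.prodMk measurable_const)
  have mb : ∀ g : H, Measurable fun t : T => star (e t) * Ψ (g • tr t x) := by
    intro g
    have h1 : Measurable fun t : T => Ψ (g • tr t x) := M.mΨ.comp (mtr.const_smul g)
    exact (continuous_star.measurable.comp M.me).mul h1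
  have hf : ∀ t : T, {c : H ⧸ (Γ ⊓ HU) | (Quotient.out c)⁻¹ ∈ (Γ : Set H) ∧
      star (e t) * Ψ ((Quotient.out c)⁻¹ • tr t x) ≠ 0}.Finite := by
    intro t
    refine (Set.finite_of_encard_le_coe (hN (tr t x))).subset ?_
    rintro c ⟨h1, h2⟩
    exact ⟨h1, right_ne_zero_of_mul h2⟩
  have hL : LInv (Γ ⊓ HU) ((Γ ⊓ HU : Subgroup H) : Set H) := fun u hu g => (Γ ⊓ HU).mul_mem_cancel_left hu
  have hL' : LInv (Γ ⊓ HU) (Γ : Set H) := fun u hu g => Γ.mul_mem_cancel_left hu.1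
  have hsub : ((Γ ⊓ HU : Subgroup H) : Set H) ⊆ (Γ : Set H) := fun g hg => hg.1
  have h1 : ∀ t : T, star (e t) * cs (Γ ⊓ HU) (Γ : Set H) (fun γ => Ψ (γ • tr t x)) =
      Ψ x + cs (Γ ⊓ HU) ((Γ : Set H) \ ((Γ ⊓ HU : Subgroup H) : Set H)) (fun g => star (e t) * Ψ (g • tr t x)) := by
    intro t
    have h2 : star (e t) * cs (Γ ⊓ HU) (Γ : Set H) (fun γ => Ψ (γ • tr t x)) =
        cs (Γ ⊓ HU) (Γ : Set H) (fun g => star (e t) * Ψ (g • tr t x)) := by
      unfold cs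
      rw [← smul_eq_mul, smul_finsum]
      refine finsum_congr fun c => ?_
      by_cases h : (Quotient.out c)⁻¹ ∈ (Γ : Set H)
      · rw [if_pos h, if_pos h, smul_eq_mul]
      · rw [if_neg h, if_neg h, smul_zero]
    rw [h2, cs_mono hsub hL hL' (hf t), cs_self (U₀ := Γ ⊓ HU) (b := fun g => star (e t) * Ψ (g • tr t x))]
    · rw [one_smul, M.eq, ← mul_assoc, M.conj_e, one_mul]
    · intro u hu g
      rw [mul_smul, M.inv hu]
  have hG : Integrable (fun t => cs (Γ ⊓ HU) ((Γ : Set H) \ ((Γ ⊓ HU : Subgroup H) : Set H))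
      (fun g => star (e t) * Ψ (g • tr t x))) (ν.restrict D) := by
    have h2 : ∀ t : T, {c : H ⧸ (Γ ⊓ HU) | (Quotient.out c)⁻¹ ∈ (Γ : Set H) \ ((Γ ⊓ HU : Subgroup H) : Set H) ∧
        star (e t) * Ψ ((Quotient.out c)⁻¹ • tr t x) ≠ 0}.Finite := fun t =>
      (hf t).subset fun c hc => ⟨hc.1.1, hc.2⟩
    refine Integrable.of_bound (C := N * B) ?_ (Filter.Eventually.of_forall fun t => ?_)
    · let _ : MulAction H T := { smul := fun _ t => t, one_smul := fun _ => rfl, mul_smul := fun _ _ _ => rfl }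
      exact (cs_meas (Γ ⊓ HU) _ mb h2).aestronglyMeasurable
    · unfold cs
      rw [finsum_eq_sum_of_support_subset (s := (h2 t).toFinset)]
      · refine (norm_sum_le _ _).trans ?_
        have hcard : ((h2 t).toFinset.card : ℝ) ≤ N := by
          have h3 : {c : H ⧸ (Γ ⊓ HU) | (Quotient.out c)⁻¹ ∈ (Γ : Set H) \ ((Γ ⊓ HU : Subgroup H) : Set H) ∧
              star (e t) * Ψ ((Quotient.out c)⁻¹ • tr t x) ≠ 0}.encard ≤ N := by
            refine le_trans (Set.encard_le_encard ?_) (hN (tr t x))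
            rintro c ⟨h4, h5⟩
            exact ⟨h4.1, right_ne_zero_of_mul h5⟩
          rw [(h2 t).encard_eq_coe_toFinset_card] at h3
          exact_mod_cast h3
        have hB0 : 0 ≤ B := (norm_nonneg _).trans (hB x)
        refine (Finset.sum_le_card_nsmul _ _ B fun c _ => ?_).trans ?_
        · by_cases h : (Quotient.out c)⁻¹ ∈ (Γ : Set H) \ ((Γ ⊓ HU : Subgroup H) : Set H)
          · rw [if_pos h, norm_mul, norm_star, M.ne t, one_mul]
            exact hB _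
          · rw [if_neg h, norm_zero]
            exact hB0
        · rw [nsmul_eq_mul]
          exact mul_le_mul_of_nonneg_right hcard hB0
      · intro c hc
        rw [Function.mem_support] at hc
        rw [Set.Finite.coe_toFinset]
        by_cases h : (Quotient.out c)⁻¹ ∈ (Γ : Set H) \ ((Γ ⊓ HU : Subgroup H) : Set H)
        · rw [if_pos h] at hc
          exact ⟨h, hc⟩
        · rw [if_neg h] at hc
          exact absurd rfl hc
  simp only [h1]
  rw [setAverage_eq, integral_add (integrable_const _) hG, an6_zero M hd hx hN hB mb, add_zero, integral_const,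
    measureReal_restrict_apply_univ, smul_smul, inv_mul_cancel₀, one_smul]
  rw [Measure.real, ENNReal.toReal_ne_zero]
  exact ⟨M.pD, M.fD⟩

end

end Pool.Agent.Lib.L1S
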