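import Pool.Agent.Lib.L1S.AN0

/-!
# AN7A (M): averaging over the fundamental domain
-/

namespace Pool.Agent.Lib.L1S

open MeasureTheory Pool.Agent.Lib.H33W Pool.Agent.Lib.H67G
open scoped ENNReal

noncomputable section

variable {H X T : Type} [Group H] [Countable H] [MulAction H X] [MeasurableSpace X] [MeasurableSpace T] [MeasurableConstSMul H X] {μ : Measure X} {ν : Measure T}
  [SMulInvariantMeasure H X μ] [SFinite μ] [SFinite ν]
  {tr : T → X → X} {ι : T → T} {Γ HU : Subgroup H} [MulAction HU T] {D : Set T} {e : T → ℂ} {χ : HU → ℂ} {S : Set X} {Ψ : X → ℂ}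

omit [Countable H] [MeasurableSpace T] [MeasurableConstSMul H X] [SMulInvariantMeasure H X μ] [SFinite μ] [SFinite ν] [MulAction HU T] in
theorem an7a_sub {F : Set X} : SF (Γ ⊓ HU) F ↔ SF (Γ.subgroupOf HU) F := by
  constructor
  · intro h
    refine ⟨h.meas, fun x => ?_⟩
    obtain ⟨g, hg, hu⟩ := h.fd x
    refine ⟨⟨⟨g.1, g.2.2⟩, Subgroup.mem_subgroupOf.2 g.2.1⟩, hg, ?_⟩
    rintro ⟨⟨g', h1⟩, h2⟩ h3
    have h4 := hu ⟨g', Subgroup.mem_subgroupOf.1 h2, h1⟩ h3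
    apply Subtype.ext
    apply Subtype.ext
    exact congrArg (fun z : ↥(Γ ⊓ HU) => (z : H)) h4
  · intro h
    refine ⟨h.meas, fun x => ?_⟩
    obtain ⟨g, hg, hu⟩ := h.fd x
    refine ⟨⟨((g : HU) : H), Subgroup.mem_subgroupOf.1 g.2, g.1.2⟩, hg, ?_⟩
    rintro ⟨g', h1, h2⟩ h3
    have h4 := hu ⟨⟨g', h2⟩, Subgroup.mem_subgroupOf.2 h1⟩ h3
    apply Subtype.ext
    exact congrArg (fun z : ↥(Γ.subgroupOf HU) => ((z : HU) : H)) h4

/-- PROOF. Copy of `H67G.s5_gen` (file H67G/S5.lean): `avu_cx M.avg M.sfD` (the fundamental domain `F_U` of `Γ ⊓ HU` in `X` is one of `Γ.subgroupOf HU`: copy of `H67G.sf_sub`, file H67G/S2.lean). -/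
theorem an_gen (M : MD μ ν tr ι Γ HU D e χ S Ψ) {F_U : Set X} (hU : SF (Γ ⊓ HU) F_U) (hF : μ (F_U ∩ S) ≠ ⊤)
    {E : X → ℂ} (mE : Measurable E) (iE : ∀ u ∈ Γ ⊓ HU, ∀ x, E (u • x) = E x) {BE : ℝ} (bE : ∀ x ∈ S, ‖E x‖ ≤ BE)
    (hE : ∀ x ∈ S, ⨍ t in D, star (e t) * E (tr t x) ∂ν = Ψ x) :
    ∫ x in F_U, star (Ψ x) * E x ∂μ = ∫ x in F_U, ((‖Ψ x‖ ^ 2 : ℝ) : ℂ) ∂μ := by
  have e1 : ∫ x in F_U, star (Ψ x) * E x ∂μ = ∫ x in F_U ∩ S, star (Ψ x) * E x ∂μ :=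
    setIntegral_eq_of_subset_of_forall_diff_eq_zero hU.meas Set.inter_subset_left fun x hx => by
      have h : x ∉ S := fun h => hx.2 ⟨hx.1, h⟩
      rw [M.sΨ x h, star_zero, zero_mul]
  have e2 : ∫ x in F_U, ((‖Ψ x‖ ^ 2 : ℝ) : ℂ) ∂μ = ∫ x in F_U ∩ S, ((‖Ψ x‖ ^ 2 : ℝ) : ℂ) ∂μ :=
    setIntegral_eq_of_subset_of_forall_diff_eq_zero hU.meas Set.inter_subset_left fun x hx => by
      have h : x ∉ S := fun h => hx.2 ⟨hx.1, h⟩
      rw [M.sΨ x h]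
      simp
  obtain ⟨BΨ, hBΨ⟩ := M.bΨ
  have mφ : Measurable fun x => star (Ψ x) * E x := (continuous_star.measurable.comp M.mΨ).mul mE
  have hSU : ∀ (u : H), u ∈ HU → ∀ x, u • x ∈ S ↔ x ∈ S := by
    intro u hu x
    obtain ⟨t⟩ := M.nonempty
    have e3 : u • x = tr ((⟨u, hu⟩ : HU) • t) (tr (ι t) x) := by
      rw [M.avg.act, M.avg.inv2]
      rfl
    rw [e3, M.hS, M.hS]
  have hU' : SF (Γ.subgroupOf HU) F_U := an7a_sub.1 hU
  have hmc : MeasurableConstSMul HU X := ⟨fun c => measurable_const_smul (c : H)⟩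
  have hsi : SMulInvariantMeasure HU X μ := ⟨fun c _ hs => SMulInvariantMeasure.measure_preimage_smul (c : H) hs⟩
  have hav := avu_cx M.avg M.sfD hU' M.pD M.fD M.mS M.hS
    (fun γ _ x => hSU (γ : H) γ.2 x) hF mφ (fun γ hγ x => by
      have hm : (γ : H) ∈ Γ ⊓ HU := Subgroup.mem_inf.2 ⟨hγ, γ.2⟩
      have h1 : Ψ ((γ : H) • x) = Ψ x := M.inv hm x
      have h2 : E ((γ : H) • x) = E x := iE _ hm x
      show star (Ψ ((γ : H) • x)) * E ((γ : H) • x) = _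
      rw [h1, h2]) (B := BΨ * BE) (fun x hx => by
      rw [norm_mul, norm_star]
      exact mul_le_mul (hBΨ x) (bE x hx) (norm_nonneg _) ((norm_nonneg _).trans (hBΨ x)))
  rw [e1, e2, ← hav]
  refine setIntegral_congr_fun (hU.meas.inter M.mS) fun x hx => ?_
  show ⨍ t in D, star (Ψ (tr t x)) * E (tr t x) ∂ν = ((‖Ψ x‖ ^ 2 : ℝ) : ℂ)
  have e3 : ∀ t : T, star (Ψ (tr t x)) * E (tr t x) = star (Ψ x) * (star (e t) * E (tr t x)) := by
    intro t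
    rw [M.eq, star_mul']
    ring
  simp_rw [e3]
  rw [setAverage_eq, integral_const_mul, ← mul_smul_comm, ← setAverage_eq, hE x hx.2]
  have h := Complex.conj_mul' (Ψ x)
  rw [← Complex.star_def] at h
  rw [h]
  push_cast
  rfl

end

end Pool.Agent.Lib.L1S
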