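import Pool.Agent.Lib.L1S.AN6
import Pool.Agent.Lib.L1S.AN7A

/-!
# AN7 (M): the large sieve inequality in the abstract setting
-/

namespace Pool.Agent.Lib.L1S

open MeasureTheory Pool.Agent.Lib.H33W Pool.Agent.Lib.H67G
open scoped ENNReal

noncomputable section

variable {H X T : Type} [Group H] [Countable H] [MulAction H X] [MeasurableSpace X] [MeasurableSpace T] [MeasurableConstSMul H X] {μ : Measure X} {ν : Measure T}
  [SMulInvariantMeasure H X μ] [SFinite μ] [SFinite ν]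
  {tr : T → X → X} {ι : T → T} {Γ HU : Subgroup H} [MulAction HU T] {D : Set T} {e : T → ℂ} {χ : HU → ℂ} {S : Set X} {Ψ : X → ℂ}

/-- **The abstract large sieve inequality.**
PROOF. `H67G.ls_abs` with `Pp = Γ`, `C = 0`: the data `LSD` are clear (`M.inv`, `M.fs` up to the form of the statement); `h1` is `an_gen` for `E = h` (`hW`), `h2` is `an_gen` for `E(x) = cs (Γ ⊓ HU) Γ (Ψ(γ x))` (measurable, bounded and `Γ ⊓ HU`-invariant: `H67G.b5_meas`, `b5_bd`, `cs_shift`; the mean is `an_mean`); `h3`: `Γ \ Γ` is empty, the left side is zero. -/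
theorem an_ls (M : MD μ ν tr ι Γ HU D e χ S Ψ) (hd : ∀ γ ∈ Γ, γ ∉ HU → (∃ y ∈ S, γ • y ∈ S) → Dich Γ HU χ γ) {F' F_U : Set X} (hF' : SF Γ F')
    (hU : SF (Γ ⊓ HU) F_U) (hF : μ (F_U ∩ S) ≠ ⊤) {h : X → ℂ} (mh : Measurable h) (ih : ∀ γ ∈ Γ, ∀ x, h (γ • x) = h x) (bh : ∃ B : ℝ, ∀ x ∈ S, ‖h x‖ ≤ B)
    (hW : ∀ x ∈ S, ⨍ t in D, star (e t) * h (tr t x) ∂ν = Ψ x) :
    ∫⁻ x in F_U, ‖Ψ x‖ₑ ^ 2 ∂μ ≤ ∫⁻ x in F', ‖h x‖ₑ ^ 2 ∂μ := by
  have L : LSD μ (Γ ⊓ HU) Γ F' F_U S Ψ h := ⟨inf_le_left, hF', hU, M.mS, hF, M.mΨ, fun u hu x => M.inv hu x, M.sΨ, M.bΨ, mh, ih, bh, M.fs⟩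
  obtain ⟨K, hK, hKb⟩ := b5_bd L
  obtain ⟨B, hB⟩ := bh
  have iΓ : LInv (Γ ⊓ HU) (Γ : Set H) := fun u hu g => Γ.mul_mem_cancel_left hu.1
  have h1 := an_gen M hU hF mh (fun u hu x => ih u hu.1 x) hB hW
  have iE : ∀ u ∈ Γ ⊓ HU, ∀ x, (fun x => cs (Γ ⊓ HU) (Γ : Set H) (fun γ => Ψ (γ • x))) (u • x) =
      (fun x => cs (Γ ⊓ HU) (Γ : Set H) (fun γ => Ψ (γ • x))) x := by
    intro u hu x
    have hb : ∀ v ∈ Γ ⊓ HU, ∀ g : H, Ψ ((v * g) • x) = Ψ (g • x) := by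
      intro v hv g
      rw [mul_smul, M.inv hv]
    have h4 := cs_shift iΓ (b := fun γ => Ψ (γ • x)) hb u fun γ => Γ.mul_mem_cancel_right hu.1
    change cs (Γ ⊓ HU) (Γ : Set H) (fun γ => Ψ (γ • u • x)) = cs (Γ ⊓ HU) (Γ : Set H) (fun γ => Ψ (γ • x))
    rw [← h4]
    simp only [mul_smul]
  have h2 := an_gen M hU hF (E := fun x => cs (Γ ⊓ HU) (Γ : Set H) (fun γ => Ψ (γ • x))) (b5_meas L subset_rfl) iE
    (BE := K.toReal) (fun x _ => by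
      have h5 := ENNReal.toReal_mono hK (hKb (Γ : Set H) subset_rfl x)
      rwa [toReal_enorm] at h5) (fun x hx => an_mean M hd hx)
  have h4 := ls_abs L subset_rfl iΓ h1 h2 (C := 0) (by simp)
  rwa [add_zero, one_mul] at h4

end

end Pool.Agent.Lib.L1S
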