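import Pool.Agent.Lib.L1S.AN0

/-!
# AV0: version 2 (a finite family of Hecke elements): definitions

`Γa`, `Γb` are the groups `h_k⁻¹ Γ₁ h_k` for two elements `h_k`, `Z = {γ | h_a γ h_b⁻¹ ∈ Γ₁}`.
-/

namespace Pool.Agent.Lib.L1S

open MeasureTheory Pool.Agent.Lib.H33W Pool.Agent.Lib.H67G
open scoped ENNReal

noncomputable section

variable {H X T : Type} [Group H] [MulAction H X]

/-- The subgroup `{δ ∈ Γb ∩ U : γ δ γ⁻¹ ∈ Γa ∩ U}` of `U`. -/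
def La2 (Γa Γb HU : Subgroup H) (γ : H) : Subgroup HU where
  carrier := {δ | (δ : H) ∈ Γb ∧ γ * (δ : H) * γ⁻¹ ∈ Γa ⊓ HU}
  mul_mem' := by
    rintro a b ⟨ha, ha'⟩ ⟨hb, hb'⟩
    refine ⟨Γb.mul_mem ha hb, ?_⟩
    have e : γ * ((a * b : HU) : H) * γ⁻¹ = (γ * (a : H) * γ⁻¹) * (γ * (b : H) * γ⁻¹) := by
      rw [Subgroup.coe_mul]; group
    rw [e]
    exact mul_mem ha' hb'
  one_mem' := by
    refine ⟨Γb.one_mem, ?_⟩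
    rw [Subgroup.coe_one, mul_one, mul_inv_cancel]
    exact one_mem _
  inv_mem' := by
    rintro a ⟨ha, ha'⟩
    refine ⟨Γb.inv_mem ha, ?_⟩
    have e : γ * ((a⁻¹ : HU) : H) * γ⁻¹ = (γ * (a : H) * γ⁻¹)⁻¹ := by
      rw [Subgroup.coe_inv]; group
    rw [e]
    exact inv_mem ha'

theorem La2_self (Γ HU : Subgroup H) (γ : H) : La2 Γ Γ HU γ = La Γ HU γ := rfl

/-- The double coset of `γ`. -/
def DC2 (Γa Γb HU : Subgroup H) (γ : H) : Set H := {g | ∃ u ∈ Γa ⊓ HU, ∃ δ ∈ Γb ⊓ HU, g = u * γ * δ}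

/-- The hypothesis on the elements `γ` outside `U`: there is `v ∈ U` with `γ v γ⁻¹ = v' ∈ U` and `χ(v') ≠ χ(v)`, such that `Λ_γ` and `v Λ_γ v⁻¹` are commensurable. -/
def Dich2 (Γa Γb HU : Subgroup H) (χ : HU → ℂ) (γ : H) : Prop :=
  ∃ v v' : HU, γ * (v : H) = (v' : H) * γ ∧ χ v' ≠ χ v ∧ ∃ Λ₁ Λ₂ : Subgroup HU, Λ₁ ≤ La2 Γa Γb HU γ ∧ Λ₂ ≤ La2 Γa Γb HU γ ∧
    Λ₁.relIndex (La2 Γa Γb HU γ) ≠ 0 ∧ Λ₂.relIndex (La2 Γa Γb HU γ) ≠ 0 ∧ ∀ h : HU, h ∈ Λ₂ ↔ v * h * v⁻¹ ∈ Λ₁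

theorem Dich2_self (Γ HU : Subgroup H) (χ : HU → ℂ) (γ : H) : Dich2 Γ Γ HU χ γ ↔ Dich Γ HU χ γ := Iff.rfl

/-- The data for the computation of the mean of the part of the Poincare series which belongs to `Z`. -/
structure MD2 [MeasurableSpace X] [MeasurableSpace T] (μ : Measure X) (ν : Measure T) (tr : T → X → X) (ι : T → T) (Γa Γb HU : Subgroup H)
    [MulAction HU T] (D : Set T) (e : T → ℂ) (χ : HU → ℂ) (S : Set X) (Ψ : X → ℂ) (Z : Set H) : Prop where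
  avg : Avg HU μ ν tr ι
  sfD : SF (Γb.subgroupOf HU) D
  pD : ν D ≠ 0
  fD : ν D ≠ ⊤
  me : Measurable e
  ne : ∀ t, ‖e t‖ = 1
  he : ∀ (h : HU) t, e (h • t) = χ h * e t
  ha : ∀ h : HU, (h : H) ∈ Γa → χ h = 1
  hb : ∀ h : HU, (h : H) ∈ Γb → χ h = 1
  mΨ : Measurable Ψ
  bΨ : ∃ B : ℝ, ∀ x, ‖Ψ x‖ ≤ B
  eq : ∀ t x, Ψ (tr t x) = e t * Ψ x
  hS : ∀ t x, tr t x ∈ S ↔ x ∈ S
  sΨ : ∀ x, x ∉ S → Ψ x = 0
  zl : ∀ u ∈ Γa ⊓ HU, ∀ g, u * g ∈ Z ↔ g ∈ Z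
  zr : ∀ u ∈ Γb ⊓ HU, ∀ g, g * u ∈ Z ↔ g ∈ Z
  fs : ∃ N : ℕ, ∀ x, {c : H ⧸ (Γa ⊓ HU) | (Quotient.out c)⁻¹ ∈ Z ∧ Ψ ((Quotient.out c)⁻¹ • x) ≠ 0}.encard ≤ N

section

variable [MeasurableSpace X] [MeasurableSpace T] {μ : Measure X} {ν : Measure T} {tr : T → X → X} {ι : T → T} {Γa Γb HU : Subgroup H}
    [MulAction HU T] {D : Set T} {e : T → ℂ} {χ : HU → ℂ} {S : Set X} {Ψ : X → ℂ} {Z : Set H}

/-- `T` is not empty. -/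
theorem MD2.nonempty (M : MD2 μ ν tr ι Γa Γb HU D e χ S Ψ Z) : Nonempty T := by
  by_contra h
  rw [not_nonempty_iff] at h
  exact M.pD (by rw [Set.eq_empty_of_isEmpty D, measure_empty])

/-- `Ψ` is equivariant for `HU`. -/
theorem MD2.eqU (M : MD2 μ ν tr ι Γa Γb HU D e χ S Ψ Z) (h : HU) (x : X) : Ψ ((h : H) • x) = χ h * Ψ x := by
  obtain ⟨t⟩ := M.nonempty
  have e1 : x = tr t (tr (ι t) x) := (M.avg.inv2 t x).symm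
  have e2 : (h : H) • x = tr (h • t) (tr (ι t) x) := by
    rw [M.avg.act]
    exact congrArg (fun y => (h : H) • y) e1
  rw [e2, M.eq, M.he, mul_assoc, ← M.eq, ← e1]

theorem MD2.inv (M : MD2 μ ν tr ι Γa Γb HU D e χ S Ψ Z) {g : H} (hg : g ∈ Γa ⊓ HU) (x : X) : Ψ (g • x) = Ψ x := by
  have h := M.eqU ⟨g, hg.2⟩ x
  rw [M.ha _ hg.1, one_mul] at h
  exact h

end

end

end Pool.Agent.Lib.L1S
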