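import Pool.Agent.Lib.L1S.AN2
import Pool.Agent.Lib.L1S.AN5A
import Pool.Agent.Lib.L1S.AV3

/-!
# AV5: the contribution of one double coset to the mean is zero (version 2)
-/

namespace Pool.Agent.Lib.L1S

open MeasureTheory Pool.Agent.Lib.H33W Pool.Agent.Lib.H67G
open scoped ENNReal

noncomputable section

variable {H X T : Type} [Group H] [Countable H] [MulAction H X] [MeasurableSpace X] [MeasurableSpace T] [MeasurableConstSMul H X] {μ : Measure X} {ν : Measure T}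
  {tr : T → X → X} {ι : T → T} {Γa Γb HU : Subgroup H} [MulAction HU T] {D : Set T} {e : T → ℂ} {χ : HU → ℂ} {S : Set X} {Ψ : X → ℂ} {Z : Set H}

omit [Countable H] in
/-- PROOF. `tr`, `e`, `Ψ` are measurable (`M.avg.trm` with `x` fixed, `M.me`, `M.mΨ`, `measurable_const_smul γ`). -/
theorem fg2_meas (M : MD2 μ ν tr ι Γa Γb HU D e χ S Ψ Z) (γ : H) (x : X) : Measurable (fg e Ψ tr γ x) := by
  have h1 : Measurable fun t : T => tr t x := M.avg.trm.comp (measurable_id.prodMk measurable_const)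
  exact (continuous_star.measurable.comp M.me).mul (M.mΨ.comp ((measurable_const_smul γ).comp h1))

omit [Countable H] [MeasurableConstSMul H X] in
/-- PROOF. `tr (h • t) x = h • tr t x` (`M.avg.act`), `γ • h • y = (h' γ) • y = h' • (γ • y)` with `γ h = h' γ`, `Ψ(h' • z) = χ(h') Ψ(z)` (`M.eqU`), `e(h • t) = χ(h) e(t)` (`M.he`). -/
theorem fg2_v (M : MD2 μ ν tr ι Γa Γb HU D e χ S Ψ Z) {γ : H} {h h' : HU} (hh : γ * (h : H) = (h' : H) * γ) (x : X) (t : T) :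
    fg e Ψ tr γ x (h • t) = star (χ h) * χ h' * fg e Ψ tr γ x t := by
  have e1 : tr (h • t) x = (h : H) • tr t x := M.avg.act h t x
  have e2 : γ • ((h : H) • tr t x) = (h' : H) • (γ • tr t x) := by
    rw [smul_smul, smul_smul, hh]
  unfold fg
  rw [e1, e2, M.eqU, M.he, star_mul']
  ring

omit [Countable H] [MeasurableConstSMul H X] in
/-- PROOF. `fg_v` with `h' = γ h γ⁻¹`; `χ h = 1`, `χ h' = 1` (`M.hχ`). -/
theorem fg2_inv (M : MD2 μ ν tr ι Γa Γb HU D e χ S Ψ Z) {γ : H} {h : HU} (hh : h ∈ La2 Γa Γb HU γ) (x : X) (t : T) :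
    fg e Ψ tr γ x (h • t) = fg e Ψ tr γ x t := by
  obtain ⟨h1, h2⟩ := hh
  rw [fg2_v M (h' := ⟨γ * (h : H) * γ⁻¹, h2.2⟩) (by simp) x t, M.hb h h1, M.ha _ h2.1, star_one, one_mul, one_mul]

omit [Countable H] [MeasurableConstSMul H X] in
theorem av5_chi (M : MD2 μ ν tr ι Γa Γb HU D e χ S Ψ Z) (h : HU) : ‖χ h‖ = 1 := by
  obtain ⟨t⟩ := M.nonempty
  have h1 := congrArg norm (M.he h t)
  rw [norm_mul, M.ne, M.ne, mul_one] at h1
  exact h1.symm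

omit [Countable H] [MeasurableConstSMul H X] in
theorem av5_fg (M : MD2 μ ν tr ι Γa Γb HU D e χ S Ψ Z) {γ : H} {δ : HU} (hδ : (δ : H) ∈ Γb) (x : X) (t : T) :
    fg e Ψ tr γ x (δ • t) = star (e t) * Ψ ((γ * (δ : H)) • tr t x) := by
  have h1 : tr (δ • t) x = (δ : H) • tr t x := M.avg.act δ t x
  unfold fg
  rw [h1, M.he, M.hb δ hδ, one_mul, mul_smul]

omit [Countable H] [MeasurableConstSMul H X] in
theorem av5_cs (M : MD2 μ ν tr ι Γa Γb HU D e χ S Ψ Z) (γ : H) (x : X) (t : T) :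
    cs (Γa ⊓ HU) (DC2 Γa Γb HU γ) (fun g => star (e t) * Ψ (g • tr t x)) =
      cs (La2 Γa Γb HU γ) ((Γb.subgroupOf HU : Subgroup HU) : Set HU) (fun δ : HU => fg e Ψ tr γ x (δ • t)) := by
  classical
  rw [av_cs (Γa := Γa) (Γb := Γb) (HU := HU) γ (b := fun g => star (e t) * Ψ (g • tr t x)) (fun u hu g => by
    show star (e t) * Ψ ((u * g) • tr t x) = star (e t) * Ψ (g • tr t x)
    rw [mul_smul, M.inv hu])]
  unfold cs
  refine finsum_congr fun c => ?_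
  by_cases h : (Quotient.out c)⁻¹ ∈ ((Γb.subgroupOf HU : Subgroup HU) : Set HU)
  · rw [if_pos h, if_pos h]
    exact (av5_fg M (Subgroup.mem_subgroupOf.1 h) x t).symm
  · rw [if_neg h, if_neg h]

omit [Countable H] [MeasurableConstSMul H X] in
theorem av5_set (M : MD2 μ ν tr ι Γa Γb HU D e χ S Ψ Z) {γ : H} (hγ : γ ∈ Z) : ∃ N : ℕ, ∀ (x : X) (t : T),
    {c : HU ⧸ La2 Γa Γb HU γ | (Quotient.out c)⁻¹ ∈ Γb.subgroupOf HU ∧ fg e Ψ tr γ x ((Quotient.out c)⁻¹ • t) ≠ 0}.encard ≤ N := by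
  obtain ⟨N, hN⟩ := M.fs
  refine ⟨N, fun x t => le_trans (Set.encard_le_encard ?_) ((av_card M.zl M.zr hγ (p := fun g => Ψ (g • tr t x) ≠ 0) ?_).trans (hN (tr t x)))⟩
  · rintro c ⟨h1, h2⟩
    refine ⟨h1, fun h3 => h2 ?_⟩
    rw [av5_fg M (Subgroup.mem_subgroupOf.1 h1) x t, h3, mul_zero]
  · intro u hu g
    show Ψ ((u * g) • tr t x) ≠ 0 ↔ Ψ (g • tr t x) ≠ 0
    rw [mul_smul, M.inv hu]

omit [Countable H] [MeasurableConstSMul H X] in
theorem av5_bd (M : MD2 μ ν tr ι Γa Γb HU D e χ S Ψ Z) {γ : H} (hγ : γ ∈ Z) : ∃ K : ℝ≥0∞, K ≠ ⊤ ∧ ∀ (x : X) (t : T),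
    ce (La2 Γa Γb HU γ) ((Γb.subgroupOf HU : Subgroup HU) : Set HU) (fun δ : HU => ‖fg e Ψ tr γ x (δ • t)‖ₑ) ≤ K := by
  obtain ⟨N, hN⟩ := av5_set M hγ
  obtain ⟨B, hB⟩ := M.bΨ
  refine ⟨N * ENNReal.ofReal B, ENNReal.mul_ne_top (ENNReal.natCast_ne_top N) ENNReal.ofReal_ne_top, fun x t => ?_⟩
  have hfg : ∀ s, ‖fg e Ψ tr γ x s‖ₑ ≤ ENNReal.ofReal B := by
    intro s
    rw [← ofReal_norm_eq_enorm]
    refine ENNReal.ofReal_le_ofReal ?_
    unfold fg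
    rw [norm_mul, norm_star, M.ne, one_mul]
    exact hB _
  obtain ⟨W, hW⟩ : ∃ W : Set (HU ⧸ La2 Γa Γb HU γ), W = {c : HU ⧸ La2 Γa Γb HU γ | (Quotient.out c)⁻¹ ∈ Γb.subgroupOf HU ∧
    fg e Ψ tr γ x ((Quotient.out c)⁻¹ • t) ≠ 0} := ⟨_, rfl⟩
  have h1 : ce (La2 Γa Γb HU γ) ((Γb.subgroupOf HU : Subgroup HU) : Set HU) (fun δ : HU => ‖fg e Ψ tr γ x (δ • t)‖ₑ) ≤
      ∑' c : HU ⧸ La2 Γa Γb HU γ, W.indicator (fun _ => ENNReal.ofReal B) c := by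
    unfold ce
    refine ENNReal.tsum_le_tsum fun c => ?_
    by_cases hc : (Quotient.out c)⁻¹ ∈ ((Γb.subgroupOf HU : Subgroup HU) : Set HU)
    · rw [if_pos hc]
      change ‖fg e Ψ tr γ x ((Quotient.out c)⁻¹ • t)‖ₑ ≤ _
      by_cases hc2 : fg e Ψ tr γ x ((Quotient.out c)⁻¹ • t) = 0
      · rw [hc2, enorm_zero]
        exact zero_le
      · rw [hW, Set.indicator_of_mem (show c ∈ {c : HU ⧸ La2 Γa Γb HU γ | (Quotient.out c)⁻¹ ∈ Γb.subgroupOf HU ∧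
          fg e Ψ tr γ x ((Quotient.out c)⁻¹ • t) ≠ 0} from ⟨hc, hc2⟩)]
        exact hfg _
    · rw [if_neg hc]
      exact zero_le
  refine h1.trans ?_
  rw [← tsum_subtype W fun _ => ENNReal.ofReal B, ENNReal.tsum_set_const]
  have h2 : (W.encard : ℝ≥0∞) ≤ N := by
    have h3 := hN x t
    rw [← hW] at h3
    have h4 := ENat.toENNReal_le.2 h3
    rwa [ENat.toENNReal_coe] at h4
  exact mul_le_mul_left h2 _

/-- PROOF. By `an_cs` (`b(g) = star(e t) Ψ(g • tr t x)`, invariant by `M.inv`) the inner sum is `cs La (Γ ∩ U) (δ ↦ star(e t) Ψ((γ δ) • tr t x))` and `Ψ((γ δ) • tr t x) = Ψ(γ • tr (δ • t) x)`, `e t = e (δ • t)` for `δ ∈ Γ ∩ U` (the terms with `δ` outside `Γ ∩ U` do not occur in `cs`: `finsum_congr` with the `if`): it is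
`cs La (Γ ∩ U) (δ ↦ fg γ x (δ • t))`. `F` a fundamental domain of `La` in `T` (`an_sf` with `M.sfD`, `La ≤ Γb.subgroupOf HU`). `H67G.unfold_cs` for the action of `HU` on `T` (`μ := ν`, `U₀ := La`, `Γ := Γb.subgroupOf HU`, `F₁ := D`, `F_U := F`, `θ = fg γ x`; the instances `MeasurableConstSMul HU T`,
`SMulInvariantMeasure HU T ν` from `M.avg.ht`): the integral is `∫_F fg γ x`. The integrability: `∫⁻_F ‖fg‖ₑ = ∫⁻_D ce La (Γ ∩ U) (‖fg(δ • t)‖ₑ)` (`unfold_ce`) `≤ ν(D) N B < ∞` (at most `N` nonzero terms by `an_card` and `M.fs`, compare `H67G.b5_bd`).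
`∫_F fg γ x = 0` by `an_zero` with the data of `Dich` (`κ = star(χ v) χ v'`, `‖κ‖ = 1` and `κ ≠ 1`: `‖χ h‖ = 1` for all `h` as `‖e(h • t)‖ = ‖e t‖ = 1`, `star(χ v) χ v = 1`). -/
theorem av_orb (M : MD2 μ ν tr ι Γa Γb HU D e χ S Ψ Z) {γ : H} (hγ : γ ∈ Z) (hd : Dich2 Γa Γb HU χ γ) (x : X) :
    ∫ t in D, cs (Γa ⊓ HU) (DC2 Γa Γb HU γ) (fun g => star (e t) * Ψ (g • tr t x)) ∂ν = 0 := by
  have i1 : MeasurableConstSMul HU T := ⟨fun c => (M.avg.ht c).measurable⟩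
  have i2 : SMulInvariantMeasure HU T ν := ⟨fun c s hs => (M.avg.ht c).measure_preimage hs.nullMeasurableSet⟩
  have hle : La2 Γa Γb HU γ ≤ Γb.subgroupOf HU := fun δ hδ => Subgroup.mem_subgroupOf.2 hδ.1
  obtain ⟨F, hF⟩ := an_sf (fun h => (M.avg.ht h).measurable) hle M.sfD
  have mfg := fg2_meas M γ x
  have ifg : ∀ u ∈ La2 Γa Γb HU γ, ∀ t, fg e Ψ tr γ x (u • t) = fg e Ψ tr γ x t := fun u hu t => fg2_inv M hu x t
  obtain ⟨K, hK, hb⟩ := av5_bd M hγ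
  have hint : ∫⁻ t in F, ‖fg e Ψ tr γ x t‖ₑ ∂ν ≠ ⊤ := by
    rw [← unfold_ce hle M.sfD hF (φ := fun t => ‖fg e Ψ tr γ x t‖ₑ) (μ := ν) mfg.enorm (fun u hu t => by rw [ifg u hu])]
    refine ne_top_of_le_ne_top (ENNReal.mul_ne_top hK M.fD) ?_
    refine (lintegral_mono fun t => hb x t).trans ?_
    rw [lintegral_const, Measure.restrict_apply_univ]
  obtain ⟨N, hN⟩ := av5_set M hγ
  have h1 := unfold_cs hle M.sfD hF (θ := fg e Ψ tr γ x) (μ := ν) mfg ifg hint (fun t => Set.finite_of_encard_le_coe (hN x t))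
  have h2 : ∫ t in D, cs (Γa ⊓ HU) (DC2 Γa Γb HU γ) (fun g => star (e t) * Ψ (g • tr t x)) ∂ν = ∫ t in F, fg e Ψ tr γ x t ∂ν := by
    rw [← h1]
    refine integral_congr_ae (Filter.Eventually.of_forall fun t => ?_)
    exact av5_cs M γ x t
  rw [h2]
  obtain ⟨v, v', hv, hne, Λ₁, Λ₂, l1, l2, r1, r2, hc⟩ := hd
  refine an_zero (v := v) (κ := star (χ v) * χ v') (fun h => M.avg.ht h) l1 l2 r1 r2 hc hF mfg ifg ?_ ?_ (fun t => fg2_v M hv x t)
  · rw [norm_mul, norm_star, av5_chi M, av5_chi M, one_mul]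
  · intro h3
    apply hne
    have h4 : χ v * star (χ v) = 1 := by
      have h5 := Complex.mul_conj' (χ v)
      rw [← Complex.star_def] at h5
      rw [h5, av5_chi M]
      norm_num
    calc χ v' = (χ v * star (χ v)) * χ v' := by rw [h4, one_mul]
      _ = χ v * (star (χ v) * χ v') := by ring
      _ = χ v := by rw [h3, mul_one]

end

end Pool.Agent.Lib.L1S
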