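import Pool.Agent.Lib.L1S.AN4
import Pool.Agent.Lib.L1S.AV5

/-!
# AV6: the mean of the part of the Poincare series which belongs to `Z` is zero (version 2)
-/

namespace Pool.Agent.Lib.L1S

open MeasureTheory Pool.Agent.Lib.H33W Pool.Agent.Lib.H67G
open scoped ENNReal

noncomputable section

section dc

variable {H : Type} [Group H] {Γa Γb HU : Subgroup H}

theorem av6_refl (γ : H) : γ ∈ DC2 Γa Γb HU γ :=
  ⟨1, one_mem _, 1, one_mem _, by rw [one_mul, mul_one]⟩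

theorem av6_sub {γ g : H} (h : g ∈ DC2 Γa Γb HU γ) : DC2 Γa Γb HU g ⊆ DC2 Γa Γb HU γ := by
  obtain ⟨u, hu, δ, hδ, rfl⟩ := h
  rintro _ ⟨u', hu', δ', hδ', rfl⟩
  exact ⟨u' * u, mul_mem hu' hu, δ * δ', mul_mem hδ hδ', by group⟩

theorem av6_symm {γ g : H} (h : g ∈ DC2 Γa Γb HU γ) : γ ∈ DC2 Γa Γb HU g := by
  obtain ⟨u, hu, δ, hδ, rfl⟩ := h
  exact ⟨u⁻¹, inv_mem hu, δ⁻¹, inv_mem hδ, by group⟩

theorem av6_eq {γ g : H} : DC2 Γa Γb HU g = DC2 Γa Γb HU γ ↔ g ∈ DC2 Γa Γb HU γ := by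
  constructor
  · intro h
    rw [← h]
    exact av6_refl g
  · intro h
    exact Set.Subset.antisymm (av6_sub h) (av6_sub (av6_symm h))

theorem av6_mem {Z : Set H} (zl : ∀ u ∈ Γa ⊓ HU, ∀ g, u * g ∈ Z ↔ g ∈ Z) (zr : ∀ u ∈ Γb ⊓ HU, ∀ g, g * u ∈ Z ↔ g ∈ Z) {γ g : H}
    (h : g ∈ DC2 Γa Γb HU γ) : g ∈ Z ↔ γ ∈ Z := by
  obtain ⟨u, hu, δ, hδ, rfl⟩ := h
  rw [zr δ hδ, zl u hu]

end dc

variable {H X T : Type} [Group H] [Countable H] [MulAction H X] [MeasurableSpace X] [MeasurableSpace T] [MeasurableConstSMul H X] {μ : Measure X} {ν : Measure T}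
  {tr : T → X → X} {ι : T → T} {Γa Γb HU : Subgroup H} [MulAction HU T] {D : Set T} {e : T → ℂ} {χ : HU → ℂ} {S : Set X} {Ψ : X → ℂ} {Z : Set H}

omit [Countable H] in
theorem av6_mb (M : MD2 μ ν tr ι Γa Γb HU D e χ S Ψ Z) (x : X) (g : H) : Measurable fun t : T => star (e t) * Ψ (g • tr t x) :=
  fg2_meas M g x

/-- The sum over the elements of `Z` has mean zero. -/
theorem av6_zero (M : MD2 μ ν tr ι Γa Γb HU D e χ S Ψ Z) (hd : ∀ γ ∈ Z, (∃ y ∈ S, γ • y ∈ S) → Dich2 Γa Γb HU χ γ) {x : X}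
    (hx : x ∈ S) :
    ∫ t in D, cs (Γa ⊓ HU) Z (fun g => star (e t) * Ψ (g • tr t x)) ∂ν = 0 := by
  obtain ⟨N, hN⟩ := M.fs
  obtain ⟨B, hB⟩ := M.bΨ
  have _ : IsFiniteMeasure (ν.restrict D) := ⟨by rw [Measure.restrict_apply_univ]; exact lt_top_iff_ne_top.2 M.fD⟩
  have _ : Countable (Set.range fun g : H => DC2 Γa Γb HU g) := (Set.countable_range _).to_subtype
  refine an_classes (I := Set.range fun g : H => DC2 Γa Γb HU g) (ρ := ν.restrict D) (U₀ := Γa ⊓ HU)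
    M.zl (fun g => ⟨DC2 Γa Γb HU g, g, rfl⟩) (fun u hu g => ?_)
    (b := fun g t => star (e t) * Ψ (g • tr t x)) (av6_mb M x) (fun u hu g t => ?_) (N := N) (fun t => ?_) (B := B)
    (fun g t => ?_) ?_
  · refine Subtype.ext ?_
    exact av6_eq.2 ⟨u, hu, 1, one_mem _, by rw [mul_one]⟩
  · rw [mul_smul, M.inv hu]
  · refine le_trans (Set.encard_le_encard ?_) (hN (tr t x))
    rintro c ⟨h1, h2⟩
    exact ⟨h1, right_ne_zero_of_mul h2⟩
  · rw [norm_mul, norm_star, M.ne t, one_mul]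
    exact hB _
  · rintro ⟨_, γ, rfl⟩
    have hset : {g : H | (⟨DC2 Γa Γb HU g, g, rfl⟩ : Set.range fun g : H => DC2 Γa Γb HU g) = ⟨DC2 Γa Γb HU γ, γ, rfl⟩} = DC2 Γa Γb HU γ := by
      ext g
      constructor
      · intro h
        exact av6_eq.1 (congrArg Subtype.val h)
      · intro h
        exact Subtype.ext (av6_eq.2 h)
    rw [hset]
    by_cases hγ : γ ∈ Z
    · have h1 : Z ∩ DC2 Γa Γb HU γ = DC2 Γa Γb HU γ :=
        Set.inter_eq_right.2 fun g hg => (av6_mem M.zl M.zr hg).2 hγ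
      rw [h1]
      by_cases h2 : ∃ y ∈ S, γ • y ∈ S
      · exact av_orb M hγ (hd γ hγ h2) x
      · have h3 : ∀ t : T, cs (Γa ⊓ HU) (DC2 Γa Γb HU γ) (fun g => star (e t) * Ψ (g • tr t x)) = 0 := by
          intro t
          unfold cs
          refine finsum_eq_zero_of_forall_eq_zero fun c => ?_
          by_cases h4 : (Quotient.out c)⁻¹ ∈ DC2 Γa Γb HU γ
          · rw [if_pos h4]
            obtain ⟨u, hu, δ, hδ, h5⟩ := h4
            have h6 : ((⟨δ, hδ.2⟩ : HU) : H) • tr t x = tr ((⟨δ, hδ.2⟩ : HU) • t) x := (M.avg.act ⟨δ, hδ.2⟩ t x).symm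
            have h7 : (Quotient.out c)⁻¹ • tr t x = u • γ • tr ((⟨δ, hδ.2⟩ : HU) • t) x := by
              rw [h5, mul_smul, mul_smul, ← h6]
            have h8 : tr ((⟨δ, hδ.2⟩ : HU) • t) x ∈ S := (M.hS _ _).2 hx
            have h9 : γ • tr ((⟨δ, hδ.2⟩ : HU) • t) x ∉ S := fun h10 => h2 ⟨_, h8, h10⟩
            change star (e t) * Ψ ((Quotient.out c)⁻¹ • tr t x) = 0
            rw [h7, M.inv hu, M.sΨ _ h9, mul_zero]
          · rw [if_neg h4]
        simp only [h3]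
        exact integral_zero _ _
    · have h1 : Z ∩ DC2 Γa Γb HU γ = ∅ := by
        rw [Set.eq_empty_iff_forall_notMem]
        rintro g ⟨h2, h3⟩
        exact hγ ((av6_mem M.zl M.zr h3).1 h2)
      rw [h1]
      have h2 : ∀ t : T, cs (Γa ⊓ HU) ∅ (fun g => star (e t) * Ψ (g • tr t x)) = 0 := by
        intro t
        unfold cs
        refine finsum_eq_zero_of_forall_eq_zero fun c => ?_
        rw [if_neg (Set.notMem_empty _)]
      simp only [h2]
      exact integral_zero _ _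

/-- For every `x` the sum over the elements of `Z` is a bounded measurable function of `t`. -/
theorem av6_int (M : MD2 μ ν tr ι Γa Γb HU D e χ S Ψ Z) (x : X) :
    Integrable (fun t => cs (Γa ⊓ HU) Z (fun g => star (e t) * Ψ (g • tr t x))) (ν.restrict D) := by
  classical
  obtain ⟨N, hN⟩ := M.fs
  obtain ⟨B, hB⟩ := M.bΨ
  have _ : IsFiniteMeasure (ν.restrict D) := ⟨by rw [Measure.restrict_apply_univ]; exact lt_top_iff_ne_top.2 M.fD⟩
  have h3 : ∀ t : T, {c : H ⧸ (Γa ⊓ HU) | (Quotient.out c)⁻¹ ∈ Z ∧ star (e t) * Ψ ((Quotient.out c)⁻¹ • tr t x) ≠ 0}.encard ≤ N := by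
    intro t
    refine le_trans (Set.encard_le_encard ?_) (hN (tr t x))
    rintro c ⟨h4, h5⟩
    exact ⟨h4, right_ne_zero_of_mul h5⟩
  have h2 : ∀ t : T, {c : H ⧸ (Γa ⊓ HU) | (Quotient.out c)⁻¹ ∈ Z ∧ star (e t) * Ψ ((Quotient.out c)⁻¹ • tr t x) ≠ 0}.Finite := fun t =>
    Set.finite_of_encard_le_coe (h3 t)
  refine Integrable.of_bound (C := N * B) ?_ (Filter.Eventually.of_forall fun t => ?_)
  · let _ : MulAction H T := { smul := fun _ t => t, one_smul := fun _ => rfl, mul_smul := fun _ _ _ => rfl }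
    exact (cs_meas (Γa ⊓ HU) _ (av6_mb M x) h2).aestronglyMeasurable
  · unfold cs
    rw [finsum_eq_sum_of_support_subset (s := (h2 t).toFinset)]
    · refine (norm_sum_le _ _).trans ?_
      have hcard : ((h2 t).toFinset.card : ℝ) ≤ N := by
        have h4 := h3 t
        rw [(h2 t).encard_eq_coe_toFinset_card] at h4
        exact_mod_cast h4
      have hB0 : 0 ≤ B := (norm_nonneg _).trans (hB x)
      refine (Finset.sum_le_card_nsmul _ _ B fun c _ => ?_).trans ?_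
      · by_cases h : (Quotient.out c)⁻¹ ∈ Z
        · rw [if_pos h, norm_mul, norm_star, M.ne t, one_mul]
          exact hB _
        · rw [if_neg h, norm_zero]
          exact hB0
      · rw [nsmul_eq_mul]
        exact mul_le_mul_of_nonneg_right hcard hB0
    · intro c hc
      rw [Function.mem_support] at hc
      rw [Set.Finite.coe_toFinset]
      by_cases h : (Quotient.out c)⁻¹ ∈ Z
      · rw [if_pos h] at hc
        exact ⟨h, hc⟩
      · rw [if_neg h] at hc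
        exact absurd rfl hc

end

end Pool.Agent.Lib.L1S
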