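import Pool.Agent.Lib.L1S.AV0
import Pool.Agent.Lib.L1S.AN13

/-!
# AV7A: auxiliary statements for the large sieve for a family (version 2)
-/

namespace Pool.Agent.Lib.L1S

open MeasureTheory Pool.Agent.Lib.H33W Pool.Agent.Lib.H67G
open scoped ENNReal

noncomputable section

/-- A shift from the set `S` to the set `S g`. -/
theorem av7_shift {H : Type} [Group H] {U₀ : Subgroup H} {S S' : Set H} (hS' : LInv U₀ S') {b : H → ℂ} (hb : ∀ u ∈ U₀, ∀ g, b (u * g) = b g) (g : H)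
    (hg : ∀ γ, γ * g ∈ S' ↔ γ ∈ S) : cs U₀ S (fun γ => b (γ * g)) = cs U₀ S' b := by
  classical
  refine Eq.trans (finsum_congr fun c => ?_)
    (finsum_comp_equiv (b3_perm U₀ g) (f := fun c : H ⧸ U₀ => if (Quotient.out c)⁻¹ ∈ S' then b (Quotient.out c)⁻¹ else 0))
  obtain ⟨u, hu, e⟩ := b3_out U₀ g c
  show _ = (if (Quotient.out (b3_perm U₀ g c))⁻¹ ∈ S' then b (Quotient.out (b3_perm U₀ g c))⁻¹ else 0)
  rw [e, hb u hu]
  by_cases h : (Quotient.out c)⁻¹ ∈ S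
  · rw [if_pos h, if_pos ((hS' u hu _).2 ((hg _).2 h))]
  · rw [if_neg h, if_neg fun h' => h ((hg _).1 ((hS' u hu _).1 h'))]

/-- The number of cosets after a shift. -/
theorem av7_card {H : Type} [Group H] {U₀ : Subgroup H} {S S' : Set H} (hS' : LInv U₀ S') (g : H) (hg : ∀ γ, γ * g ∈ S' ↔ γ ∈ S) {p : H → Prop}
    (hp : ∀ u ∈ U₀, ∀ g, p (u * g) ↔ p g) :
    {c : H ⧸ U₀ | (Quotient.out c)⁻¹ ∈ S ∧ p ((Quotient.out c)⁻¹ * g)}.encard ≤ {c : H ⧸ U₀ | (Quotient.out c)⁻¹ ∈ S' ∧ p (Quotient.out c)⁻¹}.encard := by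
  refine Set.encard_le_encard_of_injOn (f := b3_perm U₀ g) ?_ ((b3_perm U₀ g).injective.injOn)
  rintro c ⟨h1, h2⟩
  obtain ⟨u, hu, e⟩ := b3_out U₀ g c
  show (Quotient.out (b3_perm U₀ g c))⁻¹ ∈ S' ∧ p (Quotient.out (b3_perm U₀ g c))⁻¹
  rw [e]
  exact ⟨(hS' u hu _).2 ((hg _).2 h1), (hp u hu _).2 h2⟩

section

variable {H X : Type} [Group H] [MulAction H X] [MeasurableSpace X] {μ : Measure X} {U₀ Γ : Subgroup H} {F' F_U S : Set X} {Ψ h : X → ℂ}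

/-- The product of the Poincare series and an invariant function is integrable. -/
theorem av7_nt [Countable H] [MeasurableConstSMul H X] [SMulInvariantMeasure H X μ] (D : LSD μ U₀ Γ F' F_U S Ψ h)
    {G : X → ℂ} (mG : Measurable G) (iG : ∀ γ ∈ Γ, ∀ x, G (γ • x) = G x) {K : ℝ≥0∞} (hK : K ≠ ⊤) (hG : ∀ x ∈ S, ‖G x‖ₑ ≤ K) :
    ∫⁻ x in F', ‖star (cs U₀ (Γ : Set H) (fun γ => Ψ (γ • x))) * G x‖ₑ ∂μ ≠ ⊤ := by
  have h1 := unfold_ce D.le D.sf' D.sfU (φ := fun x => ‖star (Ψ x) * G x‖ₑ) (μ := μ)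
    (((continuous_star.measurable.comp D.mΨ).mul mG).enorm) (fun u hu x => by rw [D.iΨ u hu, iG u (D.le hu)])
  have h2 := b5_nt D hK hG
  rw [← h1] at h2
  refine ne_top_of_le_ne_top h2 (lintegral_mono fun x => ?_)
  rw [← b5_cs D iG x]
  exact cs_norm ((b5_fin D x).subset fun c hc => ⟨hc.1, fun h3 => hc.2 (by rw [h3, star_zero, zero_mul])⟩)

end

/-- The norm of a sum of integrals of squares. -/
theorem av7_sum {X κ : Type} [MeasurableSpace X] {μ : Measure X} (s : Finset κ) {F : κ → Set X} {P : κ → X → ℂ} (mP : ∀ k, Measurable (P k))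
    (hP : ∀ k, ∫⁻ x in F k, ‖P k x‖ₑ ^ 2 ∂μ ≠ ⊤) :
    ‖∑ k ∈ s, ∫ x in F k, ((‖P k x‖ ^ 2 : ℝ) : ℂ) ∂μ‖ₑ = ∑ k ∈ s, ∫⁻ x in F k, ‖P k x‖ₑ ^ 2 ∂μ := by
  have h0 : ∀ k, 0 ≤ ∫ x in F k, ‖P k x‖ ^ 2 ∂μ := fun k => integral_nonneg fun x => by positivity
  have h1 : ∀ k, ENNReal.ofReal (∫ x in F k, ‖P k x‖ ^ 2 ∂μ) = ∫⁻ x in F k, ‖P k x‖ₑ ^ 2 ∂μ := by
    intro k
    rw [← b5_sq (μ.restrict (F k)) (mP k) (hP k), integral_complex_ofReal, ← ofReal_norm, Complex.norm_real, Real.norm_eq_abs, abs_of_nonneg (h0 k)]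
  simp_rw [integral_complex_ofReal]
  rw [← Complex.ofReal_sum, ← ofReal_norm, Complex.norm_real, Real.norm_eq_abs, abs_of_nonneg (Finset.sum_nonneg fun k _ => h0 k),
    ENNReal.ofReal_sum_of_nonneg fun k _ => h0 k]
  exact Finset.sum_congr rfl fun k _ => h1 k

/-- The translate of an integral. -/
theorem av7_tr {H X : Type} [Group H] [MulAction H X] [MeasurableSpace X] [MeasurableConstSMul H X] {μ : Measure X} [SMulInvariantMeasure H X μ] (h₀ : H)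
    (F : Set X) (g : X → ℂ) : ∫ x in {x | h₀ • x ∈ F}, g x ∂μ = ∫ y in F, g (h₀⁻¹ • y) ∂μ := by
  have h1 := (measurePreserving_smul h₀ μ).setIntegral_preimage_emb (measurableEmbedding_const_smul h₀) (fun y => g (h₀⁻¹ • y)) F
  rw [← h1]
  refine integral_congr_ae (Filter.Eventually.of_forall fun x => ?_)
  show g x = g (h₀⁻¹ • h₀ • x)
  rw [inv_smul_smul]

theorem av7_trl {H X : Type} [Group H] [MulAction H X] [MeasurableSpace X] [MeasurableConstSMul H X] {μ : Measure X} [SMulInvariantMeasure H X μ] (h₀ : H)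
    (F : Set X) (g : X → ℝ≥0∞) : ∫⁻ x in {x | h₀ • x ∈ F}, g x ∂μ = ∫⁻ y in F, g (h₀⁻¹ • y) ∂μ := by
  have h1 := (measurePreserving_smul h₀ μ).setLIntegral_comp_preimage_emb (measurableEmbedding_const_smul h₀) (fun y => g (h₀⁻¹ • y)) F
  rw [← h1]
  refine lintegral_congr fun x => ?_
  show g x = g (h₀⁻¹ • h₀ • x)
  rw [inv_smul_smul]

end

end Pool.Agent.Lib.L1S
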