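import Pool.Agent.Lib.L1S.AN7
import Pool.Agent.Lib.L1S.AV6
import Pool.Agent.Lib.L1S.AV7A

/-!
# AV7: the large sieve inequality for a finite family of Hecke translations (version 2)
-/

namespace Pool.Agent.Lib.L1S

open MeasureTheory Pool.Agent.Lib.H33W Pool.Agent.Lib.H67G
open scoped ENNReal

noncomputable section

/-- The elements `γ` with `a γ b⁻¹ ∈ Γ`. -/
def Zs {H : Type} [Group H] (Γ : Subgroup H) (a b : H) : Set H := {γ | a * γ * b⁻¹ ∈ Γ}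

section fam

variable {H X T κ : Type} [Group H] [MulAction H X] [MeasurableSpace X] [MeasurableSpace T] {μ : Measure X} {ν : Measure T}
  {tr : T → X → X} {ι : T → T} {Γ HU : Subgroup H} [MulAction HU T] {hk : κ → H} {Γk : κ → Subgroup H} {D : κ → Set T} {e : T → ℂ} {χ : HU → ℂ} {S : Set X} {Ψ : κ → X → ℂ}

theorem zs_l (hΓ : ∀ k g, g ∈ Γk k ↔ hk k * g * (hk k)⁻¹ ∈ Γ) (a b : κ) : ∀ u ∈ Γk a, ∀ g, u * g ∈ Zs Γ (hk a) (hk b) ↔ g ∈ Zs Γ (hk a) (hk b) := by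
  intro u hu g
  have e : hk a * (u * g) * (hk b)⁻¹ = (hk a * u * (hk a)⁻¹) * (hk a * g * (hk b)⁻¹) := by group
  show hk a * (u * g) * (hk b)⁻¹ ∈ Γ ↔ hk a * g * (hk b)⁻¹ ∈ Γ
  rw [e]
  exact Γ.mul_mem_cancel_left ((hΓ a u).1 hu)

theorem zs_r (hΓ : ∀ k g, g ∈ Γk k ↔ hk k * g * (hk k)⁻¹ ∈ Γ) (a b : κ) : ∀ u ∈ Γk b, ∀ g, g * u ∈ Zs Γ (hk a) (hk b) ↔ g ∈ Zs Γ (hk a) (hk b) := by
  intro u hu g
  have e : hk a * (g * u) * (hk b)⁻¹ = (hk a * g * (hk b)⁻¹) * (hk b * u * (hk b)⁻¹) := by group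
  show hk a * (g * u) * (hk b)⁻¹ ∈ Γ ↔ hk a * g * (hk b)⁻¹ ∈ Γ
  rw [e]
  exact Γ.mul_mem_cancel_right ((hΓ b u).1 hu)

theorem zs_self (hΓ : ∀ k g, g ∈ Γk k ↔ hk k * g * (hk k)⁻¹ ∈ Γ) (a : κ) : Zs Γ (hk a) (hk a) = (Γk a : Set H) := by
  ext g
  exact (hΓ a g).symm

theorem zs_g (hΓ : ∀ k g, g ∈ Γk k ↔ hk k * g * (hk k)⁻¹ ∈ Γ) (a b : κ) (γ : H) : γ * ((hk a)⁻¹ * hk b) ∈ Zs Γ (hk a) (hk b) ↔ γ ∈ (Γk a : Set H) := by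
  have e : hk a * (γ * ((hk a)⁻¹ * hk b)) * (hk b)⁻¹ = hk a * γ * (hk a)⁻¹ := by group
  show hk a * (γ * ((hk a)⁻¹ * hk b)) * (hk b)⁻¹ ∈ Γ ↔ γ ∈ Γk a
  rw [e]
  exact (hΓ a γ).symm

/-- The data for the pair `(a, b)`. -/
theorem av7_md2 (hΓ : ∀ k g, g ∈ Γk k ↔ hk k * g * (hk k)⁻¹ ∈ Γ) (M : ∀ k, MD μ ν tr ι (Γk k) HU (D k) e χ S (Ψ k)) (a b : κ) :
    MD2 μ ν tr ι (Γk a) (Γk b) HU (D b) e χ S (Ψ a) (Zs Γ (hk a) (hk b)) where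
  avg := (M b).avg
  sfD := (M b).sfD
  pD := (M b).pD
  fD := (M b).fD
  me := (M b).me
  ne := (M b).ne
  he := (M b).he
  ha := (M a).hχ
  hb := (M b).hχ
  mΨ := (M a).mΨ
  bΨ := (M a).bΨ
  eq := (M a).eq
  hS := (M a).hS
  sΨ := (M a).sΨ
  zl := fun u hu => zs_l hΓ a b u hu.1
  zr := fun u hu => zs_r hΓ a b u hu.1
  fs := by
    obtain ⟨N, hN⟩ := (M a).fs
    refine ⟨N, fun x => ?_⟩
    have h1 := av7_card (U₀ := Γk a ⊓ HU) (S := Zs Γ (hk a) (hk b)) (S' := (Γk a : Set H)) (fun u hu g => (Γk a).mul_mem_cancel_left hu.1)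
      ((hk a)⁻¹ * hk b)⁻¹ (fun γ => by
        rw [← zs_g hΓ a b, inv_mul_cancel_right]) (p := fun g => Ψ a (g • ((hk a)⁻¹ * hk b) • x) ≠ 0) (fun u hu g => by
        show Ψ a ((u * g) • ((hk a)⁻¹ * hk b) • x) ≠ 0 ↔ Ψ a (g • ((hk a)⁻¹ * hk b) • x) ≠ 0
        rw [mul_smul, (M a).inv hu])
    have h2 : ∀ c : H ⧸ (Γk a ⊓ HU), ((Quotient.out c)⁻¹ * ((hk a)⁻¹ * hk b)⁻¹) • ((hk a)⁻¹ * hk b) • x = (Quotient.out c)⁻¹ • x := by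
      intro c
      rw [smul_smul, inv_mul_cancel_right]
    simp only [h2] at h1
    exact h1.trans (hN _)

end fam

section main

variable {H X T κ : Type} [Group H] [Countable H] [MulAction H X] [MeasurableSpace X] [MeasurableSpace T] [MeasurableConstSMul H X] {μ : Measure X} {ν : Measure T}
  {tr : T → X → X} {ι : T → T} {Γ HU : Subgroup H} [MulAction HU T] [Fintype κ] {hk : κ → H} {Γk : κ → Subgroup H} {D : κ → Set T} {e : T → ℂ} {χ : HU → ℂ} {S : Set X} {Ψ : κ → X → ℂ}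

/-- The mean of the sum of the Poincare series. -/
theorem av7_mean (hΓ : ∀ k g, g ∈ Γk k ↔ hk k * g * (hk k)⁻¹ ∈ Γ) (M : ∀ k, MD μ ν tr ι (Γk k) HU (D k) e χ S (Ψ k))
    (hd1 : ∀ k, ∀ γ ∈ Γk k, γ ∉ HU → (∃ y ∈ S, γ • y ∈ S) → Dich (Γk k) HU χ γ)
    (hd2 : ∀ a b, a ≠ b → ∀ γ, hk a * γ * (hk b)⁻¹ ∈ Γ → (∃ y ∈ S, γ • y ∈ S) → Dich2 (Γk a) (Γk b) HU χ γ) (k : κ) {x : X} (hx : x ∈ S) :
    ⨍ t in D k, star (e t) * ∑ a, cs (Γk a ⊓ HU) (Γk a : Set H) (fun γ => Ψ a (γ • (hk a)⁻¹ • hk k • tr t x)) ∂ν = Ψ k x := by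
  classical
  have h1 : ∀ a (z : X), cs (Γk a ⊓ HU) (Γk a : Set H) (fun γ => Ψ a (γ • (hk a)⁻¹ • hk k • z)) =
      cs (Γk a ⊓ HU) (Zs Γ (hk a) (hk k)) (fun γ => Ψ a (γ • z)) := by
    intro a z
    have h2 := av7_shift (U₀ := Γk a ⊓ HU) (S := (Γk a : Set H)) (S' := Zs Γ (hk a) (hk k)) (fun u hu => zs_l hΓ a k u hu.1)
      (b := fun γ => Ψ a (γ • z)) (fun u hu g => by rw [mul_smul, (M a).inv hu]) ((hk a)⁻¹ * hk k) (zs_g hΓ a k)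
    rw [← h2]
    simp only [mul_smul]
  have h3 : ∀ a (t : T) (z : X), star (e t) * cs (Γk a ⊓ HU) (Zs Γ (hk a) (hk k)) (fun γ => Ψ a (γ • z)) =
      cs (Γk a ⊓ HU) (Zs Γ (hk a) (hk k)) (fun γ => star (e t) * Ψ a (γ • z)) := by
    intro a t z
    unfold cs
    rw [← smul_eq_mul, smul_finsum]
    refine finsum_congr fun c => ?_
    by_cases h : (Quotient.out c)⁻¹ ∈ Zs Γ (hk a) (hk k)
    · rw [if_pos h, if_pos h, smul_eq_mul]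
    · rw [if_neg h, if_neg h, smul_zero]
  have h4 : ∀ t : T, star (e t) * ∑ a, cs (Γk a ⊓ HU) (Γk a : Set H) (fun γ => Ψ a (γ • (hk a)⁻¹ • hk k • tr t x)) =
      ∑ a, cs (Γk a ⊓ HU) (Zs Γ (hk a) (hk k)) (fun γ => star (e t) * Ψ a (γ • tr t x)) := by
    intro t
    rw [Finset.mul_sum]
    refine Finset.sum_congr rfl fun a _ => ?_
    rw [h1, h3]
  simp only [h4]
  rw [setAverage_eq, integral_finset_sum _ fun a _ => av6_int (av7_md2 hΓ M a k) x, Finset.sum_eq_single k]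
  · have h5 := an_mean (M k) (hd1 k) hx
    rw [setAverage_eq] at h5
    rw [← h5]
    congr 1
    refine integral_congr_ae (Filter.Eventually.of_forall fun t => ?_)
    show cs (Γk k ⊓ HU) (Zs Γ (hk k) (hk k)) (fun γ => star (e t) * Ψ k (γ • tr t x)) = _
    rw [← h3, zs_self hΓ k]
  · intro a _ ha
    exact av6_zero (av7_md2 hΓ M a k) (fun γ hγ hy => hd2 a k ha γ hγ hy) hx
  · intro h
    exact absurd (Finset.mem_univ k) h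

variable [SMulInvariantMeasure H X μ] [SFinite μ] [SFinite ν]

/-- **The large sieve inequality for a family.** `E_k` the Poincare series of `Ψ_k` for `Γk k = h_k⁻¹ Γ h_k`, `P(y) = ∑ E_k(h_k⁻¹ y)`: `∫_{F₁} conj(P) G = ∑ ∫_{F_U k} conj(Ψ_k) G(h_k ·)` for `G = h` and `G = P`. -/
theorem av_ls (hΓ : ∀ k g, g ∈ Γk k ↔ hk k * g * (hk k)⁻¹ ∈ Γ) (M : ∀ k, MD μ ν tr ι (Γk k) HU (D k) e χ S (Ψ k))
    (hd1 : ∀ k, ∀ γ ∈ Γk k, γ ∉ HU → (∃ y ∈ S, γ • y ∈ S) → Dich (Γk k) HU χ γ)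
    (hd2 : ∀ a b, a ≠ b → ∀ γ, hk a * γ * (hk b)⁻¹ ∈ Γ → (∃ y ∈ S, γ • y ∈ S) → Dich2 (Γk a) (Γk b) HU χ γ) {F₁ : Set X} {F_U : κ → Set X} (hF₁ : SF Γ F₁)
    (hU : ∀ k, SF (Γk k ⊓ HU) (F_U k)) (hF : ∀ k, μ (F_U k ∩ S) ≠ ⊤) {h : X → ℂ} (mh : Measurable h) (ih : ∀ γ ∈ Γ, ∀ x, h (γ • x) = h x)
    (bh : ∃ B : ℝ, ∀ k, ∀ x ∈ S, ‖h (hk k • x)‖ ≤ B)
    (hW : ∀ k, ∀ x ∈ S, ⨍ t in D k, star (e t) * h (hk k • tr t x) ∂ν = Ψ k x) :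
    ∑ k, ∫⁻ x in F_U k, ‖Ψ k x‖ₑ ^ 2 ∂μ ≤ ∫⁻ x in F₁, ‖h x‖ₑ ^ 2 ∂μ := by
  classical
  obtain ⟨B, hB⟩ := bh
  -- invariance of translates
  have itr : ∀ {G : X → ℂ}, (∀ γ ∈ Γ, ∀ x, G (γ • x) = G x) → ∀ k, ∀ γ ∈ Γk k, ∀ x, G (hk k • γ • x) = G (hk k • x) := by
    intro G iG k γ hγ x
    have e1 : hk k • γ • x = (hk k * γ * (hk k)⁻¹) • (hk k • x) := by
      rw [smul_smul, smul_smul, inv_mul_cancel_right]
    rw [e1, iG _ ((hΓ k γ).1 hγ)]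
  have L : ∀ k, LSD μ (Γk k ⊓ HU) (Γk k) {x | hk k • x ∈ F₁} (F_U k) S (Ψ k) (fun x => h (hk k • x)) := fun k =>
    ⟨inf_le_left, tr_sf (hΓ k) hF₁, hU k, (M k).mS, hF k, (M k).mΨ, fun u hu x => (M k).inv hu x, (M k).sΨ, (M k).bΨ,
      mh.comp (measurable_const_smul (hk k)), itr ih k, ⟨B, hB k⟩, (M k).fs⟩
  choose K hK hKb using fun k => b5_bd (L k)
  obtain ⟨E, hE⟩ : ∃ E : κ → X → ℂ, E = fun k x => cs (Γk k ⊓ HU) (Γk k : Set H) (fun γ => Ψ k (γ • x)) := ⟨_, rfl⟩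
  have mE : ∀ k, Measurable (E k) := fun k => by rw [hE]; exact b5_meas (L k) subset_rfl
  have bE : ∀ k x, ‖E k x‖ₑ ≤ K k := fun k x => by rw [hE]; exact hKb k _ subset_rfl x
  have iE : ∀ k, ∀ g ∈ Γk k, ∀ x, E k (g • x) = E k x := by
    intro k g hg x
    have hb : ∀ u ∈ Γk k ⊓ HU, ∀ γ : H, Ψ k ((u * γ) • x) = Ψ k (γ • x) := by
      intro u hu γ
      rw [mul_smul, (M k).inv hu]
    have h4 := cs_shift (U₀ := Γk k ⊓ HU) (S := (Γk k : Set H)) (fun u hu γ => (Γk k).mul_mem_cancel_left hu.1) (b := fun γ => Ψ k (γ • x)) hb g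
      fun γ => (Γk k).mul_mem_cancel_right hg
    rw [hE]
    change cs (Γk k ⊓ HU) (Γk k : Set H) (fun γ => Ψ k (γ • g • x)) = cs (Γk k ⊓ HU) (Γk k : Set H) (fun γ => Ψ k (γ • x))
    rw [← h4]
    simp only [mul_smul]
  obtain ⟨P, hP⟩ : ∃ P : X → ℂ, P = fun y => ∑ k, E k ((hk k)⁻¹ • y) := ⟨_, rfl⟩
  have mP : Measurable P := by
    rw [hP]
    exact Finset.measurable_fun_sum _ fun k _ => (mE k).comp (measurable_const_smul (hk k)⁻¹)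
  have bP : ∀ x, ‖P x‖ₑ ≤ ∑ k, K k := by
    intro x
    rw [hP]
    exact (enorm_sum_le _ _).trans (Finset.sum_le_sum fun k _ => bE k _)
  have hKs : ∑ k, K k ≠ ⊤ := (ENNReal.sum_lt_top.2 fun k _ => lt_top_iff_ne_top.2 (hK k)).ne
  have iP : ∀ γ ∈ Γ, ∀ x, P (γ • x) = P x := by
    intro γ hγ x
    rw [hP]
    refine Finset.sum_congr rfl fun k _ => ?_
    have e1 : (hk k)⁻¹ • γ • x = ((hk k)⁻¹ * γ * hk k) • ((hk k)⁻¹ • x) := by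
      rw [smul_smul, smul_smul, mul_inv_cancel_right]
    rw [e1]
    refine iE k _ ((hΓ k _).2 ?_) _
    have e2 : hk k * ((hk k)⁻¹ * γ * hk k) * (hk k)⁻¹ = γ := by group
    rw [e2]
    exact hγ
  -- the unfolding
  have nt : ∀ {G : X → ℂ}, Measurable G → (∀ γ ∈ Γ, ∀ x, G (γ • x) = G x) → ∀ {C : ℝ≥0∞}, C ≠ ⊤ → (∀ k, ∀ x ∈ S, ‖G (hk k • x)‖ₑ ≤ C) →
      ∀ k, ∫⁻ y in F₁, ‖star (E k ((hk k)⁻¹ • y)) * G y‖ₑ ∂μ ≠ ⊤ := by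
    intro G mG iG C hC hG k
    have h1 := av7_nt (L k) (G := fun x => G (hk k • x)) (mG.comp (measurable_const_smul (hk k))) (itr iG k) hC (hG k)
    rw [av7_trl (hk k) F₁] at h1
    refine ne_top_of_le_ne_top h1 (lintegral_mono fun y => ?_)
    rw [hE]
    show _ ≤ ‖star (cs (Γk k ⊓ HU) (Γk k : Set H) (fun γ => Ψ k (γ • (hk k)⁻¹ • y))) * G (hk k • (hk k)⁻¹ • y)‖ₑ
    rw [smul_inv_smul]
  have unf : ∀ {G : X → ℂ}, Measurable G → (∀ γ ∈ Γ, ∀ x, G (γ • x) = G x) → ∀ {C : ℝ≥0∞}, C ≠ ⊤ → (∀ k, ∀ x ∈ S, ‖G (hk k • x)‖ₑ ≤ C) →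
      (∀ k, ∫ x in F_U k, star (Ψ k x) * G (hk k • x) ∂μ = ∫ x in F_U k, ((‖Ψ k x‖ ^ 2 : ℝ) : ℂ) ∂μ) →
      ∫ y in F₁, star (P y) * G y ∂μ = ∑ k, ∫ x in F_U k, ((‖Ψ k x‖ ^ 2 : ℝ) : ℂ) ∂μ := by
    intro G mG iG C hC hG hmean
    have h1 : ∀ y, star (P y) * G y = ∑ k, star (E k ((hk k)⁻¹ • y)) * G y := by
      intro y
      rw [hP, star_sum, Finset.sum_mul]
    simp only [h1]
    rw [integral_finset_sum _ fun k _ => ?_]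
    · refine Finset.sum_congr rfl fun k _ => ?_
      have h2 := b5_unf (L k) (G := fun x => G (hk k • x)) (mG.comp (measurable_const_smul (hk k))) (itr iG k) hC (hG k)
      rw [av7_tr (hk k) F₁] at h2
      rw [← hmean k, ← h2]
      refine integral_congr_ae (Filter.Eventually.of_forall fun y => ?_)
      rw [hE]
      show _ = star (cs (Γk k ⊓ HU) (Γk k : Set H) (fun γ => Ψ k (γ • (hk k)⁻¹ • y))) * G (hk k • (hk k)⁻¹ • y)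
      rw [smul_inv_smul]
    · refine ⟨((continuous_star.measurable.comp ((mE k).comp (measurable_const_smul (hk k)⁻¹))).mul mG).aestronglyMeasurable, ?_⟩
      exact lt_top_iff_ne_top.2 (nt mG iG hC hG k)
  -- the two means
  have m1 : ∀ k, ∫ x in F_U k, star (Ψ k x) * h (hk k • x) ∂μ = ∫ x in F_U k, ((‖Ψ k x‖ ^ 2 : ℝ) : ℂ) ∂μ := fun k =>
    an_gen (M k) (hU k) (hF k) (E := fun x => h (hk k • x)) (mh.comp (measurable_const_smul (hk k))) (fun u hu x => itr ih k u hu.1 x) (hB k) (hW k)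
  have m2 : ∀ k, ∫ x in F_U k, star (Ψ k x) * P (hk k • x) ∂μ = ∫ x in F_U k, ((‖Ψ k x‖ ^ 2 : ℝ) : ℂ) ∂μ := fun k =>
    an_gen (M k) (hU k) (hF k) (E := fun x => P (hk k • x)) (mP.comp (measurable_const_smul (hk k))) (fun u hu x => itr iP k u hu.1 x)
      (BE := (∑ k, K k).toReal) (fun x _ => by
        have h5 := ENNReal.toReal_mono hKs (bP (hk k • x))
        rwa [toReal_enorm] at h5) (fun x hx => by
        have h6 := av7_mean hΓ M hd1 hd2 k hx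
        rw [← h6, hP, hE])
  have bh' : ∀ k, ∀ x ∈ S, ‖h (hk k • x)‖ₑ ≤ ENNReal.ofReal B := by
    intro k x hx
    rw [← ofReal_norm]
    exact ENNReal.ofReal_le_ofReal (hB k x hx)
  have s1 := unf mh ih ENNReal.ofReal_ne_top bh' m1
  have s2 := unf mP iP hKs (fun k x _ => bP _) m2
  have hfin : ∀ k, ∫⁻ x in F_U k, ‖Ψ k x‖ₑ ^ 2 ∂μ ≠ ⊤ := fun k => b5_sqfin (L k)
  obtain ⟨d, hd⟩ : ∃ d, d = ∑ k, ∫⁻ x in F_U k, ‖Ψ k x‖ₑ ^ 2 ∂μ := ⟨_, rfl⟩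
  have hds := av7_sum (μ := μ) Finset.univ (F := F_U) (P := Ψ) (fun k => (M k).mΨ) hfin
  rw [← hd] at hds
  have hD0 : d ≠ ⊤ := by
    rw [hd]
    exact (ENNReal.sum_lt_top.2 fun k _ => lt_top_iff_ne_top.2 (hfin k)).ne
  have g2 : d ≤ ∫⁻ x in F₁, ‖P x‖ₑ * ‖h x‖ₑ ∂μ := by
    rw [← hds, ← s1]
    refine (enorm_integral_le_lintegral_enorm _).trans (lintegral_mono fun x => ?_)
    rw [enorm_mul, ← ofReal_norm (star _), norm_star, ofReal_norm]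
  have e0 : ∀ x, star (P x) * P x = ((‖P x‖ ^ 2 : ℝ) : ℂ) := by
    intro x
    rw [Complex.star_def, Complex.conj_mul']
    push_cast
    rfl
  have hPfin : ∫⁻ x in F₁, ‖P x‖ₑ ^ 2 ∂μ ≠ ⊤ := by
    have f1 : ∫⁻ x in F₁, ‖P x‖ₑ ^ 2 ∂μ ≤ ∫⁻ x in F₁, ∑ k, ‖star (E k ((hk k)⁻¹ • x)) * P x‖ₑ ∂μ := by
      refine lintegral_mono fun x => ?_
      have h1 : ‖P x‖ₑ ^ 2 = ‖∑ k, star (E k ((hk k)⁻¹ • x)) * P x‖ₑ := by
        rw [← Finset.sum_mul, ← star_sum]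
        have h2 : ∑ k, E k ((hk k)⁻¹ • x) = P x := by rw [hP]
        rw [h2, enorm_mul, ← ofReal_norm (star _), norm_star, ofReal_norm, sq]
      rw [h1]
      exact enorm_sum_le _ _
    have mk : ∀ k, Measurable fun x => ‖star (E k ((hk k)⁻¹ • x)) * P x‖ₑ := fun k =>
      ((continuous_star.measurable.comp ((mE k).comp (measurable_const_smul (hk k)⁻¹))).mul mP).enorm
    rw [lintegral_finset_sum _ fun k _ => mk k] at f1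
    exact ne_top_of_le_ne_top (ENNReal.sum_lt_top.2 fun k _ => lt_top_iff_ne_top.2 (nt mP iP hKs (fun k x _ => bP _) k)).ne f1
  have g4 : ∫⁻ x in F₁, ‖P x‖ₑ ^ 2 ∂μ = d := by
    rw [← b5_sq (μ.restrict F₁) mP hPfin, ← integral_congr_ae (Filter.Eventually.of_forall e0), s2, hds]
  have g3 := b5_csq (μ.restrict F₁) mP.enorm mh.enorm
  rw [← hd]
  rcases eq_or_ne d 0 with hd0 | hd0
  · rw [hd0]
    exact zero_le
  have g5 : d * d ≤ d * ∫⁻ x in F₁, ‖h x‖ₑ ^ 2 ∂μ := by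
    calc d * d = d ^ 2 := (sq d).symm
      _ ≤ (∫⁻ x in F₁, ‖P x‖ₑ * ‖h x‖ₑ ∂μ) ^ 2 := pow_le_pow_left' g2 2
      _ ≤ (∫⁻ x in F₁, ‖P x‖ₑ ^ 2 ∂μ) * ∫⁻ x in F₁, ‖h x‖ₑ ^ 2 ∂μ := g3
      _ = d * ∫⁻ x in F₁, ‖h x‖ₑ ^ 2 ∂μ := by rw [g4]
  exact (ENNReal.mul_le_mul_iff_right hd0 hD0).1 g5

end main

end

end Pool.Agent.Lib.L1S
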