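import Pool.Agent.Lib.L1S.AV10
import Pool.Agent.Lib.L1S.AN14

/-!
# AV14: the density inequality for a finite family of Hecke elements (version 2)
-/

namespace Pool.Agent.Lib.L1S

open MeasureTheory Pool.Agent.Lib.H33W Pool.Agent.Lib.H67G
open scoped ENNReal

noncomputable section

/-- The weighted Cauchy-Schwarz inequality. -/
theorem av14_cs {κ : Type} [Fintype κ] (a L : κ → ℂ) {v : κ → ℝ≥0∞} (v0 : ∀ i, v i ≠ 0) (vt : ∀ i, v i ≠ ⊤) :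
    ‖∑ i, a i * L i‖ₑ ^ 2 ≤ (∑ i, ‖a i‖ₑ ^ 2 / v i) * ∑ i, v i * ‖L i‖ₑ ^ 2 := by
  obtain ⟨r, hr⟩ : ∃ r : κ → ℝ≥0∞, r = fun i => (v i) ^ (1 / 2 : ℝ) := ⟨_, rfl⟩
  have r2 : ∀ i, r i ^ 2 = v i := by
    intro i
    rw [hr]
    show ((v i) ^ (1 / 2 : ℝ)) ^ 2 = v i
    rw [← ENNReal.rpow_natCast, ← ENNReal.rpow_mul]
    norm_num
  have r0 : ∀ i, r i ≠ 0 := by
    intro i h
    apply v0 i
    rw [← r2 i, h]
    simp
  have rt : ∀ i, r i ≠ ⊤ := by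
    intro i h
    apply vt i
    rw [← r2 i, h]
    simp
  have h1 : ‖∑ i, a i * L i‖ₑ ≤ ∑ i, (‖a i‖ₑ * (r i)⁻¹) * (r i * ‖L i‖ₑ) := by
    refine (enorm_sum_le _ _).trans (Finset.sum_le_sum fun i _ => le_of_eq ?_)
    rw [enorm_mul, mul_assoc, ← mul_assoc (r i)⁻¹, ENNReal.inv_mul_cancel (r0 i) (rt i), one_mul]
  have h2 := ENNReal.inner_le_Lp_mul_Lq Finset.univ (fun i => ‖a i‖ₑ * (r i)⁻¹) (fun i => r i * ‖L i‖ₑ) Real.HolderConjugate.two_two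
  have e2 : ∀ b : ℝ≥0∞, (b ^ (1 / 2 : ℝ)) ^ 2 = b := by
    intro b
    rw [← ENNReal.rpow_natCast, ← ENNReal.rpow_mul]
    norm_num
  calc ‖∑ i, a i * L i‖ₑ ^ 2 ≤ ((∑ i, (‖a i‖ₑ * (r i)⁻¹) ^ (2 : ℝ)) ^ (1 / 2 : ℝ) * (∑ i, (r i * ‖L i‖ₑ) ^ (2 : ℝ)) ^ (1 / 2 : ℝ)) ^ 2 :=
        pow_le_pow_left' (h1.trans h2) 2
    _ = (∑ i, (‖a i‖ₑ * (r i)⁻¹) ^ (2 : ℝ)) * ∑ i, (r i * ‖L i‖ₑ) ^ (2 : ℝ) := by rw [mul_pow, e2, e2]
    _ = _ := by
      congr 1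
      · refine Finset.sum_congr rfl fun i _ => ?_
        rw [ENNReal.rpow_two, mul_pow, ← ENNReal.inv_pow, r2, ENNReal.div_eq_inv_mul, mul_comm]
      · refine Finset.sum_congr rfl fun i _ => ?_
        rw [ENNReal.rpow_two, mul_pow, r2]

/-- **The density inequality for a family, form A.** `Γ' i = h_i⁻¹ Γ h_i`, `Γ1 i = h_i⁻¹ Γ₁ h_i` with `Γ₁` of index `c₁` in `Γ`, `D' i` a fundamental domain of `Γ' i ∩ U`. The dichotomy is needed for the elements `γ` with `h_a γ h_b⁻¹ ∈ Γ₁`. -/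
theorem l1_absA2 {H G T κ : Type} [Group H] [Countable H] [Group G] [Group T] [TopologicalSpace G] [IsTopologicalGroup G] [SecondCountableTopology G] [MeasurableSpace G] [BorelSpace G]
    [TopologicalSpace T] [MeasurableSpace T] [MulAction H G] {HU : Subgroup H} [MulAction HU T] {emb : H →* G} {j : T →* G} {k : HU →* T} {μ : Measure G} {ν : Measure T}
    [IsFiniteMeasureOnCompacts μ] [SFinite μ] [SFinite ν] {ψ : T → ℂ} (hG : GD emb j k μ ν ψ) (cj : Continuous j) [Fintype κ]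
    {Γ Γ₁ : Subgroup H} {hk : κ → H} {Γ' Γ1 : κ → Subgroup H} (hΓ : ∀ i g, g ∈ Γ' i ↔ hk i * g * (hk i)⁻¹ ∈ Γ) (hΓ1 : ∀ i g, g ∈ Γ1 i ↔ hk i * g * (hk i)⁻¹ ∈ Γ₁)
    {D' : κ → Set T} (hD' : ∀ i, SF ((Γ' i).subgroupOf HU) (D' i)) (pD' : ∀ i, ν (D' i) ≠ 0) (fD' : ∀ i, ν (D' i) ≠ ⊤) (one' : ∀ i, ∀ h : HU, (h : H) ∈ Γ' i → ψ (k h) = 1)
    (hcc : ∀ i, ∃ KT : Set T, IsCompact KT ∧ ∀ t, ∃ δ : HU, (δ : H) ∈ Γ' i ∧ ∃ s ∈ KT, t = k δ * s) (hle1 : Γ₁ ≤ Γ) {c₁ : ℕ} (hc : Γ₁.relIndex Γ = c₁) (hc0 : c₁ ≠ 0)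
    {S Q K : Set G} (mS : MeasurableSet S) (hS : ∀ t x, j t * x ∈ S ↔ x ∈ S) (fq : ∀ i, FQ μ (Γ1 i) HU S Q)
    (dich : ∀ a b γ, hk a * γ * (hk b)⁻¹ ∈ Γ₁ → (∃ y ∈ S, γ • y ∈ S) → (a = b ∧ γ ∈ HU) ∨ Dich2 (Γ1 a) (Γ1 b) HU (fun h => ψ (k h)) γ)
    (hK : IsCompact K) (hQK : Q ⊆ K) {φ : G → ℂ} (cφ : Continuous φ) (sφ : HasCompactSupport φ) {x : G}
    (hA : {z | φ (x⁻¹ * z) ≠ 0} ⊆ S) {P : ℝ≥0∞} (hP : ∀ z, ν {s | j s⁻¹ * z ∈ {z | φ (x⁻¹ * z) ≠ 0}} ≤ P)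
    {F : Set G} (hF : SF Γ F) {m : ℕ} {f : Fin m → G → ℂ} (hf : ∀ l, AF μ Γ F φ (f l))
    (ho : ∀ i l, ∫ x in F, star (f i x) * f l x ∂μ = if i = l then 1 else 0) (a : κ → ℂ) :
    ∑ l, ‖∑ i, a i * Wm j ψ ν (D' i) (fun y => f l (hk i • y)) x‖ₑ ^ 2 ≤ c₁ * P * (∫⁻ y, ‖φ y‖ₑ ^ 2 ∂μ) * ∑ i, ‖a i‖ₑ ^ 2 / ν (D' i) := by
  classical
  -- instances
  have hpres : ∀ g : H, MeasurePreserving (fun y : G => g • y) μ μ := fun g => by
    rw [show (fun y : G => g • y) = fun y => emb g * y from funext fun y => hG.act g y]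
    exact hG.lm (emb g)
  have i1 : MeasurableConstSMul H G := ⟨fun g => (hpres g).measurable⟩
  have i2 : SMulInvariantMeasure H G μ := ⟨fun g s hs => (hpres g).measure_preimage hs.nullMeasurableSet⟩
  have hpT : ∀ g : HU, MeasurePreserving (fun t : T => g • t) ν ν := fun g => by
    rw [show (fun t : T => g • t) = fun t => k g * t from funext fun t => hG.actT g t]
    exact hG.lT (k g)
  -- subgroups
  have hle1' : ∀ i, Γ1 i ≤ Γ' i := fun i g hg => (hΓ i g).2 (hle1 ((hΓ1 i g).1 hg))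
  have hidx : ∀ i, (Γ1 i).relIndex (Γ' i) ≠ 0 := by
    intro i
    have e1 : Γ' i = Γ.map (MulAut.conj (hk i)⁻¹).toMonoidHom := by
      ext g
      rw [hΓ i g, Subgroup.mem_map]
      constructor
      · intro h
        refine ⟨_, h, ?_⟩
        show (hk i)⁻¹ * (hk i * g * (hk i)⁻¹) * ((hk i)⁻¹)⁻¹ = g
        group
      · rintro ⟨y, hy, rfl⟩
        show hk i * ((hk i)⁻¹ * y * ((hk i)⁻¹)⁻¹) * (hk i)⁻¹ ∈ Γ
        have e : hk i * ((hk i)⁻¹ * y * ((hk i)⁻¹)⁻¹) * (hk i)⁻¹ = y := by group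
        rw [e]
        exact hy
    have e2 : Γ1 i = Γ₁.map (MulAut.conj (hk i)⁻¹).toMonoidHom := by
      ext g
      rw [hΓ1 i g, Subgroup.mem_map]
      constructor
      · intro h
        refine ⟨_, h, ?_⟩
        show (hk i)⁻¹ * (hk i * g * (hk i)⁻¹) * ((hk i)⁻¹)⁻¹ = g
        group
      · rintro ⟨y, hy, rfl⟩
        show hk i * ((hk i)⁻¹ * y * ((hk i)⁻¹)⁻¹) * (hk i)⁻¹ ∈ Γ₁
        have e : hk i * ((hk i)⁻¹ * y * ((hk i)⁻¹)⁻¹) * (hk i)⁻¹ = y := by group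
        rw [e]
        exact hy
    rw [e1, e2, Subgroup.relIndex_map_map_of_injective _ _ (MulAut.conj (hk i)⁻¹).injective, hc]
    exact hc0
  -- fundamental domains
  obtain ⟨F₁, hF₁⟩ := an_sf (fun g => (hpres g).measurable) hle1 hF
  have hF1k : ∀ i, SF (Γ1 i) {y | hk i • y ∈ F₁} := fun i => tr_sf (hΓ1 i) hF₁
  choose F_U hFU using fun i => an_sf (fun g => (hpres g).measurable) (inf_le_left : Γ1 i ⊓ HU ≤ Γ1 i) (hF1k i)
  have hleU1 : ∀ i, (Γ1 i).subgroupOf HU ≤ (Γ' i).subgroupOf HU := fun i u hu => hle1' i hu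
  choose D₁ hD₁ using fun i => an_sf (fun g => (hpT g).measurable) (hleU1 i) (hD' i)
  have v1 : ∀ i, ν (D' i) ≤ ν (D₁ i) := fun i => (vol_sub hG (hle1' i) (hidx i) (hD' i) (hD₁ i) (fD' i)).1
  have fD₁ : ∀ i, ν (D₁ i) ≠ ⊤ := fun i => (vol_sub hG (hle1' i) (hidx i) (hD' i) (hD₁ i) (fD' i)).2
  have pD₁ : ∀ i, ν (D₁ i) ≠ 0 := fun i h => pD' i (le_antisymm (h ▸ v1 i) bot_le)
  have one1 : ∀ i, ∀ h : HU, (h : H) ∈ Γ1 i → ψ (k h) = 1 := fun i h hh => one' i h (hle1' i hh)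
  have hSD : SDF j k μ ν ψ Γ₁ hk Γ1 D₁ S Q := by
    refine ⟨hΓ1, fun i => ⟨hD₁ i, pD₁ i, fD₁ i, one1 i, mS, hS, fq i, fun γ hγ hn hy => ?_⟩, fun a b hab γ hγ hy => ?_⟩
    · rcases dich i i γ ((hΓ1 i γ).1 hγ) hy with h | h
      · exact absurd h.2 hn
      · exact h
    · rcases dich a b γ hγ hy with h | h
      · exact absurd h.1 hab
      · exact h
  -- the functions
  have mf : ∀ l, Measurable (f l) := fun l => (hf l).cont.measurable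
  obtain ⟨g, hg⟩ : ∃ g : κ → Fin m → G → ℂ, g = fun i l y => f l (hk i • y) := ⟨_, rfl⟩
  have hg' : ∀ i l y, g i l y = f l (hk i • y) := fun i l y => by rw [hg]
  have mg : ∀ i l, Measurable (g i l) := fun i l => by
    rw [hg]
    exact (mf l).comp (hpres (hk i)).measurable
  have ig : ∀ i l, ∀ γ ∈ Γ' i, ∀ y, g i l (γ • y) = g i l y := fun i l γ hγ y => by
    rw [hg', hg']
    have e : hk i • (γ • y) = (hk i * γ * (hk i)⁻¹) • (hk i • y) := by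
      rw [← mul_smul, ← mul_smul, inv_mul_cancel_right]
    rw [e]
    exact (hf l).inv _ ((hΓ i γ).1 hγ) _
  have cg : ∀ i l, Continuous (g i l) := fun i l => by
    have e : g i l = fun y => f l (emb (hk i) * y) := funext fun y => by
      rw [hg', hG.act]
    rw [e]
    exact (hf l).cont.comp (continuous_const.mul continuous_id)
  have bg : ∀ i l, ∀ K' : Set G, IsCompact K' → ∃ B : ℝ, ∀ t : T, ∀ y ∈ K', ‖g i l (j t * y)‖ ≤ B := fun i l =>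
    an14_bdd hG cj (hcc i) (cg i l) (ig i l)
  have bg1 : ∀ i l y, ∃ B : ℝ, ∀ t, ‖g i l (j t * y)‖ ≤ B := fun i l y => by
    obtain ⟨B, hB⟩ := bg i l {y} isCompact_singleton
    exact ⟨B, fun t => hB t y rfl⟩
  -- the functionals
  obtain ⟨b, hb⟩ : ∃ b : κ → Fin m → ℂ, b = fun i l => ∫ y, Wm j ψ ν (D' i) (g i l) (x * y) * φ y ∂μ := ⟨_, rfl⟩
  have iφ : Integrable φ μ := cφ.integrable_of_hasCompactSupport sφ
  have hint : ∀ i l, Integrable (fun y => Wm j ψ ν (D' i) (g i l) (x * y) * φ y) μ := fun i l => by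
    obtain ⟨B, hB⟩ := bg i l ((fun y => x * y) '' tsupport φ) (sφ.isCompact.image (continuous_const.mul continuous_id))
    have mW : Measurable fun y => Wm j ψ ν (D' i) (g i l) (x * y) := (wm_meas hG (mg i l)).comp (hG.lm x).measurable
    refine Integrable.mono' (iφ.norm.const_mul |B|) ((mW.mul cφ.measurable).aestronglyMeasurable)
      (Filter.Eventually.of_forall fun y => ?_)
    by_cases hy : y ∈ tsupport φ
    · rw [norm_mul]
      refine mul_le_mul_of_nonneg_right ?_ (norm_nonneg _)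
      exact wm_bdd hG (abs_nonneg B) fun t => (hB t _ ⟨y, hy, rfl⟩).trans (le_abs_self B)
    · rw [image_eq_zero_of_notMem_tsupport hy]
      simp
  have hlin : ∀ i, ∀ c : Fin m → ℂ, ∫ y, Wm j ψ ν (D' i) (fun z => ∑ l, c l * g i l z) (x * y) * φ y ∂μ = ∑ l, c l * b i l := fun i c => by
    calc ∫ y, Wm j ψ ν (D' i) (fun z => ∑ l, c l * g i l z) (x * y) * φ y ∂μ
        = ∫ y, ∑ l, c l * (Wm j ψ ν (D' i) (g i l) (x * y) * φ y) ∂μ := by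
          refine integral_congr_ae (Filter.Eventually.of_forall fun y => ?_)
          show Wm j ψ ν (D' i) (fun z => ∑ l, c l * g i l z) (x * y) * φ y = ∑ l, c l * (Wm j ψ ν (D' i) (g i l) (x * y) * φ y)
          rw [an14_lin hG (fD' i) (mg i) _ (fun l => bg1 i l _), Finset.sum_mul]
          refine Finset.sum_congr rfl fun l _ => ?_
          ring
      _ = ∑ l, ∫ y, c l * (Wm j ψ ν (D' i) (g i l) (x * y) * φ y) ∂μ := integral_finset_sum _ fun l _ => (hint i l).const_mul _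
      _ = ∑ l, c l * b i l := by
          rw [hb]
          exact Finset.sum_congr rfl fun l _ => integral_const_mul _ _
  obtain ⟨Φ, hΦ⟩ : ∃ Φ : ℝ≥0∞, Φ = ∫⁻ y, ‖φ y‖ₑ ^ 2 ∂μ := ⟨_, rfl⟩
  have mA : MeasurableSet {z | φ (x⁻¹ * z) ≠ 0} := by
    have h1 : Continuous fun z => φ (x⁻¹ * z) := cφ.comp (continuous_const.mul continuous_id)
    exact (isOpen_ne_fun h1 continuous_const).measurableSet
  -- step (1)
  have step1 : ∀ c : Fin m → ℂ, ∑ i, ν (D' i) * ‖∑ l, c l * b i l‖ₑ ^ 2 ≤ Φ * P * c₁ * ∑ l, ‖c l‖ₑ ^ 2 := fun c => by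
    obtain ⟨h, hh⟩ : ∃ h : G → ℂ, h = fun z => ∑ l, c l * f l z := ⟨_, rfl⟩
    have hhk : ∀ i, (fun y => h (hk i • y)) = fun z => ∑ l, c l * g i l z := fun i => by
      rw [hh, hg]
    have mh : Measurable h := by
      rw [hh]
      exact Finset.measurable_fun_sum _ fun l _ => (mf l).const_mul _
    have ih : ∀ γ ∈ Γ, ∀ y, h (γ • y) = h y := fun γ hγ y => by
      rw [hh]
      exact Finset.sum_congr rfl fun l _ => by rw [(hf l).inv γ hγ y]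
    have ih1 : ∀ γ ∈ Γ₁, ∀ y, h (γ • y) = h y := fun γ hγ y => ih γ (hle1 hγ) y
    have mhk : ∀ i, Measurable fun y => h (hk i • y) := fun i => mh.comp (hpres (hk i)).measurable
    have ihk : ∀ i, ∀ γ ∈ Γ' i, ∀ y, h (hk i • γ • y) = h (hk i • y) := fun i γ hγ y => by
      have e : hk i • (γ • y) = (hk i * γ * (hk i)⁻¹) • (hk i • y) := by
        rw [← mul_smul, ← mul_smul, inv_mul_cancel_right]
      rw [e]
      exact ih _ ((hΓ i γ).1 hγ) _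
    have hB : ∃ B : ℝ, ∀ i, ∀ y ∈ Q, ‖h (hk i • y)‖ ≤ B := by
      choose B hB using fun i l => bg i l K hK
      refine ⟨∑ i, ∑ l, ‖c l‖ * |B i l|, fun i y hy => ?_⟩
      have h1 : h (hk i • y) = ∑ l, c l * g i l y := congrFun (hhk i) y
      rw [h1]
      refine (norm_sum_le _ _).trans ?_
      have h2 : ∑ l, ‖c l * g i l y‖ ≤ ∑ l, ‖c l‖ * |B i l| := Finset.sum_le_sum fun l _ => by
        rw [norm_mul]
        refine mul_le_mul_of_nonneg_left ?_ (norm_nonneg _)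
        have := hB i l 1 y (hQK hy)
        rw [map_one, one_mul] at this
        exact this.trans (le_abs_self _)
      refine h2.trans ?_
      exact Finset.single_le_sum (f := fun i => ∑ l, ‖c l‖ * |B i l|) (fun i _ => Finset.sum_nonneg fun l _ => by positivity) (Finset.mem_univ i)
    obtain ⟨B, hB⟩ := hB
    have s3 := ls_groupF hG hSD hF₁ hFU mh ih1 hB
    have s4 : ∫⁻ y in F₁, ‖h y‖ₑ ^ 2 ∂μ = c₁ * ∑ l, ‖c l‖ₑ ^ 2 := by
      rw [u2_lint hpres hle1 hF hF₁ (Φ := fun y => ‖h y‖ₑ ^ 2) (mh.enorm.pow_const 2) (fun γ hγ y => by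
        show ‖h (γ • y)‖ₑ ^ 2 = ‖h y‖ₑ ^ 2
        rw [ih γ hγ y]), an_u2k (by rw [hc]; exact hc0), hc]
      congr 1
      have h1 := tr_norm (μ := μ) (1 : H) hF.meas mf (fun l => (hf l).l2) ho c
      simp only [one_smul] at h1
      rw [← h1, hh]
      rfl
    have each : ∀ i, ν (D' i) * ‖∑ l, c l * b i l‖ₑ ^ 2 ≤ Φ * P * ∫⁻ z in F_U i ∩ S, ‖Wm j ψ ν (D₁ i) (fun y => h (hk i • y)) z‖ₑ ^ 2 ∂μ := by
      intro i
      have eW : Wm j ψ ν (D' i) (fun y => h (hk i • y)) = Wm j ψ ν (D₁ i) (fun y => h (hk i • y)) := funext fun z =>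
        (wm_sub hG (inf_le_left.trans (hle1' i)) (one' i) (hD' i) (hD₁ i) (fD₁ i) (mhk i) (ihk i) z).symm
      have s1 := lf_sq hG cφ.measurable (wm_meas hG (mhk i) : Measurable (Wm j ψ ν (D' i) (fun y => h (hk i • y)))) x
      have e1 : ∫ y, Wm j ψ ν (D' i) (fun y => h (hk i • y)) (x * y) * φ y ∂μ = ∑ l, c l * b i l := by
        rw [hhk i]
        exact hlin i c
      rw [e1, eW, ← hΦ] at s1
      have s2 := ls_point hG (hSD.sd i) (hFU i) (mhk i) (fun γ hγ y => ihk i γ (hle1' i hγ) y) mA hA hP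
      calc ν (D' i) * ‖∑ l, c l * b i l‖ₑ ^ 2 ≤ ν (D₁ i) * (Φ * ∫⁻ z in {z | φ (x⁻¹ * z) ≠ 0}, ‖Wm j ψ ν (D₁ i) (fun y => h (hk i • y)) z‖ₑ ^ 2 ∂μ) :=
            mul_le_mul' (v1 i) s1
        _ = Φ * (ν (D₁ i) * ∫⁻ z in {z | φ (x⁻¹ * z) ≠ 0}, ‖Wm j ψ ν (D₁ i) (fun y => h (hk i • y)) z‖ₑ ^ 2 ∂μ) := by ring
        _ ≤ Φ * (P * ∫⁻ z in F_U i ∩ S, ‖Wm j ψ ν (D₁ i) (fun y => h (hk i • y)) z‖ₑ ^ 2 ∂μ) := mul_le_mul_right s2 _
        _ = _ := by ring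
    calc ∑ i, ν (D' i) * ‖∑ l, c l * b i l‖ₑ ^ 2 ≤ ∑ i, Φ * P * ∫⁻ z in F_U i ∩ S, ‖Wm j ψ ν (D₁ i) (fun y => h (hk i • y)) z‖ₑ ^ 2 ∂μ :=
          Finset.sum_le_sum fun i _ => each i
      _ = Φ * P * ∑ i, ∫⁻ z in F_U i ∩ S, ‖Wm j ψ ν (D₁ i) (fun y => h (hk i • y)) z‖ₑ ^ 2 ∂μ := by rw [Finset.mul_sum]
      _ ≤ Φ * P * (c₁ * ∑ l, ‖c l‖ₑ ^ 2) := mul_le_mul_right (s3.trans s4.le) _
      _ = _ := by ring
  -- step (2)
  obtain ⟨R, hR⟩ : ∃ R : ℝ≥0∞, R = ∑ i, ‖a i‖ₑ ^ 2 / ν (D' i) := ⟨_, rfl⟩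
  have step2 : ∑ l, ‖∑ i, a i * b i l‖ₑ ^ 2 ≤ R * (Φ * P * c₁) := by
    refine bessel (fun l => ∑ i, a i * b i l) fun c => ?_
    have e1 : ∑ l, c l * ∑ i, a i * b i l = ∑ i, a i * ∑ l, c l * b i l := by
      simp only [Finset.mul_sum]
      rw [Finset.sum_comm]
      refine Finset.sum_congr rfl fun i _ => Finset.sum_congr rfl fun l _ => ?_
      ring
    rw [e1]
    refine (av14_cs a (fun i => ∑ l, c l * b i l) pD' fD').trans ?_
    rw [← hR]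
    refine (mul_le_mul_right (step1 c) R).trans (le_of_eq ?_)
    ring
  -- step (3)
  have step3 : ∀ l, ‖∑ i, a i * Wm j ψ ν (D' i) (g i l) x‖ₑ ^ 2 ≤ ‖∑ i, a i * b i l‖ₑ ^ 2 := fun l => by
    obtain ⟨lam, hl1, hl⟩ := (hf l).eig
    have h2 : ∀ i, b i l = lam * Wm j ψ ν (D' i) (g i l) x := fun i => by
      have hl' : ∀ y, ∫ z, g i l (y * z) * φ z ∂μ = lam * g i l y := fun y => by
        have h1 := hl (hk i • y)
        have h2 : ∀ z, g i l (y * z) = f l (hk i • y * z) := fun z => by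
          rw [hg', hG.act, hG.act, mul_assoc]
        rw [hg' i l y, ← h1]
        refine integral_congr_ae (Filter.Eventually.of_forall fun z => ?_)
        show g i l (y * z) * φ z = _
        rw [h2 z]
      rw [hb]
      exact wm_conv hG (fD' i) cφ sφ (mg i l) (bg i l) hl' x
    have h3 : ∑ i, a i * b i l = lam * ∑ i, a i * Wm j ψ ν (D' i) (g i l) x := by
      rw [Finset.mul_sum]
      refine Finset.sum_congr rfl fun i _ => ?_
      rw [h2 i]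
      ring
    rw [h3, enorm_mul]
    have h5 : (1 : ℝ≥0∞) ≤ ‖lam‖ₑ := by
      rw [← ofReal_norm, ← ENNReal.ofReal_one]
      exact ENNReal.ofReal_le_ofReal hl1
    refine pow_le_pow_left' ?_ 2
    calc ‖∑ i, a i * Wm j ψ ν (D' i) (g i l) x‖ₑ = 1 * ‖∑ i, a i * Wm j ψ ν (D' i) (g i l) x‖ₑ := (one_mul _).symm
      _ ≤ _ := mul_le_mul_left h5 _
  have eg : ∀ i l, (fun y => f l (hk i • y)) = g i l := fun i l => funext fun y => (hg' i l y).symm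
  simp only [eg]
  rw [← hΦ, ← hR]
  calc ∑ l, ‖∑ i, a i * Wm j ψ ν (D' i) (g i l) x‖ₑ ^ 2 ≤ ∑ l, ‖∑ i, a i * b i l‖ₑ ^ 2 := Finset.sum_le_sum fun l _ => step3 l
    _ ≤ R * (Φ * P * c₁) := step2
    _ = c₁ * P * Φ * R := by ring

end

end Pool.Agent.Lib.L1S
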