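import Pool.Agent.Lib.L1S.AN7A

/-!
# AW1: the Schur test for the exceptional elements (version 3: few exceptional elements)
-/

namespace Pool.Agent.Lib.L1S

open MeasureTheory Pool.Agent.Lib.H33W Pool.Agent.Lib.H67G
open scoped ENNReal

noncomputable section

section ce

variable {H : Type} [Group H] {U₀ : Subgroup H} {Y : Set H}

theorem aw_cemul (c : ℝ≥0∞) (b : H → ℝ≥0∞) : c * ce U₀ Y b = ce U₀ Y (fun γ => c * b γ) := by
  classical
  unfold ce
  rw [← ENNReal.tsum_mul_left]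
  refine tsum_congr fun q => ?_
  by_cases h : (Quotient.out q)⁻¹ ∈ Y
  · rw [if_pos h, if_pos h]
  · rw [if_neg h, if_neg h, mul_zero]

theorem aw_ceadd (b b' : H → ℝ≥0∞) : ce U₀ Y b + ce U₀ Y b' = ce U₀ Y (fun γ => b γ + b' γ) := by
  classical
  unfold ce
  rw [← ENNReal.tsum_add]
  refine tsum_congr fun q => ?_
  by_cases h : (Quotient.out q)⁻¹ ∈ Y
  · rw [if_pos h, if_pos h, if_pos h]
  · rw [if_neg h, if_neg h, if_neg h, add_zero]

theorem aw_cele {b b' : H → ℝ≥0∞} (h : ∀ g, b g ≤ b' g) : ce U₀ Y b ≤ ce U₀ Y b' := by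
  classical
  unfold ce
  refine ENNReal.tsum_le_tsum fun q => ?_
  by_cases h1 : (Quotient.out q)⁻¹ ∈ Y
  · rw [if_pos h1, if_pos h1]
    exact h _
  · rw [if_neg h1, if_neg h1]

theorem aw_cemono {Y' : Set H} (hY : Y ⊆ Y') (b : H → ℝ≥0∞) : ce U₀ Y b ≤ ce U₀ Y' b := by
  classical
  unfold ce
  refine ENNReal.tsum_le_tsum fun q => ?_
  by_cases h1 : (Quotient.out q)⁻¹ ∈ Y
  · rw [if_pos h1, if_pos (hY h1)]
  · rw [if_neg h1]
    exact zero_le

theorem aw_cemeas [Countable H] {X : Type} [MulAction H X] [MeasurableSpace X] [MeasurableConstSMul H X] {φ : X → ℝ≥0∞} (mφ : Measurable φ) :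
    Measurable fun x => ce U₀ Y (fun γ => φ (γ • x)) := by
  classical
  have _ : Countable (H ⧸ U₀) := Quotient.countable
  unfold ce
  refine Measurable.ennreal_tsum fun q => ?_
  by_cases h1 : (Quotient.out q)⁻¹ ∈ Y
  · simp only [if_pos h1]
    exact mφ.comp (measurable_const_smul _)
  · simp only [if_neg h1]
    exact measurable_const

end ce

/-- `2 p q ≤ ρ p² + ρ⁻¹ q²`. -/
theorem aw_amgm {ρ : ℝ≥0∞} (r0 : ρ ≠ 0) (rt : ρ ≠ ⊤) (p q : ℝ≥0∞) : 2 * (p * q) ≤ ρ * p ^ 2 + ρ⁻¹ * q ^ 2 := by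
  rcases eq_or_ne p ⊤ with hp | hp
  · rw [hp]
    have h1 : ρ * ⊤ ^ 2 = ⊤ := by
      rw [ENNReal.top_pow two_ne_zero, ENNReal.mul_top r0]
    rw [h1, top_add]
    exact le_top
  rcases eq_or_ne q ⊤ with hq | hq
  · rw [hq]
    have h1 : ρ⁻¹ * ⊤ ^ 2 = ⊤ := by
      rw [ENNReal.top_pow two_ne_zero, ENNReal.mul_top (ENNReal.inv_ne_zero.2 rt)]
    rw [h1, add_top]
    exact le_top
  lift p to NNReal using hp
  lift q to NNReal using hq
  lift ρ to NNReal using rt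
  have r0' : ρ ≠ 0 := by exact_mod_cast r0
  rw [← ENNReal.coe_inv r0']
  norm_cast
  rw [← NNReal.coe_le_coe]
  push_cast
  have rp : (0 : ℝ) < ρ := lt_of_le_of_ne ρ.2 (fun h => r0' (by exact_mod_cast h.symm))
  have h1 : (0 : ℝ) ≤ (ρ : ℝ) * ((p : ℝ) - (ρ : ℝ)⁻¹ * q) ^ 2 := by positivity
  have h2 : (ρ : ℝ) * ((p : ℝ) - (ρ : ℝ)⁻¹ * q) ^ 2 = ρ * (p : ℝ) ^ 2 + (ρ : ℝ)⁻¹ * (q : ℝ) ^ 2 - 2 * (p * q) := by
    field_simp
    ring
  rw [h2] at h1
  linarith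

/-- The family of the sets of exceptional elements. -/
structure BadS {H κ : Type} [Group H] (Γk : κ → Subgroup H) (HU : Subgroup H) (Y : κ → κ → Set H) : Prop where
  yl : ∀ a b, ∀ u ∈ Γk a ⊓ HU, ∀ g, u * g ∈ Y a b ↔ g ∈ Y a b
  yi : ∀ a b g, g ∈ Y a b ↔ g⁻¹ ∈ Y b a

theorem BadS.yr {H κ : Type} [Group H] {Γk : κ → Subgroup H} {HU : Subgroup H} {Y : κ → κ → Set H} (hY : BadS Γk HU Y) (a b : κ) :
    ∀ u ∈ Γk b ⊓ HU, ∀ g, g * u ∈ Y a b ↔ g ∈ Y a b := by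
  intro u hu g
  rw [hY.yi a b (g * u), hY.yi a b g, mul_inv_rev, hY.yl b a _ (inv_mem hu)]

section unf

variable {H X κ : Type} [Group H] [Countable H] [MulAction H X] [MeasurableSpace X] [MeasurableConstSMul H X] {μ : Measure X} [SMulInvariantMeasure H X μ]
  {Γk : κ → Subgroup H} {HU : Subgroup H} {Y : κ → κ → Set H} {F_U : κ → Set X}

/-- Double coset unfolding. -/
theorem aw_unf (hY : BadS Γk HU Y) (hU : ∀ a, SF (Γk a ⊓ HU) (F_U a)) {f g : X → ℝ≥0∞} (mf : Measurable f) (mg : Measurable g) (a b : κ)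
    (iF : ∀ u ∈ Γk b ⊓ HU, ∀ x, f (u • x) = f x) (iG : ∀ u ∈ Γk a ⊓ HU, ∀ x, g (u • x) = g x) :
    ∫⁻ x in F_U b, f x * ce (Γk a ⊓ HU) (Y a b) (fun γ => g (γ • x)) ∂μ =
      ∫⁻ y in F_U a, g y * ce (Γk b ⊓ HU) (Y b a) (fun γ => f (γ • y)) ∂μ := by
  classical
  have mA : ∀ a, Measurable ((F_U a).indicator (1 : X → ℝ≥0∞)) := fun a => measurable_one.indicator (hU a).meas
  have key : ∀ (a b : κ) (f g : X → ℝ≥0∞), Measurable f → Measurable g → (∀ u ∈ Γk b ⊓ HU, ∀ x, f (u • x) = f x) → (∀ u ∈ Γk a ⊓ HU, ∀ x, g (u • x) = g x) →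
      ∫⁻ x in F_U b, f x * ce (Γk a ⊓ HU) (Y a b) (fun γ => g (γ • x)) ∂μ =
      ∑' γ : H, (Y a b).indicator (1 : H → ℝ≥0∞) γ * ∫⁻ x, ((F_U b).indicator (1 : X → ℝ≥0∞) x * f x) * ((F_U a).indicator (1 : X → ℝ≥0∞) (γ • x) * g (γ • x)) ∂μ := by
    intro a b f g mf mg iF iG
    have e1 : ∀ x, ce (Γk a ⊓ HU) (Y a b) (fun γ => g (γ • x)) =
        ∑' γ : H, (Y a b).indicator (1 : H → ℝ≥0∞) γ * (F_U a).indicator (1 : X → ℝ≥0∞) (γ • x) * g (γ • x) := fun x =>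
      (ce_eq (hU a) (hY.yl a b) (b := fun γ => g (γ • x)) (fun u hu γ => by rw [mul_smul, iG u hu]) x).symm
    rw [← lintegral_indicator (hU b).meas]
    have e2 : ∀ x, (F_U b).indicator (fun x => f x * ce (Γk a ⊓ HU) (Y a b) (fun γ => g (γ • x))) x =
        ∑' γ : H, (Y a b).indicator (1 : H → ℝ≥0∞) γ * (((F_U b).indicator (1 : X → ℝ≥0∞) x * f x) * ((F_U a).indicator (1 : X → ℝ≥0∞) (γ • x) * g (γ • x))) := by
      intro x
      have e3 : (F_U b).indicator (fun x => f x * ce (Γk a ⊓ HU) (Y a b) (fun γ => g (γ • x))) x =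
          ((F_U b).indicator (1 : X → ℝ≥0∞) x * f x) * ce (Γk a ⊓ HU) (Y a b) (fun γ => g (γ • x)) := by
        by_cases hx : x ∈ F_U b
        · rw [Set.indicator_of_mem hx, Set.indicator_of_mem hx, Pi.one_apply, one_mul]
        · rw [Set.indicator_of_notMem hx, Set.indicator_of_notMem hx, zero_mul, zero_mul]
      rw [e3, e1, ← ENNReal.tsum_mul_left]
      refine tsum_congr fun γ => ?_
      ring
    rw [lintegral_congr e2, lintegral_tsum fun γ => ?_]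
    · refine tsum_congr fun γ => ?_
      rw [lintegral_const_mul]
      exact ((mA b).mul mf).mul (((mA a).comp (measurable_const_smul γ)).mul (mg.comp (measurable_const_smul γ)))
    · exact ((((mA b).mul mf).mul (((mA a).comp (measurable_const_smul γ)).mul (mg.comp (measurable_const_smul γ)))).const_mul _).aemeasurable
  rw [key a b f g mf mg iF iG, key b a g f mg mf iG iF, ← (Equiv.inv H).tsum_eq]
  refine tsum_congr fun γ => ?_
  have e4 : (Y a b).indicator (1 : H → ℝ≥0∞) (Equiv.inv H γ) = (Y b a).indicator (1 : H → ℝ≥0∞) γ := by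
    have h1 : (Equiv.inv H γ) ∈ Y a b ↔ γ ∈ Y b a := by
      rw [hY.yi b a γ]
      rfl
    by_cases h2 : γ ∈ Y b a
    · rw [Set.indicator_of_mem h2, Set.indicator_of_mem (h1.2 h2)]
      rfl
    · rw [Set.indicator_of_notMem h2, Set.indicator_of_notMem fun h3 => h2 (h1.1 h3)]
  rw [e4]
  congr 1
  have m0 : Measurable fun x => ((F_U b).indicator (1 : X → ℝ≥0∞) x * f x) * ((F_U a).indicator (1 : X → ℝ≥0∞) (γ⁻¹ • x) * g (γ⁻¹ • x)) :=
    ((mA b).mul mf).mul (((mA a).comp (measurable_const_smul γ⁻¹)).mul (mg.comp (measurable_const_smul γ⁻¹)))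
  have h5 := (measurePreserving_smul γ μ).lintegral_comp m0
  refine Eq.trans h5.symm (lintegral_congr fun x => ?_)
  rw [inv_smul_smul, mul_comm]

end unf

section schur

variable {H X T κ : Type} [Group H] [Countable H] [MulAction H X] [MeasurableSpace X] [MeasurableSpace T] [MeasurableConstSMul H X] {μ : Measure X} {ν : Measure T}
  [SMulInvariantMeasure H X μ] [SFinite μ] [SFinite ν] {tr : T → X → X} {ι : T → T} {HU : Subgroup H} [MulAction HU T]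
  {Γk : κ → Subgroup H} {Y : κ → κ → Set H} {D : κ → Set T} {F_U : κ → Set X} {S : Set X}

omit [Countable H] [MeasurableConstSMul H X] [SMulInvariantMeasure H X μ] [SFinite μ] [SFinite ν] in
theorem aw_inv {M : Type*} (hA : Avg HU μ ν tr ι) [Nonempty T] {φ : X → M} (eφ : ∀ t x, φ (tr t x) = φ x) {u : H} (hu : u ∈ HU) (x : X) : φ (u • x) = φ x := by
  obtain ⟨t⟩ := ‹Nonempty T›
  have e1 : (⟨u, hu⟩ : HU) • x = tr ((⟨u, hu⟩ : HU) • t) (tr (ι t) x) := by rw [hA.act, hA.inv2]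
  have e2 : u • x = (⟨u, hu⟩ : HU) • x := rfl
  rw [e2, e1, eφ]
  have e3 : tr t (tr (ι t) x) = x := hA.inv2 t x
  have e4 := eφ t (tr (ι t) x)
  rw [e3] at e4
  exact e4.symm

/-- The first half: the average of the number of the exceptional elements. -/
theorem aw_half (hA : Avg HU μ ν tr ι) {Γb : Subgroup H} {Da : Set T} (hD : SF (Γb.subgroupOf HU) Da) (pD : ν Da ≠ 0) (fD : ν Da ≠ ⊤)
    {Fb : Set X} (hU : SF (Γb ⊓ HU) Fb) {Φ N : X → ℝ≥0∞} (mΦ : Measurable Φ) (mN : Measurable N) (eΦ : ∀ t x, Φ (tr t x) = Φ x)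
    (sΦ : ∀ x, x ∉ S → Φ x = 0) (iN : ∀ u ∈ Γb ⊓ HU, ∀ x, N (u • x) = N x) {n : ℝ≥0∞} (hn : ∀ x ∈ S, ∫⁻ t in Da, N (tr t x) ∂ν ≤ n * ν Da) :
    ∫⁻ x in Fb, Φ x ^ 2 * N x ∂μ ≤ n * ∫⁻ x in Fb, Φ x ^ 2 ∂μ := by
  have hT : Nonempty T := by
    by_contra h
    rw [not_nonempty_iff] at h
    exact pD (by rw [Set.eq_empty_of_isEmpty Da, measure_empty])
  have hmc : MeasurableConstSMul HU X := ⟨fun c => measurable_const_smul (c : H)⟩
  have hsi : SMulInvariantMeasure HU X μ := ⟨fun c _ hs => SMulInvariantMeasure.measure_preimage_smul (c : H) hs⟩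
  have h1 := avu_lint hA hD (an7a_sub.1 hU) (φ := fun x => Φ x ^ 2 * N x) ((mΦ.pow_const 2).mul mN) (fun γ hγ x => by
    have e1 : Φ (γ • x) = Φ x := aw_inv hA eΦ γ.2 x
    have e2 : N (γ • x) = N x := iN (γ : H) ⟨hγ, γ.2⟩ x
    show Φ (γ • x) ^ 2 * N (γ • x) = _
    rw [e1, e2])
  have h2 : ν Da * ∫⁻ x in Fb, Φ x ^ 2 * N x ∂μ ≤ ν Da * (n * ∫⁻ x in Fb, Φ x ^ 2 ∂μ) := by
    rw [← h1]
    have h3 : ∀ x, ∫⁻ t in Da, Φ (tr t x) ^ 2 * N (tr t x) ∂ν ≤ (ν Da * n) * Φ x ^ 2 := by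
      intro x
      have e3 : ∀ t, Φ (tr t x) ^ 2 * N (tr t x) = Φ x ^ 2 * N (tr t x) := fun t => by rw [eΦ]
      rw [lintegral_congr e3]
      have mNt : Measurable fun t => N (tr t x) := mN.comp (hA.trm.comp (measurable_id.prodMk measurable_const))
      rw [lintegral_const_mul _ mNt]
      by_cases hx : x ∈ S
      · calc Φ x ^ 2 * ∫⁻ t in Da, N (tr t x) ∂ν ≤ Φ x ^ 2 * (n * ν Da) := mul_le_mul_right (hn x hx) _
          _ = _ := by ring
      · rw [sΦ x hx]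
        simp
    refine (lintegral_mono h3).trans (le_of_eq ?_)
    rw [lintegral_const_mul _ (mΦ.pow_const 2), mul_assoc]
  exact (ENNReal.mul_le_mul_iff_right pD fD).1 h2

/-- **The Schur test.** -/
theorem aw_schur [Fintype κ] (hA : Avg HU μ ν tr ι) (hD : ∀ a, SF ((Γk a).subgroupOf HU) (D a)) (pD : ∀ a, ν (D a) ≠ 0) (fD : ∀ a, ν (D a) ≠ ⊤)
    (hU : ∀ a, SF (Γk a ⊓ HU) (F_U a)) (mS : MeasurableSet S) (hS : ∀ t x, tr t x ∈ S ↔ x ∈ S) (hY : BadS Γk HU Y) {Φ : κ → X → ℝ≥0∞}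
    (mΦ : ∀ a, Measurable (Φ a)) (eΦ : ∀ a t x, Φ a (tr t x) = Φ a x) (sΦ : ∀ a x, x ∉ S → Φ a x = 0) {n : κ → κ → ℝ≥0∞}
    (hn : ∀ a b, ∀ x ∈ S, ∫⁻ t in D b, ce (Γk a ⊓ HU) (Y a b) (fun γ => S.indicator 1 (γ • tr t x)) ∂ν ≤ n a b * ν (D b)) {w : κ → ℝ≥0∞}
    (w0 : ∀ a, w a ≠ 0) (wt : ∀ a, w a ≠ ⊤) {B : ℝ≥0∞} (hw : ∀ b, ∑ a, w a * n a b ≤ B * w b) :
    ∑ b, ∑ a, ∫⁻ x in F_U b, Φ b x * ce (Γk a ⊓ HU) (Y a b) (fun γ => Φ a (γ • x)) ∂μ ≤ B * ∑ b, ∫⁻ x in F_U b, Φ b x ^ 2 ∂μ := by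
  classical
  rcases isEmpty_or_nonempty κ with hκ | hκ
  · simp
  obtain ⟨k0⟩ := hκ
  have hT : Nonempty T := by
    by_contra h
    rw [not_nonempty_iff] at h
    exact pD k0 (by rw [Set.eq_empty_of_isEmpty (D k0), measure_empty])
  have hSi : ∀ u ∈ HU, ∀ x, S.indicator (1 : X → ℝ≥0∞) (u • x) = S.indicator (1 : X → ℝ≥0∞) x := fun u hu x =>
    aw_inv hA (φ := S.indicator (1 : X → ℝ≥0∞)) (fun t x => by
      by_cases hx : x ∈ S
      · rw [Set.indicator_of_mem hx, Set.indicator_of_mem ((hS t x).2 hx)]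
        rfl
      · rw [Set.indicator_of_notMem hx, Set.indicator_of_notMem fun h => hx ((hS t x).1 h)]) hu x
  have iΦ : ∀ a, ∀ u ∈ HU, ∀ x, Φ a (u • x) = Φ a x := fun a u hu x => aw_inv hA (eΦ a) hu x
  have mSi : Measurable (S.indicator (1 : X → ℝ≥0∞)) := measurable_one.indicator mS
  -- the numbers
  obtain ⟨N, hN⟩ : ∃ N : κ → κ → X → ℝ≥0∞, N = fun a b x => ce (Γk a ⊓ HU) (Y a b) (fun γ => S.indicator 1 (γ • x)) := ⟨_, rfl⟩
  have mN : ∀ a b, Measurable (N a b) := fun a b => by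
    rw [hN]
    exact aw_cemeas mSi
  have iN : ∀ a b, ∀ u ∈ Γk b ⊓ HU, ∀ x, N a b (u • x) = N a b x := by
    intro a b u hu x
    rw [hN]
    have h1 := ce_shift (U₀ := Γk a ⊓ HU) (S := Y a b) (hY.yl a b) (b := fun γ => S.indicator (1 : X → ℝ≥0∞) (γ • x))
      (fun u' hu' γ => by rw [mul_smul, hSi u' hu'.2]) u (hY.yr a b u hu)
    show ce (Γk a ⊓ HU) (Y a b) (fun γ => S.indicator 1 (γ • u • x)) = ce (Γk a ⊓ HU) (Y a b) (fun γ => S.indicator 1 (γ • x))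
    rw [← h1]
    simp only [mul_smul]
  obtain ⟨d, hd⟩ : ∃ d : κ → ℝ≥0∞, d = fun b => ∫⁻ x in F_U b, Φ b x ^ 2 ∂μ := ⟨_, rfl⟩
  have hn' : ∀ a b, ∫⁻ x in F_U b, Φ b x ^ 2 * N a b x ∂μ ≤ n a b * d b := by
    intro a b
    rw [hd]
    exact aw_half hA (hD b) (pD b) (fD b) (hU b) (mΦ b) (mN a b) (eΦ b) (sΦ b) (iN a b) (fun x hx => by
      rw [hN]
      exact hn a b x hx)
  -- the second half
  have hn2 : ∀ a b, ∫⁻ x in F_U b, S.indicator 1 x * ce (Γk a ⊓ HU) (Y a b) (fun γ => Φ a (γ • x) ^ 2) ∂μ ≤ n b a * d a := by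
    intro a b
    rw [aw_unf hY hU mSi ((mΦ a).pow_const 2) a b (fun u hu x => hSi u hu.2 x) (fun u hu x => by rw [iΦ a u hu.2])]
    have h1 := hn' b a
    rw [hN] at h1
    exact h1
  -- the pair `(a, b)`
  have pair : ∀ a b, 2 * ∫⁻ x in F_U b, Φ b x * ce (Γk a ⊓ HU) (Y a b) (fun γ => Φ a (γ • x)) ∂μ ≤
      w a / w b * (n a b * d b) + w b / w a * (n b a * d a) := by
    intro a b
    have r0 : w a / w b ≠ 0 := (ENNReal.div_pos (w0 a) (wt b)).ne'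
    have rt : w a / w b ≠ ⊤ := ENNReal.div_ne_top (wt a) (w0 b)
    have ri : (w a / w b)⁻¹ = w b / w a := ENNReal.inv_div (Or.inl (wt b)) (Or.inl (w0 b))
    have m1 : Measurable fun x => Φ b x * ce (Γk a ⊓ HU) (Y a b) (fun γ => Φ a (γ • x)) := (mΦ b).mul (aw_cemeas (mΦ a))
    have m2 : Measurable fun x => w a / w b * (Φ b x ^ 2 * N a b x) := (((mΦ b).pow_const 2).mul (mN a b)).const_mul _
    rw [← lintegral_const_mul _ m1]
    have h1 : ∀ x, 2 * (Φ b x * ce (Γk a ⊓ HU) (Y a b) (fun γ => Φ a (γ • x))) ≤ w a / w b * (Φ b x ^ 2 * N a b x) +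
        w b / w a * (S.indicator 1 x * ce (Γk a ⊓ HU) (Y a b) (fun γ => Φ a (γ • x) ^ 2)) := by
      intro x
      rw [hN]
      simp only [aw_cemul, aw_ceadd]
      refine aw_cele fun γ => ?_
      by_cases hx : x ∈ S
      · by_cases hg : γ • x ∈ S
        · rw [Set.indicator_of_mem hx, Set.indicator_of_mem hg, Pi.one_apply, Pi.one_apply, mul_one, one_mul, ← ri]
          exact aw_amgm r0 rt _ _
        · rw [sΦ a _ hg, mul_zero, mul_zero]
          exact zero_le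
      · rw [sΦ b x hx, zero_mul, mul_zero]
        exact zero_le
    refine (lintegral_mono h1).trans ?_
    rw [lintegral_add_left m2]
    refine add_le_add ?_ ?_
    · have m3 : Measurable fun x => Φ b x ^ 2 * N a b x := ((mΦ b).pow_const 2).mul (mN a b)
      rw [lintegral_const_mul _ m3]
      exact mul_le_mul_right (hn' a b) _
    · have m4 : Measurable fun x => S.indicator 1 x * ce (Γk a ⊓ HU) (Y a b) (fun γ => Φ a (γ • x) ^ 2) :=
        mSi.mul (aw_cemeas (φ := fun x => Φ a x ^ 2) ((mΦ a).pow_const 2))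
      rw [lintegral_const_mul _ m4]
      exact mul_le_mul_right (hn2 a b) _
  -- the sum
  have hs : ∀ b, ∑ a, w a / w b * n a b ≤ B := by
    intro b
    have h1 : ∀ a, w a / w b * n a b = (w a * n a b) / w b := fun a => by
      rw [ENNReal.div_eq_inv_mul, ENNReal.div_eq_inv_mul, mul_assoc]
    simp only [h1]
    have h2 : ∑ a, w a * n a b / w b = (∑ a, w a * n a b) / w b := by
      simp only [div_eq_mul_inv]
      rw [Finset.sum_mul]
    rw [h2]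
    exact ENNReal.div_le_of_le_mul (hw b)
  have total : 2 * ∑ b, ∑ a, ∫⁻ x in F_U b, Φ b x * ce (Γk a ⊓ HU) (Y a b) (fun γ => Φ a (γ • x)) ∂μ ≤ 2 * (B * ∑ b, d b) := by
    rw [Finset.mul_sum]
    simp only [Finset.mul_sum (s := (Finset.univ : Finset κ)) (a := (2 : ℝ≥0∞))]
    refine (Finset.sum_le_sum fun b _ => Finset.sum_le_sum fun a _ => pair a b).trans ?_
    simp only [Finset.sum_add_distrib]
    have t1 : ∑ b, ∑ a, w a / w b * (n a b * d b) ≤ B * ∑ b, d b := by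
      rw [Finset.mul_sum]
      refine Finset.sum_le_sum fun b _ => ?_
      have e1 : ∀ a, w a / w b * (n a b * d b) = (w a / w b * n a b) * d b := fun a => by ring
      simp only [e1]
      rw [← Finset.sum_mul]
      exact mul_le_mul_left (hs b) _
    have t2 : ∑ b, ∑ a, w b / w a * (n b a * d a) ≤ B * ∑ b, d b := by
      rw [Finset.sum_comm]
      exact t1
    calc _ ≤ B * ∑ b, d b + B * ∑ b, d b := add_le_add t1 t2
      _ = _ := (two_mul _).symm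
  rw [hd] at total
  exact (ENNReal.mul_le_mul_iff_right two_ne_zero ENNReal.ofNat_ne_top).1 total

end schur

end

end Pool.Agent.Lib.L1S
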