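import Pool.Agent.Lib.L1S.AW6

/-!
# AW7: the large sieve inequality for a finite family of Hecke translations with few exceptional elements (version 3)
-/

namespace Pool.Agent.Lib.L1S

open MeasureTheory Pool.Agent.Lib.H33W Pool.Agent.Lib.H67G
open scoped ENNReal

noncomputable section

/-- The weighted count of the exceptional elements: for every point `x ∈ S` the average over `t ∈ D b` of the number of the classes `(Γk a ∩ U) γ`, `γ` in `Bd a b` with `h_a γ h_b⁻¹ ∈ Γ`, which move `t x` to a point of `S`, is at most `n a b`. -/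
structure CntB {H X T κ : Type} [Group H] [MulAction H X] [MeasurableSpace T] [Fintype κ] (ν : Measure T) (tr : T → X → X) (Γ HU : Subgroup H)
    (hk : κ → H) (Γk : κ → Subgroup H) (D : κ → Set T) (S : Set X) (Bd : κ → κ → Set H) (n : κ → κ → ℝ≥0∞) (w : κ → ℝ≥0∞) (B : ℝ≥0∞) : Prop where
  bad : BadS Γk HU Bd
  disj : ∀ k, ∀ γ ∈ Bd k k, γ ∉ HU
  cnt : ∀ a b, ∀ x ∈ S, ∫⁻ t in D b, ce (Γk a ⊓ HU) (Zs Γ (hk a) (hk b) ∩ Bd a b) (fun γ => S.indicator 1 (γ • tr t x)) ∂ν ≤ n a b * ν (D b)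
  w0 : ∀ a, w a ≠ 0
  wt : ∀ a, w a ≠ ⊤
  hw : ∀ b, ∑ a, w a * n a b ≤ B * w b

section main

variable {H X T κ : Type} [Group H] [Countable H] [MulAction H X] [MeasurableSpace X] [MeasurableSpace T] [MeasurableConstSMul H X] {μ : Measure X} {ν : Measure T}
  {tr : T → X → X} {ι : T → T} {Γ HU : Subgroup H} [MulAction HU T] [Fintype κ] {hk : κ → H} {Γk : κ → Subgroup H} {D : κ → Set T} {e : T → ℂ} {χ : HU → ℂ} {S : Set X} {Ψ : κ → X → ℂ}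
  {Bd : κ → κ → Set H} [SMulInvariantMeasure H X μ] [SFinite μ] [SFinite ν]

/-- **The large sieve inequality for a family with few exceptional elements.** `E_k` the Poincare series of `Ψ_k` for `Γk k = h_k⁻¹ Γ h_k`, `P(y) = ∑ E_k(h_k⁻¹ y)`: `∫_{F₁} conj(P) h = ∑ ∫_{F_U k} conj(Ψ_k) h(h_k ·)`,
and `∫_{F₁} |P|² = ∑ ∫_{F_U k} |Ψ_k|²` + the part of the exceptional elements, which is at most `B ∑ ∫_{F_U k} |Ψ_k|²` by the Schur test. -/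
theorem aw_ls (hΓ : ∀ k g, g ∈ Γk k ↔ hk k * g * (hk k)⁻¹ ∈ Γ) (M : ∀ k, MD μ ν tr ι (Γk k) HU (D k) e χ S (Ψ k))
    {n : κ → κ → ℝ≥0∞} {w : κ → ℝ≥0∞} {B₀ : ℝ≥0∞} (hC : CntB ν tr Γ HU hk Γk D S Bd n w B₀)
    (hd : ∀ a b γ, hk a * γ * (hk b)⁻¹ ∈ Γ → γ ∉ Bd a b → (∃ y ∈ S, γ • y ∈ S) → (a = b ∧ γ ∈ HU) ∨ Dich2 (Γk a) (Γk b) HU χ γ)
    {F₁ : Set X} {F_U : κ → Set X} (hF₁ : SF Γ F₁)
    (hU : ∀ k, SF (Γk k ⊓ HU) (F_U k)) (hF : ∀ k, μ (F_U k ∩ S) ≠ ⊤) {h : X → ℂ} (mh : Measurable h) (ih : ∀ γ ∈ Γ, ∀ x, h (γ • x) = h x)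
    (bh : ∃ B : ℝ, ∀ k, ∀ x ∈ S, ‖h (hk k • x)‖ ≤ B)
    (hW : ∀ k, ∀ x ∈ S, ⨍ t in D k, star (e t) * h (hk k • tr t x) ∂ν = Ψ k x) :
    ∑ k, ∫⁻ x in F_U k, ‖Ψ k x‖ₑ ^ 2 ∂μ ≤ (1 + B₀) * ∫⁻ x in F₁, ‖h x‖ₑ ^ 2 ∂μ := by
  classical
  obtain ⟨B, hB⟩ := bh
  -- invariance of translates
  have itr : ∀ {G : X → ℂ}, (∀ γ ∈ Γ, ∀ x, G (γ • x) = G x) → ∀ k, ∀ γ ∈ Γk k, ∀ x, G (hk k • γ • x) = G (hk k • x) := by
    intro G iG k γ hγ x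
    have e1 : hk k • γ • x = (hk k * γ * (hk k)⁻¹) • (hk k • x) := by
      rw [smul_smul, smul_smul, inv_mul_cancel_right]
    rw [e1, iG _ ((hΓ k γ).1 hγ)]
  have L : ∀ k, LSD μ (Γk k ⊓ HU) (Γk k) {x | hk k • x ∈ F₁} (F_U k) S (Ψ k) (fun x => h (hk k • x)) := fun k =>
    ⟨inf_le_left, tr_sf (hΓ k) hF₁, hU k, (M k).mS, hF k, (M k).mΨ, fun u hu x => (M k).inv hu x, (M k).sΨ, (M k).bΨ,
      mh.comp (measurable_const_smul (hk k)), itr ih k, ⟨B, hB k⟩, (M k).fs⟩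
  choose K hK hKb using fun k => b5_bd (L k)
  obtain ⟨E, hE⟩ : ∃ E : κ → X → ℂ, E = fun k x => cs (Γk k ⊓ HU) (Γk k : Set H) (fun γ => Ψ k (γ • x)) := ⟨_, rfl⟩
  have mE : ∀ k, Measurable (E k) := fun k => by rw [hE]; exact b5_meas (L k) subset_rfl
  have bE : ∀ k x, ‖E k x‖ₑ ≤ K k := fun k x => by rw [hE]; exact hKb k _ subset_rfl x
  have iΨ : ∀ k (x : X), ∀ u ∈ Γk k ⊓ HU, ∀ γ : H, Ψ k ((u * γ) • x) = Ψ k (γ • x) := by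
    intro k x u hu γ
    rw [mul_smul, (M k).inv hu]
  have iE : ∀ k, ∀ g ∈ Γk k, ∀ x, E k (g • x) = E k x := by
    intro k g hg x
    have h4 := cs_shift (U₀ := Γk k ⊓ HU) (S := (Γk k : Set H)) (fun u hu γ => (Γk k).mul_mem_cancel_left hu.1) (b := fun γ => Ψ k (γ • x)) (iΨ k x) g
      fun γ => (Γk k).mul_mem_cancel_right hg
    rw [hE]
    change cs (Γk k ⊓ HU) (Γk k : Set H) (fun γ => Ψ k (γ • g • x)) = cs (Γk k ⊓ HU) (Γk k : Set H) (fun γ => Ψ k (γ • x))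
    rw [← h4]
    simp only [mul_smul]
  obtain ⟨P, hP⟩ : ∃ P : X → ℂ, P = fun y => ∑ k, E k ((hk k)⁻¹ • y) := ⟨_, rfl⟩
  have mP : Measurable P := by
    rw [hP]
    exact Finset.measurable_fun_sum _ fun k _ => (mE k).comp (measurable_const_smul (hk k)⁻¹)
  have bP : ∀ x, ‖P x‖ₑ ≤ ∑ k, K k := by
    intro x
    rw [hP]
    exact (enorm_sum_le _ _).trans (Finset.sum_le_sum fun k _ => bE k _)
  have hKs : ∑ k, K k ≠ ⊤ := (ENNReal.sum_lt_top.2 fun k _ => lt_top_iff_ne_top.2 (hK k)).ne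
  have iP : ∀ γ ∈ Γ, ∀ x, P (γ • x) = P x := by
    intro γ hγ x
    rw [hP]
    refine Finset.sum_congr rfl fun k _ => ?_
    have e1 : (hk k)⁻¹ • γ • x = ((hk k)⁻¹ * γ * hk k) • ((hk k)⁻¹ • x) := by
      rw [smul_smul, smul_smul, mul_inv_cancel_right]
    rw [e1]
    refine iE k _ ((hΓ k _).2 ?_) _
    have e2 : hk k * ((hk k)⁻¹ * γ * hk k) * (hk k)⁻¹ = γ := by group
    rw [e2]
    exact hγ
  -- the unfolding
  have nt : ∀ {G : X → ℂ}, Measurable G → (∀ γ ∈ Γ, ∀ x, G (γ • x) = G x) → ∀ {C : ℝ≥0∞}, C ≠ ⊤ → (∀ k, ∀ x ∈ S, ‖G (hk k • x)‖ₑ ≤ C) →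
      ∀ k, ∫⁻ y in F₁, ‖star (E k ((hk k)⁻¹ • y)) * G y‖ₑ ∂μ ≠ ⊤ := by
    intro G mG iG C hC hG k
    have h1 := av7_nt (L k) (G := fun x => G (hk k • x)) (mG.comp (measurable_const_smul (hk k))) (itr iG k) hC (hG k)
    rw [av7_trl (hk k) F₁] at h1
    refine ne_top_of_le_ne_top h1 (lintegral_mono fun y => ?_)
    rw [hE]
    show _ ≤ ‖star (cs (Γk k ⊓ HU) (Γk k : Set H) (fun γ => Ψ k (γ • (hk k)⁻¹ • y))) * G (hk k • (hk k)⁻¹ • y)‖ₑ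
    rw [smul_inv_smul]
  have unf : ∀ {G : X → ℂ}, Measurable G → (∀ γ ∈ Γ, ∀ x, G (γ • x) = G x) → ∀ {C : ℝ≥0∞}, C ≠ ⊤ → (∀ k, ∀ x ∈ S, ‖G (hk k • x)‖ₑ ≤ C) →
      ∫ y in F₁, star (P y) * G y ∂μ = ∑ k, ∫ x in F_U k, star (Ψ k x) * G (hk k • x) ∂μ := by
    intro G mG iG C hC hG
    have h1 : ∀ y, star (P y) * G y = ∑ k, star (E k ((hk k)⁻¹ • y)) * G y := by
      intro y
      rw [hP, star_sum, Finset.sum_mul]
    simp only [h1]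
    rw [integral_finset_sum _ fun k _ => ?_]
    · refine Finset.sum_congr rfl fun k _ => ?_
      have h2 := b5_unf (L k) (G := fun x => G (hk k • x)) (mG.comp (measurable_const_smul (hk k))) (itr iG k) hC (hG k)
      rw [av7_tr (hk k) F₁] at h2
      rw [← h2]
      refine integral_congr_ae (Filter.Eventually.of_forall fun y => ?_)
      rw [hE]
      show _ = star (cs (Γk k ⊓ HU) (Γk k : Set H) (fun γ => Ψ k (γ • (hk k)⁻¹ • y))) * G (hk k • (hk k)⁻¹ • y)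
      rw [smul_inv_smul]
    · refine ⟨((continuous_star.measurable.comp ((mE k).comp (measurable_const_smul (hk k)⁻¹))).mul mG).aestronglyMeasurable, ?_⟩
      exact lt_top_iff_ne_top.2 (nt mG iG hC hG k)
  -- the two parts of the sum of the Poincare series
  have Mz : ∀ a k, MD2 μ ν tr ι (Γk a) (Γk k) HU (D k) e χ S (Ψ a) (Zs Γ (hk a) (hk k)) := fun a k => av7_md2 hΓ M a k
  have fz : ∀ a k x, {c : H ⧸ (Γk a ⊓ HU) | (Quotient.out c)⁻¹ ∈ Zs Γ (hk a) (hk k) ∧ Ψ a ((Quotient.out c)⁻¹ • x) ≠ 0}.Finite := fun a k x => by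
    obtain ⟨N, hN⟩ := (Mz a k).fs
    exact Set.finite_of_encard_le_coe (hN x)
  have hYz : BadS Γk HU (fun a b => Zs Γ (hk a) (hk b) ∩ Bd a b) := aw_badz hΓ hC.bad
  obtain ⟨G₀, hG₀⟩ : ∃ G₀ : κ → X → ℂ, G₀ = fun k x => ∑ a, cs (Γk a ⊓ HU) (Zs Γ (hk a) (hk k) \ Bd a k) (fun γ => Ψ a (γ • x)) := ⟨_, rfl⟩
  obtain ⟨R, hR⟩ : ∃ R : κ → X → ℂ, R = fun k x => ∑ a, cs (Γk a ⊓ HU) (Zs Γ (hk a) (hk k) ∩ Bd a k) (fun γ => Ψ a (γ • x)) := ⟨_, rfl⟩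
  have mcs : ∀ a k (Z : Set H), Z ⊆ Zs Γ (hk a) (hk k) → Measurable fun x => cs (Γk a ⊓ HU) Z (fun γ => Ψ a (γ • x)) := fun a k Z hZ =>
    cs_meas (Γk a ⊓ HU) Z (b := fun γ x => Ψ a (γ • x)) (fun γ => (M a).mΨ.comp (measurable_const_smul γ)) fun x =>
      (fz a k x).subset fun c hc => ⟨hZ hc.1, hc.2⟩
  have mG₀ : ∀ k, Measurable (G₀ k) := fun k => by
    rw [hG₀]
    exact Finset.measurable_fun_sum _ fun a _ => mcs a k _ fun g hg => hg.1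
  have mR : ∀ k, Measurable (R k) := fun k => by
    rw [hR]
    exact Finset.measurable_fun_sum _ fun a _ => mcs a k _ fun g hg => hg.1
  have hPGR : ∀ k x, P (hk k • x) = G₀ k x + R k x := by
    intro k x
    rw [hG₀, hR, hP]
    show ∑ a, E a ((hk a)⁻¹ • hk k • x) = ∑ a, cs (Γk a ⊓ HU) (Zs Γ (hk a) (hk k) \ Bd a k) (fun γ => Ψ a (γ • x)) +
      ∑ a, cs (Γk a ⊓ HU) (Zs Γ (hk a) (hk k) ∩ Bd a k) (fun γ => Ψ a (γ • x))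
    rw [← Finset.sum_add_distrib]
    refine Finset.sum_congr rfl fun a _ => ?_
    have h2 := av7_shift (U₀ := Γk a ⊓ HU) (S := (Γk a : Set H)) (S' := Zs Γ (hk a) (hk k)) (fun u hu => zs_l hΓ a k u hu.1)
      (b := fun γ => Ψ a (γ • x)) (iΨ a x) ((hk a)⁻¹ * hk k) (zs_g hΓ a k)
    have h3 : E a ((hk a)⁻¹ • hk k • x) = cs (Γk a ⊓ HU) (Zs Γ (hk a) (hk k)) (fun γ => Ψ a (γ • x)) := by
      rw [← h2, hE]
      simp only [mul_smul]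
    have h4 := cs_mono (U₀ := Γk a ⊓ HU) (S := Zs Γ (hk a) (hk k) ∩ Bd a k) (S' := Zs Γ (hk a) (hk k)) Set.inter_subset_left (hYz.yl a k)
      (fun u hu => zs_l hΓ a k u hu.1) (b := fun γ => Ψ a (γ • x)) (fz a k x)
    have h5 : Zs Γ (hk a) (hk k) \ (Zs Γ (hk a) (hk k) ∩ Bd a k) = Zs Γ (hk a) (hk k) \ Bd a k := by
      ext g
      constructor
      · rintro ⟨h6, h7⟩
        exact ⟨h6, fun h8 => h7 ⟨h6, h8⟩⟩
      · rintro ⟨h6, h7⟩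
        exact ⟨h6, fun h8 => h7 h8.2⟩
    rw [h3, h4, h5, add_comm]
  -- bounds for the two parts
  have bcs : ∀ a k (Z : Set H), Z ⊆ Zs Γ (hk a) (hk k) → ∃ C : ℝ≥0∞, C ≠ ⊤ ∧ ∀ x, ‖cs (Γk a ⊓ HU) Z (fun γ => Ψ a (γ • x))‖ₑ ≤ C := by
    intro a k Z hZ
    obtain ⟨N, hN⟩ := (Mz a k).fs
    obtain ⟨C, hC1, hC2⟩ := b5_bdΨ (L a)
    refine ⟨N * C, ENNReal.mul_ne_top (ENNReal.natCast_ne_top N) hC1, fun x => ?_⟩
    refine (cs_norm ((fz a k x).subset fun c hc => ⟨hZ hc.1, hc.2⟩)).trans ?_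
    obtain ⟨W, hW⟩ : ∃ W : Set (H ⧸ (Γk a ⊓ HU)), W = {c : H ⧸ (Γk a ⊓ HU) | (Quotient.out c)⁻¹ ∈ Zs Γ (hk a) (hk k) ∧ Ψ a ((Quotient.out c)⁻¹ • x) ≠ 0} := ⟨_, rfl⟩
    have h1 : ce (Γk a ⊓ HU) Z (fun γ => ‖Ψ a (γ • x)‖ₑ) ≤ ∑' c : H ⧸ (Γk a ⊓ HU), W.indicator (fun _ => C) c := by
      unfold ce
      refine ENNReal.tsum_le_tsum fun c => ?_
      by_cases hc : (Quotient.out c)⁻¹ ∈ Z
      · rw [if_pos hc]
        change ‖Ψ a ((Quotient.out c)⁻¹ • x)‖ₑ ≤ _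
        by_cases hc2 : Ψ a ((Quotient.out c)⁻¹ • x) = 0
        · rw [hc2, enorm_zero]
          exact zero_le
        · rw [hW, Set.indicator_of_mem (show c ∈ {c : H ⧸ (Γk a ⊓ HU) | (Quotient.out c)⁻¹ ∈ Zs Γ (hk a) (hk k) ∧ Ψ a ((Quotient.out c)⁻¹ • x) ≠ 0} from
            ⟨hZ hc, hc2⟩)]
          exact hC2 _
      · rw [if_neg hc]
        exact zero_le
    refine h1.trans ?_
    rw [← tsum_subtype W fun _ => C, ENNReal.tsum_set_const]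
    have h2 : (W.encard : ℝ≥0∞) ≤ N := by
      have h3 := hN x
      rw [← hW] at h3
      have h4 := ENat.toENNReal_le.2 h3
      rwa [ENat.toENNReal_coe] at h4
    exact mul_le_mul_left h2 C
  have bsum : ∀ k (Z : κ → Set H), (∀ a, Z a ⊆ Zs Γ (hk a) (hk k)) → ∃ C : ℝ≥0∞, C ≠ ⊤ ∧ ∀ x, ‖∑ a, cs (Γk a ⊓ HU) (Z a) (fun γ => Ψ a (γ • x))‖ₑ ≤ C := by
    intro k Z hZ
    choose C hC1 hC2 using fun a => bcs a k (Z a) (hZ a)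
    exact ⟨∑ a, C a, (ENNReal.sum_lt_top.2 fun a _ => lt_top_iff_ne_top.2 (hC1 a)).ne, fun x =>
      (enorm_sum_le _ _).trans (Finset.sum_le_sum fun a _ => hC2 a x)⟩
  have bG : ∀ k, ∃ C : ℝ≥0∞, C ≠ ⊤ ∧ ∀ x, ‖G₀ k x‖ₑ ≤ C := fun k => by
    rw [hG₀]
    exact bsum k _ fun a g hg => hg.1
  have bR : ∀ k, ∃ C : ℝ≥0∞, C ≠ ⊤ ∧ ∀ x, ‖R k x‖ₑ ≤ C := fun k => by
    rw [hR]
    exact bsum k _ fun a g hg => hg.1
  choose CG hCG hCG' using bG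
  choose CR hCR hCR' using bR
  have iG₀ : ∀ k, ∀ u ∈ Γk k ⊓ HU, ∀ x, G₀ k (u • x) = G₀ k x := by
    intro k u hu x
    rw [hG₀]
    refine Finset.sum_congr rfl fun a _ => ?_
    have h4 := cs_shift (U₀ := Γk a ⊓ HU) (S := Zs Γ (hk a) (hk k) \ Bd a k) (aw_gl hΓ hC.bad a k) (b := fun γ => Ψ a (γ • x)) (iΨ a x) u
      (aw_gr hΓ hC.bad a k u hu)
    rw [← h4]
    simp only [mul_smul]
  -- the means
  have m1 : ∀ k, ∫ x in F_U k, star (Ψ k x) * h (hk k • x) ∂μ = ∫ x in F_U k, ((‖Ψ k x‖ ^ 2 : ℝ) : ℂ) ∂μ := fun k =>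
    an_gen (M k) (hU k) (hF k) (E := fun x => h (hk k • x)) (mh.comp (measurable_const_smul (hk k))) (fun u hu x => itr ih k u hu.1 x) (hB k) (hW k)
  have m2 : ∀ k, ∫ x in F_U k, star (Ψ k x) * G₀ k x ∂μ = ∫ x in F_U k, ((‖Ψ k x‖ ^ 2 : ℝ) : ℂ) ∂μ := fun k =>
    an_gen (M k) (hU k) (hF k) (E := G₀ k) (mG₀ k) (iG₀ k) (BE := (CG k).toReal) (fun x _ => by
        have h5 := ENNReal.toReal_mono (hCG k) (hCG' k x)
        rwa [toReal_enorm] at h5) (fun x hx => by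
        have h6 := aw_mean hΓ M hC.bad hC.disj hd k hx
        rw [← h6, hG₀])
  have bh' : ∀ k, ∀ x ∈ S, ‖h (hk k • x)‖ₑ ≤ ENNReal.ofReal B := by
    intro k x hx
    rw [← ofReal_norm]
    exact ENNReal.ofReal_le_ofReal (hB k x hx)
  have hfin : ∀ k, ∫⁻ x in F_U k, ‖Ψ k x‖ₑ ^ 2 ∂μ ≠ ⊤ := fun k => b5_sqfin (L k)
  have s1 : ∫ y in F₁, star (P y) * h y ∂μ = ∑ k, ∫ x in F_U k, ((‖Ψ k x‖ ^ 2 : ℝ) : ℂ) ∂μ := by
    rw [unf mh ih ENNReal.ofReal_ne_top bh']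
    exact Finset.sum_congr rfl fun k _ => m1 k
  have s2 : ∫ y in F₁, star (P y) * P y ∂μ = ∑ k, ∫ x in F_U k, ((‖Ψ k x‖ ^ 2 : ℝ) : ℂ) ∂μ + ∑ k, ∫ x in F_U k, star (Ψ k x) * R k x ∂μ := by
    rw [unf mP iP hKs (fun k x _ => bP _), ← Finset.sum_add_distrib]
    refine Finset.sum_congr rfl fun k _ => ?_
    rw [← m2 k, ← integral_add (b5_int (L k) (mG₀ k) (hCG k) fun x _ => hCG' k x) (b5_int (L k) (mR k) (hCR k) fun x _ => hCR' k x)]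
    refine integral_congr_ae (Filter.Eventually.of_forall fun x => ?_)
    show star (Ψ k x) * P (hk k • x) = star (Ψ k x) * G₀ k x + star (Ψ k x) * R k x
    rw [hPGR, mul_add]
  obtain ⟨d, hd0⟩ : ∃ d, d = ∑ k, ∫⁻ x in F_U k, ‖Ψ k x‖ₑ ^ 2 ∂μ := ⟨_, rfl⟩
  have hds := av7_sum (μ := μ) Finset.univ (F := F_U) (P := Ψ) (fun k => (M k).mΨ) hfin
  rw [← hd0] at hds
  have hD0 : d ≠ ⊤ := by
    rw [hd0]
    exact (ENNReal.sum_lt_top.2 fun k _ => lt_top_iff_ne_top.2 (hfin k)).ne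
  -- the exceptional part
  have bad : ‖∑ k, ∫ x in F_U k, star (Ψ k x) * R k x ∂μ‖ₑ ≤ B₀ * d := by
    have h1 : ‖∑ k, ∫ x in F_U k, star (Ψ k x) * R k x ∂μ‖ₑ ≤
        ∑ k, ∑ a, ∫⁻ x in F_U k, ‖Ψ k x‖ₑ * ce (Γk a ⊓ HU) (Zs Γ (hk a) (hk k) ∩ Bd a k) (fun γ => ‖Ψ a (γ • x)‖ₑ) ∂μ := by
      refine (enorm_sum_le _ _).trans (Finset.sum_le_sum fun k _ => ?_)
      refine (enorm_integral_le_lintegral_enorm _).trans ?_
      have mc : ∀ a, Measurable fun x => ‖Ψ k x‖ₑ * ce (Γk a ⊓ HU) (Zs Γ (hk a) (hk k) ∩ Bd a k) (fun γ => ‖Ψ a (γ • x)‖ₑ) := fun a =>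
        (M k).mΨ.enorm.mul (aw_cemeas (φ := fun x => ‖Ψ a x‖ₑ) (M a).mΨ.enorm)
      rw [← lintegral_finset_sum _ fun a _ => mc a]
      refine lintegral_mono fun x => ?_
      show ‖star (Ψ k x) * R k x‖ₑ ≤ ∑ a, ‖Ψ k x‖ₑ * ce (Γk a ⊓ HU) (Zs Γ (hk a) (hk k) ∩ Bd a k) (fun γ => ‖Ψ a (γ • x)‖ₑ)
      rw [← Finset.mul_sum, enorm_mul, ← ofReal_norm (star _), norm_star, ofReal_norm, hR]
      refine mul_le_mul_right ?_ _
      exact (enorm_sum_le _ _).trans (Finset.sum_le_sum fun a _ => cs_norm ((fz a k x).subset fun c hc => ⟨hc.1.1, hc.2⟩))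
    rcases isEmpty_or_nonempty κ with hκ | hκ
    · refine h1.trans (le_of_eq ?_)
      rw [hd0]
      simp
    obtain ⟨k0⟩ := hκ
    refine h1.trans ?_
    rw [hd0]
    refine aw_schur (M k0).avg (fun a => (M a).sfD) (fun a => (M a).pD) (fun a => (M a).fD) hU (M k0).mS (M k0).hS hYz (Φ := fun a x => ‖Ψ a x‖ₑ) (fun a => (M a).mΨ.enorm)
      (fun a t x => ?_) (fun a x hx => ?_) hC.cnt hC.w0 hC.wt hC.hw
    · show ‖Ψ a (tr t x)‖ₑ = ‖Ψ a x‖ₑ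
      have h2 : ‖e t‖ₑ = 1 := by
        rw [← ofReal_norm, (M a).ne, ENNReal.ofReal_one]
      rw [(M a).eq, enorm_mul, h2, one_mul]
    · show ‖Ψ a x‖ₑ = 0
      rw [(M a).sΨ x hx, enorm_zero]
  have g2 : d ≤ ∫⁻ x in F₁, ‖P x‖ₑ * ‖h x‖ₑ ∂μ := by
    rw [← hds, ← s1]
    refine (enorm_integral_le_lintegral_enorm _).trans (lintegral_mono fun x => ?_)
    rw [enorm_mul, ← ofReal_norm (star _), norm_star, ofReal_norm]
  have e0 : ∀ x, star (P x) * P x = ((‖P x‖ ^ 2 : ℝ) : ℂ) := by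
    intro x
    rw [Complex.star_def, Complex.conj_mul']
    push_cast
    rfl
  have hPfin : ∫⁻ x in F₁, ‖P x‖ₑ ^ 2 ∂μ ≠ ⊤ := by
    have f1 : ∫⁻ x in F₁, ‖P x‖ₑ ^ 2 ∂μ ≤ ∫⁻ x in F₁, ∑ k, ‖star (E k ((hk k)⁻¹ • x)) * P x‖ₑ ∂μ := by
      refine lintegral_mono fun x => ?_
      have h1 : ‖P x‖ₑ ^ 2 = ‖∑ k, star (E k ((hk k)⁻¹ • x)) * P x‖ₑ := by
        rw [← Finset.sum_mul, ← star_sum]
        have h2 : ∑ k, E k ((hk k)⁻¹ • x) = P x := by rw [hP]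
        rw [h2, enorm_mul, ← ofReal_norm (star _), norm_star, ofReal_norm, sq]
      rw [h1]
      exact enorm_sum_le _ _
    have mk : ∀ k, Measurable fun x => ‖star (E k ((hk k)⁻¹ • x)) * P x‖ₑ := fun k =>
      ((continuous_star.measurable.comp ((mE k).comp (measurable_const_smul (hk k)⁻¹))).mul mP).enorm
    rw [lintegral_finset_sum _ fun k _ => mk k] at f1
    exact ne_top_of_le_ne_top (ENNReal.sum_lt_top.2 fun k _ => lt_top_iff_ne_top.2 (nt mP iP hKs (fun k x _ => bP _) k)).ne f1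
  have g4 : ∫⁻ x in F₁, ‖P x‖ₑ ^ 2 ∂μ ≤ (1 + B₀) * d := by
    rw [← b5_sq (μ.restrict F₁) mP hPfin, ← integral_congr_ae (Filter.Eventually.of_forall e0), s2]
    refine (enorm_add_le _ _).trans ?_
    rw [hds, add_mul, one_mul]
    exact add_le_add_right bad _
  have g3 := b5_csq (μ.restrict F₁) mP.enorm mh.enorm
  rw [← hd0]
  rcases eq_or_ne d 0 with hd1 | hd1
  · rw [hd1]
    exact zero_le
  have g5 : d * d ≤ d * ((1 + B₀) * ∫⁻ x in F₁, ‖h x‖ₑ ^ 2 ∂μ) := by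
    calc d * d = d ^ 2 := (sq d).symm
      _ ≤ (∫⁻ x in F₁, ‖P x‖ₑ * ‖h x‖ₑ ∂μ) ^ 2 := pow_le_pow_left' g2 2
      _ ≤ (∫⁻ x in F₁, ‖P x‖ₑ ^ 2 ∂μ) * ∫⁻ x in F₁, ‖h x‖ₑ ^ 2 ∂μ := g3
      _ ≤ ((1 + B₀) * d) * ∫⁻ x in F₁, ‖h x‖ₑ ^ 2 ∂μ := mul_le_mul_left g4 _
      _ = d * ((1 + B₀) * ∫⁻ x in F₁, ‖h x‖ₑ ^ 2 ∂μ) := by ring
  exact (ENNReal.mul_le_mul_iff_right hd1 hD0).1 g5

end main

end

end Pool.Agent.Lib.L1S
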