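import Pool.Agent.Lib.L1S.AW14

/-!
# AW15: the density inequality for a finite family of Hecke elements and Hecke eigenfunctions with few exceptional elements (version 3)
-/

namespace Pool.Agent.Lib.L1S

open MeasureTheory Pool.Agent.Lib.H33W Pool.Agent.Lib.H67G
open scoped ENNReal

noncomputable section

/-- **The density inequality for a family with few exceptional elements, form B.** As `l1_absA3`, and `Γ' i ∩ U ⊆ Γ ∩ U` of index `q i`, `β i l` the eigenvalue of `f l` for the operator `f ↦ ∑_{c ∈ (Γ' i ∩ U) \ (Γ ∩ U)} f(h_i c ·)`. -/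
theorem l1_abs3 {H G T κ : Type} [Group H] [Countable H] [Group G] [Group T] [TopologicalSpace G] [IsTopologicalGroup G] [SecondCountableTopology G] [MeasurableSpace G] [BorelSpace G]
    [TopologicalSpace T] [MeasurableSpace T] [MulAction H G] {HU : Subgroup H} [MulAction HU T] {emb : H →* G} {j : T →* G} {k : HU →* T} {μ : Measure G} {ν : Measure T}
    [IsFiniteMeasureOnCompacts μ] [SFinite μ] [SFinite ν] {ψ : T → ℂ} (hG : GD emb j k μ ν ψ) (cj : Continuous j) [Fintype κ]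
    {Γ Γ₁ : Subgroup H} {hk : κ → H} {Γ' Γ1 : κ → Subgroup H} (hΓ : ∀ i g, g ∈ Γ' i ↔ hk i * g * (hk i)⁻¹ ∈ Γ) (hΓ1 : ∀ i g, g ∈ Γ1 i ↔ hk i * g * (hk i)⁻¹ ∈ Γ₁)
    (hle : ∀ i, Γ' i ⊓ HU ≤ Γ) {D : Set T} (hD : SF (Γ.subgroupOf HU) D) (pD : ν D ≠ 0) (fD : ν D ≠ ⊤)
    {q : κ → ℕ} (hq : ∀ i, ((Γ' i).subgroupOf HU).relIndex (Γ.subgroupOf HU) = q i) (hq0 : ∀ i, q i ≠ 0) (one : ∀ h : HU, (h : H) ∈ Γ → ψ (k h) = 1)
    (hcc : ∀ i, ∃ KT : Set T, IsCompact KT ∧ ∀ t, ∃ δ : HU, (δ : H) ∈ Γ' i ∧ ∃ s ∈ KT, t = k δ * s) (hle1 : Γ₁ ≤ Γ) {c₁ : ℕ} (hc : Γ₁.relIndex Γ = c₁) (hc0 : c₁ ≠ 0)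
    {S Q K : Set G} (mS : MeasurableSet S) (hS : ∀ t x, j t * x ∈ S ↔ x ∈ S) (fq : ∀ i, FQ μ (Γ1 i) HU S Q)
    {D₁ : κ → Set T} (hD₁ : ∀ i, SF ((Γ1 i).subgroupOf HU) (D₁ i)) {Bd : κ → κ → Set H} {n : κ → κ → ℝ≥0∞} {w : κ → ℝ≥0∞} {B₀ : ℝ≥0∞}
    (hC : CntB ν (fun t x => j t * x) Γ₁ HU hk Γ1 D₁ S Bd n w B₀)
    (dich : ∀ a b γ, hk a * γ * (hk b)⁻¹ ∈ Γ₁ → γ ∉ Bd a b → (∃ y ∈ S, γ • y ∈ S) → (a = b ∧ γ ∈ HU) ∨ Dich2 (Γ1 a) (Γ1 b) HU (fun h => ψ (k h)) γ)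
    (hK : IsCompact K) (hQK : Q ⊆ K) {φ : G → ℂ} (cφ : Continuous φ) (sφ : HasCompactSupport φ) {x : G}
    (hA : {z | φ (x⁻¹ * z) ≠ 0} ⊆ S) {P : ℝ≥0∞} (hP : ∀ z, ν {s | j s⁻¹ * z ∈ {z | φ (x⁻¹ * z) ≠ 0}} ≤ P)
    {F : Set G} (hF : SF Γ F) {m : ℕ} {f : Fin m → G → ℂ} (hf : ∀ l, AF μ Γ F φ (f l))
    (ho : ∀ i l, ∫ x in F, star (f i x) * f l x ∂μ = if i = l then 1 else 0) {β : κ → Fin m → ℂ}
    (hβ : ∀ i l y, cs ((Γ' i).subgroupOf HU) ((Γ.subgroupOf HU : Subgroup HU) : Set HU) (fun c : HU => f l (hk i • ((c : H) • y))) = β i l * f l y) (a : κ → ℂ) :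
    ν D * ∑ l, ‖∑ i, a i * β i l‖ₑ ^ 2 * ‖Wm j ψ ν D (f l) x‖ₑ ^ 2 ≤ (1 + B₀) * (c₁ * P * (∫⁻ y, ‖φ y‖ₑ ^ 2 ∂μ)) * ∑ i, q i * ‖a i‖ₑ ^ 2 := by
  classical
  have hpres : ∀ g : H, MeasurePreserving (fun y : G => g • y) μ μ := fun g => by
    rw [show (fun y : G => g • y) = fun y => emb g * y from funext fun y => hG.act g y]
    exact hG.lm (emb g)
  have hpT : ∀ g : HU, MeasurePreserving (fun t : T => g • t) ν ν := fun g => by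
    rw [show (fun t : T => g • t) = fun t => k g * t from funext fun t => hG.actT g t]
    exact hG.lT (k g)
  have hleU : ∀ i, (Γ' i).subgroupOf HU ≤ Γ.subgroupOf HU := fun i u hu => hle i ⟨hu, u.2⟩
  choose D' hD' using fun i => an_sf (fun g => (hpT g).measurable) (hleU i) hD
  have vD' : ∀ i, ν (D' i) = q i * ν D := fun i => by
    rw [u2_vol hpT (hleU i) hD (hD' i), an_u2k (by rw [hq i]; exact hq0 i), hq i]
  have q0 : ∀ i, (q i : ℝ≥0∞) ≠ 0 := fun i => by exact_mod_cast hq0 i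
  have pD' : ∀ i, ν (D' i) ≠ 0 := fun i => by rw [vD']; exact mul_ne_zero (q0 i) pD
  have fD' : ∀ i, ν (D' i) ≠ ⊤ := fun i => by rw [vD']; exact ENNReal.mul_ne_top (ENNReal.natCast_ne_top (q i)) fD
  have one' : ∀ i, ∀ h : HU, (h : H) ∈ Γ' i → ψ (k h) = 1 := fun i h hh => one h (hle i ⟨hh, h.2⟩)
  have key := l1_absA3 hG cj hΓ hΓ1 hD' pD' fD' one' hcc hle1 hc hc0 mS hS fq hD₁ hC dich hK hQK cφ sφ hA hP hF hf ho (fun i => a i * q i)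
  have mf : ∀ l, Measurable (f l) := fun l => (hf l).cont.measurable
  have step : ∀ l i, (a i * q i) * Wm j ψ ν (D' i) (fun y => f l (hk i • y)) x = (a i * β i l) * Wm j ψ ν D (f l) x := by
    intro l i
    obtain ⟨B, hB⟩ := an14_bdd hG cj (hcc i) (g := fun y => f l (hk i • y)) (by
      have e : (fun y => f l (hk i • y)) = fun y => f l (emb (hk i) * y) := funext fun y => by
        rw [hG.act]
      rw [e]
      exact (hf l).cont.comp (continuous_const.mul continuous_id)) (fun γ hγ y => by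
        show f l (hk i • (γ • y)) = f l (hk i • y)
        have e : hk i • (γ • y) = (hk i * γ * (hk i)⁻¹) • (hk i • y) := by
          rw [← mul_smul, ← mul_smul, inv_mul_cancel_right]
        rw [e]
        exact (hf l).inv _ ((hΓ i γ).1 hγ) _) {x} isCompact_singleton
    have h1 := an_hecke hG (hle i) hD (hD' i) pD fD (hq i) (hq0 i) one (mf l) (hf l).inv (fun γ hγ => (hΓ i γ).1 hγ) (x := x) (B := B) (fun t => hB t x rfl) (hβ i l)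
    rw [mul_assoc, ← h1, mul_assoc]
  have e1 : ∀ l, ∑ i, (a i * q i) * Wm j ψ ν (D' i) (fun y => f l (hk i • y)) x = (∑ i, a i * β i l) * Wm j ψ ν D (f l) x := by
    intro l
    rw [Finset.sum_mul]
    exact Finset.sum_congr rfl fun i _ => step l i
  simp only [e1, enorm_mul, mul_pow] at key
  have e2 : ν D * ∑ i, ‖a i‖ₑ ^ 2 * ‖(q i : ℂ)‖ₑ ^ 2 / ν (D' i) = ∑ i, q i * ‖a i‖ₑ ^ 2 := by
    rw [Finset.mul_sum]
    refine Finset.sum_congr rfl fun i _ => ?_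
    have h6 : ‖(q i : ℂ)‖ₑ = (q i : ℝ≥0∞) := by
      rw [← ofReal_norm, Complex.norm_natCast, ENNReal.ofReal_natCast]
    have qt : (q i : ℝ≥0∞) ≠ ⊤ := ENNReal.natCast_ne_top (q i)
    rw [h6, vD', ENNReal.div_eq_inv_mul, ENNReal.mul_inv (Or.inl (q0 i)) (Or.inl qt)]
    calc ν D * ((q i : ℝ≥0∞)⁻¹ * (ν D)⁻¹ * (‖a i‖ₑ ^ 2 * (q i : ℝ≥0∞) ^ 2)) = (ν D * (ν D)⁻¹) * ((q i : ℝ≥0∞) * (q i : ℝ≥0∞)⁻¹) * (q i * ‖a i‖ₑ ^ 2) := by ring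
      _ = _ := by rw [ENNReal.mul_inv_cancel pD fD, ENNReal.mul_inv_cancel (q0 i) qt, one_mul, one_mul]
  calc ν D * ∑ l, ‖∑ i, a i * β i l‖ₑ ^ 2 * ‖Wm j ψ ν D (f l) x‖ₑ ^ 2 ≤ ν D * ((1 + B₀) * (c₁ * P * (∫⁻ y, ‖φ y‖ₑ ^ 2 ∂μ)) * ∑ i, ‖a i‖ₑ ^ 2 * ‖(q i : ℂ)‖ₑ ^ 2 / ν (D' i)) :=
        mul_le_mul_right key _
    _ = (1 + B₀) * (c₁ * P * (∫⁻ y, ‖φ y‖ₑ ^ 2 ∂μ)) * (ν D * ∑ i, ‖a i‖ₑ ^ 2 * ‖(q i : ℂ)‖ₑ ^ 2 / ν (D' i)) := by ring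
    _ = _ := by rw [e2]

end

end Pool.Agent.Lib.L1S
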