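import Pool.Agent.Lib.L1S.AV7
import Pool.Agent.Lib.L1S.AW1

/-!
# AW6: the mean of the sum of the Poincare series without the exceptional elements (version 3)
-/

namespace Pool.Agent.Lib.L1S

open MeasureTheory Pool.Agent.Lib.H33W Pool.Agent.Lib.H67G
open scoped ENNReal

noncomputable section

theorem aw_csmul {H : Type} [Group H] {U₀ : Subgroup H} {Z : Set H} (c : ℂ) (b : H → ℂ) : c * cs U₀ Z b = cs U₀ Z (fun g => c * b g) := by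
  classical
  unfold cs
  rw [← smul_eq_mul, smul_finsum]
  refine finsum_congr fun q => ?_
  by_cases h : (Quotient.out q)⁻¹ ∈ Z
  · rw [if_pos h, if_pos h, smul_eq_mul]
  · rw [if_neg h, if_neg h, smul_zero]

/-- The data for a smaller set of elements. -/
theorem aw_md2sub {H X T : Type} [Group H] [MulAction H X] [MeasurableSpace X] [MeasurableSpace T] {μ : Measure X} {ν : Measure T} {tr : T → X → X} {ι : T → T}
    {Γa Γb HU : Subgroup H} [MulAction HU T] {D : Set T} {e : T → ℂ} {χ : HU → ℂ} {S : Set X} {Ψ : X → ℂ} {Z Z' : Set H} (M : MD2 μ ν tr ι Γa Γb HU D e χ S Ψ Z)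
    (hZ : Z' ⊆ Z) (zl : ∀ u ∈ Γa ⊓ HU, ∀ g, u * g ∈ Z' ↔ g ∈ Z') (zr : ∀ u ∈ Γb ⊓ HU, ∀ g, g * u ∈ Z' ↔ g ∈ Z') : MD2 μ ν tr ι Γa Γb HU D e χ S Ψ Z' :=
  { M with
    zl := zl
    zr := zr
    fs := by
      obtain ⟨N, hN⟩ := M.fs
      refine ⟨N, fun x => le_trans (Set.encard_le_encard ?_) (hN x)⟩
      rintro c ⟨h1, h2⟩
      exact ⟨hZ h1, h2⟩ }

theorem aw_iffd {H : Type} {A B : Set H} {x y : H} (h1 : x ∈ A ↔ y ∈ A) (h2 : x ∈ B ↔ y ∈ B) : x ∈ A \ B ↔ y ∈ A \ B :=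
  ⟨fun h => ⟨h1.1 h.1, fun h3 => h.2 (h2.2 h3)⟩, fun h => ⟨h1.2 h.1, fun h3 => h.2 (h2.1 h3)⟩⟩

section fam

variable {H X T κ : Type} [Group H] [MulAction H X] [MeasurableSpace X] [MeasurableSpace T] {μ : Measure X} {ν : Measure T}
  {tr : T → X → X} {ι : T → T} {Γ HU : Subgroup H} [MulAction HU T] {hk : κ → H} {Γk : κ → Subgroup H} {D : κ → Set T} {e : T → ℂ} {χ : HU → ℂ} {S : Set X} {Ψ : κ → X → ℂ}
  {Bd : κ → κ → Set H}

theorem aw_zsi (a b : H) (g : H) : g ∈ Zs Γ a b ↔ g⁻¹ ∈ Zs Γ b a := by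
  have e : b * g⁻¹ * a⁻¹ = (a * g * b⁻¹)⁻¹ := by group
  show a * g * b⁻¹ ∈ Γ ↔ b * g⁻¹ * a⁻¹ ∈ Γ
  rw [e, inv_mem_iff]

/-- The exceptional elements which occur. -/
theorem aw_badz (hΓ : ∀ k g, g ∈ Γk k ↔ hk k * g * (hk k)⁻¹ ∈ Γ) (hY : BadS Γk HU Bd) : BadS Γk HU (fun a b => Zs Γ (hk a) (hk b) ∩ Bd a b) where
  yl := fun a b u hu g => by
    rw [Set.mem_inter_iff, Set.mem_inter_iff, zs_l hΓ a b u hu.1, hY.yl a b u hu]
  yi := fun a b g => by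
    rw [Set.mem_inter_iff, Set.mem_inter_iff, aw_zsi, hY.yi a b]

theorem aw_gl (hΓ : ∀ k g, g ∈ Γk k ↔ hk k * g * (hk k)⁻¹ ∈ Γ) (hY : BadS Γk HU Bd) (a b : κ) :
    ∀ u ∈ Γk a ⊓ HU, ∀ g, u * g ∈ Zs Γ (hk a) (hk b) \ Bd a b ↔ g ∈ Zs Γ (hk a) (hk b) \ Bd a b :=
  fun u hu g => aw_iffd (zs_l hΓ a b u hu.1 g) (hY.yl a b u hu g)

theorem aw_gr (hΓ : ∀ k g, g ∈ Γk k ↔ hk k * g * (hk k)⁻¹ ∈ Γ) (hY : BadS Γk HU Bd) (a b : κ) :
    ∀ u ∈ Γk b ⊓ HU, ∀ g, g * u ∈ Zs Γ (hk a) (hk b) \ Bd a b ↔ g ∈ Zs Γ (hk a) (hk b) \ Bd a b :=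
  fun u hu g => aw_iffd (zs_r hΓ a b u hu.1 g) (hY.yr a b u hu g)

end fam

section main

variable {H X T κ : Type} [Group H] [Countable H] [MulAction H X] [MeasurableSpace X] [MeasurableSpace T] [MeasurableConstSMul H X] {μ : Measure X} {ν : Measure T}
  {tr : T → X → X} {ι : T → T} {Γ HU : Subgroup H} [MulAction HU T] [Fintype κ] {hk : κ → H} {Γk : κ → Subgroup H} {D : κ → Set T} {e : T → ℂ} {χ : HU → ℂ} {S : Set X} {Ψ : κ → X → ℂ}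
  {Bd : κ → κ → Set H}

/-- The mean of the part of the sum of the Poincare series which belongs to the elements which are not exceptional. -/
theorem aw_mean (hΓ : ∀ k g, g ∈ Γk k ↔ hk k * g * (hk k)⁻¹ ∈ Γ) (M : ∀ k, MD μ ν tr ι (Γk k) HU (D k) e χ S (Ψ k)) (hY : BadS Γk HU Bd)
    (hb : ∀ k, ∀ γ ∈ Bd k k, γ ∉ HU)
    (hd : ∀ a b γ, hk a * γ * (hk b)⁻¹ ∈ Γ → γ ∉ Bd a b → (∃ y ∈ S, γ • y ∈ S) → (a = b ∧ γ ∈ HU) ∨ Dich2 (Γk a) (Γk b) HU χ γ) (k : κ) {x : X} (hx : x ∈ S) :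
    ⨍ t in D k, star (e t) * ∑ a, cs (Γk a ⊓ HU) (Zs Γ (hk a) (hk k) \ Bd a k) (fun γ => Ψ a (γ • tr t x)) ∂ν = Ψ k x := by
  classical
  have fk : IsFiniteMeasure (ν.restrict (D k)) := ⟨by rw [Measure.restrict_apply_univ]; exact lt_top_iff_ne_top.2 (M k).fD⟩
  have M2 : ∀ a, MD2 μ ν tr ι (Γk a) (Γk k) HU (D k) e χ S (Ψ a) (Zs Γ (hk a) (hk k) \ Bd a k) := fun a =>
    aw_md2sub (av7_md2 hΓ M a k) (fun g hg => hg.1) (aw_gl hΓ hY a k) (aw_gr hΓ hY a k)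
  have h4 : ∀ t : T, star (e t) * ∑ a, cs (Γk a ⊓ HU) (Zs Γ (hk a) (hk k) \ Bd a k) (fun γ => Ψ a (γ • tr t x)) =
      ∑ a, cs (Γk a ⊓ HU) (Zs Γ (hk a) (hk k) \ Bd a k) (fun γ => star (e t) * Ψ a (γ • tr t x)) := by
    intro t
    rw [Finset.mul_sum]
    refine Finset.sum_congr rfl fun a _ => ?_
    rw [aw_csmul]
  simp only [h4]
  have hkk : ∀ g, g ∈ ((Γk k ⊓ HU : Subgroup H) : Set H) → g ∈ Zs Γ (hk k) (hk k) \ Bd k k := fun g hg =>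
    ⟨(hΓ k g).1 hg.1, fun h => hb k g h hg.2⟩
  have hL : LInv (Γk k ⊓ HU) ((Γk k ⊓ HU : Subgroup H) : Set H) := fun u hu g => (Γk k ⊓ HU).mul_mem_cancel_left hu
  have M3 : MD2 μ ν tr ι (Γk k) (Γk k) HU (D k) e χ S (Ψ k) ((Zs Γ (hk k) (hk k) \ Bd k k) \ ((Γk k ⊓ HU : Subgroup H) : Set H)) :=
    aw_md2sub (M2 k) (fun g hg => hg.1) (fun u hu g => aw_iffd (aw_gl hΓ hY k k u hu g) ((Γk k ⊓ HU).mul_mem_cancel_left hu))
      (fun u hu g => aw_iffd (aw_gr hΓ hY k k u hu g) ((Γk k ⊓ HU).mul_mem_cancel_right hu))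
  rw [setAverage_eq, integral_finset_sum _ fun a _ => av6_int (M2 a) x, Finset.sum_eq_single k]
  · obtain ⟨N, hN⟩ := (M2 k).fs
    have hf : ∀ t : T, {c : H ⧸ (Γk k ⊓ HU) | (Quotient.out c)⁻¹ ∈ Zs Γ (hk k) (hk k) \ Bd k k ∧ star (e t) * Ψ k ((Quotient.out c)⁻¹ • tr t x) ≠ 0}.Finite := by
      intro t
      refine (Set.finite_of_encard_le_coe (hN (tr t x))).subset ?_
      rintro c ⟨h1, h2⟩
      exact ⟨h1, right_ne_zero_of_mul h2⟩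
    have h5 : ∀ t : T, cs (Γk k ⊓ HU) (Zs Γ (hk k) (hk k) \ Bd k k) (fun γ => star (e t) * Ψ k (γ • tr t x)) =
        Ψ k x + cs (Γk k ⊓ HU) ((Zs Γ (hk k) (hk k) \ Bd k k) \ ((Γk k ⊓ HU : Subgroup H) : Set H)) (fun γ => star (e t) * Ψ k (γ • tr t x)) := by
      intro t
      rw [cs_mono hkk hL (aw_gl hΓ hY k k) (hf t), cs_self (U₀ := Γk k ⊓ HU) (b := fun g => star (e t) * Ψ k (g • tr t x))]
      · rw [one_smul, (M k).eq, ← mul_assoc, (M k).conj_e, one_mul]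
      · intro u hu g
        rw [mul_smul, (M k).inv hu]
    have h6 : ∫ t in D k, cs (Γk k ⊓ HU) (Zs Γ (hk k) (hk k) \ Bd k k) (fun γ => star (e t) * Ψ k (γ • tr t x)) ∂ν =
        ∫ _t in D k, Ψ k x ∂ν := by
      simp only [h5]
      rw [integral_add (integrable_const _) (av6_int M3 x), av6_zero M3 (fun γ hγ hy => ?_) hx, add_zero]
      rcases hd k k γ hγ.1.1 hγ.1.2 hy with h7 | h7
      · exact absurd (show γ ∈ ((Γk k ⊓ HU : Subgroup H) : Set H) from ⟨(hΓ k γ).2 hγ.1.1, h7.2⟩) hγ.2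
      · exact h7
    rw [h6, ← setAverage_eq]
    rw [setAverage_const (M k).pD (M k).fD]
  · intro a _ ha
    refine av6_zero (M2 a) (fun γ hγ hy => ?_) hx
    rcases hd a k γ hγ.1 hγ.2 hy with h7 | h7
    · exact absurd h7.1 ha
    · exact h7
  · intro h
    exact absurd (Finset.mem_univ k) h

end main

end

end Pool.Agent.Lib.L1S
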