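import Pool.Agent.Lib.L1S.AW14

/-!
# AX10: the functional at a point, with the convolution integral instead of the volume (version 4)
-/

namespace Pool.Agent.Lib.L1S

open MeasureTheory Pool.Agent.Lib.H33W Pool.Agent.Lib.H67G
open scoped ENNReal

noncomputable section

/-- The integral `∫_U ∫_G |φ(x⁻¹ z)| |φ(x⁻¹ u z)| dz du`. -/
def Jf {G T : Type} [Group G] [Group T] [MeasurableSpace G] [MeasurableSpace T] (j : T →* G) (μ : Measure G) (ν : Measure T) (φ : G → ℂ) (x : G) : ℝ≥0∞ :=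
  ∫⁻ t, ∫⁻ z, ‖φ (x⁻¹ * z)‖ₑ * ‖φ (x⁻¹ * (j t * z))‖ₑ ∂μ ∂ν

/-- PROOF. `Φ = |Wm| 1_S`, `SK(z) = ∫_T K(s⁻¹ z) ds`, both invariant under `T`: `ν(D) ∫_G K Φ = ∫_{F_U} Φ SK` and `ν(D) ∫_G K SK = ∫_{F_U} SK²` (`avu_gen`), Cauchy-Schwarz. -/
theorem ax_J {H G T : Type} [Group H] [Countable H] [Group G] [Group T] [TopologicalSpace G] [MeasurableSpace G] [MeasurableSpace T] [MulAction H G] {HU : Subgroup H} [MulAction HU T]
    {emb : H →* G} {j : T →* G} {k : HU →* T} {μ : Measure G} {ν : Measure T} [SFinite μ] [SFinite ν] {ψ : T → ℂ} (hG : GD emb j k μ ν ψ)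
    {Γ : Subgroup H} {D : Set T} {S Q : Set G} (hS : SD0 j k μ ν ψ Γ D S Q) {F_U : Set G} (hU : SF (Γ ⊓ HU) F_U)
    {h : G → ℂ} (mh : Measurable h) (ih : ∀ γ ∈ Γ, ∀ x, h (γ • x) = h x) {K : G → ℝ≥0∞} (mK : Measurable K) (hK : ∀ z, z ∉ S → K z = 0) :
    ν D * (∫⁻ z, K z * ‖Wm j ψ ν D h z‖ₑ ∂μ) ^ 2 ≤ (∫⁻ t, ∫⁻ z, K z * K (j t * z) ∂μ ∂ν) * ∫⁻ x in F_U ∩ S, ‖Wm j ψ ν D h x‖ₑ ^ 2 ∂μ := by
  have i1 : MeasurableConstSMul HU G := ⟨fun c => (an10_fun hG (c : H)).measurable⟩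
  have i2 : SMulInvariantMeasure HU G μ :=
    ⟨fun c s hs => (an10_fun hG (c : H)).measure_preimage hs.nullMeasurableSet⟩
  have hA := gd_avg hG
  have hsf : SF (Γ.subgroupOf HU) F_U := gd_sub.1 hU
  have mΨ : Measurable (an10_psi j ψ ν D S h) := (wm_meas hG mh).indicator hS.mS
  obtain ⟨Φ, hΦ⟩ : ∃ Φ : G → ℝ≥0∞, Φ = fun x => ‖an10_psi j ψ ν D S h x‖ₑ := ⟨_, rfl⟩
  have mΦ : Measurable Φ := by rw [hΦ]; exact mΨ.enorm
  have uΦ : ∀ t x, Φ (j t * x) = Φ x := by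
    intro t x
    rw [hΦ]
    show ‖an10_psi j ψ ν D S h (j t * x)‖ₑ = ‖an10_psi j ψ ν D S h x‖ₑ
    rw [aw10_eq hG hS mh ih, enorm_mul]
    have h1 : ‖ψ t‖ₑ = 1 := by
      rw [← ofReal_norm, hG.nψ, ENNReal.ofReal_one]
    rw [h1, one_mul]
  have act : ∀ (γ : HU) (x : G), (γ • x : G) = j (k γ) * x := by
    intro γ x
    have h2 : (γ • x : G) = (γ : H) • x := rfl
    rw [h2, hG.act, hG.jk]
  -- the integral over `T`
  obtain ⟨SK, hSK⟩ : ∃ SK : G → ℝ≥0∞, SK = fun z => ∫⁻ s, K (j s⁻¹ * z) ∂ν := ⟨_, rfl⟩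
  have mp : Measurable fun p : T × G => K (j p.1⁻¹ * p.2) :=
    mK.comp (hG.mj.comp ((hG.iT.measurable.comp measurable_fst).prodMk measurable_snd))
  have mSK : Measurable SK := by
    rw [hSK]
    exact mp.lintegral_prod_left'
  have uSK : ∀ t x, SK (j t * x) = SK x := by
    intro t x
    rw [hSK]
    show ∫⁻ s, K (j s⁻¹ * (j t * x)) ∂ν = ∫⁻ s, K (j s⁻¹ * x) ∂ν
    have m1 : Measurable fun s : T => K (j s⁻¹ * (j t * x)) := mp.comp (measurable_id.prodMk measurable_const)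
    rw [← (hG.lT t).lintegral_comp m1]
    refine lintegral_congr fun s => ?_
    rw [mul_inv_rev, map_mul, map_inv j t, mul_assoc, inv_mul_cancel_left]
  have g1 : ∀ {φ : G → ℝ≥0∞}, Measurable φ → (∀ t x, φ (j t * x) = φ x) → ν D * ∫⁻ z, K z * φ z ∂μ = ∫⁻ y in F_U, φ y * SK y ∂μ := by
    intro φ mφ uφ
    have h1 := avu_gen hA hS.sfD hsf mφ mK (fun γ _ x => by rw [act, uφ])
    have h2 : ∀ t, ∫⁻ x, K x * φ (j t * x) ∂μ = ∫⁻ z, K z * φ z ∂μ := fun t => lintegral_congr fun x => by rw [uφ]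
    rw [lintegral_congr h2, lintegral_const, Measure.restrict_apply_univ, mul_comm] at h1
    rw [h1, hSK]
  have e1 := g1 mΦ uΦ
  have e2 := g1 mSK uSK
  have e3 : ∫⁻ z, K z * SK z ∂μ = ∫⁻ t, ∫⁻ z, K z * K (j t * z) ∂μ ∂ν := by
    have m2 : Measurable fun p : G × T => K p.1 * K (j p.2 * p.1) :=
      (mK.comp measurable_fst).mul (mK.comp (hG.mj.comp (measurable_snd.prodMk measurable_fst)))
    rw [← lintegral_lintegral_swap m2.aemeasurable]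
    refine lintegral_congr fun z => ?_
    have m3 : Measurable fun t : T => K (j t * z) := mK.comp (hG.mj.comp (measurable_id.prodMk measurable_const))
    rw [lintegral_const_mul _ m3, ← hG.iT.lintegral_comp m3, hSK]
  have e4 : ∫⁻ z, K z * ‖Wm j ψ ν D h z‖ₑ ∂μ = ∫⁻ z, K z * Φ z ∂μ := by
    refine lintegral_congr fun z => ?_
    rw [hΦ]
    by_cases hz : z ∈ S
    · show _ = K z * ‖an10_psi j ψ ν D S h z‖ₑ
      rw [an10_psi, Set.indicator_of_mem hz]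
    · rw [hK z hz, zero_mul, zero_mul]
  have e5 : ∫⁻ x in F_U ∩ S, ‖Wm j ψ ν D h x‖ₑ ^ 2 ∂μ = ∫⁻ x in F_U, Φ x ^ 2 ∂μ := by
    have e6 : ∀ x, Φ x ^ 2 = S.indicator (fun x => ‖Wm j ψ ν D h x‖ₑ ^ 2) x := by
      intro x
      rw [hΦ]
      show ‖an10_psi j ψ ν D S h x‖ₑ ^ 2 = _
      by_cases hx : x ∈ S
      · rw [an10_psi, Set.indicator_of_mem hx, Set.indicator_of_mem hx]
      · rw [an10_psi, Set.indicator_of_notMem hx, Set.indicator_of_notMem hx, enorm_zero]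
        simp
    rw [lintegral_congr e6, lintegral_indicator hS.mS, Measure.restrict_restrict hS.mS, Set.inter_comm]
  have key := b5_csq (μ.restrict F_U) mΦ mSK
  have e7 : ∫⁻ y in F_U, SK y ^ 2 ∂μ = ν D * ∫⁻ t, ∫⁻ z, K z * K (j t * z) ∂μ ∂ν := by
    rw [← e3, e2]
    refine lintegral_congr fun y => ?_
    rw [sq]
  rw [e4, e5]
  rw [← e1, e7] at key
  have h3 : ν D * (ν D * (∫⁻ z, K z * Φ z ∂μ) ^ 2) ≤ ν D * ((∫⁻ t, ∫⁻ z, K z * K (j t * z) ∂μ ∂ν) * ∫⁻ x in F_U, Φ x ^ 2 ∂μ) := by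
    calc ν D * (ν D * (∫⁻ z, K z * Φ z ∂μ) ^ 2) = (ν D * ∫⁻ z, K z * Φ z ∂μ) ^ 2 := by ring
      _ ≤ (∫⁻ x in F_U, Φ x ^ 2 ∂μ) * (ν D * ∫⁻ t, ∫⁻ z, K z * K (j t * z) ∂μ ∂ν) := key
      _ = _ := by ring
  exact (ENNReal.mul_le_mul_iff_right hS.pD hS.fD).1 h3

/-- The functional. -/
theorem ax_func {H G T : Type} [Group H] [Group G] [Group T] [TopologicalSpace G] [MeasurableSpace G] [MeasurableSpace T] [MulAction H G] {HU : Subgroup H} [MulAction HU T]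
    {emb : H →* G} {j : T →* G} {k : HU →* T} {μ : Measure G} {ν : Measure T} {ψ : T → ℂ} (hG : GD emb j k μ ν ψ) {φ W : G → ℂ} (mφ : Measurable φ) (mW : Measurable W) (x : G) :
    ‖∫ y, W (x * y) * φ y ∂μ‖ₑ ≤ ∫⁻ z, ‖φ (x⁻¹ * z)‖ₑ * ‖W z‖ₑ ∂μ := by
  refine (enorm_integral_le_lintegral_enorm _).trans ?_
  have m1 : Measurable fun z => ‖φ (x⁻¹ * z)‖ₑ * ‖W z‖ₑ := (mφ.comp (hG.lm x⁻¹).measurable).enorm.mul mW.enorm
  rw [← (hG.lm x).lintegral_comp m1]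
  refine lintegral_mono fun y => ?_
  rw [inv_mul_cancel_left, enorm_mul, mul_comm]

end

end Pool.Agent.Lib.L1S
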