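import Pool.Agent.Lib.L1S.AX10

/-!
# AX14: the density inequality for a finite family of Hecke elements with few exceptional elements, with the convolution integral (version 4)
-/

namespace Pool.Agent.Lib.L1S

open MeasureTheory Pool.Agent.Lib.H33W Pool.Agent.Lib.H67G
open scoped ENNReal

noncomputable section

/-- As `AF`, with an arbitrary eigenvalue `c` for the convolution operator of `φ`. -/
structure AFe {H G : Type} [Group H] [Group G] [TopologicalSpace G] [MeasurableSpace G] [MulAction H G] (μ : Measure G) (Γ : Subgroup H) (F : Set G)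
    (φ : G → ℂ) (c : ℂ) (f : G → ℂ) : Prop where
  cont : Continuous f
  inv : ∀ γ ∈ Γ, ∀ x, f (γ • x) = f x
  l2 : MemLp f 2 (μ.restrict F)
  eig : ∀ x, ∫ y, f (x * y) * φ y ∂μ = c * f x

/-- **The density inequality for a family with few exceptional elements, form A.** `D₁ i` a fundamental domain of `Γ1 i ∩ U`, `Bd` the exceptional elements. `Γ' i = h_i⁻¹ Γ h_i`, `Γ1 i = h_i⁻¹ Γ₁ h_i` with `Γ₁` of index `c₁` in `Γ`, `D' i` a fundamental domain of `Γ' i ∩ U`. The dichotomy is needed for the elements `γ` with `h_a γ h_b⁻¹ ∈ Γ₁`. -/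
theorem l1_absA4 {H G T κ : Type} [Group H] [Countable H] [Group G] [Group T] [TopologicalSpace G] [IsTopologicalGroup G] [SecondCountableTopology G] [MeasurableSpace G] [BorelSpace G]
    [TopologicalSpace T] [MeasurableSpace T] [MulAction H G] {HU : Subgroup H} [MulAction HU T] {emb : H →* G} {j : T →* G} {k : HU →* T} {μ : Measure G} {ν : Measure T}
    [IsFiniteMeasureOnCompacts μ] [SFinite μ] [SFinite ν] {ψ : T → ℂ} (hG : GD emb j k μ ν ψ) (cj : Continuous j) [Fintype κ]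
    {Γ Γ₁ : Subgroup H} {hk : κ → H} {Γ' Γ1 : κ → Subgroup H} (hΓ : ∀ i g, g ∈ Γ' i ↔ hk i * g * (hk i)⁻¹ ∈ Γ) (hΓ1 : ∀ i g, g ∈ Γ1 i ↔ hk i * g * (hk i)⁻¹ ∈ Γ₁)
    {D' : κ → Set T} (hD' : ∀ i, SF ((Γ' i).subgroupOf HU) (D' i)) (pD' : ∀ i, ν (D' i) ≠ 0) (fD' : ∀ i, ν (D' i) ≠ ⊤) (one' : ∀ i, ∀ h : HU, (h : H) ∈ Γ' i → ψ (k h) = 1)
    (hcc : ∀ i, ∃ KT : Set T, IsCompact KT ∧ ∀ t, ∃ δ : HU, (δ : H) ∈ Γ' i ∧ ∃ s ∈ KT, t = k δ * s) (hle1 : Γ₁ ≤ Γ) {c₁ : ℕ} (hc : Γ₁.relIndex Γ = c₁) (hc0 : c₁ ≠ 0)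
    {S Q K : Set G} (mS : MeasurableSet S) (hS : ∀ t x, j t * x ∈ S ↔ x ∈ S) (fq : ∀ i, FQ μ (Γ1 i) HU S Q)
    {D₁ : κ → Set T} (hD₁ : ∀ i, SF ((Γ1 i).subgroupOf HU) (D₁ i)) {Bd : κ → κ → Set H} {n : κ → κ → ℝ≥0∞} {w : κ → ℝ≥0∞} {B₀ : ℝ≥0∞}
    (hC : CntB ν (fun t x => j t * x) Γ₁ HU hk Γ1 D₁ S Bd n w B₀)
    (dich : ∀ a b γ, hk a * γ * (hk b)⁻¹ ∈ Γ₁ → γ ∉ Bd a b → (∃ y ∈ S, γ • y ∈ S) → (a = b ∧ γ ∈ HU) ∨ Dich2 (Γ1 a) (Γ1 b) HU (fun h => ψ (k h)) γ)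
    (hK : IsCompact K) (hQK : Q ⊆ K) {φ : G → ℂ} (cφ : Continuous φ) (sφ : HasCompactSupport φ) {x : G}
    (hA : {z | φ (x⁻¹ * z) ≠ 0} ⊆ S)
    {F : Set G} (hF : SF Γ F) {m : ℕ} {lam : Fin m → ℂ} {f : Fin m → G → ℂ} (hf : ∀ l, AFe μ Γ F φ (lam l) (f l))
    (ho : ∀ i l, ∫ x in F, star (f i x) * f l x ∂μ = if i = l then 1 else 0) (a : κ → ℂ) :
    ∑ l, ‖lam l‖ₑ ^ 2 * ‖∑ i, a i * Wm j ψ ν (D' i) (fun y => f l (hk i • y)) x‖ₑ ^ 2 ≤ (1 + B₀) * (c₁ * Jf j μ ν φ x) * ∑ i, ‖a i‖ₑ ^ 2 / ν (D' i) := by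
  classical
  -- instances
  have hpres : ∀ g : H, MeasurePreserving (fun y : G => g • y) μ μ := fun g => by
    rw [show (fun y : G => g • y) = fun y => emb g * y from funext fun y => hG.act g y]
    exact hG.lm (emb g)
  have i1 : MeasurableConstSMul H G := ⟨fun g => (hpres g).measurable⟩
  have i2 : SMulInvariantMeasure H G μ := ⟨fun g s hs => (hpres g).measure_preimage hs.nullMeasurableSet⟩
  have hpT : ∀ g : HU, MeasurePreserving (fun t : T => g • t) ν ν := fun g => by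
    rw [show (fun t : T => g • t) = fun t => k g * t from funext fun t => hG.actT g t]
    exact hG.lT (k g)
  -- subgroups
  have hle1' : ∀ i, Γ1 i ≤ Γ' i := fun i g hg => (hΓ i g).2 (hle1 ((hΓ1 i g).1 hg))
  have hidx : ∀ i, (Γ1 i).relIndex (Γ' i) ≠ 0 := by
    intro i
    have e1 : Γ' i = Γ.map (MulAut.conj (hk i)⁻¹).toMonoidHom := by
      ext g
      rw [hΓ i g, Subgroup.mem_map]
      constructor
      · intro h
        refine ⟨_, h, ?_⟩
        show (hk i)⁻¹ * (hk i * g * (hk i)⁻¹) * ((hk i)⁻¹)⁻¹ = g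
        group
      · rintro ⟨y, hy, rfl⟩
        show hk i * ((hk i)⁻¹ * y * ((hk i)⁻¹)⁻¹) * (hk i)⁻¹ ∈ Γ
        have e : hk i * ((hk i)⁻¹ * y * ((hk i)⁻¹)⁻¹) * (hk i)⁻¹ = y := by group
        rw [e]
        exact hy
    have e2 : Γ1 i = Γ₁.map (MulAut.conj (hk i)⁻¹).toMonoidHom := by
      ext g
      rw [hΓ1 i g, Subgroup.mem_map]
      constructor
      · intro h
        refine ⟨_, h, ?_⟩
        show (hk i)⁻¹ * (hk i * g * (hk i)⁻¹) * ((hk i)⁻¹)⁻¹ = g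
        group
      · rintro ⟨y, hy, rfl⟩
        show hk i * ((hk i)⁻¹ * y * ((hk i)⁻¹)⁻¹) * (hk i)⁻¹ ∈ Γ₁
        have e : hk i * ((hk i)⁻¹ * y * ((hk i)⁻¹)⁻¹) * (hk i)⁻¹ = y := by group
        rw [e]
        exact hy
    rw [e1, e2, Subgroup.relIndex_map_map_of_injective _ _ (MulAut.conj (hk i)⁻¹).injective, hc]
    exact hc0
  -- fundamental domains
  obtain ⟨F₁, hF₁⟩ := an_sf (fun g => (hpres g).measurable) hle1 hF
  have hF1k : ∀ i, SF (Γ1 i) {y | hk i • y ∈ F₁} := fun i => tr_sf (hΓ1 i) hF₁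
  choose F_U hFU using fun i => an_sf (fun g => (hpres g).measurable) (inf_le_left : Γ1 i ⊓ HU ≤ Γ1 i) (hF1k i)
  have v1 : ∀ i, ν (D' i) ≤ ν (D₁ i) := fun i => (vol_sub hG (hle1' i) (hidx i) (hD' i) (hD₁ i) (fD' i)).1
  have fD₁ : ∀ i, ν (D₁ i) ≠ ⊤ := fun i => (vol_sub hG (hle1' i) (hidx i) (hD' i) (hD₁ i) (fD' i)).2
  have pD₁ : ∀ i, ν (D₁ i) ≠ 0 := fun i h => pD' i (le_antisymm (h ▸ v1 i) bot_le)
  have one1 : ∀ i, ∀ h : HU, (h : H) ∈ Γ1 i → ψ (k h) = 1 := fun i h hh => one' i h (hle1' i hh)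
  have hSD : SDB j k μ ν ψ Γ₁ hk Γ1 D₁ S Q Bd n w B₀ :=
    ⟨hΓ1, fun i => ⟨hD₁ i, pD₁ i, fD₁ i, one1 i, mS, hS, fq i⟩, hC, dich⟩
  -- the functions
  have mf : ∀ l, Measurable (f l) := fun l => (hf l).cont.measurable
  obtain ⟨g, hg⟩ : ∃ g : κ → Fin m → G → ℂ, g = fun i l y => f l (hk i • y) := ⟨_, rfl⟩
  have hg' : ∀ i l y, g i l y = f l (hk i • y) := fun i l y => by rw [hg]
  have mg : ∀ i l, Measurable (g i l) := fun i l => by
    rw [hg]
    exact (mf l).comp (hpres (hk i)).measurable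
  have ig : ∀ i l, ∀ γ ∈ Γ' i, ∀ y, g i l (γ • y) = g i l y := fun i l γ hγ y => by
    rw [hg', hg']
    have e : hk i • (γ • y) = (hk i * γ * (hk i)⁻¹) • (hk i • y) := by
      rw [← mul_smul, ← mul_smul, inv_mul_cancel_right]
    rw [e]
    exact (hf l).inv _ ((hΓ i γ).1 hγ) _
  have cg : ∀ i l, Continuous (g i l) := fun i l => by
    have e : g i l = fun y => f l (emb (hk i) * y) := funext fun y => by
      rw [hg', hG.act]
    rw [e]
    exact (hf l).cont.comp (continuous_const.mul continuous_id)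
  have bg : ∀ i l, ∀ K' : Set G, IsCompact K' → ∃ B : ℝ, ∀ t : T, ∀ y ∈ K', ‖g i l (j t * y)‖ ≤ B := fun i l =>
    an14_bdd hG cj (hcc i) (cg i l) (ig i l)
  have bg1 : ∀ i l y, ∃ B : ℝ, ∀ t, ‖g i l (j t * y)‖ ≤ B := fun i l y => by
    obtain ⟨B, hB⟩ := bg i l {y} isCompact_singleton
    exact ⟨B, fun t => hB t y rfl⟩
  -- the functionals
  obtain ⟨b, hb⟩ : ∃ b : κ → Fin m → ℂ, b = fun i l => ∫ y, Wm j ψ ν (D' i) (g i l) (x * y) * φ y ∂μ := ⟨_, rfl⟩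
  have iφ : Integrable φ μ := cφ.integrable_of_hasCompactSupport sφ
  have hint : ∀ i l, Integrable (fun y => Wm j ψ ν (D' i) (g i l) (x * y) * φ y) μ := fun i l => by
    obtain ⟨B, hB⟩ := bg i l ((fun y => x * y) '' tsupport φ) (sφ.isCompact.image (continuous_const.mul continuous_id))
    have mW : Measurable fun y => Wm j ψ ν (D' i) (g i l) (x * y) := (wm_meas hG (mg i l)).comp (hG.lm x).measurable
    refine Integrable.mono' (iφ.norm.const_mul |B|) ((mW.mul cφ.measurable).aestronglyMeasurable)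
      (Filter.Eventually.of_forall fun y => ?_)
    by_cases hy : y ∈ tsupport φ
    · rw [norm_mul]
      refine mul_le_mul_of_nonneg_right ?_ (norm_nonneg _)
      exact wm_bdd hG (abs_nonneg B) fun t => (hB t _ ⟨y, hy, rfl⟩).trans (le_abs_self B)
    · rw [image_eq_zero_of_notMem_tsupport hy]
      simp
  have hlin : ∀ i, ∀ c : Fin m → ℂ, ∫ y, Wm j ψ ν (D' i) (fun z => ∑ l, c l * g i l z) (x * y) * φ y ∂μ = ∑ l, c l * b i l := fun i c => by
    calc ∫ y, Wm j ψ ν (D' i) (fun z => ∑ l, c l * g i l z) (x * y) * φ y ∂μ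
        = ∫ y, ∑ l, c l * (Wm j ψ ν (D' i) (g i l) (x * y) * φ y) ∂μ := by
          refine integral_congr_ae (Filter.Eventually.of_forall fun y => ?_)
          show Wm j ψ ν (D' i) (fun z => ∑ l, c l * g i l z) (x * y) * φ y = ∑ l, c l * (Wm j ψ ν (D' i) (g i l) (x * y) * φ y)
          rw [an14_lin hG (fD' i) (mg i) _ (fun l => bg1 i l _), Finset.sum_mul]
          refine Finset.sum_congr rfl fun l _ => ?_
          ring
      _ = ∑ l, ∫ y, c l * (Wm j ψ ν (D' i) (g i l) (x * y) * φ y) ∂μ := integral_finset_sum _ fun l _ => (hint i l).const_mul _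
      _ = ∑ l, c l * b i l := by
          rw [hb]
          exact Finset.sum_congr rfl fun l _ => integral_const_mul _ _
  obtain ⟨J, hJ⟩ : ∃ J : ℝ≥0∞, J = Jf j μ ν φ x := ⟨_, rfl⟩
  -- step (1)
  have step1 : ∀ c : Fin m → ℂ, ∑ i, ν (D' i) * ‖∑ l, c l * b i l‖ₑ ^ 2 ≤ (1 + B₀) * (J * c₁) * ∑ l, ‖c l‖ₑ ^ 2 := fun c => by
    obtain ⟨h, hh⟩ : ∃ h : G → ℂ, h = fun z => ∑ l, c l * f l z := ⟨_, rfl⟩
    have hhk : ∀ i, (fun y => h (hk i • y)) = fun z => ∑ l, c l * g i l z := fun i => by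
      rw [hh, hg]
    have mh : Measurable h := by
      rw [hh]
      exact Finset.measurable_fun_sum _ fun l _ => (mf l).const_mul _
    have ih : ∀ γ ∈ Γ, ∀ y, h (γ • y) = h y := fun γ hγ y => by
      rw [hh]
      exact Finset.sum_congr rfl fun l _ => by rw [(hf l).inv γ hγ y]
    have ih1 : ∀ γ ∈ Γ₁, ∀ y, h (γ • y) = h y := fun γ hγ y => ih γ (hle1 hγ) y
    have mhk : ∀ i, Measurable fun y => h (hk i • y) := fun i => mh.comp (hpres (hk i)).measurable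
    have ihk : ∀ i, ∀ γ ∈ Γ' i, ∀ y, h (hk i • γ • y) = h (hk i • y) := fun i γ hγ y => by
      have e : hk i • (γ • y) = (hk i * γ * (hk i)⁻¹) • (hk i • y) := by
        rw [← mul_smul, ← mul_smul, inv_mul_cancel_right]
      rw [e]
      exact ih _ ((hΓ i γ).1 hγ) _
    have hB : ∃ B : ℝ, ∀ i, ∀ y ∈ Q, ‖h (hk i • y)‖ ≤ B := by
      choose B hB using fun i l => bg i l K hK
      refine ⟨∑ i, ∑ l, ‖c l‖ * |B i l|, fun i y hy => ?_⟩
      have h1 : h (hk i • y) = ∑ l, c l * g i l y := congrFun (hhk i) y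
      rw [h1]
      refine (norm_sum_le _ _).trans ?_
      have h2 : ∑ l, ‖c l * g i l y‖ ≤ ∑ l, ‖c l‖ * |B i l| := Finset.sum_le_sum fun l _ => by
        rw [norm_mul]
        refine mul_le_mul_of_nonneg_left ?_ (norm_nonneg _)
        have := hB i l 1 y (hQK hy)
        rw [map_one, one_mul] at this
        exact this.trans (le_abs_self _)
      refine h2.trans ?_
      exact Finset.single_le_sum (f := fun i => ∑ l, ‖c l‖ * |B i l|) (fun i _ => Finset.sum_nonneg fun l _ => by positivity) (Finset.mem_univ i)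
    obtain ⟨B, hB⟩ := hB
    have s3 := ls_groupB hG hSD hF₁ hFU mh ih1 hB
    have s4 : ∫⁻ y in F₁, ‖h y‖ₑ ^ 2 ∂μ = c₁ * ∑ l, ‖c l‖ₑ ^ 2 := by
      rw [u2_lint hpres hle1 hF hF₁ (Φ := fun y => ‖h y‖ₑ ^ 2) (mh.enorm.pow_const 2) (fun γ hγ y => by
        show ‖h (γ • y)‖ₑ ^ 2 = ‖h y‖ₑ ^ 2
        rw [ih γ hγ y]), an_u2k (by rw [hc]; exact hc0), hc]
      congr 1
      have h1 := tr_norm (μ := μ) (1 : H) hF.meas mf (fun l => (hf l).l2) ho c
      simp only [one_smul] at h1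
      rw [← h1, hh]
      rfl
    have each : ∀ i, ν (D' i) * ‖∑ l, c l * b i l‖ₑ ^ 2 ≤ J * ∫⁻ z in F_U i ∩ S, ‖Wm j ψ ν (D₁ i) (fun y => h (hk i • y)) z‖ₑ ^ 2 ∂μ := by
      intro i
      have eW : Wm j ψ ν (D' i) (fun y => h (hk i • y)) = Wm j ψ ν (D₁ i) (fun y => h (hk i • y)) := funext fun z =>
        (wm_sub hG (inf_le_left.trans (hle1' i)) (one' i) (hD' i) (hD₁ i) (fD₁ i) (mhk i) (ihk i) z).symm
      have s1 := ax_func hG (μ := μ) cφ.measurable (wm_meas hG (mhk i) : Measurable (Wm j ψ ν (D' i) (fun y => h (hk i • y)))) x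
      have e1 : ∫ y, Wm j ψ ν (D' i) (fun y => h (hk i • y)) (x * y) * φ y ∂μ = ∑ l, c l * b i l := by
        rw [hhk i]
        exact hlin i c
      rw [e1, eW] at s1
      have s2 := ax_J hG (hSD.sd i) (hFU i) (mhk i) (fun γ hγ y => ihk i γ (hle1' i hγ) y) (K := fun z => ‖φ (x⁻¹ * z)‖ₑ) ((cφ.measurable.comp (hG.lm x⁻¹).measurable).enorm)
        (fun z hz => by
          by_contra h0
          exact hz (hA fun h1 => h0 (by
            show ‖φ (x⁻¹ * z)‖ₑ = 0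
            rw [h1, enorm_zero])))
      calc ν (D' i) * ‖∑ l, c l * b i l‖ₑ ^ 2 ≤ ν (D₁ i) * (∫⁻ z, ‖φ (x⁻¹ * z)‖ₑ * ‖Wm j ψ ν (D₁ i) (fun y => h (hk i • y)) z‖ₑ ∂μ) ^ 2 :=
            mul_le_mul' (v1 i) (pow_le_pow_left' s1 2)
        _ ≤ _ := by
            rw [hJ]
            exact s2
    calc ∑ i, ν (D' i) * ‖∑ l, c l * b i l‖ₑ ^ 2 ≤ ∑ i, J * ∫⁻ z in F_U i ∩ S, ‖Wm j ψ ν (D₁ i) (fun y => h (hk i • y)) z‖ₑ ^ 2 ∂μ :=
          Finset.sum_le_sum fun i _ => each i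
      _ = J * ∑ i, ∫⁻ z in F_U i ∩ S, ‖Wm j ψ ν (D₁ i) (fun y => h (hk i • y)) z‖ₑ ^ 2 ∂μ := by rw [Finset.mul_sum]
      _ ≤ J * ((1 + B₀) * (c₁ * ∑ l, ‖c l‖ₑ ^ 2)) := mul_le_mul_right (s3.trans (mul_le_mul_right s4.le _)) _
      _ = _ := by ring
  -- step (2)
  obtain ⟨R, hR⟩ : ∃ R : ℝ≥0∞, R = ∑ i, ‖a i‖ₑ ^ 2 / ν (D' i) := ⟨_, rfl⟩
  have step2 : ∑ l, ‖∑ i, a i * b i l‖ₑ ^ 2 ≤ R * ((1 + B₀) * (J * c₁)) := by
    refine bessel (fun l => ∑ i, a i * b i l) fun c => ?_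
    have e1 : ∑ l, c l * ∑ i, a i * b i l = ∑ i, a i * ∑ l, c l * b i l := by
      simp only [Finset.mul_sum]
      rw [Finset.sum_comm]
      refine Finset.sum_congr rfl fun i _ => Finset.sum_congr rfl fun l _ => ?_
      ring
    rw [e1]
    refine (av14_cs a (fun i => ∑ l, c l * b i l) pD' fD').trans ?_
    rw [← hR]
    refine (mul_le_mul_right (step1 c) R).trans (le_of_eq ?_)
    ring
  -- step (3)
  have step3 : ∀ l, ‖lam l‖ₑ ^ 2 * ‖∑ i, a i * Wm j ψ ν (D' i) (g i l) x‖ₑ ^ 2 = ‖∑ i, a i * b i l‖ₑ ^ 2 := fun l => by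
    have hl := (hf l).eig
    have h2 : ∀ i, b i l = lam l * Wm j ψ ν (D' i) (g i l) x := fun i => by
      have hl' : ∀ y, ∫ z, g i l (y * z) * φ z ∂μ = lam l * g i l y := fun y => by
        have h1 := hl (hk i • y)
        have h2 : ∀ z, g i l (y * z) = f l (hk i • y * z) := fun z => by
          rw [hg', hG.act, hG.act, mul_assoc]
        rw [hg' i l y, ← h1]
        refine integral_congr_ae (Filter.Eventually.of_forall fun z => ?_)
        show g i l (y * z) * φ z = _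
        rw [h2 z]
      rw [hb]
      exact wm_conv hG (fD' i) cφ sφ (mg i l) (bg i l) hl' x
    have h3 : ∑ i, a i * b i l = lam l * ∑ i, a i * Wm j ψ ν (D' i) (g i l) x := by
      rw [Finset.mul_sum]
      refine Finset.sum_congr rfl fun i _ => ?_
      rw [h2 i]
      ring
    rw [h3, enorm_mul, mul_pow]
  have eg : ∀ i l, (fun y => f l (hk i • y)) = g i l := fun i l => funext fun y => (hg' i l y).symm
  simp only [eg]
  rw [← hJ, ← hR]
  calc ∑ l, ‖lam l‖ₑ ^ 2 * ‖∑ i, a i * Wm j ψ ν (D' i) (g i l) x‖ₑ ^ 2 = ∑ l, ‖∑ i, a i * b i l‖ₑ ^ 2 := Finset.sum_congr rfl fun l _ => step3 l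
    _ ≤ R * ((1 + B₀) * (J * c₁)) := step2
    _ = (1 + B₀) * (c₁ * J) * R := by ring

end

end Pool.Agent.Lib.L1S
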