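import Pool.Agent.Lib.L1S.Defs

/-!
# L1S, module B2 (helper43): Weyl group combinatorics ((3.3) of PROOF.md)

For an element `w` of the Weyl group: `w = 1`, or `w` maps some simple root to a positive root which is not simple, or `w Φ_i = - Φ_j` for some `i`, `j`.
-/

namespace Pool.Agent.Lib.L1S

set_option linter.unusedSectionVars false

open Matrix

noncomputable section

variable {ι M N : Type} [Fintype ι] [DecidableEq ι] [AddCommGroup M] [Module ℚ M] [AddCommGroup N] [Module ℚ N]
  {P : RootPairing ι ℚ M N}

/-- The Weyl group as a group of permutations of the roots. -/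
abbrev WP (P : RootPairing ι ℚ M N) : Subgroup (Equiv.Perm ι) := Subgroup.closure (Set.range P.reflectionPerm)

/-- Elements of the Weyl group come from linear automorphisms. -/
theorem b2_lin {w : Equiv.Perm ι} (hw : w ∈ WP P) : ∃ L : M ≃ₗ[ℚ] M, ∀ β, L (P.root β) = P.root (w β) := by
  induction hw using Subgroup.closure_induction with
  | mem x hx =>
    obtain ⟨i, rfl⟩ := hx
    exact ⟨P.reflection i, fun β => (P.root_reflectionPerm i β).symm⟩
  | one => exact ⟨LinearEquiv.refl ℚ M, fun β => rfl⟩
  | mul x y _ _ hx hy =>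
    obtain ⟨L1, h1⟩ := hx
    obtain ⟨L2, h2⟩ := hy
    exact ⟨L2.trans L1, fun β => by rw [LinearEquiv.trans_apply, h2, h1]; rfl⟩
  | inv x _ hx =>
    obtain ⟨L, hL⟩ := hx
    refine ⟨L.symm, fun β => ?_⟩
    rw [LinearEquiv.symm_apply_eq, hL]
    simp

/-- `s_{w β} = w s_β w⁻¹`. -/
theorem b2_conj {w : Equiv.Perm ι} (hw : w ∈ WP P) (β : ι) : P.reflectionPerm (w β) = w * P.reflectionPerm β * w⁻¹ := by
  have key : ∀ i j, P.reflectionPerm (P.reflectionPerm j i) = P.reflectionPerm j * P.reflectionPerm i * P.reflectionPerm j := by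
    intro i j
    ext k
    apply P.root.injective
    rw [P.root_reflectionPerm, P.reflection_reflectionPerm, Equiv.Perm.mul_apply, Equiv.Perm.mul_apply, P.root_reflectionPerm, P.root_reflectionPerm, P.root_reflectionPerm]
    rfl
  induction hw using Subgroup.closure_induction generalizing β with
  | mem x hx =>
    obtain ⟨i, rfl⟩ := hx
    rw [key, P.reflectionPerm_inv]
  | one => simp
  | mul x y _ _ hx hy =>
    rw [Equiv.Perm.mul_apply, hx, hy, _root_.mul_inv_rev]
    group
  | inv x _ hx =>
    have h := hx (x⁻¹ β)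
    have e : x (x⁻¹ β) = β := x.apply_symm_apply β
    rw [e] at h
    rw [h]
    group

/-- The product of the simple reflections of a list. -/
def wl (P : RootPairing ι ℚ M N) (l : List ι) : Equiv.Perm ι := (l.map P.reflectionPerm).prod

theorem wl_append (l1 l2 : List ι) : wl P (l1 ++ l2) = wl P l1 * wl P l2 := by
  simp [wl]

theorem wl_mem (l : List ι) : wl P l ∈ WP P :=
  Subgroup.list_prod_mem _ (by
    intro x hx
    obtain ⟨i, _, rfl⟩ := List.mem_map.1 hx
    exact Subgroup.subset_closure ⟨i, rfl⟩)

section Red

variable [P.IsCrystallographic] [P.IsReduced]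

/-- If a word in the simple reflections maps a simple root `α_k` to a negative root, a suffix maps it to the simple root of the letter before the suffix. -/
theorem b2_exch (b : P.Base) {k : ι} (hk : k ∈ b.support) : ∀ l : List ι, (∀ i ∈ l, i ∈ b.support) → ¬b.IsPos (wl P l k) → ∃ l1 i l2, l = l1 ++ i :: l2 ∧ wl P l2 k = i := by
  intro l
  induction l with
  | nil =>
    intro _ h
    exact absurd (b.isPos_of_mem_support hk) (by simpa [wl] using h)
  | cons i l ih =>
    intro hl h
    by_cases hp : b.IsPos (wl P l k)
    · refine ⟨[], i, l, rfl, ?_⟩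
      by_contra hne
      apply h
      have e : wl P (i :: l) k = P.reflectionPerm i (wl P l k) := by simp [wl]
      rw [e]
      exact hp.reflectionPerm (hl i (by simp)) hne
    · obtain ⟨l1, j, l2, h1, h2⟩ := ih (fun j hj => hl j (by simp [hj])) hp
      exact ⟨i :: l1, j, l2, by simp [h1], h2⟩

/-- The Weyl group is generated by the simple reflections. -/
theorem b2_gen (b : P.Base) {w : Equiv.Perm ι} (hw : w ∈ WP P) : ∃ l : List ι, (∀ i ∈ l, i ∈ b.support) ∧ w = wl P l := by
  have h1 : ∀ i, P.reflectionPerm i ∈ Subgroup.closure (P.reflectionPerm '' (b.support : Set ι)) := by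
    intro i
    induction i using b.induction_reflect with
    | h₀ i h =>
      have e : P.reflectionPerm (P.reflectionPerm i i) = P.reflectionPerm i := by
        rw [b2_conj (P := P) (Subgroup.subset_closure ⟨i, rfl⟩) i, mul_inv_cancel_right]
      rw [e]
      exact h
    | h₁ i h => exact Subgroup.subset_closure ⟨i, h, rfl⟩
    | h₂ i j h hj =>
      rw [b2_conj (P := P) (Subgroup.subset_closure ⟨j, rfl⟩) i]
      have hj' : P.reflectionPerm j ∈ Subgroup.closure (P.reflectionPerm '' (b.support : Set ι)) := Subgroup.subset_closure ⟨j, hj, rfl⟩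
      exact mul_mem (mul_mem hj' h) (inv_mem hj')
  have h2 : w ∈ Subgroup.closure (P.reflectionPerm '' (b.support : Set ι)) := by
    have : WP P ≤ Subgroup.closure (P.reflectionPerm '' (b.support : Set ι)) := by
      rw [Subgroup.closure_le]
      rintro _ ⟨i, rfl⟩
      exact h1 i
    exact this hw
  induction h2 using Subgroup.closure_induction with
  | mem x hx =>
    obtain ⟨i, hi, rfl⟩ := hx
    exact ⟨[i], by simpa using hi, by simp [wl]⟩
  | one => exact ⟨[], by simp, by simp [wl]⟩
  | mul x y hx hy h3 h4 =>
    have hle : Subgroup.closure (P.reflectionPerm '' (b.support : Set ι)) ≤ WP P := Subgroup.closure_mono (Set.image_subset_range _ _)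
    obtain ⟨l1, a1, a2⟩ := h3 (hle hx)
    obtain ⟨l2, c1, c2⟩ := h4 (hle hy)
    refine ⟨l1 ++ l2, ?_, by rw [wl_append, a2, c2]⟩
    intro i hi
    rcases List.mem_append.1 hi with h | h
    · exact a1 i h
    · exact c1 i h
  | inv x hx h3 =>
    have hle : Subgroup.closure (P.reflectionPerm '' (b.support : Set ι)) ≤ WP P := Subgroup.closure_mono (Set.image_subset_range _ _)
    obtain ⟨l, a1, a2⟩ := h3 (hle hx)
    refine ⟨l.reverse, by simpa using a1, ?_⟩
    rw [a2]
    have : ∀ l : List ι, (wl P l)⁻¹ = wl P l.reverse := by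
      intro l
      induction l with
      | nil => simp [wl]
      | cons i l ih =>
        rw [List.reverse_cons, wl_append, ← ih]
        simp [wl]
    exact this l

/-- An element of the Weyl group which maps all simple roots to positive roots is the identity. -/
theorem b2_trans (b : P.Base) {w : Equiv.Perm ι} (hw : w ∈ WP P) (h : ∀ i ∈ b.support, b.IsPos (w i)) : w = 1 := by
  obtain ⟨l, h1, h2⟩ := b2_gen b hw
  have key : ∀ n : ℕ, ∀ l : List ι, l.length ≤ n → (∀ i ∈ l, i ∈ b.support) → (∀ i ∈ b.support, b.IsPos (wl P l i)) → wl P l = 1 := by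
    intro n
    induction n with
    | zero =>
      intro l hl _ _
      have : l = [] := List.length_eq_zero_iff.1 (by lia)
      simp [this, wl]
    | succ n ih =>
      intro l hl hs hp
      rcases List.eq_nil_or_concat l with rfl | ⟨l0, k, rfl⟩
      · simp [wl]
      · have hk : k ∈ b.support := hs k (by simp)
        have e : wl P (l0 ++ [k]) = wl P l0 * P.reflectionPerm k := by simp [wl]
        have hneg : ¬b.IsPos (wl P l0 k) := by
          have h3 := hp k hk
          rw [List.concat_eq_append, e, Equiv.Perm.mul_apply] at h3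
          intro h4
          obtain ⟨L, hL⟩ := b2_lin (wl_mem (P := P) l0)
          have e1 : P.root (wl P l0 (P.reflectionPerm k k)) = -P.root (wl P l0 k) := by
            rw [← hL, ← hL, ← map_neg]
            simp
          have e2 : wl P l0 (P.reflectionPerm k k) = P.reflectionPerm (wl P l0 k) (wl P l0 k) := by
            apply P.root.injective
            rw [e1]
            simp
          rw [e2] at h3
          exact (RootPairing.Base.IsPos.neg_iff_not b (wl P l0 k)).1 h3 h4
        obtain ⟨l1, i, l2, h5, h6⟩ := b2_exch b hk l0 (fun i hi => hs i (by simp [hi])) hneg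
        have e3 : wl P (l0 ++ [k]) = wl P (l1 ++ l2) := by
          have e4 := b2_conj (wl_mem (P := P) l2) k
          rw [h6] at e4
          have e5 : wl P (i :: l2) = P.reflectionPerm i * wl P l2 := by simp [wl]
          rw [e, h5, wl_append, wl_append, e5, e4]
          have e6 : P.reflectionPerm k * P.reflectionPerm k = 1 := by
            rw [← sq, P.reflectionPerm_sq]
          calc wl P l1 * (wl P l2 * P.reflectionPerm k * (wl P l2)⁻¹ * wl P l2) * P.reflectionPerm k
              = wl P l1 * wl P l2 * (P.reflectionPerm k * P.reflectionPerm k) := by group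
            _ = wl P l1 * wl P l2 := by rw [e6, mul_one]
        rw [List.concat_eq_append, e3]
        refine ih _ ?_ ?_ ?_
        · have : (l0 ++ [k]).length ≤ n + 1 := by simpa using hl
          rw [h5] at this
          simp only [List.length_append, List.length_cons, List.length_nil] at this ⊢
          lia
        · intro j hj
          apply hs
          rw [List.concat_eq_append, h5]
          rcases List.mem_append.1 hj with h | h <;> simp [h]
        · intro j hj
          rw [← e3, ← List.concat_eq_append]
          exact hp j hj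
  rw [h2]
  exact key l.length l le_rfl h1 (fun i hi => h2 ▸ h i hi)

end Red

section Opp

variable [P.IsCrystallographic] [P.IsReduced] [P.IsRootSystem]

/-- The coefficients of a positive root are nonnegative. -/
theorem b2_nonneg (b : P.Base) {β : ι} (h : b.IsPos β) (k : b.support) : 0 ≤ b.toWeightBasis.repr (P.root β) k := by
  refine h.induction_on_add (p := fun β => 0 ≤ b.toWeightBasis.repr (P.root β) k) ?_ ?_
  · intro i hi
    have e := b.toWeightBasis_repr_root ⟨i, hi⟩
    rw [e]
    by_cases hk : (⟨i, hi⟩ : b.support) = k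
    · simp [hk]
    · simp [hk]
  · intro i j l hl hi hj
    have e := b.toWeightBasis_repr_root ⟨j, hj⟩
    rw [hl, map_add, Finsupp.add_apply, e]
    refine add_nonneg hi ?_
    by_cases hk : (⟨j, hj⟩ : b.support) = k
    · simp [hk]
    · simp [hk]

theorem b2_root_neg (β : ι) : P.root (P.reflectionPerm β β) = -P.root β := by simp

/-- The coefficients of a negative root are nonpositive. -/
theorem b2_nonpos (b : P.Base) {β : ι} (h : ¬b.IsPos β) (k : b.support) : b.toWeightBasis.repr (P.root β) k ≤ 0 := by
  have h1 := b2_nonneg b ((RootPairing.Base.IsPos.neg_iff_not b β).2 h) k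
  have e : P.root (P.reflectionPerm β β) = -P.root β := b2_root_neg β
  have h2 : 0 ≤ b.toWeightBasis.repr (P.root (P.reflectionPerm β β)) k := h1
  rw [e, map_neg, Finsupp.neg_apply] at h2
  linarith

/-- If every simple root with positive image has simple image and `w α_i < 0`, then `w Φ_i = - Φ_j` for some `j`. -/
theorem b2_opp (b : P.Base) {w : Equiv.Perm ι} (hw : w ∈ WP P) (hS : ∀ i ∈ b.support, b.IsPos (w i) → w i ∈ b.support) (i : b.support) (hi : ¬b.IsPos (w i)) :
    ∃ j : b.support, ∀ β, β ∈ Phi b i ↔ P.reflectionPerm (w β) (w β) ∈ Phi b j := by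
  classical
  obtain ⟨L, hL⟩ := b2_lin hw
  set B := b.toWeightBasis with hB
  -- the coefficients of the images of the simple roots
  have hsum : ∀ x : M, ∀ d : b.support, B.repr (L x) d = ∑ k, B.repr x k * B.repr (P.root (w k)) d := by
    intro x d
    conv_lhs => rw [← B.sum_repr x]
    rw [map_sum, map_sum, Finsupp.finsetSum_apply]
    refine Finset.sum_congr rfl fun k _ => ?_
    rw [map_smul, map_smul, Finsupp.smul_apply, smul_eq_mul, hB, b.toWeightBasis_apply, hL]
  have hsum' : ∀ x : M, ∀ d : b.support, B.repr (L.symm x) d = ∑ k, B.repr x k * B.repr (L.symm (P.root k)) d := by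
    intro x d
    conv_lhs => rw [← B.sum_repr x]
    rw [map_sum, map_sum, Finsupp.finsetSum_apply]
    refine Finset.sum_congr rfl fun k _ => ?_
    rw [map_smul, map_smul, Finsupp.smul_apply, smul_eq_mul, hB, b.toWeightBasis_apply]
  have hsymm : ∀ β, L.symm (P.root β) = P.root (w⁻¹ β) := by
    intro β
    rw [LinearEquiv.symm_apply_eq, hL]
    exact congrArg P.root (w.apply_symm_apply β).symm
  have hsingle : ∀ k l : b.support, B.repr (P.root k) l = if k = l then 1 else 0 := by
    intro k l
    rw [hB, b.toWeightBasis_repr_root, Finsupp.single_apply]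
  -- simple roots which are images of simple roots
  have hT : ∀ d : b.support, (w⁻¹ (d : ι) ∈ b.support) ∨ ¬b.IsPos (w⁻¹ d) := by
    intro d
    by_contra hcon
    push Not at hcon
    obtain ⟨h1, h2⟩ := hcon
    -- `β = w⁻¹ δ > 0`
    have h3 : ∀ k : b.support, b.IsPos (w k) → B.repr (P.root (w⁻¹ d)) k * B.repr (P.root (w k)) d = 0 := by
      intro k hk
      have h4 := hS k k.2 hk
      have h5 : (⟨w k, h4⟩ : b.support) ≠ d := by
        intro h6
        apply h1
        have h7 : w k = d := congrArg Subtype.val h6
        rw [← h7]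
        have : w⁻¹ (w k) = k := w.symm_apply_apply k
        rw [this]
        exact k.2
      have h8 := hsingle ⟨w k, h4⟩ d
      rw [if_neg h5] at h8
      have h9 : B.repr (P.root (w k)) d = 0 := h8
      rw [h9, mul_zero]
    have h10 : B.repr (L (P.root (w⁻¹ d))) d = 1 := by
      rw [hL]
      have : w (w⁻¹ (d : ι)) = d := w.apply_symm_apply d
      rw [this, hsingle, if_pos rfl]
    rw [hsum] at h10
    have h11 : ∑ k, B.repr (P.root (w⁻¹ d)) k * B.repr (P.root (w k)) d ≤ 0 := by
      refine Finset.sum_nonpos fun k _ => ?_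
      by_cases hk : b.IsPos (w k)
      · exact (h3 k hk).le
      · exact mul_nonpos_of_nonneg_of_nonpos (b2_nonneg b h2 k) (b2_nonpos b hk d)
    linarith
  -- `A d = m_i (w⁻¹ δ)`
  have hA : ∀ d : b.support, B.repr (L.symm (P.root d)) i ≤ 0 := by
    intro d
    rw [hsymm]
    rcases hT d with h | h
    · have hne : (⟨w⁻¹ d, h⟩ : b.support) ≠ i := by
        intro h1
        apply hi
        have h2 : w⁻¹ (d : ι) = i := congrArg Subtype.val h1
        have h3 : w (i : ι) = d := by
          rw [← h2]
          exact w.apply_symm_apply d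
        rw [h3]
        exact b.isPos_of_mem_support d.2
      have h4 := hsingle ⟨w⁻¹ d, h⟩ i
      rw [if_neg hne] at h4
      exact le_of_eq h4
    · exact b2_nonpos b h i
  -- products
  have hAB : ∀ k : b.support, ¬b.IsPos (w k) → ∑ d, B.repr (P.root (w k)) d * B.repr (L.symm (P.root d)) i = if k = i then 1 else 0 := by
    intro k _
    rw [← hsum', ← hL, LinearEquiv.symm_apply_apply, hsingle]
  have hAz : ∀ d : b.support, w⁻¹ (d : ι) ∈ b.support → B.repr (L.symm (P.root d)) i = 0 := by
    intro d h
    have hne : (⟨w⁻¹ d, h⟩ : b.support) ≠ i := by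
      intro h1
      apply hi
      have h2 : w⁻¹ (d : ι) = i := congrArg Subtype.val h1
      have h3 : w (i : ι) = d := by
        rw [← h2]
        exact w.apply_symm_apply d
      rw [h3]
      exact b.isPos_of_mem_support d.2
    have h4 := hsingle ⟨w⁻¹ d, h⟩ i
    rw [if_neg hne] at h4
    rw [hsymm]
    exact h4
  -- if `A d < 0` then `m_δ ∘ L` is a multiple of `m_i`
  have hmul : ∀ d : b.support, B.repr (L.symm (P.root d)) i < 0 → ∀ k : b.support, k ≠ i → B.repr (P.root (w k)) d = 0 := by
    intro d hd k hk
    by_cases hp : b.IsPos (w k)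
    · have h4 := hS k k.2 hp
      have h5 : (⟨w k, h4⟩ : b.support) ≠ d := by
        intro h6
        have h7 : w k = d := congrArg Subtype.val h6
        have h8 : w⁻¹ (d : ι) ∈ b.support := by
          rw [← h7]
          have : w⁻¹ (w k) = k := w.symm_apply_apply k
          rw [this]
          exact k.2
        exact absurd (hAz d h8) hd.ne
      have h8 := hsingle ⟨w k, h4⟩ d
      rw [if_neg h5] at h8
      exact h8
    · have h9 := hAB k hp
      rw [if_neg hk] at h9
      have h10 : ∀ d' ∈ Finset.univ, 0 ≤ B.repr (P.root (w k)) d' * B.repr (L.symm (P.root d')) i := fun d' _ =>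
        mul_nonneg_of_nonpos_of_nonpos (b2_nonpos b hp d') (hA d')
      have h11 := (Finset.sum_eq_zero_iff_of_nonneg h10).1 h9 d (Finset.mem_univ d)
      exact (mul_eq_zero.1 h11).resolve_right hd.ne
  obtain ⟨j, hj⟩ : ∃ j : b.support, B.repr (L.symm (P.root j)) i < 0 := by
    by_contra hcon
    push Not at hcon
    have h1 := hAB i hi
    rw [if_pos rfl, Finset.sum_eq_zero (fun d _ => by rw [le_antisymm (hA d) (hcon d), mul_zero])] at h1
    exact absurd h1 (by norm_num)
  have huniq : ∀ d : b.support, d ≠ j → B.repr (L.symm (P.root d)) i = 0 := by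
    intro d hd
    by_contra hne
    have hlt : B.repr (L.symm (P.root d)) i < 0 := lt_of_le_of_ne (hA d) hne
    have e1 : ∀ x : M, B.repr (L x) d = B.repr x i * B.repr (P.root (w i)) d := by
      intro x
      rw [hsum, Finset.sum_eq_single i (fun k _ hk => by rw [hmul d hlt k hk, mul_zero]) (fun h => absurd (Finset.mem_univ i) h)]
    have e2 : ∀ x : M, B.repr (L x) j = B.repr x i * B.repr (P.root (w i)) j := by
      intro x
      rw [hsum, Finset.sum_eq_single i (fun k _ hk => by rw [hmul j hj k hk, mul_zero]) (fun h => absurd (Finset.mem_univ i) h)]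
    have f1 := e1 (L.symm (P.root d))
    have f2 := e2 (L.symm (P.root d))
    have f3 := e1 (L.symm (P.root j))
    rw [LinearEquiv.apply_symm_apply, hsingle] at f1 f2 f3
    rw [if_pos rfl] at f1
    rw [if_neg hd] at f2
    rw [if_neg hd.symm] at f3
    have g1 : B.repr (P.root (w i)) d ≠ 0 := by
      intro h
      rw [h, mul_zero] at f1
      exact absurd f1 (by norm_num)
    rcases mul_eq_zero.1 f3.symm with h | h
    · exact hj.ne h
    · exact g1 h
  refine ⟨j, fun β => ?_⟩
  have e : B.repr (P.root β) i = B.repr (P.root (w β)) j * B.repr (L.symm (P.root j)) i := by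
    have h1 := hsum' (P.root (w β)) i
    rw [← hL, LinearEquiv.symm_apply_apply] at h1
    rw [h1, Finset.sum_eq_single j (fun d _ hd => by rw [huniq d hd, mul_zero]) (fun h => absurd (Finset.mem_univ j) h), hL]
  simp only [Phi, Finset.mem_filter, Finset.mem_univ, true_and]
  rw [b2_root_neg, map_neg, Finsupp.neg_apply, ← hB, e]
  constructor
  · intro h
    have := (neg_pos.2 hj)
    by_contra hcon
    push Not at hcon
    have h2 : 0 ≤ B.repr (P.root (w β)) j := by linarith
    nlinarith [mul_nonneg h2 this.le]
  · intro h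
    have h2 : B.repr (P.root (w β)) j < 0 := by linarith
    exact mul_pos_of_neg_of_neg h2 hj

/-- **The combinatorial lemma** ((3.3) of PROOF.md): `w = 1`, or `w α_i` is positive and not simple for some `i`, or `w Φ_i = - Φ_j` for some `i`, `j`. -/
theorem b2_comb (b : P.Base) {w : Equiv.Perm ι} (hw : w ∈ WP P) :
    w = 1 ∨ (∃ i ∈ b.support, b.IsPos (w i) ∧ w i ∉ b.support) ∨ ∃ i j : b.support, ∀ β, β ∈ Phi b i ↔ P.reflectionPerm (w β) (w β) ∈ Phi b j := by
  by_cases h1 : ∃ i ∈ b.support, b.IsPos (w i) ∧ w i ∉ b.support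
  · exact Or.inr (Or.inl h1)
  push Not at h1
  by_cases h2 : ∀ i ∈ b.support, b.IsPos (w i)
  · exact Or.inl (b2_trans b hw h2)
  push Not at h2
  obtain ⟨i, hi, h3⟩ := h2
  obtain ⟨j, hj⟩ := b2_opp b hw h1 ⟨i, hi⟩ h3
  exact Or.inr (Or.inr ⟨⟨i, hi⟩, j, hj⟩)

end Opp

end

end Pool.Agent.Lib.L1S
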