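import Pool.Agent.Lib.L1S.MDefs
import Pool.Agent.Lib.L1S.L10
import Pool.Agent.Lib.L1S.B2

/-!
# L1S, module B: definitions (helper43)
-/

namespace Pool.Agent.Lib.L1S

open Matrix NumberField Pool.Agent.Lib.H89N Pool.Agent.Lib.H33W

noncomputable section

variable {ι M N : Type} [Fintype ι] [DecidableEq ι] [AddCommGroup M] [Module ℚ M] [AddCommGroup N] [Module ℚ N]
  {P : RootPairing ι ℚ M N} [P.IsCrystallographic]

/-- `n ∈ G(K)` lies over the element `w` of the Weyl group: `n V_0 = V_0`, `n V_γ = V_(w γ)`, `n E_β n⁻¹ = c E_(w β)` with `c ≠ 0`. -/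
structure IsN (b : P.Base) (K : Type) [Field K] [NumberField K] (w : Equiv.Perm ι) (n : GK b K) : Prop where
  mem : w ∈ WP P
  v0 : ∀ r j, n.1.1 r (Sum.inl j) ≠ 0 → ∃ i, r = Sum.inl i
  vr : ∀ r β, n.1.1 r (Sum.inr β) ≠ 0 → r = Sum.inr (w β)
  rt : ∀ β, ∃ c : K, c ≠ 0 ∧ n.1.1 * toA K (E b β) = (c • toA K (E b (w β))) * n.1.1

/-- Membership in `U(K)`. -/
theorem mem_HU (b : P.Base) (K : Type) [Field K] [NumberField K] (g : GK b K) :
    g ∈ HU b K ↔ ∀ r c, ht b r ≤ ht b c → g.1.1 r c = (1 : Matrix (I b) (I b) K) r c ∧ g⁻¹.1.1 r c = (1 : Matrix (I b) (I b) K) r c := by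
  have key : ∀ (g : GK b K) (r c : I b), (emb b K g).1.1 r c = mixedEmbedding K (g.1.1 r c) := fun g r c => rfl
  have one : ∀ r c, (1 : Matrix (I b) (I b) (EE K)) r c = mixedEmbedding K ((1 : Matrix (I b) (I b) K) r c) := by
    intro r c
    by_cases h : r = c
    · subst h
      rw [Matrix.one_apply_eq, Matrix.one_apply_eq, map_one]
    · rw [Matrix.one_apply_ne h, Matrix.one_apply_ne h, map_zero]
  have inj := mixedEmbedding_injective K
  constructor
  · intro h r c hrc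
    have h1 : (emb b K g).1.1 r c = (1 : Matrix (I b) (I b) (EE K)) r c ∧ (emb b K g)⁻¹.1.1 r c = (1 : Matrix (I b) (I b) (EE K)) r c := h r c hrc
    rw [← map_inv, key, key, one] at h1
    exact ⟨inj h1.1, inj h1.2⟩
  · intro h
    change emb b K g ∈ UR b K
    intro r c hrc
    rw [← map_inv, key, key, one, (h r c hrc).1, (h r c hrc).2]
    exact ⟨rfl, rfl⟩

end

end Pool.Agent.Lib.L1S
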