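import Pool.Agent.Lib.L1S.D0

/-!
# L1S, D1: the minors are invariant under unipotent elements
-/

namespace Pool.Agent.Lib.L1S

open MeasureTheory Matrix NumberField IsDedekindDomain Pool.Agent.Lib.H89N Pool.Agent.Lib.H33W

noncomputable section

set_option linter.unusedSectionVars false

theorem d1_det_one {n R : Type} [Fintype n] [DecidableEq n] [CommRing R] (f : n → ℤ) (A : Matrix n n R)
    (h : ∀ r c, A r c = (1 : Matrix n n R) r c ∨ f c < f r) : A.det = 1 := by
  have hA : A.BlockTriangular (fun k => OrderDual.toDual (f k)) := by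
    intro r c hrc
    have h1 : f r < f c := hrc
    rcases h r c with h2 | h2
    · rw [h2, Matrix.one_apply_ne]
      rintro rfl
      exact lt_irrefl _ h1
    · exact absurd h1 (not_lt.2 h2.le)
  rw [hA.det]
  refine Finset.prod_eq_one fun a _ => ?_
  have e : A.toSquareBlock (fun k => OrderDual.toDual (f k)) a = 1 := by
    ext r c
    rw [Matrix.toSquareBlock_def, Matrix.of_apply]
    have h1 : f r.1 = f c.1 := by
      have h2 := r.2
      have h3 := c.2
      have h4 : OrderDual.toDual (f r.1) = OrderDual.toDual (f c.1) := h2.trans h3.symm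
      exact h4
    rcases h r.1 c.1 with h2 | h2
    · rw [h2]
      by_cases hrc : r = c
      · subst hrc
        simp
      · rw [Matrix.one_apply_ne hrc, Matrix.one_apply_ne fun h5 => hrc (Subtype.ext h5)]
    · exact absurd h2 (by rw [h1]; exact lt_irrefl _)
  rw [e, Matrix.det_one]

variable {ι M N : Type} [Fintype ι] [DecidableEq ι] [AddCommGroup M] [Module ℚ M] [AddCommGroup N] [Module ℚ N]
  {P : RootPairing ι ℚ M N} [P.IsCrystallographic] [P.IsRootSystem]

theorem d1_mem_phi {b : P.Base} {i : b.support} {β : ι} : β ∈ Phi b i ↔ 0 < wq b (Sum.inr β) i := by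
  unfold Phi wq
  simp

theorem d1_neg_phi {b : P.Base} {j : b.support} {γ : ι} : P.reflectionPerm γ γ ∈ Phi b j ↔ wq b (Sum.inr γ) j < 0 := by
  rw [d1_mem_phi]
  unfold wq
  simp

/-- A row `r` with `wq r j < 0` is a row of the minor. -/
theorem d1_row {b : P.Base} {i j : b.support} {w : Equiv.Perm ι} (hw : OppW b i j w) {r : I b} (hr : wq b r j < 0) :
    ∃ β : Phi b i, r = Sum.inr (w β.1) := by
  rcases r with k | γ
  · exact absurd hr (by simp [wq])
  · have h1 := d1_neg_phi.2 hr
    refine ⟨⟨w.symm γ, (hw _).2 ?_⟩, ?_⟩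
    · rw [Equiv.apply_symm_apply]
      exact h1
    · simp

theorem d1_row' {b : P.Base} {i j : b.support} {w : Equiv.Perm ι} (hw : OppW b i j w) (β : Phi b i) :
    wq b (Sum.inr (w β.1)) j < 0 := d1_neg_phi.1 ((hw _).1 β.2)

theorem d1_col {b : P.Base} {i : b.support} {r : I b} (hr : 0 < wq b r i) : ∃ β : Phi b i, r = Sum.inr β.1 := by
  rcases r with k | γ
  · exact absurd hr (by simp [wq])
  · exact ⟨⟨γ, d1_mem_phi.2 hr⟩, rfl⟩

/-- PROOF. Left: the rows `- Φ_j` of `u g` are the product of the block of `u` and the rows of `g`; the block is unitriangular. Right: the same for the columns `Φ_i`. -/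
theorem d1_left {b : P.Base} {i j : b.support} {w : Equiv.Perm ι} (hw : OppW b i j w) {R : Type} [CommRing R] {u : Matrix (I b) (I b) R}
    (hu : Uni b u) (g : Matrix (I b) (I b) R) : Dm b i w (u * g) = Dm b i w g := by
  unfold Dm
  have h1 : (Matrix.of fun β β' : Phi b i => (u * g) (Sum.inr (w β.1)) (Sum.inr β'.1)) =
      (Matrix.of fun β β' : Phi b i => u (Sum.inr (w β.1)) (Sum.inr (w β'.1))) *
        (Matrix.of fun β β' : Phi b i => g (Sum.inr (w β.1)) (Sum.inr β'.1)) := by
    ext β β'
    rw [Matrix.of_apply, Matrix.mul_apply, Matrix.mul_apply]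
    simp only [Matrix.of_apply]
    symm
    have hinj : Function.Injective (fun γ : Phi b i => (Sum.inr (w γ.1) : I b)) := by
      intro γ γ' h
      exact Subtype.ext (w.injective (Sum.inr_injective h))
    rw [← Finset.sum_image (s := Finset.univ) (g := fun γ : Phi b i => (Sum.inr (w γ.1) : I b))
      (f := fun r => u (Sum.inr (w β.1)) r * g r (Sum.inr β'.1)) (fun x _ y _ h => hinj h)]
    refine Finset.sum_subset (Finset.subset_univ _) fun r _ hr => ?_
    rcases hu (Sum.inr (w β.1)) r with h2 | h2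
    · rw [h2, Matrix.one_apply_ne, zero_mul]
      intro h3
      exact hr (Finset.mem_image.2 ⟨β, Finset.mem_univ _, h3⟩)
    · obtain ⟨γ, hγ⟩ := d1_row hw (lt_of_le_of_lt (h2.2 j) (d1_row' hw β))
      exact absurd (Finset.mem_image.2 ⟨γ, Finset.mem_univ _, hγ.symm⟩) hr
  rw [h1, Matrix.det_mul, d1_det_one (fun β : Phi b i => ht b (Sum.inr (w β.1)))
    (Matrix.of fun β β' : Phi b i => u (Sum.inr (w β.1)) (Sum.inr (w β'.1))), one_mul]
  intro β β'
  rw [Matrix.of_apply]
  rcases hu (Sum.inr (w β.1)) (Sum.inr (w β'.1)) with h2 | h2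
  · left
    rw [h2]
    by_cases h3 : β = β'
    · subst h3
      rw [Matrix.one_apply_eq, Matrix.one_apply_eq]
    · rw [Matrix.one_apply_ne h3, Matrix.one_apply_ne]
      intro h4
      exact h3 (Subtype.ext (w.injective (Sum.inr_injective h4)))
  · right
    exact h2.1

theorem d1_right {b : P.Base} {i : b.support} {w : Equiv.Perm ι} {R : Type} [CommRing R] {u : Matrix (I b) (I b) R}
    (hu : Uni b u) (g : Matrix (I b) (I b) R) : Dm b i w (g * u) = Dm b i w g := by
  unfold Dm
  have h1 : (Matrix.of fun β β' : Phi b i => (g * u) (Sum.inr (w β.1)) (Sum.inr β'.1)) =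
      (Matrix.of fun β β' : Phi b i => g (Sum.inr (w β.1)) (Sum.inr β'.1)) *
        (Matrix.of fun β β' : Phi b i => u (Sum.inr β.1) (Sum.inr β'.1)) := by
    ext β β'
    rw [Matrix.of_apply, Matrix.mul_apply, Matrix.mul_apply]
    simp only [Matrix.of_apply]
    symm
    have hinj : Function.Injective (fun γ : Phi b i => (Sum.inr γ.1 : I b)) := by
      intro γ γ' h
      exact Subtype.ext (Sum.inr_injective h)
    rw [← Finset.sum_image (s := Finset.univ) (g := fun γ : Phi b i => (Sum.inr γ.1 : I b))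
      (f := fun r => g (Sum.inr (w β.1)) r * u r (Sum.inr β'.1)) (fun x _ y _ h => hinj h)]
    refine Finset.sum_subset (Finset.subset_univ _) fun r _ hr => ?_
    rcases hu r (Sum.inr β'.1) with h2 | h2
    · rw [h2, Matrix.one_apply_ne, mul_zero]
      intro h3
      exact hr (Finset.mem_image.2 ⟨β', Finset.mem_univ _, h3.symm⟩)
    · obtain ⟨γ, hγ⟩ := d1_col (lt_of_lt_of_le (d1_mem_phi.1 β'.2) (h2.2 i))
      exact absurd (Finset.mem_image.2 ⟨γ, Finset.mem_univ _, hγ.symm⟩) hr
  rw [h1, Matrix.det_mul, d1_det_one (fun β : Phi b i => ht b (Sum.inr β.1))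
    (Matrix.of fun β β' : Phi b i => u (Sum.inr β.1) (Sum.inr β'.1)), mul_one]
  intro β β'
  rw [Matrix.of_apply]
  rcases hu (Sum.inr β.1) (Sum.inr β'.1) with h2 | h2
  · left
    rw [h2]
    by_cases h3 : β = β'
    · subst h3
      rw [Matrix.one_apply_eq, Matrix.one_apply_eq]
    · rw [Matrix.one_apply_ne h3, Matrix.one_apply_ne]
      intro h4
      exact h3 (Subtype.ext (Sum.inr_injective h4))
  · right
    exact h2.1

/-- **TARGET D1**: bi-invariance. -/
theorem dm_uni {b : P.Base} {i j : b.support} {w : Equiv.Perm ι} (hw : OppW b i j w) {R : Type} [CommRing R] {u u' : Matrix (I b) (I b) R}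
    (hu : Uni b u) (hu' : Uni b u') (g : Matrix (I b) (I b) R) : Dm b i w (u * g * u') = Dm b i w g := by
  rw [d1_right hu', d1_left hw hu]

/-- **TARGET D2**: the minor of a matrix which maps `v_β` to a multiple of `v_{w β}`. -/
theorem dm_mono {b : P.Base} {i : b.support} {w : Equiv.Perm ι} {R : Type} [CommRing R] {g : Matrix (I b) (I b) R}
    (hg : ∀ β ∈ Phi b i, ∀ r, r ≠ Sum.inr (w β) → g r (Sum.inr β) = 0) : Dm b i w g = ∏ β : Phi b i, g (Sum.inr (w β.1)) (Sum.inr β.1) := by
  unfold Dm
  have e : (Matrix.of fun β β' : Phi b i => g (Sum.inr (w β.1)) (Sum.inr β'.1)) =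
      Matrix.diagonal fun β : Phi b i => g (Sum.inr (w β.1)) (Sum.inr β.1) := by
    ext β β'
    rw [Matrix.of_apply]
    by_cases h : β = β'
    · subst h
      rw [Matrix.diagonal_apply_eq]
    · rw [Matrix.diagonal_apply_ne _ h, hg β'.1 β'.2]
      intro h2
      exact h (Subtype.ext (w.injective (Sum.inr_injective h2)))
  rw [e, Matrix.det_diagonal]

theorem dm_mono_ne {b : P.Base} {i : b.support} {w : Equiv.Perm ι} {R : Type} [CommRing R] [IsDomain R] {g : Matrix (I b) (I b) R}
    (hg : ∀ β ∈ Phi b i, ∀ r, r ≠ Sum.inr (w β) → g r (Sum.inr β) = 0) (hg' : ∀ β ∈ Phi b i, g (Sum.inr (w β)) (Sum.inr β) ≠ 0) :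
    Dm b i w g ≠ 0 := by
  rw [dm_mono hg]
  exact Finset.prod_ne_zero_iff.2 fun β _ => hg' β.1 β.2

/-- The minors commute with ring homomorphisms. -/
theorem dm_map (b : P.Base) (i : b.support) (w : Equiv.Perm ι) {R S : Type} [CommRing R] [CommRing S] (f : R →+* S) (g : Matrix (I b) (I b) R) :
    Dm b i w (g.map f) = f (Dm b i w g) := by
  unfold Dm
  rw [RingHom.map_det]
  rfl

end

end Pool.Agent.Lib.L1S
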