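import Pool.Agent.Lib.L1S.B0
import Pool.Agent.Lib.L1S.ApiL1
import Pool.Agent.Lib.L1S.D1
import Pool.Agent.Lib.H33W.T3

/-!
# L1S, module B3 (helper43): the dichotomy for a single element of `G(K)` ((3.2), (3.3) of PROOF.md)
-/

namespace Pool.Agent.Lib.L1S

set_option linter.unusedSectionVars false

open Matrix NumberField Pool.Agent.Lib.H89N Pool.Agent.Lib.H33W

noncomputable section

/-! ## Matrices which raise the height -/

section Height

variable {n : Type} [Fintype n] [DecidableEq n] {R : Type} [CommRing R]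

/-- `X` raises the height `h` by at least `k`. -/
def RaiseBy (h : n → ℤ) (k : ℤ) (X : Matrix n n R) : Prop := ∀ r c, h r < h c + k → X r c = 0

theorem b3_mul {h : n → ℤ} {k l : ℤ} {X Y : Matrix n n R} (hX : RaiseBy h k X) (hY : RaiseBy h l Y) : RaiseBy h (k + l) (X * Y) := by
  intro r c hrc
  rw [Matrix.mul_apply]
  refine Finset.sum_eq_zero fun m _ => ?_
  by_cases h1 : h r < h m + k
  · rw [hX r m h1, zero_mul]
  · rw [hY m c (by lia), mul_zero]

theorem b3_mono {h : n → ℤ} {k l : ℤ} (hkl : l ≤ k) {X : Matrix n n R} (hX : RaiseBy h k X) : RaiseBy h l X :=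
  fun r c hrc => hX r c (by lia)

theorem b3_add {h : n → ℤ} {k : ℤ} {X Y : Matrix n n R} (hX : RaiseBy h k X) (hY : RaiseBy h k Y) : RaiseBy h k (X + Y) := by
  intro r c hrc
  rw [Matrix.add_apply, hX r c hrc, hY r c hrc, add_zero]

theorem b3_smul {h : n → ℤ} {k : ℤ} {S : Type} [SMulZeroClass S R] (s : S) {X : Matrix n n R} (hX : RaiseBy h k X) : RaiseBy h k (s • X) := by
  intro r c hrc
  rw [Matrix.smul_apply, hX r c hrc, smul_zero]

theorem b3_sum {h : n → ℤ} {k : ℤ} {α : Type} (s : Finset α) (f : α → Matrix n n R) (hf : ∀ a ∈ s, RaiseBy h k (f a)) : RaiseBy h k (∑ a ∈ s, f a) := by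
  intro r c hrc
  rw [Matrix.sum_apply]
  exact Finset.sum_eq_zero fun a ha => hf a ha r c hrc

theorem b3_pow {h : n → ℤ} {k : ℤ} {X : Matrix n n R} (hX : RaiseBy h k X) (m : ℕ) : RaiseBy h (m * k) (X ^ m) := by
  induction m with
  | zero =>
    intro r c hrc
    rw [pow_zero, Matrix.one_apply_ne]
    rintro rfl
    simp at hrc
  | succ m ih =>
    rw [pow_succ]
    refine b3_mono (le_of_eq ?_) (b3_mul ih hX)
    push_cast
    ring

/-- A matrix which raises the height by at least one is nilpotent. -/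
theorem b3_nil {h : n → ℤ} {X : Matrix n n R} (hX : RaiseBy h 1 X) : IsNilpotent X := by
  obtain ⟨B, hB⟩ : ∃ B : ℕ, ∀ r c, h r < h c + B := by
    refine ⟨(∑ r, ∑ c, (h r - h c).natAbs) + 1, fun r c => ?_⟩
    have h1 : (h r - h c).natAbs ≤ ∑ c, (h r - h c).natAbs := Finset.single_le_sum (f := fun c => (h r - h c).natAbs) (fun _ _ => Nat.zero_le _) (Finset.mem_univ c)
    have h2 : (∑ c, (h r - h c).natAbs) ≤ ∑ r, ∑ c, (h r - h c).natAbs :=
      Finset.single_le_sum (f := fun r => ∑ c, (h r - h c).natAbs) (fun _ _ => Nat.zero_le _) (Finset.mem_univ r)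
    push_cast
    have h3 : (h r - h c) ≤ ((h r - h c).natAbs : ℤ) := Int.le_natAbs
    have h4 : ((h r - h c).natAbs : ℤ) ≤ ((∑ r, ∑ c, (h r - h c).natAbs : ℕ) : ℤ) := by exact_mod_cast h1.trans h2
    push_cast at h4 h3 ⊢
    lia
  refine ⟨B, ?_⟩
  ext r c
  have := b3_pow hX B r c (by simpa using hB r c)
  rw [this]
  rfl

variable [Algebra ℚ R]

/-- `exp X - 1 - X` raises the height by at least two if `X` raises it by at least one. -/
theorem b3_exp {h : n → ℤ} {X : Matrix n n R} (hX : RaiseBy h 1 X) : RaiseBy h 2 (IsNilpotent.exp X - 1 - X) := by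
  obtain ⟨k, hk⟩ := b3_nil hX
  have hk2 : X ^ (k + 2) = 0 := by rw [pow_add, hk, zero_mul]
  rw [IsNilpotent.exp_eq_sum hk2, Finset.sum_range_succ', Finset.sum_range_succ']
  simp only [Nat.factorial_zero, Nat.cast_one, inv_one, pow_zero, one_smul, zero_add, Nat.factorial_one, pow_one]
  rw [add_sub_cancel_right, add_sub_cancel_right]
  refine b3_sum _ _ fun m _ => b3_smul _ (b3_mono ?_ (b3_pow hX (m + 1 + 1)))
  push_cast
  lia

/-- `exp X - 1` raises the height by at least `k ≥ 1` if `X` does. -/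
theorem b3_exp' {h : n → ℤ} {k : ℤ} (hk0 : 1 ≤ k) {X : Matrix n n R} (hX : RaiseBy h k X) : RaiseBy h k (IsNilpotent.exp X - 1) := by
  obtain ⟨m, hm⟩ := b3_nil (b3_mono hk0 hX)
  have hk2 : X ^ (m + 1) = 0 := by rw [pow_add, hm, zero_mul]
  rw [IsNilpotent.exp_eq_sum hk2, Finset.sum_range_succ']
  simp only [Nat.factorial_zero, Nat.cast_one, inv_one, pow_zero, one_smul]
  rw [add_sub_cancel_right]
  refine b3_sum _ _ fun j _ => b3_smul _ (b3_mono ?_ (b3_pow hX (j + 1)))
  push_cast
  nlinarith

end Height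

/-! ## The character -/

section Char

variable {K : Type} [Field K] [NumberField K]

/-- A nonzero linear form on `K ⊗ ℝ` takes a value on `K` which is not an integer. -/
theorem b3_ex {θ : EE K →ₗ[ℝ] ℝ} (hθ : θ ≠ 0) : ∃ s : K, ee (θ (mixedEmbedding K s)) ≠ 1 := by
  obtain ⟨s, hs⟩ : ∃ s : K, θ (mixedEmbedding K s) ≠ 0 := by
    by_contra hcon
    push Not at hcon
    apply hθ
    refine (mixedEmbedding.latticeBasis K).ext fun i => ?_
    have h1 : mixedEmbedding.latticeBasis K i ∈ Submodule.span ℤ (Set.range (mixedEmbedding.latticeBasis K)) := Submodule.subset_span ⟨i, rfl⟩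
    obtain ⟨a, ha⟩ := (mixedEmbedding.mem_span_latticeBasis K).1 h1
    have h2 : mixedEmbedding K (a : K) = mixedEmbedding.latticeBasis K i := ha
    rw [← h2, hcon, LinearMap.zero_apply]
  by_cases h1 : ee (θ (mixedEmbedding K s)) = 1
  · obtain ⟨m, hm⟩ := ee_eq_one h1
    have hm0 : (m : ℝ) ≠ 0 := by rwa [← hm]
    refine ⟨((2 * m : ℚ)⁻¹) • s, ?_⟩
    have e1 : mixedEmbedding K (((2 * m : ℚ)⁻¹) • s) = ((2 * m : ℝ)⁻¹) • mixedEmbedding K s := by
      rw [map_rat_smul (mixedEmbedding K)]
      have : ∀ (q : ℚ) (x : EE K), q • x = (q : ℝ) • x := fun q x => (Rat.cast_smul_eq_qsmul ℝ q x).symm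
      rw [this]
      push_cast
      rfl
    rw [e1, map_smul, hm, smul_eq_mul]
    have e2 : (2 * (m : ℝ))⁻¹ * m = 1 / 2 := by field_simp
    rw [e2, t3_half]
    norm_num
  · exact ⟨s, h1⟩

end Char

variable {ι M N : Type} [Fintype ι] [DecidableEq ι] [AddCommGroup M] [Module ℚ M] [AddCommGroup N] [Module ℚ N]
  {P : RootPairing ι ℚ M N} [P.IsCrystallographic]

section UKs

variable {b : P.Base} {K : Type} [Field K] [NumberField K]

/-- `u - 1` raises the height for `u ∈ U(K)`. -/
theorem b3_raise {u : GK b K} (hu : u ∈ HU b K) : RaiseBy (ht b) 1 (u.1.1 - 1) := by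
  intro r c hrc
  have h := ((mem_HU b K u).1 hu r c (by lia)).1
  rw [Matrix.sub_apply, h, sub_self]

/-- The coordinates of the character. -/
def b3_co (b : P.Base) {K : Type} [Field K] [NumberField K] (i : b.support) (g : GK b K) : K := g.1.1 (Sum.inl i) (Sum.inr (P.reflectionPerm i i))

theorem b3_hneg (i : b.support) : ht b (Sum.inr (P.reflectionPerm i i)) = -1 := by
  have h := b.height_reflectionPerm_self (i : ι)
  have h1 : b.height (i : ι) = 1 := RootPairing.Base.height_one_of_mem_support i.2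
  have h2 : b.height (P.reflectionPerm i i) = -b.height (i : ι) := h
  change b.height (P.reflectionPerm i i) = -1
  rw [h2, h1]

theorem b3_co_mul {u u' : GK b K} (hu : u ∈ HU b K) (hu' : u' ∈ HU b K) (i : b.support) : b3_co b i (u * u') = b3_co b i u + b3_co b i u' := by
  unfold b3_co
  have e0 : (u * u').1.1 = u.1.1 * u'.1.1 := rfl
  have e : u.1.1 * u'.1.1 = (u.1.1 - 1) * (u'.1.1 - 1) + u.1.1 + u'.1.1 - 1 := by noncomm_ring
  have h2 := b3_mul (b3_raise hu) (b3_raise hu') (Sum.inl i) (Sum.inr (P.reflectionPerm i i)) (by rw [b3_hneg]; simp [ht])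
  rw [e0, e, Matrix.sub_apply, Matrix.add_apply, Matrix.add_apply, h2, Matrix.one_apply_ne (by simp)]
  ring

theorem b3_co_one (i : b.support) : b3_co b i (1 : GK b K) = 0 := by
  unfold b3_co
  have e : (1 : GK b K).1.1 = 1 := rfl
  rw [e, Matrix.one_apply_ne (by simp)]

theorem b3_co_conj {u v : GK b K} (hu : u ∈ HU b K) (hv : v ∈ HU b K) (i : b.support) : b3_co b i (u * v * u⁻¹) = b3_co b i v := by
  have h1 : b3_co b i u + b3_co b i u⁻¹ = 0 := by rw [← b3_co_mul hu (inv_mem hu), mul_inv_cancel, b3_co_one]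
  rw [b3_co_mul (mul_mem hu hv) (inv_mem hu), b3_co_mul hu hv]
  linear_combination h1

theorem b3_psi (θ : b.support → (EE K →ₗ[ℝ] ℝ)) (v : HU b K) : psi b θ (kU b K v) = ee (∑ i, θ i (mixedEmbedding K (b3_co b i v))) := rfl

end UKs

section Dich

variable [P.IsReduced] [P.IsIrreducible] [P.IsRootSystem] {b : P.Base} {K : Type} [Field K] [NumberField K]

/-- The height and the weights. -/
theorem b3_wt {r c : I b} {β : ι} (h : wt b r = wt b c + P.root β) : ht b r = ht b c + b.height β := by
  rcases r with i | γ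
  · rcases c with j | δ
    · exfalso
      have h1 : (0 : M) = 0 + P.root β := h
      rw [zero_add] at h1
      exact P.ne_zero β h1.symm
    · have h1 : (0 : M) = P.root δ + P.root β := h
      have h2 : P.root δ = P.root (P.reflectionPerm β β) := by
        rw [P.root_reflectionPerm, P.reflection_apply_self]
        exact eq_neg_of_add_eq_zero_left h1.symm
      have h3 := P.root.injective h2
      have h4 : b.height (P.reflectionPerm β β) = -b.height β := b.height_reflectionPerm_self β
      change (0 : ℤ) = b.height δ + b.height β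
      rw [h3, h4]
      ring
  · rcases c with j | δ
    · have h1 : P.root γ = 0 + P.root β := h
      rw [zero_add] at h1
      have h3 := P.root.injective h1
      change b.height γ = 0 + b.height β
      rw [h3, zero_add]
    · exact b.height_add h

theorem b3_E (A : Type) [CommRing A] (β : ι) : RaiseBy (ht b) (b.height β) (toA A (E b β)) := by
  intro r c hrc
  by_cases h : E b β r c = 0
  · simp [h]
  · exact absurd (b3_wt (hasWt_E b β r c h)) (by lia)

/-- `x_β(s)` as an element of `G(K)`. -/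
def b3_x (b : P.Base) (β : ι) (s : K) : GK b K := ⟨xG b β s, xG_mem b β s⟩

theorem b3_x_val (β : ι) (s : K) : (b3_x b β s).1.1 = IsNilpotent.exp (s • toA K (E b β)) := (DP_E b β).ex_eq_exp s

theorem b3_x_inv (β : ι) (s : K) : (b3_x b β s)⁻¹ = b3_x b β (-s) := Subtype.ext (xG_inv b β s)

theorem b3_x_raise {β : ι} (hβ : b.IsPos β) (s : K) : RaiseBy (ht b) (b.height β) ((b3_x b β s).1.1 - 1) := by
  rw [b3_x_val]
  exact b3_exp' hβ (b3_smul s (b3_E K β))

theorem b3_x_mem {β : ι} (hβ : b.IsPos β) (s : K) : b3_x b β s ∈ HU b K := by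
  rw [mem_HU]
  intro r c hrc
  have key : ∀ s : K, (b3_x b β s).1.1 r c = (1 : Matrix (I b) (I b) K) r c := by
    intro s
    have h1 : 0 < b.height β := hβ
    have h := b3_x_raise hβ s r c (by lia)
    rw [Matrix.sub_apply, sub_eq_zero] at h
    exact h
  refine ⟨key s, ?_⟩
  rw [b3_x_inv]
  exact key (-s)

/-- The coordinates of `x_β(s)`, `β` positive and not simple. -/
theorem b3_co_two {β : ι} (hβ : 2 ≤ b.height β) (s : K) (i : b.support) : b3_co b i (b3_x b β s) = 0 := by
  have h1 : b.IsPos β := by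
    rw [RootPairing.Base.isPos_iff]
    lia
  have h := b3_x_raise h1 s (Sum.inl i) (Sum.inr (P.reflectionPerm i i)) (by rw [b3_hneg]; simp [ht]; lia)
  rw [Matrix.sub_apply, Matrix.one_apply_ne (by simp), sub_zero] at h
  exact h

/-- The coordinates of `x_i(s)`. -/
theorem b3_co_simple (i j : b.support) (s : K) : b3_co b j (b3_x b i s) = if j = i then s else 0 := by
  have hi : b.height (i : ι) = 1 := RootPairing.Base.height_one_of_mem_support i.2
  have h0 : RaiseBy (ht b) 1 (s • toA K (E b (i : ι))) := b3_smul s (hi ▸ b3_E K (i : ι))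
  have h := b3_exp h0 (Sum.inl j) (Sum.inr (P.reflectionPerm j j)) (by rw [b3_hneg]; simp [ht])
  rw [← b3_x_val, Matrix.sub_apply, Matrix.sub_apply, Matrix.one_apply_ne (by simp), sub_zero, sub_eq_zero] at h
  have h5 : b3_co b j (b3_x b i s) = s * ((E b (i : ι) (Sum.inl j) (Sum.inr (P.reflectionPerm (j : ι) (j : ι))) : ℤ) : K) := h
  rw [h5]
  by_cases hij : j = i
  · subst hij
    rw [E_simple_entry]
    simp
  · rw [if_neg hij]
    have : E b (i : ι) (Sum.inl j) (Sum.inr (P.reflectionPerm (j : ι) (j : ι))) = 0 := by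
      by_contra hne
      have h1 := hasWt_E b (i : ι) _ _ hne
      have h2 : (0 : M) = P.root (P.reflectionPerm (j : ι) (j : ι)) + P.root i := h1
      rw [P.root_reflectionPerm, P.reflection_apply_self] at h2
      have h3 : P.root (i : ι) = P.root (j : ι) := by
        have := (neg_add_eq_zero.1 h2.symm)
        exact this.symm
      exact hij (Subtype.ext (P.root.injective h3)).symm
    rw [this]
    simp

/-- A positive root which is not simple has height at least two. -/
theorem b3_height {β : ι} (hβ : b.IsPos β) (hs : β ∉ b.support) : 2 ≤ b.height β := by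
  have key : β ∈ b.support ∨ 2 ≤ b.height β := by
    have h1 : (β ∈ b.support ∨ 2 ≤ b.height β) ∧ 1 ≤ b.height β := by
      refine hβ.induction_on_add (p := fun β => (β ∈ b.support ∨ 2 ≤ b.height β) ∧ 1 ≤ b.height β) ?_ ?_
      · intro i hi
        exact ⟨Or.inl hi, (RootPairing.Base.height_one_of_mem_support hi).ge⟩
      · intro i j k hk hi hj
        have h2 := b.height_add hk
        have h3 : b.height j = 1 := RootPairing.Base.height_one_of_mem_support hj
        exact ⟨Or.inr (by lia), by lia⟩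
    exact h1.1
  exact key.resolve_left hs

/-- Conjugation by `n`. -/
theorem b3_conj {w : Equiv.Perm ι} {n : GK b K} (hn : IsN b K w n) (β : ι) :
    ∃ c : K, c ≠ 0 ∧ (n.1.1 * toA K (E b β) = (c • toA K (E b (w β))) * n.1.1) ∧ ∀ s : K, n * b3_x b β s = b3_x b (w β) (c * s) * n := by
  obtain ⟨c, hc, h⟩ := hn.rt β
  refine ⟨c, hc, h, fun s => ?_⟩
  apply Subtype.ext
  apply Units.ext
  exact (DP_E b β).conj (DP_E b (w β)) n.1.1 c s h

/-- The alternative for `g = u n u'` if `n x_i(s) n⁻¹ = x_(w i)(t)` with `w α_i` positive and different values of the character. -/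
theorem b3_alt {θ : b.support → (EE K →ₗ[ℝ] ℝ)} {g u n u' : GK b K} (hu : u ∈ HU b K) (hu' : u' ∈ HU b K) (hg : g = u * n * u') {x y : GK b K} (hx : x ∈ HU b K) (hy : y ∈ HU b K)
    (h : n * x = y * n) (hne : ee (∑ i, θ i (mixedEmbedding K (b3_co b i y))) ≠ ee (∑ i, θ i (mixedEmbedding K (b3_co b i x)))) : Alt b θ g := by
  refine ⟨⟨u'⁻¹ * x * u', mul_mem (mul_mem (inv_mem hu') hx) hu'⟩, ⟨u * y * u⁻¹, mul_mem (mul_mem hu hy) (inv_mem hu)⟩, ?_, ?_⟩
  · change g * (u'⁻¹ * x * u') = (u * y * u⁻¹) * g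
    have e1 : g * (u'⁻¹ * x * u') = u * (n * x) * u' := by rw [hg]; group
    rw [e1, h, hg]
    group
  · rw [b3_psi, b3_psi]
    have e1 : ∀ i, b3_co b i (u * y * u⁻¹) = b3_co b i y := b3_co_conj hu hy
    have e2 : ∀ i, b3_co b i (u'⁻¹ * x * u') = b3_co b i x := by
      intro i
      have := b3_co_conj (inv_mem hu') hx i
      rw [inv_inv] at this
      exact this
    simp only [e1, e2]
    exact hne

theorem b3_sum_single (θ : b.support → (EE K →ₗ[ℝ] ℝ)) (i : b.support) (s : K) : ∑ j, θ j (mixedEmbedding K (if j = i then s else 0)) = θ i (mixedEmbedding K s) := by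
  rw [Finset.sum_eq_single i]
  · rw [if_pos rfl]
  · intro j _ hj
    rw [if_neg hj, map_zero, map_zero]
  · intro h
    exact absurd (Finset.mem_univ i) h

theorem b3_toA (β : ι) (r c : I b) : toA K (E b β) r c = ((E b β r c : ℤ) : K) := rfl

/-- The weight zero occurs only for the indices `inl`. -/
theorem b3_wt0 {r : I b} (h : wt b r = 0) : ∃ i, r = Sum.inl i := by
  rcases r with i | γ
  · exact ⟨i, rfl⟩
  · exact absurd h (P.ne_zero γ)

theorem b3_wtr {r : I b} {γ : ι} (h : wt b r = P.root γ) : r = Sum.inr γ := by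
  rcases r with i | δ
  · exact absurd h.symm (P.ne_zero γ)
  · have h1 : P.root δ = P.root γ := h
    rw [P.root.injective h1]

/-- If `n` fixes the weight spaces and commutes with the `e_i` then `n` is diagonal. -/
theorem b3_diag {n : GK b K} (hn : IsN b K 1 n) (hc : ∀ i : b.support, n.1.1 * toA K (E b (i : ι)) = toA K (E b (i : ι)) * n.1.1) {r c : I b} (hrc : r ≠ c) : n.1.1 r c = 0 := by
  rcases c with i | γ
  · rcases r with k | δ
    · have h1 := congrFun (congrFun (hc i) (Sum.inl k)) (Sum.inr (P.reflectionPerm i i))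
      rw [Matrix.mul_apply, Matrix.mul_apply, Finset.sum_eq_single (Sum.inl i : I b), Finset.sum_eq_single (Sum.inr (P.reflectionPerm i i) : I b), b3_toA, b3_toA, E_simple_entry, E_simple_entry] at h1
      · have hki : k ≠ i := fun h => hrc (by rw [h])
        rw [if_pos rfl, if_neg hki] at h1
        push_cast at h1
        rw [mul_one, zero_mul] at h1
        exact h1
      · intro m _ hm
        have h2 : n.1.1 m (Sum.inr (P.reflectionPerm (i : ι) (i : ι))) = 0 := by
          by_contra hne
          exact hm (hn.vr _ _ hne)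
        rw [h2, mul_zero]
      · intro h
        exact absurd (Finset.mem_univ _) h
      · intro m _ hm
        have h2 : E b (i : ι) m (Sum.inr (P.reflectionPerm (i : ι) (i : ι))) = 0 := by
          by_contra hne
          have h3 := hasWt_E b (i : ι) _ _ hne
          have h4 : wt b m = 0 := by
            rw [h3]
            change P.root (P.reflectionPerm (i : ι) (i : ι)) + P.root i = 0
            rw [P.root_reflectionPerm, P.reflection_apply_self, neg_add_cancel]
          obtain ⟨j, rfl⟩ := b3_wt0 h4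
          rw [E_simple_entry] at hne
          by_cases hji : j = i
          · exact hm (by rw [hji])
          · rw [if_neg hji] at hne
            exact hne rfl
        rw [b3_toA, h2]
        push_cast
        rw [mul_zero]
      · intro h
        exact absurd (Finset.mem_univ _) h
    · by_contra hne
      obtain ⟨i, h⟩ := hn.v0 _ _ hne
      exact absurd h (by simp)
  · by_contra hne
    exact hrc (hn.vr _ _ hne)

/-- (3.2): if `n` fixes the weight spaces and commutes with the `e_i` then `n` is scalar. -/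
theorem b3_scalar {n : GK b K} (hn : IsN b K 1 n) (hc : ∀ i : b.support, n.1.1 * toA K (E b (i : ι)) = toA K (E b (i : ι)) * n.1.1) : ∃ z : K, n.1.1 = z • (1 : Matrix (I b) (I b) K) := by
  classical
  set t : I b → K := fun r => n.1.1 r r with ht
  have hX : n.1.1 = Matrix.diagonal t := by
    ext r c
    by_cases h : r = c
    · subst h
      rw [Matrix.diagonal_apply_eq]
    · rw [b3_diag hn hc h, Matrix.diagonal_apply_ne _ h]
  have hrel : ∀ (i : b.support) (r c : I b), E b (i : ι) r c ≠ 0 → t r = t c := by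
    intro i r c hne
    have h1 := congrFun (congrFun (hc i) r) c
    rw [hX, Matrix.diagonal_mul, Matrix.mul_diagonal, b3_toA, mul_comm] at h1
    exact mul_left_cancel₀ (by exact_mod_cast hne) h1
  have r1 : ∀ i : b.support, t (Sum.inl i) = t (Sum.inr (P.reflectionPerm i i)) := by
    intro i
    refine hrel i _ _ ?_
    rw [E_simple_entry, if_pos rfl]
    exact one_ne_zero
  have r2 : ∀ i j : b.support, b.cartanMatrix i j ≠ 0 → t (Sum.inr i) = t (Sum.inl j) := by
    intro i j hij
    refine hrel i _ _ ?_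
    rw [E_simple]
    have e : eZ b i (Sum.inr i) (Sum.inl j) = |b.cartanMatrix i j| := by
      simp [eZ]
    rw [e]
    exact abs_ne_zero.2 hij
  have r3 : ∀ (i : b.support) (γ δ : ι), P.root γ = P.root i + P.root δ → t (Sum.inr γ) = t (Sum.inr δ) := by
    intro i γ δ h
    refine hrel i _ _ ?_
    rw [E_simple]
    have e : eZ b i (Sum.inr γ) (Sum.inr δ) = (P.chainBotCoeff i δ : ℤ) + 1 := by
      simp [eZ, h]
    rw [e]
    positivity
  have hng : ∀ β, P.root (P.reflectionPerm β β) = -P.root β := fun β => by rw [P.root_reflectionPerm, P.reflection_apply_self]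
  by_cases hne : Nonempty b.support
  · obtain ⟨i0⟩ := hne
    have s1 : ∀ j : b.support, t (Sum.inl j) = t (Sum.inl i0) := by
      intro j
      refine b.induction_on_cartanMatrix (fun j => t (Sum.inl j) = t (Sum.inl i0)) (i := i0) rfl ?_
      intro i j hi hij
      have h1 := r2 j i hij
      have h2 := r2 j j (by rw [b.cartanMatrix_apply_same]; norm_num)
      change t (Sum.inl j) = t (Sum.inl i0)
      rw [← h2, h1]
      exact hi
    have s2 : ∀ j : b.support, t (Sum.inr j) = t (Sum.inl i0) := by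
      intro j
      rw [r2 j j (by rw [b.cartanMatrix_apply_same]; norm_num), s1]
    have s3 : ∀ β, b.IsPos β → t (Sum.inr β) = t (Sum.inl i0) ∧ t (Sum.inr (P.reflectionPerm β β)) = t (Sum.inl i0) := by
      intro β hβ
      refine hβ.induction_on_add (p := fun β => t (Sum.inr β) = t (Sum.inl i0) ∧ t (Sum.inr (P.reflectionPerm β β)) = t (Sum.inl i0)) ?_ ?_
      · intro i hi
        exact ⟨s2 ⟨i, hi⟩, by rw [← r1 ⟨i, hi⟩, s1]⟩
      · intro i j k hk hi hj
        refine ⟨?_, ?_⟩
        · rw [r3 ⟨j, hj⟩ k i (by rw [hk, add_comm])]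
          exact hi.1
        · rw [← r3 ⟨j, hj⟩ (P.reflectionPerm i i) (P.reflectionPerm k k) (by rw [hng, hng, hk]; abel)]
          exact hi.2
    refine ⟨t (Sum.inl i0), ?_⟩
    rw [hX, Matrix.smul_one_eq_diagonal]
    refine congrArg Matrix.diagonal (funext fun r => ?_)
    rcases r with j | β
    · exact s1 j
    · by_cases hβ : b.IsPos β
      · exact (s3 β hβ).1
      · have h1 := (RootPairing.Base.IsPos.neg_iff_not b β).2 hβ
        have h2 := (s3 _ h1).2
        have e : P.reflectionPerm (P.reflectionPerm β β) (P.reflectionPerm β β) = β := by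
          apply P.root.injective
          rw [hng, hng, neg_neg]
        have h3 : t (Sum.inr (P.reflectionPerm (P.reflectionPerm β β) (P.reflectionPerm β β))) = t (Sum.inl i0) := h2
        rw [e] at h3
        exact h3
  · refine ⟨1, ?_⟩
    have h0 : ∀ β, ¬b.IsPos β := by
      intro β hβ
      exact hβ.induction_on_add (p := fun _ => False) (fun i hi => hne ⟨⟨i, hi⟩⟩) (fun _ _ _ _ h _ => h)
    ext r c
    rcases r with j | β
    · exact absurd ⟨j⟩ hne
    · exact absurd ((RootPairing.Base.IsPos.neg_iff_not b β).2 (h0 β)) (h0 _)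

/-- **The dichotomy** ((3.2), (3.3) of PROOF.md) for `g = u n u'`. -/
theorem b3_dich (hU : ∀ u ∈ HU b K, Uni b u.1.1) {θ : b.support → (EE K →ₗ[ℝ] ℝ)} (hθ : ∀ i, θ i ≠ 0) {g u n u' : GK b K} {w : Equiv.Perm ι} (hu : u ∈ HU b K) (hu' : u' ∈ HU b K) (hn : IsN b K w n)
    (hg : g = u * n * u') :
    (∃ z : K, ∃ u ∈ HU b K, g.1.1 = z • u.1.1) ∨ Alt b θ g ∨ ∃ i j w, w ∈ WP P ∧ OppW b i j w ∧ Dm b i w g.1.1 ≠ 0 := by
  rcases b2_comb b hn.mem with h1 | ⟨i, hi, hp, hs⟩ | ⟨i, j, hij⟩
  · subst h1
    by_cases hc : ∀ i : b.support, n.1.1 * toA K (E b (i : ι)) = toA K (E b (i : ι)) * n.1.1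
    · left
      obtain ⟨z, hz⟩ := b3_scalar hn hc
      refine ⟨z, u * u', mul_mem hu hu', ?_⟩
      have e : g.1.1 = u.1.1 * n.1.1 * u'.1.1 := by rw [hg]; rfl
      have e' : (u * u').1.1 = u.1.1 * u'.1.1 := rfl
      rw [e, hz, e', Matrix.mul_smul, Matrix.smul_mul, mul_one]
    · right
      left
      push Not at hc
      obtain ⟨i, hi⟩ := hc
      obtain ⟨c, hc0, h1, h2⟩ := b3_conj hn (i : ι)
      have hc1 : c ≠ 1 := by
        rintro rfl
        rw [one_smul] at h1
        exact hi h1
      obtain ⟨s0, hs0⟩ := b3_ex (hθ i)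
      have hip : b.IsPos (i : ι) := b.isPos_of_mem_support i.2
      refine b3_alt hu hu' hg (b3_x_mem hip (s0 / (c - 1))) (b3_x_mem hip (c * (s0 / (c - 1)))) (h2 _) ?_
      simp only [b3_co_simple, b3_sum_single]
      intro heq
      have e : c * (s0 / (c - 1)) = s0 / (c - 1) + s0 := by
        have : c - 1 ≠ 0 := sub_ne_zero.2 hc1
        field_simp
        ring
      rw [e, map_add, map_add, ee_add] at heq
      have h3 : ee (θ i (mixedEmbedding K (s0 / (c - 1)))) ≠ 0 := by
        intro h
        have := ee_norm (θ i (mixedEmbedding K (s0 / (c - 1))))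
        rw [h, norm_zero] at this
        exact absurd this (by norm_num)
      exact hs0 (mul_left_cancel₀ h3 (by rw [heq, mul_one]))
  · right
    left
    obtain ⟨c, hc0, h1, h2⟩ := b3_conj hn i
    obtain ⟨s0, hs0⟩ := b3_ex (hθ ⟨i, hi⟩)
    have hip : b.IsPos i := b.isPos_of_mem_support hi
    have e1 := b3_co_simple (K := K) (b := b) ⟨i, hi⟩
    refine b3_alt hu hu' hg (b3_x_mem hip s0) (b3_x_mem hp (c * s0)) (h2 _) ?_
    have e2 : ∀ j, b3_co b j (b3_x b (w i) (c * s0)) = 0 := fun j => b3_co_two (b3_height hp hs) _ j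
    have e3 : ∀ j, b3_co b j (b3_x b i s0) = if j = ⟨i, hi⟩ then s0 else 0 := fun j => e1 j s0
    simp only [e2, e3, b3_sum_single, map_zero, Finset.sum_const_zero, ee_zero]
    exact hs0.symm
  · right
    right
    refine ⟨i, j, w, hn.mem, hij, ?_⟩
    have e : g.1.1 = u.1.1 * n.1.1 * u'.1.1 := by rw [hg]; rfl
    rw [e, dm_uni (j := j) hij (hU u hu) (hU u' hu')]
    refine dm_mono_ne (fun β _ r hr => ?_) fun β _ => ?_
    · by_contra hne
      exact hr (hn.vr _ _ hne)
    · intro h0
      have h1 : n.1⁻¹.1 * n.1.1 = 1 := by rw [← Units.val_mul, inv_mul_cancel, Units.val_one]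
      have h2 := congrFun (congrFun h1 (Sum.inr β)) (Sum.inr β)
      rw [Matrix.mul_apply, Matrix.one_apply_eq, Finset.sum_eq_zero] at h2
      · exact absurd h2 zero_ne_one
      · intro m _
        by_cases hm : m = Sum.inr (w β)
        · rw [hm, h0, mul_zero]
        · have : n.1.1 m (Sum.inr β) = 0 := by
            by_contra hne
            exact hm (hn.vr _ _ hne)
          rw [this, mul_zero]

end Dich

end

end Pool.Agent.Lib.L1S
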