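import Pool.Agent.Lib.L1S.D3

/-!
# L1S, D4: the minors are zero
-/

namespace Pool.Agent.Lib.L1S

open MeasureTheory Matrix NumberField IsDedekindDomain Pool.Agent.Lib.H89N Pool.Agent.Lib.H33W

noncomputable section

set_option linter.unusedSectionVars false

variable {ι M N : Type} [Fintype ι] [DecidableEq ι] [AddCommGroup M] [Module ℚ M] [AddCommGroup N] [Module ℚ N]
  {P : RootPairing ι ℚ M N} [P.IsCrystallographic] [P.IsRootSystem]

/-- `d A(σ_i) ≥ L H_i` if `d A(α_k) ≥ L` for all `k`. -/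
theorem d4_AA [P.IsReduced] {b : P.Base} {d L : ℝ} (A : M →ₗ[ℚ] ℝ) (hA : ∀ i : b.support, L ≤ d * A (P.root i)) (i : b.support) :
    L * HH b i ≤ d * AA b A i := by
  have key : ∀ β : ι, b.IsPos β → L * (b.height β : ℝ) ≤ d * A (P.root β) := by
    intro β hβ
    refine hβ.induction_on_add (p := fun β => L * (b.height β : ℝ) ≤ d * A (P.root β)) ?_ ?_
    · intro k hk
      rw [RootPairing.Base.height_one_of_mem_support hk]
      have := hA ⟨k, hk⟩
      simpa using this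
    · intro k l m hm h1 hl
      rw [b.height_add hm, hm, map_add, RootPairing.Base.height_one_of_mem_support hl]
      have := hA ⟨l, hl⟩
      push_cast
      linarith
  unfold HH AA
  push_cast
  rw [Finset.mul_sum, Finset.mul_sum]
  exact Finset.sum_le_sum fun β hβ => key β (d3_pos hβ)

theorem d4_card {b : P.Base} (i : b.support) : 1 ≤ (Phi b i).card := by
  refine Finset.card_pos.2 ⟨(i : ι), ?_⟩
  rw [d1_mem_phi]
  unfold wq
  simp

/-- **TARGET D5, the conclusion of the module D** (`hU`: the statement of the module L on `U`): there is `m₀` such that for all `m ≥ m₀` prime to `v`: if `γ ∈ h⁻¹ Γ(m 𝔫) h` moves a point of `U a Ω` to a point of `U a Ω`, then all minors `Dm b i w γ` with `w Φ_i = - Φ_j`, `w` in the Weyl group, are zero. -/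
theorem dm_zero [P.IsReduced] (b : P.Base) (K : Type) [Field K] [NumberField K] (hU : ∀ u ∈ UR b K, Uni b u.1.1) (Ω : Set (GL (I b) (EE K))) (hΩ : IsCompact Ω) :
    ∃ m₀ : ℕ, ∀ m : ℕ, m₀ ≤ m → ∀ (v : HeightOneSpectrum (𝓞 K)), (m : 𝓞 K) ∉ v.asIdeal →
    ∀ (𝔫 : Ideal (𝓞 K)) (r s : ℕ) (c : b.support → ℤ) (π : K) (h : GK b K), Lv b 𝔫 v r s c π h → Sz b 𝔫 v r s c →
    ∀ A : M →ₗ[ℚ] ℝ, (∀ i : b.support, Real.log (Ideal.absNorm 𝔫) ≤ Module.finrank ℚ K * A (P.root i)) →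
    ∀ γ ∈ Gm b 𝔫 v r s m h, Mv b Ω A (emb b K γ) →
    ∀ (i j : b.support) (w : Equiv.Perm ι), w ∈ Subgroup.closure (Set.range P.reflectionPerm) → OppW b i j w → Dm b i w γ.1.1 = 0 := by
  obtain ⟨C, hC0, hC⟩ := dm_arch b K hU Ω hΩ
  refine ⟨⌈C⌉₊ + 1, fun m hm v hmv 𝔫 r s c π h hL hS A hA γ hγ hM i j w hw hO => ?_⟩
  by_contra hD
  set q : ℝ := (Ideal.absNorm v.asIdeal : ℝ) with hq
  set n : ℝ := (Ideal.absNorm 𝔫 : ℝ) with hn
  set k : ℕ := (Phi b i).card with hk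
  set d : ℝ := (Module.finrank ℚ K : ℝ) with hd
  have hq0 : 0 < q := nu2_pos v
  have hn0 : 0 < n := by
    rw [hn]
    have := Ideal.absNorm_ne_zero_iff_mem_nonZeroDivisors.2 (mem_nonZeroDivisors_of_ne_zero hL.ne)
    exact_mod_cast Nat.pos_of_ne_zero this
  have hm0 : (m : 𝓞 K) ≠ 0 := by
    intro h0
    exact hmv (h0 ▸ v.asIdeal.zero_mem)
  have hm0' : m ≠ 0 := by
    rintro rfl
    exact hm0 Nat.cast_zero
  have h0 : Ideal.span {(m : 𝓞 K)} * 𝔫 ≠ ⊥ := by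
    refine mul_ne_zero ?_ hL.ne
    rw [Ne, Ideal.zero_eq_bot, Ideal.span_singleton_eq_bot]
    exact hm0
  have hv : ¬Ideal.span {(m : 𝓞 K)} * 𝔫 ≤ v.asIdeal := by
    intro h1
    rcases v.isPrime.mul_le.1 h1 with h2 | h2
    · exact hmv (h2 (Ideal.mem_span_singleton_self _))
    · exact hL.nv h2
  have hγ0 : h * γ * h⁻¹ ∈ GamK b (Ideal.span {(m : 𝓞 K)} * 𝔫) v r s := hγ
  have e1 : h⁻¹ * (h * γ * h⁻¹) * h = γ := by group
  obtain ⟨h1, h2⟩ := dm_conj (𝔞 := Ideal.span {(m : 𝓞 K)} * 𝔫) hv hL.hπ c hL.hh hL.hv hγ0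
  rw [e1] at h1 h2
  have h3 := dm_adic h0 hv c (r + s) h1 h2 hO hD
  have h4 := hC A γ hM i j w hO
  have h5 := hS i j ⟨w, hw, hO⟩
  have h6 := d4_AA A hA i
  have h7 := d4_AA A hA j
  have hnorm : (Ideal.absNorm (Ideal.span {(m : 𝓞 K)} * 𝔫) : ℝ) = (m : ℝ) ^ Module.finrank ℤ (𝓞 K) * n := by
    rw [map_mul, Ideal.absNorm_span_natCast, hn]
    push_cast
    rfl
  rw [hnorm] at h3
  have hE : Real.exp (-(d * (AA b A i + AA b A j))) ≤ n ^ (-(HH b i + HH b j)) := by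
    have h8 : Real.exp (-(d * (AA b A i + AA b A j))) ≤ Real.exp (-(Real.log n * (HH b i + HH b j))) := by
      refine Real.exp_le_exp.2 ?_
      have h9 : Real.log n * (HH b i + HH b j) ≤ d * (AA b A i + AA b A j) := by
        rw [mul_add, mul_add]
        exact add_le_add h6 h7
      linarith
    refine h8.trans (le_of_eq ?_)
    rw [← Real.rpow_intCast, Real.rpow_def_of_pos hn0]
    congr 1
    push_cast
    ring
  have h10 : q ^ (sS b c i + sS b c j - ((r + s : ℕ) : ℤ) * k) ≤ n ^ ((k : ℤ) + HH b i + HH b j) := by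
    have e2 : sS b c i + sS b c j - ((r + s : ℕ) : ℤ) * k = ∑ β ∈ Phi b i, pr b c (Sum.inr β) + ∑ β ∈ Phi b j, pr b c (Sum.inr β) - ((r : ℤ) + s) * (Phi b i).card := by
      unfold sS
      push_cast
      rfl
    rw [e2]
    exact h5
  have h11 : ((m : ℝ) ^ Module.finrank ℤ (𝓞 K) * n) ^ k ≤ C * n ^ (k : ℤ) := by
    calc ((m : ℝ) ^ Module.finrank ℤ (𝓞 K) * n) ^ k ≤ _ := h3
      _ ≤ (C * n ^ (-(HH b i + HH b j))) * n ^ ((k : ℤ) + HH b i + HH b j) := by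
          refine mul_le_mul (h4.trans (mul_le_mul_of_nonneg_left hE hC0.le)) h10 (zpow_pos hq0 _).le ?_
          exact mul_nonneg hC0.le (zpow_pos hn0 _).le
      _ = C * n ^ (k : ℤ) := by
          rw [mul_assoc, ← zpow_add₀ hn0.ne']
          congr 2
          ring
  rw [mul_pow, zpow_natCast, mul_le_mul_iff_left₀ (pow_pos hn0 k)] at h11
  have hk1 : 1 ≤ k := d4_card i
  have hf1 : 1 ≤ Module.finrank ℤ (𝓞 K) := Module.finrank_pos
  have hm1 : (1 : ℝ) ≤ m := by exact_mod_cast Nat.one_le_iff_ne_zero.2 hm0'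
  have h12 : (m : ℝ) ≤ ((m : ℝ) ^ Module.finrank ℤ (𝓞 K)) ^ k := by
    rw [← pow_mul]
    exact le_self_pow₀ hm1 (by positivity)
  have h13 : C < m := by
    have h14 : C ≤ ⌈C⌉₊ := Nat.le_ceil C
    have h15 : ((⌈C⌉₊ + 1 : ℕ) : ℝ) ≤ m := by exact_mod_cast hm
    push_cast at h15
    linarith
  linarith

end

end Pool.Agent.Lib.L1S
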