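import Pool.Agent.Lib.L1S.B3
import Pool.Agent.Lib.L1S.D4

/-!
# L1S, module B9 (helper43): the dichotomy for the elements of `h⁻¹ Γ_m h` (glue of B1, B3, D4 and the scalar step)
-/

namespace Pool.Agent.Lib.L1S

set_option linter.unusedSectionVars false

open Matrix NumberField IsDedekindDomain Pool.Agent.Lib.H89N Pool.Agent.Lib.H33W

noncomputable section

/-- A root of unity `z` with `k (z - 1) ∈ m 𝓞`, `m > 2 k`, is equal to `1`. -/
theorem b9_unit {K : Type} [Field K] [NumberField K] {k m : ℕ} (hk : k ≠ 0) (hm : 2 * k < m) {z : K} (hz : z ^ k = 1) (hI : InI (Ideal.span {(m : 𝓞 K)}) ((k : K) * (z - 1))) :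
    z = 1 := by
  by_contra hne
  obtain ⟨y, hy, hyz⟩ := hI
  obtain ⟨x, rfl⟩ := Ideal.mem_span_singleton'.1 hy
  have hm0 : (0 : ℝ) < m := by exact_mod_cast (by lia : 0 < m)
  have h1 : ((x : 𝓞 K) : K) * (m : K) = (k : K) * (z - 1) := by
    rw [← hyz]
    push_cast
    rfl
  have hx : (x : 𝓞 K) ≠ 0 := by
    rintro rfl
    rw [RingOfIntegers.coe_eq_algebraMap, map_zero, zero_mul] at h1
    rcases mul_eq_zero.1 h1.symm with h | h
    · exact hk (by exact_mod_cast h)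
    · exact hne (sub_eq_zero.1 h)
  have h2 : (1 : ℝ) ≤ ‖(algebraMap ℚ ℂ) (Algebra.norm ℚ (x : K))‖ := by
    have h3 : Algebra.norm ℤ x ≠ 0 := by
      rw [Ne, Algebra.norm_eq_zero_iff]
      exact hx
    have h4 : (Algebra.norm ℚ (x : K) : ℚ) = ((Algebra.norm ℤ x : ℤ) : ℚ) := (Algebra.coe_norm_int x).symm
    rw [h4]
    simp only [map_intCast]
    rw [Complex.norm_intCast]
    exact_mod_cast Int.one_le_abs h3
  rw [Algebra.norm_eq_prod_embeddings ℚ ℂ, norm_prod] at h2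
  have h5 : ∀ σ : K →ₐ[ℚ] ℂ, ‖σ (x : K)‖ ≤ 2 * k / m := by
    intro σ
    have h6 : σ (x : K) * (m : ℂ) = (k : ℂ) * (σ z - 1) := by
      have := congrArg σ h1
      simpa using this
    have h7 : ‖σ z‖ = 1 := by
      have : (σ z) ^ k = 1 := by rw [← map_pow, hz, map_one]
      exact Complex.norm_eq_one_of_pow_eq_one this hk
    have h8 : ‖σ (x : K)‖ * m = k * ‖σ z - 1‖ := by
      have := congrArg norm h6
      rw [norm_mul, norm_mul, Complex.norm_natCast, Complex.norm_natCast] at this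
      exact this
    have h9 : ‖σ z - 1‖ ≤ 2 := (norm_sub_le _ _).trans (by rw [h7, norm_one]; norm_num)
    rw [le_div_iff₀ hm0, h8, mul_comm]
    exact mul_le_mul_of_nonneg_right h9 (Nat.cast_nonneg k)
  have h10 : ∏ σ : K →ₐ[ℚ] ℂ, ‖σ (x : K)‖ ≤ ∏ σ : K →ₐ[ℚ] ℂ, (2 * k / m : ℝ) := Finset.prod_le_prod (fun _ _ => norm_nonneg _) fun σ _ => h5 σ
  rw [Finset.prod_const, Finset.card_univ] at h10
  have h11 : (2 * k / m : ℝ) < 1 := by
    rw [div_lt_one hm0]
    exact_mod_cast hm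
  have h12 : Fintype.card (K →ₐ[ℚ] ℂ) ≠ 0 := by
    rw [AlgHom.card]
    exact (Module.finrank_pos).ne'
  have h13 := pow_lt_one₀ (by positivity) h11 h12
  linarith

variable {ι M N : Type} [Fintype ι] [DecidableEq ι] [AddCommGroup M] [Module ℚ M] [AddCommGroup N] [Module ℚ N]
  {P : RootPairing ι ℚ M N} [P.IsCrystallographic] [P.IsRootSystem] [P.IsReduced] [P.IsIrreducible]

/-- The elements of `G(K)` have determinant one. -/
theorem b9_det {b : P.Base} {K : Type} [Field K] [NumberField K] (g : GK b K) : g.1.1.det = 1 := by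
  obtain ⟨g, hg⟩ := g
  change g.1.det = 1
  rw [GQ_eq] at hg
  induction hg using Subgroup.closure_induction with
  | mem x hx =>
    have key : ∀ (f : I b → ℤ) (X : Matrix (I b) (I b) K), RaiseBy f 1 X → (IsNilpotent.exp X).det = 1 := by
      intro f X hX
      refine d1_det_one f _ fun r c => ?_
      by_cases h : f c < f r
      · exact Or.inr h
      · left
        have h1 := b3_exp' le_rfl hX r c (by lia)
        rw [Matrix.sub_apply, sub_eq_zero] at h1
        exact h1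
    obtain ⟨i, t, rfl | rfl⟩ := hx
    · have e : (xG b (i : ι) t).1 = IsNilpotent.exp (t • toA K (E b (i : ι))) := (DP_E b (i : ι)).ex_eq_exp t
      rw [e]
      have hi : b.height (i : ι) = 1 := RootPairing.Base.height_one_of_mem_support i.2
      exact key (ht b) _ (b3_smul t (hi ▸ b3_E K (i : ι)))
    · have e : (xG b (ng P i) t).1 = IsNilpotent.exp (t • toA K (E b (ng P i))) := (DP_E b (ng P i)).ex_eq_exp t
      rw [e]
      refine key (fun r => -ht b r) _ (b3_smul t ?_)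
      intro r c hrc
      by_cases h : E b (ng P i) r c = 0
      · simp [h]
      · have h1 := b3_wt (hasWt_E b (ng P i) r c h)
        have h2 : b.height (ng P (i : ι)) = -b.height (i : ι) := b.height_reflectionPerm_self (i : ι)
        have h3 : b.height (i : ι) = 1 := RootPairing.Base.height_one_of_mem_support i.2
        rw [h2, h3] at h1
        exact absurd hrc (by lia)
  | one => simp
  | mul x y _ _ hx hy =>
    rw [Units.val_mul, Matrix.det_mul, hx, hy, one_mul]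
  | inv x _ hx =>
    have h1 : x.1 * x⁻¹.1 = 1 := by rw [← Units.val_mul, mul_inv_cancel, Units.val_one]
    have h2 := congrArg Matrix.det h1
    rw [Matrix.det_mul, hx, one_mul, Matrix.det_one] at h2
    exact h2

/-- The scalar step: `γ = z u` in `h⁻¹ Γ_m h` implies `z = 1`. -/
theorem b9_scal {b : P.Base} {K : Type} [Field K] [NumberField K] {𝔫 : Ideal (𝓞 K)} {v : HeightOneSpectrum (𝓞 K)} {r s m : ℕ} {h γ : GK b K} (hm : 2 * Fintype.card (I b) < m)
    (hγ : γ ∈ Gm b 𝔫 v r s m h) {z : K} {u : GK b K} (hu : u ∈ HU b K) (e : γ.1.1 = z • u.1.1) : γ ∈ HU b K := by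
  by_cases hk : Fintype.card (I b) = 0
  · rw [mem_HU]
    intro i
    exact absurd ⟨i⟩ (not_nonempty_iff.2 (Fintype.card_eq_zero_iff.1 hk))
  have h0 : h * γ * h⁻¹ ∈ GamK b (Ideal.span {(m : 𝓞 K)} * 𝔫) v r s := hγ
  have hz : z ^ Fintype.card (I b) = 1 := by
    have h1 := congrArg Matrix.det e
    rw [Matrix.det_smul, b9_det, b9_det, mul_one] at h1
    exact h1.symm
  have htr : (h * γ * h⁻¹).1.1.trace = (Fintype.card (I b) : K) * z := by
    have e1 : (h * γ * h⁻¹).1.1 = h.1.1 * γ.1.1 * h.1⁻¹.1 := rfl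
    rw [e1, Matrix.trace_mul_cycle]
    have e2 : h.1⁻¹.1 * h.1.1 = 1 := by rw [← Units.val_mul, inv_mul_cancel, Units.val_one]
    rw [e2, one_mul, e, Matrix.trace_smul, smul_eq_mul, mul_comm]
    congr 1
    have h2 : ∀ i, u.1.1 i i = 1 := fun i => by
      have := ((mem_HU b K u).1 hu i i le_rfl).1
      rw [Matrix.one_apply_eq] at this
      exact this
    unfold Matrix.trace
    simp [Matrix.diag, h2]
  have hI : InI (Ideal.span {(m : 𝓞 K)}) ((Fintype.card (I b) : K) * (z - 1)) := by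
    have e3 : (Fintype.card (I b) : K) * (z - 1) = ∑ i, ((h * γ * h⁻¹).1.1 - 1) i i := by
      have e4 : ∑ i, ((h * γ * h⁻¹).1.1 - 1) i i = ((h * γ * h⁻¹).1.1 - 1).trace := rfl
      rw [e4, Matrix.trace_sub, htr, Matrix.trace_one]
      ring
    rw [e3]
    refine InI.sum _ _ fun i _ => ?_
    obtain ⟨y, hy, hy'⟩ := (h0 i i).1.1
    exact ⟨y, Ideal.mul_le_left hy, hy'⟩
  have hz1 := b9_unit hk hm hz hI
  have e5 : γ = u := by
    apply Subtype.ext
    apply Units.ext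
    rw [e, hz1, one_smul]
  rw [e5]
  exact hu

/-- **The dichotomy for the elements of `h⁻¹ Γ_m h`**, from the Bruhat decomposition and the statement on `U` of the module L. -/
theorem b9_star (b : P.Base) (K : Type) [Field K] [NumberField K] (hUR : ∀ u ∈ UR b K, Uni b u.1.1) (hUK : ∀ u ∈ HU b K, Uni b u.1.1)
    (hB : ∀ g : GK b K, ∃ (w : Equiv.Perm ι) (u n u' : GK b K), u ∈ HU b K ∧ u' ∈ HU b K ∧ IsN b K w n ∧ g = u * n * u') {Ω : Set (GL (I b) (EE K))} (hΩ : IsCompact Ω) :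
    ∃ m₀ : ℕ, ∀ m : ℕ, m₀ ≤ m → ∀ (v : HeightOneSpectrum (𝓞 K)), (m : 𝓞 K) ∉ v.asIdeal →
    ∀ (𝔫 : Ideal (𝓞 K)) (r s : ℕ) (c : b.support → ℤ) (π : K) (h : GK b K), Lv b 𝔫 v r s c π h → Sz b 𝔫 v r s c →
    ∀ A : M →ₗ[ℚ] ℝ, (∀ i : b.support, Real.log (Ideal.absNorm 𝔫) ≤ Module.finrank ℚ K * A (P.root i)) →
    ∀ θ : b.support → (EE K →ₗ[ℝ] ℝ), (∀ i, θ i ≠ 0) → ∀ γ ∈ Gm b 𝔫 v r s m h, γ ∉ HU b K → Mv b Ω A (emb b K γ) → Alt b θ γ := by
  obtain ⟨m₁, h1⟩ := dm_zero b K hUR Ω hΩ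
  refine ⟨max m₁ (2 * Fintype.card (I b) + 1), fun m hm v hmv 𝔫 r s c π h hL hS A hA θ hθ γ hγ hγU hM => ?_⟩
  obtain ⟨w, u, n, u', hu, hu', hn, hg⟩ := hB γ
  rcases b3_dich hUK hθ hu hu' hn hg with ⟨z, u1, hu1, e⟩ | hA | ⟨i, j, w1, hw1, hO, hD⟩
  · exact absurd (b9_scal (by have := le_of_max_le_right hm; lia) hγ hu1 e) hγU
  · exact hA
  · exact absurd (h1 m (le_of_max_le_left hm) v hmv 𝔫 r s c π h hL hS A hA γ hγ hM i j w1 hw1 hO) hD

end

end Pool.Agent.Lib.L1S
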