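import Pool.Agent.Lib.L1S.B1
import Pool.Agent.Lib.L1S.B9
import Pool.Agent.Lib.L1S.ApiL2

/-!
# L1S, module BF (helper43): the final statement of the modules B and D
-/

namespace Pool.Agent.Lib.L1S

open Matrix NumberField IsDedekindDomain Pool.Agent.Lib.H89N Pool.Agent.Lib.H33W

noncomputable section

variable {ι M N : Type} [Fintype ι] [DecidableEq ι] [AddCommGroup M] [Module ℚ M] [AddCommGroup N] [Module ℚ N]
  {P : RootPairing ι ℚ M N} [P.IsCrystallographic] [P.IsRootSystem] [P.IsReduced] [P.IsIrreducible]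
  (b : P.Base)

/-- (B, D, (3)) The dichotomy for the elements of `h⁻¹ Γ_m h`, `m ≥ m₀` prime to `v`. -/
theorem bf_star_main (K : Type) [Field K] [NumberField K] {Ω : Set (GL (I b) (EE K))} (hΩ : IsCompact Ω) : ∃ m₀ : ℕ, ∀ m : ℕ, m₀ ≤ m → ∀ (v : HeightOneSpectrum (𝓞 K)), (m : 𝓞 K) ∉ v.asIdeal →
    ∀ (𝔫 : Ideal (𝓞 K)) (r s : ℕ) (c : b.support → ℤ) (π : K) (h : GK b K), Lv b 𝔫 v r s c π h → Sz b 𝔫 v r s c →
    ∀ A : M →ₗ[ℚ] ℝ, (∀ i : b.support, Real.log (Ideal.absNorm 𝔫) ≤ Module.finrank ℚ K * A (P.root i)) →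
    ∀ θ : b.support → (EE K →ₗ[ℝ] ℝ), (∀ i, θ i ≠ 0) → ∀ γ ∈ Gm b 𝔫 v r s m h, γ ∉ HU b K → Mv b Ω A (emb b K γ) → Alt b θ γ := by
  refine b9_star b K (fun u hu => uni_UR b hu) (fun u hu => uni_HU b hu) (fun g => ?_) hΩ
  obtain ⟨u, hu, w, n, hn, u', hu', h⟩ := bruhat b K g
  exact ⟨w, u, n, u', hu, hu', hn, h⟩

end

end Pool.Agent.Lib.L1S
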