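import Pool.Agent.Lib.L1S.D3

/-!
# L1S, module DC (the Hecke operator as a double coset operator): local conditions. Owner: helper29.
-/

namespace Pool.Agent.Lib.L1S

open MeasureTheory Matrix NumberField IsDedekindDomain Pool.Agent.Lib.H89N Pool.Agent.Lib.H33W

noncomputable section

set_option linter.unusedSectionVars false

variable {ι M N : Type} [Fintype ι] [DecidableEq ι] [AddCommGroup M] [Module ℚ M] [AddCommGroup N] [Module ℚ N]
  {P : RootPairing ι ℚ M N} [P.IsCrystallographic] [P.IsRootSystem] {b : P.Base}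

variable {K : Type} [Field K] [NumberField K] {v : HeightOneSpectrum (𝓞 K)}

theorem dc0_le_one (v : HeightOneSpectrum (𝓞 K)) (n : ℕ) : WithZero.exp (-(n : ℤ)) ≤ (1 : WithZero (Multiplicative ℤ)) := by
  rw [← WithZero.exp_zero]
  exact WithZero.exp_le_exp.2 (by omega)

/-- The matrices of level `r, s` at `v` are closed under multiplication. -/
theorem IwL.mul {r s : ℕ} {g h : Matrix (I b) (I b) K} (hg : IwL b v r s g) (hh : IwL b v r s h) : IwL b v r s (g * h) := by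
  have hsum : ∀ (f : I b → K) (B : WithZero (Multiplicative ℤ)), (∀ k, v.valuation K (f k) ≤ B) → v.valuation K (∑ k, f k) ≤ B := fun f B h =>
    Valuation.map_sum_le _ fun k _ => h k
  have hone : ∀ i j : I b, v.valuation K ((1 : Matrix (I b) (I b) K) i j) ≤ 1 := by
    intro i j
    by_cases h : i = j
    · subst h
      rw [Matrix.one_apply_eq, map_one]
    · rw [Matrix.one_apply_ne h, map_zero]
      exact zero_le_one
  have hrs : WithZero.exp (-((r : ℤ) + s)) ≤ WithZero.exp (-(r : ℤ)) := WithZero.exp_le_exp.2 (by omega)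
  have hsub : ∀ {x : Matrix (I b) (I b) K}, IwL b v r s x → ∀ i j, v.valuation K ((x - 1) i j) ≤ 1 := by
    intro x hx i j
    rw [Matrix.sub_apply]
    exact (Valuation.map_sub _ _ _).trans (max_le (hx i j).1 (hone i j))
  have e : g * h - 1 = (g - 1) * h + (h - 1) := by
    rw [sub_mul, one_mul]
    abel
  intro i j
  refine ⟨?_, ?_, ?_⟩
  · rw [Matrix.mul_apply]
    refine hsum _ _ fun k => ?_
    rw [map_mul]
    exact mul_le_one' (hg i k).1 (hh k j).1
  · intro hij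
    rw [Matrix.mul_apply]
    refine hsum _ _ fun k => ?_
    rw [map_mul]
    by_cases h1 : ht b i < ht b k
    · calc v.valuation K (g i k) * v.valuation K (h k j) ≤ WithZero.exp (-((r : ℤ) + s)) * 1 := mul_le_mul' ((hg i k).2.1 h1) (hh k j).1
        _ = _ := mul_one _
    · calc v.valuation K (g i k) * v.valuation K (h k j) ≤ 1 * WithZero.exp (-((r : ℤ) + s)) := mul_le_mul' (hg i k).1 ((hh k j).2.1 ((not_lt.1 h1).trans_lt hij))
        _ = _ := one_mul _
  · intro hij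
    rw [e, Matrix.add_apply]
    refine (Valuation.map_add _ _ _).trans (max_le ?_ ((hh i j).2.2 hij))
    rw [Matrix.mul_apply]
    refine hsum _ _ fun k => ?_
    rw [map_mul]
    rcases lt_trichotomy (ht b i) (ht b k) with h1 | h1 | h1
    · have hik : i ≠ k := by
        rintro rfl
        exact absurd h1 (lt_irrefl _)
      have e1 : (g - 1) i k = g i k := by rw [Matrix.sub_apply, Matrix.one_apply_ne hik, sub_zero]
      rw [e1]
      calc v.valuation K (g i k) * v.valuation K (h k j) ≤ WithZero.exp (-(r : ℤ)) * 1 := mul_le_mul' (((hg i k).2.1 h1).trans hrs) (hh k j).1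
        _ = _ := mul_one _
    · calc v.valuation K ((g - 1) i k) * v.valuation K (h k j) ≤ WithZero.exp (-(r : ℤ)) * 1 := mul_le_mul' ((hg i k).2.2 h1) (hh k j).1
        _ = _ := mul_one _
    · calc v.valuation K ((g - 1) i k) * v.valuation K (h k j) ≤ 1 * WithZero.exp (-(r : ℤ)) :=
          mul_le_mul' (hsub hg i k) (((hh k j).2.1 (h1.trans_le hij.le)).trans hrs)
        _ = _ := one_mul _

theorem IwL.one (v : HeightOneSpectrum (𝓞 K)) (r s : ℕ) : IwL b v r s (1 : Matrix (I b) (I b) K) := by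
  intro i j
  refine ⟨?_, ?_, ?_⟩
  · by_cases h : i = j
    · subst h
      rw [Matrix.one_apply_eq, map_one]
    · rw [Matrix.one_apply_ne h, map_zero]
      exact zero_le_one
  · intro h
    rw [Matrix.one_apply_ne, map_zero]
    · exact zero_le
    · rintro rfl
      exact lt_irrefl _ h
  · intro _
    rw [Matrix.sub_apply, sub_self, map_zero]
    exact zero_le

/-- A matrix which is congruent to `1` modulo a high power of `v`. -/
theorem IwL.of_cong {r s : ℕ} {g : Matrix (I b) (I b) K} (h : ∀ i j, v.valuation K ((g - 1) i j) ≤ WithZero.exp (-((r : ℤ) + s))) : IwL b v r s g := by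
  have h1 := IwL.one (b := b) v r s
  have hrs : WithZero.exp (-((r : ℤ) + s)) ≤ WithZero.exp (-(r : ℤ)) := WithZero.exp_le_exp.2 (by omega)
  have h0 : WithZero.exp (-((r : ℤ) + s)) ≤ (1 : WithZero (Multiplicative ℤ)) := by
    rw [← WithZero.exp_zero]
    exact WithZero.exp_le_exp.2 (by omega)
  intro i j
  have e : g i j = (g - 1) i j + (1 : Matrix (I b) (I b) K) i j := by simp
  refine ⟨?_, ?_, fun _ => (h i j).trans hrs⟩
  · rw [e]
    exact (Valuation.map_add _ _ _).trans (max_le ((h i j).trans h0) (h1 i j).1)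
  · intro hij
    rw [e]
    exact (Valuation.map_add _ _ _).trans (max_le (h i j) ((h1 i j).2.1 hij))

theorem dc0_int {n : ℕ} {x : K} (h : InI (v.asIdeal ^ n) x) : v.valuation K x ≤ WithZero.exp (-(n : ℤ)) := by
  obtain ⟨y, hy, rfl⟩ := h
  have h1 := (v.intValuation_le_pow_iff_mem y n).2 hy
  rw [← v.valuation_of_algebraMap (K := K)] at h1
  exact h1

theorem dc0_int_one {x : K} (h : InI ⊤ x) : v.valuation K x ≤ 1 := by
  obtain ⟨y, _, rfl⟩ := h
  exact v.valuation_le_one y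

theorem dc0_inI_top {g : Matrix (I b) (I b) K} {𝔫 : Ideal (𝓞 K)} (h : ∀ i j, InI 𝔫 ((g - 1) i j)) (i j : I b) : InI ⊤ (g i j) := by
  have e : g i j = (g - 1) i j + (1 : Matrix (I b) (I b) K) i j := by simp
  rw [e]
  refine (h i j).top.add ?_
  by_cases h : i = j
  · subst h
    rw [Matrix.one_apply_eq]
    exact ⟨1, Submodule.mem_top, by simp⟩
  · rw [Matrix.one_apply_ne h]
    exact InI.zero _

/-- The elements of `Γ` at `v`. -/
theorem dc0_iw {𝔫 : Ideal (𝓞 K)} {r s : ℕ} {γ : GK b K} (hγ : γ ∈ GamK b 𝔫 v r s) : IwL b v r s γ.1.1 := by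
  have h0 := dc0_inI_top (b := b) (g := γ.1.1) (𝔫 := 𝔫) fun i j => (hγ i j).1.1
  intro i j
  refine ⟨dc0_int_one (h0 i j), fun h => ?_, fun h => dc0_int ((hγ i j).1.2.2 h)⟩
  have h1 := dc0_int ((hγ i j).1.2.1 h)
  push_cast at h1
  exact h1

theorem dc0_hg {𝔫 : Ideal (𝓞 K)} {r s : ℕ} {γ : GK b K} (hγ : γ ∈ GamK b 𝔫 v r s) : γ ∈ HG b 𝔫 v := by
  refine ⟨0, fun i j => ⟨?_, ?_⟩⟩
  · obtain ⟨y, hy, hy'⟩ := (hγ i j).1.1
    rw [← hy']
    exact Den.of_int hy 0
  · obtain ⟨y, hy, hy'⟩ := (hγ i j).2.1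
    rw [← hy']
    exact Den.of_int hy 0

theorem hg_mul {𝔫 : Ideal (𝓞 K)} {g h : GK b K} (hg : g ∈ HG b 𝔫 v) (hh : h ∈ HG b 𝔫 v) : g * h ∈ HG b 𝔫 v := by
  obtain ⟨l, hl⟩ := hg
  obtain ⟨m, hm⟩ := hh
  have key : ∀ (x y : Matrix (I b) (I b) K) (l m : ℕ), (∀ i j, Den 𝔫 v l ((x - 1) i j)) → (∀ i j, Den 𝔫 v m ((y - 1) i j)) → ∀ i j, Den 𝔫 v (l + m) ((x * y - 1) i j) := by
    intro x y l m hx hy i j
    have e : x * y - 1 = (x - 1) * y + (y - 1) := by
      rw [sub_mul, one_mul]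
      abel
    rw [e, Matrix.add_apply, Matrix.mul_apply]
    refine (Den.sum _ fun k _ => d3_den_mul' (hx i k) (d3_den_one hy k j)).add ((hy i j).mono (Nat.le_add_left m l))
  refine ⟨l + m, fun i j => ⟨key _ _ l m (fun i j => (hl i j).1) (fun i j => (hm i j).1) i j, ?_⟩⟩
  have e : (g * h)⁻¹.1.1 = h⁻¹.1.1 * g⁻¹.1.1 := by
    rw [_root_.mul_inv_rev]
    rfl
  rw [e, add_comm l m]
  exact key _ _ m l (fun i j => (hm i j).2) (fun i j => (hl i j).2) i j

theorem hg_inv {𝔫 : Ideal (𝓞 K)} {g : GK b K} (hg : g ∈ HG b 𝔫 v) : g⁻¹ ∈ HG b 𝔫 v := by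
  obtain ⟨l, hl⟩ := hg
  refine ⟨l, fun i j => ⟨(hl i j).2, ?_⟩⟩
  rw [inv_inv]
  exact (hl i j).1

/-- An element of `𝔫[1/v]` which is integral at `v`. -/
theorem dc0_glob {𝔫 : Ideal (𝓞 K)} (h0 : 𝔫 ≠ ⊥) (hv : ¬𝔫 ≤ v.asIdeal) {l : ℕ} {x : K} (h1 : Den 𝔫 v l x) (h2 : v.valuation K x ≤ 1) : InI 𝔫 x := by
  rw [← WithZero.exp_zero] at h2
  have h3 := d3_aw_le h2
  rw [← pow_one 𝔫] at h1
  have h4 := (den_iff h0 hv l 1 x).1 h1
  obtain ⟨z, hz, e⟩ := (nu2_A h0 x).2 fun w => by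
    by_cases hw : w = v
    · subst hw
      rw [nu2_nw_one w h0 hv]
      rwa [zpow_zero] at h3
    · have := h4.1 w hw
      rwa [pow_one] at this
  exact ⟨z, hz, e.symm⟩

theorem dc0_glob_v {𝔫 : Ideal (𝓞 K)} (h0 : 𝔫 ≠ ⊥) (hv : ¬𝔫 ≤ v.asIdeal) {l n : ℕ} {x : K} (h1 : Den 𝔫 v l x) (h2 : v.valuation K x ≤ WithZero.exp (-(n : ℤ))) :
    InI (v.asIdeal ^ n) x := by
  have h3 := d3_aw_le h2
  rw [← pow_one 𝔫] at h1
  have h4 := (den_iff h0 hv l 1 x).1 h1
  obtain ⟨z, hz, e⟩ := (nu2_A (pow_ne_zero n v.ne_bot) x).2 fun w => by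
    rw [nu2_nw_pow w v.ne_bot]
    by_cases hw : w = v
    · subst hw
      rw [d3_nw_self, ← zpow_natCast, ← _root_.zpow_mul]
      refine h3.trans (le_of_eq ?_)
      congr 1
      ring
    · have h5 : ¬v.asIdeal ≤ w.asIdeal := fun h => hw (HeightOneSpectrum.ext (v.isMaximal.eq_of_le w.isPrime.ne_top h).symm)
      rw [nu2_nw_one w v.ne_bot h5, one_pow]
      have := h4.1 w hw
      rw [pow_one] at this
      exact this.trans (nw_le_one w 𝔫)
  exact ⟨z, hz, e.symm⟩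

/-- **The elements of `Γ` are the elements of `HG` which are of level `r, s` at `v` together with their inverses.** -/
theorem dc0_mem {𝔫 : Ideal (𝓞 K)} (h0 : 𝔫 ≠ ⊥) (hv : ¬𝔫 ≤ v.asIdeal) {r s : ℕ} {g : GK b K} (h1 : g ∈ HG b 𝔫 v) (h2 : IwL b v r s g.1.1) (h3 : IwL b v r s g⁻¹.1.1) :
    g ∈ GamK b 𝔫 v r s := by
  obtain ⟨l, hl⟩ := h1
  have key : ∀ x : Matrix (I b) (I b) K, (∀ i j, Den 𝔫 v l ((x - 1) i j)) → IwL b v r s x → ∀ i j,
      InI 𝔫 ((x - 1) i j) ∧ (ht b i < ht b j → InI (v.asIdeal ^ (r + s)) (x i j)) ∧ (ht b i = ht b j → InI (v.asIdeal ^ r) ((x - 1) i j)) := by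
    intro x hx hI i j
    refine ⟨?_, ?_, ?_⟩
    · refine dc0_glob h0 hv (hx i j) ?_
      rw [Matrix.sub_apply]
      exact (Valuation.map_sub _ _ _).trans (max_le (hI i j).1 (IwL.one (b := b) v r s i j).1)
    · intro hij
      have hne : i ≠ j := by
        rintro rfl
        exact lt_irrefl _ hij
      have e : x i j = (x - 1) i j := by rw [Matrix.sub_apply, Matrix.one_apply_ne hne, sub_zero]
      have h4 := (hI i j).2.1 hij
      rw [e] at h4 ⊢
      refine dc0_glob_v h0 hv (hx i j) ?_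
      push_cast
      exact h4
    · intro hij
      exact dc0_glob_v h0 hv (hx i j) ((hI i j).2.2 hij)
  intro i j
  exact ⟨key _ (fun i j => (hl i j).1) h2 i j, key _ (fun i j => (hl i j).2) h3 i j⟩

end

end Pool.Agent.Lib.L1S
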