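import Pool.Agent.Lib.L1S.BF
import Pool.Agent.Lib.L1S.DC0

/-!
# L1S, module BF2 (helper43): the dichotomy for the elements of `h⁻¹ Γ_m h'`
-/

namespace Pool.Agent.Lib.L1S

set_option linter.unusedSectionVars false

open Matrix NumberField IsDedekindDomain Pool.Agent.Lib.H89N Pool.Agent.Lib.H33W

noncomputable section

/-- A root of unity `z` with `z - 1 ∈ m v ^ (-j)`, `v` prime to `m`, `m > 2 k`, is equal to `1`. -/
theorem bf2_unit {K : Type} [Field K] [NumberField K] {k m j : ℕ} (hk : k ≠ 0) (hm : 2 * k < m) {v : HeightOneSpectrum (𝓞 K)} (hv : (m : 𝓞 K) ∉ v.asIdeal) {z : K} (hz : z ^ k = 1)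
    (hI : Den (Ideal.span {(m : 𝓞 K)}) v j (z - 1)) : z = 1 := by
  have hint : IsIntegral ℤ z := IsIntegral.of_pow (Nat.pos_of_ne_zero hk) (by rw [hz]; exact isIntegral_one)
  set y : 𝓞 K := ⟨z, hint⟩ - 1 with hy
  have hyz : (y : K) = z - 1 := by
    rw [hy]
    simp [RingOfIntegers.coe_eq_algebraMap]
  have h1 : y ∈ Ideal.span {(m : 𝓞 K)} := by
    have hcop : Ideal.span {(m : 𝓞 K)} ⊔ v.asIdeal ^ j = ⊤ := by
      have h2 : IsCoprime (Ideal.span {(m : 𝓞 K)}) v.asIdeal := by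
        rw [Ideal.isCoprime_iff_sup_eq]
        by_contra hne
        have hmax : v.asIdeal.IsMaximal := v.isMaximal
        have h3 : v.asIdeal = Ideal.span {(m : 𝓞 K)} ⊔ v.asIdeal := hmax.eq_of_le hne le_sup_right
        apply hv
        rw [h3]
        exact Ideal.mem_sup_left (Ideal.mem_span_singleton_self _)
      exact Ideal.isCoprime_iff_sup_eq.1 h2.pow_right
    have h4 : (1 : 𝓞 K) ∈ Ideal.span {(m : 𝓞 K)} ⊔ v.asIdeal ^ j := by
      rw [hcop]
      exact Submodule.mem_top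
    obtain ⟨a, ha, x, hx, hax⟩ := Submodule.mem_sup.1 h4
    obtain ⟨t, ht, hxt⟩ := hI x hx
    have h5 : x * y = t := by
      apply RingOfIntegers.coe_injective
      have e : ((x * y : 𝓞 K) : K) = (x : K) * (y : K) := map_mul (algebraMap (𝓞 K) K) x y
      exact e.trans ((congrArg (fun w => (x : K) * w) hyz).trans hxt)
    have h6 : y = a * y + t := by
      rw [← h5, ← add_mul, hax, one_mul]
    rw [h6]
    exact Ideal.add_mem _ (Ideal.mul_mem_right _ _ ha) ht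
  refine b9_unit hk hm hz ⟨(k : 𝓞 K) * y, Ideal.mul_mem_left _ _ h1, ?_⟩
  have e : (((k : 𝓞 K) * y : 𝓞 K) : K) = ((k : 𝓞 K) : K) * (y : K) := map_mul (algebraMap (𝓞 K) K) _ _
  rw [e, hyz]
  have e2 : ((k : 𝓞 K) : K) = (k : K) := map_natCast (algebraMap (𝓞 K) K) k
  rw [e2]

theorem bf2_den_mono {K : Type} [Field K] [NumberField K] {v : HeightOneSpectrum (𝓞 K)} {𝔫 𝔪 : Ideal (𝓞 K)} (h : 𝔫 ≤ 𝔪) {j : ℕ} {a : K} (ha : Den 𝔫 v j a) : Den 𝔪 v j a :=
  fun x hx => by
    obtain ⟨y, hy, e⟩ := ha x hx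
    exact ⟨y, h hy, e⟩

variable {ι M N : Type} [Fintype ι] [DecidableEq ι] [AddCommGroup M] [Module ℚ M] [AddCommGroup N] [Module ℚ N]
  {P : RootPairing ι ℚ M N} [P.IsCrystallographic] [P.IsRootSystem] [P.IsReduced] [P.IsIrreducible]
  {b : P.Base} {K : Type} [Field K] [NumberField K]

/-- The diagonal entries of the elements of `U(K)`. -/
theorem bf2_diag {u : GK b K} (hu : u ∈ HU b K) (r : I b) : u.1.1 r r = 1 := by
  have := ((mem_HU b K u).1 hu r r le_rfl).1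
  rw [Matrix.one_apply_eq] at this
  exact this

/-- Half of the comparison of the coweights: if `δ ∈ U(K)` and `h δ h'⁻¹ ∈ Γ` then `⟨r, λ⟩ ≤ ⟨r, λ'⟩` for all weights. -/
theorem bf2_le {𝔫 : Ideal (𝓞 K)} {v : HeightOneSpectrum (𝓞 K)} {r s : ℕ} {c c' : b.support → ℤ} {π : K} (hπ : v.valuation K π = WithZero.exp (-1 : ℤ)) {h h' : GK b K}
    (hh : AtV b v r s π c h) (hh' : AtV b v r s π c' h') {δ : GK b K} (hδ : h * δ * h'⁻¹ ∈ GamK b 𝔫 v r s) (hU : δ ∈ HU b K) (i : I b) : pr b c i ≤ pr b c' i := by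
  have h1 := (hh.2.mul (dc0_iw hδ)).mul hh'.1
  have e : (Matrix.diagonal fun i => π ^ (-pr b c i)) * h⁻¹.1.1 * (h * δ * h'⁻¹).1.1 * (h'.1.1 * Matrix.diagonal fun i => π ^ pr b c' i) =
      (Matrix.diagonal fun i => π ^ (-pr b c i)) * δ.1.1 * Matrix.diagonal fun i => π ^ pr b c' i := by
    have e1 : h⁻¹.1.1 * (h * δ * h'⁻¹).1.1 * h'.1.1 = δ.1.1 := by
      have e2 : h⁻¹ * (h * δ * h'⁻¹) * h' = δ := by group
      exact congrArg (fun g : GK b K => g.1.1) e2
    calc (Matrix.diagonal fun i => π ^ (-pr b c i)) * h⁻¹.1.1 * (h * δ * h'⁻¹).1.1 * (h'.1.1 * Matrix.diagonal fun i => π ^ pr b c' i)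
        = (Matrix.diagonal fun i => π ^ (-pr b c i)) * (h⁻¹.1.1 * (h * δ * h'⁻¹).1.1 * h'.1.1) * Matrix.diagonal fun i => π ^ pr b c' i := by noncomm_ring
      _ = _ := by rw [e1]
  rw [e] at h1
  have h2 := (h1 i i).1
  rw [Matrix.mul_diagonal, Matrix.diagonal_mul, bf2_diag hU, mul_one] at h2
  have hπ0 : π ≠ 0 := by
    rintro rfl
    rw [map_zero] at hπ
    exact WithZero.exp_ne_zero hπ.symm
  rw [← zpow_add₀ hπ0, map_zpow₀, hπ, ← WithZero.exp_zsmul] at h2
  rw [← WithZero.exp_zero, WithZero.exp_le_exp] at h2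
  simp only [smul_eq_mul] at h2
  lia

/-- The coweights are determined by the values on the weights. -/
theorem bf2_inj {c c' : b.support → ℤ} (h : ∀ i, pr b c i = pr b c' i) : c = c' := by
  classical
  have hdet : b.cartanMatrix.det ≠ 0 := Matrix.nondegenerate_iff_det_ne_zero.1 b.cartanMatrix_nondegenerate
  have h1 : b.cartanMatrix.mulVec c = b.cartanMatrix.mulVec c' := by
    funext i
    have h2 := h (Sum.inr i)
    have key : ∀ c : b.support → ℤ, b.cartanMatrix.mulVec c i = pr b c (Sum.inr i) := by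
      intro c
      unfold Matrix.mulVec dotProduct pr
      exact Finset.sum_congr rfl fun j _ => mul_comm _ _
    rw [key, key, h2]
  exact Matrix.mulVec_injective_of_det_ne_zero hdet h1

/-- **The dichotomy for the elements of `h⁻¹ Γ_m h'`**, from the vanishing of the minors. -/
theorem bf2_star {m : ℕ} (hm : 2 * Fintype.card (I b) < m) {v : HeightOneSpectrum (𝓞 K)} (hv : (m : 𝓞 K) ∉ v.asIdeal) {𝔫 : Ideal (𝓞 K)} {r s : ℕ} {c c' : b.support → ℤ} {π : K}
    {h h' : GK b K} (hL : Lv b (Ideal.span {(m : 𝓞 K)} * 𝔫) v r s c π h) (hL' : Lv b (Ideal.span {(m : 𝓞 K)} * 𝔫) v r s c' π h') {θ : b.support → (EE K →ₗ[ℝ] ℝ)} (hθ : ∀ i, θ i ≠ 0)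
    {δ : GK b K} (hδ : h * δ * h'⁻¹ ∈ GamK b (Ideal.span {(m : 𝓞 K)} * 𝔫) v r s)
    (hD : ∀ (i j : b.support) (w : Equiv.Perm ι), w ∈ WP P → OppW b i j w → Dm b i w δ.1.1 = 0) : (δ ∈ HU b K ∧ c = c') ∨ Alt b θ δ := by
  obtain ⟨u, hu, w, n, hn, u', hu', hg⟩ := bruhat b K δ
  rcases b3_dich (fun u hu => uni_HU b hu) hθ hu hu' hn hg with ⟨z, u1, hu1, e⟩ | hA | ⟨i, j, w1, hw1, hO, hDne⟩
  · left
    have hU : δ ∈ HU b K := by
      by_cases hk : Fintype.card (I b) = 0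
      · rw [mem_HU]
        intro i
        exact absurd ⟨i⟩ (not_nonempty_iff.2 (Fintype.card_eq_zero_iff.1 hk))
      · have hz : z ^ Fintype.card (I b) = 1 := by
          have h1 := congrArg Matrix.det e
          rw [Matrix.det_smul, b9_det, b9_det, mul_one] at h1
          exact h1.symm
        have h2 : δ ∈ HG b (Ideal.span {(m : 𝓞 K)} * 𝔫) v := by
          have h3 := hg_mul (hg_mul (hg_inv hL.hh) (dc0_hg hδ)) hL'.hh
          have e3 : h⁻¹ * (h * δ * h'⁻¹) * h' = δ := by group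
          rw [e3] at h3
          exact h3
        obtain ⟨j, hj⟩ := h2
        have hne : Nonempty (I b) := Fintype.card_pos_iff.1 (Nat.pos_of_ne_zero hk)
        obtain ⟨i⟩ := hne
        have h4 := (hj i i).1
        rw [Matrix.sub_apply, e, Matrix.smul_apply, bf2_diag hu1, Matrix.one_apply_eq, smul_eq_mul, mul_one] at h4
        have hz1 := bf2_unit hk hm hv hz (bf2_den_mono Ideal.mul_le_left h4)
        have e5 : δ = u1 := by
          apply Subtype.ext
          apply Units.ext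
          rw [e, hz1, one_smul]
        rw [e5]
        exact hu1
    refine ⟨hU, bf2_inj fun i => le_antisymm (bf2_le hL.hπ hL.hv hL'.hv hδ hU i) ?_⟩
    have hδ' : h' * δ⁻¹ * h⁻¹ ∈ GamK b (Ideal.span {(m : 𝓞 K)} * 𝔫) v r s := by
      have := inv_mem hδ
      have e4 : (h * δ * h'⁻¹)⁻¹ = h' * δ⁻¹ * h⁻¹ := by group
      rw [e4] at this
      exact this
    exact bf2_le hL.hπ hL'.hv hL.hv hδ' (inv_mem hU) i
  · exact Or.inr hA
  · exact absurd (hD i j w1 hw1 hO) hDne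

end

end Pool.Agent.Lib.L1S
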