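import Pool.Agent.Lib.L1S.D7

/-!
# L1S, D8: the minors are zero (version 2), conclusion
-/

namespace Pool.Agent.Lib.L1S

open MeasureTheory Matrix NumberField IsDedekindDomain Pool.Agent.Lib.H89N Pool.Agent.Lib.H33W

noncomputable section

set_option linter.unusedSectionVars false

variable {ι M N : Type} [Fintype ι] [DecidableEq ι] [AddCommGroup M] [Module ℚ M] [AddCommGroup N] [Module ℚ N]
  {P : RootPairing ι ℚ M N} [P.IsCrystallographic] [P.IsReduced] [P.IsIrreducible] [P.IsRootSystem]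

/-- A bound of all coefficients of the roots. -/
def mB (b : P.Base) : ℕ := ∑ l : b.support, ∑ β : ι, (mc b l (Sum.inr β)).natAbs

theorem d8_mB (b : P.Base) (l : b.support) (β : ι) : mc b l (Sum.inr β) ≤ mB b := by
  have h1 : (mc b l (Sum.inr β)).natAbs ≤ mB b :=
    (Finset.single_le_sum (f := fun β => (mc b l (Sum.inr β)).natAbs) (fun _ _ => Nat.zero_le _) (Finset.mem_univ β)).trans
      (Finset.single_le_sum (f := fun l : b.support => ∑ β : ι, (mc b l (Sum.inr β)).natAbs) (fun _ _ => Nat.zero_le _) (Finset.mem_univ l))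
  have h2 : mc b l (Sum.inr β) ≤ ((mc b l (Sum.inr β)).natAbs : ℤ) := Int.le_natAbs
  exact h2.trans (Int.ofNat_le.2 h1)

/-- If `X ^ T ≤ Y`, `1 ≤ Y`, then `X ^ T' ≤ Y` for `T' ≤ T`. -/
theorem d8_pow {X Y : ℝ} (hX : 0 < X) (hY : 1 ≤ Y) {T T' : ℕ} (hT : T' ≤ T) (h : X ^ T ≤ Y) : X ^ T' ≤ Y := by
  rcases le_or_gt X 1 with h1 | h1
  · exact (pow_le_one₀ hX.le h1).trans hY
  · exact (pow_le_pow_right₀ h1.le hT).trans h

/-- The final comparison: `(m^d n)^k ≤ D^T q^s`, `D ≤ C n^(-H)`, `q^(T S) ≤ (n q^e)^k n^(T H)`, `s = T S - e k` give `m ≤ C^T`. -/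
theorem d8_real {m n q C D : ℝ} {d k T e : ℕ} {S H s : ℤ} (hm : 1 ≤ m) (hn : 0 < n) (hq : 0 < q) (hC : 0 ≤ C) (hD : 0 ≤ D) (hd : 1 ≤ d) (hk : 1 ≤ k)
    (h1 : (m ^ d * n) ^ k ≤ D ^ T * q ^ s) (h2 : D ≤ C * n ^ (-H)) (h3 : q ^ (T * S) ≤ (n * q ^ e) ^ k * n ^ (T * H)) (hs : s = T * S - e * k) : m ≤ C ^ T := by
  have h4 : q ^ s ≤ n ^ k * n ^ (T * H) := by
    have h5 : q ^ (T * S) = q ^ s * (q ^ e) ^ k := by
      rw [← pow_mul, ← zpow_natCast q, ← zpow_add₀ hq.ne', hs]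
      congr 1
      push_cast
      ring
    rw [h5, mul_pow] at h3
    have h6 : 0 < (q ^ e) ^ k := pow_pos (pow_pos hq _) _
    have h7 : q ^ s * (q ^ e) ^ k ≤ (n ^ k * n ^ (T * H)) * (q ^ e) ^ k := h3.trans (le_of_eq (by ring))
    exact le_of_mul_le_mul_right h7 h6
  have h5 : D ^ T ≤ C ^ T * n ^ (-(T * H)) := by
    refine (pow_le_pow_left₀ hD h2 T).trans (le_of_eq ?_)
    rw [mul_pow, ← zpow_natCast (n ^ (-H)), ← _root_.zpow_mul]
    congr 2
    ring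
  have h6 : (m ^ d * n) ^ k ≤ C ^ T * n ^ k := by
    refine h1.trans ?_
    calc D ^ T * q ^ s ≤ (C ^ T * n ^ (-(T * H))) * (n ^ k * n ^ (T * H)) := mul_le_mul h5 h4 (zpow_pos hq _).le (mul_nonneg (pow_nonneg hC T) (zpow_pos hn _).le)
      _ = C ^ T * n ^ k * (n ^ (-(T * H)) * n ^ (T * H)) := by ring
      _ = C ^ T * n ^ k := by
        rw [← zpow_add₀ hn.ne']
        simp
  rw [mul_pow] at h6
  have h7 : (m ^ d) ^ k ≤ C ^ T := le_of_mul_le_mul_right h6 (pow_pos hn k)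
  refine le_trans ?_ h7
  rw [← pow_mul]
  exact le_self_pow₀ hm (by positivity)

/-- **The minors are zero** (version 2). -/
theorem dm_zero2 (b : P.Base) (K : Type) [Field K] [NumberField K] {Ω : Set (GL (I b) (EE K))} (hΩ : IsCompact Ω) : ∃ m₀ : ℕ, ∀ m : ℕ, m₀ ≤ m → ∀ (v : HeightOneSpectrum (𝓞 K)), (m : 𝓞 K) ∉ v.asIdeal →
    ∀ (𝔫 : Ideal (𝓞 K)) (r s : ℕ) (c c' : b.support → ℤ) (π : K) (h h' : GK b K), Lv b (Ideal.span {(m : 𝓞 K)} * 𝔫) v r s c π h → Lv b (Ideal.span {(m : 𝓞 K)} * 𝔫) v r s c' π h' →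
    Sz2 b 𝔫 v r s c c' →
    ∀ A : M →ₗ[ℚ] ℝ, (∀ i : b.support, Real.log (Ideal.absNorm 𝔫) ≤ Module.finrank ℚ K * A (P.root i)) →
    ∀ γ : GK b K, h' * γ * h⁻¹ ∈ GamK b (Ideal.span {(m : 𝓞 K)} * 𝔫) v r s → Mv b Ω A (emb b K γ) →
    ∀ (i j : b.support) (w : Equiv.Perm ι), w ∈ Subgroup.closure (Set.range P.reflectionPerm) → OppW b i j w → Dm b i w γ.1.1 = 0 := by
  obtain ⟨C0, hC0, hC⟩ := dm_arch b K (fun u hu => uni_UR b hu) Ω hΩ
  set C : ℝ := max C0 1 with hCdef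
  have hC1 : 1 ≤ C := le_max_right _ _
  refine ⟨⌈C ^ (mB b + 1)⌉₊ + 1, fun m hm v hmv 𝔫 r s c c' π h h' hL hL' hS A hA γ hγ hM i j w hw hO => ?_⟩
  by_contra hD
  set q : ℝ := (Ideal.absNorm v.asIdeal : ℝ) with hq
  set n : ℝ := (Ideal.absNorm 𝔫 : ℝ) with hn
  set d : ℝ := (Module.finrank ℚ K : ℝ) with hd
  have hq0 : 0 < q := nu2_pos v
  have hq1 : 1 ≤ q := (nu2_one_lt v).le
  have h𝔫 : 𝔫 ≠ ⊥ := by
    rintro rfl
    exact hL.ne (by rw [Ideal.mul_bot])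
  have hn1' : 1 ≤ Ideal.absNorm 𝔫 := by
    have := Ideal.absNorm_ne_zero_iff_mem_nonZeroDivisors.2 (mem_nonZeroDivisors_of_ne_zero h𝔫)
    exact Nat.pos_of_ne_zero this
  have hn1 : 1 ≤ n := by
    rw [hn]
    exact_mod_cast hn1'
  have hn0 : 0 < n := zero_lt_one.trans_le hn1
  have hm1 : (1 : ℝ) ≤ m := by
    have : 1 ≤ m := (Nat.le_add_left 1 _).trans hm
    exact_mod_cast this
  have hmC : C ^ (mB b + 1) < m := by
    have h14 : C ^ (mB b + 1) ≤ ⌈C ^ (mB b + 1)⌉₊ := Nat.le_ceil _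
    have h15 : ((⌈C ^ (mB b + 1)⌉₊ + 1 : ℕ) : ℝ) ≤ m := by exact_mod_cast hm
    push_cast at h15
    linarith
  obtain ⟨h1, h2⟩ := d7_ab hL.ne hL.nv hL.hπ hL.hh hL.hv hL'.hh hL'.hv hγ hO hD
  have h4 := hC A γ hM i j w hO
  have h6 := d4_AA A hA i
  have h7 := d4_AA A hA j
  have hnorm : (Ideal.absNorm (Ideal.span {(m : 𝓞 K)} * 𝔫) : ℝ) = (m : ℝ) ^ Module.finrank ℤ (𝓞 K) * n := by
    rw [map_mul, Ideal.absNorm_span_natCast, hn]
    push_cast
    rfl
  rw [hnorm] at h1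
  have hf1 : 1 ≤ Module.finrank ℤ (𝓞 K) := Module.finrank_pos
  have hE : Real.exp (-(d * (AA b A i + AA b A j))) ≤ n ^ (-(SH b i + SH b j)) := by
    have h8 : Real.exp (-(d * (AA b A i + AA b A j))) ≤ Real.exp (-(Real.log n * (HH b i + HH b j))) := by
      refine Real.exp_le_exp.2 ?_
      have h9 : Real.log n * (HH b i + HH b j) ≤ d * (AA b A i + AA b A j) := by
        rw [mul_add, mul_add]
        exact add_le_add h6 h7
      linarith
    refine h8.trans (le_of_eq ?_)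
    have e1 : SH b i = HH b i := rfl
    have e2 : SH b j = HH b j := rfl
    rw [e1, e2, ← Real.rpow_intCast, Real.rpow_def_of_pos hn0]
    congr 1
    push_cast
    ring
  have hDC : mixedEmbedding.norm (mixedEmbedding K (Dm b i w γ.1.1)) ≤ C * n ^ (-(SH b i + SH b j)) := by
    refine h4.trans ?_
    exact mul_le_mul (le_max_left _ _) hE (Real.exp_pos _).le (zero_le_one.trans hC1)
  have hD0 : 0 ≤ mixedEmbedding.norm (mixedEmbedding K (Dm b i w γ.1.1)) := mixedEmbedding.norm_nonneg _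
  have hCn : ∀ T ≤ mB b + 1, C ^ T ≤ C ^ (mB b + 1) := fun T hT => pow_le_pow_right₀ hC1 hT
  rcases hS i j ⟨w, hw, hO⟩ with h5 | ⟨l, T, hT, h5⟩
  · have h8 := d8_real (T := 1) (e := r + s) (S := Sl b i c + Sl b j c') (H := SH b i + SH b j) hm1 hn0 hq0 (zero_le_one.trans hC1) hD0 hf1 (d4_card i) (by
      rw [pow_one]
      exact h1) hDC (by
      rw [Nat.cast_one, one_mul, one_mul]
      exact h5) (by
      push_cast
      ring)
    exact absurd (h8.trans (hCn 1 (by omega))) (not_le.2 hmC)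
  · -- reduction to `T ≤ mB b`
    set T' := min T (mB b) with hT'
    have hTc : ∀ β, mc b l (Sum.inr β) ≤ T' := by
      intro β
      rw [hT']
      push_cast
      exact le_min (hT β) (d8_mB b l β)
    have hP1 : 1 ≤ SM b i l + SM b j l := by
      have := d7_SM_pos i l
      have := d7_SM_nonneg j l
      omega
    have hP2 : SM b i l + SM b j l = ((SM b i l + SM b j l).toNat : ℤ) := (Int.toNat_of_nonneg (by omega)).symm
    have hk1 : 1 ≤ (SM b i l + SM b j l).toNat := by omega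
    have h9 := h2 l T' hTc
    rw [hnorm] at h9
    have hX : 0 < q ^ (Sl b i c + Sl b j c') * n ^ (-(SH b i + SH b j)) := mul_pos (zpow_pos hq0 _) (zpow_pos hn0 _)
    have hY : 1 ≤ (n * q ^ (r + s)) ^ (SM b i l + SM b j l).toNat := one_le_pow₀ (one_le_mul_of_one_le_of_one_le hn1 (one_le_pow₀ hq1))
    have hXT : ∀ T : ℕ, q ^ (T * (Sl b i c + Sl b j c')) = (q ^ (Sl b i c + Sl b j c') * n ^ (-(SH b i + SH b j))) ^ T * n ^ (T * (SH b i + SH b j)) := by
      intro T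
      rw [mul_pow, ← zpow_natCast (q ^ _), ← zpow_natCast (n ^ _), ← _root_.zpow_mul, ← _root_.zpow_mul, mul_assoc, ← zpow_add₀ hn0.ne']
      have e1 : -(SH b i + SH b j) * (T : ℤ) + T * (SH b i + SH b j) = 0 := by ring
      rw [e1, zpow_zero, mul_one]
      congr 1
      ring
    have h10 : (q ^ (Sl b i c + Sl b j c') * n ^ (-(SH b i + SH b j))) ^ T' ≤ (n * q ^ (r + s)) ^ (SM b i l + SM b j l).toNat := by
      refine d8_pow hX hY (min_le_left T (mB b)) ?_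
      rw [hXT T, hP2, zpow_natCast] at h5
      exact le_of_mul_le_mul_right h5 (zpow_pos hn0 _)
    have h11 := d8_real (T := T') (e := r + s) (k := (SM b i l + SM b j l).toNat) (S := Sl b i c + Sl b j c') (H := SH b i + SH b j) hm1 hn0 hq0 (zero_le_one.trans hC1) hD0 hf1 hk1 h9 hDC (by
      rw [hXT T']
      exact mul_le_mul_of_nonneg_right h10 (zpow_pos hn0 _).le) (by
      rw [← hP2])
    exact absurd (h11.trans (hCn T' ((min_le_right T (mB b)).trans (Nat.le_succ _)))) (not_le.2 hmC)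

end

end Pool.Agent.Lib.L1S
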