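import Pool.Agent.Lib.L1S.BF2
import Pool.Agent.Lib.L1S.D8

/-!
# L1S, module BF3 (helper43): the dichotomy for the elements of `h'⁻¹ Γ_m h`, version 2
-/

namespace Pool.Agent.Lib.L1S

set_option linter.unusedSectionVars false

open Matrix NumberField IsDedekindDomain Pool.Agent.Lib.H89N Pool.Agent.Lib.H33W

noncomputable section

variable {ι M N : Type} [Fintype ι] [DecidableEq ι] [AddCommGroup M] [Module ℚ M] [AddCommGroup N] [Module ℚ N]
  {P : RootPairing ι ℚ M N} [P.IsCrystallographic] [P.IsRootSystem] [P.IsReduced] [P.IsIrreducible]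

/-- **The dichotomy, version 2**: there is `m₀` (depends only on `Ω`) such that for all `m ≥ m₀` prime to `v` every element `δ` of `h'⁻¹ Γ_m h` which moves a point of `U a Ω` to a point of `U a Ω` is either in `U(K)`
(and then the two coweights are equal), or satisfies the alternative. -/
theorem star_main2 (b : P.Base) (K : Type) [Field K] [NumberField K] {Ω : Set (GL (I b) (EE K))} (hΩ : IsCompact Ω) : ∃ m₀ : ℕ, ∀ m : ℕ, m₀ ≤ m → ∀ (v : HeightOneSpectrum (𝓞 K)), (m : 𝓞 K) ∉ v.asIdeal →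
    ∀ (𝔫 : Ideal (𝓞 K)) (r s : ℕ) (c c' : b.support → ℤ) (π : K) (h h' : GK b K), Lv b (Ideal.span {(m : 𝓞 K)} * 𝔫) v r s c π h → Lv b (Ideal.span {(m : 𝓞 K)} * 𝔫) v r s c' π h' →
    Sz2 b 𝔫 v r s c c' →
    ∀ A : M →ₗ[ℚ] ℝ, (∀ i : b.support, Real.log (Ideal.absNorm 𝔫) ≤ Module.finrank ℚ K * A (P.root i)) → ∀ θ : b.support → (EE K →ₗ[ℝ] ℝ), (∀ i, θ i ≠ 0) →
    ∀ γ : GK b K, h' * γ * h⁻¹ ∈ GamK b (Ideal.span {(m : 𝓞 K)} * 𝔫) v r s → Mv b Ω A (emb b K γ) → (γ ∈ HU b K ∧ c = c') ∨ Alt b θ γ := by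
  obtain ⟨m₁, hm₁⟩ := dm_zero2 b K hΩ
  refine ⟨max m₁ (2 * Fintype.card (I b) + 1), fun m hm v hv 𝔫 r s c c' π h h' hL hL' hS A hA θ hθ γ hγ hM => ?_⟩
  have hm1 : m₁ ≤ m := (le_max_left _ _).trans hm
  have hm2 : 2 * Fintype.card (I b) < m := (le_max_right m₁ (2 * Fintype.card (I b) + 1)).trans hm
  have hD := hm₁ m hm1 v hv 𝔫 r s c c' π h h' hL hL' hS A hA γ hγ hM
  rcases bf2_star hm2 hv hL' hL hθ hγ (fun i j w hw hO => hD i j w hw hO) with ⟨h1, h2⟩ | h1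
  · exact Or.inl ⟨h1, h2.symm⟩
  · exact Or.inr h1

end

end Pool.Agent.Lib.L1S
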