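import Pool.Agent.Lib.L1S.D1
import Pool.Agent.Lib.L1S.MDefs
import Pool.Agent.Lib.H89N.Inst

/-!
# L1S, D2: the size of the minors at the infinite places
-/

namespace Pool.Agent.Lib.L1S

open MeasureTheory Matrix NumberField IsDedekindDomain Pool.Agent.Lib.H89N Pool.Agent.Lib.H33W

noncomputable section

set_option linter.unusedSectionVars false

variable {ι M N : Type} [Fintype ι] [DecidableEq ι] [AddCommGroup M] [Module ℚ M] [AddCommGroup N] [Module ℚ N]
  {P : RootPairing ι ℚ M N} [P.IsCrystallographic] [P.IsRootSystem]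

variable {K : Type} [Field K] [NumberField K]

theorem d2_dg_inv (b : P.Base) (A : M →ₗ[ℚ] ℝ) : dg b K A * dg b K (-A) = 1 := by
  unfold dg
  rw [Matrix.diagonal_mul_diagonal, ← Matrix.diagonal_one]
  congr 1
  funext r
  rcases r with k | β
  · simp
  · simp only [Sum.elim_inr, LinearMap.neg_apply]
    rw [← map_mul, ← Real.exp_add, add_neg_cancel, Real.exp_zero, map_one]

theorem d2_neg_root (γ : ι) : P.root (P.reflectionPerm γ γ) = -P.root γ := by
  simp

theorem d2_neg_neg (γ : ι) : P.reflectionPerm (P.reflectionPerm γ γ) (P.reflectionPerm γ γ) = γ := by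
  apply P.root.injective
  rw [d2_neg_root, d2_neg_root, neg_neg]

/-- Sums over `w Φ_i = - Φ_j`. -/
theorem d2_bij {b : P.Base} {i j : b.support} {w : Equiv.Perm ι} (hw : OppW b i j w) {S : Type} [AddCommMonoid S] (f : ι → S) :
    ∑ β ∈ Phi b i, f (P.reflectionPerm (w β) (w β)) = ∑ β ∈ Phi b j, f β := by
  refine Finset.sum_bij' (fun β _ => P.reflectionPerm (w β) (w β)) (fun γ _ => w.symm (P.reflectionPerm γ γ)) ?_ ?_ ?_ ?_ ?_
  · intro β hβ
    exact (hw β).1 hβ
  · intro γ hγ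
    rw [hw, Equiv.apply_symm_apply, d2_neg_neg]
    exact hγ
  · intro β _
    rw [d2_neg_neg, Equiv.symm_apply_apply]
  · intro γ _
    rw [Equiv.apply_symm_apply, d2_neg_neg]
  · intro β _
    rfl

/-- `∑_{β ∈ Φ_i} A(w β) = - A(σ_j)`. -/
theorem d2_sum {b : P.Base} {i j : b.support} {w : Equiv.Perm ι} (hw : OppW b i j w) (A : M →ₗ[ℚ] ℝ) :
    ∑ β ∈ Phi b i, A (P.root (w β)) = -AA b A j := by
  unfold AA
  rw [← d2_bij hw (fun γ => A (P.root γ)), ← Finset.sum_neg_distrib]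
  refine Finset.sum_congr rfl fun β _ => ?_
  rw [d2_neg_root, map_neg, neg_neg]

theorem dm_dg {b : P.Base} {i j : b.support} {w : Equiv.Perm ι} (hw : OppW b i j w) (A : M →ₗ[ℚ] ℝ) (κ : Matrix (I b) (I b) (EE K)) :
    Dm b i w (dg b K A * κ * dg b K (-A)) = algebraMap ℝ (EE K) (Real.exp (-(AA b A i + AA b A j))) * Dm b i w κ := by
  unfold Dm
  have e : (Matrix.of fun β β' : Phi b i => (dg b K A * κ * dg b K (-A)) (Sum.inr (w β.1)) (Sum.inr β'.1)) =
      Matrix.of fun β β' : Phi b i => algebraMap ℝ (EE K) (Real.exp (-A (P.root β'.1))) *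
        (Matrix.of fun β β' : Phi b i => algebraMap ℝ (EE K) (Real.exp (A (P.root (w β.1)))) *
          (Matrix.of fun β β' : Phi b i => κ (Sum.inr (w β.1)) (Sum.inr β'.1)) β β') β β' := by
    ext1 β β'
    simp only [Matrix.of_apply]
    unfold dg
    rw [Matrix.mul_diagonal, Matrix.diagonal_mul]
    simp only [Sum.elim_inr, LinearMap.neg_apply]
    ring
  rw [e, Matrix.det_mul_row, Matrix.det_mul_column, ← mul_assoc, ← map_prod, ← map_prod, ← map_mul, ← Real.exp_sum, ← Real.exp_sum, ← Real.exp_add]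
  congr 4
  rw [Finset.sum_neg_distrib]
  have h1 : ∑ β : Phi b i, A (P.root β.1) = AA b A i := Finset.sum_coe_sort (Phi b i) fun β => A (P.root β)
  have h2 : ∑ β : Phi b i, A (P.root (w β.1)) = -AA b A j := by
    rw [← d2_sum hw A]
    exact Finset.sum_coe_sort (Phi b i) fun β => A (P.root (w β))
  rw [h1, h2]
  ring

/-- The norm `∏ |z|_w ^ mult w` on `K ⊗ ℝ`. -/
theorem dm_bdd (b : P.Base) (K : Type) [Field K] [NumberField K] (Ω : Set (GL (I b) (EE K))) (hΩ : IsCompact Ω) :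
    ∃ C : ℝ, 0 < C ∧ ∀ (i : b.support) (w : Equiv.Perm ι), ∀ κ ∈ Ω, mixedEmbedding.norm (Dm b i w κ.1) ≤ C := by
  have h1 : ∀ p : b.support × Equiv.Perm ι, ∃ C : ℝ, ∀ κ ∈ Ω, mixedEmbedding.norm (Dm b p.1 p.2 κ.1) ≤ C := by
    intro p
    have hc : Continuous fun q : GL (I b) (EE K) => mixedEmbedding.norm (Dm b p.1 p.2 q.1) := by
      refine (mixedEmbedding.continuous_norm K).comp ?_
      unfold Dm
      refine Continuous.matrix_det ?_
      refine continuous_matrix fun β β' => ?_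
      exact Units.continuous_val.matrix_elem _ _
    obtain ⟨C, hC⟩ := hΩ.exists_bound_of_continuousOn hc.continuousOn
    refine ⟨C, fun κ hκ => ?_⟩
    have h3 := hC κ hκ
    rwa [Real.norm_of_nonneg (mixedEmbedding.norm_nonneg _)] at h3
  choose C hC using h1
  refine ⟨∑ p : b.support × Equiv.Perm ι, |C p| + 1, by positivity, fun i w κ hκ => ?_⟩
  have h2 := Finset.single_le_sum (f := fun p : b.support × Equiv.Perm ι => |C p|) (fun p _ => abs_nonneg (C p)) (Finset.mem_univ (i, w))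
  have h3 := hC (i, w) κ hκ
  have h4 := le_abs_self (C (i, w))
  simp only at h2 h3
  linarith

/-- **TARGET D3**. `γ = u' a κ a⁻¹ u`, `κ ∈ Ω`: the norm of the minor is at most `C exp(-d (A(σ_i) + A(σ_j)))`. (`hU` is the statement of the module L on `U`.) -/
theorem dm_arch (b : P.Base) (K : Type) [Field K] [NumberField K] (hU : ∀ u ∈ UR b K, Uni b u.1.1) (Ω : Set (GL (I b) (EE K))) (hΩ : IsCompact Ω) :
    ∃ C : ℝ, 0 < C ∧ ∀ (A : M →ₗ[ℚ] ℝ) (γ : GK b K), Mv b Ω A (emb b K γ) →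
      ∀ (i j : b.support) (w : Equiv.Perm ι), OppW b i j w →
      mixedEmbedding.norm (mixedEmbedding K (Dm b i w γ.1.1)) ≤ C * Real.exp (-(Module.finrank ℚ K * (AA b A i + AA b A j))) := by
  obtain ⟨C, hC0, hC⟩ := dm_bdd b K Ω hΩ
  refine ⟨C, hC0, fun A γ hγ i j w hw => ?_⟩
  obtain ⟨u, hu, u', hu', κ, hκ, e3⟩ := hγ
  have e1 : (emb b K γ).1.1 = γ.1.1.map (mixedEmbedding K) := rfl
  have e5 : mixedEmbedding K (Dm b i w γ.1.1) = algebraMap ℝ (EE K) (Real.exp (-(AA b A i + AA b A j))) * Dm b i w κ.1 := by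
    rw [← dm_map, ← e1, e3, dm_uni hw (hU u' hu') (hU u hu), dm_dg hw]
  rw [e5, ← Algebra.smul_def, mixedEmbedding.norm_smul, Real.abs_exp, ← Real.exp_nat_mul, mul_comm C]
  have e6 : (Module.finrank ℚ K : ℝ) * -(AA b A i + AA b A j) = -(Module.finrank ℚ K * (AA b A i + AA b A j)) := by ring
  rw [e6]
  exact mul_le_mul_of_nonneg_left (hC i w κ hκ) (Real.exp_nonneg _)

end

end Pool.Agent.Lib.L1S
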