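import Pool.Agent.Lib.L1S.D2
import Pool.Agent.Lib.L1S.B2
import Pool.Agent.Lib.H89N.LD
import Pool.Agent.Lib.H89N.NU6

/-!
# L1S, D3: the minors at the finite places
-/

namespace Pool.Agent.Lib.L1S

open MeasureTheory Matrix NumberField IsDedekindDomain Pool.Agent.Lib.H89N Pool.Agent.Lib.H33W

noncomputable section

set_option linter.unusedSectionVars false

variable {ι M N : Type} [Fintype ι] [DecidableEq ι] [AddCommGroup M] [Module ℚ M] [AddCommGroup N] [Module ℚ N]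
  {P : RootPairing ι ℚ M N} [P.IsCrystallographic] [P.IsRootSystem]

variable {K : Type} [Field K] [NumberField K]

/-- `∑_{β ∈ Φ_i} ⟨w β, λ⟩ = - S_j`. -/
theorem d3_sum {b : P.Base} {i j : b.support} {w : Equiv.Perm ι} (hw : OppW b i j w) (c : b.support → ℤ) :
    ∑ β ∈ Phi b i, pr b c (Sum.inr (w β)) = -sS b c j := by
  unfold sS
  rw [← d2_bij hw (fun γ => pr b c (Sum.inr γ)), ← Finset.sum_neg_distrib]
  refine Finset.sum_congr rfl fun β _ => ?_
  unfold pr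
  simp only [Sum.elim_inr]
  rw [← Finset.sum_neg_distrib]
  refine Finset.sum_congr rfl fun k _ => ?_
  rw [P.pairingIn_reflectionPerm_self_left ℤ]
  ring

/-- A determinant over a field with a nonarchimedean absolute value. -/
theorem d3_det {n : Type} [Fintype n] [DecidableEq n] (f : AbsoluteValue K ℝ) (hf : IsNonarchimedean (f : K → ℝ)) (A : Matrix n n K) (r c : n → ℝ)
    (hr : ∀ k, 0 ≤ r k) (hc : ∀ k, 0 ≤ c k) (h : ∀ k l, f (A k l) ≤ r k * c l) : f A.det ≤ (∏ k, r k) * ∏ k, c k := by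
  have hB : 0 ≤ (∏ k, r k) * ∏ k, c k := mul_nonneg (Finset.prod_nonneg fun k _ => hr k) (Finset.prod_nonneg fun k _ => hc k)
  have hsum : ∀ (s : Finset (Equiv.Perm n)) (g : Equiv.Perm n → K), (∀ σ ∈ s, f (g σ) ≤ (∏ k, r k) * ∏ k, c k) → f (∑ σ ∈ s, g σ) ≤ (∏ k, r k) * ∏ k, c k := by
    intro s g
    induction s using Finset.induction_on with
    | empty =>
      intro _
      rw [Finset.sum_empty, map_zero]
      exact hB
    | insert a s ha ih =>
      intro h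
      rw [Finset.sum_insert ha]
      refine (hf _ _).trans (max_le (h a (Finset.mem_insert_self _ _)) (ih fun σ hσ => h σ (Finset.mem_insert_of_mem hσ)))
  rw [Matrix.det_apply]
  refine hsum _ _ fun σ _ => ?_
  have e1 : f (Equiv.Perm.sign σ • ∏ i, A (σ i) i) = ∏ i, f (A (σ i) i) := by
    rcases Int.units_eq_one_or (Equiv.Perm.sign σ) with h1 | h1
    · rw [h1, one_smul, map_prod]
    · rw [h1, Units.neg_smul, one_smul, AbsoluteValue.map_neg, map_prod]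
  rw [e1]
  calc ∏ i, f (A (σ i) i) ≤ ∏ i, (r (σ i) * c i) := Finset.prod_le_prod (fun i _ => f.nonneg _) fun i _ => h _ _
    _ = (∏ i, r (σ i)) * ∏ i, c i := Finset.prod_mul_distrib
    _ = (∏ k, r k) * ∏ k, c k := by rw [Equiv.prod_comp σ r]

theorem d3_prod (z : K) : mixedEmbedding.norm (mixedEmbedding K z) = ∏ w : InfinitePlace K, w z ^ w.mult := by
  rw [mixedEmbedding.norm_apply]
  refine Finset.prod_congr rfl fun w _ => ?_
  rw [mixedEmbedding.normAtPlace_apply]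

theorem d3_nw_mul (w : HeightOneSpectrum (𝓞 K)) {I J : Ideal (𝓞 K)} (hI : I ≠ ⊥) (hJ : J ≠ ⊥) : nw w (I * J) = nw w I * nw w J := by
  have h1 : (Associates.mk w.asIdeal).count (Associates.mk (I * J)).factors =
      (Associates.mk w.asIdeal).count (Associates.mk I).factors + (Associates.mk w.asIdeal).count (Associates.mk J).factors := by
    rw [← Associates.mk_mul_mk, Associates.count_mul (Associates.mk_ne_zero.2 hI) (Associates.mk_ne_zero.2 hJ) w.associates_irreducible]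
  unfold nw
  rw [h1, ← zpow_add₀ (nu2_pos w).ne']
  congr 1
  push_cast
  ring

theorem d3_nw_self (v : HeightOneSpectrum (𝓞 K)) : nw v v.asIdeal = (Ideal.absNorm v.asIdeal : ℝ) ^ (-1 : ℤ) := by
  unfold nw
  rw [Associates.count_self v.associates_irreducible]
  simp

/-- PROOF. `s ≥ 0`: `den_iff`, `H67G.r2_den`. `s < 0`: `D ∈ 𝔞 ^ k v ^ t`, `t = - s` (`nu2_A`), `H89S.n1_nm_le`. -/
theorem d3_norm {v : HeightOneSpectrum (𝓞 K)} {𝔞 : Ideal (𝓞 K)} (h0 : 𝔞 ≠ ⊥) (hv : ¬𝔞 ≤ v.asIdeal) (k : ℕ) (s : ℤ) {D : K} (hD : D ≠ 0)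
    (h1 : ∀ w, w ≠ v → aw w D ≤ nw w 𝔞 ^ k) (h2 : aw v D ≤ (Ideal.absNorm v.asIdeal : ℝ) ^ s) :
    (Ideal.absNorm 𝔞 : ℝ) ^ k ≤ mixedEmbedding.norm (mixedEmbedding K D) * (Ideal.absNorm v.asIdeal : ℝ) ^ s := by
  rw [d3_prod]
  have hk0 : 𝔞 ^ k ≠ ⊥ := pow_ne_zero k h0
  rcases le_or_gt 0 s with hs | hs
  · obtain ⟨j, rfl⟩ := Int.eq_ofNat_of_zero_le hs
    rw [zpow_natCast] at h2 ⊢
    have h3 : Den (𝔞 ^ k) v j D := (den_iff h0 hv j k D).2 ⟨h1, h2⟩
    have hI0 : fI (𝔞 ^ k) v j ≠ 0 := by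
      unfold fI
      refine mul_ne_zero ?_ (inv_ne_zero (pow_ne_zero _ ?_))
      · rw [Ne, FractionalIdeal.coeIdeal_eq_zero]
        exact hk0
      · rw [Ne, FractionalIdeal.coeIdeal_eq_zero]
        exact v.ne_bot
    have h4 := H89S.n1_nm_le K hI0 ((den_mem (𝔞 ^ k) v j D).1 h3) hD
    rw [nm_fI, div_le_iff₀ (pow_pos (nu2_pos v) j)] at h4
    rw [map_pow, Nat.cast_pow] at h4
    exact h4
  · obtain ⟨t, rfl⟩ : ∃ t : ℕ, s = -(t : ℤ) := ⟨(-s).toNat, by omega⟩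
    have ht0 : v.asIdeal ^ t ≠ ⊥ := pow_ne_zero t v.ne_bot
    have hI : 𝔞 ^ k * v.asIdeal ^ t ≠ ⊥ := mul_ne_zero hk0 ht0
    have h3 : ∃ z ∈ 𝔞 ^ k * v.asIdeal ^ t, D = ((z : 𝓞 K) : K) := by
      rw [nu2_A hI]
      intro w
      rw [d3_nw_mul w hk0 ht0, nu2_nw_pow w h0, nu2_nw_pow w v.ne_bot]
      by_cases hw : w = v
      · subst hw
        rw [nu2_nw_one w h0 hv, one_pow, one_mul, d3_nw_self, ← zpow_natCast, ← _root_.zpow_mul]
        refine h2.trans (le_of_eq ?_)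
        congr 1
        ring
      · have h4 : ¬v.asIdeal ≤ w.asIdeal := fun h => hw (HeightOneSpectrum.ext (v.isMaximal.eq_of_le w.isPrime.ne_top h).symm)
        rw [nu2_nw_one w v.ne_bot h4, one_pow, mul_one]
        exact h1 w hw
    obtain ⟨z, hz, hzD⟩ := h3
    have hI0 : ((𝔞 ^ k * v.asIdeal ^ t : Ideal (𝓞 K)) : H89S.FI K) ≠ 0 := by
      rw [Ne, FractionalIdeal.coeIdeal_eq_zero]
      exact hI
    have hmem : D ∈ ((𝔞 ^ k * v.asIdeal ^ t : Ideal (𝓞 K)) : H89S.FI K) :=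
      (FractionalIdeal.mem_coeIdeal _).2 ⟨z, hz, hzD.symm⟩
    have h4 := H89S.n1_nm_le K hI0 hmem hD
    have h5 : H89S.nm ((𝔞 ^ k * v.asIdeal ^ t : Ideal (𝓞 K)) : H89S.FI K) = (Ideal.absNorm 𝔞 : ℝ) ^ k * (Ideal.absNorm v.asIdeal : ℝ) ^ t := by
      unfold H89S.nm
      rw [FractionalIdeal.coeIdeal_absNorm]
      simp
    rw [h5] at h4
    rw [_root_.zpow_neg, zpow_natCast, ← div_eq_mul_inv, le_div_iff₀ (pow_pos (nu2_pos v) t)]
    exact h4

theorem d3_prod_zpow {n : Type} (s : Finset n) (q : ℝ) (hq : q ≠ 0) (f : n → ℤ) : ∏ k ∈ s, q ^ f k = q ^ ∑ k ∈ s, f k := by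
  classical
  induction s using Finset.induction_on with
  | empty => simp
  | insert a s ha ih => rw [Finset.prod_insert ha, Finset.sum_insert ha, ih, zpow_add₀ hq]

theorem d3_pos [P.IsReduced] {b : P.Base} {i : b.support} {β : ι} (h : β ∈ Phi b i) : 0 < b.height β := by
  by_contra h1
  have h2 := b2_nonpos b (β := β) h1 i
  have h3 := d1_mem_phi.1 h
  exact absurd h3 (not_lt.2 h2)

theorem d3_neg [P.IsReduced] {b : P.Base} {j : b.support} {γ : ι} (h : P.reflectionPerm γ γ ∈ Phi b j) : b.height γ < 0 := by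
  have h1 := d3_pos h
  have h2 := b.height_reflectionPerm_self γ
  have h3 : b.height (P.reflectionPerm γ γ) = -b.height γ := h2
  rw [h3] at h1
  omega

/-- **TARGET D4**. -/
theorem dm_adic [P.IsReduced] {b : P.Base} {v : HeightOneSpectrum (𝓞 K)} {𝔞 : Ideal (𝓞 K)} (h0 : 𝔞 ≠ ⊥) (hv : ¬𝔞 ≤ v.asIdeal) (c : b.support → ℤ) (e : ℕ)
    {γ : Matrix (I b) (I b) K} (h1 : ∃ l, ∀ r s, Den 𝔞 v l ((γ - 1) r s))
    (h2 : ∀ r s, ht b r < ht b s → aw v (γ r s) ≤ (Ideal.absNorm v.asIdeal : ℝ) ^ (pr b c s - pr b c r - e)) {i j : b.support} {w : Equiv.Perm ι} (hw : OppW b i j w)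
    (hD : Dm b i w γ ≠ 0) :
    (Ideal.absNorm 𝔞 : ℝ) ^ (Phi b i).card ≤ mixedEmbedding.norm (mixedEmbedding K (Dm b i w γ)) *
      (Ideal.absNorm v.asIdeal : ℝ) ^ (sS b c i + sS b c j - (e : ℤ) * (Phi b i).card) := by
  obtain ⟨l, h1⟩ := h1
  have hq := nu2_pos v
  have hlow : ∀ β β' : Phi b i, ht b (Sum.inr (w β.1)) < ht b (Sum.inr β'.1) := by
    intro β β'
    have h3 := d3_neg ((hw β.1).1 β.2)
    have h4 := d3_pos β'.2
    exact h3.trans h4
  have hne : ∀ β β' : Phi b i, (Sum.inr (w β.1) : I b) ≠ Sum.inr β'.1 := by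
    intro β β' h
    have h3 := hlow β β'
    rw [h] at h3
    exact lt_irrefl _ h3
  refine d3_norm h0 hv _ _ hD ?_ ?_
  · intro w' hw'
    have h3 : ∀ β β' : Phi b i, aw w' (γ (Sum.inr (w β.1)) (Sum.inr β'.1)) ≤ nw w' 𝔞 * 1 := by
      intro β β'
      have h4 := h1 (Sum.inr (w β.1)) (Sum.inr β'.1)
      rw [Matrix.sub_apply, Matrix.one_apply_ne (hne β β'), sub_zero, ← pow_one 𝔞] at h4
      have h5 := ((den_iff h0 hv l 1 _).1 h4).1 w' hw'
      rwa [pow_one, ← mul_one (nw w' 𝔞)] at h5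
    have h6 := d3_det (aw w') (aw_nonarch w') (Matrix.of fun β β' : Phi b i => γ (Sum.inr (w β.1)) (Sum.inr β'.1)) (fun _ => nw w' 𝔞) (fun _ => 1)
      (fun _ => (nw_pos w' 𝔞).le) (fun _ => zero_le_one) h3
    rw [Finset.prod_const_one, mul_one, Finset.prod_const, Finset.card_univ, Fintype.card_coe] at h6
    exact h6
  · have h3 : ∀ β β' : Phi b i, aw v (γ (Sum.inr (w β.1)) (Sum.inr β'.1)) ≤
        (Ideal.absNorm v.asIdeal : ℝ) ^ (-pr b c (Sum.inr (w β.1))) * (Ideal.absNorm v.asIdeal : ℝ) ^ (pr b c (Sum.inr β'.1) - e) := by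
      intro β β'
      refine (h2 _ _ (hlow β β')).trans (le_of_eq ?_)
      rw [← zpow_add₀ hq.ne']
      congr 1
      ring
    have h6 := d3_det (aw v) (aw_nonarch v) (Matrix.of fun β β' : Phi b i => γ (Sum.inr (w β.1)) (Sum.inr β'.1))
      (fun β => (Ideal.absNorm v.asIdeal : ℝ) ^ (-pr b c (Sum.inr (w β.1)))) (fun β' => (Ideal.absNorm v.asIdeal : ℝ) ^ (pr b c (Sum.inr β'.1) - e))
      (fun _ => (zpow_pos hq _).le) (fun _ => (zpow_pos hq _).le) h3
    rw [d3_prod_zpow _ _ hq.ne', d3_prod_zpow _ _ hq.ne', ← zpow_add₀ hq.ne'] at h6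
    refine h6.trans (le_of_eq ?_)
    congr 1
    have e1 : ∑ β : Phi b i, -pr b c (Sum.inr (w β.1)) = sS b c j := by
      rw [Finset.sum_neg_distrib, Finset.sum_coe_sort (Phi b i) fun β => pr b c (Sum.inr (w β)), d3_sum hw c, neg_neg]
    have e2 : ∑ β' : Phi b i, (pr b c (Sum.inr β'.1) - e) = sS b c i - (e : ℤ) * (Phi b i).card := by
      rw [Finset.sum_sub_distrib, Finset.sum_coe_sort (Phi b i) fun β => pr b c (Sum.inr β), Finset.sum_const, Finset.card_univ, Fintype.card_coe]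
      unfold sS
      simp
      ring
    rw [e1, e2]
    ring

theorem d3_aw (v : HeightOneSpectrum (𝓞 K)) (x : K) : aw v x = ((WithZeroMulInt.toNNReal (NumberField.HeightOneSpectrum.absNorm_ne_zero v) (v.valuation K x) : NNReal) : ℝ) := rfl

theorem d3_exp (v : HeightOneSpectrum (𝓞 K)) (m : ℤ) :
    ((WithZeroMulInt.toNNReal (NumberField.HeightOneSpectrum.absNorm_ne_zero v) (WithZero.exp m) : NNReal) : ℝ) = (Ideal.absNorm v.asIdeal : ℝ) ^ m := by
  rw [WithZeroMulInt.toNNReal_neg_apply _ WithZero.exp_ne_zero]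
  have h3 : (WithZero.unzero (WithZero.exp_ne_zero (a := m))).toAdd = m := rfl
  rw [h3]
  simp

theorem d3_aw_le {v : HeightOneSpectrum (𝓞 K)} {x : K} {m : ℤ} (h : v.valuation K x ≤ WithZero.exp m) : aw v x ≤ (Ideal.absNorm v.asIdeal : ℝ) ^ m := by
  rw [d3_aw, ← d3_exp, NNReal.coe_le_coe]
  exact (WithZeroMulInt.toNNReal_strictMono (NumberField.HeightOneSpectrum.one_lt_absNorm_nnreal v)).monotone h

theorem d3_aw_eq {v : HeightOneSpectrum (𝓞 K)} {x : K} {m : ℤ} (h : v.valuation K x = WithZero.exp m) : aw v x = (Ideal.absNorm v.asIdeal : ℝ) ^ m := by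
  rw [d3_aw, h, d3_exp]

/-- `v`-integral with the lower entries in `v ^ e`. -/
def Lw (b : P.Base) (v : HeightOneSpectrum (𝓞 K)) (e : ℕ) (A : Matrix (I b) (I b) K) : Prop :=
  ∀ i j, aw v (A i j) ≤ 1 ∧ (ht b i < ht b j → aw v (A i j) ≤ (Ideal.absNorm v.asIdeal : ℝ) ^ (-(e : ℤ)))

theorem d3_sum_le {n : Type} (f : AbsoluteValue K ℝ) (hf : IsNonarchimedean (f : K → ℝ)) (s : Finset n) (g : n → K) {B : ℝ} (hB : 0 ≤ B)
    (h : ∀ k ∈ s, f (g k) ≤ B) : f (∑ k ∈ s, g k) ≤ B := by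
  classical
  induction s using Finset.induction_on with
  | empty =>
    rw [Finset.sum_empty, map_zero]
    exact hB
  | insert a s ha ih =>
    rw [Finset.sum_insert ha]
    exact (hf _ _).trans (max_le (h a (Finset.mem_insert_self _ _)) (ih fun k hk => h k (Finset.mem_insert_of_mem hk)))

theorem d3_lw_mul {b : P.Base} {v : HeightOneSpectrum (𝓞 K)} {e : ℕ} {A B : Matrix (I b) (I b) K} (hA : Lw b v e A) (hB : Lw b v e B) : Lw b v e (A * B) := by
  have hq : (0 : ℝ) ≤ (Ideal.absNorm v.asIdeal : ℝ) ^ (-(e : ℤ)) := (zpow_pos (nu2_pos v) _).le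
  intro i j
  rw [Matrix.mul_apply]
  constructor
  · refine d3_sum_le _ (aw_nonarch v) _ _ zero_le_one fun k _ => ?_
    rw [map_mul]
    exact mul_le_one₀ (hA i k).1 ((aw v).nonneg _) (hB k j).1
  · intro hij
    refine d3_sum_le _ (aw_nonarch v) _ _ hq fun k _ => ?_
    rw [map_mul]
    by_cases h1 : ht b i < ht b k
    · calc aw v (A i k) * aw v (B k j) ≤ (Ideal.absNorm v.asIdeal : ℝ) ^ (-(e : ℤ)) * 1 :=
          mul_le_mul ((hA i k).2 h1) (hB k j).1 ((aw v).nonneg _) hq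
        _ = _ := mul_one _
    · calc aw v (A i k) * aw v (B k j) ≤ 1 * (Ideal.absNorm v.asIdeal : ℝ) ^ (-(e : ℤ)) :=
          mul_le_mul (hA i k).1 ((hB k j).2 ((not_lt.1 h1).trans_lt hij)) ((aw v).nonneg _) zero_le_one
        _ = _ := one_mul _

theorem d3_lw_iw {b : P.Base} {v : HeightOneSpectrum (𝓞 K)} {r s : ℕ} {A : Matrix (I b) (I b) K} (hA : IwL b v r s A) : Lw b v (r + s) A := by
  intro i j
  obtain ⟨h1, h2, _⟩ := hA i j
  constructor
  · rw [← WithZero.exp_zero] at h1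
    have := d3_aw_le h1
    rwa [zpow_zero] at this
  · intro h
    have h3 := d3_aw_le (h2 h)
    push_cast
    exact h3

theorem d3_lw_gam {b : P.Base} {v : HeightOneSpectrum (𝓞 K)} {𝔞 : Ideal (𝓞 K)} {r s : ℕ} {γ : GK b K} (hγ : γ ∈ GamK b 𝔞 v r s) : Lw b v (r + s) γ.1.1 := by
  intro i j
  obtain ⟨⟨h1, h2, _⟩, _⟩ := hγ i j
  constructor
  · have h3 : InI ⊤ (γ.1.1 i j) := by
      have e : γ.1.1 i j = (γ.1.1 - 1) i j + (1 : Matrix (I b) (I b) K) i j := by simp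
      rw [e]
      refine h1.top.add ?_
      by_cases h : i = j
      · subst h
        rw [Matrix.one_apply_eq]
        exact ⟨1, Submodule.mem_top, by simp⟩
      · rw [Matrix.one_apply_ne h]
        exact InI.zero _
    obtain ⟨y, _, hy⟩ := h3
    rw [← hy]
    exact nu2_le_one v y
  · intro h
    obtain ⟨y, hy, hy'⟩ := h2 h
    rw [← hy']
    exact (nu2_le_pow v y (r + s)).2 hy

theorem d3_den_one {b : P.Base} {v : HeightOneSpectrum (𝓞 K)} {𝔫 : Ideal (𝓞 K)} {l : ℕ} {A : Matrix (I b) (I b) K} (h : ∀ i j, Den 𝔫 v l ((A - 1) i j)) (i j : I b) :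
    Den ⊤ v l (A i j) := by
  have e : A i j = (A - 1) i j + (1 : Matrix (I b) (I b) K) i j := by simp
  rw [e]
  refine ((h i j).le le_top).add ?_
  by_cases hij : i = j
  · subst hij
    rw [Matrix.one_apply_eq]
    have := Den.of_int (K := K) (v := v) (𝔫 := ⊤) (a := 1) Submodule.mem_top l
    simpa using this
  · rw [Matrix.one_apply_ne hij]
    exact Den.zero

theorem d3_den_mul {v : HeightOneSpectrum (𝓞 K)} {𝔞 : Ideal (𝓞 K)} {l l' : ℕ} {x y : K} (hx : Den ⊤ v l x) (hy : Den 𝔞 v l' y) : Den 𝔞 v (l + l') (x * y) := by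
  have h := hx.mul hy
  rwa [Ideal.top_mul] at h

theorem d3_den_mul' {v : HeightOneSpectrum (𝓞 K)} {𝔞 : Ideal (𝓞 K)} {l l' : ℕ} {x y : K} (hx : Den 𝔞 v l x) (hy : Den ⊤ v l' y) : Den 𝔞 v (l + l') (x * y) := by
  have h := hx.mul hy
  rwa [Ideal.mul_top] at h

/-- The matrices `h⁻¹ γ h`. -/
theorem dm_conj {b : P.Base} {v : HeightOneSpectrum (𝓞 K)} {𝔫 𝔞 : Ideal (𝓞 K)} (hv : ¬𝔞 ≤ v.asIdeal) {r s : ℕ} {π : K} (hπ : v.valuation K π = WithZero.exp (-1 : ℤ))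
    (c : b.support → ℤ) {h : GK b K} (hh : h ∈ HG b 𝔫 v) (hh' : AtV b v r s π c h) {γ : GK b K} (hγ : γ ∈ GamK b 𝔞 v r s) :
    (∃ l, ∀ i j, Den 𝔞 v l (((h⁻¹ * γ * h).1.1 - 1) i j)) ∧
      ∀ i j, ht b i < ht b j → aw v ((h⁻¹ * γ * h).1.1 i j) ≤ (Ideal.absNorm v.asIdeal : ℝ) ^ (pr b c j - pr b c i - (r + s : ℕ)) := by
  have e0 : (h⁻¹ * γ * h).1.1 = h⁻¹.1.1 * γ.1.1 * h.1.1 := rfl
  have ehi : h⁻¹.1.1 * h.1.1 = 1 := by
    have h1 : (h⁻¹ * h).1.1 = h⁻¹.1.1 * h.1.1 := rfl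
    rw [← h1, inv_mul_cancel]
    rfl
  constructor
  · obtain ⟨l, hl⟩ := hh
    refine ⟨l + 0 + l, fun i j => ?_⟩
    have e1 : (h⁻¹ * γ * h).1.1 - 1 = h⁻¹.1.1 * (γ.1.1 - 1) * h.1.1 := by
      rw [e0, Matrix.mul_sub, Matrix.sub_mul, Matrix.mul_one, ehi]
    rw [e1, Matrix.mul_apply]
    refine Den.sum _ fun k _ => ?_
    refine d3_den_mul' ?_ (d3_den_one (fun i j => (hl i j).1) k j)
    rw [Matrix.mul_apply]
    refine Den.sum _ fun k' _ => ?_
    refine d3_den_mul (d3_den_one (fun i j => (hl i j).2) i k') ?_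
    obtain ⟨y, hy, hy'⟩ := (hγ k' k).1.1
    rw [← hy']
    exact Den.of_int hy 0
  · have hπ1 : aw v π = (Ideal.absNorm v.asIdeal : ℝ) ^ (-1 : ℤ) := d3_aw_eq hπ
    have hπ0 : π ≠ 0 := by
      rintro rfl
      rw [map_zero] at hπ1
      exact (zpow_pos (nu2_pos v) _).ne hπ1
    set X : Matrix (I b) (I b) K := h.1.1 * Matrix.diagonal fun i => π ^ pr b c i with hX
    set Y : Matrix (I b) (I b) K := (Matrix.diagonal fun i => π ^ (-pr b c i)) * h⁻¹.1.1 with hY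
    have hD : (Matrix.diagonal fun i => π ^ pr b c i) * (Matrix.diagonal fun i => π ^ (-pr b c i)) = (1 : Matrix (I b) (I b) K) := by
      rw [Matrix.diagonal_mul_diagonal, ← Matrix.diagonal_one]
      congr 1
      funext i
      rw [_root_.zpow_neg, mul_inv_cancel₀ (zpow_ne_zero _ hπ0)]
    have eX : h.1.1 = X * Matrix.diagonal fun i => π ^ (-pr b c i) := by
      rw [hX, Matrix.mul_assoc, hD, Matrix.mul_one]
    have eY : h⁻¹.1.1 = (Matrix.diagonal fun i => π ^ pr b c i) * Y := by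
      rw [hY, ← Matrix.mul_assoc, hD, Matrix.one_mul]
    have hL : Lw b v (r + s) (Y * γ.1.1 * X) := d3_lw_mul (d3_lw_mul (d3_lw_iw hh'.2) (d3_lw_gam hγ)) (d3_lw_iw hh'.1)
    intro i j hij
    have e1 : (h⁻¹ * γ * h).1.1 = (Matrix.diagonal fun i => π ^ pr b c i) * (Y * γ.1.1 * X) * Matrix.diagonal fun i => π ^ (-pr b c i) := by
      rw [e0, eX, eY]
      simp only [Matrix.mul_assoc]
    have hp : ∀ m : ℤ, aw v (π ^ m) = (Ideal.absNorm v.asIdeal : ℝ) ^ (-m) := by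
      intro m
      rw [map_zpow₀, hπ1, ← _root_.zpow_mul]
      congr 1
      ring
    rw [e1, Matrix.mul_diagonal, Matrix.diagonal_mul, map_mul, map_mul, hp, hp]
    have h3 := (hL i j).2 hij
    have hq := nu2_pos v
    calc (Ideal.absNorm v.asIdeal : ℝ) ^ (-pr b c i) * aw v ((Y * γ.1.1 * X) i j) * (Ideal.absNorm v.asIdeal : ℝ) ^ (- -pr b c j)
        ≤ (Ideal.absNorm v.asIdeal : ℝ) ^ (-pr b c i) * (Ideal.absNorm v.asIdeal : ℝ) ^ (-((r + s : ℕ) : ℤ)) * (Ideal.absNorm v.asIdeal : ℝ) ^ (- -pr b c j) := by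
          refine mul_le_mul_of_nonneg_right (mul_le_mul_of_nonneg_left h3 ?_) ?_
          · exact (zpow_pos hq _).le
          · exact (zpow_pos hq _).le
      _ = _ := by
          rw [← zpow_add₀ hq.ne', ← zpow_add₀ hq.ne']
          congr 1
          ring

end

end Pool.Agent.Lib.L1S
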