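import Pool.Agent.Lib.L1S.DE

/-!
# L1S, DE2: the Hecke element can be chosen congruent to `1` modulo `m 𝔫`
-/

namespace Pool.Agent.Lib.L1S

open MeasureTheory Matrix NumberField IsDedekindDomain Pool.Agent.Lib.H89N Pool.Agent.Lib.H33W

noncomputable section

set_option linter.unusedSectionVars false

variable {ι M N : Type} [Fintype ι] [DecidableEq ι] [AddCommGroup M] [Module ℚ M] [AddCommGroup N] [Module ℚ N]
  {P : RootPairing ι ℚ M N} [P.IsCrystallographic] [P.IsReduced] [P.IsIrreducible] [P.IsRootSystem]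

variable {b : P.Base} {K : Type} [Field K] [NumberField K] {v : HeightOneSpectrum (𝓞 K)}

theorem HG.le {𝔫 𝔪 : Ideal (𝓞 K)} (hle : 𝔫 ≤ 𝔪) {g : GK b K} (hg : g ∈ HG b 𝔫 v) : g ∈ HG b 𝔪 v := by
  obtain ⟨l, hl⟩ := hg
  exact ⟨l, fun i j => ⟨(hl i j).1.le hle, (hl i j).2.le hle⟩⟩

/-- Two elements of `HG` of the same type at `v` differ by an element of `Γ`. -/
theorem de_quot {𝔫 : Ideal (𝓞 K)} (h0 : 𝔫 ≠ ⊥) (hv : ¬𝔫 ≤ v.asIdeal) {r s : ℕ} {c : b.support → ℤ} {π : K} (hπ : v.valuation K π = WithZero.exp (-1 : ℤ))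
    {h h1 : GK b K} (hh : h ∈ HG b 𝔫 v) (ha : AtV b v r s π c h) (hh1 : h1 ∈ HG b 𝔫 v) (ha1 : AtV b v r s π c h1) : h * h1⁻¹ ∈ GamK b 𝔫 v r s := by
  have hπ0 : π ≠ 0 := by
    rintro rfl
    rw [map_zero] at hπ
    exact WithZero.exp_ne_zero hπ.symm
  have hD : (Matrix.diagonal fun i => π ^ pr b c i) * (Matrix.diagonal fun i => π ^ (-pr b c i)) = (1 : Matrix (I b) (I b) K) := by
    rw [Matrix.diagonal_mul_diagonal, ← Matrix.diagonal_one]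
    congr 1
    funext i
    rw [_root_.zpow_neg, mul_inv_cancel₀ (zpow_ne_zero _ hπ0)]
  have key : ∀ x y : GK b K, AtV b v r s π c x → AtV b v r s π c y → IwL b v r s (x * y⁻¹).1.1 := by
    intro x y hx hy
    have e : (x * y⁻¹).1.1 = (x.1.1 * Matrix.diagonal fun i => π ^ pr b c i) * ((Matrix.diagonal fun i => π ^ (-pr b c i)) * y⁻¹.1.1) := by
      have e1 : (x * y⁻¹).1.1 = x.1.1 * y⁻¹.1.1 := rfl
      rw [e1, Matrix.mul_assoc, ← Matrix.mul_assoc (Matrix.diagonal fun i => π ^ pr b c i), hD, one_mul]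
    rw [e]
    exact hx.1.mul hy.2
  refine dc0_mem h0 hv (hg_mul hh (hg_inv hh1)) (key h h1 ha ha1) ?_
  have e : (h * h1⁻¹)⁻¹ = h1 * h⁻¹ := by group
  rw [e]
  exact key h1 h ha1 ha

theorem de_m {𝔫 : Ideal (𝓞 K)} (h0 : 𝔫 ≠ ⊥) (hv : ¬𝔫 ≤ v.asIdeal) {m : ℕ} (hm : (m : 𝓞 K) ∉ v.asIdeal) :
    Ideal.span {(m : 𝓞 K)} * 𝔫 ≠ ⊥ ∧ ¬Ideal.span {(m : 𝓞 K)} * 𝔫 ≤ v.asIdeal := by
  have hm0 : (m : 𝓞 K) ≠ 0 := by
    intro h
    exact hm (h ▸ v.asIdeal.zero_mem)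
  constructor
  · refine mul_ne_zero ?_ h0
    rw [Ne, Ideal.zero_eq_bot, Ideal.span_singleton_eq_bot]
    exact hm0
  · intro h1
    rcases v.isPrime.mul_le.1 h1 with h2 | h2
    · exact hm (h2 (Ideal.mem_span_singleton_self _))
    · exact hv h2

/-- **Replacement of `h`** by an element of `HG (m 𝔫)`. -/
theorem de_repl {𝔫 : Ideal (𝓞 K)} (h0 : 𝔫 ≠ ⊥) (hv : ¬𝔫 ≤ v.asIdeal) {m : ℕ} (hm : (m : 𝓞 K) ∉ v.asIdeal) {r s : ℕ} {c : b.support → ℤ} {π : K}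
    (hπ : v.valuation K π = WithZero.exp (-1 : ℤ)) {h : GK b K} (hh : h ∈ HG b 𝔫 v) (ha : AtV b v r s π c h) :
    ∃ h1 ∈ HG b (Ideal.span {(m : 𝓞 K)} * 𝔫) v, AtV b v r s π c h1 ∧ h * h1⁻¹ ∈ GamK b 𝔫 v r s := by
  obtain ⟨h1, hh1, ha1⟩ := exists_h (b := b) (v := v) (𝔫 := Ideal.span {(m : 𝓞 K)} * 𝔫) (de_m h0 hv hm).2 r s c hπ
  have h2 : h1 ∈ HG b 𝔫 v := HG.le (𝔪 := 𝔫) Ideal.mul_le_right hh1
  exact ⟨h1, hh1, ha1, de_quot h0 hv hπ hh ha h2 ha1⟩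

end

end Pool.Agent.Lib.L1S
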