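import Pool.Agent.Lib.L1S.DC3

/-!
# L1S, IW: the Iwahori lemma for the exponents of version 2 (helper33)

For `g ∈ Γ` (level `a = r + s ≥ 1` at `v`), `l` a simple root, `m` the coefficient of the weights at `l` and `T` a bound for `m`: `T v(g_ij) ≥ a (m_j - m_i)`.
Proof: `g = y t u_2` with `u_2 ∈ U(K)` integral, `t` over the identity and integral, `y = n_0 u_1 n_0⁻¹`, `u_1 = ∏ x_β(t_β)` with `t_β ∈ v ^ a`.
-/

namespace Pool.Agent.Lib.L1S

open MeasureTheory Matrix NumberField IsDedekindDomain Pool.Agent.Lib.H89N Pool.Agent.Lib.H33W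

noncomputable section

set_option linter.unusedSectionVars false

variable {ι M N : Type} [Fintype ι] [DecidableEq ι] [AddCommGroup M] [Module ℚ M] [AddCommGroup N] [Module ℚ N]
  {P : RootPairing ι ℚ M N} [P.IsCrystallographic] [P.IsReduced] [P.IsIrreducible] [P.IsRootSystem] {b : P.Base}

variable {K : Type} [Field K] [NumberField K] {v : HeightOneSpectrum (𝓞 K)}

/-- The property of the lemma. -/
def IwQ (b : P.Base) (v : HeightOneSpectrum (𝓞 K)) (a T : ℕ) (m : I b → ℤ) (X : Matrix (I b) (I b) K) : Prop :=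
  ∀ i j, v.valuation K (X i j) ^ T ≤ WithZero.exp (-((a : ℤ) * (m j - m i)))

theorem iw_sum_pow {α : Type} (s : Finset α) (f : α → K) (T : ℕ) (hT : T ≠ 0) (B : WithZero (Multiplicative ℤ)) (h : ∀ k ∈ s, v.valuation K (f k) ^ T ≤ B) :
    v.valuation K (∑ k ∈ s, f k) ^ T ≤ B := by
  rcases s.eq_empty_or_nonempty with rfl | hne
  · rw [Finset.sum_empty, map_zero, zero_pow hT]
    exact zero_le
  · obtain ⟨k0, hk0, hmax⟩ := Finset.exists_max_image s (fun k => v.valuation K (f k)) hne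
    have h1 : v.valuation K (∑ k ∈ s, f k) ≤ v.valuation K (f k0) := Valuation.map_sum_le _ fun k hk => hmax k hk
    exact (pow_le_pow_left' h1 T).trans (h k0 hk0)

theorem IwQ.mul {a T : ℕ} (hT : T ≠ 0) {m : I b → ℤ} {X Y : Matrix (I b) (I b) K} (hX : IwQ b v a T m X) (hY : IwQ b v a T m Y) : IwQ b v a T m (X * Y) := by
  intro i j
  rw [Matrix.mul_apply]
  refine iw_sum_pow _ _ T hT _ fun k _ => ?_
  rw [map_mul, mul_pow]
  refine (mul_le_mul' (hX i k) (hY k j)).trans (le_of_eq ?_)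
  rw [← WithZero.exp_add]
  congr 1
  ring

/-- An integral matrix which raises `m` weakly. -/
theorem IwQ.of_raise {a T : ℕ} (hT : T ≠ 0) {m : I b → ℤ} {X : Matrix (I b) (I b) K} (h1 : ∀ i j, v.valuation K (X i j) ≤ 1) (h2 : ∀ i j, X i j ≠ 0 → m j ≤ m i) : IwQ b v a T m X := by
  intro i j
  by_cases h : X i j = 0
  · rw [h, map_zero, zero_pow hT]
    exact zero_le
  · refine (pow_le_one' (h1 i j) T).trans ?_
    rw [← WithZero.exp_zero]
    refine WithZero.exp_le_exp.2 ?_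
    have h3 : (a : ℤ) * (m j - m i) ≤ 0 := mul_nonpos_of_nonneg_of_nonpos (Int.natCast_nonneg a) (by have := h2 i j h; omega)
    omega

/-- The product of integral matrices is integral. -/
theorem iw_int_mul {X Y : Matrix (I b) (I b) K} (hX : ∀ i j, v.valuation K (X i j) ≤ 1) (hY : ∀ i j, v.valuation K (Y i j) ≤ 1) (i j : I b) : v.valuation K ((X * Y) i j) ≤ 1 := by
  rw [Matrix.mul_apply]
  refine Valuation.map_sum_le _ fun k _ => ?_
  rw [map_mul]
  exact mul_le_one' (hX i k) (hY k j)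

theorem iw_int_cast (z : ℤ) : v.valuation K ((z : ℤ) : K) ≤ 1 := by
  have h := v.valuation_le_one (K := K) ((z : ℤ) : 𝓞 K)
  simpa using h

theorem iw_int_toA (X : Matrix (I b) (I b) ℤ) (i j : I b) : v.valuation K (toA K X i j) ≤ 1 := iw_int_cast (X i j)

/-- An integral element over `w` with integral inverse. -/
theorem iw_isN (b : P.Base) (v : HeightOneSpectrum (𝓞 K)) {w : Equiv.Perm ι} (hw : w ∈ WP P) :
    ∃ n : GK b K, IsN b K w n ∧ (∀ i j, v.valuation K (n.1.1 i j) ≤ 1) ∧ ∀ i j, v.valuation K (n⁻¹.1.1 i j) ≤ 1 := by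
  obtain ⟨l, hl, rfl⟩ := b2_gen b hw
  clear hw
  induction l with
  | nil =>
    have h0 := (IwL.one (b := b) v 0 0 (K := K))
    refine ⟨1, b1_one b K, fun i j => (h0 i j).1, fun i j => ?_⟩
    rw [inv_one]
    exact (h0 i j).1
  | cons i l ih =>
    obtain ⟨n, hn, h1, h2⟩ := ih fun j hj => hl j (List.mem_cons_of_mem _ hj)
    have h3 : wl P (i :: l) = P.reflectionPerm i * wl P l := by
      unfold wl
      rw [List.map_cons, List.prod_cons]
    have h4 : (b1m b K ⟨i, hl i List.mem_cons_self⟩ 1).1.1 = toA K (nZ b ⟨i, hl i List.mem_cons_self⟩) := mG_one b _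
    have h5 : (b1m b K ⟨i, hl i List.mem_cons_self⟩ 1)⁻¹.1.1 = toA K (nZ' b ⟨i, hl i List.mem_cons_self⟩) := mG_one_inv b _
    refine ⟨b1m b K ⟨i, hl i List.mem_cons_self⟩ 1 * n, ?_, ?_, ?_⟩
    · rw [h3]
      exact b1_mul b K (b1_m b K ⟨i, hl i List.mem_cons_self⟩ 1) hn
    · intro r c
      have e : (b1m b K ⟨i, hl i List.mem_cons_self⟩ 1 * n).1.1 = (b1m b K ⟨i, hl i List.mem_cons_self⟩ 1).1.1 * n.1.1 := rfl
      rw [e, h4]
      exact iw_int_mul (iw_int_toA _) h1 r c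
    · intro r c
      have e : (b1m b K ⟨i, hl i List.mem_cons_self⟩ 1 * n)⁻¹.1.1 = n⁻¹.1.1 * (b1m b K ⟨i, hl i List.mem_cons_self⟩ 1)⁻¹.1.1 := by
        rw [_root_.mul_inv_rev]
        rfl
      rw [e, h5]
      exact iw_int_mul h2 (iw_int_toA _) r c

/-- The inverse of an integral unipotent matrix is integral. -/
theorem iw_unip {u u' : Matrix (I b) (I b) K} (h1 : u * u' = 1) (hu : ∀ i j, ht b i ≤ ht b j → u i j = (1 : Matrix (I b) (I b) K) i j) (hi : ∀ i j, v.valuation K (u i j) ≤ 1) (i j : I b) :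
    v.valuation K (u' i j) ≤ 1 := by
  have hone := IwL.one (b := b) v 0 0 (K := K)
  by_contra hcon
  push Not at hcon
  obtain ⟨i0, _, hi0⟩ := Finset.exists_max_image Finset.univ (fun i => v.valuation K (u' i j)) ⟨i, Finset.mem_univ i⟩
  set B := v.valuation K (u' i0 j) with hB
  have hmax : ∀ k, v.valuation K (u' k j) ≤ B := fun k => hi0 k (Finset.mem_univ k)
  have hB1 : 1 < B := hcon.trans_le (hmax i)
  have hne : (Finset.univ.filter fun k => v.valuation K (u' k j) = B).Nonempty := ⟨i0, Finset.mem_filter.2 ⟨Finset.mem_univ _, rfl⟩⟩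
  obtain ⟨i1, hi1, hmin⟩ := Finset.exists_min_image _ (fun k => ht b k) hne
  have hi1B : v.valuation K (u' i1 j) = B := (Finset.mem_filter.1 hi1).2
  have e : u' i1 j = (1 : Matrix (I b) (I b) K) i1 j - ∑ k ∈ Finset.univ.erase i1, u i1 k * u' k j := by
    have h2 := congrFun (congrFun h1 i1) j
    rw [Matrix.mul_apply, ← Finset.add_sum_erase _ _ (Finset.mem_univ i1), hu i1 i1 le_rfl, Matrix.one_apply_eq, one_mul] at h2
    rw [← h2]
    ring
  have h3 : v.valuation K (∑ k ∈ Finset.univ.erase i1, u i1 k * u' k j) < B := by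
    refine Valuation.map_sum_lt _ (ne_of_gt (zero_lt_one.trans hB1)) fun k hk => ?_
    have hk1 : k ≠ i1 := Finset.ne_of_mem_erase hk
    by_cases hk2 : ht b i1 ≤ ht b k
    · rw [hu i1 k hk2, Matrix.one_apply_ne hk1.symm, zero_mul, map_zero]
      exact zero_lt_one.trans hB1
    · push Not at hk2
      have h4 : v.valuation K (u' k j) < B := by
        refine lt_of_le_of_ne (hmax k) fun h5 => ?_
        have h6 := hmin k (Finset.mem_filter.2 ⟨Finset.mem_univ _, h5⟩)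
        omega
      rw [map_mul]
      exact (mul_le_of_le_one_left' (hi i1 k)).trans_lt h4
  have h4 : v.valuation K (u' i1 j) < B := by
    rw [e]
    exact (Valuation.map_sub _ _ _).trans_lt (max_lt ((hone i1 j).1.trans_lt hB1) h3)
  rw [hi1B] at h4
  exact lt_irrefl _ h4

/-- The coefficient at `l` of comparable weights. -/
theorem iw_wt {l : b.support} {m : I b → ℤ} (hm : ∀ a, ((m a : ℤ) : ℚ) = wq b a l) {a a' : I b} (h : wt b a = wt b a') : m a = m a' := by
  have h1 : ((m a : ℤ) : ℚ) = ((m a' : ℤ) : ℚ) := by rw [hm, hm, dc3_wq, dc3_wq, h]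
  exact_mod_cast h1

/-- The factors `n_0 x_β(t) n_0⁻¹`, `β > 0`, `t ∈ v ^ a`. -/
theorem iw_gen {a T : ℕ} (hT0 : T ≠ 0) {l : b.support} {m : I b → ℤ} (hm : ∀ a, ((m a : ℤ) : ℚ) = wq b a l) (hT : ∀ a, m a ≤ T) {w0 : Equiv.Perm ι} {n : GK b K} (hn : IsN b K w0 n)
    (h1 : ∀ i j, v.valuation K (n.1.1 i j) ≤ 1) (h2 : ∀ i j, v.valuation K (n⁻¹.1.1 i j) ≤ 1) (β : ι) (t : K) (ht : v.valuation K t ≤ WithZero.exp (-(a : ℤ))) :
    IwQ b v a T m (n.1.1 * xx b β t * n⁻¹.1.1) := by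
  obtain ⟨L, hL⟩ := b2_lin hn.mem
  have e : n.1.1 * xx b β t * n⁻¹.1.1 = ∑ k ∈ Finset.range 4, t ^ k • (n.1.1 * toA K (dvp (E b β) k) * n⁻¹.1.1) := by
    unfold xx ex
    rw [Finset.mul_sum, Finset.sum_mul]
    refine Finset.sum_congr rfl fun k _ => ?_
    rw [Matrix.mul_smul, Matrix.smul_mul]
  intro i j
  rw [e, Matrix.sum_apply]
  refine iw_sum_pow _ _ T hT0 _ fun k _ => ?_
  rw [Matrix.smul_apply, smul_eq_mul]
  by_cases h0 : (n.1.1 * toA K (dvp (E b β) k) * n⁻¹.1.1) i j = 0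
  · rw [h0, mul_zero, map_zero, zero_pow hT0]
    exact zero_le
  · have hint : v.valuation K ((n.1.1 * toA K (dvp (E b β) k) * n⁻¹.1.1) i j) ≤ 1 := iw_int_mul (iw_int_mul h1 (iw_int_toA _)) h2 i j
    have hw : wt b i = wt b j + (k : ℚ) • P.root (w0 β) := by
      rw [Matrix.mul_apply] at h0
      obtain ⟨c, -, hc⟩ := Finset.exists_ne_zero_of_sum_ne_zero h0
      have h3 := left_ne_zero_of_mul hc
      have h4 := right_ne_zero_of_mul hc
      rw [Matrix.mul_apply] at h3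
      obtain ⟨d, -, hd⟩ := Finset.exists_ne_zero_of_sum_ne_zero h3
      have h5 := left_ne_zero_of_mul hd
      have h6 := right_ne_zero_of_mul hd
      have h7 : dvp (E b β) k d c ≠ 0 := by
        intro h8
        apply h6
        change ((dvp (E b β) k d c : ℤ) : K) = 0
        rw [h8, Int.cast_zero]
      rw [dc3_wt hn hL h5, dc3_wt_inv hn hL h4, dvp_wt b β k d c h7, map_add, map_smul, hL]
    have hmk : m j - m i = k * m (Sum.inr (ng P (w0 β))) := by
      have h3 : ((m j - m i : ℤ) : ℚ) = ((k * m (Sum.inr (ng P (w0 β))) : ℤ) : ℚ) := by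
        push_cast
        rw [hm, hm, hm, dc3_wq, dc3_wq, dc3_wq, hw, map_add, map_smul]
        have h4 : wt b (Sum.inr (ng P (w0 β))) = -P.root (w0 β) := by
          change P.root (P.reflectionPerm (w0 β) (w0 β)) = _
          rw [P.root_reflectionPerm, P.reflection_apply_self]
        rw [h4, map_neg]
        simp only [Finsupp.add_apply, Finsupp.smul_apply, Finsupp.neg_apply, smul_eq_mul]
        ring
      exact_mod_cast h3
    have h3 : v.valuation K (t ^ k * (n.1.1 * toA K (dvp (E b β) k) * n⁻¹.1.1) i j) ≤ WithZero.exp (-((a : ℤ) * k)) := by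
      rw [map_mul, map_pow]
      calc v.valuation K t ^ k * v.valuation K ((n.1.1 * toA K (dvp (E b β) k) * n⁻¹.1.1) i j) ≤ WithZero.exp (-(a : ℤ)) ^ k * 1 := mul_le_mul' (pow_le_pow_left' ht k) hint
        _ = WithZero.exp (-((a : ℤ) * k)) := by
          rw [mul_one, ← WithZero.exp_nsmul]
          congr 1
          simp [mul_comm]
    refine (pow_le_pow_left' h3 T).trans ?_
    rw [← WithZero.exp_nsmul]
    refine WithZero.exp_le_exp.2 ?_
    rw [hmk]
    have h4 : (a : ℤ) * (k * m (Sum.inr (ng P (w0 β)))) ≤ a * (k * T) := mul_le_mul_of_nonneg_left (mul_le_mul_of_nonneg_left (hT _) (by positivity)) (by positivity)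
    simp only [nsmul_eq_mul]
    nlinarith

/-- Ordered products. -/
theorem iw_prod {a T : ℕ} (hT0 : T ≠ 0) {l : b.support} {m : I b → ℤ} (hm : ∀ a, ((m a : ℤ) : ℚ) = wq b a l) (hT : ∀ a, m a ≤ T) {w0 : Equiv.Perm ι} {n : GK b K} (hn : IsN b K w0 n)
    (h1 : ∀ i j, v.valuation K (n.1.1 i j) ≤ 1) (h2 : ∀ i j, v.valuation K (n⁻¹.1.1 i j) ≤ 1) (L : List ι) (t : ι → K) (ht : ∀ β, v.valuation K (t β) ≤ WithZero.exp (-(a : ℤ))) :
    IwQ b v a T m (n.1.1 * PL b L t * n⁻¹.1.1) := by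
  have e1 : n⁻¹.1.1 * n.1.1 = 1 := by
    have : (n⁻¹ * n).1.1 = 1 := by
      rw [inv_mul_cancel]
      rfl
    exact this
  have e2 : n.1.1 * n⁻¹.1.1 = 1 := by
    have : (n * n⁻¹).1.1 = 1 := by
      rw [mul_inv_cancel]
      rfl
    exact this
  induction L with
  | nil =>
    have h3 : n.1.1 * PL b [] t * n⁻¹.1.1 = 1 := by
      unfold PL
      rw [List.map_nil, List.prod_nil, Matrix.mul_one, e2]
    rw [h3]
    refine IwQ.of_raise hT0 (fun i j => (IwL.one (b := b) v 0 0 (K := K) i j).1) fun i j h => ?_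
    by_cases hij : i = j
    · rw [hij]
    · exact absurd (Matrix.one_apply_ne hij) h
  | cons β L ih =>
    have h3 : n.1.1 * PL b (β :: L) t * n⁻¹.1.1 = (n.1.1 * xx b β (t β) * n⁻¹.1.1) * (n.1.1 * PL b L t * n⁻¹.1.1) := by
      have h4 : PL b (β :: L) t = xx b β (t β) * PL b L t := by
        unfold PL
        rw [List.map_cons, List.prod_cons]
      rw [h4]
      calc n.1.1 * (xx b β (t β) * PL b L t) * n⁻¹.1.1 = n.1.1 * xx b β (t β) * 1 * PL b L t * n⁻¹.1.1 := by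
            rw [Matrix.mul_one, ← Matrix.mul_assoc n.1.1]
        _ = n.1.1 * xx b β (t β) * (n⁻¹.1.1 * n.1.1) * PL b L t * n⁻¹.1.1 := by rw [e1]
        _ = _ := by simp only [Matrix.mul_assoc]
    rw [h3]
    exact (iw_gen hT0 hm hT hn h1 h2 β (t β) (ht β)).mul hT0 ih

/-- `n_0 u n_0⁻¹ - 1` lowers the height strictly. -/
theorem iw_strict {w0 : Equiv.Perm ι} (h0 : ∀ β, b.IsPos (w0 β) ↔ ¬b.IsPos β) {n : GK b K} (hn : IsN b K w0 n) {u : GK b K} (hu : u ∈ HU b K) (i j : I b) (hij : ht b j ≤ ht b i) :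
    (n.1.1 * u.1.1 * n⁻¹.1.1) i j = (1 : Matrix (I b) (I b) K) i j := by
  obtain ⟨L, hL⟩ := b2_lin hn.mem
  have e2 : n.1.1 * n⁻¹.1.1 = 1 := by
    have : (n * n⁻¹).1.1 = 1 := by
      rw [mul_inv_cancel]
      rfl
    exact this
  have hlow := dc3_low h0 hn hu
  rcases hij.lt_or_eq with hlt | heq
  · have h1 : (n.1.1 * u.1.1 * n⁻¹.1.1) i j = 0 := by
      by_contra h
      have := dc3_ht_le (hlow i j h)
      omega
    rw [h1, Matrix.one_apply_ne]
    rintro rfl
    exact lt_irrefl _ hlt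
  · by_contra hne
    have h1 : (n.1.1 * (u.1.1 - 1) * n⁻¹.1.1) i j ≠ 0 := by
      intro h
      apply hne
      rw [Matrix.mul_sub, Matrix.sub_mul, Matrix.mul_one, e2, Matrix.sub_apply, sub_eq_zero] at h
      exact h
    rw [Matrix.mul_apply] at h1
    obtain ⟨c, -, hc⟩ := Finset.exists_ne_zero_of_sum_ne_zero h1
    have h3 := left_ne_zero_of_mul hc
    have h4 := right_ne_zero_of_mul hc
    rw [Matrix.mul_apply] at h3
    obtain ⟨d, -, hd⟩ := Finset.exists_ne_zero_of_sum_ne_zero h3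
    have h5 := left_ne_zero_of_mul hd
    have h6 := right_ne_zero_of_mul hd
    have h7 : ht b c < ht b d := by
      rcases uni_HU (b := b) hu d c with h8 | h8
      · rw [Matrix.sub_apply, h8, sub_self] at h6
        exact absurd rfl h6
      · exact h8.1
    have hj : wt b j = L (wt b c) := dc3_wt_inv hn hL h4
    have hi : wt b i = L (wt b d) := dc3_wt hn hL h5
    have h8 : wt b i = wt b j := by
      by_cases h9 : (n.1.1 * u.1.1 * n⁻¹.1.1) i j = 0
      · rw [h9] at hne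
        have h10 : i = j := by
          by_contra h11
          exact hne (Matrix.one_apply_ne h11).symm
        rw [h10]
      · exact dc3_ht_eq (hlow i j h9) heq.symm
    have h9 : wt b d = wt b c := by
      apply L.injective
      rw [← hi, ← hj, h8]
    have h10 : ((ht b d : ℤ) : ℚ) = ((ht b c : ℤ) : ℚ) := by
      rw [dc3_ht, dc3_ht]
      refine Finset.sum_congr rfl fun k _ => ?_
      rw [dc3_wq, dc3_wq, h9]
    have h11 : ht b d = ht b c := by exact_mod_cast h10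
    omega

/-- The elements of `K` with valuation at most `1`. -/
def iwO (v : HeightOneSpectrum (𝓞 K)) : Subring K := (v.valuation K).integer

/-- The elements of `K` with valuation at most `exp (-a)`. -/
def iwJ (v : HeightOneSpectrum (𝓞 K)) (a : ℕ) : AddSubgroup K where
  carrier := {x | v.valuation K x ≤ WithZero.exp (-(a : ℤ))}
  zero_mem' := by
    change v.valuation K 0 ≤ _
    rw [map_zero]
    exact zero_le
  add_mem' := by
    intro x y hx hy
    change v.valuation K (x + y) ≤ _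
    exact (Valuation.map_add _ _ _).trans (max_le hx hy)
  neg_mem' := by
    intro x hx
    change v.valuation K (-x) ≤ _
    rw [Valuation.map_neg]
    exact hx

/-- The element of the Weyl group below `n_0 n` is trivial (copy of a part of the proof of `dc3_opp`). -/
theorem iw_wone {e0 : ℕ} (he : 1 ≤ e0) {g : GK b K} (hI : IwL b v 0 e0 g.1.1) (hI' : IwL b v 0 e0 g⁻¹.1.1) {w0 : Equiv.Perm ι} (h0 : ∀ β, b.IsPos (w0 β) ↔ ¬b.IsPos β) {n0 : GK b K}
    (hn0 : IsN b K w0 n0) {u1 : GK b K} (hu1 : u1 ∈ HU b K) {w : Equiv.Perm ι} {n : GK b K} (hn : IsN b K w n) {u2 : GK b K} (hu2 : u2 ∈ HU b K) (e : n0⁻¹ * g = u1 * n * u2) :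
    w0 * w = 1 := by
  have hrs : 1 ≤ 0 + e0 := by omega
  have hn' := b1_mul b K hn0 hn
  have e1 : g * u2⁻¹ = n0 * u1 * n0⁻¹ * (n0 * n) := by
    have : g = n0 * (n0⁻¹ * g) := by group
    rw [this, e]
    group
  have hlow := dc3_low h0 hn0 hu1
  have e2 : (g * u2⁻¹).1.1 = n0.1.1 * u1.1.1 * n0⁻¹.1.1 * (n0 * n).1.1 := by
    rw [e1]
    rfl
  have hu2' : u2⁻¹ ∈ HU b K := inv_mem hu2
  have hut : ∀ r c, ht b r ≤ ht b c → u2⁻¹.1.1 r c = (1 : Matrix (I b) (I b) K) r c := fun r c h => ((mem_HU b K _).1 hu2' r c h).1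
  refine b2_trans b hn'.mem fun i hi => ?_
  by_contra hneg
  set x : I b → K := fun l => u2⁻¹.1.1 l (Sum.inr i) with hx
  have hi1 : ht b (Sum.inr i) = 1 := RootPairing.Base.height_one_of_mem_support hi
  have hx0 : x = 0 := by
    refine dc1_zero hrs hI (fun i j => (hI' i j).1) ?_ 1 x ?_ ?_
    · have : (g⁻¹ * g).1.1 = 1 := by
        rw [inv_mul_cancel]
        rfl
      exact this
    · intro l hl
      rw [hx]
      simp only
      rw [hut l _ (by omega), Matrix.one_apply_ne]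
      rintro rfl
      omega
    · intro l hl
      have e4 : (g.1.1 *ᵥ x) l = (g * u2⁻¹).1.1 l (Sum.inr i) := by
        have : (g * u2⁻¹).1.1 = g.1.1 * u2⁻¹.1.1 := rfl
        rw [this, Matrix.mul_apply, Matrix.mulVec, dotProduct]
      rw [e4, e2, Matrix.mul_apply]
      refine Finset.sum_eq_zero fun a _ => ?_
      by_contra hne
      have h1 := left_ne_zero_of_mul hne
      have h2 := right_ne_zero_of_mul hne
      have h3 := hn'.vr a i h2
      have h4 := dc3_ht_le (hlow l a h1)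
      rw [h3] at h4
      have h5 : ht b (Sum.inr ((w0 * w) i)) = b.height ((w0 * w) i) := rfl
      have h6 : ¬0 < b.height ((w0 * w) i) := hneg
      omega
  have h1 := congrFun hx0 (Sum.inr i)
  rw [hx] at h1
  simp only at h1
  rw [hut _ _ le_rfl, Matrix.one_apply_eq] at h1
  exact one_ne_zero h1

/-- Lower unipotent times height preserving: the diagonal blocks. -/
theorem iw_blk {X Z : Matrix (I b) (I b) K} (hX : ∀ i j, ht b j ≤ ht b i → X i j = (1 : Matrix (I b) (I b) K) i j) (hZ : ∀ i j, Z i j ≠ 0 → ht b i = ht b j) (i j : I b) (hij : ht b i = ht b j) :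
    (X * Z) i j = Z i j ∧ (Z * X) i j = Z i j := by
  constructor
  · rw [Matrix.mul_apply, Finset.sum_eq_single i]
    · rw [hX i i le_rfl, Matrix.one_apply_eq, one_mul]
    · intro k _ hk
      by_cases h : Z k j = 0
      · rw [h, mul_zero]
      · rw [hX i k (by rw [hZ k j h, hij]), Matrix.one_apply_ne hk.symm, zero_mul]
    · intro h
      exact absurd (Finset.mem_univ i) h
  · rw [Matrix.mul_apply, Finset.sum_eq_single j]
    · rw [hX j j le_rfl, Matrix.one_apply_eq, mul_one]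
    · intro k _ hk
      by_cases h : Z i k = 0
      · rw [h, zero_mul]
      · rw [hX k j (by rw [← hZ i k h, hij]), Matrix.one_apply_ne hk, mul_zero]
    · intro h
      exact absurd (Finset.mem_univ j) h

/-- **The estimate for the entries**, local form. -/
theorem iw_loc {s : ℕ} (hs : 1 ≤ s) {g : GK b K} (hI : IwL b v 0 s g.1.1) (hI' : IwL b v 0 s g⁻¹.1.1) (l : b.support) (m : I b → ℤ) (hm : ∀ a, ((m a : ℤ) : ℚ) = wq b a l) (T : ℕ)
    (hT : ∀ a, m a ≤ T) (i j : I b) : v.valuation K (g.1.1 i j) ^ T ≤ WithZero.exp (-((s : ℤ) * (m j - m i))) := by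
  have hrs : 1 ≤ 0 + s := by omega
  have hT0 : T ≠ 0 := by
    rintro rfl
    have h1 : m (Sum.inr l) = 1 := by
      have h2 : ((m (Sum.inr l) : ℤ) : ℚ) = 1 := by
        rw [hm, dc3_wq]
        change b.toWeightBasis.repr (P.root l) l = 1
        have h3 : P.root l = b.toWeightBasis l := by simp
        rw [h3, Module.Basis.repr_self, Finsupp.single_eq_same]
      exact_mod_cast h2
    have h2 := hT (Sum.inr l)
    rw [h1] at h2
    simp at h2
  obtain ⟨w0, hw0, h0⟩ := exists_w0 b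
  obtain ⟨n0, hn0, hn1, hn2⟩ := iw_isN (K := K) b v hw0
  obtain ⟨u1, hu1, w, n, hn, u2, hu2, e⟩ := bruhat b K (n0⁻¹ * g)
  have hn' := b1_mul b K hn0 hn
  have hu2' : u2⁻¹ ∈ HU b K := inv_mem hu2
  set t0 : GK b K := n0 * n with ht0
  set y : GK b K := n0 * u1 * n0⁻¹ with hy
  have e1 : g * u2⁻¹ = y * t0 := by
    have : g = n0 * (n0⁻¹ * g) := by group
    rw [this, e, hy, ht0]
    group
  have hw' : w0 * w = 1 := iw_wone hs hI hI' h0 hn0 hu1 hn hu2 e
  rw [hw'] at hn'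
  -- `y` is lower unipotent, `t0` preserves the weights
  have hy1 : ∀ i j, ht b j ≤ ht b i → y.1.1 i j = (1 : Matrix (I b) (I b) K) i j := fun i j h => iw_strict h0 hn0 hu1 i j h
  have hy2 : ∀ i j, ht b j ≤ ht b i → y⁻¹.1.1 i j = (1 : Matrix (I b) (I b) K) i j := by
    intro i j h
    have e2 : y⁻¹ = n0 * u1⁻¹ * n0⁻¹ := by
      rw [hy]
      group
    rw [e2]
    exact iw_strict h0 hn0 (inv_mem hu1) i j h
  have hL1 : ∀ β, (LinearEquiv.refl ℚ M) (P.root β) = P.root ((1 : Equiv.Perm ι) β) := fun β => rfl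
  have ht1 : ∀ i j, t0.1.1 i j ≠ 0 → wt b i = wt b j := fun i j h => dc3_wt hn' hL1 h
  have ht2 : ∀ i j, t0⁻¹.1.1 i j ≠ 0 → wt b i = wt b j := fun i j h => (dc3_wt_inv hn' hL1 h).symm
  have hht : ∀ {i j : I b}, wt b i = wt b j → ht b i = ht b j := by
    intro i j h
    have h1 : ((ht b i : ℤ) : ℚ) = ((ht b j : ℤ) : ℚ) := by
      rw [dc3_ht, dc3_ht]
      refine Finset.sum_congr rfl fun k _ => ?_
      rw [dc3_wq, dc3_wq, h]
    exact_mod_cast h1
  have htz : ∀ i j, t0.1.1 i j ≠ 0 → ht b i = ht b j := fun i j h => hht (ht1 i j h)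
  have htz' : ∀ i j, t0⁻¹.1.1 i j ≠ 0 → ht b i = ht b j := fun i j h => hht (ht2 i j h)
  -- integrality
  have hut : ∀ r c, ht b r ≤ ht b c → u2⁻¹.1.1 r c = (1 : Matrix (I b) (I b) K) r c := fun r c h => ((mem_HU b K _).1 hu2' r c h).1
  have eL : g.1.1 * u2⁻¹.1.1 = y.1.1 * t0.1.1 := by
    have : (g * u2⁻¹).1.1 = (y * t0).1.1 := by rw [e1]
    exact this
  have eL' : u2.1.1 * g⁻¹.1.1 = t0⁻¹.1.1 * y⁻¹.1.1 := by
    have : (u2 * g⁻¹).1.1 = (t0⁻¹ * y⁻¹).1.1 := by
      have h1 : u2 * g⁻¹ = (g * u2⁻¹)⁻¹ := by group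
      rw [h1, e1, _root_.mul_inv_rev]
    exact this
  have one : ∀ x : GK b K, x.1.1 * x⁻¹.1.1 = 1 := by
    intro x
    have : (x * x⁻¹).1.1 = 1 := by
      rw [mul_inv_cancel]
      rfl
    exact this
  have one' : ∀ x : GK b K, x⁻¹.1.1 * x.1.1 = 1 := by
    intro x
    have : (x⁻¹ * x).1.1 = 1 := by
      rw [inv_mul_cancel]
      rfl
    exact this
  have hu_int : ∀ i j, v.valuation K (u2⁻¹.1.1 i j) ≤ 1 := by
    refine dc1_int hrs hI (fun i j => (hI' i j).1) (one' g) hut fun i j hij => ?_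
    rw [eL, Matrix.mul_apply]
    refine Finset.sum_eq_zero fun k _ => ?_
    by_cases h : t0.1.1 k j = 0
    · rw [h, mul_zero]
    · have h1 := htz k j h
      rw [hy1 i k (by omega), Matrix.one_apply_ne, zero_mul]
      rintro rfl
      omega
  have hu2_int : ∀ i j, v.valuation K (u2.1.1 i j) ≤ 1 := iw_unip (one' u2) hut hu_int
  have hL_int : ∀ i j, v.valuation K ((y.1.1 * t0.1.1) i j) ≤ 1 := by
    rw [← eL]
    exact iw_int_mul (fun i j => (hI i j).1) hu_int
  have hL_int' : ∀ i j, v.valuation K ((t0⁻¹.1.1 * y⁻¹.1.1) i j) ≤ 1 := by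
    rw [← eL']
    exact iw_int_mul hu2_int fun i j => (hI' i j).1
  have hL_low : ∀ i j, ht b i < ht b j → v.valuation K ((y.1.1 * t0.1.1) i j) ≤ WithZero.exp (-(s : ℤ)) := by
    intro i j hij
    rw [← eL, Matrix.mul_apply]
    refine Valuation.map_sum_le _ fun k _ => ?_
    rw [map_mul]
    by_cases h : ht b i < ht b k
    · have h1 := (hI i k).2.1 h
      calc v.valuation K (g.1.1 i k) * v.valuation K (u2⁻¹.1.1 k j) ≤ WithZero.exp (-(((0 : ℕ) : ℤ) + s)) * 1 := mul_le_mul' h1 (hu_int k j)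
        _ = _ := by
          rw [mul_one, Nat.cast_zero, zero_add]
    · have h1 : u2⁻¹.1.1 k j = 0 := by
        rw [hut k j (by omega), Matrix.one_apply_ne]
        rintro rfl
        omega
      rw [h1, map_zero, mul_zero]
      exact zero_le
  have ht0_int : ∀ i j, v.valuation K (t0.1.1 i j) ≤ 1 := by
    intro i j
    by_cases h : t0.1.1 i j = 0
    · rw [h, map_zero]
      exact zero_le_one
    · rw [← (iw_blk hy1 htz i j (htz i j h)).1]
      exact hL_int i j
  have ht0_int' : ∀ i j, v.valuation K (t0⁻¹.1.1 i j) ≤ 1 := by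
    intro i j
    by_cases h : t0⁻¹.1.1 i j = 0
    · rw [h, map_zero]
      exact zero_le_one
    · rw [← (iw_blk hy2 htz' i j (htz' i j h)).2]
      exact hL_int' i j
  have ey : y.1.1 = (y.1.1 * t0.1.1) * t0⁻¹.1.1 := by rw [Matrix.mul_assoc, one t0, Matrix.mul_one]
  have hyJ : ∀ i j, v.valuation K ((y.1.1 - 1) i j) ≤ WithZero.exp (-(s : ℤ)) := by
    intro i j
    by_cases h : ht b i < ht b j
    · have hne : i ≠ j := by
        rintro rfl
        exact lt_irrefl _ h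
      rw [Matrix.sub_apply, Matrix.one_apply_ne hne, sub_zero, ey, Matrix.mul_apply]
      refine Valuation.map_sum_le _ fun k _ => ?_
      rw [map_mul]
      by_cases h1 : t0⁻¹.1.1 k j = 0
      · rw [h1, map_zero, mul_zero]
        exact zero_le
      · have h2 := htz' k j h1
        calc v.valuation K ((y.1.1 * t0.1.1) i k) * v.valuation K (t0⁻¹.1.1 k j) ≤ WithZero.exp (-(s : ℤ)) * 1 :=
              mul_le_mul' (hL_low i k (by omega)) (ht0_int' k j)
          _ = _ := mul_one _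
    · rw [Matrix.sub_apply, hy1 i j (by omega), sub_self, map_zero]
      exact zero_le
  have hu1J : ∀ i j, (u1.1.1 - 1) i j ∈ iwJ v s := by
    intro i j
    change v.valuation K _ ≤ _
    have e3 : u1.1.1 - 1 = n0⁻¹.1.1 * (y.1.1 - 1) * n0.1.1 := by
      have e4 : y.1.1 = n0.1.1 * u1.1.1 * n0⁻¹.1.1 := rfl
      rw [e4, Matrix.mul_sub, Matrix.sub_mul, Matrix.mul_one, one' n0]
      congr 1
      calc u1.1.1 = 1 * u1.1.1 * 1 := by rw [Matrix.one_mul, Matrix.mul_one]
        _ = (n0⁻¹.1.1 * n0.1.1) * u1.1.1 * (n0⁻¹.1.1 * n0.1.1) := by rw [one' n0]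
        _ = _ := by simp only [Matrix.mul_assoc]
    rw [e3, Matrix.mul_apply]
    refine Valuation.map_sum_le _ fun k _ => ?_
    rw [map_mul]
    have h1 : v.valuation K ((n0⁻¹.1.1 * (y.1.1 - 1)) i k) ≤ WithZero.exp (-(s : ℤ)) := by
      rw [Matrix.mul_apply]
      refine Valuation.map_sum_le _ fun k' _ => ?_
      rw [map_mul]
      calc v.valuation K (n0⁻¹.1.1 i k') * v.valuation K ((y.1.1 - 1) k' k) ≤ 1 * WithZero.exp (-(s : ℤ)) := mul_le_mul' (hn2 i k') (hyJ k' k)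
        _ = _ := one_mul _
    calc v.valuation K ((n0⁻¹.1.1 * (y.1.1 - 1)) i k) * v.valuation K (n0.1.1 k j) ≤ WithZero.exp (-(s : ℤ)) * 1 := mul_le_mul' h1 (hn1 k j)
      _ = _ := mul_one _
  obtain ⟨t, ht, hPL⟩ := prod_K b (iwO v) (iwJ v s) (fun x hx => (le_trans hx (dc0_le_one v s) : v.valuation K x ≤ 1)) (fun x hx z hz => by
    change v.valuation K (x * z) ≤ _
    rw [map_mul]
    calc v.valuation K x * v.valuation K z ≤ 1 * WithZero.exp (-(s : ℤ)) := mul_le_mul' hx hz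
      _ = _ := one_mul _) hu1 hu1J
  have q1 : IwQ b v s T m y.1.1 := by
    have e4 : y.1.1 = n0.1.1 * u1.1.1 * n0⁻¹.1.1 := rfl
    rw [e4, hPL]
    exact iw_prod hT0 hm hT hn0 hn1 hn2 _ t ht
  have q2 : IwQ b v s T m t0.1.1 := IwQ.of_raise hT0 ht0_int fun i j h => (iw_wt hm (ht1 i j h)).ge
  have q3 : IwQ b v s T m u2.1.1 := by
    refine IwQ.of_raise hT0 hu2_int fun i j h => ?_
    rcases uni_HU (b := b) hu2 i j with h1 | h1
    · rw [h1] at h
      have h2 : i = j := by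
        by_contra h3
        exact h (Matrix.one_apply_ne h3)
      rw [h2]
    · have h2 : ((m j : ℤ) : ℚ) ≤ ((m i : ℤ) : ℚ) := by
        rw [hm, hm]
        exact h1.2 l
      exact_mod_cast h2
  have eg : g.1.1 = y.1.1 * t0.1.1 * u2.1.1 := by
    rw [← eL, Matrix.mul_assoc, one' u2, Matrix.mul_one]
  have q := (q1.mul hT0 q2).mul hT0 q3 i j
  rw [← eg] at q
  exact q

/-- Local form, any exponent `e ≥ 0`. -/
theorem iw_loc' {e : ℕ} {g : GK b K} (h : ∀ i j, v.valuation K (g.1.1 i j) ≤ 1 ∧ (ht b i < ht b j → v.valuation K (g.1.1 i j) ≤ WithZero.exp (-(e : ℤ))))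
    (h' : ∀ i j, v.valuation K (g⁻¹.1.1 i j) ≤ 1 ∧ (ht b i < ht b j → v.valuation K (g⁻¹.1.1 i j) ≤ WithZero.exp (-(e : ℤ)))) (l : b.support) (m : I b → ℤ)
    (hm : ∀ a, ((m a : ℤ) : ℚ) = wq b a l) (T : ℕ) (hT : ∀ a, m a ≤ T) (i j : I b) : v.valuation K (g.1.1 i j) ^ T ≤ WithZero.exp (-((e : ℤ) * (m j - m i))) := by
  have key : ∀ X : Matrix (I b) (I b) K, (∀ i j, v.valuation K (X i j) ≤ 1 ∧ (ht b i < ht b j → v.valuation K (X i j) ≤ WithZero.exp (-(e : ℤ)))) → IwL b v 0 e X := by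
    intro X hX i j
    refine ⟨(hX i j).1, fun hij => ?_, fun _ => ?_⟩
    · rw [Nat.cast_zero, zero_add]
      exact (hX i j).2 hij
    · rw [Nat.cast_zero, neg_zero, WithZero.exp_zero, Matrix.sub_apply]
      exact (Valuation.map_sub _ _ _).trans (max_le (hX i j).1 (IwL.one (b := b) v 0 0 i j).1)
  rcases Nat.eq_zero_or_pos e with he | he
  · subst he
    rw [Nat.cast_zero, zero_mul, neg_zero, WithZero.exp_zero]
    exact pow_le_one' (h i j).1 T
  · exact iw_loc he (key _ h) (key _ h') l m hm T hT i j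

/-- Local form, level `r, s` (the hypothesis `1 ≤ r + s` is not needed). -/
theorem iw_QL {r s : ℕ} (_hrs : 1 ≤ r + s) {g : GK b K} (hI : IwL b v r s g.1.1) (hI' : IwL b v r s g⁻¹.1.1) (l : b.support) (m : I b → ℤ) (hm : ∀ a, ((m a : ℤ) : ℚ) = wq b a l) (T : ℕ)
    (hT : ∀ a, m a ≤ T) (i j : I b) : v.valuation K (g.1.1 i j) ^ T ≤ WithZero.exp (-(((r : ℤ) + s) * (m j - m i))) := by
  have h := iw_loc' (e := r + s) (fun i j => ⟨(hI i j).1, fun hij => by rw [Nat.cast_add]; exact (hI i j).2.1 hij⟩) (fun i j => ⟨(hI' i j).1, fun hij => by rw [Nat.cast_add]; exact (hI' i j).2.1 hij⟩) l m hm T hT i j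
  push_cast at h
  exact h

/-- **The estimate for the entries of the elements of `Γ`.** -/
theorem iw_Q {𝔫 : Ideal (𝓞 K)} {r s : ℕ} (hrs : 1 ≤ r + s) {g : GK b K} (hg : g ∈ GamK b 𝔫 v r s) (l : b.support) (m : I b → ℤ) (hm : ∀ a, ((m a : ℤ) : ℚ) = wq b a l) (T : ℕ)
    (hT : ∀ a, m a ≤ T) (i j : I b) : v.valuation K (g.1.1 i j) ^ T ≤ WithZero.exp (-(((r : ℤ) + s) * (m j - m i))) :=
  iw_QL hrs (dc0_iw hg) (dc0_iw (inv_mem hg)) l m hm T hT i j

/-- The same at a prime `p` with `𝔫 ⊆ p ^ a`, `a ≥ 1`. -/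
theorem iw_Q_lvl {𝔫 : Ideal (𝓞 K)} {r s : ℕ} {g : GK b K} (hg : g ∈ GamK b 𝔫 v r s) (p : HeightOneSpectrum (𝓞 K)) {a : ℕ} (ha : 1 ≤ a) (hp : 𝔫 ≤ p.asIdeal ^ a) (l : b.support) (m : I b → ℤ)
    (hm : ∀ a, ((m a : ℤ) : ℚ) = wq b a l) (T : ℕ) (hT : ∀ a, m a ≤ T) (i j : I b) : p.valuation K (g.1.1 i j) ^ T ≤ WithZero.exp (-((a : ℤ) * (m j - m i))) := by
  have hmono : ∀ x : K, InI 𝔫 x → InI (p.asIdeal ^ a) x := fun x ⟨y, hy, e⟩ => ⟨y, hp hy, e⟩
  have key : ∀ X : Matrix (I b) (I b) K, (∀ i j, InI 𝔫 ((X - 1) i j)) → ∀ i j, InI ⊤ ((X - 1) i j) ∧ (ht b i < ht b j → InI (p.asIdeal ^ (a + 0)) (X i j)) ∧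
      (ht b i = ht b j → InI (p.asIdeal ^ a) ((X - 1) i j)) := by
    intro X hX i j
    refine ⟨(hX i j).top, fun hij => ?_, fun _ => hmono _ (hX i j)⟩
    have hne : i ≠ j := by
      rintro rfl
      exact lt_irrefl _ hij
    have h1 : X i j = (X - 1) i j := by rw [Matrix.sub_apply, Matrix.one_apply_ne hne, sub_zero]
    rw [h1, Nat.add_zero]
    exact hmono _ (hX i j)
  have hg2 : g ∈ GamK b ⊤ p a 0 := fun i j => ⟨key _ (fun i j => (hg i j).1.1) i j, key _ (fun i j => (hg i j).2.1) i j⟩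
  have h := iw_Q (by omega) hg2 l m hm T hT i j
  rw [Nat.cast_zero, add_zero] at h
  exact h

end

end Pool.Agent.Lib.L1S
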