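import Pool.Agent.Lib.L1S.D5
import Pool.Agent.Lib.L1S.DE2
import Pool.Agent.Lib.L1S.IW

/-!
# L1S, D6: the arithmetic estimates of the minors for two coweights (version 2 of the size condition)

`γ = h'⁻¹ γ_0 h`, `h, h' ∈ HG 𝔞`, `γ_0 ∈ Γ(𝔞)`; `h'` has the type `c'` (rows), `h` the type `c` (columns).
-/

namespace Pool.Agent.Lib.L1S

open MeasureTheory Matrix NumberField IsDedekindDomain Pool.Agent.Lib.H89N Pool.Agent.Lib.H33W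

noncomputable section

set_option linter.unusedSectionVars false

variable {ι M N : Type} [Fintype ι] [DecidableEq ι] [AddCommGroup M] [Module ℚ M] [AddCommGroup N] [Module ℚ N]
  {P : RootPairing ι ℚ M N} [P.IsCrystallographic] [P.IsReduced] [P.IsIrreducible] [P.IsRootSystem]

variable {b : P.Base} {K : Type} [Field K] [NumberField K] {v : HeightOneSpectrum (𝓞 K)}

/-- The product formula with powers. -/
theorem d6_norm {𝔞 : Ideal (𝓞 K)} (h0 : 𝔞 ≠ ⊥) (hv : ¬𝔞 ≤ v.asIdeal) (T k : ℕ) (s : ℤ) {D : K} (hD : D ≠ 0)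
    (h1 : ∀ w, w ≠ v → aw w D ^ T ≤ nw w 𝔞 ^ k) (h2 : aw v D ^ T ≤ (Ideal.absNorm v.asIdeal : ℝ) ^ s) :
    (Ideal.absNorm 𝔞 : ℝ) ^ k ≤ mixedEmbedding.norm (mixedEmbedding K D) ^ T * (Ideal.absNorm v.asIdeal : ℝ) ^ s := by
  have h3 := d3_norm h0 hv k s (pow_ne_zero T hD) (fun w hw => by
    rw [map_pow]
    exact h1 w hw) (by
    rw [map_pow]
    exact h2)
  rwa [map_pow, map_pow] at h3

theorem d6_exp_le {w : HeightOneSpectrum (𝓞 K)} {x : K} {m : ℤ} (h : aw w x ≤ (Ideal.absNorm w.asIdeal : ℝ) ^ m) : w.valuation K x ≤ WithZero.exp m := by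
  rw [d3_aw, ← d3_exp, NNReal.coe_le_coe] at h
  exact (WithZeroMulInt.toNNReal_strictMono (NumberField.HeightOneSpectrum.one_lt_absNorm_nnreal w)).le_iff_le.1 h

theorem d6_pow_le {w : HeightOneSpectrum (𝓞 K)} {x : K} {m : ℤ} {T : ℕ} (h : w.valuation K x ^ T ≤ WithZero.exp m) : aw w x ^ T ≤ (Ideal.absNorm w.asIdeal : ℝ) ^ m := by
  rw [← map_pow] at h
  have h1 := d3_aw_le h
  rwa [map_pow] at h1

/-- The element `γ` away from `v`. -/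
theorem d6_away {𝔞 : Ideal (𝓞 K)} (h0 : 𝔞 ≠ ⊥) (hv : ¬𝔞 ≤ v.asIdeal) {g : GK b K} (hg : g ∈ HG b 𝔞 v) {w : HeightOneSpectrum (𝓞 K)} (hw : w ≠ v) (i j : I b) :
    aw w ((g.1.1 - 1) i j) ≤ nw w 𝔞 := by
  obtain ⟨l, hl⟩ := hg
  have h1 := (hl i j).1
  rw [← pow_one 𝔞] at h1
  have h2 := ((den_iff h0 hv l 1 _).1 h1).1 w hw
  rwa [pow_one] at h2

/-- `γ` at `w ≠ v` is of level `(0, a)`, `w ^ a ∥ 𝔞`. -/
theorem d6_iw {𝔞 : Ideal (𝓞 K)} (h0 : 𝔞 ≠ ⊥) (hv : ¬𝔞 ≤ v.asIdeal) {g : GK b K} (hg : g ∈ HG b 𝔞 v) {w : HeightOneSpectrum (𝓞 K)} (hw : w ≠ v) :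
    IwL b w 0 ((Associates.mk w.asIdeal).count (Associates.mk 𝔞).factors) g.1.1 := by
  set a := (Associates.mk w.asIdeal).count (Associates.mk 𝔞).factors with ha
  refine IwL.of_cong fun i j => ?_
  have h1 := d6_exp_le (d6_away h0 hv hg hw i j)
  simpa using h1

/-- The minor, general form: at `w ≠ v` the `T`-th powers of the entries are bounded by `nw w 𝔞 ^ (μ c - μ' r)`, at `v` by `q ^ (κ c - κ' r)`. -/
theorem d6_minor {𝔞 : Ideal (𝓞 K)} (h0 : 𝔞 ≠ ⊥) (hv : ¬𝔞 ≤ v.asIdeal) (T : ℕ) {γ : Matrix (I b) (I b) K} {i j : b.support} {w : Equiv.Perm ι} (hO : OppW b i j w) (hD : Dm b i w γ ≠ 0)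
    (μ μ' κ κ' : I b → ℤ) (k : ℕ) (s : ℤ) (hk : ∑ β ∈ Phi b i, μ (Sum.inr β) - ∑ β ∈ Phi b i, μ' (Sum.inr (w β)) = k)
    (hs : ∑ β ∈ Phi b i, κ (Sum.inr β) - ∑ β ∈ Phi b i, κ' (Sum.inr (w β)) = s)
    (h1 : ∀ w', w' ≠ v → ∀ r c : I b, ht b r < ht b c → aw w' (γ r c) ^ T ≤ nw w' 𝔞 ^ (μ c - μ' r))
    (h2 : ∀ r c : I b, ht b r < ht b c → aw v (γ r c) ^ T ≤ (Ideal.absNorm v.asIdeal : ℝ) ^ (κ c - κ' r)) :
    (Ideal.absNorm 𝔞 : ℝ) ^ k ≤ mixedEmbedding.norm (mixedEmbedding K (Dm b i w γ)) ^ T * (Ideal.absNorm v.asIdeal : ℝ) ^ s := by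
  have hlow : ∀ β β' : Phi b i, ht b (Sum.inr (w β.1)) < ht b (Sum.inr β'.1) := by
    intro β β'
    have h3 := d3_neg ((hO β.1).1 β.2)
    have h4 := d3_pos β'.2
    exact h3.trans h4
  have key : ∀ (f : AbsoluteValue K ℝ) (_ : IsNonarchimedean (f : K → ℝ)) (q : ℝ) (_ : 0 < q) (ρ ρ' : I b → ℤ) (_ : ∀ r c : I b, ht b r < ht b c → f (γ r c) ^ T ≤ q ^ (ρ c - ρ' r)),
      f (Dm b i w γ) ^ T ≤ q ^ (∑ β ∈ Phi b i, ρ (Sum.inr β) - ∑ β ∈ Phi b i, ρ' (Sum.inr (w β))) := by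
    intro f hf q hq ρ ρ' h
    have h6 := d5_det f hf T (Matrix.of fun β β' : Phi b i => γ (Sum.inr (w β.1)) (Sum.inr β'.1)) (fun β => q ^ (-ρ' (Sum.inr (w β.1)))) (fun β' => q ^ (ρ (Sum.inr β'.1)))
      (fun β β' => by
        refine (h _ _ (hlow β β')).trans (le_of_eq ?_)
        rw [← zpow_add₀ hq.ne']
        congr 1
        ring)
    rw [d3_prod_zpow _ _ hq.ne', d3_prod_zpow _ _ hq.ne', ← zpow_add₀ hq.ne'] at h6
    refine h6.trans (le_of_eq ?_)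
    congr 1
    rw [Finset.sum_neg_distrib, Finset.sum_coe_sort (Phi b i) fun β => ρ' (Sum.inr (w β)), Finset.sum_coe_sort (Phi b i) fun β => ρ (Sum.inr β)]
    ring
  refine d6_norm h0 hv T k s hD (fun w' hw' => ?_) ?_
  · have h3 := key (aw w') (aw_nonarch w') (nw w' 𝔞) (nw_pos w' 𝔞) μ μ' (h1 w' hw')
    rw [hk, zpow_natCast] at h3
    exact h3
  · have h3 := key (aw v) (aw_nonarch v) _ (nu2_pos v) κ κ' h2
    rw [hs] at h3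
    exact h3

/-- The local factor at `v`: `γ = λ'(π) g λ(π)⁻¹` with `g` of level `r, s` together with its inverse. -/
theorem d6_v {𝔞 : Ideal (𝓞 K)} {r s : ℕ} {c c' : b.support → ℤ} {π : K} (hπ : v.valuation K π = WithZero.exp (-1 : ℤ)) {h h' γ : GK b K} (ha : AtV b v r s π c h) (ha' : AtV b v r s π c' h')
    (hγ : h' * γ * h⁻¹ ∈ GamK b 𝔞 v r s) : ∃ g : GK b K, IwL b v r s g.1.1 ∧ IwL b v r s g⁻¹.1.1 ∧ ∀ i j, γ.1.1 i j = π ^ pr b c' i * g.1.1 i j * π ^ (-pr b c j) := by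
  have hπ0 : π ≠ 0 := by
    rintro rfl
    rw [map_zero] at hπ
    exact WithZero.exp_ne_zero hπ.symm
  obtain ⟨d, hd⟩ := de_lam (b := b) c (Units.mk0 π hπ0)
  obtain ⟨d', hd'⟩ := de_lam (b := b) c' (Units.mk0 π hπ0)
  rw [Units.val_mk0] at hd hd'
  have hinv : ∀ (c : b.support → ℤ) (d : GK b K), d.1.1 = (Matrix.diagonal fun r => π ^ (-pr b c r)) → d⁻¹.1.1 = Matrix.diagonal fun i => π ^ pr b c i := by
    intro c d hd
    have e1 : d.1.1 * (Matrix.diagonal fun i => π ^ pr b c i) = 1 := by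
      rw [hd, Matrix.diagonal_mul_diagonal, ← Matrix.diagonal_one]
      congr 1
      funext i
      rw [_root_.zpow_neg, inv_mul_cancel₀ (zpow_ne_zero _ hπ0)]
    have e2 : d⁻¹.1.1 * d.1.1 = 1 := by
      have : (d⁻¹ * d).1.1 = 1 := by
        rw [inv_mul_cancel]
        rfl
      exact this
    calc d⁻¹.1.1 = d⁻¹.1.1 * (d.1.1 * Matrix.diagonal fun i => π ^ pr b c i) := by rw [e1, Matrix.mul_one]
      _ = _ := by rw [← Matrix.mul_assoc, e2, Matrix.one_mul]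
  have hi := hinv c d hd
  have hi' := hinv c' d' hd'
  -- `X = h d⁻¹`, `X' = h' d'⁻¹`, `g = X'⁻¹ γ_0 X = d' γ d⁻¹`
  have hX : IwL b v r s (h * d⁻¹).1.1 ∧ IwL b v r s (h * d⁻¹)⁻¹.1.1 := by
    have e1 : (h * d⁻¹).1.1 = h.1.1 * Matrix.diagonal fun i => π ^ pr b c i := by
      rw [← hi]
      rfl
    have e2 : (h * d⁻¹)⁻¹.1.1 = (Matrix.diagonal fun i => π ^ (-pr b c i)) * h⁻¹.1.1 := by
      have e3 : (h * d⁻¹)⁻¹ = d * h⁻¹ := by group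
      rw [e3, ← hd]
      rfl
    rw [e1, e2]
    exact ha
  have hX' : IwL b v r s (h' * d'⁻¹).1.1 ∧ IwL b v r s (h' * d'⁻¹)⁻¹.1.1 := by
    have e1 : (h' * d'⁻¹).1.1 = h'.1.1 * Matrix.diagonal fun i => π ^ pr b c' i := by
      rw [← hi']
      rfl
    have e2 : (h' * d'⁻¹)⁻¹.1.1 = (Matrix.diagonal fun i => π ^ (-pr b c' i)) * h'⁻¹.1.1 := by
      have e3 : (h' * d'⁻¹)⁻¹ = d' * h'⁻¹ := by group
      rw [e3, ← hd']
      rfl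
    rw [e1, e2]
    exact ha'
  refine ⟨(h' * d'⁻¹)⁻¹ * (h' * γ * h⁻¹) * (h * d⁻¹), ?_, ?_, ?_⟩
  · exact (hX'.2.mul (dc0_iw hγ)).mul hX.1
  · have e : ((h' * d'⁻¹)⁻¹ * (h' * γ * h⁻¹) * (h * d⁻¹))⁻¹ = (h * d⁻¹)⁻¹ * (h' * γ * h⁻¹)⁻¹ * (h' * d'⁻¹) := by group
    rw [e]
    exact (hX.2.mul (dc0_iw (inv_mem hγ))).mul hX'.1
  · intro i j
    have e : γ = d'⁻¹ * ((h' * d'⁻¹)⁻¹ * (h' * γ * h⁻¹) * (h * d⁻¹)) * d := by group
    have e1 : γ.1.1 = d'⁻¹.1.1 * ((h' * d'⁻¹)⁻¹ * (h' * γ * h⁻¹) * (h * d⁻¹)).1.1 * d.1.1 := by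
      conv_lhs => rw [e]
      rfl
    rw [e1, hi', hd, Matrix.mul_diagonal, Matrix.diagonal_mul]

end

end Pool.Agent.Lib.L1S
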