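import Pool.Agent.Lib.L1S.D6

/-!
# L1S, D7: the minors are zero (version 2)
-/

namespace Pool.Agent.Lib.L1S

open MeasureTheory Matrix NumberField IsDedekindDomain Pool.Agent.Lib.H89N Pool.Agent.Lib.H33W

noncomputable section

set_option linter.unusedSectionVars false

variable {ι M N : Type} [Fintype ι] [DecidableEq ι] [AddCommGroup M] [Module ℚ M] [AddCommGroup N] [Module ℚ N]
  {P : RootPairing ι ℚ M N} [P.IsCrystallographic] [P.IsReduced] [P.IsIrreducible] [P.IsRootSystem]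

theorem d7_mc_neg (b : P.Base) (l : b.support) (γ : ι) : mc b l (Sum.inr (P.reflectionPerm γ γ)) = -mc b l (Sum.inr γ) := by
  have h : ((mc b l (Sum.inr (P.reflectionPerm γ γ)) : ℤ) : ℚ) = ((-mc b l (Sum.inr γ) : ℤ) : ℚ) := by
    rw [d5_mc]
    push_cast
    rw [d5_mc]
    unfold wq
    simp only [Sum.elim_inr]
    rw [d2_neg_root, map_neg, Finsupp.neg_apply]
  exact_mod_cast h

/-- `∑_{β ∈ Φ_i} m_l(w β) = - ∑_{Φ_j} m_l`. -/
theorem d7_sum_mc {b : P.Base} {i j : b.support} {w : Equiv.Perm ι} (hw : OppW b i j w) (l : b.support) :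
    ∑ β ∈ Phi b i, mc b l (Sum.inr (w β)) = -SM b j l := by
  unfold SM
  rw [← d2_bij hw (fun γ => mc b l (Sum.inr γ)), ← Finset.sum_neg_distrib]
  refine Finset.sum_congr rfl fun β _ => ?_
  rw [d7_mc_neg, neg_neg]

theorem d7_SM_nonneg {b : P.Base} (i l : b.support) : 0 ≤ SM b i l :=
  Finset.sum_nonneg fun _ hβ => d5_mc_nonneg l (d3_pos hβ)

theorem d7_SM_pos {b : P.Base} (i l : b.support) : 1 ≤ SM b i l := by
  obtain ⟨θ, hθ⟩ := d5_theta b i
  have h1 : θ ∈ Phi b i := d5_phi.2 (hθ i)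
  have h2 : mc b l (Sum.inr θ) ≤ SM b i l := Finset.single_le_sum (f := fun β => mc b l (Sum.inr β)) (fun β hβ => d5_mc_nonneg l (d3_pos hβ)) h1
  have h3 := hθ l
  omega

variable {b : P.Base} {K : Type} [Field K] [NumberField K] {v : HeightOneSpectrum (𝓞 K)}

/-- The two estimates of the minors. -/
theorem d7_ab {𝔞 : Ideal (𝓞 K)} (h0 : 𝔞 ≠ ⊥) (hv : ¬𝔞 ≤ v.asIdeal) {r s : ℕ} {c c' : b.support → ℤ} {π : K} (hπ : v.valuation K π = WithZero.exp (-1 : ℤ)) {h h' γ : GK b K}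
    (hh : h ∈ HG b 𝔞 v) (ha : AtV b v r s π c h) (hh' : h' ∈ HG b 𝔞 v) (ha' : AtV b v r s π c' h') (hγ : h' * γ * h⁻¹ ∈ GamK b 𝔞 v r s)
    {i j : b.support} {w : Equiv.Perm ι} (hO : OppW b i j w) (hD : Dm b i w γ.1.1 ≠ 0) :
    (Ideal.absNorm 𝔞 : ℝ) ^ (Phi b i).card ≤ mixedEmbedding.norm (mixedEmbedding K (Dm b i w γ.1.1)) *
        (Ideal.absNorm v.asIdeal : ℝ) ^ (Sl b i c + Sl b j c' - ((r + s : ℕ) : ℤ) * (Phi b i).card) ∧
      ∀ (l : b.support) (T : ℕ), (∀ β, mc b l (Sum.inr β) ≤ T) →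
        (Ideal.absNorm 𝔞 : ℝ) ^ (SM b i l + SM b j l).toNat ≤ mixedEmbedding.norm (mixedEmbedding K (Dm b i w γ.1.1)) ^ T *
          (Ideal.absNorm v.asIdeal : ℝ) ^ (T * (Sl b i c + Sl b j c') - ((r + s : ℕ) : ℤ) * (SM b i l + SM b j l)) := by
  have hπ0 : π ≠ 0 := by
    rintro rfl
    rw [map_zero] at hπ
    exact WithZero.exp_ne_zero hπ.symm
  have hγG : γ ∈ HG b 𝔞 v := by
    have e : γ = h'⁻¹ * (h' * γ * h⁻¹) * h := by group
    rw [e]
    exact hg_mul (hg_mul (hg_inv hh') (dc0_hg hγ)) hh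
  have hγG' : γ⁻¹ ∈ HG b 𝔞 v := hg_inv hγG
  obtain ⟨g, hg, hg', hgγ⟩ := d6_v hπ ha ha' hγ
  have hq := nu2_pos v
  have hawπ : ∀ m : ℤ, aw v (π ^ m) = (Ideal.absNorm v.asIdeal : ℝ) ^ (-m) := by
    intro m
    rw [map_zpow₀, d3_aw_eq hπ, ← _root_.zpow_mul]
    congr 1
    ring
  have hne : ∀ r c : I b, ht b r < ht b c → γ.1.1 r c = (γ.1.1 - 1) r c := by
    intro r c h
    rw [Matrix.sub_apply, Matrix.one_apply_ne, sub_zero]
    rintro rfl
    exact lt_irrefl _ h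
  have hSi : ∀ (i : b.support) (c : b.support → ℤ), ∑ β ∈ Phi b i, pr b c (Sum.inr β) = Sl b i c := fun i c => rfl
  have hSj : ∑ β ∈ Phi b i, pr b c' (Sum.inr (w β)) = -Sl b j c' := d3_sum hO c'
  refine ⟨?_, fun l T hT => ?_⟩
  · have h1 := d6_minor h0 hv 1 hO hD (fun _ => 1) (fun _ => 0) (fun k => pr b c k - ((r + s : ℕ) : ℤ)) (fun k => pr b c' k) (Phi b i).card
      (Sl b i c + Sl b j c' - ((r + s : ℕ) : ℤ) * (Phi b i).card) (by simp) (by
        rw [hSj, Finset.sum_sub_distrib, hSi, Finset.sum_const, nsmul_eq_mul]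
        ring) (fun w' hw' k k' hk => by
        rw [pow_one, sub_zero, zpow_one, hne k k' hk]
        exact d6_away h0 hv hγG hw' k k') (fun k k' hk => by
        rw [pow_one, hgγ, map_mul, map_mul, hawπ, hawπ]
        have h2 := d3_aw_le ((hg k k').2.1 hk)
        calc (Ideal.absNorm v.asIdeal : ℝ) ^ (-pr b c' k) * aw v (g.1.1 k k') * (Ideal.absNorm v.asIdeal : ℝ) ^ (- -pr b c k')
            ≤ (Ideal.absNorm v.asIdeal : ℝ) ^ (-pr b c' k) * (Ideal.absNorm v.asIdeal : ℝ) ^ (-((r : ℤ) + s)) * (Ideal.absNorm v.asIdeal : ℝ) ^ (- -pr b c k') :=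
              mul_le_mul_of_nonneg_right (mul_le_mul_of_nonneg_left h2 (zpow_pos hq _).le) (zpow_pos hq _).le
          _ = _ := by
            rw [← zpow_add₀ hq.ne', ← zpow_add₀ hq.ne']
            congr 1
            push_cast
            ring)
    rwa [pow_one] at h1
  · have hT' : ∀ a, mc b l a ≤ T := by
      intro a
      rcases a with k | β
      · exact Int.natCast_nonneg T
      · exact hT β
    have hP : 0 ≤ SM b i l + SM b j l := add_nonneg (d7_SM_nonneg i l) (d7_SM_nonneg j l)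
    refine d6_minor h0 hv T hO hD (mc b l) (mc b l) (fun k => T * pr b c k - ((r + s : ℕ) : ℤ) * mc b l k) (fun k => T * pr b c' k - ((r + s : ℕ) : ℤ) * mc b l k) _ _ ?_ ?_ ?_ ?_
    · rw [d7_sum_mc hO, sub_neg_eq_add, Int.toNat_of_nonneg hP]
      rfl
    · rw [Finset.sum_sub_distrib, Finset.sum_sub_distrib, ← Finset.mul_sum, ← Finset.mul_sum, ← Finset.mul_sum, ← Finset.mul_sum, hSj, hSi, d7_sum_mc hO]
      have e : ∑ β ∈ Phi b i, mc b l (Sum.inr β) = SM b i l := rfl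
      rw [e]
      ring
    · intro w' hw' k k' hk
      set a := (Associates.mk w'.asIdeal).count (Associates.mk 𝔞).factors with haa
      have enw : nw w' 𝔞 = (Ideal.absNorm w'.asIdeal : ℝ) ^ (-(a : ℤ)) := rfl
      rcases Nat.eq_zero_or_pos a with ha0 | ha0
      · rw [enw, ha0, Nat.cast_zero, neg_zero, zpow_zero, _root_.one_zpow]
        refine pow_le_one₀ ((aw w').nonneg _) ?_
        have h1 := (d6_iw h0 hv hγG hw' k k').1
        rw [← WithZero.exp_zero] at h1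
        have h2 := d3_aw_le h1
        rwa [zpow_zero] at h2
      · have h1 := iw_QL (v := w') (r := 0) (s := a) (by omega) (d6_iw h0 hv hγG hw') (d6_iw h0 hv hγG' hw') l (mc b l) (d5_mc b l) T hT' k k'
        have h2 := d6_pow_le h1
        refine h2.trans (le_of_eq ?_)
        rw [enw, ← _root_.zpow_mul]
        congr 1
        push_cast
        ring
    · intro k k' hk
      rw [hgγ, map_mul, map_mul, hawπ, hawπ, mul_pow, mul_pow, ← zpow_natCast, ← zpow_natCast ((Ideal.absNorm v.asIdeal : ℝ) ^ (- -pr b c k')), ← _root_.zpow_mul, ← _root_.zpow_mul]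
      have h1 : aw v (g.1.1 k k') ^ T ≤ (Ideal.absNorm v.asIdeal : ℝ) ^ (-(((r + s : ℕ) : ℤ) * (mc b l k' - mc b l k))) := by
        rcases Nat.eq_zero_or_pos (r + s) with hrs | hrs
        · rw [hrs, Nat.cast_zero, zero_mul, neg_zero, zpow_zero]
          refine pow_le_one₀ ((aw v).nonneg _) ?_
          have h1 := (hg k k').1
          rw [← WithZero.exp_zero] at h1
          have h2 := d3_aw_le h1
          rwa [zpow_zero] at h2
        · have h1 := iw_QL hrs hg hg' l (mc b l) (d5_mc b l) T hT' k k'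
          have h2 := d6_pow_le h1
          push_cast
          exact h2
      calc (Ideal.absNorm v.asIdeal : ℝ) ^ (-pr b c' k * T) * aw v (g.1.1 k k') ^ T * (Ideal.absNorm v.asIdeal : ℝ) ^ (- -pr b c k' * T)
          ≤ (Ideal.absNorm v.asIdeal : ℝ) ^ (-pr b c' k * T) * (Ideal.absNorm v.asIdeal : ℝ) ^ (-(((r + s : ℕ) : ℤ) * (mc b l k' - mc b l k))) * (Ideal.absNorm v.asIdeal : ℝ) ^ (- -pr b c k' * T) :=
            mul_le_mul_of_nonneg_right (mul_le_mul_of_nonneg_left h1 (zpow_pos hq _).le) (zpow_pos hq _).le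
        _ = _ := by
          rw [← zpow_add₀ hq.ne', ← zpow_add₀ hq.ne']
          congr 1
          ring

end

end Pool.Agent.Lib.L1S
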