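import Pool.Agent.Lib.L1S.B2

/-!
# L1S, DC2: the longest element of the Weyl group
-/

namespace Pool.Agent.Lib.L1S

noncomputable section

set_option linter.unusedSectionVars false

variable {ι M N : Type} [Fintype ι] [DecidableEq ι] [AddCommGroup M] [Module ℚ M] [AddCommGroup N] [Module ℚ N]
  {P : RootPairing ι ℚ M N} [P.IsCrystallographic] [P.IsReduced] [P.IsRootSystem]

theorem dc2_refl_self (i : ι) : P.reflectionPerm i (P.reflectionPerm i i) = i := P.reflectionPerm_self i i

/-- `∑_{β > 0} f (s_i β) = ∑_{β > 0} f β - f α_i + f (-α_i)`. -/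
theorem dc2_sum (b : P.Base) {i : ι} (hi : i ∈ b.support) (f : ι → ℤ) :
    ∑ β ∈ Pos b, f (P.reflectionPerm i β) = ∑ β ∈ Pos b, f β - f i + f (P.reflectionPerm i i) := by
  have hmem : i ∈ Pos b := by
    unfold Pos
    rw [Finset.mem_filter]
    exact ⟨Finset.mem_univ _, by rw [RootPairing.Base.height_one_of_mem_support hi]; norm_num⟩
  rw [← Finset.add_sum_erase _ _ hmem, ← Finset.add_sum_erase _ (fun β => f β) hmem]
  have h1 : ∑ β ∈ (Pos b).erase i, f (P.reflectionPerm i β) = ∑ β ∈ (Pos b).erase i, f β := by
    have key : ∀ β ∈ (Pos b).erase i, P.reflectionPerm i β ∈ (Pos b).erase i := by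
      intro β hβ
      rw [Finset.mem_erase] at hβ ⊢
      have hpos : b.IsPos β := by
        have := hβ.2
        unfold Pos at this
        exact (Finset.mem_filter.1 this).2
      constructor
      · intro h
        have h2 : β = P.reflectionPerm i i := by
          have h3 := P.reflectionPerm_self i β
          rw [h] at h3
          exact h3.symm
        have h4 : b.height β = -b.height i := by
          rw [h2]
          exact b.height_reflectionPerm_self i
        rw [RootPairing.Base.height_one_of_mem_support hi] at h4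
        have h5 : 0 < b.height β := hpos
        omega
      · unfold Pos
        rw [Finset.mem_filter]
        exact ⟨Finset.mem_univ _, hpos.reflectionPerm hi hβ.1⟩
    refine Finset.sum_bij' (fun β _ => P.reflectionPerm i β) (fun β _ => P.reflectionPerm i β) key key ?_ ?_ ?_
    · intro β _
      exact P.reflectionPerm_self i β
    · intro β _
      exact P.reflectionPerm_self i β
    · intro β _
      rfl
  rw [h1]
  ring

/-- **The longest element**: it exchanges the positive and the negative roots. -/
theorem exists_w0 (b : P.Base) : ∃ w ∈ WP P, ∀ β, b.IsPos (w β) ↔ ¬b.IsPos β := by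
  classical
  obtain ⟨w, hw, hmin⟩ := Finset.exists_min_image (Finset.univ.filter fun w : Equiv.Perm ι => w ∈ WP P) (fun w => ∑ β ∈ Pos b, b.height (w β))
    ⟨1, Finset.mem_filter.2 ⟨Finset.mem_univ _, one_mem _⟩⟩
  rw [Finset.mem_filter] at hw
  have hw1 : w ∈ WP P := hw.2
  obtain ⟨L, hL⟩ := b2_lin hw1
  have hneg : ∀ γ, b.height (P.reflectionPerm γ γ) = -b.height γ := fun γ => b.height_reflectionPerm_self γ
  have hwneg : ∀ γ, w (P.reflectionPerm γ γ) = P.reflectionPerm (w γ) (w γ) := by
    intro γ
    rw [b2_conj hw1]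
    simp
  have hsimple : ∀ i ∈ b.support, b.height (w i) < 0 := by
    intro i hi
    have h1 := hmin (w * P.reflectionPerm i) (Finset.mem_filter.2 ⟨Finset.mem_univ _, mul_mem hw1 (Subgroup.subset_closure ⟨i, rfl⟩)⟩)
    have h2 := dc2_sum b hi (fun β => b.height (w β))
    simp only [Equiv.Perm.mul_apply] at h1
    rw [h2, hwneg, hneg] at h1
    have h3 := b.height_ne_zero (w i)
    omega
  have hpos : ∀ β, b.IsPos β → b.height (w β) < 0 := by
    intro β hβ
    refine hβ.induction_on_add (p := fun β => b.height (w β) < 0) hsimple ?_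
    intro i j k hk h1 hj
    have h2 : P.root (w k) = P.root (w i) + P.root (w j) := by rw [← hL, ← hL, ← hL, hk, map_add]
    rw [b.height_add h2]
    have h3 := hsimple j hj
    omega
  refine ⟨w, hw1, fun β => ⟨fun h1 h2 => ?_, fun h1 => ?_⟩⟩
  · have h3 := hpos β h2
    have h4 : 0 < b.height (w β) := h1
    omega
  · have h2 : b.IsPos (P.reflectionPerm β β) := (RootPairing.Base.IsPos.neg_iff_not b β).2 h1
    have h3 := hpos _ h2
    rw [hwneg, hneg] at h3
    show 0 < b.height (w β)
    omega

end

end Pool.Agent.Lib.L1S
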