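import Pool.Agent.Lib.L1S.DC1
import Pool.Agent.Lib.L1S.DC2
import Pool.Agent.Lib.L1S.B1
import Pool.Agent.Lib.L1S.ApiL2

/-!
# L1S, DC3: every element of `Γ` (level at `v`) lies in `L U`, `L` the group which lowers the weights

`g = (n_0 u_1 n_0⁻¹) (n_0 n) u_2` by the Bruhat decomposition of `n_0⁻¹ g`; the element of the Weyl group below `n_0 n` is trivial by `dc1_zero`.
-/

namespace Pool.Agent.Lib.L1S

open MeasureTheory Matrix NumberField IsDedekindDomain Pool.Agent.Lib.H89N Pool.Agent.Lib.H33W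

noncomputable section

set_option linter.unusedSectionVars false

variable {ι M N : Type} [Fintype ι] [DecidableEq ι] [AddCommGroup M] [Module ℚ M] [AddCommGroup N] [Module ℚ N]
  {P : RootPairing ι ℚ M N} [P.IsCrystallographic] [P.IsReduced] [P.IsIrreducible] [P.IsRootSystem]

/-- The matrix lowers the weights. -/
def Lo (b : P.Base) {K : Type} [Field K] (X : Matrix (I b) (I b) K) : Prop := ∀ r c, X r c ≠ 0 → ∀ k, wq b r k ≤ wq b c k

theorem dc3_wq (b : P.Base) (r : I b) (k : b.support) : wq b r k = b.toWeightBasis.repr (wt b r) k := by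
  rcases r with i | β
  · simp [wq, wt]
  · rfl

theorem dc3_ht (b : P.Base) (r : I b) : ((ht b r : ℤ) : ℚ) = ∑ k, wq b r k := by
  rw [b1_ht]
  exact Finset.sum_congr rfl fun k _ => (dc3_wq b r k).symm

theorem dc3_ht_le {b : P.Base} {r c : I b} (h : ∀ k, wq b r k ≤ wq b c k) : ht b r ≤ ht b c := by
  have h1 : ((ht b r : ℤ) : ℚ) ≤ ((ht b c : ℤ) : ℚ) := by
    rw [dc3_ht, dc3_ht]
    exact Finset.sum_le_sum fun k _ => h k
  exact_mod_cast h1

/-- If the weights are comparable and the heights agree then the weights agree. -/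
theorem dc3_ht_eq {b : P.Base} {r c : I b} (h : ∀ k, wq b r k ≤ wq b c k) (he : ht b r = ht b c) : wt b r = wt b c := by
  have h1 : ∑ k, wq b r k = ∑ k, wq b c k := by rw [← dc3_ht, ← dc3_ht, he]
  have h2 : ∀ k, wq b r k = wq b c k := by
    intro k
    exact (Finset.sum_eq_sum_iff_of_le fun k _ => h k).1 h1 k (Finset.mem_univ k)
  apply b.toWeightBasis.repr.injective
  ext k
  rw [← dc3_wq, ← dc3_wq]
  exact h2 k

theorem Lo.mul {b : P.Base} {K : Type} [Field K] {X Y : Matrix (I b) (I b) K} (hX : Lo b X) (hY : Lo b Y) : Lo b (X * Y) := by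
  intro r c h k
  rw [Matrix.mul_apply] at h
  obtain ⟨l, -, hl⟩ := Finset.exists_ne_zero_of_sum_ne_zero h
  exact (hX r l (left_ne_zero_of_mul hl) k).trans (hY l c (right_ne_zero_of_mul hl) k)

/-- Existence of elements over `w`. -/
theorem exists_isN (b : P.Base) (K : Type) [Field K] [NumberField K] {w : Equiv.Perm ι} (hw : w ∈ WP P) : ∃ n : GK b K, IsN b K w n := by
  obtain ⟨l, hl, rfl⟩ := b2_gen b hw
  clear hw
  induction l with
  | nil => exact ⟨1, b1_one b K⟩
  | cons i l ih =>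
    obtain ⟨n, hn⟩ := ih fun j hj => hl j (List.mem_cons_of_mem _ hj)
    refine ⟨b1m b K ⟨i, hl i List.mem_cons_self⟩ 1 * n, ?_⟩
    have h1 : wl P (i :: l) = P.reflectionPerm i * wl P l := by
      unfold wl
      rw [List.map_cons, List.prod_cons]
    rw [h1]
    exact b1_mul b K (b1_m b K ⟨i, hl i List.mem_cons_self⟩ 1) hn

/-- The weights of an element over `w`. -/
theorem dc3_wt {b : P.Base} {K : Type} [Field K] [NumberField K] {w : Equiv.Perm ι} {n : GK b K} (hn : IsN b K w n) {L : M ≃ₗ[ℚ] M} (hL : ∀ β, L (P.root β) = P.root (w β)) {r c : I b}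
    (h : n.1.1 r c ≠ 0) : wt b r = L (wt b c) := by
  rcases c with j | β
  · obtain ⟨i, rfl⟩ := hn.v0 r j h
    change (0 : M) = L 0
    rw [map_zero]
  · rw [hn.vr r β h]
    exact (hL β).symm

/-- The weights of the inverse. -/
theorem dc3_wt_inv {b : P.Base} {K : Type} [Field K] [NumberField K] {w : Equiv.Perm ι} {n : GK b K} (hn : IsN b K w n) {L : M ≃ₗ[ℚ] M} (hL : ∀ β, L (P.root β) = P.root (w β)) {r c : I b}
    (h : n⁻¹.1.1 r c ≠ 0) : wt b c = L (wt b r) := by
  have key : ∀ k, b.toWeightBasis.repr (L.symm (wt b c)) k = b.toWeightBasis.repr (wt b r) k := by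
    intro k
    set D : Matrix (I b) (I b) K := Matrix.diagonal fun a => ((b.toWeightBasis.repr (wt b a) k : ℚ) : K) with hD
    set D' : Matrix (I b) (I b) K := Matrix.diagonal fun a => ((b.toWeightBasis.repr (L.symm (wt b a)) k : ℚ) : K) with hD'
    have e1 : n.1.1 * D = D' * n.1.1 := by
      ext i j
      rw [hD, hD', Matrix.mul_diagonal, Matrix.diagonal_mul]
      by_cases h1 : n.1.1 i j = 0
      · rw [h1, zero_mul, mul_zero]
      · rw [dc3_wt hn hL h1, L.symm_apply_apply, mul_comm]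
    have e2 : n⁻¹.1.1 * n.1.1 = 1 := by
      have : (n⁻¹ * n).1.1 = 1 := by
        rw [inv_mul_cancel]
        rfl
      exact this
    have e3 : n.1.1 * n⁻¹.1.1 = 1 := by
      have : (n * n⁻¹).1.1 = 1 := by
        rw [mul_inv_cancel]
        rfl
      exact this
    have e4 : D * n⁻¹.1.1 = n⁻¹.1.1 * D' := by
      calc D * n⁻¹.1.1 = n⁻¹.1.1 * n.1.1 * D * n⁻¹.1.1 := by rw [e2, one_mul]
        _ = n⁻¹.1.1 * (n.1.1 * D) * n⁻¹.1.1 := by rw [Matrix.mul_assoc n⁻¹.1.1 n.1.1 D]
        _ = n⁻¹.1.1 * (D' * n.1.1) * n⁻¹.1.1 := by rw [e1]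
        _ = n⁻¹.1.1 * D' * (n.1.1 * n⁻¹.1.1) := by
          rw [Matrix.mul_assoc, Matrix.mul_assoc, Matrix.mul_assoc]
        _ = n⁻¹.1.1 * D' := by rw [e3, mul_one]
    have e5 := congrFun (congrFun e4 r) c
    rw [hD, hD', Matrix.mul_diagonal, Matrix.diagonal_mul, mul_comm] at e5
    have e6 := mul_left_cancel₀ h e5
    exact_mod_cast e6.symm
  have h2 : L.symm (wt b c) = wt b r := by
    apply b.toWeightBasis.repr.injective
    ext k
    exact key k
  rw [← h2, L.apply_symm_apply]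

/-- An element over the identity preserves the weights. -/
theorem dc3_lo_one {b : P.Base} {K : Type} [Field K] [NumberField K] {n : GK b K} (hn : IsN b K 1 n) : Lo b n.1.1 ∧ Lo b n⁻¹.1.1 := by
  have hL : ∀ β, (LinearEquiv.refl ℚ M) (P.root β) = P.root ((1 : Equiv.Perm ι) β) := fun β => rfl
  constructor
  · intro r c h k
    have h1 : wt b r = wt b c := dc3_wt hn hL h
    rw [dc3_wq, dc3_wq, h1]
  · intro r c h k
    have h1 : wt b c = wt b r := dc3_wt_inv hn hL h
    rw [dc3_wq, dc3_wq, h1]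

/-- `n_0 u n_0⁻¹` lowers the weights for `u ∈ U(K)`, `n_0` over the longest element. -/
theorem dc3_low {b : P.Base} {K : Type} [Field K] [NumberField K] {w0 : Equiv.Perm ι} (h0 : ∀ β, b.IsPos (w0 β) ↔ ¬b.IsPos β) {n : GK b K} (hn : IsN b K w0 n) {u : GK b K}
    (hu : u ∈ HU b K) : Lo b (n.1.1 * u.1.1 * n⁻¹.1.1) := by
  obtain ⟨L, hL⟩ := b2_lin hn.mem
  have hneg : ∀ k j : b.support, b.toWeightBasis.repr (L (P.root k)) j ≤ 0 := by
    intro k j
    rw [hL]
    refine b2_nonpos b (fun h => ?_) j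
    exact (h0 _).1 h (b.isPos_of_mem_support k.2)
  have hmono : ∀ a a' : I b, (∀ k, wq b a' k ≤ wq b a k) → ∀ j, b.toWeightBasis.repr (L (wt b a)) j ≤ b.toWeightBasis.repr (L (wt b a')) j := by
    intro a a' h j
    have e : ∀ x : I b, b.toWeightBasis.repr (L (wt b x)) j = ∑ k, wq b x k * b.toWeightBasis.repr (L (P.root k)) j := by
      intro x
      have e1 : wt b x = ∑ k, wq b x k • P.root k := by
        refine (b.toWeightBasis.sum_repr (wt b x)).symm.trans ?_
        refine Finset.sum_congr rfl fun k _ => ?_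
        rw [dc3_wq]
        congr 1
        simp
      refine (congrArg (fun y => b.toWeightBasis.repr (L y) j) e1).trans ?_
      rw [map_sum, map_sum, Finsupp.finsetSum_apply]
      refine Finset.sum_congr rfl fun k _ => ?_
      rw [map_smul, map_smul, Finsupp.smul_apply, smul_eq_mul]
    rw [e, e]
    refine Finset.sum_le_sum fun k _ => ?_
    exact mul_le_mul_of_nonpos_right (h k) (hneg k j)
  intro r c h
  rw [Matrix.mul_apply] at h
  obtain ⟨a', -, ha'⟩ := Finset.exists_ne_zero_of_sum_ne_zero h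
  have h1 := left_ne_zero_of_mul ha'
  have h2 := right_ne_zero_of_mul ha'
  rw [Matrix.mul_apply] at h1
  obtain ⟨a, -, ha⟩ := Finset.exists_ne_zero_of_sum_ne_zero h1
  have h3 := left_ne_zero_of_mul ha
  have h4 := right_ne_zero_of_mul ha
  have h5 : wt b r = L (wt b a) := dc3_wt hn hL h3
  have h6 : wt b c = L (wt b a') := dc3_wt_inv hn hL h2
  have h7 : ∀ k, wq b a' k ≤ wq b a k := by
    rcases uni_HU (b := b) hu a a' with h7 | ⟨-, h7⟩
    · rw [h7] at h4
      have h8 : a = a' := by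
        by_contra hne
        exact h4 (Matrix.one_apply_ne hne)
      rw [h8]
      exact fun k => le_rfl
    · exact h7
  intro k
  rw [dc3_wq, dc3_wq, h5, h6]
  exact hmono a a' h7 k

/-- **The opposite decomposition**: for `g ∈ Γ` there is `u ∈ U(K)` such that `g u` lowers the weights. -/
theorem dc3_opp {b : P.Base} {K : Type} [Field K] [NumberField K] {v : HeightOneSpectrum (𝓞 K)} {𝔫 : Ideal (𝓞 K)} {r s : ℕ} (hrs : 1 ≤ r + s) {g : GK b K}
    (hg : g ∈ GamK b 𝔫 v r s) : ∃ u ∈ HU b K, Lo b (g * u).1.1 ∧ Lo b (g * u)⁻¹.1.1 := by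
  obtain ⟨w0, hw0, h0⟩ := exists_w0 b
  obtain ⟨n0, hn0⟩ := exists_isN b K hw0
  obtain ⟨u1, hu1, w, n, hn, u2, hu2, e⟩ := bruhat b K (n0⁻¹ * g)
  have hg' : g⁻¹ ∈ GamK b 𝔫 v r s := inv_mem hg
  have hI := dc0_iw hg
  have hI' := dc0_iw hg'
  have hn' := b1_mul b K hn0 hn
  have e1 : g * u2⁻¹ = n0 * u1 * n0⁻¹ * (n0 * n) := by
    have : g = n0 * (n0⁻¹ * g) := by group
    rw [this, e]
    group
  have hlow := dc3_low h0 hn0 hu1
  have hlow' := dc3_low h0 hn0 (inv_mem hu1)
  have e2 : (g * u2⁻¹).1.1 = n0.1.1 * u1.1.1 * n0⁻¹.1.1 * (n0 * n).1.1 := by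
    rw [e1]
    rfl
  have e3 : (g * u2⁻¹)⁻¹.1.1 = (n0 * n)⁻¹.1.1 * (n0.1.1 * u1⁻¹.1.1 * n0⁻¹.1.1) := by
    have : (g * u2⁻¹)⁻¹ = (n0 * n)⁻¹ * (n0 * u1⁻¹ * n0⁻¹) := by
      rw [e1]
      group
    rw [this]
    rfl
  have hu2' : u2⁻¹ ∈ HU b K := inv_mem hu2
  have hut : ∀ r c, ht b r ≤ ht b c → u2⁻¹.1.1 r c = (1 : Matrix (I b) (I b) K) r c := fun r c h => ((mem_HU b K _).1 hu2' r c h).1
  have hw' : w0 * w = 1 := by
    refine b2_trans b hn'.mem fun i hi => ?_
    by_contra hneg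
    set x : I b → K := fun l => u2⁻¹.1.1 l (Sum.inr i) with hx
    have hi1 : ht b (Sum.inr i) = 1 := RootPairing.Base.height_one_of_mem_support hi
    have hx0 : x = 0 := by
      refine dc1_zero hrs hI (fun i j => (hI' i j).1) ?_ 1 x ?_ ?_
      · have : (g⁻¹ * g).1.1 = 1 := by
          rw [inv_mul_cancel]
          rfl
        exact this
      · intro l hl
        rw [hx]
        simp only
        rw [hut l _ (by omega), Matrix.one_apply_ne]
        rintro rfl
        omega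
      · intro l hl
        have e4 : (g.1.1 *ᵥ x) l = (g * u2⁻¹).1.1 l (Sum.inr i) := by
          have : (g * u2⁻¹).1.1 = g.1.1 * u2⁻¹.1.1 := rfl
          rw [this, Matrix.mul_apply, Matrix.mulVec, dotProduct]
        rw [e4, e2, Matrix.mul_apply]
        refine Finset.sum_eq_zero fun a _ => ?_
        by_contra hne
        have h1 := left_ne_zero_of_mul hne
        have h2 := right_ne_zero_of_mul hne
        have h3 := hn'.vr a i h2
        have h4 := dc3_ht_le (hlow l a h1)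
        rw [h3] at h4
        have h5 : ht b (Sum.inr ((w0 * w) i)) = b.height ((w0 * w) i) := rfl
        have h6 : ¬0 < b.height ((w0 * w) i) := hneg
        omega
    have h1 := congrFun hx0 (Sum.inr i)
    rw [hx] at h1
    simp only at h1
    rw [hut _ _ le_rfl, Matrix.one_apply_eq] at h1
    exact one_ne_zero h1
  rw [hw'] at hn'
  obtain ⟨h1, h2⟩ := dc3_lo_one hn'
  refine ⟨u2⁻¹, hu2', ?_, ?_⟩
  · rw [e2]
    exact hlow.mul h1
  · rw [e3]
    exact h2.mul hlow'

end

end Pool.Agent.Lib.L1S
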