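import Pool.Agent.Lib.L1S.Defs

/-!
# L1S: the statement
-/

namespace Pool.Agent.Lib.L1S

open MeasureTheory Matrix NumberField IsDedekindDomain Pool.Agent.Lib.H89N Pool.Agent.Lib.H33W

noncomputable section

variable {ι M N : Type} [Fintype ι] [DecidableEq ι] [AddCommGroup M] [Module ℚ M] [AddCommGroup N] [Module ℚ N]
  {P : RootPairing ι ℚ M N} [P.IsCrystallographic]

/-- `w ∈ Γ h Γ`. -/
def InT (b : P.Base) {K : Type} [Field K] [NumberField K] (𝔫 : Ideal (𝓞 K)) (v : HeightOneSpectrum (𝓞 K)) (r s : ℕ) (h : GK b K) (w : GR b K) : Prop :=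
  ∃ γ ∈ Gam b 𝔫 v r s, ∃ γ' ∈ Gam b 𝔫 v r s, w = γ * emb b K h * γ'

/-- **The Hecke operator** `U_λ`: `F` is an eigenfunction with the eigenvalue `θ` of the operator of the double coset `Γ h Γ`, `h ∈ Γ_v λ(π)⁻¹`: `∑ F (w x) = θ F (x)`, the sum over `w ∈ Γ \ Γ h Γ`. -/
def IsT (b : P.Base) {K : Type} [Field K] [NumberField K] (𝔫 : Ideal (𝓞 K)) (v : HeightOneSpectrum (𝓞 K)) (r s : ℕ) (h : GK b K) (F : GR b K → ℂ) (θ : ℂ) : Prop :=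
  ∃ S : Finset (GR b K), (∀ w ∈ S, InT b 𝔫 v r s h w) ∧ (∀ w, InT b 𝔫 v r s h w → ∃! w', w' ∈ S ∧ w * w'⁻¹ ∈ Gam b 𝔫 v r s) ∧
    ∀ x, ∑ w ∈ S, F (w * x) = θ * F x

/-- `h⁻¹ Γ h ∩ U` as a subgroup of `U`. -/
def GamH (b : P.Base) {K : Type} [Field K] [NumberField K] (𝔫 : Ideal (𝓞 K)) (v : HeightOneSpectrum (𝓞 K)) (r s : ℕ) (h : GK b K) : Subgroup (UR b K) :=
  ((Gam b 𝔫 v r s).comap (MulAut.conj (emb b K h)).toMonoidHom).subgroupOf (UR b K)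

/-- **The statement**: density theorem for the globally generic spectrum of the split simple group of type `P` over `K`.
For orthonormal `F_1, …, F_m` in `L²(Γ \ G)` and a dominant coweight `λ` below the size condition:
(A) `∑ |W_{F_l}(x, π^λ)|² ≤ C q ^ (-∑_{β > 0} ⟨β, λ⟩) ∏_{β > 0} exp(d A(β)) / N`, `W_F(x, π^λ)` the Whittaker coefficient of `F (h ·)`;
(B) if `r + s ≥ 1` and `U_λ F_l = t_l F_l`, then `∑ |t_l|² |W_{F_l}(x)|² ≤ C q ^ (∑_{β > 0} ⟨β, λ⟩) ∏_{β > 0} exp(d A(β)) / N`. -/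
def Statement [P.IsRootSystem] (b : P.Base) (K : Type) [Field K] [NumberField K] : Prop :=
  ∀ (μ : Measure (GR b K)) [μ.IsHaarMeasure] (φ : GR b K → ℂ), Continuous φ → HasCompactSupport φ →
    ∀ Ω : Set (GL (I b) (EE K)), IsCompact Ω → ∃ C : ℝ, ∀ (v : HeightOneSpectrum (𝓞 K)) (𝔫 : Ideal (𝓞 K)), 𝔫 ≠ ⊥ → ¬𝔫 ≤ v.asIdeal → ∀ r s : ℕ,
    ∀ c : b.support → ℤ, (∀ i : b.support, 0 ≤ pr b c (Sum.inr i)) →
    (∀ i j, Opp b i j → (Ideal.absNorm v.asIdeal : ℝ) ^ (∑ β ∈ Phi b i, pr b c (Sum.inr β) + ∑ β ∈ Phi b j, pr b c (Sum.inr β) - ((r : ℤ) + s) * (Phi b i).card) ≤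
      (Ideal.absNorm 𝔫 : ℝ) ^ (((Phi b i).card : ℤ) + ∑ β ∈ Phi b i, b.height β + ∑ β ∈ Phi b j, b.height β)) →
    ∀ π : K, v.valuation K π = WithZero.exp (-1 : ℤ) → ∀ h ∈ HG b 𝔫 v, AtV b v r s π c h →
    ∀ θ : b.support → (EE K →ₗ[ℝ] ℝ), Gen b 𝔫 θ →
    ∀ A : M →ₗ[ℚ] ℝ, (∀ i : b.support, Real.log (Ideal.absNorm 𝔫) ≤ Module.finrank ℚ K * A (P.root i)) → ∀ x, InRange b Ω A x →
    ∀ (ν : Measure (UR b K)) [ν.IsHaarMeasure] (D : Set (GR b K)), IsFundamentalDomain (Gam b 𝔫 v r s) D μ →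
    ∀ (m : ℕ) (F : Fin m → GR b K → ℂ), (∀ l, Aut b 𝔫 v r s μ D φ (F l)) →
    (∀ l k, ∫ x in D, star (F l x) * F k x ∂μ = if l = k then 1 else 0) →
    (∀ D' : Set (UR b K), IsFundamentalDomain (GamH b 𝔫 v r s h) D' ν →
      ∑ l, ‖Wh b ν D' θ (fun y => F l (emb b K h * y)) x‖ ^ 2 ≤
        C * (Ideal.absNorm v.asIdeal : ℝ) ^ (-∑ β ∈ Pos b, pr b c (Sum.inr β)) *
          ∏ β ∈ Pos b, Real.exp (Module.finrank ℚ K * A (P.root β)) / (Ideal.absNorm 𝔫 : ℝ)) ∧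
    (1 ≤ r + s → ∀ t : Fin m → ℂ, (∀ l, IsT b 𝔫 v r s h (F l) (t l)) →
      ∀ D' : Set (UR b K), IsFundamentalDomain (GamU b 𝔫 v r s) D' ν →
      ∑ l, ‖t l‖ ^ 2 * ‖Wh b ν D' θ (F l) x‖ ^ 2 ≤
        C * (Ideal.absNorm v.asIdeal : ℝ) ^ (∑ β ∈ Pos b, pr b c (Sum.inr β)) *
          ∏ β ∈ Pos b, Real.exp (Module.finrank ℚ K * A (P.root β)) / (Ideal.absNorm 𝔫 : ℝ))

end

end Pool.Agent.Lib.L1S
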