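import Pool.Agent.Lib.L1S.DC4
import Pool.Agent.Lib.L1S.Stm
import Pool.Agent.Lib.L1S.DC3

/-!
# L1S, module DC: an eigenfunction of the double coset operator is an eigenfunction of `U_λ`

`Γ = (Γ ∩ h⁻¹ Γ h) (Γ ∩ U)` for `r + s ≥ 1`, so the cosets `Γ \ Γ h Γ` are represented by the `h u`, `u ∈ (Γ_U ∩ h⁻¹ Γ h) \ Γ_U`.
-/

namespace Pool.Agent.Lib.L1S

open MeasureTheory Matrix NumberField IsDedekindDomain Pool.Agent.Lib.H89N Pool.Agent.Lib.H33W

noncomputable section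

set_option linter.unusedSectionVars false

variable {ι M N : Type} [Fintype ι] [DecidableEq ι] [AddCommGroup M] [Module ℚ M] [AddCommGroup N] [Module ℚ N]
  {P : RootPairing ι ℚ M N} [P.IsCrystallographic] [P.IsReduced] [P.IsIrreducible] [P.IsRootSystem]

theorem dc_pr {b : P.Base} (c : b.support → ℤ) (r : I b) : ((pr b c r : ℤ) : ℚ) = ∑ k, wq b r k * ((pr b c (Sum.inr k) : ℤ) : ℚ) := by
  set lam : M →ₗ[ℚ] ℚ := ∑ j : b.support, (c j : ℚ) • P.coroot' j with hlam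
  have h1 : ∀ β : ι, lam (P.root β) = ((pr b c (Sum.inr β) : ℤ) : ℚ) := by
    intro β
    have h2 : pr b c (Sum.inr β) = ∑ j : b.support, c j * P.pairingIn ℤ β j := rfl
    rw [hlam, h2, LinearMap.sum_apply]
    push_cast
    refine Finset.sum_congr rfl fun j _ => ?_
    rw [LinearMap.smul_apply, smul_eq_mul, P.root_coroot'_eq_pairing, ← P.algebraMap_pairingIn ℤ]
    rfl
  have h2 : ((pr b c r : ℤ) : ℚ) = lam (wt b r) := by
    rcases r with i | β
    · change ((0 : ℤ) : ℚ) = lam 0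
      rw [map_zero, Int.cast_zero]
    · exact (h1 β).symm
  have e1 : wt b r = ∑ k, wq b r k • P.root k := by
    refine (b.toWeightBasis.sum_repr (wt b r)).symm.trans ?_
    refine Finset.sum_congr rfl fun k _ => ?_
    rw [dc3_wq]
    congr 1
    simp
  rw [h2, e1, map_sum]
  refine Finset.sum_congr rfl fun k _ => ?_
  rw [map_smul, smul_eq_mul, h1]

theorem dc_pr_le {b : P.Base} {c : b.support → ℤ} (hc : ∀ i : b.support, 0 ≤ pr b c (Sum.inr i)) {r k : I b} (h : ∀ j, wq b r j ≤ wq b k j) : pr b c r ≤ pr b c k := by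
  have h1 : ((pr b c r : ℤ) : ℚ) ≤ ((pr b c k : ℤ) : ℚ) := by
    rw [dc_pr, dc_pr]
    refine Finset.sum_le_sum fun j _ => mul_le_mul_of_nonneg_right (h j) ?_
    exact_mod_cast hc j
  exact_mod_cast h1

theorem dc_pr_eq {b : P.Base} (c : b.support → ℤ) {r k : I b} (h : wt b r = wt b k) : pr b c r = pr b c k := by
  have h1 : ((pr b c r : ℤ) : ℚ) = ((pr b c k : ℤ) : ℚ) := by
    rw [dc_pr, dc_pr]
    refine Finset.sum_congr rfl fun j _ => ?_
    rw [dc3_wq, dc3_wq, h]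
  exact_mod_cast h1

variable {b : P.Base} {K : Type} [Field K] [NumberField K] {v : HeightOneSpectrum (𝓞 K)}

theorem dc_pi {π : K} (hπ : v.valuation K π = WithZero.exp (-1 : ℤ)) (m : ℤ) : v.valuation K (π ^ m) = WithZero.exp (-m) := by
  rw [map_zpow₀, hπ, ← WithZero.exp_zsmul]
  congr 1
  simp

/-- `λ(π)⁻¹ ℓ λ(π)` for a matrix `ℓ` which lowers the weights. -/
theorem dc_lo {π : K} (hπ : v.valuation K π = WithZero.exp (-1 : ℤ)) {c : b.support → ℤ} (hc : ∀ i : b.support, 0 ≤ pr b c (Sum.inr i)) {r s : ℕ} {X : Matrix (I b) (I b) K}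
    (hX : IwL b v r s X) (hL : Lo b X) : IwL b v r s ((Matrix.diagonal fun i => π ^ (-pr b c i)) * X * Matrix.diagonal fun i => π ^ pr b c i) := by
  have hπ0 : π ≠ 0 := by
    rintro rfl
    rw [map_zero] at hπ
    exact WithZero.exp_ne_zero hπ.symm
  have e : ∀ i j, ((Matrix.diagonal fun i => π ^ (-pr b c i)) * X * Matrix.diagonal fun i => π ^ pr b c i) i j = π ^ (pr b c j - pr b c i) * X i j := by
    intro i j
    rw [Matrix.mul_diagonal, Matrix.diagonal_mul, sub_eq_add_neg, zpow_add₀ hπ0]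
    ring
  have hle : ∀ i j, v.valuation K (π ^ (pr b c j - pr b c i) * X i j) ≤ v.valuation K (X i j) := by
    intro i j
    by_cases h : X i j = 0
    · rw [h, mul_zero]
    · have h1 := dc_pr_le hc (hL i j h)
      rw [map_mul, dc_pi hπ]
      calc WithZero.exp (-(pr b c j - pr b c i)) * v.valuation K (X i j) ≤ 1 * v.valuation K (X i j) := by
            refine mul_le_mul' ?_ le_rfl
            rw [← WithZero.exp_zero]
            exact WithZero.exp_le_exp.2 (by omega)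
        _ = _ := one_mul _
  intro i j
  refine ⟨?_, fun h => ?_, fun h => ?_⟩
  · rw [e]
    exact (hle i j).trans (hX i j).1
  · rw [e]
    exact (hle i j).trans ((hX i j).2.1 h)
  · rw [Matrix.sub_apply, e]
    have h1 : π ^ (pr b c j - pr b c i) * X i j = X i j := by
      by_cases h0 : X i j = 0
      · rw [h0, mul_zero]
      · rw [dc_pr_eq c (dc3_ht_eq (hL i j h0) h), sub_self, zpow_zero, one_mul]
    rw [h1]
    have h2 := (hX i j).2.2 h
    rwa [Matrix.sub_apply] at h2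

/-- `λ(π)⁻¹ Y λ(π)` for `Y` close to `1`. -/
theorem dc_cong {π : K} (hπ : v.valuation K π = WithZero.exp (-1 : ℤ)) {c : b.support → ℤ} {r s : ℕ} {Y : Matrix (I b) (I b) K}
    (hY : ∀ i j, v.valuation K ((Y - 1) i j) ≤ WithZero.exp (-((r + s + 2 * ∑ k, (pr b c k).natAbs : ℕ) : ℤ))) :
    IwL b v r s ((Matrix.diagonal fun i => π ^ (-pr b c i)) * Y * Matrix.diagonal fun i => π ^ pr b c i) := by
  have hπ0 : π ≠ 0 := by
    rintro rfl
    rw [map_zero] at hπ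
    exact WithZero.exp_ne_zero hπ.symm
  refine IwL.of_cong fun i j => ?_
  have e0 : (Matrix.diagonal fun i => π ^ (-pr b c i)) * (Matrix.diagonal fun i => π ^ pr b c i) = (1 : Matrix (I b) (I b) K) := by
    rw [Matrix.diagonal_mul_diagonal, ← Matrix.diagonal_one]
    congr 1
    funext i
    rw [_root_.zpow_neg, inv_mul_cancel₀ (zpow_ne_zero _ hπ0)]
  have e1 : (Matrix.diagonal fun i => π ^ (-pr b c i)) * Y * (Matrix.diagonal fun i => π ^ pr b c i) - 1 =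
      (Matrix.diagonal fun i => π ^ (-pr b c i)) * (Y - 1) * Matrix.diagonal fun i => π ^ pr b c i := by
    rw [Matrix.mul_sub, Matrix.sub_mul, Matrix.mul_one, e0]
  rw [e1, Matrix.mul_diagonal, Matrix.diagonal_mul, map_mul, map_mul, dc_pi hπ, dc_pi hπ]
  have hs : ∀ k : I b, ((pr b c k).natAbs : ℤ) ≤ ((∑ k, (pr b c k).natAbs : ℕ) : ℤ) := fun k =>
    Int.ofNat_le.2 (Finset.single_le_sum (f := fun k => (pr b c k).natAbs) (fun _ _ => Nat.zero_le _) (Finset.mem_univ k))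
  have hi := hs i
  have hj := hs j
  calc WithZero.exp (- -pr b c i) * v.valuation K ((Y - 1) i j) * WithZero.exp (-pr b c j)
      ≤ WithZero.exp (- -pr b c i) * WithZero.exp (-((r + s + 2 * ∑ k, (pr b c k).natAbs : ℕ) : ℤ)) * WithZero.exp (-pr b c j) :=
        mul_le_mul' (mul_le_mul' le_rfl (hY i j)) le_rfl
    _ = WithZero.exp (- -pr b c i + -((r + s + 2 * ∑ k, (pr b c k).natAbs : ℕ) : ℤ) + -pr b c j) := by
        rw [WithZero.exp_add, WithZero.exp_add]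
    _ ≤ WithZero.exp (-((r : ℤ) + s)) := by
        refine WithZero.exp_le_exp.2 ?_
        generalize (∑ k, (pr b c k).natAbs : ℕ) = T at hi hj ⊢
        omega

/-- **`Γ = (Γ ∩ h⁻¹ Γ h) (Γ ∩ U)`.** -/
theorem dc_main {𝔫 : Ideal (𝓞 K)} {r s : ℕ} (hrs : 1 ≤ r + s) {c : b.support → ℤ} {π : K} {h : GK b K} (hlv : Lv b 𝔫 v r s c π h) {g : GK b K} (hg : g ∈ GamK b 𝔫 v r s) :
    ∃ u ∈ GamK b 𝔫 v r s, u ∈ HU b K ∧ h * (g * u⁻¹) * h⁻¹ ∈ GamK b 𝔫 v r s := by
  obtain ⟨u, hu, hl, hl'⟩ := dc3_opp hrs hg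
  have hgI := dc0_iw hg
  have hgI' := dc0_iw (inv_mem hg)
  have hui : ∀ i j, v.valuation K (u.1.1 i j) ≤ 1 := by
    refine fun i j => dc1_int hrs hgI (fun i j => (hgI' i j).1) ?_ (fun i j h => ((mem_HU b K u).1 hu i j h).1) (fun i j h => ?_) i j
    · have : (g⁻¹ * g).1.1 = 1 := by
        rw [inv_mul_cancel]
        rfl
      exact this
    · by_contra hne
      have h1 := dc3_ht_le (hl i j hne)
      omega
  obtain ⟨hgi, u', hu', huU, hc⟩ := dc4_u hlv.nv r s (r + s + 2 * ∑ k, (pr b c k).natAbs) hu hui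
  have hπ0 : π ≠ 0 := by
    rintro rfl
    have := hlv.hπ
    rw [map_zero] at this
    exact WithZero.exp_ne_zero this.symm
  have hiu : IwL b v r s u.1.1 ∧ IwL b v r s u⁻¹.1.1 := by
    have key : ∀ x : Matrix (I b) (I b) K, (∀ i j, v.valuation K (x i j) ≤ 1) → (∀ i j, ht b i ≤ ht b j → x i j = (1 : Matrix (I b) (I b) K) i j) → IwL b v r s x := by
      intro x h1 h2 i j
      refine ⟨h1 i j, fun h => ?_, fun h => ?_⟩
      · rw [h2 i j h.le]
        exact (IwL.one (b := b) v r s i j).2.1 h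
      · rw [Matrix.sub_apply, h2 i j h.le, sub_self, map_zero]
        exact zero_le
    exact ⟨key _ (fun i j => (hgi i j).1) fun i j h => ((mem_HU b K u).1 hu i j h).1, key _ (fun i j => (hgi i j).2) fun i j h => ((mem_HU b K u).1 hu i j h).2⟩
  have hI1 : IwL b v r s (g * u).1.1 := hgI.mul hiu.1
  have hI2 : IwL b v r s (g * u)⁻¹.1.1 := by
    have e : (g * u)⁻¹.1.1 = u⁻¹.1.1 * g⁻¹.1.1 := by
      rw [_root_.mul_inv_rev]
      rfl
    rw [e]
    exact hiu.2.mul hgI'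
  have hD : (Matrix.diagonal fun i => π ^ pr b c i) * (Matrix.diagonal fun i => π ^ (-pr b c i)) = (1 : Matrix (I b) (I b) K) := by
    rw [Matrix.diagonal_mul_diagonal, ← Matrix.diagonal_one]
    congr 1
    funext i
    rw [_root_.zpow_neg, mul_inv_cancel₀ (zpow_ne_zero _ hπ0)]
  have key : ∀ x y : GK b K, IwL b v r s x.1.1 → Lo b x.1.1 → (∀ i j, v.valuation K ((y.1.1 - 1) i j) ≤ WithZero.exp (-((r + s + 2 * ∑ k, (pr b c k).natAbs : ℕ) : ℤ))) →
      IwL b v r s (h * (x * y) * h⁻¹).1.1 ∧ IwL b v r s (h * (y * x) * h⁻¹).1.1 := by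
    intro x y h1 h2 h3
    have hx := dc_lo hlv.hπ hlv.dom h1 h2
    have hy := dc_cong hlv.hπ h3
    obtain ⟨hv1, hv2⟩ := hlv.hv
    constructor
    · have e : (h * (x * y) * h⁻¹).1.1 = (h.1.1 * Matrix.diagonal fun i => π ^ pr b c i) *
          ((Matrix.diagonal fun i => π ^ (-pr b c i)) * x.1.1 * Matrix.diagonal fun i => π ^ pr b c i) *
          ((Matrix.diagonal fun i => π ^ (-pr b c i)) * y.1.1 * Matrix.diagonal fun i => π ^ pr b c i) *
          ((Matrix.diagonal fun i => π ^ (-pr b c i)) * h⁻¹.1.1) := by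
        have e1 : (h * (x * y) * h⁻¹).1.1 = h.1.1 * (x.1.1 * y.1.1) * h⁻¹.1.1 := rfl
        rw [e1]
        simp only [Matrix.mul_assoc]
        rw [← Matrix.mul_assoc (Matrix.diagonal fun i => π ^ pr b c i) (Matrix.diagonal fun i => π ^ (-pr b c i)) (x.1.1 * _), hD, one_mul,
          ← Matrix.mul_assoc (Matrix.diagonal fun i => π ^ pr b c i) (Matrix.diagonal fun i => π ^ (-pr b c i)) (y.1.1 * _), hD, one_mul,
          ← Matrix.mul_assoc (Matrix.diagonal fun i => π ^ pr b c i) (Matrix.diagonal fun i => π ^ (-pr b c i)) h⁻¹.1.1, hD, one_mul]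
      rw [e]
      exact ((hv1.mul hx).mul hy).mul hv2
    · have e : (h * (y * x) * h⁻¹).1.1 = (h.1.1 * Matrix.diagonal fun i => π ^ pr b c i) *
          ((Matrix.diagonal fun i => π ^ (-pr b c i)) * y.1.1 * Matrix.diagonal fun i => π ^ pr b c i) *
          ((Matrix.diagonal fun i => π ^ (-pr b c i)) * x.1.1 * Matrix.diagonal fun i => π ^ pr b c i) *
          ((Matrix.diagonal fun i => π ^ (-pr b c i)) * h⁻¹.1.1) := by
        have e1 : (h * (y * x) * h⁻¹).1.1 = h.1.1 * (y.1.1 * x.1.1) * h⁻¹.1.1 := rfl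
        rw [e1]
        simp only [Matrix.mul_assoc]
        rw [← Matrix.mul_assoc (Matrix.diagonal fun i => π ^ pr b c i) (Matrix.diagonal fun i => π ^ (-pr b c i)) (y.1.1 * _), hD, one_mul,
          ← Matrix.mul_assoc (Matrix.diagonal fun i => π ^ pr b c i) (Matrix.diagonal fun i => π ^ (-pr b c i)) (x.1.1 * _), hD, one_mul,
          ← Matrix.mul_assoc (Matrix.diagonal fun i => π ^ pr b c i) (Matrix.diagonal fun i => π ^ (-pr b c i)) h⁻¹.1.1, hD, one_mul]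
      rw [e]
      exact ((hv1.mul hy).mul hx).mul hv2
  refine ⟨u'⁻¹, inv_mem hu', inv_mem huU, ?_⟩
  have e1 : h * (g * u'⁻¹⁻¹) * h⁻¹ = h * ((g * u) * (u⁻¹ * u')) * h⁻¹ := by group
  have e2 : (h * (g * u'⁻¹⁻¹) * h⁻¹)⁻¹ = h * ((u⁻¹ * u')⁻¹ * (g * u)⁻¹) * h⁻¹ := by group
  refine dc0_mem hlv.ne hlv.nv ?_ ?_ ?_
  · rw [inv_inv]
    exact hg_mul (hg_mul hlv.hh (hg_mul (dc0_hg hg) (dc0_hg hu'))) (hg_inv hlv.hh)
  · rw [e1]
    exact (key _ _ hI1 hl fun i j => (hc i j).1).1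
  · rw [e2]
    exact (key _ _ hI2 hl' fun i j => (hc i j).2).2

/-- **An eigenfunction of the double coset operator is an eigenfunction of `U_λ`.** -/
theorem dc_isU_of_isT {𝔫 : Ideal (𝓞 K)} {r s : ℕ} (hrs : 1 ≤ r + s) {c : b.support → ℤ} {π : K} {h : GK b K} (hlv : Lv b 𝔫 v r s c π h) {F : GR b K → ℂ} {θ : ℂ}
    (hF : ∀ γ ∈ Gam b 𝔫 v r s, ∀ x, F (γ * x) = F x) (hT : IsT b 𝔫 v r s h F θ) : IsU b 𝔫 v r s h F θ := by
  classical
  obtain ⟨S, hS1, hS2, hS3⟩ := hT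
  have key : ∀ w, ∃ u : GR b K, w ∈ S → u ∈ Gam b 𝔫 v r s ⊓ UR b K ∧ w * (emb b K h * u)⁻¹ ∈ Gam b 𝔫 v r s := by
    intro w
    by_cases hw : w ∈ S
    · obtain ⟨γ, hγ, γ', ⟨g, hg, rfl⟩, e⟩ := hS1 w hw
      obtain ⟨u, hu, huU, hm⟩ := dc_main hrs hlv hg
      refine ⟨emb b K u, fun _ => ⟨⟨⟨u, hu, rfl⟩, huU⟩, ?_⟩⟩
      have e1 : w * (emb b K h * emb b K u)⁻¹ = γ * emb b K (h * (g * u⁻¹) * h⁻¹) := by
        rw [e, map_mul, map_mul, map_mul, map_inv, map_inv]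
        group
      rw [e1]
      exact mul_mem hγ ⟨_, hm, rfl⟩
    · exact ⟨1, fun h => absurd h hw⟩
  choose f hf using key
  have huniq : ∀ w, InT b 𝔫 v r s h w → ∀ w1 ∈ S, ∀ w2 ∈ S, w * w1⁻¹ ∈ Gam b 𝔫 v r s → w * w2⁻¹ ∈ Gam b 𝔫 v r s → w1 = w2 := by
    intro w hw w1 h1 w2 h2 h3 h4
    obtain ⟨w', -, hw'⟩ := hS2 w hw
    rw [hw' w1 ⟨h1, h3⟩, hw' w2 ⟨h2, h4⟩]
  have hfw : ∀ w ∈ S, ∀ u ∈ Gam b 𝔫 v r s ⊓ UR b K, emb b K h * (u * (f w)⁻¹) * (emb b K h)⁻¹ ∈ Gam b 𝔫 v r s ↔ (emb b K h * u) * w⁻¹ ∈ Gam b 𝔫 v r s := by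
    intro w hw u _
    have h1 := (hf w hw).2
    have e : emb b K h * (u * (f w)⁻¹) * (emb b K h)⁻¹ = ((emb b K h * u) * w⁻¹) * (w * (emb b K h * f w)⁻¹) := by group
    rw [e]
    exact ⟨fun h2 => (Subgroup.mul_mem_cancel_right _ h1).1 h2, fun h2 => mul_mem h2 h1⟩
  have hint : ∀ u ∈ Gam b 𝔫 v r s ⊓ UR b K, InT b 𝔫 v r s h (emb b K h * u) := fun u hu => ⟨1, one_mem _, u, hu.1, by rw [one_mul]⟩
  have hinj : ∀ w1 ∈ S, ∀ w2 ∈ S, f w1 = f w2 → w1 = w2 := by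
    intro w1 h1 w2 h2 e
    refine huniq w1 (hS1 w1 h1) w1 h1 w2 h2 ?_ ?_
    · rw [mul_inv_cancel]
      exact one_mem _
    · have e1 : w1 * w2⁻¹ = (w1 * (emb b K h * f w1)⁻¹) * (w2 * (emb b K h * f w2)⁻¹)⁻¹ := by
        rw [e]
        group
      rw [e1]
      exact mul_mem (hf w1 h1).2 (inv_mem (hf w2 h2).2)
  refine ⟨S.image f, ?_, ?_, ?_⟩
  · intro u hu
    obtain ⟨w, hw, rfl⟩ := Finset.mem_image.1 hu
    exact (hf w hw).1
  · intro u hu
    obtain ⟨w, ⟨hw, hw1⟩, hw2⟩ := hS2 _ (hint u hu)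
    refine ⟨f w, ⟨Finset.mem_image_of_mem f hw, (hfw w hw u hu).2 hw1⟩, ?_⟩
    rintro y ⟨hy, hy'⟩
    obtain ⟨w', hw', rfl⟩ := Finset.mem_image.1 hy
    rw [hw2 w' ⟨hw', (hfw w' hw' u hu).1 hy'⟩]
  · intro x
    rw [Finset.sum_image (fun w1 h1 w2 h2 e => hinj w1 h1 w2 h2 e), ← hS3 x]
    refine Finset.sum_congr rfl fun w hw => ?_
    have e : w * x = (w * (emb b K h * f w)⁻¹) * (emb b K h * f w * x) := by group
    rw [e, hF _ (hf w hw).2]

end

end Pool.Agent.Lib.L1S
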