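import Pool.Agent.Lib.L1S.DC0

/-!
# L1S, DC1: a maximum principle at `v`
-/

namespace Pool.Agent.Lib.L1S

open MeasureTheory Matrix NumberField IsDedekindDomain Pool.Agent.Lib.H89N Pool.Agent.Lib.H33W

noncomputable section

set_option linter.unusedSectionVars false

variable {ι M N : Type} [Fintype ι] [DecidableEq ι] [AddCommGroup M] [Module ℚ M] [AddCommGroup N] [Module ℚ N]
  {P : RootPairing ι ℚ M N} [P.IsCrystallographic] [P.IsRootSystem] {b : P.Base}

variable {K : Type} [Field K] [NumberField K] {v : HeightOneSpectrum (𝓞 K)}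

/-- `g` of level `r, s` with `r + s ≥ 1`, the inverse integral at `v`; `x` supported on the heights `≥ k`. If the coordinates of `g x` of height `≥ k` are bounded by `B`, then `x` is bounded by `B`. -/
theorem dc1_max {r s : ℕ} (hrs : 1 ≤ r + s) {g g' : Matrix (I b) (I b) K} (hg : IwL b v r s g) (hg' : ∀ i j, v.valuation K (g' i j) ≤ 1) (h1 : g' * g = 1)
    (k : ℤ) (B : WithZero (Multiplicative ℤ)) (x : I b → K) (hx : ∀ j, ht b j < k → x j = 0) (hgx : ∀ j, k ≤ ht b j → v.valuation K ((g *ᵥ x) j) ≤ B) (j : I b) :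
    v.valuation K (x j) ≤ B := by
  have hne : (Finset.univ : Finset (I b)).Nonempty := ⟨j, Finset.mem_univ j⟩
  obtain ⟨i0, _, hi0⟩ := Finset.exists_max_image Finset.univ (fun i => v.valuation K (x i)) hne
  set m := v.valuation K (x i0) with hm
  have hmax : ∀ i, v.valuation K (x i) ≤ m := fun i => hi0 i (Finset.mem_univ i)
  refine (hmax j).trans ?_
  by_contra hB
  push Not at hB
  have hm0 : m ≠ 0 := (lt_of_le_of_lt zero_le hB).ne'
  have hlt : WithZero.exp (-1 : ℤ) * m < m := by
    have h2 : WithZero.exp (-1 : ℤ) < (1 : WithZero (Multiplicative ℤ)) := by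
      rw [← WithZero.exp_zero]
      exact WithZero.exp_lt_exp.2 (by norm_num)
    calc WithZero.exp (-1 : ℤ) * m < 1 * m := mul_lt_mul_of_pos_right h2 (zero_lt_iff.2 hm0)
      _ = m := one_mul m
  have hall : ∀ l, v.valuation K ((g *ᵥ x) l) ≤ max B (WithZero.exp (-1 : ℤ) * m) := by
    intro l
    by_cases hl : k ≤ ht b l
    · exact (hgx l hl).trans (le_max_left _ _)
    · refine le_trans ?_ (le_max_right _ _)
      push Not at hl
      rw [Matrix.mulVec, dotProduct]
      refine Valuation.map_sum_le _ fun i _ => ?_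
      rw [map_mul]
      by_cases hi : ht b i < k
      · rw [hx i hi, map_zero, mul_zero]
        exact zero_le
      · push Not at hi
        refine mul_le_mul' (((hg l i).2.1 (hl.trans_le hi)).trans ?_) (hmax i)
        exact WithZero.exp_le_exp.2 (by omega)
  have hlt2 : max B (WithZero.exp (-1 : ℤ) * m) < m := max_lt hB hlt
  have hx0 : x i0 = ∑ l, g' i0 l * (g *ᵥ x) l := by
    have h2 : (g' *ᵥ (g *ᵥ x)) i0 = x i0 := by
      rw [Matrix.mulVec_mulVec, h1, Matrix.one_mulVec]
    rw [← h2, Matrix.mulVec, dotProduct]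
  have h3 : m ≤ max B (WithZero.exp (-1 : ℤ) * m) := by
    have h4 : v.valuation K (∑ l, g' i0 l * (g *ᵥ x) l) ≤ max B (WithZero.exp (-1 : ℤ) * m) := by
      refine Valuation.map_sum_le _ fun l _ => ?_
      rw [map_mul]
      calc v.valuation K (g' i0 l) * v.valuation K ((g *ᵥ x) l) ≤ 1 * max B (WithZero.exp (-1 : ℤ) * m) := mul_le_mul' (hg' i0 l) (hall l)
        _ = _ := one_mul _
    rwa [← hx0] at h4
  exact absurd h3 (not_le.2 hlt2)

/-- A vector supported on the heights `≥ k` which `g` maps to a vector supported on the heights `< k` is zero. -/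
theorem dc1_zero {r s : ℕ} (hrs : 1 ≤ r + s) {g g' : Matrix (I b) (I b) K} (hg : IwL b v r s g) (hg' : ∀ i j, v.valuation K (g' i j) ≤ 1) (h1 : g' * g = 1)
    (k : ℤ) (x : I b → K) (hx : ∀ j, ht b j < k → x j = 0) (hgx : ∀ j, k ≤ ht b j → (g *ᵥ x) j = 0) : x = 0 := by
  funext j
  have h2 := dc1_max hrs hg hg' h1 k 0 x hx (fun j hj => by rw [hgx j hj, map_zero]) j
  rw [le_zero_iff, map_eq_zero] at h2
  exact h2

/-- If `g u⁻¹` weakly lowers the height, `u'` (= `u⁻¹`) raises it and is unipotent, then `u⁻¹` is integral at `v`. -/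
theorem dc1_int {r s : ℕ} (hrs : 1 ≤ r + s) {g g' u' : Matrix (I b) (I b) K} (hg : IwL b v r s g) (hg' : ∀ i j, v.valuation K (g' i j) ≤ 1) (h1 : g' * g = 1)
    (hu : ∀ i j, ht b i ≤ ht b j → u' i j = (1 : Matrix (I b) (I b) K) i j) (hl : ∀ i j, ht b j < ht b i → (g * u') i j = 0) (i j : I b) :
    v.valuation K (u' i j) ≤ 1 := by
  have hone := IwL.one (b := b) v r s
  set x : I b → K := fun i => (u' - 1) i j with hx
  have h2 : ∀ i, v.valuation K (x i) ≤ 1 := by
    refine dc1_max hrs hg hg' h1 (ht b j + 1) 1 x ?_ ?_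
    · intro l hl
      rw [hx]
      simp only
      rw [Matrix.sub_apply, hu l j (by omega), sub_self]
    · intro l hl'
      have e : (g *ᵥ x) l = (g * u') l j - g l j := by
        have e2 : (g *ᵥ x) l = (g * (u' - 1)) l j := by
          rw [Matrix.mul_apply, Matrix.mulVec, dotProduct]
        rw [e2, Matrix.mul_sub, Matrix.mul_one, Matrix.sub_apply]
      rw [e, hl l j (by omega), zero_sub, Valuation.map_neg]
      exact (hg l j).1
  have e : u' i j = x i + (1 : Matrix (I b) (I b) K) i j := by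
    rw [hx]
    simp
  rw [e]
  exact (Valuation.map_add _ _ _).trans (max_le (h2 i) (hone i j).1)

end

end Pool.Agent.Lib.L1S
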