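import Pool.Agent.Lib.L1S.DC0
import Pool.Agent.Lib.L1S.B1

/-!
# L1S, DC4: approximation at `v`
-/

namespace Pool.Agent.Lib.L1S

open MeasureTheory Matrix NumberField IsDedekindDomain Pool.Agent.Lib.H89N Pool.Agent.Lib.H33W

noncomputable section

set_option linter.unusedSectionVars false

variable {ι M N : Type} [Fintype ι] [DecidableEq ι] [AddCommGroup M] [Module ℚ M] [AddCommGroup N] [Module ℚ N]
  {P : RootPairing ι ℚ M N} [P.IsCrystallographic] [P.IsReduced] [P.IsIrreducible] [P.IsRootSystem]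

/-- An element which is integral at `v` is congruent to an element of `𝔫` modulo `v ^ L`. -/
theorem dc4_approx {K : Type} [Field K] [NumberField K] {v : HeightOneSpectrum (𝓞 K)} {𝔫 : Ideal (𝓞 K)} (hv : ¬𝔫 ≤ v.asIdeal) {x : K} (hx : v.valuation K x ≤ 1) (L : ℕ) :
    ∃ y : K, InI 𝔫 y ∧ v.valuation K (y - x) ≤ WithZero.exp (-(L : ℤ)) := by
  have hL0 : WithZero.exp (-(L : ℤ)) ≠ 0 := WithZero.exp_ne_zero
  obtain ⟨a, ha⟩ := v.exists_valuation_sub_lt_of_integer hx (Units.mk0 _ hL0)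
  rw [Units.val_mk0] at ha
  have hcop : 𝔫 ⊔ v.asIdeal ^ L = ⊤ := by
    have h1 : 𝔫 ⊔ v.asIdeal = ⊤ := by
      refine v.isMaximal.1.2 _ (lt_of_le_of_ne le_sup_right fun h => hv ?_)
      rw [h]
      exact le_sup_left
    have h2 : IsCoprime 𝔫 v.asIdeal := by
      rw [Ideal.isCoprime_iff_sup_eq]
      exact h1
    have h3 : IsCoprime 𝔫 (v.asIdeal ^ L) := h2.pow_right
    rwa [Ideal.isCoprime_iff_sup_eq] at h3
  obtain ⟨e, he, z, hz, hez⟩ := Submodule.mem_sup.1 ((Ideal.eq_top_iff_one _).1 hcop)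
  refine ⟨((e * a : 𝓞 K) : K), ⟨e * a, 𝔫.mul_mem_right _ he, rfl⟩, ?_⟩
  have e1 : ((e * a : 𝓞 K) : K) - x = ((a : K) - x) - ((z * a : 𝓞 K) : K) := by
    have : e = 1 - z := by rw [← hez]; ring
    rw [this]
    push_cast
    ring
  rw [e1]
  refine (Valuation.map_sub _ _ _).trans (max_le ha.le ?_)
  exact dc0_int ⟨z * a, Ideal.mul_mem_right _ _ hz, rfl⟩

theorem dc4_intCast {K : Type} [Field K] [NumberField K] (v : HeightOneSpectrum (𝓞 K)) (n : ℤ) : v.valuation K (n : K) ≤ 1 := by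
  have h := v.valuation_le_one (K := K) (n : 𝓞 K)
  have e : (algebraMap (𝓞 K) K) (n : 𝓞 K) = (n : K) := map_intCast _ _
  rw [← e]
  exact h

/-- The size of `x_β(t) - 1`. -/
theorem dc4_xx {b : P.Base} {K : Type} [Field K] [NumberField K] (v : HeightOneSpectrum (𝓞 K)) (β : ι) {t : K} {B : WithZero (Multiplicative ℤ)} (hB : B ≤ 1) (ht : v.valuation K t ≤ B) (i j : I b) :
    v.valuation K ((xx b β t - 1) i j) ≤ B := by
  have e : xx b β t - 1 = ∑ k ∈ Finset.range 3, t ^ (k + 1) • toA K (dvp (E b β) (k + 1)) := by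
    rw [xx, ex, Finset.sum_range_succ', pow_zero, one_smul, dvp_zero]
    have : toA K (1 : Matrix (I b) (I b) ℤ) = 1 := by
      ext i j
      by_cases h : i = j
      · subst h
        simp
      · simp [Matrix.one_apply_ne h]
    rw [this, add_sub_cancel_right]
  rw [e, Matrix.sum_apply]
  refine Valuation.map_sum_le _ fun k _ => ?_
  rw [Matrix.smul_apply, smul_eq_mul, map_mul, map_pow]
  have h1 : v.valuation K t ^ (k + 1) ≤ B := by
    rw [pow_succ]
    calc v.valuation K t ^ k * v.valuation K t ≤ 1 * B := mul_le_mul' (pow_le_one' (ht.trans hB) k) ht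
      _ = B := one_mul B
  calc v.valuation K t ^ (k + 1) * v.valuation K (toA K (dvp (E b β) (k + 1)) i j) ≤ B * 1 := mul_le_mul' h1 (dc4_intCast v _)
    _ = B := mul_one B

/-- `g`, `g⁻¹` integral at `v`. -/
def Gi (b : P.Base) {K : Type} [Field K] [NumberField K] (v : HeightOneSpectrum (𝓞 K)) (g : GK b K) : Prop := ∀ i j, v.valuation K (g.1.1 i j) ≤ 1 ∧ v.valuation K (g⁻¹.1.1 i j) ≤ 1

/-- `g`, `g⁻¹` congruent to `1` modulo `v ^ L`. -/
def Gc (b : P.Base) {K : Type} [Field K] [NumberField K] (v : HeightOneSpectrum (𝓞 K)) (L : ℕ) (g : GK b K) : Prop :=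
  ∀ i j, v.valuation K ((g.1.1 - 1) i j) ≤ WithZero.exp (-(L : ℤ)) ∧ v.valuation K ((g⁻¹.1.1 - 1) i j) ≤ WithZero.exp (-(L : ℤ))

section Loc

variable {b : P.Base} {K : Type} [Field K] [NumberField K] {v : HeightOneSpectrum (𝓞 K)}

theorem dc4_mul {X Y : Matrix (I b) (I b) K} {B C : WithZero (Multiplicative ℤ)} (hX : ∀ i j, v.valuation K (X i j) ≤ B) (hY : ∀ i j, v.valuation K (Y i j) ≤ C) (i j : I b) :
    v.valuation K ((X * Y) i j) ≤ B * C := by
  rw [Matrix.mul_apply]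
  refine Valuation.map_sum_le _ fun k _ => ?_
  rw [map_mul]
  exact mul_le_mul' (hX i k) (hY k j)

theorem Gi.one : Gi b v (1 : GK b K) := by
  intro i j
  have h := (IwL.one (b := b) (K := K) v 0 0 i j).1
  refine ⟨h, ?_⟩
  rw [inv_one]
  exact h

theorem Gi.mul {g h : GK b K} (hg : Gi b v g) (hh : Gi b v h) : Gi b v (g * h) := by
  intro i j
  constructor
  · have e : (g * h).1.1 = g.1.1 * h.1.1 := rfl
    rw [e]
    exact (dc4_mul (fun i j => (hg i j).1) (fun i j => (hh i j).1) i j).trans (le_of_eq (one_mul 1))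
  · have e : (g * h)⁻¹.1.1 = h⁻¹.1.1 * g⁻¹.1.1 := by
      rw [_root_.mul_inv_rev]
      rfl
    rw [e]
    exact (dc4_mul (fun i j => (hh i j).2) (fun i j => (hg i j).2) i j).trans (le_of_eq (one_mul 1))

theorem Gi.inv {g : GK b K} (hg : Gi b v g) : Gi b v g⁻¹ := by
  intro i j
  refine ⟨(hg i j).2, ?_⟩
  rw [inv_inv]
  exact (hg i j).1

theorem Gc.one (L : ℕ) : Gc b v L (1 : GK b K) := by
  intro i j
  have e : (1 : GK b K).1.1 - 1 = 0 := sub_self _
  refine ⟨?_, ?_⟩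
  · rw [e, Matrix.zero_apply, map_zero]
    exact zero_le
  · rw [inv_one, e, Matrix.zero_apply, map_zero]
    exact zero_le

theorem Gc.gi {L : ℕ} {g : GK b K} (hg : Gc b v L g) : Gi b v g := by
  have key : ∀ x : Matrix (I b) (I b) K, ∀ i j, v.valuation K ((x - 1) i j) ≤ WithZero.exp (-(L : ℤ)) → v.valuation K (x i j) ≤ 1 := by
    intro x i j h
    have e : x i j = (x - 1) i j + (1 : Matrix (I b) (I b) K) i j := by simp
    rw [e]
    exact (Valuation.map_add _ _ _).trans (max_le (h.trans (dc0_le_one v L)) (IwL.one (b := b) v 0 0 i j).1)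
  exact fun i j => ⟨key _ i j (hg i j).1, key _ i j (hg i j).2⟩

theorem Gc.inv {L : ℕ} {g : GK b K} (hg : Gc b v L g) : Gc b v L g⁻¹ := by
  intro i j
  refine ⟨(hg i j).2, ?_⟩
  rw [inv_inv]
  exact (hg i j).1

theorem Gc.mul {L : ℕ} {g h : GK b K} (hg : Gc b v L g) (hh : Gc b v L h) : Gc b v L (g * h) := by
  have key : ∀ x y : Matrix (I b) (I b) K, (∀ i j, v.valuation K ((x - 1) i j) ≤ WithZero.exp (-(L : ℤ))) → (∀ i j, v.valuation K ((y - 1) i j) ≤ WithZero.exp (-(L : ℤ))) →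
      (∀ i j, v.valuation K (y i j) ≤ 1) → ∀ i j, v.valuation K ((x * y - 1) i j) ≤ WithZero.exp (-(L : ℤ)) := by
    intro x y hx hy hy' i j
    have e : x * y - 1 = (x - 1) * y + (y - 1) := by
      rw [sub_mul, one_mul]
      abel
    rw [e, Matrix.add_apply]
    exact (Valuation.map_add _ _ _).trans (max_le ((dc4_mul hx hy' i j).trans (le_of_eq (mul_one _))) (hy i j))
  have hgi := hg.gi
  have hhi := hh.gi
  intro i j
  refine ⟨key _ _ (fun i j => (hg i j).1) (fun i j => (hh i j).1) (fun i j => (hhi i j).1) i j, ?_⟩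
  have e : (g * h)⁻¹.1.1 = h⁻¹.1.1 * g⁻¹.1.1 := by
    rw [_root_.mul_inv_rev]
    rfl
  rw [e]
  exact key _ _ (fun i j => (hh i j).2) (fun i j => (hg i j).2) (fun i j => (hgi i j).2) i j

theorem Gc.conj {L : ℕ} {g x : GK b K} (hg : Gi b v g) (hx : Gc b v L x) : Gc b v L (g⁻¹ * x * g) := by
  have e1 : g⁻¹.1.1 * g.1.1 = 1 := by
    have : (g⁻¹ * g).1.1 = 1 := by
      rw [inv_mul_cancel]
      rfl
    exact this
  have key : ∀ X : Matrix (I b) (I b) K, (∀ i j, v.valuation K ((X - 1) i j) ≤ WithZero.exp (-(L : ℤ))) → ∀ i j, v.valuation K ((g⁻¹.1.1 * X * g.1.1 - 1) i j) ≤ WithZero.exp (-(L : ℤ)) := by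
    intro X hX i j
    have e : g⁻¹.1.1 * X * g.1.1 - 1 = g⁻¹.1.1 * (X - 1) * g.1.1 := by rw [Matrix.mul_sub, Matrix.sub_mul, Matrix.mul_one, e1]
    rw [e]
    refine (dc4_mul (dc4_mul (fun i j => (hg i j).2) hX) (fun i j => (hg i j).1) i j).trans (le_of_eq ?_)
    rw [one_mul, mul_one]
  intro i j
  refine ⟨key _ (fun i j => (hx i j).1) i j, ?_⟩
  have e : (g⁻¹ * x * g)⁻¹.1.1 = g⁻¹.1.1 * x⁻¹.1.1 * g.1.1 := by
    have : (g⁻¹ * x * g)⁻¹ = g⁻¹ * x⁻¹ * g := by group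
    rw [this]
    rfl
  rw [e]
  exact key _ (fun i j => (hx i j).2) i j

theorem dc4_xK_gc (β : ι) {t : K} {L : ℕ} (ht : v.valuation K t ≤ WithZero.exp (-(L : ℤ))) : Gc b v L (b1x b K β t) := by
  intro i j
  refine ⟨dc4_xx v β (dc0_le_one v L) ht i j, ?_⟩
  rw [b1x_inv]
  refine dc4_xx v β (dc0_le_one v L) ?_ i j
  rwa [Valuation.map_neg]

theorem dc4_xK_gi (β : ι) {t : K} (ht : v.valuation K t ≤ 1) : Gi b v (b1x b K β t) := by
  have h1 : Gc b v 0 (b1x b K β t) := dc4_xK_gc β (by simpa using ht)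
  exact h1.gi

theorem dc4_xK_mem (β : ι) (hβ : 0 < b.height β) {𝔫 : Ideal (𝓞 K)} (r s : ℕ) {t : K} (hI : InI 𝔫 t) : b1x b K β t ∈ GamK b 𝔫 v r s := by
  have key : ∀ t : K, InI 𝔫 t → ∀ i j, InI 𝔫 ((xx b β t - 1) i j) ∧ (ht b i < ht b j → InI (v.asIdeal ^ (r + s)) (xx b β t i j)) ∧
      (ht b i = ht b j → InI (v.asIdeal ^ r) ((xx b β t - 1) i j)) := by
    intro t hI i j
    refine ⟨xx_InI b 𝔫 β hI i j, fun h => ?_, fun h => ?_⟩
    · rw [b1_ut b K β hβ t i j h.le, Matrix.one_apply_ne]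
      · exact InI.zero _
      · rintro rfl
        exact lt_irrefl _ h
    · rw [Matrix.sub_apply, b1_ut b K β hβ t i j h.le, sub_self]
      exact InI.zero _
  have hneg : InI 𝔫 (-t) := by
    obtain ⟨y, hy, rfl⟩ := hI
    exact ⟨-y, neg_mem hy, by simp⟩
  intro i j
  refine ⟨key t hI i j, ?_⟩
  rw [b1x_inv]
  exact key (-t) hneg i j

/-- The product of the `x_β(t_β)` over a list. -/
def pK (b : P.Base) (K : Type) [Field K] [NumberField K] (l : List ι) (t : ι → K) : GK b K := (l.map fun β => b1x b K β (t β)).prod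

theorem pK_coe (l : List ι) (t : ι → K) : (pK b K l t).1.1 = PL b l t := by
  induction l with
  | nil => rfl
  | cons β l ih =>
    have e1 : pK b K (β :: l) t = b1x b K β (t β) * pK b K l t := by
      unfold pK
      rw [List.map_cons, List.prod_cons]
    have e2 : PL b (β :: l) t = xx b β (t β) * PL b l t := by
      unfold PL
      rw [List.map_cons, List.prod_cons]
    rw [e1, e2, ← ih]
    rfl

/-- Approximation of `∏ x_β(t_β)`. -/
theorem dc4_list {𝔫 : Ideal (𝓞 K)} (hv : ¬𝔫 ≤ v.asIdeal) (r s L : ℕ) (l : List ι) (hl : ∀ β ∈ l, 0 < b.height β) (t : ι → K) (ht : ∀ β, v.valuation K (t β) ≤ 1) :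
    Gi b v (pK b K l t) ∧ ∃ u ∈ GamK b 𝔫 v r s, u ∈ HU b K ∧ Gc b v L ((pK b K l t)⁻¹ * u) := by
  induction l with
  | nil =>
    refine ⟨Gi.one, 1, one_mem _, one_mem _, ?_⟩
    have e : (pK b K [] t)⁻¹ * 1 = 1 := by
      rw [mul_one]
      exact inv_one
    rw [e]
    exact Gc.one L
  | cons β l ih =>
    obtain ⟨h1, u, hu, hu', h2⟩ := ih fun γ hγ => hl γ (List.mem_cons_of_mem _ hγ)
    obtain ⟨y, hy, hy'⟩ := dc4_approx hv (ht β) L
    have e1 : pK b K (β :: l) t = b1x b K β (t β) * pK b K l t := by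
      unfold pK
      rw [List.map_cons, List.prod_cons]
    have hβ := hl β List.mem_cons_self
    refine ⟨?_, b1x b K β y * u, mul_mem (dc4_xK_mem β hβ r s hy) hu, mul_mem (b1_pos b K β hβ y) hu', ?_⟩
    · rw [e1]
      exact (dc4_xK_gi β (ht β)).mul h1
    · have e2 : (pK b K (β :: l) t)⁻¹ * (b1x b K β y * u) = ((pK b K l t)⁻¹ * b1x b K β (y - t β) * pK b K l t) * ((pK b K l t)⁻¹ * u) := by
        have e3 : y - t β = -t β + y := by ring
        rw [e1, e3, b1x_add, ← b1x_inv]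
        group
      rw [e2]
      exact (Gc.conj h1 (dc4_xK_gc β hy')).mul h2

/-- Approximation of an element of `U(K)` which is integral at `v`. -/
theorem dc4_u {𝔫 : Ideal (𝓞 K)} (hv : ¬𝔫 ≤ v.asIdeal) (r s L : ℕ) {u : GK b K} (hu : u ∈ HU b K) (hi : ∀ i j, v.valuation K (u.1.1 i j) ≤ 1) :
    Gi b v u ∧ ∃ u' ∈ GamK b 𝔫 v r s, u' ∈ HU b K ∧ Gc b v L (u⁻¹ * u') := by
  have hJ : ∀ r c, (u.1.1 - 1) r c ∈ (v.valuation K).valuationSubring.toSubring.toAddSubgroup := by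
    intro r c
    show v.valuation K ((u.1.1 - 1) r c) ≤ 1
    rw [Matrix.sub_apply]
    exact (Valuation.map_sub _ _ _).trans (max_le (hi r c) (IwL.one (b := b) v 0 0 r c).1)
  obtain ⟨t, ht, e⟩ := prod_K b (v.valuation K).valuationSubring.toSubring (v.valuation K).valuationSubring.toSubring.toAddSubgroup (fun y hy => hy)
    (fun x hx y hy => mul_mem (S := Subring K) hx hy) hu hJ
  have e1 : u = pK b K (posL b) t := by
    apply Subtype.ext
    apply Units.ext
    rw [e]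
    exact (pK_coe _ _).symm
  rw [e1]
  exact dc4_list hv r s L (posL b) (fun β hβ => (posL_mem b β).1 hβ) t ht

end Loc

end

end Pool.Agent.Lib.L1S
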