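import Pool.Agent.Lib.L1S.DE1

/-!
# L1S, module DE: existence of the Hecke element `h` for every coweight `λ = ∑ c_j α_j^∨`

`λ(π)⁻¹ ∈ G(K)`: `m_j(s) m_j(1)⁻¹ = α_j^∨(s)`, first for squares, then over the algebraic closure. Then strong approximation (`de_sa`).
-/

namespace Pool.Agent.Lib.L1S

open MeasureTheory Matrix NumberField IsDedekindDomain Pool.Agent.Lib.H89N Pool.Agent.Lib.H33W

noncomputable section

set_option linter.unusedSectionVars false

variable {ι M N : Type} [Fintype ι] [DecidableEq ι] [AddCommGroup M] [Module ℚ M] [AddCommGroup N] [Module ℚ N]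
  {P : RootPairing ι ℚ M N} [P.IsCrystallographic] [P.IsReduced] [P.IsIrreducible] [P.IsRootSystem]

/-- `⟨β, α_j^∨⟩` for a weight `β` of the adjoint representation. -/
def pj (b : P.Base) (j : b.support) : I b → ℤ := Sum.elim (fun _ => 0) fun β => P.pairingIn ℤ β j

theorem de_pj (b : P.Base) (j : b.support) (r : I b) : ((pj b j r : ℤ) : ℚ) = P.coroot' j (wt b r) := by
  rcases r with i | β
  · change ((0 : ℤ) : ℚ) = P.coroot' j 0
    rw [map_zero, Int.cast_zero]
  · change ((P.pairingIn ℤ β j : ℤ) : ℚ) = P.coroot' j (P.root β)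
    rw [P.root_coroot'_eq_pairing, ← P.algebraMap_pairingIn ℤ]
    rfl

theorem de_pj_add {b : P.Base} {j : b.support} {r c : I b} (h : wt b r = wt b c + P.root j) : pj b j r = pj b j c + 2 := by
  have h1 : ((pj b j r : ℤ) : ℚ) = ((pj b j c : ℤ) : ℚ) + 2 := by
    rw [de_pj, de_pj, h, map_add, P.root_coroot'_eq_pairing, P.pairing_same]
  exact_mod_cast h1

theorem de_pj_sub {b : P.Base} {j : b.support} {r c : I b} (h : wt b r = wt b c + P.root (ng P j)) : pj b j r = pj b j c - 2 := by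
  have h1 : ((pj b j r : ℤ) : ℚ) = ((pj b j c : ℤ) : ℚ) - 2 := by
    rw [de_pj, de_pj, h, map_add, b2_root_neg, map_neg, P.root_coroot'_eq_pairing, P.pairing_same]
    ring
  exact_mod_cast h1

theorem de_pj_refl {b : P.Base} {j : b.support} {r c : I b} (h : wt b r = P.reflection j (wt b c)) : pj b j r = -pj b j c := by
  have h1 : ((pj b j r : ℤ) : ℚ) = -((pj b j c : ℤ) : ℚ) := by
    rw [de_pj, de_pj, h, P.reflection_apply, map_sub, map_smul, P.root_coroot'_eq_pairing, P.pairing_same, smul_eq_mul]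
    ring
  exact_mod_cast h1

section Field

variable (b : P.Base) {F : Type} [Field F] [CharZero F]

/-- The torus element `α_j^∨(s)`. -/
def tj (j : b.support) (s : F) : Matrix (I b) (I b) F := Matrix.diagonal fun r => s ^ pj b j r

theorem de_sq (j : b.support) (z : Fˣ) : (mG b j (z ^ 2)).1 = tj b j ((z : F) ^ 2) * (mG b j (1 : Fˣ)).1 := by
  have hz : (z : F) ≠ 0 := z.ne_zero
  set D := tj b j (z : F) with hD
  have h1 : ∀ t : F, D * xx b (j : ι) t = xx b (j : ι) ((z : F) ^ 2 * t) * D := by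
    intro t
    refine (DP_E b (j : ι)).conj (DP_E b (j : ι)) D ((z : F) ^ 2) t ?_
    ext r c
    rw [hD, tj, Matrix.diagonal_mul, Matrix.mul_diagonal, Matrix.smul_apply, smul_eq_mul]
    by_cases h : toA F (E b (j : ι)) r c = 0
    · rw [h]
      ring
    · have h2 : E b (j : ι) r c ≠ 0 := by
        intro h0
        apply h
        change ((E b (j : ι) r c : ℤ) : F) = 0
        rw [h0, Int.cast_zero]
      rw [de_pj_add (hasWt_E b (j : ι) r c h2), zpow_add₀ hz, zpow_ofNat]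
      ring
  have h2 : ∀ t : F, D * xx b (ng P j) t = xx b (ng P j) (((z : F) ^ 2)⁻¹ * t) * D := by
    intro t
    refine (DP_E b (ng P j)).conj (DP_E b (ng P j)) D (((z : F) ^ 2)⁻¹) t ?_
    ext r c
    rw [hD, tj, Matrix.diagonal_mul, Matrix.mul_diagonal, Matrix.smul_apply, smul_eq_mul]
    by_cases h : toA F (E b (ng P j)) r c = 0
    · rw [h]
      ring
    · have h2 : E b (ng P j) r c ≠ 0 := by
        intro h0
        apply h
        change ((E b (ng P j) r c : ℤ) : F) = 0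
        rw [h0, Int.cast_zero]
      rw [de_pj_sub (hasWt_E b (ng P j) r c h2), zpow_sub₀ hz, zpow_ofNat]
      ring
  have h3 : D * (mG b j (1 : Fˣ)).1 = (mG b j (z ^ 2)).1 * D := by
    have e1 : (mG b j (1 : Fˣ)).1 = xx b (j : ι) (1 : F) * xx b (ng P j) (-1 : F) * xx b (j : ι) (1 : F) := by
      rw [mG, inv_one]
      rfl
    have e2 : (mG b j (z ^ 2)).1 = xx b (j : ι) ((z : F) ^ 2) * xx b (ng P j) (-((z : F) ^ 2)⁻¹) * xx b (j : ι) ((z : F) ^ 2) := by
      have e3 : (((z ^ 2)⁻¹ : Fˣ) : F) = ((z : F) ^ 2)⁻¹ := by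
        rw [Units.val_inv_eq_inv_val, Units.val_pow_eq_pow_val]
      rw [← e3]
      rfl
    rw [e1, e2]
    calc D * (xx b (j : ι) (1 : F) * xx b (ng P j) (-1 : F) * xx b (j : ι) (1 : F))
        = (D * xx b (j : ι) (1 : F)) * xx b (ng P j) (-1 : F) * xx b (j : ι) (1 : F) := by simp only [Matrix.mul_assoc]
      _ = xx b (j : ι) ((z : F) ^ 2 * 1) * (D * xx b (ng P j) (-1 : F)) * xx b (j : ι) (1 : F) := by
        rw [h1]
        simp only [Matrix.mul_assoc]
      _ = xx b (j : ι) ((z : F) ^ 2 * 1) * xx b (ng P j) (((z : F) ^ 2)⁻¹ * -1) * (D * xx b (j : ι) (1 : F)) := by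
        rw [h2]
        simp only [Matrix.mul_assoc]
      _ = xx b (j : ι) ((z : F) ^ 2 * 1) * xx b (ng P j) (((z : F) ^ 2)⁻¹ * -1) * (xx b (j : ι) ((z : F) ^ 2 * 1) * D) := by rw [h1]
      _ = _ := by
        rw [mul_one, mul_neg, mul_one]
        simp only [Matrix.mul_assoc]
  have h4 : (mG b j (1 : Fˣ)).1 = D * (mG b j (1 : Fˣ)).1 * D := by
    ext r c
    rw [hD, tj, Matrix.mul_diagonal, Matrix.diagonal_mul]
    by_cases h : (mG b j (1 : Fˣ)).1 r c = 0
    · rw [h]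
      ring
    · rw [de_pj_refl (mG_over b j (1 : Fˣ) r c h), mul_comm ((z : F) ^ (-pj b j c)), mul_assoc, ← zpow_add₀ hz]
      simp
  have h5 : D * D = tj b j ((z : F) ^ 2) := by
    rw [hD, tj, tj, Matrix.diagonal_mul_diagonal]
    congr 1
    funext r
    rw [pow_two, mul_zpow]
  -- `m(z²) D = D m(1) = D (D m(1) D)`
  have h6 : (mG b j (z ^ 2)).1 * D = (tj b j ((z : F) ^ 2) * (mG b j (1 : Fˣ)).1) * D := by
    rw [← h3, ← h5]
    conv_lhs => rw [h4]
    simp only [Matrix.mul_assoc]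
  have hDD : D * tj b j ((z : F)⁻¹) = 1 := by
    rw [hD, tj, tj, Matrix.diagonal_mul_diagonal, ← Matrix.diagonal_one]
    congr 1
    funext r
    rw [_root_.inv_zpow, mul_inv_cancel₀ (zpow_ne_zero _ hz)]
  calc (mG b j (z ^ 2)).1 = (mG b j (z ^ 2)).1 * D * tj b j ((z : F)⁻¹) := by rw [Matrix.mul_assoc, hDD, Matrix.mul_one]
    _ = (tj b j ((z : F) ^ 2) * (mG b j (1 : Fˣ)).1) * D * tj b j ((z : F)⁻¹) := by rw [h6]
    _ = _ := by rw [Matrix.mul_assoc _ D, hDD, Matrix.mul_one]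

/-- **`m_j(s) = α_j^∨(s) m_j(1)`.** -/
theorem de_mG (j : b.support) (s : Fˣ) : (mG b j s).1 = tj b j (s : F) * (mG b j (1 : Fˣ)).1 := by
  set f : F →+* AlgebraicClosure F := algebraMap F (AlgebraicClosure F) with hf
  obtain ⟨z, hz⟩ := IsAlgClosed.exists_pow_nat_eq (f (s : F)) (n := 2) (by norm_num)
  have hs : f (s : F) ≠ 0 := by
    rw [ne_eq, map_eq_zero]
    exact s.ne_zero
  have hz0 : z ≠ 0 := by
    rintro rfl
    apply hs
    rw [← hz]
    norm_num
  have h1 := de_sq (F := AlgebraicClosure F) b j (Units.mk0 z hz0)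
  have e1 : Units.mk0 z hz0 ^ 2 = Units.map f.toMonoidHom s := Units.ext hz
  rw [e1, Units.val_mk0, hz] at h1
  have hmap : ∀ s : Fˣ, (mG b j s).1.map f = (mG b j (Units.map f.toMonoidHom s)).1 := by
    intro s
    have e2 : (mG b j s).1 = xx b (j : ι) (s : F) * xx b (ng P j) (-((s⁻¹ : Fˣ) : F)) * xx b (j : ι) (s : F) := rfl
    have e3 : (mG b j (Units.map f.toMonoidHom s)).1 = xx b (j : ι) (f (s : F)) * xx b (ng P j) (f (-((s⁻¹ : Fˣ) : F))) * xx b (j : ι) (f (s : F)) := by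
      rw [map_neg]
      rfl
    rw [e2, e3, Matrix.map_mul, Matrix.map_mul, xx_map, xx_map]
  have h2 : (mG b j s).1.map f = (tj b j (s : F) * (mG b j (1 : Fˣ)).1).map f := by
    have e4 : (tj b j (s : F)).map f = tj b j (f (s : F)) := by
      unfold tj
      rw [Matrix.diagonal_map (map_zero f)]
      congr 1
      funext r
      exact map_zpow₀ f _ _
    rw [Matrix.map_mul, hmap, hmap, e4, map_one]
    exact h1
  ext r c
  exact f.injective (congrFun (congrFun h2 r) c)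

end Field

variable {b : P.Base} {K : Type} [Field K] [NumberField K] {v : HeightOneSpectrum (𝓞 K)}

/-- `α_j^∨(s) ∈ G(K)`. -/
theorem de_tj (j : b.support) (s : Kˣ) : ∃ d : GK b K, d.1.1 = tj b j (s : K) := by
  refine ⟨b1m b K j s * (b1m b K j 1)⁻¹, ?_⟩
  have e1 : (b1m b K j s * (b1m b K j 1)⁻¹).1.1 = (mG b j s).1 * (mG b j (1 : Kˣ))⁻¹.1 := rfl
  rw [e1, de_mG b j s, Matrix.mul_assoc]
  have e2 : (mG b j (1 : Kˣ)).1 * (mG b j (1 : Kˣ))⁻¹.1 = 1 := (mG b j (1 : Kˣ)).mul_inv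
  rw [e2, Matrix.mul_one]

/-- `λ(s)⁻¹ ∈ G(K)`. -/
theorem de_lam (c : b.support → ℤ) (s : Kˣ) : ∃ d : GK b K, d.1.1 = Matrix.diagonal fun r => (s : K) ^ (-pr b c r) := by
  have key : ∀ S : Finset b.support, ∃ d : GK b K, d.1.1 = Matrix.diagonal fun r => (s : K) ^ (-∑ j ∈ S, c j * pj b j r) := by
    intro S
    induction S using Finset.induction_on with
    | empty =>
      refine ⟨1, ?_⟩
      simp
    | insert j S hj ih =>
      obtain ⟨d, hd⟩ := ih
      obtain ⟨d', hd'⟩ := de_tj (b := b) j (s ^ (-c j))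
      refine ⟨d' * d, ?_⟩
      have e : (d' * d).1.1 = d'.1.1 * d.1.1 := rfl
      rw [e, hd, hd', tj, Matrix.diagonal_mul_diagonal]
      congr 1
      funext r
      rw [Finset.sum_insert hj, neg_add, zpow_add₀ s.ne_zero, Units.val_zpow_eq_zpow_val, ← _root_.zpow_mul]
      congr 2
      ring
  obtain ⟨d, hd⟩ := key Finset.univ
  refine ⟨d, ?_⟩
  rw [hd]
  congr 1
  funext r
  congr 1
  congr 1
  rcases r with i | β
  · simp [pj, pr]
  · rfl

/-- **Existence of the Hecke element** `h ∈ HG 𝔫 v`, `h ∈ Γ_v λ(π)⁻¹`, for every coweight `λ = ∑ c_j α_j^∨`. -/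
theorem exists_h {𝔫 : Ideal (𝓞 K)} (hv : ¬𝔫 ≤ v.asIdeal) (r s : ℕ) (c : b.support → ℤ) {π : K} (hπ : v.valuation K π = WithZero.exp (-1 : ℤ)) :
    ∃ h ∈ HG b 𝔫 v, AtV b v r s π c h := by
  have hπ0 : π ≠ 0 := by
    rintro rfl
    rw [map_zero] at hπ
    exact WithZero.exp_ne_zero hπ.symm
  obtain ⟨d, hd⟩ := de_lam (b := b) c (Units.mk0 π hπ0)
  rw [Units.val_mk0] at hd
  obtain ⟨h, hh, hc⟩ := de_sa hv d (r + s)
  have hd' : d⁻¹.1.1 = Matrix.diagonal fun i => π ^ pr b c i := by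
    have e1 : d.1.1 * (Matrix.diagonal fun i => π ^ pr b c i) = 1 := by
      rw [hd, Matrix.diagonal_mul_diagonal, ← Matrix.diagonal_one]
      congr 1
      funext i
      rw [_root_.zpow_neg, inv_mul_cancel₀ (zpow_ne_zero _ hπ0)]
    have e2 : d⁻¹.1.1 * d.1.1 = 1 := by
      have : (d⁻¹ * d).1.1 = 1 := by
        rw [inv_mul_cancel]
        rfl
      exact this
    calc d⁻¹.1.1 = d⁻¹.1.1 * (d.1.1 * Matrix.diagonal fun i => π ^ pr b c i) := by rw [e1, Matrix.mul_one]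
      _ = _ := by rw [← Matrix.mul_assoc, e2, Matrix.one_mul]
  have key : ∀ x : Matrix (I b) (I b) K, (∀ i j, v.valuation K ((x - 1) i j) ≤ WithZero.exp (-((r + s : ℕ) : ℤ))) → IwL b v r s x := by
    intro x hx
    refine IwL.of_cong fun i j => ?_
    have h1 := hx i j
    push_cast at h1
    exact h1
  refine ⟨h, hh, ?_, ?_⟩
  · have e : h.1.1 * (Matrix.diagonal fun i => π ^ pr b c i) = (h * d⁻¹).1.1 := by
      rw [← hd']
      rfl
    rw [e]
    exact key _ fun i j => (hc i j).1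
  · have e : (Matrix.diagonal fun i => π ^ (-pr b c i)) * h⁻¹.1.1 = (h * d⁻¹)⁻¹.1.1 := by
      have e1 : (h * d⁻¹)⁻¹ = d * h⁻¹ := by group
      rw [e1, ← hd]
      rfl
    rw [e]
    exact key _ fun i j => (hc i j).2

end

end Pool.Agent.Lib.L1S
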