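import Pool.Agent.Lib.L1S.DC4

/-!
# L1S, DE1: strong approximation for `G(K)`

Every element of `G(K)` can be approximated at `v` by elements of `HG 𝔫 v`.
-/

namespace Pool.Agent.Lib.L1S

open MeasureTheory Matrix NumberField IsDedekindDomain Pool.Agent.Lib.H89N Pool.Agent.Lib.H33W

noncomputable section

set_option linter.unusedSectionVars false

variable {ι M N : Type} [Fintype ι] [DecidableEq ι] [AddCommGroup M] [Module ℚ M] [AddCommGroup N] [Module ℚ N]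
  {P : RootPairing ι ℚ M N} [P.IsCrystallographic] [P.IsReduced] [P.IsIrreducible] [P.IsRootSystem]

variable {b : P.Base} {K : Type} [Field K] [NumberField K] {v : HeightOneSpectrum (𝓞 K)}

/-- A power of `v` is principal. -/
theorem de_principal (v : HeightOneSpectrum (𝓞 K)) : ∃ (h : ℕ) (p : 𝓞 K), 0 < h ∧ p ≠ 0 ∧ v.asIdeal ^ h = Ideal.span {p} := by
  have hne : v.asIdeal ≠ ⊥ := v.ne_bot
  have hmem : v.asIdeal ∈ nonZeroDivisors (Ideal (𝓞 K)) := mem_nonZeroDivisors_of_ne_zero hne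
  have h1 : ClassGroup.mk0 (⟨v.asIdeal, hmem⟩ ^ Fintype.card (ClassGroup (𝓞 K))) = 1 := by
    rw [map_pow, pow_card_eq_one]
  rw [ClassGroup.mk0_eq_one_iff] at h1
  obtain ⟨p, hp⟩ := h1.principal
  refine ⟨Fintype.card (ClassGroup (𝓞 K)), p, Fintype.card_pos, ?_, hp⟩
  rintro rfl
  have h2 : v.asIdeal ^ Fintype.card (ClassGroup (𝓞 K)) = ⊥ := by
    have h3 : ((⟨v.asIdeal, hmem⟩ ^ Fintype.card (ClassGroup (𝓞 K)) : nonZeroDivisors (Ideal (𝓞 K))) : Ideal (𝓞 K)) = v.asIdeal ^ Fintype.card (ClassGroup (𝓞 K)) := rfl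
    rw [← h3, hp]
    simp
  exact pow_ne_zero _ hne h2

theorem de_exp (v : HeightOneSpectrum (𝓞 K)) (x : K) : ∃ n : ℕ, v.valuation K x ≤ WithZero.exp (n : ℤ) := by
  by_cases h : x = 0
  · exact ⟨0, by rw [h, map_zero]; exact zero_le⟩
  · have h1 : v.valuation K x ≠ 0 := by rwa [ne_eq, map_eq_zero]
    refine ⟨(WithZero.log (v.valuation K x)).natAbs, ?_⟩
    rw [← WithZero.exp_log h1]
    refine WithZero.exp_le_exp.2 ?_
    rw [WithZero.exp_log h1]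
    exact Int.le_natAbs

theorem de_exp' (v : HeightOneSpectrum (𝓞 K)) {x : K} (h : x ≠ 0) : ∃ n : ℕ, WithZero.exp (-(n : ℤ)) ≤ v.valuation K x := by
  obtain ⟨n, hn⟩ := de_exp v x⁻¹
  refine ⟨n, ?_⟩
  have h1 : v.valuation K x ≠ 0 := by rwa [ne_eq, map_eq_zero]
  rw [map_inv₀] at hn
  calc WithZero.exp (-(n : ℤ)) = (WithZero.exp (n : ℤ))⁻¹ := WithZero.exp_neg _
    _ ≤ ((v.valuation K x)⁻¹)⁻¹ := by
      refine inv_anti₀ ?_ hn
      exact zero_lt_iff.2 (inv_ne_zero h1)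
    _ = _ := inv_inv _

/-- Every `t ∈ K` can be approximated at `v` by elements of `𝔫[1/v]`. -/
theorem de_approx {𝔫 : Ideal (𝓞 K)} (hv : ¬𝔫 ≤ v.asIdeal) (t : K) (L : ℕ) : ∃ t' : K, (∃ l, Den 𝔫 v l t') ∧ v.valuation K (t' - t) ≤ WithZero.exp (-(L : ℤ)) := by
  obtain ⟨h, p, hh, hp0, hp⟩ := de_principal v
  obtain ⟨n, hn⟩ := de_exp v t
  have hp0' : (p : K) ≠ 0 := by
    intro h
    apply hp0
    have h1 : (algebraMap (𝓞 K) K) p = (algebraMap (𝓞 K) K) 0 := by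
      rw [map_zero]
      exact h
    exact FaithfulSMul.algebraMap_injective (𝓞 K) K h1
  have hpow : ((p : K) ^ n) ≠ 0 := pow_ne_zero n hp0'
  have hvp : v.valuation K (p : K) ≤ WithZero.exp (-1 : ℤ) := by
    have h1 : p ∈ v.asIdeal ^ h := by
      rw [hp]
      exact Ideal.mem_span_singleton_self p
    have h2 := dc0_int (v := v) (n := h) ⟨p, h1, rfl⟩
    refine h2.trans (WithZero.exp_le_exp.2 ?_)
    omega
  have hint : v.valuation K ((p : K) ^ n * t) ≤ 1 := by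
    rw [map_mul, map_pow]
    calc v.valuation K (p : K) ^ n * v.valuation K t ≤ WithZero.exp (-1 : ℤ) ^ n * WithZero.exp (n : ℤ) := mul_le_mul' (pow_le_pow_left' hvp n) hn
      _ = 1 := by
        rw [← WithZero.exp_nsmul, ← WithZero.exp_add, ← WithZero.exp_zero]
        congr 1
        simp
  obtain ⟨m, hm⟩ := de_exp' v hpow
  obtain ⟨y, hy, hy'⟩ := dc4_approx hv hint (L + m)
  refine ⟨y / (p : K) ^ n, ⟨h * n, ?_⟩, ?_⟩
  · intro x hx
    rw [pow_mul, hp, Ideal.span_singleton_pow, Ideal.mem_span_singleton'] at hx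
    obtain ⟨a, rfl⟩ := hx
    obtain ⟨z, hz, rfl⟩ := hy
    refine ⟨a * z, 𝔫.mul_mem_left _ hz, ?_⟩
    push_cast
    field_simp
  · have e : y / (p : K) ^ n - t = (y - (p : K) ^ n * t) / (p : K) ^ n := by
      field_simp
    rw [e, map_div₀]
    have h1 : v.valuation K ((p : K) ^ n) ≠ 0 := by rwa [ne_eq, map_eq_zero]
    rw [div_le_iff₀ (zero_lt_iff.2 h1)]
    calc v.valuation K (y - (p : K) ^ n * t) ≤ WithZero.exp (-((L + m : ℕ) : ℤ)) := hy'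
      _ = WithZero.exp (-(L : ℤ)) * WithZero.exp (-(m : ℤ)) := by
        rw [← WithZero.exp_add]
        congr 1
        push_cast
        ring
      _ ≤ _ := mul_le_mul' le_rfl hm

theorem de_xx {𝔫 : Ideal (𝓞 K)} (β : ι) {t : K} {l : ℕ} (ht : Den 𝔫 v l t) (i j : I b) : Den 𝔫 v (3 * l) ((xx b β t - 1) i j) := by
  have e : xx b β t - 1 = ∑ k ∈ Finset.range 3, t ^ (k + 1) • toA K (dvp (E b β) (k + 1)) := by
    rw [xx, ex, Finset.sum_range_succ', pow_zero, one_smul, dvp_zero]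
    have : toA K (1 : Matrix (I b) (I b) ℤ) = 1 := by
      ext i j
      by_cases h : i = j
      · subst h
        simp
      · simp [Matrix.one_apply_ne h]
    rw [this, add_sub_cancel_right]
  have hpow : ∀ k : ℕ, Den 𝔫 v ((k + 1) * l) (t ^ (k + 1)) := by
    intro k
    induction k with
    | zero =>
      rw [zero_add, pow_one, one_mul]
      exact ht
    | succ k ih =>
      rw [pow_succ, add_mul (k + 1) 1 l, one_mul]
      exact (ih.mul ht).le Ideal.mul_le_right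
  rw [e, Matrix.sum_apply]
  refine Den.sum _ fun k hk => ?_
  rw [Matrix.smul_apply, smul_eq_mul]
  have h1 : Den ⊤ v 0 (toA K (dvp (E b β) (k + 1)) i j) := by
    have h2 := Den.of_int (v := v) (𝔫 := ⊤) (a := ((dvp (E b β) (k + 1) i j : ℤ) : 𝓞 K)) Submodule.mem_top 0
    have h3 : (((dvp (E b β) (k + 1) i j : ℤ) : 𝓞 K) : K) = toA K (dvp (E b β) (k + 1)) i j := map_intCast (algebraMap (𝓞 K) K) _
    rwa [h3] at h2
  have h2 := d3_den_mul' (hpow k) h1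
  refine h2.mono ?_
  have h3 := Finset.mem_range.1 hk
  rw [add_zero]
  exact Nat.mul_le_mul_right l h3

theorem de_hg {𝔫 : Ideal (𝓞 K)} (β : ι) {t : K} {l : ℕ} (ht : Den 𝔫 v l t) : b1x b K β t ∈ HG b 𝔫 v := by
  refine ⟨3 * l, fun i j => ⟨de_xx β ht i j, ?_⟩⟩
  rw [b1x_inv]
  refine de_xx β ?_ i j
  intro x hx
  obtain ⟨y, hy, e⟩ := ht x hx
  exact ⟨-y, neg_mem hy, by rw [mul_neg, e]; simp⟩

theorem de_bound (v : HeightOneSpectrum (𝓞 K)) (X : Matrix (I b) (I b) K) : ∃ B : ℕ, ∀ i j, v.valuation K (X i j) ≤ WithZero.exp (B : ℤ) := by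
  choose n hn using fun i j => de_exp v (X i j)
  refine ⟨∑ i, ∑ j, n i j, fun i j => (hn i j).trans (WithZero.exp_le_exp.2 (Int.ofNat_le.2 ?_))⟩
  exact (Finset.single_le_sum (f := fun j => n i j) (fun _ _ => Nat.zero_le _) (Finset.mem_univ j)).trans
    (Finset.single_le_sum (f := fun i => ∑ j, n i j) (fun _ _ => Nat.zero_le _) (Finset.mem_univ i))

/-- Conjugation by an arbitrary element. -/
theorem de_conj (v : HeightOneSpectrum (𝓞 K)) (d : GK b K) : ∃ B : ℕ, ∀ (L : ℕ) (x : GK b K), Gc b v (L + B) x → Gc b v L (d * x * d⁻¹) ∧ Gc b v L (d⁻¹ * x * d) := by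
  obtain ⟨B1, hB1⟩ := de_bound v d.1.1
  obtain ⟨B2, hB2⟩ := de_bound v d⁻¹.1.1
  refine ⟨B1 + B2, fun L x hx => ?_⟩
  have e1 : d.1.1 * d⁻¹.1.1 = 1 := by
    have : (d * d⁻¹).1.1 = 1 := by
      rw [mul_inv_cancel]
      rfl
    exact this
  have e2 : d⁻¹.1.1 * d.1.1 = 1 := by
    have : (d⁻¹ * d).1.1 = 1 := by
      rw [inv_mul_cancel]
      rfl
    exact this
  have hB : WithZero.exp (B1 : ℤ) * WithZero.exp (-((L + (B1 + B2) : ℕ) : ℤ)) * WithZero.exp (B2 : ℤ) = WithZero.exp (-(L : ℤ)) := by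
    rw [← WithZero.exp_add, ← WithZero.exp_add]
    congr 1
    push_cast
    ring
  have hB' : WithZero.exp (B2 : ℤ) * WithZero.exp (-((L + (B1 + B2) : ℕ) : ℤ)) * WithZero.exp (B1 : ℤ) = WithZero.exp (-(L : ℤ)) := by
    rw [← WithZero.exp_add, ← WithZero.exp_add]
    congr 1
    push_cast
    ring
  have key1 : ∀ X : Matrix (I b) (I b) K, (∀ i j, v.valuation K ((X - 1) i j) ≤ WithZero.exp (-((L + (B1 + B2) : ℕ) : ℤ))) → ∀ i j, v.valuation K ((d.1.1 * X * d⁻¹.1.1 - 1) i j) ≤ WithZero.exp (-(L : ℤ)) := by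
    intro X hX i j
    have e : d.1.1 * X * d⁻¹.1.1 - 1 = d.1.1 * (X - 1) * d⁻¹.1.1 := by rw [Matrix.mul_sub, Matrix.sub_mul, Matrix.mul_one, e1]
    rw [e]
    exact (dc4_mul (dc4_mul hB1 hX) hB2 i j).trans (le_of_eq hB)
  have key2 : ∀ X : Matrix (I b) (I b) K, (∀ i j, v.valuation K ((X - 1) i j) ≤ WithZero.exp (-((L + (B1 + B2) : ℕ) : ℤ))) → ∀ i j, v.valuation K ((d⁻¹.1.1 * X * d.1.1 - 1) i j) ≤ WithZero.exp (-(L : ℤ)) := by
    intro X hX i j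
    have e : d⁻¹.1.1 * X * d.1.1 - 1 = d⁻¹.1.1 * (X - 1) * d.1.1 := by rw [Matrix.mul_sub, Matrix.sub_mul, Matrix.mul_one, e2]
    rw [e]
    exact (dc4_mul (dc4_mul hB2 hX) hB1 i j).trans (le_of_eq hB')
  refine ⟨fun i j => ⟨key1 _ (fun i j => (hx i j).1) i j, ?_⟩, fun i j => ⟨key2 _ (fun i j => (hx i j).1) i j, ?_⟩⟩
  · have e : (d * x * d⁻¹)⁻¹.1.1 = d.1.1 * x⁻¹.1.1 * d⁻¹.1.1 := by
      have : (d * x * d⁻¹)⁻¹ = d * x⁻¹ * d⁻¹ := by group
      rw [this]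
      rfl
    rw [e]
    exact key1 _ (fun i j => (hx i j).2) i j
  · have e : (d⁻¹ * x * d)⁻¹.1.1 = d⁻¹.1.1 * x⁻¹.1.1 * d.1.1 := by
      have : (d⁻¹ * x * d)⁻¹ = d⁻¹ * x⁻¹ * d := by group
      rw [this]
      rfl
    rw [e]
    exact key2 _ (fun i j => (hx i j).2) i j

/-- The element `d` can be approximated at `v` by elements of `HG`. -/
def SAp (b : P.Base) {K : Type} [Field K] [NumberField K] (𝔫 : Ideal (𝓞 K)) (v : HeightOneSpectrum (𝓞 K)) (d : GK b K) : Prop := ∀ L : ℕ, ∃ h ∈ HG b 𝔫 v, Gc b v L (h * d⁻¹)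

/-- **Strong approximation.** -/
theorem de_sa {𝔫 : Ideal (𝓞 K)} (hv : ¬𝔫 ≤ v.asIdeal) (d : GK b K) : SAp b 𝔫 v d := by
  have hx : ∀ (β : ι) (t : K), SAp b 𝔫 v (b1x b K β t) := by
    intro β t L
    obtain ⟨t', ⟨l, ht'⟩, hL⟩ := de_approx hv t L
    refine ⟨b1x b K β t', de_hg β ht', ?_⟩
    rw [b1x_inv, ← b1x_add, ← sub_eq_add_neg]
    exact dc4_xK_gc β hL
  have key : ∀ (x : GL (I b) K) (hx : x ∈ GQ b K), SAp b 𝔫 v ⟨x, hx⟩ := by
    intro x hx0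
    have hx1 := hx0
    rw [GQ_eq] at hx1
    revert hx0
    induction hx1 using Subgroup.closure_induction with
    | mem x h =>
      intro _
      obtain ⟨i, t, rfl | rfl⟩ := h
      · exact hx i t
      · exact hx (ng P i) t
    | one =>
      intro _ L
      refine ⟨1, dc0_hg (r := 0) (s := 0) (one_mem _), ?_⟩
      have e : (1 : GK b K) * (⟨1, one_mem _⟩ : GK b K)⁻¹ = 1 := by
        rw [one_mul]
        exact inv_one
      rw [e]
      exact Gc.one L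
    | mul x y hx1 hy1 ihx ihy =>
      rw [← GQ_eq] at hx1 hy1
      intro hxy L
      obtain ⟨B, hB⟩ := de_conj v (⟨x, hx1⟩ : GK b K)
      obtain ⟨h1, hh1, hc1⟩ := ihx hx1 L
      obtain ⟨h2, hh2, hc2⟩ := ihy hy1 (L + B)
      refine ⟨h1 * h2, hg_mul hh1 hh2, ?_⟩
      have e0 : (⟨x * y, hxy⟩ : GK b K) = ⟨x, hx1⟩ * ⟨y, hy1⟩ := rfl
      have e : h1 * h2 * (⟨x * y, hxy⟩ : GK b K)⁻¹ = (h1 * (⟨x, hx1⟩ : GK b K)⁻¹) * ((⟨x, hx1⟩ : GK b K) * (h2 * (⟨y, hy1⟩ : GK b K)⁻¹) * (⟨x, hx1⟩ : GK b K)⁻¹) := by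
        rw [e0]
        group
      rw [e]
      exact hc1.mul (hB L _ hc2).1
    | inv x hx1 ihx =>
      rw [← GQ_eq] at hx1
      intro hxi L
      obtain ⟨B, hB⟩ := de_conj v (⟨x, hx1⟩ : GK b K)
      obtain ⟨h1, hh1, hc1⟩ := ihx hx1 (L + B)
      refine ⟨h1⁻¹, hg_inv hh1, ?_⟩
      have e0 : (⟨x⁻¹, hxi⟩ : GK b K) = (⟨x, hx1⟩ : GK b K)⁻¹ := rfl
      have e : h1⁻¹ * (⟨x⁻¹, hxi⟩ : GK b K)⁻¹ = ((⟨x, hx1⟩ : GK b K)⁻¹ * (h1 * (⟨x, hx1⟩ : GK b K)⁻¹) * (⟨x, hx1⟩ : GK b K))⁻¹ := by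
        rw [e0]
        group
      rw [e]
      exact (hB L _ hc1).2.inv
  exact key d.1 d.2

end

end Pool.Agent.Lib.L1S
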