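import Pool.Agent.Lib.H33W.Stm

/-!
# L1S: definitions for the density theorem for the globally generic spectrum of every split simple group

`P` is an irreducible reduced crystallographic root system with base `b`; all matrices are indexed by `b.support ⊕ ι` (`ι` the set of roots): this is the adjoint representation of Geck's construction of the
simple Lie algebra of `P` (`RootPairing.GeckConstruction`), with the Chevalley generators `e_i`, `f_i`. `EE K = K ⊗ ℝ`, `Den`, `ee` are the definitions of `Pool.Agent.Lib.H89N.Stm` and `Pool.Agent.Lib.H33W.Stm`.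
-/

namespace Pool.Agent.Lib.L1S

open MeasureTheory Matrix NumberField IsDedekindDomain Pool.Agent.Lib.H89N Pool.Agent.Lib.H33W

noncomputable section

variable {ι M N : Type} [Fintype ι] [DecidableEq ι] [AddCommGroup M] [Module ℚ M] [AddCommGroup N] [Module ℚ N]
  {P : RootPairing ι ℚ M N} [P.IsCrystallographic]

/-- The indices of the adjoint representation: one for each simple root (the zero weight) and one for each root. -/
abbrev I (b : P.Base) : Type := b.support ⊕ ι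

/-- The height of a weight of the adjoint representation. -/
def ht (b : P.Base) : I b → ℤ := Sum.elim (fun _ => 0) b.height

/-- The Chevalley generator `e_i` (Geck's matrix) over `K`. -/
def eM (b : P.Base) (K : Type) [Field K] [CharZero K] (i : b.support) : Matrix (I b) (I b) K :=
  (RootPairing.GeckConstruction.e i).map (algebraMap ℚ K)

/-- The Chevalley generator `f_i` (Geck's matrix) over `K`. -/
def fM (b : P.Base) (K : Type) [Field K] [CharZero K] (i : b.support) : Matrix (I b) (I b) K :=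
  (RootPairing.GeckConstruction.f i).map (algebraMap ℚ K)

/-- **The group `G(K)`**: the subgroup of `GL(K)` generated by the `exp(t e_i)` and the `exp(t f_i)`, `t ∈ K` (the image in the adjoint group of the `K`-points of the simply connected split group). -/
def GQ (b : P.Base) (K : Type) [Field K] [CharZero K] : Subgroup (GL (I b) K) :=
  Subgroup.closure {g | ∃ (i : b.support) (t : K), g.1 = IsNilpotent.exp (t • eM b K i) ∨ g.1 = IsNilpotent.exp (t • fM b K i)}

/-- `G(K)` as a type. -/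
abbrev GK (b : P.Base) (K : Type) [Field K] [CharZero K] : Type := ↥(GQ b K)

/-- The embedding `GL(K) → GL(K ⊗ ℝ)`. -/
def embGL (b : P.Base) (K : Type) [Field K] [NumberField K] : GL (I b) K →* GL (I b) (EE K) :=
  GeneralLinearGroup.map (mixedEmbedding K)

/-- **The Lie group `G(K ⊗ ℝ)`**: the closure of `G(K)` in `GL(K ⊗ ℝ)`. -/
def GE (b : P.Base) (K : Type) [Field K] [NumberField K] : Subgroup (GL (I b) (EE K)) :=
  ((GQ b K).map (embGL b K)).topologicalClosure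

/-- `G(K ⊗ ℝ)` as a type. -/
abbrev GR (b : P.Base) (K : Type) [Field K] [NumberField K] : Type := ↥(GE b K)

instance (b : P.Base) (K : Type) [Field K] [NumberField K] : MeasurableSpace (GR b K) := borel _

instance (b : P.Base) (K : Type) [Field K] [NumberField K] : BorelSpace (GR b K) := ⟨rfl⟩

/-- The embedding `G(K) → G(K ⊗ ℝ)`. -/
def emb (b : P.Base) (K : Type) [Field K] [NumberField K] : GK b K →* GR b K where
  toFun g := ⟨embGL b K g.1, Subgroup.le_topologicalClosure _ ⟨g.1, g.2, rfl⟩⟩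
  map_one' := Subtype.ext (by simp)
  map_mul' g h := Subtype.ext (by simp)

/-- **The unipotent group** `U`: the elements of `G(K ⊗ ℝ)` for which `g - 1` raises the height. -/
def UR (b : P.Base) (K : Type) [Field K] [NumberField K] : Subgroup (GR b K) where
  carrier := {g | ∀ r c, ht b r ≤ ht b c → g.1.1 r c = (1 : Matrix (I b) (I b) (EE K)) r c ∧ g⁻¹.1.1 r c = (1 : Matrix (I b) (I b) (EE K)) r c}
  one_mem' := fun r c _ => by simp
  mul_mem' := by
    intro g h hg hh r c hrc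
    have key : ∀ g h : Matrix (I b) (I b) (EE K), (∀ r c, ht b r ≤ ht b c → g r c = (1 : Matrix (I b) (I b) (EE K)) r c) →
        (∀ r c, ht b r ≤ ht b c → h r c = (1 : Matrix (I b) (I b) (EE K)) r c) → ∀ r c, ht b r ≤ ht b c → (g * h) r c = (1 : Matrix (I b) (I b) (EE K)) r c := by
      intro g h hg hh r c hrc
      rw [Matrix.mul_apply, Finset.sum_eq_single r]
      · rw [hg r r le_rfl, hh r c hrc, Matrix.one_apply_eq, one_mul]
      · intro k _ hk
        by_cases h1 : ht b r ≤ ht b k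
        · rw [hg r k h1, Matrix.one_apply_ne hk.symm, zero_mul]
        · have h2 : ht b k ≤ ht b c := (not_le.1 h1).le.trans hrc
          by_cases h3 : k = c
          · subst h3
            exact absurd hrc h1
          · rw [hh k c h2, Matrix.one_apply_ne h3, mul_zero]
      · intro h
        exact absurd (Finset.mem_univ r) h
    refine ⟨?_, ?_⟩
    · exact key _ _ (fun r c h => (hg r c h).1) (fun r c h => (hh r c h).1) r c hrc
    · have e : (g * h)⁻¹.1.1 = h⁻¹.1.1 * g⁻¹.1.1 := by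
        rw [_root_.mul_inv_rev]
        rfl
      rw [e]
      exact key _ _ (fun r c h => (hh r c h).2) (fun r c h => (hg r c h).2) r c hrc
  inv_mem' := by
    intro g hg r c hrc
    refine ⟨(hg r c hrc).2, ?_⟩
    rw [inv_inv]
    exact (hg r c hrc).1

instance (b : P.Base) (K : Type) [Field K] [NumberField K] : MeasurableSpace (UR b K) := borel _

instance (b : P.Base) (K : Type) [Field K] [NumberField K] : BorelSpace (UR b K) := ⟨rfl⟩

/-- `x ∈ 𝔞`. -/
def InI {K : Type} [Field K] [NumberField K] (𝔞 : Ideal (𝓞 K)) (x : K) : Prop := ∃ y ∈ 𝔞, (y : K) = x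

theorem InI.add {K : Type} [Field K] [NumberField K] {𝔞 : Ideal (𝓞 K)} {x y : K} (hx : InI 𝔞 x) (hy : InI 𝔞 y) : InI 𝔞 (x + y) := by
  obtain ⟨a, ha, rfl⟩ := hx
  obtain ⟨c, hc, rfl⟩ := hy
  exact ⟨a + c, 𝔞.add_mem ha hc, by simp⟩

theorem InI.zero {K : Type} [Field K] [NumberField K] (𝔞 : Ideal (𝓞 K)) : InI 𝔞 (0 : K) := ⟨0, 𝔞.zero_mem, by simp⟩

theorem InI.sum {K : Type} [Field K] [NumberField K] {𝔞 : Ideal (𝓞 K)} {α : Type} (s : Finset α) (f : α → K) (h : ∀ k ∈ s, InI 𝔞 (f k)) : InI 𝔞 (∑ k ∈ s, f k) := by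
  classical
  induction s using Finset.induction_on with
  | empty => simpa using InI.zero 𝔞
  | insert a s ha ih =>
    rw [Finset.sum_insert ha]
    exact (h a (Finset.mem_insert_self _ _)).add (ih fun k hk => h k (Finset.mem_insert_of_mem hk))

theorem InI.mul {K : Type} [Field K] [NumberField K] {𝔞 : Ideal (𝓞 K)} {x y : K} (hx : InI 𝔞 x) (hy : InI ⊤ y) : InI 𝔞 (x * y) := by
  obtain ⟨a, ha, rfl⟩ := hx
  obtain ⟨c, _, rfl⟩ := hy
  exact ⟨a * c, 𝔞.mul_mem_right _ ha, by simp⟩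

theorem InI.mul' {K : Type} [Field K] [NumberField K] {𝔞 : Ideal (𝓞 K)} {x y : K} (hx : InI ⊤ x) (hy : InI 𝔞 y) : InI 𝔞 (x * y) := by
  rw [mul_comm]
  exact hy.mul hx

theorem InI.top {K : Type} [Field K] [NumberField K] {𝔞 : Ideal (𝓞 K)} {x : K} (hx : InI 𝔞 x) : InI ⊤ x := by
  obtain ⟨a, _, rfl⟩ := hx
  exact ⟨a, Submodule.mem_top, rfl⟩

/-- The matrices which are congruent to `1` modulo `𝔫`, with the entries below the diagonal (of the height grading) in `𝔩` and the diagonal blocks congruent to `1` modulo `𝔡`, are closed under multiplication. -/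
theorem congr_mul {n : Type} [Fintype n] [DecidableEq n] (hh : n → ℤ) {K : Type} [Field K] [NumberField K] (𝔫 𝔩 𝔡 : Ideal (𝓞 K)) (hld : 𝔩 ≤ 𝔡) (g h : Matrix n n K)
    (hg : ∀ r c, InI 𝔫 ((g - 1) r c) ∧ (hh r < hh c → InI 𝔩 (g r c)) ∧ (hh r = hh c → InI 𝔡 ((g - 1) r c)))
    (hk : ∀ r c, InI 𝔫 ((h - 1) r c) ∧ (hh r < hh c → InI 𝔩 (h r c)) ∧ (hh r = hh c → InI 𝔡 ((h - 1) r c))) :
    ∀ r c, InI 𝔫 ((g * h - 1) r c) ∧ (hh r < hh c → InI 𝔩 ((g * h) r c)) ∧ (hh r = hh c → InI 𝔡 ((g * h - 1) r c)) := by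
  have int : ∀ a : Matrix n n K, (∀ r c, InI 𝔫 ((a - 1) r c)) → ∀ r c, InI ⊤ (a r c) := by
    intro a ha r c
    have e : a r c = (a - 1) r c + (1 : Matrix n n K) r c := by simp
    rw [e]
    refine (ha r c).top.add ?_
    by_cases h : r = c
    · subst h
      rw [Matrix.one_apply_eq]
      exact ⟨1, Submodule.mem_top, by simp⟩
    · rw [Matrix.one_apply_ne h]
      exact InI.zero _
  have mono : ∀ {x : K}, InI 𝔩 x → InI 𝔡 x := fun ⟨y, hy, e⟩ => ⟨y, hld hy, e⟩
  have ig := int g fun r c => (hg r c).1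
  have ih := int h fun r c => (hk r c).1
  have e : g * h - 1 = (g - 1) * h + (h - 1) := by
    rw [sub_mul, one_mul]
    abel
  intro r c
  refine ⟨?_, ?_, ?_⟩
  · rw [e, Matrix.add_apply, Matrix.mul_apply]
    exact (InI.sum _ _ fun k _ => (hg r k).1.mul (ih k c)).add (hk r c).1
  · intro hrc
    rw [Matrix.mul_apply]
    refine InI.sum _ _ fun k _ => ?_
    by_cases h1 : hh r < hh k
    · exact ((hg r k).2.1 h1).mul (ih k c)
    · exact (ig r k).mul' ((hk k c).2.1 ((not_lt.1 h1).trans_lt hrc))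
  · intro hrc
    rw [e, Matrix.add_apply, Matrix.mul_apply]
    refine (InI.sum _ _ fun k _ => ?_).add ((hk r c).2.2 hrc)
    rcases lt_trichotomy (hh r) (hh k) with h1 | h1 | h1
    · have hrk : r ≠ k := by
        rintro rfl
        exact absurd h1 (lt_irrefl _)
      have e1 : (g - 1) r k = g r k := by rw [Matrix.sub_apply, Matrix.one_apply_ne hrk, sub_zero]
      rw [e1]
      exact (mono ((hg r k).2.1 h1)).mul (ih k c)
    · exact ((hg r k).2.2 h1).mul (ih k c)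
    · exact (hg r k).1.top.mul' (mono ((hk k c).2.1 (h1.trans_le hrc.le)))

/-- The elements `g` of `G(K)` with `g`, `g⁻¹` congruent to `1` modulo `𝔫` (entries of `g - 1`, `g⁻¹ - 1` in `𝔫`), lower entries (those which lower the height) in `v ^ (r + s)`, diagonal blocks congruent to `1` modulo `v ^ r`
(`r = 0`, `s = 1`: Iwahori level at `v`). -/
def GamK (b : P.Base) {K : Type} [Field K] [NumberField K] (𝔫 : Ideal (𝓞 K)) (v : HeightOneSpectrum (𝓞 K)) (r s : ℕ) : Subgroup (GK b K) where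
  carrier := {g | ∀ i j, (InI 𝔫 ((g.1.1 - 1) i j) ∧ (ht b i < ht b j → InI (v.asIdeal ^ (r + s)) (g.1.1 i j)) ∧ (ht b i = ht b j → InI (v.asIdeal ^ r) ((g.1.1 - 1) i j))) ∧
    (InI 𝔫 ((g⁻¹.1.1 - 1) i j) ∧ (ht b i < ht b j → InI (v.asIdeal ^ (r + s)) (g⁻¹.1.1 i j)) ∧ (ht b i = ht b j → InI (v.asIdeal ^ r) ((g⁻¹.1.1 - 1) i j)))}
  one_mem' := by
    intro i j
    have e : (1 : GK b K)⁻¹.1.1 = 1 := by rw [inv_one]; rfl
    have e0 : (1 : GK b K).1.1 = 1 := rfl
    rw [e, e0, sub_self]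
    have key : InI 𝔫 ((0 : Matrix (I b) (I b) K) i j) ∧ (ht b i < ht b j → InI (v.asIdeal ^ (r + s)) ((1 : Matrix (I b) (I b) K) i j)) ∧
        (ht b i = ht b j → InI (v.asIdeal ^ r) ((0 : Matrix (I b) (I b) K) i j)) := by
      refine ⟨InI.zero _, fun h => ?_, fun _ => InI.zero _⟩
      have hij : i ≠ j := by
        rintro rfl
        exact absurd h (lt_irrefl _)
      rw [Matrix.one_apply_ne hij]
      exact InI.zero _
    exact ⟨key, key⟩
  mul_mem' := by
    intro g h hg hh i j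
    have e : (g * h)⁻¹.1.1 = h⁻¹.1.1 * g⁻¹.1.1 := by
      rw [_root_.mul_inv_rev]
      rfl
    have e0 : (g * h).1.1 = g.1.1 * h.1.1 := rfl
    have hld : v.asIdeal ^ (r + s) ≤ v.asIdeal ^ r := Ideal.pow_le_pow_right (Nat.le_add_right r s)
    rw [e, e0]
    exact ⟨congr_mul (ht b) 𝔫 _ _ hld _ _ (fun i j => (hg i j).1) (fun i j => (hh i j).1) i j,
      congr_mul (ht b) 𝔫 _ _ hld _ _ (fun i j => (hh i j).2) (fun i j => (hg i j).2) i j⟩
  inv_mem' := by
    intro g hg i j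
    rw [inv_inv]
    exact ⟨(hg i j).2, (hg i j).1⟩

/-- **The arithmetic group** `Γ`: the image of `GamK 𝔫 v r s` in `G(K ⊗ ℝ)`. -/
def Gam (b : P.Base) {K : Type} [Field K] [NumberField K] (𝔫 : Ideal (𝓞 K)) (v : HeightOneSpectrum (𝓞 K)) (r s : ℕ) : Subgroup (GR b K) :=
  (GamK b 𝔫 v r s).map (emb b K)

/-- `Γ ∩ U` as a subgroup of `U`. -/
def GamU (b : P.Base) {K : Type} [Field K] [NumberField K] (𝔫 : Ideal (𝓞 K)) (v : HeightOneSpectrum (𝓞 K)) (r s : ℕ) : Subgroup (UR b K) :=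
  (Gam b 𝔫 v r s).subgroupOf (UR b K)

/-- The value `⟨β, λ⟩` of the coweight `λ = ∑ c_j α_j^∨` on a weight of the adjoint representation. -/
def pr (b : P.Base) (c : b.support → ℤ) : I b → ℤ := Sum.elim (fun _ => 0) fun β => ∑ j, c j * P.pairingIn ℤ β j

/-- The positive roots. -/
def Pos (b : P.Base) : Finset ι := Finset.univ.filter fun β => 0 < b.height β

/-- `Φ_i`: the positive roots which contain the simple root `α_i`. -/
def Phi [P.IsRootSystem] (b : P.Base) (i : b.support) : Finset ι :=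
  Finset.univ.filter fun β => 0 < b.toWeightBasis.repr (P.root β) i

/-- `w Φ_i = - Φ_j` for some element `w` of the Weyl group. -/
def Opp [P.IsRootSystem] (b : P.Base) (i j : b.support) : Prop :=
  ∃ w ∈ Subgroup.closure (Set.range P.reflectionPerm), ∀ β, β ∈ Phi b i ↔ P.reflectionPerm (w β) (w β) ∈ Phi b j

/-- The elements `g` of `G(K)` over `𝓞[1/v]` with `g ≡ 1` modulo `𝔫` (`𝔫` prime to `v`). -/
def HG (b : P.Base) {K : Type} [Field K] [NumberField K] (𝔫 : Ideal (𝓞 K)) (v : HeightOneSpectrum (𝓞 K)) : Set (GK b K) :=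
  {g | ∃ j, ∀ r c, Den 𝔫 v j ((g.1.1 - 1) r c) ∧ Den 𝔫 v j ((g⁻¹.1.1 - 1) r c)}

/-- The matrices over the localisation at `v` with the lower entries in `v ^ (r + s)` and diagonal blocks congruent to `1` modulo `v ^ r`. -/
def IwL (b : P.Base) {K : Type} [Field K] [NumberField K] (v : HeightOneSpectrum (𝓞 K)) (r s : ℕ) (g : Matrix (I b) (I b) K) : Prop :=
  ∀ i j, v.valuation K (g i j) ≤ 1 ∧ (ht b i < ht b j → v.valuation K (g i j) ≤ WithZero.exp (-((r : ℤ) + s))) ∧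
    (ht b i = ht b j → v.valuation K ((g - 1) i j) ≤ WithZero.exp (-(r : ℤ)))

/-- `h ∈ Γ_v λ(π)⁻¹`, `Γ_v` the group of level `r, s` at `v`, `π` a uniformiser. -/
def AtV (b : P.Base) {K : Type} [Field K] [NumberField K] (v : HeightOneSpectrum (𝓞 K)) (r s : ℕ) (π : K) (c : b.support → ℤ) (h : GK b K) : Prop :=
  IwL b v r s (h.1.1 * Matrix.diagonal fun i => π ^ pr b c i) ∧ IwL b v r s ((Matrix.diagonal fun i => π ^ (-pr b c i)) * h⁻¹.1.1)

/-- `F` is an eigenfunction with the eigenvalue `θ` of the operator `U_λ`: `∑ F (h u x) = θ F (x)`, the sum over `u ∈ (Γ_U ∩ h⁻¹ Γ h) \ Γ_U`, `Γ_U = Γ ∩ U`. -/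
def IsU (b : P.Base) {K : Type} [Field K] [NumberField K] (𝔫 : Ideal (𝓞 K)) (v : HeightOneSpectrum (𝓞 K)) (r s : ℕ) (h : GK b K) (F : GR b K → ℂ) (θ : ℂ) : Prop :=
  ∃ S : Finset (GR b K), (∀ w ∈ S, w ∈ Gam b 𝔫 v r s ⊓ UR b K) ∧
    (∀ u ∈ Gam b 𝔫 v r s ⊓ UR b K, ∃! w, w ∈ S ∧ emb b K h * (u * w⁻¹) * (emb b K h)⁻¹ ∈ Gam b 𝔫 v r s) ∧
    ∀ x, ∑ w ∈ S, F (emb b K h * w * x) = θ * F x

/-- The coordinate `c_i(u)` of `u ∈ U` at the simple root `α_i`. -/
def cU (b : P.Base) {K : Type} [Field K] [NumberField K] (i : b.support) (u : GR b K) : EE K := u.1.1 (Sum.inl i) (Sum.inr (P.reflectionPerm i i))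

/-- The character `ψ(u) = e(∑ θ_i(c_i(u)))` of `U`. -/
def psi (b : P.Base) {K : Type} [Field K] [NumberField K] (θ : b.support → (EE K →ₗ[ℝ] ℝ)) (u : UR b K) : ℂ := ee (∑ i, θ i (cU b i u.1))

/-- `ψ` is trivial on `U ∩ Γ(𝔫)` and nondegenerate: `θ_i(𝔫) ⊆ ℤ`, `θ_i ≠ 0`. -/
def Gen (b : P.Base) {K : Type} [Field K] [NumberField K] (𝔫 : Ideal (𝓞 K)) (θ : b.support → (EE K →ₗ[ℝ] ℝ)) : Prop :=
  ∀ i, θ i ≠ 0 ∧ ∀ z ∈ 𝔫, ∃ m : ℤ, θ i (mixedEmbedding K (z : K)) = m

/-- **The Whittaker coefficient** of `F` at `x`: the mean value of `F (u x) ψ(u)⁻¹` over `Γ_U \ U` (`D` a fundamental domain). -/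
def Wh (b : P.Base) {K : Type} [Field K] [NumberField K] (ν : Measure (UR b K)) (D : Set (UR b K)) (θ : b.support → (EE K →ₗ[ℝ] ℝ)) (F : GR b K → ℂ) (x : GR b K) : ℂ :=
  ⨍ u in D, F (u.1 * x) * star (psi b θ u) ∂ν

/-- The torus element `a = exp A`: the diagonal matrix with the entries `exp(A(β))` (`1` on the zero weight space). -/
def dg (b : P.Base) (K : Type) [Field K] [NumberField K] (A : M →ₗ[ℚ] ℝ) : Matrix (I b) (I b) (EE K) :=
  Matrix.diagonal (Sum.elim (fun _ => 1) fun β => algebraMap ℝ (EE K) (Real.exp (A (P.root β))))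

/-- `x ∈ U a Ω`. -/
def InRange (b : P.Base) {K : Type} [Field K] [NumberField K] (Ω : Set (GL (I b) (EE K))) (A : M →ₗ[ℚ] ℝ) (x : GR b K) : Prop :=
  ∃ u ∈ UR b K, ∃ ω ∈ Ω, x.1.1 = u.1.1 * dg b K A * ω.1

/-- Continuous functions in `L²(Γ \ G)` (`D` a fundamental domain) which are eigenfunctions of the convolution operator of `φ` with eigenvalue at least one in absolute value: `∫ F (x y) φ (y) dy = c F (x)`, `|c| ≥ 1`. -/
structure Aut (b : P.Base) {K : Type} [Field K] [NumberField K] (𝔫 : Ideal (𝓞 K)) (v : HeightOneSpectrum (𝓞 K)) (r s : ℕ) (μ : Measure (GR b K)) (D : Set (GR b K)) (φ F : GR b K → ℂ) : Prop where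
  cont : Continuous F
  inv : ∀ γ ∈ Gam b 𝔫 v r s, ∀ x, F (γ * x) = F x
  l2 : MemLp F 2 (μ.restrict D)
  eig : ∃ c : ℂ, 1 ≤ ‖c‖ ∧ ∀ x, ∫ y, F (x * y) * φ y ∂μ = c * F x

/-- **The statement**: mean square Ramanujan bound for the globally generic spectrum of the split simple group of type `P` over `K`. -/
def Density [P.IsRootSystem] (b : P.Base) (K : Type) [Field K] [NumberField K] : Prop :=
  ∀ (μ : Measure (GR b K)) [μ.IsHaarMeasure] (φ : GR b K → ℂ), Continuous φ → HasCompactSupport φ →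
    ∀ Ω : Set (GL (I b) (EE K)), IsCompact Ω → ∃ C : ℝ, ∀ (v : HeightOneSpectrum (𝓞 K)) (𝔫 : Ideal (𝓞 K)), 𝔫 ≠ ⊥ → ¬𝔫 ≤ v.asIdeal → ∀ r s : ℕ,
    ∀ c : b.support → ℤ, (∀ i : b.support, 0 ≤ pr b c (Sum.inr i)) →
    (∀ i j, Opp b i j → (Ideal.absNorm v.asIdeal : ℝ) ^ (∑ β ∈ Phi b i, pr b c (Sum.inr β) + ∑ β ∈ Phi b j, pr b c (Sum.inr β) - ((r : ℤ) + s) * (Phi b i).card) ≤
      (Ideal.absNorm 𝔫 : ℝ) ^ (((Phi b i).card : ℤ) + ∑ β ∈ Phi b i, b.height β + ∑ β ∈ Phi b j, b.height β)) →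
    ∀ π : K, v.valuation K π = WithZero.exp (-1 : ℤ) → ∀ h ∈ HG b 𝔫 v, AtV b v r s π c h →
    ∀ θ : b.support → (EE K →ₗ[ℝ] ℝ), Gen b 𝔫 θ →
    ∀ A : M →ₗ[ℚ] ℝ, (∀ i : b.support, Real.log (Ideal.absNorm 𝔫) ≤ Module.finrank ℚ K * A (P.root i)) → ∀ x, InRange b Ω A x →
    ∀ (ν : Measure (UR b K)) [ν.IsHaarMeasure] (D' : Set (UR b K)), IsFundamentalDomain (GamU b 𝔫 v r s) D' ν →
    ∀ D : Set (GR b K), IsFundamentalDomain (Gam b 𝔫 v r s) D μ →
    ∀ (m : ℕ) (F : Fin m → GR b K → ℂ) (t : Fin m → ℂ), (∀ l, Aut b 𝔫 v r s μ D φ (F l)) →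
    (∀ l k, ∫ x in D, star (F l x) * F k x ∂μ = if l = k then 1 else 0) →
    (∀ l, IsU b 𝔫 v r s h (F l) (t l)) →
    ∑ l, ‖t l‖ ^ 2 * ‖Wh b ν D' θ (F l) x‖ ^ 2 ≤
      C * (Ideal.absNorm v.asIdeal : ℝ) ^ (∑ β ∈ Pos b, pr b c (Sum.inr β)) *
        ∏ β ∈ Pos b, Real.exp (Module.finrank ℚ K * A (P.root β)) / (Ideal.absNorm 𝔫 : ℝ)

end

end Pool.Agent.Lib.L1S
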