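import Pool.Agent.Lib.L1S.L10

/-! # L1S, module L1, chunk L101 (S): divided powers of an integral matrix, the exponential -/

namespace Pool.Agent.Lib.L1S

open Matrix

noncomputable section

variable {n : Type} [Fintype n] [DecidableEq n] {A B : Type} [CommRing A] [CommRing B] {X Y : Matrix n n ℤ}

/-- `X ^ 0 / 0! = 1`. -/
theorem dvp_zero (X : Matrix n n ℤ) : dvp X 0 = 1 := by
  ext r c
  simp [dvp]

theorem dvp_one (X : Matrix n n ℤ) : dvp X 1 = X := by
  ext r c
  simp [dvp]

/-- PROOF: entrywise `Int.mul_ediv_cancel'`, `h.dvd`. -/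
theorem DP.fact (h : DP X) (k : ℕ) : (k.factorial : ℤ) • dvp X k = X ^ k := by
  ext r c
  rw [Matrix.smul_apply, smul_eq_mul]
  exact Int.mul_ediv_cancel' (h.dvd k r c)

/-- PROOF: `X ^ k = X ^ 4 * X ^ (k - 4) = 0`. -/
theorem DP.dvp_four (h : DP X) {k : ℕ} (hk : 4 ≤ k) : dvp X k = 0 := by
  have h1 : X ^ k = 0 := by
    have h2 : k = 4 + (k - 4) := by omega
    rw [h2, pow_add, h.pow4, zero_mul]
  ext r c
  simp [dvp, h1]

/-- PROOF: multiply by `j! k!` (not zero, matrices over `ℤ` are torsion free): `j! k! (dvp j * dvp k) = X ^ (j + k) = (j + k)! dvp (j + k)` and `(j + k)! = choose * j! * k!`. -/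
theorem DP.mul (h : DP X) (j k : ℕ) : dvp X j * dvp X k = ((j + k).choose j : ℤ) • dvp X (j + k) := by
  have h1 : ((j.factorial : ℤ) * (k.factorial : ℤ)) • (dvp X j * dvp X k) =
      ((j.factorial : ℤ) * (k.factorial : ℤ)) • (((j + k).choose j : ℤ) • dvp X (j + k)) := by
    have e1 : ((j.factorial : ℤ) * (k.factorial : ℤ)) • (dvp X j * dvp X k) = X ^ (j + k) := by
      rw [pow_add, ← h.fact j, ← h.fact k, smul_mul_smul_comm]
    have e2 : (j.factorial : ℤ) * (k.factorial : ℤ) * ((j + k).choose j : ℤ)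
        = ((j + k).factorial : ℤ) := by
      have := Nat.add_choose_mul_factorial_mul_factorial j k
      rw [← Nat.choose_symm_add] at this
      have h3 : ((((j + k).choose j * j.factorial * k.factorial : ℕ)) : ℤ)
          = (((j + k).factorial : ℕ) : ℤ) := by rw [this]
      push_cast at h3
      linear_combination h3
    rw [e1, smul_smul, e2, h.fact]
  have h0 : (j.factorial : ℤ) * (k.factorial : ℤ) ≠ 0 := by
    have := j.factorial_ne_zero
    have := k.factorial_ne_zero
    positivity
  ext r c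
  have h2 := congrFun (congrFun h1 r) c
  rw [Matrix.smul_apply, Matrix.smul_apply, smul_eq_mul, smul_eq_mul] at h2
  exact mul_left_cancel₀ h0 h2

theorem ex_zero (X : Matrix n n ℤ) : ex X (0 : A) = 1 := by
  unfold ex
  rw [Finset.sum_eq_single 0]
  · rw [pow_zero, one_smul, dvp_zero]
    exact Matrix.map_one _ Int.cast_zero Int.cast_one
  · intro k _ hk
    rw [zero_pow hk, zero_smul]
  · intro h
    exact absurd (Finset.mem_range.mpr (by norm_num)) h

theorem l101_toA_mul (h : DP X) (j k : ℕ) : toA A (dvp X j) * toA A (dvp X k) =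
    ((j + k).choose j : A) • toA A (dvp X (j + k)) := by
  have h1 := congrArg (fun Z : Matrix n n ℤ => Z.map (Int.castRingHom A)) (h.mul j k)
  simp only [Matrix.map_mul] at h1
  have h2 : toA A (dvp X j) * toA A (dvp X k) =
      (((j + k).choose j : ℤ) • dvp X (j + k)).map (Int.castRingHom A) := h1
  rw [h2]
  ext r c
  rw [Matrix.map_apply, Matrix.smul_apply, Matrix.smul_apply]
  show ((((j + k).choose j : ℤ) * dvp X (j + k) r c : ℤ) : A) = ((j + k).choose j : A) *
    ((dvp X (j + k) r c : ℤ) : A)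
  push_cast
  rfl

theorem l101_toA_four (h : DP X) {k : ℕ} (hk : 4 ≤ k) : toA A (dvp X k) = 0 := by
  rw [h.dvp_four hk]
  exact Matrix.map_zero _ Int.cast_zero

theorem l101_toA_zero (X : Matrix n n ℤ) : toA A (dvp X 0) = 1 := by
  rw [dvp_zero]
  exact Matrix.map_one _ Int.cast_zero Int.cast_one

/-- PROOF: `ex X t = ∑ k in range m, t ^ k • toA A (dvp X k)` for every `m ≥ 4` (`dvp_four`). The product of the sums over `range 4 × range 4` is, by `DP.mul`, the sum of `s ^ j t ^ k choose (j + k) j dvp (j + k)`;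
the terms with `j + k ≥ 4` vanish; for the other terms `add_pow` (or write the finitely many terms out with `Finset.sum_range_succ` and `simp`, `ring_nf`/`module`). -/
theorem DP.ex_add (h : DP X) (s t : A) : ex X (s + t) = ex X s * ex X t := by
  have m11 : toA A (dvp X 1) * toA A (dvp X 1) = (2 : A) • toA A (dvp X 2) := by
    have h1 := l101_toA_mul (A := A) h 1 1
    have c : (1 + 1 : ℕ).choose 1 = 2 := by decide
    rw [c] at h1
    exact_mod_cast h1
  have m12 : toA A (dvp X 1) * toA A (dvp X 2) = (3 : A) • toA A (dvp X 3) := by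
    have h1 := l101_toA_mul (A := A) h 1 2
    have c : (1 + 2 : ℕ).choose 1 = 3 := by decide
    rw [c] at h1
    exact_mod_cast h1
  have m21 : toA A (dvp X 2) * toA A (dvp X 1) = (3 : A) • toA A (dvp X 3) := by
    have h1 := l101_toA_mul (A := A) h 2 1
    have c : (2 + 1 : ℕ).choose 2 = 3 := by decide
    rw [c] at h1
    exact_mod_cast h1
  have mz : ∀ j k : ℕ, 4 ≤ j + k → toA A (dvp X j) * toA A (dvp X k) = 0 := by
    intro j k hjk
    rw [l101_toA_mul h, l101_toA_four h hjk, smul_zero]
  have m13 := mz 1 3 (by norm_num)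
  have m31 := mz 3 1 (by norm_num)
  have m22 := mz 2 2 (by norm_num)
  have m23 := mz 2 3 (by norm_num)
  have m32 := mz 3 2 (by norm_num)
  have m33 := mz 3 3 (by norm_num)
  unfold ex
  simp only [Finset.sum_range_succ, Finset.sum_range_zero, zero_add, pow_zero, one_smul,
    l101_toA_zero, pow_one, add_mul, mul_add, one_mul, mul_one, smul_mul_smul_comm,
    m11, m12, m21, m13, m31, m22, m23, m32, m33, smul_zero, add_zero]
  module

theorem DP.ex_mul_neg (h : DP X) (t : A) : ex X t * ex X (-t) = 1 := by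
  rw [← h.ex_add, add_neg_cancel, ex_zero]

theorem DP.ex_neg_mul (h : DP X) (t : A) : ex X (-t) * ex X t = 1 := by
  rw [← h.ex_add, neg_add_cancel, ex_zero]

/-- PROOF: entrywise, `map_sum`, `map_pow`, `map_intCast`. -/
theorem ex_map (X : Matrix n n ℤ) (f : A →+* B) (t : A) : (ex X t).map f = ex X (f t) := by
  ext r c
  simp only [ex, Matrix.map_apply, Matrix.sum_apply, Matrix.smul_apply, smul_eq_mul, map_sum,
    map_mul, map_pow, map_intCast]

end

end Pool.Agent.Lib.L1S
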