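import Pool.Agent.Lib.L1S.L10

/-! # L1S, module L1, chunk L107 (M): the columns of the powers of `e_i` -/

namespace Pool.Agent.Lib.L1S

open Matrix

noncomputable section

variable {ι M N : Type} [Fintype ι] [DecidableEq ι] [AddCommGroup M] [Module ℚ M] [AddCommGroup N] [Module ℚ N]
  {P : RootPairing ι ℚ M N} [P.IsCrystallographic] {b : P.Base} [P.IsReduced]

theorem l107_inl_inr (i : b.support) (r : b.support) (j : ι) :
    eZ b i (Sum.inl r) (Sum.inr j) = if r = i ∧ j = ng P i then 1 else 0 := by
  classical
  unfold eZ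
  simp only [Matrix.fromBlocks_apply₁₂, Matrix.of_apply]

theorem l107_inr_inl (i : b.support) (r : ι) (j : b.support) :
    eZ b i (Sum.inr r) (Sum.inl j) = if r = i then |b.cartanMatrix i j| else 0 := by
  classical
  unfold eZ
  simp only [Matrix.fromBlocks_apply₂₁, Matrix.of_apply]

theorem l107_inl_inl (i : b.support) (r : b.support) (j : b.support) :
    eZ b i (Sum.inl r) (Sum.inl j) = 0 := by
  classical
  unfold eZ
  simp only [Matrix.fromBlocks_apply₁₁, Matrix.zero_apply]

open scoped Classical in
theorem l107_inr_inr (i : b.support) (r j : ι) :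
    eZ b i (Sum.inr r) (Sum.inr j) =
      if P.root r = P.root i + P.root j then (P.chainBotCoeff i j + 1 : ℤ) else 0 := by
  unfold eZ
  simp only [Matrix.fromBlocks_apply₂₂, Matrix.of_apply]

theorem l107_neg (i : ι) : P.root (ng P i) = - P.root i := by
  rw [RootPairing.root_reflectionPerm, RootPairing.reflection_apply_self]

theorem l107_aux (X : Matrix (I b) (I b) ℤ) (j : I b) (n : ℕ) :
    (X ^ (n + 1)).col j = X.mulVec ((X ^ n).col j) := by
  rw [pow_succ', ← Matrix.mulVec_single_one, ← Matrix.mulVec_mulVec]
  simp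

/-- the chain coefficient goes up by one. -/
theorem l107_bot {i k l : ι} (hl : P.root l = P.root k + P.root i) :
    P.chainBotCoeff i l = P.chainBotCoeff i k + 1 := by
  have : Module.IsReflexive ℚ M := .of_isPerfPair P.toLinearMap
  have : IsAddTorsionFree M := .of_isTorsionFree ℚ M
  have hlin : LinearIndependent ℚ ![P.root i, P.root k] := by
    apply RootPairing.IsReduced.linearIndependent P
    · rintro rfl
      refine P.nsmul_notMem_range_root (n := 2) (i := i) ⟨l, ?_⟩
      rw [hl, two_smul]
    · intro h
      apply P.ne_zero l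
      rw [hl, h, add_neg_cancel]
  exact RootPairing.chainBotCoeff_of_add hlin hl

/-- `e_i ^ m v_j`, `j ≠ -i`: zero or `(p + 1) (p + 2) .. (p + m) v_k`, `k = j + m α_i`, `p = chainBotCoeff i j`.
PROOF: copy of Mathlib's private lemma `isNilpotent_e_aux` (`Mathlib/LinearAlgebra/RootSystem/GeckConstruction/Semisimple.lean`, line 51) with the number `x` made explicit: in the induction step the factor is `chainBotCoeff i k + 1`
with `chainBotCoeff i k = chainBotCoeff i j + m` (`RootPairing.chainBotCoeff_of_add`; `j = i` cannot occur with `m ≥ 1` because `(m + 1) α_i` is not a root, so for `m ≥ 1` the pair is linearly independent; carry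
`chainBotCoeff i k = chainBotCoeff i j + m` as an additional claim of the induction). `(p + 1).ascFactorial m = (p + 1) .. (p + m)`. -/
theorem eZ_pow_col (i : b.support) (j : ι) (hj : j ≠ ng P i) (m : ℕ) :
    (eZ b i ^ m).col (Sum.inr j) = 0 ∨
      ∃ k : ι, P.root k = P.root j + m • P.root i ∧ (eZ b i ^ m).col (Sum.inr j) = (((P.chainBotCoeff i j + 1).ascFactorial m : ℕ) : ℤ) • Pi.single (Sum.inr k) 1 := by
  classical
  have : Module.IsReflexive ℚ M := .of_isPerfPair P.toLinearMap
  have : IsAddTorsionFree M := .of_isTorsionFree ℚ M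
  suffices H : (eZ b i ^ m).col (Sum.inr j) = 0 ∨
      ∃ k : ι, P.root k = P.root j + m • P.root i ∧ P.chainBotCoeff i k = P.chainBotCoeff i j + m ∧
        (eZ b i ^ m).col (Sum.inr j) =
          (((P.chainBotCoeff i j + 1).ascFactorial m : ℕ) : ℤ) • Pi.single (Sum.inr k) 1 by
    rcases H with H | ⟨k, h1, _, h3⟩
    · exact Or.inl H
    · exact Or.inr ⟨k, h1, h3⟩
  induction m with
  | zero =>
    refine Or.inr ⟨j, by simp, by simp, ?_⟩
    ext r
    simp only [pow_zero, Matrix.col_apply, Matrix.one_apply, Nat.ascFactorial_zero, Nat.cast_one, one_smul,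
      Pi.single_apply]
  | succ n ih =>
    rcases ih with hn | ⟨k, hk₁, hb, hk₂⟩
    · left
      rw [l107_aux, hn, Matrix.mulVec_zero]
    rw [l107_aux, hk₂, Matrix.mulVec_smul]
    have hki : k ≠ ng P i := by
      rintro rfl
      rw [l107_neg] at hk₁
      have hk₂ : P.root (ng P j) = (n + 1) • P.root i := by
        rw [l107_neg, neg_eq_iff_add_eq_zero]
        rw [add_smul, one_smul]
        have h5 : - P.root i + P.root i = P.root j + n • P.root i + P.root i := by rw [hk₁]
        rw [neg_add_cancel] at h5
        rw [h5]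
        abel
      rcases n.eq_zero_or_pos with rfl | hn
      · apply hj
        apply P.root.injective
        rw [zero_smul, add_zero] at hk₁
        rw [l107_neg, hk₁]
      · have _i : (n + 1).AtLeastTwo := ⟨by omega⟩
        exact P.nsmul_notMem_range_root (n := n + 1) (i := i) ⟨ng P j, hk₂⟩
    have hcol : (eZ b i).mulVec (Pi.single (Sum.inr k) 1) = (eZ b i).col (Sum.inr k) :=
      Matrix.mulVec_single_one _ _
    by_cases hij : P.root j + (n + 1) • P.root i ∈ Set.range P.root
    · obtain ⟨l, hl⟩ := hij
      right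
      have hlk : P.root l = P.root k + P.root i := by
        rw [hl, hk₁, add_smul, one_smul]
        abel
      refine ⟨l, hl, ?_, ?_⟩
      · rw [l107_bot hlk, hb]
        rfl
      · rw [hcol]
        ext r
        simp only [Pi.smul_apply, Matrix.col_apply, smul_eq_mul]
        rcases r with m | m
        · rw [l107_inl_inr, if_neg (fun h => hki h.2), mul_zero, Pi.single_apply, if_neg (by simp), mul_zero]
        · rw [l107_inr_inr]
          by_cases hml : m = l
          · subst hml
            rw [if_pos (by rw [hlk, add_comm]), Pi.single_eq_same, mul_one, Nat.ascFactorial_succ, hb]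
            push_cast
            ring
          · rw [if_neg, mul_zero, Pi.single_apply, if_neg (by simpa using hml), mul_zero]
            intro h
            apply hml
            apply P.root.injective
            rw [h, hlk, add_comm]
    · left
      rw [hcol]
      ext r
      simp only [Pi.smul_apply, Matrix.col_apply, smul_eq_mul, Pi.zero_apply]
      rcases r with m | m
      · rw [l107_inl_inr, if_neg (fun h => hki h.2), mul_zero]
      · rw [l107_inr_inr, if_neg, mul_zero]
        intro h
        apply hij
        refine ⟨m, ?_⟩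
        rw [h, hk₁, add_smul, one_smul]
        abel

/-- `e_i ^ 4 v_j = 0`, `j ≠ -i`. PROOF: `eZ_pow_col` with `m = 4`; `j + 4 α_i` is not a root: `j = i` by `nsmul_notMem_range_root`, otherwise linearly independent and `root_add_nsmul_mem_range_iff_le_chainTopCoeff`,
`chainBotCoeff_add_chainTopCoeff_le_three`. -/
theorem eZ_pow_four_col (i : b.support) (j : ι) (hj : j ≠ ng P i) : (eZ b i ^ 4).col (Sum.inr j) = 0 := by
  have : Module.IsReflexive ℚ M := .of_isPerfPair P.toLinearMap
  have : IsAddTorsionFree M := .of_isTorsionFree ℚ M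
  rcases eZ_pow_col i j hj 4 with h | ⟨k, hk, -⟩
  · exact h
  exfalso
  have hlin : LinearIndependent ℚ ![P.root i, P.root j] := by
    apply RootPairing.IsReduced.linearIndependent P
    · rintro hij
      refine P.nsmul_notMem_range_root (n := 5) (i := i) ⟨k, ?_⟩
      rw [hk, ← hij]
      module
    · intro h
      apply hj
      apply P.root.injective
      rw [l107_neg, h, neg_neg]
  have h1 := (P.root_add_nsmul_mem_range_iff_le_chainTopCoeff hlin (n := 4)).1 ⟨k, hk⟩
  have h2 := P.chainBotCoeff_add_chainTopCoeff_le_three (i := i) (j := j)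
  omega

/-- `e_i ^ 2 u_j = 0`. PROOF: see `case_inl` in the proof of Mathlib's `isNilpotent_e`. -/
theorem eZ_sq_inl (i j : b.support) : (eZ b i ^ 2).col (Sum.inl j) = 0 := by
  classical
  have : Module.IsReflexive ℚ M := .of_isPerfPair P.toLinearMap
  have : IsAddTorsionFree M := .of_isTorsionFree ℚ M
  have hcol : (eZ b i).col (Sum.inl j) = |b.cartanMatrix i j| • Pi.single (Sum.inr (i : ι)) (1 : ℤ) := by
    ext r
    simp only [Matrix.col_apply, Pi.smul_apply, smul_eq_mul]
    rcases r with m | m
    · rw [l107_inl_inl, Pi.single_apply, if_neg (by simp), mul_zero]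
    · rw [l107_inr_inl]
      by_cases h : m = i
      · rw [if_pos h, h, Pi.single_eq_same, mul_one]
      · rw [if_neg h, Pi.single_apply, if_neg (by simpa using h), mul_zero]
  have h2 : (eZ b i ^ 2).col (Sum.inl j) = (eZ b i).mulVec ((eZ b i ^ 1).col (Sum.inl j)) := l107_aux _ _ 1
  rw [h2, pow_one, hcol, Matrix.mulVec_smul, Matrix.mulVec_single_one]
  ext r
  simp only [Matrix.col_apply, Pi.smul_apply, smul_eq_mul, Pi.zero_apply]
  rcases r with m | m
  · rw [l107_inl_inr, if_neg, mul_zero]
    rintro ⟨_, h⟩
    have h3 : P.root (i : ι) = - P.root (i : ι) := by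
      have h4 : P.root (i : ι) = P.root (ng P (i : ι)) := congrArg P.root h
      rw [l107_neg] at h4
      exact h4
    exact P.ne_zero (i : ι) (self_eq_neg.1 h3)
  · rw [l107_inr_inr, if_neg, mul_zero]
    intro h
    refine P.nsmul_notMem_range_root (n := 2) (i := i) ⟨m, ?_⟩
    rw [h, two_smul]

/-- `e_i v_(-i) = u_i`, `e_i u_i = 2 v_i`. -/
theorem eZ_sq_neg (i : b.support) : (eZ b i ^ 2).col (Sum.inr (ng P i)) = (2 : ℤ) • Pi.single (Sum.inr (i : ι)) 1 := by
  classical
  have hcol : (eZ b i).col (Sum.inr (ng P i)) = Pi.single (Sum.inl i) (1 : ℤ) := by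
    ext r
    simp only [Matrix.col_apply]
    rcases r with m | m
    · rw [l107_inl_inr]
      by_cases h : m = i
      · rw [if_pos ⟨h, rfl⟩, h, Pi.single_eq_same]
      · rw [if_neg (fun h2 => h h2.1), Pi.single_apply, if_neg (by simpa using h)]
    · rw [l107_inr_inr, if_neg, Pi.single_apply, if_neg (by simp)]
      rw [l107_neg, add_neg_cancel]
      exact P.ne_zero m
  have h2 : (eZ b i ^ 2).col (Sum.inr (ng P i)) = (eZ b i).mulVec ((eZ b i ^ 1).col (Sum.inr (ng P i))) :=
    l107_aux _ _ 1
  rw [h2, pow_one, hcol, Matrix.mulVec_single_one]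
  ext r
  simp only [Matrix.col_apply, Pi.smul_apply, smul_eq_mul]
  rcases r with m | m
  · rw [l107_inl_inl, Pi.single_apply, if_neg (by simp), mul_zero]
  · rw [l107_inr_inl]
    by_cases h : m = i
    · rw [if_pos h, h, Pi.single_eq_same, mul_one, RootPairing.Base.cartanMatrix_apply_same]
      norm_num
    · rw [if_neg h, Pi.single_apply, if_neg (by simpa using h), mul_zero]

end

end Pool.Agent.Lib.L1S
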