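import Pool.Agent.Lib.L1S.L108
import Pool.Agent.Lib.L1S.L103

/-! # L1S, module L1, chunk L109 (M): `m = exp(s e_i) exp(-s⁻¹ f_i) exp(s e_i)` and the diagonal matrices: `m V_γ = V_(s_i γ)` -/

namespace Pool.Agent.Lib.L1S

open Matrix

noncomputable section

variable {ι M N : Type} [Fintype ι] [DecidableEq ι] [AddCommGroup M] [Module ℚ M] [AddCommGroup N] [Module ℚ N]
  {P : RootPairing ι ℚ M N} [P.IsCrystallographic] {b : P.Base} [P.IsReduced] [P.IsIrreducible] [P.IsRootSystem] {A : Type} [CommRing A] [Algebra ℚ A]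

theorem l109_self {X : Matrix (I b) (I b) ℤ} (h : DP X) (t : A) : ex X t * toA A X = toA A X * ex X t := by
  have h1 := h.ex_comm3 (Y := toA A X) (Z := 0) (W := 0) (by rw [sub_self]) (by rw [mul_zero, zero_mul, sub_self, smul_zero])
    (by rw [mul_zero, zero_mul]) t
  rw [h1, smul_zero, smul_zero, add_zero, add_zero]

theorem l109_ef (i : b.support) : toA A (eZ b i) * toA A (fZ b i) - toA A (fZ b i) * toA A (eZ b i) = toA A (hZ b i) := by
  rw [← toA_mul, ← toA_mul, ← toA_sub, eZ_fZ]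

theorem l109_he (i : b.support) : toA A (hZ b i) * toA A (eZ b i) - toA A (eZ b i) * toA A (hZ b i) = (2 : A) • toA A (eZ b i) := by
  rw [← toA_mul, ← toA_mul, ← toA_sub, hZ_eZ, toA_zsmul, ← Int.cast_smul_eq_zsmul A, Int.cast_ofNat]

theorem l109_hf (i : b.support) : toA A (hZ b i) * toA A (fZ b i) - toA A (fZ b i) * toA A (hZ b i) = (-2 : A) • toA A (fZ b i) := by
  rw [← toA_mul, ← toA_mul, ← toA_sub, hZ_fZ, toA_zsmul, ← Int.cast_smul_eq_zsmul A, Int.cast_neg, Int.cast_ofNat]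

/-- `exp(te) D = (D - t l(α) e) exp(te)`. PROOF: `DP.ex_comm3` with `Y = D_l`, `Z = -l(α_i) e` (`Dl_comm`), `W = 0`. -/
theorem ex_eZ_Dl (i : b.support) (l : M →ₗ[ℚ] ℚ) (t : A) :
    ex (eZ b i) t * Dl b A l = (Dl b A l - (t * algebraMap ℚ A (l (P.root i))) • toA A (eZ b i)) * ex (eZ b i) t := by
  have h1 := (DP_eZ i).ex_comm3 (Y := Dl b A l) (Z := -(algebraMap ℚ A (l (P.root i)) • toA A (eZ b i))) (W := 0)
    (Dl_comm l (hasWt_eZ i).toA)
    (by
      rw [mul_neg, neg_mul, Matrix.mul_smul, Matrix.smul_mul, sub_self, smul_zero]) (by rw [mul_zero, zero_mul]) t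
  rw [h1, smul_zero, add_zero, smul_neg, smul_smul, sub_eq_add_neg]

/-- `exp(tf) D = (D + t l(α) f) exp(tf)`. -/
theorem ex_fZ_Dl (i : b.support) (l : M →ₗ[ℚ] ℚ) (t : A) :
    ex (fZ b i) t * Dl b A l = (Dl b A l + (t * algebraMap ℚ A (l (P.root i))) • toA A (fZ b i)) * ex (fZ b i) t := by
  have h1 := (DP_fZ i).ex_comm3 (Y := Dl b A l) (Z := -(algebraMap ℚ A (l (-P.root i)) • toA A (fZ b i))) (W := 0)
    (Dl_comm l (hasWt_fZ i).toA)
    (by
      rw [mul_neg, neg_mul, Matrix.mul_smul, Matrix.smul_mul, sub_self, smul_zero]) (by rw [mul_zero, zero_mul]) t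
  rw [h1, smul_zero, add_zero, map_neg, map_neg, neg_smul, neg_neg, smul_smul]

/-- `exp(tf) e = (e - t h - t² f) exp(tf)`. PROOF: `DP.ex_comm3` with `X = f`, `Y = e`, `Z = [f, e] = -h`, `[f, -h] = [h, f] = -2f`, `W = -f`. -/
theorem ex_fZ_eZ (i : b.support) (t : A) :
    ex (fZ b i) t * toA A (eZ b i) = (toA A (eZ b i) - t • toA A (hZ b i) - t ^ 2 • toA A (fZ b i)) * ex (fZ b i) t := by
  have hfe : toA A (fZ b i) * toA A (eZ b i) - toA A (eZ b i) * toA A (fZ b i) = -toA A (hZ b i) := by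
    rw [← l109_ef, neg_sub]
  have h1 := (DP_fZ i).ex_comm3 (Y := toA A (eZ b i)) (Z := -toA A (hZ b i)) (W := -toA A (fZ b i)) hfe
    (by
      have h2 := l109_hf (A := A) i
      rw [mul_neg, neg_mul, sub_neg_eq_add, neg_add_eq_sub, h2, neg_smul, smul_neg]) (by rw [mul_neg, neg_mul]) t
  rw [h1, smul_neg, smul_neg, ← sub_eq_add_neg, ← sub_eq_add_neg]

/-- `exp(te) f = (f + t h - t² e) exp(te)`. PROOF: `X = e`, `Y = f`, `Z = [e, f] = h`, `[e, h] = -2e`, `W = -e`. -/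
theorem ex_eZ_fZ (i : b.support) (t : A) :
    ex (eZ b i) t * toA A (fZ b i) = (toA A (fZ b i) + t • toA A (hZ b i) - t ^ 2 • toA A (eZ b i)) * ex (eZ b i) t := by
  have h1 := (DP_eZ i).ex_comm3 (Y := toA A (fZ b i)) (Z := toA A (hZ b i)) (W := -toA A (eZ b i)) (l109_ef i)
    (by
      have h2 := l109_he (A := A) i
      rw [smul_neg, ← h2, neg_sub]) (by rw [mul_neg, neg_mul]) t
  rw [h1, smul_neg, ← sub_eq_add_neg]

/-- `exp(te) h = (h - 2t e) exp(te)`, `exp(tf) h = (h + 2t f) exp(tf)`. -/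
theorem ex_eZ_hZ (i : b.support) (t : A) : ex (eZ b i) t * toA A (hZ b i) = (toA A (hZ b i) - (2 * t) • toA A (eZ b i)) * ex (eZ b i) t := by
  have h1 := (DP_eZ i).ex_comm3 (Y := toA A (hZ b i)) (Z := -((2 : A) • toA A (eZ b i))) (W := 0)
    (by rw [← l109_he, neg_sub])
    (by
      rw [mul_neg, neg_mul, Matrix.mul_smul, Matrix.smul_mul, sub_self, smul_zero]) (by rw [mul_zero, zero_mul]) t
  rw [h1, smul_zero, add_zero, smul_neg, smul_smul, sub_eq_add_neg, mul_comm t 2]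

theorem ex_fZ_hZ (i : b.support) (t : A) : ex (fZ b i) t * toA A (hZ b i) = (toA A (hZ b i) + (2 * t) • toA A (fZ b i)) * ex (fZ b i) t := by
  have h1 := (DP_fZ i).ex_comm3 (Y := toA A (hZ b i)) (Z := (2 : A) • toA A (fZ b i)) (W := 0)
    (by
      have h2 := l109_hf (A := A) i
      rw [neg_smul] at h2
      rw [← neg_eq_iff_eq_neg.2 h2, neg_sub])
    (by
      rw [Matrix.mul_smul, Matrix.smul_mul, sub_self, smul_zero]) (by rw [mul_zero, zero_mul]) t
  rw [h1, smul_zero, add_zero, smul_smul, mul_comm t 2]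

/-- `m = exp(se) exp(-f/s) exp(se)`. -/
def mm (b : P.Base) (i : b.support) (s : Aˣ) : Matrix (I b) (I b) A := ex (eZ b i) (s : A) * ex (fZ b i) (-((s⁻¹ : Aˣ) : A)) * ex (eZ b i) (s : A)

/-- `m⁻¹ = exp(-se) exp(f/s) exp(-se)`. -/
def mm' (b : P.Base) (i : b.support) (s : Aˣ) : Matrix (I b) (I b) A := ex (eZ b i) (-(s : A)) * ex (fZ b i) ((s⁻¹ : Aˣ) : A) * ex (eZ b i) (-(s : A))

theorem mm_mul (i : b.support) (s : Aˣ) : mm b i s * mm' b i s = 1 := by
  have h1 := (DP_eZ i).ex_mul_neg (s : A)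
  have h2 := (DP_fZ i).ex_neg_mul ((s⁻¹ : Aˣ) : A)
  calc mm b i s * mm' b i s = ex (eZ b i) (s : A) * (ex (fZ b i) (-((s⁻¹ : Aˣ) : A)) * (ex (eZ b i) (s : A) * ex (eZ b i) (-(s : A))) *
        ex (fZ b i) ((s⁻¹ : Aˣ) : A)) * ex (eZ b i) (-(s : A)) := by simp only [mm, mm', mul_assoc]
    _ = 1 := by rw [h1, mul_one, h2, mul_one, h1]

theorem mm_mul' (i : b.support) (s : Aˣ) : mm' b i s * mm b i s = 1 := by
  have h1 := (DP_eZ i).ex_neg_mul (s : A)
  have h2 := (DP_fZ i).ex_mul_neg ((s⁻¹ : Aˣ) : A)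
  calc mm' b i s * mm b i s = ex (eZ b i) (-(s : A)) * (ex (fZ b i) ((s⁻¹ : Aˣ) : A) * (ex (eZ b i) (-(s : A)) * ex (eZ b i) (s : A)) *
        ex (fZ b i) (-((s⁻¹ : Aˣ) : A))) * ex (eZ b i) (s : A) := by simp only [mm, mm', mul_assoc]
    _ = 1 := by rw [h1, mul_one, h2, mul_one, h1]

/-- `m D_l = (D_l - l(α_i) h_i) m`. PROOF: `c = l(α_i)`, `t = -1/s`: `exp(se) D = (D - s c e) exp(se)`; `exp(tf) (D - s c e) = (D + t c f - s c (e - t h - t² f)) exp(tf) = (D - s c e - c h) exp(tf)` (`s t = -1`);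
`exp(se) (D - s c e - c h) = (D - s c e - s c e - c (h - 2 s e)) exp(se) = (D - c h) exp(se)`. -/
theorem mm_Dl (i : b.support) (s : Aˣ) (l : M →ₗ[ℚ] ℚ) :
    mm b i s * Dl b A l = (Dl b A l - algebraMap ℚ A (l (P.root i)) • toA A (hZ b i)) * mm b i s := by
  set c : A := algebraMap ℚ A (l (P.root i)) with hc
  set D := Dl b A l with hD
  set e := toA A (eZ b i) with he
  set f := toA A (fZ b i) with hf
  set h := toA A (hZ b i) with hh
  set u : A := ((s⁻¹ : Aˣ) : A) with hu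
  have hsu : (s : A) * u = 1 := s.mul_inv
  have h1 : ex (eZ b i) (s : A) * D = (D - ((s : A) * c) • e) * ex (eZ b i) (s : A) := ex_eZ_Dl i l (s : A)
  have h2 : ex (fZ b i) (-u) * D = (D + (-u * c) • f) * ex (fZ b i) (-u) := ex_fZ_Dl i l (-u)
  have h3 : ex (fZ b i) (-u) * e = (e - (-u) • h - (-u) ^ 2 • f) * ex (fZ b i) (-u) := ex_fZ_eZ i (-u)
  have h4 : ex (eZ b i) (s : A) * h = (h - (2 * (s : A)) • e) * ex (eZ b i) (s : A) := ex_eZ_hZ i (s : A)
  have h5 : ex (eZ b i) (s : A) * e = e * ex (eZ b i) (s : A) := l109_self (DP_eZ i) (s : A)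
  have k1 : ex (fZ b i) (-u) * (D - ((s : A) * c) • e) = (D - ((s : A) * c) • e - c • h) * ex (fZ b i) (-u) := by
    rw [mul_sub, Matrix.mul_smul, h2, h3, ← Matrix.smul_mul, ← sub_mul]
    congr 1
    have e1 : ((s : A) * c) • (e - -u • h - (-u) ^ 2 • f) = ((s : A) * c) • e + c • h - (u * c) • f := by
      rw [smul_sub, smul_sub, smul_smul, smul_smul]
      have e2 : (s : A) * c * -u = -c := by linear_combination (-c) * hsu
      have e3 : (s : A) * c * (-u) ^ 2 = u * c := by linear_combination (u * c) * hsu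
      rw [e2, e3, neg_smul, sub_neg_eq_add]
    rw [e1, neg_mul, neg_smul]
    abel
  have k2 : ex (eZ b i) (s : A) * (D - ((s : A) * c) • e - c • h) = (D - c • h) * ex (eZ b i) (s : A) := by
    rw [mul_sub, mul_sub, Matrix.mul_smul, Matrix.mul_smul, h1, h5, h4, ← Matrix.smul_mul, ← Matrix.smul_mul, ← sub_mul, ← sub_mul]
    congr 1
    rw [smul_sub, smul_smul]
    have e2 : c * (2 * (s : A)) = (s : A) * c + (s : A) * c := by ring
    rw [e2, add_smul]
    abel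
  calc mm b i s * D = ex (eZ b i) (s : A) * ex (fZ b i) (-u) * (ex (eZ b i) (s : A) * D) := by
        simp only [mm, mul_assoc, ← hu]
    _ = ex (eZ b i) (s : A) * (ex (fZ b i) (-u) * (D - ((s : A) * c) • e)) * ex (eZ b i) (s : A) := by
        rw [h1]
        simp only [mul_assoc]
    _ = (ex (eZ b i) (s : A) * (D - ((s : A) * c) • e - c • h)) * ex (fZ b i) (-u) * ex (eZ b i) (s : A) := by
        rw [k1]
        simp only [mul_assoc]
    _ = (D - c • h) * mm b i s := by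
        rw [k2]
        simp only [mm, mul_assoc, ← hu]

/-- `D_l - l(α_i) h_i = D_(l s_i)`. PROOF: `toA_hZ_eq`, `s_i μ = μ - ⟨μ, α_i^∨⟩ α_i` (`RootPairing.reflection_apply`). -/
theorem Dl_sub (i : b.support) (l : M →ₗ[ℚ] ℚ) :
    Dl b A l - algebraMap ℚ A (l (P.root i)) • toA A (hZ b i) = Dl b A (l ∘ₗ (P.reflection i : M →ₗ[ℚ] M)) := by
  rw [toA_hZ_eq]
  ext r c
  rw [Matrix.sub_apply, Matrix.smul_apply]
  by_cases h : r = c
  · subst h
    simp only [Dl, Matrix.diagonal_apply_eq, smul_eq_mul, LinearMap.comp_apply, LinearEquiv.coe_coe, RootPairing.reflection_apply,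
      map_sub, map_smul, map_mul]
    ring
  · simp only [Dl, Matrix.diagonal_apply_ne _ h, smul_zero, sub_zero]

/-- `m V_γ = V_(s_i γ)`. PROOF: `mm_Dl`, `Dl_sub` with `l s_i` instead of `l` (`s_i² = 1`) and `OverW.of_comm`. -/
theorem mm_over (i : b.support) (s : Aˣ) : OverW b (P.reflection i) (mm b i s) := by
  refine OverW.of_comm (A := A) (P.reflection i : M →ₗ[ℚ] M) (X := mm b i s) fun l => ?_
  rw [mm_Dl, Dl_sub]
  congr 2
  ext x
  simp

/-- PROOF: `mm' b i s = mm b i (-s)`. -/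
theorem mm_over' (i : b.support) (s : Aˣ) : OverW b (P.reflection i) (mm' b i s) := by
  have h : mm' b i s = mm b i (-s) := by
    simp only [mm, mm', Units.val_neg, inv_neg, neg_neg]
  rw [h]
  exact mm_over i (-s)

end

end Pool.Agent.Lib.L1S
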