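import Pool.Agent.Lib.L1S.L106

/-! # L1S, module L1, chunk L111 (M): the Lie algebra generated by the `e_i` is spanned by homogeneous elements -/

namespace Pool.Agent.Lib.L1S

open Matrix

noncomputable section

attribute [local instance 100] LieRing.ofAssociativeRing

variable {ι M N : Type} [Fintype ι] [DecidableEq ι] [AddCommGroup M] [Module ℚ M] [AddCommGroup N] [Module ℚ N]
  {P : RootPairing ι ℚ M N} [P.IsCrystallographic] {b : P.Base}

/-- Geck's Lie algebra. -/
abbrev gg (b : P.Base) : LieSubalgebra ℚ (Matrix (I b) (I b) ℚ) := RootPairing.GeckConstruction.lieAlgebra b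

/-- The homogeneous elements of `g` of the weight `σ ∑ n_i α_i`, `n ≠ 0`, which are multiples of `g_i` if `n` is supported at `i`. -/
def TS (b : P.Base) (g : b.support → Matrix (I b) (I b) ℚ) (σ : ℚ) : Set (Matrix (I b) (I b) ℚ) :=
  {Y | Y ∈ gg b ∧ ∃ n : b.support → ℕ, n ≠ 0 ∧ HasWt b (σ • ∑ i, (n i : ℚ) • P.root i) Y ∧ ∀ i, (∀ j, j ≠ i → n j = 0) → ∃ a : ℚ, Y = a • g i}

/-- PROOF: `Submodule.span_induction` twice; for `X, Y ∈ TS` with `n, n'` the bracket has the weight `σ ∑ (n_i + n'_i) α_i` (`HasWt.lie`), lies in `gg b`, and if `n + n'` is supported at `i` then `n` and `n'` are, so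
`X = a g_i`, `Y = a' g_i` and the bracket is `0`. -/
theorem TS_lie (g : b.support → Matrix (I b) (I b) ℚ) (σ : ℚ) {X Y : Matrix (I b) (I b) ℚ} (hX : X ∈ Submodule.span ℚ (TS b g σ)) (hY : Y ∈ Submodule.span ℚ (TS b g σ)) :
    X * Y - Y * X ∈ Submodule.span ℚ (TS b g σ) := by
  induction hX using Submodule.span_induction with
  | mem X hX =>
    induction hY using Submodule.span_induction with
    | mem Y hY =>
      apply Submodule.subset_span
      obtain ⟨hXg, n, hn, hnw, hns⟩ := hX
      obtain ⟨hYg, n', hn', hnw', hns'⟩ := hY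
      refine ⟨?_, n + n', ?_, ?_, ?_⟩
      · have := (gg b).lie_mem hXg hYg
        rwa [Ring.lie_def] at this
      · intro h0
        apply hn
        funext i
        have := congrFun h0 i
        simp only [Pi.add_apply, Pi.zero_apply] at this ⊢
        omega
      · have h1 := hnw.lie hnw'
        have e : σ • ∑ i, ((n + n') i : ℚ) • P.root i =
            (σ • ∑ i, (n i : ℚ) • P.root i) + σ • ∑ i, (n' i : ℚ) • P.root i := by
          rw [← smul_add, ← Finset.sum_add_distrib]
          congr 1
          refine Finset.sum_congr rfl fun i _ => ?_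
          rw [← add_smul, Pi.add_apply, Nat.cast_add]
        rw [e]
        exact h1
      · intro i hi
        have h1 : ∀ j, j ≠ i → n j = 0 := by
          intro j hj
          have := hi j hj
          simp only [Pi.add_apply] at this
          omega
        have h2 : ∀ j, j ≠ i → n' j = 0 := by
          intro j hj
          have := hi j hj
          simp only [Pi.add_apply] at this
          omega
        obtain ⟨a, ha⟩ := hns i h1
        obtain ⟨a', ha'⟩ := hns' i h2
        refine ⟨0, ?_⟩
        rw [ha, ha', zero_smul, smul_mul_smul_comm, smul_mul_smul_comm, mul_comm a' a, sub_self]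
    | zero => simp
    | add Y Z _ _ hY hZ =>
      have e : X * (Y + Z) - (Y + Z) * X = (X * Y - Y * X) + (X * Z - Z * X) := by
        rw [mul_add, add_mul]
        abel
      rw [e]
      exact Submodule.add_mem _ hY hZ
    | smul a Y _ hY =>
      have e : X * (a • Y) - (a • Y) * X = a • (X * Y - Y * X) := by
        rw [mul_smul_comm, smul_mul_assoc, smul_sub]
      rw [e]
      exact Submodule.smul_mem _ _ hY
  | zero => simp
  | add X Z _ _ hX hZ =>
    have e : (X + Z) * Y - Y * (X + Z) = (X * Y - Y * X) + (Z * Y - Y * Z) := by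
      rw [mul_add, add_mul]
      abel
    rw [e]
    exact Submodule.add_mem _ hX hZ
  | smul a X _ hX =>
    have e : (a • X) * Y - Y * (a • X) = a • (X * Y - Y * X) := by
      rw [mul_smul_comm, smul_mul_assoc, smul_sub]
    rw [e]
    exact Submodule.smul_mem _ _ hX

/-- `g_i ∈ TS` (`n = δ_i`; if `n` is supported at `i'` then `i' = i`). -/
theorem TS_mem (g : b.support → Matrix (I b) (I b) ℚ) (σ : ℚ) (hg : ∀ i : b.support, HasWt b (σ • P.root i) (g i)) (hgg : ∀ i, g i ∈ gg b) (i : b.support) : g i ∈ TS b g σ := by
  classical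
  refine ⟨hgg i, Pi.single i 1, ?_, ?_, ?_⟩
  · intro h0
    have := congrFun h0 i
    simp at this
  · have e : ∑ j, ((Pi.single i 1 : b.support → ℕ) j : ℚ) • P.root j = P.root i := by
      rw [Finset.sum_eq_single i]
      · simp
      · intro j _ hj
        simp [Pi.single_eq_of_ne hj]
      · intro h
        exact absurd (Finset.mem_univ _) h
    rw [e]
    exact hg i
  · intro j hj
    by_cases hij : i = j
    · subst hij
      exact ⟨1, (one_smul _ _).symm⟩
    · have := hj i hij
      simp at this

end

end Pool.Agent.Lib.L1S
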