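import Pool.Agent.Lib.L1S.L111

/-! # L1S, module L1, chunk L112 (M): the triangular decomposition of Geck's Lie algebra, in matrices -/

namespace Pool.Agent.Lib.L1S

open Matrix

noncomputable section

attribute [local instance 100] LieRing.ofAssociativeRing

variable {ι M N : Type} [Fintype ι] [DecidableEq ι] [AddCommGroup M] [Module ℚ M] [AddCommGroup N] [Module ℚ N]
  {P : RootPairing ι ℚ M N} [P.IsCrystallographic] {b : P.Base} [P.IsReduced] [P.IsIrreducible] [P.IsRootSystem]

/-- The span of the `h_i`. -/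
abbrev hh (b : P.Base) : Submodule ℚ (Matrix (I b) (I b) ℚ) := Submodule.span ℚ (Set.range fun i : b.support => toA ℚ (hZ b i))

/-- The upper part. -/
abbrev TE (b : P.Base) : Set (Matrix (I b) (I b) ℚ) := TS b (fun i => toA ℚ (eZ b i)) 1

/-- The lower part. -/
abbrev TF (b : P.Base) : Set (Matrix (I b) (I b) ℚ) := TS b (fun i => toA ℚ (fZ b i)) (-1)

omit [P.IsReduced] [P.IsIrreducible] [P.IsRootSystem] in
open RootPairing.GeckConstruction in
theorem l112_upper (g : b.support → gg b) (σ : ℚ) (hg : ∀ i : b.support, HasWt b (σ • P.root i) (g i).1) (y : gg b)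
    (hy : y ∈ LieSubalgebra.lieSpan ℚ (gg b) (Set.range g)) : (y : Matrix (I b) (I b) ℚ) ∈ Submodule.span ℚ (TS b (fun i => (g i).1) σ) := by
  induction hy using LieSubalgebra.lieSpan_induction with
  | mem u hu =>
    obtain ⟨i, rfl⟩ := hu
    exact Submodule.subset_span (TS_mem (fun i => (g i).1) σ hg (fun i => (g i).2) i)
  | zero => simp
  | add u v _ _ hu hv => simpa using Submodule.add_mem _ hu hv
  | smul t u _ hu => simpa using Submodule.smul_mem _ t hu
  | lie u v _ _ hu hv => simpa [Ring.lie_def] using TS_lie (fun i => (g i).1) σ hu hv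

open RootPairing.GeckConstruction in
/-- **Triangular decomposition.** PROOF: `B = RootPairing.GeckConstruction.basis b : LieAlgebra.Basis b.support (cartanSubalgebra' b)` (Mathlib, GeckConstruction/Basis.lean) and `B.iSup_cartan_borelLower_borelUpper_eq_top`:
the element `⟨X, hX⟩` of `lieAlgebra b` is the sum of an element of `cartanSubalgebra' b` (its matrix lies in the span of the `h_i`: definition of `cartanSubalgebra`, `toA_hZ`), an element of `B.borelLower` and an element of
`B.borelUpper` (= `lieSpan (range B.e)`, `B.e i = ⟨e i, _⟩`); by `LieSubalgebra.lieSpan_induction`, `TS_mem`, `TS_lie` the matrix of an element of `lieSpan (range B.e)` lies in the span of `TE b`, and the same for `B.f`, `TF b`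
(`toA_eZ`, `toA_fZ`, `hasWt_eZ`, `hasWt_fZ`, `RootPairing.GeckConstruction.e_mem_lieAlgebra`; `Ring.lie_def`). -/
theorem gg_decomp {X : Matrix (I b) (I b) ℚ} (hX : X ∈ gg b) :
    ∃ H ∈ hh b, ∃ U ∈ Submodule.span ℚ (TE b), ∃ L ∈ Submodule.span ℚ (TF b), X = H + U + L := by
  have top := (basis b).iSup_cartan_borelLower_borelUpper_eq_top
  have key : (⟨X, hX⟩ : gg b) ∈ (cartanSubalgebra' b).toLieSubmodule ⊔ (basis b).borelLower ⊔ (basis b).borelUpper := by
    have e : (cartanSubalgebra' b).toLieSubmodule ⊔ (basis b).borelLower ⊔ (basis b).borelUpper = ⊤ := by simpa using top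
    rw [e]
    trivial
  obtain ⟨y, hy, u, hu, e1⟩ := (LieSubmodule.mem_sup _ _ _).1 key
  obtain ⟨c, hc, l, hl, e2⟩ := (LieSubmodule.mem_sup _ _ _).1 hy
  refine ⟨c.1, ?_, u.1, ?_, l.1, ?_, ?_⟩
  · have : c.1 ∈ Submodule.span ℚ (Set.range (RootPairing.GeckConstruction.h (b := b))) := hc
    have e3 : (fun i : b.support => toA ℚ (hZ b i)) = RootPairing.GeckConstruction.h (b := b) := by
      funext i
      exact toA_hZ i
    rw [hh, e3]
    exact this
  · have h1 := l112_upper (b := b) (fun i => ⟨toA ℚ (eZ b i), by rw [toA_eZ]; exact e_mem_lieAlgebra i⟩) 1 (fun i => by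
      rw [one_smul]
      exact (hasWt_eZ i).toA) u (by
      have e3 : (fun i : b.support => (⟨toA ℚ (eZ b i), by rw [toA_eZ]; exact e_mem_lieAlgebra i⟩ : gg b)) = (basis b).e := by
        funext i
        exact Subtype.ext (toA_eZ i)
      rw [e3]
      exact hu)
    exact h1
  · have h1 := l112_upper (b := b) (fun i => ⟨toA ℚ (fZ b i), by rw [toA_fZ]; exact f_mem_lieAlgebra i⟩) (-1) (fun i => by
      rw [neg_one_smul]
      exact (hasWt_fZ i).toA) l (by
      have e3 : (fun i : b.support => (⟨toA ℚ (fZ b i), by rw [toA_fZ]; exact f_mem_lieAlgebra i⟩ : gg b)) = (basis b).f := by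
        funext i
        exact Subtype.ext (toA_fZ i)
      rw [e3]
      exact hl)
    exact h1
  · have : X = (c + l + u : gg b).1 := by rw [e2, e1]
    rw [this]
    change c.1 + l.1 + u.1 = _
    abel

end

end Pool.Agent.Lib.L1S
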