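import Pool.Agent.Lib.L1S.L112

/-! # L1S, module L1, chunk L113 (M): the weights of Geck's Lie algebra are in `± ℕΔ`; the simple root spaces -/

namespace Pool.Agent.Lib.L1S

open Matrix

noncomputable section

attribute [local instance 100] LieRing.ofAssociativeRing

variable {ι M N : Type} [Fintype ι] [DecidableEq ι] [AddCommGroup M] [Module ℚ M] [AddCommGroup N] [Module ℚ N]
  {P : RootPairing ι ℚ M N} [P.IsCrystallographic] {b : P.Base} [P.IsReduced] [P.IsIrreducible] [P.IsRootSystem]

/-- Linear independence of the simple roots. -/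
theorem l113_li {a c : b.support → ℚ} (h : ∑ i, a i • P.root i = ∑ i, c i • P.root i) : a = c := by
  have hl : LinearIndependent ℚ fun i : b.support => P.root i := b.linearIndepOn_root
  have h1 : ∑ i, (a i - c i) • P.root i = 0 := by
    simp only [sub_smul, Finset.sum_sub_distrib, h, sub_self]
  have h2 := Fintype.linearIndependent_iff.1 hl (fun i => a i - c i) h1
  funext i
  exact sub_eq_zero.1 (h2 i)

theorem l113_hh {μ : M} (hμ : μ ≠ 0) {H : Matrix (I b) (I b) ℚ} (hH : H ∈ hh b) : pW b ℚ μ H = 0 := by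
  induction hH using Submodule.span_induction with
  | mem x hx =>
    obtain ⟨i, rfl⟩ := hx
    exact pW_ne (hasWt_hZ i).toA hμ
  | zero => exact map_zero _
  | add x y _ _ hx hy => rw [map_add, hx, hy, add_zero]
  | smul a x _ hx => rw [map_smul, hx, smul_zero]

theorem l113_h0 {H : Matrix (I b) (I b) ℚ} (hH : H ∈ hh b) : pW b ℚ 0 H = H := by
  induction hH using Submodule.span_induction with
  | mem x hx =>
    obtain ⟨i, rfl⟩ := hx
    exact pW_self (hasWt_hZ i).toA
  | zero => exact map_zero _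
  | add x y _ _ hx hy => rw [map_add, hx, hy]
  | smul a x _ hx => rw [map_smul, hx]

/-- The component of weight `μ` of an element of the span of `TE`: zero if `μ` is not a sum `∑ n_i α_i`, `n ≠ 0`. PROOF: span induction, `pW_self`, `pW_ne`. -/
theorem pW_TE {μ : M} (h : ∀ n : b.support → ℕ, n ≠ 0 → μ ≠ ∑ i, (n i : ℚ) • P.root i) {U : Matrix (I b) (I b) ℚ} (hU : U ∈ Submodule.span ℚ (TE b)) : pW b ℚ μ U = 0 := by
  induction hU using Submodule.span_induction with
  | mem x hx =>
    obtain ⟨-, n, hn, hw, -⟩ := hx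
    rw [one_smul] at hw
    exact pW_ne hw (h n hn)
  | zero => exact map_zero _
  | add x y _ _ hx hy => rw [map_add, hx, hy, add_zero]
  | smul a x _ hx => rw [map_smul, hx, smul_zero]

theorem pW_TF {μ : M} (h : ∀ n : b.support → ℕ, n ≠ 0 → μ ≠ -∑ i, (n i : ℚ) • P.root i) {U : Matrix (I b) (I b) ℚ} (hU : U ∈ Submodule.span ℚ (TF b)) : pW b ℚ μ U = 0 := by
  induction hU using Submodule.span_induction with
  | mem x hx =>
    obtain ⟨-, n, hn, hw, -⟩ := hx
    rw [neg_smul, one_smul] at hw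
    exact pW_ne hw (h n hn)
  | zero => exact map_zero _
  | add x y _ _ hx hy => rw [map_add, hx, hy, add_zero]
  | smul a x _ hx => rw [map_smul, hx, smul_zero]

/-- PROOF: if `μ ≠ 0` is not of one of the two forms then in `X = H + U + L` (`gg_decomp`) all components of the weight `μ` vanish (`H` has the weight zero), `X = pW μ X = 0`. -/
theorem gg_wt {X : Matrix (I b) (I b) ℚ} (hX : X ∈ gg b) {μ : M} (h : HasWt b μ X) (h0 : X ≠ 0) :
    μ = 0 ∨ (∃ n : b.support → ℕ, n ≠ 0 ∧ μ = ∑ i, (n i : ℚ) • P.root i) ∨ ∃ n : b.support → ℕ, n ≠ 0 ∧ μ = -∑ i, (n i : ℚ) • P.root i := by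
  by_contra hcon
  push Not at hcon
  obtain ⟨h1, h2, h3⟩ := hcon
  obtain ⟨H, hH, U, hU, L, hL, rfl⟩ := gg_decomp hX
  apply h0
  rw [← pW_self h, map_add, map_add, l113_hh h1 hH, pW_TE h2 hU, pW_TF h3 hL, add_zero, add_zero]

/-- Weight zero. PROOF: `0` is not `± ∑ n_i α_i` with `n ≠ 0` (`b.linearIndepOn_root`), so `X = pW 0 X = pW 0 H = H`. -/
theorem gg_zero {X : Matrix (I b) (I b) ℚ} (hX : X ∈ gg b) (h : HasWt b 0 X) : X ∈ hh b := by
  obtain ⟨H, hH, U, hU, L, hL, rfl⟩ := gg_decomp hX
  have hne : ∀ n : b.support → ℕ, n ≠ 0 → (0 : M) ≠ ∑ i, (n i : ℚ) • P.root i := by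
    intro n hn h1
    have h2 : ∑ i : b.support, (0 : b.support → ℚ) i • P.root i = ∑ i : b.support, (fun j => (n j : ℚ)) i • P.root i := by
      simp only [Pi.zero_apply, zero_smul, Finset.sum_const_zero]
      exact h1
    have h3 := l113_li h2
    apply hn
    funext i
    have h4 := congrFun h3 i
    simp only [Pi.zero_apply] at h4
    exact_mod_cast h4.symm
  have h1 : pW b ℚ 0 (H + U + L) = H := by
    rw [map_add, map_add, l113_h0 hH, pW_TE hne hU, pW_TF (fun n hn h2 => hne n hn (by rw [eq_comm, neg_eq_zero] at h2; exact h2.symm)) hL,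
      add_zero, add_zero]
  rw [← pW_self h, h1]
  exact hH

/-- The weights `m α_i`, `m ≥ 1`. PROOF: `X = pW μ X`; `pW μ H = 0`, `pW μ L = 0` (`m α_i` is not `-∑ n_j α_j`, linear independence); for `Y ∈ TE` with the coefficients `n`: if `∑ n_j α_j = m α_i` then `n` is supported at `i`
(linear independence) and `Y = a e_i`, `pW μ Y = Y`; otherwise `pW μ Y = 0`. So `pW μ U ∈ ℚ e_i` by span induction. -/
theorem gg_simple {X : Matrix (I b) (I b) ℚ} (hX : X ∈ gg b) (i : b.support) {m : ℕ} (hm : m ≠ 0) (h : HasWt b ((m : ℚ) • P.root i) X) : ∃ a : ℚ, X = a • toA ℚ (eZ b i) := by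
  have hm' : (m : ℚ) ≠ 0 := by exact_mod_cast hm
  have hs : (m : ℚ) • P.root i = ∑ j : b.support, (Pi.single i (m : ℚ) : b.support → ℚ) j • P.root j := by
    rw [Finset.sum_eq_single i]
    · rw [Pi.single_eq_same]
    · intro j _ hj
      rw [Pi.single_eq_of_ne hj, zero_smul]
    · intro h
      exact absurd (Finset.mem_univ i) h
  have hμ : (m : ℚ) • P.root i ≠ 0 := smul_ne_zero hm' (P.ne_zero i)
  obtain ⟨H, hH, U, hU, L, hL, rfl⟩ := gg_decomp hX
  have hF : pW b ℚ ((m : ℚ) • P.root i) L = 0 := by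
    refine pW_TF (fun n hn h2 => ?_) hL
    rw [hs, ← Finset.sum_neg_distrib] at h2
    have h3 : ∑ j : b.support, (Pi.single i (m : ℚ) : b.support → ℚ) j • P.root j =
        ∑ j : b.support, (fun j => -(n j : ℚ)) j • P.root j := by
      rw [h2]
      exact Finset.sum_congr rfl fun j _ => by rw [neg_smul]
    have h4 := congrFun (l113_li h3) i
    rw [Pi.single_eq_same] at h4
    have h5 : (0 : ℚ) < m := by exact_mod_cast Nat.pos_of_ne_zero hm
    have h6 : (0 : ℚ) ≤ n i := Nat.cast_nonneg _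
    linarith
  have hE : ∃ a : ℚ, pW b ℚ ((m : ℚ) • P.root i) U = a • toA ℚ (eZ b i) := by
    clear h hX
    induction hU using Submodule.span_induction with
    | mem x hx =>
      obtain ⟨-, n, hn, hw, hsup⟩ := hx
      rw [one_smul] at hw
      by_cases heq : (m : ℚ) • P.root i = ∑ j, (n j : ℚ) • P.root j
      · have h3 : ∑ j : b.support, (Pi.single i (m : ℚ) : b.support → ℚ) j • P.root j =
            ∑ j : b.support, (fun j => (n j : ℚ)) j • P.root j := by
          rw [← hs]
          exact heq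
        have h4 := l113_li h3
        have h5 : ∀ j, j ≠ i → n j = 0 := by
          intro j hj
          have h6 := congrFun h4 j
          rw [Pi.single_eq_of_ne hj] at h6
          exact_mod_cast h6.symm
        obtain ⟨a, ha⟩ := hsup i h5
        refine ⟨a, ?_⟩
        rw [heq, pW_self hw]
        exact ha
      · refine ⟨0, ?_⟩
        rw [pW_ne hw heq, zero_smul]
    | zero => exact ⟨0, by rw [map_zero, zero_smul]⟩
    | add x y _ _ hx hy =>
      obtain ⟨a, ha⟩ := hx
      obtain ⟨a', ha'⟩ := hy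
      exact ⟨a + a', by rw [map_add, ha, ha', add_smul]⟩
    | smul c x _ hx =>
      obtain ⟨a, ha⟩ := hx
      exact ⟨c * a, by rw [map_smul, ha, smul_smul]⟩
  obtain ⟨a, ha⟩ := hE
  refine ⟨a, ?_⟩
  rw [← pW_self h, map_add, map_add, l113_hh hμ hH, hF, ha, zero_add, add_zero]

end

end Pool.Agent.Lib.L1S
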