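import Pool.Agent.Lib.L1S.L111
import Pool.Agent.Lib.L1S.L104
import Pool.Agent.Lib.L1S.L108

/-! # L1S, module L1, chunk L114 (S/M): conjugation by `n_i` preserves Geck's Lie algebra -/

namespace Pool.Agent.Lib.L1S

open Matrix

noncomputable section

attribute [local instance 100] LieRing.ofAssociativeRing

variable {ι M N : Type} [Fintype ι] [DecidableEq ι] [AddCommGroup M] [Module ℚ M] [AddCommGroup N] [Module ℚ N]
  {P : RootPairing ι ℚ M N} [P.IsCrystallographic] {b : P.Base} [P.IsReduced]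

theorem l114_ex {n : Type} [Fintype n] [DecidableEq n] (X : Matrix n n ℤ) (t : ℤ) :
    toA ℚ (ex X t) = ex X (t : ℚ) := ex_map X (Int.castRingHom ℚ) t

/-- PROOF: `DP.ad_mem` with `S = (gg b).toSubmodule` (`toA_eZ`, `e_mem_lieAlgebra`, `LieSubalgebra.lie_mem`). -/
theorem gg_ex_eZ (i : b.support) (t : ℚ) {X : Matrix (I b) (I b) ℚ} (hX : X ∈ gg b) : ex (eZ b i) t * X * ex (eZ b i) (-t) ∈ gg b := by
  refine (DP_eZ i).ad_mem (gg b).toSubmodule (fun Y hY => ?_) t hX
  rw [toA_eZ]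
  exact (gg b).lie_mem (RootPairing.GeckConstruction.e_mem_lieAlgebra i) hY

theorem gg_ex_fZ (i : b.support) (t : ℚ) {X : Matrix (I b) (I b) ℚ} (hX : X ∈ gg b) : ex (fZ b i) t * X * ex (fZ b i) (-t) ∈ gg b := by
  refine (DP_fZ i).ad_mem (gg b).toSubmodule (fun Y hY => ?_) t hX
  rw [toA_fZ]
  exact (gg b).lie_mem (RootPairing.GeckConstruction.f_mem_lieAlgebra i) hY

/-- PROOF: three times `gg_ex_eZ`, `gg_ex_fZ`; `toA ℚ (ex X t) = ex X (t : ℚ)` is `ex_map` for `Int.castRingHom ℚ`. -/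
theorem gg_nZ (i : b.support) {X : Matrix (I b) (I b) ℚ} (hX : X ∈ gg b) : toA ℚ (nZ b i) * X * toA ℚ (nZ' b i) ∈ gg b := by
  have h1 := gg_ex_eZ i 1 (gg_ex_fZ i (-1) (gg_ex_eZ i 1 hX))
  rw [neg_neg] at h1
  unfold nZ nZ'
  rw [toA_mul, toA_mul, toA_mul, toA_mul, l114_ex, l114_ex, l114_ex, l114_ex, Int.cast_one,
    Int.cast_neg, Int.cast_one]
  simp only [mul_assoc] at h1 ⊢
  exact h1

theorem gg_nZ' (i : b.support) {X : Matrix (I b) (I b) ℚ} (hX : X ∈ gg b) : toA ℚ (nZ' b i) * X * toA ℚ (nZ b i) ∈ gg b := by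
  have h1 := gg_ex_eZ i (-1) (gg_ex_fZ i 1 (gg_ex_eZ i (-1) hX))
  rw [neg_neg] at h1
  unfold nZ nZ'
  rw [toA_mul, toA_mul, toA_mul, toA_mul, l114_ex, l114_ex, l114_ex, l114_ex, Int.cast_one,
    Int.cast_neg, Int.cast_one]
  simp only [mul_assoc] at h1 ⊢
  exact h1

theorem l114_cons (i : b.support) (l : List b.support) : nL b (i :: l) = nZ b i * nL b l := by
  unfold nL
  rw [List.map_cons, List.prod_cons]

theorem l114_cons' (i : b.support) (l : List b.support) : nL' b (i :: l) = nL' b l * nZ' b i := by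
  unfold nL'
  rw [List.reverse_cons, List.map_append, List.prod_append, List.map_singleton,
    List.prod_singleton]

theorem gg_nL (l : List b.support) {X : Matrix (I b) (I b) ℚ} (hX : X ∈ gg b) : toA ℚ (nL b l) * X * toA ℚ (nL' b l) ∈ gg b := by
  induction l with
  | nil =>
    have h1 : toA ℚ (nL b []) = 1 := toA_one
    have h2 : toA ℚ (nL' b []) = 1 := toA_one
    rw [h1, h2, one_mul, mul_one]
    exact hX
  | cons i l ih =>
    have h1 := gg_nZ i ih
    rw [l114_cons, l114_cons', toA_mul, toA_mul]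
    simp only [mul_assoc] at h1 ⊢
    exact h1

theorem gg_nL' (l : List b.support) {X : Matrix (I b) (I b) ℚ} (hX : X ∈ gg b) : toA ℚ (nL' b l) * X * toA ℚ (nL b l) ∈ gg b := by
  induction l generalizing X with
  | nil =>
    have h1 : toA ℚ (nL b []) = 1 := toA_one
    have h2 : toA ℚ (nL' b []) = 1 := toA_one
    rw [h1, h2, one_mul, mul_one]
    exact hX
  | cons i l ih =>
    have h1 := ih (gg_nZ' i hX)
    rw [l114_cons, l114_cons', toA_mul, toA_mul]
    simp only [mul_assoc] at h1 ⊢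
    exact h1

/-- Geck's involution. PROOF: Mathlib `RootPairing.GeckConstruction.ωConj_mem_of_mem`, `ωConj_apply`, `toA ℚ (oZ b) = RootPairing.GeckConstruction.ω b`. -/
theorem gg_oZ {X : Matrix (I b) (I b) ℚ} (hX : X ∈ gg b) : toA ℚ (oZ b) * X * toA ℚ (oZ b) ∈ gg b := by
  have h1 : toA ℚ (oZ b) = RootPairing.GeckConstruction.ω b := by
    unfold oZ RootPairing.GeckConstruction.ω toA
    ext r c
    rcases r with r | r <;> rcases c with c | c
    · simp [Matrix.one_apply]
    · simp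
    · simp
    · simp only [Matrix.map_apply, Matrix.fromBlocks_apply₂₂, Matrix.of_apply]
      by_cases h : r = ng P c
      · rw [if_pos h]
        exact (Int.cast_one).trans (if_pos h).symm
      · rw [if_neg h]
        exact (Int.cast_zero).trans (if_neg h).symm
  rw [h1]
  exact RootPairing.GeckConstruction.ωConj_mem_of_mem hX

theorem eZ_mem (i : b.support) : toA ℚ (eZ b i) ∈ gg b := by
  rw [toA_eZ]
  exact RootPairing.GeckConstruction.e_mem_lieAlgebra i

theorem fZ_mem (i : b.support) : toA ℚ (fZ b i) ∈ gg b := by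
  rw [toA_fZ]
  exact RootPairing.GeckConstruction.f_mem_lieAlgebra i

theorem hZ_mem (i : b.support) : toA ℚ (hZ b i) ∈ gg b := by
  rw [toA_hZ]
  exact RootPairing.GeckConstruction.h_mem_lieAlgebra i

end

end Pool.Agent.Lib.L1S
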