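import Pool.Agent.Lib.L1S.L110
import Pool.Agent.Lib.L1S.L113
import Pool.Agent.Lib.L1S.L114
import Pool.Agent.Lib.L1S.L115

/-! # L1S, module L1, chunk L116 (M): the nonzero weights of Geck's Lie algebra are roots -/

namespace Pool.Agent.Lib.L1S

open Matrix

noncomputable section

attribute [local instance 100] LieRing.ofAssociativeRing

variable {ι M N : Type} [Fintype ι] [DecidableEq ι] [AddCommGroup M] [Module ℚ M] [AddCommGroup N] [Module ℚ N]
  {P : RootPairing ι ℚ M N} [P.IsCrystallographic] {b : P.Base} [P.IsReduced] [P.IsIrreducible] [P.IsRootSystem]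

/-- `s_i (∑ n_j α_j) = ∑ n_j α_j - p α_i` with `p = ⟨∑ n_j α_j, α_i^∨⟩ = ∑ n_j pairingIn ℤ j i`. -/
theorem reflect_sum (i : b.support) (n : b.support → ℕ) :
    P.reflection i (∑ j, (n j : ℚ) • P.root j) = ∑ j, (n j : ℚ) • P.root j - ((∑ j, (n j : ℤ) * P.pairingIn ℤ j i : ℤ) : ℚ) • P.root i := by
  rw [RootPairing.reflection_apply]
  congr 2
  rw [map_sum, Int.cast_sum]
  refine Finset.sum_congr rfl fun j _ => ?_
  rw [map_smul, smul_eq_mul, Int.cast_mul, Int.cast_natCast]
  congr 1
  have h1 : P.coroot' i (P.root j) = P.pairing j i := by simp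
  rw [h1]
  exact (P.algebraMap_pairingIn ℤ j i).symm

theorem l116_symm (i : ι) : ((P.reflection i).symm : M → M) = P.reflection i := by
  funext x
  rw [LinearEquiv.symm_apply_eq]
  exact (P.reflection_same i x).symm

theorem l116_coroot (i : b.support) (n : b.support → ℕ) :
    P.coroot' i (∑ j, (n j : ℚ) • P.root j) = ((∑ j, (n j : ℤ) * P.pairingIn ℤ j i : ℤ) : ℚ) := by
  rw [map_sum, Int.cast_sum]
  refine Finset.sum_congr rfl fun j _ => ?_
  rw [map_smul, smul_eq_mul, Int.cast_mul, Int.cast_natCast]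
  congr 1
  have h1 : P.coroot' i (P.root j) = P.pairing j i := by simp
  rw [h1]
  exact (P.algebraMap_pairingIn ℤ j i).symm

theorem l116_single (i : b.support) (n : b.support → ℕ) (h : ∀ j, j ≠ i → n j = 0) :
    ∑ j, (n j : ℚ) • P.root j = (n i : ℚ) • P.root i := by
  rw [Finset.sum_eq_single i]
  · intro j _ hj
    rw [h j hj, Nat.cast_zero, zero_smul]
  · intro h
    exact absurd (Finset.mem_univ i) h

theorem l116_ne {w w' X : Matrix (I b) (I b) ℚ} (h : w' * w = 1) (h' : w * w' = 1) (hX : X ≠ 0) : w * X * w' ≠ 0 := by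
  intro h0
  apply hX
  have h1 : w' * (w * X * w') * w = X := by
    calc w' * (w * X * w') * w = (w' * w) * X * (w' * w) := by simp only [mul_assoc]
      _ = X := by rw [h, one_mul, mul_one]
  rw [← h1, h0, mul_zero, zero_mul]

/-- The induction. -/
theorem l116_main (m : ℕ) : ∀ n : b.support → ℕ, ∑ i, n i = m → n ≠ 0 → ∀ X : Matrix (I b) (I b) ℚ, X ∈ gg b → X ≠ 0 →
    HasWt b (∑ i, (n i : ℚ) • P.root i) X → ∃ β : ι, P.root β = ∑ i, (n i : ℚ) • P.root i := by
  induction m using Nat.strong_induction_on with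
  | _ m ih =>
  intro n hm hn X hX h0 h
  by_cases hsup : ∃ i, ∀ j, j ≠ i → n j = 0
  · obtain ⟨i, hi⟩ := hsup
    have hni : n i ≠ 0 := by
      intro h1
      apply hn
      funext j
      by_cases hj : j = i
      · rw [hj, h1]
        rfl
      · exact hi j hj
    have hs := l116_single i n hi
    rw [hs] at h ⊢
    obtain ⟨a, ha⟩ := gg_simple hX i hni h
    have h1 : HasWt b (P.root i) X := by
      rw [ha]
      exact (hasWt_eZ i).toA.smul a
    exact ⟨i, HasWt.unique h1 h h0⟩
  · push Not at hsup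
    obtain ⟨i, hni, hpos⟩ := exists_pos n hn
    obtain ⟨j, hji, hnj⟩ := hsup i
    have hw := OverW.conj (P.reflection i) (nZ_over b i).toA (w' := toA ℚ (nZ' b i))
      (by rw [l116_symm]; exact (nZ_over' b i).toA) h
    have hX' := gg_nZ i hX
    have h0' : toA ℚ (nZ b i) * X * toA ℚ (nZ' b i) ≠ 0 :=
      l116_ne (by rw [← toA_mul, nZ_mul', toA_one]) (by rw [← toA_mul, nZ_mul, toA_one]) h0
    rw [reflect_sum] at hw
    rw [l116_coroot] at hpos
    set p : ℤ := ∑ j, (n j : ℤ) * P.pairingIn ℤ j i with hp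
    have hp0 : 0 < p := by exact_mod_cast hpos
    -- the coefficients of `s_i μ`
    let c : b.support → ℚ := fun k => (n k : ℚ) - (Pi.single i (p : ℚ) : b.support → ℚ) k
    have hc : ∑ k, (n k : ℚ) • P.root k - (p : ℚ) • P.root i = ∑ k, c k • P.root k := by
      simp only [c, sub_smul, Finset.sum_sub_distrib]
      congr 1
      rw [Finset.sum_eq_single i]
      · rw [Pi.single_eq_same]
      · intro k _ hk
        rw [Pi.single_eq_of_ne hk, zero_smul]
      · intro h
        exact absurd (Finset.mem_univ i) h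
    have hcj : c j = n j := by
      simp only [c, Pi.single_eq_of_ne hji, sub_zero]
    have hnj' : (0 : ℚ) < n j := by exact_mod_cast Nat.pos_of_ne_zero hnj
    rcases gg_wt hX' hw h0' with h1 | ⟨n', hn', h1⟩ | ⟨n', hn', h1⟩
    · exfalso
      rw [hc] at h1
      have h2 : ∑ k, c k • P.root k = ∑ k, (0 : b.support → ℚ) k • P.root k := by
        rw [h1]
        simp only [Pi.zero_apply, zero_smul, Finset.sum_const_zero]
      have h3 := congrFun (l113_li h2) j
      rw [hcj] at h3
      exact absurd h3 hnj'.ne'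
    · rw [hc] at h1
      have h2 := l113_li (b := b) (a := c) (c := fun k => (n' k : ℚ)) h1
      have h3 : ∀ k, k ≠ i → n' k = n k := by
        intro k hk
        have h4 := congrFun h2 k
        simp only [c, Pi.single_eq_of_ne hk, sub_zero] at h4
        exact_mod_cast h4.symm
      have h4 : (n' i : ℤ) = n i - p := by
        have h5 := congrFun h2 i
        simp only [c, Pi.single_eq_same] at h5
        exact_mod_cast h5.symm
      have h5 : ∑ k, n' k < m := by
        rw [← hm]
        refine Finset.sum_lt_sum (fun k _ => ?_) ⟨i, Finset.mem_univ i, ?_⟩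
        · by_cases hk : k = i
          · rw [hk]
            omega
          · rw [h3 k hk]
        · omega
      have h6 : HasWt b (∑ k, (n' k : ℚ) • P.root k) (toA ℚ (nZ b i) * X * toA ℚ (nZ' b i)) := by
        rw [← h1, ← hc]
        exact hw
      obtain ⟨β, hβ⟩ := ih _ h5 n' rfl hn' _ hX' h0' h6
      refine ⟨P.reflectionPerm i β, ?_⟩
      rw [P.root_reflectionPerm, hβ, ← h1, ← hc, ← reflect_sum, P.reflection_same]
    · exfalso
      rw [hc, ← Finset.sum_neg_distrib] at h1
      have h2 : ∑ k, c k • P.root k = ∑ k, (fun k => -(n' k : ℚ)) k • P.root k := by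
        rw [h1]
        exact Finset.sum_congr rfl fun k _ => by rw [neg_smul]
      have h3 := congrFun (l113_li h2) j
      rw [hcj] at h3
      have h4 : (0 : ℚ) ≤ n' j := Nat.cast_nonneg _
      linarith

/-- The positive case. PROOF: strong induction on `∑ n_i`. If `n` is supported at one index `i`, then `μ = m α_i`, `X = a e_i` (`gg_simple`), `a ≠ 0`, so `μ = α_i` (`HasWt.unique`, `hasWt_eZ`). Otherwise take `i` from `exists_pos`,
`p = ⟨μ, α_i^∨⟩ > 0` an integer; `X' = n_i X n_i⁻¹ ∈ gg b` (`gg_nZ`) is nonzero of the weight `s_i μ` (`OverW.conj`, `nZ_over`, `nZ_over'`, `OverW.toA`), `s_i μ = ∑ n_j α_j - p α_i` (`reflect_sum`) has the positive coefficient `n_j`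
for some `j ≠ i`, so by `gg_wt` and linear independence `s_i μ = ∑ n'_j α_j` with `n'_j = n_j` (`j ≠ i`), `n'_i = n_i - p`: smaller sum; by induction `s_i μ = root γ`, `μ = s_i (root γ) = root (s_i γ)` (`P.root_reflectionPerm`). -/
theorem gg_root_pos (n : b.support → ℕ) (hn : n ≠ 0) {X : Matrix (I b) (I b) ℚ} (hX : X ∈ gg b) (h0 : X ≠ 0) (h : HasWt b (∑ i, (n i : ℚ) • P.root i) X) :
    ∃ β : ι, P.root β = ∑ i, (n i : ℚ) • P.root i := by
  exact l116_main _ n rfl hn X hX h0 h

/-- **The nonzero weights are roots.** PROOF: `gg_wt`; if `μ = -∑ n_i α_i` apply `gg_root_pos` to `ω X ω` (`gg_oZ`; weight `-μ` by `OverW.conj` with `oZ_over`, or directly; `ω² = 1`). -/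
theorem gg_root {X : Matrix (I b) (I b) ℚ} (hX : X ∈ gg b) (h0 : X ≠ 0) {μ : M} (hμ : μ ≠ 0) (h : HasWt b μ X) : ∃ β : ι, P.root β = μ := by
  rcases gg_wt hX h h0 with h1 | ⟨n, hn, h1⟩ | ⟨n, hn, h1⟩
  · exact absurd h1 hμ
  · rw [h1] at h ⊢
    exact gg_root_pos n hn hX h0 h
  · have hoo : toA ℚ (oZ b) * toA ℚ (oZ b) = 1 := by rw [← toA_mul, oZ_mul, toA_one]
    have hw := OverW.conj (LinearEquiv.neg ℚ : M ≃ₗ[ℚ] M) (w := toA ℚ (oZ b)) (w' := toA ℚ (oZ b)) oZ_over.toA oZ_over.toA h
    have h2 : (LinearEquiv.neg ℚ : M ≃ₗ[ℚ] M) μ = ∑ i, (n i : ℚ) • P.root i := by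
      rw [h1, LinearEquiv.neg_apply, neg_neg]
    rw [h2] at hw
    obtain ⟨β, hβ⟩ := gg_root_pos n hn (gg_oZ hX) (l116_ne hoo hoo h0) hw
    refine ⟨P.reflectionPerm β β, ?_⟩
    have h3 : P.root (P.reflectionPerm β β) = -P.root β := by simp
    rw [h3, hβ, h1]

end

end Pool.Agent.Lib.L1S
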