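import Pool.Agent.Lib.L1S.L118

/-! # L1S, module L1, chunk L126 (M): the matrices which commute with all `e_i`, `f_i` are scalar -/

namespace Pool.Agent.Lib.L1S

open Matrix

noncomputable section

variable {ι M N : Type} [Fintype ι] [DecidableEq ι] [AddCommGroup M] [Module ℚ M] [AddCommGroup N] [Module ℚ N]
  {P : RootPairing ι ℚ M N} [P.IsCrystallographic] [P.IsReduced] [P.IsIrreducible] [P.IsRootSystem] (b : P.Base)

theorem l126_sep {x : M} (h : ∀ i ∈ b.support, P.coroot' i x = 0) : x = 0 := by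
  have h1 : ∀ n ∈ Submodule.span ℚ (P.coroot '' b.support), P.toLinearMap.flip n x = 0 := by
    intro n hn
    induction hn using Submodule.span_induction with
    | mem y hy =>
      obtain ⟨i, hi, rfl⟩ := hy
      exact h i hi
    | zero => rw [map_zero, LinearMap.zero_apply]
    | add y z _ _ hy hz => rw [map_add, LinearMap.add_apply, hy, hz, add_zero]
    | smul a y _ hy => rw [map_smul, LinearMap.smul_apply, hy, smul_zero]
  have htop : P.corootSpan ℚ = ⊤ := RootPairing.IsRootSystem.span_coroot_eq_top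
  rw [b.span_coroot_support, htop] at h1
  have h2 : P.toLinearMap.toPerfPair x = P.toLinearMap.toPerfPair 0 := by
    refine LinearMap.ext fun n => ?_
    rw [map_zero, LinearMap.zero_apply]
    exact h1 n Submodule.mem_top
  exact P.toLinearMap.toPerfPair.injective h2

/-- PROOF: `X` commutes with `h_i = [e_i, f_i]` (`eZ_fZ`), so `X r c (⟨wt r, α_i^∨⟩ - ⟨wt c, α_i^∨⟩) = 0`: the entries with `wt r ≠ wt c` vanish (the coroots of the base separate the weights). -/
theorem l126_wt {K : Type} [Field K] [CharZero K] (X : Matrix (I b) (I b) K) (he : ∀ i : b.support, X * toA K (eZ b i) = toA K (eZ b i) * X)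
    (hf : ∀ i : b.support, X * toA K (fZ b i) = toA K (fZ b i) * X) : HasWt b (0 : M) X := by
  intro r c hrc
  rw [add_zero, ← sub_eq_zero]
  refine l126_sep b fun i hi => ?_
  have h1 : toA K (hZ b ⟨i, hi⟩) = toA K (eZ b ⟨i, hi⟩) * toA K (fZ b ⟨i, hi⟩)
      - toA K (fZ b ⟨i, hi⟩) * toA K (eZ b ⟨i, hi⟩) := by
    rw [← toA_mul, ← toA_mul, ← toA_sub, eZ_fZ]
  have h2 : X * toA K (hZ b ⟨i, hi⟩) = toA K (hZ b ⟨i, hi⟩) * X := by
    rw [h1]
    have e1 := he ⟨i, hi⟩
    have e2 := hf ⟨i, hi⟩
    set e := toA K (eZ b ⟨i, hi⟩)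
    set f := toA K (fZ b ⟨i, hi⟩)
    calc X * (e * f - f * e) = (X * e) * f - (X * f) * e := by
          rw [mul_sub, mul_assoc, mul_assoc]
      _ = (e * X) * f - (f * X) * e := by rw [e1, e2]
      _ = e * (X * f) - f * (X * e) := by rw [mul_assoc, mul_assoc]
      _ = e * (f * X) - f * (e * X) := by rw [e1, e2]
      _ = (e * f - f * e) * X := by rw [sub_mul, mul_assoc, mul_assoc]
  rw [toA_hZ_eq] at h2
  unfold Dl at h2
  have h3 := congrFun (congrFun h2 r) c
  rw [Matrix.mul_diagonal, Matrix.diagonal_mul, mul_comm] at h3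
  have h4 := mul_right_cancel₀ hrc h3
  have h5 := (algebraMap ℚ K).injective h4
  rw [map_sub, h5, sub_self]

/-- PROOF: `d γ := X (inr γ) (inr γ)`. (a) `root δ = root i + root γ`: the entry `(inr δ, inr γ)` of `X e_i = e_i X` is `d δ (p + 1) = (p + 1) d γ`, so `d δ = d γ`. (b) entry `(inl k, inr j)` of `X f_j = f_j X` (`f_j v_j = u_j`):
`X (inl k) (inl j) = δ_kj d j`. So `X` is diagonal with `X (inl j) (inl j) = d j`. (c) entry `(inl i, inr (-i))` of `X e_i = e_i X`: `X (inl i) (inl i) = d (-i)`: `d (-i) = d i`. (d) entry `(inr i, inl j)`: `d i |c_ij| = |c_ij| d j`: `d i = d j`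
if `c_ij ≠ 0`. By `b.induction_on_cartanMatrix` all `d i`, `i` simple, are equal to one number `a`. (e) `d γ = a ∧ d (-γ) = a` for all roots: `b.induction_add`: if `root δ = root γ + root i` then also `root (-γ) = root i + root (-δ)`, use (a). -/
theorem scalar_of_comm {K : Type} [Field K] [CharZero K] (X : Matrix (I b) (I b) K) (he : ∀ i : b.support, X * toA K (E b (i : ι)) = toA K (E b (i : ι)) * X)
    (hf : ∀ i : b.support, X * toA K (E b (ng P i)) = toA K (E b (ng P i)) * X) : ∃ a : K, X = a • (1 : Matrix (I b) (I b) K) := by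
  simp only [E_simple] at he
  simp only [E_neg_simple] at hf
  have hX := l126_wt b X he hf
  have hRow : ∀ δ s, s ≠ Sum.inr δ → X (Sum.inr δ) s = 0 := by
    intro δ s hs
    by_contra h
    have h1 := hX _ _ h
    rw [add_zero] at h1
    rcases s with s | s
    · exact P.ne_zero δ h1
    · apply hs
      exact congrArg Sum.inr (P.root.injective h1).symm
  have hCol : ∀ γ s, s ≠ Sum.inr γ → X s (Sum.inr γ) = 0 := by
    intro γ s hs
    by_contra h
    have h1 := hX _ _ h
    rw [add_zero] at h1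
    rcases s with s | s
    · exact P.ne_zero γ h1.symm
    · apply hs
      exact congrArg Sum.inr (P.root.injective h1)
  have hXl : ∀ (Z : Matrix (I b) (I b) K) δ c,
      (X * Z) (Sum.inr δ) c = X (Sum.inr δ) (Sum.inr δ) * Z (Sum.inr δ) c := by
    intro Z δ c
    rw [Matrix.mul_apply, Finset.sum_eq_single (Sum.inr δ)]
    · intro s _ hs
      rw [hRow δ s hs, zero_mul]
    · intro h
      exact absurd (Finset.mem_univ _) h
  have hXr : ∀ (Z : Matrix (I b) (I b) K) γ r,
      (Z * X) r (Sum.inr γ) = Z r (Sum.inr γ) * X (Sum.inr γ) (Sum.inr γ) := by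
    intro Z γ r
    rw [Matrix.mul_apply, Finset.sum_eq_single (Sum.inr γ)]
    · intro s _ hs
      rw [hCol γ s hs, mul_zero]
    · intro h
      exact absurd (Finset.mem_univ _) h
  -- (a)
  have ha : ∀ (i : b.support) (γ δ : ι), P.root δ = P.root i + P.root γ →
      X (Sum.inr δ) (Sum.inr δ) = X (Sum.inr γ) (Sum.inr γ) := by
    intro i γ δ hδ
    have h1 := congrFun (congrFun (he i) (Sum.inr δ)) (Sum.inr γ)
    rw [hXl, hXr] at h1
    have h2 : toA K (eZ b i) (Sum.inr δ) (Sum.inr γ) = ((P.chainBotCoeff i γ + 1 : ℕ) : K) := by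
      change ((eZ b i (Sum.inr δ) (Sum.inr γ) : ℤ) : K) = _
      have h3 : eZ b i (Sum.inr δ) (Sum.inr γ) = (P.chainBotCoeff i γ + 1 : ℤ) := by
        unfold eZ
        rw [Matrix.fromBlocks_apply₂₂, Matrix.of_apply, if_pos hδ]
      rw [h3]
      push_cast
      rfl
    rw [h2, mul_comm] at h1
    exact mul_left_cancel₀ (Nat.cast_ne_zero.2 (Nat.succ_ne_zero (P.chainBotCoeff i γ))) h1
  -- (b)
  have hb : ∀ k j : b.support, X (Sum.inl k) (Sum.inl j)
      = if k = j then X (Sum.inr (j : ι)) (Sum.inr (j : ι)) else 0 := by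
    intro k j
    have h1 := congrFun (congrFun (hf j) (Sum.inl k)) (Sum.inr (j : ι))
    rw [hXr] at h1
    have h2 : ∀ l : b.support, toA K (fZ b j) (Sum.inl l) (Sum.inr (j : ι)) = if l = j then 1 else 0 := by
      intro l
      change ((fZ b j (Sum.inl l) (Sum.inr (j : ι)) : ℤ) : K) = _
      rw [fZ_entry]
      split_ifs <;> simp
    rw [h2, Matrix.mul_apply, Fintype.sum_sum_type] at h1
    have h3 : ∑ s : ι, X (Sum.inl k) (Sum.inr s) * toA K (fZ b j) (Sum.inr s) (Sum.inr (j : ι)) = 0 := by
      refine Finset.sum_eq_zero fun s _ => ?_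
      rw [hCol s _ (by simp), zero_mul]
    rw [h3, add_zero, Finset.sum_eq_single j] at h1
    · rw [h2, if_pos rfl, mul_one] at h1
      rw [h1]
      split_ifs
      · rw [one_mul]
      · rw [zero_mul]
    · intro l _ hl
      rw [h2, if_neg hl, mul_zero]
    · intro h
      exact absurd (Finset.mem_univ _) h
  -- (c)
  have hc : ∀ i : b.support, X (Sum.inl i) (Sum.inl i) = X (Sum.inr (ng P i)) (Sum.inr (ng P i)) := by
    intro i
    have h1 := congrFun (congrFun (he i) (Sum.inl i)) (Sum.inr (ng P i))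
    rw [hXr] at h1
    have h2 : ∀ l : b.support, toA K (eZ b i) (Sum.inl l) (Sum.inr (ng P i)) = if l = i then 1 else 0 := by
      intro l
      change ((eZ b i (Sum.inl l) (Sum.inr (ng P i)) : ℤ) : K) = _
      rw [eZ_entry]
      split_ifs <;> simp
    rw [h2, if_pos rfl, one_mul, Matrix.mul_apply, Fintype.sum_sum_type] at h1
    have h3 : ∑ s : ι, X (Sum.inl i) (Sum.inr s) * toA K (eZ b i) (Sum.inr s) (Sum.inr (ng P i)) = 0 := by
      refine Finset.sum_eq_zero fun s _ => ?_
      rw [hCol s _ (by simp), zero_mul]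
    rw [h3, add_zero, Finset.sum_eq_single i] at h1
    · rw [h2, if_pos rfl, mul_one] at h1
      exact h1
    · intro l _ hl
      rw [h2, if_neg hl, mul_zero]
    · intro h
      exact absurd (Finset.mem_univ _) h
  -- (d)
  have hd : ∀ i j : b.support, b.cartanMatrix i j ≠ 0 →
      X (Sum.inr (i : ι)) (Sum.inr (i : ι)) = X (Sum.inr (j : ι)) (Sum.inr (j : ι)) := by
    intro i j hij
    have h1 := congrFun (congrFun (he i) (Sum.inr (i : ι))) (Sum.inl j)
    rw [hXl] at h1
    have h2 : toA K (eZ b i) (Sum.inr (i : ι)) (Sum.inl j) = ((|b.cartanMatrix i j| : ℤ) : K) := by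
      change ((eZ b i (Sum.inr (i : ι)) (Sum.inl j) : ℤ) : K) = _
      have h3 : eZ b i (Sum.inr (i : ι)) (Sum.inl j) = |b.cartanMatrix i j| := by
        unfold eZ
        rw [Matrix.fromBlocks_apply₂₁, Matrix.of_apply, if_pos rfl]
      rw [h3]
    have h3 : ((|b.cartanMatrix i j| : ℤ) : K) ≠ 0 := by
      exact_mod_cast abs_ne_zero.2 hij
    rw [Matrix.mul_apply, Fintype.sum_sum_type] at h1
    have h4 : ∑ s : ι, toA K (eZ b i) (Sum.inr (i : ι)) (Sum.inr s) * X (Sum.inr s) (Sum.inl j) = 0 := by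
      refine Finset.sum_eq_zero fun s _ => ?_
      rw [hRow s _ (by simp), mul_zero]
    rw [h4, add_zero, Finset.sum_eq_single j] at h1
    · rw [h2, hb, if_pos rfl, mul_comm] at h1
      exact mul_left_cancel₀ h3 h1
    · intro l _ hl
      rw [hb, if_neg hl, mul_zero]
    · intro h
      exact absurd (Finset.mem_univ _) h
  by_cases hne : Nonempty b.support
  · obtain ⟨i0⟩ := hne
    set a := X (Sum.inr (i0 : ι)) (Sum.inr (i0 : ι)) with ha0
    have hsimple : ∀ j : b.support, X (Sum.inr (j : ι)) (Sum.inr (j : ι)) = a := by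
      intro j
      refine b.induction_on_cartanMatrix (fun j => X (Sum.inr (j : ι)) (Sum.inr (j : ι)) = a)
        (i := i0) rfl ?_
      intro i j hi hij
      change X (Sum.inr (j : ι)) (Sum.inr (j : ι)) = a
      rw [hd j i hij]
      exact hi
    have hroot : ∀ γ : ι, P.root (ng P γ) = - P.root γ := by
      intro γ
      change P.root (P.reflectionPerm γ γ) = _
      rw [P.root_reflectionPerm, P.reflection_apply_self]
    have hnn : ∀ γ : ι, ng P (ng P γ) = γ := by
      intro γ
      apply P.root.injective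
      rw [hroot, hroot, neg_neg]
    have hall : ∀ γ : ι, X (Sum.inr γ) (Sum.inr γ) = a ∧ X (Sum.inr (ng P γ)) (Sum.inr (ng P γ)) = a := by
      intro γ
      refine b.induction_add γ (p := fun γ => X (Sum.inr γ) (Sum.inr γ) = a ∧
        X (Sum.inr (ng P γ)) (Sum.inr (ng P γ)) = a) ?_ ?_ ?_
      · intro i hi
        refine ⟨hi.2, ?_⟩
        have h1 : ng P (P.reflectionPerm i i) = i := hnn i
        rw [h1]
        exact hi.1
      · intro i hi
        refine ⟨hsimple ⟨i, hi⟩, ?_⟩
        have h1 := hc ⟨i, hi⟩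
        rw [hb, if_pos rfl] at h1
        rw [← hsimple ⟨i, hi⟩]
        exact h1.symm
      · intro i j k hk hi hj
        constructor
        · have h1 := ha ⟨j, hj⟩ i k (by rw [hk, add_comm])
          rw [h1]
          exact hi.1
        · have h1 := ha ⟨j, hj⟩ (ng P k) (ng P i) (by
            rw [hroot, hroot, hk]
            simp)
          rw [← h1]
          exact hi.2
    refine ⟨a, ?_⟩
    ext r c
    rw [Matrix.smul_apply, smul_eq_mul]
    rcases r with r | r
    · rcases c with c | c
      · rw [hb, hsimple, Matrix.one_apply]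
        by_cases hrc : r = c
        · rw [if_pos hrc, if_pos (by rw [hrc]), mul_one]
        · rw [if_neg hrc, if_neg (fun h => hrc (Sum.inl_injective h)), mul_zero]
      · rw [hCol c _ (by simp), Matrix.one_apply_ne (by simp), mul_zero]
    · by_cases hrc : c = Sum.inr r
      · rw [hrc, (hall r).1, Matrix.one_apply_eq, mul_one]
      · rw [hRow r c hrc, Matrix.one_apply_ne (fun h => hrc h.symm), mul_zero]
  · refine ⟨0, ?_⟩
    ext r c
    exfalso
    rcases r with r | r
    · exact hne ⟨r⟩
    · exact b.induction_add r (p := fun _ => False) (fun _ h => h) (fun i hi => hne ⟨⟨i, hi⟩⟩)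
        (fun _ _ _ _ h _ => h)

end

end Pool.Agent.Lib.L1S
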