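import Pool.Agent.Lib.L1S.L10

/-! L1S, module L2 (helper89), file L20. -/

namespace Pool.Agent.Lib.L1S

open Matrix NumberField

noncomputable section

variable {ι M N : Type} [Fintype ι] [DecidableEq ι] [AddCommGroup M] [Module ℚ M] [AddCommGroup N] [Module ℚ N]
  {P : RootPairing ι ℚ M N} [P.IsCrystallographic] (b : P.Base) {A : Type} [CommRing A]

/-- `g - 1` raises the height by at least `k`. -/
def UTk (k : ℤ) (g : Matrix (I b) (I b) A) : Prop := ∀ r c, ht b r < ht b c + k → g r c = (1 : Matrix (I b) (I b) A) r c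

/-- The part of degree `k` (for the height) of a matrix. -/
def hcp (k : ℤ) (g : Matrix (I b) (I b) A) : Matrix (I b) (I b) A := Matrix.of fun r c => if ht b r = ht b c + k then g r c else 0

/-- `g` (with inverse `g'`) normalises the Lie algebra over `A`. -/
def Nmz (g g' : Matrix (I b) (I b) A) : Prop := g * g' = 1 ∧ g' * g = 1 ∧ ∀ X ∈ gR b A, g * X * g' ∈ gR b A ∧ g' * X * g ∈ gR b A

/-- The positive roots, sorted by height. -/
def posL : List ι := (Pos b).toList.insertionSort fun β γ => b.height β ≤ b.height γ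

/-- The ordered product of the `x_β(t_β)` over a list of roots. -/
def PL (L : List ι) (t : ι → A) : Matrix (I b) (I b) A := (L.map fun β => xx b β (t β)).prod

variable {b}

theorem Nmz.symm {g g' : Matrix (I b) (I b) A} (h : Nmz b g g') : Nmz b g' g := ⟨h.2.1, h.1, fun X hX => ⟨(h.2.2 X hX).2, (h.2.2 X hX).1⟩⟩

theorem Nmz.mul {g g' h h' : Matrix (I b) (I b) A} (hg : Nmz b g g') (hh : Nmz b h h') : Nmz b (g * h) (h' * g') := by
  refine ⟨?_, ?_, fun X hX => ⟨?_, ?_⟩⟩
  · rw [Matrix.mul_assoc, ← Matrix.mul_assoc h, hh.1, Matrix.one_mul, hg.1]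
  · rw [Matrix.mul_assoc, ← Matrix.mul_assoc g', hg.2.1, Matrix.one_mul, hh.2.1]
  · have := (hg.2.2 _ (hh.2.2 X hX).1).1
    simpa only [Matrix.mul_assoc] using this
  · have := (hh.2.2 _ (hg.2.2 X hX).2).2
    simpa only [Matrix.mul_assoc] using this

theorem UTk_mono {k l : ℤ} (h : k ≤ l) {g : Matrix (I b) (I b) A} (hg : UTk b l g) : UTk b k g := fun r c hrc => hg r c (by omega)

end

end Pool.Agent.Lib.L1S
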