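import Pool.Agent.Lib.L1S.L20
import Pool.Agent.Lib.L1S.L119

/-! L1S, module L2 (helper89), file L21. -/

namespace Pool.Agent.Lib.L1S

open Matrix NumberField

variable {ι M N : Type} [Fintype ι] [DecidableEq ι] [AddCommGroup M] [Module ℚ M] [AddCommGroup N] [Module ℚ N]
  {P : RootPairing ι ℚ M N} [P.IsCrystallographic] [P.IsReduced] [P.IsIrreducible] [P.IsRootSystem] (b : P.Base) {A : Type} [CommRing A]

/-- The height is additive along `dvp_wt`: if `wt r = wt c + k β` then `ht r = ht c + k ht β`. For `r = inr ρ`, `c = inr γ`: `RootPairing.Base.height_add_zsmul`. For `r = inl`, `c = inr γ`: `0 = γ + k β`, so `-γ = 0 + k β`; use that the height of a root is the sum of its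
coefficients in the base (`b.exists_root_eq_sum_int`, `RootPairing.Base.height_eq_sum`, linear independence `b.linearIndepOn_root`). Suggestion: prove first that there is a `ℚ`-linear form `l : M → ℚ` with `l (root β) = ht β` for all roots
(`b.toWeightBasis.constr ℚ (fun _ => 1)`), so `(ht b r : ℚ) = l (wt b r)` for all `r`; everything follows. -/
theorem exists_lht : ∃ l : M →ₗ[ℚ] ℚ, ∀ r : I b, l (wt b r) = (ht b r : ℚ) := by
  classical
  obtain ⟨l, hl⟩ : ∃ l : M →ₗ[ℚ] ℚ, ∀ i ∈ b.support, l (P.root i) = 1 := by
    refine ⟨b.toWeightBasis.constr ℚ (fun _ => (1 : ℚ)), fun i hi => ?_⟩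
    have h1 := b.toWeightBasis.constr_basis ℚ (fun _ => (1 : ℚ)) ⟨i, hi⟩
    rw [RootPairing.Base.toWeightBasis_apply] at h1
    exact h1
  refine ⟨l, fun r => ?_⟩
  rcases r with i | β
  · change l 0 = ((0 : ℤ) : ℚ)
    rw [map_zero, Int.cast_zero]
  · change l (P.root β) = (b.height β : ℚ)
    obtain ⟨f, -, -, hf⟩ := b.exists_root_eq_sum_int β
    rw [b.height_eq_sum hf, hf, map_sum, Int.cast_sum]
    refine Finset.sum_congr rfl fun j hj => ?_
    rw [map_zsmul, hl j hj, zsmul_eq_mul, mul_one]

theorem ht_of_wt (r c : I b) (k : ℕ) (β : ι) (h : wt b r = wt b c + (k : ℚ) • P.root β) : ht b r = ht b c + k * b.height β := by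
  obtain ⟨l, hl⟩ := exists_lht b
  have h1 := congrArg l h
  have h2 : l (P.root β) = (b.height β : ℚ) := hl (Sum.inr β)
  rw [map_add, map_smul, hl, hl, h2, smul_eq_mul] at h1
  exact_mod_cast h1

/-- `x_β(t) - 1 = ∑_{k≥1} t^k dvp E_β k` raises the height by at least `ht β` for `β` positive (`dvp_wt`, `ht_of_wt`). -/
theorem xx_UTk (β : ι) (hβ : 0 < b.height β) (t : A) : UTk b (b.height β) (xx b β t) := by
  intro r c hrc
  have h1 : ∀ k : ℕ, 1 ≤ k → dvp (E b β) k r c = 0 := by
    intro k hk
    by_contra hne
    have h2 := ht_of_wt b r c k β (dvp_wt b β k r c hne)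
    have h3 : b.height β ≤ k * b.height β := by
      have h4 : (1 : ℤ) ≤ k := by exact_mod_cast hk
      nlinarith
    omega
  simp only [xx, ex, Matrix.sum_apply, Matrix.smul_apply, Matrix.map_apply, smul_eq_mul]
  rw [Finset.sum_eq_single 0]
  · rw [dvp_zero, pow_zero, one_mul]
    by_cases h : r = c
    · subst h
      rw [Matrix.one_apply_eq, Matrix.one_apply_eq, Int.cast_one]
    · rw [Matrix.one_apply_ne h, Matrix.one_apply_ne h, Int.cast_zero]
  · intro k _ hk
    rw [h1 k (Nat.pos_of_ne_zero hk), Int.cast_zero, mul_zero]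
  · intro h
    exact absurd (Finset.mem_range.2 (by norm_num)) h

/-- The part of degree `ht β` of `x_β(t)` is `t E_β` (`β` positive): the term `k` of the sum has degree `k ht β`; `dvp_one`. -/
theorem xx_hcp (β : ι) (hβ : 0 < b.height β) (t : A) : hcp b (b.height β) (xx b β t) = t • toA A (E b β) := by
  ext r c
  simp only [hcp, Matrix.of_apply, xx, ex, Matrix.sum_apply, Matrix.smul_apply, Matrix.map_apply,
    smul_eq_mul]
  by_cases h : ht b r = ht b c + b.height β
  · rw [if_pos h, Finset.sum_eq_single 1]
    · rw [dvp_one, pow_one]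
    · intro k _ hk
      have h1 : dvp (E b β) k r c = 0 := by
        rcases Nat.eq_zero_or_pos k with h0 | h0
        · rw [h0, dvp_zero]
          have hne : r ≠ c := by
            rintro rfl
            omega
          exact Matrix.one_apply_ne hne
        · by_contra hne
          have h2 := ht_of_wt b r c k β (dvp_wt b β k r c hne)
          have h3 : (2 : ℤ) ≤ k := by
            have : 2 ≤ k := by omega
            exact_mod_cast this
          nlinarith
      rw [h1, Int.cast_zero, mul_zero]
    · intro h1
      exact absurd (Finset.mem_range.2 (by norm_num)) h1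
  · rw [if_neg h]
    have h1 : E b β r c = 0 := by
      by_contra hne
      rw [← dvp_one (E b β)] at hne
      have h2 := ht_of_wt b r c 1 β (dvp_wt b β 1 r c hne)
      rw [Nat.cast_one, one_mul] at h2
      exact h h2
    rw [h1, Int.cast_zero, mul_zero]

/-- `E_β` is homogeneous of degree `ht β` (`hasWt_E`, `ht_of_wt`). -/
theorem E_hcp (β : ι) (k : ℤ) : hcp b k (toA A (E b β)) = if b.height β = k then toA A (E b β) else 0 := by
  have h0 : ∀ r c, E b β r c ≠ 0 → ht b r = ht b c + b.height β := by
    intro r c hne
    rw [← dvp_one (E b β)] at hne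
    have h2 := ht_of_wt b r c 1 β (dvp_wt b β 1 r c hne)
    rwa [Nat.cast_one, one_mul] at h2
  by_cases hk : b.height β = k
  · rw [if_pos hk]
    ext r c
    simp only [hcp, Matrix.of_apply, Matrix.map_apply]
    by_cases h : ht b r = ht b c + k
    · rw [if_pos h]
    · rw [if_neg h]
      have h1 : E b β r c = 0 := by
        by_contra hne
        exact h (by rw [h0 r c hne, hk])
      rw [h1, Int.cast_zero]
  · rw [if_neg hk]
    ext r c
    simp only [hcp, Matrix.of_apply, Matrix.map_apply, Matrix.zero_apply]
    by_cases h : ht b r = ht b c + k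
    · rw [if_pos h]
      have h1 : E b β r c = 0 := by
        by_contra hne
        have h2 := h0 r c hne
        omega
      rw [h1, Int.cast_zero]
    · rw [if_neg h]

/-- `cf β` reads entries of degree `ht β` only: the entries `(inl j, inr (-β))` have degree `0 - ht(-β) = ht β` (`RootPairing.Base.height_reflectionPerm_self`). -/
theorem cf_hcp (β : ι) (g : Matrix (I b) (I b) A) : cf b β g = cf b β (hcp b (b.height β) g) := by
  unfold cf
  refine Finset.sum_congr rfl fun j _ => ?_
  congr 1
  have h1 : ht b (Sum.inl j) = ht b (Sum.inr (ng P β)) + b.height β := by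
    change (0 : ℤ) = b.height (ng P β) + b.height β
    have h2 : b.height (ng P β) = - b.height β := b.height_reflectionPerm_self β
    omega
  simp only [hcp, Matrix.of_apply, if_pos h1]

/-- The Lie algebra is graded by the height: `gR_iff`, `hcp` is additive, `hcp k (toA A (hZ b i))` is `0` or itself, `E_hcp`. -/
theorem gR_hcp (k : ℤ) {X : Matrix (I b) (I b) A} (hX : X ∈ gR b A) : hcp b k X ∈ gR b A := by
  unfold gR at hX
  refine Submodule.span_induction (p := fun X _ => hcp b k X ∈ gR b A) ?_ ?_ ?_ ?_ hX
  · rintro X (⟨i, rfl⟩ | ⟨β, rfl⟩)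
    · have h1 : hcp b k (toA A (hZ b i)) = if k = 0 then toA A (hZ b i) else 0 := by
        by_cases hk : k = 0
        · rw [if_pos hk]
          ext r c
          simp only [hcp, Matrix.of_apply, Matrix.map_apply]
          by_cases h : ht b r = ht b c + k
          · rw [if_pos h]
          · rw [if_neg h]
            have hne : r ≠ c := by
              rintro rfl
              omega
            rw [hZ, Matrix.diagonal_apply_ne _ hne, Int.cast_zero]
        · rw [if_neg hk]
          ext r c
          simp only [hcp, Matrix.of_apply, Matrix.map_apply, Matrix.zero_apply]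
          by_cases h : ht b r = ht b c + k
          · rw [if_pos h]
            have hne : r ≠ c := by
              rintro rfl
              omega
            rw [hZ, Matrix.diagonal_apply_ne _ hne, Int.cast_zero]
          · rw [if_neg h]
      change hcp b k (toA A (hZ b i)) ∈ gR b A
      rw [h1]
      split_ifs
      · exact Submodule.subset_span (Or.inl ⟨i, rfl⟩)
      · exact Submodule.zero_mem _
    · change hcp b k (toA A (E b β)) ∈ gR b A
      rw [E_hcp]
      split_ifs
      · exact Submodule.subset_span (Or.inr ⟨β, rfl⟩)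
      · exact Submodule.zero_mem _
  · have h1 : hcp b k (0 : Matrix (I b) (I b) A) = 0 := by
      ext r c
      simp only [hcp, Matrix.of_apply, Matrix.zero_apply, ite_self]
    rw [h1]
    exact Submodule.zero_mem _
  · intro x y _ _ hx hy
    have h1 : hcp b k (x + y) = hcp b k x + hcp b k y := by
      ext r c
      simp only [hcp, Matrix.of_apply, Matrix.add_apply]
      split_ifs
      · rfl
      · rw [add_zero]
    rw [h1]
    exact Submodule.add_mem _ hx hy
  · intro a x _ hx
    have h1 : hcp b k (a • x) = a • hcp b k x := by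
      ext r c
      simp only [hcp, Matrix.of_apply, Matrix.smul_apply]
      split_ifs
      · rfl
      · rw [smul_zero]
    rw [h1]
    exact Submodule.smul_mem _ _ hx

end Pool.Agent.Lib.L1S
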