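import Pool.Agent.Lib.L1S.L21
import Pool.Agent.Lib.L1S.L22
import Pool.Agent.Lib.L1S.L123

/-! L1S, module L2 (helper89), file L23. -/

namespace Pool.Agent.Lib.L1S

open Matrix NumberField

variable {ι M N : Type} [Fintype ι] [DecidableEq ι] [AddCommGroup M] [Module ℚ M] [AddCommGroup N] [Module ℚ N]
  {P : RootPairing ι ℚ M N} [P.IsCrystallographic] [P.IsReduced] [P.IsIrreducible] [P.IsRootSystem] (b : P.Base) {A : Type} [CommRing A]

omit [P.IsCrystallographic] [P.IsReduced] [P.IsIrreducible] [P.IsRootSystem] in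
theorem l23_entry {g g' : Matrix (I b) (I b) A} (h1 : g * g' = 1) {k : ℤ} (hk : 1 ≤ k) (hg : UTk b k g)
    (hg' : UTk b k g') (r c : I b) (hrc : ht b r = ht b c + k) (w : I b → A) :
    (g * Matrix.diagonal w * g') r c = w r * g' r c + w c * g r c ∧ g' r c = - g r c := by
  have hne : r ≠ c := by
    rintro rfl
    omega
  have hrr : g r r = 1 := by
    rw [hg r r (by omega), Matrix.one_apply_eq]
  have hcc : g' c c = 1 := by
    rw [hg' c c (by omega), Matrix.one_apply_eq]
  have hmain : ∀ u : I b → A, ∑ l, g r l * u l * g' l c = u r * g' r c + u c * g r c := by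
    intro u
    have h2 : ∀ l, g r l * u l * g' l c = (if l = r then u r * g' r c else 0) + (if l = c then u c * g r c else 0) := by
      intro l
      by_cases hlr : l = r
      · subst hlr
        rw [if_pos rfl, if_neg hne, hrr]
        ring
      · by_cases hlc : l = c
        · subst hlc
          rw [if_neg hlr, if_pos rfl, hcc]
          ring
        · rw [if_neg hlr, if_neg hlc, add_zero]
          by_cases h3 : ht b r < ht b l + k
          · rw [hg r l h3, Matrix.one_apply_ne (Ne.symm hlr)]
            ring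
          · have h4 : ht b l < ht b c + k := by omega
            rw [hg' l c h4, Matrix.one_apply_ne hlc]
            ring
    rw [Finset.sum_congr rfl (fun l _ => h2 l), Finset.sum_add_distrib, Finset.sum_ite_eq' Finset.univ r,
      Finset.sum_ite_eq' Finset.univ c]
    simp
  constructor
  · rw [Matrix.mul_apply]
    rw [← hmain w]
    apply Finset.sum_congr rfl
    intro l _
    rw [Matrix.mul_diagonal]
  · have h5 := hmain (fun _ => 1)
    have h6 : (g * g') r c = 0 := by
      rw [h1, Matrix.one_apply_ne hne]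
    rw [Matrix.mul_apply] at h6
    have h7 : ∑ l, g r l * 1 * g' l c = ∑ l, g r l * g' l c := by
      apply Finset.sum_congr rfl
      intro l _
      rw [mul_one]
    rw [h7, h6] at h5
    have h8 : g' r c + g r c = 0 := by
      rw [h5]
      ring
    exact eq_neg_of_add_eq_zero_left h8

/-- **Leading parts.** `g`, `g'` inverse to each other, of level `k ≥ 1` (`UTk_inv`); `H = diag(ht) ∈ gR` (`gR_diag` with `exists_lht`). `g H g' - H = (g-1) H + H (g'-1) + (g-1) H (g'-1)`; with `D = hcp k g`, `hcp k g' = -D` (`hcp_mul`, `hcp_one` for `g g' = 1`) the part of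
degree `k` is `D H - H D = -k D` (`D r c ≠ 0` only for `ht r = ht c + k`; the last term has degrees `≥ 2k`). `g H g' - H ∈ gR`, so `k D ∈ gR` (`gR_hcp`), `D ∈ gR` (`k` is invertible in the `ℚ`-algebra `A`), and `gR_ht` gives `D = ∑ cf β D E_β`; `cf β D = cf β g` by `cf_hcp`. -/
theorem lead [Algebra ℚ A] {g g' : Matrix (I b) (I b) A} (h : Nmz b g g') {k : ℤ} (hk : 1 ≤ k) (hg : UTk b k g) :
    hcp b k g = ∑ β with b.height β = k, cf b β g • toA A (E b β) := by
  have hg' : UTk b k g' := UTk_inv b hk h.1 hg
  obtain ⟨l, hl⟩ := exists_lht b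
  set w : I b → A := fun r => algebraMap ℚ A (l (wt b r)) with hw
  have hH : Matrix.diagonal w ∈ gR b A := gR_diag b l
  have hX : g * Matrix.diagonal w * g' - Matrix.diagonal w ∈ gR b A :=
    Submodule.sub_mem _ (h.2.2 _ hH).1 hH
  have hD := gR_hcp b k hX
  have hwr : ∀ r, w r = ((ht b r : ℤ) : A) := by
    intro r
    rw [hw]
    change algebraMap ℚ A (l (wt b r)) = _
    rw [hl r, map_intCast]
  have heq : hcp b k (g * Matrix.diagonal w * g' - Matrix.diagonal w) = (-(k : A)) • hcp b k g := by
    ext r c
    rw [Matrix.smul_apply]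
    unfold hcp
    simp only [Matrix.of_apply]
    split_ifs with hrc
    · obtain ⟨h1, h2⟩ := l23_entry b h.1 hk hg hg' r c hrc w
      have hne : r ≠ c := by
        rintro rfl
        omega
      rw [Matrix.sub_apply, h1, h2, Matrix.diagonal_apply_ne _ hne, hwr, hwr, hrc]
      push_cast
      rw [smul_eq_mul]
      ring
    · simp
  rw [heq] at hD
  have hk0 : (k : ℚ) ≠ 0 := by
    have : (1 : ℚ) ≤ k := by exact_mod_cast hk
    intro h0
    rw [h0] at this
    norm_num at this
  have hDg : hcp b k g ∈ gR b A := by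
    have h3 : hcp b k g = (algebraMap ℚ A (-(k : ℚ)⁻¹)) • ((-(k : A)) • hcp b k g) := by
      rw [smul_smul]
      have h4 : algebraMap ℚ A (-(k : ℚ)⁻¹) * (-(k : A)) = 1 := by
        have h5 : (-(k : A)) = algebraMap ℚ A (-(k : ℚ)) := by
          rw [map_neg, map_intCast]
        rw [h5, ← map_mul]
        have h6 : -(k : ℚ)⁻¹ * -(k : ℚ) = 1 := by
          field_simp
        rw [h6, map_one]
      rw [h4, one_smul]
    rw [h3]
    exact Submodule.smul_mem _ _ hD
  have h7 := gR_ht b hDg k (by omega) (fun r c hrc => by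
    by_contra hcon
    apply hrc
    unfold hcp
    simp [hcon])
  rw [h7]
  apply Finset.sum_congr rfl
  intro β hβ
  rw [Finset.mem_filter] at hβ
  have h8 : cf b β g = cf b β (hcp b k g) := by
    rw [← hβ.2]
    exact cf_hcp b β g
  rw [h8]

end Pool.Agent.Lib.L1S
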