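import Pool.Agent.Lib.L1S.L20
import Pool.Agent.Lib.L1S.L124

/-! L1S, module L2 (helper89), file L24. -/

namespace Pool.Agent.Lib.L1S

open Matrix NumberField

variable {ι M N : Type} [Fintype ι] [DecidableEq ι] [AddCommGroup M] [Module ℚ M] [AddCommGroup N] [Module ℚ N]
  {P : RootPairing ι ℚ M N} [P.IsCrystallographic] [P.IsReduced] [P.IsIrreducible] [P.IsRootSystem] (b : P.Base) {A : Type} [CommRing A]

theorem posL_mem (β : ι) : β ∈ posL b ↔ 0 < b.height β := by
  unfold posL
  rw [List.mem_insertionSort, Finset.mem_toList]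
  unfold Pos
  rw [Finset.mem_filter]
  simp

theorem posL_nodup : (posL b).Nodup := by
  unfold posL
  exact (List.perm_insertionSort _ _).nodup_iff.mpr (Finset.nodup_toList _)

/-- `List.pairwise_insertionSort` (or `List.sorted_insertionSort`); the relation is total and transitive. -/
theorem posL_sorted : (posL b).Pairwise fun β γ => b.height β ≤ b.height γ := by
  unfold posL
  have h1 : Std.Total (fun β γ : ι => b.height β ≤ b.height γ) := ⟨fun β γ => le_total _ _⟩
  have h2 : IsTrans ι (fun β γ : ι => b.height β ≤ b.height γ) := ⟨fun β γ δ h h' => le_trans h h'⟩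
  exact List.pairwise_insertionSort (fun β γ : ι => b.height β ≤ b.height γ) _

/-- `x_β(t)` normalises the Lie algebra: `gR_conj`. -/
theorem xx_Nmz [Algebra ℚ A] (β : ι) (t : A) : Nmz b (xx b β t) (xx b β (-t)) := by
  refine ⟨(DP_E b β).ex_mul_neg t, (DP_E b β).ex_neg_mul t, fun X hX => ⟨gR_conj b hX β t, ?_⟩⟩
  have h1 := gR_conj b hX β (-t)
  rwa [neg_neg] at h1

end Pool.Agent.Lib.L1S
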