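import Pool.Agent.Lib.L1S.L24
import Pool.Agent.Lib.L1S.L23

/-! L1S, module L2 (helper89), file L25. -/

namespace Pool.Agent.Lib.L1S

open Matrix NumberField

variable {ι M N : Type} [Fintype ι] [DecidableEq ι] [AddCommGroup M] [Module ℚ M] [AddCommGroup N] [Module ℚ N]
  {P : RootPairing ι ℚ M N} [P.IsCrystallographic] [P.IsReduced] [P.IsIrreducible] [P.IsRootSystem] (b : P.Base) {A : Type} [CommRing A]

theorem l25_cf_add (β : ι) (X Y : Matrix (I b) (I b) A) : cf b β (X + Y) = cf b β X + cf b β Y := by
  unfold cf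
  rw [← Finset.sum_add_distrib]
  refine Finset.sum_congr rfl (fun j _ => ?_)
  rw [Matrix.add_apply, mul_add]

theorem l25_cf_smul (β : ι) (a : A) (X : Matrix (I b) (I b) A) : cf b β (a • X) = a * cf b β X := by
  unfold cf
  rw [Finset.mul_sum]
  refine Finset.sum_congr rfl (fun j _ => ?_)
  rw [Matrix.smul_apply, smul_eq_mul]
  ring

theorem l25_cf_zero (β : ι) : cf b β (0 : Matrix (I b) (I b) A) = 0 := by
  unfold cf
  simp

/-- the level of a matrix whose coefficients vanish up to the height `k - 1` -/
theorem l25_level [Algebra ℚ A] {g g' : Matrix (I b) (I b) A} (h : Nmz b g g') (hg : UTk b 1 g)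
    (k : ℤ) (hk : 1 ≤ k) : (∀ γ, 0 < b.height γ → b.height γ < k → cf b γ g = 0) → UTk b k g := by
  induction k, hk using Int.le_induction with
  | base => intro _; exact hg
  | succ k hk ih =>
    intro hall
    have h1 : UTk b k g := ih (fun γ h0 h1 => hall γ h0 (by omega))
    refine UTk_succ b hk h1 ?_
    rw [lead b h hk h1]
    refine Finset.sum_eq_zero (fun β hβ => ?_)
    have h2 : b.height β = k := (Finset.mem_filter.mp hβ).2
    rw [hall β (by omega) (by omega), zero_smul]

/-- entries of `x_β(t) - 1` -/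
theorem l25_xx_mem (O : Subring A) (J : AddSubgroup A) (hJO : ∀ y ∈ J, y ∈ O)
    (hOJ : ∀ x ∈ O, ∀ y ∈ J, x * y ∈ J) (β : ι) {t : A} (ht : t ∈ J) (r c : I b) :
    (xx b β t - 1) r c ∈ J := by
  have hpow : ∀ k : ℕ, t ^ (k + 1) ∈ J := by
    intro k
    rw [pow_succ]
    exact hOJ _ (O.pow_mem (hJO t ht) k) t ht
  have h1 : xx b β t - 1 = ∑ k ∈ Finset.range 3, t ^ (k + 1) • toA A (dvp (E b β) (k + 1)) := by
    unfold xx ex
    rw [Finset.sum_range_succ' _ 3, dvp_zero, pow_zero, one_smul]
    have h2 : toA A (1 : Matrix (I b) (I b) ℤ) = 1 := by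
      exact Matrix.map_one _ Int.cast_zero Int.cast_one
    rw [h2, add_sub_cancel_right]
  rw [h1, Matrix.sum_apply]
  refine J.sum_mem (fun k _ => ?_)
  rw [Matrix.smul_apply, smul_eq_mul]
  have h3 : toA A (dvp (E b β) (k + 1)) r c = ((dvp (E b β) (k + 1) r c : ℤ) : A) := rfl
  rw [h3, mul_comm, ← zsmul_eq_mul]
  exact J.zsmul_mem (hpow k) _

/-- **Peeling.** Let `posL b = L₀ ++ L`, `g` unitriangular, normalising the Lie algebra, with `cf γ g = 0` for all `γ ∈ L₀`, and entries of `g - 1` in `J`. Then `g` is the ordered product over `L` of `x_β(t_β)` with all `t_β ∈ J`.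
Here `O` is a subring of `A` and `J ⊆ O` an additive subgroup with `O J ⊆ J` (an ideal of `O`). Induction on `L`. FIRST: if all positive roots of height `< k` lie in `L₀` (`k ≥ 1`) then `g` has level `k` (induction on the degree `j`, `1 ≤ j < k`: `lead` gives
`hcp j g = ∑_{ht β = j} cf β g • E_β = 0`, `UTk_succ`). If `L = []` then `g` has every level, `g = 1` (`UTk_top`). If `L = β :: L'`: `g` has level `ht β` (the roots of smaller height are in `L₀`, as the list is sorted). Put `y = cf β g` (in `J`: an integer
combination of entries of `g - 1`, off the diagonal) and `g₁ = x_β(-y) g`: normalising (`xx_Nmz`, `Nmz.mul`), unitriangular (`UTk_mul`, `xx_UTk`), entries of `g₁ - 1 = (x_β(-y) - 1) g + (g - 1)` in `J` (entries of `x_β(-y) - 1` are integer combinations of `y, y², y³`, so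
in `J`, those of `g` are in `O`), and `cf γ g₁ = 0` for `γ ∈ L₀ ++ [β]`: with `k = ht β`, `hcp k g₁ = hcp k g - y E_β` (`hcp_mul`, `xx_hcp`), `cf_hcp`, `cf_E`; for `ht γ < k` `g₁` has level `k > ht γ`, so `cf γ g₁ = cf γ (hcp (ht γ) g₁) = 0`. Then `g = x_β(y) g₁` and the induction hypothesis for
`L₀ ++ [β]`, `L'`. Take `t` equal to `y` at `β` and to the `t` of the induction hypothesis elsewhere (`β ∉ L'`: `posL_nodup`). -/
theorem peel [Algebra ℚ A] (O : Subring A) (J : AddSubgroup A) (hJO : ∀ y ∈ J, y ∈ O) (hOJ : ∀ x ∈ O, ∀ y ∈ J, x * y ∈ J) (L : List ι) :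
    ∀ (L₀ : List ι), posL b = L₀ ++ L → ∀ g g' : Matrix (I b) (I b) A, Nmz b g g' → UTk b 1 g → (∀ γ ∈ L₀, cf b γ g = 0) → (∀ r c, (g - 1) r c ∈ J) →
    ∃ t : ι → A, (∀ β, t β ∈ J) ∧ g = PL b L t := by
  classical
  induction L with
  | nil =>
    intro L₀ hpos g g' hN hU hcf hJ
    obtain ⟨K, hK, hKtop⟩ := UTk_top b
    have h1 : UTk b K g := by
      refine l25_level b hN hU K hK (fun γ h0 _ => hcf γ ?_)
      have h2 := (posL_mem b γ).mpr h0
      rw [hpos, List.append_nil] at h2
      exact h2
    refine ⟨fun _ => 0, fun _ => J.zero_mem, ?_⟩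
    rw [hKtop A g h1]
    rfl
  | cons β L' ih =>
    intro L₀ hpos g g' hN hU hcf hJ
    have hβmem : β ∈ posL b := by
      rw [hpos]
      simp
    have hβ : 0 < b.height β := (posL_mem b β).mp hβmem
    have hsorted := posL_sorted b
    have hnodup := posL_nodup b
    rw [hpos] at hsorted hnodup
    have hs1 := List.pairwise_append.mp hsorted
    have hs2 := List.pairwise_cons.mp hs1.2.1
    have hn1 := List.nodup_append.mp hnodup
    have hn2 := List.nodup_cons.mp hn1.2.1
    set k := b.height β with hk
    have hk1 : 1 ≤ k := by omega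
    -- the level of `g`
    have hlev : UTk b k g := by
      refine l25_level b hN hU k hk1 (fun γ h0 h1 => hcf γ ?_)
      have h2 := (posL_mem b γ).mpr h0
      rw [hpos, List.mem_append] at h2
      rcases h2 with h2 | h2
      · exact h2
      · exfalso
        rw [List.mem_cons] at h2
        rcases h2 with h2 | h2
        · rw [h2] at h1
          omega
        · have := hs2.1 γ h2
          omega
    set y := cf b β g with hy
    have hyJ : y ∈ J := by
      rw [hy]
      unfold cf
      refine J.sum_mem (fun j _ => ?_)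
      have h1 : g (Sum.inl j) (Sum.inr (ng P β)) = (g - 1) (Sum.inl j) (Sum.inr (ng P β)) := by
        rw [Matrix.sub_apply, Matrix.one_apply_ne (by simp), sub_zero]
      rw [h1, ← zsmul_eq_mul]
      exact J.zsmul_mem (hJ _ _) _
    have hyJ' : -y ∈ J := J.neg_mem hyJ
    set g₁ := xx b β (-y) * g with hg₁
    have hxN : Nmz b (xx b β (-y)) (xx b β y) := by
      have h1 := xx_Nmz b β (-y)
      rw [neg_neg] at h1
      exact h1
    have hN1 : Nmz b g₁ (g' * xx b β y) := hxN.mul hN
    have hxU : UTk b k (xx b β (-y)) := xx_UTk b β hβ (-y)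
    have hU1 : UTk b 1 g₁ := UTk_mul b (by norm_num) (UTk_mono hk1 hxU) hU
    have hUk : UTk b k g₁ := UTk_mul b (by omega) hxU hlev
    have hhcp : hcp b k g₁ = (-y) • toA A (E b β) + hcp b k g := by
      rw [hg₁, hcp_mul b hk1 hxU hlev, hk, xx_hcp b β hβ (-y)]
    have hcf1 : ∀ γ ∈ L₀ ++ [β], cf b γ g₁ = 0 := by
      intro γ hγ
      have hγpos : 0 < b.height γ := by
        apply (posL_mem b γ).mp
        rw [hpos]
        rw [List.mem_append] at hγ ⊢
        rcases hγ with h1 | h1
        · exact Or.inl h1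
        · rw [List.mem_singleton] at h1
          rw [h1]
          simp
      have hγle : b.height γ ≤ k := by
        rw [List.mem_append] at hγ
        rcases hγ with h1 | h1
        · exact hs1.2.2 γ h1 β (by simp)
        · rw [List.mem_singleton] at h1
          rw [h1]
      rcases lt_or_eq_of_le hγle with hlt | heq
      · rw [cf_hcp]
        have h2 : hcp b (b.height γ) g₁ = 0 := by
          ext r c
          unfold hcp
          rw [Matrix.of_apply, Matrix.zero_apply]
          split_ifs with h3
          · rw [hUk r c (by omega), Matrix.one_apply_ne]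
            intro h4
            rw [h4] at h3
            omega
          · rfl
        rw [h2, l25_cf_zero]
      · rw [cf_hcp, heq, hhcp, l25_cf_add, l25_cf_smul, cf_E]
        have h2 : cf b γ (hcp b k g) = cf b γ g := by
          rw [← heq, ← cf_hcp]
        rw [h2]
        by_cases hγβ : β = γ
        · rw [if_pos hγβ, ← hγβ, ← hy]
          ring
        · rw [if_neg hγβ, mul_zero, zero_add]
          rw [List.mem_append] at hγ
          rcases hγ with h1 | h1
          · exact hcf γ h1
          · rw [List.mem_singleton] at h1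
            exact absurd h1.symm hγβ
    have hJ1 : ∀ r c, (g₁ - 1) r c ∈ J := by
      intro r c
      have h1 : g₁ - 1 = (xx b β (-y) - 1) * g + (g - 1) := by
        rw [hg₁]
        rw [Matrix.sub_mul, Matrix.one_mul]
        abel
      rw [h1, Matrix.add_apply]
      refine J.add_mem ?_ (hJ r c)
      rw [Matrix.mul_apply]
      refine J.sum_mem (fun l _ => ?_)
      rw [mul_comm]
      refine hOJ _ ?_ _ (l25_xx_mem b O J hJO hOJ β hyJ' r l)
      have h2 : g l c = (g - 1) l c + (1 : Matrix (I b) (I b) A) l c := by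
        rw [Matrix.sub_apply]
        ring
      rw [h2]
      refine O.add_mem (hJO _ (hJ l c)) ?_
      rw [Matrix.one_apply]
      split_ifs
      · exact O.one_mem
      · exact O.zero_mem
    obtain ⟨t', ht', hg1⟩ := ih (L₀ ++ [β]) (by rw [hpos]; simp) g₁ (g' * xx b β y) hN1 hU1 hcf1 hJ1
    refine ⟨fun γ => if γ = β then y else t' γ, fun γ => ?_, ?_⟩
    · by_cases h1 : γ = β
      · simp only [h1, if_true]
        exact hyJ
      · simp only [if_neg h1]
        exact ht' γ
    · have h1 : g = xx b β y * g₁ := by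
        rw [hg₁, ← Matrix.mul_assoc, hxN.2.1, Matrix.one_mul]
      have h2 : PL b L' (fun γ => if γ = β then y else t' γ) = PL b L' t' := by
        unfold PL
        congr 1
        refine List.map_congr_left (fun γ hγ => ?_)
        have h3 : γ ≠ β := fun h4 => hn2.1 (h4 ▸ hγ)
        simp only [if_neg h3]
      have h3 : PL b (β :: L') (fun γ => if γ = β then y else t' γ) =
          xx b β y * PL b L' (fun γ => if γ = β then y else t' γ) := by
        unfold PL
        simp only [List.map_cons, List.prod_cons, if_true]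
      rw [h3, h2, ← hg1]
      exact h1

end Pool.Agent.Lib.L1S
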