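import Pool.Agent.Lib.L1S.L25

/-! L1S, module L2 (helper89), file L26. -/

namespace Pool.Agent.Lib.L1S

open Matrix NumberField

variable {ι M N : Type} [Fintype ι] [DecidableEq ι] [AddCommGroup M] [Module ℚ M] [AddCommGroup N] [Module ℚ N]
  {P : RootPairing ι ℚ M N} [P.IsCrystallographic] [P.IsReduced] [P.IsIrreducible] [P.IsRootSystem] (b : P.Base) {A : Type} [CommRing A]

/-- `peel` with `L₀ = []`. -/
theorem prod_exists' [Algebra ℚ A] (O : Subring A) (J : AddSubgroup A) (hJO : ∀ y ∈ J, y ∈ O) (hOJ : ∀ x ∈ O, ∀ y ∈ J, x * y ∈ J)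
    {g g' : Matrix (I b) (I b) A} (h : Nmz b g g') (hg : UTk b 1 g) (hJ : ∀ r c, (g - 1) r c ∈ J) : ∃ t : ι → A, (∀ β, t β ∈ J) ∧ g = PL b (posL b) t :=
  peel b O J hJO hOJ (posL b) [] rfl g g' h hg (by simp) hJ

/-- **Ordered product decomposition**: `prod_exists'` with `O = J = ⊤`. -/
theorem prod_exists [Algebra ℚ A] {g g' : Matrix (I b) (I b) A} (h : Nmz b g g') (hg : UTk b 1 g) : ∃ t : ι → A, g = PL b (posL b) t := by
  obtain ⟨t, -, ht⟩ := prod_exists' b (⊤ : Subring A) (⊤ : AddSubgroup A) (fun y _ => Subring.mem_top y)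
    (fun x _ y _ => AddSubgroup.mem_top _) h hg (fun r c => AddSubgroup.mem_top _)
  exact ⟨t, ht⟩

end Pool.Agent.Lib.L1S
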