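import Pool.Agent.Lib.L1S.LI9

/-!
# L1S, LI10: the instance of the interface `LieH` for the quasi-split groups (helper33)
-/

namespace Pool.Agent.Lib.L1S

open MeasureTheory Matrix NumberField IsDedekindDomain Pool.Agent.Lib.H89N Pool.Agent.Lib.H33W

noncomputable section

set_option linter.unusedSectionVars false

variable {ι M N : Type} [Fintype ι] [DecidableEq ι] [AddCommGroup M] [Module ℚ M] [AddCommGroup N] [Module ℚ N]
  {P : RootPairing ι ℚ M N} [P.IsCrystallographic] [P.IsReduced] [P.IsIrreducible] [P.IsRootSystem] {b : P.Base}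
  {K L : Type} [Field K] [NumberField K] [Field L] [NumberField L] [Algebra K L] {Q : QS b K L} [IsGalois K L] (J : LID Q)

/-- The divided powers. -/
def LID.DP (β : ι) (k : ℕ) : Matrix (I b) (I b) (𝓞 L) := if β ∈ Pos b then dqM J.N₀ (J.W β) k else if k = 0 then 1 else 0

theorem LID.DP_pos {β : ι} (hβ : β ∈ Pos b) (k : ℕ) : J.DP β k = dqM J.N₀ (J.W β) k := if_pos hβ

/-- The one parameter group over `K`. -/
def LID.xK (β : ι) (t : K) : GK b L := if h : β ∈ Pos b then (J.exists_x h t).choose else 1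

theorem LID.xK_mem (β : ι) (t : K) : J.xK β t ∈ HQ Q := by
  unfold LID.xK
  split_ifs with h
  · exact (J.exists_x h t).choose_spec.1
  · exact Subgroup.one_mem _

theorem LID.xK_exp {β : ι} (hβ : β ∈ Pos b) (t : K) : (J.xK β t).1.1 = IsNilpotent.exp ((algebraMap K L t) • dqX J.N₀ (J.W β) (fL L)) := by
  unfold LID.xK
  rw [dif_pos hβ]
  exact (J.exists_x hβ t).choose_spec.2

/-- The one parameter group over `KR`. -/
def LID.xE (β : ι) (t : KR K L) : GR b L := if h : β ∈ Pos b then ⟨dqG J.N₀ (J.W β) (J.W_nil β h) (fE L) t, (J.exists_xE h t.2).choose⟩ else 1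

theorem LID.xE_mem (β : ι) (t : KR K L) : J.xE β t ∈ HRs (HQ Q) := by
  unfold LID.xE
  split_ifs with h
  · exact (J.exists_xE h t.2).choose_spec
  · exact Subgroup.one_mem _

theorem LID.xE_val {β : ι} (hβ : β ∈ Pos b) (t : KR K L) : (J.xE β t).1 = dqG J.N₀ (J.W β) (J.W_nil β hβ) (fE L) t := by
  unfold LID.xE
  rw [dif_pos hβ]

/-- The support of the divided powers. -/
theorem LID.suppW {f : M →ₗ[ℚ] ℝ} (hf : InvF P (Set.range Q.act) f) (β : ι) (k : ℕ) : ∀ r c, (J.W β ^ k) r c ≠ 0 → f (wt b r) = f (wt b c) + k * f (P.root β) := by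
  induction k with
  | zero =>
    intro r c h
    rw [pow_zero] at h
    have hrc : r = c := by
      by_contra h1
      exact h (Matrix.one_apply_ne h1)
    rw [hrc]
    simp
  | succ k ih =>
    intro r c h
    rw [pow_succ, Matrix.mul_apply] at h
    obtain ⟨j, _, hj⟩ := Finset.exists_ne_zero_of_sum_ne_zero h
    have h1 := ih r j (left_ne_zero_of_mul hj)
    have h2 : J.W β j c ≠ 0 := right_ne_zero_of_mul hj
    have h3 : J.Y β j c ≠ 0 := by
      intro h0
      have h4 := J.W_val β j c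
      rw [h0, mul_zero] at h4
      exact h2 (by exact_mod_cast h4)
    obtain ⟨s, hs⟩ := J.Yw β j c h3
    have h5 : f (P.root (Q.act s β)) = f (P.root β) := hf _ ⟨s, rfl⟩ β
    rw [h1, hs, map_add, h5]
    push_cast
    ring

theorem LID.DP_L {β : ι} (hβ : β ∈ Pos b) : (J.DP β 1).map (fun y : 𝓞 L => (y : L)) = (J.c0 : L) • J.Y β := by
  rw [← J.X_L β, J.DP_pos hβ, dqM_one]
  refine Matrix.ext fun r c => ?_
  unfold dqX
  rw [Matrix.map_apply, Matrix.smul_apply, Matrix.smul_apply, Matrix.map_apply, smul_eq_mul, nsmul_eq_mul]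
  exact (map_mul (fL L) _ _).trans (by rw [map_natCast])

theorem LID.DP_E {β : ι} (hβ : β ∈ Pos b) : (J.DP β 1).map (fun y : 𝓞 L => (mixedEmbedding L (y : L) : EE L)) = (J.c0 : EE L) • (J.Y β).map (mixedEmbedding L) := by
  rw [← J.X_E β, J.DP_pos hβ, dqM_one]
  refine Matrix.ext fun r c => ?_
  unfold dqX
  rw [Matrix.map_apply, Matrix.smul_apply, Matrix.smul_apply, Matrix.map_apply, smul_eq_mul, nsmul_eq_mul]
  exact (map_mul (fE L) _ _).trans (by rw [map_natCast])

theorem li10_Posk (b : P.Base) {k : ℕ} (hk : 1 ≤ k) : (Finset.univ.filter fun β => b.height β = (k : ℤ)) = Posk b k := by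
  ext β
  simp only [Posk, Finset.mem_filter, Finset.mem_univ, true_and]
  omega

theorem li10_Posk_Pos {k : ℕ} {β : ι} (h : β ∈ Posk b k) : β ∈ Pos b :=
  Finset.mem_filter.2 ⟨Finset.mem_univ _, (Finset.mem_filter.1 h).2.1⟩

theorem LID.degH {g : GK b L} (hg : g ∈ HQ Q) {k : ℕ} (hk : 1 ≤ k) (h : g ∈ FK b L k) :
    ∃ y : ι → K, dgk b k g.1.1 = ∑ β ∈ Posk b k, algebraMap K L (y β) • (J.DP β 1).map (fun y : 𝓞 L => (y : L)) := by
  have h1 := lead_K b g (k := (k : ℤ)) (by exact_mod_cast hk) h.1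
  have h2 := li7_lead Q.da (RingHom.id L) J.Fw J.FY J.EY h1
  rw [li10_Posk b hk] at h2
  have h3 : ∀ β, ∃ t : K, algebraMap K L t = fcM (J.F β) g.1.1 := fun β => li7_inK Q (J.Ffix β) (li7_HQ Q hg)
  choose t ht using h3
  have hc0 : (J.c0 : K) ≠ 0 := by exact_mod_cast J.c0_ne
  refine ⟨fun β => t β / J.c0, ?_⟩
  refine Eq.trans h2 ?_
  refine Finset.sum_congr rfl fun β hβ => ?_
  rw [J.DP_L (li10_Posk_Pos hβ), smul_smul, map_div₀, map_natCast, div_mul_cancel₀ _ (by exact_mod_cast J.c0_ne), ht]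
  have e1 : (J.F β).map (RingHom.id L) = J.F β := by
    ext r c
    rfl
  have e2 : (J.Y β).map (RingHom.id L) = J.Y β := by
    ext r c
    rfl
  rw [e1, e2]

theorem LID.degR {g : UR b L} (hg : g.1 ∈ HRs (HQ Q)) {k : ℕ} (hk : 1 ≤ k) (h : g ∈ FR b L k) :
    ∃ y : ι → KR K L, dgk b k g.1.1.1 = ∑ β ∈ Posk b k, (y β : EE L) • (J.DP β 1).map (fun y : 𝓞 L => (mixedEmbedding L (y : L) : EE L)) := by
  have h1 := lead_E b g.1 (k := (k : ℤ)) (by exact_mod_cast hk) h.1
  have h2 := li7_lead Q.da (mixedEmbedding L) J.Fw J.FY J.EY h1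
  rw [li10_Posk b hk] at h2
  have h3 : ∀ β, fcM ((J.F β).map (mixedEmbedding L)) g.1.1.1 ∈ KR K L := fun β => li7_inKR Q (J.Ffix β) hg
  have hc0 : (J.c0 : ℝ) ≠ 0 := by exact_mod_cast J.c0_ne
  refine ⟨fun β => (J.c0 : ℝ)⁻¹ • ⟨fcM ((J.F β).map (mixedEmbedding L)) g.1.1.1, h3 β⟩, ?_⟩
  refine Eq.trans h2 ?_
  refine Finset.sum_congr rfl fun β hβ => ?_
  rw [J.DP_E (li10_Posk_Pos hβ), smul_smul]
  congr 1
  change _ = ((J.c0 : ℝ)⁻¹ • fcM ((J.F β).map (mixedEmbedding L)) g.1.1.1) * (J.c0 : EE L)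
  have e1 : (J.c0 : EE L) = (J.c0 : ℝ) • (1 : EE L) := by
    rw [Nat.cast_smul_eq_nsmul, nsmul_eq_mul, mul_one]
  rw [e1, smul_mul_smul_comm, inv_mul_cancel₀ hc0, one_smul, mul_one]

/-- **The Lie theory of the quasi-split group.** -/
def LID.lieH : LieH b K L (Set.range Q.act) (HQ Q) where
  DP := J.DP
  m := J.N₀
  dp0 β := by
    unfold LID.DP
    split_ifs
    · exact dqM_zero _ _
    · rfl
    · rename_i h
      exact absurd rfl h
  dpm β k hk := by
    unfold LID.DP
    split_ifs with h1 h2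
    · exact dqM_big (J.W_nil β h1) hk
    · have := J.N₁
      omega
    · rfl
  ht_inv := by
    rintro _ ⟨s, rfl⟩ β
    exact (Q.da s).height β
  supp := by
    intro f hf β hβ k r c h
    rw [J.DP_pos hβ] at h
    unfold dqM at h
    rw [Matrix.smul_apply, nsmul_eq_mul] at h
    exact J.suppW hf β k r c (right_ne_zero_of_mul h)
  cst := J.D' * J.c0 * Module.finrank K L
  cst0 := by
    have : FiniteDimensional K L := Module.Finite.of_restrictScalars_finite ℚ K L
    exact Nat.mul_ne_zero (Nat.mul_ne_zero J.D'0 J.c0_ne) Module.finrank_pos.ne'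
  z := J.z
  zsupp := by
    intro f hf β hβ r c h
    have h1 : J.F β r c ≠ 0 := by
      intro h0
      have h4 := J.z_val β r c
      rw [h0, mul_zero] at h4
      exact h (by exact_mod_cast h4)
    obtain ⟨s, hs⟩ := J.Fw β r c h1
    have h5 : f (P.root (Q.act s β)) = f (P.root β) := hf _ ⟨s, rfl⟩ β
    change f (wt b r) = f (wt b c) + f (P.root β)
    rw [hs, map_add, h5]
  z1 := by
    intro β hβ γ hγ _
    have : FiniteDimensional K L := Module.Finite.of_restrictScalars_finite ℚ K L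
    have h1 : ∀ r c, ((J.DP γ 1 r c : 𝓞 L) : L) = (J.c0 : L) * J.Y γ r c := by
      intro r c
      have h2 := congrFun (congrFun (J.DP_L hγ) r) c
      exact h2
    have h2 : ∑ r, ∑ c, Algebra.trace K L (((J.z β r c : 𝓞 L) : L) * ((J.DP γ 1 r c : 𝓞 L) : L)) = Algebra.trace K L (((J.D' * J.c0 : ℕ) : L) * fcM (J.F β) (J.Y γ)) := by
      unfold fcM
      rw [Finset.mul_sum, map_sum]
      refine Finset.sum_congr rfl fun r _ => ?_
      rw [Finset.mul_sum, map_sum]
      refine Finset.sum_congr rfl fun c _ => ?_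
      rw [h1, J.z_val, Nat.cast_mul]
      congr 1
      ring
    rw [h2, J.FY]
    by_cases h : γ = β
    · rw [if_pos h, if_pos h.symm, mul_one]
      have h3 : ((J.D' * J.c0 : ℕ) : L) = algebraMap K L ((J.D' * J.c0 : ℕ) : K) := by rw [map_natCast]
      rw [h3, Algebra.trace_algebraMap, nsmul_eq_mul, Nat.cast_mul (J.D' * J.c0), mul_comm]
    · rw [if_neg h, if_neg fun h' => h h'.symm, mul_zero, map_zero]
  x := J.xK
  x_mem β _ t := J.xK_mem β t
  x_val := by
    intro β hβ t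
    rw [J.xK_exp hβ, ← dqM_exp (J.W_nil β hβ)]
    refine Finset.sum_congr rfl fun k _ => ?_
    rw [J.DP_pos hβ]
    rfl
  x_add := by
    intro β hβ s t
    apply Subtype.ext
    apply Units.ext
    change (J.xK β (s + t)).1.1 = (J.xK β s).1.1 * (J.xK β t).1.1
    rw [J.xK_exp hβ, J.xK_exp hβ, J.xK_exp hβ, map_add, add_smul]
    exact IsNilpotent.exp_add_of_commute (((Commute.refl _).smul_left _).smul_right _) ⟨_, dqX_nil (J.W_nil β hβ) _ _⟩ ⟨_, dqX_nil (J.W_nil β hβ) _ _⟩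
  xE := J.xE
  xE_mem β _ t := J.xE_mem β t
  xE_val := by
    intro β hβ t
    rw [J.xE_val hβ]
    change IsNilpotent.exp ((t : EE L) • dqX J.N₀ (J.W β) (fE L)) = _
    rw [← dqM_exp (J.W_nil β hβ)]
    refine Finset.sum_congr rfl fun k _ => ?_
    rw [J.DP_pos hβ]
    rfl
  xE_add := by
    intro β hβ s t
    apply Subtype.ext
    change (J.xE β (s + t)).1 = (J.xE β s).1 * (J.xE β t).1
    rw [J.xE_val hβ, J.xE_val hβ, J.xE_val hβ]
    exact dqG_add _ _ _ _
  xE_cont := by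
    intro β hβ
    have e : J.xE β = fun t => ⟨dqG J.N₀ (J.W β) (J.W_nil β hβ) (fE L) t, (J.exists_xE hβ t.2).choose⟩ := by
      funext t
      exact dif_pos hβ
    rw [e]
    exact Continuous.subtype_mk ((dqG_cont _ _).comp continuous_subtype_val) _
  emb_x := by
    intro β hβ t
    apply Subtype.ext
    rw [J.xE_val hβ]
    apply Units.ext
    change (J.xK β t).1.1.map (mixedEmbedding L) = IsNilpotent.exp ((mixedEmbedding L (algebraMap K L t) : EE L) • dqX J.N₀ (J.W β) (fE L))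
    rw [J.xK_exp hβ, ← dqM_exp (J.W_nil β hβ), ← dqM_exp (J.W_nil β hβ)]
    refine Matrix.ext fun r c => ?_
    rw [Matrix.map_apply, Matrix.sum_apply, Matrix.sum_apply, map_sum]
    refine Finset.sum_congr rfl fun k _ => ?_
    rw [Matrix.smul_apply, Matrix.smul_apply, smul_eq_mul, smul_eq_mul, map_mul, map_pow]
    rfl
  degH g hg k hk h := J.degH hg hk h
  degR g hg k hk h := J.degR hg hk h
  uni u hu := uni_UR b hu

/-- **The Lie theory of the quasi-split group.** -/
theorem lieH_exists (Q : QS b K L) : Nonempty (LieH b K L (Set.range Q.act) (HQ Q)) := by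
  obtain ⟨J⟩ := exists_LID Q
  exact ⟨J.lieH⟩

end

end Pool.Agent.Lib.L1S
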