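import Pool.Agent.Lib.L1S.LI10

/-!
# L1S, LI11: invariant coweights and linear forms (helper33)
-/

namespace Pool.Agent.Lib.L1S

open MeasureTheory Matrix NumberField IsDedekindDomain Pool.Agent.Lib.H89N Pool.Agent.Lib.H33W

noncomputable section

set_option linter.unusedSectionVars false

variable {ι M N : Type} [Fintype ι] [DecidableEq ι] [AddCommGroup M] [Module ℚ M] [AddCommGroup N] [Module ℚ N]
  {P : RootPairing ι ℚ M N} [P.IsCrystallographic] {b : P.Base}
  {K L : Type} [Field K] [NumberField K] [Field L] [NumberField L] [Algebra K L] {Q : QS b K L}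

theorem liv_InvF {A : M →ₗ[ℚ] ℝ} (h : InvA Q A) : InvF P (Set.range Q.act) A := by
  rintro _ ⟨s, rfl⟩ β
  exact h s β

theorem liv_InvCD {c : b.support → ℤ} (h : InvC Q c) : InvCD b (Set.range Q.act) c := by
  rintro _ ⟨s, rfl⟩ β
  change ∑ j, c j * P.pairingIn ℤ (Q.act s β) j = ∑ j, c j * P.pairingIn ℤ β j
  rw [← Equiv.sum_comp (Q.da s).sp]
  refine Finset.sum_congr rfl fun j _ => ?_
  rw [h s j, (Q.da s).sp_coe, (Q.da s).pair]

end

end Pool.Agent.Lib.L1S
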