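import Pool.Agent.Lib.L1S.LI2

/-!
# L1S, LI3: the action of a diagram automorphism on matrices (helper33)
-/

namespace Pool.Agent.Lib.L1S

open MeasureTheory Matrix NumberField IsDedekindDomain Pool.Agent.Lib.H89N Pool.Agent.Lib.H33W

noncomputable section

set_option linter.unusedSectionVars false

variable {ι M N : Type} [Fintype ι] [DecidableEq ι] [AddCommGroup M] [Module ℚ M] [AddCommGroup N] [Module ℚ N]
  {P : RootPairing ι ℚ M N} [P.IsCrystallographic]

namespace DA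

variable {b : P.Base} {σ τ : Equiv.Perm ι}

/-- `D_σ X D_σ⁻¹`. -/
def cj (hσ : DA b σ) {A : Type} (X : Matrix (I b) (I b) A) : Matrix (I b) (I b) A := X.submatrix hσ.pI.symm hσ.pI.symm

theorem cj_apply (hσ : DA b σ) {A : Type} (X : Matrix (I b) (I b) A) (r c : I b) : hσ.cj X (hσ.pI r) (hσ.pI c) = X r c := by
  unfold cj
  rw [Matrix.submatrix_apply, Equiv.symm_apply_apply, Equiv.symm_apply_apply]

theorem cj_eq (hσ : DA b σ) {A : Type} {X Y : Matrix (I b) (I b) A} (h : ∀ r c, Y (hσ.pI r) (hσ.pI c) = X r c) : hσ.cj X = Y := by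
  ext r c
  obtain ⟨r, rfl⟩ := hσ.pI.surjective r
  obtain ⟨c, rfl⟩ := hσ.pI.surjective c
  rw [cj_apply, h]

theorem cj_map (hσ : DA b σ) {A B : Type} (f : A → B) (X : Matrix (I b) (I b) A) : hσ.cj (X.map f) = (hσ.cj X).map f := rfl

theorem cj_add (hσ : DA b σ) {A : Type} [Add A] (X Y : Matrix (I b) (I b) A) : hσ.cj (X + Y) = hσ.cj X + hσ.cj Y := rfl

theorem cj_neg (hσ : DA b σ) {A : Type} [Neg A] (X : Matrix (I b) (I b) A) : hσ.cj (-X) = -hσ.cj X := rfl

theorem cj_zero (hσ : DA b σ) {A : Type} [Zero A] : hσ.cj (0 : Matrix (I b) (I b) A) = 0 := rfl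

theorem cj_smul (hσ : DA b σ) {A R : Type} [SMul R A] (a : R) (X : Matrix (I b) (I b) A) : hσ.cj (a • X) = a • hσ.cj X := rfl

theorem cj_sum (hσ : DA b σ) {A : Type} [AddCommMonoid A] {α : Type} (S : Finset α) (f : α → Matrix (I b) (I b) A) : hσ.cj (∑ a ∈ S, f a) = ∑ a ∈ S, hσ.cj (f a) := by
  classical
  induction S using Finset.induction_on with
  | empty => rfl
  | insert a S ha ih => rw [Finset.sum_insert ha, Finset.sum_insert ha, cj_add, ih]

theorem cj_mul (hσ : DA b σ) {A : Type} [NonUnitalNonAssocSemiring A] (X Y : Matrix (I b) (I b) A) : hσ.cj (X * Y) = hσ.cj X * hσ.cj Y := by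
  unfold cj
  exact (Matrix.submatrix_mul_equiv X Y _ hσ.pI.symm _).symm

theorem cj_one (hσ : DA b σ) {A : Type} [Zero A] [One A] : hσ.cj (1 : Matrix (I b) (I b) A) = 1 := by
  unfold cj
  exact Matrix.submatrix_one_equiv hσ.pI.symm

theorem cj_pow (hσ : DA b σ) {A : Type} [Semiring A] (X : Matrix (I b) (I b) A) (k : ℕ) : hσ.cj (X ^ k) = hσ.cj X ^ k := by
  induction k with
  | zero => rw [pow_zero, pow_zero, cj_one]
  | succ k ih => rw [pow_succ, pow_succ, cj_mul, ih]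

theorem cj_inj (hσ : DA b σ) {A : Type} {X Y : Matrix (I b) (I b) A} (h : hσ.cj X = hσ.cj Y) : X = Y := by
  ext r c
  rw [← hσ.cj_apply X, ← hσ.cj_apply Y, h]

theorem cj_dvp (hσ : DA b σ) (X : Matrix (I b) (I b) ℤ) (k : ℕ) : hσ.cj (dvp X k) = dvp (hσ.cj X) k := by
  unfold dvp
  rw [cj_map, cj_pow]

theorem cj_ex (hσ : DA b σ) (X : Matrix (I b) (I b) ℤ) {A : Type} [CommRing A] (t : A) : hσ.cj (ex X t) = ex (hσ.cj X) t := by
  unfold ex
  rw [cj_sum]
  refine Finset.sum_congr rfl fun k _ => ?_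
  rw [cj_smul, cj_map, cj_dvp]

variable [P.IsRootSystem]

theorem cj_cj (hσ : DA b σ) (hτ : DA b τ) {A : Type} (X : Matrix (I b) (I b) A) : (hσ.mul hτ).cj X = hσ.cj (hτ.cj X) := by
  refine (hσ.mul hτ).cj_eq fun r c => ?_
  rw [pI_mul hσ hτ, pI_mul hσ hτ, cj_apply, cj_apply]

theorem cj_eZ (hσ : DA b σ) (i : b.support) : hσ.cj (eZ b i) = eZ b (hσ.sp i) := hσ.cj_eq (hσ.eZ_pI i)

theorem cj_fZ (hσ : DA b σ) (i : b.support) : hσ.cj (fZ b i) = fZ b (hσ.sp i) := hσ.cj_eq (hσ.fZ_pI i)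

theorem cj_hZ (hσ : DA b σ) (i : b.support) : hσ.cj (hZ b i) = hZ b (hσ.sp i) := by
  refine hσ.cj_eq fun r c => ?_
  unfold hZ
  by_cases h : r = c
  · subst h
    rw [Matrix.diagonal_apply_eq, Matrix.diagonal_apply_eq]
    rcases r with k | β
    · rfl
    · exact hσ.pair β i
  · rw [Matrix.diagonal_apply_ne _ h, Matrix.diagonal_apply_ne _ fun h' => h (hσ.pI.injective h')]

theorem cj_nZ (hσ : DA b σ) (i : b.support) : hσ.cj (nZ b i) = nZ b (hσ.sp i) := by
  unfold nZ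
  rw [cj_mul, cj_mul, cj_ex, cj_ex, cj_eZ, cj_fZ]

theorem cj_nZ' (hσ : DA b σ) (i : b.support) : hσ.cj (nZ' b i) = nZ' b (hσ.sp i) := by
  unfold nZ'
  rw [cj_mul, cj_mul, cj_ex, cj_ex, cj_eZ, cj_fZ]

theorem cj_nL (hσ : DA b σ) (l : List b.support) : hσ.cj (nL b l) = nL b (l.map hσ.sp) := by
  induction l with
  | nil => exact hσ.cj_one
  | cons i l ih =>
    have h1 : nL b (i :: l) = nZ b i * nL b l := by
      unfold nL
      rw [List.map_cons, List.prod_cons]
    have h2 : nL b ((i :: l).map hσ.sp) = nZ b (hσ.sp i) * nL b (l.map hσ.sp) := by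
      unfold nL
      rw [List.map_cons, List.map_cons, List.prod_cons]
    rw [h1, h2, cj_mul, cj_nZ, ih]

theorem cj_nL' (hσ : DA b σ) (l : List b.support) : hσ.cj (nL' b l) = nL' b (l.map hσ.sp) := by
  induction l with
  | nil => exact hσ.cj_one
  | cons i l ih =>
    have h1 : ∀ (j : b.support) (m : List b.support), nL' b (j :: m) = nL' b m * nZ' b j := by
      intro j m
      unfold nL'
      rw [List.reverse_cons, List.map_append, List.prod_append, List.map_singleton, List.prod_singleton]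
    rw [List.map_cons, h1, h1, cj_mul, cj_nZ', ih]

theorem wL_map (hσ : DA b σ) (l : List b.support) (β : ι) : wL b (l.map hσ.sp) (σ β) = σ (wL b l β) := by
  induction l with
  | nil => rfl
  | cons i l ih =>
    rw [List.map_cons, l117_cons, l117_cons, ih, hσ.refl]
    rfl

end DA

variable [P.IsReduced] [P.IsIrreducible] [P.IsRootSystem]

/-- `n_w e_i n_w⁻¹ = ± E_(w α_i)` for every word. -/
theorem li3_word (b : P.Base) (l : List b.support) (i : b.support) : ∃ ε : ℤ, (ε = 1 ∨ ε = -1) ∧ nL b l * eZ b i * nL' b l = ε • E b (wL b l i) := by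
  induction l with
  | nil =>
    refine ⟨1, Or.inl rfl, ?_⟩
    have h1 : wL b [] (i : ι) = i := rfl
    rw [h1, E_simple, one_smul]
    unfold nL nL'
    simp
  | cons j l ih =>
    obtain ⟨ε, hε, h⟩ := ih
    obtain ⟨ε', hε', h'⟩ := nZ_E b j (wL b l i)
    refine ⟨ε * ε', ?_, ?_⟩
    · rcases hε with rfl | rfl <;> rcases hε' with rfl | rfl <;> simp
    · have h1 : nL b (j :: l) = nZ b j * nL b l := by
        unfold nL
        rw [List.map_cons, List.prod_cons]
      have h2 : nL' b (j :: l) = nL' b l * nZ' b j := by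
        unfold nL'
        rw [List.reverse_cons, List.map_append, List.prod_append, List.map_singleton, List.prod_singleton]
      rw [h1, h2, l117_cons]
      calc nZ b j * nL b l * eZ b i * (nL' b l * nZ' b j) = nZ b j * (nL b l * eZ b i * nL' b l) * nZ' b j := by simp only [Matrix.mul_assoc]
        _ = ε • (nZ b j * E b (wL b l i) * nZ' b j) := by rw [h, mul_smul_comm, smul_mul_assoc]
        _ = (ε * ε') • E b (P.reflectionPerm j (wL b l i)) := by rw [h', smul_smul]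

/-- **`D_σ E_β D_σ⁻¹ = ± E_(σ β)`.** -/
theorem DA.cj_E {b : P.Base} {σ : Equiv.Perm ι} (hσ : DA b σ) (β : ι) : ∃ ε : ℤ, (ε = 1 ∨ ε = -1) ∧ hσ.cj (E b β) = ε • E b (σ β) := by
  obtain ⟨l, i, ε, hε, hβ, h⟩ := E_word b β
  obtain ⟨ε', hε', h'⟩ := li3_word b (l.map hσ.sp) (hσ.sp i)
  have h1 : wL b (l.map hσ.sp) ((hσ.sp i : b.support) : ι) = σ β := by
    rw [hσ.sp_coe, hσ.wL_map, hβ]
  rw [h1] at h'
  refine ⟨ε * ε', ?_, ?_⟩
  · rcases hε with rfl | rfl <;> rcases hε' with rfl | rfl <;> simp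
  · rw [h, DA.cj_smul, hσ.cj_mul, hσ.cj_mul, hσ.cj_nL, hσ.cj_eZ, hσ.cj_nL', h', smul_smul]

/-- The Lie algebra is stable. -/
theorem DA.cj_gR {b : P.Base} {σ : Equiv.Perm ι} (hσ : DA b σ) {A : Type} [CommRing A] {X : Matrix (I b) (I b) A} (hX : X ∈ gR b A) : hσ.cj X ∈ gR b A := by
  have h1 : ∀ Y : Matrix (I b) (I b) ℤ, hσ.cj (toA A Y) = toA A (hσ.cj Y) := fun Y => rfl
  obtain ⟨a, y, rfl⟩ := (gR_iff b X).1 hX
  rw [DA.cj_add, DA.cj_sum, DA.cj_sum]
  refine Submodule.add_mem _ (Submodule.sum_mem _ fun i _ => ?_) (Submodule.sum_mem _ fun β _ => ?_)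
  · rw [DA.cj_smul, h1, hσ.cj_hZ]
    exact Submodule.smul_mem _ _ (Submodule.subset_span (Or.inl ⟨_, rfl⟩))
  · obtain ⟨ε, -, h⟩ := hσ.cj_E β
    rw [DA.cj_smul, h1, h]
    refine Submodule.smul_mem _ _ ?_
    have h2 : toA A (ε • E b (σ β)) = (ε : A) • toA A (E b (σ β)) := by
      rw [toA_zsmul]
      exact (Int.cast_smul_eq_zsmul A _ _).symm
    rw [h2]
    exact Submodule.smul_mem _ _ (Submodule.subset_span (Or.inr ⟨_, rfl⟩))

end

end Pool.Agent.Lib.L1S
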