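import Pool.Agent.Lib.L1S.LI4

/-!
# L1S, LI5: a homogeneous `K`-basis of the fixed vectors (helper33)
-/

namespace Pool.Agent.Lib.L1S

open MeasureTheory Matrix NumberField IsDedekindDomain Pool.Agent.Lib.H89N Pool.Agent.Lib.H33W

noncomputable section

set_option linter.unusedSectionVars false

variable {ι M N : Type} [Fintype ι] [DecidableEq ι] [AddCommGroup M] [Module ℚ M] [AddCommGroup N] [Module ℚ N]
  {P : RootPairing ι ℚ M N} [P.IsCrystallographic] [P.IsReduced] [P.IsIrreducible] [P.IsRootSystem] {b : P.Base}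

variable {K L : Type} [Field K] [Field L] [Algebra K L]

/-- The orbits on the roots. -/
def orb (act : (L ≃ₐ[K] L) →* Equiv.Perm ι) : Setoid ι where
  r β γ := ∃ s, act s β = γ
  iseqv := by
    refine ⟨fun β => ⟨1, by rw [map_one]; rfl⟩, ?_, ?_⟩
    · rintro β γ ⟨s, rfl⟩
      refine ⟨s⁻¹, ?_⟩
      rw [map_inv]
      exact (act s).symm_apply_apply β
    · rintro β γ δ ⟨s, rfl⟩ ⟨t, rfl⟩
      exact ⟨t * s, by rw [map_mul]; rfl⟩

variable (act : (L ≃ₐ[K] L) →* Equiv.Perm ι) (hact : ∀ s, DA b (act s))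

theorem orb_inv (s : L ≃ₐ[K] L) (γ : ι) : Quotient.mk (orb act) ((act s)⁻¹ γ) = Quotient.mk (orb act) γ :=
  Quotient.sound ⟨s, (act s).apply_symm_apply γ⟩

/-- The action on the functions on an orbit. -/
def tq (q : Quotient (orb act)) (s : L ≃ₐ[K] L) (f : {γ : ι // Quotient.mk (orb act) γ = q} → L) : {γ : ι // Quotient.mk (orb act) γ = q} → L :=
  fun γ => (eps act hact s ((act s)⁻¹ γ.1) : L) * s (f ⟨(act s)⁻¹ γ.1, (orb_inv act s γ.1).trans γ.2⟩)

theorem tq_semi [CharZero L] (q : Quotient (orb act)) : SemiLin K L ({γ : ι // Quotient.mk (orb act) γ = q} → L) (tq act hact q) where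
  one := by
    intro f
    funext γ
    have h1 : (act 1)⁻¹ γ.1 = γ.1 := by
      rw [map_one]
      rfl
    have h2 : (⟨(act 1)⁻¹ γ.1, (orb_inv act 1 γ.1).trans γ.2⟩ : {γ : ι // Quotient.mk (orb act) γ = q}) = γ := Subtype.ext h1
    unfold tq
    rw [h2, h1, eps_one, one_mul]
    rfl
  mul := by
    intro s t f
    funext γ
    have h1 : (act (s * t))⁻¹ γ.1 = (act t)⁻¹ ((act s)⁻¹ γ.1) := by
      rw [map_mul, _root_.mul_inv_rev]
      rfl
    have h2 : (⟨(act (s * t))⁻¹ γ.1, (orb_inv act (s * t) γ.1).trans γ.2⟩ : {γ : ι // Quotient.mk (orb act) γ = q}) =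
        ⟨(act t)⁻¹ ((act s)⁻¹ γ.1), (orb_inv act t _).trans ((orb_inv act s γ.1).trans γ.2)⟩ := Subtype.ext h1
    unfold tq
    rw [h2, h1, eps_mul]
    have h3 : act t ((act t)⁻¹ ((act s)⁻¹ γ.1)) = (act s)⁻¹ γ.1 := (act t).apply_symm_apply _
    rw [h3, map_mul, map_intCast]
    change _ * s (t _) = _
    ring
  add := by
    intro s f g
    funext γ
    unfold tq
    rw [Pi.add_apply, Pi.add_apply, map_add]
    ring
  smul := by
    intro s a f
    funext γ
    unfold tq
    rw [Pi.smul_apply, Pi.smul_apply, smul_eq_mul, smul_eq_mul, map_mul]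
    ring

open scoped Classical in
theorem li5_sum (q : Quotient (orb act)) (F : ι → L) (h : ∀ γ, Quotient.mk (orb act) γ ≠ q → F γ = 0) : ∑ γ, F γ = ∑ γ : {γ : ι // Quotient.mk (orb act) γ = q}, F γ.1 := by
  rw [← Finset.sum_subtype (Finset.univ.filter fun γ => Quotient.mk (orb act) γ = q) (by simp) F]
  symm
  refine Finset.sum_subset (Finset.filter_subset _ _) fun γ _ h' => h γ fun h'' => h' ?_
  exact Finset.mem_filter.2 ⟨Finset.mem_univ _, h''⟩

/-- Coefficients of a homogeneous basis of fixed vectors. -/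
theorem exists_hb [CharZero L] [FiniteDimensional K L] [IsGalois K L] : ∃ m m' : ι → ι → L, (∀ β γ, m β γ ≠ 0 → ∃ s, act s β = γ) ∧ (∀ β γ, m' β γ ≠ 0 → ∃ s, act s β = γ) ∧
    (∀ β δ, ∑ γ, m β γ * m' γ δ = if β = δ then 1 else 0) ∧ (∀ β δ, ∑ γ, m' β γ * m γ δ = if β = δ then 1 else 0) ∧
    ∀ β s, tauM act hact s (∑ γ, m β γ • toA L (E b γ)) = ∑ γ, m β γ • toA L (E b γ) := by
  classical
  have h1 : ∀ q : Quotient (orb act), ∃ y : Module.Basis {γ : ι // Quotient.mk (orb act) γ = q} L ({γ : ι // Quotient.mk (orb act) γ = q} → L), ∀ i s, tq act hact q s (y i) = y i :=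
    fun q => (tq_semi act hact q).basis (Pi.basisFun L _)
  choose y hy using h1
  let m : ι → ι → L := fun β γ => if h : Quotient.mk (orb act) γ = Quotient.mk (orb act) β then y (Quotient.mk (orb act) β) ⟨β, rfl⟩ ⟨γ, h⟩ else 0
  let m' : ι → ι → L := fun β γ => if h : Quotient.mk (orb act) γ = Quotient.mk (orb act) β then (y (Quotient.mk (orb act) β)).repr (Pi.single ⟨β, rfl⟩ 1) ⟨γ, h⟩ else 0
  have hm : ∀ q (β γ : {γ : ι // Quotient.mk (orb act) γ = q}), m β.1 γ.1 = y q β γ := by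
    rintro q ⟨β, rfl⟩ ⟨γ, hγ⟩
    exact dif_pos hγ
  have hm' : ∀ q (β γ : {γ : ι // Quotient.mk (orb act) γ = q}), m' β.1 γ.1 = (y q).repr (Pi.single β 1) γ := by
    rintro q ⟨β, rfl⟩ ⟨γ, hγ⟩
    exact dif_pos hγ
  have hm0 : ∀ β γ, m β γ ≠ 0 → ∃ s, act s β = γ := by
    intro β γ h
    have h2 : Quotient.mk (orb act) γ = Quotient.mk (orb act) β := by
      by_contra h3
      exact h (dif_neg h3)
    exact Quotient.exact h2.symm
  have hm0' : ∀ β γ, m' β γ ≠ 0 → ∃ s, act s β = γ := by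
    intro β γ h
    have h2 : Quotient.mk (orb act) γ = Quotient.mk (orb act) β := by
      by_contra h3
      exact h (dif_neg h3)
    exact Quotient.exact h2.symm
  have hmq : ∀ β γ, Quotient.mk (orb act) γ ≠ Quotient.mk (orb act) β → m β γ = 0 := fun β γ h => dif_neg h
  have hmq' : ∀ β γ, Quotient.mk (orb act) γ ≠ Quotient.mk (orb act) β → m' β γ = 0 := fun β γ h => dif_neg h
  refine ⟨m, m', hm0, hm0', ?_, ?_, ?_⟩
  · intro β δ
    rw [li5_sum act (Quotient.mk (orb act) β) (fun γ => m β γ * m' γ δ) fun γ h => by rw [hmq β γ h, zero_mul]]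
    by_cases hδ : Quotient.mk (orb act) δ = Quotient.mk (orb act) β
    · have e1 : ∀ γ : {γ : ι // Quotient.mk (orb act) γ = Quotient.mk (orb act) β}, m β γ.1 * m' γ.1 δ =
          (y (Quotient.mk (orb act) β)).repr (y (Quotient.mk (orb act) β) ⟨β, rfl⟩ γ • (Pi.single γ 1 : {γ : ι // Quotient.mk (orb act) γ = Quotient.mk (orb act) β} → L)) ⟨δ, hδ⟩ := by
        intro γ
        rw [map_smul, Finsupp.smul_apply, smul_eq_mul, ← hm' _ γ ⟨δ, hδ⟩, ← hm _ ⟨β, rfl⟩ γ]
      rw [Finset.sum_congr rfl fun γ _ => e1 γ, ← Finsupp.finsetSum_apply, ← map_sum]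
      have e2 : ∑ γ : {γ : ι // Quotient.mk (orb act) γ = Quotient.mk (orb act) β}, y (Quotient.mk (orb act) β) ⟨β, rfl⟩ γ • (Pi.single γ (1 : L) : {γ : ι // Quotient.mk (orb act) γ = Quotient.mk (orb act) β} → L) =
          y (Quotient.mk (orb act) β) ⟨β, rfl⟩ := by
        funext γ'
        rw [Finset.sum_apply, Finset.sum_eq_single γ']
        · simp
        · intro γ _ hγ
          simp [Pi.single_eq_of_ne hγ.symm]
        · intro h
          exact absurd (Finset.mem_univ _) h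
      rw [e2, Module.Basis.repr_self, Finsupp.single_apply]
      by_cases hβδ : β = δ
      · rw [if_pos hβδ, if_pos (Subtype.ext hβδ)]
      · rw [if_neg hβδ, if_neg fun h => hβδ (congrArg Subtype.val h)]
    · rw [if_neg (fun h => hδ (by rw [h]))]
      refine Finset.sum_eq_zero fun γ _ => ?_
      rw [hmq' γ.1 δ (by rw [γ.2]; exact hδ), mul_zero]
  · intro β δ
    rw [li5_sum act (Quotient.mk (orb act) β) (fun γ => m' β γ * m γ δ) fun γ h => by rw [hmq' β γ h, zero_mul]]
    by_cases hδ : Quotient.mk (orb act) δ = Quotient.mk (orb act) β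
    · have e1 : ∀ γ : {γ : ι // Quotient.mk (orb act) γ = Quotient.mk (orb act) β}, m' β γ.1 * m γ.1 δ =
          ((y (Quotient.mk (orb act) β)).repr (Pi.single ⟨β, rfl⟩ 1) γ • y (Quotient.mk (orb act) β) γ) ⟨δ, hδ⟩ := by
        intro γ
        rw [Pi.smul_apply, smul_eq_mul, ← hm' _ ⟨β, rfl⟩ γ, ← hm _ γ ⟨δ, hδ⟩]
      rw [Finset.sum_congr rfl fun γ _ => e1 γ, ← Finset.sum_apply, Module.Basis.sum_repr]
      by_cases hβδ : β = δ
      · subst hβδ
        rw [if_pos rfl, Pi.single_eq_same]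
      · rw [if_neg hβδ, Pi.single_eq_of_ne]
        intro h
        exact hβδ (congrArg Subtype.val h).symm
    · rw [if_neg (fun h => hδ (by rw [h]))]
      refine Finset.sum_eq_zero fun γ _ => ?_
      rw [hmq γ.1 δ (by rw [γ.2]; exact hδ), mul_zero]
  · intro β s
    rw [(tauM_semi act hact).sum]
    have e1 : ∀ γ, tauM act hact s (m β γ • toA L (E b γ)) = (s (m β γ) * (eps act hact s γ : L)) • toA L (E b (act s γ)) := by
      intro γ
      rw [(tauM_semi act hact).smul, tauM_E, smul_smul]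
    rw [Finset.sum_congr rfl fun γ _ => e1 γ]
    refine Fintype.sum_equiv (act s) _ _ fun γ => ?_
    congr 1
    by_cases hγ : Quotient.mk (orb act) γ = Quotient.mk (orb act) β
    · have h2 : Quotient.mk (orb act) (act s γ) = Quotient.mk (orb act) β := by
        rw [← hγ]
        have h8 : (orb act).r γ (act s γ) := ⟨s, rfl⟩
        exact (Quotient.sound h8).symm
      have h3 := congrFun (hy (Quotient.mk (orb act) β) ⟨β, rfl⟩ s) ⟨act s γ, h2⟩
      unfold tq at h3
      simp only at h3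
      have h4 : (act s)⁻¹ (act s γ) = γ := (act s).symm_apply_apply γ
      have h5 : (⟨(act s)⁻¹ (act s γ), (orb_inv act s (act s γ)).trans h2⟩ : {γ : ι // Quotient.mk (orb act) γ = Quotient.mk (orb act) β}) = ⟨γ, hγ⟩ := Subtype.ext h4
      rw [h5, h4] at h3
      have h6 := hm _ ⟨β, rfl⟩ ⟨act s γ, h2⟩
      have h7 := hm _ ⟨β, rfl⟩ ⟨γ, hγ⟩
      simp only at h6 h7
      rw [h6, h7, ← h3]
      ring
    · have h2 : Quotient.mk (orb act) (act s γ) ≠ Quotient.mk (orb act) β := by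
        intro h
        apply hγ
        rw [← h]
        have h8 : (orb act).r γ (act s γ) := ⟨s, rfl⟩
        exact Quotient.sound h8
      rw [hmq β γ hγ, hmq β _ h2, map_zero, zero_mul]

end

end Pool.Agent.Lib.L1S
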