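import Pool.Agent.Lib.L1S.LI5

/-!
# L1S, LI6: the homogeneous basis of the fixed root vectors and its dual coordinates (helper33)
-/

namespace Pool.Agent.Lib.L1S

open MeasureTheory Matrix NumberField IsDedekindDomain Pool.Agent.Lib.H89N Pool.Agent.Lib.H33W

noncomputable section

set_option linter.unusedSectionVars false

variable {ι M N : Type} [Fintype ι] [DecidableEq ι] [AddCommGroup M] [Module ℚ M] [AddCommGroup N] [Module ℚ N]
  {P : RootPairing ι ℚ M N} [P.IsCrystallographic] [P.IsReduced] [P.IsIrreducible] [P.IsRootSystem] {b : P.Base}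

/-- The functional with the coefficients `F`. -/
def fcM {A : Type} [CommRing A] (F X : Matrix (I b) (I b) A) : A := ∑ r, ∑ c, F r c * X r c

section fc

variable {A : Type} [CommRing A]

theorem fcM_add_left (F G X : Matrix (I b) (I b) A) : fcM (F + G) X = fcM F X + fcM G X := by
  unfold fcM
  rw [← Finset.sum_add_distrib]
  refine Finset.sum_congr rfl fun r _ => ?_
  rw [← Finset.sum_add_distrib]
  refine Finset.sum_congr rfl fun c _ => ?_
  rw [Matrix.add_apply, add_mul]

theorem fcM_add (F X Y : Matrix (I b) (I b) A) : fcM F (X + Y) = fcM F X + fcM F Y := by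
  unfold fcM
  rw [← Finset.sum_add_distrib]
  refine Finset.sum_congr rfl fun r _ => ?_
  rw [← Finset.sum_add_distrib]
  refine Finset.sum_congr rfl fun c _ => ?_
  rw [Matrix.add_apply, mul_add]

theorem fcM_smul_left (a : A) (F X : Matrix (I b) (I b) A) : fcM (a • F) X = a * fcM F X := by
  unfold fcM
  rw [Finset.mul_sum]
  refine Finset.sum_congr rfl fun r _ => ?_
  rw [Finset.mul_sum]
  refine Finset.sum_congr rfl fun c _ => ?_
  rw [Matrix.smul_apply, smul_eq_mul, mul_assoc]

theorem fcM_smul (a : A) (F X : Matrix (I b) (I b) A) : fcM F (a • X) = a * fcM F X := by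
  unfold fcM
  rw [Finset.mul_sum]
  refine Finset.sum_congr rfl fun r _ => ?_
  rw [Finset.mul_sum]
  refine Finset.sum_congr rfl fun c _ => ?_
  rw [Matrix.smul_apply, smul_eq_mul, mul_left_comm]

theorem fcM_zero_left (X : Matrix (I b) (I b) A) : fcM 0 X = 0 := by
  unfold fcM
  simp

theorem fcM_zero (F : Matrix (I b) (I b) A) : fcM F 0 = 0 := by
  unfold fcM
  simp

theorem fcM_sum_left {α : Type} (s : Finset α) (F : α → Matrix (I b) (I b) A) (X : Matrix (I b) (I b) A) : fcM (∑ a ∈ s, F a) X = ∑ a ∈ s, fcM (F a) X := by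
  classical
  induction s using Finset.induction_on with
  | empty => rw [Finset.sum_empty, Finset.sum_empty, fcM_zero_left]
  | insert a s ha ih => rw [Finset.sum_insert ha, Finset.sum_insert ha, fcM_add_left, ih]

theorem fcM_sum {α : Type} (s : Finset α) (F : Matrix (I b) (I b) A) (X : α → Matrix (I b) (I b) A) : fcM F (∑ a ∈ s, X a) = ∑ a ∈ s, fcM F (X a) := by
  classical
  induction s using Finset.induction_on with
  | empty => rw [Finset.sum_empty, Finset.sum_empty, fcM_zero]
  | insert a s ha ih => rw [Finset.sum_insert ha, Finset.sum_insert ha, fcM_add, ih]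

theorem fcM_map {B : Type} [CommRing B] (φ : A →+* B) (F X : Matrix (I b) (I b) A) : fcM (F.map φ) (X.map φ) = φ (fcM F X) := by
  unfold fcM
  rw [map_sum]
  refine Finset.sum_congr rfl fun r _ => ?_
  rw [map_sum]
  refine Finset.sum_congr rfl fun c _ => ?_
  rw [map_mul, Matrix.map_apply, Matrix.map_apply]

/-- The coefficients of `cf β`. -/
def ZcM (b : P.Base) (A : Type) [CommRing A] (β : ι) : Matrix (I b) (I b) A :=
  Matrix.of fun r c => if c = Sum.inr (ng P β) then Sum.elim (fun j => ((exists_cf b β).choose j : A)) (fun _ => 0) r else 0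

theorem fcM_ZcM (β : ι) (X : Matrix (I b) (I b) A) : fcM (ZcM b A β) X = cf b β X := by
  unfold fcM
  have h1 : ∀ r : I b, ∑ c, ZcM b A β r c * X r c = ZcM b A β r (Sum.inr (ng P β)) * X r (Sum.inr (ng P β)) := by
    intro r
    refine Finset.sum_eq_single _ (fun c _ hc => ?_) (fun h => absurd (Finset.mem_univ _) h)
    unfold ZcM
    rw [Matrix.of_apply, if_neg hc, zero_mul]
  rw [Finset.sum_congr rfl fun r _ => h1 r, Fintype.sum_sum_type]
  unfold ZcM cf
  simp

theorem ZcM_ne {β : ι} {r c : I b} (h : ZcM b A β r c ≠ 0) : wt b r = wt b c + P.root β := by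
  unfold ZcM at h
  rw [Matrix.of_apply] at h
  by_cases hc : c = Sum.inr (ng P β)
  · rcases r with j | γ
    · subst hc
      change (0 : M) = P.root (P.reflectionPerm β β) + P.root β
      rw [P.root_reflectionPerm, P.reflection_apply_self, neg_add_cancel]
    · rw [if_pos hc] at h
      exact absurd rfl h
  · rw [if_neg hc] at h
    exact absurd rfl h

end fc

variable {K L : Type} [Field K] [Field L] [Algebra K L] (act : (L ≃ₐ[K] L) →* Equiv.Perm ι) (hact : ∀ s, DA b (act s))

theorem fcM_tau (s : L ≃ₐ[K] L) (F X : Matrix (I b) (I b) L) : fcM (tauM act hact s F) (tauM act hact s X) = s (fcM F X) := by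
  unfold fcM
  rw [← Equiv.sum_comp (hact s).pI, map_sum]
  refine Finset.sum_congr rfl fun r _ => ?_
  rw [← Equiv.sum_comp (hact s).pI, map_sum]
  refine Finset.sum_congr rfl fun c _ => ?_
  rw [tauM_apply, tauM_apply, map_mul]

/-- **The homogeneous basis `Y` of the fixed root vectors and the dual coordinates `F`.** -/
theorem exists_YF [CharZero L] [FiniteDimensional K L] [IsGalois K L] : ∃ Y F : ι → Matrix (I b) (I b) L,
    (∀ β, Y β ∈ gR b L) ∧ (∀ β s, tauM act hact s (Y β) = Y β) ∧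
    (∀ β r c, Y β r c ≠ 0 → ∃ s, wt b r = wt b c + P.root (act s β)) ∧
    (∀ β r c, F β r c ≠ 0 → ∃ s, wt b r = wt b c + P.root (act s β)) ∧
    (∀ β γ, fcM (F β) (Y γ) = if β = γ then 1 else 0) ∧
    (∀ β s, tauM act hact s (F β) = F β) ∧
    ∀ β, ∃ a : ι → L, (∀ γ, a γ ≠ 0 → ∃ s, act s β = γ) ∧ toA L (E b β) = ∑ γ, a γ • Y γ := by
  classical
  obtain ⟨m, m', hm0, hm0', hmm', hm'm, hfix⟩ := exists_hb act hact
  have hcard : (Fintype.card (L ≃ₐ[K] L) : L) ≠ 0 := by
    exact_mod_cast Fintype.card_ne_zero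
  set Y : ι → Matrix (I b) (I b) L := fun β => ∑ γ, m β γ • toA L (E b γ) with hY
  set F0 : ι → Matrix (I b) (I b) L := fun β => ∑ γ, m' γ β • ZcM b L γ with hF0
  have h00 : ∀ β γ, fcM (F0 β) (Y γ) = if β = γ then 1 else 0 := by
    intro β γ
    have e1 : ∀ δ, fcM (ZcM b L δ) (Y γ) = m γ δ := by
      intro δ
      rw [fcM_ZcM, hY]
      dsimp only
      rw [cf_sum, Finset.sum_eq_single δ]
      · rw [cf_smul, cf_E, if_pos rfl, mul_one]
      · intro ε _ hε
        rw [cf_smul, cf_E, if_neg hε, mul_zero]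
      · intro h
        exact absurd (Finset.mem_univ _) h
    rw [hF0]
    dsimp only
    rw [fcM_sum_left]
    have e2 : ∀ δ, fcM (m' δ β • ZcM b L δ) (Y γ) = m γ δ * m' δ β := by
      intro δ
      rw [fcM_smul_left, e1, mul_comm]
    rw [Finset.sum_congr rfl fun δ _ => e2 δ, hmm']
    by_cases h : β = γ
    · rw [if_pos h, if_pos h.symm]
    · rw [if_neg h, if_neg fun h' => h h'.symm]
  have hfix' : ∀ β s, tauM act hact s (Y β) = Y β := hfix
  have hs := tauM_semi act hact
  have hninv : ∀ s : L ≃ₐ[K] L, s ((Fintype.card (L ≃ₐ[K] L) : L)⁻¹) = (Fintype.card (L ≃ₐ[K] L) : L)⁻¹ := by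
    intro s
    rw [map_inv₀, map_natCast]
  refine ⟨Y, fun β => (Fintype.card (L ≃ₐ[K] L) : L)⁻¹ • ∑ s, tauM act hact s (F0 β), ?_, hfix, ?_, ?_, ?_, ?_, ?_⟩
  · intro β
    refine Submodule.sum_mem _ fun γ _ => Submodule.smul_mem _ _ ?_
    exact Submodule.subset_span (Or.inr ⟨γ, rfl⟩)
  · intro β r c h
    rw [hY] at h
    dsimp only at h
    rw [Matrix.sum_apply] at h
    obtain ⟨γ, _, hγ⟩ := Finset.exists_ne_zero_of_sum_ne_zero h
    rw [Matrix.smul_apply, smul_eq_mul] at hγ
    obtain ⟨s, hs⟩ := hm0 β γ (left_ne_zero_of_mul hγ)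
    refine ⟨s, ?_⟩
    rw [hs]
    exact (hasWt_E b γ).toA r c (right_ne_zero_of_mul hγ)
  · intro β r c h
    dsimp only at h
    rw [Matrix.smul_apply, smul_eq_mul, Matrix.sum_apply] at h
    obtain ⟨s, _, hs'⟩ := Finset.exists_ne_zero_of_sum_ne_zero (right_ne_zero_of_mul h)
    obtain ⟨r, rfl⟩ := (hact s).pI.surjective r
    obtain ⟨c, rfl⟩ := (hact s).pI.surjective c
    rw [tauM_apply] at hs'
    have h1 : F0 β r c ≠ 0 := fun h0 => hs' (by rw [h0, map_zero])
    rw [hF0] at h1
    dsimp only at h1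
    rw [Matrix.sum_apply] at h1
    obtain ⟨γ, _, hγ⟩ := Finset.exists_ne_zero_of_sum_ne_zero h1
    rw [Matrix.smul_apply, smul_eq_mul] at hγ
    obtain ⟨t, ht⟩ := hm0' γ β (left_ne_zero_of_mul hγ)
    have h2 := ZcM_ne (right_ne_zero_of_mul hγ)
    refine ⟨s * t⁻¹, ?_⟩
    have h3 : act (s * t⁻¹) β = act s γ := by
      rw [← ht, map_mul, map_inv]
      change act s ((act t).symm (act t γ)) = act s γ
      rw [Equiv.symm_apply_apply]
    rw [h3, (hact s).wt_pI, (hact s).wt_pI, ← (hact s).L_root, ← map_add, ← h2]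
  · intro β γ
    dsimp only
    rw [fcM_smul_left, fcM_sum_left]
    have e1 : ∀ s, fcM (tauM act hact s (F0 β)) (Y γ) = if β = γ then 1 else 0 := by
      intro s
      conv_lhs => rw [← hfix' γ s]
      rw [fcM_tau, h00]
      split_ifs
      · rw [map_one]
      · rw [map_zero]
    rw [Finset.sum_congr rfl fun s _ => e1 s, Finset.sum_const, Finset.card_univ, nsmul_eq_mul, ← mul_assoc, inv_mul_cancel₀ hcard, one_mul]
  · intro β s
    dsimp only
    rw [hs.smul, hs.sum, hninv]
    congr 1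
    have e1 : ∀ t, tauM act hact s (tauM act hact t (F0 β)) = tauM act hact (s * t) (F0 β) := fun t => (hs.mul s t _).symm
    rw [Finset.sum_congr rfl fun t _ => e1 t]
    exact Equiv.sum_comp (Equiv.mulLeft s) fun t => tauM act hact t (F0 β)
  · intro β
    refine ⟨m' β, hm0' β, ?_⟩
    rw [hY]
    dsimp only
    have e1 : ∀ γ, m' β γ • ∑ δ, m γ δ • toA L (E b δ) = ∑ δ, (m' β γ * m γ δ) • toA L (E b δ) := by
      intro γ
      rw [Finset.smul_sum]
      exact Finset.sum_congr rfl fun δ _ => smul_smul _ _ _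
    rw [Finset.sum_congr rfl fun γ _ => e1 γ, Finset.sum_comm]
    have e2 : ∀ δ, ∑ γ, (m' β γ * m γ δ) • toA L (E b δ) = (if β = δ then (1 : L) else 0) • toA L (E b δ) := by
      intro δ
      rw [← Finset.sum_smul, hm'm]
    rw [Finset.sum_congr rfl fun δ _ => e2 δ, Finset.sum_eq_single β]
    · rw [if_pos rfl, one_smul]
    · intro δ _ hδ
      rw [if_neg hδ.symm, zero_smul]
    · intro h
      exact absurd (Finset.mem_univ _) h

end

end Pool.Agent.Lib.L1S
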