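import Pool.Agent.Lib.L1S.R0
import Pool.Agent.Lib.L1S.Q0

/-!
# L1S, module R_H (arithmetic of quasi-split groups), definitions. Owner: helper56.

The interface `LieH` with the Lie theory: a `K`-basis `Y_β` (`β > 0`) of the fixed Lie algebra with divided powers, the one parameter groups, the `K`-coordinates (integral up to the constant `cst`).
-/

namespace Pool.Agent.Lib.L1S

open MeasureTheory Matrix NumberField IsDedekindDomain Pool.Agent.Lib.H89N Pool.Agent.Lib.H33W

noncomputable section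

set_option linter.unusedSectionVars false

variable {ι M N : Type} [Fintype ι] [DecidableEq ι] [AddCommGroup M] [Module ℚ M] [AddCommGroup N] [Module ℚ N]
  {P : RootPairing ι ℚ M N} [P.IsCrystallographic] [P.IsRootSystem]

/-- The real span of `K` in `L ⊗ ℝ`. -/
def KR (K L : Type) [Field K] [NumberField K] [Field L] [NumberField L] [Algebra K L] : Submodule ℝ (EE L) :=
  Submodule.span ℝ (Set.range fun t : K => (mixedEmbedding L (algebraMap K L t) : EE L))

/-- `K → KR`. -/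
def kr (K L : Type) [Field K] [NumberField K] [Field L] [NumberField L] [Algebra K L] (t : K) : KR K L :=
  ⟨mixedEmbedding L (algebraMap K L t), Submodule.subset_span ⟨t, rfl⟩⟩

/-- A functional on the weights which is invariant under the permutations in `D`. -/
def InvF (P : RootPairing ι ℚ M N) (D : Set (Equiv.Perm ι)) (f : M →ₗ[ℚ] ℝ) : Prop := ∀ s ∈ D, ∀ β, f (P.root (s β)) = f (P.root β)

/-- A coweight which is invariant under the permutations in `D`. -/
def InvCD (b : P.Base) (D : Set (Equiv.Perm ι)) (c : b.support → ℤ) : Prop := ∀ s ∈ D, ∀ β, pr b c (Sum.inr (s β)) = pr b c (Sum.inr β)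

/-- **The interface with the Lie theory** of the subgroup `H` of `G(L)`: `DP β k = Y_β ^ k / k!`, `Y_β` (`β > 0`) a `K`-basis of the Lie algebra of the unipotent group of `H`, of the weight `β` for all functionals which are invariant under `D`. -/
structure LieH (b : P.Base) (K L : Type) [Field K] [NumberField K] [Field L] [NumberField L] [Algebra K L] (D : Set (Equiv.Perm ι)) (H : Subgroup (GK b L)) where
  /-- The divided powers of the basis vector `Y_β`. -/
  DP : ι → ℕ → Matrix (I b) (I b) (𝓞 L)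
  /-- All of them are zero from here on. -/
  m : ℕ
  dp0 : ∀ β, DP β 0 = 1
  dpm : ∀ β k, m ≤ k → DP β k = 0
  ht_inv : ∀ s ∈ D, ∀ β, b.height (s β) = b.height β
  supp : ∀ f : M →ₗ[ℚ] ℝ, InvF P D f → ∀ β ∈ Pos b, ∀ k r c, DP β k r c ≠ 0 → f (wtR b r) = f (wtR b c) + k * f (P.root β)
  /-- The denominator of the `K`-coordinates. -/
  cst : ℕ
  cst0 : cst ≠ 0
  /-- The coefficients of the `K`-coordinates. -/
  z : ι → I b → I b → 𝓞 L
  zsupp : ∀ f : M →ₗ[ℚ] ℝ, InvF P D f → ∀ β ∈ Pos b, ∀ r c, z β r c ≠ 0 → f (wtR b r) = f (wtR b c) + f (P.root β)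
  z1 : ∀ β ∈ Pos b, ∀ γ ∈ Pos b, b.height β = b.height γ → ∑ r, ∑ c, Algebra.trace K L (((z β r c : 𝓞 L) : L) * ((DP γ 1 r c : 𝓞 L) : L)) = if γ = β then (cst : K) else 0
  /-- The one parameter group `exp(t Y_β)`, `t ∈ K`. -/
  x : ι → K → GK b L
  x_mem : ∀ β ∈ Pos b, ∀ t, x β t ∈ H
  x_val : ∀ β ∈ Pos b, ∀ t, (x β t).1.1 = ∑ k ∈ Finset.range m, (algebraMap K L t) ^ k • (DP β k).map (fun y : 𝓞 L => (y : L))
  x_add : ∀ β ∈ Pos b, ∀ s t, x β (s + t) = x β s * x β t
  /-- The one parameter group `exp(t Y_β)`, `t ∈ K ⊗ ℝ`. -/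
  xE : ι → KR K L → GR b L
  xE_mem : ∀ β ∈ Pos b, ∀ t, xE β t ∈ HRs H
  xE_val : ∀ β ∈ Pos b, ∀ t, (xE β t).1.1 = ∑ k ∈ Finset.range m, (t : EE L) ^ k • (DP β k).map (fun y : 𝓞 L => (mixedEmbedding L (y : L) : EE L))
  xE_add : ∀ β ∈ Pos b, ∀ s t, xE β (s + t) = xE β s * xE β t
  xE_cont : ∀ β ∈ Pos b, Continuous (xE β)
  emb_x : ∀ β ∈ Pos b, ∀ t, emb b L (x β t) = xE β (kr K L t)
  degH : ∀ g ∈ H, ∀ k : ℕ, 1 ≤ k → g ∈ FK b L k → ∃ y : ι → K, dgk b k g.1.1 = ∑ β ∈ Posk b k, algebraMap K L (y β) • (DP β 1).map (fun y : 𝓞 L => (y : L))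
  degR : ∀ g : UR b L, g.1 ∈ HRs H → ∀ k : ℕ, 1 ≤ k → g ∈ FR b L k →
    ∃ y : ι → KR K L, dgk b k g.1.1.1 = ∑ β ∈ Posk b k, (y β : EE L) • (DP β 1).map (fun y : 𝓞 L => (mixedEmbedding L (y : L) : EE L))
  uni : ∀ u ∈ UR b L, Uni b u.1.1

variable {b : P.Base} {K L : Type} [Field K] [NumberField K] [Field L] [NumberField L] [Algebra K L] {D : Set (Equiv.Perm ι)} {H : Subgroup (GK b L)}

/-- The basis vector `Y_β` over `L`. -/
def LieH.Y (J : LieH b K L D H) (β : ι) : Matrix (I b) (I b) L := (J.DP β 1).map (fun y : 𝓞 L => (y : L))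

/-- The basis vector `Y_β` over `L ⊗ ℝ`. -/
def LieH.YE (J : LieH b K L D H) (β : ι) : Matrix (I b) (I b) (EE L) := (J.DP β 1).map (fun y : 𝓞 L => (mixedEmbedding L (y : L) : EE L))

/-- `cst` times the coordinate `β` of a matrix over `L`. -/
def LieH.cf (J : LieH b K L D H) (β : ι) (X : Matrix (I b) (I b) L) : K := ∑ r, ∑ c, Algebra.trace K L ((J.z β r c : L) * X r c)

end

end Pool.Agent.Lib.L1S
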