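import Pool.Agent.Lib.L1S.LI6
import Pool.Agent.Lib.L1S.QStm
import Pool.Agent.Lib.L1S.RH0

/-!
# L1S, LI7: the degree `k` parts of the elements of the quasi-split group (helper33)
-/

namespace Pool.Agent.Lib.L1S

open MeasureTheory Matrix NumberField IsDedekindDomain Pool.Agent.Lib.H89N Pool.Agent.Lib.H33W

noncomputable section

set_option linter.unusedSectionVars false

variable {ι M N : Type} [Fintype ι] [DecidableEq ι] [AddCommGroup M] [Module ℚ M] [AddCommGroup N] [Module ℚ N]
  {P : RootPairing ι ℚ M N} [P.IsCrystallographic] [P.IsReduced] [P.IsIrreducible] [P.IsRootSystem] {b : P.Base}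

/-- Heights of weights. -/
theorem li7_ht {r c : I b} {β : ι} (h : wt b r = wt b c + P.root β) : ht b r = ht b c + b.height β := by
  classical
  have h1 : HasWt b (P.root β) (Matrix.of fun r' c' => if r' = r ∧ c' = c then (1 : ℤ) else 0 : Matrix (I b) (I b) ℤ) := by
    intro r' c' h'
    rw [Matrix.of_apply] at h'
    have h2 : r' = r ∧ c' = c := by
      by_contra h3
      rw [if_neg h3] at h'
      exact h' rfl
    rw [h2.1, h2.2]
    exact h
  refine HasWt.ht b h1 r c ?_
  rw [Matrix.of_apply, if_pos ⟨rfl, rfl⟩]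
  exact one_ne_zero

section lead

variable {K L : Type} [Field K] [Field L] [Algebra K L] {act : (L ≃ₐ[K] L) →* Equiv.Perm ι}

theorem li7_lead (hact : ∀ s, DA b (act s)) {A : Type} [CommRing A] (φ : L →+* A) {Y F : ι → Matrix (I b) (I b) L}
    (hFw : ∀ β r c, F β r c ≠ 0 → ∃ s, wt b r = wt b c + P.root (act s β))
    (hFY : ∀ β γ, fcM (F β) (Y γ) = if β = γ then 1 else 0)
    (hE : ∀ β, ∃ a : ι → L, (∀ γ, a γ ≠ 0 → ∃ s, act s β = γ) ∧ toA L (E b β) = ∑ γ, a γ • Y γ)
    {k : ℤ} {g : Matrix (I b) (I b) A} {y : ι → A} (hg : hcp b k g = ∑ β with b.height β = k, y β • toA A (E b β)) :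
    hcp b k g = ∑ γ with b.height γ = k, fcM ((F γ).map φ) g • (Y γ).map φ := by
  classical
  choose a ha haE using hE
  have hht : ∀ β γ, a β γ ≠ 0 → b.height γ = b.height β := by
    intro β γ h
    obtain ⟨s, hs⟩ := ha β γ h
    rw [← hs, (hact s).height]
  have e1 : ∀ β, b.height β = k → toA A (E b β) = ∑ γ with b.height γ = k, φ (a β γ) • (Y γ).map φ := by
    intro β hβ
    have h1 : toA A (E b β) = (toA L (E b β)).map φ := by
      ext r c
      simp
    rw [h1, haE, Finset.sum_filter]
    ext r c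
    rw [Matrix.map_apply, Matrix.sum_apply, Matrix.sum_apply, map_sum]
    refine Finset.sum_congr rfl fun γ _ => ?_
    rw [Matrix.smul_apply, smul_eq_mul, map_mul]
    split_ifs with h2
    · rw [Matrix.smul_apply, smul_eq_mul, Matrix.map_apply]
    · have h3 : a β γ = 0 := by
        by_contra h4
        exact h2 ((hht β γ h4).trans hβ)
      rw [h3, map_zero, zero_mul]
      rfl
  set w : ι → A := fun γ => ∑ β with b.height β = k, y β * φ (a β γ) with hw
  have e2 : hcp b k g = ∑ γ with b.height γ = k, w γ • (Y γ).map φ := by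
    rw [hg]
    have h1 : ∀ β ∈ Finset.univ.filter (fun β => b.height β = k), y β • toA A (E b β) = ∑ γ with b.height γ = k, (y β * φ (a β γ)) • (Y γ).map φ := by
      intro β hβ
      rw [e1 β (Finset.mem_filter.1 hβ).2, Finset.smul_sum]
      exact Finset.sum_congr rfl fun γ _ => smul_smul _ _ _
    rw [Finset.sum_congr rfl h1, Finset.sum_comm]
    refine Finset.sum_congr rfl fun γ _ => ?_
    rw [hw]
    dsimp only
    rw [Finset.sum_smul]
  have e3 : ∀ γ, b.height γ = k → fcM ((F γ).map φ) g = w γ := by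
    intro γ hγ
    have h1 : fcM ((F γ).map φ) g = fcM ((F γ).map φ) (hcp b k g) := by
      unfold fcM
      refine Finset.sum_congr rfl fun r _ => Finset.sum_congr rfl fun c _ => ?_
      unfold hcp
      rw [Matrix.of_apply]
      split_ifs with h2
      · rfl
      · have h3 : F γ r c = 0 := by
          by_contra h4
          obtain ⟨s, hs⟩ := hFw γ r c h4
          have h5 := li7_ht hs
          rw [(hact s).height, hγ] at h5
          exact h2 h5
        rw [Matrix.map_apply, h3, map_zero, zero_mul, zero_mul]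
    rw [h1, e2, fcM_sum, Finset.sum_eq_single γ]
    · rw [fcM_smul, fcM_map, hFY, if_pos rfl, map_one, mul_one]
    · intro δ _ hδ
      rw [fcM_smul, fcM_map, hFY, if_neg hδ.symm, map_zero, mul_zero]
    · intro h
      exact absurd (Finset.mem_filter.2 ⟨Finset.mem_univ γ, hγ⟩ : γ ∈ Finset.univ.filter fun γ => b.height γ = k) h
  rw [e2]
  refine Finset.sum_congr rfl fun γ hγ => ?_
  rw [e3 γ (Finset.mem_filter.1 hγ).2]

end lead

section group

variable {K L : Type} [Field K] [NumberField K] [Field L] [NumberField L] [Algebra K L] (Q : QS b K L)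

theorem li7_Fx (X : Matrix (I b) (I b) L) : Fx Q X ↔ ∀ s, tauM Q.act Q.da s X = X := by
  constructor
  · intro h s
    ext r c
    obtain ⟨r, rfl⟩ := (Q.da s).pI.surjective r
    obtain ⟨c, rfl⟩ := (Q.da s).pI.surjective c
    rw [tauM_apply, h]
  · intro h s r c
    conv_lhs => rw [← h s]
    rw [tauM_apply]

theorem li7_HQ {g : GK b L} (hg : g ∈ HQ Q) (s : L ≃ₐ[K] L) : tauM Q.act Q.da s g.1.1 = g.1.1 := by
  unfold HQ at hg
  induction hg using Subgroup.closure_induction with
  | mem x hx => exact (li7_Fx Q _).1 hx.1 s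
  | one => exact tauM_one _ _ s
  | mul x y _ _ hx hy =>
    have e : (x * y).1.1 = x.1.1 * y.1.1 := rfl
    rw [e, tauM_mul, hx, hy]
  | inv x _ hx =>
    have h1 : x.1.1 * x⁻¹.1.1 = 1 := by
      have h2 : (x * x⁻¹).1.1 = (1 : GK b L).1.1 := by rw [mul_inv_cancel]
      exact h2
    have h3 : x⁻¹.1.1 * x.1.1 = 1 := by
      have h2 : (x⁻¹ * x).1.1 = (1 : GK b L).1.1 := by rw [inv_mul_cancel]
      exact h2
    have h4 : x.1.1 * tauM Q.act Q.da s x⁻¹.1.1 = 1 := by
      conv_lhs => rw [← hx]
      rw [← tauM_mul, h1, tauM_one]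
    calc tauM Q.act Q.da s x⁻¹.1.1 = (x⁻¹.1.1 * x.1.1) * tauM Q.act Q.da s x⁻¹.1.1 := by rw [h3, one_mul]
      _ = x⁻¹.1.1 := by rw [Matrix.mul_assoc, h4, mul_one]

variable [IsGalois K L]

/-- A fixed functional has values in `K` on `H`. -/
theorem li7_inK {F : Matrix (I b) (I b) L} (hF : ∀ s, tauM Q.act Q.da s F = F) {X : Matrix (I b) (I b) L} (hX : ∀ s, tauM Q.act Q.da s X = X) : ∃ t : K, algebraMap K L t = fcM F X := by
  have : FiniteDimensional K L := Module.Finite.of_restrictScalars_finite ℚ K L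
  refine (IsGalois.mem_range_algebraMap_iff_fixed (F := K) (E := L) (fcM F X)).2 fun s => ?_
  have h := fcM_tau Q.act Q.da s F X
  rw [hF, hX] at h
  exact h.symm

theorem li7_KR_closed (K L : Type) [Field K] [NumberField K] [Field L] [NumberField L] [Algebra K L] : IsClosed (KR K L : Set (EE L)) :=
  Submodule.closed_of_finiteDimensional _

theorem li7_cont (F : Matrix (I b) (I b) (EE L)) : Continuous fun g : GR b L => fcM F g.1.1 := by
  unfold fcM
  have h1 : Continuous fun g : GR b L => g.1.1 := Units.continuous_val.comp continuous_subtype_val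
  refine continuous_finsetSum _ fun r _ => continuous_finsetSum _ fun c _ => ?_
  exact continuous_const.mul (h1.matrix_elem r c)

/-- A fixed functional has values in `KR` on the real group. -/
theorem li7_inKR {F : Matrix (I b) (I b) L} (hF : ∀ s, tauM Q.act Q.da s F = F) {g : GR b L} (hg : g ∈ HRs (HQ Q)) : fcM (F.map (mixedEmbedding L)) g.1.1 ∈ KR K L := by
  have hc : IsClosed {g : GR b L | fcM (F.map (mixedEmbedding L)) g.1.1 ∈ KR K L} := (li7_KR_closed K L).preimage (li7_cont _)
  have h1 : ((HQ Q).map (emb b L) : Set (GR b L)) ⊆ {g : GR b L | fcM (F.map (mixedEmbedding L)) g.1.1 ∈ KR K L} := by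
    rintro _ ⟨h, hh, rfl⟩
    have e : (emb b L h).1.1 = h.1.1.map (mixedEmbedding L) := rfl
    change fcM (F.map (mixedEmbedding L)) (emb b L h).1.1 ∈ KR K L
    rw [e, fcM_map]
    obtain ⟨t, ht⟩ := li7_inK Q hF (li7_HQ Q hh)
    rw [← ht]
    exact Submodule.subset_span ⟨t, rfl⟩
  exact closure_minimal h1 hc hg

end group

end

end Pool.Agent.Lib.L1S
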