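import Pool.Agent.Lib.L1S.T3

/-!
# QE (version V1): the real extension of a `ℚ`-linear map between powers of number fields
-/

namespace Pool.Agent.Lib.L1S

open NumberField Pool.Agent.Lib.H89N Pool.Agent.Lib.H33W Topology

noncomputable section

/-- The embedding `L^α → (L ⊗ ℝ)^α`. -/
def ev {α L : Type} [Field L] [NumberField L] (x : α → L) : α → EE L := fun a => mixedEmbedding L (x a)

theorem ev_add {α L : Type} [Field L] [NumberField L] (x y : α → L) : ev (x + y) = ev x + ev y := by
  funext a
  exact map_add _ _ _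

theorem ev_inj {α L : Type} [Field L] [NumberField L] : Function.Injective (ev : (α → L) → α → EE L) := by
  intro x y h
  funext a
  exact (mixedEmbedding L).injective (congrFun h a)

/-- `L^α` is dense in `(L ⊗ ℝ)^α`. -/
theorem ev_dense {α L : Type} [Field L] [NumberField L] : DenseRange (ev : (α → L) → α → EE L) :=
  DenseRange.piMap fun _ : α => t3_dense L

section one

variable {L L' : Type} [Field L] [NumberField L] [Field L'] [NumberField L']

/-- The real extension of a `ℚ`-linear map of number fields. -/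
def qe1 (f : L →ₗ[ℚ] L') : EE L →ₗ[ℝ] EE L' :=
  (mixedEmbedding.latticeBasis L).constr ℝ fun i => mixedEmbedding L' (f (integralBasis L i))

theorem qe1_emb (f : L →ₗ[ℚ] L') (x : L) : qe1 f (mixedEmbedding L x) = mixedEmbedding L' (f x) := by
  have e1 : x = ∑ i, ((integralBasis L).repr x i) • integralBasis L i := ((integralBasis L).sum_repr x).symm
  have e2 : (mixedEmbedding L x : EE L) = ∑ i, (((integralBasis L).repr x i : ℚ) : ℝ) • (mixedEmbedding.latticeBasis L i : EE L) := by
    conv_lhs => rw [e1]
    rw [map_sum]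
    refine Finset.sum_congr rfl fun i _ => ?_
    rw [map_rat_smul, mixedEmbedding.latticeBasis_apply, Rat.cast_smul_eq_qsmul]
  have e3 : (mixedEmbedding L' (f x) : EE L') = ∑ i, (((integralBasis L).repr x i : ℚ) : ℝ) • (mixedEmbedding L' (f (integralBasis L i)) : EE L') := by
    conv_lhs => rw [e1]
    rw [map_sum, map_sum]
    refine Finset.sum_congr rfl fun i _ => ?_
    rw [map_smul, map_rat_smul, Rat.cast_smul_eq_qsmul]
  rw [e2, e3, map_sum]
  refine Finset.sum_congr rfl fun i _ => ?_
  rw [map_smul]
  congr 1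
  exact Module.Basis.constr_basis _ _ _ _

theorem qe1_cont (f : L →ₗ[ℚ] L') : Continuous (qe1 f) := LinearMap.continuous_of_finiteDimensional _

end one

section vec

variable {α β γ L L' L'' : Type} [Fintype α] [DecidableEq α] [Field L] [NumberField L] [Field L'] [NumberField L'] [Field L''] [NumberField L'']

/-- The real extension of a `ℚ`-linear map `L^α → L'^β`. -/
def qe (f : (α → L) →ₗ[ℚ] (β → L')) : (α → EE L) →ₗ[ℝ] (β → EE L') :=
  LinearMap.pi fun j => ∑ a, (qe1 ((LinearMap.proj j).comp (f.comp (LinearMap.single ℚ (fun _ => L) a)))).comp (LinearMap.proj a)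

theorem qe_apply (f : (α → L) →ₗ[ℚ] (β → L')) (z : α → EE L) (j : β) :
    qe f z j = ∑ a, qe1 ((LinearMap.proj j).comp (f.comp (LinearMap.single ℚ (fun _ => L) a))) (z a) := by
  unfold qe
  rw [LinearMap.pi_apply, LinearMap.sum_apply]
  rfl

theorem qe_emb (f : (α → L) →ₗ[ℚ] (β → L')) (x : α → L) : qe f (ev x) = ev (f x) := by
  funext j
  rw [qe_apply]
  have e1 : f x = ∑ a, f (Pi.single a (x a)) := by
    conv_lhs => rw [← Finset.univ_sum_single x]
    rw [map_sum]
  show _ = mixedEmbedding L' (f x j)
  rw [e1, Finset.sum_apply, map_sum]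
  refine Finset.sum_congr rfl fun a _ => ?_
  exact qe1_emb _ _

theorem qe_cont (f : (α → L) →ₗ[ℚ] (β → L')) : Continuous (qe f) := by
  refine continuous_pi fun j => ?_
  have e : (fun z : α → EE L => qe f z j) = fun z => ∑ a, qe1 ((LinearMap.proj j).comp (f.comp (LinearMap.single ℚ (fun _ => L) a))) (z a) :=
    funext fun z => qe_apply f z j
  rw [e]
  exact continuous_finset_sum _ fun a _ => (qe1_cont _).comp (continuous_apply a)

omit [Fintype α] [DecidableEq α] in
/-- Two continuous maps which agree on `L^α` are equal. -/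
theorem ev_ext {Y : Type} [TopologicalSpace Y] [T2Space Y] {g h : (α → EE L) → Y} (cg : Continuous g) (ch : Continuous h) (e : ∀ x : α → L, g (ev x) = h (ev x)) : g = h :=
  ev_dense.equalizer cg ch (funext e)

theorem qe_unique (f : (α → L) →ₗ[ℚ] (β → L')) {g : (α → EE L) → β → EE L'} (cg : Continuous g) (e : ∀ x, g (ev x) = ev (f x)) : g = qe f :=
  ev_ext cg (qe_cont f) fun x => by rw [e, qe_emb]

theorem qe_comp [Fintype β] [DecidableEq β] (g : (β → L') →ₗ[ℚ] (γ → L'')) (f : (α → L) →ₗ[ℚ] (β → L')) (z : α → EE L) : qe (g.comp f) z = qe g (qe f z) := by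
  have h := ev_ext (g := fun z => qe (g.comp f) z) (h := fun z => qe g (qe f z)) (qe_cont _) ((qe_cont g).comp (qe_cont f)) fun x => by
    show qe (g.comp f) (ev x) = qe g (qe f (ev x))
    rw [qe_emb, qe_emb, qe_emb]
    rfl
  exact congrFun h z

theorem qe_id (z : α → EE L) : qe (LinearMap.id : (α → L) →ₗ[ℚ] (α → L)) z = z := by
  have h := ev_ext (g := fun z : α → EE L => qe (LinearMap.id : (α → L) →ₗ[ℚ] (α → L)) z) (h := fun z => z) (qe_cont _) continuous_id fun x => by
    show qe (LinearMap.id : (α → L) →ₗ[ℚ] (α → L)) (ev x) = ev x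
    rw [qe_emb]
    rfl
  exact congrFun h z

/-- The values of the real extension are in the closure of the values on `L^α`. -/
theorem qe_closure (f : (α → L) →ₗ[ℚ] (β → L')) (z : α → EE L) : qe f z ∈ closure (Set.range fun x : α → L => (ev (f x) : β → EE L')) := by
  have h1 : z ∈ closure (Set.range (ev : (α → L) → α → EE L)) := by
    rw [ev_dense.closure_range]
    exact Set.mem_univ _
  have h2 : qe f z ∈ closure (qe f '' Set.range (ev : (α → L) → α → EE L)) := image_closure_subset_closure_image (qe_cont f) ⟨z, h1, rfl⟩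
  refine closure_mono ?_ h2
  rintro _ ⟨_, ⟨x, rfl⟩, rfl⟩
  exact ⟨x, (qe_emb f x).symm⟩

/-- A closed condition which holds for the values on a set `S ⊆ L^α` holds on the closure: equality of two real extensions. -/
theorem qe_eq_closure (f g : (α → L) →ₗ[ℚ] (β → L')) {S : Set (α → L)} (h : ∀ x ∈ S, f x = g x) {z : α → EE L} (hz : z ∈ closure ((ev : (α → L) → α → EE L) '' S)) : qe f z = qe g z := by
  have hc : IsClosed {z : α → EE L | qe f z = qe g z} := isClosed_eq (qe_cont f) (qe_cont g)
  have hs : (ev : (α → L) → α → EE L) '' S ⊆ {z : α → EE L | qe f z = qe g z} := by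
    rintro _ ⟨x, hx, rfl⟩
    show qe f (ev x) = qe g (ev x)
    rw [qe_emb, qe_emb, h x hx]
  exact closure_minimal hs hc hz

/-- The closure of the range of an idempotent. -/
theorem qe_proj (f : (α → L) →ₗ[ℚ] (α → L)) (hf : ∀ x, f (f x) = f x) (z : α → EE L) :
    z ∈ closure (Set.range fun x : α → L => (ev (f x) : α → EE L)) ↔ qe f z = z := by
  constructor
  · intro hz
    have e : (Set.range fun x : α → L => (ev (f x) : α → EE L)) = (ev : (α → L) → α → EE L) '' Set.range f := by
      ext y
      constructor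
      · rintro ⟨x, rfl⟩
        exact ⟨f x, ⟨x, rfl⟩, rfl⟩
      · rintro ⟨_, ⟨x, rfl⟩, rfl⟩
        exact ⟨x, rfl⟩
    rw [e] at hz
    have h := qe_eq_closure f LinearMap.id (S := Set.range f) (by rintro _ ⟨x, rfl⟩; exact hf x) hz
    rw [h, qe_id]
  · intro h
    rw [← h]
    exact qe_closure f z

end vec

/-- The real extension of an `L`-linear map is `EE L`-linear: coordinates. -/
theorem qe1_mul {L : Type} [Field L] [NumberField L] (c : L) (z : EE L) : qe1 ((LinearMap.mulLeft ℚ c : L →ₗ[ℚ] L)) z = mixedEmbedding L c * z := by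
  have h1 : Continuous fun z : EE L => (mixedEmbedding L c : EE L) * z := continuous_const.mul continuous_id
  have h := (t3_dense L).equalizer (qe1_cont (LinearMap.mulLeft ℚ c : L →ₗ[ℚ] L)) h1 (funext fun x => by
    show qe1 (LinearMap.mulLeft ℚ c : L →ₗ[ℚ] L) (mixedEmbedding L x) = mixedEmbedding L c * mixedEmbedding L x
    rw [qe1_emb, ← map_mul]
    rfl)
  exact congrFun h z

end

end Pool.Agent.Lib.L1S
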