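import Pool.Agent.Lib.L1S.LI7
import Pool.Agent.Lib.L1S.QE

/-!
# L1S, LI8: divided powers, exponentials over `L ⊗ ℝ`, density of `K` in its real span (helper33)
-/

namespace Pool.Agent.Lib.L1S

open MeasureTheory Matrix NumberField IsDedekindDomain Pool.Agent.Lib.H89N Pool.Agent.Lib.H33W

noncomputable section

set_option linter.unusedSectionVars false

section dq

variable {n : Type} [Fintype n] [DecidableEq n] {O A : Type} [CommRing O] [CommRing A]

/-- The divided powers `(N₀! W) ^ k / k!`. -/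
def dqM (N₀ : ℕ) (W : Matrix n n O) (k : ℕ) : Matrix n n O := (N₀.factorial ^ k / k.factorial) • W ^ k

theorem dqM_zero (N₀ : ℕ) (W : Matrix n n O) : dqM N₀ W 0 = 1 := by
  unfold dqM
  simp

theorem dqM_one (N₀ : ℕ) (W : Matrix n n O) : dqM N₀ W 1 = N₀.factorial • W := by
  unfold dqM
  simp

theorem dqM_big {N₀ : ℕ} {W : Matrix n n O} (hW : W ^ N₀ = 0) {k : ℕ} (hk : N₀ ≤ k) : dqM N₀ W k = 0 := by
  unfold dqM
  rw [pow_eq_zero_of_le hk hW, smul_zero]

/-- The vector `N₀! W` over `A`. -/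
def dqX (N₀ : ℕ) (W : Matrix n n O) (φ : O →+* A) : Matrix n n A := (N₀.factorial : A) • W.map φ

theorem dqX_pow (N₀ : ℕ) (W : Matrix n n O) (φ : O →+* A) (k : ℕ) : (dqX N₀ W φ) ^ k = (N₀.factorial : A) ^ k • (W ^ k).map φ := by
  unfold dqX
  rw [smul_pow]
  congr 1
  exact (map_pow φ.mapMatrix W k).symm

theorem dqX_nil {N₀ : ℕ} {W : Matrix n n O} (hW : W ^ N₀ = 0) (φ : O →+* A) (t : A) : (t • dqX N₀ W φ) ^ N₀ = 0 := by
  rw [smul_pow, dqX_pow, hW, Matrix.map_zero _ (map_zero φ), smul_zero, smul_zero]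

theorem dqM_exp [Algebra ℚ A] {N₀ : ℕ} {W : Matrix n n O} (hW : W ^ N₀ = 0) (φ : O →+* A) (t : A) :
    ∑ k ∈ Finset.range N₀, t ^ k • (dqM N₀ W k).map φ = IsNilpotent.exp (t • dqX N₀ W φ) := by
  rw [IsNilpotent.exp_eq_sum (dqX_nil hW φ t)]
  refine Finset.sum_congr rfl fun k hk => ?_
  have hk' : k < N₀ := Finset.mem_range.1 hk
  have h1 : k.factorial ∣ N₀.factorial ^ k := by
    rcases Nat.eq_zero_or_pos k with h0 | h0
    · subst h0
      simp
    · exact (Nat.factorial_dvd_factorial hk'.le).trans (dvd_pow_self _ h0.ne')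
  obtain ⟨q, hq⟩ := h1
  have h2 : N₀.factorial ^ k / k.factorial = q := by
    rw [hq, Nat.mul_div_cancel_left _ (Nat.factorial_pos k)]
  have h3 : (k.factorial : ℚ) ≠ 0 := by exact_mod_cast (Nat.factorial_pos k).ne'
  rw [smul_pow, dqX_pow, smul_comm]
  congr 1
  unfold dqM
  rw [h2]
  have h4 : ((N₀.factorial : A)) ^ k = (k.factorial : ℚ) • (q : A) := by
    rw [← Nat.cast_pow, hq, Nat.cast_mul, Algebra.smul_def, map_natCast]
  rw [h4, smul_assoc, smul_smul, inv_mul_cancel₀ h3, one_smul]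
  ext r c
  rw [Matrix.map_apply, Matrix.smul_apply, Matrix.smul_apply, Matrix.map_apply, nsmul_eq_mul, map_mul, map_natCast, smul_eq_mul]

end dq

section dens

variable (K L : Type) [Field K] [NumberField K] [Field L] [NumberField L] [Algebra K L]

/-- The image of `K` in `L ⊗ ℝ`. -/
def kIm : AddSubgroup (EE L) := ((mixedEmbedding L : L →+* EE L).toAddMonoidHom.comp (algebraMap K L : K →+* L).toAddMonoidHom).range

theorem kIm_mem (t : K) : (mixedEmbedding L (algebraMap K L t) : EE L) ∈ kIm K L := ⟨t, rfl⟩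

/-- `K` is dense in its real span. -/
theorem kIm_dense {z : EE L} (hz : z ∈ KR K L) : z ∈ closure (kIm K L : Set (EE L)) := by
  have hcl : ∀ x : EE L, x ∈ (kIm K L).topologicalClosure ↔ x ∈ closure (kIm K L : Set (EE L)) := fun x => Iff.rfl
  have hq : ∀ (q : ℚ) (x : EE L), x ∈ closure (kIm K L : Set (EE L)) → (q : ℝ) • x ∈ closure (kIm K L : Set (EE L)) := by
    intro q x hx
    refine map_mem_closure (continuous_const_smul (q : ℝ)) hx ?_
    rintro _ ⟨t, rfl⟩
    refine ⟨q • t, ?_⟩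
    change (mixedEmbedding L (algebraMap K L (q • t)) : EE L) = (q : ℝ) • (mixedEmbedding L (algebraMap K L t) : EE L)
    rw [map_rat_smul, map_rat_smul, Rat.cast_smul_eq_qsmul]
  rw [← hcl]
  unfold KR at hz
  induction hz using Submodule.span_induction with
  | mem x hx =>
    obtain ⟨t, rfl⟩ := hx
    exact subset_closure (kIm_mem K L t)
  | zero => exact AddSubgroup.zero_mem _
  | add x y _ _ hx hy => exact AddSubgroup.add_mem _ hx hy
  | smul a x _ hx =>
    have h1 : IsClosed {a : ℝ | a • x ∈ (kIm K L).topologicalClosure} :=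
      (AddSubgroup.isClosed_topologicalClosure _).preimage (continuous_id.smul continuous_const)
    have h2 : ∀ a : ℝ, a • x ∈ (kIm K L).topologicalClosure := by
      intro a
      refine Rat.denseRange_cast.induction_on (p := fun a : ℝ => a • x ∈ (kIm K L).topologicalClosure) a h1 fun q => ?_
      exact hq q x hx
    exact h2 a

/-- A closed condition which holds on `K` holds on `KR`. -/
theorem kIm_closed {S : Set (EE L)} (hS : IsClosed S) (h : ∀ t : K, (mixedEmbedding L (algebraMap K L t) : EE L) ∈ S) {z : EE L} (hz : z ∈ KR K L) : z ∈ S := by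
  refine closure_minimal ?_ hS (kIm_dense K L hz)
  rintro _ ⟨t, rfl⟩
  exact h t

end dens

section gl

variable {n : Type} [Fintype n] [DecidableEq n] {L : Type} [Field L] [NumberField L] {O : Type} [CommRing O]

/-- The one parameter group in `GL(L ⊗ ℝ)`. -/
def dqG (N₀ : ℕ) (W : Matrix n n O) (hW : W ^ N₀ = 0) (φ : O →+* EE L) (t : EE L) : GL n (EE L) where
  val := IsNilpotent.exp (t • dqX N₀ W φ)
  inv := IsNilpotent.exp (-(t • dqX N₀ W φ))
  val_inv := IsNilpotent.exp_mul_exp_neg_self ⟨N₀, dqX_nil hW φ t⟩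
  inv_val := IsNilpotent.exp_neg_mul_exp_self ⟨N₀, dqX_nil hW φ t⟩

variable {N₀ : ℕ} {W : Matrix n n O} (hW : W ^ N₀ = 0) (φ : O →+* EE L)

theorem dqG_add (s t : EE L) : dqG N₀ W hW φ (s + t) = dqG N₀ W hW φ s * dqG N₀ W hW φ t := by
  apply Units.ext
  change IsNilpotent.exp ((s + t) • dqX N₀ W φ) = IsNilpotent.exp (s • dqX N₀ W φ) * IsNilpotent.exp (t • dqX N₀ W φ)
  rw [add_smul]
  refine IsNilpotent.exp_add_of_commute ?_ ⟨N₀, dqX_nil hW φ s⟩ ⟨N₀, dqX_nil hW φ t⟩
  exact ((Commute.refl _).smul_left s).smul_right t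

theorem dqG_cont : Continuous (dqG N₀ W hW φ) := by
  have h1 : ∀ t, IsNilpotent.exp (t • dqX N₀ W φ) = ∑ k ∈ Finset.range N₀, t ^ k • (dqM N₀ W k).map φ := fun t => (dqM_exp hW φ t).symm
  rw [Units.continuous_iff]
  constructor
  · have e : (Units.val ∘ dqG N₀ W hW φ : EE L → Matrix n n (EE L)) = fun t => ∑ k ∈ Finset.range N₀, t ^ k • (dqM N₀ W k).map φ := funext h1
    rw [e]
    exact continuous_finsetSum _ fun k _ => (continuous_id.pow k).smul continuous_const
  · have e : (fun t => ((dqG N₀ W hW φ t)⁻¹ : GL n (EE L)).1) = fun t => ∑ k ∈ Finset.range N₀, (-t) ^ k • (dqM N₀ W k).map φ := by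
      funext t
      rw [← h1]
      change IsNilpotent.exp (-(t • dqX N₀ W φ)) = _
      rw [neg_smul]
    rw [e]
    exact continuous_finsetSum _ fun k _ => (continuous_neg.pow k).smul continuous_const

end gl

/-- Integral multiples of finitely many elements. -/
theorem li8_int (L : Type) [Field L] [NumberField L] (s : Finset L) : ∃ D : ℕ, D ≠ 0 ∧ ∀ x ∈ s, ∃ y : 𝓞 L, (y : L) = (D : L) * x := by
  obtain ⟨y, hy0, hy⟩ := exists_integral_multiples ℤ ℚ s
  refine ⟨y.natAbs, Int.natAbs_ne_zero.2 hy0, fun x hx => ?_⟩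
  have h1 : IsIntegral ℤ (((y.natAbs : ℤ)) • x) := by
    rcases Int.natAbs_eq y with h | h
    · rw [← h]
      exact hy x hx
    · have h2 : (y.natAbs : ℤ) = -y := by omega
      rw [h2, neg_smul]
      exact (hy x hx).neg
  refine ⟨⟨_, h1⟩, ?_⟩
  change ((y.natAbs : ℤ)) • x = _
  rw [zsmul_eq_mul, Int.cast_natCast]

end

end Pool.Agent.Lib.L1S
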