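import Pool.Agent.Lib.L1S.BF2
import Pool.Agent.Lib.L1S.QStm

/-!
# L1S, V1, module B_H, file QB0 (helper43): exponentials of nilpotent elements of the Lie algebra
-/

namespace Pool.Agent.Lib.L1S

set_option linter.unusedSectionVars false

open Matrix NumberField IsDedekindDomain Pool.Agent.Lib.H89N Pool.Agent.Lib.H33W

noncomputable section

section Exp

variable {n : Type} [Fintype n] [DecidableEq n] {L : Type} [Field L] [CharZero L]

theorem qb0_rat (q : ℚ) (S : Submodule L (Matrix n n L)) {X : Matrix n n L} (hX : X ∈ S) : q • X ∈ S := by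
  have e : q • X = (algebraMap ℚ L q) • X := by
    rw [algebraMap_smul]
  rw [e]
  exact S.smul_mem _ hX

/-- `exp(Y) X exp(-Y)` is in a subspace which is stable under the bracket with `Y`. -/
theorem qb0_ad (S : Submodule L (Matrix n n L)) {Y : Matrix n n L} (hY : IsNilpotent Y) (hS : ∀ X ∈ S, Y * X - X * Y ∈ S) {X : Matrix n n L} (hX : X ∈ S) :
    IsNilpotent.exp Y * X * IsNilpotent.exp (-Y) ∈ S := by
  set DL : Module.End L (Matrix n n L) := LinearMap.mulLeft L Y with hDL
  set DR : Module.End L (Matrix n n L) := LinearMap.mulRight L (-Y) with hDR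
  obtain ⟨k, hk⟩ := hY
  have hk' : (-Y) ^ k = 0 := by rw [neg_pow, hk, mul_zero]
  have hL : DL ^ k = 0 := by
    rw [hDL, LinearMap.pow_mulLeft, hk]
    ext x
    simp
  have hR : DR ^ k = 0 := by
    rw [hDR, LinearMap.pow_mulRight, hk']
    ext x
    simp
  have hc : Commute DL DR := by
    rw [hDL, hDR]
    exact LinearMap.commute_mulLeft_right _ _
  have h1 : IsNilpotent.exp DL = LinearMap.mulLeft L (IsNilpotent.exp Y) := by
    rw [IsNilpotent.exp_eq_sum hL, IsNilpotent.exp_eq_sum hk]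
    ext1 x
    rw [LinearMap.mulLeft_apply, Finset.sum_mul, LinearMap.sum_apply]
    refine Finset.sum_congr rfl fun i _ => ?_
    rw [LinearMap.smul_apply, hDL, LinearMap.pow_mulLeft, LinearMap.mulLeft_apply, smul_mul_assoc]
  have h2 : IsNilpotent.exp DR = LinearMap.mulRight L (IsNilpotent.exp (-Y)) := by
    rw [IsNilpotent.exp_eq_sum hR, IsNilpotent.exp_eq_sum hk']
    ext1 x
    rw [LinearMap.mulRight_apply, Finset.mul_sum, LinearMap.sum_apply]
    refine Finset.sum_congr rfl fun i _ => ?_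
    rw [LinearMap.smul_apply, hDR, LinearMap.pow_mulRight, LinearMap.mulRight_apply, mul_smul_comm]
  have h3 : IsNilpotent.exp (DL + DR) = IsNilpotent.exp DL * IsNilpotent.exp DR := IsNilpotent.exp_add_of_commute hc ⟨k, hL⟩ ⟨k, hR⟩
  have hD : ∀ Z ∈ S, (DL + DR) Z ∈ S := by
    intro Z hZ
    have e : (DL + DR) Z = Y * Z - Z * Y := by
      rw [LinearMap.add_apply, hDL, hDR, LinearMap.mulLeft_apply, LinearMap.mulRight_apply, mul_neg, sub_eq_add_neg]
    rw [e]
    exact hS Z hZ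
  have hDk : ∀ j : ℕ, ∀ Z ∈ S, ((DL + DR) ^ j) Z ∈ S := by
    intro j
    induction j with
    | zero =>
      intro Z hZ
      rw [pow_zero]
      exact hZ
    | succ j ih =>
      intro Z hZ
      rw [pow_succ, Module.End.mul_apply]
      exact ih _ (hD Z hZ)
  have h4 : IsNilpotent.exp Y * X * IsNilpotent.exp (-Y) = IsNilpotent.exp (DL + DR) X := by
    rw [h3, h1, h2, Module.End.mul_apply, LinearMap.mulLeft_apply, LinearMap.mulRight_apply, Matrix.mul_assoc]
  obtain ⟨l, hl⟩ := Commute.isNilpotent_add hc ⟨k, hL⟩ ⟨k, hR⟩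
  rw [h4, IsNilpotent.exp_eq_sum hl, LinearMap.sum_apply]
  refine Submodule.sum_mem _ fun i _ => ?_
  rw [LinearMap.smul_apply]
  exact qb0_rat _ S (hDk i X hX)

/-- `X A = B X` gives `X exp(A) = exp(B) X`. -/
theorem qb0_comm {X A B : Matrix n n L} (hA : IsNilpotent A) (hB : IsNilpotent B) (h : X * A = B * X) : X * IsNilpotent.exp A = IsNilpotent.exp B * X := by
  obtain ⟨k, hk⟩ := hA
  obtain ⟨l, hl⟩ := hB
  have hk' : A ^ (max k l) = 0 := pow_eq_zero_of_le (le_max_left _ _) hk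
  have hl' : B ^ (max k l) = 0 := pow_eq_zero_of_le (le_max_right _ _) hl
  have hp : ∀ j : ℕ, X * A ^ j = B ^ j * X := by
    intro j
    induction j with
    | zero => rw [pow_zero, pow_zero, mul_one, one_mul]
    | succ j ih =>
      calc X * A ^ (j + 1) = (X * A ^ j) * A := by rw [pow_succ, Matrix.mul_assoc]
        _ = B ^ j * (X * A) := by rw [ih, Matrix.mul_assoc]
        _ = B ^ (j + 1) * X := by rw [h, ← Matrix.mul_assoc, ← pow_succ]
  rw [IsNilpotent.exp_eq_sum hk', IsNilpotent.exp_eq_sum hl', Finset.mul_sum, Finset.sum_mul]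
  refine Finset.sum_congr rfl fun i _ => ?_
  rw [mul_smul_comm, smul_mul_assoc, hp]

end Exp

variable {ι M N : Type} [Fintype ι] [DecidableEq ι] [AddCommGroup M] [Module ℚ M] [AddCommGroup N] [Module ℚ N]
  {P : RootPairing ι ℚ M N} [P.IsCrystallographic] [P.IsReduced] [P.IsIrreducible] [P.IsRootSystem] {b : P.Base} {L : Type} [Field L] [CharZero L]

/-- `exp Y` normalises the Lie algebra. -/
theorem qb0_nmz {Y : Matrix (I b) (I b) L} (hY : Y ∈ gR b L) (hr : RaiseBy (ht b) 1 Y) : Nmz b (IsNilpotent.exp Y) (IsNilpotent.exp (-Y)) := by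
  have hn : IsNilpotent Y := b3_nil hr
  have key : ∀ Y : Matrix (I b) (I b) L, Y ∈ gR b L → IsNilpotent Y → ∀ X ∈ gR b L, IsNilpotent.exp Y * X * IsNilpotent.exp (-Y) ∈ gR b L :=
    fun Y hY hn X hX => qb0_ad (gR b L) hn (fun Z hZ => gR_lie b hY hZ) hX
  refine ⟨IsNilpotent.exp_mul_exp_neg_self hn, IsNilpotent.exp_neg_mul_exp_self hn, fun X hX => ⟨key Y hY hn X hX, ?_⟩⟩
  have h := key (-Y) ((gR b L).neg_mem hY) hn.neg X hX
  rw [neg_neg] at h
  exact h

/-- `exp Y` as an element of `G(L)`. -/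
theorem qb0_exists {Y : Matrix (I b) (I b) L} (hY : Y ∈ gR b L) (hr : RaiseBy (ht b) 1 Y) : ∃ g : GK b L, g.1.1 = IsNilpotent.exp Y := by
  have h1 : UTk b 1 (IsNilpotent.exp Y) := by
    intro r c hrc
    have h := b3_exp' le_rfl hr r c (by lia)
    rw [Matrix.sub_apply, sub_eq_zero] at h
    exact h
  obtain ⟨t, ht⟩ := prod_exists b (qb0_nmz hY hr) h1
  have h2 : ∀ l : List ι, ∃ g : GK b L, g.1.1 = PL b l t := by
    intro l
    induction l with
    | nil => exact ⟨1, rfl⟩
    | cons β l ih =>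
      obtain ⟨g, hg⟩ := ih
      refine ⟨⟨xG b β (t β), xG_mem b β (t β)⟩ * g, ?_⟩
      have e : ((⟨xG b β (t β), xG_mem b β (t β)⟩ : GK b L) * g).1.1 = xx b β (t β) * g.1.1 := rfl
      rw [e, hg]
      unfold PL
      rw [List.map_cons, List.prod_cons]
  obtain ⟨g, hg⟩ := h2 (posL b)
  exact ⟨g, hg.trans ht.symm⟩

end

end Pool.Agent.Lib.L1S
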