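import Pool.Agent.Lib.L1S.LI8
import Pool.Agent.Lib.L1S.QB0

/-!
# L1S, LI9: the Lie theory of quasi-split groups: the instance of `LieH` (helper33)
-/

namespace Pool.Agent.Lib.L1S

open MeasureTheory Matrix NumberField IsDedekindDomain Pool.Agent.Lib.H89N Pool.Agent.Lib.H33W

noncomputable section

set_option linter.unusedSectionVars false

variable {ι M N : Type} [Fintype ι] [DecidableEq ι] [AddCommGroup M] [Module ℚ M] [AddCommGroup N] [Module ℚ N]
  {P : RootPairing ι ℚ M N} [P.IsCrystallographic] [P.IsReduced] [P.IsIrreducible] [P.IsRootSystem] {b : P.Base}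
  {K L : Type} [Field K] [NumberField K] [Field L] [NumberField L] [Algebra K L] (Q : QS b K L)

/-- The homogeneous fixed basis with all its data. -/
structure LID where
  /-- The basis vectors. -/
  Y : ι → Matrix (I b) (I b) L
  /-- The coefficients of the coordinates. -/
  F : ι → Matrix (I b) (I b) L
  mem : ∀ β, Y β ∈ gR b L
  fix : ∀ β s, tauM Q.act Q.da s (Y β) = Y β
  Yw : ∀ β r c, Y β r c ≠ 0 → ∃ s, wt b r = wt b c + P.root (Q.act s β)
  Fw : ∀ β r c, F β r c ≠ 0 → ∃ s, wt b r = wt b c + P.root (Q.act s β)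
  FY : ∀ β γ, fcM (F β) (Y γ) = if β = γ then 1 else 0
  Ffix : ∀ β s, tauM Q.act Q.da s (F β) = F β
  EY : ∀ β, ∃ a : ι → L, (∀ γ, a γ ≠ 0 → ∃ s, Q.act s β = γ) ∧ toA L (E b β) = ∑ γ, a γ • Y γ
  /-- The nilpotency bound. -/
  N₀ : ℕ
  N₁ : 1 ≤ N₀
  /-- The denominator of the basis. -/
  D : ℕ
  D0 : D ≠ 0
  /-- The integral multiples. -/
  W : ι → Matrix (I b) (I b) (𝓞 L)
  W_val : ∀ β r c, (W β r c : L) = (D : L) * Y β r c
  W_nil : ∀ β ∈ Pos b, W β ^ N₀ = 0
  /-- The denominator of the coordinates. -/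
  D' : ℕ
  D'0 : D' ≠ 0
  /-- The integral coordinates. -/
  z : ι → I b → I b → 𝓞 L
  z_val : ∀ β r c, (z β r c : L) = (D' : L) * F β r c

/-- `𝓞 L → L`. -/
def fL (L : Type) [Field L] [NumberField L] : 𝓞 L →+* L := algebraMap (𝓞 L) L

/-- `𝓞 L → L ⊗ ℝ`. -/
def fE (L : Type) [Field L] [NumberField L] : 𝓞 L →+* EE L := (mixedEmbedding L).comp (algebraMap (𝓞 L) L)

theorem exists_LID [IsGalois K L] : Nonempty (LID Q) := by
  classical
  have : FiniteDimensional K L := Module.Finite.of_restrictScalars_finite ℚ K L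
  obtain ⟨Y, F, mem, fix, Yw, Fw, FY, Ffix, EY⟩ := exists_YF Q.act Q.da
  have hnil : ∀ β, ∃ n : ℕ, β ∈ Pos b → Y β ^ n = 0 := by
    intro β
    by_cases hβ : β ∈ Pos b
    · have hr : RaiseBy (ht b) 1 (Y β) := by
        intro r c hrc
        by_contra h
        obtain ⟨s, hs⟩ := Yw β r c h
        have h1 := li7_ht hs
        rw [(Q.da s).height] at h1
        have h2 : 0 < b.height β := (Finset.mem_filter.1 hβ).2
        omega
      obtain ⟨n, hn⟩ := b3_nil hr
      exact ⟨n, fun _ => hn⟩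
    · exact ⟨0, fun h => absurd h hβ⟩
  choose n hn using hnil
  obtain ⟨D, hD0, hD⟩ := li8_int L (Finset.univ.image fun p : ι × I b × I b => Y p.1 p.2.1 p.2.2)
  obtain ⟨D', hD0', hD'⟩ := li8_int L (Finset.univ.image fun p : ι × I b × I b => F p.1 p.2.1 p.2.2)
  have hW : ∀ β r c, ∃ y : 𝓞 L, (y : L) = (D : L) * Y β r c := fun β r c =>
    hD _ (Finset.mem_image.2 ⟨(β, r, c), Finset.mem_univ _, rfl⟩)
  have hZ : ∀ β r c, ∃ y : 𝓞 L, (y : L) = (D' : L) * F β r c := fun β r c =>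
    hD' _ (Finset.mem_image.2 ⟨(β, r, c), Finset.mem_univ _, rfl⟩)
  choose W hW using hW
  choose z hz using hZ
  refine ⟨⟨Y, F, mem, fix, Yw, Fw, FY, Ffix, EY, (∑ β, n β) + 1, Nat.le_add_left _ _, D, hD0, fun β => Matrix.of fun r c => W β r c, hW, ?_, D', hD0', z, hz⟩⟩
  intro β hβ
  have h1 : (Matrix.of fun r c => W β r c : Matrix (I b) (I b) (𝓞 L)).map (fL L) = (D : L) • Y β := by
    ext r c
    exact hW β r c
  have h2 : Y β ^ (∑ β, n β + 1) = 0 := by
    refine pow_eq_zero_of_le ?_ (hn β hβ)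
    exact (Finset.single_le_sum (f := n) (fun _ _ => Nat.zero_le _) (Finset.mem_univ β)).trans (Nat.le_succ _)
  have h3 : ((Matrix.of fun r c => W β r c : Matrix (I b) (I b) (𝓞 L)) ^ (∑ β, n β + 1)).map (fL L) = 0 := by
    have h4 := map_pow (fL L).mapMatrix (Matrix.of fun r c => W β r c : Matrix (I b) (I b) (𝓞 L)) (∑ β, n β + 1)
    have h5 : (fL L).mapMatrix ((Matrix.of fun r c => W β r c : Matrix (I b) (I b) (𝓞 L)) ^ (∑ β, n β + 1)) = ((Matrix.of fun r c => W β r c : Matrix (I b) (I b) (𝓞 L)) ^ (∑ β, n β + 1)).map (fL L) := rfl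
    have h6 : (fL L).mapMatrix (Matrix.of fun r c => W β r c : Matrix (I b) (I b) (𝓞 L)) = (D : L) • Y β := h1
    rw [← h5, h4, h6, smul_pow, h2, smul_zero]
  ext r c
  have h7 := congrFun (congrFun h3 r) c
  exact h7

variable {Q} [IsGalois K L] (J : LID Q)

/-- The constant `c₀ = N₀! D`. -/
def LID.c0 : ℕ := J.N₀.factorial * J.D

theorem LID.c0_ne : J.c0 ≠ 0 := Nat.mul_ne_zero (Nat.factorial_ne_zero _) J.D0

theorem LID.X_L (β : ι) : dqX J.N₀ (J.W β) (fL L) = (J.c0 : L) • J.Y β := by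
  ext r c
  unfold dqX LID.c0
  rw [Matrix.smul_apply, Matrix.smul_apply, Matrix.map_apply, smul_eq_mul, smul_eq_mul, Nat.cast_mul, mul_assoc, ← J.W_val β r c]
  rfl

theorem LID.X_E (β : ι) : dqX J.N₀ (J.W β) (fE L) = (J.c0 : EE L) • (J.Y β).map (mixedEmbedding L) := by
  refine Matrix.ext fun r c => ?_
  unfold dqX LID.c0
  rw [Matrix.smul_apply, Matrix.smul_apply, Matrix.map_apply, Matrix.map_apply, smul_eq_mul, smul_eq_mul, Nat.cast_mul, mul_assoc]
  have h := congrArg (mixedEmbedding L) (J.W_val β r c)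
  rw [map_mul, map_natCast] at h
  rw [← h]
  rfl

theorem LID.raise {β : ι} (hβ : β ∈ Pos b) (a : L) : RaiseBy (ht b) 1 (a • J.Y β) := by
  intro r c hrc
  rw [Matrix.smul_apply, smul_eq_mul]
  have h0 : J.Y β r c = 0 := by
    by_contra h
    obtain ⟨s, hs⟩ := J.Yw β r c h
    have h1 := li7_ht hs
    rw [(Q.da s).height] at h1
    have h2 : 0 < b.height β := (Finset.mem_filter.1 hβ).2
    omega
  rw [h0, mul_zero]

/-- The one parameter group over `K`. -/
theorem LID.exists_x {β : ι} (hβ : β ∈ Pos b) (t : K) : ∃ g : GK b L, g ∈ HQ Q ∧ g.1.1 = IsNilpotent.exp ((algebraMap K L t) • dqX J.N₀ (J.W β) (fL L)) := by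
  have : FiniteDimensional K L := Module.Finite.of_restrictScalars_finite ℚ K L
  have e : (algebraMap K L t) • dqX J.N₀ (J.W β) (fL L) = (algebraMap K L t * J.c0) • J.Y β := by
    rw [J.X_L, smul_smul]
  have hmem : (algebraMap K L t * J.c0) • J.Y β ∈ gR b L := Submodule.smul_mem _ _ (J.mem β)
  have hr := J.raise hβ (algebraMap K L t * J.c0)
  obtain ⟨g, hg⟩ := qb0_exists hmem hr
  rw [e]
  refine ⟨g, Subgroup.subset_closure ⟨?_, Or.inl ?_⟩, hg⟩
  · rw [li7_Fx]
    intro s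
    rw [hg, ← e]
    set T := (algebraMap K L t) • dqX J.N₀ (J.W β) (fL L) with hT
    have hTn : T ^ J.N₀ = 0 := dqX_nil (J.W_nil β hβ) (fL L) (algebraMap K L t)
    have hTf : tauM Q.act Q.da s T = T := by
      rw [e, (tauM_semi Q.act Q.da).smul, J.fix, map_mul, map_natCast, AlgEquiv.commutes]
    have hTk : ∀ k : ℕ, tauM Q.act Q.da s (T ^ k) = T ^ k := by
      intro k
      induction k with
      | zero => rw [pow_zero, tauM_one]
      | succ k ih => rw [pow_succ, tauM_mul, ih, hTf]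
    rw [IsNilpotent.exp_eq_sum hTn, (tauM_semi Q.act Q.da).sum]
    refine Finset.sum_congr rfl fun k _ => ?_
    have h1 : ((k.factorial : ℚ)⁻¹) • T ^ k = (algebraMap ℚ L ((k.factorial : ℚ)⁻¹)) • T ^ k := by rw [algebraMap_smul]
    rw [h1, (tauM_semi Q.act Q.da).smul, hTk]
    congr 1
    rw [eq_ratCast, map_ratCast]
  · intro r c hrc
    have h1 := b3_exp' le_rfl hr r c (by omega)
    rw [Matrix.sub_apply, sub_eq_zero] at h1
    rw [hg]
    exact h1

/-- The one parameter group over `KR`. -/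
theorem LID.exists_xE {β : ι} (hβ : β ∈ Pos b) {t : EE L} (ht : t ∈ KR K L) :
    ∃ h : dqG J.N₀ (J.W β) (J.W_nil β hβ) (fE L) t ∈ GE b L, (⟨dqG J.N₀ (J.W β) (J.W_nil β hβ) (fE L) t, h⟩ : GR b L) ∈ HRs (HQ Q) := by
  set S0 : Set (GL (I b) (EE L)) := (fun g : GK b L => embGL b L g.1) '' (HQ Q : Set (GK b L)) with hS0
  have h1 : dqG J.N₀ (J.W β) (J.W_nil β hβ) (fE L) t ∈ closure S0 := by
    refine kIm_closed K L (S := (dqG J.N₀ (J.W β) (J.W_nil β hβ) (fE L)) ⁻¹' closure S0) (isClosed_closure.preimage (dqG_cont _ _)) ?_ ht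
    intro u
    obtain ⟨g, hg, hge⟩ := J.exists_x hβ u
    refine subset_closure ⟨g, hg, ?_⟩
    apply Units.ext
    change g.1.1.map (mixedEmbedding L) = IsNilpotent.exp ((mixedEmbedding L (algebraMap K L u) : EE L) • dqX J.N₀ (J.W β) (fE L))
    rw [hge, ← dqM_exp (J.W_nil β hβ), ← dqM_exp (J.W_nil β hβ)]
    refine Matrix.ext fun r c => ?_
    rw [Matrix.map_apply, Matrix.sum_apply, Matrix.sum_apply, map_sum]
    refine Finset.sum_congr rfl fun k _ => ?_
    rw [Matrix.smul_apply, Matrix.smul_apply, smul_eq_mul, smul_eq_mul, map_mul, map_pow]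
    rfl
  have h2 : S0 ⊆ ((GQ b L).map (embGL b L) : Set (GL (I b) (EE L))) := by
    rintro _ ⟨g, _, rfl⟩
    exact ⟨g.1, g.2, rfl⟩
  have h3 : dqG J.N₀ (J.W β) (J.W_nil β hβ) (fE L) t ∈ GE b L := closure_mono h2 h1
  refine ⟨h3, ?_⟩
  change _ ∈ closure (((HQ Q).map (emb b L) : Subgroup (GR b L)) : Set (GR b L))
  rw [closure_subtype]
  refine closure_mono ?_ h1
  rintro _ ⟨g, hg, rfl⟩
  exact ⟨emb b L g, ⟨g, hg, rfl⟩, rfl⟩

end

end Pool.Agent.Lib.L1S
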