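import Pool.Agent.Lib.L1S.MApi
import Pool.Agent.Lib.L1S.AN15
import Pool.Agent.Lib.L1S.AN8

/-!
# M1 (S/M): the character `ψ`, the data `GD`
-/

namespace Pool.Agent.Lib.L1S

open MeasureTheory Matrix NumberField IsDedekindDomain Pool.Agent.Lib.H89N Pool.Agent.Lib.H33W Pool.Agent.Lib.H67G
open scoped ENNReal

noncomputable section

variable {ι M N : Type} [Fintype ι] [DecidableEq ι] [AddCommGroup M] [Module ℚ M] [AddCommGroup N] [Module ℚ N]
  {P : RootPairing ι ℚ M N} [P.IsCrystallographic]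
  (b : P.Base) {K : Type} [Field K] [NumberField K]

theorem m1_ht (i : b.support) : ht b (Sum.inr (P.reflectionPerm (i : ι) (i : ι))) = -1 := by
  have h1 : b.height (P.reflectionPerm (i : ι) (i : ι)) = -b.height (i : ι) := b.height_reflectionPerm_self (i : ι)
  have h2 : b.height (i : ι) = 1 := RootPairing.Base.height_one_of_mem_support i.2
  show b.height (P.reflectionPerm (i : ι) (i : ι)) = -1
  rw [h1, h2]

/-- PROOF. `(u w)(r, c) = ∑_k u(r, k) w(k, c)` with `r = inl i`, `ht r = 0`, `c = inr (-α_i)`, `ht c = -1`. The term `k = r`: `u(r, r) = 1`, `w(r, c)`. The term `k = c`: `u(r, c) w(c, c) = u(r, c)`. For the other `k`: if `ht k ≥ 0` then `u(r, k) = 0` (`ht r ≤ ht k`), if `ht k ≤ -1` then `w(k, c) = 0` (`ht k ≤ ht c`). -/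
theorem m_cadd (i : b.support) (u w : UR b K) : cU b i (u * w).1 = cU b i u.1 + cU b i w.1 := by
  have hu : ∀ r c, ht b r ≤ ht b c → u.1.1.1 r c = (1 : Matrix (I b) (I b) (EE K)) r c := fun r c h => (u.2 r c h).1
  have hw : ∀ r c, ht b r ≤ ht b c → w.1.1.1 r c = (1 : Matrix (I b) (I b) (EE K)) r c := fun r c h => (w.2 r c h).1
  have hc := m1_ht b i
  have hr : ht b (Sum.inl i) = 0 := rfl
  have hne : (Sum.inl i : I b) ≠ Sum.inr (P.reflectionPerm (i : ι) (i : ι)) := Sum.inl_ne_inr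
  have e : (u * w).1.1.1 = u.1.1.1 * w.1.1.1 := rfl
  unfold cU
  rw [e, Matrix.mul_apply, Finset.sum_eq_add (Sum.inl i : I b) (Sum.inr (P.reflectionPerm (i : ι) (i : ι))) hne]
  · rw [hu _ _ le_rfl, hw (Sum.inr (P.reflectionPerm (i : ι) (i : ι))) _ le_rfl, Matrix.one_apply_eq, Matrix.one_apply_eq, one_mul, mul_one, add_comm]
  · intro k _ hk
    rcases le_or_gt 0 (ht b k) with h | h
    · rw [hu _ k (by rw [hr]; exact h), Matrix.one_apply_ne (Ne.symm hk.1), zero_mul]
    · rw [hw k _ (by rw [hc]; omega), Matrix.one_apply_ne hk.2, mul_zero]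
  · intro h
    exact absurd (Finset.mem_univ _) h
  · intro h
    exact absurd (Finset.mem_univ _) h

theorem m1_ee_add (s t : ℝ) : ee (s + t) = ee s * ee t := by
  unfold ee
  rw [← Complex.exp_add]
  congr 1
  push_cast
  ring

/-- PROOF. `m_cadd`, `ee (s + t) = ee s * ee t` (`Complex.exp_add`), linearity of `θ_i`. -/
theorem m_psi_mul (θ : b.support → (EE K →ₗ[ℝ] ℝ)) (u w : UR b K) : psi b θ (u * w) = psi b θ u * psi b θ w := by
  unfold psi
  rw [← m1_ee_add, ← Finset.sum_add_distrib]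
  congr 1
  refine Finset.sum_congr rfl fun i _ => ?_
  rw [m_cadd, map_add]

/-- PROOF. `Complex.norm_exp_ofReal_mul_I`. -/
theorem m_psi_norm (θ : b.support → (EE K →ₗ[ℝ] ℝ)) (u : UR b K) : ‖psi b θ u‖ = 1 := by
  unfold psi ee
  have h := Complex.norm_exp_ofReal_mul_I (2 * Real.pi * ∑ i, θ i (cU b i u.1))
  push_cast at h
  push_cast
  exact h

/-- PROOF. `cont_entry` (T1), a linear map on the finite dimensional space `EE K` is continuous (`LinearMap.continuous_of_finiteDimensional`). -/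
theorem m_psi_cont (θ : b.support → (EE K →ₗ[ℝ] ℝ)) : Continuous (psi b θ : UR b K → ℂ) := by
  have h1 : Continuous fun u : UR b K => ∑ i, θ i (cU b i u.1) := by
    refine continuous_finset_sum _ fun i _ => ?_
    exact (LinearMap.continuous_of_finiteDimensional (θ i)).comp ((cont_entry b K _ _).comp continuous_subtype_val)
  have h2 : Continuous ee := by
    unfold ee
    fun_prop
  exact h2.comp h1

/-- PROOF. `c_i(emb γ) = mixedEmbedding K (γ(inl i, inr (-i)))` and this entry is in `𝔫` (`(γ - 1) (inl i) (inr _)`, the indices are different), so every `θ_i(c_i)` is an integer (`Gen`), their sum is an integer `m`, `ee m = 1` (`Complex.exp_int_mul_two_pi_mul_I`). -/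
theorem m_psi_one {𝔫 : Ideal (𝓞 K)} {v : HeightOneSpectrum (𝓞 K)} {r s : ℕ} {θ : b.support → (EE K →ₗ[ℝ] ℝ)} (hθ : Gen b 𝔫 θ) (w : HU b K) (hw : (w : GK b K) ∈ GamK b 𝔫 v r s) :
    psi b θ (kU b K w) = 1 := by
  have h1 : ∀ i : b.support, ∃ m : ℤ, θ i (cU b i (kU b K w).1) = m := by
    intro i
    obtain ⟨z, hz, e⟩ := (hw (Sum.inl i) (Sum.inr (P.reflectionPerm (i : ι) (i : ι)))).1.1
    obtain ⟨m, hm⟩ := (hθ i).2 z hz
    refine ⟨m, ?_⟩
    have e1 : cU b i (kU b K w).1 = mixedEmbedding K ((w : GK b K).1.1 (Sum.inl i) (Sum.inr (P.reflectionPerm (i : ι) (i : ι)))) := rfl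
    rw [Matrix.sub_apply, Matrix.one_apply_ne Sum.inl_ne_inr, sub_zero] at e
    rw [e1, ← e]
    exact hm
  choose m hm using h1
  unfold psi
  rw [Finset.sum_congr rfl fun i _ => hm i]
  have e2 : (∑ i, (m i : ℝ)) = ((∑ i, m i : ℤ) : ℝ) := by push_cast; rfl
  rw [e2]
  unfold ee
  have h2 := Complex.exp_int_mul_two_pi_mul_I (∑ i, m i)
  rw [← h2]
  congr 1
  push_cast
  ring

/-- The data `GD` (AN8). PROOF. `act`, `actT`, `jk`: `rfl`. `mj`: the map is continuous, `GR b K` is second countable (T1): `Continuous.measurable` (Borel σ-algebra of the product: `UR b K × GR b K`). `lm`: `measurePreserving_mul_left`. `lT`: the same. `rT`, `iT`: `an_unimod` (AN15). `mψ`, `nψ`, `hψ`: above. -/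
theorem m_gd (μ : Measure (GR b K)) [μ.IsHaarMeasure] (ν : Measure (UR b K)) [ν.IsHaarMeasure] (θ : b.support → (EE K →ₗ[ℝ] ℝ)) [Countable (HU b K)] {Δ : Subgroup (HU b K)} {D : Set (UR b K)} (hD : SF Δ D)
    (fD : ν D ≠ ⊤) : GD (emb b K) (UR b K).subtype (kU b K) μ ν (psi b θ) := by
  have hu := an_unimod (kU b K) (fun h t => smulU_def b K h t) (ν := ν) hD fD
  refine ⟨fun h x => rfl, fun h t => rfl, fun h => rfl, ?_, fun g => measurePreserving_mul_left μ g, fun s => measurePreserving_mul_left ν s, hu.1, hu.2,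
    (m_psi_cont b θ).measurable, m_psi_norm b θ, m_psi_mul b θ⟩
  have h1 : Continuous fun p : UR b K × GR b K => (UR b K).subtype p.1 * p.2 :=
    (continuous_subtype_val.comp continuous_fst).mul continuous_snd
  exact h1.measurable

end

end Pool.Agent.Lib.L1S
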