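import Pool.Agent.Lib.L1S.M1
import Pool.Agent.Lib.L1S.AN9

/-!
# M2 (M): finiteness of `ν D`, the set `S = U x supp φ`, the data `FQ`
-/

namespace Pool.Agent.Lib.L1S

open MeasureTheory Matrix NumberField IsDedekindDomain Pool.Agent.Lib.H89N Pool.Agent.Lib.H33W Pool.Agent.Lib.H67G
open scoped ENNReal

noncomputable section

variable {ι M N : Type} [Fintype ι] [DecidableEq ι] [AddCommGroup M] [Module ℚ M] [AddCommGroup N] [Module ℚ N]
  {P : RootPairing ι ℚ M N} [P.IsCrystallographic]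
  (b : P.Base) {K : Type} [Field K] [NumberField K]

/-- PROOF. If `ν D = 0` then `ν (δ⁻¹ D) = 0` for all `δ` (left invariance) and `U = ⋃_δ δ⁻¹ D` is a countable union: `ν univ = 0`, contradiction to `IsHaarMeasure` (`Measure.IsOpenPosMeasure`). -/
theorem m_pos (ν : Measure (UR b K)) [ν.IsHaarMeasure] [Countable (HU b K)] {Δ : Subgroup (HU b K)} {D : Set (UR b K)} (hD : SF Δ D) : ν D ≠ 0 := by
  intro h0
  have hpT : ∀ g : HU b K, MeasurePreserving (fun t : UR b K => g • t) ν ν := fun g =>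
    measurePreserving_mul_left ν (kU b K g)
  have hcov : (Set.univ : Set (UR b K)) ⊆ ⋃ δ : Δ, (fun t : UR b K => (δ : HU b K) • t) ⁻¹' D := fun t _ => by
    obtain ⟨δ, hδ, _⟩ := hD.fd t
    exact Set.mem_iUnion.2 ⟨δ, hδ⟩
  have h1 : ν Set.univ = 0 := by
    refine le_antisymm ?_ bot_le
    refine (measure_mono hcov).trans ((measure_iUnion_le _).trans ?_)
    have h2 : ∀ δ : Δ, ν ((fun t : UR b K => (δ : HU b K) • t) ⁻¹' D) = 0 := fun δ => by
      rw [(hpT δ).measure_preimage hD.meas.nullMeasurableSet, h0]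
    simp [h2]
  have h3 : ν ≠ 0 := NeZero.ne ν
  exact h3 (Measure.measure_univ_eq_zero.1 h1)

/-- PROOF. `D = ⋃_δ (D ∩ δ KT)` (`δ` in `Δ`, countable), `ν (D ∩ δ KT) = ν (δ⁻¹ D ∩ KT)`, and the sets `δ⁻¹ D = {t | δ • t ∈ D}` are disjoint: `ν D ≤ ∑ ν (δ⁻¹ D ∩ KT) = ν (⋃ ..) ≤ ν KT < ∞` (`measure_iUnion`, `KT` compact; `measure_iUnion_le`). -/
theorem m_fin (ν : Measure (UR b K)) [ν.IsHaarMeasure] [Countable (HU b K)] {Δ : Subgroup (HU b K)} {D : Set (UR b K)} (hD : SF Δ D) {KT : Set (UR b K)} (hK : IsCompact KT)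
    (hc : ∀ t, ∃ δ : HU b K, δ ∈ Δ ∧ ∃ s ∈ KT, t = kU b K δ * s) : ν D ≠ ⊤ := by
  have hpT : ∀ g : HU b K, MeasurePreserving (fun t : UR b K => g • t) ν ν := fun g =>
    measurePreserving_mul_left ν (kU b K g)
  have hKm : MeasurableSet KT := hK.measurableSet
  have hm : ∀ δ : Δ, MeasurableSet ((fun t : UR b K => (δ : HU b K) • t) ⁻¹' D ∩ KT) := fun δ =>
    ((hpT δ).measurable hD.meas).inter hKm
  have hcov : D ⊆ ⋃ δ : Δ, (fun t : UR b K => ((δ : HU b K))⁻¹ • t) ⁻¹' ((fun t : UR b K => (δ : HU b K) • t) ⁻¹' D ∩ KT) := fun t ht => by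
    obtain ⟨δ, hδ, s, hs, hts⟩ := hc t
    refine Set.mem_iUnion.2 ⟨⟨δ, hδ⟩, ?_, ?_⟩
    · show δ • δ⁻¹ • t ∈ D
      rw [smul_inv_smul]
      exact ht
    · show δ⁻¹ • t ∈ KT
      have e : t = δ • s := hts
      rw [e, inv_smul_smul]
      exact hs
  have hdis : Pairwise (Function.onFun Disjoint fun δ : Δ => (fun t : UR b K => (δ : HU b K) • t) ⁻¹' D ∩ KT) := fun δ δ' hne => by
    rw [Function.onFun, Set.disjoint_left]
    rintro t ⟨h1, _⟩ ⟨h2, _⟩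
    exact hne ((hD.fd t).unique h1 h2)
  have h1 : ν D ≤ ν KT := by
    calc ν D ≤ ∑' δ : Δ, ν ((fun t : UR b K => ((δ : HU b K))⁻¹ • t) ⁻¹' ((fun t : UR b K => (δ : HU b K) • t) ⁻¹' D ∩ KT)) :=
          (measure_mono hcov).trans (measure_iUnion_le _)
      _ = ∑' δ : Δ, ν ((fun t : UR b K => (δ : HU b K) • t) ⁻¹' D ∩ KT) :=
          tsum_congr fun δ => (hpT _).measure_preimage (hm δ).nullMeasurableSet
      _ = ν (⋃ δ : Δ, ((fun t : UR b K => (δ : HU b K) • t) ⁻¹' D ∩ KT)) := (measure_iUnion hdis hm).symm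
      _ ≤ ν KT := measure_mono (Set.iUnion_subset fun δ => Set.inter_subset_right)
  exact ((h1.trans_lt hK.measure_lt_top).ne)

open scoped Pointwise in
/-- PROOF. `S` is the product of the closed set `UR b K` (`UR_closed`) and the compact set `C`: closed (`IsClosed.mul_right_of_isCompact` or `IsClosed.mul_isCompact`..), so Borel. -/
theorem m_meas {C : Set (GR b K)} (hC : IsCompact C) : MeasurableSet {z : GR b K | ∃ t : UR b K, ∃ y ∈ C, z = t.1 * y} := by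
  have e : {z : GR b K | ∃ t : UR b K, ∃ y ∈ C, z = t.1 * y} = (UR b K : Set (GR b K)) * C := by
    ext z
    constructor
    · rintro ⟨t, y, hy, rfl⟩
      exact Set.mul_mem_mul t.2 hy
    · rintro ⟨t, ht, y, hy, rfl⟩
      exact ⟨⟨t, ht⟩, y, hy, rfl⟩
  rw [e]
  exact ((UR_closed b K).mul_right_of_isCompact hC).measurableSet

/-- PROOF. `Q = KT C`, the image of the compact set `KT ×ˢ C` under the continuous map `(s, y) ↦ s y`: compact, closed (`T2`), Borel, of finite measure. `cov`: `z = t y`, `t = kU δ * s`, `u = δ⁻¹`: `u • z = s y`. `fin`: `hf`. -/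
theorem m_fq (μ : Measure (GR b K)) [μ.IsHaarMeasure] {Γ₁ : Subgroup (GK b K)} {KT : Set (UR b K)} (hK : IsCompact KT)
    (hc : ∀ t, ∃ δ : HU b K, (δ : GK b K) ∈ Γ₁ ∧ ∃ s ∈ KT, t = kU b K δ * s) (hf : ∀ Q : Set (GR b K), IsCompact Q → {γ : GK b K | γ ∈ Γ₁ ∧ ∃ q ∈ Q, γ • q ∈ Q}.Finite)
    {C : Set (GR b K)} (hC : IsCompact C) : ∃ Q : Set (GR b K), IsCompact Q ∧ FQ μ Γ₁ (HU b K) {z : GR b K | ∃ t : UR b K, ∃ y ∈ C, z = t.1 * y} Q := by
  have hcQ : IsCompact ((fun p : UR b K × GR b K => p.1.1 * p.2) '' (KT ×ˢ C)) := by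
    refine (hK.prod hC).image ?_
    exact (continuous_subtype_val.comp continuous_fst).mul continuous_snd
  refine ⟨_, hcQ, ?_, hf _ hcQ, hcQ.measurableSet, hcQ.measure_lt_top.ne⟩
  rintro z ⟨t, y, hy, rfl⟩
  obtain ⟨δ, hδ, s, hs, hts⟩ := hc t
  refine ⟨(δ : GK b K)⁻¹, inv_mem (Subgroup.mem_inf.2 ⟨hδ, δ.2⟩), ⟨(s, y), ⟨hs, hy⟩, ?_⟩⟩
  show s.1 * y = emb b K (δ : GK b K)⁻¹ * (t.1 * y)
  have e : t.1 = emb b K (δ : GK b K) * s.1 := by rw [hts]; rfl
  rw [e, map_inv, mul_assoc, inv_mul_cancel_left]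

end

end Pool.Agent.Lib.L1S
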