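import Pool.Agent.Lib.L1S.M1

/-!
# M3 (M): the sets `U a Ω`, the bound `P`
-/

namespace Pool.Agent.Lib.L1S

open MeasureTheory Matrix NumberField IsDedekindDomain Pool.Agent.Lib.H89N Pool.Agent.Lib.H33W Pool.Agent.Lib.H67G
open scoped ENNReal

noncomputable section

variable {ι M N : Type} [Fintype ι] [DecidableEq ι] [AddCommGroup M] [Module ℚ M] [AddCommGroup N] [Module ℚ N]
  {P : RootPairing ι ℚ M N} [P.IsCrystallographic]
  (b : P.Base) {K : Type} [Field K] [NumberField K]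

/-- The compact set `Ω C C⁻¹ Ω⁻¹` of `GL(K ⊗ ℝ)`. -/
def Om2 (Ω : Set (GL (I b) (EE K))) (C : Set (GR b K)) : Set (GL (I b) (EE K)) :=
  {g | ∃ κ ∈ Ω, ∃ y ∈ C, ∃ κ' ∈ Ω, ∃ y' ∈ C, g = κ * y.1 * (κ' * y'.1)⁻¹}

/-- PROOF. The image of the compact set `Ω ×ˢ C ×ˢ Ω ×ˢ C` under a continuous map. -/
theorem om2_compact {Ω : Set (GL (I b) (EE K))} (hΩ : IsCompact Ω) {C : Set (GR b K)} (hC : IsCompact C) : IsCompact (Om2 b Ω C) := by
  have h1 : IsCompact (Ω ×ˢ C ×ˢ Ω ×ˢ C) := hΩ.prod (hC.prod (hΩ.prod hC))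
  have h2 : Continuous fun p : GL (I b) (EE K) × GR b K × GL (I b) (EE K) × GR b K =>
      p.1 * p.2.1.1 * (p.2.2.1 * p.2.2.2.1)⁻¹ := by
    have c1 : Continuous fun p : GL (I b) (EE K) × GR b K × GL (I b) (EE K) × GR b K => p.1 := continuous_fst
    have c2 : Continuous fun p : GL (I b) (EE K) × GR b K × GL (I b) (EE K) × GR b K => p.2.1.1 :=
      continuous_subtype_val.comp (continuous_fst.comp continuous_snd)
    have c3 : Continuous fun p : GL (I b) (EE K) × GR b K × GL (I b) (EE K) × GR b K => p.2.2.1 :=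
      continuous_fst.comp (continuous_snd.comp continuous_snd)
    have c4 : Continuous fun p : GL (I b) (EE K) × GR b K × GL (I b) (EE K) × GR b K => p.2.2.2.1 :=
      continuous_subtype_val.comp (continuous_snd.comp (continuous_snd.comp continuous_snd))
    exact (c1.mul c2).mul (c3.mul c4).inv
  have h3 := h1.image h2
  have h4 : Om2 b Ω C = (fun p : GL (I b) (EE K) × GR b K × GL (I b) (EE K) × GR b K =>
      p.1 * p.2.1.1 * (p.2.2.1 * p.2.2.2.1)⁻¹) '' (Ω ×ˢ C ×ˢ Ω ×ˢ C) := by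
    ext g
    constructor
    · rintro ⟨κ, hκ, y, hy, κ', hκ', y', hy', rfl⟩
      exact ⟨(κ, y, κ', y'), ⟨hκ, hy, hκ', hy'⟩, rfl⟩
    · rintro ⟨⟨κ, y, κ', y'⟩, ⟨hκ, hy, hκ', hy'⟩, rfl⟩
      exact ⟨κ, hκ, y, hy, κ', hκ', y', hy', rfl⟩
  rw [h4]
  exact h3

/-- PROOF. `exp(A(β)) exp(-A(β)) = 1`: diagonal matrices (`Matrix.diagonal_mul_diagonal`), `algebraMap` multiplicative, `A (root β)` and `(-A) (root β) = -A (root β)`. -/
theorem dg_mul_neg (A : M →ₗ[ℚ] ℝ) : dg b K A * dg b K (-A) = 1 := by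
  unfold dg
  rw [Matrix.diagonal_mul_diagonal, ← Matrix.diagonal_one]
  congr 1
  funext i
  rcases i with i | β
  · simp
  · show algebraMap ℝ (EE K) (Real.exp (A (P.root β))) * algebraMap ℝ (EE K) (Real.exp ((-A) (P.root β))) = 1
    rw [← map_mul, ← Real.exp_add, LinearMap.neg_apply, add_neg_cancel, Real.exp_zero, map_one]

/-- `a = exp A` as an element of the group. -/
def m3A (K : Type) [Field K] [NumberField K] (A : M →ₗ[ℚ] ℝ) : GL (I b) (EE K) :=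
  ⟨dg b K A, dg b K (-A), dg_mul_neg b A, by
    have h := dg_mul_neg (K := K) b (-A)
    rwa [neg_neg] at h⟩

/-- `x = u a ω` in the group. -/
theorem m3_range {Ω : Set (GL (I b) (EE K))} {A : M →ₗ[ℚ] ℝ} {x : GR b K} (hx : InRange b Ω A x) :
    ∃ u : UR b K, ∃ ω ∈ Ω, x.1 = u.1.1 * m3A b K A * ω := by
  obtain ⟨u, hu, ω, hω, h⟩ := hx
  exact ⟨⟨u, hu⟩, ω, hω, Units.ext h⟩

/-- PROOF. `x = u a ω` (matrices), `y ∈ C`: `t x y = (t u) a (ω y)`. For `γ t x y = t' x y'`: `γ = t' u a (ω y') (ω y)⁻¹ a⁻¹ u⁻¹ t⁻¹` (`dg_mul_neg` also with `-A`: `a⁻¹ = dg (-A)`). -/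
theorem m_mv {Ω : Set (GL (I b) (EE K))} {C : Set (GR b K)} {A : M →ₗ[ℚ] ℝ} {x : GR b K} (hx : InRange b Ω A x) {γ : GR b K} {t t' : UR b K} {y y' : GR b K} (hy : y ∈ C) (hy' : y' ∈ C)
    (h : γ * (t.1 * (x * y)) = t'.1 * (x * y')) : Mv b (Om2 b Ω C) A γ := by
  obtain ⟨u, ω, hω, hxu⟩ := m3_range b hx
  refine ⟨((t * u)⁻¹ : UR b K).1, ((t * u)⁻¹ : UR b K).2, (t' * u : UR b K).1, (t' * u : UR b K).2,
    ω * y'.1 * (ω * y.1)⁻¹, ⟨ω, hω, y', hy', ω, hω, y, hy, rfl⟩, ?_⟩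
  have h1 : γ.1 * (t.1.1 * (x.1 * y.1)) = t'.1.1 * (x.1 * y'.1) := congrArg Subtype.val h
  have h2 : γ.1 = (t'.1.1 * u.1.1) * (m3A b K A * (ω * y'.1 * (ω * y.1)⁻¹) * (m3A b K A)⁻¹) * (t.1.1 * u.1.1)⁻¹ := by
    have h3 : γ.1 = t'.1.1 * (x.1 * y'.1) * (t.1.1 * (x.1 * y.1))⁻¹ := by
      rw [← h1, mul_inv_cancel_right]
    rw [h3, hxu]
    group
  have h4 := congrArg Units.val h2
  exact h4

/-- PROOF. The set on the left: if it is empty there is nothing to prove. Let `s₀` be in it, `s₀⁻¹ z = x y₀`. For `s` in it: `s⁻¹ z = x y₁`, `s⁻¹ s₀ = x y₁ y₀⁻¹ x⁻¹ = u a (ω y₁) (ω y₀)⁻¹ a⁻¹ u⁻¹`, so `u⁻¹ s⁻¹ s₀ u` is in the set on the right.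
The map `s ↦ u⁻¹ s⁻¹ s₀ u` of `UR b K` preserves `ν` (composition of the inverse, left and right translations: `hr`, `hi`, left invariance) and is a homeomorphism (or: the set on the right is closed, hence measurable): `MeasurePreserving.measure_preimage`, `measure_mono`. -/
theorem m_P {ν : Measure (UR b K)} [ν.IsHaarMeasure] (hr : ∀ s : UR b K, MeasurePreserving (fun t : UR b K => t * s) ν ν) (hi : MeasurePreserving (fun t : UR b K => t⁻¹) ν ν)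
    {Ω : Set (GL (I b) (EE K))} (hΩ : IsCompact Ω) {C : Set (GR b K)} (hC : IsCompact C) {A : M →ₗ[ℚ] ℝ} {x : GR b K} (hx : InRange b Ω A x) (z : GR b K) :
    ν {s : UR b K | ∃ y ∈ C, s.1⁻¹ * z = x * y} ≤ ν {u : UR b K | ∃ κ ∈ Om2 b Ω C, u.1.1.1 = dg b K A * κ.1 * dg b K (-A)} := by
  rcases Set.eq_empty_or_nonempty {s : UR b K | ∃ y ∈ C, s.1⁻¹ * z = x * y} with he | ⟨s₀, y₀, hy₀, h0⟩
  · rw [he, measure_empty]
    exact bot_le
  obtain ⟨u, ω, hω, hxu⟩ := m3_range b hx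
  have hmp : MeasurePreserving (fun s : UR b K => u⁻¹ * (s⁻¹ * (s₀ * u))) ν ν :=
    (measurePreserving_mul_left ν u⁻¹).comp ((hr (s₀ * u)).comp hi)
  have hsub : {s : UR b K | ∃ y ∈ C, s.1⁻¹ * z = x * y} ⊆ (fun s : UR b K => u⁻¹ * (s⁻¹ * (s₀ * u))) ⁻¹'
      {u : UR b K | ∃ κ ∈ Om2 b Ω C, u.1.1.1 = dg b K A * κ.1 * dg b K (-A)} := by
    rintro s ⟨y, hy, h1⟩
    refine ⟨ω * y.1 * (ω * y₀.1)⁻¹, ⟨ω, hω, y, hy, ω, hω, y₀, hy₀, rfl⟩, ?_⟩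
    have e1 : s.1.1⁻¹ * z.1 = x.1 * y.1 := congrArg Subtype.val h1
    have e0 : s₀.1.1⁻¹ * z.1 = x.1 * y₀.1 := congrArg Subtype.val h0
    have e2 : s.1.1⁻¹ * s₀.1.1 = x.1 * y.1 * (x.1 * y₀.1)⁻¹ := by
      rw [← e1, ← e0]
      group
    have e3 : u.1.1⁻¹ * (s.1.1⁻¹ * (s₀.1.1 * u.1.1)) = m3A b K A * (ω * y.1 * (ω * y₀.1)⁻¹) * (m3A b K A)⁻¹ := by
      rw [← mul_assoc s.1.1⁻¹, e2, hxu]
      group
    have e4 := congrArg Units.val e3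
    exact e4
  calc ν {s : UR b K | ∃ y ∈ C, s.1⁻¹ * z = x * y} ≤ ν ((fun s : UR b K => u⁻¹ * (s⁻¹ * (s₀ * u))) ⁻¹'
      {u : UR b K | ∃ κ ∈ Om2 b Ω C, u.1.1.1 = dg b K A * κ.1 * dg b K (-A)}) := measure_mono hsub
    _ ≤ (ν.map (fun s : UR b K => u⁻¹ * (s⁻¹ * (s₀ * u))))
        {u : UR b K | ∃ κ ∈ Om2 b Ω C, u.1.1.1 = dg b K A * κ.1 * dg b K (-A)} :=
        Measure.le_map_apply hmp.measurable.aemeasurable _
    _ = _ := by rw [hmp.map_eq]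

end

end Pool.Agent.Lib.L1S
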