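import Pool.Agent.Lib.L1S.M1

/-!
# M4 (M): Mathlib fundamental domains and strict fundamental domains
-/

namespace Pool.Agent.Lib.L1S

open MeasureTheory Matrix NumberField IsDedekindDomain Pool.Agent.Lib.H89N Pool.Agent.Lib.H33W Pool.Agent.Lib.H67G
open scoped ENNReal

noncomputable section

/-- PROOF. `IsFundamentalDomain.mk'` (`F` is measurable; for every `x` there is exactly one `γ ∈ Γ.map e` with `γ • x ∈ F`: existence from `hF.fd`; uniqueness: `γ = e γ₁`, `γ' = e γ₁'` and `γ₁ = γ₁'` by `hF.fd`). -/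
theorem m4_fd {H G : Type} [Group H] [Group G] [MulAction H G] [MeasurableSpace G] (e : H →* G) (he : ∀ (h : H) (x : G), h • x = e h * x) {Γ : Subgroup H} {F : Set G} (hF : SF Γ F)
    (μ : Measure G) : IsFundamentalDomain (Γ.map e) F μ := by
  refine IsFundamentalDomain.mk' hF.meas.nullMeasurableSet fun x => ?_
  obtain ⟨γ, hγ, hu⟩ := hF.fd x
  refine ⟨⟨e γ.1, ⟨γ.1, γ.2, rfl⟩⟩, ?_, ?_⟩
  · show e γ.1 * x ∈ F
    rw [← he]
    exact hγ
  · rintro ⟨g, ⟨γ', h1, rfl⟩⟩ h2
    have h3 : e γ' * x ∈ F := h2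
    rw [← he] at h3
    have h4 := hu ⟨γ', h1⟩ h3
    apply Subtype.ext
    show e γ' = e γ.1
    rw [← h4]

/-- PROOF. `IsFundamentalDomain.setIntegral_eq` (the action of the countable group preserves `μ`). -/
theorem m4_int {G : Type} [Group G] [MeasurableSpace G] [MeasurableMul G] {μ : Measure G} [μ.IsMulLeftInvariant] {Δ : Subgroup G} [Countable Δ] {D F : Set G} (hD : IsFundamentalDomain Δ D μ)
    (hF : IsFundamentalDomain Δ F μ) {E : Type} [NormedAddCommGroup E] [NormedSpace ℝ E] {f : G → E} (hf : ∀ γ ∈ Δ, ∀ x, f (γ * x) = f x) : ∫ x in D, f x ∂μ = ∫ x in F, f x ∂μ := by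
  exact hD.setIntegral_eq hF fun g x => hf g.1 g.2 x

/-- PROOF. `IsFundamentalDomain.measure_eq`. -/
theorem m4_vol {G : Type} [Group G] [MeasurableSpace G] [MeasurableMul G] {μ : Measure G} [μ.IsMulLeftInvariant] {Δ : Subgroup G} [Countable Δ] {D F : Set G} (hD : IsFundamentalDomain Δ D μ)
    (hF : IsFundamentalDomain Δ F μ) : μ D = μ F := by
  exact hD.measure_eq hF

/-- PROOF. `MemLp f 2` is: almost everywhere strongly measurable (`f` is continuous, so `hf.aestronglyMeasurable`; second countable) and `∫⁻ ‖f‖ₑ² < ∞` (`eLpNorm_lt_top_iff_lintegral_rpow_enorm_lt_top`), and the integrals over `D` and `F` are the same: `IsFundamentalDomain.setLIntegral_eq` for `x ↦ ‖f x‖ₑ ^ 2`. -/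
theorem m4_l2 {G : Type} [Group G] [TopologicalSpace G] [IsTopologicalGroup G] [SecondCountableTopology G] [MeasurableSpace G] [BorelSpace G] {μ : Measure G} [μ.IsMulLeftInvariant] {Δ : Subgroup G} [Countable Δ] {D F : Set G}
    (hD : IsFundamentalDomain Δ D μ) (hF : IsFundamentalDomain Δ F μ) {f : G → ℂ} (cf : Continuous f) (hf : ∀ γ ∈ Δ, ∀ x, f (γ * x) = f x) (h2 : MemLp f 2 (μ.restrict D)) : MemLp f 2 (μ.restrict F) := by
  refine ⟨cf.aestronglyMeasurable, ?_⟩
  have h3 := h2.2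
  rw [eLpNorm_lt_top_iff_lintegral_rpow_enorm_lt_top two_ne_zero ENNReal.ofNat_ne_top] at h3 ⊢
  rw [← hD.setLIntegral_eq hF (fun x => ‖f x‖ₑ ^ (2 : ℝ≥0∞).toReal) fun g x => ?_]
  · exact h3
  · have e : f (g • x) = f x := hf g.1 g.2 x
    rw [e]

end

end Pool.Agent.Lib.L1S
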