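import Pool.Agent.Lib.L1S.M1
import Pool.Agent.Lib.L1S.AN16
import Pool.Agent.Lib.H67G.B3

/-!
# M5 (S/M): the Hecke operator and the Whittaker coefficient in the form of the module A
-/

namespace Pool.Agent.Lib.L1S

open MeasureTheory Matrix NumberField IsDedekindDomain Pool.Agent.Lib.H89N Pool.Agent.Lib.H33W Pool.Agent.Lib.H67G
open scoped ENNReal

noncomputable section

variable {ι M N : Type} [Fintype ι] [DecidableEq ι] [AddCommGroup M] [Module ℚ M] [AddCommGroup N] [Module ℚ N]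
  {P : RootPairing ι ℚ M N} [P.IsCrystallographic]
  (b : P.Base) {K : Type} [Field K] [NumberField K]

/-- PROOF. `mixedEmbedding K` is injective, so `GeneralLinearGroup.map` is (entries). -/
theorem emb_inj : Function.Injective (emb b K) := by
  intro g h e
  have e1 : (emb b K g).1.1 = (emb b K h).1.1 := congrArg (fun z : GR b K => z.1.1) e
  apply Subtype.ext
  apply Units.ext
  ext i j
  have e2 : mixedEmbedding K (g.1.1 i j) = mixedEmbedding K (h.1.1 i j) := congrFun (congrFun e1 i) j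
  exact mixedEmbedding_injective K e2

/-- PROOF. `γ ∈ Gam` iff `γ = emb γ₁` with `γ₁ ∈ GamK` (`emb_inj`). -/
theorem mem_gam {𝔫 : Ideal (𝓞 K)} {v : HeightOneSpectrum (𝓞 K)} {r s : ℕ} (γ : GK b K) : emb b K γ ∈ Gam b 𝔫 v r s ↔ γ ∈ GamK b 𝔫 v r s := by
  constructor
  · rintro ⟨γ₁, h1, h2⟩
    rw [← emb_inj b h2]
    exact h1
  · intro h
    exact ⟨γ, h, rfl⟩

/-- `Γ ∩ U` in the two forms. PROOF. `w ∈ GamU` iff `w.1 ∈ Gam` iff `w.1 = emb γ` with `γ ∈ GamK`, `γ ∈ HU` (as `emb γ = w.1 ∈ UR`). -/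
theorem gamU_eq (𝔫 : Ideal (𝓞 K)) (v : HeightOneSpectrum (𝓞 K)) (r s : ℕ) : GamU b 𝔫 v r s = ((GamK b 𝔫 v r s).subgroupOf (HU b K)).map (kU b K) := by
  ext w
  constructor
  · intro hw
    obtain ⟨γ, hγ, e⟩ := Subgroup.mem_subgroupOf.1 hw
    have hU : γ ∈ HU b K := by
      show emb b K γ ∈ UR b K
      rw [e]
      exact w.2
    exact ⟨⟨γ, hU⟩, Subgroup.mem_subgroupOf.2 hγ, Subtype.ext e⟩
  · rintro ⟨γ, hγ, rfl⟩
    exact Subgroup.mem_subgroupOf.2 ⟨γ.1, Subgroup.mem_subgroupOf.1 hγ, rfl⟩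

/-- **The Hecke operator.** PROOF. The finite set `S` of `IsU` consists of elements `emb w'` with `w' ∈ HU ∩ GamK` (`mem_gam`); let `S'` be the corresponding finite set in `HU b K` (preimage under the injective map `w' ↦ emb w'`). For `u' ∈ HU ∩ GamK` there is exactly one `w' ∈ S'` with `u' w'⁻¹ ∈ Gh`
(`emb h * (emb u' * (emb w')⁻¹) * (emb h)⁻¹ = emb (h u' w'⁻¹ h⁻¹)`, `mem_gam`). `cs_fin` (AN16) for the group `HU b K`, `U₀ = (Gh ..).subgroupOf HU ≤ (GamK ..).subgroupOf HU` (`hle`): `cs = ∑_{w ∈ S'} F (h • (w • y)) = ∑_{w ∈ S} F (emb h * w * y) = θ F y`; the hypothesis `hb` of `cs_fin`: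
`F(h • (u g • y)) = F((h u h⁻¹) • (h • g • y))` and `h u h⁻¹ ∈ GamK`. `card_fin`: the index is `S'.card ≠ 0` (`S'` is not empty, as there is a `w` for `u = 1`). -/
theorem m_hecke {𝔫 : Ideal (𝓞 K)} {v : HeightOneSpectrum (𝓞 K)} {r s : ℕ} {h : GK b K} (hle : Gh b 𝔫 v r s h ⊓ HU b K ≤ GamK b 𝔫 v r s) {F : GR b K → ℂ} (iF : ∀ γ ∈ Gam b 𝔫 v r s, ∀ x, F (γ * x) = F x)
    {θ : ℂ} (hU : IsU b 𝔫 v r s h F θ) :
    ((Gh b 𝔫 v r s h).subgroupOf (HU b K)).relIndex ((GamK b 𝔫 v r s).subgroupOf (HU b K)) ≠ 0 ∧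
    ∀ y, cs ((Gh b 𝔫 v r s h).subgroupOf (HU b K)) (((GamK b 𝔫 v r s).subgroupOf (HU b K) : Subgroup (HU b K)) : Set (HU b K)) (fun c : HU b K => F (h • ((c : GK b K) • y))) = θ * F y := by
  classical
  obtain ⟨S, hS1, hS2, hS3⟩ := hU
  have hinj : Function.Injective fun w' : HU b K => emb b K w'.1 := by
    intro x y hxy
    exact Subtype.ext (emb_inj b hxy)
  have key : ∀ u' w' : HU b K, emb b K h * (emb b K u'.1 * (emb b K w'.1)⁻¹) * (emb b K h)⁻¹ ∈ Gam b 𝔫 v r s ↔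
      u' * w'⁻¹ ∈ (Gh b 𝔫 v r s h).subgroupOf (HU b K) := by
    intro u' w'
    rw [← map_inv, ← map_inv, ← map_mul, ← map_mul, ← map_mul, mem_gam, Subgroup.mem_subgroupOf]
    exact Iff.rfl
  let S' : Finset (HU b K) := S.preimage (fun w' : HU b K => emb b K w'.1) hinj.injOn
  have mS' : ∀ w' : HU b K, w' ∈ S' ↔ emb b K w'.1 ∈ S := fun w' => Finset.mem_preimage
  have h1 : ∀ w ∈ S', w ∈ (GamK b 𝔫 v r s).subgroupOf (HU b K) := by
    intro w hw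
    rw [Subgroup.mem_subgroupOf, ← mem_gam]
    exact (hS1 _ ((mS' w).1 hw)).1
  have h2 : ∀ u ∈ (GamK b 𝔫 v r s).subgroupOf (HU b K), ∃! w, w ∈ S' ∧ u * w⁻¹ ∈ (Gh b 𝔫 v r s h).subgroupOf (HU b K) := by
    intro u hu
    obtain ⟨w, ⟨hw1, hw2⟩, hw3⟩ := hS2 (emb b K u.1) ⟨(mem_gam b _).2 (Subgroup.mem_subgroupOf.1 hu), u.2⟩
    obtain ⟨⟨γ, hγ, e⟩, hwU⟩ := hS1 w hw1
    have hγU : γ ∈ HU b K := by
      show emb b K γ ∈ UR b K
      rw [e]
      exact hwU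
    refine ⟨⟨γ, hγU⟩, ⟨(mS' _).2 ?_, (key _ _).1 ?_⟩, ?_⟩
    · show emb b K γ ∈ S
      rw [e]
      exact hw1
    · show emb b K h * (emb b K u.1 * (emb b K γ)⁻¹) * (emb b K h)⁻¹ ∈ Gam b 𝔫 v r s
      rw [e]
      exact hw2
    · rintro w' ⟨h3, h4⟩
      have h5 := hw3 (emb b K w'.1) ⟨(mS' w').1 h3, (key u w').2 h4⟩
      apply hinj
      show emb b K w'.1 = emb b K γ
      rw [h5, e]
  have h0 : (Gh b 𝔫 v r s h).subgroupOf (HU b K) ≤ (GamK b 𝔫 v r s).subgroupOf (HU b K) := by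
    intro x hx
    exact Subgroup.mem_subgroupOf.2 (hle ⟨Subgroup.mem_subgroupOf.1 hx, x.2⟩)
  refine ⟨?_, fun y => ?_⟩
  · rw [card_fin h0 h1 h2]
    obtain ⟨w, ⟨hw, -⟩, -⟩ := h2 1 (one_mem _)
    exact (Finset.card_pos.2 ⟨w, hw⟩).ne'
  · have hb : ∀ u ∈ (Gh b 𝔫 v r s h).subgroupOf (HU b K), ∀ g : HU b K,
        F (h • (((u * g : HU b K) : GK b K) • y)) = F (h • ((g : GK b K) • y)) := by
      intro u hu g
      have h3 : h * u.1 * h⁻¹ ∈ GamK b 𝔫 v r s := Subgroup.mem_subgroupOf.1 hu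
      have h4 : (h • (((u * g : HU b K) : GK b K) • y) : GR b K) = emb b K (h * u.1 * h⁻¹) * (h • ((g : GK b K) • y)) := by
        simp only [smul_def, Subgroup.coe_mul, map_mul, map_inv]
        group
      rw [h4]
      exact iF _ ((mem_gam b _).2 h3) _
    rw [cs_fin h0 h1 h2 hb, ← hS3 y]
    refine Finset.sum_nbij (fun w' : HU b K => emb b K w'.1) (fun w' hw' => (mS' w').1 hw') (fun x _ z _ hxz => hinj hxz) ?_ ?_
    · intro w hw
      obtain ⟨⟨γ, hγ, e⟩, hwU⟩ := hS1 w hw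
      have hγU : γ ∈ HU b K := by
        show emb b K γ ∈ UR b K
        rw [e]
        exact hwU
      refine ⟨⟨γ, hγU⟩, (mS' _).2 ?_, e⟩
      show emb b K γ ∈ S
      rw [e]
      exact hw
    · intro w' _
      show F (emb b K h * (emb b K w'.1 * y)) = F (emb b K h * emb b K w'.1 * y)
      rw [mul_assoc]

end

end Pool.Agent.Lib.L1S
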