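import Pool.Agent.Lib.L1S.MApi
import Pool.Agent.Lib.L1S.AN0

/-!
# M6 (M): from the alternative to the data `Dich`
-/

namespace Pool.Agent.Lib.L1S

open MeasureTheory Matrix NumberField IsDedekindDomain Pool.Agent.Lib.H89N Pool.Agent.Lib.H33W Pool.Agent.Lib.H67G
open scoped ENNReal

noncomputable section

variable {ι M N : Type} [Fintype ι] [DecidableEq ι] [AddCommGroup M] [Module ℚ M] [AddCommGroup N] [Module ℚ N]
  {P : RootPairing ι ℚ M N} [P.IsCrystallographic] [P.IsRootSystem] [P.IsReduced] [P.IsIrreducible]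
  (b : P.Base) {K : Type} [Field K] [NumberField K]

omit [P.IsRootSystem] [P.IsReduced] [P.IsIrreducible] in
theorem m6_mem (𝔫 : Ideal (𝓞 K)) (v : HeightOneSpectrum (𝓞 K)) (r s : ℕ) (h x g : GK b K) :
    g ∈ Gh b 𝔫 v r s (h * x) ↔ x * g * x⁻¹ ∈ Gh b 𝔫 v r s h := by
  unfold Gh
  rw [Subgroup.mem_comap, Subgroup.mem_comap]
  have e : (MulAut.conj (h * x)).toMonoidHom g = (MulAut.conj h).toMonoidHom (x * g * x⁻¹) := by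
    simp only [MulEquiv.toMonoidHom_eq_coe, MonoidHom.coe_coe, MulAut.conj_apply]
    group
  rw [e]

theorem m6_idx {𝔫 : Ideal (𝓞 K)} (h0 : 𝔫 ≠ ⊥) (v : HeightOneSpectrum (𝓞 K)) (r s : ℕ) (h x : GK b K)
    (L : Subgroup (HU b K)) (hL : ∀ w ∈ L, (w : GK b K) ∈ Gh b 𝔫 v r s h) :
    (L ⊓ (Gh b 𝔫 v r s x).subgroupOf (HU b K)).relIndex L ≠ 0 := by
  rw [Subgroup.inf_relIndex_left]
  have h1 : ((Gh b 𝔫 v r s x).subgroupOf (HU b K)).relIndex L =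
      (Gh b 𝔫 v r s x).relIndex (L.map (HU b K).subtype) := Subgroup.relIndex_comap _ (HU b K).subtype L
  rw [h1]
  have h2 : L.map (HU b K).subtype ≤ Gh b 𝔫 v r s h := by
    rintro _ ⟨w, hw, rfl⟩
    exact hL w hw
  exact mt (Subgroup.relIndex_eq_zero_of_le_right h2) (r_comm b h0 v v r s r s x h)

/-- PROOF. `v`, `v'` from `Alt` (`γ v = v' γ`). `Λ = La Γ₁ HU γ`; for `w ∈ HU`: `w ∈ Λ` iff `w ∈ Γ₁` and `γ w γ⁻¹ ∈ HU` (`γ ∈ Γ₁`, so `γ w γ⁻¹ ∈ Γ₁` is automatic). `Λ₁ = {w ∈ Λ | v⁻¹ w v ∈ Γ₁}`, `Λ₂ = {w ∈ Λ | v w v⁻¹ ∈ Γ₁}` (intersections of `Λ` with the preimages of `Γ₁` under conjugation).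
`w ∈ Λ₂` iff `v w v⁻¹ ∈ Λ₁`: `γ (v w v⁻¹) γ⁻¹ = v' (γ w γ⁻¹) v'⁻¹ ∈ HU` iff `γ w γ⁻¹ ∈ HU`; and `v⁻¹ (v w v⁻¹) v = w`. The indices: `Λ₁ ⊇ Λ ∩ (the preimage in HU of v Γ₁ v⁻¹ = Gh .. (h v⁻¹))`, and `(Gh .. (h v⁻¹)).relIndex (Gh .. h) ≠ 0` (`r_comm`), so the index of the intersection with the smaller group `Λ` is not zero
(`Subgroup.relIndex_ne_zero_of_le`-type lemmas: `Subgroup.relIndex_inf_ne_zero`, `Subgroup.relIndex_comap`, `relIndex` decreases when both groups are intersected with a subgroup). -/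
theorem m_dich {𝔫 : Ideal (𝓞 K)} (h0 : 𝔫 ≠ ⊥) {v : HeightOneSpectrum (𝓞 K)} {r s : ℕ} {h : GK b K} {θ : b.support → (EE K →ₗ[ℝ] ℝ)} {γ : GK b K} (hγ : γ ∈ Gh b 𝔫 v r s h) (hA : Alt b θ γ) :
    Dich (Gh b 𝔫 v r s h) (HU b K) (fun w => psi b θ (kU b K w)) γ := by
  obtain ⟨w₀, w₀', hw, hψ⟩ := hA
  have hLa : ∀ w ∈ La (Gh b 𝔫 v r s h) (HU b K) γ, (w : GK b K) ∈ Gh b 𝔫 v r s h := fun w hw => hw.1
  refine ⟨w₀, w₀', hw, hψ, La (Gh b 𝔫 v r s h) (HU b K) γ ⊓ (Gh b 𝔫 v r s (h * (w₀ : GK b K)⁻¹)).subgroupOf (HU b K),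
    La (Gh b 𝔫 v r s h) (HU b K) γ ⊓ (Gh b 𝔫 v r s (h * (w₀ : GK b K))).subgroupOf (HU b K), inf_le_left, inf_le_left,
    m6_idx b h0 v r s h _ _ hLa, m6_idx b h0 v r s h _ _ hLa, fun w => ?_⟩
  have e1 : γ * ((w₀ * w * w₀⁻¹ : HU b K) : GK b K) * γ⁻¹ = (w₀' : GK b K) * (γ * (w : GK b K) * γ⁻¹) * (w₀' : GK b K)⁻¹ := by
    have e2 : γ * (w₀ : GK b K) * γ⁻¹ = (w₀' : GK b K) := by rw [hw]; group
    have e3 : (w₀' : GK b K)⁻¹ = γ * (w₀ : GK b K)⁻¹ * γ⁻¹ := by rw [← e2]; group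
    rw [e3, ← e2]
    simp only [Subgroup.coe_mul, Subgroup.coe_inv]
    group
  have e4 : (w₀ : GK b K)⁻¹ * ((w₀ * w * w₀⁻¹ : HU b K) : GK b K) * (w₀ : GK b K)⁻¹⁻¹ = (w : GK b K) := by
    simp only [Subgroup.coe_mul, Subgroup.coe_inv]
    group
  have e5 : ((w₀ * w * w₀⁻¹ : HU b K) : GK b K) = (w₀ : GK b K) * (w : GK b K) * (w₀ : GK b K)⁻¹ := by
    simp only [Subgroup.coe_mul, Subgroup.coe_inv]
  constructor
  · intro hm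
    obtain ⟨⟨h1, h2⟩, h3⟩ := Subgroup.mem_inf.1 hm
    rw [Subgroup.mem_subgroupOf, m6_mem] at h3
    refine Subgroup.mem_inf.2 ⟨⟨?_, ?_, ?_⟩, ?_⟩
    · rw [e5]
      exact h3
    · exact Subgroup.mul_mem _ (Subgroup.mul_mem _ hγ (by rw [e5]; exact h3)) (Subgroup.inv_mem _ hγ)
    · rw [e1]
      exact Subgroup.mul_mem _ (Subgroup.mul_mem _ w₀'.2 h2.2) (Subgroup.inv_mem _ w₀'.2)
    · rw [Subgroup.mem_subgroupOf, m6_mem, e4]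
      exact h1
  · intro hm
    obtain ⟨⟨h1, h2⟩, h3⟩ := Subgroup.mem_inf.1 hm
    rw [Subgroup.mem_subgroupOf, m6_mem, e4] at h3
    refine Subgroup.mem_inf.2 ⟨⟨h3, ?_, ?_⟩, ?_⟩
    · exact Subgroup.mul_mem _ (Subgroup.mul_mem _ hγ h3) (Subgroup.inv_mem _ hγ)
    · have h4 := h2.2
      rw [e1] at h4
      have h5 : γ * (w : GK b K) * γ⁻¹ = (w₀' : GK b K)⁻¹ * ((w₀' : GK b K) * (γ * (w : GK b K) * γ⁻¹) * (w₀' : GK b K)⁻¹) * (w₀' : GK b K) := by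
        group
      rw [h5]
      exact Subgroup.mul_mem _ (Subgroup.mul_mem _ (Subgroup.inv_mem _ w₀'.2) h4) w₀'.2
    · rw [Subgroup.mem_subgroupOf, m6_mem, ← e5]
      exact h1

end

end Pool.Agent.Lib.L1S
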