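import Pool.Agent.Lib.L1S.M6
import Pool.Agent.Lib.L1S.AV0

/-!
# M7 (M): from the alternative to the data `Dich2`
-/

namespace Pool.Agent.Lib.L1S

open MeasureTheory Matrix NumberField IsDedekindDomain Pool.Agent.Lib.H89N Pool.Agent.Lib.H33W Pool.Agent.Lib.H67G
open scoped ENNReal

noncomputable section

variable {ι M N : Type} [Fintype ι] [DecidableEq ι] [AddCommGroup M] [Module ℚ M] [AddCommGroup N] [Module ℚ N]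
  {P : RootPairing ι ℚ M N} [P.IsCrystallographic] [P.IsRootSystem] [P.IsReduced] [P.IsIrreducible]
  (b : P.Base) {K : Type} [Field K] [NumberField K]

omit [P.IsRootSystem] [P.IsReduced] [P.IsIrreducible] in
theorem m7_conj {𝔫 : Ideal (𝓞 K)} {v : HeightOneSpectrum (𝓞 K)} {r s : ℕ} {h h' γ : GK b K} (hγ : h * γ * h'⁻¹ ∈ GamK b 𝔫 v r s) {x : GK b K} (hx : x ∈ Gh b 𝔫 v r s h') :
    γ * x * γ⁻¹ ∈ Gh b 𝔫 v r s h := by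
  have h1 : h' * x * h'⁻¹ ∈ GamK b 𝔫 v r s := hx
  show h * (γ * x * γ⁻¹) * h⁻¹ ∈ GamK b 𝔫 v r s
  have e : h * (γ * x * γ⁻¹) * h⁻¹ = (h * γ * h'⁻¹) * (h' * x * h'⁻¹) * (h * γ * h'⁻¹)⁻¹ := by group
  rw [e]
  exact Subgroup.mul_mem _ (Subgroup.mul_mem _ hγ h1) (Subgroup.inv_mem _ hγ)

/-- From the alternative to the data `Dich2`. -/
theorem m_dich2 {𝔫 : Ideal (𝓞 K)} (h0 : 𝔫 ≠ ⊥) {v : HeightOneSpectrum (𝓞 K)} {r s : ℕ} {h h' : GK b K} {θ : b.support → (EE K →ₗ[ℝ] ℝ)} {γ : GK b K}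
    (hγ : h * γ * h'⁻¹ ∈ GamK b 𝔫 v r s) (hA : Alt b θ γ) :
    Dich2 (Gh b 𝔫 v r s h) (Gh b 𝔫 v r s h') (HU b K) (fun w => psi b θ (kU b K w)) γ := by
  obtain ⟨w₀, w₀', hw, hψ⟩ := hA
  have hLa : ∀ w ∈ La2 (Gh b 𝔫 v r s h) (Gh b 𝔫 v r s h') (HU b K) γ, (w : GK b K) ∈ Gh b 𝔫 v r s h' := fun w hw => hw.1
  refine ⟨w₀, w₀', hw, hψ, La2 (Gh b 𝔫 v r s h) (Gh b 𝔫 v r s h') (HU b K) γ ⊓ (Gh b 𝔫 v r s (h' * (w₀ : GK b K)⁻¹)).subgroupOf (HU b K),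
    La2 (Gh b 𝔫 v r s h) (Gh b 𝔫 v r s h') (HU b K) γ ⊓ (Gh b 𝔫 v r s (h' * (w₀ : GK b K))).subgroupOf (HU b K), inf_le_left, inf_le_left,
    m6_idx b h0 v r s h' _ _ hLa, m6_idx b h0 v r s h' _ _ hLa, fun w => ?_⟩
  have e1 : γ * ((w₀ * w * w₀⁻¹ : HU b K) : GK b K) * γ⁻¹ = (w₀' : GK b K) * (γ * (w : GK b K) * γ⁻¹) * (w₀' : GK b K)⁻¹ := by
    have e2 : γ * (w₀ : GK b K) * γ⁻¹ = (w₀' : GK b K) := by rw [hw]; group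
    have e3 : (w₀' : GK b K)⁻¹ = γ * (w₀ : GK b K)⁻¹ * γ⁻¹ := by rw [← e2]; group
    rw [e3, ← e2]
    simp only [Subgroup.coe_mul, Subgroup.coe_inv]
    group
  have e4 : (w₀ : GK b K)⁻¹ * ((w₀ * w * w₀⁻¹ : HU b K) : GK b K) * (w₀ : GK b K)⁻¹⁻¹ = (w : GK b K) := by
    simp only [Subgroup.coe_mul, Subgroup.coe_inv]
    group
  have e5 : ((w₀ * w * w₀⁻¹ : HU b K) : GK b K) = (w₀ : GK b K) * (w : GK b K) * (w₀ : GK b K)⁻¹ := by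
    simp only [Subgroup.coe_mul, Subgroup.coe_inv]
  constructor
  · intro hm
    obtain ⟨⟨h1, h2⟩, h3⟩ := Subgroup.mem_inf.1 hm
    rw [Subgroup.mem_subgroupOf, m6_mem] at h3
    refine Subgroup.mem_inf.2 ⟨⟨?_, ?_, ?_⟩, ?_⟩
    · rw [e5]
      exact h3
    · exact m7_conj b hγ (by rw [e5]; exact h3)
    · rw [e1]
      exact Subgroup.mul_mem _ (Subgroup.mul_mem _ w₀'.2 h2.2) (Subgroup.inv_mem _ w₀'.2)
    · rw [Subgroup.mem_subgroupOf, m6_mem, e4]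
      exact h1
  · intro hm
    obtain ⟨⟨h1, h2⟩, h3⟩ := Subgroup.mem_inf.1 hm
    rw [Subgroup.mem_subgroupOf, m6_mem, e4] at h3
    refine Subgroup.mem_inf.2 ⟨⟨h3, ?_, ?_⟩, ?_⟩
    · exact m7_conj b hγ h3
    · have h4 := h2.2
      rw [e1] at h4
      have h5 : γ * (w : GK b K) * γ⁻¹ = (w₀' : GK b K)⁻¹ * ((w₀' : GK b K) * (γ * (w : GK b K) * γ⁻¹) * (w₀' : GK b K)⁻¹) * (w₀' : GK b K) := by
        group
      rw [h5]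
      exact Subgroup.mul_mem _ (Subgroup.mul_mem _ (Subgroup.inv_mem _ w₀'.2) h4) w₀'.2
    · rw [Subgroup.mem_subgroupOf, m6_mem, ← e5]
      exact h1

end

end Pool.Agent.Lib.L1S
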