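import Pool.Agent.Lib.L1S.R0

/-!
# L1S, module R (arithmetic), R1A: heights, pairings and weights
-/

namespace Pool.Agent.Lib.L1S

open MeasureTheory Matrix NumberField IsDedekindDomain Pool.Agent.Lib.H89N Pool.Agent.Lib.H33W
open scoped ENNReal Pointwise

noncomputable section

set_option linter.unusedSectionVars false

variable {ι M N : Type} [Fintype ι] [DecidableEq ι] [AddCommGroup M] [Module ℚ M] [AddCommGroup N] [Module ℚ N]
  {P : RootPairing ι ℚ M N} [P.IsCrystallographic] [P.IsRootSystem] {b : P.Base} {K : Type} [Field K] [NumberField K]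

/-- The height of a root is the sum of its coefficients. -/
theorem r1a_height (γ : ι) : ((b.height γ : ℤ) : ℚ) = ∑ j, b.toWeightBasis.repr (P.root γ) j := by
  obtain ⟨f, -, -, hf⟩ := b.exists_root_eq_sum_int γ
  rw [RootPairing.Base.height_eq_sum hf, hf]
  rw [map_sum]
  have h1 : ∀ j : b.support, b.toWeightBasis.repr (P.root j) = Finsupp.single j 1 :=
    fun j => b.toWeightBasis_repr_root j
  have h2 : ∑ j ∈ b.support, b.toWeightBasis.repr (f j • P.root j) =
      ∑ j : b.support, Finsupp.single j ((f j : ℤ) : ℚ) := by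
    rw [← Finset.sum_coe_sort b.support]
    refine Finset.sum_congr rfl fun j _ => ?_
    rw [← Int.cast_smul_eq_zsmul ℚ, map_smul, h1, Finsupp.smul_single, smul_eq_mul, mul_one]
  rw [h2]
  have h3 : ∀ j : b.support, (∑ i : b.support, Finsupp.single i ((f i : ℤ) : ℚ)) j = ((f j : ℤ) : ℚ) := by
    intro j
    rw [Finsupp.finsetSum_apply, Finset.sum_eq_single j]
    · rw [Finsupp.single_eq_same]
    · intro i _ hij
      exact Finsupp.single_eq_of_ne hij.symm
    · intro h
      exact absurd (Finset.mem_univ j) h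
  simp only [h3]
  rw [Int.cast_sum, ← Finset.sum_coe_sort b.support]

theorem r1a_ht (r : I b) : ((ht b r : ℤ) : ℚ) = ∑ j, b.toWeightBasis.repr (wtR b r) j := by
  rcases r with i | γ
  · simp [ht, wtR]
  · exact r1a_height γ

/-- The linear functional of the coweight. -/
def r1a_L (b : P.Base) (c' : b.support → ℤ) : M →ₗ[ℚ] ℚ :=
  ∑ j : b.support, (c' j : ℚ) • P.toLinearMap.flip (P.coroot j)

theorem r1a_L_root (c' : b.support → ℤ) (β : ι) : ((pr b c' (Sum.inr β) : ℤ) : ℚ) = r1a_L b c' (P.root β) := by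
  have h1 : r1a_L b c' (P.root β) = ∑ j : b.support, (c' j : ℚ) * P.pairing β j := by
    unfold r1a_L
    rw [LinearMap.sum_apply]
    rfl
  rw [h1]
  have h2 : pr b c' (Sum.inr β) = ∑ j, c' j * P.pairingIn ℤ β j := rfl
  rw [h2, Int.cast_sum]
  refine Finset.sum_congr rfl fun j _ => ?_
  rw [Int.cast_mul, ← P.algebraMap_pairingIn ℤ β j]
  rfl

theorem r1a_L_wt (c' : b.support → ℤ) (r : I b) : ((pr b c' r : ℤ) : ℚ) = r1a_L b c' (wtR b r) := by
  rcases r with i | γ
  · have h1 : pr b c' (Sum.inl i) = 0 := rfl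
    have h2 : wtR b (Sum.inl i) = 0 := rfl
    rw [h1, h2, map_zero, Int.cast_zero]
  · exact r1a_L_root c' γ

theorem r1a_wq (r : I b) (k : b.support) : wq b r k = b.toWeightBasis.repr (wtR b r) k := by
  rcases r with i | γ
  · have h1 : wq b (Sum.inl i) k = 0 := rfl
    have h2 : wtR b (Sum.inl i) = 0 := rfl
    rw [h1, h2, map_zero, Finsupp.zero_apply]
  · rfl

theorem r1a_expand (c' : b.support → ℤ) (r : I b) :
    ((pr b c' r : ℤ) : ℚ) = ∑ k : b.support, wq b r k * ((pr b c' (Sum.inr k) : ℤ) : ℚ) := by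
  rw [r1a_L_wt]
  conv_lhs => rw [← b.toWeightBasis.sum_repr (wtR b r)]
  rw [map_sum]
  refine Finset.sum_congr rfl fun k _ => ?_
  rw [map_smul, smul_eq_mul, r1a_wq, b.toWeightBasis_apply, r1a_L_root]

/-- PROOF. `ht b r` is the value of the linear functional `Λ : M → ℚ`, the sum of the coordinates in `b.toWeightBasis`, on `wtR b r` (both for `inl` and `inr`): `(b.height β : ℚ) = ∑ k, b.toWeightBasis.repr (P.root β) k` (see Lib/L1S/D1.lean .. D3.lean, DC0.lean, B1.lean, or `b.height`, `RootPairing.Base.height_eq_sum`: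
`P.root β = ∑ f_j • P.root j` with integral `f`, unique coefficients). The claim is linear; it is an equality of integers, cast to `ℚ`. -/
theorem r1_ht {r c : I b} {k : ℕ} {β : ι} (h : wtR b r = wtR b c + k • P.root β) : ht b r = ht b c + k * b.height β := by
  have h1 : ((ht b r : ℤ) : ℚ) = ((ht b c : ℤ) : ℚ) + k * ((b.height β : ℤ) : ℚ) := by
    rw [r1a_ht, r1a_ht, r1a_height, h, Finset.mul_sum, ← Finset.sum_add_distrib]
    refine Finset.sum_congr rfl fun j _ => ?_
    rw [map_add, Finsupp.add_apply, ← Nat.cast_smul_eq_nsmul ℚ, map_smul, Finsupp.smul_apply,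
      smul_eq_mul]
  exact_mod_cast h1

/-- PROOF. `(P.pairingIn ℤ β j : ℚ) = P.pairing β j = P.toLinearMap (P.root β) (P.coroot j)` (`P.algebraMap_pairingIn ℤ β j`, `P.root_coroot_eq_pairing`): `pr b c' r` is the value of the linear functional `x ↦ ∑ c'_j ⟨x, α_j^∨⟩` on `wtR b r`. -/
theorem r1_pr (c' : b.support → ℤ) {r c : I b} {k : ℕ} {β : ι} (h : wtR b r = wtR b c + k • P.root β) : pr b c' r = pr b c' c + k * pr b c' (Sum.inr β) := by
  have h1 : ((pr b c' r : ℤ) : ℚ) = ((pr b c' c : ℤ) : ℚ) + k * ((pr b c' (Sum.inr β) : ℤ) : ℚ) := by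
    rw [r1a_L_wt, r1a_L_wt, r1a_L_root, h, map_add, map_nsmul, nsmul_eq_mul]
  exact_mod_cast h1

theorem r1_pr_neg (c' : b.support → ℤ) (β : ι) : pr b c' (Sum.inr (P.reflectionPerm β β)) = -pr b c' (Sum.inr β) := by
  have h0 : P.root (P.reflectionPerm β β) = -P.root β := by simp
  have h1 : ((pr b c' (Sum.inr (P.reflectionPerm β β)) : ℤ) : ℚ) = -((pr b c' (Sum.inr β) : ℤ) : ℚ) := by
    rw [r1a_L_root, r1a_L_root, h0, map_neg]
  exact_mod_cast h1

/-- PROOF. With the same linear functional `Λ`: `(pr b c' r : ℚ) = Λ (wtR b r) = ∑ k, wq b r k * Λ (P.root k)` (`b.toWeightBasis.sum_repr`, `b.toWeightBasis_apply`) and `Λ (P.root k) = pr b c' (inr k) ≥ 0`. -/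
theorem r1_pr_mono {c' : b.support → ℤ} (hd : ∀ i : b.support, 0 ≤ pr b c' (Sum.inr i)) {r c : I b} (h : ∀ k, wq b c k ≤ wq b r k) : pr b c' c ≤ pr b c' r := by
  have h1 : ((pr b c' c : ℤ) : ℚ) ≤ ((pr b c' r : ℤ) : ℚ) := by
    rw [r1a_expand c' c, r1a_expand c' r]
    refine Finset.sum_le_sum fun k _ => mul_le_mul_of_nonneg_right (h k) ?_
    exact_mod_cast hd k
  exact_mod_cast h1

/-- PROOF. As `r1_pr_mono`: the coefficients of a positive root are nonnegative (`b.IsPos`, `b.height` > 0; `b.root_mem_or_neg_mem`). -/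
theorem r1_pr_pos {c' : b.support → ℤ} (hd : ∀ i : b.support, 0 ≤ pr b c' (Sum.inr i)) {β : ι} (hβ : β ∈ Pos b) : 0 ≤ pr b c' (Sum.inr β) := by
  have hpos : b.IsPos β := (Finset.mem_filter.1 hβ).2
  refine hpos.induction_on_add (p := fun β => 0 ≤ pr b c' (Sum.inr β)) ?_ ?_
  · intro i hi
    exact hd ⟨i, hi⟩
  · intro i j l hl hi hj
    have h1 : ((pr b c' (Sum.inr l) : ℤ) : ℚ) = ((pr b c' (Sum.inr i) : ℤ) : ℚ) + ((pr b c' (Sum.inr j) : ℤ) : ℚ) := by
      rw [r1a_L_root, r1a_L_root, r1a_L_root, hl, map_add]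
    have h2 : pr b c' (Sum.inr l) = pr b c' (Sum.inr i) + pr b c' (Sum.inr j) := by exact_mod_cast h1
    rw [h2]
    exact add_nonneg hi (hd ⟨j, hj⟩)

/-- PROOF. `P.root β` is a nonnegative combination of the simple roots. -/
theorem r1_A_pos {A : M →ₗ[ℚ] ℝ} (hA : ∀ i : b.support, 0 ≤ A (P.root i)) {β : ι} (hβ : β ∈ Pos b) : 0 ≤ A (P.root β) := by
  have hpos : b.IsPos β := (Finset.mem_filter.1 hβ).2
  refine hpos.induction_on_add (p := fun β => 0 ≤ A (P.root β)) ?_ ?_
  · intro i hi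
    exact hA ⟨i, hi⟩
  · intro i j l hl hi hj
    rw [hl, map_add]
    exact add_nonneg hi (hA ⟨j, hj⟩)

end

end Pool.Agent.Lib.L1S
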