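import Pool.Agent.Lib.L1S.R0

/-!
# L1S, module R (arithmetic), R1B: the filtration `FK`, `FR`
-/

namespace Pool.Agent.Lib.L1S

open MeasureTheory Matrix NumberField IsDedekindDomain Pool.Agent.Lib.H89N Pool.Agent.Lib.H33W
open scoped ENNReal Pointwise

noncomputable section

set_option linter.unusedSectionVars false

variable {ι M N : Type} [Fintype ι] [DecidableEq ι] [AddCommGroup M] [Module ℚ M] [AddCommGroup N] [Module ℚ N]
  {P : RootPairing ι ℚ M N} [P.IsCrystallographic] [P.IsRootSystem] {b : P.Base} {K : Type} [Field K] [NumberField K]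

/-- The heights are bounded: the entries of a matrix in `Rs (HM b + 1)` are those of `1`. -/
def HM (b : P.Base) : ℕ := 2 * Finset.univ.sup fun β => (b.height β).natAbs

theorem r1b_ht (r : I b) : (ht b r).natAbs ≤ Finset.univ.sup fun β => (b.height β).natAbs := by
  rcases r with j | β
  · exact Nat.zero_le _
  · exact Finset.le_sup (f := fun β => (b.height β).natAbs) (Finset.mem_univ β)

theorem r1b_one (r c : I b) : mixedEmbedding K ((1 : Matrix (I b) (I b) K) r c) = (1 : Matrix (I b) (I b) (EE K)) r c := by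
  by_cases h : r = c
  · subst h
    rw [Matrix.one_apply_eq, Matrix.one_apply_eq, map_one]
  · rw [Matrix.one_apply_ne h, Matrix.one_apply_ne h, map_zero]

theorem r1b_rs {k : ℕ} (g : GK b K) : Rs b k (emb b K g).1.1 ↔ Rs b k g.1.1 := by
  have e : ∀ r c, (emb b K g).1.1 r c = mixedEmbedding K (g.1.1 r c) := fun _ _ => rfl
  constructor
  · intro h r c hrc
    have h1 := h r c hrc
    rw [e, ← r1b_one] at h1
    exact (mixedEmbedding K).injective h1
  · intro h r c hrc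
    rw [e, h r c hrc, r1b_one]

theorem r1b_inv {k : ℕ} (g : GK b K) : Rs b k (emb b K g)⁻¹.1.1 ↔ Rs b k g⁻¹.1.1 := by
  rw [← map_inv]
  exact r1b_rs g⁻¹

/-- PROOF. `|ht b r| ≤ HM b / 2` for all `r`, so `ht b r < ht b c + (HM b + 1)`. -/
theorem r1_HM {R : Type} [CommRing R] {g : Matrix (I b) (I b) R} (h : Rs b (HM b + 1) g) : g = 1 := by
  refine Matrix.ext fun r c => h r c ?_
  have h1 := r1b_ht r
  have h2 := r1b_ht c
  have h3 : HM b = 2 * Finset.univ.sup fun β => (b.height β).natAbs := rfl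
  push_cast
  omega

theorem r1_FK_bot : FK b K (HM b + 1) = ⊥ := by
  rw [eq_bot_iff]
  intro g hg
  rw [Subgroup.mem_bot]
  exact Subtype.ext (Units.ext (r1_HM hg.1))

theorem r1_FR_bot : FR b K (HM b + 1) = ⊥ := by
  rw [eq_bot_iff]
  intro g hg
  rw [Subgroup.mem_bot]
  exact Subtype.ext (Subtype.ext (Units.ext (r1_HM hg.1)))

/-- PROOF. `g ∈ HU` means `emb g ∈ UR`: the entries of `mixedEmbedding (g r c)`; `mixedEmbedding` is injective (`mixedEmbedding_injective`); `ht r < ht c + 1 ↔ ht r ≤ ht c`. -/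
theorem r1_HU : HU b K = FK b K 1 := by
  ext g
  have key : ∀ x : Matrix (I b) (I b) (EE K), Rs b 1 x ↔ ∀ r c, ht b r ≤ ht b c → x r c = (1 : Matrix (I b) (I b) (EE K)) r c :=
    fun x => ⟨fun h r c hrc => h r c (by push_cast; omega), fun h r c hrc => h r c (by push_cast at hrc; omega)⟩
  constructor
  · intro h
    have h' : emb b K g ∈ UR b K := h
    exact ⟨(r1b_rs g).1 ((key _).2 fun r c hrc => (h' r c hrc).1), (r1b_inv g).1 ((key _).2 fun r c hrc => (h' r c hrc).2)⟩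
  · rintro ⟨h1, h2⟩
    show emb b K g ∈ UR b K
    exact fun r c hrc => ⟨(key _).1 ((r1b_rs g).2 h1) r c hrc, (key _).1 ((r1b_inv g).2 h2) r c hrc⟩

theorem r1_FR_top : FR b K 1 = ⊤ := by
  rw [eq_top_iff]
  intro g _
  exact ⟨fun r c hrc => (g.2 r c (by push_cast at hrc; omega)).1, fun r c hrc => (g.2 r c (by push_cast at hrc; omega)).2⟩

/-- The filtration is decreasing. -/
theorem r1_FK_mono {k l : ℕ} (h : k ≤ l) : FK b K l ≤ FK b K k :=
  fun _ hg => ⟨hg.1.mono h, hg.2.mono h⟩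

/-- PROOF. As `r1_HU`. -/
theorem r1_kU {k : ℕ} (δ : HU b K) : kU b K δ ∈ FR b K k ↔ (δ : GK b K) ∈ FK b K k := by
  constructor
  · rintro ⟨h1, h2⟩
    exact ⟨(r1b_rs δ.1).1 h1, (r1b_inv δ.1).1 h2⟩
  · rintro ⟨h1, h2⟩
    exact ⟨(r1b_rs δ.1).2 h1, (r1b_inv δ.1).2 h2⟩

/-- PROOF. The entries of `kU δ` are the images of the entries of `δ`. -/
theorem r1_dgk {k : ℕ} (δ : HU b K) : dgk b k (kU b K δ).1.1.1 = (dgk b k (δ : GK b K).1.1).map (mixedEmbedding K) := by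
  refine Matrix.ext fun r c => ?_
  have e : (kU b K δ).1.1.1 r c = mixedEmbedding K ((δ : GK b K).1.1 r c) := rfl
  unfold dgk
  rw [Matrix.map_apply, Matrix.of_apply, Matrix.of_apply]
  split_ifs with h
  · exact e
  · rw [map_zero]

/-- PROOF. `dgk_mul`, `dgk_one` for `g * g⁻¹ = 1`. -/
theorem r1_dgk_inv {k : ℕ} (hk : 1 ≤ k) {g : GK b K} (hg : g ∈ FK b K k) : dgk b k g⁻¹.1.1 = -dgk b k g.1.1 := by
  have h1 := dgk_mul hk hg.1 hg.2
  have e : g.1.1 * g⁻¹.1.1 = 1 := congrArg (fun x : GK b K => x.1.1) (mul_inv_cancel g)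
  rw [e, dgk_one hk] at h1
  exact (neg_eq_of_add_eq_zero_right h1.symm).symm

/-- PROOF. `rs_succ` for `g` and `g⁻¹` (`r1_dgk_inv`). -/
theorem r1_succ {k : ℕ} (hk : 1 ≤ k) (g : GK b K) : g ∈ FK b K (k + 1) ↔ g ∈ FK b K k ∧ dgk b k g.1.1 = 0 := by
  constructor
  · rintro ⟨h1, h2⟩
    exact ⟨⟨((rs_succ hk).1 h1).1, ((rs_succ hk).1 h2).1⟩, ((rs_succ hk).1 h1).2⟩
  · rintro ⟨h1, h2⟩
    exact ⟨(rs_succ hk).2 ⟨h1.1, h2⟩, (rs_succ hk).2 ⟨h1.2, by rw [r1_dgk_inv hk h1, h2, neg_zero]⟩⟩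

/-- The same for `U(K ⊗ ℝ)`. -/
theorem r1_succR {k : ℕ} (hk : 1 ≤ k) (g : UR b K) : g ∈ FR b K (k + 1) ↔ g ∈ FR b K k ∧ dgk b k g.1.1.1 = 0 := by
  have hinv : g ∈ FR b K k → dgk b k g⁻¹.1.1.1 = -dgk b k g.1.1.1 := by
    intro hg
    have h1 := dgk_mul hk hg.1 hg.2
    have e : g.1.1.1 * g⁻¹.1.1.1 = 1 := congrArg (fun x : UR b K => x.1.1.1) (mul_inv_cancel g)
    rw [e, dgk_one hk] at h1
    exact (neg_eq_of_add_eq_zero_right h1.symm).symm
  constructor
  · rintro ⟨h1, h2⟩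
    exact ⟨⟨((rs_succ hk).1 h1).1, ((rs_succ hk).1 h2).1⟩, ((rs_succ hk).1 h1).2⟩
  · rintro ⟨h1, h2⟩
    exact ⟨(rs_succ hk).2 ⟨h1.1, h2⟩, (rs_succ hk).2 ⟨h1.2, by rw [hinv h1, h2, neg_zero]⟩⟩

theorem r1_mem_posk {β : ι} {k : ℕ} : β ∈ Posk b k ↔ β ∈ Pos b ∧ b.height β = k := by
  simp [Posk, Pos]

/-- PROOF. The positive roots, sorted by height: `Finset.prod_fiberwise_of_maps_to`; every positive root has its height in `[1, HM b]`. -/
theorem r1_prod {A : Type} [CommMonoid A] (f : ι → A) : ∏ k ∈ Finset.Icc 1 (HM b), ∏ β ∈ Posk b k, f β = ∏ β ∈ Pos b, f β := by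
  rw [← Finset.prod_fiberwise_of_maps_to (s := Pos b) (t := Finset.Icc 1 (HM b)) (g := fun β => (b.height β).toNat)]
  · refine Finset.prod_congr rfl fun k hk => Finset.prod_congr ?_ fun _ _ => rfl
    have hk1 := (Finset.mem_Icc.1 hk).1
    ext β
    rw [r1_mem_posk, Finset.mem_filter]
    constructor
    · rintro ⟨h1, h2⟩
      exact ⟨h1, by omega⟩
    · rintro ⟨h1, h2⟩
      exact ⟨h1, by omega⟩
  · intro β hβ
    have h1 := r1b_ht (b := b) (Sum.inr β)
    have h2 : ht b (Sum.inr β) = b.height β := rfl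
    have h3 : HM b = 2 * Finset.univ.sup fun β => (b.height β).natAbs := rfl
    have h4 : 0 < b.height β := by
      have := hβ
      unfold Pos at this
      exact (Finset.mem_filter.1 this).2
    rw [h2] at h1
    rw [Finset.mem_Icc]
    omega

end

end Pool.Agent.Lib.L1S
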