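import Pool.Agent.Lib.L1S.R0
import Pool.Agent.Lib.L1S.R1A
import Pool.Agent.Lib.L1S.R1B

/-!
# L1S, module R (arithmetic), R5C: the functional `cf β`
-/

namespace Pool.Agent.Lib.L1S

open MeasureTheory Matrix NumberField IsDedekindDomain Pool.Agent.Lib.H89N Pool.Agent.Lib.H33W
open scoped ENNReal Pointwise

noncomputable section

set_option linter.unusedSectionVars false

variable {ι M N : Type} [Fintype ι] [DecidableEq ι] [AddCommGroup M] [Module ℚ M] [AddCommGroup N] [Module ℚ N]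
  {P : RootPairing ι ℚ M N} [P.IsCrystallographic] [P.IsRootSystem] {b : P.Base} {K : Type} [Field K] [NumberField K]

theorem r5c_add (L : LieD b K) {R : Type} [CommRing R] (β : ι) (X Y : Matrix (I b) (I b) R) : L.cf β (X + Y) = L.cf β X + L.cf β Y := by
  unfold LieD.cf
  rw [← Finset.sum_add_distrib]
  exact Finset.sum_congr rfl fun j _ => by rw [Matrix.add_apply, mul_add]

theorem r5c_smul (L : LieD b K) {R : Type} [CommRing R] (β : ι) (a : R) (X : Matrix (I b) (I b) R) : L.cf β (a • X) = a * L.cf β X := by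
  unfold LieD.cf
  rw [Finset.mul_sum]
  exact Finset.sum_congr rfl fun j _ => by rw [Matrix.smul_apply, smul_eq_mul]; ring

theorem r5c_zero (L : LieD b K) {R : Type} [CommRing R] (β : ι) : L.cf β (0 : Matrix (I b) (I b) R) = 0 := by
  unfold LieD.cf
  exact Finset.sum_eq_zero fun j _ => by rw [Matrix.zero_apply, mul_zero]

theorem r5c_sum (L : LieD b K) {R : Type} [CommRing R] (β : ι) {A : Type} (s : Finset A) (X : A → Matrix (I b) (I b) R) : L.cf β (∑ a ∈ s, X a) = ∑ a ∈ s, L.cf β (X a) := by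
  classical
  induction s using Finset.induction_on with
  | empty => rw [Finset.sum_empty, Finset.sum_empty, r5c_zero]
  | insert a s ha ih => rw [Finset.sum_insert ha, Finset.sum_insert ha, r5c_add, ih]

/-- PROOF. The entry `(inl j, inr (-β))` of `E_γ` is zero unless `0 = -β + γ` (`supp`, `P.root` injective), and for `γ = β` this is `z1`. -/
theorem r5_cf (L : LieD b K) {R : Type} [CommRing R] {β γ : ι} (hβ : β ∈ Pos b) (hγ : γ ∈ Pos b) : L.cf β (L.E R γ) = if γ = β then 1 else 0 := by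
  have hneg : P.root (P.reflectionPerm β β) = -P.root β := by simp
  have hent : L.cf β (L.E R γ) = ((∑ j, L.z β j * L.DP γ 1 (Sum.inl j) (Sum.inr (P.reflectionPerm β β)) : ℤ) : R) := by
    rw [Int.cast_sum]
    refine Finset.sum_congr rfl fun j _ => ?_
    rw [Int.cast_mul]
    rfl
  rw [hent]
  by_cases h : γ = β
  · subst h
    rw [if_pos rfl, L.z1 γ hβ, Int.cast_one]
  · rw [if_neg h, Finset.sum_eq_zero, Int.cast_zero]
    intro j _
    by_contra hne
    have h1 : L.DP γ 1 (Sum.inl j) (Sum.inr (P.reflectionPerm β β)) ≠ 0 := fun h0 => hne (by rw [h0, mul_zero])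
    have h2 := L.supp γ hγ 1 _ _ h1
    have h3 : wtR b (Sum.inl j) = 0 := rfl
    have h4 : wtR b (Sum.inr (P.reflectionPerm β β)) = P.root (P.reflectionPerm β β) := rfl
    rw [h3, h4, hneg, one_smul] at h2
    exact h (P.root.injective (by rw [← sub_eq_zero, sub_eq_neg_add]; exact h2.symm))

theorem r5_cf_sum (L : LieD b K) {R : Type} [CommRing R] {β : ι} {k : ℕ} (hβ : β ∈ Posk b k) (y : ι → R) : L.cf β (∑ γ ∈ Posk b k, y γ • L.E R γ) = y β := by
  rw [r5c_sum]
  have h1 : ∀ γ ∈ Posk b k, L.cf β (y γ • L.E R γ) = if γ = β then y γ else 0 := by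
    intro γ hγ
    rw [r5c_smul, r5_cf L (r1_mem_posk.1 hβ).1 (r1_mem_posk.1 hγ).1]
    split_ifs
    · rw [mul_one]
    · rw [mul_zero]
  rw [Finset.sum_congr rfl h1, Finset.sum_ite_eq' (Posk b k) β y, if_pos hβ]

/-- PROOF. `cf β` uses the entries `(inl j, inr (-β))`, of heights `0` and `-height β`, which are entries of the part of degree `k = height β`. -/
theorem r5_cf_dgk (L : LieD b K) {R : Type} [CommRing R] {β : ι} {k : ℕ} (hβ : β ∈ Posk b k) (g : Matrix (I b) (I b) R) : L.cf β (dgk b k g) = L.cf β g := by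
  unfold LieD.cf
  refine Finset.sum_congr rfl fun j _ => ?_
  have h1 : b.height (P.reflectionPerm β β) = -b.height β := b.height_reflectionPerm_self β
  have h2 : ht b (Sum.inl j) = ht b (Sum.inr (P.reflectionPerm β β)) + k := by
    have h3 : ht b (Sum.inl j) = 0 := rfl
    have h4 : ht b (Sum.inr (P.reflectionPerm β β)) = b.height (P.reflectionPerm β β) := rfl
    rw [h3, h4, h1, (r1_mem_posk.1 hβ).2]
    omega
  unfold dgk
  rw [Matrix.of_apply, if_pos h2]

/-- PROOF. `L.degK` (and `r1_HU`, `r1_FK_mono`), `r5_cf_sum`, `r5_cf_dgk`. -/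
theorem r5_degK (L : LieD b K) {k : ℕ} (hk : 1 ≤ k) {g : GK b K} (hg : g ∈ FK b K k) : dgk b k g.1.1 = ∑ β ∈ Posk b k, L.cf β g.1.1 • L.E K β := by
  have h1 : g ∈ HU b K := by
    rw [r1_HU]
    exact r1_FK_mono hk hg
  obtain ⟨y, hy⟩ := L.degK g h1 k hk hg.1
  rw [hy]
  refine Finset.sum_congr rfl fun β hβ => ?_
  rw [← r5_cf_dgk L hβ g.1.1, hy]
  have h2 : L.cf β (∑ γ ∈ Posk b k, y γ • L.E K γ) = y β := r5_cf_sum L hβ y
  have h3 : (∑ γ ∈ Posk b k, y γ • (L.DP γ 1).map (Int.cast : ℤ → K)) = ∑ γ ∈ Posk b k, y γ • L.E K γ := rfl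
  rw [h3, h2]
  rfl

/-- PROOF. `L.degE`, `r5_cf_sum`, `r5_cf_dgk`. -/
theorem r5_degE (L : LieD b K) {k : ℕ} (hk : 1 ≤ k) {g : UR b K} (hg : g ∈ FR b K k) : dgk b k g.1.1.1 = ∑ β ∈ Posk b k, L.cf β g.1.1.1 • L.E (EE K) β := by
  obtain ⟨y, hy⟩ := L.degE g.1 g.2 k hk hg.1
  rw [hy]
  refine Finset.sum_congr rfl fun β hβ => ?_
  rw [← r5_cf_dgk L hβ g.1.1.1, hy]
  have h2 : L.cf β (∑ γ ∈ Posk b k, y γ • L.E (EE K) γ) = y β := r5_cf_sum L hβ y
  have h3 : (∑ γ ∈ Posk b k, y γ • (L.DP γ 1).map (Int.cast : ℤ → EE K)) = ∑ γ ∈ Posk b k, y γ • L.E (EE K) γ := rfl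
  rw [h3, h2]
  rfl

/-- PROOF. `cf β g` is an integral combination of the entries `(inl j, inr (-β))` of `g`, which are entries of `g - 1`. -/
theorem r5_cf_InI (L : LieD b K) (β : ι) {𝔫 : Ideal (𝓞 K)} {g : Matrix (I b) (I b) K} (h : ∀ i j, Pool.Agent.Lib.L1S.InI 𝔫 ((g - 1) i j)) : Pool.Agent.Lib.L1S.InI 𝔫 (L.cf β g) := by
  unfold LieD.cf
  refine InI.sum _ _ fun j _ => ?_
  have h1 : g (Sum.inl j) (Sum.inr (P.reflectionPerm β β)) = (g - 1) (Sum.inl j) (Sum.inr (P.reflectionPerm β β)) := by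
    rw [Matrix.sub_apply, Matrix.one_apply_ne (by simp), sub_zero]
  rw [h1]
  exact InI.mul' ⟨(L.z β j : 𝓞 K), Submodule.mem_top, by simp⟩ (h _ _)

end

end Pool.Agent.Lib.L1S
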