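import Pool.Agent.Lib.L1S.DC0

/-!
# L1S, module R (arithmetic), R2A: valuations and ideals
-/

namespace Pool.Agent.Lib.L1S

open MeasureTheory Matrix NumberField IsDedekindDomain Pool.Agent.Lib.H89N Pool.Agent.Lib.H33W
open scoped ENNReal Pointwise

noncomputable section

set_option linter.unusedSectionVars false

variable {ι M N : Type} [Fintype ι] [DecidableEq ι] [AddCommGroup M] [Module ℚ M] [AddCommGroup N] [Module ℚ N]
  {P : RootPairing ι ℚ M N} [P.IsCrystallographic] [P.IsRootSystem] {b : P.Base} {K : Type} [Field K] [NumberField K]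

/-- PROOF. `obtain ⟨R, _, _, _, _, ϖ, hloc⟩ := exists_loc v` and `H67G.g1_in`; `v.valuation K x ≤ 1` gives `In R x`: write `x = a / b` with `a, b ∈ 𝓞`, or: `x` is integral at `v`: `In R x` iff `v.valuation K x ≤ 1`. Alternatively directly: `x ∈ 𝓞` because `x` is integral at every place (`IsDedekindDomain.HeightOneSpectrum.mem_integers_of_valuation_le_one`; at
`w ≠ v` choose `z ∈ v ^ j`, `z ∉ w`: `z x ∈ 𝔫 ⊆ 𝓞`), and then `v ^ j x ⊆ 𝔫`, `v ^ j + 𝔫 = 𝓞` give `x ∈ 𝔫` (`H33W.h3_cop`). (Perhaps already in Lib/L1S/D2.lean, D3.lean, DC0.lean: use it.) -/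
theorem r2_in {𝔫 : Ideal (𝓞 K)} {v : HeightOneSpectrum (𝓞 K)} (hv : ¬𝔫 ≤ v.asIdeal) {j : ℕ} {x : K} (h : Den 𝔫 v j x) (h1 : v.valuation K x ≤ 1) : Pool.Agent.Lib.L1S.InI 𝔫 x := by
  exact dc0_glob (by rintro rfl; exact hv bot_le) hv h h1

/-- PROOF. `v.valuation_le_one`, for an algebraic integer. -/
theorem r2_val {v : HeightOneSpectrum (𝓞 K)} {x : K} (h : Pool.Agent.Lib.L1S.InI (⊤ : Ideal (𝓞 K)) x) : v.valuation K x ≤ 1 := by
  exact dc0_int_one h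

/-- PROOF. `HeightOneSpectrum.valuation_of_algebraMap`, `intValuation_le_pow_iff_dvd` / `intValuation_le_pow_iff_mem`. -/
theorem r2_pow {v : HeightOneSpectrum (𝓞 K)} {x : K} {m : ℕ} :
    Pool.Agent.Lib.L1S.InI (v.asIdeal ^ m) x ↔ Pool.Agent.Lib.L1S.InI ⊤ x ∧ v.valuation K x ≤ WithZero.exp (-(m : ℤ)) := by
  constructor
  · intro h
    exact ⟨h.top, dc0_int h⟩
  · rintro ⟨⟨y, _, rfl⟩, h2⟩
    have e : v.valuation K (y : K) = v.intValuation y := v.valuation_of_algebraMap (K := K) y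
    rw [e] at h2
    exact ⟨y, (v.intValuation_le_pow_iff_mem y m).1 h2, rfl⟩

/-- PROOF. `𝔫 v ^ m = 𝔫 ∩ v ^ m` (`Ideal.mul_eq_inf_of_coprime`; compare `H67G.g1_pow`) and `r2_pow`. -/
theorem r2_mul {𝔫 : Ideal (𝓞 K)} {v : HeightOneSpectrum (𝓞 K)} (hv : ¬𝔫 ≤ v.asIdeal) {x : K} {m : ℕ} :
    Pool.Agent.Lib.L1S.InI (𝔫 * v.asIdeal ^ m) x ↔ Pool.Agent.Lib.L1S.InI 𝔫 x ∧ v.valuation K x ≤ WithZero.exp (-(m : ℤ)) := by
  have hmax : v.asIdeal.IsMaximal := v.isMaximal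
  have h2 : 𝔫 ⊔ v.asIdeal = ⊤ := by
    refine hmax.1.2 _ (lt_of_le_of_ne le_sup_right fun h' => hv ?_)
    rw [h']
    exact le_sup_left
  have h3 : 𝔫 ⊔ v.asIdeal ^ m = ⊤ := by
    rw [← Ideal.isCoprime_iff_sup_eq] at h2 ⊢
    exact h2.pow_right
  constructor
  · rintro ⟨y, hy, rfl⟩
    exact ⟨⟨y, Ideal.mul_le_left hy, rfl⟩, dc0_int ⟨y, Ideal.mul_le_right hy, rfl⟩⟩
  · rintro ⟨⟨y, hy, rfl⟩, h4⟩
    have e : v.valuation K (y : K) = v.intValuation y := v.valuation_of_algebraMap (K := K) y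
    rw [e] at h4
    refine ⟨y, ?_, rfl⟩
    rw [Ideal.mul_eq_inf_of_coprime h3]
    exact ⟨hy, (v.intValuation_le_pow_iff_mem y m).1 h4⟩

/-- PROOF. `H89N.Den.of_int`. -/
theorem r2_den {𝔫 : Ideal (𝓞 K)} (v : HeightOneSpectrum (𝓞 K)) (j : ℕ) {x : K} (h : Pool.Agent.Lib.L1S.InI 𝔫 x) : Den 𝔫 v j x := by
  obtain ⟨y, hy, rfl⟩ := h
  exact Den.of_int hy j

end

end Pool.Agent.Lib.L1S
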