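import Pool.Agent.Lib.L1S.R0
import Pool.Agent.Lib.H89N.LD
import Pool.Agent.Lib.L1S.DC0

/-!
# L1S, module R (arithmetic), R3A: products in `IwL` and `HG`
-/

namespace Pool.Agent.Lib.L1S

open MeasureTheory Matrix NumberField IsDedekindDomain Pool.Agent.Lib.H89N Pool.Agent.Lib.H33W
open scoped ENNReal Pointwise

noncomputable section

set_option linter.unusedSectionVars false

variable {ι M N : Type} [Fintype ι] [DecidableEq ι] [AddCommGroup M] [Module ℚ M] [AddCommGroup N] [Module ℚ N]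
  {P : RootPairing ι ℚ M N} [P.IsCrystallographic] [P.IsRootSystem] {b : P.Base} {K : Type} [Field K] [NumberField K]

/-- PROOF. As `congr_mul` in Defs.lean, with valuations (`Valuation.map_sum_le`, `map_mul`): for `ht i < ht j` in `∑_m g i m * h m j` either `ht i < ht m` (then the first factor is small) or `ht m ≤ ht i < ht j`; for the diagonal blocks
`g h - 1 = (g - 1) h + (h - 1)` and `ht i = ht j`: `ht i < ht m`: `g i m` is small (`exp (-(r + s)) ≤ exp (-r)`); `ht m = ht i`: `(g - 1) i m` is small; `ht m < ht i = ht j`: `h m j` is small. (Perhaps already in Lib/L1S/DC0.lean or D3.lean: use it.) -/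
theorem r3_iw_mul {v : HeightOneSpectrum (𝓞 K)} {r s : ℕ} {g h : Matrix (I b) (I b) K} (hg : IwL b v r s g) (hh : IwL b v r s h) : IwL b v r s (g * h) := by
  exact hg.mul hh

/-- PROOF. `g h - 1 = (g - 1) (h - 1) + (g - 1) + (h - 1)` (and the same for the inverses), `Den.mul`, `Den.sum`, `Den.add`, `Den.mono`, `Den.le` (Lib/H89N/LD.lean). -/
theorem r3_HG_mul {𝔫 : Ideal (𝓞 K)} {v : HeightOneSpectrum (𝓞 K)} {g h : GK b K} (hg : g ∈ HG b 𝔫 v) (hh : h ∈ HG b 𝔫 v) : g * h ∈ HG b 𝔫 v := by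
  exact hg_mul hg hh

theorem r3_HG_inv {𝔫 : Ideal (𝓞 K)} {v : HeightOneSpectrum (𝓞 K)} {g : GK b K} (hg : g ∈ HG b 𝔫 v) : g⁻¹ ∈ HG b 𝔫 v := by
  obtain ⟨j, hj⟩ := hg
  exact ⟨j, fun r c => ⟨(hj r c).2, by rw [inv_inv]; exact (hj r c).1⟩⟩

end

end Pool.Agent.Lib.L1S
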