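import Pool.Agent.Lib.L1S.R0
import Pool.Agent.Lib.L1S.R2A
import Pool.Agent.Lib.L1S.R3A

/-!
# L1S, module R (arithmetic), R3B: the groups `Γ` and `h⁻¹ Γ h` by local conditions
-/

namespace Pool.Agent.Lib.L1S

open MeasureTheory Matrix NumberField IsDedekindDomain Pool.Agent.Lib.H89N Pool.Agent.Lib.H33W
open scoped ENNReal Pointwise

noncomputable section

set_option linter.unusedSectionVars false

variable {ι M N : Type} [Fintype ι] [DecidableEq ι] [AddCommGroup M] [Module ℚ M] [AddCommGroup N] [Module ℚ N]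
  {P : RootPairing ι ℚ M N} [P.IsCrystallographic] [P.IsRootSystem] {b : P.Base} {K : Type} [Field K] [NumberField K]

/-- The matrices `π ^ (-λ) g π ^ λ`. -/
def cj (b : P.Base) (c : b.support → ℤ) (π : K) (g : Matrix (I b) (I b) K) : Matrix (I b) (I b) K :=
  Matrix.diagonal (fun i => π ^ (-pr b c i)) * g * Matrix.diagonal fun i => π ^ pr b c i

theorem r3_cj {c : b.support → ℤ} {π : K} (hπ : π ≠ 0) (g : Matrix (I b) (I b) K) (i j : I b) : cj b c π g i j = π ^ (pr b c j - pr b c i) * g i j := by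
  unfold cj
  rw [Matrix.mul_diagonal, Matrix.diagonal_mul, zpow_sub₀ hπ, _root_.zpow_neg]
  field_simp

/-- PROOF. From `v.valuation K π = exp (-1)`. -/
theorem r3_val_zpow {v : HeightOneSpectrum (𝓞 K)} {π : K} (hπ : v.valuation K π = WithZero.exp (-1 : ℤ)) (m : ℤ) : v.valuation K (π ^ m) = WithZero.exp (-m) := by
  rw [map_zpow₀, hπ, ← WithZero.exp_zsmul]
  congr 1
  simp

theorem r3b_int {X : Matrix (I b) (I b) K} {i j : I b} (h : Pool.Agent.Lib.L1S.InI (⊤ : Ideal (𝓞 K)) ((X - 1) i j)) :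
    Pool.Agent.Lib.L1S.InI (⊤ : Ideal (𝓞 K)) (X i j) := by
  have e : X i j = (X - 1) i j + (1 : Matrix (I b) (I b) K) i j := by simp
  rw [e]
  refine h.add ?_
  by_cases h1 : i = j
  · subst h1
    rw [Matrix.one_apply_eq]
    exact ⟨1, Submodule.mem_top, by simp⟩
  · rw [Matrix.one_apply_ne h1]
    exact InI.zero _

theorem r3b_one_val (v : HeightOneSpectrum (𝓞 K)) (i j : I b) :
    v.valuation K ((1 : Matrix (I b) (I b) K) i j) ≤ 1 := by
  by_cases h1 : i = j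
  · subst h1
    rw [Matrix.one_apply_eq, map_one]
  · rw [Matrix.one_apply_ne h1, map_zero]
    exact zero_le_one

theorem r3b_fwd {𝔫 : Ideal (𝓞 K)} {v : HeightOneSpectrum (𝓞 K)} {r s : ℕ} {X : Matrix (I b) (I b) K}
    (h : ∀ i j, InI 𝔫 ((X - 1) i j) ∧ (ht b i < ht b j → InI (v.asIdeal ^ (r + s)) (X i j)) ∧
      (ht b i = ht b j → InI (v.asIdeal ^ r) ((X - 1) i j))) :
    (∀ i j, Den 𝔫 v 0 ((X - 1) i j)) ∧ IwL b v r s X := by
  refine ⟨fun i j => r2_den v 0 (h i j).1, fun i j => ⟨r2_val (r3b_int (h i j).1.top), fun hij => ?_, fun hij => ?_⟩⟩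
  · have h1 := (r2_pow.1 ((h i j).2.1 hij)).2
    push_cast at h1
    exact h1
  · exact (r2_pow.1 ((h i j).2.2 hij)).2

theorem r3b_bwd {𝔫 : Ideal (𝓞 K)} {v : HeightOneSpectrum (𝓞 K)} (hv : ¬𝔫 ≤ v.asIdeal) {r s m : ℕ}
    {X : Matrix (I b) (I b) K} (hD : ∀ i j, Den 𝔫 v m ((X - 1) i j)) (hX : IwL b v r s X) :
    ∀ i j, InI 𝔫 ((X - 1) i j) ∧ (ht b i < ht b j → InI (v.asIdeal ^ (r + s)) (X i j)) ∧
      (ht b i = ht b j → InI (v.asIdeal ^ r) ((X - 1) i j)) := by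
  intro i j
  have h1 : v.valuation K ((X - 1) i j) ≤ 1 := by
    rw [Matrix.sub_apply]
    exact (Valuation.map_sub _ _ _).trans (max_le (hX i j).1 (r3b_one_val v i j))
  have h2 : InI 𝔫 ((X - 1) i j) := r2_in hv (hD i j) h1
  refine ⟨h2, fun hij => ?_, fun hij => ?_⟩
  · refine r2_pow.2 ⟨r3b_int h2.top, ?_⟩
    have h3 := (hX i j).2.1 hij
    push_cast
    exact h3
  · exact r2_pow.2 ⟨h2.top, (hX i j).2.2 hij⟩

/-- PROOF. `r2_in`, `r2_val`, `r2_pow`, `r2_den` for the entries of `g - 1` and `g⁻¹ - 1` (an entry of `g` is the entry of `g - 1` plus `0` or `1`). For `ht i = ht j`: `InI (v ^ r) ((g - 1) i j)`. -/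
theorem r3_GamK {𝔫 : Ideal (𝓞 K)} {v : HeightOneSpectrum (𝓞 K)} (hv : ¬𝔫 ≤ v.asIdeal) {r s : ℕ} {g : GK b K} :
    g ∈ GamK b 𝔫 v r s ↔ g ∈ HG b 𝔫 v ∧ IwL b v r s g.1.1 ∧ IwL b v r s g⁻¹.1.1 := by
  constructor
  · intro hg
    obtain ⟨h1, h2⟩ := r3b_fwd (X := g.1.1) fun i j => (hg i j).1
    obtain ⟨h3, h4⟩ := r3b_fwd (X := g⁻¹.1.1) fun i j => (hg i j).2
    exact ⟨⟨0, fun i j => ⟨h1 i j, h3 i j⟩⟩, h2, h4⟩
  · rintro ⟨⟨m, hm⟩, h1, h2⟩ i j
    exact ⟨r3b_bwd hv (fun i j => (hm i j).1) h1 i j, r3b_bwd hv (fun i j => (hm i j).2) h2 i j⟩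

/-- PROOF. `k = h π ^ λ` (`h.1.1 * diagonal (π ^ pr)`) and `k' = π ^ (-λ) h⁻¹` are in `IwL` (`hL.hv`), `k k' = k' k = 1`, and `k' (h g h⁻¹) k = cj c π g`, `k (cj c π g) k' = h g h⁻¹`; the same for `g⁻¹`. `r3_GamK`, `r3_iw_mul`, `r3_HG_mul`, `r3_HG_inv`. `π ≠ 0` from `hL.hπ`. -/
theorem r3_Gh {𝔫 : Ideal (𝓞 K)} {v : HeightOneSpectrum (𝓞 K)} {r s : ℕ} {c : b.support → ℤ} {π : K} {h : GK b K} (hL : Lv b 𝔫 v r s c π h) {g : GK b K} :
    g ∈ Gh b 𝔫 v r s h ↔ g ∈ HG b 𝔫 v ∧ IwL b v r s (cj b c π g.1.1) ∧ IwL b v r s (cj b c π g⁻¹.1.1) := by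
  have hπ : π ≠ 0 := by
    rintro rfl
    have h1 := hL.hπ
    rw [map_zero] at h1
    exact WithZero.exp_ne_zero h1.symm
  obtain ⟨hk, hk'⟩ := hL.hv
  have hhi : h.1.1 * h⁻¹.1.1 = 1 := congrArg (fun x : GK b K => x.1.1) (mul_inv_cancel h)
  have hih : h⁻¹.1.1 * h.1.1 = 1 := congrArg (fun x : GK b K => x.1.1) (inv_mul_cancel h)
  have hDD : (Matrix.diagonal fun i => π ^ pr b c i) * (Matrix.diagonal fun i => π ^ (-pr b c i)) =
      (1 : Matrix (I b) (I b) K) := by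
    rw [Matrix.diagonal_mul_diagonal, ← Matrix.diagonal_one]
    congr 1
    funext i
    rw [← zpow_add₀ hπ, add_neg_cancel, zpow_zero]
  have key : ∀ X : Matrix (I b) (I b) K, IwL b v r s (h.1.1 * X * h⁻¹.1.1) ↔ IwL b v r s (cj b c π X) := by
    intro X
    constructor
    · intro hX
      have h1 := r3_iw_mul (r3_iw_mul hk' hX) hk
      have h2 : (Matrix.diagonal (fun i => π ^ (-pr b c i)) * h⁻¹.1.1) * (h.1.1 * X * h⁻¹.1.1) *
          (h.1.1 * Matrix.diagonal fun i => π ^ pr b c i) = cj b c π X := by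
        have h3 : (Matrix.diagonal (fun i => π ^ (-pr b c i)) * h⁻¹.1.1) * (h.1.1 * X * h⁻¹.1.1) *
          (h.1.1 * Matrix.diagonal fun i => π ^ pr b c i) =
          Matrix.diagonal (fun i => π ^ (-pr b c i)) * (h⁻¹.1.1 * h.1.1) * X * (h⁻¹.1.1 * h.1.1) *
            Matrix.diagonal fun i => π ^ pr b c i := by
          simp only [Matrix.mul_assoc]
        rw [h3, hih, Matrix.mul_one, Matrix.mul_one]
        rfl
      rw [h2] at h1
      exact h1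
    · intro hX
      have h1 := r3_iw_mul (r3_iw_mul hk hX) hk'
      have h2 : (h.1.1 * Matrix.diagonal fun i => π ^ pr b c i) * cj b c π X *
          (Matrix.diagonal (fun i => π ^ (-pr b c i)) * h⁻¹.1.1) = h.1.1 * X * h⁻¹.1.1 := by
        unfold cj
        have h3 : (h.1.1 * Matrix.diagonal fun i => π ^ pr b c i) *
            (Matrix.diagonal (fun i => π ^ (-pr b c i)) * X * Matrix.diagonal fun i => π ^ pr b c i) *
          (Matrix.diagonal (fun i => π ^ (-pr b c i)) * h⁻¹.1.1) =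
          h.1.1 * ((Matrix.diagonal fun i => π ^ pr b c i) * (Matrix.diagonal fun i => π ^ (-pr b c i))) * X *
            ((Matrix.diagonal fun i => π ^ pr b c i) * (Matrix.diagonal fun i => π ^ (-pr b c i))) * h⁻¹.1.1 := by
          simp only [Matrix.mul_assoc]
        rw [h3, hDD, Matrix.mul_one, Matrix.mul_one]
      rw [h2] at h1
      exact h1
  have hHG : h * g * h⁻¹ ∈ HG b 𝔫 v ↔ g ∈ HG b 𝔫 v := by
    constructor
    · intro h1
      have h2 := r3_HG_mul (r3_HG_mul (r3_HG_inv hL.hh) h1) hL.hh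
      have h3 : h⁻¹ * (h * g * h⁻¹) * h = g := by group
      rw [h3] at h2
      exact h2
    · intro h1
      exact r3_HG_mul (r3_HG_mul hL.hh h1) (r3_HG_inv hL.hh)
  have hinv : (h * g * h⁻¹)⁻¹ = h * g⁻¹ * h⁻¹ := by group
  have e1 : (h * g * h⁻¹).1.1 = h.1.1 * g.1.1 * h⁻¹.1.1 := rfl
  have e2 : (h * g⁻¹ * h⁻¹).1.1 = h.1.1 * g⁻¹.1.1 * h⁻¹.1.1 := rfl
  rw [mem_Gh, r3_GamK hL.nv, hHG, hinv, e1, e2, key, key]

end

end Pool.Agent.Lib.L1S
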