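import Pool.Agent.Lib.L1S.R0
import Pool.Agent.Lib.L1S.R1A
import Pool.Agent.Lib.L1S.R1B

/-!
# L1S, module R (arithmetic), R5A: the elements `x_β(t)` over `K`: entries
-/

namespace Pool.Agent.Lib.L1S

open MeasureTheory Matrix NumberField IsDedekindDomain Pool.Agent.Lib.H89N Pool.Agent.Lib.H33W
open scoped ENNReal Pointwise

noncomputable section

set_option linter.unusedSectionVars false

variable {ι M N : Type} [Fintype ι] [DecidableEq ι] [AddCommGroup M] [Module ℚ M] [AddCommGroup N] [Module ℚ N]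
  {P : RootPairing ι ℚ M N} [P.IsCrystallographic] [P.IsRootSystem] {b : P.Base} {K : Type} [Field K] [NumberField K]

theorem r5a_val (L : LieD b K) {β : ι} (hβ : β ∈ Pos b) (t : K) (r c : I b) :
    (L.xK β t).1.1 r c = ∑ k ∈ Finset.range L.m, t ^ k * ((L.DP β k r c : ℤ) : K) := by
  rw [L.xK_val β hβ t, Matrix.sum_apply]
  refine Finset.sum_congr rfl fun k _ => ?_
  rw [Matrix.smul_apply, Matrix.map_apply, smul_eq_mul]

/-- The entry at `(r, c)` of `x_β(t)`, off the diagonal: `wt r = wt c + k β`, `k ≥ 1`. PROOF. `xK_val`, `dp0`, `supp`; for `r ≠ c` the term `k = 0` vanishes; for `r = c` the terms `k ≥ 1` vanish (`k • P.root β ≠ 0`). At most one term `k ≥ 1` is not zero (`k • P.root β = k' • P.root β` gives `k = k'`). If `m = 0` the matrix would be `0`, not invertible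
(or `dpm` with `dp0`: `DP β 0 = 1 = 0` is impossible if `I b` is nonempty). -/
theorem r5_entry (L : LieD b K) {β : ι} (hβ : β ∈ Pos b) (t : K) (r c : I b) :
    (L.xK β t).1.1 r c = (1 : Matrix (I b) (I b) K) r c ∨ ∃ k : ℕ, 1 ≤ k ∧ wtR b r = wtR b c + k • P.root β ∧ (L.xK β t).1.1 r c = t ^ k * ((L.DP β k r c : ℤ) : K) := by
  classical
  by_cases hex : ∃ k : ℕ, 1 ≤ k ∧ k < L.m ∧ L.DP β k r c ≠ 0
  · obtain ⟨k, hk1, hkm, hk⟩ := hex
    have hw := L.supp β hβ k r c hk
    refine Or.inr ⟨k, hk1, hw, ?_⟩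
    rw [r5a_val L hβ]
    refine Finset.sum_eq_single k (fun k' _ hne => ?_) (fun h => absurd (Finset.mem_range.2 hkm) h)
    have h0 : L.DP β k' r c = 0 := by
      by_contra h1
      have hw' := L.supp β hβ k' r c h1
      rw [hw] at hw'
      have h2 : k • P.root β = k' • P.root β := add_left_cancel hw'
      have h3 : P.root β ≠ 0 := P.ne_zero β
      have h4 : ((k : ℚ) - k') • P.root β = 0 := by
        rw [sub_smul, Nat.cast_smul_eq_nsmul, Nat.cast_smul_eq_nsmul, h2, sub_self]
      rcases smul_eq_zero.1 h4 with h5 | h5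
      · have h6 : (k : ℚ) = k' := sub_eq_zero.1 h5
        exact hne (by exact_mod_cast h6.symm)
      · exact h3 h5
    rw [h0, Int.cast_zero, mul_zero]
  · push Not at hex
    left
    rw [r5a_val L hβ]
    have hm : 0 < L.m := by
      by_contra hm
      have h1 := L.dpm β 0 (by omega)
      rw [L.dp0 β] at h1
      have h2 := congrFun (congrFun h1 r) r
      rw [Matrix.one_apply_eq, Matrix.zero_apply] at h2
      exact one_ne_zero h2
    rw [Finset.sum_eq_single 0]
    · rw [pow_zero, one_mul, L.dp0 β]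
      by_cases h : r = c
      · subst h
        rw [Matrix.one_apply_eq, Matrix.one_apply_eq, Int.cast_one]
      · rw [Matrix.one_apply_ne h, Matrix.one_apply_ne h, Int.cast_zero]
    · intro k hk hne
      rw [hex k (by omega) (Finset.mem_range.1 hk), Int.cast_zero, mul_zero]
    · intro h
      exact absurd (Finset.mem_range.2 hm) h

theorem r5a_rs (L : LieD b K) {β : ι} (hβ : β ∈ Pos b) {k : ℕ} (hk : b.height β = k) (t : K) :
    Rs b k (L.xK β t).1.1 := by
  intro r c hrc
  rcases r5_entry L hβ t r c with h | ⟨k', hk', hw, -⟩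
  · exact h
  · have h1 := r1_ht hw
    have h2 : (1 : ℤ) ≤ k' := by exact_mod_cast hk'
    rw [hk] at h1
    have h3 : (0 : ℤ) ≤ k := Int.natCast_nonneg k
    nlinarith

theorem r5_neg (L : LieD b K) {β : ι} (hβ : β ∈ Pos b) (t : K) : L.xK β (-t) = (L.xK β t)⁻¹ := by
  have h := L.xK_add β hβ 0 0
  rw [add_zero] at h
  have h0 : L.xK β 0 = 1 := by
    have h1 := mul_eq_left.1 h.symm
    exact h1
  rw [eq_inv_iff_mul_eq_one, ← L.xK_add β hβ, neg_add_cancel, h0]

/-- PROOF. `r5_entry` and `r1_ht` (`b.height β > 0`), for `t` and `-t` (`r5_neg`). -/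
theorem r5_FK (L : LieD b K) {β : ι} (hβ : β ∈ Pos b) {k : ℕ} (hk : b.height β = k) (t : K) : L.xK β t ∈ FK b K k := by
  refine ⟨r5a_rs L hβ hk t, ?_⟩
  rw [← r5_neg L hβ]
  exact r5a_rs L hβ hk (-t)

/-- PROOF. Entries with `ht r = ht c + k`: in `r5_entry` the exponent is `1` (`r1_ht`: `k' * height β = k = height β`). In the other entries both sides vanish (`supp` for `DP β 1` and `r1_ht`). If the entry is that of `1` (first case of `r5_entry`) use the value `xK_val` directly: for `r ≠ c` and `wt r = wt c + β` only the term `k = 1` is left. -/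
theorem r5_dgk (L : LieD b K) {β : ι} (hβ : β ∈ Pos b) {k : ℕ} (hk : b.height β = k) (t : K) : dgk b k (L.xK β t).1.1 = t • L.E K β := by
  have hpos : (0 : ℤ) < k := by
    rw [← hk]
    exact (Finset.mem_filter.1 hβ).2
  have hE : ∀ r c, (t • L.E K β) r c = t * ((L.DP β 1 r c : ℤ) : K) := by
    intro r c
    rw [Matrix.smul_apply, smul_eq_mul]
    rfl
  ext r c
  rw [hE]
  unfold dgk
  rw [Matrix.of_apply]
  split_ifs with h
  · rw [r5a_val L hβ]
    have hz : ∀ k', k' ≠ 1 → L.DP β k' r c = 0 := by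
      intro k' hk'
      by_contra h1
      have h2 := r1_ht (L.supp β hβ k' r c h1)
      rw [hk, h] at h2
      have h3 : (k : ℤ) * 1 = k * k' := by linarith [mul_comm (k : ℤ) (k' : ℤ)]
      have h4 := mul_left_cancel₀ hpos.ne' h3
      exact hk' (by exact_mod_cast h4.symm)
    by_cases hm : 1 < L.m
    · rw [Finset.sum_eq_single 1]
      · rw [pow_one]
      · intro k' _ hk'
        rw [hz k' hk', Int.cast_zero, mul_zero]
      · intro h1
        exact absurd (Finset.mem_range.2 hm) h1
    · have h1 : L.DP β 1 r c = 0 := by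
        rw [L.dpm β 1 (by omega), Matrix.zero_apply]
      rw [h1, Int.cast_zero, mul_zero]
      refine Finset.sum_eq_zero fun k' hk' => ?_
      have h2 := Finset.mem_range.1 hk'
      rw [hz k' (by omega), Int.cast_zero, mul_zero]
  · have h1 : L.DP β 1 r c = 0 := by
      by_contra h1
      have h2 := r1_ht (L.supp β hβ 1 r c h1)
      rw [hk] at h2
      push_cast at h2
      exact h (by linarith)
    rw [h1, Int.cast_zero, mul_zero]

end

end Pool.Agent.Lib.L1S
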