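import Pool.Agent.Lib.L1S.R0
import Pool.Agent.Lib.L1S.R5A
import Pool.Agent.Lib.L1S.R3B

/-!
# L1S, module R (arithmetic), R5B: the elements `x_β(t)` in `Γ` and `h⁻¹ Γ h`
-/

namespace Pool.Agent.Lib.L1S

open MeasureTheory Matrix NumberField IsDedekindDomain Pool.Agent.Lib.H89N Pool.Agent.Lib.H33W
open scoped ENNReal Pointwise

noncomputable section

set_option linter.unusedSectionVars false

variable {ι M N : Type} [Fintype ι] [DecidableEq ι] [AddCommGroup M] [Module ℚ M] [AddCommGroup N] [Module ℚ N]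
  {P : RootPairing ι ℚ M N} [P.IsCrystallographic] [P.IsRootSystem] {b : P.Base} {K : Type} [Field K] [NumberField K]

theorem r5b_height {β : ι} (hβ : β ∈ Pos b) : 0 < b.height β := (Finset.mem_filter.1 hβ).2

theorem r5b_ht {β : ι} (hβ : β ∈ Pos b) {i j : I b} {k : ℕ} (hk : 1 ≤ k)
    (h : wtR b i = wtR b j + k • P.root β) : ht b j < ht b i := by
  rw [r1_ht h]
  have h1 : (0 : ℤ) < k * b.height β := mul_pos (by exact_mod_cast hk) (r5b_height hβ)
  omega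

theorem r5b_in {𝔫 : Ideal (𝓞 K)} {t : K} (ht : Pool.Agent.Lib.L1S.InI 𝔫 t) {k : ℕ} (hk : 1 ≤ k)
    (z : ℤ) : Pool.Agent.Lib.L1S.InI 𝔫 (t ^ k * (z : K)) := by
  obtain ⟨y, hy, rfl⟩ := ht
  refine ⟨y ^ k * (z : 𝓞 K), 𝔫.mul_mem_right _ (𝔫.pow_mem_of_mem hy k hk), ?_⟩
  push_cast
  rfl

theorem r5b_key (L : LieD b K) {β : ι} (hβ : β ∈ Pos b) {𝔫 : Ideal (𝓞 K)}
    (v : HeightOneSpectrum (𝓞 K)) (r s : ℕ) {t : K} (ht' : Pool.Agent.Lib.L1S.InI 𝔫 t) (i j : I b) :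
    Pool.Agent.Lib.L1S.InI 𝔫 (((L.xK β t).1.1 - 1) i j) ∧
      (ht b i < ht b j → Pool.Agent.Lib.L1S.InI (v.asIdeal ^ (r + s)) ((L.xK β t).1.1 i j)) ∧
      (ht b i = ht b j → Pool.Agent.Lib.L1S.InI (v.asIdeal ^ r) (((L.xK β t).1.1 - 1) i j)) := by
  rcases r5_entry L hβ t i j with h1 | ⟨k, hk, hwt, hent⟩
  · have h0 : ((L.xK β t).1.1 - 1) i j = 0 := by rw [Matrix.sub_apply, h1, sub_self]
    rw [h0]
    refine ⟨InI.zero _, fun h => ?_, fun _ => InI.zero _⟩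
    have hij : i ≠ j := by
      rintro rfl
      exact absurd h (lt_irrefl _)
    rw [h1, Matrix.one_apply_ne hij]
    exact InI.zero _
  · have hlt := r5b_ht hβ hk hwt
    have hij : i ≠ j := by
      rintro rfl
      exact absurd hlt (lt_irrefl _)
    refine ⟨?_, fun h => absurd h (not_lt.2 hlt.le), fun h => absurd h hlt.ne'⟩
    rw [Matrix.sub_apply, Matrix.one_apply_ne hij, sub_zero, hent]
    exact r5b_in ht' hk _

theorem r5b_neg {𝔫 : Ideal (𝓞 K)} {t : K} (ht : Pool.Agent.Lib.L1S.InI 𝔫 t) :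
    Pool.Agent.Lib.L1S.InI 𝔫 (-t) := by
  obtain ⟨y, hy, rfl⟩ := ht
  exact ⟨-y, 𝔫.neg_mem hy, by push_cast; rfl⟩

theorem r5b_cj (L : LieD b K) {β : ι} (hβ : β ∈ Pos b) {v : HeightOneSpectrum (𝓞 K)} {r s : ℕ}
    {c : b.support → ℤ} {π : K} (hπ : v.valuation K π = WithZero.exp (-1 : ℤ))
    (hpos : 0 ≤ pr b c (Sum.inr β)) {t : K}
    (hv : v.valuation K t ≤ WithZero.exp (-pr b c (Sum.inr β))) :
    IwL b v r s (cj b c π (L.xK β t).1.1) := by
  have hπ0 : π ≠ 0 := by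
    rintro rfl
    rw [map_zero] at hπ
    exact WithZero.exp_ne_zero hπ.symm
  intro i j
  rcases r5_entry L hβ t i j with h1 | ⟨k, hk, hwt, hent⟩
  · by_cases hij : i = j
    · subst hij
      have h2 : cj b c π (L.xK β t).1.1 i i = 1 := by
        rw [r3_cj hπ0, h1, sub_self, zpow_zero, Matrix.one_apply_eq, one_mul]
      refine ⟨by rw [h2, map_one], fun h => absurd h (lt_irrefl _), fun _ => ?_⟩
      rw [Matrix.sub_apply, h2, Matrix.one_apply_eq, sub_self, map_zero]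
      exact zero_le
    · have h2 : cj b c π (L.xK β t).1.1 i j = 0 := by
        rw [r3_cj hπ0, h1, Matrix.one_apply_ne hij, mul_zero]
      refine ⟨by rw [h2, map_zero]; exact zero_le, fun _ => by rw [h2, map_zero]; exact zero_le,
        fun _ => ?_⟩
      rw [Matrix.sub_apply, h2, Matrix.one_apply_ne hij, sub_self, map_zero]
      exact zero_le
  · have hlt := r5b_ht hβ hk hwt
    refine ⟨?_, fun h => absurd h (not_lt.2 hlt.le), fun h => absurd h hlt.ne'⟩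
    rw [r3_cj hπ0, hent, r1_pr c hwt, map_mul, map_mul, map_pow]
    have e1 : pr b c j - (pr b c j + k * pr b c (Sum.inr β)) = -(k * pr b c (Sum.inr β)) := by ring
    rw [e1, r3_val_zpow hπ, neg_neg]
    have e2 : v.valuation K t ^ k ≤ WithZero.exp (k • (-pr b c (Sum.inr β))) := by
      rw [WithZero.exp_nsmul]
      exact pow_le_pow_left' hv k
    have e3 : v.valuation K ((L.DP β k i j : ℤ) : K) ≤ 1 :=
      r2_val ⟨((L.DP β k i j : ℤ) : 𝓞 K), Submodule.mem_top, by push_cast; rfl⟩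
    calc WithZero.exp (k * pr b c (Sum.inr β)) * (v.valuation K t ^ k * v.valuation K ((L.DP β k i j : ℤ) : K))
        ≤ WithZero.exp (k * pr b c (Sum.inr β)) * (WithZero.exp (k • (-pr b c (Sum.inr β))) * 1) := by
          exact mul_le_mul_right (mul_le_mul' e2 e3) _
      _ = 1 := by
          rw [mul_one, ← WithZero.exp_add]
          have e4 : (k : ℤ) * pr b c (Sum.inr β) + k • (-pr b c (Sum.inr β)) = 0 := by
            rw [nsmul_eq_mul]
            ring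
          rw [e4, WithZero.exp_zero]

/-- PROOF. The entries of `x_β(±t)` are those of `1` or `t ^ k` times an integer, `k ≥ 1` (`r5_entry`); where they are not those of `1` one has `ht r > ht c` (`r1_ht`), so the conditions at `v` are trivial. -/
theorem r5_GamK (L : LieD b K) {β : ι} (hβ : β ∈ Pos b) {𝔫 : Ideal (𝓞 K)} (v : HeightOneSpectrum (𝓞 K)) (r s : ℕ) {t : K} (ht : Pool.Agent.Lib.L1S.InI 𝔫 t) : L.xK β t ∈ GamK b 𝔫 v r s := by
  intro i j
  refine ⟨r5b_key L hβ v r s ht i j, ?_⟩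
  rw [← r5_neg L hβ t]
  exact r5b_key L hβ v r s (r5b_neg ht) i j

/-- PROOF. `r3_Gh`: `x_β(t) ∈ HG` from `r5_GamK` and `r2_den`; the entries of `cj c π x_β(±t)` off the diagonal are `π ^ (pr c c' - pr c r') (±t) ^ k` times an integer with `wt r' = wt c' + k β`, so `= (π ^ (- pr c β) (±t)) ^ k` times an integer (`r1_pr`), of valuation at most one (`r2_mul`: `v(t) ≤ exp(-pr c β)`, `v(π ^ (-m)) = exp m`;
`pr c β ≥ 0` by `r1_pr_pos`). -/
theorem r5_Gh (L : LieD b K) {β : ι} (hβ : β ∈ Pos b) {𝔫 : Ideal (𝓞 K)} {v : HeightOneSpectrum (𝓞 K)} {r s : ℕ} {c : b.support → ℤ} {π : K} {h : GK b K} (hL : Lv b 𝔫 v r s c π h)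
    {t : K} (ht : Pool.Agent.Lib.L1S.InI (𝔫 * v.asIdeal ^ (pr b c (Sum.inr β)).toNat) t) : L.xK β t ∈ Gh b 𝔫 v r s h := by
  have hpos : 0 ≤ pr b c (Sum.inr β) := r1_pr_pos hL.dom hβ
  obtain ⟨ht1, ht2⟩ := (r2_mul hL.nv).1 ht
  rw [Int.toNat_of_nonneg hpos] at ht2
  have hmem := r5_GamK L hβ v r s ht1
  rw [r3_Gh hL]
  refine ⟨⟨0, fun i j => ⟨r2_den v 0 (hmem i j).1.1, r2_den v 0 (hmem i j).2.1⟩⟩,
    r5b_cj L hβ hL.hπ hpos ht2, ?_⟩
  rw [← r5_neg L hβ t]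
  refine r5b_cj L hβ hL.hπ hpos ?_
  rw [Valuation.map_neg]
  exact ht2

end

end Pool.Agent.Lib.L1S
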