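import Pool.Agent.Lib.L1S.R0
import Pool.Agent.Lib.L1S.R5B

/-!
# L1S, module R (arithmetic), R5D: products of the elements `x_β(t)` over `K`
-/

namespace Pool.Agent.Lib.L1S

open MeasureTheory Matrix NumberField IsDedekindDomain Pool.Agent.Lib.H89N Pool.Agent.Lib.H33W
open scoped ENNReal Pointwise

noncomputable section

set_option linter.unusedSectionVars false

variable {ι M N : Type} [Fintype ι] [DecidableEq ι] [AddCommGroup M] [Module ℚ M] [AddCommGroup N] [Module ℚ N]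
  {P : RootPairing ι ℚ M N} [P.IsCrystallographic] [P.IsRootSystem] {b : P.Base} {K : Type} [Field K] [NumberField K]

/-- The product of the `x_β(t_β)` over the positive roots `β` of height `k`. -/
def LieD.prK (L : LieD b K) (k : ℕ) (t : ι → K) : GK b K := ((Posk b k).toList.map fun β => L.xK β (t β)).prod

theorem r5d_Pos {k : ℕ} {β : ι} (hβ : β ∈ Posk b k) : β ∈ Pos b ∧ b.height β = k := by
  obtain ⟨-, h1, h2⟩ := Finset.mem_filter.1 hβ
  exact ⟨Finset.mem_filter.2 ⟨Finset.mem_univ _, h1⟩, h2⟩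

theorem r5d_mem (L : LieD b K) (k : ℕ) (t : ι → K) (S : Subgroup (GK b K))
    (h : ∀ β ∈ Posk b k, L.xK β (t β) ∈ S) : L.prK k t ∈ S := by
  unfold LieD.prK
  refine Subgroup.list_prod_mem S fun x hx => ?_
  obtain ⟨β, hβ, rfl⟩ := List.mem_map.1 hx
  exact h β (Finset.mem_toList.1 hβ)

/-- PROOF. `r5_FK`, `Subgroup.list_prod_mem`. -/
theorem r5_prK_FK (L : LieD b K) (k : ℕ) (t : ι → K) : L.prK k t ∈ FK b K k :=
  r5d_mem L k t _ fun _ hβ => r5_FK L (r5d_Pos hβ).1 (r5d_Pos hβ).2 _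

theorem r5d_list (L : LieD b K) {k : ℕ} (hk : 1 ≤ k) (t : ι → K) (l : List ι) (hl : ∀ β ∈ l, β ∈ Posk b k) :
    (l.map fun β => L.xK β (t β)).prod ∈ FK b K k ∧
      dgk b k (l.map fun β => L.xK β (t β)).prod.1.1 = (l.map fun β => t β • L.E K β).sum := by
  induction l with
  | nil =>
    rw [List.map_nil, List.map_nil, List.prod_nil, List.sum_nil]
    exact ⟨one_mem _, dgk_one hk⟩
  | cons β l ih =>
    obtain ⟨h1, h2⟩ := ih fun γ hγ => hl γ (List.mem_cons_of_mem _ hγ)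
    have hβ := r5d_Pos (hl β List.mem_cons_self)
    have h3 : L.xK β (t β) ∈ FK b K k := r5_FK L hβ.1 hβ.2 _
    rw [List.map_cons, List.map_cons, List.prod_cons, List.sum_cons]
    refine ⟨mul_mem h3 h1, ?_⟩
    have e : (L.xK β (t β) * (l.map fun β => L.xK β (t β)).prod).1.1 =
        (L.xK β (t β)).1.1 * (l.map fun β => L.xK β (t β)).prod.1.1 := rfl
    rw [e, dgk_mul hk h3.1 h1.1, h2, r5_dgk L hβ.1 hβ.2]

/-- PROOF. Induction over the list: `dgk_mul`, `r5_dgk`, `r5_FK`. -/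
theorem r5_prK_dgk (L : LieD b K) {k : ℕ} (hk : 1 ≤ k) (t : ι → K) : dgk b k (L.prK k t).1.1 = ∑ β ∈ Posk b k, t β • L.E K β := by
  have h := (r5d_list L hk t (Posk b k).toList fun β hβ => Finset.mem_toList.1 hβ).2
  rw [Finset.sum_map_toList] at h
  exact h

theorem r5_prK_GamK (L : LieD b K) (k : ℕ) {𝔫 : Ideal (𝓞 K)} (v : HeightOneSpectrum (𝓞 K)) (r s : ℕ) {t : ι → K} (ht : ∀ β, Pool.Agent.Lib.L1S.InI 𝔫 (t β)) : L.prK k t ∈ GamK b 𝔫 v r s :=
  r5d_mem L k t _ fun β hβ => r5_GamK L (r5d_Pos hβ).1 v r s (ht β)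

theorem r5_prK_Gh (L : LieD b K) (k : ℕ) {𝔫 : Ideal (𝓞 K)} {v : HeightOneSpectrum (𝓞 K)} {r s : ℕ} {c : b.support → ℤ} {π : K} {h : GK b K} (hL : Lv b 𝔫 v r s c π h)
    {t : ι → K} (ht : ∀ β, Pool.Agent.Lib.L1S.InI (𝔫 * v.asIdeal ^ (pr b c (Sum.inr β)).toNat) (t β)) : L.prK k t ∈ Gh b 𝔫 v r s h :=
  r5d_mem L k t _ fun β hβ => r5_Gh L (r5d_Pos hβ).1 hL (ht β)

end

end Pool.Agent.Lib.L1S
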