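import Pool.Agent.Lib.L1S.R0
import Pool.Agent.Lib.L1S.R1A
import Pool.Agent.Lib.L1S.R1B

/-!
# L1S, module R (arithmetic), R5E: products of the elements `x_β(t)` over `K ⊗ ℝ`
-/

namespace Pool.Agent.Lib.L1S

open MeasureTheory Matrix NumberField IsDedekindDomain Pool.Agent.Lib.H89N Pool.Agent.Lib.H33W
open scoped ENNReal Pointwise

noncomputable section

set_option linter.unusedSectionVars false

variable {ι M N : Type} [Fintype ι] [DecidableEq ι] [AddCommGroup M] [Module ℚ M] [AddCommGroup N] [Module ℚ N]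
  {P : RootPairing ι ℚ M N} [P.IsCrystallographic] [P.IsRootSystem] {b : P.Base} {K : Type} [Field K] [NumberField K]

theorem r5e_val (L : LieD b K) {β : ι} (hβ : β ∈ Pos b) (t : EE K) (r c : I b) :
    (L.xE β t).1.1 r c = ∑ k ∈ Finset.range L.m, t ^ k * ((L.DP β k r c : ℤ) : EE K) := by
  rw [L.xE_val β hβ t, Matrix.sum_apply]
  rfl

theorem r5e_m (L : LieD b K) (β : ι) (r : I b) : 0 < L.m := by
  rcases Nat.eq_zero_or_pos L.m with h | h
  · exfalso
    have h1 := L.dpm β 0 (by omega)
    rw [L.dp0 β] at h1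
    have h2 := congrFun (congrFun h1 r) r
    rw [Matrix.one_apply_eq, Matrix.zero_apply] at h2
    exact one_ne_zero h2
  · exact h

theorem r5e_supp (L : LieD b K) {β : ι} (hβ : β ∈ Pos b) {k : ℕ} {r c : I b} (h : L.DP β k r c ≠ 0) :
    ht b r = ht b c + k * b.height β :=
  r1_ht (L.supp β hβ k r c h)

theorem r5e_pos {β : ι} (hβ : β ∈ Pos b) : 0 < b.height β := by
  unfold Pos at hβ
  exact (Finset.mem_filter.1 hβ).2

/-- The entries below the degree of `β`. -/
theorem r5e_low (L : LieD b K) {β : ι} (hβ : β ∈ Pos b) (t : EE K) {r c : I b} (h : ht b r < ht b c + b.height β) :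
    (L.xE β t).1.1 r c = (1 : Matrix (I b) (I b) (EE K)) r c := by
  have hm := r5e_m L β r
  have hp := r5e_pos hβ
  rw [r5e_val L hβ, Finset.sum_eq_single 0]
  · rw [pow_zero, one_mul, L.dp0, Matrix.one_apply, Matrix.one_apply]
    split_ifs <;> simp
  · intro k _ hk
    have h1 : L.DP β k r c = 0 := by
      by_contra hne
      have h2 := r5e_supp L hβ hne
      have h3 : (1 : ℤ) ≤ k := by exact_mod_cast Nat.one_le_iff_ne_zero.2 hk
      nlinarith
    rw [h1]
    simp
  · intro h1
    exact absurd (Finset.mem_range.2 hm) h1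

theorem r5e_neg (L : LieD b K) {β : ι} (hβ : β ∈ Pos b) (t : EE K) : (L.xE β t)⁻¹ = L.xE β (-t) := by
  have h := L.xE_add β hβ 0 0
  rw [add_zero] at h
  have h0 : L.xE β 0 = 1 := mul_eq_left.1 h.symm
  symm
  rw [eq_inv_iff_mul_eq_one, ← L.xE_add β hβ, neg_add_cancel, h0]

/-- PROOF. As `r5_entry`, `r5_FK` (Lib/L1S/R5A.lean): the entries of `x_β(t)` off the diagonal, at `(r, c)`, are zero unless `wt r = wt c + k β`, `k ≥ 1`; then `ht r = ht c + k height β > ht c`. The inverse is `x_β(-t)` (`xE_add`). -/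
theorem r5_xE_UR (L : LieD b K) {β : ι} (hβ : β ∈ Pos b) (t : EE K) : L.xE β t ∈ UR b K := by
  intro r c hrc
  have hp := r5e_pos hβ
  rw [r5e_neg L hβ]
  exact ⟨r5e_low L hβ t (by omega), r5e_low L hβ (-t) (by omega)⟩

/-- `x_β(t)` as an element of `U` (`1` for the roots `β` which are not positive). -/
def LieD.xU (L : LieD b K) (β : ι) (t : EE K) : UR b K := if h : β ∈ Pos b then ⟨L.xE β t, r5_xE_UR L h t⟩ else 1

/-- The product of the `x_β(s_β)` over the positive roots `β` of height `k`. -/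
def LieD.prE (L : LieD b K) (k : ℕ) (s : ι → EE K) : UR b K := ((Posk b k).toList.map fun β => L.xU β (s β)).prod

theorem r5e_xU_FR (L : LieD b K) {β : ι} {k : ℕ} (hβ : β ∈ Posk b k) (t : EE K) : L.xU β t ∈ FR b K k := by
  obtain ⟨h1, h2⟩ := r1_mem_posk.1 hβ
  unfold LieD.xU
  rw [dif_pos h1]
  refine ⟨fun r c hrc => r5e_low L h1 t (by omega), fun r c hrc => ?_⟩
  have h3 : ((⟨L.xE β t, r5_xE_UR L h1 t⟩ : UR b K)⁻¹).1 = L.xE β (-t) := by
    rw [← r5e_neg L h1]
    rfl
  rw [h3]
  exact r5e_low L h1 (-t) (by omega)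

theorem r5_prE_FR (L : LieD b K) (k : ℕ) (s : ι → EE K) : L.prE k s ∈ FR b K k := by
  unfold LieD.prE
  apply Subgroup.list_prod_mem
  intro x hx
  rw [List.mem_map] at hx
  obtain ⟨β, hβ, rfl⟩ := hx
  exact r5e_xU_FR L (Finset.mem_toList.1 hβ) _

theorem r5e_dgk (L : LieD b K) {β : ι} {k : ℕ} (hβ : β ∈ Posk b k) (t : EE K) :
    dgk b k (L.xU β t).1.1.1 = t • L.E (EE K) β := by
  obtain ⟨h1, h2⟩ := r1_mem_posk.1 hβ
  have hp := r5e_pos h1
  unfold LieD.xU
  rw [dif_pos h1]
  refine Matrix.ext fun r c => ?_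
  unfold dgk
  rw [Matrix.of_apply, Matrix.smul_apply, smul_eq_mul]
  have hE : L.E (EE K) β r c = ((L.DP β 1 r c : ℤ) : EE K) := rfl
  rw [hE]
  split_ifs with h3
  · show (L.xE β t).1.1 r c = _
    rw [r5e_val L h1, Finset.sum_eq_single 1, pow_one]
    · intro j _ hj
      rcases Nat.eq_zero_or_pos j with h4 | h4
      · subst h4
        rw [L.dp0, Matrix.one_apply_ne (by rintro rfl; omega)]
        simp
      · have h5 : L.DP β j r c = 0 := by
          by_contra hne
          have h6 := r5e_supp L h1 hne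
          have h7 : (2 : ℤ) ≤ j := by
            have : 2 ≤ j := by omega
            exact_mod_cast this
          nlinarith
        rw [h5]
        simp
    · intro h4
      have h5 : L.m ≤ 1 := by
        rw [Finset.mem_range] at h4
        omega
      rw [L.dpm β 1 h5]
      simp
  · have h5 : L.DP β 1 r c = 0 := by
      by_contra hne
      have h6 := r5e_supp L h1 hne
      apply h3
      rw [h6, h2]
      simp
    rw [h5]
    simp

/-- PROOF. Induction over the list: `dgk_mul`; `dgk b k (x_β(s)) = s • E_β` as in `r5_dgk`. -/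
theorem r5_prE_dgk (L : LieD b K) {k : ℕ} (hk : 1 ≤ k) (s : ι → EE K) : dgk b k (L.prE k s).1.1.1 = ∑ β ∈ Posk b k, s β • L.E (EE K) β := by
  have key : ∀ l : List ι, (∀ β ∈ l, β ∈ Posk b k) → (l.map fun β => L.xU β (s β)).prod ∈ FR b K k ∧
      dgk b k (l.map fun β => L.xU β (s β)).prod.1.1.1 = (l.map fun β => s β • L.E (EE K) β).sum := by
    intro l
    induction l with
    | nil =>
      intro _
      refine ⟨one_mem _, ?_⟩
      rw [List.map_nil, List.map_nil, List.prod_nil, List.sum_nil]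
      exact dgk_one hk
    | cons β l ih =>
      intro hl
      obtain ⟨h1, h2⟩ := ih fun β' h' => hl β' (List.mem_cons_of_mem _ h')
      have h3 := r5e_xU_FR L (hl β List.mem_cons_self) (s β)
      rw [List.map_cons, List.map_cons, List.prod_cons, List.sum_cons]
      refine ⟨mul_mem h3 h1, ?_⟩
      have h4 : dgk b k (L.xU β (s β) * (l.map fun β => L.xU β (s β)).prod).1.1.1 =
          dgk b k (L.xU β (s β)).1.1.1 + dgk b k (l.map fun β => L.xU β (s β)).prod.1.1.1 :=
        dgk_mul hk h3.1 h1.1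
      rw [h4, h2, r5e_dgk L (hl β List.mem_cons_self)]
  have h1 := (key (Posk b k).toList fun β hβ => Finset.mem_toList.1 hβ).2
  rw [Finset.sum_map_toList] at h1
  exact h1

/-- PROOF. `L.xE_cont`, a finite product of continuous functions. -/
theorem r5_prE_cont (L : LieD b K) (k : ℕ) : Continuous (L.prE k) := by
  unfold LieD.prE
  apply continuous_list_prod
  intro β hβ
  have h1 := (r1_mem_posk.1 (Finset.mem_toList.1 hβ)).1
  unfold LieD.xU
  simp only [dif_pos h1]
  exact Continuous.subtype_mk ((L.xE_cont β h1).comp (continuous_apply β)) _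

end

end Pool.Agent.Lib.L1S
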