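import Pool.Agent.Lib.L1S.R0
import Pool.Agent.Lib.L1S.R2B
import Pool.Agent.Lib.L1S.R5C
import Pool.Agent.Lib.L1S.R5D
import Pool.Agent.Lib.L1S.R5E
import Pool.Agent.Lib.L1S.R9A

/-!
# L1S, module R (arithmetic), R10: cocompactness
-/

namespace Pool.Agent.Lib.L1S

open MeasureTheory Matrix NumberField IsDedekindDomain Pool.Agent.Lib.H89N Pool.Agent.Lib.H33W
open scoped ENNReal Pointwise

noncomputable section

set_option linter.unusedSectionVars false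

variable {ι M N : Type} [Fintype ι] [DecidableEq ι] [AddCommGroup M] [Module ℚ M] [AddCommGroup N] [Module ℚ N]
  {P : RootPairing ι ℚ M N} [P.IsCrystallographic] [P.IsRootSystem] {b : P.Base} {K : Type} [Field K] [NumberField K]

theorem r10_E (L : LieD b K) (β : ι) : (L.E K β).map (mixedEmbedding K) = L.E (EE K) β := by
  refine Matrix.ext fun r c => ?_
  unfold LieD.E
  rw [Matrix.map_apply, Matrix.map_apply, Matrix.map_apply, map_intCast]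

theorem r10_map (L : LieD b K) (s : Finset ι) (t : ι → K) : (∑ β ∈ s, t β • L.E K β).map (mixedEmbedding K) = ∑ β ∈ s, (mixedEmbedding K (t β) : EE K) • L.E (EE K) β := by
  refine Matrix.ext fun r c => ?_
  rw [Matrix.map_apply, Matrix.sum_apply, Matrix.sum_apply, map_sum]
  refine Finset.sum_congr rfl fun β _ => ?_
  rw [Matrix.smul_apply, Matrix.smul_apply, smul_eq_mul, smul_eq_mul, map_mul, ← r10_E L β, Matrix.map_apply]

/-- PROOF. Let `u ∈ FR k`, `y_β = cf β u` (`r5_degE`). Choose `t_β ∈ 𝔞` with `s_β = mixedEmbedding t_β + y_β ∈ B` (`r2_box`), `γ = L.prK k t ∈ GamK 𝔞 v 0 0 ⊓ FK k` (so `γ ∈ HU`: `r1_HU`, `r1_FK_mono`), `u' = kU γ * u ∈ FR k` (`r1_kU`), `dgk u' = ∑ s_β E_β` (`dgk_mul`, `r1_dgk`, `r5_prK_dgk`). With `w = L.prE k (-s)`: `u' w ∈ FR (k + 1)` (`r1_succR`, `r5_prE_dgk`), so `kU γ' * (u' w) ∈ C'` with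
`γ' ∈ GamK 𝔞 v 0 0`, hence `kU (γ' γ) * u ∈ C' * W⁻¹`, `W = {L.prE k (-s) : s_β ∈ B}` compact (`r5_prE_cont`, `isCompact_univ_pi`). `C = C' * W⁻¹`. -/
theorem r10_step (L : LieD b K) {𝔞 : Ideal (𝓞 K)} (h𝔞 : 𝔞 ≠ ⊥) (v : HeightOneSpectrum (𝓞 K)) {k : ℕ} (hk : 1 ≤ k)
    (h : ∃ C' : Set (UR b K), IsCompact C' ∧ ∀ u ∈ FR b K (k + 1), ∃ γ : HU b K, (γ : GK b K) ∈ GamK b 𝔞 v 0 0 ∧ kU b K γ * u ∈ C') :
    ∃ C : Set (UR b K), IsCompact C ∧ ∀ u ∈ FR b K k, ∃ γ : HU b K, (γ : GK b K) ∈ GamK b 𝔞 v 0 0 ∧ kU b K γ * u ∈ C := by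
  obtain ⟨C', hC', h'⟩ := h
  obtain ⟨B, hB, hB'⟩ := r2_box h𝔞
  have hW : IsCompact ((fun s : ι → EE K => L.prE k (fun β => -s β)) '' (Set.pi Set.univ fun _ => B)) :=
    (isCompact_univ_pi fun _ => hB).image ((r5_prE_cont L k).comp (continuous_pi fun β => (continuous_apply β).neg))
  refine ⟨C' * ((fun s : ι → EE K => L.prE k (fun β => -s β)) '' (Set.pi Set.univ fun _ => B))⁻¹, hC'.mul hW.inv, ?_⟩
  intro u hu
  choose t ht using fun β => hB' (L.cf β u.1.1.1)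
  have hγ1 : L.prK k t ∈ GamK b 𝔞 v 0 0 := r5_prK_GamK L k v 0 0 fun β => (ht β).1
  have hγ2 : L.prK k t ∈ FK b K k := r5_prK_FK L k t
  have hγ3 : L.prK k t ∈ HU b K := by
    rw [r1_HU]
    exact r1_FK_mono hk hγ2
  have hγ4 : kU b K ⟨L.prK k t, hγ3⟩ ∈ FR b K k := (r1_kU _).2 hγ2
  have hu' : kU b K ⟨L.prK k t, hγ3⟩ * u ∈ FR b K k := mul_mem hγ4 hu
  have hd : dgk b k (kU b K ⟨L.prK k t, hγ3⟩ * u).1.1.1 = ∑ β ∈ Posk b k, (mixedEmbedding K (t β) + L.cf β u.1.1.1) • L.E (EE K) β := by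
    have e : (kU b K ⟨L.prK k t, hγ3⟩ * u).1.1.1 = (kU b K ⟨L.prK k t, hγ3⟩).1.1.1 * u.1.1.1 := rfl
    rw [e, dgk_mul hk hγ4.1 hu.1, r1_dgk, r5_prK_dgk L hk t, r5_degE L hk hu, r10_map, ← Finset.sum_add_distrib]
    exact Finset.sum_congr rfl fun β _ => (add_smul _ _ _).symm
  have hw1 : L.prE k (fun β => -(mixedEmbedding K (t β) + L.cf β u.1.1.1)) ∈ FR b K k := r5_prE_FR L k _
  have hw : kU b K ⟨L.prK k t, hγ3⟩ * u * L.prE k (fun β => -(mixedEmbedding K (t β) + L.cf β u.1.1.1)) ∈ FR b K (k + 1) := by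
    rw [r1_succR hk]
    refine ⟨mul_mem hu' hw1, ?_⟩
    have e : (kU b K ⟨L.prK k t, hγ3⟩ * u * L.prE k (fun β => -(mixedEmbedding K (t β) + L.cf β u.1.1.1))).1.1.1 =
        (kU b K ⟨L.prK k t, hγ3⟩ * u).1.1.1 * (L.prE k (fun β => -(mixedEmbedding K (t β) + L.cf β u.1.1.1))).1.1.1 := rfl
    rw [e, dgk_mul hk hu'.1 hw1.1, hd, r5_prE_dgk L hk, ← Finset.sum_add_distrib]
    refine Finset.sum_eq_zero fun β _ => ?_
    rw [← add_smul, add_neg_cancel, zero_smul]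
  obtain ⟨δ, hδ1, hδ2⟩ := h' _ hw
  refine ⟨δ * ⟨L.prK k t, hγ3⟩, mul_mem hδ1 hγ1, ?_⟩
  rw [map_mul]
  refine Set.mem_mul.2 ⟨_, hδ2, (L.prE k (fun β => -(mixedEmbedding K (t β) + L.cf β u.1.1.1)))⁻¹, Set.inv_mem_inv.2 ⟨fun β => mixedEmbedding K (t β) + L.cf β u.1.1.1, fun β _ => (ht β).2, rfl⟩, ?_⟩
  group

/-- PROOF. `r9_cong`; downward induction over `k` with `r10_step`, starting with `FR (HM b + 1) = ⊥` (`r1_FR_bot`), down to `FR 1 = ⊤` (`r1_FR_top`); `t = kU (γ⁻¹) * (kU γ * t)`. -/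
theorem r10_cc (L : LieD b K) {𝔫 : Ideal (𝓞 K)} (h0 : 𝔫 ≠ ⊥) (v : HeightOneSpectrum (𝓞 K)) (r s : ℕ) (h : GK b K) :
    ∃ KT : Set (UR b K), IsCompact KT ∧ ∀ t, ∃ δ : HU b K, (δ : GK b K) ∈ Gh b 𝔫 v r s h ∧ ∃ s ∈ KT, t = kU b K δ * s := by
  obtain ⟨𝔞, h𝔞, hle⟩ := r9_cong h0 v r s h
  have key : ∀ j : ℕ, j ≤ HM b → ∃ C : Set (UR b K), IsCompact C ∧ ∀ u ∈ FR b K (HM b + 1 - j), ∃ γ : HU b K, (γ : GK b K) ∈ GamK b 𝔞 v 0 0 ∧ kU b K γ * u ∈ C := by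
    intro j
    induction j with
    | zero =>
      intro _
      refine ⟨{1}, isCompact_singleton, fun u hu => ⟨1, one_mem _, ?_⟩⟩
      rw [Nat.sub_zero, r1_FR_bot, Subgroup.mem_bot] at hu
      rw [hu, map_one, mul_one]
      exact Set.mem_singleton _
    | succ j ih =>
      intro hj
      have e : HM b + 1 - j = HM b + 1 - (j + 1) + 1 := by omega
      have h1 := ih (by omega)
      rw [e] at h1
      exact r10_step L h𝔞 v (by omega) h1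
  obtain ⟨C, hC, hC'⟩ := key (HM b) le_rfl
  have e1 : HM b + 1 - HM b = 1 := by omega
  rw [e1, r1_FR_top] at hC'
  refine ⟨C, hC, fun t => ?_⟩
  obtain ⟨γ, hγ, hγC⟩ := hC' t (Subgroup.mem_top t)
  refine ⟨γ⁻¹, hle (inv_mem hγ), _, hγC, ?_⟩
  rw [map_inv, inv_mul_cancel_left]

end

end Pool.Agent.Lib.L1S
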