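import Pool.Agent.Lib.L1S.T2
import Pool.Agent.Lib.L1S.MDefs
import Pool.Agent.Lib.L1S.ApiL1

/-!
# Module T, part 3: countability, density, discreteness, fundamental domains of `Γ` and `Γ_U`
-/

namespace Pool.Agent.Lib.L1S

open MeasureTheory Matrix NumberField IsDedekindDomain Pool.Agent.Lib.H89N Pool.Agent.Lib.H33W Topology

noncomputable section

/-! ## Density of `K` in `K ⊗ ℝ` -/

/-- `K` is dense in `K ⊗ ℝ`. -/
theorem t3_dense (K : Type) [Field K] [NumberField K] : DenseRange (fun x : K => (mixedEmbedding K x : EE K)) := by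
  classical
  let f : (Module.Free.ChooseBasisIndex ℤ (𝓞 K) → ℝ) → EE K := fun c => ∑ i, c i • (mixedEmbedding.latticeBasis K i : EE K)
  have hf : Continuous f := continuous_finsetSum _ fun i _ => (continuous_apply i).smul continuous_const
  have hs : Function.Surjective f := by
    intro x
    exact ⟨fun i => (mixedEmbedding.latticeBasis K).repr x i, (mixedEmbedding.latticeBasis K).sum_repr x⟩
  have hd : DenseRange (Pi.map (fun _ : Module.Free.ChooseBasisIndex ℤ (𝓞 K) => fun q : ℚ => (q : ℝ))) := DenseRange.piMap fun _ => Rat.denseRange_cast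
  have h := hs.denseRange.comp hd hf
  refine h.mono ?_
  rintro _ ⟨q, rfl⟩
  refine ⟨∑ i, (q i : K) * (integralBasis K i), ?_⟩
  change mixedEmbedding K (∑ i, (q i : K) * (integralBasis K i)) = ∑ i, ((q i : ℚ) : ℝ) • (mixedEmbedding.latticeBasis K i : EE K)
  rw [map_sum]
  refine Finset.sum_congr rfl fun i _ => ?_
  have e : (q i : K) * (integralBasis K i) = q i • (integralBasis K i) := (Rat.smul_def _ _).symm
  rw [e, map_rat_smul, mixedEmbedding.latticeBasis_apply, Rat.cast_smul_eq_qsmul]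

variable {ι M N : Type} [Fintype ι] [DecidableEq ι] [AddCommGroup M] [Module ℚ M] [AddCommGroup N] [Module ℚ N]
  {P : RootPairing ι ℚ M N} [P.IsCrystallographic]

/-- A continuous family of matrices which is in `G(K)` for the parameters in `K` is in `G(K ⊗ ℝ)` for all parameters. -/
theorem t3_mem_GE (b : P.Base) (K : Type) [Field K] [NumberField K] {φ : EE K → GL (I b) (EE K)} (hφ : Continuous φ)
    (h : ∀ t : K, φ (mixedEmbedding K t) ∈ (GQ b K).map (embGL b K)) (t : EE K) : φ t ∈ GE b K := by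
  have h1 : t ∈ closure (Set.range fun x : K => (mixedEmbedding K x : EE K)) := by
    rw [(t3_dense K).closure_range]
    exact Set.mem_univ _
  have h2 : φ t ∈ closure (φ '' Set.range fun x : K => (mixedEmbedding K x : EE K)) := image_closure_subset_closure_image hφ ⟨t, h1, rfl⟩
  refine closure_mono ?_ h2
  rintro _ ⟨_, ⟨x, rfl⟩, rfl⟩
  exact h x

/-! ## Countability and injectivity -/

theorem t3_countK (K : Type) [Field K] [NumberField K] : Countable K := by
  have e := (Module.finBasis ℚ K).equivFun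
  exact e.toEquiv.countable_iff.2 inferInstance

/-- `G(K)` is countable. -/
theorem t3_count (b : P.Base) (K : Type) [Field K] [NumberField K] : Countable (GK b K) := by
  have := t3_countK K
  have hM : Countable (Matrix (I b) (I b) K) := inferInstanceAs (Countable (I b → I b → K))
  have h1 : Function.Injective (fun g : GK b K => g.1.1) := fun g h e => Subtype.ext (Units.ext e)
  exact h1.countable

theorem t3_emb_inj (b : P.Base) (K : Type) [Field K] [NumberField K] : Function.Injective (emb b K) := by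
  intro g h e
  have e1 : (emb b K g).1.1 = (emb b K h).1.1 := by rw [e]
  apply Subtype.ext
  apply Units.ext
  ext i j
  have e2 : mixedEmbedding K (g.1.1 i j) = mixedEmbedding K (h.1.1 i j) := congrFun (congrFun e1 i) j
  exact (mixedEmbedding K).injective e2

theorem t3_kU_inj (b : P.Base) (K : Type) [Field K] [NumberField K] : Function.Injective (kU b K) := by
  intro g h e
  apply Subtype.ext
  apply t3_emb_inj b K
  exact congrArg Subtype.val e

/-! ## Discreteness -/

theorem t3_bdd (b : P.Base) (K : Type) [Field K] [NumberField K] {Q : Set (GR b K)} (hQ : IsCompact Q) :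
    ∃ B : ℝ, ∀ y ∈ Q, ∀ (w : InfinitePlace K) (i l : I b), mixedEmbedding.normAtPlace w (y.1.1 i l) ≤ B := by
  have h : ∀ p : InfinitePlace K × I b × I b, ∃ B : ℝ, ∀ y ∈ Q,
      ‖mixedEmbedding.normAtPlace p.1 (y.1.1 p.2.1 p.2.2)‖ ≤ B := by
    intro p
    apply hQ.exists_bound_of_continuousOn
    apply Continuous.continuousOn
    exact (mixedEmbedding.continuous_normAtPlace p.1).comp (cont_entry b K p.2.1 p.2.2)
  choose B hB using h
  refine ⟨∑ p, |B p|, fun y hy w i l => ?_⟩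
  have h1 := hB (w, i, l) y hy
  have h2 : |B (w, i, l)| ≤ ∑ p, |B p| :=
    Finset.single_le_sum (f := fun p => |B p|) (fun p _ => abs_nonneg _) (Finset.mem_univ (w, i, l))
  exact (le_abs_self _).trans ((h1.trans (le_abs_self _)).trans h2)

/-- A subgroup with bounded denominators meets every compact set in a finite set. -/
theorem t3_fin (b : P.Base) {K : Type} [Field K] [NumberField K] {Γ : Set (GK b K)} {c : ℕ} (hc : c ≠ 0)
    (hΓ : ∀ γ ∈ Γ, ∀ i j, ∃ y : 𝓞 K, (c : K) * γ.1.1 i j = ((y : 𝓞 K) : K)) {Q : Set (GR b K)} (hQ : IsCompact Q) : {γ : GK b K | γ ∈ Γ ∧ emb b K γ ∈ Q}.Finite := by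
  obtain ⟨B, hB⟩ := t3_bdd b K hQ
  have hfin := NumberField.Embeddings.finite_of_norm_le K ℂ ((c : ℝ) * B)
  have h2 : {A : I b → I b → K | ∀ i l, A i l ∈
      {x : K | IsIntegral ℤ x ∧ ∀ φ : K →+* ℂ, ‖φ x‖ ≤ (c : ℝ) * B}}.Finite := by
    have h3 := Set.Finite.pi' (ι := I b) (κ := fun _ => I b → K) (t := fun _ => {r : I b → K | ∀ l, r l ∈
      {x : K | IsIntegral ℤ x ∧ ∀ φ : K →+* ℂ, ‖φ x‖ ≤ (c : ℝ) * B}}) (fun _ => Set.Finite.pi' fun _ => hfin)
    exact h3
  apply Set.Finite.of_finite_image (f := fun γ : GK b K => (fun i l => (c : K) * γ.1.1 i l : I b → I b → K))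
  · apply h2.subset
    rintro A ⟨γ, ⟨hγ, hγQ⟩, rfl⟩
    intro i l
    obtain ⟨y, hy⟩ := hΓ γ hγ i l
    refine ⟨?_, fun φ => ?_⟩
    · change IsIntegral ℤ ((c : K) * γ.1.1 i l)
      rw [hy]
      exact RingOfIntegers.isIntegral_coe y
    · change ‖φ ((c : K) * γ.1.1 i l)‖ ≤ _
      have h4 := hB _ hγQ (InfinitePlace.mk φ) i l
      have h5 : mixedEmbedding.normAtPlace (InfinitePlace.mk φ) ((emb b K γ).1.1 i l) = ‖φ (γ.1.1 i l)‖ := by
        change mixedEmbedding.normAtPlace (InfinitePlace.mk φ) (mixedEmbedding K (γ.1.1 i l)) = _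
        rw [mixedEmbedding.normAtPlace_apply]
        rfl
      rw [h5] at h4
      rw [map_mul, map_natCast, norm_mul, RCLike.norm_natCast]
      exact mul_le_mul_of_nonneg_left h4 (Nat.cast_nonneg c)
  · intro a _ a' _ hab
    apply Subtype.ext
    apply Units.ext
    ext i l
    have h := congrFun (congrFun hab i) l
    exact mul_left_cancel₀ (Nat.cast_ne_zero.2 hc) h

/-- The elements of `Γ` have integral entries. -/
theorem t3_int (b : P.Base) {K : Type} [Field K] [NumberField K] {𝔫 : Ideal (𝓞 K)} {v : HeightOneSpectrum (𝓞 K)} {r s : ℕ} {γ : GK b K} (hγ : γ ∈ GamK b 𝔫 v r s) (i j : I b) :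
    ∃ y : 𝓞 K, γ.1.1 i j = ((y : 𝓞 K) : K) := by
  obtain ⟨y, -, hy⟩ := (hγ i j).1.1
  by_cases h : i = j
  · subst h
    refine ⟨y + 1, ?_⟩
    rw [Matrix.sub_apply, Matrix.one_apply_eq] at hy
    have e : ((y + 1 : 𝓞 K) : K) = (y : K) + 1 := by simp
    rw [e, hy]
    ring
  · refine ⟨y, ?_⟩
    rw [Matrix.sub_apply, Matrix.one_apply_ne h, sub_zero] at hy
    exact hy.symm

theorem t3_finG (b : P.Base) {K : Type} [Field K] [NumberField K] (𝔫 : Ideal (𝓞 K)) (v : HeightOneSpectrum (𝓞 K)) (r s : ℕ) {Q : Set (GR b K)} (hQ : IsCompact Q) :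
    {γ : GK b K | γ ∈ GamK b 𝔫 v r s ∧ emb b K γ ∈ Q}.Finite := by
  refine t3_fin b (Γ := GamK b 𝔫 v r s) one_ne_zero (fun γ hγ i j => ?_) hQ
  obtain ⟨y, hy⟩ := t3_int b hγ i j
  exact ⟨y, by rw [Nat.cast_one, one_mul, hy]⟩

/-- The same for the conjugates `h⁻¹ Γ h`. -/
theorem t3_finGh (b : P.Base) {K : Type} [Field K] [NumberField K] (𝔫 : Ideal (𝓞 K)) (v : HeightOneSpectrum (𝓞 K)) (r s : ℕ) (h : GK b K) {Q : Set (GR b K)} (hQ : IsCompact Q) :
    {γ : GK b K | γ ∈ Gh b 𝔫 v r s h ∧ emb b K γ ∈ Q}.Finite := by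
  have hQ' : IsCompact ((fun x => emb b K h * x * (emb b K h)⁻¹) '' Q) :=
    hQ.image ((continuous_const.mul continuous_id).mul continuous_const)
  refine ((t3_finG b 𝔫 v r s hQ').preimage (f := fun γ => h * γ * h⁻¹) ?_).subset ?_
  · intro x _ y _ e
    have e1 : h * x * h⁻¹ = h * y * h⁻¹ := e
    exact mul_left_cancel (mul_right_cancel e1)
  · rintro γ ⟨h1, h2⟩
    refine ⟨h1, emb b K γ, h2, ?_⟩
    simp only [map_mul, map_inv]

/-- Only finitely many elements of `h⁻¹ Γ h` move a compact set to a set which meets it. -/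
theorem t3_rfin (b : P.Base) {K : Type} [Field K] [NumberField K] (𝔫 : Ideal (𝓞 K)) (v : HeightOneSpectrum (𝓞 K)) (r s : ℕ) (h : GK b K) {Q : Set (GR b K)} (hQ : IsCompact Q) :
    {γ : GK b K | γ ∈ Gh b 𝔫 v r s h ∧ ∃ q ∈ Q, γ • q ∈ Q}.Finite := by
  refine (t3_finGh b 𝔫 v r s h ((hQ.prod hQ).image (continuous_fst.mul continuous_snd.inv))).subset ?_
  rintro γ ⟨h1, q, hq, h2⟩
  refine ⟨h1, (γ • q, q), ⟨h2, hq⟩, ?_⟩
  rw [smul_def]
  exact mul_inv_cancel_right _ _

/-! ## Strict fundamental domains -/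

theorem t3_sfGh (b : P.Base) {K : Type} [Field K] [NumberField K] (𝔫 : Ideal (𝓞 K)) (v : HeightOneSpectrum (𝓞 K)) (r s : ℕ) (h : GK b K) :
    ∃ F : Set (GR b K), SF (Gh b 𝔫 v r s h) F := by
  have := t3_count b K
  refine t2_exists_sf (e := emb b K) (fun h x => rfl) (fun γ _ e => t3_emb_inj b K (by rw [e, map_one])) fun Q hQ => t3_finGh b 𝔫 v r s h hQ

theorem t3_sfG (b : P.Base) {K : Type} [Field K] [NumberField K] (𝔫 : Ideal (𝓞 K)) (v : HeightOneSpectrum (𝓞 K)) (r s : ℕ) :
    ∃ F : Set (GR b K), SF (GamK b 𝔫 v r s) F := by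
  have := t3_count b K
  refine t2_exists_sf (e := emb b K) (fun h x => rfl) (fun γ _ e => t3_emb_inj b K (by rw [e, map_one])) fun Q hQ => t3_finG b 𝔫 v r s hQ

theorem t3_sfUh (b : P.Base) {K : Type} [Field K] [NumberField K] (𝔫 : Ideal (𝓞 K)) (v : HeightOneSpectrum (𝓞 K)) (r s : ℕ) (h : GK b K) :
    ∃ D : Set (UR b K), SF ((Gh b 𝔫 v r s h).subgroupOf (HU b K)) D := by
  have := t3_count b K
  refine t2_exists_sf (e := kU b K) (fun h x => rfl) (fun γ _ e => t3_kU_inj b K (by rw [e, map_one])) fun Q hQ => ?_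
  have hQ' : IsCompact ((fun x : UR b K => (x : GR b K)) '' Q) := hQ.image continuous_subtype_val
  refine ((t3_finGh b 𝔫 v r s h hQ').preimage (f := fun γ : HU b K => (γ : GK b K)) Subtype.val_injective.injOn).subset ?_
  rintro γ ⟨h1, h2⟩
  exact ⟨h1, kU b K γ, h2, rfl⟩

theorem t3_sfU (b : P.Base) {K : Type} [Field K] [NumberField K] (𝔫 : Ideal (𝓞 K)) (v : HeightOneSpectrum (𝓞 K)) (r s : ℕ) :
    ∃ D : Set (UR b K), SF ((GamK b 𝔫 v r s).subgroupOf (HU b K)) D := by
  have := t3_count b K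
  refine t2_exists_sf (e := kU b K) (fun h x => rfl) (fun γ _ e => t3_kU_inj b K (by rw [e, map_one])) fun Q hQ => ?_
  have hQ' : IsCompact ((fun x : UR b K => (x : GR b K)) '' Q) := hQ.image continuous_subtype_val
  refine ((t3_finG b 𝔫 v r s hQ').preimage (f := fun γ : HU b K => (γ : GK b K)) Subtype.val_injective.injOn).subset ?_
  rintro γ ⟨h1, h2⟩
  exact ⟨h1, kU b K γ, h2, rfl⟩

end

end Pool.Agent.Lib.L1S
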