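import Pool.Agent.Lib.L1S.R0
import Pool.Agent.Lib.L1S.R1A
import Pool.Agent.Lib.L1S.R5C
import Pool.Agent.Lib.L1S.T3

/-!
# L1S, module R (arithmetic), R12A: counting: the sets and the coordinates
-/

namespace Pool.Agent.Lib.L1S

open MeasureTheory Matrix NumberField IsDedekindDomain Pool.Agent.Lib.H89N Pool.Agent.Lib.H33W
open scoped ENNReal Pointwise

noncomputable section

set_option linter.unusedSectionVars false

variable {ι M N : Type} [Fintype ι] [DecidableEq ι] [AddCommGroup M] [Module ℚ M] [AddCommGroup N] [Module ℚ N]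
  {P : RootPairing ι ℚ M N} [P.IsCrystallographic] [P.IsRootSystem] {b : P.Base} {K : Type} [Field K] [NumberField K]

/-- The elements `γ` of `U(𝓞) ∩ FK k` with `γ ∈ a Ω a⁻¹`. -/
def CS (b : P.Base) (K : Type) [Field K] [NumberField K] (v : HeightOneSpectrum (𝓞 K)) (Ω : Set (GL (I b) (EE K))) (A : M →ₗ[ℚ] ℝ) (k : ℕ) : Set (GK b K) :=
  {γ | γ ∈ GamK b ⊤ v 0 0 ∧ γ ∈ FK b K k ∧ ∃ κ ∈ Ω, (emb b K γ).1.1 = dg b K A * κ.1 * dg b K (-A)}

theorem r12a_entry (b : P.Base) (K : Type) [Field K] [NumberField K] (A : M →ₗ[ℚ] ℝ) (r : I b) :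
    (Sum.elim (fun _ => 1) fun β => algebraMap ℝ (EE K) (Real.exp (A (P.root β))) : I b → EE K) r =
      algebraMap ℝ (EE K) (Real.exp (A (wtR b r))) := by
  rcases r with j | β
  · have e : wtR b (Sum.inl j) = 0 := rfl
    rw [e, map_zero, Real.exp_zero, map_one]
    rfl
  · rfl

theorem r12a_dg_mul (b : P.Base) (K : Type) [Field K] [NumberField K] (A : M →ₗ[ℚ] ℝ) :
    dg b K A * dg b K (-A) = 1 := by
  unfold dg
  rw [Matrix.diagonal_mul_diagonal, ← Matrix.diagonal_one]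
  congr 1
  funext r
  rw [r12a_entry, r12a_entry, ← map_mul, ← Real.exp_add]
  have e : A (wtR b r) + (-A) (wtR b r) = 0 := by
    rw [LinearMap.neg_apply, add_neg_cancel]
  rw [e, Real.exp_zero, map_one]

/-- the torus element as a unit -/
def r12a_a (b : P.Base) (K : Type) [Field K] [NumberField K] (A : M →ₗ[ℚ] ℝ) : GL (I b) (EE K) where
  val := dg b K A
  inv := dg b K (-A)
  val_inv := r12a_dg_mul b K A
  inv_val := by
    have h := r12a_dg_mul b K (-A)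
    rwa [neg_neg] at h

theorem r12a_conj {A : M →ₗ[ℚ] ℝ} {g κ : GL (I b) (EE K)} :
    g.1 = dg b K A * κ.1 * dg b K (-A) ↔ g = r12a_a b K A * κ * (r12a_a b K A)⁻¹ := by
  constructor
  · intro h
    exact Units.ext h
  · intro h
    rw [h]
    rfl

/-- PROOF. `Matrix.mul_diagonal`, `Matrix.diagonal_mul`, `map_mul`, `Real.exp_add`. -/
theorem r12_dg (A : M →ₗ[ℚ] ℝ) (X : Matrix (I b) (I b) (EE K)) (r c : I b) : (dg b K A * X * dg b K (-A)) r c = algebraMap ℝ (EE K) (Real.exp (A (wtR b r) - A (wtR b c))) * X r c := by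
  unfold dg
  rw [Matrix.mul_diagonal, Matrix.diagonal_mul, r12a_entry, r12a_entry, sub_eq_add_neg, Real.exp_add, map_mul,
    LinearMap.neg_apply]
  ring

/-- PROOF. `dg A * dg (-A) = 1` and `dg (-A) * dg A = 1` (diagonal matrices), so `(a κ a⁻¹)⁻¹ (a κ' a⁻¹) = a κ⁻¹ κ' a⁻¹`. -/
theorem r12_quot {A : M →ₗ[ℚ] ℝ} {x y : GR b K} {κ κ' : GL (I b) (EE K)} (hx : x.1.1 = dg b K A * κ.1 * dg b K (-A)) (hy : y.1.1 = dg b K A * κ'.1 * dg b K (-A)) :
    (x⁻¹ * y).1.1 = dg b K A * (κ⁻¹ * κ').1 * dg b K (-A) ∧ (x * y⁻¹).1.1 = dg b K A * (κ * κ'⁻¹).1 * dg b K (-A) := by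
  rw [r12a_conj] at hx hy
  rw [r12a_conj, r12a_conj]
  have e1 : (x⁻¹ * y).1 = x.1⁻¹ * y.1 := rfl
  have e2 : (x * y⁻¹).1 = x.1 * y.1⁻¹ := rfl
  rw [e1, e2, hx, hy]
  constructor
  · group
  · group

/-- PROOF. The entries `κ r c` of `κ ∈ Ω` are bounded (`Ω` compact; `Units.continuous_val`). For `β ∈ Posk k`: `mixedEmbedding (cf β γ) = cf β (emb γ) = ∑_j z_j (emb γ)(inl j, inr (-β))` and by `r12_dg` each entry is `exp (A β) κ(inl j, inr (-β))` (`wtR (inl j) = 0`, `wtR (inr (-β)) = -β`: `P.root_reflectionPerm..`). `cf β γ` is an algebraic integer (`r5_cf_InI`). -/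
theorem r12_cf (L : LieD b K) {Ω : Set (GL (I b) (EE K))} (hΩ : IsCompact Ω) : ∃ B : ℝ, 1 ≤ B ∧ ∀ (v : HeightOneSpectrum (𝓞 K)) (A : M →ₗ[ℚ] ℝ) (k : ℕ), ∀ γ ∈ CS b K v Ω A k, ∀ β ∈ Posk b k,
    Pool.Agent.Lib.L1S.InI ⊤ (L.cf β γ.1.1) ∧ ‖mixedEmbedding K (L.cf β γ.1.1)‖ ≤ B * Real.exp (A (P.root β)) := by
  obtain ⟨B0, hB0, hB1⟩ : ∃ B0 : ℝ, 0 ≤ B0 ∧ ∀ κ ∈ Ω, ∀ r c : I b, ‖κ.1 r c‖ ≤ B0 := by
    have h : ∀ p : I b × I b, ∃ B : ℝ, ∀ κ ∈ Ω, ‖κ.1 p.1 p.2‖ ≤ B := by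
      intro p
      refine hΩ.exists_bound_of_continuousOn (f := fun κ : GL (I b) (EE K) => κ.1 p.1 p.2) ?_
      exact (Units.continuous_val.matrix_elem p.1 p.2).continuousOn
    choose B hB using h
    refine ⟨∑ p, |B p|, Finset.sum_nonneg fun _ _ => abs_nonneg _, fun κ hκ r c => ?_⟩
    exact (hB (r, c) κ hκ).trans ((le_abs_self _).trans
      (Finset.single_le_sum (f := fun p => |B p|) (fun p _ => abs_nonneg _) (Finset.mem_univ (r, c))))
  refine ⟨1 + ∑ β, ∑ j, |(L.z β j : ℝ)| * B0, ?_, fun v A k γ hγ β hβ => ⟨?_, ?_⟩⟩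
  · have : 0 ≤ ∑ β, ∑ j, |(L.z β j : ℝ)| * B0 :=
      Finset.sum_nonneg fun _ _ => Finset.sum_nonneg fun _ _ => mul_nonneg (abs_nonneg _) hB0
    linarith
  · exact r5_cf_InI L β (𝔫 := ⊤) fun i j => (hγ.1 i j).1.1
  · obtain ⟨-, -, κ, hκ, hγκ⟩ := hγ
    have h1 : mixedEmbedding K (L.cf β γ.1.1) =
        ∑ j, (L.z β j : ℝ) • (Real.exp (A (P.root β)) • κ.1 (Sum.inl j) (Sum.inr (P.reflectionPerm β β))) := by
      unfold LieD.cf
      rw [map_sum]
      refine Finset.sum_congr rfl fun j _ => ?_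
      have h2 : mixedEmbedding K (γ.1.1 (Sum.inl j) (Sum.inr (P.reflectionPerm β β))) =
          (emb b K γ).1.1 (Sum.inl j) (Sum.inr (P.reflectionPerm β β)) := rfl
      have h3 : A (wtR b (Sum.inl j)) - A (wtR b (Sum.inr (P.reflectionPerm β β))) = A (P.root β) := by
        have h4 : wtR b (Sum.inr (P.reflectionPerm β β)) = -P.root β := by
          change P.root (P.reflectionPerm β β) = -P.root β
          simp
        have h5 : wtR b (Sum.inl j) = 0 := rfl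
        rw [h4, h5, map_zero, map_neg]
        ring
      rw [map_mul, map_intCast, h2, hγκ, r12_dg, h3, ← Algebra.smul_def]
      have h6 : ((L.z β j : ℤ) : EE K) = algebraMap ℝ (EE K) (L.z β j : ℝ) := by
        rw [map_intCast]
      rw [h6, ← Algebra.smul_def]
    rw [h1]
    have hexp : 0 ≤ Real.exp (A (P.root β)) := (Real.exp_pos _).le
    calc ‖∑ j, (L.z β j : ℝ) • (Real.exp (A (P.root β)) • κ.1 (Sum.inl j) (Sum.inr (P.reflectionPerm β β)))‖
        ≤ ∑ j, |(L.z β j : ℝ)| * B0 * Real.exp (A (P.root β)) := by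
          refine (norm_sum_le _ _).trans (Finset.sum_le_sum fun j _ => ?_)
          rw [norm_smul, norm_smul, Real.norm_eq_abs, Real.norm_eq_abs, abs_of_nonneg hexp, mul_assoc]
          refine mul_le_mul_of_nonneg_left ?_ (abs_nonneg _)
          rw [mul_comm]
          exact mul_le_mul_of_nonneg_right (hB1 κ hκ _ _) hexp
      _ = (∑ j, |(L.z β j : ℝ)| * B0) * Real.exp (A (P.root β)) := by rw [Finset.sum_mul]
      _ ≤ (1 + ∑ β, ∑ j, |(L.z β j : ℝ)| * B0) * Real.exp (A (P.root β)) := by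
          refine mul_le_mul_of_nonneg_right ?_ hexp
          have h7 : ∑ j, |(L.z β j : ℝ)| * B0 ≤ ∑ β, ∑ j, |(L.z β j : ℝ)| * B0 :=
            Finset.single_le_sum (f := fun β => ∑ j, |(L.z β j : ℝ)| * B0)
              (fun _ _ => Finset.sum_nonneg fun _ _ => mul_nonneg (abs_nonneg _) hB0) (Finset.mem_univ β)
          linarith

/-- PROOF. `emb γ` is in the compact set of the `y : GR b K` with `y.1 ∈ a Ω a⁻¹` (`a` as an element of `GL`: `dg` is invertible; `GE` is closed: `GE_closed`); `t3_finG`. -/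
theorem r12_fin (v : HeightOneSpectrum (𝓞 K)) {Ω : Set (GL (I b) (EE K))} (hΩ : IsCompact Ω) (A : M →ₗ[ℚ] ℝ) (k : ℕ) : (CS b K v Ω A k).Finite := by
  have h1 : IsCompact ((fun κ : GL (I b) (EE K) => r12a_a b K A * κ * (r12a_a b K A)⁻¹) '' Ω) :=
    hΩ.image ((continuous_const.mul continuous_id).mul continuous_const)
  have h2 : IsCompact ((Subtype.val : GR b K → GL (I b) (EE K)) ⁻¹'
      ((fun κ : GL (I b) (EE K) => r12a_a b K A * κ * (r12a_a b K A)⁻¹) '' Ω)) :=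
    (GE_closed b K).isClosedEmbedding_subtypeVal.isCompact_preimage h1
  refine (t3_finG b ⊤ v 0 0 h2).subset ?_
  rintro γ ⟨h3, -, κ, hκ, h4⟩
  exact ⟨h3, κ, hκ, (r12a_conj.mp h4).symm⟩

end

end Pool.Agent.Lib.L1S
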