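import Pool.Agent.Lib.L1S.R0
import Pool.Agent.Lib.H33W.U2

/-!
# L1S, module R (arithmetic), R13A: measure and the number of translates
-/

namespace Pool.Agent.Lib.L1S

open MeasureTheory Matrix NumberField IsDedekindDomain Pool.Agent.Lib.H89N Pool.Agent.Lib.H33W
open scoped ENNReal Pointwise

noncomputable section

set_option linter.unusedSectionVars false

variable {ι M N : Type} [Fintype ι] [DecidableEq ι] [AddCommGroup M] [Module ℚ M] [AddCommGroup N] [Module ℚ N]
  {P : RootPairing ι ℚ M N} [P.IsCrystallographic] [P.IsRootSystem] {b : P.Base} {K : Type} [Field K] [NumberField K]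

theorem r13a_tsum {H X : Type} [Group H] [MulAction H X] {Γ : Subgroup H} {B : Set X} {n : ℕ} {x : X}
    (hf : {γ : H | γ ∈ Γ ∧ γ • x ∈ B}.Finite) (hn : {γ : H | γ ∈ Γ ∧ γ • x ∈ B}.ncard ≤ n) :
    ∑' g : Γ, B.indicator (1 : X → ENNReal) (g • x) ≤ n := by
  classical
  have hinj : Set.InjOn (Subtype.val : Γ → H) (Subtype.val ⁻¹' {γ : H | γ ∈ Γ ∧ γ • x ∈ B}) :=
    Subtype.val_injective.injOn
  have hfin : (Subtype.val ⁻¹' {γ : H | γ ∈ Γ ∧ γ • x ∈ B} : Set Γ).Finite := hf.preimage hinj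
  have h1 : ∑' g : Γ, B.indicator (1 : X → ENNReal) (g • x) =
      ∑ g ∈ hfin.toFinset, B.indicator (1 : X → ENNReal) (g • x) := by
    apply tsum_eq_sum
    intro g hg
    rw [Set.indicator_of_notMem]
    intro h
    exact hg (hfin.mem_toFinset.2 ⟨g.2, h⟩)
  rw [h1]
  have h2 : ∑ g ∈ hfin.toFinset, B.indicator (1 : X → ENNReal) (g • x) ≤ ∑ g ∈ hfin.toFinset, (1 : ENNReal) := by
    apply Finset.sum_le_sum
    intro g _
    by_cases h : g • x ∈ B
    · rw [Set.indicator_of_mem h]; exact le_rfl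
    · rw [Set.indicator_of_notMem h]; exact bot_le
  refine h2.trans ?_
  rw [Finset.sum_const, nsmul_eq_mul, mul_one]
  have h3 : hfin.toFinset.card ≤ {γ : H | γ ∈ Γ ∧ γ • x ∈ B}.ncard := by
    rw [← Finset.card_image_of_injective hfin.toFinset Subtype.val_injective, ← Set.ncard_coe_finset]
    apply Set.ncard_le_ncard _ hf
    intro y hy
    rw [Finset.coe_image] at hy
    obtain ⟨g, hg, rfl⟩ := hy
    exact hfin.mem_toFinset.1 hg
  exact_mod_cast h3.trans hn

/-- PROOF. `μ B = ∫⁻ 1_B = ∫⁻_{x ∈ D} ∑_{γ ∈ Γ} 1_B (γ • x)` (`IsFundamentalDomain.lintegral_eq_tsum'`-type; or as `H33W.u2_lint`: `u2_sum_one`; compare `t2_le` in Lib/L1S/T2.lean) and the inner sum is the number of `γ ∈ Γ` with `γ • x ∈ B`, at most `n`. -/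
theorem r13_le {H X : Type} [Group H] [Countable H] [MulAction H X] [MeasurableSpace X] {μ : Measure X} (hp : ∀ h : H, MeasurePreserving (fun x : X => h • x) μ μ) {Γ : Subgroup H} {D : Set X}
    (hD : SF Γ D) {B : Set X} (hB : MeasurableSet B) {n : ℕ} (hn : ∀ x : X, {γ : H | γ ∈ Γ ∧ γ • x ∈ B}.Finite ∧ {γ : H | γ ∈ Γ ∧ γ • x ∈ B}.ncard ≤ n) : μ B ≤ n * μ D := by
  classical
  have m1 : ∀ g : H, Measurable fun x : X => g • x := fun g => (hp g).measurable
  have mD : Measurable (D.indicator (1 : X → ENNReal)) := measurable_one.indicator hD.meas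
  have mB : Measurable (B.indicator (1 : X → ENNReal)) := measurable_one.indicator hB
  have e1 : ∀ x, B.indicator (1 : X → ENNReal) x = ∑' g : Γ, B.indicator (1 : X → ENNReal) x * D.indicator (1 : X → ENNReal) (g • x) := by
    intro x
    rw [ENNReal.tsum_mul_left, u2_sum_one hD x, mul_one]
  have e2 : ∀ g : Γ, ∫⁻ x, B.indicator (1 : X → ENNReal) x * D.indicator (1 : X → ENNReal) (g • x) ∂μ =
      ∫⁻ y, B.indicator (1 : X → ENNReal) (g⁻¹ • y) * D.indicator (1 : X → ENNReal) y ∂μ := by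
    intro g
    have hm : Measurable fun y => B.indicator (1 : X → ENNReal) (g⁻¹ • y) * D.indicator (1 : X → ENNReal) y :=
      (mB.comp (m1 (g⁻¹ : Γ))).mul mD
    rw [← (hp (g : H)).lintegral_comp hm]
    refine lintegral_congr fun x => ?_
    have h1 : (g⁻¹ • ((g : H) • x) : X) = x := by
      show (g⁻¹ • (g • x) : X) = x
      exact inv_smul_smul g x
    rw [h1]
    rfl
  calc μ B = ∫⁻ x, B.indicator (1 : X → ENNReal) x ∂μ := (lintegral_indicator_one hB).symm
    _ = ∫⁻ x, ∑' g : Γ, B.indicator (1 : X → ENNReal) x * D.indicator (1 : X → ENNReal) (g • x) ∂μ :=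
        lintegral_congr e1
    _ = ∑' g : Γ, ∫⁻ x, B.indicator (1 : X → ENNReal) x * D.indicator (1 : X → ENNReal) (g • x) ∂μ :=
        lintegral_tsum fun g => (mB.mul (mD.comp (m1 (g : H)))).aemeasurable
    _ = ∑' g : Γ, ∫⁻ y, B.indicator (1 : X → ENNReal) (g⁻¹ • y) * D.indicator (1 : X → ENNReal) y ∂μ :=
        tsum_congr e2
    _ = ∫⁻ y, ∑' g : Γ, B.indicator (1 : X → ENNReal) (g⁻¹ • y) * D.indicator (1 : X → ENNReal) y ∂μ :=
        (lintegral_tsum fun g => ((mB.comp (m1 (g⁻¹ : Γ))).mul mD).aemeasurable).symm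
    _ ≤ ∫⁻ y, (n : ENNReal) * D.indicator (1 : X → ENNReal) y ∂μ := by
        refine lintegral_mono fun y => ?_
        show ∑' g : Γ, B.indicator (1 : X → ENNReal) (g⁻¹ • y) * D.indicator (1 : X → ENNReal) y ≤ _
        rw [ENNReal.tsum_mul_right]
        refine mul_le_mul_left ?_ _
        have h1 : ∑' g : Γ, B.indicator (1 : X → ENNReal) (g⁻¹ • y) = ∑' g : Γ, B.indicator (1 : X → ENNReal) (g • y) :=
          (Equiv.inv Γ).tsum_eq fun g : Γ => B.indicator (1 : X → ENNReal) (g • y)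
        rw [h1]
        exact r13a_tsum (hn y).1 (hn y).2
    _ = n * μ D := by
        rw [lintegral_const_mul _ mD, lintegral_indicator_one hD.meas]

theorem r13a_dg (A : M →ₗ[ℚ] ℝ) : dg b K A * dg b K (-A) = 1 := by
  unfold dg
  rw [Matrix.diagonal_mul_diagonal, ← Matrix.diagonal_one]
  congr 1
  funext i
  rcases i with i | β
  · simp
  · show algebraMap ℝ (EE K) (Real.exp (A (P.root β))) * algebraMap ℝ (EE K) (Real.exp ((-A) (P.root β))) = 1
    rw [← map_mul, ← Real.exp_add, LinearMap.neg_apply, add_neg_cancel, Real.exp_zero, map_one]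

/-- PROOF. The set is the preimage of the image of `Ω` in the matrices (compact, so closed) under the continuous map `u ↦ dg (-A) * u * dg A` (`dg A * dg (-A) = 1`): it is closed. -/
theorem r13_meas {Ω : Set (GL (I b) (EE K))} (hΩ : IsCompact Ω) (A : M →ₗ[ℚ] ℝ) : MeasurableSet {u : UR b K | ∃ κ ∈ Ω, u.1.1.1 = dg b K A * κ.1 * dg b K (-A)} := by
  have h1 : dg b K A * dg b K (-A) = 1 := r13a_dg A
  have h2 : dg b K (-A) * dg b K A = 1 := by
    have := r13a_dg (b := b) (K := K) (-A)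
    rwa [neg_neg] at this
  have hc : IsCompact ((fun κ : GL (I b) (EE K) => κ.1) '' Ω) := hΩ.image Units.continuous_val
  have hcont : Continuous fun u : UR b K => dg b K (-A) * u.1.1.1 * dg b K A := by
    have h3 : Continuous fun u : UR b K => u.1.1.1 :=
      Units.continuous_val.comp (continuous_subtype_val.comp continuous_subtype_val)
    exact (continuous_const.mul h3).mul continuous_const
  have h4 : {u : UR b K | ∃ κ ∈ Ω, u.1.1.1 = dg b K A * κ.1 * dg b K (-A)} =
      (fun u : UR b K => dg b K (-A) * u.1.1.1 * dg b K A) ⁻¹' ((fun κ : GL (I b) (EE K) => κ.1) '' Ω) := by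
    ext u
    constructor
    · rintro ⟨κ, hκ, h⟩
      refine ⟨κ, hκ, ?_⟩
      show κ.1 = dg b K (-A) * u.1.1.1 * dg b K A
      rw [h]
      calc κ.1 = 1 * κ.1 * 1 := by rw [one_mul, mul_one]
        _ = (dg b K (-A) * dg b K A) * κ.1 * (dg b K (-A) * dg b K A) := by rw [h2]
        _ = dg b K (-A) * (dg b K A * κ.1 * dg b K (-A)) * dg b K A := by noncomm_ring
    · rintro ⟨κ, hκ, h⟩
      have h' : κ.1 = dg b K (-A) * u.1.1.1 * dg b K A := h
      refine ⟨κ, hκ, ?_⟩
      rw [h']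
      calc u.1.1.1 = 1 * u.1.1.1 * 1 := by rw [one_mul, mul_one]
        _ = (dg b K A * dg b K (-A)) * u.1.1.1 * (dg b K A * dg b K (-A)) := by rw [h1]
        _ = dg b K A * (dg b K (-A) * u.1.1.1 * dg b K A) * dg b K (-A) := by noncomm_ring
  rw [h4]
  exact (hc.isClosed.preimage hcont).measurableSet

end

end Pool.Agent.Lib.L1S
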