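import Pool.Agent.Lib.L1S.R0

/-!
# L1S, module R (arithmetic), R6A: indices along a filtration
-/

namespace Pool.Agent.Lib.L1S

open MeasureTheory Matrix NumberField IsDedekindDomain Pool.Agent.Lib.H89N Pool.Agent.Lib.H33W
open scoped ENNReal Pointwise

noncomputable section

set_option linter.unusedSectionVars false

variable {ι M N : Type} [Fintype ι] [DecidableEq ι] [AddCommGroup M] [Module ℚ M] [AddCommGroup N] [Module ℚ N]
  {P : RootPairing ι ℚ M N} [P.IsCrystallographic] [P.IsRootSystem] {b : P.Base} {K : Type} [Field K] [NumberField K]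

theorem r6a_sup {G : Type} [Group G] (S T : Subgroup G) [T.Normal] : S.relIndex (S ⊔ T) = S.relIndex T := by
  symm
  unfold Subgroup.relIndex Subgroup.index
  refine Nat.card_congr (Equiv.ofBijective (Subgroup.quotientSubgroupOfEmbeddingOfLE S (le_sup_right : T ≤ S ⊔ T))
    ⟨(Subgroup.quotientSubgroupOfEmbeddingOfLE S (le_sup_right : T ≤ S ⊔ T)).injective, ?_⟩)
  intro q
  induction q using QuotientGroup.induction_on with
  | H x =>
    obtain ⟨x, hx⟩ := x
    have hx' := hx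
    rw [sup_comm, ← SetLike.mem_coe, Subgroup.normal_mul] at hx'
    obtain ⟨t, ht, s, hs, hts⟩ := hx'
    refine ⟨QuotientGroup.mk ⟨t, ht⟩, ?_⟩
    rw [Subgroup.quotientSubgroupOfEmbeddingOfLE_apply_mk]
    refine QuotientGroup.eq.mpr ?_
    rw [Subgroup.mem_subgroupOf]
    simp only [Subgroup.coe_mul, Subgroup.coe_inv, Subgroup.coe_inclusion]
    have : t⁻¹ * x = s := by rw [← hts]; simp
    rw [this]
    exact hs

/-- PROOF. `[Γ : Γ'] = [Γ : Γ' Γ₊] [Γ' Γ₊ : Γ']`, `Γ₊ = Γ ⊓ F'` (normal in `Γ`: it is the kernel of the homomorphism `d` on `Γ`). Suggestion: `δ : Γ →* Multiplicative A`, `δ g = d g` (`hd`; `d 1 = 0` follows), `Γ'' = Γ'.subgroupOf Γ`; `Γ''.index = (Γ'' ⊔ δ.ker).index * Γ''.relIndex (Γ'' ⊔ δ.ker)` (`Subgroup.relIndex_mul_index`),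
`(Γ'' ⊔ δ.ker).index = (Γ''.map δ).relIndex δ.range` (`Subgroup.relIndex_map_map..`, `Subgroup.index_map`), `Γ''.relIndex (Γ'' ⊔ δ.ker) = Γ''.relIndex δ.ker` (`Subgroup.relIndex_sup_right`, `δ.ker` normal). Then translate `D`, `D'` (carriers `d '' Γ`, `d '' Γ'`) and `δ.ker` (`= (Γ ⊓ F').subgroupOf Γ`). -/
theorem r6_step {G A : Type} [Group G] [AddCommGroup A] {F F' Γ Γ' : Subgroup G} (d : G → A) (hd : ∀ g ∈ F, ∀ h ∈ F, d (g * h) = d g + d h)
    (hF' : ∀ g, g ∈ F' ↔ g ∈ F ∧ d g = 0) (h1 : Γ' ≤ Γ) (h2 : Γ ≤ F) {D D' : AddSubgroup A} (hD : (D : Set A) = d '' (Γ : Set G)) (hD' : (D' : Set A) = d '' (Γ' : Set G)) :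
    Γ'.relIndex Γ = D'.relIndex D * (Γ' ⊓ F').relIndex (Γ ⊓ F') := by
  have hone : d 1 = 0 := by
    have h3 := hd 1 (one_mem _) 1 (one_mem _)
    rw [mul_one] at h3
    exact left_eq_add.mp h3
  let δ : Γ →* Multiplicative A :=
    { toFun := fun g => Multiplicative.ofAdd (d g)
      map_one' := by
        show Multiplicative.ofAdd (d 1) = 1
        rw [hone]
        rfl
      map_mul' := fun g h => by
        show Multiplicative.ofAdd (d (g * h)) = Multiplicative.ofAdd (d g) * Multiplicative.ofAdd (d h)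
        rw [hd _ (h2 g.2) _ (h2 h.2)]
        rfl }
  have hker : δ.ker = (Γ ⊓ F').subgroupOf Γ := by
    ext g
    rw [MonoidHom.mem_ker, Subgroup.mem_subgroupOf, Subgroup.mem_inf]
    constructor
    · intro h3
      exact ⟨g.2, (hF' _).mpr ⟨h2 g.2, h3⟩⟩
    · intro h3
      exact ((hF' _).mp h3.2).2
  have hS : (Γ'.subgroupOf Γ).map δ = AddSubgroup.toSubgroup D' := by
    ext a
    rw [Subgroup.mem_map]
    have h3 : a ∈ AddSubgroup.toSubgroup D' ↔ Multiplicative.toAdd a ∈ (D' : Set A) := Iff.rfl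
    rw [h3, hD']
    constructor
    · rintro ⟨g, hg, rfl⟩
      exact ⟨g, Subgroup.mem_subgroupOf.mp hg, rfl⟩
    · rintro ⟨g, hg, hga⟩
      exact ⟨⟨g, h1 hg⟩, Subgroup.mem_subgroupOf.mpr hg, hga⟩
  have hT : (⊤ : Subgroup Γ).map δ = AddSubgroup.toSubgroup D := by
    ext a
    rw [Subgroup.mem_map]
    have h3 : a ∈ AddSubgroup.toSubgroup D ↔ Multiplicative.toAdd a ∈ (D : Set A) := Iff.rfl
    rw [h3, hD]
    constructor
    · rintro ⟨g, hg, rfl⟩
      exact ⟨g, g.2, rfl⟩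
    · rintro ⟨g, hg, hga⟩
      exact ⟨⟨g, hg⟩, Subgroup.mem_top _, hga⟩
  have h4 : (Γ'.subgroupOf Γ).relIndex (Γ'.subgroupOf Γ ⊔ δ.ker) * (Γ'.subgroupOf Γ ⊔ δ.ker).index
      = (Γ'.subgroupOf Γ).index := Subgroup.relIndex_mul_index le_sup_left
  have h5 : (Γ'.subgroupOf Γ ⊔ δ.ker).index = D'.relIndex D := by
    have h6 := Subgroup.relIndex_map_map δ (Γ'.subgroupOf Γ) ⊤
    rw [hS, hT, AddSubgroup.relIndex_toSubgroup, top_sup_eq, Subgroup.relIndex_top_right] at h6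
    exact h6.symm
  have h7 : (Γ'.subgroupOf Γ).relIndex (Γ'.subgroupOf Γ ⊔ δ.ker) = (Γ' ⊓ F').relIndex (Γ ⊓ F') := by
    rw [r6a_sup, hker, Subgroup.relIndex_subgroupOf (inf_le_left)]
    rw [← Subgroup.inf_relIndex_right Γ', ← Subgroup.inf_relIndex_right (Γ' ⊓ F')]
    congr 1
    ext g
    simp only [Subgroup.mem_inf]
    tauto
  rw [h5, h7] at h4
  rw [mul_comm]
  exact h4.symm


end

end Pool.Agent.Lib.L1S
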