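import Pool.Agent.Lib.L1S.R0
import Pool.Agent.Lib.L1S.R6A

/-!
# L1S, module R (arithmetic), R6B: indices along a filtration, induction
-/

namespace Pool.Agent.Lib.L1S

open MeasureTheory Matrix NumberField IsDedekindDomain Pool.Agent.Lib.H89N Pool.Agent.Lib.H33W
open scoped ENNReal Pointwise

noncomputable section

set_option linter.unusedSectionVars false

variable {ι M N : Type} [Fintype ι] [DecidableEq ι] [AddCommGroup M] [Module ℚ M] [AddCommGroup N] [Module ℚ N]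
  {P : RootPairing ι ℚ M N} [P.IsCrystallographic] [P.IsRootSystem] {b : P.Base} {K : Type} [Field K] [NumberField K]

/-- PROOF. Induction with `r6_step`: `(Γ' ⊓ F (i + 1)).relIndex (Γ ⊓ F (i + 1)) = D'_(i+1).relIndex D_(i+1) * (Γ' ⊓ F (i + 2)).relIndex (Γ ⊓ F (i + 2))`, `F (H + 1) = ⊥` gives `1` at the end (both sides are `⊥`). -/
theorem r6_chain {G A : Type} [Group G] [AddCommGroup A] (F : ℕ → Subgroup G) (d : ℕ → G → A) (hd : ∀ k, 1 ≤ k → ∀ g ∈ F k, ∀ h ∈ F k, d k (g * h) = d k g + d k h)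
    (hF : ∀ k, 1 ≤ k → ∀ g, g ∈ F (k + 1) ↔ g ∈ F k ∧ d k g = 0) {H : ℕ} (hH : F (H + 1) = ⊥) {Γ Γ' : Subgroup G} (h1 : Γ' ≤ Γ) (h2 : Γ ≤ F 1) (D D' : ℕ → AddSubgroup A)
    (hD : ∀ k ∈ Finset.Icc 1 H, (D k : Set A) = d k '' ((Γ ⊓ F k : Subgroup G) : Set G)) (hD' : ∀ k ∈ Finset.Icc 1 H, (D' k : Set A) = d k '' ((Γ' ⊓ F k : Subgroup G) : Set G)) :
    Γ'.relIndex Γ = ∏ k ∈ Finset.Icc 1 H, (D' k).relIndex (D k) := by
  have key : ∀ n, n ≤ H → Γ'.relIndex Γ = (∏ k ∈ Finset.Icc 1 n, (D' k).relIndex (D k)) *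
      (Γ' ⊓ F (n + 1)).relIndex (Γ ⊓ F (n + 1)) := by
    intro n
    induction n with
    | zero =>
      intro _
      rw [Finset.Icc_eq_empty (by norm_num), Finset.prod_empty, one_mul, zero_add, inf_eq_left.mpr h2,
        inf_eq_left.mpr (h1.trans h2)]
    | succ n ih =>
      intro hn
      have hmem : n + 1 ∈ Finset.Icc 1 H := Finset.mem_Icc.mpr ⟨by omega, hn⟩
      have hle : F (n + 1 + 1) ≤ F (n + 1) := fun g hg => ((hF (n + 1) (by omega) g).mp hg).1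
      have h3 := r6_step (F := F (n + 1)) (F' := F (n + 1 + 1)) (Γ := Γ ⊓ F (n + 1)) (Γ' := Γ' ⊓ F (n + 1)) (d (n + 1))
        (hd (n + 1) (by omega)) (hF (n + 1) (by omega)) (inf_le_inf_right _ h1) inf_le_right (hD (n + 1) hmem) (hD' (n + 1) hmem)
      rw [inf_assoc, inf_assoc, inf_eq_right.mpr hle] at h3
      rw [ih (by omega), h3, Finset.prod_Icc_succ_top (by omega), mul_assoc]
  have h3 := key H le_rfl
  rw [hH, inf_bot_eq, inf_bot_eq, Subgroup.relIndex_self, mul_one] at h3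
  exact h3

end

end Pool.Agent.Lib.L1S
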