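import Pool.Agent.Lib.L1S.R0
import Pool.Agent.Lib.L1S.R1A
import Pool.Agent.Lib.L1S.R1B
import Pool.Agent.Lib.L1S.R3B

/-!
# L1S, module R (arithmetic), R4: `Γ_h ∩ U ⊆ Γ`
-/

namespace Pool.Agent.Lib.L1S

open MeasureTheory Matrix NumberField IsDedekindDomain Pool.Agent.Lib.H89N Pool.Agent.Lib.H33W
open scoped ENNReal Pointwise

noncomputable section

set_option linter.unusedSectionVars false

variable {ι M N : Type} [Fintype ι] [DecidableEq ι] [AddCommGroup M] [Module ℚ M] [AddCommGroup N] [Module ℚ N]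
  {P : RootPairing ι ℚ M N} [P.IsCrystallographic] [P.IsRootSystem] {b : P.Base} {K : Type} [Field K] [NumberField K]

/-- PROOF. `r3_Gh`, `r3_GamK`. Let `x` be the matrix of `g` or of `g⁻¹` (both are in `HU`, so unitriangular: `r1_HU`) with `IwL b v r s (cj b c π x)`; claim `IwL b v r s x`. For `ht i ≤ ht j` the entry is the entry of `1`. For `ht j < ht i`: by `Uni` (`L.uni` for `emb g`; `mixedEmbedding` is injective) either `x i j = 0` or `wq j ≤ wq i` for all `k`;
then `pr c j ≤ pr c i` (`r1_pr_mono`, `hL.dom`) and `x i j = π ^ (pr i - pr j) * cj i j` (`r3_cj`), `v(π ^ m) ≤ 1` for `m ≥ 0`, so `v(x i j) ≤ 1`. -/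
theorem r4_le (L : LieD b K) {𝔫 : Ideal (𝓞 K)} {v : HeightOneSpectrum (𝓞 K)} {r s : ℕ} {c : b.support → ℤ} {π : K} {h : GK b K} (hL : Lv b 𝔫 v r s c π h) :
    Gh b 𝔫 v r s h ⊓ HU b K ≤ GamK b 𝔫 v r s := by
  have hπ0 : π ≠ 0 := by
    rintro rfl
    have h1 := hL.hπ
    rw [map_zero] at h1
    exact WithZero.exp_ne_zero h1.symm
  have key : ∀ x : GK b K, x ∈ HU b K → IwL b v r s (cj b c π x.1.1) → IwL b v r s x.1.1 := by
    intro x hx hI
    have hF : x ∈ FK b K 1 := by
      rw [← r1_HU]
      exact hx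
    have h1 : ∀ i j, ht b i ≤ ht b j → x.1.1 i j = (1 : Matrix (I b) (I b) K) i j := by
      intro i j hij
      exact hF.1 i j (by push_cast; omega)
    have hU := L.uni (emb b K x) hx
    intro i j
    refine ⟨?_, ?_, ?_⟩
    · by_cases hij : ht b i ≤ ht b j
      · rw [h1 i j hij, Matrix.one_apply]
        split_ifs
        · rw [map_one]
        · rw [map_zero]
          exact zero_le_one
      · rcases hU i j with h2 | ⟨-, h2⟩
        · have h3 : x.1.1 i j = (1 : Matrix (I b) (I b) K) i j := by
            apply mixedEmbedding_injective K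
            have h4 : (emb b K x).1.1 i j = mixedEmbedding K (x.1.1 i j) := rfl
            rw [← h4, h2, Matrix.one_apply, Matrix.one_apply]
            split_ifs
            · rw [map_one]
            · rw [map_zero]
          rw [h3, Matrix.one_apply]
          split_ifs
          · rw [map_one]
          · rw [map_zero]
            exact zero_le_one
        · have h3 : pr b c j ≤ pr b c i := r1_pr_mono hL.dom h2
          have h4 : x.1.1 i j = π ^ (pr b c i - pr b c j) * cj b c π x.1.1 i j := by
            rw [r3_cj hπ0, ← mul_assoc, ← zpow_add₀ hπ0]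
            have h5 : pr b c i - pr b c j + (pr b c j - pr b c i) = 0 := by ring
            rw [h5, zpow_zero, one_mul]
          rw [h4, map_mul, r3_val_zpow hL.hπ]
          refine mul_le_one' ?_ (hI i j).1
          rw [← WithZero.exp_zero, WithZero.exp_le_exp]
          omega
    · intro hij
      rw [h1 i j hij.le, Matrix.one_apply_ne (by rintro rfl; exact lt_irrefl _ hij), map_zero]
      exact zero_le
    · intro hij
      rw [Matrix.sub_apply, h1 i j hij.le, sub_self, map_zero]
      exact zero_le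
  intro g hg
  obtain ⟨hg1, hg2⟩ := Subgroup.mem_inf.1 hg
  obtain ⟨h3, h4, h5⟩ := (r3_Gh hL).1 hg1
  exact (r3_GamK hL.nv).2 ⟨h3, key g hg2 h4, key g⁻¹ ((HU b K).inv_mem hg2) h5⟩

end

end Pool.Agent.Lib.L1S
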