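import Pool.Agent.Lib.L1S.R0
import Pool.Agent.Lib.L1S.R2B
import Pool.Agent.Lib.L1S.R5C

/-!
# L1S, module R (arithmetic), R6C: the additive groups of the degree parts
-/

namespace Pool.Agent.Lib.L1S

open MeasureTheory Matrix NumberField IsDedekindDomain Pool.Agent.Lib.H89N Pool.Agent.Lib.H33W
open scoped ENNReal Pointwise

noncomputable section

set_option linter.unusedSectionVars false

variable {ι M N : Type} [Fintype ι] [DecidableEq ι] [AddCommGroup M] [Module ℚ M] [AddCommGroup N] [Module ℚ N]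
  {P : RootPairing ι ℚ M N} [P.IsCrystallographic] [P.IsRootSystem] {b : P.Base} {K : Type} [Field K] [NumberField K]

/-- The matrices `∑ y_β E_β` with `y_β ∈ 𝔞_β`, the sum over the positive roots of height `k`. -/
def WW (L : LieD b K) (k : ℕ) (𝔞 : ι → Ideal (𝓞 K)) : AddSubgroup (Matrix (I b) (I b) K) where
  carrier := {X | ∃ y : ι → K, (∀ β, Pool.Agent.Lib.L1S.InI (𝔞 β) (y β)) ∧ X = ∑ β ∈ Posk b k, y β • L.E K β}
  zero_mem' := ⟨fun _ => 0, fun _ => Pool.Agent.Lib.L1S.InI.zero _, by simp⟩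
  add_mem' := by
    rintro _ _ ⟨y, hy, rfl⟩ ⟨z, hz, rfl⟩
    refine ⟨fun β => y β + z β, fun β => (hy β).add (hz β), ?_⟩
    rw [← Finset.sum_add_distrib]
    exact Finset.sum_congr rfl fun β _ => (add_smul _ _ _).symm
  neg_mem' := by
    rintro _ ⟨y, hy, rfl⟩
    refine ⟨fun β => -y β, fun β => ?_, ?_⟩
    · obtain ⟨a, ha, e⟩ := hy β
      exact ⟨-a, (𝔞 β).neg_mem ha, by show ((-a : 𝓞 K) : K) = -y β; rw [← e]; simp⟩
    · rw [← Finset.sum_neg_distrib]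
      exact Finset.sum_congr rfl fun β _ => (neg_smul _ _).symm

/-- The map `y ↦ ∑ y_β E_β`. -/
def r6cφ (L : LieD b K) (k : ℕ) : (Posk b k → 𝓞 K) →+ Matrix (I b) (I b) K where
  toFun y := ∑ β : Posk b k, ((y β : 𝓞 K) : K) • L.E K β.1
  map_zero' := by simp
  map_add' y z := by
    rw [← Finset.sum_add_distrib]
    refine Finset.sum_congr rfl fun β _ => ?_
    rw [← add_smul]
    simp

/-- Extension by zero. -/
def r6cx {k : ℕ} (y : Posk b k → 𝓞 K) (β : ι) : 𝓞 K := if h : β ∈ Posk b k then y ⟨β, h⟩ else 0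

theorem r6c_sum (L : LieD b K) {k : ℕ} (y : Posk b k → 𝓞 K) :
    r6cφ L k y = ∑ β ∈ Posk b k, ((r6cx y β : 𝓞 K) : K) • L.E K β := by
  rw [← Finset.sum_coe_sort (Posk b k)]
  show ∑ β : Posk b k, ((y β : 𝓞 K) : K) • L.E K β.1 = _
  refine Finset.sum_congr rfl fun β _ => ?_
  unfold r6cx
  rw [dif_pos β.2]

theorem r6c_inj (L : LieD b K) (k : ℕ) : Function.Injective (r6cφ L k) := by
  intro y z hyz
  rw [r6c_sum, r6c_sum] at hyz
  funext β
  have h1 := congrArg (L.cf β.1) hyz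
  rw [r5_cf_sum L β.2, r5_cf_sum L β.2] at h1
  unfold r6cx at h1
  rw [dif_pos β.2, dif_pos β.2] at h1
  exact RingOfIntegers.coe_injective h1

theorem r6c_map (L : LieD b K) (k : ℕ) (𝔞 : ι → Ideal (𝓞 K)) :
    WW L k 𝔞 = AddSubgroup.map (r6cφ L k) (AddSubgroup.pi Set.univ fun β : Posk b k => (𝔞 β.1).toAddSubgroup) := by
  ext X
  constructor
  · rintro ⟨y, hy, rfl⟩
    choose a ha hay using hy
    refine ⟨fun β => a β.1, ?_, ?_⟩
    · intro β _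
      exact ha β.1
    · show ∑ β : Posk b k, ((a β.1 : 𝓞 K) : K) • L.E K β.1 = _
      rw [Finset.sum_coe_sort (Posk b k) (fun β => ((a β : 𝓞 K) : K) • L.E K β)]
      refine Finset.sum_congr rfl fun β _ => ?_
      rw [hay β]
  · rintro ⟨y, hy, rfl⟩
    refine ⟨fun β => ((r6cx y β : 𝓞 K) : K), ?_, r6c_sum L y⟩
    intro β
    refine ⟨r6cx y β, ?_, rfl⟩
    unfold r6cx
    split_ifs with h
    · exact hy ⟨β, h⟩ (Set.mem_univ _)
    · exact (𝔞 β).zero_mem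

/-- PROOF. The map `y ↦ ∑ y_β E_β` is an isomorphism of `∏_{β ∈ Posk} 𝔞_β` onto `WW k 𝔞` (injective by `r5_cf_sum`), so the index is `∏ [𝔞_β : 𝔞_β 𝔠_β]` (`AddSubgroup.pi`, or induction), and `[𝔞 : 𝔞 𝔠] = N(𝔠)` (`r2_idx`). -/
theorem r6_ww (L : LieD b K) (k : ℕ) (𝔞 𝔠 : ι → Ideal (𝓞 K)) (h𝔞 : ∀ β, 𝔞 β ≠ ⊥) :
    (WW L k fun β => 𝔞 β * 𝔠 β).relIndex (WW L k 𝔞) = ∏ β ∈ Posk b k, Ideal.absNorm (𝔠 β) := by
  rw [r6c_map, r6c_map, AddSubgroup.relIndex_map_map_of_injective _ _ (r6c_inj L k)]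
  have hle : (AddSubgroup.pi Set.univ fun β : Posk b k => (𝔞 β.1 * 𝔠 β.1).toAddSubgroup) ≤
      AddSubgroup.pi Set.univ fun β : Posk b k => (𝔞 β.1).toAddSubgroup := by
    intro y hy β _
    have h1 : y β ∈ (𝔞 β.1 * 𝔠 β.1).toAddSubgroup := hy β (Set.mem_univ _)
    rw [Submodule.mem_toAddSubgroup] at h1
    have h0 : 𝔞 β.1 * 𝔠 β.1 ≤ 𝔞 β.1 := Ideal.mul_le_left
    have h2 : y β ∈ 𝔞 β.1 := h0 h1
    exact h2
  have hidx : ∀ 𝔟 : ι → Ideal (𝓞 K), (AddSubgroup.pi Set.univ fun β : Posk b k => (𝔟 β.1).toAddSubgroup).index =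
      ∏ β ∈ Posk b k, Ideal.absNorm (𝔟 β) := by
    intro 𝔟
    rw [AddSubgroup.index_pi, ← Finset.prod_coe_sort (Posk b k)]
    refine Finset.prod_congr rfl fun β _ => ?_
    rw [Ideal.absNorm_apply]
    rfl
  have h1 := AddSubgroup.relIndex_mul_index hle
  rw [hidx (fun β => 𝔞 β * 𝔠 β), hidx 𝔞] at h1
  have h2 : ∏ β ∈ Posk b k, Ideal.absNorm (𝔞 β * 𝔠 β) = (∏ β ∈ Posk b k, Ideal.absNorm (𝔠 β)) * ∏ β ∈ Posk b k, Ideal.absNorm (𝔞 β) := by
    rw [← Finset.prod_mul_distrib]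
    refine Finset.prod_congr rfl fun β _ => ?_
    rw [map_mul, mul_comm]
  rw [h2] at h1
  have h3 : 0 < ∏ β ∈ Posk b k, Ideal.absNorm (𝔞 β) := by
    apply Finset.prod_pos
    intro β _
    exact Nat.pos_of_ne_zero fun h => h𝔞 β (Ideal.absNorm_eq_zero_iff.1 h)
  exact Nat.eq_of_mul_eq_mul_right h3 h1

end

end Pool.Agent.Lib.L1S
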