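import Pool.Agent.Lib.L1S.R0
import Pool.Agent.Lib.L1S.R4
import Pool.Agent.Lib.L1S.R5C
import Pool.Agent.Lib.L1S.R5D
import Pool.Agent.Lib.L1S.R6C

/-!
# L1S, module R (arithmetic), R6D: the degree parts of `Γ ∩ U` and `h⁻¹ Γ h ∩ U`
-/

namespace Pool.Agent.Lib.L1S

open MeasureTheory Matrix NumberField IsDedekindDomain Pool.Agent.Lib.H89N Pool.Agent.Lib.H33W
open scoped ENNReal Pointwise

noncomputable section

set_option linter.unusedSectionVars false

variable {ι M N : Type} [Fintype ι] [DecidableEq ι] [AddCommGroup M] [Module ℚ M] [AddCommGroup N] [Module ℚ N]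
  {P : RootPairing ι ℚ M N} [P.IsCrystallographic] [P.IsRootSystem] {b : P.Base} {K : Type} [Field K] [NumberField K]

/-- PROOF. `⊇`: `r5_degK`, the coefficients `cf β g` are in `𝔫` (`r5_cf_InI`) for all `β`. `⊆`: the product `L.prK k y` (`r5_prK_GamK`, `r5_prK_FK`, `r5_prK_dgk`). -/
theorem r6_deg (L : LieD b K) {k : ℕ} (hk : 1 ≤ k) (𝔫 : Ideal (𝓞 K)) (v : HeightOneSpectrum (𝓞 K)) (r s : ℕ) :
    (WW L k fun _ => 𝔫 : Set (Matrix (I b) (I b) K)) = (fun g : GK b K => dgk b k g.1.1) '' ((GamK b 𝔫 v r s ⊓ FK b K k : Subgroup (GK b K)) : Set (GK b K)) := by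
  ext X
  constructor
  · rintro ⟨y, hy, rfl⟩
    exact ⟨L.prK k y, ⟨r5_prK_GamK L k v r s hy, r5_prK_FK L k y⟩, r5_prK_dgk L hk y⟩
  · rintro ⟨g, ⟨hg, hF⟩, rfl⟩
    exact ⟨fun β => L.cf β g.1.1, fun β => r5_cf_InI L β fun i j => (hg i j).1.1, r5_degK L hk hF⟩

/-- PROOF. `⊆`: `L.prK k y`, `r5_prK_Gh`. `⊇`: for `g` in `Gh` and `FK k` (so in `HU`: `r1_HU`, `r1_FK_mono`): `g ∈ GamK 𝔫` by `r4_le`, so `y_β = cf β g ∈ 𝔫` as in `r6_deg`; and (`r3_Gh`) the entries of `cj c π g` at `(inl j, inr (-β))` are `π ^ (pr (-β) - 0) g(inl j, inr (-β))`, `pr (-β) = -pr β` (`r3_cj`, `r1_pr_neg`), of valuation at most one: so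
`v(π ^ (-pr β) y_β) ≤ 1`, i.e. `v(y_β) ≤ exp (-pr β)` (`r3_val_zpow`); `r2_mul` (`pr β ≥ 0` for `β ∈ Posk`: `r1_pr_pos`; for `β` not in `Posk k` put `y_β = 0`). -/
theorem r6_degh (L : LieD b K) {k : ℕ} (hk : 1 ≤ k) {𝔫 : Ideal (𝓞 K)} {v : HeightOneSpectrum (𝓞 K)} {r s : ℕ} {c : b.support → ℤ} {π : K} {h : GK b K} (hL : Lv b 𝔫 v r s c π h) :
    (WW L k fun β => 𝔫 * v.asIdeal ^ (pr b c (Sum.inr β)).toNat : Set (Matrix (I b) (I b) K)) =
      (fun g : GK b K => dgk b k g.1.1) '' ((Gh b 𝔫 v r s h ⊓ FK b K k : Subgroup (GK b K)) : Set (GK b K)) := by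
  classical
  have hπ0 : π ≠ 0 := by
    rintro rfl
    have h1 := hL.hπ
    rw [map_zero] at h1
    exact WithZero.exp_ne_zero h1.symm
  have hFk : FK b K k ≤ HU b K := by
    rw [r1_HU]
    exact r1_FK_mono hk
  ext X
  constructor
  · rintro ⟨y, hy, rfl⟩
    exact ⟨L.prK k y, ⟨r5_prK_Gh L k hL hy, r5_prK_FK L k y⟩, r5_prK_dgk L hk y⟩
  · rintro ⟨g, ⟨hg, hF⟩, rfl⟩
    have hG := r4_le L hL ⟨hg, hFk hF⟩
    obtain ⟨-, hI, -⟩ := (r3_Gh hL).1 hg
    refine ⟨fun β => if β ∈ Posk b k then L.cf β g.1.1 else 0, fun β => ?_, ?_⟩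
    · by_cases hβ : β ∈ Posk b k
      · have hp := r1_pr_pos hL.dom (r5d_Pos hβ).1
        have e : ((pr b c (Sum.inr β)).toNat : ℤ) = pr b c (Sum.inr β) := Int.toNat_of_nonneg hp
        have hv : v.valuation K (L.cf β g.1.1) ≤ WithZero.exp (-((pr b c (Sum.inr β)).toNat : ℤ)) := by
          rw [e]
          have h1 : L.cf β g.1.1 = π ^ pr b c (Sum.inr β) * L.cf β (cj b c π g.1.1) := by
            unfold LieD.cf
            rw [Finset.mul_sum]
            refine Finset.sum_congr rfl fun j _ => ?_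
            have h0 : pr b c (Sum.inl j) = 0 := rfl
            rw [r3_cj hπ0, r1_pr_neg, h0, sub_zero, mul_left_comm, ← mul_assoc (π ^ pr b c (Sum.inr β)), ← zpow_add₀ hπ0, add_neg_cancel,
              zpow_zero, one_mul]
          rw [h1, map_mul, r3_val_zpow hL.hπ]
          refine mul_le_of_le_one_right' ?_
          unfold LieD.cf
          refine Valuation.map_sum_le _ fun j _ => ?_
          rw [map_mul]
          refine mul_le_one' ?_ (hI _ _).1
          exact r2_val ⟨(L.z β j : 𝓞 K), Submodule.mem_top, by simp⟩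
        show Pool.Agent.Lib.L1S.InI _ (if β ∈ Posk b k then L.cf β g.1.1 else 0)
        rw [if_pos hβ]
        exact (r2_mul hL.nv).2 ⟨r5_cf_InI L β fun i j => (hG i j).1.1, hv⟩
      · show Pool.Agent.Lib.L1S.InI _ (if β ∈ Posk b k then L.cf β g.1.1 else 0)
        rw [if_neg hβ]
        exact InI.zero _
    · show dgk b k g.1.1 = ∑ β ∈ Posk b k, (if β ∈ Posk b k then L.cf β g.1.1 else 0) • L.E K β
      rw [r5_degK L hk hF]
      exact Finset.sum_congr rfl fun β hβ => by rw [if_pos hβ]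

end

end Pool.Agent.Lib.L1S
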