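import Pool.Agent.Lib.L1S.R0
import Pool.Agent.Lib.L1S.R6B
import Pool.Agent.Lib.L1S.R6D

/-!
# L1S, module R (arithmetic), R7: the indices
-/

namespace Pool.Agent.Lib.L1S

open MeasureTheory Matrix NumberField IsDedekindDomain Pool.Agent.Lib.H89N Pool.Agent.Lib.H33W
open scoped ENNReal Pointwise

noncomputable section

set_option linter.unusedSectionVars false

variable {ι M N : Type} [Fintype ι] [DecidableEq ι] [AddCommGroup M] [Module ℚ M] [AddCommGroup N] [Module ℚ N]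
  {P : RootPairing ι ℚ M N} [P.IsCrystallographic] [P.IsRootSystem] {b : P.Base} {K : Type} [Field K] [NumberField K]

theorem r7_inf {k : ℕ} (hk : 1 ≤ k) (Γ : Subgroup (GK b K)) : Γ ⊓ HU b K ⊓ FK b K k = Γ ⊓ FK b K k := by
  rw [inf_assoc, r1_HU, inf_eq_right.mpr (r1_FK_mono hk)]

theorem r7_chain (L : LieD b K) {Γ Γ' : Subgroup (GK b K)} (h1 : Γ' ⊓ HU b K ≤ Γ ⊓ HU b K) (𝔞 𝔠 : ι → Ideal (𝓞 K)) (h𝔞 : ∀ β, 𝔞 β ≠ ⊥)
    (hD : ∀ k, 1 ≤ k → (WW L k 𝔞 : Set (Matrix (I b) (I b) K)) = (fun g : GK b K => dgk b k g.1.1) '' ((Γ ⊓ FK b K k : Subgroup (GK b K)) : Set (GK b K)))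
    (hD' : ∀ k, 1 ≤ k → (WW L k (fun β => 𝔞 β * 𝔠 β) : Set (Matrix (I b) (I b) K)) =
      (fun g : GK b K => dgk b k g.1.1) '' ((Γ' ⊓ FK b K k : Subgroup (GK b K)) : Set (GK b K))) :
    (Γ' ⊓ HU b K).relIndex (Γ ⊓ HU b K) = ∏ β ∈ Pos b, Ideal.absNorm (𝔠 β) := by
  have h2 : Γ ⊓ HU b K ≤ FK b K 1 := by
    rw [← r1_HU]
    exact inf_le_right
  have h3 := r6_chain (FK b K) (fun k g => dgk b k g.1.1) (fun k hk g hg h hh => dgk_mul hk hg.1 hh.1)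
    (fun k hk g => r1_succ hk g) (r1_FK_bot (b := b) (K := K)) h1 h2 (fun k => WW L k 𝔞) (fun k => WW L k (fun β => 𝔞 β * 𝔠 β))
    (fun k hk => by
      have hk1 := (Finset.mem_Icc.1 hk).1
      rw [r7_inf hk1]
      exact hD k hk1)
    (fun k hk => by
      have hk1 := (Finset.mem_Icc.1 hk).1
      rw [r7_inf hk1]
      exact hD' k hk1)
  rw [h3, ← r1_prod]
  exact Finset.prod_congr rfl fun k _ => r6_ww L k 𝔞 𝔠 h𝔞

theorem r7_sub (Γ Γ' : Subgroup (GK b K)) :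
    (Γ'.subgroupOf (HU b K)).relIndex (Γ.subgroupOf (HU b K)) = (Γ' ⊓ HU b K).relIndex (Γ ⊓ HU b K) := by
  rw [← Subgroup.inf_subgroupOf_right Γ' (HU b K), ← Subgroup.inf_subgroupOf_right Γ (HU b K)]
  exact Subgroup.relIndex_subgroupOf inf_le_right

theorem r7_le (𝔫 : Ideal (𝓞 K)) (v : HeightOneSpectrum (𝓞 K)) (r s : ℕ) : GamK b 𝔫 v r s ≤ GamK b ⊤ v 0 0 := by
  have e1 : v.asIdeal ^ (0 + 0) = ⊤ := by rw [add_zero, pow_zero, Ideal.one_eq_top]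
  have e0 : v.asIdeal ^ 0 = ⊤ := by rw [pow_zero, Ideal.one_eq_top]
  have key : ∀ (x : Matrix (I b) (I b) K) (i j : I b), InI 𝔫 ((x - 1) i j) →
      (InI ⊤ ((x - 1) i j) ∧ (ht b i < ht b j → InI (v.asIdeal ^ (0 + 0)) (x i j)) ∧
        (ht b i = ht b j → InI (v.asIdeal ^ 0) ((x - 1) i j))) := by
    intro x i j h
    refine ⟨h.top, fun hij => ?_, fun _ => ?_⟩
    · rw [e1]
      have hne : i ≠ j := by
        rintro rfl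
        exact absurd hij (lt_irrefl _)
      have e2 : x i j = (x - 1) i j := by rw [Matrix.sub_apply, Matrix.one_apply_ne hne, sub_zero]
      rw [e2]
      exact h.top
    · rw [e0]
      exact h.top
  intro g hg i j
  exact ⟨key _ i j (hg i j).1.1, key _ i j (hg i j).2.1⟩

/-- PROOF. `r6_chain` with `F = FK b K`, `d k g = dgk b k g.1.1` (`dgk_mul`, `r1_succ`), `H = HM b` (`r1_FK_bot`), `Γ = GamK ⊓ HU`, `Γ' = Gh ⊓ HU` (`r4_le`, `r1_HU`; `Γ ⊓ FK k = GamK ⊓ FK k` as `FK k ≤ FK 1` for `k ≥ 1`: `r1_FK_mono`), `D k = WW k 𝔫` (`r6_deg`), `D' k = WW k (𝔫 v ^ ..)` (`r6_degh`), `r6_ww` (`absNorm (v ^ m) = absNorm v ^ m`), `r1_prod`. -/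
theorem r7_idx (L : LieD b K) {𝔫 : Ideal (𝓞 K)} {v : HeightOneSpectrum (𝓞 K)} {r s : ℕ} {c : b.support → ℤ} {π : K} {h : GK b K} (hL : Lv b 𝔫 v r s c π h) :
    (Gh b 𝔫 v r s h ⊓ HU b K).relIndex (GamK b 𝔫 v r s ⊓ HU b K) = ∏ β ∈ Pos b, Ideal.absNorm v.asIdeal ^ (pr b c (Sum.inr β)).toNat := by
  have h1 := r7_chain L (Γ := GamK b 𝔫 v r s) (Γ' := Gh b 𝔫 v r s h) (le_inf (r4_le L hL) inf_le_right) (fun _ => 𝔫)
    (fun β => v.asIdeal ^ (pr b c (Sum.inr β)).toNat) (fun _ => hL.ne) (fun k hk => r6_deg L hk 𝔫 v r s)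
    (fun k hk => r6_degh L hk hL)
  rw [h1]
  exact Finset.prod_congr rfl fun β _ => map_pow _ _ _

/-- PROOF. `r7_idx`, `(A.subgroupOf HU).relIndex (B.subgroupOf HU) = (A ⊓ HU).relIndex (B ⊓ HU)` (`Subgroup.relIndex_subgroupOf`, `Subgroup.inf_relIndex_..`), and `q ^ (∑ pr β) = ∏ q ^ (pr β).toNat` (`zpow`, `q ≠ 0`, `pr β ≥ 0`: `r1_pr_pos`, `Int.toNat_of_nonneg`). -/
theorem r7_idx' (L : LieD b K) {𝔫 : Ideal (𝓞 K)} {v : HeightOneSpectrum (𝓞 K)} {r s : ℕ} {c : b.support → ℤ} {π : K} {h : GK b K} (hL : Lv b 𝔫 v r s c π h) :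
    (((Gh b 𝔫 v r s h).subgroupOf (HU b K)).relIndex ((GamK b 𝔫 v r s).subgroupOf (HU b K)) : ℝ) =
      (Ideal.absNorm v.asIdeal : ℝ) ^ (∑ β ∈ Pos b, pr b c (Sum.inr β)) := by
  rw [r7_sub, r7_idx L hL]
  have h1 : ∑ β ∈ Pos b, pr b c (Sum.inr β) = ((∑ β ∈ Pos b, (pr b c (Sum.inr β)).toNat : ℕ) : ℤ) := by
    rw [Nat.cast_sum]
    exact Finset.sum_congr rfl fun β hβ => (Int.toNat_of_nonneg (r1_pr_pos hL.dom hβ)).symm
  rw [h1, zpow_natCast, ← Finset.prod_pow_eq_pow_sum]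
  push_cast
  rfl

/-- PROOF. `r6_chain` with `Γ = GamK ⊤ v 0 0 ⊓ HU`, `Γ' = GamK 𝔫 v r s ⊓ HU` (`Γ' ≤ Γ`: an entry of `g` is an entry of `g - 1` plus `0` or `1`), `D k = WW k ⊤`, `D' k = WW k 𝔫` (`r6_deg`), `r6_ww` with `𝔞 = ⊤`, `𝔠 = 𝔫` (`⊤ * 𝔫 = 𝔫`), `r1_prod`. -/
theorem r7_top (L : LieD b K) (𝔫 : Ideal (𝓞 K)) (v : HeightOneSpectrum (𝓞 K)) (r s : ℕ) :
    ((GamK b 𝔫 v r s).subgroupOf (HU b K)).relIndex ((GamK b ⊤ v 0 0).subgroupOf (HU b K)) = Ideal.absNorm 𝔫 ^ (Pos b).card := by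
  have h1 := r7_chain L (Γ := GamK b ⊤ v 0 0) (Γ' := GamK b 𝔫 v r s) (inf_le_inf_right _ (r7_le 𝔫 v r s)) (fun _ => ⊤)
    (fun _ => 𝔫) (fun _ => top_ne_bot) (fun k hk => r6_deg L hk ⊤ v 0 0)
    (fun k hk => by
      have e : (fun _ : ι => (⊤ : Ideal (𝓞 K)) * 𝔫) = fun _ => 𝔫 := by
        funext _
        exact Ideal.top_mul 𝔫
      rw [e]
      exact r6_deg L hk 𝔫 v r s)
  rw [r7_sub, h1, Finset.prod_const]

end

end Pool.Agent.Lib.L1S
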