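import Pool.Agent.Lib.L1S.R0
import Pool.Agent.Lib.L1S.R7
import Pool.Agent.Lib.L1S.R12C
import Pool.Agent.Lib.L1S.R13A
import Pool.Agent.Lib.L1S.T3

/-!
# L1S, module R (arithmetic), R13B: the volume of `U ∩ a Ω a⁻¹`
-/

namespace Pool.Agent.Lib.L1S

open MeasureTheory Matrix NumberField IsDedekindDomain Pool.Agent.Lib.H89N Pool.Agent.Lib.H33W
open scoped ENNReal Pointwise

noncomputable section

set_option linter.unusedSectionVars false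

variable {ι M N : Type} [Fintype ι] [DecidableEq ι] [AddCommGroup M] [Module ℚ M] [AddCommGroup N] [Module ℚ N]
  {P : RootPairing ι ℚ M N} [P.IsCrystallographic] [P.IsRootSystem] {b : P.Base} {K : Type} [Field K] [NumberField K]

theorem r13b_pres (ν : Measure (UR b K)) [ν.IsHaarMeasure] (h : HU b K) :
    MeasurePreserving (fun x : UR b K => h • x) ν ν :=
  measurePreserving_mul_left ν (kU b K h)

theorem r13b_int {X : Matrix (I b) (I b) K} {i j : I b} (h : Pool.Agent.Lib.L1S.InI (⊤ : Ideal (𝓞 K)) ((X - 1) i j)) :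
    Pool.Agent.Lib.L1S.InI (⊤ : Ideal (𝓞 K)) (X i j) := by
  have e : X i j = (X - 1) i j + (1 : Matrix (I b) (I b) K) i j := by simp
  rw [e]
  refine h.add ?_
  by_cases h1 : i = j
  · subst h1
    rw [Matrix.one_apply_eq]
    exact ⟨1, Submodule.mem_top, by simp⟩
  · rw [Matrix.one_apply_ne h1]
    exact InI.zero _

theorem r13b_le (𝔫 : Ideal (𝓞 K)) (v : HeightOneSpectrum (𝓞 K)) (r s : ℕ) :
    GamK b 𝔫 v r s ≤ GamK b ⊤ v 0 0 := by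
  intro g hg i j
  have h0 : v.asIdeal ^ (0 + 0) = ⊤ := by
    rw [add_zero, pow_zero, Ideal.one_eq_top]
  rw [h0]
  exact ⟨⟨(hg i j).1.1.top, fun _ => r13b_int (hg i j).1.1.top, fun _ => (hg i j).1.1.top⟩,
    ⟨(hg i j).2.1.top, fun _ => r13b_int (hg i j).2.1.top, fun _ => (hg i j).2.1.top⟩⟩

/-- PROOF. `r13_le` for `Γ = (GamK ⊤ v 0 0).subgroupOf HU` (`t3_sfU` gives `D₀`) and `B = {u | ∃ κ ∈ Ω, ..}` (`r13_meas`): if `γ₀ • x`, `γ • x ∈ B` then `γ γ₀⁻¹ = (γ x)(γ₀ x)⁻¹` is in the set of `r12_count` for the compact set `Ω * Ω⁻¹` (`r12_quot`), so `n ≤ C ∏ exp (d A β)` (round down: `Nat.floor`, or use `n = ncard` of the set of `r12_count`). -/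
theorem r13_top (L : LieD b K) {Ω : Set (GL (I b) (EE K))} (hΩ : IsCompact Ω) : ∃ C : ℝ, 0 ≤ C ∧ ∀ (ν : Measure (UR b K)) [ν.IsHaarMeasure] (v : HeightOneSpectrum (𝓞 K)) (D₀ : Set (UR b K)),
    SF ((GamK b ⊤ v 0 0).subgroupOf (HU b K)) D₀ → ∀ A : M →ₗ[ℚ] ℝ, (∀ i : b.support, 0 ≤ A (P.root i)) →
    ν {u : UR b K | ∃ κ ∈ Ω, u.1.1.1 = dg b K A * κ.1 * dg b K (-A)} ≤ ENNReal.ofReal (C * ∏ β ∈ Pos b, Real.exp (Module.finrank ℚ K * A (P.root β))) * ν D₀ := by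
  obtain ⟨C, hC1, hcount⟩ := r12_count L (Ω := Ω * Ω⁻¹) (hΩ.mul hΩ.inv)
  refine ⟨C, le_trans zero_le_one hC1, ?_⟩
  intro ν _ v D₀ hD₀ A hA
  obtain ⟨hfin, hcard⟩ := hcount v A hA
  have := t3_count b K
  have hcnt : Countable (HU b K) := inferInstance
  set CC := {γ : GK b K | γ ∈ GamK b ⊤ v 0 0 ∧ γ ∈ HU b K ∧
    ∃ κ ∈ Ω * Ω⁻¹, (emb b K γ).1.1 = dg b K A * κ.1 * dg b K (-A)} with hCC
  have hn : ∀ x : UR b K, {γ : HU b K | γ ∈ (GamK b ⊤ v 0 0).subgroupOf (HU b K) ∧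
      γ • x ∈ {u : UR b K | ∃ κ ∈ Ω, u.1.1.1 = dg b K A * κ.1 * dg b K (-A)}}.Finite ∧
      {γ : HU b K | γ ∈ (GamK b ⊤ v 0 0).subgroupOf (HU b K) ∧
      γ • x ∈ {u : UR b K | ∃ κ ∈ Ω, u.1.1.1 = dg b K A * κ.1 * dg b K (-A)}}.ncard ≤ CC.ncard := by
    intro x
    set S := {γ : HU b K | γ ∈ (GamK b ⊤ v 0 0).subgroupOf (HU b K) ∧
      γ • x ∈ {u : UR b K | ∃ κ ∈ Ω, u.1.1.1 = dg b K A * κ.1 * dg b K (-A)}} with hS
    rcases S.eq_empty_or_nonempty with h0 | ⟨γ₀, hγ₀⟩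
    · rw [h0]
      exact ⟨Set.finite_empty, by rw [Set.ncard_empty]; exact Nat.zero_le _⟩
    · obtain ⟨h1, κ₀, hκ₀, h2⟩ := hγ₀
      have hmaps : ∀ γ ∈ S, ((γ * γ₀⁻¹ : HU b K) : GK b K) ∈ CC := by
        rintro γ ⟨h3, κ, hκ, h4⟩
        refine ⟨?_, (γ * γ₀⁻¹).2, κ * κ₀⁻¹, Set.mul_mem_mul hκ (Set.inv_mem_inv.2 hκ₀), ?_⟩
        · exact (GamK b ⊤ v 0 0).mul_mem h3 ((GamK b ⊤ v 0 0).inv_mem h1)
        · have h5 := (r12_quot (x := (γ • x : UR b K).1) (y := (γ₀ • x : UR b K).1) h4 h2).2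
          have h6 : (γ • x : UR b K).1 * ((γ₀ • x : UR b K).1)⁻¹ = emb b K ((γ * γ₀⁻¹ : HU b K) : GK b K) := by
            have e1 : (γ • x : UR b K).1 = emb b K γ.1 * x.1 := rfl
            have e2 : (γ₀ • x : UR b K).1 = emb b K γ₀.1 * x.1 := rfl
            have e3 : ((γ * γ₀⁻¹ : HU b K) : GK b K) = γ.1 * γ₀.1⁻¹ := rfl
            rw [e1, e2, e3, map_mul, map_inv]
            group
          rw [h6] at h5
          exact h5
      have hinj : Set.InjOn (fun γ : HU b K => ((γ * γ₀⁻¹ : HU b K) : GK b K)) S := by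
        intro γ _ γ' _ h
        exact mul_right_cancel (Subtype.val_injective h)
      exact ⟨Set.Finite.of_injOn (fun γ hγ => hmaps γ hγ) hinj hfin,
        Set.ncard_le_ncard_of_injOn _ hmaps hinj hfin⟩
  refine (r13_le (r13b_pres ν) hD₀ (r13_meas hΩ A) hn).trans ?_
  refine mul_le_mul_left ?_ _
  rw [← ENNReal.ofReal_natCast]
  exact ENNReal.ofReal_le_ofReal hcard

/-- PROOF. `u2_vol` (Lib/H33W/U2.lean): `ν D = u2k (Γ⊤) (Γ𝔫) * ν D₀` with `u2k = relIndex` (finite index: `ENNReal.tsum_const`, `Subgroup.index`), `= N ^ |Pos|` (`r7_top`; `GamK 𝔫 v r s ≤ GamK ⊤ v 0 0`). Then `r13_top`; `∏ (exp (d A β) / N) = ∏ exp (d A β) / N ^ |Pos|`. -/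
theorem r13_vol (L : LieD b K) {Ω : Set (GL (I b) (EE K))} (hΩ : IsCompact Ω) : ∃ C : ℝ, 0 ≤ C ∧ ∀ (ν : Measure (UR b K)) [ν.IsHaarMeasure] (𝔫 : Ideal (𝓞 K)), 𝔫 ≠ ⊥ →
    ∀ (v : HeightOneSpectrum (𝓞 K)) (r s : ℕ) (D : Set (UR b K)), SF ((GamK b 𝔫 v r s).subgroupOf (HU b K)) D → ∀ A : M →ₗ[ℚ] ℝ, (∀ i : b.support, 0 ≤ A (P.root i)) →
    ν {u : UR b K | ∃ κ ∈ Ω, u.1.1.1 = dg b K A * κ.1 * dg b K (-A)} ≤
      ENNReal.ofReal (C * ∏ β ∈ Pos b, Real.exp (Module.finrank ℚ K * A (P.root β)) / (Ideal.absNorm 𝔫 : ℝ)) * ν D := by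
  obtain ⟨C, hC0, hC⟩ := r13_top L hΩ
  refine ⟨C, hC0, ?_⟩
  intro ν _ 𝔫 h𝔫 v r s D hD A hA
  have := t3_count b K
  have hcnt : Countable (HU b K) := inferInstance
  obtain ⟨D₀, hD₀⟩ := t3_sfU b (⊤ : Ideal (𝓞 K)) v 0 0
  have hle : (GamK b 𝔫 v r s).subgroupOf (HU b K) ≤ (GamK b ⊤ v 0 0).subgroupOf (HU b K) :=
    fun g hg => r13b_le 𝔫 v r s hg
  have hvol := u2_vol (r13b_pres ν) hle hD₀ hD
  have hN : Ideal.absNorm 𝔫 ≠ 0 := fun h => h𝔫 (Ideal.absNorm_eq_zero_iff.1 h)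
  have hidx := r7_top L 𝔫 v r s
  have hu : u2k ((GamK b ⊤ v 0 0).subgroupOf (HU b K)) ((GamK b 𝔫 v r s).subgroupOf (HU b K)) =
      ((Ideal.absNorm 𝔫 ^ (Pos b).card : ℕ) : ENNReal) := by
    have h1 : Nat.card (↥((GamK b ⊤ v 0 0).subgroupOf (HU b K)) ⧸
        ((GamK b 𝔫 v r s).subgroupOf (HU b K)).subgroupOf ((GamK b ⊤ v 0 0).subgroupOf (HU b K))) =
        Ideal.absNorm 𝔫 ^ (Pos b).card := by
      rw [← hidx]
      rfl
    have h2 : Nat.card (↥((GamK b ⊤ v 0 0).subgroupOf (HU b K)) ⧸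
        ((GamK b 𝔫 v r s).subgroupOf (HU b K)).subgroupOf ((GamK b ⊤ v 0 0).subgroupOf (HU b K))) ≠ 0 := by
      rw [h1]
      exact pow_ne_zero _ hN
    have h3 := Nat.finite_of_card_ne_zero h2
    have h4 := Fintype.ofFinite (↥((GamK b ⊤ v 0 0).subgroupOf (HU b K)) ⧸
        ((GamK b 𝔫 v r s).subgroupOf (HU b K)).subgroupOf ((GamK b ⊤ v 0 0).subgroupOf (HU b K)))
    unfold u2k
    rw [tsum_fintype, Finset.sum_const, Finset.card_univ, nsmul_eq_mul, mul_one,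
      ← Nat.card_eq_fintype_card, h1]
  refine (hC ν v D₀ hD₀ A hA).trans (le_of_eq ?_)
  rw [hvol, hu, ← mul_assoc, ← ENNReal.ofReal_natCast, ← ENNReal.ofReal_mul
    (mul_nonneg hC0 (Finset.prod_nonneg fun β _ => div_nonneg (Real.exp_pos _).le (Nat.cast_nonneg _)))]
  congr 2
  rw [Finset.prod_div_distrib, Finset.prod_const]
  have hN' : ((Ideal.absNorm 𝔫 : ℕ) : ℝ) ^ (Pos b).card ≠ 0 := pow_ne_zero _ (by exact_mod_cast hN)
  push_cast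
  field_simp

end

end Pool.Agent.Lib.L1S
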