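import Pool.Agent.Lib.L1S.T3
import Pool.Agent.Lib.L1S.AN8
import Pool.Agent.Lib.H33W.T3

/-!
# Module T, part 4: `x_β(t) ∈ G(K ⊗ ℝ)`, the character `ψ`, comparison of fundamental domains
-/

namespace Pool.Agent.Lib.L1S

open MeasureTheory Matrix NumberField IsDedekindDomain Pool.Agent.Lib.H89N Pool.Agent.Lib.H33W Topology
open scoped ENNReal

noncomputable section

section

variable {ι M N : Type} [Fintype ι] [DecidableEq ι] [AddCommGroup M] [Module ℚ M] [AddCommGroup N] [Module ℚ N]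
  {P : RootPairing ι ℚ M N} [P.IsCrystallographic] [P.IsReduced] [P.IsIrreducible] [P.IsRootSystem] (b : P.Base)
  (K : Type) [Field K] [NumberField K]

theorem t4_xx_cont (β : ι) : Continuous fun t : EE K => xx b β t := by
  unfold xx ex
  refine continuous_finsetSum _ fun k _ => ?_
  exact (continuous_pow k).smul continuous_const

theorem t4_xG_cont (β : ι) : Continuous fun t : EE K => xG b β t := by
  rw [Units.continuous_iff]
  exact ⟨t4_xx_cont b K β, (t4_xx_cont b K β).comp continuous_neg⟩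

/-- `x_β(t) ∈ G(K ⊗ ℝ)` for all roots `β` and all `t ∈ K ⊗ ℝ`. -/
theorem t4_mem (β : ι) (t : EE K) : xG b β t ∈ GE b K := by
  refine t3_mem_GE b K (t4_xG_cont b K β) (fun t => ?_) t
  exact ⟨xG b β t, xG_mem b β t, xG_map b β (mixedEmbedding K) t⟩

/-- `x_β(t) ∈ G(K)`. -/
def xK (β : ι) (t : K) : GK b K := ⟨xG b β t, xG_mem b β t⟩

/-- `x_β(t) ∈ G(K ⊗ ℝ)`. -/
def xR (β : ι) (t : EE K) : GR b K := ⟨xG b β t, t4_mem b K β t⟩

theorem t4_emb (β : ι) (t : K) : emb b K (xK b K β t) = xR b K β (mixedEmbedding K t) := Subtype.ext (xG_map b β (mixedEmbedding K) t)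

theorem t4_xR_cont (β : ι) : Continuous (xR b K β) := (t4_xG_cont b K β).subtype_mk _

theorem t4_xR_add (β : ι) (s t : EE K) : xR b K β (s + t) = xR b K β s * xR b K β t := Subtype.ext (xG_add b β s t)

theorem t4_xK_add (β : ι) (s t : K) : xK b K β (s + t) = xK b K β s * xK b K β t := Subtype.ext (xG_add b β s t)

end

section

variable {ι M N : Type} [Fintype ι] [DecidableEq ι] [AddCommGroup M] [Module ℚ M] [AddCommGroup N] [Module ℚ N]
  {P : RootPairing ι ℚ M N} [P.IsCrystallographic] (b : P.Base) {K : Type} [Field K] [NumberField K]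

/-! ## The character -/

theorem t4_psi_cont (θ : b.support → (EE K →ₗ[ℝ] ℝ)) : Continuous (psi b θ) := by
  have h1 : Continuous fun t : ℝ => ee t := by
    unfold ee
    fun_prop
  refine h1.comp (continuous_finsetSum _ fun i _ => ?_)
  exact (LinearMap.continuous_of_finiteDimensional (θ i)).comp ((cont_entry b K _ _).comp continuous_subtype_val)

theorem t4_psi_norm (θ : b.support → (EE K →ₗ[ℝ] ℝ)) (u : UR b K) : ‖psi b θ u‖ = 1 := by
  unfold psi
  exact ee_norm _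

/-! ## Comparison of fundamental domains -/

variable (𝔫 : Ideal (𝓞 K)) (v : HeightOneSpectrum (𝓞 K)) (r s : ℕ)

/-- The elements of `Γ_U` are the images of the elements of `Γ ∩ U(K)`. -/
theorem t4_mem_GamU (w : UR b K) : w ∈ GamU b 𝔫 v r s ↔ ∃ δ : HU b K, (δ : GK b K) ∈ GamK b 𝔫 v r s ∧ kU b K δ = w := by
  constructor
  · intro h
    obtain ⟨g, hg, e⟩ := h
    refine ⟨⟨g, ?_⟩, hg, Subtype.ext e⟩
    change emb b K g ∈ UR b K
    rw [e]
    exact w.2
  · rintro ⟨δ, h1, rfl⟩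
    exact ⟨δ.1, h1, rfl⟩

theorem t4_mem_Gam (w : GR b K) : w ∈ Gam b 𝔫 v r s ↔ ∃ γ ∈ GamK b 𝔫 v r s, emb b K γ = w := Iff.rfl

/-- A strict fundamental domain of `Γ ∩ U(K)` is a fundamental domain of `Γ_U`. -/
theorem t4_fdU {D : Set (UR b K)} (hD : SF ((GamK b 𝔫 v r s).subgroupOf (HU b K)) D) (ν : Measure (UR b K)) : IsFundamentalDomain (GamU b 𝔫 v r s) D ν := by
  refine IsFundamentalDomain.mk' hD.meas.nullMeasurableSet fun x => ?_
  obtain ⟨δ, h1, h2⟩ := hD.fd x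
  refine ⟨⟨kU b K δ.1, (t4_mem_GamU b 𝔫 v r s _).2 ⟨δ.1, δ.2, rfl⟩⟩, h1, ?_⟩
  rintro ⟨w, hw⟩ h3
  obtain ⟨ε, hε, rfl⟩ := (t4_mem_GamU b 𝔫 v r s _).1 hw
  have h4 := h2 ⟨ε, hε⟩ h3
  apply Subtype.ext
  exact congrArg (kU b K) (congrArg Subtype.val h4)

/-- A strict fundamental domain of `Γ` is a fundamental domain in the sense of Mathlib. -/
theorem t4_fdG {F : Set (GR b K)} (hF : SF (GamK b 𝔫 v r s) F) (μ : Measure (GR b K)) : IsFundamentalDomain (Gam b 𝔫 v r s) F μ := by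
  refine IsFundamentalDomain.mk' hF.meas.nullMeasurableSet fun x => ?_
  obtain ⟨δ, h1, h2⟩ := hF.fd x
  refine ⟨⟨emb b K δ.1, ⟨δ.1, δ.2, rfl⟩⟩, h1, ?_⟩
  rintro ⟨w, hw⟩ h3
  obtain ⟨ε, hε, rfl⟩ := hw
  have h4 := h2 ⟨ε, hε⟩ h3
  apply Subtype.ext
  exact congrArg (emb b K) (congrArg Subtype.val h4)

theorem t4_countGam : Countable (Gam b 𝔫 v r s) := by
  have := t3_count b K
  have h : Function.Surjective fun γ : GamK b 𝔫 v r s => (⟨emb b K γ.1, ⟨γ.1, γ.2, rfl⟩⟩ : Gam b 𝔫 v r s) := by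
    rintro ⟨w, γ, hγ, rfl⟩
    exact ⟨⟨γ, hγ⟩, rfl⟩
  exact h.countable

theorem t4_countGamU : Countable (GamU b 𝔫 v r s) := by
  have := t4_countGam b 𝔫 v r s
  have h : Function.Injective fun w : GamU b 𝔫 v r s => (⟨w.1.1, w.2⟩ : Gam b 𝔫 v r s) := by
    intro w w' e
    apply Subtype.ext
    apply Subtype.ext
    have e1 : (⟨w.1.1, w.2⟩ : Gam b 𝔫 v r s).1 = (⟨w'.1.1, w'.2⟩ : Gam b 𝔫 v r s).1 := congrArg Subtype.val e
    exact e1
  exact h.countable

/-- The measures of all fundamental domains of `Γ_U` are equal. -/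
theorem t4_volU {D D' : Set (UR b K)} (ν : Measure (UR b K)) [ν.IsHaarMeasure] (hD : SF ((GamK b 𝔫 v r s).subgroupOf (HU b K)) D)
    (hD' : IsFundamentalDomain (GamU b 𝔫 v r s) D' ν) : ν D' = ν D := by
  have := t4_countGamU b 𝔫 v r s
  exact hD'.measure_eq (t4_fdU b 𝔫 v r s hD ν)

/-- **The Whittaker coefficient** for an arbitrary fundamental domain. -/
theorem t4_Wh {D D' : Set (UR b K)} (ν : Measure (UR b K)) [ν.IsHaarMeasure] (hD : SF ((GamK b 𝔫 v r s).subgroupOf (HU b K)) D)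
    (hD' : IsFundamentalDomain (GamU b 𝔫 v r s) D' ν) (θ : b.support → (EE K →ₗ[ℝ] ℝ)) (hψ : ∀ δ : HU b K, (δ : GK b K) ∈ GamK b 𝔫 v r s → ∀ u, psi b θ (kU b K δ * u) = psi b θ u)
    {F : GR b K → ℂ} (hF : ∀ γ ∈ Gam b 𝔫 v r s, ∀ x, F (γ * x) = F x) (x : GR b K) :
    Wh b ν D' θ F x = Wm (UR b K).subtype (psi b θ) ν D F x := by
  have := t4_countGamU b 𝔫 v r s
  unfold Wh Wm
  rw [setAverage_eq, setAverage_eq, measureReal_def, measureReal_def, t4_volU b 𝔫 v r s ν hD hD']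
  congr 1
  have e : ∫ u in D', F (u.1 * x) * star (psi b θ u) ∂ν = ∫ u in D, F (u.1 * x) * star (psi b θ u) ∂ν := by
    refine hD'.setIntegral_eq (t4_fdU b 𝔫 v r s hD ν) fun w u => ?_
    obtain ⟨δ, h1, h2⟩ := (t4_mem_GamU b 𝔫 v r s _).1 w.2
    have e1 : (w • u : UR b K) = kU b K δ * u := by
      rw [h2]
      rfl
    have e2 : ((w • u : UR b K) : GR b K) * x = emb b K δ.1 * (u.1 * x) := by
      rw [e1]
      exact mul_assoc _ _ _
    rw [e2, e1, hψ δ h1, hF _ ⟨δ.1, h1, rfl⟩]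
  rw [e]
  refine integral_congr_ae (Filter.Eventually.of_forall fun u => ?_)
  exact mul_comm _ _

/-- Integrals of invariant functions over two fundamental domains of `Γ`. -/
theorem t4_intG {F D : Set (GR b K)} (μ : Measure (GR b K)) [μ.IsHaarMeasure] (hF : SF (GamK b 𝔫 v r s) F) (hD : IsFundamentalDomain (Gam b 𝔫 v r s) D μ)
    {f : GR b K → ℂ} (hf : ∀ γ ∈ Gam b 𝔫 v r s, ∀ x, f (γ * x) = f x) : ∫ x in D, f x ∂μ = ∫ x in F, f x ∂μ := by
  have := t4_countGam b 𝔫 v r s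
  exact hD.setIntegral_eq (t4_fdG b 𝔫 v r s hF μ) fun w x => hf w.1 w.2 x

theorem t4_lintG {F D : Set (GR b K)} (μ : Measure (GR b K)) [μ.IsHaarMeasure] (hF : SF (GamK b 𝔫 v r s) F) (hD : IsFundamentalDomain (Gam b 𝔫 v r s) D μ)
    {f : GR b K → ℝ≥0∞} (hf : ∀ γ ∈ Gam b 𝔫 v r s, ∀ x, f (γ * x) = f x) : ∫⁻ x in D, f x ∂μ = ∫⁻ x in F, f x ∂μ := by
  have := t4_countGam b 𝔫 v r s
  exact hD.setLIntegral_eq (t4_fdG b 𝔫 v r s hF μ) _ fun w x => hf w.1 w.2 x

/-- Square integrability does not depend on the fundamental domain. -/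
theorem t4_l2G {F D : Set (GR b K)} (μ : Measure (GR b K)) [μ.IsHaarMeasure] (hF : SF (GamK b 𝔫 v r s) F) (hD : IsFundamentalDomain (Gam b 𝔫 v r s) D μ)
    {f : GR b K → ℂ} (cf : Continuous f) (hf : ∀ γ ∈ Gam b 𝔫 v r s, ∀ x, f (γ * x) = f x) (h : MemLp f 2 (μ.restrict D)) : MemLp f 2 (μ.restrict F) := by
  refine ⟨cf.measurable.aestronglyMeasurable, ?_⟩
  have h2 := h.2
  rw [eLpNorm_eq_lintegral_rpow_enorm_toReal (by norm_num) (by norm_num)] at h2 ⊢
  rw [← t4_lintG b 𝔫 v r s μ hF hD fun γ hγ x => by rw [hf γ hγ x]]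
  exact h2

end

end

end Pool.Agent.Lib.L1S
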