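import Pool.Agent.Lib.L1S.R0
import Pool.Agent.Lib.L1S.T4
import Pool.Agent.Lib.L1S.ApiL2

/-!
# L1S, module R (arithmetic), R14: the interface with the modules L1, L2, T
-/

namespace Pool.Agent.Lib.L1S

open MeasureTheory Matrix NumberField IsDedekindDomain Pool.Agent.Lib.H89N Pool.Agent.Lib.H33W

noncomputable section

set_option linter.unusedSectionVars false

variable {ι M N : Type} [Fintype ι] [DecidableEq ι] [AddCommGroup M] [Module ℚ M] [AddCommGroup N] [Module ℚ N]
  {P : RootPairing ι ℚ M N} [P.IsCrystallographic] [P.IsReduced] [P.IsIrreducible] [P.IsRootSystem] (b : P.Base)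
  (K : Type) [Field K] [NumberField K]

/-- The interface: root vectors, one parameter groups, degree parts. -/
def lieD : LieD b K where
  DP β k := dvp (E b β) k
  m := 4
  dp0 β := dvp_zero _
  dpm β k hk := (DP_E b β).dvp_four hk
  supp β _ k r c h := by
    have h1 := dvp_wt b β k r c h
    rw [Nat.cast_smul_eq_nsmul] at h1
    exact h1
  z β := (exists_cf b β).choose
  z1 β _ := by
    simp only [dvp_one]
    exact (exists_cf b β).choose_spec
  xK := xK b K
  xK_val β _ t := rfl
  xK_add β _ := t4_xK_add b K β
  xE := xR b K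
  xE_val β _ t := rfl
  xE_add β _ := t4_xR_add b K β
  xE_cont β _ := t4_xR_cont b K β
  emb_xK β _ := t4_emb b K β
  degK g hg k hk h := by
    refine ⟨fun β => cf b β g.1.1, ?_⟩
    simp only [dvp_one]
    refine (lead_K b g (k := (k : ℤ)) (by exact_mod_cast hk) h).trans ?_
    refine Finset.sum_congr ?_ fun β _ => rfl
    ext β
    simp only [Posk, Finset.mem_filter, Finset.mem_univ, true_and]
    omega
  degE g hg k hk h := by
    refine ⟨fun β => cf b β g.1.1, ?_⟩
    simp only [dvp_one]
    refine (lead_E b g (k := (k : ℤ)) (by exact_mod_cast hk) h).trans ?_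
    refine Finset.sum_congr ?_ fun β _ => rfl
    ext β
    simp only [Posk, Finset.mem_filter, Finset.mem_univ, true_and]
    omega
  uni u hu := uni_UR b hu

end

end Pool.Agent.Lib.L1S
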