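import Pool.Agent.Lib.L1S.BF
import Pool.Agent.Lib.L1S.DC
import Pool.Agent.Lib.L1S.T3
import Pool.Agent.Lib.L1S.RFin
import Pool.Agent.Lib.H33W.Defs

/-!
# Module M: the targets of the modules T, R, B, D which are used in the assembly (Main.lean)

All of them are proved in the modules T, R, B, D.
-/

namespace Pool.Agent.Lib.L1S

open MeasureTheory Matrix NumberField IsDedekindDomain Pool.Agent.Lib.H89N Pool.Agent.Lib.H33W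
open scoped ENNReal

noncomputable section

variable {ι M N : Type} [Fintype ι] [DecidableEq ι] [AddCommGroup M] [Module ℚ M] [AddCommGroup N] [Module ℚ N]
  {P : RootPairing ι ℚ M N} [P.IsCrystallographic] [P.IsRootSystem] [P.IsReduced] [P.IsIrreducible]
  (b : P.Base) {K : Type} [Field K] [NumberField K]

/-- (T) `G(K)` is countable (`K` is countable). -/
theorem t_count : Countable (GK b K) := t3_count b K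

/-- (T, R) Discreteness: only finitely many elements `γ` of `h⁻¹ Γ h` move a compact set to a set which meets it. -/
theorem r_fin {𝔫 : Ideal (𝓞 K)} (_ : 𝔫 ≠ ⊥) (v : HeightOneSpectrum (𝓞 K)) (r s : ℕ) (h : GK b K) {Q : Set (GR b K)} (hQ : IsCompact Q) :
    {γ : GK b K | γ ∈ Gh b 𝔫 v r s h ∧ ∃ q ∈ Q, γ • q ∈ Q}.Finite := t3_rfin b 𝔫 v r s h hQ

/-- (T) Strict fundamental domains exist. -/
theorem t_sfG {𝔫 : Ideal (𝓞 K)} (_ : 𝔫 ≠ ⊥) (v : HeightOneSpectrum (𝓞 K)) (r s : ℕ) : ∃ F : Set (GR b K), SF (GamK b 𝔫 v r s) F := t3_sfG b 𝔫 v r s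

/-- (T) Strict fundamental domains exist. -/
theorem t_sfU {𝔫 : Ideal (𝓞 K)} (_ : 𝔫 ≠ ⊥) (v : HeightOneSpectrum (𝓞 K)) (r s : ℕ) : ∃ D : Set (UR b K), SF ((GamK b 𝔫 v r s).subgroupOf (HU b K)) D := t3_sfU b 𝔫 v r s

/-- (R) Cocompactness. -/
theorem r_cc {𝔫 : Ideal (𝓞 K)} (h0 : 𝔫 ≠ ⊥) (v : HeightOneSpectrum (𝓞 K)) (r s : ℕ) (h : GK b K) :
    ∃ KT : Set (UR b K), IsCompact KT ∧ ∀ t, ∃ δ : HU b K, (δ : GK b K) ∈ Gh b 𝔫 v r s h ∧ ∃ s ∈ KT, t = kU b K δ * s := rf_cc b h0 v r s h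

/-- (R) Commensurability. -/
theorem r_comm {𝔫 𝔪 : Ideal (𝓞 K)} (h0 : 𝔫 ≠ ⊥) (v w : HeightOneSpectrum (𝓞 K)) (r s r' s' : ℕ) (g h : GK b K) :
    (Gh b 𝔫 v r s g).relIndex (Gh b 𝔪 w r' s' h) ≠ 0 := rf_comm b h0 v w r s r' s' g h

/-- (R, (1.5)) The index of the auxiliary subgroup: `g ↦ (g - 1 mod m 𝔫)` is injective on the cosets. -/
theorem r_m {𝔫 : Ideal (𝓞 K)} (h0 : 𝔫 ≠ ⊥) (v : HeightOneSpectrum (𝓞 K)) (r s m : ℕ) (hm : m ≠ 0) (h : GK b K) :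
    (Gm b 𝔫 v r s m h).relIndex (Gh b 𝔫 v r s h) ≤ (m ^ Module.finrank ℚ K) ^ (Fintype.card (I b) ^ 2) := rf_m b h0 v r s m hm h

/-- (R, (1)) `Γ' ∩ U ⊆ Γ`. -/
theorem r_le {𝔫 : Ideal (𝓞 K)} {v : HeightOneSpectrum (𝓞 K)} {r s : ℕ} {c : b.support → ℤ} {π : K} {h : GK b K} (hL : Lv b 𝔫 v r s c π h) :
    Gh b 𝔫 v r s h ⊓ HU b K ≤ GamK b 𝔫 v r s := rf_le b hL

/-- (R, (1.2)) `[Γ_U : Γ'_U] = q ^ (∑_{β > 0} ⟨β, λ⟩)`. -/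
theorem r_idx {𝔫 : Ideal (𝓞 K)} {v : HeightOneSpectrum (𝓞 K)} {r s : ℕ} {c : b.support → ℤ} {π : K} {h : GK b K} (hL : Lv b 𝔫 v r s c π h) :
    (((Gh b 𝔫 v r s h).subgroupOf (HU b K)).relIndex ((GamK b 𝔫 v r s).subgroupOf (HU b K)) : ℝ) =
      (Ideal.absNorm v.asIdeal : ℝ) ^ (∑ β ∈ Pos b, pr b c (Sum.inr β)) := rf_idx b hL

/-- (R, (1.3), (2.3)) The volume of `U ∩ a Ω a⁻¹` compared with the covolume of `Γ_U`. -/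
theorem r_vol (K : Type) [Field K] [NumberField K] {Ω : Set (GL (I b) (EE K))} (hΩ : IsCompact Ω) : ∃ C : ℝ, 0 ≤ C ∧ ∀ (ν : Measure (UR b K)) [ν.IsHaarMeasure] (𝔫 : Ideal (𝓞 K)), 𝔫 ≠ ⊥ →
    ∀ (v : HeightOneSpectrum (𝓞 K)) (r s : ℕ) (D : Set (UR b K)), SF ((GamK b 𝔫 v r s).subgroupOf (HU b K)) D → ∀ A : M →ₗ[ℚ] ℝ, (∀ i : b.support, 0 ≤ A (P.root i)) →
    ν {u : UR b K | ∃ κ ∈ Ω, u.1.1.1 = dg b K A * κ.1 * dg b K (-A)} ≤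
      ENNReal.ofReal (C * ∏ β ∈ Pos b, Real.exp (Module.finrank ℚ K * A (P.root β)) / (Ideal.absNorm 𝔫 : ℝ)) * ν D := rf_vol b K hΩ

/-- (B, D, (3)) The dichotomy for the elements of `h⁻¹ Γ_m h`, `m ≥ m₀` prime to `v`. -/
theorem star_main (K : Type) [Field K] [NumberField K] {Ω : Set (GL (I b) (EE K))} (hΩ : IsCompact Ω) : ∃ m₀ : ℕ, ∀ m : ℕ, m₀ ≤ m → ∀ (v : HeightOneSpectrum (𝓞 K)), (m : 𝓞 K) ∉ v.asIdeal →
    ∀ (𝔫 : Ideal (𝓞 K)) (r s : ℕ) (c : b.support → ℤ) (π : K) (h : GK b K), Lv b 𝔫 v r s c π h → Sz b 𝔫 v r s c →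
    ∀ A : M →ₗ[ℚ] ℝ, (∀ i : b.support, Real.log (Ideal.absNorm 𝔫) ≤ Module.finrank ℚ K * A (P.root i)) →
    ∀ θ : b.support → (EE K →ₗ[ℝ] ℝ), (∀ i, θ i ≠ 0) → ∀ γ ∈ Gm b 𝔫 v r s m h, γ ∉ HU b K → Mv b Ω A (emb b K γ) → Alt b θ γ := bf_star_main b K hΩ

end

end Pool.Agent.Lib.L1S
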