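import Pool.Agent.Lib.L1S.MApi
import Pool.Agent.Lib.L1S.Stm2
import Pool.Agent.Lib.L1S.DE2
import Pool.Agent.Lib.L1S.BF3

/-!
# Module M: the target of the modules B, D for version 2
-/

namespace Pool.Agent.Lib.L1S

open MeasureTheory Matrix NumberField IsDedekindDomain Pool.Agent.Lib.H89N Pool.Agent.Lib.H33W
open scoped ENNReal

noncomputable section

variable {ι M N : Type} [Fintype ι] [DecidableEq ι] [AddCommGroup M] [Module ℚ M] [AddCommGroup N] [Module ℚ N]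
  {P : RootPairing ι ℚ M N} [P.IsCrystallographic] [P.IsRootSystem] [P.IsReduced] [P.IsIrreducible]
  (b : P.Base) {K : Type} [Field K] [NumberField K]

/-- (B, D) The dichotomy for the elements of `h'⁻¹ Γ_m h`, `m ≥ m₀` prime to `v`, `h` and `h'` congruent to `1` modulo `m 𝔫`. -/
theorem star2_main (K : Type) [Field K] [NumberField K] {Ω : Set (GL (I b) (EE K))} (hΩ : IsCompact Ω) : ∃ m₀ : ℕ, ∀ m : ℕ, m₀ ≤ m → ∀ (v : HeightOneSpectrum (𝓞 K)), (m : 𝓞 K) ∉ v.asIdeal →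
    ∀ (𝔫 : Ideal (𝓞 K)) (r s : ℕ) (c c' : b.support → ℤ) (π : K) (h h' : GK b K), Lv b (Ideal.span {(m : 𝓞 K)} * 𝔫) v r s c π h → Lv b (Ideal.span {(m : 𝓞 K)} * 𝔫) v r s c' π h' → Sz2 b 𝔫 v r s c c' →
    ∀ A : M →ₗ[ℚ] ℝ, (∀ i : b.support, Real.log (Ideal.absNorm 𝔫) ≤ Module.finrank ℚ K * A (P.root i)) →
    ∀ θ : b.support → (EE K →ₗ[ℝ] ℝ), (∀ i, θ i ≠ 0) → ∀ γ : GK b K, h' * γ * h⁻¹ ∈ GamK b (Ideal.span {(m : 𝓞 K)} * 𝔫) v r s → Mv b Ω A (emb b K γ) → (γ ∈ HU b K ∧ c = c') ∨ Alt b θ γ :=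
  star_main2 b K hΩ

end

end Pool.Agent.Lib.L1S
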