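import Pool.Agent.Lib.L1S.M2
import Pool.Agent.Lib.L1S.M3
import Pool.Agent.Lib.L1S.M4
import Pool.Agent.Lib.L1S.M5
import Pool.Agent.Lib.L1S.M6
import Pool.Agent.Lib.L1S.AN17
import Pool.Agent.Lib.L1S.AN1

/-!
# Assembly
-/

namespace Pool.Agent.Lib.L1S

open MeasureTheory Matrix NumberField IsDedekindDomain Pool.Agent.Lib.H89N Pool.Agent.Lib.H33W Pool.Agent.Lib.H67G
open scoped ENNReal

noncomputable section

variable {ι M N : Type} [Fintype ι] [DecidableEq ι] [AddCommGroup M] [Module ℚ M] [AddCommGroup N] [Module ℚ N]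
  {P : RootPairing ι ℚ M N} [P.IsCrystallographic]

section

variable (b : P.Base) {K : Type} [Field K] [NumberField K]

/-- The choice of the auxiliary level. -/
theorem aux_level (m₀ : ℕ) (v : HeightOneSpectrum (𝓞 K)) : ∃ m : ℕ, m₀ ≤ m ∧ m ≠ 0 ∧ (m : 𝓞 K) ∉ v.asIdeal ∧ m ≤ 6 ^ m₀ := by
  have hp : ∀ a k : ℕ, ((a ^ k : ℕ) : 𝓞 K) ∈ v.asIdeal → (a : 𝓞 K) ∈ v.asIdeal := by
    intro a k h
    rw [Nat.cast_pow] at h
    exact v.isPrime.mem_of_pow_mem k h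
  by_cases h2 : ((2 : ℕ) : 𝓞 K) ∈ v.asIdeal
  · refine ⟨3 ^ m₀, (Nat.lt_pow_self (by norm_num)).le, pow_ne_zero _ (by norm_num), fun h => ?_, Nat.pow_le_pow_left (by norm_num) _⟩
    have h3 := hp 3 m₀ h
    apply v.isPrime.ne_top
    rw [Ideal.eq_top_iff_one]
    have h1 : (1 : 𝓞 K) = ((3 : ℕ) : 𝓞 K) - ((2 : ℕ) : 𝓞 K) := by push_cast; ring
    rw [h1]
    exact v.asIdeal.sub_mem h3 h2
  · refine ⟨2 ^ m₀, (Nat.lt_pow_self (by norm_num)).le, pow_ne_zero _ (by norm_num), fun h => h2 (hp 2 m₀ h), Nat.pow_le_pow_left (by norm_num) _⟩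

theorem m_le (𝔫 : Ideal (𝓞 K)) (v : HeightOneSpectrum (𝓞 K)) (r s m : ℕ) (h : GK b K) : Gm b 𝔫 v r s m h ≤ Gh b 𝔫 v r s h := by
  intro g hg
  have h1 : ∀ y : K, InI (Ideal.span {(m : 𝓞 K)} * 𝔫) y → InI 𝔫 y := fun y ⟨z, hz, e⟩ => ⟨z, (Ideal.mul_le_right : Ideal.span {(m : 𝓞 K)} * 𝔫 ≤ 𝔫) hz, e⟩
  have h2 : h * g * h⁻¹ ∈ GamK b (Ideal.span {(m : 𝓞 K)} * 𝔫) v r s := hg
  show h * g * h⁻¹ ∈ GamK b 𝔫 v r s
  intro i j
  obtain ⟨⟨a1, a2⟩, a3, a4⟩ := h2 i j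
  exact ⟨⟨h1 _ a1, a2⟩, h1 _ a3, a4⟩

/-- The Whittaker coefficient in the form of the module A. -/
theorem wh_eq {ν : Measure (UR b K)} [ν.IsHaarMeasure] {𝔫 : Ideal (𝓞 K)} {v : HeightOneSpectrum (𝓞 K)} {r s : ℕ} [Countable (GK b K)] {D D' : Set (UR b K)}
    (hD : IsFundamentalDomain (GamU b 𝔫 v r s) D ν) (hD' : SF ((GamK b 𝔫 v r s).subgroupOf (HU b K)) D') {θ : b.support → (EE K →ₗ[ℝ] ℝ)} (hθ : Gen b 𝔫 θ)
    {F : GR b K → ℂ} (iF : ∀ γ ∈ Gam b 𝔫 v r s, ∀ x, F (γ * x) = F x) (x : GR b K) :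
    Wh b ν D θ F x = Wm (UR b K).subtype (psi b θ) ν D' F x := by
  have e1 : IsFundamentalDomain (GamU b 𝔫 v r s) D' ν := by
    rw [gamU_eq]
    exact m4_fd (kU b K) (fun _ _ => rfl) hD' ν
  have hc : Countable (GamU b 𝔫 v r s) := by
    have h : ((GamU b 𝔫 v r s : Subgroup (UR b K)) : Set (UR b K)).Countable := by
      rw [gamU_eq, Subgroup.coe_map]
      exact (Set.to_countable _).image _
    exact h.to_subtype
  have e2 : ∀ γ ∈ GamU b 𝔫 v r s, ∀ u : UR b K, F ((γ * u).1 * x) * star (psi b θ (γ * u)) = F (u.1 * x) * star (psi b θ u) := by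
    intro γ hγ u
    have h1 : γ.1 ∈ Gam b 𝔫 v r s := hγ
    have h2 : psi b θ γ = 1 := by
      rw [gamU_eq] at hγ
      obtain ⟨w, hw, rfl⟩ := hγ
      exact m_psi_one b hθ w hw
    rw [m_psi_mul, h2, one_mul]
    congr 1
    show F (γ.1 * u.1 * x) = _
    rw [mul_assoc]
    exact iF _ h1 _
  rw [Wh, Wm, setAverage_eq, setAverage_eq, measureReal_def, measureReal_def, m4_vol hD e1, m4_int hD e1 (f := fun u : UR b K => F (u.1 * x) * star (psi b θ u)) e2]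
  congr 1
  refine integral_congr_ae (Filter.Eventually.of_forall fun u => ?_)
  show F (u.1 * x) * star (psi b θ u) = star (psi b θ u) * F (u.1 * x)
  rw [mul_comm]

/-- `h⁻¹ Γ h ∩ U` in the two forms. -/
theorem gamH_eq (𝔫 : Ideal (𝓞 K)) (v : HeightOneSpectrum (𝓞 K)) (r s : ℕ) (h : GK b K) : GamH b 𝔫 v r s h = ((Gh b 𝔫 v r s h).subgroupOf (HU b K)).map (kU b K) := by
  ext w
  constructor
  · intro hw
    have h1 : emb b K h * w.1 * (emb b K h)⁻¹ ∈ Gam b 𝔫 v r s := hw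
    obtain ⟨γ, hγ, e⟩ := h1
    have e1 : emb b K (h⁻¹ * γ * h) = w.1 := by
      rw [map_mul, map_mul, e, map_inv]
      group
    refine ⟨⟨h⁻¹ * γ * h, ?_⟩, ?_, Subtype.ext e1⟩
    · show emb b K (h⁻¹ * γ * h) ∈ UR b K
      rw [e1]
      exact w.2
    · show h * (h⁻¹ * γ * h) * h⁻¹ ∈ GamK b 𝔫 v r s
      have e2 : h * (h⁻¹ * γ * h) * h⁻¹ = γ := by group
      rw [e2]
      exact hγ
  · rintro ⟨w', hw', rfl⟩
    have h1 : h * (w' : GK b K) * h⁻¹ ∈ GamK b 𝔫 v r s := hw'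
    show emb b K h * emb b K w'.1 * (emb b K h)⁻¹ ∈ Gam b 𝔫 v r s
    rw [← map_mul, ← map_inv, ← map_mul]
    exact ⟨_, h1, rfl⟩

/-- The Whittaker coefficient of `F (h ·)` in the form of the module A. -/
theorem whH_eq {ν : Measure (UR b K)} [ν.IsHaarMeasure] {𝔫 : Ideal (𝓞 K)} {v : HeightOneSpectrum (𝓞 K)} {r s : ℕ} {h : GK b K} [Countable (GK b K)] (hle : Gh b 𝔫 v r s h ⊓ HU b K ≤ GamK b 𝔫 v r s)
    {D D' : Set (UR b K)} (hD : IsFundamentalDomain (GamH b 𝔫 v r s h) D ν) (hD' : SF ((Gh b 𝔫 v r s h).subgroupOf (HU b K)) D') {θ : b.support → (EE K →ₗ[ℝ] ℝ)} (hθ : Gen b 𝔫 θ)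
    {F : GR b K → ℂ} (iF : ∀ γ ∈ Gam b 𝔫 v r s, ∀ x, F (γ * x) = F x) (x : GR b K) :
    Wh b ν D θ (fun y => F (emb b K h * y)) x = Wm (UR b K).subtype (psi b θ) ν D' (fun y => F (h • y)) x := by
  have e1 : IsFundamentalDomain (GamH b 𝔫 v r s h) D' ν := by
    rw [gamH_eq]
    exact m4_fd (kU b K) (fun _ _ => rfl) hD' ν
  have hc : Countable (GamH b 𝔫 v r s h) := by
    have h : ((GamH b 𝔫 v r s h : Subgroup (UR b K)) : Set (UR b K)).Countable := by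
      rw [gamH_eq, Subgroup.coe_map]
      exact (Set.to_countable _).image _
    exact h.to_subtype
  have e2 : ∀ γ ∈ GamH b 𝔫 v r s h, ∀ u : UR b K, F (emb b K h * ((γ * u).1 * x)) * star (psi b θ (γ * u)) = F (emb b K h * (u.1 * x)) * star (psi b θ u) := by
    intro γ hγ u
    have h1 : emb b K h * γ.1 * (emb b K h)⁻¹ ∈ Gam b 𝔫 v r s := hγ
    have h2 : psi b θ γ = 1 := by
      rw [gamH_eq] at hγ
      obtain ⟨w, hw, rfl⟩ := hγ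
      exact m_psi_one b hθ w (hle ⟨hw, w.2⟩)
    rw [m_psi_mul, h2, one_mul]
    congr 1
    have h3 : emb b K h * ((γ * u).1 * x) = (emb b K h * γ.1 * (emb b K h)⁻¹) * (emb b K h * (u.1 * x)) := by
      show emb b K h * (γ.1 * u.1 * x) = _
      group
    rw [h3]
    exact iF _ h1 _
  rw [Wh, Wm, setAverage_eq, setAverage_eq, measureReal_def, measureReal_def, m4_vol hD e1, m4_int hD e1 (f := fun u : UR b K => F (emb b K h * (u.1 * x)) * star (psi b θ u)) e2]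
  congr 1
  refine integral_congr_ae (Filter.Eventually.of_forall fun u => ?_)
  show F (emb b K h * (u.1 * x)) * star (psi b θ u) = star (psi b θ u) * F (emb b K h * (u.1 * x))
  rw [mul_comm]

end

section

variable [P.IsRootSystem] [P.IsReduced] [P.IsIrreducible] (b : P.Base) (K : Type) [Field K] [NumberField K]

/-- Passing to real numbers. -/
theorem fin_real {m : ℕ} {a : Fin m → ℝ≥0∞} {f : Fin m → ℝ} (ha : ∀ l, a l ≠ ⊤) (hf : ∀ l, f l = (a l).toReal) {X : ℝ} (hX : 0 ≤ X) (h : ∑ l, a l ≤ ENNReal.ofReal X) : ∑ l, f l ≤ X := by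
  have key3 := ENNReal.toReal_mono ENNReal.ofReal_ne_top h
  rw [ENNReal.toReal_ofReal hX, ENNReal.toReal_sum (fun l _ => ha l)] at key3
  refine le_trans (le_of_eq ?_) key3
  exact Finset.sum_congr rfl fun l _ => hf l

/-- **The density theorem.** -/
theorem statement : Statement b K := by
  classical
  intro μ _ φ cφ sφ Ω hΩ
  have ci : Countable (GK b K) := t_count b
  have cj : Continuous ((UR b K).subtype : UR b K →* GR b K) := continuous_subtype_val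
  obtain ⟨CV, hCV0, hCV⟩ := r_vol b K (om2_compact b hΩ sφ.isCompact)
  obtain ⟨m₀, hm₀⟩ := star_main b K (om2_compact b hΩ sφ.isCompact)
  have hΦ : ∫⁻ y, ‖φ y‖ₑ ^ 2 ∂μ ≠ ⊤ := by
    have h2 : MemLp φ 2 μ := cφ.memLp_of_hasCompactSupport sφ
    have h3 := h2.eLpNorm_lt_top
    rw [eLpNorm_lt_top_iff_lintegral_rpow_enorm_lt_top (by norm_num) (by norm_num)] at h3
    simpa using h3.ne
  refine ⟨((6 ^ m₀ : ℕ) ^ Module.finrank ℚ K : ℝ) ^ (Fintype.card (I b) ^ 2) * CV * (∫⁻ y, ‖φ y‖ₑ ^ 2 ∂μ).toReal, ?_⟩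
  intro v 𝔫 h0 hv r s c hc hsz π hπ h hh hAt θ hθ A hA x hx ν _ D hD m F hF hort
  have hL : Lv b 𝔫 v r s c π h := ⟨h0, hv, hc, hπ, hh, hAt⟩
  have hX0 : 0 ≤ ∏ β ∈ Pos b, Real.exp (Module.finrank ℚ K * A (P.root β)) / (Ideal.absNorm 𝔫 : ℝ) :=
    Finset.prod_nonneg fun β _ => div_nonneg (Real.exp_pos _).le (Nat.cast_nonneg _)
  have hq1 : (0 : ℝ) < Ideal.absNorm v.asIdeal := Nat.cast_pos.2 (Nat.pos_of_ne_zero (by
    rw [Ne, Ideal.absNorm_eq_zero_iff]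
    exact v.ne_bot))
  have hq0 : (0 : ℝ) < (Ideal.absNorm v.asIdeal : ℝ) ^ (∑ β ∈ Pos b, pr b c (Sum.inr β)) := zpow_pos hq1 _
  -- the auxiliary level
  obtain ⟨m₁, hm1, hm2, hm3, hm4⟩ := aux_level m₀ v
  have h1 : Ideal.span {(m₁ : 𝓞 K)} * 𝔫 ≠ ⊥ := by
    rw [Ne, Ideal.mul_eq_bot, not_or, Ideal.span_singleton_eq_bot]
    exact ⟨Nat.cast_ne_zero.2 hm2, h0⟩
  -- fundamental domains
  obtain ⟨F₁, hF₁⟩ := t_sfG b (K := K) h0 v r s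
  obtain ⟨D₁, hD₁⟩ := t_sfU b (K := K) h0 v r s
  have hfdG : IsFundamentalDomain (Gam b 𝔫 v r s) F₁ μ := m4_fd (emb b K) (fun _ _ => rfl) hF₁ μ
  have hcG : Countable (Gam b 𝔫 v r s) := by
    have h : ((Gam b 𝔫 v r s : Subgroup (GR b K)) : Set (GR b K)).Countable := by
      rw [Gam, Subgroup.coe_map]
      exact (Set.to_countable _).image _
    exact h.to_subtype
  -- cocompactness
  have hle : Gh b 𝔫 v r s h ⊓ HU b K ≤ GamK b 𝔫 v r s := r_le b hL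
  have hle' : (Gh b 𝔫 v r s h).subgroupOf (HU b K) ≤ (GamK b 𝔫 v r s).subgroupOf (HU b K) := fun w hw => hle ⟨hw, w.2⟩
  obtain ⟨KT, hKT, hKT'⟩ := r_cc b h0 v r s h
  have hKT1 : ∀ t, ∃ δ : HU b K, δ ∈ (GamK b 𝔫 v r s).subgroupOf (HU b K) ∧ ∃ s ∈ KT, t = kU b K δ * s := by
    intro t
    obtain ⟨δ, hδ, s', hs', e⟩ := hKT' t
    exact ⟨δ, Subgroup.mem_subgroupOf.2 (hle ⟨hδ, δ.2⟩), s', hs', e⟩
  have pD := m_pos b ν hD₁
  have fD := m_fin b ν hD₁ hKT hKT1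
  have hG := m_gd b μ ν θ hD₁ fD
  have hpT : ∀ g : HU b K, MeasurePreserving (fun t : UR b K => g • t) ν ν := fun g => hG.lT (kU b K g)
  have hmT : ∀ g : HU b K, Measurable fun t : UR b K => g • t := fun g => (hpT g).measurable
  obtain ⟨D₂, hD₂⟩ := an_sf hmT hle' hD₁
  have hidxR := r_idx b hL
  have hidx : ((Gh b 𝔫 v r s h).subgroupOf (HU b K)).relIndex ((GamK b 𝔫 v r s).subgroupOf (HU b K)) ≠ 0 := by
    intro h2
    rw [h2, Nat.cast_zero] at hidxR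
    exact hq0.ne hidxR
  have hvol : ν D₂ = ((((Gh b 𝔫 v r s h).subgroupOf (HU b K)).relIndex ((GamK b 𝔫 v r s).subgroupOf (HU b K)) : ℕ) : ℝ≥0∞) * ν D₁ := by
    rw [u2_vol hpT hle' hD₁ hD₂, an_u2k hidx]
  have pD2 : ν D₂ ≠ 0 := m_pos b ν hD₂
  have fD2 : ν D₂ ≠ ⊤ := by
    rw [hvol]
    exact ENNReal.mul_ne_top (ENNReal.natCast_ne_top _) fD
  -- the auxiliary group
  have hm5 : Gm b 𝔫 v r s m₁ h ≤ Gh b 𝔫 v r s h := m_le b 𝔫 v r s m₁ h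
  obtain ⟨KT₁, hKT₁, hKT₁'⟩ := r_cc b h1 v r s h
  have hC : IsCompact ((fun y => x * y) '' tsupport φ) := sφ.isCompact.image (continuous_const.mul continuous_id)
  obtain ⟨Q, hQ, hfq⟩ := m_fq b μ hKT₁ hKT₁' (fun Q hQ => r_fin b h1 v r s h hQ) hC
  have hA0 : ∀ i : b.support, 0 ≤ A (P.root i) := by
    intro i
    have h2 : 0 ≤ Real.log (Ideal.absNorm 𝔫) := Real.log_natCast_nonneg _
    have h3 : (0 : ℝ) < Module.finrank ℚ K := Nat.cast_pos.2 Module.finrank_pos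
    exact nonneg_of_mul_nonneg_right (h2.trans (hA i)) h3
  have hAS : {z | φ (x⁻¹ * z) ≠ 0} ⊆ {z : GR b K | ∃ t : UR b K, ∃ y ∈ (fun y => x * y) '' tsupport φ, z = t.1 * y} := fun z hz =>
    ⟨1, z, ⟨x⁻¹ * z, subset_tsupport _ hz, mul_inv_cancel_left _ _⟩, by simp⟩
  have hPP : ∀ z : GR b K, ν {w : UR b K | (UR b K).subtype w⁻¹ * z ∈ {z | φ (x⁻¹ * z) ≠ 0}} ≤ ν {u : UR b K | ∃ κ ∈ Om2 b Ω (tsupport φ), u.1.1.1 = dg b K A * κ.1 * dg b K (-A)} := by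
    intro z
    have h2 : {w : UR b K | (UR b K).subtype w⁻¹ * z ∈ {z | φ (x⁻¹ * z) ≠ 0}} ⊆ {s : UR b K | ∃ y ∈ tsupport φ, s.1⁻¹ * z = x * y} := fun w hw =>
      ⟨x⁻¹ * ((UR b K).subtype w⁻¹ * z), subset_tsupport _ hw, by
        rw [mul_inv_cancel_left]
        rfl⟩
    exact (measure_mono h2).trans (m_P b (fun s => hG.rT s) hG.iT hΩ sφ.isCompact hx z)
  have hSS : ∀ (t : UR b K) (z : GR b K), (UR b K).subtype t * z ∈ {z : GR b K | ∃ t : UR b K, ∃ y ∈ (fun y => x * y) '' tsupport φ, z = t.1 * y} ↔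
      z ∈ {z : GR b K | ∃ t : UR b K, ∃ y ∈ (fun y => x * y) '' tsupport φ, z = t.1 * y} := fun t z =>
    ⟨fun ⟨t', y, hy, e⟩ => ⟨t⁻¹ * t', y, hy, by
        show z = t.1⁻¹ * t'.1 * y
        rw [mul_assoc, ← e]
        show z = t.1⁻¹ * (t.1 * z)
        rw [inv_mul_cancel_left]⟩, fun ⟨t', y, hy, e⟩ => ⟨t * t', y, hy, by
        show t.1 * z = t.1 * t'.1 * y
        rw [e, mul_assoc]⟩⟩
  have hdich : ∀ γ ∈ Gm b 𝔫 v r s m₁ h, γ ∉ HU b K → (∃ y ∈ {z : GR b K | ∃ t : UR b K, ∃ y ∈ (fun y => x * y) '' tsupport φ, z = t.1 * y},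
      γ • y ∈ {z : GR b K | ∃ t : UR b K, ∃ y ∈ (fun y => x * y) '' tsupport φ, z = t.1 * y}) → Dich (Gm b 𝔫 v r s m₁ h) (HU b K) (fun w => psi b θ (kU b K w)) γ :=
    fun γ hγ hγU ⟨y, hy, hy'⟩ => by
      obtain ⟨t1, _, ⟨y1, hy1, rfl⟩, e1⟩ := hy
      obtain ⟨t2, _, ⟨y2, hy2, rfl⟩, e2⟩ := hy'
      have h2 : Mv b (Om2 b Ω (tsupport φ)) A (emb b K γ) := by
        refine m_mv b hx hy1 hy2 (t := t1) (t' := t2) ?_
        rw [← e1]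
        exact e2
      exact m_dich b h1 hγ (hm₀ m₁ hm1 v hm3 𝔫 r s c π h hL hsz A hA θ (fun i => (hθ i).1) γ hγ hγU h2)
  have hAF : ∀ l, AF μ (GamK b 𝔫 v r s) F₁ φ (F l) := fun l =>
    ⟨(hF l).cont, fun γ hγ y => (hF l).inv _ ⟨γ, hγ, rfl⟩ y, m4_l2 hD hfdG (hF l).cont (hF l).inv (hF l).l2, (hF l).eig⟩
  have hort' : ∀ l k, ∫ x in F₁, star (F l x) * F k x ∂μ = if l = k then 1 else 0 := fun l k => by
    rw [← hort l k]
    exact (m4_int hD hfdG (f := fun y => star (F l y) * F k y) fun γ hγ y => by rw [(hF l).inv γ hγ, (hF k).inv γ hγ]).symm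
  -- the numbers
  have hV := hCV ν 𝔫 h0 v r s D₁ hD₁ A hA0
  have hX1 : 0 ≤ CV * ∏ β ∈ Pos b, Real.exp (Module.finrank ℚ K * A (P.root β)) / (Ideal.absNorm 𝔫 : ℝ) := mul_nonneg hCV0 hX0
  have i1 : (((Gm b 𝔫 v r s m₁ h).relIndex (Gh b 𝔫 v r s h) : ℕ) : ℝ≥0∞) ≤ ENNReal.ofReal (((6 ^ m₀ : ℕ) ^ Module.finrank ℚ K : ℝ) ^ (Fintype.card (I b) ^ 2)) := by
    rw [← ENNReal.ofReal_natCast]
    refine ENNReal.ofReal_le_ofReal ?_
    have h2 := r_m b h0 v r s m₁ hm2 h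
    have h3 : (m₁ ^ Module.finrank ℚ K) ^ (Fintype.card (I b) ^ 2) ≤ ((6 ^ m₀) ^ Module.finrank ℚ K) ^ (Fintype.card (I b) ^ 2) :=
      Nat.pow_le_pow_left (Nat.pow_le_pow_left hm4 _) _
    exact_mod_cast h2.trans h3
  have i2 : ((((Gh b 𝔫 v r s h).subgroupOf (HU b K)).relIndex ((GamK b 𝔫 v r s).subgroupOf (HU b K)) : ℕ) : ℝ≥0∞) =
      ENNReal.ofReal ((Ideal.absNorm v.asIdeal : ℝ) ^ (∑ β ∈ Pos b, pr b c (Sum.inr β))) := by
    rw [← ENNReal.ofReal_natCast, hidxR]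
  have i3 : ∫⁻ y, ‖φ y‖ₑ ^ 2 ∂μ = ENNReal.ofReal (∫⁻ y, ‖φ y‖ₑ ^ 2 ∂μ).toReal := (ENNReal.ofReal_toReal hΦ).symm
  refine ⟨fun D' hD' => ?_, fun hrs t hT D' hD' => ?_⟩
  · -- form A
    have key := l1_absA hG cj (Γ := GamK b 𝔫 v r s) (Γ' := Gh b 𝔫 v r s h) (Γ₁ := Gm b 𝔫 v r s m₁ h) (h₀ := h) (fun g => Iff.rfl) hD₂ pD2 fD2
      (fun w hw => m_psi_one b hθ w (hle ⟨hw, w.2⟩)) ⟨KT, hKT, hKT'⟩ hm5 rfl (r_comm b h1 v v r s r s h h) (m_meas b hC) hSS hfq hdich hQ (subset_refl Q) cφ sφ (x := x) hAS hPP hF₁ (f := F) hAF hort'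
    refine fin_real (a := fun l => ‖Wm (UR b K).subtype (psi b θ) ν D₂ (fun y => F l (h • y)) x‖ₑ ^ 2) (fun l => ENNReal.pow_ne_top enorm_ne_top) (fun l => ?_) (by positivity) ?_
    · rw [ENNReal.toReal_pow, toReal_enorm, whH_eq b hle hD' hD₂ hθ (hF l).inv x]
    · rw [← ENNReal.mul_le_mul_iff_right pD2 fD2]
      refine key.trans ?_
      calc _ ≤ ENNReal.ofReal (((6 ^ m₀ : ℕ) ^ Module.finrank ℚ K : ℝ) ^ (Fintype.card (I b) ^ 2)) *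
            (ENNReal.ofReal (CV * ∏ β ∈ Pos b, Real.exp (Module.finrank ℚ K * A (P.root β)) / (Ideal.absNorm 𝔫 : ℝ)) * ν D₁) * ENNReal.ofReal (∫⁻ y, ‖φ y‖ₑ ^ 2 ∂μ).toReal := by
            rw [← i3]
            gcongr
        _ = _ := by
            rw [hvol, i2]
            rw [show ENNReal.ofReal (((6 ^ m₀ : ℕ) ^ Module.finrank ℚ K : ℝ) ^ (Fintype.card (I b) ^ 2)) *
                (ENNReal.ofReal (CV * ∏ β ∈ Pos b, Real.exp (Module.finrank ℚ K * A (P.root β)) / (Ideal.absNorm 𝔫 : ℝ)) * ν D₁) * ENNReal.ofReal (∫⁻ y, ‖φ y‖ₑ ^ 2 ∂μ).toReal =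
              ν D₁ * (ENNReal.ofReal (((6 ^ m₀ : ℕ) ^ Module.finrank ℚ K : ℝ) ^ (Fintype.card (I b) ^ 2)) *
                ENNReal.ofReal (CV * ∏ β ∈ Pos b, Real.exp (Module.finrank ℚ K * A (P.root β)) / (Ideal.absNorm 𝔫 : ℝ)) * ENNReal.ofReal (∫⁻ y, ‖φ y‖ₑ ^ 2 ∂μ).toReal) from by ring]
            rw [mul_comm (ENNReal.ofReal ((Ideal.absNorm v.asIdeal : ℝ) ^ (∑ β ∈ Pos b, pr b c (Sum.inr β)))) (ν D₁), mul_assoc (ν D₁)]
            rw [← ENNReal.ofReal_mul (by positivity), ← ENNReal.ofReal_mul (by positivity), ← ENNReal.ofReal_mul (by positivity)]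
            congr 2
            rw [_root_.zpow_neg]
            have hq2 := mul_inv_cancel₀ hq0.ne'
            linear_combination (-(((6 ^ m₀ : ℕ) ^ Module.finrank ℚ K : ℝ) ^ (Fintype.card (I b) ^ 2) * CV * (∫⁻ y, ‖φ y‖ₑ ^ 2 ∂μ).toReal *
              ∏ β ∈ Pos b, Real.exp (Module.finrank ℚ K * A (P.root β)) / (Ideal.absNorm 𝔫 : ℝ))) * hq2
  · -- form B
    have hIs : ∀ l, IsU b 𝔫 v r s h (F l) (t l) := fun l => dc_isU_of_isT hrs hL (hF l).inv (hT l)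
    have hH := fun l => m_hecke b hle (hF l).inv (hIs l)
    have key := l1_abs hG cj (Γ := GamK b 𝔫 v r s) (Γ' := Gh b 𝔫 v r s h) (Γ₁ := Gm b 𝔫 v r s m₁ h) (h₀ := h) (fun g => Iff.rfl) hle hD₁ pD fD rfl hidx
      (fun w hw => m_psi_one b hθ w hw) ⟨KT, hKT, hKT'⟩ hm5 rfl (r_comm b h1 v v r s r s h h) (m_meas b hC) hSS hfq hdich hQ (subset_refl Q) cφ sφ (x := x) hAS hPP hF₁ (f := F) hAF hort'
      (β := t) (fun l => (hH l).2)
    refine fin_real (a := fun l => ‖t l‖ₑ ^ 2 * ‖Wm (UR b K).subtype (psi b θ) ν D₁ (F l) x‖ₑ ^ 2)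
      (fun l => ENNReal.mul_ne_top (ENNReal.pow_ne_top enorm_ne_top) (ENNReal.pow_ne_top enorm_ne_top)) (fun l => ?_) (by positivity) ?_
    · rw [ENNReal.toReal_mul, ENNReal.toReal_pow, ENNReal.toReal_pow, toReal_enorm, toReal_enorm, wh_eq b hD' hD₁ hθ (hF l).inv x]
    · rw [← ENNReal.mul_le_mul_iff_right pD fD]
      refine key.trans ?_
      calc _ ≤ ENNReal.ofReal (((6 ^ m₀ : ℕ) ^ Module.finrank ℚ K : ℝ) ^ (Fintype.card (I b) ^ 2)) * ENNReal.ofReal ((Ideal.absNorm v.asIdeal : ℝ) ^ (∑ β ∈ Pos b, pr b c (Sum.inr β))) *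
            (ENNReal.ofReal (CV * ∏ β ∈ Pos b, Real.exp (Module.finrank ℚ K * A (P.root β)) / (Ideal.absNorm 𝔫 : ℝ)) * ν D₁) * ENNReal.ofReal (∫⁻ y, ‖φ y‖ₑ ^ 2 ∂μ).toReal := by
            rw [← i3, ← i2]
            gcongr
        _ = _ := by
            rw [show ENNReal.ofReal (((6 ^ m₀ : ℕ) ^ Module.finrank ℚ K : ℝ) ^ (Fintype.card (I b) ^ 2)) * ENNReal.ofReal ((Ideal.absNorm v.asIdeal : ℝ) ^ (∑ β ∈ Pos b, pr b c (Sum.inr β))) *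
            (ENNReal.ofReal (CV * ∏ β ∈ Pos b, Real.exp (Module.finrank ℚ K * A (P.root β)) / (Ideal.absNorm 𝔫 : ℝ)) * ν D₁) * ENNReal.ofReal (∫⁻ y, ‖φ y‖ₑ ^ 2 ∂μ).toReal =
              ν D₁ * (ENNReal.ofReal (((6 ^ m₀ : ℕ) ^ Module.finrank ℚ K : ℝ) ^ (Fintype.card (I b) ^ 2)) * ENNReal.ofReal ((Ideal.absNorm v.asIdeal : ℝ) ^ (∑ β ∈ Pos b, pr b c (Sum.inr β))) *
            ENNReal.ofReal (CV * ∏ β ∈ Pos b, Real.exp (Module.finrank ℚ K * A (P.root β)) / (Ideal.absNorm 𝔫 : ℝ)) * ENNReal.ofReal (∫⁻ y, ‖φ y‖ₑ ^ 2 ∂μ).toReal) from by ring]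
            rw [← ENNReal.ofReal_mul (by positivity), ← ENNReal.ofReal_mul (by positivity), ← ENNReal.ofReal_mul (by positivity)]
            congr 2
            ring

end

end

end Pool.Agent.Lib.L1S
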