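import Pool.Agent.Lib.L1S.Main
import Pool.Agent.Lib.L1S.M7
import Pool.Agent.Lib.L1S.MApi2
import Pool.Agent.Lib.L1S.AV14
import Pool.Agent.Lib.L1S.AV15

/-!
# Assembly of version 2
-/

namespace Pool.Agent.Lib.L1S

open MeasureTheory Matrix NumberField IsDedekindDomain Pool.Agent.Lib.H89N Pool.Agent.Lib.H33W Pool.Agent.Lib.H67G
open scoped ENNReal

noncomputable section

variable {ι M N : Type} [Fintype ι] [DecidableEq ι] [AddCommGroup M] [Module ℚ M] [AddCommGroup N] [Module ℚ N]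
  {P : RootPairing ι ℚ M N} [P.IsCrystallographic]

section

variable (b : P.Base) {K : Type} [Field K] [NumberField K]

theorem gh_one (𝔫 : Ideal (𝓞 K)) (v : HeightOneSpectrum (𝓞 K)) (r s : ℕ) : Gh b 𝔫 v r s 1 = GamK b 𝔫 v r s := by
  ext g
  show 1 * g * 1⁻¹ ∈ GamK b 𝔫 v r s ↔ _
  rw [one_mul, inv_one, mul_one]

theorem gh_congr {𝔫 : Ideal (𝓞 K)} {v : HeightOneSpectrum (𝓞 K)} {r s : ℕ} {h h1 : GK b K} (e : h * h1⁻¹ ∈ GamK b 𝔫 v r s) : Gh b 𝔫 v r s h = Gh b 𝔫 v r s h1 := by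
  ext g
  have h2 : ∀ x : GK b K, (h * h1⁻¹) * x * (h * h1⁻¹)⁻¹ ∈ GamK b 𝔫 v r s ↔ x ∈ GamK b 𝔫 v r s := fun x => by
    rw [Subgroup.mul_mem_cancel_right _ (Subgroup.inv_mem _ e), Subgroup.mul_mem_cancel_left _ e]
  show h * g * h⁻¹ ∈ GamK b 𝔫 v r s ↔ h1 * g * h1⁻¹ ∈ GamK b 𝔫 v r s
  rw [← h2 (h1 * g * h1⁻¹)]
  have e1 : h * h1⁻¹ * (h1 * g * h1⁻¹) * (h * h1⁻¹)⁻¹ = h * g * h⁻¹ := by group
  rw [e1]

theorem gamH_congr {𝔫 : Ideal (𝓞 K)} {v : HeightOneSpectrum (𝓞 K)} {r s : ℕ} {h h1 : GK b K} (e : h * h1⁻¹ ∈ GamK b 𝔫 v r s) : GamH b 𝔫 v r s h = GamH b 𝔫 v r s h1 := by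
  rw [gamH_eq, gamH_eq, gh_congr b e]

theorem f_congr {𝔫 : Ideal (𝓞 K)} {v : HeightOneSpectrum (𝓞 K)} {r s : ℕ} {h h1 : GK b K} (e : h * h1⁻¹ ∈ GamK b 𝔫 v r s) {F : GR b K → ℂ} (iF : ∀ γ ∈ Gam b 𝔫 v r s, ∀ x, F (γ * x) = F x)
    (y : GR b K) : F (emb b K h * y) = F (emb b K h1 * y) := by
  have h2 : emb b K h * y = emb b K (h * h1⁻¹) * (emb b K h1 * y) := by
    rw [map_mul, map_inv]
    group
  rw [h2]
  exact iF _ ⟨_, e, rfl⟩ _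

theorem inT_congr {𝔫 : Ideal (𝓞 K)} {v : HeightOneSpectrum (𝓞 K)} {r s : ℕ} {h h1 : GK b K} (e : h * h1⁻¹ ∈ GamK b 𝔫 v r s) (w : GR b K) : InT b 𝔫 v r s h w ↔ InT b 𝔫 v r s h1 w := by
  have key : ∀ h h1 : GK b K, h * h1⁻¹ ∈ GamK b 𝔫 v r s → InT b 𝔫 v r s h w → InT b 𝔫 v r s h1 w := by
    rintro h h1 e ⟨γ, hγ, γ', hγ', rfl⟩
    refine ⟨γ * emb b K (h * h1⁻¹), Subgroup.mul_mem _ hγ ⟨_, e, rfl⟩, γ', hγ', ?_⟩
    rw [map_mul, map_inv]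
    group
  refine ⟨key h h1 e, key h1 h ?_⟩
  have e1 : h1 * h⁻¹ = (h * h1⁻¹)⁻¹ := by group
  rw [e1]
  exact Subgroup.inv_mem _ e

theorem isT_congr {𝔫 : Ideal (𝓞 K)} {v : HeightOneSpectrum (𝓞 K)} {r s : ℕ} {h h1 : GK b K} (e : h * h1⁻¹ ∈ GamK b 𝔫 v r s) {F : GR b K → ℂ} {t : ℂ} (hT : IsT b 𝔫 v r s h F t) : IsT b 𝔫 v r s h1 F t := by
  obtain ⟨S, h1', h2, h3⟩ := hT
  exact ⟨S, fun w hw => (inT_congr b e w).1 (h1' w hw), fun w hw => h2 w ((inT_congr b e w).2 hw), h3⟩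

/-- One compact set for a finite family of groups. -/
theorem m_fq2 (μ : Measure (GR b K)) [μ.IsHaarMeasure] {KT : Set (UR b K)} (hK : IsCompact KT) {C : Set (GR b K)} (hC : IsCompact C) :
    ∃ Q : Set (GR b K), IsCompact Q ∧ ∀ Γ₁ : Subgroup (GK b K), (∀ t, ∃ δ : HU b K, (δ : GK b K) ∈ Γ₁ ∧ ∃ s ∈ KT, t = kU b K δ * s) →
      (∀ Q : Set (GR b K), IsCompact Q → {γ : GK b K | γ ∈ Γ₁ ∧ ∃ q ∈ Q, γ • q ∈ Q}.Finite) →
      FQ μ Γ₁ (HU b K) {z : GR b K | ∃ t : UR b K, ∃ y ∈ C, z = t.1 * y} Q := by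
  have hcQ : IsCompact ((fun p : UR b K × GR b K => p.1.1 * p.2) '' (KT ×ˢ C)) := by
    refine (hK.prod hC).image ?_
    exact (continuous_subtype_val.comp continuous_fst).mul continuous_snd
  refine ⟨_, hcQ, fun Γ₁ hc hf => ⟨?_, hf _ hcQ, hcQ.measurableSet, hcQ.measure_lt_top.ne⟩⟩
  rintro z ⟨t, y, hy, rfl⟩
  obtain ⟨δ, hδ, s, hs, hts⟩ := hc t
  refine ⟨(δ : GK b K)⁻¹, inv_mem (Subgroup.mem_inf.2 ⟨hδ, δ.2⟩), ⟨(s, y), ⟨hs, hy⟩, ?_⟩⟩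
  show s.1 * y = emb b K (δ : GK b K)⁻¹ * (t.1 * y)
  have e : t.1 = emb b K (δ : GK b K) * s.1 := by rw [hts]; rfl
  rw [e, map_inv, mul_assoc, inv_mul_cancel_left]

end

section

variable [P.IsRootSystem] [P.IsReduced] [P.IsIrreducible] (b : P.Base) (K : Type) [Field K] [NumberField K]

/-- **The density theorem, version 2.** -/
theorem statement2 : Statement2 b K := by
  classical
  refine ⟨fun v 𝔫 hv r s c π hπ => exists_h hv r s c hπ, ?_⟩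
  intro μ _ φ cφ sφ Ω hΩ
  have ci : Countable (GK b K) := t_count b
  have cj : Continuous ((UR b K).subtype : UR b K →* GR b K) := continuous_subtype_val
  obtain ⟨CV, hCV0, hCV⟩ := r_vol b K (om2_compact b hΩ sφ.isCompact)
  obtain ⟨m₀, hm₀⟩ := star2_main b K (om2_compact b hΩ sφ.isCompact)
  have hΦ : ∫⁻ y, ‖φ y‖ₑ ^ 2 ∂μ ≠ ⊤ := by
    have h2 : MemLp φ 2 μ := cφ.memLp_of_hasCompactSupport sφ
    have h3 := h2.eLpNorm_lt_top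
    rw [eLpNorm_lt_top_iff_lintegral_rpow_enorm_lt_top (by norm_num) (by norm_num)] at h3
    simpa using h3.ne
  refine ⟨((6 ^ m₀ : ℕ) ^ Module.finrank ℚ K : ℝ) ^ (Fintype.card (I b) ^ 2) * CV * (∫⁻ y, ‖φ y‖ₑ ^ 2 ∂μ).toReal, ?_⟩
  intro v 𝔫 h0 hv r s n c hinj hc hsz π hπ h hh θ hθ A hA x hx ν _ D hD m F hF hort a
  have hX0 : 0 ≤ ∏ β ∈ Pos b, Real.exp (Module.finrank ℚ K * A (P.root β)) / (Ideal.absNorm 𝔫 : ℝ) :=
    Finset.prod_nonneg fun β _ => div_nonneg (Real.exp_pos _).le (Nat.cast_nonneg _)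
  have hq1 : (0 : ℝ) < Ideal.absNorm v.asIdeal := Nat.cast_pos.2 (Nat.pos_of_ne_zero (by
    rw [Ne, Ideal.absNorm_eq_zero_iff]
    exact v.ne_bot))
  have hq0 : ∀ k, (0 : ℝ) < (Ideal.absNorm v.asIdeal : ℝ) ^ (∑ β ∈ Pos b, pr b (c k) (Sum.inr β)) := fun k => zpow_pos hq1 _
  -- the auxiliary level
  obtain ⟨m₁, hm1, hm2, hm3, hm4⟩ := aux_level m₀ v
  have h1 : Ideal.span {(m₁ : 𝓞 K)} * 𝔫 ≠ ⊥ := by
    rw [Ne, Ideal.mul_eq_bot, not_or, Ideal.span_singleton_eq_bot]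
    exact ⟨Nat.cast_ne_zero.2 hm2, h0⟩
  have h1v : ¬Ideal.span {(m₁ : 𝓞 K)} * 𝔫 ≤ v.asIdeal := (de_m h0 hv hm3).2
  -- replacement of the Hecke elements
  choose g hg1 hg2 hg3 using fun k => de_repl h0 hv hm3 (r := r) (s := s) (c := c k) hπ (hh k).1 (hh k).2
  have hg4 : ∀ k, g k ∈ HG b 𝔫 v := fun k => HG.le (𝔫 := Ideal.span {(m₁ : 𝓞 K)} * 𝔫) Ideal.mul_le_right (hg1 k)
  have hL : ∀ k, Lv b 𝔫 v r s (c k) π (g k) := fun k => ⟨h0, hv, hc k, hπ, hg4 k, hg2 k⟩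
  have hL1 : ∀ k, Lv b (Ideal.span {(m₁ : 𝓞 K)} * 𝔫) v r s (c k) π (g k) := fun k => ⟨h1, h1v, hc k, hπ, hg1 k, hg2 k⟩
  -- fundamental domains
  obtain ⟨F₁, hF₁⟩ := t_sfG b (K := K) h0 v r s
  obtain ⟨D₁, hD₁⟩ := t_sfU b (K := K) h0 v r s
  have hfdG : IsFundamentalDomain (Gam b 𝔫 v r s) F₁ μ := m4_fd (emb b K) (fun _ _ => rfl) hF₁ μ
  have hcG : Countable (Gam b 𝔫 v r s) := by
    have h : ((Gam b 𝔫 v r s : Subgroup (GR b K)) : Set (GR b K)).Countable := by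
      rw [Gam, Subgroup.coe_map]
      exact (Set.to_countable _).image _
    exact h.to_subtype
  -- cocompactness
  have hle : ∀ k, Gh b 𝔫 v r s (g k) ⊓ HU b K ≤ GamK b 𝔫 v r s := fun k => r_le b (hL k)
  have hle' : ∀ k, (Gh b 𝔫 v r s (g k)).subgroupOf (HU b K) ≤ (GamK b 𝔫 v r s).subgroupOf (HU b K) := fun k w hw => hle k ⟨hw, w.2⟩
  have hccΓ := fun k => r_cc b h0 v r s (g k)
  obtain ⟨KT, hKT, hKT'⟩ := r_cc b h0 v r s (1 : GK b K)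
  have hKT1 : ∀ t, ∃ δ : HU b K, δ ∈ (GamK b 𝔫 v r s).subgroupOf (HU b K) ∧ ∃ s ∈ KT, t = kU b K δ * s := by
    intro t
    obtain ⟨δ, hδ, s', hs', e⟩ := hKT' t
    refine ⟨δ, Subgroup.mem_subgroupOf.2 ?_, s', hs', e⟩
    rw [gh_one] at hδ
    exact hδ
  have pD := m_pos b ν hD₁
  have fD := m_fin b ν hD₁ hKT hKT1
  have hG := m_gd b μ ν θ hD₁ fD
  have hpT : ∀ g : HU b K, MeasurePreserving (fun t : UR b K => g • t) ν ν := fun g => hG.lT (kU b K g)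
  have hmT : ∀ g : HU b K, Measurable fun t : UR b K => g • t := fun g => (hpT g).measurable
  choose D₂ hD₂ using fun k => an_sf hmT (hle' k) hD₁
  have hidxR := fun k => r_idx b (hL k)
  have hidx : ∀ k, ((Gh b 𝔫 v r s (g k)).subgroupOf (HU b K)).relIndex ((GamK b 𝔫 v r s).subgroupOf (HU b K)) ≠ 0 := by
    intro k h2
    have h3 := hidxR k
    rw [h2, Nat.cast_zero] at h3
    exact (hq0 k).ne h3
  have hvol : ∀ k, ν (D₂ k) = ((((Gh b 𝔫 v r s (g k)).subgroupOf (HU b K)).relIndex ((GamK b 𝔫 v r s).subgroupOf (HU b K)) : ℕ) : ℝ≥0∞) * ν D₁ := by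
    intro k
    rw [u2_vol hpT (hle' k) hD₁ (hD₂ k), an_u2k (hidx k)]
  have pD2 : ∀ k, ν (D₂ k) ≠ 0 := fun k => m_pos b ν (hD₂ k)
  have fD2 : ∀ k, ν (D₂ k) ≠ ⊤ := by
    intro k
    rw [hvol k]
    exact ENNReal.mul_ne_top (ENNReal.natCast_ne_top _) fD
  -- the auxiliary group
  have hm5 : GamK b (Ideal.span {(m₁ : 𝓞 K)} * 𝔫) v r s ≤ GamK b 𝔫 v r s := by
    have h2 := m_le b 𝔫 v r s m₁ (1 : GK b K)
    rw [Gm, gh_one, gh_one] at h2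
    exact h2
  choose KT₁ hKT₁ hKT₁' using fun k => r_cc b h1 v r s (g k)
  have hKT₂ : IsCompact (⋃ k, KT₁ k) := isCompact_iUnion hKT₁
  have hKT₂' : ∀ k t, ∃ δ : HU b K, (δ : GK b K) ∈ Gh b (Ideal.span {(m₁ : 𝓞 K)} * 𝔫) v r s (g k) ∧ ∃ s ∈ ⋃ k, KT₁ k, t = kU b K δ * s := by
    intro k t
    obtain ⟨δ, hδ, s', hs', e⟩ := hKT₁' k t
    exact ⟨δ, hδ, s', Set.mem_iUnion.2 ⟨k, hs'⟩, e⟩
  have hC : IsCompact ((fun y => x * y) '' tsupport φ) := sφ.isCompact.image (continuous_const.mul continuous_id)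
  obtain ⟨Q, hQ, hfq⟩ := m_fq2 b μ hKT₂ hC
  have hfq' : ∀ k, FQ μ (Gh b (Ideal.span {(m₁ : 𝓞 K)} * 𝔫) v r s (g k)) (HU b K) {z : GR b K | ∃ t : UR b K, ∃ y ∈ (fun y => x * y) '' tsupport φ, z = t.1 * y} Q := fun k =>
    hfq _ (hKT₂' k) (fun Q hQ => r_fin b h1 v r s (g k) hQ)
  have hA0 : ∀ i : b.support, 0 ≤ A (P.root i) := by
    intro i
    have h2 : 0 ≤ Real.log (Ideal.absNorm 𝔫) := Real.log_natCast_nonneg _
    have h3 : (0 : ℝ) < Module.finrank ℚ K := Nat.cast_pos.2 Module.finrank_pos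
    exact nonneg_of_mul_nonneg_right (h2.trans (hA i)) h3
  have hAS : {z | φ (x⁻¹ * z) ≠ 0} ⊆ {z : GR b K | ∃ t : UR b K, ∃ y ∈ (fun y => x * y) '' tsupport φ, z = t.1 * y} := fun z hz =>
    ⟨1, z, ⟨x⁻¹ * z, subset_tsupport _ hz, mul_inv_cancel_left _ _⟩, by simp⟩
  have hPP : ∀ z : GR b K, ν {w : UR b K | (UR b K).subtype w⁻¹ * z ∈ {z | φ (x⁻¹ * z) ≠ 0}} ≤ ν {u : UR b K | ∃ κ ∈ Om2 b Ω (tsupport φ), u.1.1.1 = dg b K A * κ.1 * dg b K (-A)} := by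
    intro z
    have h2 : {w : UR b K | (UR b K).subtype w⁻¹ * z ∈ {z | φ (x⁻¹ * z) ≠ 0}} ⊆ {s : UR b K | ∃ y ∈ tsupport φ, s.1⁻¹ * z = x * y} := fun w hw =>
      ⟨x⁻¹ * ((UR b K).subtype w⁻¹ * z), subset_tsupport _ hw, by
        rw [mul_inv_cancel_left]
        rfl⟩
    exact (measure_mono h2).trans (m_P b (fun s => hG.rT s) hG.iT hΩ sφ.isCompact hx z)
  have hSS : ∀ (t : UR b K) (z : GR b K), (UR b K).subtype t * z ∈ {z : GR b K | ∃ t : UR b K, ∃ y ∈ (fun y => x * y) '' tsupport φ, z = t.1 * y} ↔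
      z ∈ {z : GR b K | ∃ t : UR b K, ∃ y ∈ (fun y => x * y) '' tsupport φ, z = t.1 * y} := fun t z =>
    ⟨fun ⟨t', y, hy, e⟩ => ⟨t⁻¹ * t', y, hy, by
        show z = t.1⁻¹ * t'.1 * y
        rw [mul_assoc, ← e]
        show z = t.1⁻¹ * (t.1 * z)
        rw [inv_mul_cancel_left]⟩, fun ⟨t', y, hy, e⟩ => ⟨t * t', y, hy, by
        show t.1 * z = t.1 * t'.1 * y
        rw [e, mul_assoc]⟩⟩
  have hdich : ∀ k k' γ, g k * γ * (g k')⁻¹ ∈ GamK b (Ideal.span {(m₁ : 𝓞 K)} * 𝔫) v r s → (∃ y ∈ {z : GR b K | ∃ t : UR b K, ∃ y ∈ (fun y => x * y) '' tsupport φ, z = t.1 * y},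
      γ • y ∈ {z : GR b K | ∃ t : UR b K, ∃ y ∈ (fun y => x * y) '' tsupport φ, z = t.1 * y}) → (k = k' ∧ γ ∈ HU b K) ∨
      Dich2 (Gh b (Ideal.span {(m₁ : 𝓞 K)} * 𝔫) v r s (g k)) (Gh b (Ideal.span {(m₁ : 𝓞 K)} * 𝔫) v r s (g k')) (HU b K) (fun w => psi b θ (kU b K w)) γ := by
    rintro k k' γ hγ ⟨y, hy, hy'⟩
    obtain ⟨t1, _, ⟨y1, hy1, rfl⟩, e1⟩ := hy
    obtain ⟨t2, _, ⟨y2, hy2, rfl⟩, e2⟩ := hy'
    have h2 : Mv b (Om2 b Ω (tsupport φ)) A (emb b K γ) := by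
      refine m_mv b hx hy1 hy2 (t := t1) (t' := t2) ?_
      rw [← e1]
      exact e2
    rcases hm₀ m₁ hm1 v hm3 𝔫 r s (c k') (c k) π (g k') (g k) (hL1 k') (hL1 k) (hsz k' k) A hA θ (fun i => (hθ i).1) γ hγ h2 with h3 | h3
    · exact Or.inl ⟨hinj h3.2.symm, h3.1⟩
    · exact Or.inr (m_dich2 b h1 hγ h3)
  have hAF : ∀ l, AF μ (GamK b 𝔫 v r s) F₁ φ (F l) := fun l =>
    ⟨(hF l).cont, fun γ hγ y => (hF l).inv _ ⟨γ, hγ, rfl⟩ y, m4_l2 hD hfdG (hF l).cont (hF l).inv (hF l).l2, (hF l).eig⟩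
  have hort' : ∀ l k, ∫ x in F₁, star (F l x) * F k x ∂μ = if l = k then 1 else 0 := fun l k => by
    rw [← hort l k]
    exact (m4_int hD hfdG (f := fun y => star (F l y) * F k y) fun γ hγ y => by rw [(hF l).inv γ hγ, (hF k).inv γ hγ]).symm
  have hc0 : (GamK b (Ideal.span {(m₁ : 𝓞 K)} * 𝔫) v r s).relIndex (GamK b 𝔫 v r s) ≠ 0 := by
    have h2 := r_comm b h1 (𝔪 := 𝔫) v v r s r s (1 : GK b K) 1
    rw [gh_one, gh_one] at h2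
    exact h2
  -- the numbers
  have hV := hCV ν 𝔫 h0 v r s D₁ hD₁ A hA0
  have hX1 : 0 ≤ CV * ∏ β ∈ Pos b, Real.exp (Module.finrank ℚ K * A (P.root β)) / (Ideal.absNorm 𝔫 : ℝ) := mul_nonneg hCV0 hX0
  have i1 : (((GamK b (Ideal.span {(m₁ : 𝓞 K)} * 𝔫) v r s).relIndex (GamK b 𝔫 v r s) : ℕ) : ℝ≥0∞) ≤ ENNReal.ofReal (((6 ^ m₀ : ℕ) ^ Module.finrank ℚ K : ℝ) ^ (Fintype.card (I b) ^ 2)) := by
    rw [← ENNReal.ofReal_natCast]
    refine ENNReal.ofReal_le_ofReal ?_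
    have h2 := r_m b h0 v r s m₁ hm2 (1 : GK b K)
    rw [Gm, gh_one, gh_one] at h2
    have h3 : (m₁ ^ Module.finrank ℚ K) ^ (Fintype.card (I b) ^ 2) ≤ ((6 ^ m₀) ^ Module.finrank ℚ K) ^ (Fintype.card (I b) ^ 2) :=
      Nat.pow_le_pow_left (Nat.pow_le_pow_left hm4 _) _
    exact_mod_cast h2.trans h3
  have i2 : ∀ k, ((((Gh b 𝔫 v r s (g k)).subgroupOf (HU b K)).relIndex ((GamK b 𝔫 v r s).subgroupOf (HU b K)) : ℕ) : ℝ≥0∞) =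
      ENNReal.ofReal ((Ideal.absNorm v.asIdeal : ℝ) ^ (∑ β ∈ Pos b, pr b (c k) (Sum.inr β))) := by
    intro k
    rw [← ENNReal.ofReal_natCast, hidxR k]
  have i3 : ∫⁻ y, ‖φ y‖ₑ ^ 2 ∂μ = ENNReal.ofReal (∫⁻ y, ‖φ y‖ₑ ^ 2 ∂μ).toReal := (ENNReal.ofReal_toReal hΦ).symm
  have i4 : ∀ k, ‖a k‖ₑ ^ 2 = ENNReal.ofReal (‖a k‖ ^ 2) := fun k => by
    rw [ENNReal.ofReal_pow (norm_nonneg _), ofReal_norm]
  refine ⟨fun D' hD' => ?_, fun hrs t hT D' hD' => ?_⟩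
  · -- form A
    have key := l1_absA2 hG cj (Γ := GamK b 𝔫 v r s) (Γ₁ := GamK b (Ideal.span {(m₁ : 𝓞 K)} * 𝔫) v r s) (hk := g) (Γ' := fun k => Gh b 𝔫 v r s (g k))
      (Γ1 := fun k => Gh b (Ideal.span {(m₁ : 𝓞 K)} * 𝔫) v r s (g k)) (fun i g => Iff.rfl) (fun i g => Iff.rfl) hD₂ pD2 fD2
      (fun i w hw => m_psi_one b hθ w (hle i ⟨hw, w.2⟩)) hccΓ hm5 rfl hc0 (m_meas b hC) hSS hfq' hdich hQ (subset_refl Q) cφ sφ (x := x) hAS hPP hF₁ (f := F) hAF hort' a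
    refine fin_real (a := fun l => ‖∑ k, a k * Wm (UR b K).subtype (psi b θ) ν (D₂ k) (fun y => F l (g k • y)) x‖ₑ ^ 2) (fun l => ENNReal.pow_ne_top enorm_ne_top) (fun l => ?_) (by positivity) ?_
    · rw [ENNReal.toReal_pow, toReal_enorm]
      congr 2
      refine Finset.sum_congr rfl fun k _ => ?_
      congr 1
      have e1 := hD' k
      rw [gamH_congr b (hg3 k)] at e1
      rw [← whH_eq b (hle k) e1 (hD₂ k) hθ (hF l).inv x]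
      unfold Wh
      refine congrArg (fun f : UR b K → ℂ => ⨍ u in D' k, f u ∂ν) (funext fun u => ?_)
      show F l (emb b K (h k) * (u.1 * x)) * star (psi b θ u) = F l (emb b K (g k) * (u.1 * x)) * star (psi b θ u)
      rw [f_congr b (hg3 k) (hF l).inv]
    · refine key.trans ?_
      have e2 : ∀ k, ‖a k‖ₑ ^ 2 / ν (D₂ k) = ENNReal.ofReal (‖a k‖ ^ 2 * (Ideal.absNorm v.asIdeal : ℝ) ^ (-∑ β ∈ Pos b, pr b (c k) (Sum.inr β))) / ν D₁ := by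
        intro k
        rw [hvol k, i2 k, i4 k, _root_.zpow_neg, ← div_eq_mul_inv, ENNReal.ofReal_div_of_pos (hq0 k)]
        rw [div_eq_mul_inv, div_eq_mul_inv, div_eq_mul_inv, mul_assoc, ENNReal.mul_inv (Or.inr fD) (Or.inr pD)]
      have e3 : ∑ k, ‖a k‖ₑ ^ 2 / ν (D₂ k) = ENNReal.ofReal (∑ k, ‖a k‖ ^ 2 * (Ideal.absNorm v.asIdeal : ℝ) ^ (-∑ β ∈ Pos b, pr b (c k) (Sum.inr β))) / ν D₁ := by
        rw [ENNReal.ofReal_sum_of_nonneg (fun k _ => by positivity), div_eq_mul_inv, Finset.sum_mul]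
        exact Finset.sum_congr rfl fun k _ => by rw [e2 k, div_eq_mul_inv]
      have hs0 : 0 ≤ ∑ k, ‖a k‖ ^ 2 * (Ideal.absNorm v.asIdeal : ℝ) ^ (-∑ β ∈ Pos b, pr b (c k) (Sum.inr β)) := Finset.sum_nonneg fun k _ => by positivity
      rw [e3]
      calc _ ≤ ENNReal.ofReal (((6 ^ m₀ : ℕ) ^ Module.finrank ℚ K : ℝ) ^ (Fintype.card (I b) ^ 2)) *
            (ENNReal.ofReal (CV * ∏ β ∈ Pos b, Real.exp (Module.finrank ℚ K * A (P.root β)) / (Ideal.absNorm 𝔫 : ℝ)) * ν D₁) * ENNReal.ofReal (∫⁻ y, ‖φ y‖ₑ ^ 2 ∂μ).toReal *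
            (ENNReal.ofReal (∑ k, ‖a k‖ ^ 2 * (Ideal.absNorm v.asIdeal : ℝ) ^ (-∑ β ∈ Pos b, pr b (c k) (Sum.inr β))) / ν D₁) := by
            rw [← i3]
            gcongr
        _ = ENNReal.ofReal (((6 ^ m₀ : ℕ) ^ Module.finrank ℚ K : ℝ) ^ (Fintype.card (I b) ^ 2)) *
            ENNReal.ofReal (CV * ∏ β ∈ Pos b, Real.exp (Module.finrank ℚ K * A (P.root β)) / (Ideal.absNorm 𝔫 : ℝ)) * ENNReal.ofReal (∫⁻ y, ‖φ y‖ₑ ^ 2 ∂μ).toReal *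
            ENNReal.ofReal (∑ k, ‖a k‖ ^ 2 * (Ideal.absNorm v.asIdeal : ℝ) ^ (-∑ β ∈ Pos b, pr b (c k) (Sum.inr β))) * (ν D₁ * (ν D₁)⁻¹) := by
            rw [div_eq_mul_inv]
            ring
        _ = _ := by
            rw [ENNReal.mul_inv_cancel pD fD, mul_one]
            rw [← ENNReal.ofReal_mul (by positivity), ← ENNReal.ofReal_mul (by positivity), ← ENNReal.ofReal_mul (by positivity)]
            congr 1
            ring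
  · -- form B
    have hIs : ∀ l k, IsU b 𝔫 v r s (g k) (F l) (t l k) := fun l k => dc_isU_of_isT hrs (hL k) (hF l).inv (isT_congr b (hg3 k) (hT l k))
    have hH := fun k l => m_hecke b (hle k) (hF l).inv (hIs l k)
    have key := l1_abs2 hG cj (Γ := GamK b 𝔫 v r s) (Γ₁ := GamK b (Ideal.span {(m₁ : 𝓞 K)} * 𝔫) v r s) (hk := g) (Γ' := fun k => Gh b 𝔫 v r s (g k))
      (Γ1 := fun k => Gh b (Ideal.span {(m₁ : 𝓞 K)} * 𝔫) v r s (g k)) (fun i g => Iff.rfl) (fun i g => Iff.rfl) hle hD₁ pD fD (fun i => rfl) hidx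
      (fun w hw => m_psi_one b hθ w hw) hccΓ hm5 rfl hc0 (m_meas b hC) hSS hfq' hdich hQ (subset_refl Q) cφ sφ (x := x) hAS hPP hF₁ (f := F) hAF hort'
      (β := fun k l => t l k) (fun k l => (hH k l).2) a
    refine fin_real (a := fun l => ‖∑ k, a k * t l k‖ₑ ^ 2 * ‖Wm (UR b K).subtype (psi b θ) ν D₁ (F l) x‖ₑ ^ 2)
      (fun l => ENNReal.mul_ne_top (ENNReal.pow_ne_top enorm_ne_top) (ENNReal.pow_ne_top enorm_ne_top)) (fun l => ?_) (by positivity) ?_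
    · rw [ENNReal.toReal_mul, ENNReal.toReal_pow, ENNReal.toReal_pow, toReal_enorm, toReal_enorm, wh_eq b hD' hD₁ hθ (hF l).inv x]
    · have hs0 : 0 ≤ ∑ k, ‖a k‖ ^ 2 * (Ideal.absNorm v.asIdeal : ℝ) ^ (∑ β ∈ Pos b, pr b (c k) (Sum.inr β)) := Finset.sum_nonneg fun k _ => by positivity
      have e3 : ∑ k, ((((Gh b 𝔫 v r s (g k)).subgroupOf (HU b K)).relIndex ((GamK b 𝔫 v r s).subgroupOf (HU b K)) : ℕ) : ℝ≥0∞) * ‖a k‖ₑ ^ 2 =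
          ENNReal.ofReal (∑ k, ‖a k‖ ^ 2 * (Ideal.absNorm v.asIdeal : ℝ) ^ (∑ β ∈ Pos b, pr b (c k) (Sum.inr β))) := by
        rw [ENNReal.ofReal_sum_of_nonneg (fun k _ => by positivity)]
        refine Finset.sum_congr rfl fun k _ => ?_
        rw [i2 k, i4 k, ← ENNReal.ofReal_mul (hq0 k).le, mul_comm]
      rw [← ENNReal.mul_le_mul_iff_right pD fD]
      refine key.trans ?_
      rw [e3]
      calc _ ≤ ENNReal.ofReal (((6 ^ m₀ : ℕ) ^ Module.finrank ℚ K : ℝ) ^ (Fintype.card (I b) ^ 2)) *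
            (ENNReal.ofReal (CV * ∏ β ∈ Pos b, Real.exp (Module.finrank ℚ K * A (P.root β)) / (Ideal.absNorm 𝔫 : ℝ)) * ν D₁) * ENNReal.ofReal (∫⁻ y, ‖φ y‖ₑ ^ 2 ∂μ).toReal *
            ENNReal.ofReal (∑ k, ‖a k‖ ^ 2 * (Ideal.absNorm v.asIdeal : ℝ) ^ (∑ β ∈ Pos b, pr b (c k) (Sum.inr β))) := by
            rw [← i3]
            gcongr
        _ = ν D₁ * (ENNReal.ofReal (((6 ^ m₀ : ℕ) ^ Module.finrank ℚ K : ℝ) ^ (Fintype.card (I b) ^ 2)) *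
            ENNReal.ofReal (CV * ∏ β ∈ Pos b, Real.exp (Module.finrank ℚ K * A (P.root β)) / (Ideal.absNorm 𝔫 : ℝ)) * ENNReal.ofReal (∫⁻ y, ‖φ y‖ₑ ^ 2 ∂μ).toReal *
            ENNReal.ofReal (∑ k, ‖a k‖ ^ 2 * (Ideal.absNorm v.asIdeal : ℝ) ^ (∑ β ∈ Pos b, pr b (c k) (Sum.inr β)))) := by
            ring
        _ = _ := by
            rw [← ENNReal.ofReal_mul (by positivity), ← ENNReal.ofReal_mul (by positivity), ← ENNReal.ofReal_mul (by positivity)]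
            congr 2
            ring

end

end

end Pool.Agent.Lib.L1S
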