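import Pool.Agent.Lib.L1S.QStm
import Pool.Agent.Lib.L1S.M3

/-!
# QM1: the sets `U a Ω` in the real quasi-split group, the bound `P`
-/

namespace Pool.Agent.Lib.L1S

open MeasureTheory Matrix NumberField IsDedekindDomain Pool.Agent.Lib.H89N Pool.Agent.Lib.H33W Pool.Agent.Lib.H67G
open scoped ENNReal

noncomputable section

set_option linter.unusedSectionVars false

variable {ι M N : Type} [Fintype ι] [DecidableEq ι] [AddCommGroup M] [Module ℚ M] [AddCommGroup N] [Module ℚ N]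
  {P : RootPairing ι ℚ M N} [P.IsCrystallographic] {b : P.Base} {L : Type} [Field L] [NumberField L] (H : Subgroup (GK b L))

/-- The image of a set in `G(L ⊗ ℝ)`. -/
def CG (C : Set (HRt H)) : Set (GR b L) := (fun x : HRt H => (x : GR b L)) '' C

theorem cg_compact {C : Set (HRt H)} (hC : IsCompact C) : IsCompact (CG H C) := hC.image continuous_subtype_val

theorem InRangeH.rg {H : Subgroup (GK b L)} {Ω : Set (GL (I b) (EE L))} {A : M →ₗ[ℚ] ℝ} {x : HRt H} (hx : InRangeH H Ω A x) : InRange b Ω A x.1 := by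
  obtain ⟨u, ω, hω, h⟩ := hx
  exact ⟨u.1.1, u.2, ω, hω, h⟩

theorem qm_mv {Ω : Set (GL (I b) (EE L))} {C : Set (HRt H)} {A : M →ₗ[ℚ] ℝ} {x : HRt H} (hx : InRangeH H Ω A x) {γ : HRt H} {t t' : UHR H} {y y' : HRt H} (hy : y ∈ C) (hy' : y' ∈ C)
    (h : γ * (t.1 * (x * y)) = t'.1 * (x * y')) : Mv b (Om2 b Ω (CG H C)) A γ.1 := by
  have h1 : γ.1 * (t.1.1 * (x.1 * y.1)) = t'.1.1 * (x.1 * y'.1) := congrArg Subtype.val h
  exact m_mv b hx.rg (t := ⟨t.1.1, t.2⟩) (t' := ⟨t'.1.1, t'.2⟩) (y := y.1) (y' := y'.1) ⟨y, hy, rfl⟩ ⟨y', hy', rfl⟩ h1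

theorem qm_P {ν : Measure (UHR H)} [ν.IsHaarMeasure] (hr : ∀ s : UHR H, MeasurePreserving (fun t : UHR H => t * s) ν ν) (hi : MeasurePreserving (fun t : UHR H => t⁻¹) ν ν)
    [MeasurableMul (UHR H)] {Ω : Set (GL (I b) (EE L))} {C : Set (HRt H)} {A : M →ₗ[ℚ] ℝ} {x : HRt H} (hx : InRangeH H Ω A x) (z : HRt H) :
    ν {s : UHR H | ∃ y ∈ C, s.1⁻¹ * z = x * y} ≤ ν {u : UHR H | ∃ κ ∈ Om2 b Ω (CG H C), u.1.1.1.1 = dg b L A * κ.1 * dg b L (-A)} := by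
  rcases Set.eq_empty_or_nonempty {s : UHR H | ∃ y ∈ C, s.1⁻¹ * z = x * y} with he | ⟨s₀, y₀, hy₀, h0⟩
  · rw [he, measure_empty]
    exact bot_le
  obtain ⟨u, ω, hω, hxu'⟩ := hx
  have hxu : x.1.1 = u.1.1.1 * m3A b L A * ω := Units.ext hxu'
  have hmp : MeasurePreserving (fun s : UHR H => u⁻¹ * (s⁻¹ * (s₀ * u))) ν ν :=
    (measurePreserving_mul_left ν u⁻¹).comp ((hr (s₀ * u)).comp hi)
  have hsub : {s : UHR H | ∃ y ∈ C, s.1⁻¹ * z = x * y} ⊆ (fun s : UHR H => u⁻¹ * (s⁻¹ * (s₀ * u))) ⁻¹'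
      {u : UHR H | ∃ κ ∈ Om2 b Ω (CG H C), u.1.1.1.1 = dg b L A * κ.1 * dg b L (-A)} := by
    rintro s ⟨y, hy, h1⟩
    refine ⟨ω * y.1.1 * (ω * y₀.1.1)⁻¹, ⟨ω, hω, y.1, ⟨y, hy, rfl⟩, ω, hω, y₀.1, ⟨y₀, hy₀, rfl⟩, rfl⟩, ?_⟩
    have e1 : s.1.1.1⁻¹ * z.1.1 = x.1.1 * y.1.1 := congrArg (fun w : HRt H => w.1.1) h1
    have e0 : s₀.1.1.1⁻¹ * z.1.1 = x.1.1 * y₀.1.1 := congrArg (fun w : HRt H => w.1.1) h0
    have e2 : s.1.1.1⁻¹ * s₀.1.1.1 = x.1.1 * y.1.1 * (x.1.1 * y₀.1.1)⁻¹ := by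
      rw [← e1, ← e0]
      group
    have e3 : u.1.1.1⁻¹ * (s.1.1.1⁻¹ * (s₀.1.1.1 * u.1.1.1)) = m3A b L A * (ω * y.1.1 * (ω * y₀.1.1)⁻¹) * (m3A b L A)⁻¹ := by
      rw [← mul_assoc s.1.1.1⁻¹, e2, hxu]
      group
    have e4 := congrArg Units.val e3
    exact e4
  calc ν {s : UHR H | ∃ y ∈ C, s.1⁻¹ * z = x * y} ≤ ν ((fun s : UHR H => u⁻¹ * (s⁻¹ * (s₀ * u))) ⁻¹'
      {u : UHR H | ∃ κ ∈ Om2 b Ω (CG H C), u.1.1.1.1 = dg b L A * κ.1 * dg b L (-A)}) := measure_mono hsub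
    _ ≤ (ν.map (fun s : UHR H => u⁻¹ * (s⁻¹ * (s₀ * u))))
        {u : UHR H | ∃ κ ∈ Om2 b Ω (CG H C), u.1.1.1.1 = dg b L A * κ.1 * dg b L (-A)} :=
        Measure.le_map_apply hmp.measurable.aemeasurable _
    _ = _ := by rw [hmp.map_eq]

end

end Pool.Agent.Lib.L1S
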