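import Pool.Agent.Lib.L1S.TH2
import Pool.Agent.Lib.L1S.M1
import Pool.Agent.Lib.L1S.AV15

/-!
# Module T_H (version V1), part 3: from the alternative to `Dich2`, the Hecke operator, the sets `S`, `Q`, the bound `P`
-/

namespace Pool.Agent.Lib.L1S

open MeasureTheory Matrix NumberField IsDedekindDomain Pool.Agent.Lib.H89N Pool.Agent.Lib.H33W Pool.Agent.Lib.H67G Topology
open scoped ENNReal

noncomputable section

/-! ## Group theory -/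

section grp

variable {G : Type} [Group G]

/-- `h⁻¹ Γ h`. -/
def cjG (Γ : Subgroup G) (h : G) : Subgroup G := Γ.comap (MulAut.conj h).toMonoidHom

theorem cjG_mem (Γ : Subgroup G) (h g : G) : g ∈ cjG Γ h ↔ h * g * h⁻¹ ∈ Γ := Iff.rfl

theorem cjG_mul (Γ : Subgroup G) (h x g : G) : g ∈ cjG Γ (h * x) ↔ x * g * x⁻¹ ∈ cjG Γ h := by
  rw [cjG_mem, cjG_mem]
  have e : h * x * g * (h * x)⁻¹ = h * (x * g * x⁻¹) * h⁻¹ := by group
  rw [e]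

theorem cjG_one (Γ : Subgroup G) : cjG Γ 1 = Γ := by
  ext g
  rw [cjG_mem, one_mul, inv_one, mul_one]

theorem cjG_mono {Γ Γ' : Subgroup G} (h : Γ ≤ Γ') (g : G) : cjG Γ g ≤ cjG Γ' g := fun _ hx => h hx

theorem cjG_comm {Γ : Subgroup G} (h : ∀ g, (cjG Γ g).relIndex Γ ≠ 0) (g g' : G) : (cjG Γ g).relIndex (cjG Γ g') ≠ 0 := by
  have e : cjG Γ g = cjG (cjG Γ (g * g'⁻¹)) g' := by
    ext x
    rw [cjG_mem (cjG Γ (g * g'⁻¹)), ← cjG_mul, inv_mul_cancel_right]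
  rw [e]
  have h2 := qg_relIndex_conj (cjG Γ (g * g'⁻¹)) Γ g'
  have h3 : (cjG (cjG Γ (g * g'⁻¹)) g').relIndex (cjG Γ g') = (cjG Γ (g * g'⁻¹)).relIndex Γ := h2
  rw [h3]
  exact h _

theorem th3_idx {Γ HU : Subgroup G} (comm : ∀ g h : G, (cjG Γ g).relIndex (cjG Γ h) ≠ 0) (h x : G) (L : Subgroup HU) (hL : ∀ w ∈ L, (w : G) ∈ cjG Γ h) :
    (L ⊓ (cjG Γ x).subgroupOf HU).relIndex L ≠ 0 := by
  rw [Subgroup.inf_relIndex_left]
  have h1 : ((cjG Γ x).subgroupOf HU).relIndex L = (cjG Γ x).relIndex (L.map HU.subtype) := Subgroup.relIndex_comap _ HU.subtype L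
  rw [h1]
  have h2 : L.map HU.subtype ≤ cjG Γ h := by
    rintro _ ⟨w, hw, rfl⟩
    exact hL w hw
  exact mt (Subgroup.relIndex_eq_zero_of_le_right h2) (comm x h)

theorem th3_conj {Γ : Subgroup G} {h h' γ : G} (hγ : h * γ * h'⁻¹ ∈ Γ) {x : G} (hx : x ∈ cjG Γ h') : γ * x * γ⁻¹ ∈ cjG Γ h := by
  have h1 : h' * x * h'⁻¹ ∈ Γ := hx
  show h * (γ * x * γ⁻¹) * h⁻¹ ∈ Γ
  have e : h * (γ * x * γ⁻¹) * h⁻¹ = (h * γ * h'⁻¹) * (h' * x * h'⁻¹) * (h * γ * h'⁻¹)⁻¹ := by group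
  rw [e]
  exact Subgroup.mul_mem _ (Subgroup.mul_mem _ hγ h1) (Subgroup.inv_mem _ hγ)

/-- From the alternative to the data `Dich2`. -/
theorem th3_dich {Γ HU : Subgroup G} {χ : HU → ℂ} (comm : ∀ g h : G, (cjG Γ g).relIndex (cjG Γ h) ≠ 0) {h h' γ : G} (hγ : h * γ * h'⁻¹ ∈ Γ)
    {w₀ w₀' : HU} (hw : γ * (w₀ : G) = (w₀' : G) * γ) (hχ : χ w₀' ≠ χ w₀) : Dich2 (cjG Γ h) (cjG Γ h') HU χ γ := by
  have hLa : ∀ w ∈ La2 (cjG Γ h) (cjG Γ h') HU γ, (w : G) ∈ cjG Γ h' := fun w hw => hw.1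
  refine ⟨w₀, w₀', hw, hχ, La2 (cjG Γ h) (cjG Γ h') HU γ ⊓ (cjG Γ (h' * (w₀ : G)⁻¹)).subgroupOf HU,
    La2 (cjG Γ h) (cjG Γ h') HU γ ⊓ (cjG Γ (h' * (w₀ : G))).subgroupOf HU, inf_le_left, inf_le_left,
    th3_idx comm h' _ _ hLa, th3_idx comm h' _ _ hLa, fun w => ?_⟩
  have e1 : γ * ((w₀ * w * w₀⁻¹ : HU) : G) * γ⁻¹ = (w₀' : G) * (γ * (w : G) * γ⁻¹) * (w₀' : G)⁻¹ := by
    have e2 : γ * (w₀ : G) * γ⁻¹ = (w₀' : G) := by rw [hw]; group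
    have e3 : (w₀' : G)⁻¹ = γ * (w₀ : G)⁻¹ * γ⁻¹ := by rw [← e2]; group
    rw [e3, ← e2]
    simp only [Subgroup.coe_mul, Subgroup.coe_inv]
    group
  have e4 : (w₀ : G)⁻¹ * ((w₀ * w * w₀⁻¹ : HU) : G) * (w₀ : G)⁻¹⁻¹ = (w : G) := by
    simp only [Subgroup.coe_mul, Subgroup.coe_inv]
    group
  have e5 : ((w₀ * w * w₀⁻¹ : HU) : G) = (w₀ : G) * (w : G) * (w₀ : G)⁻¹ := by
    simp only [Subgroup.coe_mul, Subgroup.coe_inv]
  constructor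
  · intro hm
    obtain ⟨⟨h1, h2⟩, h3⟩ := Subgroup.mem_inf.1 hm
    rw [Subgroup.mem_subgroupOf, cjG_mul] at h3
    refine Subgroup.mem_inf.2 ⟨⟨?_, ?_, ?_⟩, ?_⟩
    · rw [e5]
      exact h3
    · exact th3_conj hγ (by rw [e5]; exact h3)
    · rw [e1]
      exact Subgroup.mul_mem _ (Subgroup.mul_mem _ w₀'.2 h2.2) (Subgroup.inv_mem _ w₀'.2)
    · rw [Subgroup.mem_subgroupOf, cjG_mul, e4]
      exact h1
  · intro hm
    obtain ⟨⟨h1, h2⟩, h3⟩ := Subgroup.mem_inf.1 hm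
    rw [Subgroup.mem_subgroupOf, cjG_mul, e4] at h3
    refine Subgroup.mem_inf.2 ⟨⟨h3, ?_, ?_⟩, ?_⟩
    · exact th3_conj hγ h3
    · have h4 := h2.2
      rw [e1] at h4
      have h5 : γ * (w : G) * γ⁻¹ = (w₀' : G)⁻¹ * ((w₀' : G) * (γ * (w : G) * γ⁻¹) * (w₀' : G)⁻¹) * (w₀' : G) := by
        group
      rw [h5]
      exact Subgroup.mul_mem _ (Subgroup.mul_mem _ (Subgroup.inv_mem _ w₀'.2) h4) w₀'.2
    · rw [Subgroup.mem_subgroupOf, cjG_mul, ← e5]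
      exact h1

end grp

variable {ι M N : Type} [Fintype ι] [DecidableEq ι] [AddCommGroup M] [Module ℚ M] [AddCommGroup N] [Module ℚ N]
  {P : RootPairing ι ℚ M N} [P.IsCrystallographic] {b : P.Base} {L : Type} [Field L] [NumberField L] (H : Subgroup (GK b L))

theorem psT_mul' (θ : b.support → (EE L →ₗ[ℝ] ℝ)) (s t : UHR H) : psT H θ (s * t) = psT H θ s * psT H θ t := psT_mul H (m_psi_mul b θ) s t

/-- The alternative for `γ`: there is `v ∈ U ∩ H` with `v' = γ v γ⁻¹ ∈ U ∩ H` and `ψ(v') ≠ ψ(v)`. -/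
def AltT (θ : b.support → (EE L →ₗ[ℝ] ℝ)) (γ : H) : Prop :=
  ∃ v v' : HUH H, γ * (v : H) = (v' : H) * γ ∧ psT H θ (kUH H v') ≠ psT H θ (kUH H v)

/-- `γ` moves a point of `U x C` to a point of `U x C`. -/
def MvT (x : HRt H) (C : Set (HRt H)) (γ : HRt H) : Prop := ∃ u u' : UHR H, ∃ y ∈ C, ∃ y' ∈ C, γ * ((u : HRt H) * (x * y)) = (u' : HRt H) * (x * y')

/-! ## The compact set -/

theorem th3_cc {κ : Type} [Finite κ] {Γk : κ → Subgroup H} (h : ∀ i, CCH H (Γk i)) :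
    ∃ KT : Set (UHR H), IsCompact KT ∧ ∀ i t, ∃ δ : HUH H, (δ : H) ∈ Γk i ∧ ∃ s ∈ KT, t = kUH H δ * s := by
  choose KT hKT h1 using h
  refine ⟨⋃ i, KT i, isCompact_iUnion hKT, fun i t => ?_⟩
  obtain ⟨δ, h2, s, hs, e⟩ := h1 i t
  exact ⟨δ, h2, s, Set.mem_iUnion.2 ⟨i, hs⟩, e⟩

open scoped Pointwise in
theorem th3_meas {C : Set (HRt H)} (hC : IsCompact C) : MeasurableSet {z : HRt H | ∃ t : UHR H, ∃ y ∈ C, z = (t : HRt H) * y} := by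
  have e : {z : HRt H | ∃ t : UHR H, ∃ y ∈ C, z = (t : HRt H) * y} = (UHR H : Set (HRt H)) * C := by
    ext z
    constructor
    · rintro ⟨t, y, hy, rfl⟩
      exact Set.mul_mem_mul t.2 hy
    · rintro ⟨t, ht, y, hy, rfl⟩
      exact ⟨⟨t, ht⟩, y, hy, rfl⟩
  rw [e]
  exact ((UHR_closed H).mul_right_of_isCompact hC).measurableSet

theorem th3_fq {κ : Type} [Finite κ] {Γk : κ → Subgroup H} (hd : ∀ i, Dsc H (Γk i)) (hcc : ∀ i, CCH H (Γk i)) (μ : Measure (HRt H)) [μ.IsHaarMeasure] {C : Set (HRt H)} (hC : IsCompact C) :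
    ∃ Q : Set (HRt H), IsCompact Q ∧ ∀ i, FQ μ (Γk i) (HUH H) {z : HRt H | ∃ t : UHR H, ∃ y ∈ C, z = (t : HRt H) * y} Q := by
  obtain ⟨KT, hKT, h⟩ := th3_cc H hcc
  have hcQ : IsCompact ((fun p : UHR H × HRt H => (p.1 : HRt H) * p.2) '' (KT ×ˢ C)) :=
    (hKT.prod hC).image ((continuous_subtype_val.comp continuous_fst).mul continuous_snd)
  refine ⟨_, hcQ, fun i => ⟨?_, (hd i).fin hcQ, hcQ.measurableSet, hcQ.measure_lt_top.ne⟩⟩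
  rintro z ⟨t, y, hy, rfl⟩
  obtain ⟨δ, hδ, s, hs, hts⟩ := h i t
  refine ⟨(δ : H)⁻¹, inv_mem (Subgroup.mem_inf.2 ⟨hδ, δ.2⟩), ⟨(s, y), ⟨hs, hy⟩, ?_⟩⟩
  show (s : HRt H) * y = embH H (δ : H)⁻¹ * ((t : HRt H) * y)
  have e : (t : HRt H) = embH H (δ : H) * (s : HRt H) := by rw [hts]; rfl
  rw [e, map_inv, mul_assoc, inv_mul_cancel_left]

/-- The bound `P`. -/
theorem th3_P {ν : Measure (UHR H)} [ν.IsHaarMeasure] (hr : ∀ s : UHR H, MeasurePreserving (fun t : UHR H => t * s) ν ν) (hi : MeasurePreserving (fun t : UHR H => t⁻¹) ν ν)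
    {C : Set (HRt H)} {x : HRt H} (z : HRt H) :
    ν {s : UHR H | ∃ y ∈ C, (s : HRt H)⁻¹ * z = x * y} ≤ ν {u : UHR H | ∃ y ∈ C, ∃ y' ∈ C, (u : HRt H) = x * y * (x * y')⁻¹} := by
  rcases Set.eq_empty_or_nonempty {s : UHR H | ∃ y ∈ C, (s : HRt H)⁻¹ * z = x * y} with he | ⟨s₀, y₀, hy₀, h0⟩
  · rw [he, measure_empty]
    exact bot_le
  have hmp : MeasurePreserving (fun s : UHR H => s⁻¹ * s₀) ν ν := (hr s₀).comp hi
  have hsub : {s : UHR H | ∃ y ∈ C, (s : HRt H)⁻¹ * z = x * y} ⊆ (fun s : UHR H => s⁻¹ * s₀) ⁻¹'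
      {u : UHR H | ∃ y ∈ C, ∃ y' ∈ C, (u : HRt H) = x * y * (x * y')⁻¹} := by
    rintro s ⟨y, hy, h1⟩
    refine ⟨y, hy, y₀, hy₀, ?_⟩
    show (s : HRt H)⁻¹ * (s₀ : HRt H) = x * y * (x * y₀)⁻¹
    rw [← h1, ← h0]
    group
  calc ν {s : UHR H | ∃ y ∈ C, (s : HRt H)⁻¹ * z = x * y} ≤ ν ((fun s : UHR H => s⁻¹ * s₀) ⁻¹'
      {u : UHR H | ∃ y ∈ C, ∃ y' ∈ C, (u : HRt H) = x * y * (x * y')⁻¹}) := measure_mono hsub
    _ ≤ (ν.map (fun s : UHR H => s⁻¹ * s₀)) {u : UHR H | ∃ y ∈ C, ∃ y' ∈ C, (u : HRt H) = x * y * (x * y')⁻¹} :=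
        Measure.le_map_apply hmp.measurable.aemeasurable _
    _ = _ := by rw [hmp.map_eq]

/-! ## The groups and the Hecke operator -/

theorem imH_mem {Γ : Subgroup H} (γ : H) : embH H γ ∈ imH H Γ ↔ γ ∈ Γ := by
  constructor
  · rintro ⟨γ₁, h1, h2⟩
    rw [← embH_inj H h2]
    exact h1
  · intro h
    exact ⟨γ, h, rfl⟩

/-- `h⁻¹ Γ h ∩ U` in the two forms. -/
theorem imUh_eq (Γ : Subgroup H) (h : H) : imUh H Γ h = imU H (cjG Γ h) := by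
  ext w
  rw [th2_mem_imU]
  constructor
  · intro hw
    have h1 : embH H h * w.1 * (embH H h)⁻¹ ∈ imH H Γ := hw
    obtain ⟨γ, hγ, e⟩ := h1
    have e1 : embH H (h⁻¹ * γ * h) = w.1 := by
      rw [map_mul, map_mul, e, map_inv]
      group
    refine ⟨⟨h⁻¹ * γ * h, ?_⟩, ?_, Subtype.ext e1⟩
    · show embH H (h⁻¹ * γ * h) ∈ UHR H
      rw [e1]
      exact w.2
    · show h * (h⁻¹ * γ * h) * h⁻¹ ∈ Γ
      have e2 : h * (h⁻¹ * γ * h) * h⁻¹ = γ := by group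
      rw [e2]
      exact hγ
  · rintro ⟨w', hw', rfl⟩
    have h1 : h * (w' : H) * h⁻¹ ∈ Γ := hw'
    show embH H h * embH H w'.1 * (embH H h)⁻¹ ∈ imH H Γ
    rw [← map_mul, ← map_inv, ← map_mul]
    exact ⟨_, h1, rfl⟩

/-- **The Hecke operator** in the form of module A. -/
theorem th3_hecke {Γ : Subgroup H} {h : H} (hle : cjG Γ h ⊓ HUH H ≤ Γ) {F : HRt H → ℂ} (iF : ∀ γ ∈ imH H Γ, ∀ x, F (γ * x) = F x) {t : ℂ} (hU : IsUT H Γ h F t) :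
    ((cjG Γ h).subgroupOf (HUH H)).relIndex (Γ.subgroupOf (HUH H)) ≠ 0 ∧
    ∀ y, cs ((cjG Γ h).subgroupOf (HUH H)) ((Γ.subgroupOf (HUH H) : Subgroup (HUH H)) : Set (HUH H)) (fun c : HUH H => F (h • ((c : H) • y))) = t * F y := by
  classical
  obtain ⟨S, hS1, hS2, hS3⟩ := hU
  have hinj : Function.Injective fun w' : HUH H => embH H w'.1 := by
    intro x y hxy
    exact Subtype.ext (embH_inj H hxy)
  have key : ∀ u' w' : HUH H, embH H h * (embH H u'.1 * (embH H w'.1)⁻¹) * (embH H h)⁻¹ ∈ imH H Γ ↔ u' * w'⁻¹ ∈ (cjG Γ h).subgroupOf (HUH H) := by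
    intro u' w'
    rw [← map_inv, ← map_inv, ← map_mul, ← map_mul, ← map_mul, imH_mem, Subgroup.mem_subgroupOf]
    exact Iff.rfl
  let S' : Finset (HUH H) := S.preimage (fun w' : HUH H => embH H w'.1) hinj.injOn
  have mS' : ∀ w' : HUH H, w' ∈ S' ↔ embH H w'.1 ∈ S := fun w' => Finset.mem_preimage
  have h1 : ∀ w ∈ S', w ∈ Γ.subgroupOf (HUH H) := by
    intro w hw
    rw [Subgroup.mem_subgroupOf, ← imH_mem]
    exact (hS1 _ ((mS' w).1 hw)).1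
  have h2 : ∀ u ∈ Γ.subgroupOf (HUH H), ∃! w, w ∈ S' ∧ u * w⁻¹ ∈ (cjG Γ h).subgroupOf (HUH H) := by
    intro u hu
    obtain ⟨w, ⟨hw1, hw2⟩, hw3⟩ := hS2 (embH H u.1) ⟨(imH_mem H _).2 (Subgroup.mem_subgroupOf.1 hu), u.2⟩
    obtain ⟨⟨γ, hγ, e⟩, hwU⟩ := hS1 w hw1
    have hγU : γ ∈ HUH H := by
      show embH H γ ∈ UHR H
      rw [e]
      exact hwU
    refine ⟨⟨γ, hγU⟩, ⟨(mS' _).2 ?_, (key _ _).1 ?_⟩, ?_⟩
    · show embH H γ ∈ S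
      rw [e]
      exact hw1
    · show embH H h * (embH H u.1 * (embH H γ)⁻¹) * (embH H h)⁻¹ ∈ imH H Γ
      rw [e]
      exact hw2
    · rintro w' ⟨h3, h4⟩
      have h5 := hw3 (embH H w'.1) ⟨(mS' w').1 h3, (key u w').2 h4⟩
      apply hinj
      show embH H w'.1 = embH H γ
      rw [h5, e]
  have h0 : (cjG Γ h).subgroupOf (HUH H) ≤ Γ.subgroupOf (HUH H) := by
    intro x hx
    exact Subgroup.mem_subgroupOf.2 (hle ⟨Subgroup.mem_subgroupOf.1 hx, x.2⟩)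
  refine ⟨?_, fun y => ?_⟩
  · rw [card_fin h0 h1 h2]
    obtain ⟨w, ⟨hw, -⟩, -⟩ := h2 1 (one_mem _)
    exact (Finset.card_pos.2 ⟨w, hw⟩).ne'
  · have hb : ∀ u ∈ (cjG Γ h).subgroupOf (HUH H), ∀ g : HUH H,
        F (h • (((u * g : HUH H) : H) • y)) = F (h • ((g : H) • y)) := by
      intro u hu g
      have h3 : h * u.1 * h⁻¹ ∈ Γ := Subgroup.mem_subgroupOf.1 hu
      have h4 : (h • (((u * g : HUH H) : H) • y) : HRt H) = embH H (h * u.1 * h⁻¹) * (h • ((g : H) • y)) := by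
        simp only [smulH_def, Subgroup.coe_mul, map_mul, map_inv]
        group
      rw [h4]
      exact iF _ ((imH_mem H _).2 h3) _
    rw [cs_fin h0 h1 h2 hb, ← hS3 y]
    refine Finset.sum_nbij (fun w' : HUH H => embH H w'.1) (fun w' hw' => (mS' w').1 hw') (fun x _ z _ hxz => hinj hxz) ?_ ?_
    · intro w hw
      obtain ⟨⟨γ, hγ, e⟩, hwU⟩ := hS1 w hw
      have hγU : γ ∈ HUH H := by
        show embH H γ ∈ UHR H
        rw [e]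
        exact hwU
      refine ⟨⟨γ, hγU⟩, (mS' _).2 ?_, e⟩
      show embH H γ ∈ S
      rw [e]
      exact hw
    · intro w' _
      show F (embH H h * (embH H w'.1 * y)) = F (embH H h * embH H w'.1 * y)
      rw [mul_assoc]

end

end Pool.Agent.Lib.L1S
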