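import Pool.Agent.Lib.L1S.QApi
import Pool.Agent.Lib.L1S.QM1
import Pool.Agent.Lib.L1S.TH3
import Pool.Agent.Lib.L1S.Main2

/-!
# Assembly of version V1 (quasi-split groups)
-/

namespace Pool.Agent.Lib.L1S

open MeasureTheory Matrix NumberField IsDedekindDomain Pool.Agent.Lib.H89N Pool.Agent.Lib.H33W Pool.Agent.Lib.H67G
open scoped ENNReal

noncomputable section

set_option linter.unusedSectionVars false

variable {ι M N : Type} [Fintype ι] [DecidableEq ι] [AddCommGroup M] [Module ℚ M] [AddCommGroup N] [Module ℚ N]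
  {P : RootPairing ι ℚ M N} [P.IsCrystallographic] {b : P.Base}

section

variable {L : Type} [Field L] [NumberField L] (H : Subgroup (GK b L)) {Γ : Subgroup H}

theorem qm_cjG_congr {h h1 : H} (e : h * h1⁻¹ ∈ Γ) : cjG Γ h = cjG Γ h1 := by
  ext g
  have h2 : ∀ x : H, (h * h1⁻¹) * x * (h * h1⁻¹)⁻¹ ∈ Γ ↔ x ∈ Γ := fun x => by
    rw [Subgroup.mul_mem_cancel_right _ (Subgroup.inv_mem _ e), Subgroup.mul_mem_cancel_left _ e]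
  rw [cjG_mem, cjG_mem, ← h2 (h1 * g * h1⁻¹)]
  have e1 : h * h1⁻¹ * (h1 * g * h1⁻¹) * (h * h1⁻¹)⁻¹ = h * g * h⁻¹ := by group
  rw [e1]

theorem qm_f_congr {h h1 : H} (e : h * h1⁻¹ ∈ Γ) {F : HRt H → ℂ} (iF : ∀ γ ∈ imH H Γ, ∀ x, F (γ * x) = F x) (y : HRt H) : F (embH H h * y) = F (embH H h1 * y) := by
  have h2 : embH H h * y = embH H (h * h1⁻¹) * (embH H h1 * y) := by
    rw [map_mul, map_inv]
    group
  rw [h2]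
  exact iF _ ⟨_, e, rfl⟩ _

theorem qm_inT_congr {h h1 : H} (e : h * h1⁻¹ ∈ Γ) (w : HRt H) : InTT H Γ h w ↔ InTT H Γ h1 w := by
  have key : ∀ h h1 : H, h * h1⁻¹ ∈ Γ → InTT H Γ h w → InTT H Γ h1 w := by
    rintro h h1 e ⟨γ, hγ, γ', hγ', rfl⟩
    refine ⟨γ * embH H (h * h1⁻¹), Subgroup.mul_mem _ hγ ⟨_, e, rfl⟩, γ', hγ', ?_⟩
    rw [map_mul, map_inv]
    group
  refine ⟨key h h1 e, key h1 h ?_⟩
  have e1 : h1 * h⁻¹ = (h * h1⁻¹)⁻¹ := by group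
  rw [e1]
  exact Subgroup.inv_mem _ e

theorem qm_isT_congr {h h1 : H} (e : h * h1⁻¹ ∈ Γ) {F : HRt H → ℂ} {t : ℂ} (hT : IsTT H Γ h F t) : IsTT H Γ h1 F t := by
  obtain ⟨S, h1', h2, h3⟩ := hT
  exact ⟨S, fun w hw => (qm_inT_congr H e w).1 (h1' w hw), fun w hw => h2 w ((qm_inT_congr H e w).2 hw), h3⟩

end

section

variable [P.IsRootSystem] [P.IsReduced] [P.IsIrreducible] {K L : Type} [Field K] [NumberField K] [Field L] [NumberField L] [Algebra K L] [IsGalois K L]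

/-- **The density theorem for all quasi-split groups.** -/
theorem statementQ (Q : QS b K L) : StatementQ Q := by
  classical
  refine ⟨fun v 𝔫 hv r s c hc π hπ => qa_exists Q hv r s hc hπ, ?_⟩
  intro μ _ φ cφ sφ Ω hΩ
  have ci : Countable (HQ Q) := th_count (HQ Q)
  have cjj : Continuous ((UHR (HQ Q)).subtype : UHR (HQ Q) →* HRt (HQ Q)) := continuous_subtype_val
  have hOm := om2_compact b hΩ (cg_compact (HQ Q) sφ.isCompact)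
  obtain ⟨CV, hCV0, hCV⟩ := qa_vol Q hOm
  obtain ⟨m₀, hm₀⟩ := qa_star2 Q hOm
  obtain ⟨CI, hCI0, hCI⟩ := qa_idx Q
  have hΦ : ∫⁻ y, ‖φ y‖ₑ ^ 2 ∂μ ≠ ⊤ := by
    have h2 : MemLp φ 2 μ := cφ.memLp_of_hasCompactSupport sφ
    have h3 := h2.eLpNorm_lt_top
    rw [eLpNorm_lt_top_iff_lintegral_rpow_enorm_lt_top (by norm_num) (by norm_num)] at h3
    simpa using h3.ne
  refine ⟨((6 ^ m₀ : ℕ) ^ Module.finrank ℚ L : ℝ) ^ (Fintype.card (I b) ^ 2) * CV * CI * (∫⁻ y, ‖φ y‖ₑ ^ 2 ∂μ).toReal, ?_⟩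
  intro v 𝔫 h0 hv r s n c hinj hcQ hc hsz π hπ h hh θ hθ A hAQ hA x hx ν _ D hD m F hF hort a
  have hX0 : 0 ≤ ∏ β ∈ Pos b, Real.exp (Module.finrank ℚ K * A (P.root β)) / (Ideal.absNorm 𝔫 : ℝ) :=
    Finset.prod_nonneg fun β _ => div_nonneg (Real.exp_pos _).le (Nat.cast_nonneg _)
  have hq1 : (0 : ℝ) < Ideal.absNorm v.asIdeal := Nat.cast_pos.2 (Nat.pos_of_ne_zero (by
    rw [Ne, Ideal.absNorm_eq_zero_iff]
    exact v.ne_bot))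
  have hq0 : ∀ k, (0 : ℝ) < (Ideal.absNorm v.asIdeal : ℝ) ^ (∑ β ∈ Pos b, pr b (c k) (Sum.inr β)) := fun k => zpow_pos hq1 _
  -- the auxiliary level
  obtain ⟨m₁, hm1, hm2, hm3, hm4⟩ := aux_level m₀ v
  have h1 : Ideal.span {(m₁ : 𝓞 K)} * 𝔫 ≠ ⊥ := by
    rw [Ne, Ideal.mul_eq_bot, not_or, Ideal.span_singleton_eq_bot]
    exact ⟨Nat.cast_ne_zero.2 hm2, h0⟩
  have h1v : ¬Ideal.span {(m₁ : 𝓞 K)} * 𝔫 ≤ v.asIdeal := (de_m h0 hv hm3).2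
  -- replacement of the Hecke elements
  have hrep : ∀ k, ∃ h1 : HQ Q, h1.1 ∈ HGL b L (Ideal.span {(m₁ : 𝓞 K)} * 𝔫) v ∧ AtVL b v r s π (c k) h1.1 := fun k => by
    obtain ⟨h2, h3, h4, h5⟩ := qa_exists Q h1v r s (hcQ k) hπ
    exact ⟨⟨h2, h3⟩, h4, h5⟩
  choose g hg1 hg2 using hrep
  have hg4 : ∀ k, (g k).1 ∈ HGL b L 𝔫 v := fun k => by
    obtain ⟨j, hj⟩ := hg1 k
    have hle : up L (Ideal.span {(m₁ : 𝓞 K)} * 𝔫) ≤ up L 𝔫 := up_mono L Ideal.mul_le_right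
    have key : ∀ y : L, DenL (Ideal.span {(m₁ : 𝓞 K)} * 𝔫) v j y → DenL 𝔫 v j y := fun y hy a ha => by
      obtain ⟨z, hz, e⟩ := hy a ha
      exact ⟨z, hle hz, e⟩
    exact ⟨j, fun i i' => ⟨key _ (hj i i').1, key _ (hj i i').2⟩⟩
  have hg3 : ∀ k, h k * (g k)⁻¹ ∈ GamQ (HQ Q) 𝔫 v r s := fun k => qa_quot Q h0 hv hπ (hh k).1 (hh k).2 (hg4 k) (hg2 k)
  have hL : ∀ k, LvL b 𝔫 v r s (c k) π (g k).1 := fun k => ⟨h0, hv, hc k, hπ, hg4 k, hg2 k⟩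
  have hL1 : ∀ k, LvL b (Ideal.span {(m₁ : 𝓞 K)} * 𝔫) v r s (c k) π (g k).1 := fun k => ⟨h1, h1v, hc k, hπ, hg1 k, hg2 k⟩
  -- fundamental domains
  have hdΓ : Dsc (HQ Q) (GamQ (HQ Q) 𝔫 v r s) := dsc_Gam (HQ Q) 𝔫 v r s
  obtain ⟨F₁, hF₁⟩ := hdΓ.sf
  obtain ⟨D₁, hD₁⟩ := hdΓ.sfU
  -- cocompactness
  have hle : ∀ k, cjG (GamQ (HQ Q) 𝔫 v r s) (g k) ⊓ HUH (HQ Q) ≤ GamQ (HQ Q) 𝔫 v r s := fun k => qa_le Q (hcQ k) (hL k)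
  have hle' : ∀ k, (cjG (GamQ (HQ Q) 𝔫 v r s) (g k)).subgroupOf (HUH (HQ Q)) ≤ (GamQ (HQ Q) 𝔫 v r s).subgroupOf (HUH (HQ Q)) := fun k w hw => hle k ⟨hw, w.2⟩
  have hccΓ : ∀ k, CCH (HQ Q) (cjG (GamQ (HQ Q) 𝔫 v r s) (g k)) := fun k => qa_cc Q h0 v r s (g k)
  have hcc0 : CCH (HQ Q) (GamQ (HQ Q) 𝔫 v r s) := by
    have h2 : CCH (HQ Q) (cjG (GamQ (HQ Q) 𝔫 v r s) 1) := qa_cc Q h0 v r s 1
    rw [cjG_one] at h2
    exact h2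
  have hcc1 : ∀ k, CCH (HQ Q) (cjG (GamQ (HQ Q) (Ideal.span {(m₁ : 𝓞 K)} * 𝔫) v r s) (g k)) := fun k => qa_cc Q h1 v r s (g k)
  have pD : ν D₁ ≠ 0 := th2_pos (HQ Q) hD₁ ν
  have fD : ν D₁ ≠ ⊤ := th2_fin (HQ Q) hcc0 hD₁ ν
  have hG := th2_gd (HQ Q) hcc0 hD₁ μ ν θ (psT_mul' (HQ Q) θ)
  have hpT : ∀ g : HUH (HQ Q), MeasurePreserving (fun t : UHR (HQ Q) => g • t) ν ν := th2_hp (HQ Q) ν
  have hmT : ∀ g : HUH (HQ Q), Measurable fun t : UHR (HQ Q) => g • t := fun g => (hpT g).measurable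
  choose D₂ hD₂ using fun k => an_sf hmT (hle' k) hD₁
  have hidxR := fun k => hCI 𝔫 v r s (c k) π (g k) (hcQ k) (hL k)
  have hidx : ∀ k, ((cjG (GamQ (HQ Q) 𝔫 v r s) (g k)).subgroupOf (HUH (HQ Q))).relIndex ((GamQ (HQ Q) 𝔫 v r s).subgroupOf (HUH (HQ Q))) ≠ 0 := by
    intro k h2
    have h3 := (hidxR k).1
    have h4 : (((GhQ (HQ Q) 𝔫 v r s (g k)).subgroupOf (HUH (HQ Q))).relIndex ((GamQ (HQ Q) 𝔫 v r s).subgroupOf (HUH (HQ Q))) : ℝ) = 0 := by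
      exact_mod_cast h2
    rw [h4, mul_zero] at h3
    exact absurd h3 (not_le.2 (hq0 k))
  have hvol : ∀ k, ν (D₂ k) = ((((cjG (GamQ (HQ Q) 𝔫 v r s) (g k)).subgroupOf (HUH (HQ Q))).relIndex ((GamQ (HQ Q) 𝔫 v r s).subgroupOf (HUH (HQ Q))) : ℕ) : ℝ≥0∞) * ν D₁ := by
    intro k
    rw [u2_vol hpT (hle' k) hD₁ (hD₂ k), an_u2k (hidx k)]
  have pD2 : ∀ k, ν (D₂ k) ≠ 0 := fun k => th2_pos (HQ Q) (hD₂ k) ν
  have fD2 : ∀ k, ν (D₂ k) ≠ ⊤ := by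
    intro k
    rw [hvol k]
    exact ENNReal.mul_ne_top (ENNReal.natCast_ne_top _) fD
  -- the character
  have hone : ∀ w : HUH (HQ Q), (w : HQ Q) ∈ GamQ (HQ Q) 𝔫 v r s → psT (HQ Q) θ (kUH (HQ Q) w) = 1 := fun w hw =>
    hθ.2 _ ((th2_mem_imU (HQ Q) (GamQ (HQ Q) 𝔫 v r s) _).2 ⟨w, hw, rfl⟩)
  have hone' : ∀ w : HUH (HQ Q), (w : HQ Q) ∈ GamQ (HQ Q) 𝔫 v r s → ∀ u, psT (HQ Q) θ (kUH (HQ Q) w * u) = psT (HQ Q) θ u := fun w hw u => by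
    rw [psT_mul', hone w hw, one_mul]
  -- the auxiliary group
  have hm5 : GamQ (HQ Q) (Ideal.span {(m₁ : 𝓞 K)} * 𝔫) v r s ≤ GamQ (HQ Q) 𝔫 v r s := by
    have hle : up L (Ideal.span {(m₁ : 𝓞 K)} * 𝔫) ≤ up L 𝔫 := up_mono L Ideal.mul_le_right
    have key : ∀ y : L, InI (up L (Ideal.span {(m₁ : 𝓞 K)} * 𝔫)) y → InI (up L 𝔫) y := fun y ⟨z, hz, e⟩ => ⟨z, hle hz, e⟩
    intro γ hγ
    have h2 : γ.1 ∈ GamL b L (Ideal.span {(m₁ : 𝓞 K)} * 𝔫) v r s := hγ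
    show γ.1 ∈ GamL b L 𝔫 v r s
    intro i j
    obtain ⟨⟨a1, a2⟩, a3, a4⟩ := h2 i j
    exact ⟨⟨key _ a1, a2⟩, key _ a3, a4⟩
  have hC : IsCompact ((fun y => x * y) '' tsupport φ) := sφ.isCompact.image (continuous_const.mul continuous_id)
  obtain ⟨Q', hQ', hfq⟩ := th3_fq (HQ Q) (fun k => dsc_conj (HQ Q) (dsc_Gam (HQ Q) (Ideal.span {(m₁ : 𝓞 K)} * 𝔫) v r s) (g k)) hcc1 μ hC
  have hA0 : ∀ i : b.support, 0 ≤ A (P.root i) := by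
    intro i
    have h2 : 0 ≤ Real.log (Ideal.absNorm 𝔫) := Real.log_natCast_nonneg _
    have h3 : (0 : ℝ) < Module.finrank ℚ K := Nat.cast_pos.2 Module.finrank_pos
    exact nonneg_of_mul_nonneg_right (h2.trans (hA i)) h3
  have hAS : {z | φ (x⁻¹ * z) ≠ 0} ⊆ {z : HRt (HQ Q) | ∃ t : UHR (HQ Q), ∃ y ∈ (fun y => x * y) '' tsupport φ, z = (t : HRt (HQ Q)) * y} := fun z hz =>
    ⟨1, z, ⟨x⁻¹ * z, subset_tsupport _ hz, mul_inv_cancel_left _ _⟩, by simp⟩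
  have hPP : ∀ z : HRt (HQ Q), ν {w : UHR (HQ Q) | (UHR (HQ Q)).subtype w⁻¹ * z ∈ {z | φ (x⁻¹ * z) ≠ 0}} ≤
      ν {u : UHR (HQ Q) | ∃ κ ∈ Om2 b Ω (CG (HQ Q) (tsupport φ)), u.1.1.1.1 = dg b L A * κ.1 * dg b L (-A)} := by
    intro z
    have h2 : {w : UHR (HQ Q) | (UHR (HQ Q)).subtype w⁻¹ * z ∈ {z | φ (x⁻¹ * z) ≠ 0}} ⊆ {s : UHR (HQ Q) | ∃ y ∈ tsupport φ, s.1⁻¹ * z = x * y} := fun w hw =>
      ⟨x⁻¹ * ((UHR (HQ Q)).subtype w⁻¹ * z), subset_tsupport _ hw, by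
        rw [mul_inv_cancel_left]
        rfl⟩
    exact (measure_mono h2).trans (qm_P (HQ Q) (fun s => hG.rT s) hG.iT hx z)
  have hSS : ∀ (t : UHR (HQ Q)) (z : HRt (HQ Q)), (UHR (HQ Q)).subtype t * z ∈ {z : HRt (HQ Q) | ∃ t : UHR (HQ Q), ∃ y ∈ (fun y => x * y) '' tsupport φ, z = (t : HRt (HQ Q)) * y} ↔
      z ∈ {z : HRt (HQ Q) | ∃ t : UHR (HQ Q), ∃ y ∈ (fun y => x * y) '' tsupport φ, z = (t : HRt (HQ Q)) * y} := fun t z =>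
    ⟨fun ⟨t', y, hy, e⟩ => ⟨t⁻¹ * t', y, hy, by
        show z = t.1⁻¹ * t'.1 * y
        rw [mul_assoc, ← e]
        show z = t.1⁻¹ * (t.1 * z)
        rw [inv_mul_cancel_left]⟩, fun ⟨t', y, hy, e⟩ => ⟨t * t', y, hy, by
        show t.1 * z = t.1 * t'.1 * y
        rw [e, mul_assoc]⟩⟩
  have hcomm : ∀ h h' : HQ Q, (cjG (GamQ (HQ Q) (Ideal.span {(m₁ : 𝓞 K)} * 𝔫) v r s) h).relIndex (cjG (GamQ (HQ Q) (Ideal.span {(m₁ : 𝓞 K)} * 𝔫) v r s) h') ≠ 0 := fun h h' =>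
    qa_comm Q h1 v v r s r s h h'
  have hdich : ∀ k k' γ, g k * γ * (g k')⁻¹ ∈ GamQ (HQ Q) (Ideal.span {(m₁ : 𝓞 K)} * 𝔫) v r s → (∃ y ∈ {z : HRt (HQ Q) | ∃ t : UHR (HQ Q), ∃ y ∈ (fun y => x * y) '' tsupport φ, z = (t : HRt (HQ Q)) * y},
      γ • y ∈ {z : HRt (HQ Q) | ∃ t : UHR (HQ Q), ∃ y ∈ (fun y => x * y) '' tsupport φ, z = (t : HRt (HQ Q)) * y}) → (k = k' ∧ γ ∈ HUH (HQ Q)) ∨
      Dich2 (cjG (GamQ (HQ Q) (Ideal.span {(m₁ : 𝓞 K)} * 𝔫) v r s) (g k)) (cjG (GamQ (HQ Q) (Ideal.span {(m₁ : 𝓞 K)} * 𝔫) v r s) (g k')) (HUH (HQ Q)) (fun w => psT (HQ Q) θ (kUH (HQ Q) w)) γ := by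
    rintro k k' γ hγ ⟨y, hy, hy'⟩
    obtain ⟨t1, _, ⟨y1, hy1, rfl⟩, e1⟩ := hy
    obtain ⟨t2, _, ⟨y2, hy2, rfl⟩, e2⟩ := hy'
    have h2 : Mv b (Om2 b Ω (CG (HQ Q) (tsupport φ))) A (embH (HQ Q) γ).1 := by
      refine qm_mv (HQ Q) hx hy1 hy2 (t := t1) (t' := t2) ?_
      rw [← e1]
      exact e2
    rcases hm₀ m₁ hm1 v hm3 𝔫 r s (c k') (c k) π (g k') (g k) (hcQ k') (hcQ k) (hL1 k') (hL1 k) (hsz k' k) A hAQ hA θ hθ.1 γ hγ h2 with h3 | h3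
    · exact Or.inl ⟨hinj h3.2.symm, h3.1⟩
    · obtain ⟨w₀, w₀', hw, hχ⟩ := h3
      exact Or.inr (th3_dich hcomm hγ hw hχ)
  have hAF : ∀ l, AF μ (GamQ (HQ Q) 𝔫 v r s) F₁ φ (F l) := fun l =>
    th2_af (HQ Q) hF₁ hD ⟨(hF l).cont, (hF l).inv, (hF l).l2, (hF l).eig⟩
  have hort' : ∀ l k, ∫ x in F₁, star (F l x) * F k x ∂μ = if l = k then 1 else 0 := fun l k => by
    rw [← hort l k]
    exact (th2_intG (HQ Q) μ hF₁ hD (f := fun y => star (F l y) * F k y) fun γ hγ y => by rw [(hF l).inv γ hγ, (hF k).inv γ hγ]).symm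
  have hc0 : (GamQ (HQ Q) (Ideal.span {(m₁ : 𝓞 K)} * 𝔫) v r s).relIndex (GamQ (HQ Q) 𝔫 v r s) ≠ 0 := by
    have h2 : (cjG (GamQ (HQ Q) (Ideal.span {(m₁ : 𝓞 K)} * 𝔫) v r s) 1).relIndex (cjG (GamQ (HQ Q) 𝔫 v r s) 1) ≠ 0 := qa_comm Q h1 (𝔪 := 𝔫) v v r s r s 1 1
    rw [cjG_one, cjG_one] at h2
    exact h2
  -- the numbers
  have hV := hCV ν 𝔫 h0 v r s D₁ hD₁ A hAQ hA0
  have hX1 : 0 ≤ CV * ∏ β ∈ Pos b, Real.exp (Module.finrank ℚ K * A (P.root β)) / (Ideal.absNorm 𝔫 : ℝ) := mul_nonneg hCV0 hX0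
  have i1 : (((GamQ (HQ Q) (Ideal.span {(m₁ : 𝓞 K)} * 𝔫) v r s).relIndex (GamQ (HQ Q) 𝔫 v r s) : ℕ) : ℝ≥0∞) ≤ ENNReal.ofReal (((6 ^ m₀ : ℕ) ^ Module.finrank ℚ L : ℝ) ^ (Fintype.card (I b) ^ 2)) := by
    rw [← ENNReal.ofReal_natCast]
    refine ENNReal.ofReal_le_ofReal ?_
    have h2 : (cjG (GamQ (HQ Q) (Ideal.span {(m₁ : 𝓞 K)} * 𝔫) v r s) 1).relIndex (cjG (GamQ (HQ Q) 𝔫 v r s) 1) ≤ (m₁ ^ Module.finrank ℚ L) ^ (Fintype.card (I b) ^ 2) :=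
      qa_m Q h0 v r s m₁ hm2 1
    rw [cjG_one, cjG_one] at h2
    have h3 : (m₁ ^ Module.finrank ℚ L) ^ (Fintype.card (I b) ^ 2) ≤ ((6 ^ m₀) ^ Module.finrank ℚ L) ^ (Fintype.card (I b) ^ 2) :=
      Nat.pow_le_pow_left (Nat.pow_le_pow_left hm4 _) _
    exact_mod_cast h2.trans h3
  have i2 : ∀ k, ((((cjG (GamQ (HQ Q) 𝔫 v r s) (g k)).subgroupOf (HUH (HQ Q))).relIndex ((GamQ (HQ Q) 𝔫 v r s).subgroupOf (HUH (HQ Q))) : ℕ) : ℝ≥0∞) ≤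
      ENNReal.ofReal (CI * (Ideal.absNorm v.asIdeal : ℝ) ^ (∑ β ∈ Pos b, pr b (c k) (Sum.inr β))) := by
    intro k
    rw [← ENNReal.ofReal_natCast]
    exact ENNReal.ofReal_le_ofReal (hidxR k).2
  have i2' : ∀ k, ((((cjG (GamQ (HQ Q) 𝔫 v r s) (g k)).subgroupOf (HUH (HQ Q))).relIndex ((GamQ (HQ Q) 𝔫 v r s).subgroupOf (HUH (HQ Q))) : ℕ) : ℝ≥0∞)⁻¹ ≤
      ENNReal.ofReal (CI * (Ideal.absNorm v.asIdeal : ℝ) ^ (-∑ β ∈ Pos b, pr b (c k) (Sum.inr β))) := by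
    intro k
    have h2 : (Ideal.absNorm v.asIdeal : ℝ) ^ (∑ β ∈ Pos b, pr b (c k) (Sum.inr β)) ≤
      CI * ((((cjG (GamQ (HQ Q) 𝔫 v r s) (g k)).subgroupOf (HUH (HQ Q))).relIndex ((GamQ (HQ Q) 𝔫 v r s).subgroupOf (HUH (HQ Q))) : ℕ) : ℝ) := (hidxR k).1
    have h3 : (0 : ℝ) < ((((cjG (GamQ (HQ Q) 𝔫 v r s) (g k)).subgroupOf (HUH (HQ Q))).relIndex ((GamQ (HQ Q) 𝔫 v r s).subgroupOf (HUH (HQ Q))) : ℕ) : ℝ) :=
      Nat.cast_pos.2 (Nat.pos_of_ne_zero (hidx k))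
    rw [← ENNReal.ofReal_natCast, ← ENNReal.ofReal_inv_of_pos h3]
    refine ENNReal.ofReal_le_ofReal ?_
    rw [_root_.zpow_neg, ← div_eq_mul_inv, inv_le_comm₀ h3 (div_pos hCI0 (hq0 k)), inv_div, div_le_iff₀ hCI0, mul_comm]
    exact h2
  have i3 : ∫⁻ y, ‖φ y‖ₑ ^ 2 ∂μ = ENNReal.ofReal (∫⁻ y, ‖φ y‖ₑ ^ 2 ∂μ).toReal := (ENNReal.ofReal_toReal hΦ).symm
  have i4 : ∀ k, ‖a k‖ₑ ^ 2 = ENNReal.ofReal (‖a k‖ ^ 2) := fun k => by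
    rw [ENNReal.ofReal_pow (norm_nonneg _), ofReal_norm]
  refine ⟨fun D' hD' => ?_, fun hrs t hT D' hD' => ?_⟩
  · -- form A
    have key := l1_absA2 hG cjj (Γ := GamQ (HQ Q) 𝔫 v r s) (Γ₁ := GamQ (HQ Q) (Ideal.span {(m₁ : 𝓞 K)} * 𝔫) v r s) (hk := g) (Γ' := fun k => cjG (GamQ (HQ Q) 𝔫 v r s) (g k))
      (Γ1 := fun k => cjG (GamQ (HQ Q) (Ideal.span {(m₁ : 𝓞 K)} * 𝔫) v r s) (g k)) (fun i g => Iff.rfl) (fun i g => Iff.rfl) hD₂ pD2 fD2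
      (fun i w hw => hone w (hle i ⟨hw, w.2⟩)) hccΓ hm5 rfl hc0 (th3_meas (HQ Q) hC) hSS hfq hdich hQ' (subset_refl Q') cφ sφ (x := x) hAS hPP hF₁ (f := F) hAF hort' a
    refine fin_real (a := fun l => ‖∑ k, a k * Wm (UHR (HQ Q)).subtype (psT (HQ Q) θ) ν (D₂ k) (fun y => F l (g k • y)) x‖ₑ ^ 2) (fun l => ENNReal.pow_ne_top enorm_ne_top) (fun l => ?_) (by positivity) ?_
    · rw [ENNReal.toReal_pow, toReal_enorm]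
      congr 2
      refine Finset.sum_congr rfl fun k _ => ?_
      congr 1
      have e1 : IsFundamentalDomain (imUh (HQ Q) (GamQ (HQ Q) 𝔫 v r s) (h k)) (D' k) ν := hD' k
      rw [imUh_eq, qm_cjG_congr (HQ Q) (hg3 k)] at e1
      have iF : ∀ γ ∈ imH (HQ Q) (cjG (GamQ (HQ Q) 𝔫 v r s) (g k)), ∀ x, F l (embH (HQ Q) (g k) * (γ * x)) = F l (embH (HQ Q) (g k) * x) := by
        rintro _ ⟨γ, hγ, rfl⟩ x
        have e3 : embH (HQ Q) (g k) * (embH (HQ Q) γ * x) = embH (HQ Q) (g k * γ * (g k)⁻¹) * (embH (HQ Q) (g k) * x) := by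
          rw [map_mul, map_mul, map_inv]
          group
        have e4 : F l (embH (HQ Q) (g k) * (embH (HQ Q) γ * x)) = F l (embH (HQ Q) (g k) * x) := by
          rw [e3]
          exact (hF l).inv _ ⟨_, hγ, rfl⟩ _
        exact e4
      have e2 := th2_Wh (HQ Q) ν (hD₂ k) e1 θ (fun w hw => hone' w (hle k ⟨hw, w.2⟩)) (F := fun y => F l (embH (HQ Q) (g k) * y)) iF x
      refine Eq.trans ?_ e2
      show WhH (HQ Q) ν (D' k) θ (fun y => F l (embH (HQ Q) (h k) * y)) x = WhH (HQ Q) ν (D' k) θ (fun y => F l (embH (HQ Q) (g k) * y)) x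
      have e5 : (fun y => F l (embH (HQ Q) (h k) * y)) = fun y => F l (embH (HQ Q) (g k) * y) := funext fun y => qm_f_congr (HQ Q) (hg3 k) (hF l).inv y
      rw [e5]
    · refine key.trans ?_
      have e2 : ∀ k, ‖a k‖ₑ ^ 2 / ν (D₂ k) ≤ ENNReal.ofReal (CI * (‖a k‖ ^ 2 * (Ideal.absNorm v.asIdeal : ℝ) ^ (-∑ β ∈ Pos b, pr b (c k) (Sum.inr β)))) * (ν D₁)⁻¹ := by
        intro k
        rw [hvol k, i4 k, div_eq_mul_inv, ENNReal.mul_inv (Or.inr fD) (Or.inr pD), ← mul_assoc]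
        refine mul_le_mul_left (le_trans (mul_le_mul_right (i2' k) _) (le_of_eq ?_)) _
        rw [← ENNReal.ofReal_mul (by positivity)]
        congr 1
        ring
      have hs0 : 0 ≤ ∑ k, ‖a k‖ ^ 2 * (Ideal.absNorm v.asIdeal : ℝ) ^ (-∑ β ∈ Pos b, pr b (c k) (Sum.inr β)) := Finset.sum_nonneg fun k _ => by positivity
      have e3 : ∑ k, ‖a k‖ₑ ^ 2 / ν (D₂ k) ≤ ENNReal.ofReal (CI * ∑ k, ‖a k‖ ^ 2 * (Ideal.absNorm v.asIdeal : ℝ) ^ (-∑ β ∈ Pos b, pr b (c k) (Sum.inr β))) * (ν D₁)⁻¹ := by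
        rw [Finset.mul_sum, ENNReal.ofReal_sum_of_nonneg (fun k _ => by positivity), Finset.sum_mul]
        exact Finset.sum_le_sum fun k _ => e2 k
      calc _ ≤ ENNReal.ofReal (((6 ^ m₀ : ℕ) ^ Module.finrank ℚ L : ℝ) ^ (Fintype.card (I b) ^ 2)) *
            (ENNReal.ofReal (CV * ∏ β ∈ Pos b, Real.exp (Module.finrank ℚ K * A (P.root β)) / (Ideal.absNorm 𝔫 : ℝ)) * ν D₁) * ENNReal.ofReal (∫⁻ y, ‖φ y‖ₑ ^ 2 ∂μ).toReal *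
            (ENNReal.ofReal (CI * ∑ k, ‖a k‖ ^ 2 * (Ideal.absNorm v.asIdeal : ℝ) ^ (-∑ β ∈ Pos b, pr b (c k) (Sum.inr β))) * (ν D₁)⁻¹) := by
            rw [← i3]
            gcongr
        _ = ENNReal.ofReal (((6 ^ m₀ : ℕ) ^ Module.finrank ℚ L : ℝ) ^ (Fintype.card (I b) ^ 2)) *
            ENNReal.ofReal (CV * ∏ β ∈ Pos b, Real.exp (Module.finrank ℚ K * A (P.root β)) / (Ideal.absNorm 𝔫 : ℝ)) * ENNReal.ofReal (∫⁻ y, ‖φ y‖ₑ ^ 2 ∂μ).toReal *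
            ENNReal.ofReal (CI * ∑ k, ‖a k‖ ^ 2 * (Ideal.absNorm v.asIdeal : ℝ) ^ (-∑ β ∈ Pos b, pr b (c k) (Sum.inr β))) * (ν D₁ * (ν D₁)⁻¹) := by
            ring
        _ = _ := by
            rw [ENNReal.mul_inv_cancel pD fD, mul_one]
            rw [← ENNReal.ofReal_mul (by positivity), ← ENNReal.ofReal_mul (by positivity), ← ENNReal.ofReal_mul (by positivity)]
            congr 1
            ring
  · -- form B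
    have hIs : ∀ l k, IsUT (HQ Q) (GamQ (HQ Q) 𝔫 v r s) (g k) (F l) (t l k) := fun l k =>
      qa_isU Q hrs (hcQ k) (hL k) (hF l).inv (qm_isT_congr (HQ Q) (hg3 k) (hT l k))
    have hH := fun k l => th3_hecke (HQ Q) (hle k) (hF l).inv (hIs l k)
    have key := l1_abs2 hG cjj (Γ := GamQ (HQ Q) 𝔫 v r s) (Γ₁ := GamQ (HQ Q) (Ideal.span {(m₁ : 𝓞 K)} * 𝔫) v r s) (hk := g) (Γ' := fun k => cjG (GamQ (HQ Q) 𝔫 v r s) (g k))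
      (Γ1 := fun k => cjG (GamQ (HQ Q) (Ideal.span {(m₁ : 𝓞 K)} * 𝔫) v r s) (g k)) (fun i g => Iff.rfl) (fun i g => Iff.rfl) hle hD₁ pD fD (fun i => rfl) hidx
      hone hccΓ hm5 rfl hc0 (th3_meas (HQ Q) hC) hSS hfq hdich hQ' (subset_refl Q') cφ sφ (x := x) hAS hPP hF₁ (f := F) hAF hort'
      (β := fun k l => t l k) (fun k l => (hH k l).2) a
    refine fin_real (a := fun l => ‖∑ k, a k * t l k‖ₑ ^ 2 * ‖Wm (UHR (HQ Q)).subtype (psT (HQ Q) θ) ν D₁ (F l) x‖ₑ ^ 2)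
      (fun l => ENNReal.mul_ne_top (ENNReal.pow_ne_top enorm_ne_top) (ENNReal.pow_ne_top enorm_ne_top)) (fun l => ?_) (by positivity) ?_
    · rw [ENNReal.toReal_mul, ENNReal.toReal_pow, ENNReal.toReal_pow, toReal_enorm, toReal_enorm]
      have e2 := th2_Wh (HQ Q) ν hD₁ hD' θ hone' (hF l).inv x
      rw [← e2]
      rfl
    · have hs0 : 0 ≤ ∑ k, ‖a k‖ ^ 2 * (Ideal.absNorm v.asIdeal : ℝ) ^ (∑ β ∈ Pos b, pr b (c k) (Sum.inr β)) := Finset.sum_nonneg fun k _ => by positivity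
      have e3 : ∑ k, ((((cjG (GamQ (HQ Q) 𝔫 v r s) (g k)).subgroupOf (HUH (HQ Q))).relIndex ((GamQ (HQ Q) 𝔫 v r s).subgroupOf (HUH (HQ Q))) : ℕ) : ℝ≥0∞) * ‖a k‖ₑ ^ 2 ≤
          ENNReal.ofReal (CI * ∑ k, ‖a k‖ ^ 2 * (Ideal.absNorm v.asIdeal : ℝ) ^ (∑ β ∈ Pos b, pr b (c k) (Sum.inr β))) := by
        rw [Finset.mul_sum, ENNReal.ofReal_sum_of_nonneg (fun k _ => by positivity)]
        refine Finset.sum_le_sum fun k _ => ?_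
        rw [i4 k]
        refine le_trans (mul_le_mul_left (i2 k) _) (le_of_eq ?_)
        rw [← ENNReal.ofReal_mul (by positivity)]
        congr 1
        ring
      rw [← ENNReal.mul_le_mul_iff_right pD fD]
      refine key.trans ?_
      calc _ ≤ ENNReal.ofReal (((6 ^ m₀ : ℕ) ^ Module.finrank ℚ L : ℝ) ^ (Fintype.card (I b) ^ 2)) *
            (ENNReal.ofReal (CV * ∏ β ∈ Pos b, Real.exp (Module.finrank ℚ K * A (P.root β)) / (Ideal.absNorm 𝔫 : ℝ)) * ν D₁) * ENNReal.ofReal (∫⁻ y, ‖φ y‖ₑ ^ 2 ∂μ).toReal *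
            ENNReal.ofReal (CI * ∑ k, ‖a k‖ ^ 2 * (Ideal.absNorm v.asIdeal : ℝ) ^ (∑ β ∈ Pos b, pr b (c k) (Sum.inr β))) := by
            rw [← i3]
            gcongr
        _ = ν D₁ * (ENNReal.ofReal (((6 ^ m₀ : ℕ) ^ Module.finrank ℚ L : ℝ) ^ (Fintype.card (I b) ^ 2)) *
            ENNReal.ofReal (CV * ∏ β ∈ Pos b, Real.exp (Module.finrank ℚ K * A (P.root β)) / (Ideal.absNorm 𝔫 : ℝ)) * ENNReal.ofReal (∫⁻ y, ‖φ y‖ₑ ^ 2 ∂μ).toReal *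
            ENNReal.ofReal (CI * ∑ k, ‖a k‖ ^ 2 * (Ideal.absNorm v.asIdeal : ℝ) ^ (∑ β ∈ Pos b, pr b (c k) (Sum.inr β)))) := by
            ring
        _ = _ := by
            rw [← ENNReal.ofReal_mul (by positivity), ← ENNReal.ofReal_mul (by positivity), ← ENNReal.ofReal_mul (by positivity)]
            congr 2
            ring

end

end

end Pool.Agent.Lib.L1S
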