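import Pool.Agent.Lib.L1S.RH0

/-!
# L1S, module R_H (arithmetic of quasi-split groups), RH10A: boxes for the ideals
-/

namespace Pool.Agent.Lib.L1S

open MeasureTheory Matrix NumberField IsDedekindDomain Pool.Agent.Lib.H89N Pool.Agent.Lib.H33W
open scoped ENNReal Pointwise

noncomputable section

set_option linter.unusedSectionVars false

variable {ι M N : Type} [Fintype ι] [DecidableEq ι] [AddCommGroup M] [Module ℚ M] [AddCommGroup N] [Module ℚ N]
  {P : RootPairing ι ℚ M N} [P.IsCrystallographic] [P.IsRootSystem] {b : P.Base} {K L : Type} [Field K] [NumberField K] [Field L] [NumberField L] [Algebra K L]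
  {D : Set (Equiv.Perm ι)} {H : Subgroup (GK b L)}

/-- PROOF. `n = absNorm 𝔞 ∈ 𝔞`, `ω` an integral basis of `𝓞 K` (`RingOfIntegers.basis`, `integralBasis K`): every `y ∈ KR` is `∑ y_l • kr (ω_l)` with real `y_l` (`KR` is spanned by the `kr (∑ q_l ω_l) = ∑ q_l • kr (ω_l)`, `q_l ∈ ℚ`). `t = -∑ n ⌊y_l / n⌋ ω_l`, `B` = the image of `[0, n] ^ d` under `s ↦ ∑ s_l • kr (ω_l)` (compact). -/
theorem rh10_box {𝔞 : Ideal (𝓞 K)} (h : 𝔞 ≠ ⊥) : ∃ B : Set (KR K L), IsCompact B ∧ ∀ y : KR K L, ∃ t : K, Pool.Agent.Lib.L1S.InI 𝔞 t ∧ kr K L t + y ∈ B := by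
  classical
  obtain ⟨n, hn⟩ : ∃ n, n = Ideal.absNorm 𝔞 := ⟨_, rfl⟩
  have hn0 : n ≠ 0 := by
    rw [hn]
    exact Ideal.absNorm_ne_zero_iff_mem_nonZeroDivisors.2 (mem_nonZeroDivisors_iff_ne_zero.2 h)
  have hna : (n : 𝓞 K) ∈ 𝔞 := by
    rw [hn]
    exact Ideal.absNorm_mem 𝔞
  have hnR : (0 : ℝ) < n := by exact_mod_cast Nat.pos_of_ne_zero hn0
  let ω : Module.Free.ChooseBasisIndex ℤ (𝓞 K) → K := fun i => integralBasis K i
  let f : (Module.Free.ChooseBasisIndex ℤ (𝓞 K) → ℝ) →ₗ[ℝ] KR K L :=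
    ∑ i, (LinearMap.toSpanSingleton ℝ (KR K L) (kr K L (ω i))).comp (LinearMap.proj i)
  have hf : ∀ s, f s = ∑ i, s i • kr K L (ω i) := by
    intro s
    simp only [f, LinearMap.sum_apply, LinearMap.comp_apply, LinearMap.proj_apply, LinearMap.toSpanSingleton_apply]
  have hfc : Continuous f := LinearMap.continuous_of_finiteDimensional f
  have hkr : ∀ (t : K), (kr K L t : EE L) = mixedEmbedding L (algebraMap K L t) := fun t => rfl
  have hkrs : ∀ (s : Module.Free.ChooseBasisIndex ℤ (𝓞 K) → ℚ), ((f fun i => (s i : ℝ) : KR K L) : EE L) =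
      mixedEmbedding L (algebraMap K L (∑ i, s i • ω i)) := by
    intro s
    rw [hf, map_sum, map_sum, Submodule.coe_sum]
    refine Finset.sum_congr rfl fun i _ => ?_
    rw [Submodule.coe_smul, hkr, Rat.cast_smul_eq_qsmul]
    rw [map_rat_smul (algebraMap K L), map_rat_smul (mixedEmbedding L)]
  have hsurj : ∀ y : KR K L, ∃ s, f s = y := by
    rintro ⟨y, hy⟩
    have h1 : KR K L ≤ LinearMap.range ((KR K L).subtype.comp f) := by
      unfold KR
      rw [Submodule.span_le]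
      rintro _ ⟨t, rfl⟩
      refine ⟨fun i => (((integralBasis K).repr t i : ℚ) : ℝ), ?_⟩
      show ((f fun i => (((integralBasis K).repr t i : ℚ) : ℝ) : KR K L) : EE L) = _
      rw [hkrs]
      congr 2
      exact (integralBasis K).sum_repr t
    obtain ⟨s, hs⟩ := h1 hy
    exact ⟨s, Subtype.ext hs⟩
  refine ⟨f '' (Set.univ.pi fun _ => Set.Icc (0 : ℝ) n), (isCompact_univ_pi fun _ => isCompact_Icc).image hfc, fun y => ?_⟩
  obtain ⟨s, rfl⟩ := hsurj y
  refine ⟨∑ i, (-(n * ⌊s i / n⌋ : ℚ)) • ω i, ?_, ?_⟩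
  · refine ⟨∑ i, (n : 𝓞 K) * ((-⌊s i / n⌋ : ℤ) * RingOfIntegers.basis K i), ?_, ?_⟩
    · exact Ideal.sum_mem _ fun i _ => Ideal.mul_mem_right _ _ hna
    · show algebraMap (𝓞 K) K _ = _
      rw [map_sum]
      refine Finset.sum_congr rfl fun i _ => ?_
      rw [map_mul, map_mul, map_natCast, map_intCast, Rat.smul_def]
      show _ = _ * integralBasis K i
      rw [integralBasis_apply]
      push_cast
      ring
  · refine ⟨fun i => s i - n * ⌊s i / n⌋, ?_, ?_⟩
    · intro i _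
      have h1 := Int.floor_le (s i / n)
      have h2 := Int.lt_floor_add_one (s i / n)
      rw [le_div_iff₀ hnR] at h1
      rw [div_lt_iff₀ hnR] at h2
      constructor
      · show 0 ≤ s i - n * ⌊s i / n⌋
        linarith
      · show s i - n * ⌊s i / n⌋ ≤ n
        linarith
    · have h3 : (fun i => s i - n * ⌊s i / n⌋ : _ → ℝ) = (fun i => ((-(n * ⌊s i / n⌋ : ℚ) : ℚ) : ℝ)) + s := by
        funext i
        rw [Pi.add_apply]
        push_cast
        ring
      rw [h3, map_add]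
      congr 1
      exact Subtype.ext (hkrs _)

theorem rh10_kr_add (s t : K) : kr K L (s + t) = kr K L s + kr K L t := by
  apply Subtype.ext
  show mixedEmbedding L (algebraMap K L (s + t)) = mixedEmbedding L (algebraMap K L s) + mixedEmbedding L (algebraMap K L t)
  rw [map_add, map_add]

end

end Pool.Agent.Lib.L1S
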