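import Pool.Agent.Lib.L1S.RH0
import Pool.Agent.Lib.L1S.R1A

/-!
# L1S, module R_H (arithmetic of quasi-split groups), RH1: weights
-/

namespace Pool.Agent.Lib.L1S

open MeasureTheory Matrix NumberField IsDedekindDomain Pool.Agent.Lib.H89N Pool.Agent.Lib.H33W
open scoped ENNReal Pointwise

noncomputable section

set_option linter.unusedSectionVars false

variable {ι M N : Type} [Fintype ι] [DecidableEq ι] [AddCommGroup M] [Module ℚ M] [AddCommGroup N] [Module ℚ N]
  {P : RootPairing ι ℚ M N} [P.IsCrystallographic] [P.IsRootSystem] {b : P.Base} {K L : Type} [Field K] [NumberField K] [Field L] [NumberField L] [Algebra K L]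
  {D : Set (Equiv.Perm ι)} {H : Subgroup (GK b L)}

/-- PROOF. `r1a_ht`: `ht b r` is a sum of coordinates of `wtR b r`, so the value of a functional `M →ₗ[ℚ] ℚ`; compose with `ℚ → ℝ` (`Algebra.linearMap ℚ ℝ`). -/
theorem rh1_htF (b : P.Base) : ∃ f : M →ₗ[ℚ] ℝ, ∀ r, f (wtR b r) = ht b r := by
  refine ⟨(Algebra.linearMap ℚ ℝ).comp (∑ j : b.support, b.toWeightBasis.coord j), fun r => ?_⟩
  have h := r1a_ht (b := b) r
  have h1 : (∑ j : b.support, b.toWeightBasis.coord j) (wtR b r) = ((ht b r : ℤ) : ℚ) := by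
    rw [h, LinearMap.sum_apply]
    rfl
  rw [LinearMap.comp_apply, h1, Algebra.linearMap_apply, eq_ratCast, Rat.cast_intCast]

/-- PROOF. `r1a_L`, `r1a_L_wt`. -/
theorem rh1_prF (b : P.Base) (c : b.support → ℤ) : ∃ f : M →ₗ[ℚ] ℝ, ∀ r, f (wtR b r) = pr b c r := by
  refine ⟨(Algebra.linearMap ℚ ℝ).comp (r1a_L b c), fun r => ?_⟩
  rw [LinearMap.comp_apply, ← r1a_L_wt, Algebra.linearMap_apply, eq_ratCast, Rat.cast_intCast]

/-- PROOF. `J.supp` with the functional of `rh1_htF` (invariant by `J.ht_inv`; `wtR b (inr β) = P.root β`, `ht b (inr β) = b.height β`). -/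
theorem rh1_ht (J : LieH b K L D H) {β : ι} (hβ : β ∈ Pos b) {k : ℕ} {r c : I b} (h : J.DP β k r c ≠ 0) : ht b r = ht b c + k * b.height β := by
  obtain ⟨f, hf⟩ := rh1_htF (P := P) b
  have hroot : ∀ γ, f (P.root γ) = (b.height γ : ℝ) := fun γ => hf (Sum.inr γ)
  have hinv : InvF P D f := by
    intro s hs γ
    rw [hroot, hroot, J.ht_inv s hs γ]
  have h1 := J.supp f hinv β hβ k r c h
  rw [hf, hf, hroot] at h1
  exact_mod_cast h1

theorem rh1_pr (J : LieH b K L D H) {c' : b.support → ℤ} (hc : InvCD b D c') {β : ι} (hβ : β ∈ Pos b) {k : ℕ} {r c : I b} (h : J.DP β k r c ≠ 0) : pr b c' r = pr b c' c + k * pr b c' (Sum.inr β) := by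
  obtain ⟨f, hf⟩ := rh1_prF (P := P) b c'
  have hroot : ∀ γ, f (P.root γ) = (pr b c' (Sum.inr γ) : ℝ) := fun γ => hf (Sum.inr γ)
  have hinv : InvF P D f := by
    intro s hs γ
    rw [hroot, hroot, hc s hs γ]
  have h1 := J.supp f hinv β hβ k r c h
  rw [hf, hf, hroot] at h1
  exact_mod_cast h1

theorem rh1_zht (J : LieH b K L D H) {β : ι} (hβ : β ∈ Pos b) {r c : I b} (h : J.z β r c ≠ 0) : ht b r = ht b c + b.height β := by
  obtain ⟨f, hf⟩ := rh1_htF (P := P) b
  have hroot : ∀ γ, f (P.root γ) = (b.height γ : ℝ) := fun γ => hf (Sum.inr γ)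
  have hinv : InvF P D f := by
    intro s hs γ
    rw [hroot, hroot, J.ht_inv s hs γ]
  have h1 := J.zsupp f hinv β hβ r c h
  rw [hf, hf, hroot] at h1
  exact_mod_cast h1

theorem rh1_zpr (J : LieH b K L D H) {c' : b.support → ℤ} (hc : InvCD b D c') {β : ι} (hβ : β ∈ Pos b) {r c : I b} (h : J.z β r c ≠ 0) : pr b c' r = pr b c' c + pr b c' (Sum.inr β) := by
  obtain ⟨f, hf⟩ := rh1_prF (P := P) b c'
  have hroot : ∀ γ, f (P.root γ) = (pr b c' (Sum.inr γ) : ℝ) := fun γ => hf (Sum.inr γ)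
  have hinv : InvF P D f := by
    intro s hs γ
    rw [hroot, hroot, hc s hs γ]
  have h1 := J.zsupp f hinv β hβ r c h
  rw [hf, hf, hroot] at h1
  exact_mod_cast h1

end

end Pool.Agent.Lib.L1S
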