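import Pool.Agent.Lib.L1S.RH0
import Pool.Agent.Lib.L1S.RH1
import Pool.Agent.Lib.L1S.R1B

/-!
# L1S, module R_H (arithmetic of quasi-split groups), RH2E: the elements `x_β(t)`, `t ∈ K ⊗ ℝ`
-/

namespace Pool.Agent.Lib.L1S

open MeasureTheory Matrix NumberField IsDedekindDomain Pool.Agent.Lib.H89N Pool.Agent.Lib.H33W
open scoped ENNReal Pointwise

noncomputable section

set_option linter.unusedSectionVars false

variable {ι M N : Type} [Fintype ι] [DecidableEq ι] [AddCommGroup M] [Module ℚ M] [AddCommGroup N] [Module ℚ N]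
  {P : RootPairing ι ℚ M N} [P.IsCrystallographic] [P.IsRootSystem] {b : P.Base} {K L : Type} [Field K] [NumberField K] [Field L] [NumberField L] [Algebra K L]
  {D : Set (Equiv.Perm ι)} {H : Subgroup (GK b L)}

theorem rh2e_val (J : LieH b K L D H) {β : ι} (hβ : β ∈ Pos b) (t : KR K L) (r c : I b) :
    (J.xE β t).1.1 r c = ∑ k ∈ Finset.range J.m, (t : EE L) ^ k * (mixedEmbedding L ((J.DP β k r c : 𝓞 L) : L) : EE L) := by
  rw [J.xE_val β hβ t, Matrix.sum_apply]
  rfl

theorem rh2e_m (J : LieH b K L D H) (β : ι) (r : I b) : 0 < J.m := by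
  rcases Nat.eq_zero_or_pos J.m with h | h
  · exfalso
    have h1 := J.dpm β 0 (by omega)
    rw [J.dp0 β] at h1
    have h2 := congrFun (congrFun h1 r) r
    rw [Matrix.one_apply_eq, Matrix.zero_apply] at h2
    exact one_ne_zero h2
  · exact h

theorem rh2e_pos {β : ι} (hβ : β ∈ Pos b) : 0 < b.height β := by
  unfold Pos at hβ
  exact (Finset.mem_filter.1 hβ).2

theorem rh2e_me0 : (mixedEmbedding L (((0 : 𝓞 L) : 𝓞 L) : L) : EE L) = 0 := by
  exact (congrArg (mixedEmbedding L) (map_zero (algebraMap (𝓞 L) L))).trans (map_zero _)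

theorem rh2e_me1 : (mixedEmbedding L (((1 : 𝓞 L) : 𝓞 L) : L) : EE L) = 1 := by
  exact (congrArg (mixedEmbedding L) (map_one (algebraMap (𝓞 L) L))).trans (map_one _)

/-- The entries below the degree of `β`. -/
theorem rh2e_low (J : LieH b K L D H) {β : ι} (hβ : β ∈ Pos b) (t : KR K L) {r c : I b} (h : ht b r < ht b c + b.height β) :
    (J.xE β t).1.1 r c = (1 : Matrix (I b) (I b) (EE L)) r c := by
  have hm := rh2e_m J β r
  have hp := rh2e_pos hβ
  rw [rh2e_val J hβ, Finset.sum_eq_single 0]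
  · rw [pow_zero, one_mul, J.dp0, Matrix.one_apply, Matrix.one_apply]
    split_ifs
    · exact rh2e_me1
    · exact rh2e_me0
  · intro k _ hk
    have h1 : J.DP β k r c = 0 := by
      by_contra hne
      have h2 := rh1_ht J hβ hne
      have h3 : (1 : ℤ) ≤ k := by exact_mod_cast Nat.one_le_iff_ne_zero.2 hk
      nlinarith
    rw [h1, rh2e_me0, mul_zero]
  · intro h1
    exact absurd (Finset.mem_range.2 hm) h1

theorem rh2e_neg (J : LieH b K L D H) {β : ι} (hβ : β ∈ Pos b) (t : KR K L) : (J.xE β t)⁻¹ = J.xE β (-t) := by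
  have h := J.xE_add β hβ 0 0
  rw [add_zero] at h
  have h0 : J.xE β 0 = 1 := mul_eq_left.1 h.symm
  symm
  rw [eq_inv_iff_mul_eq_one, ← J.xE_add β hβ, neg_add_cancel, h0]

theorem rh2e_UR (J : LieH b K L D H) {β : ι} (hβ : β ∈ Pos b) (t : KR K L) : J.xE β t ∈ UR b L := by
  intro r c hrc
  have hp := rh2e_pos hβ
  rw [rh2e_neg J hβ]
  exact ⟨rh2e_low J hβ t (by omega), rh2e_low J hβ (-t) (by omega)⟩

/-- PROOF. As `r5_xE_UR` (Lib/L1S/R5E.lean), with `J.xE_val`, `rh1_ht`. -/
theorem rh2_xE_FR (J : LieH b K L D H) {β : ι} (hβ : β ∈ Pos b) {k : ℕ} (hk : b.height β = k) (t : KR K L) : ∃ h : J.xE β t ∈ UR b L, (⟨J.xE β t, h⟩ : UR b L) ∈ FR b L k := by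
  refine ⟨rh2e_UR J hβ t, fun r c hrc => rh2e_low J hβ t (by omega), fun r c hrc => ?_⟩
  have h3 : ((⟨J.xE β t, rh2e_UR J hβ t⟩ : UR b L)⁻¹).1 = J.xE β (-t) := by
    rw [← rh2e_neg J hβ]
    rfl
  rw [h3]
  exact rh2e_low J hβ (-t) (by omega)

/-- PROOF. As `r5_dgk`. -/
theorem rh2_xE_dgk (J : LieH b K L D H) {β : ι} (hβ : β ∈ Pos b) {k : ℕ} (hk : b.height β = k) (t : KR K L) : dgk b k (J.xE β t).1.1 = (t : EE L) • J.YE β := by
  have hp := rh2e_pos hβ
  refine Matrix.ext fun r c => ?_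
  unfold dgk
  rw [Matrix.of_apply, Matrix.smul_apply, smul_eq_mul]
  have hE : J.YE β r c = (mixedEmbedding L ((J.DP β 1 r c : 𝓞 L) : L) : EE L) := rfl
  rw [hE]
  split_ifs with h3
  · rw [rh2e_val J hβ, Finset.sum_eq_single 1, pow_one]
    · intro j _ hj
      rcases Nat.eq_zero_or_pos j with h4 | h4
      · subst h4
        rw [J.dp0, Matrix.one_apply_ne (by rintro rfl; omega), rh2e_me0, mul_zero]
      · have h5 : J.DP β j r c = 0 := by
          by_contra hne
          have h6 := rh1_ht J hβ hne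
          have h7 : (2 : ℤ) ≤ j := by
            have : 2 ≤ j := by omega
            exact_mod_cast this
          nlinarith
        rw [h5, rh2e_me0, mul_zero]
    · intro h4
      have h5 : J.m ≤ 1 := by
        rw [Finset.mem_range] at h4
        omega
      rw [J.dpm β 1 h5, Matrix.zero_apply, rh2e_me0, mul_zero]
  · have h5 : J.DP β 1 r c = 0 := by
      by_contra hne
      have h6 := rh1_ht J hβ hne
      apply h3
      rw [h6, hk]
      simp
    rw [h5, rh2e_me0, mul_zero]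

/-- `U → U(L ⊗ ℝ)`. -/
def toUR (H : Subgroup (GK b L)) : UHR H →* UR b L where
  toFun u := ⟨u.1.1, u.2⟩
  map_one' := rfl
  map_mul' _ _ := rfl

/-- The elements of `U` which raise the height by at least `k`. -/
def FH (H : Subgroup (GK b L)) (k : ℕ) : Subgroup (UHR H) := (FR b L k).comap (toUR H)

/-- `x_β(t)` as an element of `U` (`1` for the roots `β` which are not positive). -/
def LieH.xU (J : LieH b K L D H) (β : ι) (t : KR K L) : UHR H :=
  if h : β ∈ Pos b then ⟨⟨J.xE β t, J.xE_mem β h t⟩, (rh2_xE_FR J h (k := (b.height β).toNat) (by have := h; unfold Pos at this; have := (Finset.mem_filter.1 this).2; omega) t).1⟩ else 1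

/-- The product of the `x_β(s_β)` over the positive roots `β` of height `k`. -/
def LieH.prE (J : LieH b K L D H) (k : ℕ) (s : ι → KR K L) : UHR H := ((Posk b k).toList.map fun β => J.xU β (s β)).prod

theorem rh2e_xU_FH (J : LieH b K L D H) {β : ι} {k : ℕ} (hβ : β ∈ Posk b k) (t : KR K L) : J.xU β t ∈ FH H k := by
  obtain ⟨h1, h2⟩ := r1_mem_posk.1 hβ
  unfold LieH.xU
  rw [dif_pos h1]
  exact (rh2_xE_FR J h1 h2 t).2

theorem rh2_prE_FH (J : LieH b K L D H) (k : ℕ) (s : ι → KR K L) : J.prE k s ∈ FH H k := by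
  unfold LieH.prE
  apply Subgroup.list_prod_mem
  intro x hx
  rw [List.mem_map] at hx
  obtain ⟨β, hβ, rfl⟩ := hx
  exact rh2e_xU_FH J (Finset.mem_toList.1 hβ) _

theorem rh2e_dgk (J : LieH b K L D H) {β : ι} {k : ℕ} (hβ : β ∈ Posk b k) (t : KR K L) :
    dgk b k (J.xU β t).1.1.1.1 = (t : EE L) • J.YE β := by
  obtain ⟨h1, h2⟩ := r1_mem_posk.1 hβ
  unfold LieH.xU
  rw [dif_pos h1]
  exact rh2_xE_dgk J h1 h2 t

/-- PROOF. Induction over the list: `dgk_mul`, `rh2_xE_dgk`. -/
theorem rh2_prE_dgk (J : LieH b K L D H) {k : ℕ} (hk : 1 ≤ k) (s : ι → KR K L) : dgk b k (J.prE k s).1.1.1.1 = ∑ β ∈ Posk b k, (s β : EE L) • J.YE β := by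
  have key : ∀ l : List ι, (∀ β ∈ l, β ∈ Posk b k) → (l.map fun β => J.xU β (s β)).prod ∈ FH H k ∧
      dgk b k (l.map fun β => J.xU β (s β)).prod.1.1.1.1 = (l.map fun β => (s β : EE L) • J.YE β).sum := by
    intro l
    induction l with
    | nil =>
      intro _
      refine ⟨one_mem _, ?_⟩
      rw [List.map_nil, List.map_nil, List.prod_nil, List.sum_nil]
      exact dgk_one hk
    | cons β l ih =>
      intro hl
      obtain ⟨h1, h2⟩ := ih fun β' h' => hl β' (List.mem_cons_of_mem _ h')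
      have h3 := rh2e_xU_FH J (hl β List.mem_cons_self) (s β)
      rw [List.map_cons, List.map_cons, List.prod_cons, List.sum_cons]
      refine ⟨mul_mem h3 h1, ?_⟩
      have h5 : Rs b k (J.xU β (s β)).1.1.1.1 := (Subgroup.mem_comap.1 h3).1
      have h6 : Rs b k (l.map fun β => J.xU β (s β)).prod.1.1.1.1 := (Subgroup.mem_comap.1 h1).1
      have h4 : dgk b k (J.xU β (s β) * (l.map fun β => J.xU β (s β)).prod).1.1.1.1 =
          dgk b k (J.xU β (s β)).1.1.1.1 + dgk b k (l.map fun β => J.xU β (s β)).prod.1.1.1.1 :=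
        dgk_mul hk h5 h6
      rw [h4, h2, rh2e_dgk J (hl β List.mem_cons_self)]
  have h1 := (key (Posk b k).toList fun β hβ => Finset.mem_toList.1 hβ).2
  rw [Finset.sum_map_toList] at h1
  exact h1

/-- PROOF. `J.xE_cont`, a finite product of continuous functions. -/
theorem rh2_prE_cont (J : LieH b K L D H) (k : ℕ) : Continuous (J.prE k) := by
  unfold LieH.prE
  apply continuous_list_prod
  intro β hβ
  have h1 := (r1_mem_posk.1 (Finset.mem_toList.1 hβ)).1
  unfold LieH.xU
  simp only [dif_pos h1]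
  exact Continuous.subtype_mk (Continuous.subtype_mk ((J.xE_cont β h1).comp (continuous_apply β)) _) _

end

end Pool.Agent.Lib.L1S
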