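import Pool.Agent.Lib.L1S.RH0
import Pool.Agent.Lib.L1S.R2A

/-!
# L1S, module R_H (arithmetic of quasi-split groups), RH3: integrality at `v`
-/

namespace Pool.Agent.Lib.L1S

open MeasureTheory Matrix NumberField IsDedekindDomain Pool.Agent.Lib.H89N Pool.Agent.Lib.H33W
open scoped ENNReal Pointwise

noncomputable section

set_option linter.unusedSectionVars false

variable {ι M N : Type} [Fintype ι] [DecidableEq ι] [AddCommGroup M] [Module ℚ M] [AddCommGroup N] [Module ℚ N]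
  {P : RootPairing ι ℚ M N} [P.IsCrystallographic] [P.IsRootSystem] {b : P.Base} {K L : Type} [Field K] [NumberField K] [Field L] [NumberField L] [Algebra K L]
  {D : Set (Equiv.Perm ι)} {H : Subgroup (GK b L)}

variable {v : HeightOneSpectrum (𝓞 K)}

theorem rh3_mul_cast (a y : 𝓞 L) : (((a * y : 𝓞 L)) : L) = (a : L) * (y : L) := by simp

theorem rh3_alg (a : 𝓞 K) : algebraMap K L (a : K) = ((algebraMap (𝓞 K) (𝓞 L) a : 𝓞 L) : L) := rfl

theorem rh3_neg {𝔟 : Ideal (𝓞 L)} {x : L} (h : Pool.Agent.Lib.L1S.InI 𝔟 x) : Pool.Agent.Lib.L1S.InI 𝔟 (-x) := by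
  obtain ⟨y, hy, rfl⟩ := h
  exact ⟨-y, 𝔟.neg_mem hy, by simp⟩

/-- `a x` for an algebraic integer `a` of `K`. -/
theorem rh3_smul {𝔟 : Ideal (𝓞 L)} (a : 𝓞 K) {x : L} (h : Pool.Agent.Lib.L1S.InI 𝔟 x) : Pool.Agent.Lib.L1S.InI 𝔟 (algebraMap K L (a : K) * x) := by
  refine Pool.Agent.Lib.L1S.InI.mul' ⟨algebraMap (𝓞 K) (𝓞 L) a, Submodule.mem_top, rfl⟩ h

/-- The elements `a` of `𝓞 K` with `a x ∈ 𝔟`. -/
def rh3I (𝔟 : Ideal (𝓞 L)) (x : L) : Ideal (𝓞 K) where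
  carrier := {a | Pool.Agent.Lib.L1S.InI 𝔟 (algebraMap K L (a : K) * x)}
  zero_mem' := by
    show Pool.Agent.Lib.L1S.InI 𝔟 (algebraMap K L ((0 : 𝓞 K) : K) * x)
    have e : algebraMap K L ((0 : 𝓞 K) : K) * x = 0 := by simp
    rw [e]
    exact Pool.Agent.Lib.L1S.InI.zero _
  add_mem' := by
    intro a c ha hc
    show Pool.Agent.Lib.L1S.InI 𝔟 (algebraMap K L ((a + c : 𝓞 K) : K) * x)
    have e : algebraMap K L ((a + c : 𝓞 K) : K) * x = algebraMap K L (a : K) * x + algebraMap K L (c : K) * x := by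
      rw [← add_mul, ← map_add]
      rfl
    rw [e]
    exact Pool.Agent.Lib.L1S.InI.add ha hc
  smul_mem' := by
    intro a c hc
    show Pool.Agent.Lib.L1S.InI 𝔟 (algebraMap K L ((a • c : 𝓞 K) : K) * x)
    have e : algebraMap K L ((a • c : 𝓞 K) : K) * x = algebraMap K L (a : K) * (algebraMap K L (c : K) * x) := by
      rw [← mul_assoc, ← map_mul]
      rfl
    rw [e]
    exact rh3_smul a hc

theorem rh3_mem (𝔟 : Ideal (𝓞 L)) (x : L) (a : 𝓞 K) : a ∈ rh3I (K := K) 𝔟 x ↔ Pool.Agent.Lib.L1S.InI 𝔟 (algebraMap K L (a : K) * x) := Iff.rfl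

/-- An ideal which contains a power of `v` and is not contained in `v` is everything. -/
theorem rh3_one {𝔞 : Ideal (𝓞 K)} {j : ℕ} (h1 : v.asIdeal ^ j ≤ 𝔞) (h2 : ¬𝔞 ≤ v.asIdeal) : 𝔞 = ⊤ := by
  by_contra h
  obtain ⟨m, hm, hle⟩ := Ideal.exists_le_maximal 𝔞 h
  have h3 : v.asIdeal ≤ m := hm.isPrime.le_of_pow_le (h1.trans hle)
  have h4 : v.asIdeal = m := v.isMaximal.eq_of_le hm.ne_top h3
  rw [← h4] at hle
  exact h2 hle

theorem rh3_of_one {𝔟 : Ideal (𝓞 L)} {x : L} (h : rh3I (K := K) 𝔟 x = ⊤) : Pool.Agent.Lib.L1S.InI 𝔟 x := by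
  have h1 : (1 : 𝓞 K) ∈ rh3I (K := K) 𝔟 x := by
    rw [h]
    exact Submodule.mem_top
  rw [rh3_mem] at h1
  have e : algebraMap K L ((1 : 𝓞 K) : K) * x = x := by simp
  rwa [e] at h1

theorem rh3_up_mem {𝔞 : Ideal (𝓞 K)} {a : 𝓞 K} (ha : a ∈ 𝔞) {y : L} (hy : Pool.Agent.Lib.L1S.InI ⊤ y) : Pool.Agent.Lib.L1S.InI (up L 𝔞) (algebraMap K L (a : K) * y) := by
  obtain ⟨z, _, rfl⟩ := hy
  exact ⟨algebraMap (𝓞 K) (𝓞 L) a * z, Ideal.mul_mem_right _ _ (Ideal.mem_map_of_mem _ ha), by rw [rh3_mul_cast]; rfl⟩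

/-- Induction over the elements of `𝔞 𝓞_L`. -/
theorem rh3_ind {𝔞 : Ideal (𝓞 K)} {p : L → Prop} (h0 : p 0) (ha : ∀ x y, p x → p y → p (x + y)) (hs : ∀ a ∈ 𝔞, ∀ y : 𝓞 L, p (algebraMap K L (a : K) * (y : L))) {x : L}
    (h : Pool.Agent.Lib.L1S.InI (up L 𝔞) x) : p x := by
  obtain ⟨y, hy, rfl⟩ := h
  unfold up Ideal.map at hy
  refine Submodule.span_induction (p := fun z _ => ∀ w : 𝓞 L, p ((w * z : 𝓞 L) : L)) ?_ ?_ ?_ ?_ hy 1 |> fun h => by simpa using h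
  · rintro _ ⟨a, ha', rfl⟩ w
    have e : ((w * algebraMap (𝓞 K) (𝓞 L) a : 𝓞 L) : L) = algebraMap K L (a : K) * (w : L) := by
      rw [rh3_mul_cast, mul_comm]
      rfl
    rw [e]
    exact hs a ha' w
  · intro w
    simpa using h0
  · intro z z' _ _ hz hz' w
    have e : ((w * (z + z') : 𝓞 L) : L) = ((w * z : 𝓞 L) : L) + ((w * z' : 𝓞 L) : L) := by
      rw [mul_add]
      rfl
    rw [e]
    exact ha _ _ (hz w) (hz' w)
  · intro c z _ hz w
    have e : w * (c • z) = (w * c) * z := by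
      rw [smul_eq_mul, mul_assoc]
    rw [e]
    exact hz (w * c)

theorem rh3_fac {c : 𝓞 K} (hc : c ≠ 0) : ∃ (m : ℕ) (𝔟 : Ideal (𝓞 K)), ¬v.asIdeal ∣ 𝔟 ∧ Ideal.span {c} = v.asIdeal ^ m * 𝔟 := by
  have h0 : (Ideal.span {c} : Ideal (𝓞 K)) ≠ 0 := by
    rwa [Ne, Ideal.zero_eq_bot, Ideal.span_singleton_eq_bot]
  have h1 := WfDvdMonoid.max_power_factor h0 v.irreducible
  exact h1

theorem rh3_fac2 {c : 𝓞 K} (hc : c ≠ 0) : ∃ (m : ℕ) (𝔟 : Ideal (𝓞 K)), ¬𝔟 ≤ v.asIdeal ∧ c ∈ v.asIdeal ^ m ∧ ∀ a ∈ v.asIdeal ^ m, ∀ s ∈ 𝔟, a * s ∈ Ideal.span {c} := by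
  obtain ⟨m, 𝔟, h1, h2⟩ := rh3_fac (v := v) hc
  refine ⟨m, 𝔟, fun h => h1 (Ideal.dvd_iff_le.2 h), ?_, ?_⟩
  · have hx := Ideal.mem_span_singleton_self c
    rw [h2] at hx
    have h3 : v.asIdeal ^ m * 𝔟 ≤ v.asIdeal ^ m := Ideal.mul_le_left
    exact h3 hx
  · intro a ha s hs
    rw [h2]
    exact Ideal.mul_mem_mul ha hs

/-- A fraction which is integral at `v`. -/
theorem rh3_K0 {y : K} (h : v.valuation K y ≤ 1) : ∃ s : 𝓞 K, s ∉ v.asIdeal ∧ ∃ w : 𝓞 K, (s : K) * y = (w : K) := by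
  obtain ⟨a, c, hc0, rfl⟩ := IsFractionRing.div_surjective (A := 𝓞 K) y
  have hc : c ≠ 0 := nonZeroDivisors.ne_zero hc0
  have hcK : ((c : 𝓞 K) : K) ≠ 0 := fun h0 => hc (RingOfIntegers.ext h0)
  have e1 : (algebraMap (𝓞 K) K a) = (a : K) := rfl
  have e2 : (algebraMap (𝓞 K) K c) = (c : K) := rfl
  rw [e1, e2] at h ⊢
  obtain ⟨m, 𝔟, hb, hcm, hcb⟩ := rh3_fac2 (v := v) hc
  obtain ⟨s, hs1, hs2⟩ := Set.not_subset.1 hb
  refine ⟨s, hs2, ?_⟩
  have h1 : v.valuation K (c : K) ≤ WithZero.exp (-(m : ℤ)) := (r2_pow (v := v) (m := m) (x := (c : K))).1 ⟨c, hcm, rfl⟩ |>.2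
  have h3 : v.valuation K (a : K) ≤ WithZero.exp (-(m : ℤ)) := by
    have e : (a : K) = (a : K) / (c : K) * (c : K) := (div_mul_cancel₀ _ hcK).symm
    rw [e, map_mul]
    calc v.valuation K ((a : K) / (c : K)) * v.valuation K (c : K) ≤ 1 * WithZero.exp (-(m : ℤ)) := mul_le_mul' h h1
      _ = _ := one_mul _
  obtain ⟨a', ha', e'⟩ := (r2_pow (v := v) (m := m) (x := (a : K))).2 ⟨⟨a, Submodule.mem_top, rfl⟩, h3⟩
  have e4 : a' = a := RingOfIntegers.ext e'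
  rw [e4] at ha'
  have h5 : a * s ∈ Ideal.span {c} := hcb a ha' s hs1
  obtain ⟨w, hw⟩ := Ideal.mem_span_singleton'.1 h5
  refine ⟨w, ?_⟩
  have h6 : (w : K) * (c : K) = (a : K) * (s : K) := by
    have := congrArg (fun z : 𝓞 K => (z : K)) hw
    simpa using this
  rw [mul_div_assoc', div_eq_iff hcK, h6, mul_comm]

theorem rh3_top {x : L} (h : Pool.Agent.Lib.L1S.InI ⊤ x) : IntV v x := by
  refine ⟨1, fun h => v.isPrime.ne_top ((Ideal.eq_top_iff_one _).2 h), ?_⟩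
  have e : algebraMap K L ((1 : 𝓞 K) : K) * x = x := by simp
  rwa [e]

/-- PROOF. `a x`, `a' y` integral: `a a' (x + y)`, `a a' ∉ v` (`v` prime). -/
theorem rh3_add {x y : L} (hx : IntV v x) (hy : IntV v y) : IntV v (x + y) := by
  obtain ⟨a, ha, h1⟩ := hx
  obtain ⟨c, hc, h2⟩ := hy
  refine ⟨a * c, fun h => (v.isPrime.mem_or_mem h).elim ha hc, ?_⟩
  have e : algebraMap K L ((a * c : 𝓞 K) : K) * (x + y) = algebraMap K L (c : K) * (algebraMap K L (a : K) * x) + algebraMap K L (a : K) * (algebraMap K L (c : K) * y) := by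
    have e1 : algebraMap K L ((a * c : 𝓞 K) : K) = algebraMap K L (a : K) * algebraMap K L (c : K) := by
      rw [← map_mul]
      rfl
    rw [e1]
    ring
  rw [e]
  exact (rh3_smul c h1).add (rh3_smul a h2)

theorem rh3_mul {x y : L} (hx : IntV v x) (hy : IntV v y) : IntV v (x * y) := by
  obtain ⟨a, ha, h1⟩ := hx
  obtain ⟨c, hc, h2⟩ := hy
  refine ⟨a * c, fun h => (v.isPrime.mem_or_mem h).elim ha hc, ?_⟩
  have e : algebraMap K L ((a * c : 𝓞 K) : K) * (x * y) = (algebraMap K L (a : K) * x) * (algebraMap K L (c : K) * y) := by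
    have e1 : algebraMap K L ((a * c : 𝓞 K) : K) = algebraMap K L (a : K) * algebraMap K L (c : K) := by
      rw [← map_mul]
      rfl
    rw [e1]
    ring
  rw [e]
  exact h1.mul h2

theorem rh3_sum {α : Type} (s : Finset α) {f : α → L} (h : ∀ k ∈ s, IntV v (f k)) : IntV v (∑ k ∈ s, f k) := by
  classical
  induction s using Finset.induction_on with
  | empty =>
    rw [Finset.sum_empty]
    exact rh3_top (Pool.Agent.Lib.L1S.InI.zero _)
  | insert a s ha ih =>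
    rw [Finset.sum_insert ha]
    exact rh3_add (h a (Finset.mem_insert_self _ _)) (ih fun k hk => h k (Finset.mem_insert_of_mem hk))

/-- PROOF. `y = a / s` with `a, s ∈ 𝓞 K`, `s ∉ v`: for `v(y) ≤ 1` (`IsLocalization.AtPrime`-type statement, or: `y = a / d`; choose an ideal `𝔠` prime to `v` .. ; the simplest: the ideal `{s ∈ 𝓞 K | s y ∈ 𝓞 K}` is not contained in `v`: otherwise, compare valuations; `HeightOneSpectrum.exists_..`, Lib/H89N/LD9.lean `exists_loc`). -/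
theorem rh3_K {y : K} (h : v.valuation K y ≤ 1) : IntV v (algebraMap K L y) := by
  obtain ⟨s, hs, w, hw⟩ := rh3_K0 h
  refine ⟨s, hs, algebraMap (𝓞 K) (𝓞 L) w, Submodule.mem_top, ?_⟩
  rw [← map_mul, hw]
  rfl

/-- PROOF. `a x ∈ 𝓞 L`, so `a Tr(x) = Tr(a x) ∈ 𝓞 K` (`Algebra.isIntegral_trace`), and `v(a) = 1`. -/
theorem rh3_tr {x : L} (h : IntV v x) : v.valuation K (Algebra.trace K L x) ≤ 1 := by
  obtain ⟨a, ha, y, _, hy⟩ := h
  have e : algebraMap K L (a : K) * x = (a : K) • x := (Algebra.smul_def _ _).symm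
  have h1 : Algebra.trace K L ((y : 𝓞 L) : L) = (a : K) * Algebra.trace K L x := by
    rw [hy, e, map_smul, smul_eq_mul]
  have h2 : IsIntegral ℤ (Algebra.trace K L ((y : 𝓞 L) : L)) := Algebra.isIntegral_trace (RingOfIntegers.isIntegral_coe y)
  have h3 : v.valuation K (Algebra.trace K L ((y : 𝓞 L) : L)) ≤ 1 := v.valuation_le_one (⟨_, h2⟩ : 𝓞 K)
  have h4 : v.valuation K (a : K) = 1 := by
    have h5 : v.valuation K (a : K) ≤ 1 := v.valuation_le_one a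
    refine le_antisymm h5 (not_lt.1 fun h6 => ha ?_)
    exact (v.valuation_lt_one_iff_mem a).1 h6
  rw [h1, map_mul, h4, one_mul] at h3
  exact h3

/-- PROOF. `x = ∑ a_i y_i` with `a_i ∈ v ^ m`, `y_i ∈ 𝓞 L` (`Ideal.map`, span induction); `π ^ (-m) a_i` is integral at `v` in `K` (`rh3_K`). -/
theorem rh3_up {π : K} (hπ : v.valuation K π = WithZero.exp (-1 : ℤ)) {m : ℕ} {x : L} (h : Pool.Agent.Lib.L1S.InI (up L (v.asIdeal ^ m)) x) : IntV v ((algebraMap K L π)⁻¹ ^ m * x) := by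
  have hπ0 : π ≠ 0 := by
    rintro rfl
    rw [map_zero] at hπ
    exact WithZero.exp_ne_zero hπ.symm
  refine rh3_ind (p := fun x => IntV v ((algebraMap K L π)⁻¹ ^ m * x)) ?_ ?_ ?_ h
  · rw [mul_zero]
    exact rh3_top (Pool.Agent.Lib.L1S.InI.zero _)
  · intro x y hx hy
    rw [mul_add]
    exact rh3_add hx hy
  · intro a ha y
    have e : (algebraMap K L π)⁻¹ ^ m * (algebraMap K L (a : K) * (y : L)) = algebraMap K L (π⁻¹ ^ m * (a : K)) * (y : L) := by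
      rw [map_mul, map_pow, map_inv₀, mul_assoc]
    rw [e]
    refine rh3_mul (rh3_K ?_) (rh3_top ⟨y, Submodule.mem_top, rfl⟩)
    have h1 : v.valuation K (a : K) ≤ WithZero.exp (-(m : ℤ)) := (r2_pow.1 ⟨a, ha, rfl⟩).2
    have h2 : v.valuation K (π⁻¹ ^ m) = WithZero.exp (m : ℤ) := by
      rw [map_pow, map_inv₀, hπ, ← WithZero.exp_neg, neg_neg, ← WithZero.exp_nsmul, nsmul_eq_mul, mul_one]
    rw [map_mul, h2]
    calc WithZero.exp (m : ℤ) * v.valuation K (a : K) ≤ WithZero.exp (m : ℤ) * WithZero.exp (-(m : ℤ)) := mul_le_mul' le_rfl h1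
      _ = 1 := by rw [← WithZero.exp_add, add_neg_cancel, WithZero.exp_zero]

/-- PROOF. `𝔞 = {a ∈ 𝓞 K | a x ∈ 𝔫 𝓞 L}` is an ideal which contains `v ^ j` and `s 𝔫` (`s ∉ v`, `s x ∈ 𝓞 L`): it is in no maximal ideal (`v ^ j ⊆ w` gives `w = v`; `s 𝔫 ⊆ v` is impossible), so `1 ∈ 𝔞`. -/
theorem rh3_glob {𝔫 : Ideal (𝓞 K)} (hv : ¬𝔫 ≤ v.asIdeal) {j : ℕ} {x : L} (h : DenL 𝔫 v j x) (h1 : IntV v x) : Pool.Agent.Lib.L1S.InI (up L 𝔫) x := by
  obtain ⟨s, hs, h2⟩ := h1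
  refine rh3_of_one (K := K) (rh3_one (v := v) (j := j) (fun a ha => (rh3_mem _ _ _).2 (h a ha)) fun hle => ?_)
  have h3 : ∀ a ∈ 𝔫, a ∈ v.asIdeal := by
    intro a ha
    have h4 : s * a ∈ rh3I (K := K) (up L 𝔫) x := by
      rw [rh3_mem]
      have e : algebraMap K L ((s * a : 𝓞 K) : K) * x = algebraMap K L (a : K) * (algebraMap K L (s : K) * x) := by
        have e1 : algebraMap K L ((s * a : 𝓞 K) : K) = algebraMap K L (s : K) * algebraMap K L (a : K) := by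
          rw [← map_mul]
          rfl
        rw [e1]
        ring
      rw [e]
      exact rh3_up_mem ha h2
    exact (v.isPrime.mem_or_mem (hle h4)).resolve_left hs
  exact hv h3

/-- PROOF. `𝔞 = {a ∈ 𝓞 K | a x ∈ v ^ m 𝓞 L}` contains `v ^ (j + m)` and an element outside `v`: `π = p / u` with `p ∈ v`, `u ∉ v`; `s π ^ (-m) x ∈ 𝓞 L`, `s ∉ v`, so `u ^ m s x = p ^ m (s π ^ (-m) x) ∈ v ^ m 𝓞 L`. -/
theorem rh3_globv {𝔫 : Ideal (𝓞 K)} {π : K} (hπ : v.valuation K π = WithZero.exp (-1 : ℤ)) {j m : ℕ} {x : L} (h : DenL 𝔫 v j x) (h1 : IntV v ((algebraMap K L π)⁻¹ ^ m * x)) :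
    Pool.Agent.Lib.L1S.InI (up L (v.asIdeal ^ m)) x := by
  obtain ⟨s, hs, h2⟩ := h1
  have hπ1 : v.valuation K π ≤ 1 := by
    rw [hπ, ← WithZero.exp_zero]
    exact WithZero.exp_le_exp.2 (by omega)
  have hπ0 : π ≠ 0 := by
    rintro rfl
    rw [map_zero] at hπ
    exact WithZero.exp_ne_zero hπ.symm
  obtain ⟨u, hu, p, hp⟩ := rh3_K0 hπ1
  have hp1 : p ∈ v.asIdeal := by
    rw [← v.valuation_lt_one_iff_mem (K := K) p]
    have e : v.valuation K (algebraMap (𝓞 K) K p) = v.valuation K (u : K) * v.valuation K π := by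
      rw [← map_mul, hp]
    rw [e, hπ]
    calc v.valuation K (u : K) * WithZero.exp (-1 : ℤ) ≤ 1 * WithZero.exp (-1 : ℤ) := mul_le_mul' (v.valuation_le_one u) le_rfl
      _ = WithZero.exp (-1 : ℤ) := one_mul _
      _ < WithZero.exp (0 : ℤ) := WithZero.exp_lt_exp.2 (by omega)
      _ = 1 := WithZero.exp_zero
  refine rh3_of_one (K := K) (rh3_one (v := v) (j := j + m) ?_ fun hle => ?_)
  · rw [pow_add, Ideal.mul_le]
    intro a ha c hc
    rw [rh3_mem]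
    have e : algebraMap K L ((a * c : 𝓞 K) : K) * x = algebraMap K L (c : K) * (algebraMap K L (a : K) * x) := by
      have e1 : algebraMap K L ((a * c : 𝓞 K) : K) = algebraMap K L (a : K) * algebraMap K L (c : K) := by
        rw [← map_mul]
        rfl
      rw [e1]
      ring
    rw [e]
    exact rh3_up_mem hc (h a ha).top
  · have h4 : u ^ m * s ∈ rh3I (K := K) (up L (v.asIdeal ^ m)) x := by
      rw [rh3_mem]
      have e : algebraMap K L ((u ^ m * s : 𝓞 K) : K) * x = algebraMap K L ((p ^ m : 𝓞 K) : K) * (algebraMap K L (s : K) * ((algebraMap K L π)⁻¹ ^ m * x)) := by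
        have e1 : algebraMap K L ((u ^ m * s : 𝓞 K) : K) = algebraMap K L (u : K) ^ m * algebraMap K L (s : K) := by
          rw [← map_pow, ← map_mul]
          rfl
        have e2 : algebraMap K L ((p ^ m : 𝓞 K) : K) = (algebraMap K L (u : K) * algebraMap K L π) ^ m := by
          rw [← map_mul, hp, ← map_pow]
          rfl
        have e3 : (algebraMap K L π) ≠ 0 := (map_ne_zero _).2 hπ0
        have e4 : (algebraMap K L π) ^ m * (algebraMap K L π)⁻¹ ^ m = 1 := by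
          rw [← mul_pow, mul_inv_cancel₀ e3, one_pow]
        rw [e1, e2, mul_pow]
        calc algebraMap K L (u : K) ^ m * algebraMap K L (s : K) * x = algebraMap K L (u : K) ^ m * algebraMap K L (s : K) * x * (((algebraMap K L π) ^ m) * (algebraMap K L π)⁻¹ ^ m) := by rw [e4, mul_one]
          _ = _ := by ring
      rw [e]
      exact rh3_up_mem (Ideal.pow_mem_pow hp1 m) h2
    rcases v.isPrime.mem_or_mem (hle h4) with h5 | h5
    · exact hu (v.isPrime.mem_of_pow_mem m h5)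
    · exact hs h5

/-- PROOF. `x = ∑ a_i y_i`, `Tr(x) = ∑ a_i Tr(y_i)`. -/
theorem rh3_trI {𝔞 : Ideal (𝓞 K)} {x : L} (h : Pool.Agent.Lib.L1S.InI (up L 𝔞) x) : Pool.Agent.Lib.L1S.InI 𝔞 (Algebra.trace K L x) := by
  refine rh3_ind (p := fun x => Pool.Agent.Lib.L1S.InI 𝔞 (Algebra.trace K L x)) ?_ ?_ ?_ h
  · rw [map_zero]
    exact Pool.Agent.Lib.L1S.InI.zero _
  · intro x y hx hy
    rw [map_add]
    exact hx.add hy
  · intro a ha y
    rw [← Algebra.smul_def, map_smul, smul_eq_mul]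
    have h2 : IsIntegral ℤ (Algebra.trace K L ((y : 𝓞 L) : L)) := Algebra.isIntegral_trace (RingOfIntegers.isIntegral_coe y)
    exact Pool.Agent.Lib.L1S.InI.mul ⟨a, ha, rfl⟩ ⟨(⟨_, h2⟩ : 𝓞 K), Submodule.mem_top, rfl⟩

/-- PROOF. `DenL` from `InI`. -/
theorem rh3_den {𝔫 : Ideal (𝓞 K)} (j : ℕ) {x : L} (h : Pool.Agent.Lib.L1S.InI (up L 𝔫) x) : DenL 𝔫 v j x := by
  intro a _
  exact rh3_smul a h

end

end Pool.Agent.Lib.L1S
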