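import Pool.Agent.Lib.L1S.RH0
import Pool.Agent.Lib.L1S.RH3
import Pool.Agent.Lib.L1S.R3B

/-!
# L1S, module R_H (arithmetic of quasi-split groups), RH3B: the groups `Γ` and `h⁻¹ Γ h` by local conditions
-/

namespace Pool.Agent.Lib.L1S

open MeasureTheory Matrix NumberField IsDedekindDomain Pool.Agent.Lib.H89N Pool.Agent.Lib.H33W
open scoped ENNReal Pointwise

noncomputable section

set_option linter.unusedSectionVars false

variable {ι M N : Type} [Fintype ι] [DecidableEq ι] [AddCommGroup M] [Module ℚ M] [AddCommGroup N] [Module ℚ N]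
  {P : RootPairing ι ℚ M N} [P.IsCrystallographic] [P.IsRootSystem] {b : P.Base} {K L : Type} [Field K] [NumberField K] [Field L] [NumberField L] [Algebra K L]
  {D : Set (Equiv.Perm ι)} {H : Subgroup (GK b L)}

variable {v : HeightOneSpectrum (𝓞 K)}

theorem rh3b_one (v : HeightOneSpectrum (𝓞 K)) (i j : I b) : IntV v ((1 : Matrix (I b) (I b) L) i j) := by
  by_cases h : i = j
  · subst h
    rw [Matrix.one_apply_eq]
    exact rh3_top ⟨1, Submodule.mem_top, by simp⟩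
  · rw [Matrix.one_apply_ne h]
    exact rh3_top (InI.zero _)

theorem rh3b_sub {x y : L} (hx : IntV v x) (hy : IntV v y) : IntV v (x - y) := by
  have e : x - y = x + (-1) * y := by ring
  rw [e]
  exact rh3_add hx (rh3_mul (rh3_top ⟨-1, Submodule.mem_top, by simp⟩) hy)

theorem rh3b_low {r s : ℕ} {π : K} (hπ : v.valuation K π = WithZero.exp (-1 : ℤ)) {x : L} (h : IntV v ((algebraMap K L π)⁻¹ ^ (r + s) * x)) : IntV v ((algebraMap K L π)⁻¹ ^ r * x) := by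
  have hπ0 : π ≠ 0 := by
    rintro rfl
    rw [map_zero] at hπ
    exact WithZero.exp_ne_zero hπ.symm
  have h0 : algebraMap K L π ≠ 0 := by
    rw [Ne, map_eq_zero]
    exact hπ0
  have h1 : IntV v (algebraMap K L (π ^ s)) := by
    refine rh3_K ?_
    rw [map_pow, hπ, ← WithZero.exp_nsmul, ← WithZero.exp_zero, WithZero.exp_le_exp]
    simp
  have e : (algebraMap K L π)⁻¹ ^ r * x = algebraMap K L (π ^ s) * ((algebraMap K L π)⁻¹ ^ (r + s) * x) := by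
    rw [map_pow, pow_add]
    have h2 : algebraMap K L π ^ s * (algebraMap K L π)⁻¹ ^ s = 1 := by rw [← mul_pow, mul_inv_cancel₀ h0, one_pow]
    calc (algebraMap K L π)⁻¹ ^ r * x = (algebraMap K L π ^ s * (algebraMap K L π)⁻¹ ^ s) * ((algebraMap K L π)⁻¹ ^ r * x) := by rw [h2, one_mul]
      _ = _ := by ring
  rw [e]
  exact rh3_mul h1 h

theorem rh3b_up_top : up L (⊤ : Ideal (𝓞 K)) = ⊤ := Ideal.map_top _

theorem rh3b_den_add {𝔫 : Ideal (𝓞 K)} {j : ℕ} {x y : L} (hx : DenL 𝔫 v j x) (hy : DenL 𝔫 v j y) : DenL 𝔫 v j (x + y) := by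
  intro a ha
  rw [mul_add]
  exact (hx a ha).add (hy a ha)

theorem rh3b_den_sum {𝔫 : Ideal (𝓞 K)} {j : ℕ} {α : Type} (s : Finset α) {f : α → L} (h : ∀ k ∈ s, DenL 𝔫 v j (f k)) : DenL 𝔫 v j (∑ k ∈ s, f k) := by
  intro a ha
  rw [Finset.mul_sum]
  exact InI.sum _ _ fun k hk => h k hk a ha

theorem rh3b_den_mono {𝔫 : Ideal (𝓞 K)} {j k : ℕ} (hjk : j ≤ k) {x : L} (hx : DenL 𝔫 v j x) : DenL 𝔫 v k x := fun a ha => hx a (Ideal.pow_le_pow_right hjk ha)

theorem rh3b_den_top {𝔫 : Ideal (𝓞 K)} {j : ℕ} {x : L} (hx : DenL 𝔫 v j x) : DenL ⊤ v j x := by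
  intro a ha
  rw [rh3b_up_top]
  exact (hx a ha).top

theorem rh3b_den_mul {𝔫 : Ideal (𝓞 K)} {j k : ℕ} {x y : L} (hx : DenL 𝔫 v j x) (hy : DenL ⊤ v k y) : DenL 𝔫 v (j + k) (x * y) := by
  intro a ha
  rw [pow_add] at ha
  induction ha using Submodule.mul_induction_on' with
  | mem_mul_mem a1 h1 a2 h2 =>
    have h3 := hx a1 h1
    have h4 := hy a2 h2
    rw [rh3b_up_top] at h4
    have e : algebraMap K L ((a1 * a2 : 𝓞 K) : K) * (x * y) = (algebraMap K L (a1 : K) * x) * (algebraMap K L (a2 : K) * y) := by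
      have e1 : ((a1 * a2 : 𝓞 K) : K) = (a1 : K) * (a2 : K) := map_mul (algebraMap (𝓞 K) K) a1 a2
      rw [e1, map_mul]
      ring
    rw [e]
    exact h3.mul h4
  | add a1 h1 a2 h2 ih1 ih2 =>
    have e : algebraMap K L ((a1 + a2 : 𝓞 K) : K) * (x * y) = algebraMap K L (a1 : K) * (x * y) + algebraMap K L (a2 : K) * (x * y) := by
      have e1 : ((a1 + a2 : 𝓞 K) : K) = (a1 : K) + (a2 : K) := map_add (algebraMap (𝓞 K) K) a1 a2
      rw [e1, map_add, add_mul]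
    rw [e]
    exact ih1.add ih2

theorem rh3b_den_one {𝔫 : Ideal (𝓞 K)} {j : ℕ} {X : Matrix (I b) (I b) L} (h : ∀ i j', DenL 𝔫 v j ((X - 1) i j')) (i j' : I b) : DenL ⊤ v j (X i j') := by
  have e : X i j' = (X - 1) i j' + (1 : Matrix (I b) (I b) L) i j' := by simp
  rw [e]
  refine rh3b_den_add (rh3b_den_top (h i j')) (rh3b_den_mono (Nat.zero_le j) (rh3_den 0 ?_))
  rw [rh3b_up_top]
  by_cases h : i = j'
  · subst h
    rw [Matrix.one_apply_eq]
    exact ⟨1, Submodule.mem_top, by simp⟩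
  · rw [Matrix.one_apply_ne h]
    exact InI.zero _

/-- PROOF. As `IwL.mul` (Lib/L1S/DC0.lean) with `rh3_add`, `rh3_mul`, `rh3_sum`; `π` is integral at `v` (`rh3_K`), so `π ^ (-(r + s)) y` integral gives `π ^ (-r) y` integral. -/
theorem rh3_IwV_mul {r s : ℕ} {π : K} (hπ : v.valuation K π = WithZero.exp (-1 : ℤ)) {g h : Matrix (I b) (I b) L} (hg : IwV b v r s π g) (hh : IwV b v r s π h) : IwV b v r s π (g * h) := by
  have hone := rh3b_one (L := L) (b := b) v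
  have hsub : ∀ {x : Matrix (I b) (I b) L}, IwV b v r s π x → ∀ i j, IntV v ((x - 1) i j) := by
    intro x hx i j
    rw [Matrix.sub_apply]
    exact rh3b_sub (hx i j).1 (hone i j)
  have hlow : ∀ {x : L}, IntV v ((algebraMap K L π)⁻¹ ^ (r + s) * x) → IntV v ((algebraMap K L π)⁻¹ ^ r * x) := fun h => rh3b_low hπ h
  have e : g * h - 1 = (g - 1) * h + (h - 1) := by
    rw [sub_mul, one_mul]
    abel
  intro i j
  refine ⟨?_, ?_, ?_⟩
  · rw [Matrix.mul_apply]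
    exact rh3_sum _ fun k _ => rh3_mul (hg i k).1 (hh k j).1
  · intro hij
    rw [Matrix.mul_apply, Finset.mul_sum]
    refine rh3_sum _ fun k _ => ?_
    by_cases h1 : ht b i < ht b k
    · rw [← mul_assoc]
      exact rh3_mul ((hg i k).2.1 h1) (hh k j).1
    · rw [mul_left_comm]
      exact rh3_mul (hg i k).1 ((hh k j).2.1 ((not_lt.1 h1).trans_lt hij))
  · intro hij
    rw [e, Matrix.add_apply, mul_add]
    refine rh3_add ?_ ((hh i j).2.2 hij)
    rw [Matrix.mul_apply, Finset.mul_sum]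
    refine rh3_sum _ fun k _ => ?_
    rcases lt_trichotomy (ht b i) (ht b k) with h1 | h1 | h1
    · have hik : i ≠ k := by
        rintro rfl
        exact absurd h1 (lt_irrefl _)
      have e1 : (g - 1) i k = g i k := by rw [Matrix.sub_apply, Matrix.one_apply_ne hik, sub_zero]
      rw [e1, ← mul_assoc]
      exact rh3_mul (hlow ((hg i k).2.1 h1)) (hh k j).1
    · rw [← mul_assoc]
      exact rh3_mul ((hg i k).2.2 h1) (hh k j).1
    · rw [mul_left_comm]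
      exact rh3_mul (hsub hg i k) (hlow ((hh k j).2.1 (h1.trans_le hij.le)))

/-- PROOF. As `hg_mul` (Lib/L1S/DC0.lean): `g h - 1 = (g - 1) h + (h - 1)`, `h = 1 + (h - 1)`; if `v ^ j x ⊆ 𝔫 𝓞 L`, `v ^ k y ⊆ 𝓞 L` then `v ^ (j + k) x y ⊆ 𝔫 𝓞 L` (`v ^ (j + k) = v ^ j v ^ k`, induction over `Submodule.mul_induction_on`). -/
theorem rh3_HGL_mul {𝔫 : Ideal (𝓞 K)} {g h : GK b L} (hg : g ∈ HGL b L 𝔫 v) (hh : h ∈ HGL b L 𝔫 v) : g * h ∈ HGL b L 𝔫 v := by
  obtain ⟨l, hl⟩ := hg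
  obtain ⟨m, hm⟩ := hh
  have key : ∀ (x y : Matrix (I b) (I b) L) (l m : ℕ), (∀ i j, DenL 𝔫 v l ((x - 1) i j)) → (∀ i j, DenL 𝔫 v m ((y - 1) i j)) → ∀ i j, DenL 𝔫 v (l + m) ((x * y - 1) i j) := by
    intro x y l m hx hy i j
    have e : x * y - 1 = (x - 1) * y + (y - 1) := by
      rw [sub_mul, one_mul]
      abel
    rw [e, Matrix.add_apply, Matrix.mul_apply]
    exact rh3b_den_add (rh3b_den_sum _ fun k _ => rh3b_den_mul (hx i k) (rh3b_den_one hy k j)) (rh3b_den_mono (Nat.le_add_left m l) (hy i j))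
  refine ⟨l + m, fun i j => ⟨key _ _ l m (fun i j => (hl i j).1) (fun i j => (hm i j).1) i j, ?_⟩⟩
  have e : (g * h)⁻¹.1.1 = h⁻¹.1.1 * g⁻¹.1.1 := by
    rw [_root_.mul_inv_rev]
    rfl
  rw [e, add_comm l m]
  exact key _ _ m l (fun i j => (hm i j).2) (fun i j => (hl i j).2) i j

theorem rh3_HGL_inv {𝔫 : Ideal (𝓞 K)} {g : GK b L} (hg : g ∈ HGL b L 𝔫 v) : g⁻¹ ∈ HGL b L 𝔫 v := by
  obtain ⟨j, hj⟩ := hg
  exact ⟨j, fun r c => ⟨(hj r c).2, by rw [inv_inv]; exact (hj r c).1⟩⟩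

theorem rh3b_int {X : Matrix (I b) (I b) L} {i j : I b} (h : Pool.Agent.Lib.L1S.InI (⊤ : Ideal (𝓞 L)) ((X - 1) i j)) : Pool.Agent.Lib.L1S.InI (⊤ : Ideal (𝓞 L)) (X i j) := by
  have e : X i j = (X - 1) i j + (1 : Matrix (I b) (I b) L) i j := by simp
  rw [e]
  refine h.add ?_
  by_cases h1 : i = j
  · subst h1
    rw [Matrix.one_apply_eq]
    exact ⟨1, Submodule.mem_top, by simp⟩
  · rw [Matrix.one_apply_ne h1]
    exact InI.zero _

theorem rh3b_fwd {𝔫 : Ideal (𝓞 K)} {r s : ℕ} {π : K} (hπ : v.valuation K π = WithZero.exp (-1 : ℤ)) {X : Matrix (I b) (I b) L}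
    (h : ∀ i j, InI (up L 𝔫) ((X - 1) i j) ∧ (ht b i < ht b j → InI (up L (v.asIdeal ^ (r + s))) (X i j)) ∧ (ht b i = ht b j → InI (up L (v.asIdeal ^ r)) ((X - 1) i j))) :
    (∀ i j, DenL 𝔫 v 0 ((X - 1) i j)) ∧ IwV b v r s π X :=
  ⟨fun i j => rh3_den 0 (h i j).1, fun i j => ⟨rh3_top (rh3b_int (h i j).1.top), fun hij => rh3_up hπ ((h i j).2.1 hij), fun hij => rh3_up hπ ((h i j).2.2 hij)⟩⟩

theorem rh3b_bwd {𝔫 : Ideal (𝓞 K)} (hv : ¬𝔫 ≤ v.asIdeal) {r s m : ℕ} {π : K} (hπ : v.valuation K π = WithZero.exp (-1 : ℤ)) {X : Matrix (I b) (I b) L}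
    (hD : ∀ i j, DenL 𝔫 v m ((X - 1) i j)) (hX : IwV b v r s π X) :
    ∀ i j, InI (up L 𝔫) ((X - 1) i j) ∧ (ht b i < ht b j → InI (up L (v.asIdeal ^ (r + s))) (X i j)) ∧ (ht b i = ht b j → InI (up L (v.asIdeal ^ r)) ((X - 1) i j)) := by
  intro i j
  have h1 : IntV v ((X - 1) i j) := by
    rw [Matrix.sub_apply]
    exact rh3b_sub (hX i j).1 (rh3b_one v i j)
  refine ⟨rh3_glob hv (hD i j) h1, fun hij => ?_, fun hij => rh3_globv hπ (hD i j) ((hX i j).2.2 hij)⟩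
  have hne : i ≠ j := by
    rintro rfl
    exact lt_irrefl _ hij
  have e : X i j = (X - 1) i j := by rw [Matrix.sub_apply, Matrix.one_apply_ne hne, sub_zero]
  rw [e]
  refine rh3_globv hπ (hD i j) ?_
  rw [← e]
  exact (hX i j).2.1 hij

/-- PROOF. `rh3_top`, `rh3_up`, `rh3_den` for `⇒`; `rh3_glob`, `rh3_globv` for `⇐` (an entry of `g` is the entry of `g - 1` plus `0` or `1`). -/
theorem rh3_GamL {𝔫 : Ideal (𝓞 K)} (hv : ¬𝔫 ≤ v.asIdeal) {r s : ℕ} {π : K} (hπ : v.valuation K π = WithZero.exp (-1 : ℤ)) {g : GK b L} :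
    g ∈ GamL b L 𝔫 v r s ↔ g ∈ HGL b L 𝔫 v ∧ IwV b v r s π g.1.1 ∧ IwV b v r s π g⁻¹.1.1 := by
  constructor
  · intro hg
    obtain ⟨h1, h2⟩ := rh3b_fwd hπ (X := g.1.1) fun i j => (hg i j).1
    obtain ⟨h3, h4⟩ := rh3b_fwd hπ (X := g⁻¹.1.1) fun i j => (hg i j).2
    exact ⟨⟨0, fun i j => ⟨h1 i j, h3 i j⟩⟩, h2, h4⟩
  · rintro ⟨⟨m, hm⟩, h1, h2⟩ i j
    exact ⟨rh3b_bwd hv hπ (fun i j => (hm i j).1) h1 i j, rh3b_bwd hv hπ (fun i j => (hm i j).2) h2 i j⟩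

/-- PROOF. As `r3_Gh` (Lib/L1S/R3B.lean), with `cj b c (algebraMap K L π)`. -/
theorem rh3_GhL {𝔫 : Ideal (𝓞 K)} {r s : ℕ} {c : b.support → ℤ} {π : K} {h : GK b L} (hL : LvL b 𝔫 v r s c π h) {g : GK b L} :
    g ∈ GhL b 𝔫 v r s h ↔ g ∈ HGL b L 𝔫 v ∧ IwV b v r s π (cj b c (algebraMap K L π) g.1.1) ∧ IwV b v r s π (cj b c (algebraMap K L π) g⁻¹.1.1) := by
  have hπ := hL.hπ
  have hπ0 : algebraMap K L π ≠ 0 := by
    rw [Ne, map_eq_zero]
    rintro rfl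
    rw [map_zero] at hπ
    exact WithZero.exp_ne_zero hπ.symm
  obtain ⟨hk, hk'⟩ := hL.hv
  have hhi : h.1.1 * h⁻¹.1.1 = 1 := h.1.mul_inv
  have hih : h⁻¹.1.1 * h.1.1 = 1 := h.1.inv_mul
  have hDD : (Matrix.diagonal fun i => algebraMap K L π ^ pr b c i) * (Matrix.diagonal fun i => algebraMap K L π ^ (-pr b c i)) =
      (1 : Matrix (I b) (I b) L) := by
    rw [Matrix.diagonal_mul_diagonal, ← Matrix.diagonal_one]
    congr 1
    funext i
    rw [← zpow_add₀ hπ0, add_neg_cancel, zpow_zero]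
  have key : ∀ X : Matrix (I b) (I b) L, IwV b v r s π (h.1.1 * X * h⁻¹.1.1) ↔ IwV b v r s π (cj b c (algebraMap K L π) X) := by
    intro X
    constructor
    · intro hX
      have h1 := rh3_IwV_mul hπ (rh3_IwV_mul hπ hk' hX) hk
      have h2 : (Matrix.diagonal (fun i => algebraMap K L π ^ (-pr b c i)) * h⁻¹.1.1) * (h.1.1 * X * h⁻¹.1.1) *
          (h.1.1 * Matrix.diagonal fun i => algebraMap K L π ^ pr b c i) = cj b c (algebraMap K L π) X := by
        have h3 : (Matrix.diagonal (fun i => algebraMap K L π ^ (-pr b c i)) * h⁻¹.1.1) * (h.1.1 * X * h⁻¹.1.1) *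
          (h.1.1 * Matrix.diagonal fun i => algebraMap K L π ^ pr b c i) =
          Matrix.diagonal (fun i => algebraMap K L π ^ (-pr b c i)) * (h⁻¹.1.1 * h.1.1) * X * (h⁻¹.1.1 * h.1.1) *
            Matrix.diagonal fun i => algebraMap K L π ^ pr b c i := by
          simp only [Matrix.mul_assoc]
        rw [h3, hih, Matrix.mul_one, Matrix.mul_one]
        rfl
      rw [h2] at h1
      exact h1
    · intro hX
      have h1 := rh3_IwV_mul hπ (rh3_IwV_mul hπ hk hX) hk'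
      have h2 : (h.1.1 * Matrix.diagonal fun i => algebraMap K L π ^ pr b c i) * cj b c (algebraMap K L π) X *
          (Matrix.diagonal (fun i => algebraMap K L π ^ (-pr b c i)) * h⁻¹.1.1) = h.1.1 * X * h⁻¹.1.1 := by
        unfold cj
        have h3 : (h.1.1 * Matrix.diagonal fun i => algebraMap K L π ^ pr b c i) *
            (Matrix.diagonal (fun i => algebraMap K L π ^ (-pr b c i)) * X * Matrix.diagonal fun i => algebraMap K L π ^ pr b c i) *
          (Matrix.diagonal (fun i => algebraMap K L π ^ (-pr b c i)) * h⁻¹.1.1) =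
          h.1.1 * ((Matrix.diagonal fun i => algebraMap K L π ^ pr b c i) * (Matrix.diagonal fun i => algebraMap K L π ^ (-pr b c i))) * X *
            ((Matrix.diagonal fun i => algebraMap K L π ^ pr b c i) * (Matrix.diagonal fun i => algebraMap K L π ^ (-pr b c i))) * h⁻¹.1.1 := by
          simp only [Matrix.mul_assoc]
        rw [h3, hDD, Matrix.mul_one, Matrix.mul_one]
      rw [h2] at h1
      exact h1
  have hHG : h * g * h⁻¹ ∈ HGL b L 𝔫 v ↔ g ∈ HGL b L 𝔫 v := by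
    constructor
    · intro h1
      have h2 := rh3_HGL_mul (rh3_HGL_mul (rh3_HGL_inv hL.hh) h1) hL.hh
      have h3 : h⁻¹ * (h * g * h⁻¹) * h = g := by group
      rw [h3] at h2
      exact h2
    · intro h1
      exact rh3_HGL_mul (rh3_HGL_mul hL.hh h1) (rh3_HGL_inv hL.hh)
  have hinv : (h * g * h⁻¹)⁻¹ = h * g⁻¹ * h⁻¹ := by group
  have e1 : (h * g * h⁻¹).1.1 = h.1.1 * g.1.1 * h⁻¹.1.1 := rfl
  have e2 : (h * g⁻¹ * h⁻¹).1.1 = h.1.1 * g⁻¹.1.1 * h⁻¹.1.1 := rfl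
  have e0 : g ∈ GhL b 𝔫 v r s h ↔ h * g * h⁻¹ ∈ GamL b L 𝔫 v r s := Iff.rfl
  rw [e0, rh3_GamL hL.nv hπ, hHG, hinv, e1, e2, key, key]

end

end Pool.Agent.Lib.L1S
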