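import Pool.Agent.Lib.L1S.RH0
import Pool.Agent.Lib.L1S.RH1
import Pool.Agent.Lib.L1S.R1B
import Pool.Agent.Lib.L1S.RH3B

/-!
# L1S, module R_H (arithmetic of quasi-split groups), RH5C: the functional `cf β`
-/

namespace Pool.Agent.Lib.L1S

open MeasureTheory Matrix NumberField IsDedekindDomain Pool.Agent.Lib.H89N Pool.Agent.Lib.H33W
open scoped ENNReal Pointwise

noncomputable section

set_option linter.unusedSectionVars false

variable {ι M N : Type} [Fintype ι] [DecidableEq ι] [AddCommGroup M] [Module ℚ M] [AddCommGroup N] [Module ℚ N]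
  {P : RootPairing ι ℚ M N} [P.IsCrystallographic] [P.IsRootSystem] {b : P.Base} {K L : Type} [Field K] [NumberField K] [Field L] [NumberField L] [Algebra K L]
  {D : Set (Equiv.Perm ι)} {H : Subgroup (GK b L)}

/-- PROOF. `J.z1`; the trace is `K`-linear (`Algebra.trace` of `algebraMap y * ..` is `y` times the trace: `Algebra.smul_def`, `map_smul`). -/
theorem rh5_cf_sum (J : LieH b K L D H) {β : ι} {k : ℕ} (hβ : β ∈ Posk b k) (y : ι → K) : J.cf β (∑ γ ∈ Posk b k, algebraMap K L (y γ) • J.Y γ) = J.cst * y β := by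
  have hP := r1_mem_posk.1 hβ
  have h1 : ∀ r c, Algebra.trace K L ((J.z β r c : L) * (∑ γ ∈ Posk b k, algebraMap K L (y γ) • J.Y γ) r c) =
      ∑ γ ∈ Posk b k, y γ * Algebra.trace K L (((J.z β r c : 𝓞 L) : L) * ((J.DP γ 1 r c : 𝓞 L) : L)) := by
    intro r c
    rw [Matrix.sum_apply, Finset.mul_sum, map_sum]
    refine Finset.sum_congr rfl fun γ _ => ?_
    have e : (J.z β r c : L) * (algebraMap K L (y γ) • J.Y γ) r c = y γ • (((J.z β r c : 𝓞 L) : L) * ((J.DP γ 1 r c : 𝓞 L) : L)) := by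
      rw [Matrix.smul_apply, smul_eq_mul, Algebra.smul_def]
      have e1 : J.Y γ r c = ((J.DP γ 1 r c : 𝓞 L) : L) := rfl
      rw [e1]
      ring
    rw [e, map_smul, smul_eq_mul]
  unfold LieH.cf
  have h2 : ∑ r, ∑ c, Algebra.trace K L ((J.z β r c : L) * (∑ γ ∈ Posk b k, algebraMap K L (y γ) • J.Y γ) r c) =
      ∑ γ ∈ Posk b k, y γ * ∑ r, ∑ c, Algebra.trace K L (((J.z β r c : 𝓞 L) : L) * ((J.DP γ 1 r c : 𝓞 L) : L)) := by
    simp_rw [h1]
    calc ∑ r, ∑ c, ∑ γ ∈ Posk b k, y γ * Algebra.trace K L (((J.z β r c : 𝓞 L) : L) * ((J.DP γ 1 r c : 𝓞 L) : L))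
        = ∑ r, ∑ γ ∈ Posk b k, ∑ c, y γ * Algebra.trace K L (((J.z β r c : 𝓞 L) : L) * ((J.DP γ 1 r c : 𝓞 L) : L)) :=
          Finset.sum_congr rfl fun r _ => Finset.sum_comm
      _ = ∑ γ ∈ Posk b k, ∑ r, ∑ c, y γ * Algebra.trace K L (((J.z β r c : 𝓞 L) : L) * ((J.DP γ 1 r c : 𝓞 L) : L)) :=
          Finset.sum_comm
      _ = _ := by
          refine Finset.sum_congr rfl fun γ _ => ?_
          rw [Finset.mul_sum]
          exact Finset.sum_congr rfl fun r _ => by rw [Finset.mul_sum]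
  rw [h2]
  have h3 : ∀ γ ∈ Posk b k, y γ * ∑ r, ∑ c, Algebra.trace K L (((J.z β r c : 𝓞 L) : L) * ((J.DP γ 1 r c : 𝓞 L) : L)) = if γ = β then y γ * (J.cst : K) else 0 := by
    intro γ hγ
    have hQ := r1_mem_posk.1 hγ
    rw [J.z1 β hP.1 γ hQ.1 (by rw [hP.2, hQ.2])]
    split_ifs
    · rfl
    · rw [mul_zero]
  rw [Finset.sum_congr rfl h3, Finset.sum_ite_eq' (Posk b k) β, if_pos hβ, mul_comm]

/-- PROOF. `z β r c ≠ 0` only for `ht r = ht c + height β` (`rh1_zht`). -/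
theorem rh5_cf_dgk (J : LieH b K L D H) {β : ι} {k : ℕ} (hβ : β ∈ Posk b k) (g : Matrix (I b) (I b) L) : J.cf β (dgk b k g) = J.cf β g := by
  have hP := r1_mem_posk.1 hβ
  unfold LieH.cf
  refine Finset.sum_congr rfl fun r _ => Finset.sum_congr rfl fun c _ => ?_
  by_cases h0 : J.z β r c = 0
  · rw [h0]
    simp
  · have h1 := rh1_zht J hP.1 h0
    rw [hP.2] at h1
    unfold dgk
    rw [Matrix.of_apply, if_pos h1]

/-- PROOF. `J.degH`, `rh5_cf_sum`, `rh5_cf_dgk`. -/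
theorem rh5_degH (J : LieH b K L D H) {k : ℕ} (hk : 1 ≤ k) {g : GK b L} (hg : g ∈ H) (hg1 : g ∈ FK b L k) :
    ∃ y : ι → K, dgk b k g.1.1 = ∑ β ∈ Posk b k, algebraMap K L (y β) • J.Y β ∧ ∀ β ∈ Posk b k, J.cst * y β = J.cf β g.1.1 := by
  obtain ⟨y, hy⟩ := J.degH g hg k hk hg1
  refine ⟨y, hy, fun β hβ => ?_⟩
  rw [← rh5_cf_dgk J hβ g.1.1, hy]
  exact (rh5_cf_sum J hβ y).symm

/-- PROOF. The entries used by `cf β` are off the diagonal (`rh1_zht`), `z β r c ∈ 𝓞 L`; `rh3_trI`, `InI.sum`. -/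
theorem rh5_cf_InI (J : LieH b K L D H) {β : ι} (hβ : β ∈ Pos b) {𝔫 : Ideal (𝓞 K)} {g : Matrix (I b) (I b) L} (h : ∀ i j, Pool.Agent.Lib.L1S.InI (up L 𝔫) ((g - 1) i j)) : Pool.Agent.Lib.L1S.InI 𝔫 (J.cf β g) := by
  unfold LieH.cf
  refine InI.sum _ _ fun r _ => InI.sum _ _ fun c _ => rh3_trI ?_
  by_cases h0 : J.z β r c = 0
  · rw [h0]
    have e : ((0 : 𝓞 L) : L) * g r c = 0 := by simp
    rw [e]
    exact InI.zero _
  · have h1 := rh1_zht J hβ h0
    have h2 : 0 < b.height β := (Finset.mem_filter.1 hβ).2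
    have h3 : r ≠ c := by
      rintro rfl
      omega
    have e : g r c = (g - 1) r c := by rw [Matrix.sub_apply, Matrix.one_apply_ne h3, sub_zero]
    rw [e]
    exact InI.mul' ⟨J.z β r c, Submodule.mem_top, rfl⟩ (h _ _)

/-- PROOF. `rh1_zpr`: at the entries used by `cf β`, `pr r = pr c' + pr β`, so `(cj g) r c' = π ^ (-pr β) g r c'` (`r3_cj`): `π ^ (-pr β) cf β g = cf β (cj g)` is integral at `v` (`rh3_tr`, `rh3_mul`, `rh3_sum`). -/
theorem rh5_cf_cj (J : LieH b K L D H) {β : ι} (hβ : β ∈ Pos b) {v : HeightOneSpectrum (𝓞 K)} {c : b.support → ℤ} (hc : InvCD b D c) {π : K} (hπ : v.valuation K π = WithZero.exp (-1 : ℤ)) {g : Matrix (I b) (I b) L}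
    (h : ∀ i j, IntV v (cj b c (algebraMap K L π) g i j)) : v.valuation K (J.cf β g) ≤ WithZero.exp (-(pr b c (Sum.inr β))) := by
  have hπ0 : π ≠ 0 := by
    rintro rfl
    rw [map_zero] at hπ
    exact WithZero.exp_ne_zero hπ.symm
  have hπL : algebraMap K L π ≠ 0 := (map_ne_zero _).2 hπ0
  obtain ⟨m, hm⟩ : ∃ m, m = pr b c (Sum.inr β) := ⟨_, rfl⟩
  rw [← hm]
  have e1 : π ^ (-m) * J.cf β g = ∑ r, ∑ c', Algebra.trace K L ((J.z β r c' : L) * cj b c (algebraMap K L π) g r c') := by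
    unfold LieH.cf
    rw [Finset.mul_sum]
    refine Finset.sum_congr rfl fun r _ => ?_
    rw [Finset.mul_sum]
    refine Finset.sum_congr rfl fun c' _ => ?_
    by_cases h0 : J.z β r c' = 0
    · rw [h0]
      simp
    · have h1 := rh1_zpr J hc hβ h0
      rw [r3_cj hπL, ← smul_eq_mul, ← map_smul, Algebra.smul_def, map_zpow₀]
      have h2 : pr b c c' - pr b c r = -m := by rw [hm]; omega
      rw [h2]
      congr 1
      ring
  have h2 : v.valuation K (π ^ (-m) * J.cf β g) ≤ 1 := by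
    rw [e1]
    refine Valuation.map_sum_le _ fun r _ => Valuation.map_sum_le _ fun c' _ => rh3_tr (rh3_mul (rh3_top ⟨J.z β r c', Submodule.mem_top, rfl⟩) (h _ _))
  rw [map_mul, map_zpow₀, hπ] at h2
  have h3 : (WithZero.exp (-1 : ℤ)) ^ (-m) = WithZero.exp m := by
    rw [← WithZero.exp_zsmul]
    congr 1
    simp
  rw [h3] at h2
  calc v.valuation K (J.cf β g) = WithZero.exp (-m) * (WithZero.exp m * v.valuation K (J.cf β g)) := by
        rw [← mul_assoc, ← WithZero.exp_add, neg_add_cancel, WithZero.exp_zero, one_mul]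
    _ ≤ WithZero.exp (-m) * 1 := mul_le_mul_right h2 _
    _ = WithZero.exp (-m) := mul_one _

end

end Pool.Agent.Lib.L1S
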