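import Pool.Agent.Lib.L1S.RH0
import Pool.Agent.Lib.L1S.RH1
import Pool.Agent.Lib.L1S.R1B

/-!
# L1S, module R_H (arithmetic of quasi-split groups), RH2: the elements `x_β(t)`, `t ∈ K`
-/

namespace Pool.Agent.Lib.L1S

open MeasureTheory Matrix NumberField IsDedekindDomain Pool.Agent.Lib.H89N Pool.Agent.Lib.H33W
open scoped ENNReal Pointwise

noncomputable section

set_option linter.unusedSectionVars false

variable {ι M N : Type} [Fintype ι] [DecidableEq ι] [AddCommGroup M] [Module ℚ M] [AddCommGroup N] [Module ℚ N]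
  {P : RootPairing ι ℚ M N} [P.IsCrystallographic] [P.IsRootSystem] {b : P.Base} {K L : Type} [Field K] [NumberField K] [Field L] [NumberField L] [Algebra K L]
  {D : Set (Equiv.Perm ι)} {H : Subgroup (GK b L)}

theorem rh2_c0 : ((0 : 𝓞 L) : L) = 0 := rfl

theorem rh2_c1 : ((1 : 𝓞 L) : L) = 1 := rfl

theorem rh2_val (J : LieH b K L D H) {β : ι} (hβ : β ∈ Pos b) (t : K) (r c : I b) :
    (J.x β t).1.1 r c = ∑ k ∈ Finset.range J.m, algebraMap K L t ^ k * ((J.DP β k r c : 𝓞 L) : L) := by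
  rw [J.x_val β hβ t, Matrix.sum_apply]
  refine Finset.sum_congr rfl fun k _ => ?_
  rw [Matrix.smul_apply, Matrix.map_apply, smul_eq_mul]

theorem rh2_uniq (J : LieH b K L D H) {β : ι} (hβ : β ∈ Pos b) {k k' : ℕ} {r c : I b} (h : J.DP β k r c ≠ 0)
    (h' : J.DP β k' r c ≠ 0) : k' = k := by
  have hpos : 0 < b.height β := (Finset.mem_filter.1 hβ).2
  have h1 := rh1_ht J hβ h
  have h2 := rh1_ht J hβ h'
  rw [h1] at h2
  have h3 : (k : ℤ) * b.height β = k' * b.height β := add_left_cancel h2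
  have h4 := mul_right_cancel₀ hpos.ne' h3
  exact_mod_cast h4.symm

/-- PROOF. As `r5_entry` (Lib/L1S/R5A.lean). `J.x_val`; the term `k = 0` is the entry of `1` (`J.dp0`); a nonzero term `k ≥ 1` has `ht r = ht c + k height β` (`rh1_ht`), `height β ≥ 1`: at most one `k` contributes, and none if `r = c`. (`m = 0` is impossible: the matrix would be zero, but `dpm`, `dp0` give `1 = 0`.) -/
theorem rh2_entry (J : LieH b K L D H) {β : ι} (hβ : β ∈ Pos b) (t : K) (r c : I b) :
    (J.x β t).1.1 r c = (1 : Matrix (I b) (I b) L) r c ∨ ∃ k : ℕ, 1 ≤ k ∧ ht b r = ht b c + k * b.height β ∧ (∀ c', InvCD b D c' → pr b c' r = pr b c' c + k * pr b c' (Sum.inr β)) ∧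
      (J.x β t).1.1 r c = algebraMap K L t ^ k * (J.DP β k r c : L) := by
  classical
  by_cases hex : ∃ k : ℕ, 1 ≤ k ∧ k < J.m ∧ J.DP β k r c ≠ 0
  · obtain ⟨k, hk1, hkm, hk⟩ := hex
    refine Or.inr ⟨k, hk1, rh1_ht J hβ hk, fun c' hc' => rh1_pr J hc' hβ hk, ?_⟩
    rw [rh2_val J hβ]
    refine Finset.sum_eq_single k (fun k' _ hne => ?_) (fun h => absurd (Finset.mem_range.2 hkm) h)
    have h0 : J.DP β k' r c = 0 := by
      by_contra h1
      exact hne (rh2_uniq J hβ hk h1)
    rw [h0, rh2_c0, mul_zero]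
  · push Not at hex
    left
    rw [rh2_val J hβ]
    have hm : 0 < J.m := by
      by_contra hm
      have h1 := J.dpm β 0 (by omega)
      rw [J.dp0 β] at h1
      have h2 := congrFun (congrFun h1 r) r
      rw [Matrix.one_apply_eq, Matrix.zero_apply] at h2
      exact one_ne_zero h2
    rw [Finset.sum_eq_single 0]
    · rw [pow_zero, one_mul, J.dp0 β]
      by_cases h : r = c
      · subst h
        rw [Matrix.one_apply_eq, Matrix.one_apply_eq, rh2_c1]
      · rw [Matrix.one_apply_ne h, Matrix.one_apply_ne h, rh2_c0]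
    · intro k hk hne
      rw [hex k (by omega) (Finset.mem_range.1 hk), rh2_c0, mul_zero]
    · intro h
      exact absurd (Finset.mem_range.2 hm) h

theorem rh2_neg (J : LieH b K L D H) {β : ι} (hβ : β ∈ Pos b) (t : K) : J.x β (-t) = (J.x β t)⁻¹ := by
  have h := J.x_add β hβ 0 0
  rw [add_zero] at h
  have h0 : J.x β 0 = 1 := mul_eq_left.1 h.symm
  rw [eq_inv_iff_mul_eq_one, ← J.x_add β hβ, neg_add_cancel, h0]

theorem rh2_rs (J : LieH b K L D H) {β : ι} (hβ : β ∈ Pos b) {k : ℕ} (hk : b.height β = k) (t : K) :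
    Rs b k (J.x β t).1.1 := by
  intro r c hrc
  rcases rh2_entry J hβ t r c with h | ⟨k', hk', hw, -, -⟩
  · exact h
  · have h2 : (1 : ℤ) ≤ k' := by exact_mod_cast hk'
    rw [hk] at hw
    have h3 : (0 : ℤ) ≤ k := Int.natCast_nonneg k
    nlinarith

/-- PROOF. `rh2_entry` for `t` and `-t` (`rh2_neg`). -/
theorem rh2_FK (J : LieH b K L D H) {β : ι} (hβ : β ∈ Pos b) {k : ℕ} (hk : b.height β = k) (t : K) : J.x β t ∈ FK b L k := by
  refine ⟨rh2_rs J hβ hk t, ?_⟩
  rw [← rh2_neg J hβ]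
  exact rh2_rs J hβ hk (-t)

/-- PROOF. As `r5_dgk`. -/
theorem rh2_dgk (J : LieH b K L D H) {β : ι} (hβ : β ∈ Pos b) {k : ℕ} (hk : b.height β = k) (t : K) : dgk b k (J.x β t).1.1 = algebraMap K L t • J.Y β := by
  have hpos : (0 : ℤ) < k := by
    rw [← hk]
    exact (Finset.mem_filter.1 hβ).2
  have hE : ∀ r c, (algebraMap K L t • J.Y β) r c = algebraMap K L t * ((J.DP β 1 r c : 𝓞 L) : L) := by
    intro r c
    rw [Matrix.smul_apply, smul_eq_mul]
    rfl
  ext r c
  rw [hE]
  unfold dgk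
  rw [Matrix.of_apply]
  split_ifs with h
  · rw [rh2_val J hβ]
    have hz : ∀ k', k' ≠ 1 → J.DP β k' r c = 0 := by
      intro k' hk'
      by_contra h1
      have h2 := rh1_ht J hβ h1
      rw [hk, h] at h2
      have h3 : (k : ℤ) * 1 = k * k' := by linarith [mul_comm (k : ℤ) (k' : ℤ)]
      have h4 := mul_left_cancel₀ hpos.ne' h3
      exact hk' (by exact_mod_cast h4.symm)
    by_cases hm : 1 < J.m
    · rw [Finset.sum_eq_single 1]
      · rw [pow_one]
      · intro k' _ hk'
        rw [hz k' hk', rh2_c0, mul_zero]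
      · intro h1
        exact absurd (Finset.mem_range.2 hm) h1
    · have h1 : J.DP β 1 r c = 0 := by
        rw [J.dpm β 1 (by omega), Matrix.zero_apply]
      rw [h1, rh2_c0, mul_zero]
      refine Finset.sum_eq_zero fun k' hk' => ?_
      have h2 := Finset.mem_range.1 hk'
      rw [hz k' (by omega), rh2_c0, mul_zero]
  · have h1 : J.DP β 1 r c = 0 := by
      by_contra h1
      have h2 := rh1_ht J hβ h1
      rw [hk] at h2
      push_cast at h2
      exact h (by linarith)
    rw [h1, rh2_c0, mul_zero]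

end

end Pool.Agent.Lib.L1S
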