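import Pool.Agent.Lib.L1S.RH0
import Pool.Agent.Lib.L1S.RH2
import Pool.Agent.Lib.L1S.RH3B
import Pool.Agent.Lib.L1S.R1A

/-!
# L1S, module R_H (arithmetic of quasi-split groups), RH5: the elements `x_β(t)` in `Γ` and `h⁻¹ Γ h`
-/

namespace Pool.Agent.Lib.L1S

open MeasureTheory Matrix NumberField IsDedekindDomain Pool.Agent.Lib.H89N Pool.Agent.Lib.H33W
open scoped ENNReal Pointwise

noncomputable section

set_option linter.unusedSectionVars false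

variable {ι M N : Type} [Fintype ι] [DecidableEq ι] [AddCommGroup M] [Module ℚ M] [AddCommGroup N] [Module ℚ N]
  {P : RootPairing ι ℚ M N} [P.IsCrystallographic] [P.IsRootSystem] {b : P.Base} {K L : Type} [Field K] [NumberField K] [Field L] [NumberField L] [Algebra K L]
  {D : Set (Equiv.Perm ι)} {H : Subgroup (GK b L)}

theorem rh5_height {β : ι} (hβ : β ∈ Pos b) : 0 < b.height β := (Finset.mem_filter.1 hβ).2

theorem rh5_ht {β : ι} (hβ : β ∈ Pos b) {i j : I b} {k : ℕ} (hk : 1 ≤ k)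
    (h : ht b i = ht b j + k * b.height β) : ht b j < ht b i := by
  have h1 : (0 : ℤ) < k * b.height β := mul_pos (by exact_mod_cast hk) (rh5_height hβ)
  omega

theorem rh5_in {𝔫 : Ideal (𝓞 K)} {t : K} (ht : Pool.Agent.Lib.L1S.InI 𝔫 t) {k : ℕ} (hk : 1 ≤ k)
    (z : 𝓞 L) : Pool.Agent.Lib.L1S.InI (up L 𝔫) (algebraMap K L t ^ k * (z : L)) := by
  obtain ⟨y, hy, rfl⟩ := ht
  refine ⟨algebraMap (𝓞 K) (𝓞 L) y ^ k * z, Ideal.mul_mem_right _ _ (Ideal.pow_mem_of_mem _ (Ideal.mem_map_of_mem _ hy) k hk), ?_⟩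
  push_cast
  rfl

theorem rh5_key (J : LieH b K L D H) {β : ι} (hβ : β ∈ Pos b) {𝔫 : Ideal (𝓞 K)}
    (v : HeightOneSpectrum (𝓞 K)) (r s : ℕ) {t : K} (ht' : Pool.Agent.Lib.L1S.InI 𝔫 t) (i j : I b) :
    Pool.Agent.Lib.L1S.InI (up L 𝔫) (((J.x β t).1.1 - 1) i j) ∧
      (ht b i < ht b j → Pool.Agent.Lib.L1S.InI (up L (v.asIdeal ^ (r + s))) ((J.x β t).1.1 i j)) ∧
      (ht b i = ht b j → Pool.Agent.Lib.L1S.InI (up L (v.asIdeal ^ r)) (((J.x β t).1.1 - 1) i j)) := by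
  rcases rh2_entry J hβ t i j with h1 | ⟨k, hk, hwt, _, hent⟩
  · have h0 : ((J.x β t).1.1 - 1) i j = 0 := by rw [Matrix.sub_apply, h1, sub_self]
    rw [h0]
    refine ⟨InI.zero _, fun h => ?_, fun _ => InI.zero _⟩
    have hij : i ≠ j := by
      rintro rfl
      exact absurd h (lt_irrefl _)
    rw [h1, Matrix.one_apply_ne hij]
    exact InI.zero _
  · have hlt := rh5_ht hβ hk hwt
    have hij : i ≠ j := by
      rintro rfl
      exact absurd hlt (lt_irrefl _)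
    refine ⟨?_, fun h => absurd h (not_lt.2 hlt.le), fun h => absurd h hlt.ne'⟩
    rw [Matrix.sub_apply, Matrix.one_apply_ne hij, sub_zero, hent]
    exact rh5_in ht' hk _

theorem rh5_neg {𝔫 : Ideal (𝓞 K)} {t : K} (ht : Pool.Agent.Lib.L1S.InI 𝔫 t) :
    Pool.Agent.Lib.L1S.InI 𝔫 (-t) := by
  obtain ⟨y, hy, rfl⟩ := ht
  exact ⟨-y, 𝔫.neg_mem hy, by push_cast; rfl⟩

theorem rh5_zero (v : HeightOneSpectrum (𝓞 K)) : IntV v (0 : L) := rh3_top (InI.zero _)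

theorem rh5_cj (J : LieH b K L D H) {β : ι} (hβ : β ∈ Pos b) {v : HeightOneSpectrum (𝓞 K)} {r s : ℕ}
    {c : b.support → ℤ} (hc : InvCD b D c) {π : K} (hπ : v.valuation K π = WithZero.exp (-1 : ℤ)) {t : K}
    (hv : v.valuation K t ≤ WithZero.exp (-pr b c (Sum.inr β))) :
    IwV b v r s π (cj b c (algebraMap K L π) (J.x β t).1.1) := by
  have hπ0 : π ≠ 0 := by
    rintro rfl
    rw [map_zero] at hπ
    exact WithZero.exp_ne_zero hπ.symm
  have hπL : algebraMap K L π ≠ 0 := by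
    rw [Ne, map_eq_zero]
    exact hπ0
  intro i j
  rcases rh2_entry J hβ t i j with h1 | ⟨k, hk, hwt, hpr, hent⟩
  · by_cases hij : i = j
    · subst hij
      have h2 : cj b c (algebraMap K L π) (J.x β t).1.1 i i = 1 := by
        rw [r3_cj hπL, h1, sub_self, zpow_zero, Matrix.one_apply_eq, one_mul]
      refine ⟨by rw [h2]; exact rh3_top ⟨1, Submodule.mem_top, by simp⟩, fun h => absurd h (lt_irrefl _), fun _ => ?_⟩
      rw [Matrix.sub_apply, h2, Matrix.one_apply_eq, sub_self, mul_zero]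
      exact rh5_zero v
    · have h2 : cj b c (algebraMap K L π) (J.x β t).1.1 i j = 0 := by
        rw [r3_cj hπL, h1, Matrix.one_apply_ne hij, mul_zero]
      refine ⟨by rw [h2]; exact rh5_zero v, fun _ => by rw [h2, mul_zero]; exact rh5_zero v,
        fun _ => ?_⟩
      rw [Matrix.sub_apply, h2, Matrix.one_apply_ne hij, sub_self, mul_zero]
      exact rh5_zero v
  · have hlt := rh5_ht hβ hk hwt
    refine ⟨?_, fun h => absurd h (not_lt.2 hlt.le), fun h => absurd h hlt.ne'⟩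
    rw [r3_cj hπL, hent, hpr c hc]
    have e1 : pr b c j - (pr b c j + k * pr b c (Sum.inr β)) = (-pr b c (Sum.inr β)) * (k : ℤ) := by ring
    have e2 : algebraMap K L π ^ (pr b c j - (pr b c j + k * pr b c (Sum.inr β))) * (algebraMap K L t ^ k * ((J.DP β k i j : 𝓞 L) : L))
        = algebraMap K L ((π ^ (-pr b c (Sum.inr β)) * t) ^ k) * ((J.DP β k i j : 𝓞 L) : L) := by
      rw [e1, _root_.zpow_mul, zpow_natCast, map_pow, map_mul, map_zpow₀, mul_pow, mul_assoc]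
    rw [e2]
    refine rh3_mul (rh3_K ?_) (rh3_top ⟨_, Submodule.mem_top, rfl⟩)
    rw [map_pow, map_mul, r3_val_zpow hπ, neg_neg]
    refine pow_le_one' ?_ k
    calc WithZero.exp (pr b c (Sum.inr β)) * v.valuation K t
        ≤ WithZero.exp (pr b c (Sum.inr β)) * WithZero.exp (-pr b c (Sum.inr β)) := mul_le_mul_right hv _
      _ = 1 := by rw [← WithZero.exp_add, add_neg_cancel, WithZero.exp_zero]

/-- PROOF. As `r5_GamK` (Lib/L1S/R5B.lean): `rh2_entry`; `t ∈ 𝔫`, `k ≥ 1`: `t ^ k y ∈ 𝔫 𝓞 L`. -/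
theorem rh5_GamL (J : LieH b K L D H) {β : ι} (hβ : β ∈ Pos b) {𝔫 : Ideal (𝓞 K)} (v : HeightOneSpectrum (𝓞 K)) (r s : ℕ) {t : K} (ht : Pool.Agent.Lib.L1S.InI 𝔫 t) : J.x β t ∈ GamL b L 𝔫 v r s := by
  intro i j
  refine ⟨rh5_key J hβ v r s ht i j, ?_⟩
  rw [← rh2_neg J hβ t]
  exact rh5_key J hβ v r s (rh5_neg ht) i j

/-- PROOF. As `r5_Gh` (Lib/L1S/R5B.lean): the entries of `cj x_β(±t)` off the diagonal are `(π ^ (-pr β) (±t)) ^ k` times an element of `𝓞 L` (`rh2_entry`, `r3_cj`), `v(π ^ (-pr β) t) ≤ 1` (`r2_mul`), `rh3_K`, `rh3_mul`, `rh3_top`. `pr β ≥ 0`: `r1_pr_pos`. -/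
theorem rh5_GhL (J : LieH b K L D H) {β : ι} (hβ : β ∈ Pos b) {𝔫 : Ideal (𝓞 K)} {v : HeightOneSpectrum (𝓞 K)} {r s : ℕ} {c : b.support → ℤ} (hc : InvCD b D c) {π : K} {h : GK b L} (hL : LvL b 𝔫 v r s c π h)
    {t : K} (ht : Pool.Agent.Lib.L1S.InI (𝔫 * v.asIdeal ^ (pr b c (Sum.inr β)).toNat) t) : J.x β t ∈ GhL b 𝔫 v r s h := by
  have hpos : 0 ≤ pr b c (Sum.inr β) := r1_pr_pos hL.dom hβ
  obtain ⟨ht1, ht2⟩ := (r2_mul hL.nv).1 ht
  rw [Int.toNat_of_nonneg hpos] at ht2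
  have hmem := rh5_GamL J hβ v r s ht1
  rw [rh3_GhL hL]
  refine ⟨⟨0, fun i j => ⟨rh3_den 0 (hmem i j).1.1, rh3_den 0 (hmem i j).2.1⟩⟩,
    rh5_cj J hβ hc hL.hπ ht2, ?_⟩
  rw [← rh2_neg J hβ t]
  refine rh5_cj J hβ hc hL.hπ ?_
  rw [Valuation.map_neg]
  exact ht2

end

end Pool.Agent.Lib.L1S
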