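import Pool.Agent.Lib.L1S.RH0
import Pool.Agent.Lib.L1S.RH5
import Pool.Agent.Lib.L1S.RH2

/-!
# L1S, module R_H (arithmetic of quasi-split groups), RH5D: products of the elements `x_β(t)`
-/

namespace Pool.Agent.Lib.L1S

open MeasureTheory Matrix NumberField IsDedekindDomain Pool.Agent.Lib.H89N Pool.Agent.Lib.H33W
open scoped ENNReal Pointwise

noncomputable section

set_option linter.unusedSectionVars false

variable {ι M N : Type} [Fintype ι] [DecidableEq ι] [AddCommGroup M] [Module ℚ M] [AddCommGroup N] [Module ℚ N]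
  {P : RootPairing ι ℚ M N} [P.IsCrystallographic] [P.IsRootSystem] {b : P.Base} {K L : Type} [Field K] [NumberField K] [Field L] [NumberField L] [Algebra K L]
  {D : Set (Equiv.Perm ι)} {H : Subgroup (GK b L)}

/-- The product of the `x_β(t_β)` over the positive roots `β` of height `k`. -/
def LieH.prK (J : LieH b K L D H) (k : ℕ) (t : ι → K) : GK b L := ((Posk b k).toList.map fun β => J.x β (t β)).prod

theorem rh5d_Pos {k : ℕ} {β : ι} (hβ : β ∈ Posk b k) : β ∈ Pos b ∧ b.height β = k := by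
  obtain ⟨-, h1, h2⟩ := Finset.mem_filter.1 hβ
  exact ⟨Finset.mem_filter.2 ⟨Finset.mem_univ _, h1⟩, h2⟩

theorem rh5d_mem (J : LieH b K L D H) (k : ℕ) (t : ι → K) (S : Subgroup (GK b L))
    (h : ∀ β ∈ Posk b k, J.x β (t β) ∈ S) : J.prK k t ∈ S := by
  unfold LieH.prK
  refine Subgroup.list_prod_mem S fun x hx => ?_
  obtain ⟨β, hβ, rfl⟩ := List.mem_map.1 hx
  exact h β (Finset.mem_toList.1 hβ)

theorem rh5_prK_H (J : LieH b K L D H) (k : ℕ) (t : ι → K) : J.prK k t ∈ H :=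
  rh5d_mem J k t _ fun _ hβ => J.x_mem _ (rh5d_Pos hβ).1 _

/-- PROOF. `rh2_FK`, `Subgroup.list_prod_mem`. -/
theorem rh5_prK_FK (J : LieH b K L D H) (k : ℕ) (t : ι → K) : J.prK k t ∈ FK b L k :=
  rh5d_mem J k t _ fun _ hβ => rh2_FK J (rh5d_Pos hβ).1 (rh5d_Pos hβ).2 _

theorem rh5d_list (J : LieH b K L D H) {k : ℕ} (hk : 1 ≤ k) (t : ι → K) (l : List ι) (hl : ∀ β ∈ l, β ∈ Posk b k) :
    (l.map fun β => J.x β (t β)).prod ∈ FK b L k ∧
      dgk b k (l.map fun β => J.x β (t β)).prod.1.1 = (l.map fun β => algebraMap K L (t β) • J.Y β).sum := by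
  induction l with
  | nil =>
    rw [List.map_nil, List.map_nil, List.prod_nil, List.sum_nil]
    exact ⟨one_mem _, dgk_one hk⟩
  | cons β l ih =>
    obtain ⟨h1, h2⟩ := ih fun γ hγ => hl γ (List.mem_cons_of_mem _ hγ)
    have hβ := rh5d_Pos (hl β List.mem_cons_self)
    have h3 : J.x β (t β) ∈ FK b L k := rh2_FK J hβ.1 hβ.2 _
    rw [List.map_cons, List.map_cons, List.prod_cons, List.sum_cons]
    refine ⟨mul_mem h3 h1, ?_⟩
    have e : (J.x β (t β) * (l.map fun β => J.x β (t β)).prod).1.1 =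
        (J.x β (t β)).1.1 * (l.map fun β => J.x β (t β)).prod.1.1 := rfl
    rw [e, dgk_mul hk h3.1 h1.1, h2, rh2_dgk J hβ.1 hβ.2]

/-- PROOF. Induction over the list: `dgk_mul`, `rh2_dgk`, `rh2_FK`. -/
theorem rh5_prK_dgk (J : LieH b K L D H) {k : ℕ} (hk : 1 ≤ k) (t : ι → K) : dgk b k (J.prK k t).1.1 = ∑ β ∈ Posk b k, algebraMap K L (t β) • J.Y β := by
  have h := (rh5d_list J hk t (Posk b k).toList fun β hβ => Finset.mem_toList.1 hβ).2
  rw [Finset.sum_map_toList] at h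
  exact h

theorem rh5_prK_GamL (J : LieH b K L D H) (k : ℕ) {𝔫 : Ideal (𝓞 K)} (v : HeightOneSpectrum (𝓞 K)) (r s : ℕ) {t : ι → K} (ht : ∀ β, Pool.Agent.Lib.L1S.InI 𝔫 (t β)) : J.prK k t ∈ GamL b L 𝔫 v r s :=
  rh5d_mem J k t _ fun β hβ => rh5_GamL J (rh5d_Pos hβ).1 v r s (ht β)

theorem rh5_prK_GhL (J : LieH b K L D H) (k : ℕ) {𝔫 : Ideal (𝓞 K)} {v : HeightOneSpectrum (𝓞 K)} {r s : ℕ} {c : b.support → ℤ} (hc : InvCD b D c) {π : K} {h : GK b L} (hL : LvL b 𝔫 v r s c π h)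
    {t : ι → K} (ht : ∀ β, Pool.Agent.Lib.L1S.InI (𝔫 * v.asIdeal ^ (pr b c (Sum.inr β)).toNat) (t β)) : J.prK k t ∈ GhL b 𝔫 v r s h :=
  rh5d_mem J k t _ fun β hβ => rh5_GhL J (rh5d_Pos hβ).1 hc hL (ht β)

end

end Pool.Agent.Lib.L1S
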