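import Pool.Agent.Lib.L1S.RH0
import Pool.Agent.Lib.L1S.R9A

/-!
# L1S, module R_H (arithmetic of quasi-split groups), RH9: congruence subgroups in `h⁻¹ Γ h`
-/

namespace Pool.Agent.Lib.L1S

open MeasureTheory Matrix NumberField IsDedekindDomain Pool.Agent.Lib.H89N Pool.Agent.Lib.H33W
open scoped ENNReal Pointwise

noncomputable section

set_option linter.unusedSectionVars false

variable {ι M N : Type} [Fintype ι] [DecidableEq ι] [AddCommGroup M] [Module ℚ M] [AddCommGroup N] [Module ℚ N]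
  {P : RootPairing ι ℚ M N} [P.IsCrystallographic] [P.IsRootSystem] {b : P.Base} {K L : Type} [Field K] [NumberField K] [Field L] [NumberField L] [Algebra K L]
  {D : Set (Equiv.Perm ι)} {H : Subgroup (GK b L)}

/-- A common denominator which is a natural number. -/
theorem rh9_den (k : GK b L) : ∃ n : ℕ, n ≠ 0 ∧ ∀ i j, Pool.Agent.Lib.L1S.InI ⊤ ((n : L) * k.1.1 i j) ∧ Pool.Agent.Lib.L1S.InI ⊤ ((n : L) * k⁻¹.1.1 i j) := by
  obtain ⟨d, hd, hk⟩ := r9_den k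
  have h1 : ((Ideal.absNorm (Ideal.span {d} : Ideal (𝓞 L)) : ℕ) : 𝓞 L) ∈ Ideal.span {d} := Ideal.absNorm_mem _
  obtain ⟨e, he⟩ := Ideal.mem_span_singleton'.1 h1
  refine ⟨Ideal.absNorm (Ideal.span {d} : Ideal (𝓞 L)), ?_, fun i j => ?_⟩
  · rw [Ne, Ideal.absNorm_eq_zero_iff, Ideal.span_singleton_eq_bot]
    exact hd
  · have h2 : ((Ideal.absNorm (Ideal.span {d} : Ideal (𝓞 L)) : ℕ) : L) = (e : L) * (d : L) := by
      have h3 := congrArg (fun x : 𝓞 L => (x : L)) he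
      simp only [map_mul, map_natCast] at h3
      exact h3.symm
    rw [h2, mul_assoc, mul_assoc]
    have h4 : Pool.Agent.Lib.L1S.InI ⊤ (e : L) := ⟨e, Submodule.mem_top, rfl⟩
    exact ⟨h4.mul (hk i j).1, h4.mul (hk i j).2⟩

/-- PROOF. As `r9_cong` (Lib/L1S/R9A.lean): `r9_den` for `k` (over `L`) gives `d ∈ 𝓞 L`, `d ≠ 0`; replace it by a nonzero integer `n` divisible by `d` (the norm: `Algebra.norm ℤ d ∈ (d)`, `Ideal.absNorm_mem`), `𝔞 = (n ^ 2) * (𝔫 * v ^ (r + s))`; `up` of the product is the product of the ideals `up` (`Ideal.map_mul`). -/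
theorem rh9_cong {𝔫 : Ideal (𝓞 K)} (h0 : 𝔫 ≠ ⊥) (v : HeightOneSpectrum (𝓞 K)) (r s : ℕ) (k : GK b L) : ∃ 𝔞 : Ideal (𝓞 K), 𝔞 ≠ ⊥ ∧ GamL b L 𝔞 v 0 0 ≤ GhL b 𝔫 v r s k := by
  classical
  obtain ⟨n, hn, hk⟩ := rh9_den k
  have hv : v.asIdeal ^ (r + s) ≠ ⊥ := pow_ne_zero _ v.ne_bot
  have m1 : up L (𝔫 * v.asIdeal ^ (r + s)) ≤ up L 𝔫 := up_mono L Ideal.mul_le_left
  have m2 : up L (𝔫 * v.asIdeal ^ (r + s)) ≤ up L (v.asIdeal ^ (r + s)) := up_mono L Ideal.mul_le_right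
  have m3 : up L (v.asIdeal ^ (r + s)) ≤ up L (v.asIdeal ^ r) := up_mono L (Ideal.pow_le_pow_right (Nat.le_add_right r s))
  refine ⟨Ideal.span {(n : 𝓞 K) ^ 2} * (𝔫 * v.asIdeal ^ (r + s)), ?_, ?_⟩
  · have h1 : Ideal.span {(n : 𝓞 K) ^ 2} ≠ ⊥ := by
      rw [Ne, Ideal.span_singleton_eq_bot]
      exact pow_ne_zero 2 (Nat.cast_ne_zero.2 hn)
    exact mul_ne_zero h1 (mul_ne_zero h0 hv)
  have hup : up L (Ideal.span {(n : 𝓞 K) ^ 2} * (𝔫 * v.asIdeal ^ (r + s))) =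
      Ideal.span {(n : 𝓞 L) ^ 2} * up L (𝔫 * v.asIdeal ^ (r + s)) := by
    unfold up
    rw [Ideal.map_mul, Ideal.map_span, Set.image_singleton, map_pow, map_natCast]
  have key : ∀ X : Matrix (I b) (I b) L, (∀ i j, InI (up L (Ideal.span {(n : 𝓞 K) ^ 2} * (𝔫 * v.asIdeal ^ (r + s)))) (X i j)) →
      ∀ i j, InI (up L (𝔫 * v.asIdeal ^ (r + s))) ((k.1.1 * X * k⁻¹.1.1) i j) := by
    intro X hX i j
    rw [Matrix.mul_apply]
    refine InI.sum _ _ fun c _ => ?_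
    rw [Matrix.mul_apply, Finset.sum_mul]
    refine InI.sum _ _ fun a _ => ?_
    obtain ⟨y, hy, hxy⟩ := hX a c
    rw [hup] at hy
    obtain ⟨z, hz, hzy⟩ := Ideal.mem_span_singleton_mul.1 hy
    have h1 : k.1.1 i a * X a c * k⁻¹.1.1 c j = ((n : L) * k.1.1 i a) * (z : L) * ((n : L) * k⁻¹.1.1 c j) := by
      rw [← hxy, ← hzy]
      push_cast
      ring
    rw [h1]
    exact ((hk i a).1.mul' (show InI (up L (𝔫 * v.asIdeal ^ (r + s))) (z : L) from ⟨z, hz, rfl⟩)).mul (hk c j).2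
  have hone : k.1.1 * k⁻¹.1.1 = 1 := by
    have h1 : k.1.1 * k⁻¹.1.1 = (k * k⁻¹).1.1 := rfl
    rw [h1, mul_inv_cancel]
    rfl
  have conj : ∀ Y : Matrix (I b) (I b) L, k.1.1 * Y * k⁻¹.1.1 - 1 = k.1.1 * (Y - 1) * k⁻¹.1.1 := by
    intro Y
    rw [mul_sub, sub_mul, mul_one, hone]
  have fin : ∀ Y : Matrix (I b) (I b) L, (∀ i j, InI (up L (Ideal.span {(n : 𝓞 K) ^ 2} * (𝔫 * v.asIdeal ^ (r + s)))) ((Y - 1) i j)) →
      ∀ i j, InI (up L 𝔫) ((k.1.1 * Y * k⁻¹.1.1 - 1) i j) ∧ (ht b i < ht b j → InI (up L (v.asIdeal ^ (r + s))) ((k.1.1 * Y * k⁻¹.1.1) i j)) ∧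
        (ht b i = ht b j → InI (up L (v.asIdeal ^ r)) ((k.1.1 * Y * k⁻¹.1.1 - 1) i j)) := by
    intro Y hY i j
    have h1 := key _ hY i j
    rw [← conj] at h1
    refine ⟨?_, ?_, ?_⟩
    · obtain ⟨y, hy, e⟩ := h1
      exact ⟨y, m1 hy, e⟩
    · intro hij
      have hne : i ≠ j := by
        rintro rfl
        exact absurd hij (lt_irrefl _)
      obtain ⟨y, hy, e⟩ := h1
      refine ⟨y, m2 hy, ?_⟩
      rw [e, Matrix.sub_apply, Matrix.one_apply_ne hne, sub_zero]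
    · intro _
      obtain ⟨y, hy, e⟩ := h1
      exact ⟨y, m3 (m2 hy), e⟩
  intro γ hγ
  show k * γ * k⁻¹ ∈ GamL b L 𝔫 v r s
  intro i j
  have e1 : (k * γ * k⁻¹).1.1 = k.1.1 * γ.1.1 * k⁻¹.1.1 := rfl
  have e2 : (k * γ * k⁻¹)⁻¹.1.1 = k.1.1 * γ⁻¹.1.1 * k⁻¹.1.1 := by
    have h1 : (k * γ * k⁻¹)⁻¹ = k * γ⁻¹ * k⁻¹ := by group
    rw [h1]
    rfl
  rw [e1, e2]
  exact ⟨fin _ (fun i j => (hγ i j).1.1) i j, fin _ (fun i j => (hγ i j).2.1) i j⟩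

end

end Pool.Agent.Lib.L1S
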