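import Pool.Agent.Lib.L1S.RH0
import Pool.Agent.Lib.L1S.RH10A
import Pool.Agent.Lib.L1S.RH5C
import Pool.Agent.Lib.L1S.RH5D
import Pool.Agent.Lib.L1S.RH2E
import Pool.Agent.Lib.L1S.RH9

/-!
# L1S, module R_H (arithmetic of quasi-split groups), RH10: cocompactness
-/

namespace Pool.Agent.Lib.L1S

open MeasureTheory Matrix NumberField IsDedekindDomain Pool.Agent.Lib.H89N Pool.Agent.Lib.H33W
open scoped ENNReal Pointwise

noncomputable section

set_option linter.unusedSectionVars false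

variable {ι M N : Type} [Fintype ι] [DecidableEq ι] [AddCommGroup M] [Module ℚ M] [AddCommGroup N] [Module ℚ N]
  {P : RootPairing ι ℚ M N} [P.IsCrystallographic] [P.IsRootSystem] {b : P.Base} {K L : Type} [Field K] [NumberField K] [Field L] [NumberField L] [Algebra K L]
  {D : Set (Equiv.Perm ι)} {H : Subgroup (GK b L)}

theorem rh10_Y (J : LieH b K L D H) (β : ι) : (J.Y β).map (mixedEmbedding L) = J.YE β := by
  refine Matrix.ext fun r c => ?_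
  unfold LieH.Y LieH.YE
  rw [Matrix.map_apply, Matrix.map_apply, Matrix.map_apply]

/-- `kUH γ` and `kU γ` have the same matrix. -/
theorem rh10_kU {δ : HUH H} (h : (δ : H).1 ∈ HU b L) : toUR H (kUH H δ) = kU b L ⟨(δ : H).1, h⟩ := rfl

theorem rh10_mem_HU (δ : HUH H) : (δ : H).1 ∈ HU b L := δ.2

/-- PROOF. As `r10_E` (Lib/L1S/R10.lean). -/
theorem rh10_map (J : LieH b K L D H) (s : Finset ι) (t : ι → K) : (∑ β ∈ s, algebraMap K L (t β) • J.Y β).map (mixedEmbedding L) = ∑ β ∈ s, (kr K L (t β) : EE L) • J.YE β := by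
  refine Matrix.ext fun r c => ?_
  rw [Matrix.map_apply, Matrix.sum_apply, Matrix.sum_apply, map_sum]
  refine Finset.sum_congr rfl fun β _ => ?_
  rw [Matrix.smul_apply, Matrix.smul_apply, smul_eq_mul, smul_eq_mul, map_mul, ← rh10_Y J β, Matrix.map_apply]
  rfl

/-- PROOF. As `r10_step` (Lib/L1S/R10.lean; `J.degR` gives the coefficients `y_β ∈ KR`; `γ = J.prK k t ∈ H ⊓ HU ⊓ GamL 𝔞`, `u' = kUH γ * u`, `w = J.prE k (-s)`, `r1_succR` for `toUR u`, the entries of `kUH γ` are the images of those of `γ`: `r1_dgk`, `r1_kU` for `γ` as an element of `HU b L`). -/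
theorem rh10_step (J : LieH b K L D H) {𝔞 : Ideal (𝓞 K)} (h𝔞 : 𝔞 ≠ ⊥) (v : HeightOneSpectrum (𝓞 K)) {k : ℕ} (hk : 1 ≤ k)
    (h : ∃ C' : Set (UHR H), IsCompact C' ∧ ∀ u ∈ FH H (k + 1), ∃ γ : HUH H, (γ : H) ∈ GamQ H 𝔞 v 0 0 ∧ kUH H γ * u ∈ C') :
    ∃ C : Set (UHR H), IsCompact C ∧ ∀ u ∈ FH H k, ∃ γ : HUH H, (γ : H) ∈ GamQ H 𝔞 v 0 0 ∧ kUH H γ * u ∈ C := by
  obtain ⟨C', hC', h'⟩ := h
  obtain ⟨B, hB, hB'⟩ := rh10_box (L := L) h𝔞
  have hW : IsCompact ((fun s : ι → KR K L => J.prE k (fun β => -s β)) '' (Set.pi Set.univ fun _ => B)) :=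
    (isCompact_univ_pi fun _ => hB).image ((rh2_prE_cont J k).comp (continuous_pi fun β => (continuous_apply β).neg))
  refine ⟨C' * ((fun s : ι → KR K L => J.prE k (fun β => -s β)) '' (Set.pi Set.univ fun _ => B))⁻¹, hC'.mul hW.inv, ?_⟩
  intro u hu
  have hu1 : toUR H u ∈ FR b L k := hu
  obtain ⟨y, hy⟩ := J.degR (toUR H u) u.1.2 k hk hu1
  choose t ht using fun β => hB' (y β)
  have hγ1 : J.prK k t ∈ GamL b L 𝔞 v 0 0 := rh5_prK_GamL J k v 0 0 fun β => (ht β).1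
  have hγ2 : J.prK k t ∈ FK b L k := rh5_prK_FK J k t
  have hγ0 : J.prK k t ∈ H := rh5_prK_H J k t
  have hγ3 : J.prK k t ∈ HU b L := by
    rw [r1_HU]
    exact r1_FK_mono hk hγ2
  let γ : HUH H := ⟨⟨J.prK k t, hγ0⟩, hγ3⟩
  have hγ4 : toUR H (kUH H γ) ∈ FR b L k := (r1_kU (⟨J.prK k t, hγ3⟩ : HU b L)).2 hγ2
  have hu' : toUR H (kUH H γ * u) ∈ FR b L k := by
    rw [map_mul]
    exact mul_mem hγ4 hu1
  have hd : dgk b k (toUR H (kUH H γ * u)).1.1.1 = ∑ β ∈ Posk b k, ((kr K L (t β) + y β : KR K L) : EE L) • J.YE β := by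
    have e : (toUR H (kUH H γ * u)).1.1.1 = (kU b L ⟨J.prK k t, hγ3⟩).1.1.1 * (toUR H u).1.1.1 := rfl
    have e2 : dgk b k (toUR H u).1.1.1 = ∑ β ∈ Posk b k, (y β : EE L) • J.YE β := hy
    have hγ6 : Rs b k (kU b L ⟨J.prK k t, hγ3⟩).1.1.1 := hγ4.1
    rw [e, dgk_mul hk hγ6 hu1.1, r1_dgk, e2]
    have e3 : dgk b k ((⟨J.prK k t, hγ3⟩ : HU b L) : GK b L).1.1 = ∑ β ∈ Posk b k, algebraMap K L (t β) • J.Y β := rh5_prK_dgk J hk t
    rw [e3, rh10_map, ← Finset.sum_add_distrib]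
    exact Finset.sum_congr rfl fun β _ => (add_smul _ _ _).symm
  have hw1 : toUR H (J.prE k (fun β => -(kr K L (t β) + y β))) ∈ FR b L k := rh2_prE_FH J k _
  have hw : kUH H γ * u * J.prE k (fun β => -(kr K L (t β) + y β)) ∈ FH H (k + 1) := by
    show toUR H (kUH H γ * u * J.prE k (fun β => -(kr K L (t β) + y β))) ∈ FR b L (k + 1)
    rw [r1_succR hk, map_mul]
    refine ⟨mul_mem hu' hw1, ?_⟩
    have e : (toUR H (kUH H γ * u) * toUR H (J.prE k (fun β => -(kr K L (t β) + y β)))).1.1.1 =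
        (toUR H (kUH H γ * u)).1.1.1 * (toUR H (J.prE k (fun β => -(kr K L (t β) + y β)))).1.1.1 := rfl
    have e2 : dgk b k (toUR H (J.prE k (fun β => -(kr K L (t β) + y β)))).1.1.1 = ∑ β ∈ Posk b k, ((-(kr K L (t β) + y β) : KR K L) : EE L) • J.YE β := rh2_prE_dgk J hk _
    rw [e, dgk_mul hk hu'.1 hw1.1, hd, e2, ← Finset.sum_add_distrib]
    refine Finset.sum_eq_zero fun β _ => ?_
    rw [← add_smul, ← Submodule.coe_add, add_neg_cancel, Submodule.coe_zero, zero_smul]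
  obtain ⟨δ, hδ1, hδ2⟩ := h' _ hw
  have hγ5 : (γ : H) ∈ GamQ H 𝔞 v 0 0 := hγ1
  refine ⟨δ * γ, mul_mem hδ1 hγ5, ?_⟩
  rw [map_mul]
  refine Set.mem_mul.2 ⟨_, hδ2, (J.prE k (fun β => -(kr K L (t β) + y β)))⁻¹, Set.inv_mem_inv.2 ⟨fun β => kr K L (t β) + y β, fun β _ => (ht β).2, rfl⟩, ?_⟩
  group

/-- PROOF. As `r10_cc`: `rh9_cong` (for `h.1`; `GhQ` is `GhL` intersected with `H`), downward induction over `k`, `FH (HM b + 1) = ⊥`, `FH 1 = ⊤` (`r1_FR_bot`, `r1_FR_top`, `toUR` injective). -/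
theorem rh10_cc (J : LieH b K L D H) {𝔫 : Ideal (𝓞 K)} (h0 : 𝔫 ≠ ⊥) (v : HeightOneSpectrum (𝓞 K)) (r s : ℕ) (h : H) :
    ∃ KT : Set (UHR H), IsCompact KT ∧ ∀ t, ∃ δ : HUH H, (δ : H) ∈ GhQ H 𝔫 v r s h ∧ ∃ s ∈ KT, t = kUH H δ * s := by
  obtain ⟨𝔞, h𝔞, hle⟩ := rh9_cong h0 v r s h.1
  have hinj : ∀ u : UHR H, toUR H u = 1 → u = 1 := by
    intro u hu
    have h1 : u.1.1 = 1 := congrArg Subtype.val hu
    exact Subtype.ext (Subtype.ext h1)
  have key : ∀ j : ℕ, j ≤ HM b → ∃ C : Set (UHR H), IsCompact C ∧ ∀ u ∈ FH H (HM b + 1 - j), ∃ γ : HUH H, (γ : H) ∈ GamQ H 𝔞 v 0 0 ∧ kUH H γ * u ∈ C := by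
    intro j
    induction j with
    | zero =>
      intro _
      refine ⟨{1}, isCompact_singleton, fun u hu => ⟨1, one_mem _, ?_⟩⟩
      have hu1 : toUR H u ∈ FR b L (HM b + 1) := hu
      rw [r1_FR_bot, Subgroup.mem_bot] at hu1
      rw [hinj u hu1, map_one, mul_one]
      exact Set.mem_singleton _
    | succ j ih =>
      intro hj
      have e : HM b + 1 - j = HM b + 1 - (j + 1) + 1 := by omega
      have h1 := ih (by omega)
      rw [e] at h1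
      exact rh10_step J h𝔞 v (by omega) h1
  obtain ⟨C, hC, hC'⟩ := key (HM b) le_rfl
  have e1 : HM b + 1 - HM b = 1 := by omega
  rw [e1] at hC'
  refine ⟨C, hC, fun t => ?_⟩
  obtain ⟨γ, hγ, hγC⟩ := hC' t (by
    show toUR H t ∈ FR b L 1
    rw [r1_FR_top]
    exact Subgroup.mem_top _)
  have h2 : (γ : H) ∈ GhQ H 𝔫 v r s h := hle hγ
  refine ⟨γ⁻¹, inv_mem h2, _, hγC, ?_⟩
  rw [map_inv, inv_mul_cancel_left]

end

end Pool.Agent.Lib.L1S
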