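import Pool.Agent.Lib.L1S.RH0
import Pool.Agent.Lib.L1S.R2B
import Pool.Agent.Lib.H89N.NU5

/-!
# L1S, module R_H (arithmetic of quasi-split groups), RH12N: lattice points and traces
-/

namespace Pool.Agent.Lib.L1S

open MeasureTheory Matrix NumberField IsDedekindDomain Pool.Agent.Lib.H89N Pool.Agent.Lib.H33W
open scoped ENNReal Pointwise

noncomputable section

set_option linter.unusedSectionVars false

variable {ι M N : Type} [Fintype ι] [DecidableEq ι] [AddCommGroup M] [Module ℚ M] [AddCommGroup N] [Module ℚ N]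
  {P : RootPairing ι ℚ M N} [P.IsCrystallographic] [P.IsRootSystem] {b : P.Base} {K L : Type} [Field K] [NumberField K] [Field L] [NumberField L] [Algebra K L]
  {D : Set (Equiv.Perm ι)} {H : Subgroup (GK b L)}

/-- PROOF. `H89N.nu5_norm` (Lib/H89N/NU5.lean): `‖mixedEmbedding L x‖ ≤ C` iff `w x ≤ C` for all infinite places `w` of `L`; the infinite places of `K` are the restrictions of those of `L` (`InfinitePlace.comap`, `InfinitePlace.comap_surjective`). -/
theorem rh12_norm (t : K) : ‖mixedEmbedding L (algebraMap K L t)‖ = ‖mixedEmbedding K t‖ := by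
  apply le_antisymm
  · rw [nu5_norm]
    intro w
    have h := (nu5_norm t _).1 le_rfl (w.comap (algebraMap K L))
    rwa [InfinitePlace.comap_apply] at h
  · rw [nu5_norm]
    intro v
    obtain ⟨w, rfl⟩ := InfinitePlace.comap_surjective (K := L) v
    rw [InfinitePlace.comap_apply]
    exact (nu5_norm (algebraMap K L t) _).1 le_rfl w

/-- PROOF. `r2_cnt` for `n t` (`‖mixedEmbedding K (n t)‖ = n ‖mixedEmbedding K t‖ ≤ n X`), injectivity of `t ↦ n t`; `C = C₀ n ^ d`. -/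
theorem rh12_cnt (K : Type) [Field K] [NumberField K] {n : ℕ} (hn : n ≠ 0) : ∃ C : ℝ, 1 ≤ C ∧ ∀ (_ : HeightOneSpectrum (𝓞 K)) (X : ℝ), 1 ≤ X →
    ({t : K | Pool.Agent.Lib.L1S.InI ⊤ ((n : K) * t) ∧ ‖mixedEmbedding K t‖ ≤ X}.encard : ENNReal) ≤ ENNReal.ofReal (C * X ^ Module.finrank ℚ K) := by
  obtain ⟨C₀, hC, h⟩ := r2_cnt K
  have hn1 : (1 : ℝ) ≤ n := by exact_mod_cast Nat.one_le_iff_ne_zero.mpr hn
  have hnK : (n : K) ≠ 0 := Nat.cast_ne_zero.mpr hn
  refine ⟨C₀ * (n : ℝ) ^ Module.finrank ℚ K, ?_, fun v X hX => ?_⟩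
  · nlinarith [one_le_pow₀ (M₀ := ℝ) hn1 (n := Module.finrank ℚ K)]
  · have h1 := h v (n * X) (by nlinarith)
    have hinj : Set.InjOn (fun t : K => (n : K) * t) {t : K | Pool.Agent.Lib.L1S.InI ⊤ ((n : K) * t) ∧ ‖mixedEmbedding K t‖ ≤ X} := by
      intro x _ y _ hxy
      exact mul_left_cancel₀ hnK hxy
    have h2 : {t : K | Pool.Agent.Lib.L1S.InI ⊤ ((n : K) * t) ∧ ‖mixedEmbedding K t‖ ≤ X}.encard ≤
        {t : K | Pool.Agent.Lib.L1S.InI ⊤ t ∧ ‖mixedEmbedding K t‖ ≤ n * X}.encard := by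
      rw [← hinj.encard_image]
      apply Set.encard_le_encard
      rintro _ ⟨t, ⟨ht, ht'⟩, rfl⟩
      refine ⟨ht, ?_⟩
      rw [nu5_norm] at ht' ⊢
      intro w
      have h3 : w (n : K) = n := by
        rw [← InfinitePlace.norm_embedding_eq, map_natCast, Complex.norm_natCast]
      show w ((n : K) * t) ≤ _
      rw [map_mul, h3]
      exact mul_le_mul_of_nonneg_left (ht' w) (by linarith)
    have h4 : C₀ * ((n : ℝ) * X) ^ Module.finrank ℚ K = C₀ * (n : ℝ) ^ Module.finrank ℚ K * X ^ Module.finrank ℚ K := by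
      rw [mul_pow, mul_assoc]
    rw [← h4]
    refine le_trans ?_ h1
    exact_mod_cast h2

/-- PROOF. For every embedding `σ : K → ℂ`, `σ (Tr x) = ∑ σ' x` over the `[L : K]` embeddings `σ'` of `L` over `σ` (`Algebra.trace_eq_sum_embeddings`, with `ℂ` as a `K`-algebra by `σ`); `H89N.nu5_norm`. -/
theorem rh12_tr (x : L) : ‖mixedEmbedding K (Algebra.trace K L x)‖ ≤ Module.finrank K L * ‖mixedEmbedding L x‖ := by
  rw [nu5_norm]
  intro w
  rw [← InfinitePlace.norm_embedding_eq]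
  letI : Algebra K ℂ := w.embedding.toAlgebra
  have h1 : w.embedding (Algebra.trace K L x) = ∑ σ : L →ₐ[K] ℂ, σ x := trace_eq_sum_embeddings (K := K) (L := L) ℂ
  rw [h1]
  refine (norm_sum_le _ _).trans ?_
  have h2 : ∀ σ : L →ₐ[K] ℂ, ‖σ x‖ ≤ ‖mixedEmbedding L x‖ := by
    intro σ
    have h3 := (nu5_norm x _).1 le_rfl (InfinitePlace.mk (σ : L →+* ℂ))
    exact h3
  refine (Finset.sum_le_card_nsmul _ _ _ fun σ _ => h2 σ).trans ?_
  rw [Finset.card_univ, AlgHom.card, nsmul_eq_mul]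

end

end Pool.Agent.Lib.L1S
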