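import Pool.Agent.Lib.L1S.RH0
import Pool.Agent.Lib.L1S.RH5C
import Pool.Agent.Lib.L1S.RH12N
import Pool.Agent.Lib.L1S.R12A

/-!
# L1S, module R_H (arithmetic of quasi-split groups), RH12A: counting: the sets and the coordinates
-/

namespace Pool.Agent.Lib.L1S

open MeasureTheory Matrix NumberField IsDedekindDomain Pool.Agent.Lib.H89N Pool.Agent.Lib.H33W
open scoped ENNReal Pointwise

noncomputable section

set_option linter.unusedSectionVars false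

variable {ι M N : Type} [Fintype ι] [DecidableEq ι] [AddCommGroup M] [Module ℚ M] [AddCommGroup N] [Module ℚ N]
  {P : RootPairing ι ℚ M N} [P.IsCrystallographic] [P.IsRootSystem] {b : P.Base} {K L : Type} [Field K] [NumberField K] [Field L] [NumberField L] [Algebra K L]
  {D : Set (Equiv.Perm ι)} {H : Subgroup (GK b L)}

/-- The elements `γ` of `U(𝓞) ∩ H ∩ FK k` with `γ ∈ a Ω a⁻¹`. -/
def CSH (v : HeightOneSpectrum (𝓞 K)) (H : Subgroup (GK b L)) (Ω : Set (GL (I b) (EE L))) (A : M →ₗ[ℚ] ℝ) (k : ℕ) : Set (GK b L) :=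
  {γ | γ ∈ GamL b L ⊤ v 0 0 ∧ γ ∈ H ∧ γ ∈ FK b L k ∧ ∃ κ ∈ Ω, (emb b L γ).1.1 = dg b L A * κ.1 * dg b L (-A)}

/-- PROOF. As `r12_cf` (Lib/L1S/R12A.lean): `cf β γ = ∑ Tr (z r c γ r c)`; `‖mixedEmbedding K (Tr y)‖ ≤ [L : K] ‖mixedEmbedding L y‖` (`rh12_tr`); `mixedEmbedding L (γ r c) = exp (A(wt r) - A(wt c)) κ r c` (`r12_dg`) and `A(wt r) - A(wt c) = A(β)` where `z β r c ≠ 0` (`J.zsupp`, `A` is invariant); the entries of `κ ∈ Ω` are bounded. Integrality: `rh5_cf_InI` with `𝔫 = ⊤`. -/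
theorem rh12_cf (J : LieH b K L D H) {Ω : Set (GL (I b) (EE L))} (hΩ : IsCompact Ω) : ∃ B : ℝ, 1 ≤ B ∧ ∀ (v : HeightOneSpectrum (𝓞 K)) (A : M →ₗ[ℚ] ℝ), InvF P D A → ∀ k : ℕ, ∀ γ ∈ CSH v H Ω A k, ∀ β ∈ Posk b k,
    Pool.Agent.Lib.L1S.InI ⊤ (J.cf β γ.1.1) ∧ ‖mixedEmbedding K (J.cf β γ.1.1)‖ ≤ B * Real.exp (A (P.root β)) := by
  obtain ⟨B0, hB0, hB1⟩ : ∃ B0 : ℝ, 0 ≤ B0 ∧ ∀ κ ∈ Ω, ∀ r c : I b, ‖κ.1 r c‖ ≤ B0 := by
    have h : ∀ p : I b × I b, ∃ B : ℝ, ∀ κ ∈ Ω, ‖κ.1 p.1 p.2‖ ≤ B := by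
      intro p
      refine hΩ.exists_bound_of_continuousOn (f := fun κ : GL (I b) (EE L) => κ.1 p.1 p.2) ?_
      exact (Units.continuous_val.matrix_elem p.1 p.2).continuousOn
    choose B hB using h
    refine ⟨∑ p, |B p|, Finset.sum_nonneg fun _ _ => abs_nonneg _, fun κ hκ r c => ?_⟩
    exact (hB (r, c) κ hκ).trans ((le_abs_self _).trans
      (Finset.single_le_sum (f := fun p => |B p|) (fun p _ => abs_nonneg _) (Finset.mem_univ (r, c))))
  obtain ⟨d, hd⟩ : ∃ d : ℝ, d = Module.finrank K L := ⟨_, rfl⟩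
  have hd0 : 0 ≤ d := by
    rw [hd]
    exact Nat.cast_nonneg _
  obtain ⟨w, hw⟩ : ∃ w : ι → I b → I b → ℝ, ∀ β r c, w β r c = d * (‖mixedEmbedding L ((J.z β r c : 𝓞 L) : L)‖ * B0) := ⟨_, fun _ _ _ => rfl⟩
  have hw0 : ∀ β r c, 0 ≤ w β r c := by
    intro β r c
    rw [hw]
    positivity
  have hS0 : ∀ β, 0 ≤ ∑ r, ∑ c, w β r c := fun β => Finset.sum_nonneg fun _ _ => Finset.sum_nonneg fun _ _ => hw0 _ _ _
  refine ⟨1 + ∑ β, ∑ r, ∑ c, w β r c, ?_, fun v A hA k γ hγ β hβ => ⟨?_, ?_⟩⟩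
  · have : 0 ≤ ∑ β, ∑ r, ∑ c, w β r c := Finset.sum_nonneg fun β _ => hS0 β
    linarith
  · exact rh5_cf_InI J (r1_mem_posk.1 hβ).1 (𝔫 := ⊤) fun i j => (hγ.1 i j).1.1
  · have hβP : β ∈ Pos b := (r1_mem_posk.1 hβ).1
    obtain ⟨-, -, -, κ, hκ, hγκ⟩ := hγ
    have hexp : 0 ≤ Real.exp (A (P.root β)) := (Real.exp_pos _).le
    have hent : ∀ r c, ‖mixedEmbedding K (Algebra.trace K L (((J.z β r c : 𝓞 L) : L) * γ.1.1 r c))‖ ≤ w β r c * Real.exp (A (P.root β)) := by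
      intro r c
      refine (rh12_tr _).trans ?_
      rw [hw, ← hd, mul_assoc]
      refine mul_le_mul_of_nonneg_left ?_ hd0
      by_cases hz : J.z β r c = 0
      · rw [hz]
        have e0 : ((0 : 𝓞 L) : L) = 0 := map_zero _
        rw [e0, zero_mul, map_zero, norm_zero, zero_mul, zero_mul]
      · have h3 := J.zsupp A hA β hβP r c hz
        have h2 : mixedEmbedding L (γ.1.1 r c) = (emb b L γ).1.1 r c := rfl
        rw [map_mul, h2, hγκ, r12_dg, h3, add_sub_cancel_left]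
        refine (norm_mul_le _ _).trans ?_
        rw [mul_assoc]
        refine mul_le_mul_of_nonneg_left ?_ (norm_nonneg _)
        rw [← Algebra.smul_def, norm_smul, Real.norm_eq_abs, abs_of_nonneg hexp, mul_comm]
        exact mul_le_mul_of_nonneg_right (hB1 κ hκ _ _) hexp
    have h1 : mixedEmbedding K (J.cf β γ.1.1) =
        ∑ r, ∑ c, mixedEmbedding K (Algebra.trace K L (((J.z β r c : 𝓞 L) : L) * γ.1.1 r c)) := by
      unfold LieH.cf
      rw [map_sum]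
      exact Finset.sum_congr rfl fun r _ => map_sum _ _ _
    rw [h1]
    calc ‖∑ r, ∑ c, mixedEmbedding K (Algebra.trace K L (((J.z β r c : 𝓞 L) : L) * γ.1.1 r c))‖
        ≤ ∑ r, ∑ c, w β r c * Real.exp (A (P.root β)) :=
          (norm_sum_le _ _).trans (Finset.sum_le_sum fun r _ => (norm_sum_le _ _).trans (Finset.sum_le_sum fun c _ => hent r c))
      _ = (∑ r, ∑ c, w β r c) * Real.exp (A (P.root β)) := by
          rw [Finset.sum_mul]
          exact Finset.sum_congr rfl fun r _ => (Finset.sum_mul _ _ _).symm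
      _ ≤ (1 + ∑ β, ∑ r, ∑ c, w β r c) * Real.exp (A (P.root β)) := by
          refine mul_le_mul_of_nonneg_right ?_ hexp
          have h7 : ∑ r, ∑ c, w β r c ≤ ∑ β, ∑ r, ∑ c, w β r c :=
            Finset.single_le_sum (f := fun β => ∑ r, ∑ c, w β r c) (fun β _ => hS0 β) (Finset.mem_univ β)
          linarith

/-- PROOF. `GamL ⊤ v 0 0` consists of integral matrices, so `CSH` is a subset of a set `CS b L w Ω A k` (any prime `w` of `L`): `r12_fin`; or directly with `t3_fin`. -/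
theorem rh12_fin (v : HeightOneSpectrum (𝓞 K)) {Ω : Set (GL (I b) (EE L))} (hΩ : IsCompact Ω) (A : M →ₗ[ℚ] ℝ) (k : ℕ) : (CSH v H Ω A k).Finite := by
  have h1 : IsCompact ((fun κ : GL (I b) (EE L) => r12a_a b L A * κ * (r12a_a b L A)⁻¹) '' Ω) :=
    hΩ.image ((continuous_const.mul continuous_id).mul continuous_const)
  have h2 : IsCompact ((Subtype.val : GR b L → GL (I b) (EE L)) ⁻¹'
      ((fun κ : GL (I b) (EE L) => r12a_a b L A * κ * (r12a_a b L A)⁻¹) '' Ω)) :=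
    (GE_closed b L).isClosedEmbedding_subtypeVal.isCompact_preimage h1
  refine (t3_fin b (Γ := (GamL b L (⊤ : Ideal (𝓞 K)) v 0 0 : Set (GK b L))) (c := 1) one_ne_zero ?_ h2).subset ?_
  · intro γ hγ i j
    obtain ⟨y, -, hy⟩ := (hγ i j).1.1
    rw [Nat.cast_one, one_mul]
    by_cases h : i = j
    · subst h
      refine ⟨y + 1, ?_⟩
      rw [Matrix.sub_apply, Matrix.one_apply_eq] at hy
      have e : ((y + 1 : 𝓞 L) : L) = (y : L) + 1 := by simp
      rw [e, hy]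
      ring
    · refine ⟨y, ?_⟩
      rw [Matrix.sub_apply, Matrix.one_apply_ne h, sub_zero] at hy
      exact hy.symm
  · rintro γ ⟨h3, -, -, κ, hκ, h4⟩
    exact ⟨h3, κ, hκ, (r12a_conj.mp h4).symm⟩

end

end Pool.Agent.Lib.L1S
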