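import Pool.Agent.Lib.L1S.RH0
import Pool.Agent.Lib.L1S.RH12A
import Pool.Agent.Lib.L1S.R12B

/-!
# L1S, module R_H (arithmetic of quasi-split groups), RH12B: counting: one step
-/

namespace Pool.Agent.Lib.L1S

open MeasureTheory Matrix NumberField IsDedekindDomain Pool.Agent.Lib.H89N Pool.Agent.Lib.H33W
open scoped ENNReal Pointwise

noncomputable section

set_option linter.unusedSectionVars false

variable {ι M N : Type} [Fintype ι] [DecidableEq ι] [AddCommGroup M] [Module ℚ M] [AddCommGroup N] [Module ℚ N]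
  {P : RootPairing ι ℚ M N} [P.IsCrystallographic] [P.IsRootSystem] {b : P.Base} {K L : Type} [Field K] [NumberField K] [Field L] [NumberField L] [Algebra K L]
  {D : Set (Equiv.Perm ι)} {H : Subgroup (GK b L)}

/-- PROOF. As `r12_step` (Lib/L1S/R12B.lean): the map `γ ↦ (y_β)_{β ∈ Posk k}`, `y_β = cf β γ / cst`, with values in `{y | cst y ∈ 𝓞 K, ‖mixedEmbedding y‖ ≤ B exp (A β)}` (`rh12_cf`, `rh12_cnt` with `n = 1` for `cf β γ`); if `γ`, `γ₀ ∈ CSH k` have the same coordinates then `dgk γ = dgk γ₀` (`rh5_degH`: `y_β` is determined by `cf β`), so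
`γ₀⁻¹ γ ∈ CSH (Ω⁻¹ * Ω) A (k + 1)` (`r12_quot`, `r1_dgk_inv`, `r1_succ`). -/
theorem rh12_step (J : LieH b K L D H) {Ω : Set (GL (I b) (EE L))} (hΩ : IsCompact Ω) {k : ℕ} (hk : 1 ≤ k)
    (h : ∃ C : ℝ, 1 ≤ C ∧ ∀ (v : HeightOneSpectrum (𝓞 K)) (A : M →ₗ[ℚ] ℝ), InvF P D A → (∀ i : b.support, 0 ≤ A (P.root i)) →
      ((CSH v H (Ω⁻¹ * Ω) A (k + 1)).ncard : ℝ) ≤ C * ∏ β ∈ Pos b with (k : ℤ) + 1 ≤ b.height β, Real.exp (Module.finrank ℚ K * A (P.root β))) :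
    ∃ C : ℝ, 1 ≤ C ∧ ∀ (v : HeightOneSpectrum (𝓞 K)) (A : M →ₗ[ℚ] ℝ), InvF P D A → (∀ i : b.support, 0 ≤ A (P.root i)) →
      ((CSH v H Ω A k).ncard : ℝ) ≤ C * ∏ β ∈ Pos b with (k : ℤ) ≤ b.height β, Real.exp (Module.finrank ℚ K * A (P.root β)) := by
  classical
  obtain ⟨C', hC', hCS⟩ := h
  obtain ⟨B, hB, hcf⟩ := rh12_cf J hΩ
  obtain ⟨C2, hC2, hcnt⟩ := r2_cnt K
  obtain ⟨n, hn⟩ : ∃ n, n = Module.finrank ℚ K := ⟨_, rfl⟩
  rw [← hn] at hCS hcnt ⊢
  have hone : 1 ≤ ∏ β ∈ Posk b k, (C2 * B ^ n) :=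
    r12b_one _ _ (fun _ _ => one_le_mul_of_one_le_of_one_le hC2 (one_le_pow₀ hB))
  refine ⟨C' * ∏ β ∈ Posk b k, (C2 * B ^ n), one_le_mul_of_one_le_of_one_le hC' hone, ?_⟩
  intro v A hInv hA
  have hApos : ∀ β ∈ Pos b, 0 ≤ A (P.root β) := fun β hβ => r1_A_pos hA hβ
  have hAk : ∀ β ∈ Posk b k, 0 ≤ A (P.root β) := fun β hβ => hApos β (r1_mem_posk.1 hβ).1
  -- the coordinates
  obtain ⟨F, hF, hFc⟩ := r12b_pi (K := K) (ι' := Posk b k)
    (fun β => {t : K | Pool.Agent.Lib.L1S.InI ⊤ t ∧ ‖mixedEmbedding K t‖ ≤ B * Real.exp (A (P.root β.1))})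
    (fun β => C2 * (B * Real.exp (A (P.root β.1))) ^ n)
    (fun β => by positivity)
    (fun β => hcnt v _ (one_le_mul_of_one_le_of_one_le hB (Real.one_le_exp (hAk β.1 β.2))))
  have hfin1 : (CSH v H (Ω⁻¹ * Ω) A (k + 1)).Finite := rh12_fin v (hΩ.inv.mul hΩ) A (k + 1)
  obtain ⟨m, hm⟩ : ∃ m, m = (CSH v H (Ω⁻¹ * Ω) A (k + 1)).ncard := ⟨_, rfl⟩
  have hkey := encard_le_fib (CSH v H Ω A k) (F : Set (Posk b k → K)) (fun γ β => J.cf β.1 γ.1.1) (max 1 m)
    (le_max_left _ _) (fun γ hγ => by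
      rw [hF]
      exact fun β => hcf v A hInv k γ hγ β.1 β.2) (fun γ₀ hγ₀ => by
      have h1 : {γ | γ ∈ CSH v H Ω A k ∧ (fun β : Posk b k => J.cf β.1 γ.1.1) = fun β : Posk b k => J.cf β.1 γ₀.1.1}.encard ≤
          (CSH v H (Ω⁻¹ * Ω) A (k + 1)).encard := by
        apply Set.encard_le_encard_of_injOn (f := fun γ => γ₀⁻¹ * γ)
        · rintro γ ⟨hγ, hfγ⟩
          obtain ⟨a1, aH, a2, κ₀, hκ₀, a3⟩ := hγ₀
          obtain ⟨b1, bH, b2, κ, hκ, b3⟩ := hγ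
          refine ⟨mul_mem (inv_mem a1) b1, mul_mem (inv_mem aH) bH, ?_, κ₀⁻¹ * κ, Set.mul_mem_mul (Set.inv_mem_inv.2 hκ₀) hκ, ?_⟩
          · rw [r1_succ hk]
            refine ⟨mul_mem (inv_mem a2) b2, ?_⟩
            have e1 : dgk b k (γ₀⁻¹ * γ).1.1 = dgk b k γ₀⁻¹.1.1 + dgk b k γ.1.1 :=
              dgk_mul hk (inv_mem a2 : γ₀⁻¹ ∈ FK b L k).1 b2.1
            obtain ⟨y₀, ey₀, hy₀⟩ := rh5_degH J hk aH a2
            obtain ⟨y, ey, hy⟩ := rh5_degH J hk bH b2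
            rw [e1, r1_dgk_inv hk a2, ey₀, ey, neg_add_eq_zero]
            apply Finset.sum_congr rfl
            intro β hβ
            have h2 := congrFun hfγ ⟨β, hβ⟩
            simp only at h2
            rw [← hy β hβ, ← hy₀ β hβ] at h2
            have h3 : y β = y₀ β := mul_left_cancel₀ (Nat.cast_ne_zero.2 J.cst0) h2
            rw [h3]
          · have e2 : emb b L (γ₀⁻¹ * γ) = (emb b L γ₀)⁻¹ * emb b L γ := by rw [map_mul, map_inv]
            rw [e2]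
            exact (r12_quot a3 b3).1
        · intro x _ y _ hxy
          exact mul_left_cancel hxy
      refine h1.trans ?_
      rw [hfin1.encard_eq_coe_toFinset_card, ← Set.ncard_eq_toFinset_card _ hfin1, ← hm]
      exact_mod_cast le_max_right 1 m)
  have hfin0 : (CSH v H Ω A k).Finite := rh12_fin v hΩ A k
  rw [hfin0.encard_eq_coe_toFinset_card, ← Set.ncard_eq_toFinset_card _ hfin0, Set.encard_coe_eq_coe_finsetCard] at hkey
  have hkey' : (CSH v H Ω A k).ncard ≤ max 1 m * F.card := by exact_mod_cast hkey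
  have hkey2 : ((CSH v H Ω A k).ncard : ℝ) ≤ (max 1 m : ℕ) * (F.card : ℝ) := by exact_mod_cast hkey'
  -- the constants
  set Pr : ℝ := ∏ β ∈ Pos b with (k : ℤ) + 1 ≤ b.height β, Real.exp (n * A (P.root β)) with hPr
  have hPr1 : 1 ≤ Pr := r12b_one _ _ fun β hβ => by
    rw [Finset.mem_filter] at hβ
    exact Real.one_le_exp (mul_nonneg (Nat.cast_nonneg _) (hApos β hβ.1))
  have hmC : ((max 1 m : ℕ) : ℝ) ≤ C' * Pr := by
    have h2 : (m : ℝ) ≤ C' * Pr := by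
      rw [hm]
      exact hCS v A hInv hA
    have h3 : (1 : ℝ) ≤ C' * Pr := one_le_mul_of_one_le_of_one_le hC' hPr1
    rcases max_choice 1 m with h4 | h4
    · rw [h4]; exact_mod_cast h3
    · rw [h4]; exact h2
  have hFc' : (F.card : ℝ) ≤ ∏ β ∈ Posk b k, (C2 * B ^ n) * Real.exp (n * A (P.root β)) := by
    refine hFc.trans (le_of_eq ?_)
    rw [← Finset.prod_coe_sort (Posk b k) (fun β => (C2 * B ^ n) * Real.exp (n * A (P.root β)))]
    apply Finset.prod_congr rfl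
    intro β _
    rw [mul_pow, ← Real.exp_nat_mul]
    ring
  have hsplit : ∏ β ∈ Pos b with (k : ℤ) ≤ b.height β, Real.exp (n * A (P.root β)) =
      (∏ β ∈ Posk b k, Real.exp (n * A (P.root β))) * Pr := by
    rw [hPr, ← Finset.prod_union]
    · apply Finset.prod_congr _ fun _ _ => rfl
      ext β
      simp only [Finset.mem_union, Finset.mem_filter, r1_mem_posk]
      constructor
      · rintro ⟨h1, h2⟩
        rcases eq_or_lt_of_le h2 with h3 | h3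
        · exact Or.inl ⟨h1, h3.symm⟩
        · exact Or.inr ⟨h1, h3⟩
      · rintro (⟨h1, h2⟩ | ⟨h1, h2⟩)
        · exact ⟨h1, h2.symm.le⟩
        · exact ⟨h1, by omega⟩
    · rw [Finset.disjoint_left]
      intro β h1 h2
      rw [r1_mem_posk] at h1
      rw [Finset.mem_filter] at h2
      omega
  rw [hsplit]
  calc ((CSH v H Ω A k).ncard : ℝ) ≤ (max 1 m : ℕ) * (F.card : ℝ) := hkey2
    _ ≤ (C' * Pr) * ∏ β ∈ Posk b k, (C2 * B ^ n) * Real.exp (n * A (P.root β)) :=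
        mul_le_mul hmC hFc' (Nat.cast_nonneg _) (by positivity)
    _ = C' * (∏ β ∈ Posk b k, (C2 * B ^ n)) * ((∏ β ∈ Posk b k, Real.exp (n * A (P.root β))) * Pr) := by
        rw [Finset.prod_mul_distrib]
        ring

end

end Pool.Agent.Lib.L1S
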