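import Pool.Agent.Lib.L1S.RH0
import Pool.Agent.Lib.L1S.RH12B

/-!
# L1S, module R_H (arithmetic of quasi-split groups), RH12C: counting
-/

namespace Pool.Agent.Lib.L1S

open MeasureTheory Matrix NumberField IsDedekindDomain Pool.Agent.Lib.H89N Pool.Agent.Lib.H33W
open scoped ENNReal Pointwise

noncomputable section

set_option linter.unusedSectionVars false

variable {ι M N : Type} [Fintype ι] [DecidableEq ι] [AddCommGroup M] [Module ℚ M] [AddCommGroup N] [Module ℚ N]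
  {P : RootPairing ι ℚ M N} [P.IsCrystallographic] [P.IsRootSystem] {b : P.Base} {K L : Type} [Field K] [NumberField K] [Field L] [NumberField L] [Algebra K L]
  {D : Set (Equiv.Perm ι)} {H : Subgroup (GK b L)}

/-- PROOF. As `r12_count` (Lib/L1S/R12C.lean). -/
theorem rh12_count (J : LieH b K L D H) {Ω : Set (GL (I b) (EE L))} (hΩ : IsCompact Ω) : ∃ C : ℝ, 1 ≤ C ∧ ∀ (v : HeightOneSpectrum (𝓞 K)) (A : M →ₗ[ℚ] ℝ), InvF P D A → (∀ i : b.support, 0 ≤ A (P.root i)) →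
    {γ : GK b L | γ ∈ GamL b L ⊤ v 0 0 ∧ γ ∈ H ∧ γ ∈ HU b L ∧ ∃ κ ∈ Ω, (emb b L γ).1.1 = dg b L A * κ.1 * dg b L (-A)}.Finite ∧
    ({γ : GK b L | γ ∈ GamL b L ⊤ v 0 0 ∧ γ ∈ H ∧ γ ∈ HU b L ∧ ∃ κ ∈ Ω, (emb b L γ).1.1 = dg b L A * κ.1 * dg b L (-A)}.ncard : ℝ) ≤
      C * ∏ β ∈ Pos b, Real.exp (Module.finrank ℚ K * A (P.root β)) := by
  have hmain : ∀ (j : ℕ) (k : ℕ), 1 ≤ k → k + j = HM b + 1 → ∀ {Ω : Set (GL (I b) (EE L))}, IsCompact Ω →
      ∃ C : ℝ, 1 ≤ C ∧ ∀ (v : HeightOneSpectrum (𝓞 K)) (A : M →ₗ[ℚ] ℝ), InvF P D A → (∀ i : b.support, 0 ≤ A (P.root i)) →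
      ((CSH v H Ω A k).ncard : ℝ) ≤ C * ∏ β ∈ Pos b with (k : ℤ) ≤ b.height β, Real.exp (Module.finrank ℚ K * A (P.root β)) := by
    intro j
    induction j with
    | zero =>
      intro k _ hk Ω hΩ
      refine ⟨1, le_refl _, fun v A _ hA => ?_⟩
      have hk' : k = HM b + 1 := by omega
      have h1 : (CSH v H Ω A k).ncard ≤ 1 := by
        have hsub : CSH v H Ω A k ⊆ {1} := by
          rintro γ ⟨-, -, h2, -⟩
          rw [hk', r1_FK_bot, Subgroup.mem_bot] at h2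
          exact h2
        calc (CSH v H Ω A k).ncard ≤ ({1} : Set (GK b L)).ncard := Set.ncard_le_ncard hsub (Set.finite_singleton _)
          _ = 1 := Set.ncard_singleton _
      have h2 : (1 : ℝ) ≤ ∏ β ∈ Pos b with (k : ℤ) ≤ b.height β, Real.exp (Module.finrank ℚ K * A (P.root β)) := by
        have h3 : ∏ β ∈ Pos b with (k : ℤ) ≤ b.height β, (1 : ℝ) ≤
            ∏ β ∈ Pos b with (k : ℤ) ≤ b.height β, Real.exp (Module.finrank ℚ K * A (P.root β)) := by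
          refine Finset.prod_le_prod (fun _ _ => zero_le_one) fun β hβ => ?_
          rw [Real.one_le_exp_iff]
          exact mul_nonneg (Nat.cast_nonneg _) (r1_A_pos hA (Finset.mem_filter.mp hβ).1)
        rwa [Finset.prod_const_one] at h3
      rw [one_mul]
      refine le_trans ?_ h2
      exact_mod_cast h1
    | succ j ih =>
      intro k hk1 hk Ω hΩ
      refine rh12_step J hΩ hk1 ?_
      obtain ⟨C, hC, h⟩ := ih (k + 1) (by omega) (by omega) (hΩ.inv.mul hΩ)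
      refine ⟨C, hC, fun v A hInv hA => ?_⟩
      have h1 := h v A hInv hA
      push_cast at h1
      exact h1
  obtain ⟨C, hC, h⟩ := hmain (HM b) 1 le_rfl (by ring) hΩ
  refine ⟨C, hC, fun v A hInv hA => ?_⟩
  have hset : {γ : GK b L | γ ∈ GamL b L ⊤ v 0 0 ∧ γ ∈ H ∧ γ ∈ HU b L ∧ ∃ κ ∈ Ω, (emb b L γ).1.1 = dg b L A * κ.1 * dg b L (-A)} =
      CSH v H Ω A 1 := by
    rw [r1_HU]
    rfl
  rw [hset]
  refine ⟨rh12_fin v hΩ A 1, ?_⟩
  have h1 := h v A hInv hA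
  have h2 : (Pos b).filter (fun β => ((1 : ℕ) : ℤ) ≤ b.height β) = Pos b := by
    refine Finset.filter_true_of_mem fun β hβ => ?_
    have h3 : 0 < b.height β := (Finset.mem_filter.mp hβ).2
    push_cast
    omega
  rw [h2] at h1
  exact h1

end

end Pool.Agent.Lib.L1S
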