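import Pool.Agent.Lib.L1S.RH0
import Pool.Agent.Lib.L1S.R1A
import Pool.Agent.Lib.L1S.R1B
import Pool.Agent.Lib.L1S.RH3B

/-!
# L1S, module R_H (arithmetic of quasi-split groups), RH4: `Γ_h ∩ U ⊆ Γ`
-/

namespace Pool.Agent.Lib.L1S

open MeasureTheory Matrix NumberField IsDedekindDomain Pool.Agent.Lib.H89N Pool.Agent.Lib.H33W
open scoped ENNReal Pointwise

noncomputable section

set_option linter.unusedSectionVars false

variable {ι M N : Type} [Fintype ι] [DecidableEq ι] [AddCommGroup M] [Module ℚ M] [AddCommGroup N] [Module ℚ N]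
  {P : RootPairing ι ℚ M N} [P.IsCrystallographic] [P.IsRootSystem] {b : P.Base} {K L : Type} [Field K] [NumberField K] [Field L] [NumberField L] [Algebra K L]
  {D : Set (Equiv.Perm ι)} {H : Subgroup (GK b L)}

theorem rh4_uni (hU : ∀ u ∈ UR b L, Uni b u.1.1) {g : GK b L} (hg : g ∈ HU b L) : Uni b g.1.1 := by
  intro r c
  have e : (emb b L g).1.1 r c = mixedEmbedding L (g.1.1 r c) := rfl
  rcases hU (emb b L g) hg r c with h | h
  · left
    rw [e, ← r1b_one] at h
    exact (mixedEmbedding L).injective h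
  · exact Or.inr h

theorem rh4_pi {v : HeightOneSpectrum (𝓞 K)} {π : K} (hπ : v.valuation K π = WithZero.exp (-1 : ℤ)) (m : ℕ) :
    IntV v (algebraMap K L π ^ m) := by
  rw [← map_pow]
  apply rh3_K
  rw [map_pow, hπ]
  exact pow_le_one₀ zero_le (by
    rw [← WithZero.exp_zero, WithZero.exp_le_exp]
    norm_num)

theorem rh4_Iw {v : HeightOneSpectrum (𝓞 K)} {r s : ℕ} {c : b.support → ℤ} {π : K}
    (hπ : v.valuation K π = WithZero.exp (-1 : ℤ)) (hdom : ∀ i : b.support, 0 ≤ pr b c (Sum.inr i))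
    {x : Matrix (I b) (I b) L} (hrs : Rs b 1 x) (hu : Uni b x)
    (h : IwV b v r s π (cj b c (algebraMap K L π) x)) : IwV b v r s π x := by
  have hπ0 : algebraMap K L π ≠ 0 := by
    have h0 : π ≠ 0 := by
      rintro rfl
      rw [map_zero] at hπ
      exact WithZero.exp_ne_zero hπ.symm
    exact (map_ne_zero _).2 h0
  have hI : ∀ i j, Pool.Agent.Lib.L1S.InI ⊤ ((1 : Matrix (I b) (I b) L) i j) := by
    intro i j
    by_cases hij : i = j
    · subst hij
      rw [Matrix.one_apply_eq]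
      exact ⟨1, Submodule.mem_top, map_one _⟩
    · rw [Matrix.one_apply_ne hij]
      exact InI.zero _
  have h1 : ∀ i j, ht b i ≤ ht b j → x i j = (1 : Matrix (I b) (I b) L) i j := by
    intro i j hij
    exact hrs i j (by push_cast; omega)
  have h0 : IntV v (0 : L) := rh3_top (InI.zero _)
  intro i j
  refine ⟨?_, ?_, ?_⟩
  · rcases hu i j with h2 | ⟨-, h2⟩
    · rw [h2]
      exact rh3_top (hI i j)
    · have h3 := r1_pr_mono hdom h2
      have h4 := (h i j).1
      rw [r3_cj hπ0] at h4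
      obtain ⟨m, hm⟩ := Int.eq_ofNat_of_zero_le (sub_nonneg.2 h3)
      have h5 : x i j = algebraMap K L π ^ m * (algebraMap K L π ^ (pr b c j - pr b c i) * x i j) := by
        rw [← mul_assoc, ← zpow_natCast, ← zpow_add₀ hπ0, ← hm]
        have h6 : pr b c i - pr b c j + (pr b c j - pr b c i) = 0 := by ring
        rw [h6, zpow_zero, one_mul]
      rw [h5]
      exact rh3_mul (rh4_pi hπ m) h4
  · intro hij
    have hne : i ≠ j := by
      rintro rfl
      exact lt_irrefl _ hij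
    rw [h1 i j hij.le, Matrix.one_apply_ne hne, mul_zero]
    exact h0
  · intro hij
    rw [Matrix.sub_apply, h1 i j hij.le, sub_self, mul_zero]
    exact h0

/-- PROOF. As `r4_le` (Lib/L1S/R4.lean): for `g ∈ HU` with `cj g` integral at `v`: `g i j = π ^ (pr i - pr j) (cj g) i j` and `pr j ≤ pr i` where the entry is not that of `1` (`Uni`, `r1_pr_mono`); `rh3_mul`, `π ^ m` integral (`rh3_K`); the entries with `ht i ≤ ht j` are those of `1`. -/
theorem rh4_le (hU : ∀ u ∈ UR b L, Uni b u.1.1) {𝔫 : Ideal (𝓞 K)} {v : HeightOneSpectrum (𝓞 K)} {r s : ℕ} {c : b.support → ℤ} {π : K} {h : GK b L} (hL : LvL b 𝔫 v r s c π h) :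
    GhL b 𝔫 v r s h ⊓ HU b L ≤ GamL b L 𝔫 v r s := by
  rintro g ⟨h1, h2⟩
  have h2' : g⁻¹ ∈ HU b L := (HU b L).inv_mem h2
  have hF := h2
  rw [SetLike.mem_coe, r1_HU] at hF
  have h3 := (rh3_GhL hL).1 h1
  rw [rh3_GamL hL.nv hL.hπ]
  exact ⟨h3.1, rh4_Iw hL.hπ hL.dom hF.1 (rh4_uni hU h2) h3.2.1,
    rh4_Iw hL.hπ hL.dom hF.2 (rh4_uni hU h2') h3.2.2⟩

end

end Pool.Agent.Lib.L1S
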