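import Pool.Agent.Lib.L1S.RH0
import Pool.Agent.Lib.L1S.R2B

/-!
# L1S, module R_H (arithmetic of quasi-split groups), RH6A: indices: two lemmas
-/

namespace Pool.Agent.Lib.L1S

open MeasureTheory Matrix NumberField IsDedekindDomain Pool.Agent.Lib.H89N Pool.Agent.Lib.H33W
open scoped ENNReal Pointwise

noncomputable section

set_option linter.unusedSectionVars false

variable {ι M N : Type} [Fintype ι] [DecidableEq ι] [AddCommGroup M] [Module ℚ M] [AddCommGroup N] [Module ℚ N]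
  {P : RootPairing ι ℚ M N} [P.IsCrystallographic] [P.IsRootSystem] {b : P.Base} {K L : Type} [Field K] [NumberField K] [Field L] [NumberField L] [Algebra K L]
  {D : Set (Equiv.Perm ι)} {H : Subgroup (GK b L)}

/-- PROOF. `[V : W'] = [V : W] [W : W'] = n q` and `[V : W'] = [V : D] [D : D'] [D' : W']`, so `[D : D'] ≤ n q` (all indices are finite: `AddSubgroup.relIndex_mul_relIndex`, `relIndex_dvd_of_le_left`); `q = [W : W'] ≤ [D : W'] = [D : D'] [D' : W']` and `[D' : W'] ≤ [V' : W'] = n`. -/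
theorem rh6_sand {A : Type} [AddCommGroup A] {W V W' V' D D' : AddSubgroup A} {n q : ℕ} (h1 : W ≤ D) (h2 : D ≤ V) (h3 : W' ≤ D') (h4 : D' ≤ V') (h5 : D' ≤ D) (h6 : W' ≤ W)
    (hn : n ≠ 0) (hq : q ≠ 0) (i1 : W.relIndex V = n) (i2 : W'.relIndex V' = n) (i3 : W'.relIndex W = q) : D'.relIndex D ≤ n * q ∧ q ≤ n * D'.relIndex D ∧ D'.relIndex D ≠ 0 := by
  have e1 := AddSubgroup.relIndex_mul_relIndex W' W V h6 (h1.trans h2)
  have e2 := AddSubgroup.relIndex_mul_relIndex W' D' V h3 (h5.trans h2)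
  have e3 := AddSubgroup.relIndex_mul_relIndex D' D V h5 h2
  have e4 := AddSubgroup.relIndex_mul_relIndex W' W D h6 h1
  have e5 := AddSubgroup.relIndex_mul_relIndex W' D' D h3 h5
  have e6 := AddSubgroup.relIndex_mul_relIndex W' D' V' h3 h4
  have e7 := AddSubgroup.relIndex_mul_relIndex W' D V (h6.trans h1) h2
  rw [i1, i3] at e1
  rw [i3] at e4
  rw [i2] at e6
  have hne : q * n ≠ 0 := mul_ne_zero hq hn
  have n1 : W'.relIndex V ≠ 0 := by rw [← e1]; exact hne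
  have n2 : W'.relIndex D' ≠ 0 := by
    intro h0
    rw [h0, zero_mul] at e2
    exact n1 e2.symm
  have n3 : D'.relIndex V ≠ 0 := by
    intro h0
    rw [h0, mul_zero] at e2
    exact n1 e2.symm
  have n4 : D'.relIndex D ≠ 0 := by
    intro h0
    rw [h0, zero_mul] at e3
    exact n3 e3.symm
  have n5 : D.relIndex V ≠ 0 := by
    intro h0
    rw [h0, mul_zero] at e3
    exact n3 e3.symm
  have n6 : D'.relIndex V' ≠ 0 := by
    intro h0
    rw [h0, mul_zero] at e6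
    exact hn e6.symm
  have n7 : W.relIndex D ≠ 0 := by
    intro h0
    rw [h0, mul_zero] at e4
    rw [← e4, zero_mul] at e7
    exact n1 e7.symm
  refine ⟨?_, ?_, n4⟩
  · calc D'.relIndex D ≤ W'.relIndex D' * (D'.relIndex D * D.relIndex V) := by
          have a1 : 1 ≤ W'.relIndex D' := Nat.one_le_iff_ne_zero.mpr n2
          have a2 : 1 ≤ D.relIndex V := Nat.one_le_iff_ne_zero.mpr n5
          calc D'.relIndex D = 1 * (D'.relIndex D * 1) := by rw [mul_one, one_mul]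
            _ ≤ _ := Nat.mul_le_mul a1 (Nat.mul_le_mul_left _ a2)
      _ = n * q := by rw [e3, e2, ← e1, mul_comm]
  · calc q ≤ q * W.relIndex D := Nat.le_mul_of_pos_right _ (Nat.pos_of_ne_zero n7)
      _ = W'.relIndex D' * D'.relIndex D := by rw [e4, e5]
      _ ≤ n * D'.relIndex D := by
          apply Nat.mul_le_mul_right
          rw [← e6]
          exact Nat.le_mul_of_pos_right _ (Nat.pos_of_ne_zero n6)

/-- `{y | n y ∈ 𝔞}`. -/
def idK (𝔞 : Ideal (𝓞 K)) (n : ℕ) : AddSubgroup K where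
  carrier := {y | Pool.Agent.Lib.L1S.InI 𝔞 ((n : K) * y)}
  zero_mem' := by
    show Pool.Agent.Lib.L1S.InI 𝔞 ((n : K) * 0)
    rw [mul_zero]
    exact Pool.Agent.Lib.L1S.InI.zero _
  add_mem' := by
    intro x y hx hy
    show Pool.Agent.Lib.L1S.InI 𝔞 ((n : K) * (x + y))
    rw [mul_add]
    exact Pool.Agent.Lib.L1S.InI.add hx hy
  neg_mem' := by
    rintro x ⟨a, ha, e⟩
    exact ⟨-a, 𝔞.neg_mem ha, by rw [mul_neg, ← e]; simp⟩

/-- PROOF. `y ↦ y : 𝔞 → K` is injective with image `idK 𝔞 1`: `r2_idx`. -/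
theorem rh6_id (𝔞 𝔠 : Ideal (𝓞 K)) (h : 𝔞 ≠ ⊥) : (idK (𝔞 * 𝔠) 1).relIndex (idK 𝔞 1) = Ideal.absNorm 𝔠 := by
  have hm : ∀ 𝔟 : Ideal (𝓞 K), idK 𝔟 1 = 𝔟.toAddSubgroup.map (algebraMap (𝓞 K) K : 𝓞 K →+ K) := by
    intro 𝔟
    ext x
    constructor
    · rintro ⟨y, hy, e⟩
      refine ⟨y, hy, ?_⟩
      rw [Nat.cast_one, one_mul] at e
      exact e
    · rintro ⟨y, hy, e⟩
      refine ⟨y, hy, ?_⟩
      rw [Nat.cast_one, one_mul]
      exact e
  rw [hm, hm, AddSubgroup.relIndex_map_map_of_injective _ _ (fun x y hxy => RingOfIntegers.coe_injective hxy)]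
  exact r2_idx h 𝔠

/-- PROOF. Multiplication by `n` maps `idK 𝔞 n` onto `idK 𝔞 1` and `idK 𝔞 1` onto `idK (𝔞 (n)) 1`; `rh6_id`, `absNorm (n) = n ^ d` (compare `r8_m`, Lib/L1S/R8B.lean). -/
theorem rh6_cst (𝔞 : Ideal (𝓞 K)) (h : 𝔞 ≠ ⊥) {n : ℕ} (hn : n ≠ 0) : (idK 𝔞 1).relIndex (idK 𝔞 n) = n ^ Module.finrank ℚ K := by
  have hnK : (n : K) ≠ 0 := Nat.cast_ne_zero.mpr hn
  have h2 : Ideal.absNorm (Ideal.span {(n : 𝓞 K)}) = n ^ Module.finrank ℚ K := by
    rw [Ideal.absNorm_span_singleton]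
    have h3 : (n : 𝓞 K) = algebraMap ℤ (𝓞 K) (n : ℤ) := by simp
    rw [h3, Algebra.norm_algebraMap, RingOfIntegers.rank, Int.natAbs_pow, Int.natAbs_natCast]
  have hinj : Function.Injective (AddMonoidHom.mulLeft (n : K)) := by
    intro x y hxy
    exact mul_left_cancel₀ hnK hxy
  rw [← h2, ← rh6_id 𝔞 (Ideal.span {(n : 𝓞 K)}) h, ← AddSubgroup.relIndex_map_map_of_injective (idK 𝔞 1) (idK 𝔞 n) hinj]
  congr 1
  · ext x
    constructor
    · rintro ⟨z, ⟨y, hy, e⟩, rfl⟩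
      rw [Nat.cast_one, one_mul] at e
      refine ⟨y * n, Ideal.mul_mem_mul hy (Ideal.mem_span_singleton_self _), ?_⟩
      rw [Nat.cast_one, one_mul]
      show algebraMap (𝓞 K) K (y * n) = (n : K) * z
      rw [map_mul, map_natCast, ← e]
      exact mul_comm _ _
    · rintro ⟨y, hy, e⟩
      rw [Nat.cast_one, one_mul] at e
      obtain ⟨z, hz, rfl⟩ := Ideal.mem_mul_span_singleton.1 hy
      refine ⟨(z : K), ⟨z, hz, by rw [Nat.cast_one, one_mul]⟩, ?_⟩
      rw [← e]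
      show (n : K) * (z : K) = algebraMap (𝓞 K) K (z * n)
      rw [map_mul, map_natCast]
      exact mul_comm _ _
  · ext x
    constructor
    · rintro ⟨z, ⟨y, hy, e⟩, rfl⟩
      refine ⟨y, hy, ?_⟩
      rw [Nat.cast_one, one_mul]
      exact e
    · rintro ⟨y, hy, e⟩
      rw [Nat.cast_one, one_mul] at e
      refine ⟨(n : K)⁻¹ * x, ⟨y, hy, ?_⟩, ?_⟩
      · rw [e, mul_inv_cancel_left₀ hnK]
      · show (n : K) * ((n : K)⁻¹ * x) = x
        rw [mul_inv_cancel_left₀ hnK]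

end

end Pool.Agent.Lib.L1S
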