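import Pool.Agent.Lib.L1S.RH0
import Pool.Agent.Lib.L1S.RH6A
import Pool.Agent.Lib.L1S.RH5C

/-!
# L1S, module R_H (arithmetic of quasi-split groups), RH6C: the additive groups of the degree parts
-/

namespace Pool.Agent.Lib.L1S

open MeasureTheory Matrix NumberField IsDedekindDomain Pool.Agent.Lib.H89N Pool.Agent.Lib.H33W
open scoped ENNReal Pointwise

noncomputable section

set_option linter.unusedSectionVars false

variable {ι M N : Type} [Fintype ι] [DecidableEq ι] [AddCommGroup M] [Module ℚ M] [AddCommGroup N] [Module ℚ N]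
  {P : RootPairing ι ℚ M N} [P.IsCrystallographic] [P.IsRootSystem] {b : P.Base} {K L : Type} [Field K] [NumberField K] [Field L] [NumberField L] [Algebra K L]
  {D : Set (Equiv.Perm ι)} {H : Subgroup (GK b L)}

/-- The matrices `∑ y_β Y_β` with `y_β ∈ S_β`, the sum over the positive roots of height `k`. -/
def WS (J : LieH b K L D H) (k : ℕ) (S : ι → AddSubgroup K) : AddSubgroup (Matrix (I b) (I b) L) where
  carrier := {X | ∃ y : ι → K, (∀ β, y β ∈ S β) ∧ X = ∑ β ∈ Posk b k, algebraMap K L (y β) • J.Y β}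
  zero_mem' := ⟨fun _ => 0, fun _ => zero_mem _, by simp⟩
  add_mem' := by
    rintro _ _ ⟨y, hy, rfl⟩ ⟨z, hz, rfl⟩
    refine ⟨fun β => y β + z β, fun β => add_mem (hy β) (hz β), ?_⟩
    rw [← Finset.sum_add_distrib]
    exact Finset.sum_congr rfl fun β _ => by rw [map_add, add_smul]
  neg_mem' := by
    rintro _ ⟨y, hy, rfl⟩
    refine ⟨fun β => -y β, fun β => neg_mem (hy β), ?_⟩
    rw [← Finset.sum_neg_distrib]
    exact Finset.sum_congr rfl fun β _ => by rw [map_neg, neg_smul]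

/-- The index of a product of subgroups. -/
theorem rh6c_index_pi {T : Type} [Fintype T] {G : T → Type} [∀ i, AddGroup (G i)] (A : ∀ i, AddSubgroup (G i)) :
    (AddSubgroup.pi Set.univ A).index = ∏ i, (A i).index := by
  simp_rw [AddSubgroup.index, ← Nat.card_pi]
  refine Nat.card_congr ((Quotient.congrRight (fun x y => ?_)).trans (Setoid.piQuotientEquiv _).symm)
  rw [QuotientAddGroup.leftRel_pi]

/-- Extension by zero. -/
def rh6cx {k : ℕ} (S : ι → AddSubgroup K) (y : (β : Posk b k) → S β.1) (β : ι) : K :=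
  if h : β ∈ Posk b k then (y ⟨β, h⟩ : K) else 0

/-- The map `y ↦ ∑ y_β Y_β`. -/
def rh6cφ (J : LieH b K L D H) (k : ℕ) (S : ι → AddSubgroup K) :
    ((β : Posk b k) → S β.1) →+ Matrix (I b) (I b) L where
  toFun y := ∑ β : Posk b k, algebraMap K L (y β : K) • J.Y β.1
  map_zero' := by simp
  map_add' y z := by
    rw [← Finset.sum_add_distrib]
    refine Finset.sum_congr rfl fun β _ => ?_
    rw [← add_smul, ← map_add]
    rfl

theorem rh6c_sum (J : LieH b K L D H) {k : ℕ} (S : ι → AddSubgroup K) (y : (β : Posk b k) → S β.1) :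
    rh6cφ J k S y = ∑ β ∈ Posk b k, algebraMap K L (rh6cx S y β) • J.Y β := by
  rw [← Finset.sum_coe_sort (Posk b k)]
  show ∑ β : Posk b k, algebraMap K L (y β : K) • J.Y β.1 = _
  refine Finset.sum_congr rfl fun β _ => ?_
  unfold rh6cx
  rw [dif_pos β.2]

theorem rh6c_inj (J : LieH b K L D H) (k : ℕ) (S : ι → AddSubgroup K) : Function.Injective (rh6cφ J k S) := by
  intro y z hyz
  rw [rh6c_sum, rh6c_sum] at hyz
  funext β
  have h1 := congrArg (J.cf β.1) hyz
  rw [rh5_cf_sum J β.2, rh5_cf_sum J β.2] at h1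
  unfold rh6cx at h1
  rw [dif_pos β.2, dif_pos β.2] at h1
  exact Subtype.ext (mul_left_cancel₀ (Nat.cast_ne_zero.mpr J.cst0) h1)

theorem rh6c_map (J : LieH b K L D H) (k : ℕ) (S S' : ι → AddSubgroup K) (h : ∀ β, S' β ≤ S β) :
    WS J k S' = AddSubgroup.map (rh6cφ J k S)
      (AddSubgroup.pi Set.univ fun β : Posk b k => (S' β.1).addSubgroupOf (S β.1)) := by
  ext X
  constructor
  · rintro ⟨y, hy, rfl⟩
    refine ⟨fun β => ⟨y β.1, h β.1 (hy β.1)⟩, ?_, ?_⟩
    · intro β _
      show _ ∈ (S' β.1).addSubgroupOf (S β.1)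
      rw [AddSubgroup.mem_addSubgroupOf]
      exact hy β.1
    · show ∑ β : Posk b k, algebraMap K L (y β.1) • J.Y β.1 = _
      rw [Finset.sum_coe_sort (Posk b k) (fun β => algebraMap K L (y β) • J.Y β)]
  · rintro ⟨y, hy, rfl⟩
    refine ⟨rh6cx S y, ?_, rh6c_sum J S y⟩
    intro β
    unfold rh6cx
    split_ifs with h
    · have h1 := hy ⟨β, h⟩ (Set.mem_univ _)
      have h2 : y ⟨β, h⟩ ∈ (S' β).addSubgroupOf (S β) := h1
      rw [AddSubgroup.mem_addSubgroupOf] at h2
      exact h2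
    · exact (S' β).zero_mem

theorem rh6c_top (J : LieH b K L D H) (k : ℕ) (S : ι → AddSubgroup K) :
    WS J k S = AddSubgroup.map (rh6cφ J k S) ⊤ := by
  rw [rh6c_map J k S S fun β => le_rfl]
  congr 1
  rw [eq_top_iff]
  intro y _ β _
  show _ ∈ (S β.1).addSubgroupOf (S β.1)
  rw [AddSubgroup.mem_addSubgroupOf]
  exact (y β).2

/-- PROOF. As `r6_ww` (Lib/L1S/R6C.lean): the map `y ↦ ∑ y_β Y_β` is injective on the `y` supported on `Posk b k` (`rh5_cf_sum`, `J.cst0`), so the index is the product of the indices. -/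
theorem rh6_ws (J : LieH b K L D H) (k : ℕ) (S S' : ι → AddSubgroup K) (h : ∀ β, S' β ≤ S β) : (WS J k S').relIndex (WS J k S) = ∏ β ∈ Posk b k, (S' β).relIndex (S β) := by
  rw [rh6c_top J k S, rh6c_map J k S S' h, AddSubgroup.relIndex_map_map_of_injective _ _ (rh6c_inj J k S),
    AddSubgroup.relIndex_top_right, rh6c_index_pi, ← Finset.prod_coe_sort (Posk b k)]
  rfl

end

end Pool.Agent.Lib.L1S
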