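import Pool.Agent.Lib.L1S.RH0
import Pool.Agent.Lib.L1S.RH4
import Pool.Agent.Lib.L1S.RH5C
import Pool.Agent.Lib.L1S.RH5D
import Pool.Agent.Lib.L1S.RH6C

/-!
# L1S, module R_H (arithmetic of quasi-split groups), RH6D: the degree parts of `Γ ∩ U` and `h⁻¹ Γ h ∩ U`
-/

namespace Pool.Agent.Lib.L1S

open MeasureTheory Matrix NumberField IsDedekindDomain Pool.Agent.Lib.H89N Pool.Agent.Lib.H33W
open scoped ENNReal Pointwise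

noncomputable section

set_option linter.unusedSectionVars false

variable {ι M N : Type} [Fintype ι] [DecidableEq ι] [AddCommGroup M] [Module ℚ M] [AddCommGroup N] [Module ℚ N]
  {P : RootPairing ι ℚ M N} [P.IsCrystallographic] [P.IsRootSystem] {b : P.Base} {K L : Type} [Field K] [NumberField K] [Field L] [NumberField L] [Algebra K L]
  {D : Set (Equiv.Perm ι)} {H : Subgroup (GK b L)}

theorem rh6d_one {𝔞 : Ideal (𝓞 K)} {y : K} (h : y ∈ idK 𝔞 1) : Pool.Agent.Lib.L1S.InI 𝔞 y := by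
  have h1 : Pool.Agent.Lib.L1S.InI 𝔞 (((1 : ℕ) : K) * y) := h
  rwa [Nat.cast_one, one_mul] at h1

/-- PROOF. `J.prK k y` (`rh5_prK_GamL`, `rh5_prK_H`, `rh5_prK_FK`, `rh5_prK_dgk`). -/
theorem rh6_lo (J : LieH b K L D H) {k : ℕ} (hk : 1 ≤ k) (𝔫 : Ideal (𝓞 K)) (v : HeightOneSpectrum (𝓞 K)) (r s : ℕ) :
    (WS J k fun _ => idK 𝔫 1 : Set (Matrix (I b) (I b) L)) ⊆ (fun g : GK b L => dgk b k g.1.1) '' ((GamL b L 𝔫 v r s ⊓ H ⊓ FK b L k : Subgroup (GK b L)) : Set (GK b L)) := by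
  rintro X ⟨y, hy, rfl⟩
  exact ⟨J.prK k y, ⟨⟨rh5_prK_GamL J k v r s fun β => rh6d_one (hy β), rh5_prK_H J k y⟩, rh5_prK_FK J k y⟩,
    rh5_prK_dgk J hk y⟩

theorem rh6d_set (J : LieH b K L D H) {k : ℕ} {S : ι → AddSubgroup K} {X : Matrix (I b) (I b) L} {y : ι → K}
    (hX : X = ∑ β ∈ Posk b k, algebraMap K L (y β) • J.Y β) (h : ∀ β ∈ Posk b k, y β ∈ S β) : X ∈ WS J k S := by
  refine ⟨fun β => if β ∈ Posk b k then y β else 0, fun β => ?_, ?_⟩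
  · by_cases hβ : β ∈ Posk b k
    · simp only [if_pos hβ]
      exact h β hβ
    · simp only [if_neg hβ]
      exact zero_mem _
  · rw [hX]
    refine Finset.sum_congr rfl fun β hβ => ?_
    simp only [if_pos hβ]

/-- PROOF. `rh5_degH`, `rh5_cf_InI` (for `β` not in `Posk b k` put `y_β = 0`). -/
theorem rh6_hi (J : LieH b K L D H) {k : ℕ} (hk : 1 ≤ k) (𝔫 : Ideal (𝓞 K)) (v : HeightOneSpectrum (𝓞 K)) (r s : ℕ) :
    (fun g : GK b L => dgk b k g.1.1) '' ((GamL b L 𝔫 v r s ⊓ H ⊓ FK b L k : Subgroup (GK b L)) : Set (GK b L)) ⊆ (WS J k fun _ => idK 𝔫 J.cst : Set (Matrix (I b) (I b) L)) := by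
  rintro _ ⟨g, ⟨⟨hg1, hg2⟩, hg3⟩, rfl⟩
  obtain ⟨y, hy, hy2⟩ := rh5_degH J hk hg2 hg3
  refine rh6d_set J hy fun β hβ => ?_
  show Pool.Agent.Lib.L1S.InI 𝔫 ((J.cst : K) * y β)
  rw [hy2 β hβ]
  exact rh5_cf_InI J (r1_mem_posk.1 hβ).1 fun i j => (hg1 i j).1.1

/-- PROOF. `J.prK k y`, `rh5_prK_GhL`. -/
theorem rh6_loh (J : LieH b K L D H) {k : ℕ} (hk : 1 ≤ k) {𝔫 : Ideal (𝓞 K)} {v : HeightOneSpectrum (𝓞 K)} {r s : ℕ} {c : b.support → ℤ} (hc : InvCD b D c) {π : K} {h : GK b L} (hL : LvL b 𝔫 v r s c π h) :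
    (WS J k fun β => idK (𝔫 * v.asIdeal ^ (pr b c (Sum.inr β)).toNat) 1 : Set (Matrix (I b) (I b) L)) ⊆
      (fun g : GK b L => dgk b k g.1.1) '' ((GhL b 𝔫 v r s h ⊓ H ⊓ FK b L k : Subgroup (GK b L)) : Set (GK b L)) := by
  rintro X ⟨y, hy, rfl⟩
  exact ⟨J.prK k y, ⟨⟨rh5_prK_GhL J k hc hL fun β => rh6d_one (hy β), rh5_prK_H J k y⟩, rh5_prK_FK J k y⟩,
    rh5_prK_dgk J hk y⟩

/-- PROOF. `g ∈ GhL ⊓ FK k` is in `GamL` (`rh4_le`, `J.uni`; `r1_HU`, `r1_FK_mono`), so `cst y_β = cf β g ∈ 𝔫` (`rh5_degH`, `rh5_cf_InI`), and `v(cf β g) ≤ exp (-pr β)` (`rh5_cf_cj`, `rh3_GhL`); `r2_mul` (`pr β ≥ 0`: `r1_pr_pos`). For `β` not in `Posk b k` put `y_β = 0`. -/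
theorem rh6_hih (J : LieH b K L D H) {k : ℕ} (hk : 1 ≤ k) {𝔫 : Ideal (𝓞 K)} {v : HeightOneSpectrum (𝓞 K)} {r s : ℕ} {c : b.support → ℤ} (hc : InvCD b D c) {π : K} {h : GK b L} (hL : LvL b 𝔫 v r s c π h) :
    (fun g : GK b L => dgk b k g.1.1) '' ((GhL b 𝔫 v r s h ⊓ H ⊓ FK b L k : Subgroup (GK b L)) : Set (GK b L)) ⊆
      (WS J k fun β => idK (𝔫 * v.asIdeal ^ (pr b c (Sum.inr β)).toNat) J.cst : Set (Matrix (I b) (I b) L)) := by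
  rintro _ ⟨g, ⟨⟨hg1, hg2⟩, hg3⟩, rfl⟩
  have hHU : g ∈ HU b L := by
    rw [r1_HU]
    exact r1_FK_mono hk hg3
  have hgam : g ∈ GamL b L 𝔫 v r s := rh4_le J.uni hL ⟨hg1, hHU⟩
  have hcj := ((rh3_GhL hL).1 hg1).2.1
  obtain ⟨y, hy, hy2⟩ := rh5_degH J hk hg2 hg3
  refine rh6d_set J hy fun β hβ => ?_
  have hβ' := (r1_mem_posk.1 hβ).1
  show Pool.Agent.Lib.L1S.InI (𝔫 * v.asIdeal ^ (pr b c (Sum.inr β)).toNat) ((J.cst : K) * y β)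
  rw [hy2 β hβ, r2_mul hL.nv, Int.toNat_of_nonneg (r1_pr_pos hL.dom hβ')]
  exact ⟨rh5_cf_InI J hβ' fun i j => (hgam i j).1.1, rh5_cf_cj J hβ' hc hL.hπ fun i j => (hcj i j).1⟩

end

end Pool.Agent.Lib.L1S
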