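import Pool.Agent.Lib.L1S.RH0
import Pool.Agent.Lib.L1S.R6B
import Pool.Agent.Lib.L1S.RH6D

/-!
# L1S, module R_H (arithmetic of quasi-split groups), RH7: the indices
-/

namespace Pool.Agent.Lib.L1S

open MeasureTheory Matrix NumberField IsDedekindDomain Pool.Agent.Lib.H89N Pool.Agent.Lib.H33W
open scoped ENNReal Pointwise

noncomputable section

set_option linter.unusedSectionVars false

variable {ι M N : Type} [Fintype ι] [DecidableEq ι] [AddCommGroup M] [Module ℚ M] [AddCommGroup N] [Module ℚ N]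
  {P : RootPairing ι ℚ M N} [P.IsCrystallographic] [P.IsRootSystem] {b : P.Base} {K L : Type} [Field K] [NumberField K] [Field L] [NumberField L] [Algebra K L]
  {D : Set (Equiv.Perm ι)} {H : Subgroup (GK b L)}

/-- The constant in the indices. -/
def LieH.cl (J : LieH b K L D H) : ℕ := (J.cst ^ Module.finrank ℚ K) ^ (Pos b).card

theorem rh7_idK_cst (𝔞 : Ideal (𝓞 K)) (n : ℕ) : idK 𝔞 1 ≤ idK 𝔞 n := by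
  rintro y ⟨a, ha, e⟩
  refine ⟨(n : 𝓞 K) * a, 𝔞.mul_mem_left _ ha, ?_⟩
  rw [Nat.cast_one, one_mul] at e
  rw [← e]
  push_cast
  rfl

theorem rh7_idK_mul (𝔞 𝔠 : Ideal (𝓞 K)) (n : ℕ) : idK (𝔞 * 𝔠) n ≤ idK 𝔞 n := by
  rintro y ⟨a, ha, e⟩
  exact ⟨a, (Ideal.mul_le_left : 𝔞 * 𝔠 ≤ 𝔞) ha, e⟩

/-- The additive group of the degree parts. -/
def rh7_grp {k : ℕ} (hk : 1 ≤ k) (Γ : Subgroup (GK b L)) : AddSubgroup (Matrix (I b) (I b) L) where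
  carrier := (fun g : GK b L => dgk b k g.1.1) '' ((Γ ⊓ FK b L k : Subgroup (GK b L)) : Set (GK b L))
  zero_mem' := ⟨1, one_mem _, dgk_one hk⟩
  add_mem' := by
    rintro _ _ ⟨g, hg, rfl⟩ ⟨h, hh, rfl⟩
    exact ⟨g * h, mul_mem hg hh, dgk_mul hk hg.2.1 hh.2.1⟩
  neg_mem' := by
    rintro _ ⟨g, hg, rfl⟩
    exact ⟨g⁻¹, inv_mem hg, r1_dgk_inv hk hg.2⟩

/-- The same for all `k`. -/
def rh7_grp' (Γ : Subgroup (GK b L)) (k : ℕ) : AddSubgroup (Matrix (I b) (I b) L) := if hk : 1 ≤ k then rh7_grp hk Γ else ⊥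

theorem rh7_grp_eq {k : ℕ} (hk : 1 ≤ k) (Γ : Subgroup (GK b L)) : rh7_grp' Γ k = rh7_grp hk Γ := dif_pos hk

theorem rh7_inf {k : ℕ} (hk : 1 ≤ k) (Γ : Subgroup (GK b L)) : Γ ⊓ HU b L ⊓ FK b L k = Γ ⊓ FK b L k := by
  rw [inf_assoc, r1_HU, inf_eq_right.mpr (r1_FK_mono hk)]

theorem rh7_chain (J : LieH b K L D H) {Γ Γ' : Subgroup (GK b L)} (h1 : Γ' ⊓ HU b L ≤ Γ ⊓ HU b L) {𝔞 : Ideal (𝓞 K)} (h𝔞 : 𝔞 ≠ ⊥) (𝔠 : ι → Ideal (𝓞 K)) (h𝔠 : ∀ β, 𝔠 β ≠ ⊥)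
    (lo : ∀ k, 1 ≤ k → (WS J k fun _ => idK 𝔞 1 : Set (Matrix (I b) (I b) L)) ⊆ (fun g : GK b L => dgk b k g.1.1) '' ((Γ ⊓ FK b L k : Subgroup (GK b L)) : Set (GK b L)))
    (hi : ∀ k, 1 ≤ k → (fun g : GK b L => dgk b k g.1.1) '' ((Γ ⊓ FK b L k : Subgroup (GK b L)) : Set (GK b L)) ⊆ (WS J k fun _ => idK 𝔞 J.cst : Set (Matrix (I b) (I b) L)))
    (loh : ∀ k, 1 ≤ k → (WS J k fun β => idK (𝔞 * 𝔠 β) 1 : Set (Matrix (I b) (I b) L)) ⊆ (fun g : GK b L => dgk b k g.1.1) '' ((Γ' ⊓ FK b L k : Subgroup (GK b L)) : Set (GK b L)))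
    (hih : ∀ k, 1 ≤ k → (fun g : GK b L => dgk b k g.1.1) '' ((Γ' ⊓ FK b L k : Subgroup (GK b L)) : Set (GK b L)) ⊆ (WS J k fun β => idK (𝔞 * 𝔠 β) J.cst : Set (Matrix (I b) (I b) L))) :
    (Γ' ⊓ HU b L).relIndex (Γ ⊓ HU b L) ≤ J.cl * ∏ β ∈ Pos b, Ideal.absNorm (𝔠 β) ∧
      ∏ β ∈ Pos b, Ideal.absNorm (𝔠 β) ≤ J.cl * (Γ' ⊓ HU b L).relIndex (Γ ⊓ HU b L) ∧ (Γ' ⊓ HU b L).relIndex (Γ ⊓ HU b L) ≠ 0 := by
  have h2 : Γ ⊓ HU b L ≤ FK b L 1 := by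
    rw [← r1_HU]
    exact inf_le_right
  have h3 := r6_chain (FK b L) (fun k g => dgk b k g.1.1) (fun k hk g hg h hh => dgk_mul hk hg.1 hh.1)
    (fun k hk g => r1_succ hk g) (r1_FK_bot (b := b) (K := L)) h1 h2 (rh7_grp' Γ) (rh7_grp' Γ')
    (fun k hk => by
      have hk1 := (Finset.mem_Icc.1 hk).1
      rw [rh7_inf hk1, rh7_grp_eq hk1]
      rfl)
    (fun k hk => by
      have hk1 := (Finset.mem_Icc.1 hk).1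
      rw [rh7_inf hk1, rh7_grp_eq hk1]
      rfl)
  have hd : J.cst ^ Module.finrank ℚ K ≠ 0 := pow_ne_zero _ J.cst0
  have hN : ∀ β, Ideal.absNorm (𝔠 β) ≠ 0 := fun β => by
    rw [Ne, Ideal.absNorm_eq_zero_iff]
    exact h𝔠 β
  have key : ∀ k ∈ Finset.Icc 1 (HM b),
      (rh7_grp' Γ' k).relIndex (rh7_grp' Γ k) ≤ (∏ _β ∈ Posk b k, J.cst ^ Module.finrank ℚ K) * ∏ β ∈ Posk b k, Ideal.absNorm (𝔠 β) ∧
      ∏ β ∈ Posk b k, Ideal.absNorm (𝔠 β) ≤ (∏ _β ∈ Posk b k, J.cst ^ Module.finrank ℚ K) * (rh7_grp' Γ' k).relIndex (rh7_grp' Γ k) ∧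
      (rh7_grp' Γ' k).relIndex (rh7_grp' Γ k) ≠ 0 := by
    intro k hk
    have hk1 := (Finset.mem_Icc.1 hk).1
    rw [rh7_grp_eq hk1, rh7_grp_eq hk1]
    have i1 : (WS J k fun _ => idK 𝔞 1).relIndex (WS J k fun _ => idK 𝔞 J.cst) = ∏ _β ∈ Posk b k, J.cst ^ Module.finrank ℚ K := by
      rw [rh6_ws J k _ _ fun _ => rh7_idK_cst 𝔞 J.cst]
      exact Finset.prod_congr rfl fun β _ => rh6_cst 𝔞 h𝔞 J.cst0
    have i2 : (WS J k fun β => idK (𝔞 * 𝔠 β) 1).relIndex (WS J k fun β => idK (𝔞 * 𝔠 β) J.cst) = ∏ _β ∈ Posk b k, J.cst ^ Module.finrank ℚ K := by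
      rw [rh6_ws J k _ _ fun β => rh7_idK_cst (𝔞 * 𝔠 β) J.cst]
      exact Finset.prod_congr rfl fun β _ => rh6_cst (𝔞 * 𝔠 β) (mul_ne_zero h𝔞 (h𝔠 β)) J.cst0
    have i3 : (WS J k fun β => idK (𝔞 * 𝔠 β) 1).relIndex (WS J k fun _ => idK 𝔞 1) = ∏ β ∈ Posk b k, Ideal.absNorm (𝔠 β) := by
      rw [rh6_ws J k _ _ fun β => rh7_idK_mul 𝔞 (𝔠 β) 1]
      exact Finset.prod_congr rfl fun β _ => rh6_id 𝔞 (𝔠 β) h𝔞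
    refine rh6_sand (W := WS J k fun _ => idK 𝔞 1) (V := WS J k fun _ => idK 𝔞 J.cst) (W' := WS J k fun β => idK (𝔞 * 𝔠 β) 1)
      (V' := WS J k fun β => idK (𝔞 * 𝔠 β) J.cst) (lo k hk1) (hi k hk1) (loh k hk1) (hih k hk1) ?_ ?_ ?_ ?_ i1 i2 i3
    · rintro _ ⟨g, hg, rfl⟩
      refine ⟨g, ⟨?_, hg.2⟩, rfl⟩
      exact (h1 ⟨hg.1, by rw [r1_HU]; exact r1_FK_mono hk1 hg.2⟩).1
    · rintro _ ⟨y, hy, rfl⟩
      exact ⟨y, fun β => rh7_idK_mul 𝔞 (𝔠 β) 1 (hy β), rfl⟩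
    · exact Finset.prod_ne_zero_iff.2 fun _ _ => hd
    · exact Finset.prod_ne_zero_iff.2 fun β _ => hN β
  have e1 : ∏ k ∈ Finset.Icc 1 (HM b), ∏ _β ∈ Posk b k, J.cst ^ Module.finrank ℚ K = J.cl := by
    rw [r1_prod (b := b) fun _ => J.cst ^ Module.finrank ℚ K, Finset.prod_const]
    rfl
  have e2 : ∏ k ∈ Finset.Icc 1 (HM b), ∏ β ∈ Posk b k, Ideal.absNorm (𝔠 β) = ∏ β ∈ Pos b, Ideal.absNorm (𝔠 β) :=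
    r1_prod (b := b) fun β => Ideal.absNorm (𝔠 β)
  refine ⟨?_, ?_, ?_⟩
  · rw [h3, ← e1, ← e2, ← Finset.prod_mul_distrib]
    exact Finset.prod_le_prod' fun k hk => (key k hk).1
  · rw [h3, ← e1, ← e2, ← Finset.prod_mul_distrib]
    exact Finset.prod_le_prod' fun k hk => (key k hk).2.1
  · rw [h3]
    exact Finset.prod_ne_zero_iff.2 fun k hk => (key k hk).2.2

theorem rh7_gam (𝔫 : Ideal (𝓞 K)) (v : HeightOneSpectrum (𝓞 K)) (r s : ℕ) : GamL b L 𝔫 v r s ≤ GamL b L ⊤ v 0 0 := by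
  have e1 : up L (v.asIdeal ^ (0 + 0)) = ⊤ := by
    rw [add_zero, pow_zero, Ideal.one_eq_top]
    exact Ideal.map_top _
  have e2 : up L (⊤ : Ideal (𝓞 K)) = ⊤ := Ideal.map_top _
  have key : ∀ (x : Matrix (I b) (I b) L) (i j : I b), InI (up L 𝔫) ((x - 1) i j) →
      (InI (up L (⊤ : Ideal (𝓞 K))) ((x - 1) i j) ∧ (ht b i < ht b j → InI (up L (v.asIdeal ^ (0 + 0))) (x i j)) ∧
        (ht b i = ht b j → InI (up L (v.asIdeal ^ 0)) ((x - 1) i j))) := by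
    intro x i j h
    rw [e1, e2]
    refine ⟨h.top, fun hij => ?_, fun _ => h.top⟩
    have hne : i ≠ j := by
      rintro rfl
      exact absurd hij (lt_irrefl _)
    have e2 : x i j = (x - 1) i j := by rw [Matrix.sub_apply, Matrix.one_apply_ne hne, sub_zero]
    rw [e2]
    exact h.top
  intro g hg i j
  exact ⟨key _ i j (hg i j).1.1, key _ i j (hg i j).2.1⟩

/-- PROOF. `r6_chain` with `F = FK b L`, `d k g = dgk b k g.1.1` (`dgk_mul`, `r1_succ`), `H = HM b` (`r1_FK_bot`), `Γ = GamL ⊓ H ⊓ HU`, `Γ' = GhL ⊓ H ⊓ HU` (`rh4_le`, `r1_HU`, `r1_FK_mono`: `Γ ⊓ FK k = GamL ⊓ H ⊓ FK k` for `k ≥ 1`), the groups `D k`, `D' k` from `r6_grp`; `rh6_sand` for every `k` with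
`W = WS (idK 𝔫 1)`, `V = WS (idK 𝔫 cst)`, `W' = WS (idK (𝔫 v ^ pr) 1)`, `V' = WS (idK (𝔫 v ^ pr) cst)` (`rh6_lo`, `rh6_hi`, `rh6_loh`, `rh6_hih`), `n = (cst ^ d) ^ |Posk k|` (`rh6_ws`, `rh6_cst`), `q = ∏_{Posk k} absNorm v ^ pr` (`rh6_ws`, `rh6_id`); product over `k` (`Finset.prod_le_prod`, `r1_prod`). -/
theorem rh7_idx (J : LieH b K L D H) {𝔫 : Ideal (𝓞 K)} {v : HeightOneSpectrum (𝓞 K)} {r s : ℕ} {c : b.support → ℤ} (hc : InvCD b D c) {π : K} {h : GK b L} (hL : LvL b 𝔫 v r s c π h) :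
    (GhL b 𝔫 v r s h ⊓ H ⊓ HU b L).relIndex (GamL b L 𝔫 v r s ⊓ H ⊓ HU b L) ≤ J.cl * ∏ β ∈ Pos b, Ideal.absNorm v.asIdeal ^ (pr b c (Sum.inr β)).toNat ∧
    ∏ β ∈ Pos b, Ideal.absNorm v.asIdeal ^ (pr b c (Sum.inr β)).toNat ≤ J.cl * (GhL b 𝔫 v r s h ⊓ H ⊓ HU b L).relIndex (GamL b L 𝔫 v r s ⊓ H ⊓ HU b L) ∧
    (GhL b 𝔫 v r s h ⊓ H ⊓ HU b L).relIndex (GamL b L 𝔫 v r s ⊓ H ⊓ HU b L) ≠ 0 := by
  have h1 : GhL b 𝔫 v r s h ⊓ H ⊓ HU b L ≤ GamL b L 𝔫 v r s ⊓ H ⊓ HU b L := by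
    rintro g ⟨⟨g1, g2⟩, g3⟩
    exact ⟨⟨rh4_le J.uni hL ⟨g1, g3⟩, g2⟩, g3⟩
  have h2 := rh7_chain J h1 hL.ne (fun β => v.asIdeal ^ (pr b c (Sum.inr β)).toNat) (fun β => pow_ne_zero _ v.ne_bot)
    (fun k hk => rh6_lo J hk 𝔫 v r s) (fun k hk => rh6_hi J hk 𝔫 v r s) (fun k hk => rh6_loh J hk hc hL) (fun k hk => rh6_hih J hk hc hL)
  have e : ∏ β ∈ Pos b, Ideal.absNorm (v.asIdeal ^ (pr b c (Sum.inr β)).toNat) = ∏ β ∈ Pos b, Ideal.absNorm v.asIdeal ^ (pr b c (Sum.inr β)).toNat :=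
    Finset.prod_congr rfl fun β _ => map_pow _ _ _
  rw [e] at h2
  exact h2

/-- PROOF. As `rh7_idx` with `Γ = GamL ⊤ v 0 0 ⊓ H ⊓ HU`, `Γ' = GamL 𝔫 v r s ⊓ H ⊓ HU` (`Γ' ≤ Γ`: an entry of `g` is an entry of `g - 1` plus `0` or `1`), `W = WS (idK ⊤ 1)`, `W' = WS (idK 𝔫 1)`, .. (`⊤ * 𝔫 = 𝔫`). -/
theorem rh7_top (J : LieH b K L D H) {𝔫 : Ideal (𝓞 K)} (h0 : 𝔫 ≠ ⊥) (v : HeightOneSpectrum (𝓞 K)) (r s : ℕ) :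
    GamL b L 𝔫 v r s ⊓ H ⊓ HU b L ≤ GamL b L ⊤ v 0 0 ⊓ H ⊓ HU b L ∧
    Ideal.absNorm 𝔫 ^ (Pos b).card ≤ J.cl * (GamL b L 𝔫 v r s ⊓ H ⊓ HU b L).relIndex (GamL b L ⊤ v 0 0 ⊓ H ⊓ HU b L) ∧
    (GamL b L 𝔫 v r s ⊓ H ⊓ HU b L).relIndex (GamL b L ⊤ v 0 0 ⊓ H ⊓ HU b L) ≠ 0 := by
  have h1 : GamL b L 𝔫 v r s ⊓ H ⊓ HU b L ≤ GamL b L ⊤ v 0 0 ⊓ H ⊓ HU b L := by
    rintro g ⟨⟨g1, g2⟩, g3⟩
    exact ⟨⟨rh7_gam 𝔫 v r s g1, g2⟩, g3⟩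
  have e : (⊤ : Ideal (𝓞 K)) * 𝔫 = 𝔫 := Ideal.top_mul 𝔫
  have h2 := rh7_chain J h1 top_ne_bot (fun _ => 𝔫) (fun _ => h0)
    (fun k hk => rh6_lo J hk ⊤ v 0 0) (fun k hk => rh6_hi J hk ⊤ v 0 0)
    (fun k hk => by rw [e]; exact rh6_lo J hk 𝔫 v r s) (fun k hk => by rw [e]; exact rh6_hi J hk 𝔫 v r s)
  rw [Finset.prod_const] at h2
  exact ⟨h1, h2.2.1, h2.2.2⟩

end

end Pool.Agent.Lib.L1S
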