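import Pool.Agent.Lib.L1S.RH0
import Pool.Agent.Lib.L1S.RH7

/-!
# L1S, module R_H (arithmetic of quasi-split groups), RH7B: the indices in `H`
-/

namespace Pool.Agent.Lib.L1S

open MeasureTheory Matrix NumberField IsDedekindDomain Pool.Agent.Lib.H89N Pool.Agent.Lib.H33W
open scoped ENNReal Pointwise

noncomputable section

set_option linter.unusedSectionVars false

variable {ι M N : Type} [Fintype ι] [DecidableEq ι] [AddCommGroup M] [Module ℚ M] [AddCommGroup N] [Module ℚ N]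
  {P : RootPairing ι ℚ M N} [P.IsCrystallographic] [P.IsRootSystem] {b : P.Base} {K L : Type} [Field K] [NumberField K] [Field L] [NumberField L] [Algebra K L]
  {D : Set (Equiv.Perm ι)} {H : Subgroup (GK b L)}

theorem rh7b_sub {G : Type} [Group G] (A B H : Subgroup G) : (A.subgroupOf H).relIndex (B.subgroupOf H) = (A ⊓ H).relIndex (B ⊓ H) := by
  rw [← Subgroup.inf_subgroupOf_right A H, ← Subgroup.inf_subgroupOf_right B H]
  exact Subgroup.relIndex_subgroupOf inf_le_right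

theorem rh7b_HUH : HUH H = (HU b L).subgroupOf H := rfl

theorem rh7b_inf (X : Subgroup (GK b L)) : X.subgroupOf H ⊓ (HU b L).subgroupOf H = (X ⊓ HU b L).subgroupOf H := rfl

/-- PROOF. Subgroups of `H`: `(A.subgroupOf H).relIndex (B.subgroupOf H) = (A ⊓ H).relIndex (B ⊓ H)`, and the same again for `HUH H = (HU b L).subgroupOf H` (`rfl`-type: `emb` of an element of `H`); `Subgroup.relIndex_subgroupOf`, `Subgroup.inf_subgroupOf..`, or `Subgroup.relIndex_comap`, `Subgroup.map_comap`. -/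
theorem rh7_conv (A B : Subgroup (GK b L)) : ((A.subgroupOf H).subgroupOf (HUH H)).relIndex ((B.subgroupOf H).subgroupOf (HUH H)) = (A ⊓ H ⊓ HU b L).relIndex (B ⊓ H ⊓ HU b L) := by
  rw [rh7b_sub, rh7b_HUH, rh7b_inf, rh7b_inf, rh7b_sub, inf_right_comm A, inf_right_comm B]

theorem rh7_GhQ (𝔫 : Ideal (𝓞 K)) (v : HeightOneSpectrum (𝓞 K)) (r s : ℕ) (h : H) : GhQ H 𝔫 v r s h = (GhL b 𝔫 v r s h.1).subgroupOf H := by
  ext g
  exact Iff.rfl

/-- PROOF. `rh7_idx`, `rh7_conv`, `rh7_GhQ`; `∏ q ^ (pr β).toNat = q ^ (∑ pr β)` (`zpow`, `q ≠ 0`, `pr β ≥ 0`: `r1_pr_pos`; as `r7_idx'`). -/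
theorem rh7_fin (J : LieH b K L D H) {𝔫 : Ideal (𝓞 K)} {v : HeightOneSpectrum (𝓞 K)} {r s : ℕ} {c : b.support → ℤ} (hc : InvCD b D c) {π : K} {h : H} (hL : LvL b 𝔫 v r s c π h.1) :
    (((GhQ H 𝔫 v r s h).subgroupOf (HUH H)).relIndex ((GamQ H 𝔫 v r s).subgroupOf (HUH H)) : ℝ) ≤ J.cl * (Ideal.absNorm v.asIdeal : ℝ) ^ (∑ β ∈ Pos b, pr b c (Sum.inr β)) ∧
    (Ideal.absNorm v.asIdeal : ℝ) ^ (∑ β ∈ Pos b, pr b c (Sum.inr β)) ≤ J.cl * (((GhQ H 𝔫 v r s h).subgroupOf (HUH H)).relIndex ((GamQ H 𝔫 v r s).subgroupOf (HUH H)) : ℝ) ∧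
    ((GhQ H 𝔫 v r s h).subgroupOf (HUH H)).relIndex ((GamQ H 𝔫 v r s).subgroupOf (HUH H)) ≠ 0 := by
  have h1 := rh7_idx J hc hL
  rw [← rh7_conv] at h1
  rw [rh7_GhQ]
  have e : (Ideal.absNorm v.asIdeal : ℝ) ^ (∑ β ∈ Pos b, pr b c (Sum.inr β)) =
      ((∏ β ∈ Pos b, Ideal.absNorm v.asIdeal ^ (pr b c (Sum.inr β)).toNat : ℕ) : ℝ) := by
    have h2 : ∑ β ∈ Pos b, pr b c (Sum.inr β) = ((∑ β ∈ Pos b, (pr b c (Sum.inr β)).toNat : ℕ) : ℤ) := by
      rw [Nat.cast_sum]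
      exact Finset.sum_congr rfl fun β hβ => (Int.toNat_of_nonneg (r1_pr_pos hL.dom hβ)).symm
    rw [h2, zpow_natCast, ← Finset.prod_pow_eq_pow_sum]
    push_cast
    rfl
  rw [e]
  refine ⟨?_, ?_, h1.2.2⟩
  · exact_mod_cast h1.1
  · exact_mod_cast h1.2.1

end

end Pool.Agent.Lib.L1S
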