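import Pool.Agent.Lib.L1S.RH0
import Pool.Agent.Lib.L1S.RH7B
import Pool.Agent.Lib.L1S.RH12C
import Pool.Agent.Lib.L1S.R13A

/-!
# L1S, module R_H (arithmetic of quasi-split groups), RH13: the volume of `U ∩ a Ω a⁻¹`
-/

namespace Pool.Agent.Lib.L1S

open MeasureTheory Matrix NumberField IsDedekindDomain Pool.Agent.Lib.H89N Pool.Agent.Lib.H33W
open scoped ENNReal Pointwise

noncomputable section

set_option linter.unusedSectionVars false

variable {ι M N : Type} [Fintype ι] [DecidableEq ι] [AddCommGroup M] [Module ℚ M] [AddCommGroup N] [Module ℚ N]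
  {P : RootPairing ι ℚ M N} [P.IsCrystallographic] [P.IsRootSystem] {b : P.Base} {K L : Type} [Field K] [NumberField K] [Field L] [NumberField L] [Algebra K L]
  {D : Set (Equiv.Perm ι)} {H : Subgroup (GK b L)}

/-- PROOF. As `r13_meas` (Lib/L1S/R13A.lean). -/
theorem rh13_meas {Ω : Set (GL (I b) (EE L))} (hΩ : IsCompact Ω) (A : M →ₗ[ℚ] ℝ) : MeasurableSet {u : UHR H | ∃ κ ∈ Ω, u.1.1.1.1 = dg b L A * κ.1 * dg b L (-A)} := by
  have h1 : dg b L A * dg b L (-A) = 1 := r13a_dg A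
  have h2 : dg b L (-A) * dg b L A = 1 := by
    have := r13a_dg (b := b) (K := L) (-A)
    rwa [neg_neg] at this
  have hc : IsCompact ((fun κ : GL (I b) (EE L) => κ.1) '' Ω) := hΩ.image Units.continuous_val
  have hcont : Continuous fun u : UHR H => dg b L (-A) * u.1.1.1.1 * dg b L A := by
    have h3 : Continuous fun u : UHR H => u.1.1.1.1 :=
      Units.continuous_val.comp (continuous_subtype_val.comp (continuous_subtype_val.comp continuous_subtype_val))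
    exact (continuous_const.mul h3).mul continuous_const
  have h4 : {u : UHR H | ∃ κ ∈ Ω, u.1.1.1.1 = dg b L A * κ.1 * dg b L (-A)} =
      (fun u : UHR H => dg b L (-A) * u.1.1.1.1 * dg b L A) ⁻¹' ((fun κ : GL (I b) (EE L) => κ.1) '' Ω) := by
    ext u
    constructor
    · rintro ⟨κ, hκ, h⟩
      refine ⟨κ, hκ, ?_⟩
      show κ.1 = dg b L (-A) * u.1.1.1.1 * dg b L A
      rw [h]
      calc κ.1 = 1 * κ.1 * 1 := by rw [one_mul, mul_one]
        _ = (dg b L (-A) * dg b L A) * κ.1 * (dg b L (-A) * dg b L A) := by rw [h2]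
        _ = dg b L (-A) * (dg b L A * κ.1 * dg b L (-A)) * dg b L A := by noncomm_ring
    · rintro ⟨κ, hκ, h⟩
      have h' : κ.1 = dg b L (-A) * u.1.1.1.1 * dg b L A := h
      refine ⟨κ, hκ, ?_⟩
      rw [h']
      calc u.1.1.1.1 = 1 * u.1.1.1.1 * 1 := by rw [one_mul, mul_one]
        _ = (dg b L A * dg b L (-A)) * u.1.1.1.1 * (dg b L A * dg b L (-A)) := by rw [h1]
        _ = dg b L A * (dg b L (-A) * u.1.1.1.1 * dg b L A) * dg b L (-A) := by noncomm_ring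
  rw [h4]
  exact (hc.isClosed.preimage hcont).measurableSet

/-- PROOF. As `r13_top` (Lib/L1S/R13B.lean). The countability of `H` and the invariance of `ν` under `u ↦ kUH γ * u` are clear (`measurePreserving_mul_left`; `GK b L` is countable: `t3_count`). The existence of `D₀` is not needed here. -/
theorem rh13_top (J : LieH b K L D H) {Ω : Set (GL (I b) (EE L))} (hΩ : IsCompact Ω) : ∃ C : ℝ, 0 ≤ C ∧ ∀ (ν : Measure (UHR H)) [ν.IsHaarMeasure] (v : HeightOneSpectrum (𝓞 K)) (D₀ : Set (UHR H)),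
    SF ((GamQ H ⊤ v 0 0).subgroupOf (HUH H)) D₀ → ∀ A : M →ₗ[ℚ] ℝ, InvF P D A → (∀ i : b.support, 0 ≤ A (P.root i)) →
    ν {u : UHR H | ∃ κ ∈ Ω, u.1.1.1.1 = dg b L A * κ.1 * dg b L (-A)} ≤ ENNReal.ofReal (C * ∏ β ∈ Pos b, Real.exp (Module.finrank ℚ K * A (P.root β))) * ν D₀ := by
  obtain ⟨C, hC1, hcount⟩ := rh12_count J (Ω := Ω * Ω⁻¹) (hΩ.mul hΩ.inv)
  refine ⟨C, le_trans zero_le_one hC1, ?_⟩
  intro ν _ v D₀ hD₀ A hInv hA
  obtain ⟨hfin, hcard⟩ := hcount v A hInv hA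
  have := t3_count b L
  have hcnt : Countable (HUH H) := inferInstance
  set CC := {γ : GK b L | γ ∈ GamL b L ⊤ v 0 0 ∧ γ ∈ H ∧ γ ∈ HU b L ∧
    ∃ κ ∈ Ω * Ω⁻¹, (emb b L γ).1.1 = dg b L A * κ.1 * dg b L (-A)} with hCC
  have hn : ∀ x : UHR H, {γ : HUH H | γ ∈ (GamQ H ⊤ v 0 0).subgroupOf (HUH H) ∧
      γ • x ∈ {u : UHR H | ∃ κ ∈ Ω, u.1.1.1.1 = dg b L A * κ.1 * dg b L (-A)}}.Finite ∧
      {γ : HUH H | γ ∈ (GamQ H ⊤ v 0 0).subgroupOf (HUH H) ∧
      γ • x ∈ {u : UHR H | ∃ κ ∈ Ω, u.1.1.1.1 = dg b L A * κ.1 * dg b L (-A)}}.ncard ≤ CC.ncard := by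
    intro x
    set S := {γ : HUH H | γ ∈ (GamQ H ⊤ v 0 0).subgroupOf (HUH H) ∧
      γ • x ∈ {u : UHR H | ∃ κ ∈ Ω, u.1.1.1.1 = dg b L A * κ.1 * dg b L (-A)}} with hS
    rcases S.eq_empty_or_nonempty with h0 | ⟨γ₀, hγ₀⟩
    · rw [h0]
      exact ⟨Set.finite_empty, by rw [Set.ncard_empty]; exact Nat.zero_le _⟩
    · obtain ⟨h1, κ₀, hκ₀, h2⟩ := hγ₀
      have hmaps : ∀ γ ∈ S, ((γ * γ₀⁻¹ : HUH H) : H).1 ∈ CC := by
        rintro γ ⟨h3, κ, hκ, h4⟩
        refine ⟨?_, ((γ * γ₀⁻¹ : HUH H) : H).2, (γ * γ₀⁻¹).2, κ * κ₀⁻¹, Set.mul_mem_mul hκ (Set.inv_mem_inv.2 hκ₀), ?_⟩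
        · exact (GamL b L ⊤ v 0 0).mul_mem h3 ((GamL b L ⊤ v 0 0).inv_mem h1)
        · have h5 := (r12_quot (x := (γ • x : UHR H).1.1) (y := (γ₀ • x : UHR H).1.1) h4 h2).2
          have h6 : (γ • x : UHR H).1.1 * ((γ₀ • x : UHR H).1.1)⁻¹ = emb b L ((γ * γ₀⁻¹ : HUH H) : H).1 := by
            have e1 : (γ • x : UHR H).1.1 = emb b L γ.1.1 * x.1.1 := rfl
            have e2 : (γ₀ • x : UHR H).1.1 = emb b L γ₀.1.1 * x.1.1 := rfl
            have e3 : ((γ * γ₀⁻¹ : HUH H) : H).1 = γ.1.1 * γ₀.1.1⁻¹ := rfl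
            rw [e1, e2, e3, map_mul, map_inv]
            group
          rw [h6] at h5
          exact h5
      have hinj : Set.InjOn (fun γ : HUH H => ((γ * γ₀⁻¹ : HUH H) : H).1) S := by
        intro γ _ γ' _ h
        exact mul_right_cancel (Subtype.val_injective (Subtype.val_injective h))
      exact ⟨Set.Finite.of_injOn (fun γ hγ => hmaps γ hγ) hinj hfin,
        Set.ncard_le_ncard_of_injOn _ hmaps hinj hfin⟩
  have hp : ∀ h : HUH H, MeasurePreserving (fun x : UHR H => h • x) ν ν := fun h => measurePreserving_mul_left ν (kUH H h)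
  refine (r13_le hp hD₀ (rh13_meas hΩ A) hn).trans ?_
  refine mul_le_mul_left ?_ _
  rw [← ENNReal.ofReal_natCast]
  exact ENNReal.ofReal_le_ofReal hcard

end

end Pool.Agent.Lib.L1S
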