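import Pool.Agent.Lib.L1S.RH0
import Pool.Agent.Lib.L1S.RH13
import Pool.Agent.Lib.L1S.RH7B
import Pool.Agent.Lib.L1S.T3

/-!
# L1S, module R_H (arithmetic of quasi-split groups), RH13B: the volume of `U ∩ a Ω a⁻¹`, final form
-/

namespace Pool.Agent.Lib.L1S

open MeasureTheory Matrix NumberField IsDedekindDomain Pool.Agent.Lib.H89N Pool.Agent.Lib.H33W
open scoped ENNReal Pointwise

noncomputable section

set_option linter.unusedSectionVars false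

variable {ι M N : Type} [Fintype ι] [DecidableEq ι] [AddCommGroup M] [Module ℚ M] [AddCommGroup N] [Module ℚ N]
  {P : RootPairing ι ℚ M N} [P.IsCrystallographic] [P.IsRootSystem] {b : P.Base} {K L : Type} [Field K] [NumberField K] [Field L] [NumberField L] [Algebra K L]
  {D : Set (Equiv.Perm ι)} {H : Subgroup (GK b L)}

theorem rh13b_pres (ν : Measure (UHR H)) [ν.IsHaarMeasure] (h : HUH H) :
    MeasurePreserving (fun x : UHR H => h • x) ν ν :=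
  measurePreserving_mul_left ν (kUH H h)

/-- PROOF. As `r13_vol` (Lib/L1S/R13B.lean): `u2_vol` (Lib/H33W/U2.lean), `ν D = [Γ⊤ : Γ𝔫] ν D₀ ≥ cl⁻¹ N ^ |Pos| ν D₀` (`rh7_top`, `rh7_conv`), `rh13_top`. `hsf` is the existence of `D₀` (module T_H). -/
theorem rh13_vol (J : LieH b K L D H) (hsf : ∀ v : HeightOneSpectrum (𝓞 K), ∃ D₀ : Set (UHR H), SF ((GamQ H ⊤ v 0 0).subgroupOf (HUH H)) D₀) {Ω : Set (GL (I b) (EE L))} (hΩ : IsCompact Ω) :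
    ∃ C : ℝ, 0 ≤ C ∧ ∀ (ν : Measure (UHR H)) [ν.IsHaarMeasure] (𝔫 : Ideal (𝓞 K)), 𝔫 ≠ ⊥ →
    ∀ (v : HeightOneSpectrum (𝓞 K)) (r s : ℕ) (D' : Set (UHR H)), SF ((GamQ H 𝔫 v r s).subgroupOf (HUH H)) D' → ∀ A : M →ₗ[ℚ] ℝ, InvF P D A → (∀ i : b.support, 0 ≤ A (P.root i)) →
    ν {u : UHR H | ∃ κ ∈ Ω, u.1.1.1.1 = dg b L A * κ.1 * dg b L (-A)} ≤
      ENNReal.ofReal (C * ∏ β ∈ Pos b, Real.exp (Module.finrank ℚ K * A (P.root β)) / (Ideal.absNorm 𝔫 : ℝ)) * ν D' := by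
  obtain ⟨C, hC0, hC⟩ := rh13_top J hΩ
  refine ⟨C * J.cl, mul_nonneg hC0 (Nat.cast_nonneg _), ?_⟩
  intro ν _ 𝔫 h𝔫 v r s D' hD' A hAD hA
  have := t3_count b L
  have hcnt : Countable (HUH H) := inferInstance
  obtain ⟨D₀, hD₀⟩ := hsf v
  obtain ⟨h1, h2, h3⟩ := rh7_top J h𝔫 v r s
  have hle : (GamQ H 𝔫 v r s).subgroupOf (HUH H) ≤ (GamQ H ⊤ v 0 0).subgroupOf (HUH H) :=
    fun g hg => (h1 ⟨⟨hg, g.1.2⟩, g.2⟩).1.1
  have hvol := u2_vol (rh13b_pres ν) hle hD₀ hD'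
  have hN : Ideal.absNorm 𝔫 ≠ 0 := fun h => h𝔫 (Ideal.absNorm_eq_zero_iff.1 h)
  rw [← rh7_conv] at h2 h3
  have hu : u2k ((GamQ H ⊤ v 0 0).subgroupOf (HUH H)) ((GamQ H 𝔫 v r s).subgroupOf (HUH H)) =
      ((((GamL b L 𝔫 v r s).subgroupOf H).subgroupOf (HUH H)).relIndex (((GamL b L ⊤ v 0 0).subgroupOf H).subgroupOf (HUH H)) : ENNReal) := by
    have h4 : Nat.card (↥((GamQ H ⊤ v 0 0).subgroupOf (HUH H)) ⧸
        ((GamQ H 𝔫 v r s).subgroupOf (HUH H)).subgroupOf ((GamQ H ⊤ v 0 0).subgroupOf (HUH H))) =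
        (((GamL b L 𝔫 v r s).subgroupOf H).subgroupOf (HUH H)).relIndex (((GamL b L ⊤ v 0 0).subgroupOf H).subgroupOf (HUH H)) := rfl
    have h5 := h3
    rw [← h4] at h5
    have h6 := Nat.finite_of_card_ne_zero h5
    have h7 := Fintype.ofFinite (↥((GamQ H ⊤ v 0 0).subgroupOf (HUH H)) ⧸
        ((GamQ H 𝔫 v r s).subgroupOf (HUH H)).subgroupOf ((GamQ H ⊤ v 0 0).subgroupOf (HUH H)))
    unfold u2k
    rw [tsum_fintype, Finset.sum_const, Finset.card_univ, nsmul_eq_mul, mul_one,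
      ← Nat.card_eq_fintype_card, h4]
  have hQ : 0 ≤ ∏ β ∈ Pos b, Real.exp (Module.finrank ℚ K * A (P.root β)) / (Ideal.absNorm 𝔫 : ℝ) :=
    Finset.prod_nonneg fun β _ => div_nonneg (Real.exp_pos _).le (Nat.cast_nonneg _)
  refine (hC ν v D₀ hD₀ A hAD hA).trans ?_
  rw [hvol, hu, ← mul_assoc, ← ENNReal.ofReal_natCast, ← ENNReal.ofReal_mul
    (mul_nonneg (mul_nonneg hC0 (Nat.cast_nonneg _)) hQ)]
  refine mul_le_mul_left (ENNReal.ofReal_le_ofReal ?_) _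
  have hN' : ((Ideal.absNorm 𝔫 : ℕ) : ℝ) ^ (Pos b).card ≠ 0 := pow_ne_zero _ (by exact_mod_cast hN)
  have e1 : ∏ β ∈ Pos b, Real.exp (Module.finrank ℚ K * A (P.root β)) =
      (∏ β ∈ Pos b, Real.exp (Module.finrank ℚ K * A (P.root β)) / (Ideal.absNorm 𝔫 : ℝ)) * (Ideal.absNorm 𝔫 : ℝ) ^ (Pos b).card := by
    rw [Finset.prod_div_distrib, Finset.prod_const, div_mul_cancel₀ _ hN']
  have e2 : (Ideal.absNorm 𝔫 : ℝ) ^ (Pos b).card ≤ J.cl * ((((GamL b L 𝔫 v r s).subgroupOf H).subgroupOf (HUH H)).relIndex (((GamL b L ⊤ v 0 0).subgroupOf H).subgroupOf (HUH H)) : ℝ) := by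
    exact_mod_cast h2
  rw [e1]
  refine (mul_le_mul_of_nonneg_left (mul_le_mul_of_nonneg_left e2 hQ) hC0).trans (le_of_eq ?_)
  ring

end

end Pool.Agent.Lib.L1S
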