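import Pool.Agent.Lib.L1S.RH0
import Pool.Agent.Lib.L1S.RH13B
import Pool.Agent.Lib.L1S.RH10
import Pool.Agent.Lib.L1S.RH7B

/-!
# L1S, module R_H (arithmetic of quasi-split groups), RHFin: final statements
-/

namespace Pool.Agent.Lib.L1S

open MeasureTheory Matrix NumberField IsDedekindDomain Pool.Agent.Lib.H89N Pool.Agent.Lib.H33W
open scoped ENNReal Pointwise

noncomputable section

set_option linter.unusedSectionVars false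

variable {ι M N : Type} [Fintype ι] [DecidableEq ι] [AddCommGroup M] [Module ℚ M] [AddCommGroup N] [Module ℚ N]
  {P : RootPairing ι ℚ M N} [P.IsCrystallographic] [P.IsRootSystem] {b : P.Base} {K L : Type} [Field K] [NumberField K] [Field L] [NumberField L] [Algebra K L]
  {D : Set (Equiv.Perm ι)} {H : Subgroup (GK b L)}

/-- Cocompactness. -/
theorem q_cc (J : LieH b K L D H) {𝔫 : Ideal (𝓞 K)} (h0 : 𝔫 ≠ ⊥) (v : HeightOneSpectrum (𝓞 K)) (r s : ℕ) (h : H) :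
    ∃ KT : Set (UHR H), IsCompact KT ∧ ∀ t, ∃ δ : HUH H, (δ : H) ∈ GhQ H 𝔫 v r s h ∧ ∃ s ∈ KT, t = kUH H δ * s :=
  rh10_cc J h0 v r s h

/-- `Γ' ∩ U ⊆ Γ`. -/
theorem q_le (hU : ∀ u ∈ UR b L, Uni b u.1.1) {𝔫 : Ideal (𝓞 K)} {v : HeightOneSpectrum (𝓞 K)} {r s : ℕ} {c : b.support → ℤ} {π : K} {h : H} (hL : LvL b 𝔫 v r s c π h.1) :
    GhQ H 𝔫 v r s h ⊓ HUH H ≤ GamQ H 𝔫 v r s := by
  rw [rh7_GhQ]
  rintro g ⟨h1, h2⟩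
  exact rh4_le hU hL ⟨h1, h2⟩

/-- `[Γ_U : Γ'_U] = q ^ (∑_{β > 0} ⟨β, λ⟩)` up to the constant `cl`. -/
theorem q_idx (J : LieH b K L D H) {𝔫 : Ideal (𝓞 K)} {v : HeightOneSpectrum (𝓞 K)} {r s : ℕ} {c : b.support → ℤ} (hc : InvCD b D c) {π : K} {h : H} (hL : LvL b 𝔫 v r s c π h.1) :
    (((GhQ H 𝔫 v r s h).subgroupOf (HUH H)).relIndex ((GamQ H 𝔫 v r s).subgroupOf (HUH H)) : ℝ) ≤ J.cl * (Ideal.absNorm v.asIdeal : ℝ) ^ (∑ β ∈ Pos b, pr b c (Sum.inr β)) ∧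
    (Ideal.absNorm v.asIdeal : ℝ) ^ (∑ β ∈ Pos b, pr b c (Sum.inr β)) ≤ J.cl * (((GhQ H 𝔫 v r s h).subgroupOf (HUH H)).relIndex ((GamQ H 𝔫 v r s).subgroupOf (HUH H)) : ℝ) ∧
    ((GhQ H 𝔫 v r s h).subgroupOf (HUH H)).relIndex ((GamQ H 𝔫 v r s).subgroupOf (HUH H)) ≠ 0 :=
  rh7_fin J hc hL

/-- The volume of `U ∩ a Ω a⁻¹` compared with the covolume of `Γ_U`. -/
theorem q_vol (J : LieH b K L D H) (hsf : ∀ v : HeightOneSpectrum (𝓞 K), ∃ D₀ : Set (UHR H), SF ((GamQ H ⊤ v 0 0).subgroupOf (HUH H)) D₀) {Ω : Set (GL (I b) (EE L))} (hΩ : IsCompact Ω) :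
    ∃ C : ℝ, 0 ≤ C ∧ ∀ (ν : Measure (UHR H)) [ν.IsHaarMeasure] (𝔫 : Ideal (𝓞 K)), 𝔫 ≠ ⊥ →
    ∀ (v : HeightOneSpectrum (𝓞 K)) (r s : ℕ) (D' : Set (UHR H)), SF ((GamQ H 𝔫 v r s).subgroupOf (HUH H)) D' → ∀ A : M →ₗ[ℚ] ℝ, InvF P D A → (∀ i : b.support, 0 ≤ A (P.root i)) →
    ν {u : UHR H | ∃ κ ∈ Ω, u.1.1.1.1 = dg b L A * κ.1 * dg b L (-A)} ≤
      ENNReal.ofReal (C * ∏ β ∈ Pos b, Real.exp (Module.finrank ℚ K * A (P.root β)) / (Ideal.absNorm 𝔫 : ℝ)) * ν D' :=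
  rh13_vol J hsf hΩ

end

end Pool.Agent.Lib.L1S
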