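import Mathlib

/-!
# QG (version V1): indices of intersections with a subgroup
-/

namespace Pool.Agent.Lib.L1S

theorem qg_relIndex {G : Type} [Group G] (H : Subgroup G) {A B : Subgroup G} (h : A.relIndex B ≠ 0) :
    (A.subgroupOf H).relIndex (B.subgroupOf H) ≠ 0 ∧ (A.subgroupOf H).relIndex (B.subgroupOf H) ≤ A.relIndex B := by
  have e1 : B.subgroupOf H = (B ⊓ H).subgroupOf H := (Subgroup.inf_subgroupOf_right B H).symm
  have e2 : (A.subgroupOf H).relIndex (B.subgroupOf H) = A.relIndex (B ⊓ H) := by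
    rw [e1]
    exact Subgroup.relIndex_subgroupOf inf_le_right
  rw [e2]
  exact ⟨fun h0 => h (Subgroup.relIndex_eq_zero_of_le_right inf_le_left h0), Subgroup.relIndex_le_of_le_right inf_le_left h⟩

theorem qg_relIndex_inf {G : Type} [Group G] (H : Subgroup G) {A B : Subgroup G} (h : A.relIndex B ≠ 0) :
    (A ⊓ H).relIndex (B ⊓ H) ≠ 0 ∧ (A ⊓ H).relIndex (B ⊓ H) ≤ A.relIndex B := by
  have e2 : (A ⊓ H).relIndex (B ⊓ H) = A.relIndex (B ⊓ H) := by
    rw [← Subgroup.inf_relIndex_right (A ⊓ H) (B ⊓ H), ← Subgroup.inf_relIndex_right A (B ⊓ H)]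
    congr 1
    ext x
    constructor
    · rintro ⟨⟨h1, h2⟩, h3, h4⟩
      exact ⟨h1, h3, h4⟩
    · rintro ⟨h1, h3, h4⟩
      exact ⟨⟨h1, h4⟩, h3, h4⟩
  rw [e2]
  exact ⟨fun h0 => h (Subgroup.relIndex_eq_zero_of_le_right inf_le_left h0), Subgroup.relIndex_le_of_le_right inf_le_left h⟩

/-- Conjugation inside a subgroup. -/
theorem qg_conj {G : Type} [Group G] {H : Subgroup G} (A : Subgroup G) (h : H) :
    (A.subgroupOf H).comap (MulAut.conj h).toMonoidHom = (A.comap (MulAut.conj (h : G)).toMonoidHom).subgroupOf H := by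
  ext x
  rfl

/-- The index of conjugates. -/
theorem qg_relIndex_conj {G : Type} [Group G] (A B : Subgroup G) (h : G) :
    (A.comap (MulAut.conj h).toMonoidHom).relIndex (B.comap (MulAut.conj h).toMonoidHom) = A.relIndex B := by
  have e : ∀ C : Subgroup G, C.comap (MulAut.conj h).toMonoidHom = C.map (MulAut.conj h⁻¹).toMonoidHom := by
    intro C
    ext x
    rw [Subgroup.mem_comap, Subgroup.mem_map]
    constructor
    · intro hx
      refine ⟨_, hx, ?_⟩
      show h⁻¹ * (h * x * h⁻¹) * (h⁻¹)⁻¹ = x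
      group
    · rintro ⟨y, hy, rfl⟩
      show h * (h⁻¹ * y * (h⁻¹)⁻¹) * h⁻¹ ∈ C
      have e : h * (h⁻¹ * y * (h⁻¹)⁻¹) * h⁻¹ = y := by group
      rw [e]
      exact hy
  rw [e, e]
  exact Subgroup.relIndex_map_map_of_injective _ _ (MulAut.conj h⁻¹).injective

end Pool.Agent.Lib.L1S
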