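import Pool.Agent.Lib.L1S.TH0
import Pool.Agent.Lib.L1S.T3
import Pool.Agent.Lib.L1S.QG

/-!
# Module T_H (version V1), part 1: topology, countability, discreteness, strict fundamental domains, for an arbitrary subgroup `H` of `G(L)`
-/

namespace Pool.Agent.Lib.L1S

open MeasureTheory Matrix NumberField IsDedekindDomain Pool.Agent.Lib.H89N Pool.Agent.Lib.H33W Topology

noncomputable section

variable {ι M N : Type} [Fintype ι] [DecidableEq ι] [AddCommGroup M] [Module ℚ M] [AddCommGroup N] [Module ℚ N]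
  {P : RootPairing ι ℚ M N} [P.IsCrystallographic] {b : P.Base} {L : Type} [Field L] [NumberField L] (H : Subgroup (GK b L))

/-! ## Topology -/

theorem HRs_closed : IsClosed (HRs H : Set (GR b L)) := Subgroup.isClosed_topologicalClosure _

instance HR_lc : LocallyCompactSpace (HRt H) := (HRs_closed H).isClosedEmbedding_subtypeVal.locallyCompactSpace

instance HR_sc : SecondCountableTopology (HRt H) := TopologicalSpace.Subtype.secondCountableTopology _

instance HR_t2 : T2Space (HRt H) := inferInstance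

instance HR_tg : IsTopologicalGroup (HRt H) := inferInstance

theorem UHR_closed : IsClosed (UHR H : Set (HRt H)) := (UR_closed b L).preimage continuous_subtype_val

instance UH_lc : LocallyCompactSpace (UHR H) := (UHR_closed H).isClosedEmbedding_subtypeVal.locallyCompactSpace

instance UH_sc : SecondCountableTopology (UHR H) := TopologicalSpace.Subtype.secondCountableTopology _

instance UH_t2 : T2Space (UHR H) := inferInstance

instance UH_tg : IsTopologicalGroup (UHR H) := inferInstance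

theorem iUH_val (u : UHR H) : ((iUH H u : UR b L) : GR b L) = u.1.1 := rfl

theorem iUH_cont : Continuous (iUH H) := (continuous_subtype_val.comp continuous_subtype_val).subtype_mk _

theorem iUH_inj : Function.Injective (iUH H) := by
  intro u u' h
  have h1 : ((iUH H u : UR b L) : GR b L) = ((iUH H u' : UR b L) : GR b L) := by rw [h]
  apply Subtype.ext
  apply Subtype.ext
  exact h1

/-- `U_H` is closed in `U`. -/
theorem iUH_closed : IsClosedEmbedding (iUH H) := by
  refine ⟨⟨⟨?_⟩, iUH_inj H⟩, ?_⟩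
  · apply le_antisymm
    · exact (iUH_cont H).le_induced
    · intro s hs
      obtain ⟨t, ht, rfl⟩ := isOpen_induced_iff.1 hs
      obtain ⟨t', ht', rfl⟩ := isOpen_induced_iff.1 ht
      exact isOpen_induced_iff.2 ⟨Subtype.val ⁻¹' t', ht'.preimage continuous_subtype_val, rfl⟩
  · have e : Set.range (iUH H) = Subtype.val ⁻¹' (HRs H : Set (GR b L)) := by
      ext u
      constructor
      · rintro ⟨w, rfl⟩
        exact w.1.2
      · intro hu
        exact ⟨⟨⟨u.1, hu⟩, u.2⟩, rfl⟩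
    rw [e]
    exact (HRs_closed H).preimage continuous_subtype_val

theorem smulH_def (g : H) (x : HRt H) : g • x = embH H g * x := rfl

theorem smulHU_def (g : HUH H) (x : UHR H) : g • x = kUH H g * x := rfl

theorem embH_val (g : H) : ((embH H g : HRt H) : GR b L) = emb b L g.1 := rfl

theorem HUH_mem (g : H) : g ∈ HUH H ↔ (g : GK b L) ∈ HU b L := Iff.rfl

/-- An element of `U(L) ∩ H`. -/
def hHU (g : HUH H) : HU b L := ⟨g.1.1, g.2⟩

theorem iUH_k (g : HUH H) : iUH H (kUH H g) = kU b L (hHU H g) := rfl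

/-! ## Countability and injectivity -/

theorem th_count : Countable H := by
  have := t3_count b L
  exact Subtype.countable

theorem embH_inj : Function.Injective (embH H) := by
  intro g h e
  apply Subtype.ext
  apply t3_emb_inj b L
  exact congrArg Subtype.val e

theorem kUH_inj : Function.Injective (kUH H) := by
  intro g h e
  apply Subtype.ext
  apply embH_inj H
  exact congrArg Subtype.val e

/-! ## Discreteness -/

/-- Only finitely many elements of `Γ` go to a compact set. -/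
def Dsc (Γ : Subgroup H) : Prop := ∀ Q : Set (HRt H), IsCompact Q → {γ : H | γ ∈ Γ ∧ embH H γ ∈ Q}.Finite

theorem Dsc.mono {H : Subgroup (GK b L)} {Γ Γ' : Subgroup H} (h : Dsc H Γ) (hle : Γ' ≤ Γ) : Dsc H Γ' := fun Q hQ =>
  (h Q hQ).subset fun _ hγ => ⟨hle hγ.1, hγ.2⟩

/-- The restriction to `H` of a discrete subgroup of `G(L)`. -/
theorem dsc_sub {Γ : Subgroup (GK b L)} (h : ∀ Q : Set (GR b L), IsCompact Q → {γ : GK b L | γ ∈ Γ ∧ emb b L γ ∈ Q}.Finite) : Dsc H (Γ.subgroupOf H) := by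
  intro Q hQ
  have hQ' : IsCompact ((fun x : HRt H => (x : GR b L)) '' Q) := hQ.image continuous_subtype_val
  refine ((h _ hQ').preimage (f := fun γ : H => (γ : GK b L)) Subtype.val_injective.injOn).subset ?_
  rintro γ ⟨h1, h2⟩
  exact ⟨h1, embH H γ, h2, rfl⟩

/-- Conjugates of discrete subgroups. -/
theorem dsc_conj {Γ : Subgroup H} (hΓ : Dsc H Γ) (h : H) : Dsc H (Γ.comap (MulAut.conj h).toMonoidHom) := by
  intro Q hQ
  have hQ' : IsCompact ((fun x => embH H h * x * (embH H h)⁻¹) '' Q) :=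
    hQ.image ((continuous_const.mul continuous_id).mul continuous_const)
  refine ((hΓ _ hQ').preimage (f := fun γ => h * γ * h⁻¹) ?_).subset ?_
  · intro x _ y _ e
    have e1 : h * x * h⁻¹ = h * y * h⁻¹ := e
    exact mul_left_cancel (mul_right_cancel e1)
  · rintro γ ⟨h1, h2⟩
    refine ⟨h1, embH H γ, h2, ?_⟩
    simp only [map_mul, map_inv]

/-- Only finitely many elements of `Γ` move a compact set to a set which meets it. -/
theorem Dsc.fin {H : Subgroup (GK b L)} {Γ : Subgroup H} (h : Dsc H Γ) {Q : Set (HRt H)} (hQ : IsCompact Q) : {γ : H | γ ∈ Γ ∧ ∃ q ∈ Q, γ • q ∈ Q}.Finite := by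
  refine (h _ ((hQ.prod hQ).image (continuous_fst.mul continuous_snd.inv))).subset ?_
  rintro γ ⟨h1, q, hq, h2⟩
  refine ⟨h1, (γ • q, q), ⟨h2, hq⟩, ?_⟩
  rw [smulH_def]
  exact mul_inv_cancel_right _ _

/-- **Strict fundamental domains** of `Γ` exist. -/
theorem Dsc.sf {H : Subgroup (GK b L)} {Γ : Subgroup H} (h : Dsc H Γ) : ∃ F : Set (HRt H), SF Γ F := by
  have := th_count H
  exact t2_exists_sf (e := embH H) (fun h x => rfl) (fun γ _ e => embH_inj H (by rw [e, map_one])) h

/-- **Strict fundamental domains** of `Γ ∩ U` exist. -/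
theorem Dsc.sfU {H : Subgroup (GK b L)} {Γ : Subgroup H} (h : Dsc H Γ) : ∃ D : Set (UHR H), SF (Γ.subgroupOf (HUH H)) D := by
  have := th_count H
  refine t2_exists_sf (e := kUH H) (fun h x => rfl) (fun γ _ e => kUH_inj H (by rw [e, map_one])) fun Q hQ => ?_
  have hQ' : IsCompact ((fun x : UHR H => (x : HRt H)) '' Q) := hQ.image continuous_subtype_val
  refine ((h _ hQ').preimage (f := fun γ : HUH H => (γ : H)) Subtype.val_injective.injOn).subset ?_
  rintro γ ⟨h1, h2⟩
  exact ⟨h1, kUH H γ, h2, rfl⟩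

/-! ## The groups `Γ` -/

section level

variable {K : Type} [Field K] [NumberField K] [Algebra K L]

/-- The elements of `GamL` have integral entries. -/
theorem th_int {𝔫 : Ideal (𝓞 K)} {v : HeightOneSpectrum (𝓞 K)} {r s : ℕ} {γ : GK b L} (hγ : γ ∈ GamL b L 𝔫 v r s) (i j : I b) :
    ∃ y : 𝓞 L, γ.1.1 i j = ((y : 𝓞 L) : L) := by
  obtain ⟨y, -, hy⟩ := (hγ i j).1.1
  by_cases h : i = j
  · subst h
    refine ⟨y + 1, ?_⟩
    rw [Matrix.sub_apply, Matrix.one_apply_eq] at hy
    have e : ((y + 1 : 𝓞 L) : L) = (y : L) + 1 := by simp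
    rw [e, hy]
    ring
  · refine ⟨y, ?_⟩
    rw [Matrix.sub_apply, Matrix.one_apply_ne h, sub_zero] at hy
    exact hy.symm

/-- `Γ ∩ H` is discrete. -/
theorem dsc_Gam (𝔫 : Ideal (𝓞 K)) (v : HeightOneSpectrum (𝓞 K)) (r s : ℕ) : Dsc H ((GamL b L 𝔫 v r s).subgroupOf H) := by
  refine dsc_sub H fun Q hQ => ?_
  refine t3_fin b (Γ := GamL b L 𝔫 v r s) one_ne_zero (fun γ hγ i j => ?_) hQ
  obtain ⟨y, hy⟩ := th_int hγ i j
  exact ⟨y, by rw [Nat.cast_one, one_mul, hy]⟩

/-- `h⁻¹ (Γ ∩ H) h`, `h ∈ H`. -/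
def GhH (𝔫 : Ideal (𝓞 K)) (v : HeightOneSpectrum (𝓞 K)) (r s : ℕ) (h : H) : Subgroup H := (GhL b 𝔫 v r s (h : GK b L)).subgroupOf H

theorem GhH_def (𝔫 : Ideal (𝓞 K)) (v : HeightOneSpectrum (𝓞 K)) (r s : ℕ) (h : H) :
    GhH H 𝔫 v r s h = ((GamL b L 𝔫 v r s).subgroupOf H).comap (MulAut.conj h).toMonoidHom := rfl

theorem GhH_mem (𝔫 : Ideal (𝓞 K)) (v : HeightOneSpectrum (𝓞 K)) (r s : ℕ) (h g : H) :
    g ∈ GhH H 𝔫 v r s h ↔ h * g * h⁻¹ ∈ (GamL b L 𝔫 v r s).subgroupOf H := Iff.rfl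

theorem GhH_one (𝔫 : Ideal (𝓞 K)) (v : HeightOneSpectrum (𝓞 K)) (r s : ℕ) : GhH H 𝔫 v r s 1 = (GamL b L 𝔫 v r s).subgroupOf H := by
  ext g
  rw [GhH_mem, one_mul, inv_one, mul_one]

theorem dsc_Gh (𝔫 : Ideal (𝓞 K)) (v : HeightOneSpectrum (𝓞 K)) (r s : ℕ) (h : H) : Dsc H (GhH H 𝔫 v r s h) := dsc_conj H (dsc_Gam H 𝔫 v r s) h

end level

end

end Pool.Agent.Lib.L1S
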