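import Pool.Agent.Lib.L1S.LI11
import Pool.Agent.Lib.L1S.RHFin
import Pool.Agent.Lib.L1S.TH1

/-!
# L1S, V1, QA1: the module R_H in the form of `QApi` (helper33)
-/

namespace Pool.Agent.Lib.L1S

open MeasureTheory Matrix NumberField IsDedekindDomain Pool.Agent.Lib.H89N Pool.Agent.Lib.H33W
open scoped ENNReal

noncomputable section

set_option linter.unusedSectionVars false
set_option linter.unusedVariables false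

variable {ι M N : Type} [Fintype ι] [DecidableEq ι] [AddCommGroup M] [Module ℚ M] [AddCommGroup N] [Module ℚ N]
  {P : RootPairing ι ℚ M N} [P.IsCrystallographic] [P.IsRootSystem] [P.IsReduced] [P.IsIrreducible] {b : P.Base}
  {K L : Type} [Field K] [NumberField K] [Field L] [NumberField L] [Algebra K L] [IsGalois K L] (Q : QS b K L)

/-- Cocompactness. -/
theorem qr_cc {𝔫 : Ideal (𝓞 K)} (h0 : 𝔫 ≠ ⊥) (v : HeightOneSpectrum (𝓞 K)) (r s : ℕ) (h : HQ Q) :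
    ∃ KT : Set (UHR (HQ Q)), IsCompact KT ∧ ∀ t, ∃ δ : HUH (HQ Q), (δ : HQ Q) ∈ GhQ (HQ Q) 𝔫 v r s h ∧ ∃ s ∈ KT, t = kUH (HQ Q) δ * s := by
  obtain ⟨J⟩ := lieH_exists Q
  exact q_cc J h0 v r s h

/-- `Γ' ∩ U ⊆ Γ`. -/
theorem qr_le {𝔫 : Ideal (𝓞 K)} {v : HeightOneSpectrum (𝓞 K)} {r s : ℕ} {c : b.support → ℤ} {π : K} {h : HQ Q} (hc : InvC Q c) (hL : LvL b 𝔫 v r s c π h.1) :
    GhQ (HQ Q) 𝔫 v r s h ⊓ HUH (HQ Q) ≤ GamQ (HQ Q) 𝔫 v r s :=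
  q_le (fun u hu => uni_UR b hu) hL

/-- `[Γ_U : Γ'_U]` is `q ^ (∑_{β > 0} ⟨β, λ⟩)` up to a constant. -/
theorem qr_idx : ∃ C : ℝ, 0 < C ∧ ∀ (𝔫 : Ideal (𝓞 K)) (v : HeightOneSpectrum (𝓞 K)) (r s : ℕ) (c : b.support → ℤ) (π : K) (h : HQ Q), InvC Q c → LvL b 𝔫 v r s c π h.1 →
    (Ideal.absNorm v.asIdeal : ℝ) ^ (∑ β ∈ Pos b, pr b c (Sum.inr β)) ≤ C * (((GhQ (HQ Q) 𝔫 v r s h).subgroupOf (HUH (HQ Q))).relIndex ((GamQ (HQ Q) 𝔫 v r s).subgroupOf (HUH (HQ Q))) : ℝ) ∧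
    (((GhQ (HQ Q) 𝔫 v r s h).subgroupOf (HUH (HQ Q))).relIndex ((GamQ (HQ Q) 𝔫 v r s).subgroupOf (HUH (HQ Q))) : ℝ) ≤ C * (Ideal.absNorm v.asIdeal : ℝ) ^ (∑ β ∈ Pos b, pr b c (Sum.inr β)) := by
  obtain ⟨J⟩ := lieH_exists Q
  have h0 : 0 < J.cl := pow_pos (pow_pos (Nat.pos_of_ne_zero J.cst0) _) _
  refine ⟨J.cl, by exact_mod_cast h0, fun 𝔫 v r s c π h hc hL => ?_⟩
  obtain ⟨h1, h2, _⟩ := q_idx J (liv_InvCD hc) hL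
  exact ⟨h2, h1⟩

/-- The volume of `U ∩ a Ω a⁻¹` compared with the covolume of `Γ_U`. -/
theorem qr_vol {Ω : Set (GL (I b) (EE L))} (hΩ : IsCompact Ω) : ∃ C : ℝ, 0 ≤ C ∧ ∀ (ν : Measure (UHR (HQ Q))) [ν.IsHaarMeasure] (𝔫 : Ideal (𝓞 K)), 𝔫 ≠ ⊥ →
    ∀ (v : HeightOneSpectrum (𝓞 K)) (r s : ℕ) (D : Set (UHR (HQ Q))), SF ((GamQ (HQ Q) 𝔫 v r s).subgroupOf (HUH (HQ Q))) D → ∀ A : M →ₗ[ℚ] ℝ, InvA Q A → (∀ i : b.support, 0 ≤ A (P.root i)) →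
    ν {u : UHR (HQ Q) | ∃ κ ∈ Ω, u.1.1.1.1 = dg b L A * κ.1 * dg b L (-A)} ≤
      ENNReal.ofReal (C * ∏ β ∈ Pos b, Real.exp (Module.finrank ℚ K * A (P.root β)) / (Ideal.absNorm 𝔫 : ℝ)) * ν D := by
  obtain ⟨J⟩ := lieH_exists Q
  obtain ⟨C, hC, h⟩ := q_vol J (fun v => (dsc_Gam (HQ Q) ⊤ v 0 0).sfU) hΩ
  exact ⟨C, hC, fun ν _ 𝔫 h0 v r s D hD A hA hA0 => h ν 𝔫 h0 v r s D hD A (liv_InvF hA) hA0⟩

end

end Pool.Agent.Lib.L1S
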