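import Pool.Agent.Lib.L1S.QB2

/-!
# L1S, V1, module B_H, file QB3 (helper43): roots of unity congruent to `1`
-/

namespace Pool.Agent.Lib.L1S

set_option linter.unusedSectionVars false

open Matrix NumberField IsDedekindDomain Pool.Agent.Lib.H89N Pool.Agent.Lib.H33W

noncomputable section

section Unit

variable {K L : Type} [Field K] [NumberField K] [Field L] [NumberField L] [Algebra K L]

/-- A root of unity `z` of `L` with `z - 1 ∈ m v ^ (-j)`, `v` prime to `m`, `m > 2 k`, is equal to `1`. -/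
theorem qb3_unit {k m j : ℕ} (hk : k ≠ 0) (hm : 2 * k < m) {v : HeightOneSpectrum (𝓞 K)} (hv : (m : 𝓞 K) ∉ v.asIdeal) {z : L} (hz : z ^ k = 1)
    (hI : DenL (Ideal.span {(m : 𝓞 K)}) v j (z - 1)) : z = 1 := by
  have hint : IsIntegral ℤ z := IsIntegral.of_pow (Nat.pos_of_ne_zero hk) (by rw [hz]; exact isIntegral_one)
  set y : 𝓞 L := ⟨z, hint⟩ - 1 with hy
  have hyz : (y : L) = z - 1 := by
    rw [hy]
    simp [RingOfIntegers.coe_eq_algebraMap]
  have hup : up L (Ideal.span {(m : 𝓞 K)}) = Ideal.span {(m : 𝓞 L)} := by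
    unfold up
    rw [Ideal.map_span, Set.image_singleton, map_natCast]
  have h1 : y ∈ Ideal.span {(m : 𝓞 L)} := by
    have hcop : Ideal.span {(m : 𝓞 K)} ⊔ v.asIdeal ^ j = ⊤ := by
      have h2 : IsCoprime (Ideal.span {(m : 𝓞 K)}) v.asIdeal := by
        rw [Ideal.isCoprime_iff_sup_eq]
        by_contra hne
        have hmax : v.asIdeal.IsMaximal := v.isMaximal
        have h3 : v.asIdeal = Ideal.span {(m : 𝓞 K)} ⊔ v.asIdeal := hmax.eq_of_le hne le_sup_right
        apply hv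
        rw [h3]
        exact Ideal.mem_sup_left (Ideal.mem_span_singleton_self _)
      exact Ideal.isCoprime_iff_sup_eq.1 h2.pow_right
    have h4 : (1 : 𝓞 K) ∈ Ideal.span {(m : 𝓞 K)} ⊔ v.asIdeal ^ j := by
      rw [hcop]
      exact Submodule.mem_top
    obtain ⟨a, ha, x, hx, hax⟩ := Submodule.mem_sup.1 h4
    obtain ⟨t, ht, hxt⟩ := hI x hx
    rw [hup] at ht
    have h5 : algebraMap (𝓞 K) (𝓞 L) x * y = t := by
      apply RingOfIntegers.coe_injective
      have e : ((algebraMap (𝓞 K) (𝓞 L) x * y : 𝓞 L) : L) = (algebraMap K L (x : K)) * (y : L) := map_mul (algebraMap (𝓞 L) L) _ _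
      exact e.trans ((congrArg (fun w => (algebraMap K L (x : K)) * w) hyz).trans hxt.symm)
    have h6 : y = algebraMap (𝓞 K) (𝓞 L) a * y + t := by
      rw [← h5, ← add_mul, ← map_add, hax, map_one, one_mul]
    have h7 : algebraMap (𝓞 K) (𝓞 L) a ∈ Ideal.span {(m : 𝓞 L)} := by
      rw [← hup]
      exact Ideal.mem_map_of_mem _ ha
    rw [h6]
    exact Ideal.add_mem _ (Ideal.mul_mem_right _ _ h7) ht
  refine b9_unit hk hm hz ⟨(k : 𝓞 L) * y, Ideal.mul_mem_left _ _ h1, ?_⟩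
  have e : (((k : 𝓞 L) * y : 𝓞 L) : L) = ((k : 𝓞 L) : L) * (y : L) := map_mul (algebraMap (𝓞 L) L) _ _
  rw [e, hyz]
  have e2 : ((k : 𝓞 L) : L) = (k : L) := map_natCast (algebraMap (𝓞 L) L) k
  rw [e2]

theorem qb3_den_mono {v : HeightOneSpectrum (𝓞 K)} {𝔫 𝔪 : Ideal (𝓞 K)} (h : 𝔫 ≤ 𝔪) {j : ℕ} {a : L} (ha : DenL 𝔫 v j a) : DenL 𝔪 v j a :=
  fun x hx => by
    obtain ⟨y, hy, e⟩ := ha x hx
    exact ⟨y, up_mono L h hy, e⟩

/-- `π ^ k` is integral at `v` only for `k ≥ 0`. -/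
theorem qb3_pi {v : HeightOneSpectrum (𝓞 K)} {π : K} (hπ : v.valuation K π = WithZero.exp (-1 : ℤ)) {k : ℤ} (h : IntV v (algebraMap K L π ^ k)) : 0 ≤ k := by
  obtain ⟨a, ha, y, -, hy⟩ := h
  have h1 : (y : L) = algebraMap K L ((a : K) * π ^ k) := by
    rw [hy, map_mul, map_zpow₀]
  have h2 : IsIntegral ℤ ((a : K) * π ^ k) := by
    have h3 : IsIntegral ℤ (algebraMap K L ((a : K) * π ^ k)) := by
      rw [← h1]
      exact y.2
    exact (isIntegral_algebraMap_iff (algebraMap K L).injective).1 h3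
  have h4 : v.valuation K ((a : K) * π ^ k) ≤ 1 := v.valuation_le_one (⟨(a : K) * π ^ k, h2⟩ : 𝓞 K)
  have h5 : v.valuation K (a : K) = 1 := by
    have h6 : v.valuation K (algebraMap (𝓞 K) K a) = 1 := by
      rw [v.valuation_of_algebraMap]
      exact v.intValuation_eq_one_iff.2 ha
    exact h6
  rw [map_mul, h5, one_mul, map_zpow₀, hπ, ← WithZero.exp_zsmul, ← WithZero.exp_zero, WithZero.exp_le_exp] at h4
  simp only [smul_eq_mul] at h4
  lia

end Unit

variable {ι M N : Type} [Fintype ι] [DecidableEq ι] [AddCommGroup M] [Module ℚ M] [AddCommGroup N] [Module ℚ N]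
  {P : RootPairing ι ℚ M N} [P.IsCrystallographic] [P.IsReduced] [P.IsIrreducible] [P.IsRootSystem] {b : P.Base}
  {K L : Type} [Field K] [NumberField K] [Field L] [NumberField L] [Algebra K L]

/-- The dichotomy from the vanishing of the minors, for an element with `δ - 1 ∈ m v ^ (-j)`. -/
theorem qb3_core {m : ℕ} (hm : 2 * Fintype.card (I b) < m) {v : HeightOneSpectrum (𝓞 K)} (hv : (m : 𝓞 K) ∉ v.asIdeal) (Q : QS b K L) {θ : b.support → (EE L →ₗ[ℝ] ℝ)} (hθ : ∀ i, ∃ z : L, Thq Q θ i z ≠ 0)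
    {δ : HQ Q} {j : ℕ} (hj : ∀ i, DenL (Ideal.span {(m : 𝓞 K)}) v j ((δ.1.1.1 - 1) i i))
    (hD : ∀ (i j : b.support) (w : Equiv.Perm ι), w ∈ WP P → OppW b i j w → Dm b i w δ.1.1.1 = 0) : δ ∈ HUH (HQ Q) ∨ AltH (HQ Q) θ δ := by
  obtain ⟨u, hu, w, n, hn, u', hu', hg⟩ := bruhat b L δ.1
  rcases qb2_dich Q hθ hu hu' hn hg with ⟨z, u1, hu1, e⟩ | hA | ⟨i, j, w1, hw1, hO, hDne⟩
  · left
    rw [qb2_mem_HUH]
    by_cases hk : Fintype.card (I b) = 0
    · rw [mem_HU]
      intro i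
      exact absurd ⟨i⟩ (not_nonempty_iff.2 (Fintype.card_eq_zero_iff.1 hk))
    · have hz : z ^ Fintype.card (I b) = 1 := by
        have h1 := congrArg Matrix.det e
        rw [Matrix.det_smul, b9_det, b9_det, mul_one] at h1
        exact h1.symm
      have hne : Nonempty (I b) := Fintype.card_pos_iff.1 (Nat.pos_of_ne_zero hk)
      obtain ⟨i⟩ := hne
      have h4 := hj i
      rw [Matrix.sub_apply, e, Matrix.smul_apply, bf2_diag hu1, Matrix.one_apply_eq, smul_eq_mul, mul_one] at h4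
      have hz1 := qb3_unit hk hm hv hz h4
      have e5 : δ.1 = u1 := by
        apply Subtype.ext
        apply Units.ext
        rw [e, hz1, one_smul]
      rw [e5]
      exact hu1
  · exact Or.inr hA
  · exact absurd (hD i j w1 hw1 hO) hDne

end

end Pool.Agent.Lib.L1S
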