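import Pool.Agent.Lib.L1S.QD2
import Pool.Agent.Lib.L1S.QB3
import Pool.Agent.Lib.L1S.RH3B

/-!
# L1S, V1, module B_H, file QB4 (helper43): the places of `L` over `v`, the dichotomy in the final form
-/

namespace Pool.Agent.Lib.L1S

set_option linter.unusedSectionVars false

open Matrix NumberField IsDedekindDomain Pool.Agent.Lib.H89N Pool.Agent.Lib.H33W

noncomputable section

section places

variable {K L : Type} [Field K] [NumberField K] [Field L] [NumberField L] [Algebra K L] {v : HeightOneSpectrum (𝓞 K)} {w : HeightOneSpectrum (𝓞 L)}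

theorem qb4_ne (L : Type) [Field L] [NumberField L] [Algebra K L] {𝔞 : Ideal (𝓞 K)} (h : 𝔞 ≠ ⊥) : up L 𝔞 ≠ ⊥ := by
  unfold up
  rwa [Ne, Ideal.map_eq_bot_iff_of_injective (FaithfulSMul.algebraMap_injective (𝓞 K) (𝓞 L))]

/-- An ideal of `𝓞 K` which is not in `v` is not in a place over `v`. -/
theorem qb4_cop (hw : up L v.asIdeal ≤ w.asIdeal) {𝔞 : Ideal (𝓞 K)} (h : ¬𝔞 ≤ v.asIdeal) : ¬up L 𝔞 ≤ w.asIdeal := by
  intro h1
  have h2 : 𝔞 ⊔ v.asIdeal = ⊤ := by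
    refine v.isMaximal.1.2 _ (lt_of_le_of_ne le_sup_right fun h' => h ?_)
    rw [h']
    exact le_sup_left
  have h3 : up L (𝔞 ⊔ v.asIdeal) ≤ w.asIdeal := by
    unfold up
    rw [Ideal.map_sup]
    exact sup_le h1 hw
  rw [h2, rh3b_up_top] at h3
  exact w.isPrime.ne_top (top_le_iff.1 h3)

theorem qb4_mem (hw : up L v.asIdeal ≤ w.asIdeal) {a : 𝓞 K} (ha : a ∉ v.asIdeal) : algebraMap (𝓞 K) (𝓞 L) a ∉ w.asIdeal := by
  intro h
  refine qb4_cop hw (𝔞 := Ideal.span {a}) (fun h1 => ha (h1 (Ideal.mem_span_singleton_self a))) ?_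
  unfold up
  rw [Ideal.map_span, Set.image_singleton, Ideal.span_singleton_le_iff_mem]
  exact h

theorem qb4_aw_one {y : 𝓞 L} (hy : y ∉ w.asIdeal) : aw w (y : L) = 1 := by
  refine le_antisymm (nu2_le_one w y) ?_
  by_contra h
  push Not at h
  obtain ⟨m, hm⟩ := aw_zpow w (y : L) (by
    intro h0
    apply hy
    have : y = 0 := RingOfIntegers.coe_injective (by simpa using h0)
    rw [this]
    exact w.asIdeal.zero_mem)
  apply hy
  have h1 : aw w (y : L) ≤ (Ideal.absNorm w.asIdeal : ℝ) ^ (-((1 : ℕ) : ℤ)) := by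
    rw [hm] at h ⊢
    have h2 : m < 0 := by
      by_contra hm0
      exact absurd (one_le_zpow₀ (nu2_one_lt w).le (not_lt.1 hm0)) (not_le.2 h)
    exact zpow_le_zpow_right₀ (nu2_one_lt w).le (by push_cast; omega)
  have h2 := (nu2_le_pow w y 1).1 h1
  rwa [pow_one] at h2

theorem qb4_coe (a : 𝓞 K) : ((algebraMap (𝓞 K) (𝓞 L) a : 𝓞 L) : L) = algebraMap K L (a : K) := rfl

/-- Integral at `v` implies integral at `w`. -/
theorem qb4_int (hw : up L v.asIdeal ≤ w.asIdeal) {x : L} (h : IntV v x) : aw w x ≤ 1 := by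
  obtain ⟨a, ha, y, -, hy⟩ := h
  have h1 := qb4_aw_one (qb4_mem hw ha)
  have h2 := nu2_le_one w y
  rw [hy, map_mul, ← qb4_coe, h1, one_mul] at h2
  exact h2

/-- Away from `v`. -/
theorem qb4_away {𝔞 : Ideal (𝓞 K)} (h0 : 𝔞 ≠ ⊥) (hw : ¬up L v.asIdeal ≤ w.asIdeal) {j : ℕ} {x : L} (h : DenL 𝔞 v j x) : aw w x ≤ nw w (up L 𝔞) := by
  have h1 : ¬up L (v.asIdeal ^ j) ≤ w.asIdeal := by
    intro h2
    unfold up at h2
    rw [Ideal.map_pow] at h2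
    exact hw (w.isPrime.le_of_pow_le h2)
  obtain ⟨a, ha, ha'⟩ : ∃ a ∈ v.asIdeal ^ j, algebraMap (𝓞 K) (𝓞 L) a ∉ w.asIdeal := by
    by_contra hcon
    push Not at hcon
    exact h1 (Ideal.map_le_iff_le_comap.2 fun a ha => hcon a ha)
  obtain ⟨y, hy, hy'⟩ := h a ha
  have h2 := (nu2_A (qb4_ne L h0) (y : L)).1 ⟨y, hy, rfl⟩ w
  rw [hy', map_mul, ← qb4_coe, qb4_aw_one ha', one_mul] at h2
  exact h2

/-- The uniformiser at the places over `v`. -/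
theorem qb4_pi {π : K} (hπ : v.valuation K π = WithZero.exp (-1 : ℤ)) (hw : up L v.asIdeal ≤ w.asIdeal) : aw w (algebraMap K L π) = nw w (up L v.asIdeal) := by
  obtain ⟨a, ha, p, hp⟩ : ∃ a : 𝓞 K, a ∉ v.asIdeal ∧ ∃ p : 𝓞 K, (p : K) = (a : K) * π := by
    obtain ⟨a, ha, y, -, hy⟩ := rh3_K (L := L) (v := v) (y := π) (by
      rw [hπ, ← WithZero.exp_zero, WithZero.exp_le_exp]
      norm_num)
    refine ⟨a, ha, ?_⟩
    have h2 : IsIntegral ℤ ((a : K) * π) := by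
      have h3 : IsIntegral ℤ (algebraMap K L ((a : K) * π)) := by
        rw [map_mul, ← hy]
        exact y.2
      exact (isIntegral_algebraMap_iff (algebraMap K L).injective).1 h3
    exact ⟨⟨(a : K) * π, h2⟩, rfl⟩
  have hav : v.valuation K (a : K) = 1 := by
    have h6 : v.valuation K (algebraMap (𝓞 K) K a) = 1 := by
      rw [v.valuation_of_algebraMap]
      exact v.intValuation_eq_one_iff.2 ha
    exact h6
  have hpv : v.intValuation p = WithZero.exp (-1 : ℤ) := by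
    rw [← v.valuation_of_algebraMap (K := K)]
    have h1 : v.valuation K (p : K) = WithZero.exp (-1 : ℤ) := by rw [hp, map_mul, hav, one_mul, hπ]
    exact h1
  have hp0 : p ≠ 0 := by
    rintro rfl
    rw [map_zero] at hpv
    exact WithZero.exp_ne_zero hpv.symm
  have hp1 : p ∈ v.asIdeal := by
    have := (v.intValuation_le_pow_iff_mem p 1).1 (by rw [hpv]; norm_num)
    rwa [pow_one] at this
  have hp2 : p ∉ v.asIdeal ^ 2 := by
    intro h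
    have h1 := (v.intValuation_le_pow_iff_mem p 2).2 h
    rw [hpv, WithZero.exp_le_exp] at h1
    norm_num at h1
  obtain ⟨J, hJ⟩ : v.asIdeal ∣ Ideal.span {p} := Ideal.dvd_span_singleton.2 hp1
  have hJv : ¬J ≤ v.asIdeal := by
    intro h
    apply hp2
    have h1 : p ∈ v.asIdeal * J := by
      rw [← hJ]
      exact Ideal.mem_span_singleton_self p
    rw [pow_two]
    exact Ideal.mul_mono_right h h1
  have hJ0 : J ≠ ⊥ := by
    rintro rfl
    exact hJv bot_le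
  have h1 : Ideal.span {algebraMap (𝓞 K) (𝓞 L) p} = up L v.asIdeal * up L J := by
    unfold up
    rw [← Ideal.map_mul, ← hJ, Ideal.map_span, Set.image_singleton]
  have h2 : nw w (Ideal.span {algebraMap (𝓞 K) (𝓞 L) p}) = nw w (up L v.asIdeal) := by
    rw [h1, d3_nw_mul w (qb4_ne L v.ne_bot) (qb4_ne L hJ0), nu2_nw_one w (qb4_ne L hJ0) (qb4_cop hw hJv), mul_one]
  have hq0 : algebraMap (𝓞 K) (𝓞 L) p ≠ 0 := by
    rw [Ne, FaithfulSMul.algebraMap_eq_zero_iff]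
    exact hp0
  have h3 : aw w (algebraMap K L (p : K)) = nw w (Ideal.span {algebraMap (𝓞 K) (𝓞 L) p}) := by
    have h4 : w.valuation L (algebraMap K L (p : K)) = WithZero.exp (-((Associates.mk w.asIdeal).count (Associates.mk (Ideal.span {algebraMap (𝓞 K) (𝓞 L) p})).factors : ℤ)) := by
      rw [← qb4_coe]
      have h5 : w.valuation L (algebraMap (𝓞 L) L (algebraMap (𝓞 K) (𝓞 L) p)) = _ := w.valuation_of_algebraMap (K := L) (algebraMap (𝓞 K) (𝓞 L) p)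
      refine h5.trans ?_
      exact w.intValuation_if_neg hq0
    exact d3_aw_eq h4
  have h4 : aw w (algebraMap K L (p : K)) = aw w (algebraMap K L π) := by
    rw [hp, map_mul, map_mul, ← qb4_coe, qb4_aw_one (qb4_mem hw ha), one_mul]
  rw [← h4, h3, h2]

end places

variable {ι M N : Type} [Fintype ι] [DecidableEq ι] [AddCommGroup M] [Module ℚ M] [AddCommGroup N] [Module ℚ N]
  {P : RootPairing ι ℚ M N} [P.IsCrystallographic] [P.IsReduced] [P.IsIrreducible] [P.IsRootSystem] {b : P.Base}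
  {K L : Type} [Field K] [NumberField K] [Field L] [NumberField L] [Algebra K L] {v : HeightOneSpectrum (𝓞 K)}

/-- `γ = λ'(π) g λ(π)⁻¹` with `g` of level `r, s` together with its inverse. -/
theorem qb4_v {𝔞 : Ideal (𝓞 K)} (hv : ¬𝔞 ≤ v.asIdeal) {r s : ℕ} {c c' : b.support → ℤ} {π : K} (hπ : v.valuation K π = WithZero.exp (-1 : ℤ)) {h h' γ : GK b L} (ha : AtVL b v r s π c h) (ha' : AtVL b v r s π c' h')
    (hγ : h' * γ * h⁻¹ ∈ GamL b L 𝔞 v r s) : ∃ g : GK b L, IwV b v r s π g.1.1 ∧ IwV b v r s π g⁻¹.1.1 ∧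
      (∀ i j, γ.1.1 i j = algebraMap K L π ^ pr b c' i * g.1.1 i j * algebraMap K L π ^ (-pr b c j)) ∧
      ∀ i j, γ⁻¹.1.1 i j = algebraMap K L π ^ pr b c i * g⁻¹.1.1 i j * algebraMap K L π ^ (-pr b c' j) := by
  have hπ0 : algebraMap K L π ≠ 0 := by
    rw [Ne, map_eq_zero]
    rintro rfl
    rw [map_zero] at hπ
    exact WithZero.exp_ne_zero hπ.symm
  set x : L := algebraMap K L π with hx
  obtain ⟨d, hd⟩ := de_lam (b := b) c (Units.mk0 x hπ0)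
  obtain ⟨d', hd'⟩ := de_lam (b := b) c' (Units.mk0 x hπ0)
  rw [Units.val_mk0] at hd hd'
  have hinv : ∀ (c : b.support → ℤ) (d : GK b L), d.1.1 = (Matrix.diagonal fun r => x ^ (-pr b c r)) → d⁻¹.1.1 = Matrix.diagonal fun i => x ^ pr b c i := by
    intro c d hd
    have e1 : d.1.1 * (Matrix.diagonal fun i => x ^ pr b c i) = 1 := by
      rw [hd, Matrix.diagonal_mul_diagonal, ← Matrix.diagonal_one]
      congr 1
      funext i
      rw [_root_.zpow_neg, inv_mul_cancel₀ (zpow_ne_zero _ hπ0)]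
    have e2 : d⁻¹.1.1 * d.1.1 = 1 := d.1.inv_mul
    calc d⁻¹.1.1 = d⁻¹.1.1 * (d.1.1 * Matrix.diagonal fun i => x ^ pr b c i) := by rw [e1, Matrix.mul_one]
      _ = _ := by rw [← Matrix.mul_assoc, e2, Matrix.one_mul]
  have hi := hinv c d hd
  have hi' := hinv c' d' hd'
  have hX : IwV b v r s π (h * d⁻¹).1.1 ∧ IwV b v r s π (h * d⁻¹)⁻¹.1.1 := by
    have e1 : (h * d⁻¹).1.1 = h.1.1 * Matrix.diagonal fun i => x ^ pr b c i := by
      rw [← hi]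
      rfl
    have e2 : (h * d⁻¹)⁻¹.1.1 = (Matrix.diagonal fun i => x ^ (-pr b c i)) * h⁻¹.1.1 := by
      have e3 : (h * d⁻¹)⁻¹ = d * h⁻¹ := by group
      rw [e3, ← hd]
      rfl
    rw [e1, e2]
    exact ha
  have hX' : IwV b v r s π (h' * d'⁻¹).1.1 ∧ IwV b v r s π (h' * d'⁻¹)⁻¹.1.1 := by
    have e1 : (h' * d'⁻¹).1.1 = h'.1.1 * Matrix.diagonal fun i => x ^ pr b c' i := by
      rw [← hi']
      rfl
    have e2 : (h' * d'⁻¹)⁻¹.1.1 = (Matrix.diagonal fun i => x ^ (-pr b c' i)) * h'⁻¹.1.1 := by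
      have e3 : (h' * d'⁻¹)⁻¹ = d' * h'⁻¹ := by group
      rw [e3, ← hd']
      rfl
    rw [e1, e2]
    exact ha'
  have hγ1 := (rh3_GamL hv hπ).1 hγ
  refine ⟨(h' * d'⁻¹)⁻¹ * (h' * γ * h⁻¹) * (h * d⁻¹), ?_, ?_, ?_, ?_⟩
  · exact rh3_IwV_mul hπ (rh3_IwV_mul hπ hX'.2 hγ1.2.1) hX.1
  · have e : ((h' * d'⁻¹)⁻¹ * (h' * γ * h⁻¹) * (h * d⁻¹))⁻¹ = (h * d⁻¹)⁻¹ * (h' * γ * h⁻¹)⁻¹ * (h' * d'⁻¹) := by group
    rw [e]
    exact rh3_IwV_mul hπ (rh3_IwV_mul hπ hX.2 hγ1.2.2) hX'.1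
  · intro i j
    have e : γ = d'⁻¹ * ((h' * d'⁻¹)⁻¹ * (h' * γ * h⁻¹) * (h * d⁻¹)) * d := by group
    have e1 : γ.1.1 = d'⁻¹.1.1 * ((h' * d'⁻¹)⁻¹ * (h' * γ * h⁻¹) * (h * d⁻¹)).1.1 * d.1.1 := by
      conv_lhs => rw [e]
      rfl
    rw [e1, hi', hd, Matrix.mul_diagonal, Matrix.diagonal_mul]
  · intro i j
    have e : γ⁻¹ = d⁻¹ * ((h' * d'⁻¹)⁻¹ * (h' * γ * h⁻¹) * (h * d⁻¹))⁻¹ * d' := by group
    have e1 : γ⁻¹.1.1 = d⁻¹.1.1 * ((h' * d'⁻¹)⁻¹ * (h' * γ * h⁻¹) * (h * d⁻¹))⁻¹.1.1 * d'.1.1 := by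
      conv_lhs => rw [e]
      rfl
    rw [e1, hi, hd', Matrix.mul_diagonal, Matrix.diagonal_mul]

/-- The level `e` at a place over `v`. -/
theorem qb4_iw {r s : ℕ} {π : K} (hπ : v.valuation K π = WithZero.exp (-1 : ℤ)) {X : Matrix (I b) (I b) L} (hX : IwV b v r s π X) {w : HeightOneSpectrum (𝓞 L)} (hw : up L v.asIdeal ≤ w.asIdeal) (i j : I b) :
    aw w (X i j) ≤ 1 ∧ (ht b i < ht b j → aw w (X i j) ≤ nw w (up L v.asIdeal) ^ (r + s)) := by
  refine ⟨qb4_int hw (hX i j).1, fun hij => ?_⟩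
  have h1 := qb4_int hw ((hX i j).2.1 hij)
  rw [map_mul, map_pow, map_inv₀, qb4_pi hπ hw] at h1
  have h2 := nw_pos w (up L v.asIdeal)
  rw [inv_pow, inv_mul_le_iff₀ (pow_pos h2 _), mul_one] at h1
  exact h1

theorem qb4_qloc {𝔞 : Ideal (𝓞 K)} {r s : ℕ} {c c' : b.support → ℤ} {π : K} {h h' γ : GK b L} (hL : LvL b 𝔞 v r s c π h) (hL' : LvL b 𝔞 v r s c' π h') (hγ : h' * γ * h⁻¹ ∈ GamL b L 𝔞 v r s) :
    Qloc b (up L 𝔞) (up L v.asIdeal) (r + s) c c' (algebraMap K L π) γ := by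
  have hG : γ ∈ HGL b L 𝔞 v := by
    have e : γ = h'⁻¹ * (h' * γ * h⁻¹) * h := by group
    rw [e]
    exact rh3_HGL_mul (rh3_HGL_mul (rh3_HGL_inv hL'.hh) ((rh3_GamL hL.nv hL.hπ).1 hγ).1) hL.hh
  obtain ⟨g, hg, hg', hgγ, -⟩ := qb4_v hL.nv hL.hπ hL.hv hL'.hv hγ
  refine ⟨fun w hw => qb4_cop hw hL.nv, fun w hw i j => ?_, fun w hw => qb4_pi hL.hπ hw, fun w hw => ⟨g, fun i j => ⟨qb4_iw hL.hπ hg hw i j, qb4_iw hL.hπ hg' hw i j⟩, hgγ⟩⟩
  obtain ⟨l, hl⟩ := hG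
  exact ⟨qb4_away hL.ne hw (hl i j).1, qb4_away hL.ne hw (hl i j).2⟩

/-- **The dichotomy for quasi-split groups.** -/
theorem qb_star2 (Q : QS b K L) {Ω : Set (GL (I b) (EE L))} (hΩ : IsCompact Ω) : ∃ m₀ : ℕ, ∀ m : ℕ, m₀ ≤ m → ∀ (v : HeightOneSpectrum (𝓞 K)), (m : 𝓞 K) ∉ v.asIdeal →
    ∀ (𝔫 : Ideal (𝓞 K)) (r s : ℕ) (c c' : b.support → ℤ) (π : K) (h h' : HQ Q), LvL b (Ideal.span {(m : 𝓞 K)} * 𝔫) v r s c π h.1 →
    LvL b (Ideal.span {(m : 𝓞 K)} * 𝔫) v r s c' π h'.1 → Sz2 b 𝔫 v r s c c' →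
    ∀ A : M →ₗ[ℚ] ℝ, (∀ i : b.support, Real.log (Ideal.absNorm 𝔫) ≤ Module.finrank ℚ K * A (P.root i)) →
    ∀ θ : b.support → (EE L →ₗ[ℝ] ℝ), (∀ i, ∃ z : L, ∑ t : L ≃ₐ[K] L, θ ((Q.da t).sp i) (mixedEmbedding L (t z)) ≠ 0) →
    ∀ γ : HQ Q, h' * γ * h⁻¹ ∈ GamQ (HQ Q) (Ideal.span {(m : 𝓞 K)} * 𝔫) v r s → Mv b Ω A (emb b L γ.1) → (γ ∈ HUH (HQ Q) ∧ c = c') ∨ AltH (HQ Q) θ γ := by
  obtain ⟨m₁, hm₁⟩ := dm_zero3 b L hΩ
  refine ⟨max m₁ (2 * Fintype.card (I b) + 1), fun m hm v hv 𝔫 r s c c' π h h' hL hL' hS A hA θ hθ γ hγ hM => ?_⟩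
  have hm1 : m₁ ≤ m := (le_max_left _ _).trans hm
  have hm2 : 2 * Fintype.card (I b) < m := (le_max_right m₁ (2 * Fintype.card (I b) + 1)).trans hm
  have hγ' : h'.1 * γ.1 * h.1⁻¹ ∈ GamL b L (Ideal.span {(m : 𝓞 K)} * 𝔫) v r s := hγ
  have hn0 : 𝔫 ≠ ⊥ := by
    rintro rfl
    exact hL.ne (by rw [Ideal.mul_bot])
  have hup : up L (Ideal.span {(m : 𝓞 K)} * 𝔫) = Ideal.span {(m : 𝓞 L)} * up L 𝔫 := by
    unfold up
    rw [Ideal.map_mul, Ideal.map_span, Set.image_singleton, map_natCast]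
  have hnv : ∀ J : Ideal (𝓞 K), Ideal.absNorm (up L J) = Ideal.absNorm J ^ Module.finrank K L := by
    intro J
    have h1 := Ideal.absNorm_algebraMap (R := 𝓞 K) (S := 𝓞 L) J
    rw [← IsFractionRing.finrank_eq (𝓞 K) K (𝓞 L) L] at h1
    exact h1
  have hS' : Szr b (Ideal.absNorm (up L v.asIdeal)) (Ideal.absNorm (up L 𝔫)) (r + s) c c' := by
    rw [hnv, hnv, Nat.cast_pow, Nat.cast_pow]
    exact szr_pow (nu2_pos v) ((szr_iff b 𝔫 v r s c c').1 hS) _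
  have hA' : ∀ i : b.support, Real.log (Ideal.absNorm (up L 𝔫)) ≤ Module.finrank ℚ L * A (P.root i) := by
    intro i
    rw [hnv, Nat.cast_pow, Real.log_pow, ← Module.finrank_mul_finrank ℚ K L, Nat.cast_mul, mul_assoc, mul_left_comm]
    exact mul_le_mul_of_nonneg_left (hA i) (Nat.cast_nonneg _)
  have hq := qb4_qloc hL hL' hγ'
  rw [hup] at hq
  have hD := hm₁ m hm1 (up L 𝔫) (up L v.asIdeal) (qb4_ne L hn0) (qb4_ne L v.ne_bot) (r + s) c c' (algebraMap K L π) hS' A hA' γ.1 hq hM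
  have hG : γ.1 ∈ HGL b L (Ideal.span {(m : 𝓞 K)} * 𝔫) v := by
    have e : γ.1 = h'.1⁻¹ * (h'.1 * γ.1 * h.1⁻¹) * h.1 := by group
    rw [e]
    exact rh3_HGL_mul (rh3_HGL_mul (rh3_HGL_inv hL'.hh) ((rh3_GamL hL.nv hL.hπ).1 hγ').1) hL.hh
  obtain ⟨j, hj⟩ := hG
  rcases qb3_core hm2 hv Q (θ := θ) hθ (δ := γ) (j := j) (fun i => qb3_den_mono Ideal.mul_le_left (hj i i).1) (fun i j w hw hO => hD i j w hw hO) with h1 | h1
  · left
    refine ⟨h1, bf2_inj fun i => ?_⟩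
    have hU : γ.1 ∈ HU b L := h1
    obtain ⟨g, hg, hg', e1, e2⟩ := qb4_v hL.nv hL.hπ hL.hv hL'.hv hγ'
    have hπ0 : algebraMap K L π ≠ 0 := by
      rw [Ne, map_eq_zero]
      rintro rfl
      have := hL.hπ
      rw [map_zero] at this
      exact WithZero.exp_ne_zero this.symm
    have d1 : γ.1.1.1 i i = 1 := bf2_diag hU i
    have d2 : γ.1⁻¹.1.1 i i = 1 := bf2_diag (inv_mem hU) i
    have f1 : g.1.1 i i = algebraMap K L π ^ (pr b c i - pr b c' i) := by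
      have h2 := e1 i i
      rw [d1] at h2
      have h3 : algebraMap K L π ^ (pr b c i - pr b c' i) * (algebraMap K L π ^ pr b c' i * g.1.1 i i * algebraMap K L π ^ (-pr b c i)) = g.1.1 i i := by
        rw [zpow_sub₀ hπ0, _root_.zpow_neg]
        have h4 := zpow_ne_zero (pr b c i) hπ0
        have h5 := zpow_ne_zero (pr b c' i) hπ0
        field_simp
      rw [← h2, mul_one] at h3
      exact h3.symm
    have f2 : g⁻¹.1.1 i i = algebraMap K L π ^ (pr b c' i - pr b c i) := by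
      have h2 := e2 i i
      rw [d2] at h2
      have h3 : algebraMap K L π ^ (pr b c' i - pr b c i) * (algebraMap K L π ^ pr b c i * g⁻¹.1.1 i i * algebraMap K L π ^ (-pr b c' i)) = g⁻¹.1.1 i i := by
        rw [zpow_sub₀ hπ0, _root_.zpow_neg]
        have h4 := zpow_ne_zero (pr b c i) hπ0
        have h5 := zpow_ne_zero (pr b c' i) hπ0
        field_simp
      rw [← h2, mul_one] at h3
      exact h3.symm
    have g1 := (hg i i).1
    have g2 := (hg' i i).1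
    rw [f1] at g1
    rw [f2] at g2
    have k1 := qb3_pi hL.hπ g1
    have k2 := qb3_pi hL.hπ g2
    lia
  · exact Or.inr h1

end

end Pool.Agent.Lib.L1S
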