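import Pool.Agent.Lib.L1S.RH9
import Pool.Agent.Lib.L1S.R8B
import Pool.Agent.Lib.L1S.TH3

/-!
# QC (version V1): indices of congruence subgroups, commensurability
-/

namespace Pool.Agent.Lib.L1S

open MeasureTheory Matrix NumberField IsDedekindDomain Pool.Agent.Lib.H89N Pool.Agent.Lib.H33W

noncomputable section

set_option linter.unusedSectionVars false

variable {ι M N : Type} [Fintype ι] [DecidableEq ι] [AddCommGroup M] [Module ℚ M] [AddCommGroup N] [Module ℚ N]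
  {P : RootPairing ι ℚ M N} [P.IsCrystallographic] [P.IsRootSystem] {b : P.Base} {K L : Type} [Field K] [NumberField K] [Field L] [NumberField L] [Algebra K L]

theorem qc_up_ne {𝔠 : Ideal (𝓞 K)} (h : 𝔠 ≠ ⊥) : up L 𝔠 ≠ ⊥ := by
  intro h1
  have hinj : Function.Injective (algebraMap (𝓞 K) (𝓞 L)) := by
    intro x y e
    have e1 : algebraMap K L (x : K) = algebraMap K L (y : K) := congrArg (fun z : 𝓞 L => (z : L)) e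
    exact RingOfIntegers.ext ((algebraMap K L).injective e1)
  exact h ((Ideal.map_eq_bot_iff_of_injective hinj).1 h1)

theorem qc_up_mul (𝔞 𝔠 : Ideal (𝓞 K)) : up L (𝔞 * 𝔠) = up L 𝔞 * up L 𝔠 := Ideal.map_mul _ _ _

/-- The index of a congruence subgroup. -/
theorem qc_rel {𝔞 𝔠 : Ideal (𝓞 K)} (h1 : 𝔞 ≠ ⊥) (h2 : 𝔠 ≠ ⊥) (v : HeightOneSpectrum (𝓞 K)) (r s : ℕ) :
    (GamL b L (𝔞 * 𝔠) v r s).relIndex (GamL b L 𝔞 v r s) ≤ Ideal.absNorm (up L 𝔠) ^ (Fintype.card (I b) ^ 2) ∧ (GamL b L (𝔞 * 𝔠) v r s).relIndex (GamL b L 𝔞 v r s) ≠ 0 := by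
  classical
  obtain ⟨q, hq⟩ := r8a_q (K := L) (up L 𝔞) (up L 𝔠)
  have h1' : up L 𝔞 ≠ ⊥ := qc_up_ne h1
  have h2' : up L 𝔠 ≠ ⊥ := qc_up_ne h2
  have hcard : Nat.card ((up L 𝔞).toAddSubgroup ⧸ ((up L 𝔞 * up L 𝔠).toAddSubgroup).addSubgroupOf (up L 𝔞).toAddSubgroup) = Ideal.absNorm (up L 𝔠) := r2_idx h1' (up L 𝔠)
  have h0 : Ideal.absNorm (up L 𝔠) ≠ 0 := fun h => h2' (Ideal.absNorm_eq_zero_iff.1 h)
  have hfin : Finite ((up L 𝔞).toAddSubgroup ⧸ ((up L 𝔞 * up L 𝔠).toAddSubgroup).addSubgroupOf (up L 𝔞).toAddSubgroup) := Nat.finite_of_card_ne_zero (by rw [hcard]; exact h0)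
  have hT : Nat.card (I b → I b → (up L 𝔞).toAddSubgroup ⧸ ((up L 𝔞 * up L 𝔠).toAddSubgroup).addSubgroupOf (up L 𝔞).toAddSubgroup) = Ideal.absNorm (up L 𝔠) ^ (Fintype.card (I b) ^ 2) := by
    rw [Nat.card_fun, Nat.card_fun, hcard, Nat.card_eq_fintype_card, ← pow_mul, sq]
  have hle : GamL b L (𝔞 * 𝔠) v r s ≤ GamL b L 𝔞 v r s := by
    intro g hg i j
    have hm : ∀ x : L, Pool.Agent.Lib.L1S.InI (up L (𝔞 * 𝔠)) x → Pool.Agent.Lib.L1S.InI (up L 𝔞) x := fun x ⟨y, hy, e⟩ => ⟨y, up_mono L Ideal.mul_le_left hy, e⟩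
    exact ⟨⟨hm _ (hg i j).1.1, (hg i j).1.2⟩, hm _ (hg i j).2.1, (hg i j).2.2⟩
  rw [← hT]
  refine r8_card hle (fun g i j => q ((g.1.1 - 1) i j)) fun g hg h hh e => ?_
  have h3 : ∀ i j, Pool.Agent.Lib.L1S.InI (up L 𝔞 * up L 𝔠) (h.1.1 i j - g.1.1 i j) := by
    intro i j
    have h4 := hq _ _ (hg i j).1.1 (hh i j).1.1 (congrFun (congrFun e i) j)
    rw [Matrix.sub_apply, Matrix.sub_apply] at h4
    rwa [sub_sub_sub_cancel_right] at h4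
  have h5 : ∀ i j, Pool.Agent.Lib.L1S.InI (up L 𝔞 * up L 𝔠) (g.1.1 i j - h.1.1 i j) := by
    intro i j
    have := r8a_neg (h3 i j)
    rwa [neg_sub] at this
  have h6 : g⁻¹ * h ∈ GamL b L 𝔞 v r s := mul_mem (inv_mem hg) hh
  intro i j
  have e2 : (g⁻¹ * h)⁻¹ = h⁻¹ * g := by group
  rw [qc_up_mul]
  refine ⟨⟨r8a_cong (r8a_int fun i j => (hg i j).2.1) h3 i j, (h6 i j).1.2⟩, ?_, (h6 i j).2.2⟩
  rw [e2]
  exact r8a_cong (r8a_int fun i j => (hh i j).2.1) h5 i j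

theorem qc_norm (m : ℕ) : Ideal.absNorm (up L (Ideal.span {(m : 𝓞 K)})) = m ^ Module.finrank ℚ L := by
  have e : up L (Ideal.span {(m : 𝓞 K)}) = Ideal.span {(m : 𝓞 L)} := by
    unfold up
    rw [Ideal.map_span, Set.image_singleton, map_natCast]
  have h3 : (m : 𝓞 L) = algebraMap ℤ (𝓞 L) (m : ℤ) := by simp
  rw [e, Ideal.absNorm_span_singleton, h3, Algebra.norm_algebraMap, RingOfIntegers.rank, Int.natAbs_pow, Int.natAbs_natCast]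

theorem qc_GamL_le {𝔪 : Ideal (𝓞 K)} (v w : HeightOneSpectrum (𝓞 K)) (r' s' : ℕ) : GamL b L 𝔪 w r' s' ≤ GamL b L ⊤ v 0 0 := by
  intro g hg i j
  have etop : up L (⊤ : Ideal (𝓞 K)) = ⊤ := Ideal.map_top _
  have key : ∀ x : Matrix (I b) (I b) L, (∀ i j, Pool.Agent.Lib.L1S.InI (up L 𝔪) ((x - 1) i j)) → ∀ i j,
      Pool.Agent.Lib.L1S.InI (up L (⊤ : Ideal (𝓞 K))) ((x - 1) i j) ∧ (ht b i < ht b j → Pool.Agent.Lib.L1S.InI (up L (v.asIdeal ^ (0 + 0))) (x i j)) ∧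
        (ht b i = ht b j → Pool.Agent.Lib.L1S.InI (up L (v.asIdeal ^ 0)) ((x - 1) i j)) := by
    intro x hx i j
    have e0 : v.asIdeal ^ (0 + 0) = ⊤ := by rw [add_zero, pow_zero, Ideal.one_eq_top]
    rw [e0, etop]
    exact ⟨(hx i j).top, fun _ => r8a_int hx i j, fun _ => (hx i j).top⟩
  exact ⟨key _ (fun i j => (hg i j).1.1) i j, key _ (fun i j => (hg i j).2.1) i j⟩

/-- Commensurability. -/
theorem qc_comm2 {𝔫 𝔪 : Ideal (𝓞 K)} (h0 : 𝔫 ≠ ⊥) (v w : HeightOneSpectrum (𝓞 K)) (r s r' s' : ℕ) (g : GK b L) :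
    (GhL b 𝔫 v r s g).relIndex (GamL b L 𝔪 w r' s') ≠ 0 := by
  obtain ⟨𝔞, h1, h2⟩ := rh9_cong (b := b) h0 v r s g
  have h3 := (qc_rel (b := b) (L := L) (𝔞 := ⊤) (𝔠 := 𝔞) top_ne_bot h1 v 0 0).2
  rw [Ideal.top_mul] at h3
  have h4 : (GamL b L 𝔞 v 0 0).relIndex (GamL b L 𝔪 w r' s') ≠ 0 := fun h5 =>
    h3 (Subgroup.relIndex_eq_zero_of_le_right (qc_GamL_le v w r' s') h5)
  intro h5
  have h6 := Subgroup.relIndex_dvd_of_le_left (GamL b L 𝔪 w r' s') h2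
  rw [h5] at h6
  exact h4 (Nat.eq_zero_of_zero_dvd h6)

theorem qc_comm {𝔫 : Ideal (𝓞 K)} (h0 : 𝔫 ≠ ⊥) (v : HeightOneSpectrum (𝓞 K)) (r s : ℕ) (g : GK b L) :
    (GhL b 𝔫 v r s g).relIndex (GamL b L 𝔫 v r s) ≠ 0 := qc_comm2 h0 v v r s r s g

variable (H : Subgroup (GK b L))

/-- **Commensurability** in `H`. -/
theorem q_comm {𝔫 : Ideal (𝓞 K)} (h0 : 𝔫 ≠ ⊥) (v : HeightOneSpectrum (𝓞 K)) (r s : ℕ) (g : H) :
    (cjG (GamQ H 𝔫 v r s) g).relIndex (GamQ H 𝔫 v r s) ≠ 0 :=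
  (qg_relIndex H (qc_comm h0 v r s g.1)).1

/-- **Commensurability** in `H`, general form. -/
theorem q_comm2 {𝔫 𝔪 : Ideal (𝓞 K)} (h0 : 𝔫 ≠ ⊥) (v w : HeightOneSpectrum (𝓞 K)) (r s r' s' : ℕ) (g h : H) :
    (GhQ H 𝔫 v r s g).relIndex (GhQ H 𝔪 w r' s' h) ≠ 0 := by
  have e1 : GhQ H 𝔫 v r s g = (GhQ H 𝔫 v r s (g * h⁻¹)).comap (MulAut.conj h).toMonoidHom := by
    ext x
    show g * x * g⁻¹ ∈ GamQ H 𝔫 v r s ↔ g * h⁻¹ * (h * x * h⁻¹) * (g * h⁻¹)⁻¹ ∈ GamQ H 𝔫 v r s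
    have e : g * h⁻¹ * (h * x * h⁻¹) * (g * h⁻¹)⁻¹ = g * x * g⁻¹ := by group
    rw [e]
  have e2 : GhQ H 𝔪 w r' s' h = (GamQ H 𝔪 w r' s').comap (MulAut.conj h).toMonoidHom := rfl
  rw [e1, e2, qg_relIndex_conj]
  exact (qg_relIndex H (qc_comm2 h0 v w r s r' s' (g * h⁻¹).1)).1

theorem q_mle {𝔫 : Ideal (𝓞 K)} (v : HeightOneSpectrum (𝓞 K)) (r s m : ℕ) :
    GamQ H (Ideal.span {(m : 𝓞 K)} * 𝔫) v r s ≤ GamQ H 𝔫 v r s := by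
  intro g hg i j
  have hg' := Subgroup.mem_subgroupOf.1 hg
  have hm : ∀ x : L, Pool.Agent.Lib.L1S.InI (up L (Ideal.span {(m : 𝓞 K)} * 𝔫)) x → Pool.Agent.Lib.L1S.InI (up L 𝔫) x := fun x ⟨y, hy, e⟩ => ⟨y, up_mono L Ideal.mul_le_right hy, e⟩
  exact ⟨⟨hm _ (hg' i j).1.1, (hg' i j).1.2⟩, hm _ (hg' i j).2.1, (hg' i j).2.2⟩

/-- **The index of the auxiliary group** in `H`. -/
theorem q_m {𝔫 : Ideal (𝓞 K)} (h0 : 𝔫 ≠ ⊥) (v : HeightOneSpectrum (𝓞 K)) (r s m : ℕ) (hm : m ≠ 0) :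
    (GamQ H (Ideal.span {(m : 𝓞 K)} * 𝔫) v r s).relIndex (GamQ H 𝔫 v r s) ≤ (m ^ Module.finrank ℚ L) ^ (Fintype.card (I b) ^ 2) ∧
      (GamQ H (Ideal.span {(m : 𝓞 K)} * 𝔫) v r s).relIndex (GamQ H 𝔫 v r s) ≠ 0 := by
  have hm0 : (Ideal.span {(m : 𝓞 K)} : Ideal (𝓞 K)) ≠ ⊥ := by
    rw [Ne, Ideal.span_singleton_eq_bot]
    exact Nat.cast_ne_zero.mpr hm
  have h1 := qc_rel (b := b) (L := L) h0 hm0 v r s
  rw [qc_norm, mul_comm 𝔫] at h1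
  have h2 := qg_relIndex H h1.2
  exact ⟨h2.2.trans h1.1, h2.1⟩

/-- The index of the auxiliary group, conjugated form. -/
theorem q_m2 {𝔫 : Ideal (𝓞 K)} (h0 : 𝔫 ≠ ⊥) (v : HeightOneSpectrum (𝓞 K)) (r s m : ℕ) (hm : m ≠ 0) (h : H) :
    (GmQ H 𝔫 v r s m h).relIndex (GhQ H 𝔫 v r s h) ≤ (m ^ Module.finrank ℚ L) ^ (Fintype.card (I b) ^ 2) := by
  have e : (GmQ H 𝔫 v r s m h).relIndex (GhQ H 𝔫 v r s h) = (GamQ H (Ideal.span {(m : 𝓞 K)} * 𝔫) v r s).relIndex (GamQ H 𝔫 v r s) :=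
    qg_relIndex_conj _ _ h
  rw [e]
  exact (q_m H h0 v r s m hm).1

end

end Pool.Agent.Lib.L1S
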