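import Pool.Agent.Lib.L1S.QX5

/-!
# L1S, QX: the targets `qa_exists`, `qa_quot`, `qa_isU` of QApi.lean (modules DE_H, DC_H) in the literal forms
-/

namespace Pool.Agent.Lib.L1S

open MeasureTheory Matrix NumberField IsDedekindDomain Pool.Agent.Lib.H89N Pool.Agent.Lib.H33W

noncomputable section

set_option linter.unusedSectionVars false
set_option linter.unusedVariables false

variable {ι M N : Type} [Fintype ι] [DecidableEq ι] [AddCommGroup M] [Module ℚ M] [AddCommGroup N] [Module ℚ N]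
  {P : RootPairing ι ℚ M N} [P.IsCrystallographic] [P.IsRootSystem] [P.IsReduced] [P.IsIrreducible] {b : P.Base}
  {K L : Type} [Field K] [NumberField K] [Field L] [NumberField L] [Algebra K L] [IsGalois K L] (Q : QS b K L)

/-- (DE_H) Existence of the Hecke elements. -/
theorem qxa_exists {𝔫 : Ideal (𝓞 K)} {v : HeightOneSpectrum (𝓞 K)} (hv : ¬𝔫 ≤ v.asIdeal) (r s : ℕ) {c : b.support → ℤ} (hc : InvC Q c) {π : K} (hπ : v.valuation K π = WithZero.exp (-1 : ℤ)) :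
    ∃ h ∈ HQ Q, h ∈ HGL b L 𝔫 v ∧ AtVL b v r s π c h := by
  have hπ0 : π ≠ 0 := by
    rintro rfl
    rw [map_zero] at hπ
    exact WithZero.coe_ne_zero hπ.symm
  obtain ⟨d, hd, e⟩ := qx_lam Q (fun i x hx => qx_orb Q i hx) hc hπ0
  exact qx_exists hv r s hπ hd e

/-- (DE_H) Two Hecke elements of the same type differ by an element of `Γ`. -/
theorem qxa_quot {𝔫 : Ideal (𝓞 K)} (h0 : 𝔫 ≠ ⊥) {v : HeightOneSpectrum (𝓞 K)} (hv : ¬𝔫 ≤ v.asIdeal) {r s : ℕ} {c : b.support → ℤ} {π : K} (hπ : v.valuation K π = WithZero.exp (-1 : ℤ))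
    {h h1 : HQ Q} (hh : h.1 ∈ HGL b L 𝔫 v) (ha : AtVL b v r s π c h.1) (hh1 : h1.1 ∈ HGL b L 𝔫 v) (ha1 : AtVL b v r s π c h1.1) : h * h1⁻¹ ∈ GamQ (HQ Q) 𝔫 v r s :=
  qx_quot hv hπ hh ha hh1 ha1

/-- (DC_H) From the double coset operator to the operator over `Γ_U`. -/
theorem qxa_isU {𝔫 : Ideal (𝓞 K)} {v : HeightOneSpectrum (𝓞 K)} {r s : ℕ} {c : b.support → ℤ} {π : K} {h : HQ Q} (hrs : 1 ≤ r + s) (hc : InvC Q c) (hL : LvL b 𝔫 v r s c π h.1)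
    {F : HRt (HQ Q) → ℂ} (iF : ∀ γ ∈ GamHR (HQ Q) 𝔫 v r s, ∀ x, F (γ * x) = F x) {t : ℂ} (hT : IsTH (HQ Q) 𝔫 v r s h F t) : IsUH (HQ Q) 𝔫 v r s h F t :=
  qc_isUH_of_isTH hrs hL iF hT

end

end Pool.Agent.Lib.L1S
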