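import Pool.Agent.Lib.L1S.QStm
import Pool.Agent.Lib.L1S.QA1
import Pool.Agent.Lib.L1S.QC
import Pool.Agent.Lib.L1S.QB4
import Pool.Agent.Lib.L1S.QX

/-!
# L1S, version V1 (quasi-split groups): the targets of the modules R_H, D_H, B_H, DC_H, DE_H which are used in the assembly (QMain.lean)

All statements are proved in the modules (QA1, QC, QB4, QX).
-/

namespace Pool.Agent.Lib.L1S

open MeasureTheory Matrix NumberField IsDedekindDomain Pool.Agent.Lib.H89N Pool.Agent.Lib.H33W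
open scoped ENNReal

noncomputable section

set_option linter.unusedSectionVars false
set_option linter.unusedVariables false

variable {ι M N : Type} [Fintype ι] [DecidableEq ι] [AddCommGroup M] [Module ℚ M] [AddCommGroup N] [Module ℚ N]
  {P : RootPairing ι ℚ M N} [P.IsCrystallographic] [P.IsRootSystem] [P.IsReduced] [P.IsIrreducible] {b : P.Base}
  {K L : Type} [Field K] [NumberField K] [Field L] [NumberField L] [Algebra K L] [IsGalois K L] (Q : QS b K L)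

/-- (R_H) Cocompactness. -/
theorem qa_cc {𝔫 : Ideal (𝓞 K)} (h0 : 𝔫 ≠ ⊥) (v : HeightOneSpectrum (𝓞 K)) (r s : ℕ) (h : HQ Q) :
    ∃ KT : Set (UHR (HQ Q)), IsCompact KT ∧ ∀ t, ∃ δ : HUH (HQ Q), (δ : HQ Q) ∈ GhQ (HQ Q) 𝔫 v r s h ∧ ∃ s ∈ KT, t = kUH (HQ Q) δ * s :=
  qr_cc Q h0 v r s h

/-- (R_H) Commensurability. -/
theorem qa_comm {𝔫 𝔪 : Ideal (𝓞 K)} (h0 : 𝔫 ≠ ⊥) (v w : HeightOneSpectrum (𝓞 K)) (r s r' s' : ℕ) (g h : HQ Q) :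
    (GhQ (HQ Q) 𝔫 v r s g).relIndex (GhQ (HQ Q) 𝔪 w r' s' h) ≠ 0 :=
  q_comm2 (HQ Q) h0 v w r s r' s' g h

/-- (R_H) The index of the auxiliary subgroup. -/
theorem qa_m {𝔫 : Ideal (𝓞 K)} (h0 : 𝔫 ≠ ⊥) (v : HeightOneSpectrum (𝓞 K)) (r s m : ℕ) (hm : m ≠ 0) (h : HQ Q) :
    (GmQ (HQ Q) 𝔫 v r s m h).relIndex (GhQ (HQ Q) 𝔫 v r s h) ≤ (m ^ Module.finrank ℚ L) ^ (Fintype.card (I b) ^ 2) :=
  q_m2 (HQ Q) h0 v r s m hm h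

/-- (R_H) `Γ' ∩ U ⊆ Γ`. -/
theorem qa_le {𝔫 : Ideal (𝓞 K)} {v : HeightOneSpectrum (𝓞 K)} {r s : ℕ} {c : b.support → ℤ} {π : K} {h : HQ Q} (hc : InvC Q c) (hL : LvL b 𝔫 v r s c π h.1) :
    GhQ (HQ Q) 𝔫 v r s h ⊓ HUH (HQ Q) ≤ GamQ (HQ Q) 𝔫 v r s :=
  qr_le Q hc hL

/-- (R_H) `[Γ_U : Γ'_U]` is `q ^ (∑_{β > 0} ⟨β, λ⟩)` up to a constant. -/
theorem qa_idx : ∃ C : ℝ, 0 < C ∧ ∀ (𝔫 : Ideal (𝓞 K)) (v : HeightOneSpectrum (𝓞 K)) (r s : ℕ) (c : b.support → ℤ) (π : K) (h : HQ Q), InvC Q c → LvL b 𝔫 v r s c π h.1 →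
    (Ideal.absNorm v.asIdeal : ℝ) ^ (∑ β ∈ Pos b, pr b c (Sum.inr β)) ≤ C * (((GhQ (HQ Q) 𝔫 v r s h).subgroupOf (HUH (HQ Q))).relIndex ((GamQ (HQ Q) 𝔫 v r s).subgroupOf (HUH (HQ Q))) : ℝ) ∧
    (((GhQ (HQ Q) 𝔫 v r s h).subgroupOf (HUH (HQ Q))).relIndex ((GamQ (HQ Q) 𝔫 v r s).subgroupOf (HUH (HQ Q))) : ℝ) ≤ C * (Ideal.absNorm v.asIdeal : ℝ) ^ (∑ β ∈ Pos b, pr b c (Sum.inr β)) :=
  qr_idx Q

/-- (R_H) The volume of `U ∩ a Ω a⁻¹` compared with the covolume of `Γ_U`. -/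
theorem qa_vol {Ω : Set (GL (I b) (EE L))} (hΩ : IsCompact Ω) : ∃ C : ℝ, 0 ≤ C ∧ ∀ (ν : Measure (UHR (HQ Q))) [ν.IsHaarMeasure] (𝔫 : Ideal (𝓞 K)), 𝔫 ≠ ⊥ →
    ∀ (v : HeightOneSpectrum (𝓞 K)) (r s : ℕ) (D : Set (UHR (HQ Q))), SF ((GamQ (HQ Q) 𝔫 v r s).subgroupOf (HUH (HQ Q))) D → ∀ A : M →ₗ[ℚ] ℝ, InvA Q A → (∀ i : b.support, 0 ≤ A (P.root i)) →
    ν {u : UHR (HQ Q) | ∃ κ ∈ Ω, u.1.1.1.1 = dg b L A * κ.1 * dg b L (-A)} ≤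
      ENNReal.ofReal (C * ∏ β ∈ Pos b, Real.exp (Module.finrank ℚ K * A (P.root β)) / (Ideal.absNorm 𝔫 : ℝ)) * ν D :=
  qr_vol Q hΩ

/-- (B_H, D_H) The dichotomy. -/
theorem qa_star2 {Ω : Set (GL (I b) (EE L))} (hΩ : IsCompact Ω) : ∃ m₀ : ℕ, ∀ m : ℕ, m₀ ≤ m → ∀ (v : HeightOneSpectrum (𝓞 K)), (m : 𝓞 K) ∉ v.asIdeal →
    ∀ (𝔫 : Ideal (𝓞 K)) (r s : ℕ) (c c' : b.support → ℤ) (π : K) (h h' : HQ Q), InvC Q c → InvC Q c' → LvL b (Ideal.span {(m : 𝓞 K)} * 𝔫) v r s c π h.1 →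
    LvL b (Ideal.span {(m : 𝓞 K)} * 𝔫) v r s c' π h'.1 → Sz2 b 𝔫 v r s c c' →
    ∀ A : M →ₗ[ℚ] ℝ, InvA Q A → (∀ i : b.support, Real.log (Ideal.absNorm 𝔫) ≤ Module.finrank ℚ K * A (P.root i)) →
    ∀ θ : b.support → (EE L →ₗ[ℝ] ℝ), (∀ i, ∃ z : L, ∑ t : L ≃ₐ[K] L, θ ((Q.da t).sp i) (mixedEmbedding L (t z)) ≠ 0) →
    ∀ γ : HQ Q, h' * γ * h⁻¹ ∈ GamQ (HQ Q) (Ideal.span {(m : 𝓞 K)} * 𝔫) v r s → Mv b Ω A (emb b L γ.1) → (γ ∈ HUH (HQ Q) ∧ c = c') ∨ AltH (HQ Q) θ γ := by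
  obtain ⟨m₀, h⟩ := qb_star2 Q hΩ
  exact ⟨m₀, fun m hm v hv 𝔫 r s c c' π g g' _ _ hL hL' hS A _ hA => h m hm v hv 𝔫 r s c c' π g g' hL hL' hS A hA⟩

/-- (DE_H) Existence of the Hecke elements. -/
theorem qa_exists {𝔫 : Ideal (𝓞 K)} {v : HeightOneSpectrum (𝓞 K)} (hv : ¬𝔫 ≤ v.asIdeal) (r s : ℕ) {c : b.support → ℤ} (hc : InvC Q c) {π : K} (hπ : v.valuation K π = WithZero.exp (-1 : ℤ)) :
    ∃ h ∈ HQ Q, h ∈ HGL b L 𝔫 v ∧ AtVL b v r s π c h :=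
  qxa_exists Q hv r s hc hπ

/-- (DE_H) Two Hecke elements of the same type differ by an element of `Γ`. -/
theorem qa_quot {𝔫 : Ideal (𝓞 K)} (h0 : 𝔫 ≠ ⊥) {v : HeightOneSpectrum (𝓞 K)} (hv : ¬𝔫 ≤ v.asIdeal) {r s : ℕ} {c : b.support → ℤ} {π : K} (hπ : v.valuation K π = WithZero.exp (-1 : ℤ))
    {h h1 : HQ Q} (hh : h.1 ∈ HGL b L 𝔫 v) (ha : AtVL b v r s π c h.1) (hh1 : h1.1 ∈ HGL b L 𝔫 v) (ha1 : AtVL b v r s π c h1.1) : h * h1⁻¹ ∈ GamQ (HQ Q) 𝔫 v r s :=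
  qxa_quot Q h0 hv hπ hh ha hh1 ha1

/-- (DC_H) From the double coset operator to the operator over `Γ_U`. -/
theorem qa_isU {𝔫 : Ideal (𝓞 K)} {v : HeightOneSpectrum (𝓞 K)} {r s : ℕ} {c : b.support → ℤ} {π : K} {h : HQ Q} (hrs : 1 ≤ r + s) (hc : InvC Q c) (hL : LvL b 𝔫 v r s c π h.1)
    {F : HRt (HQ Q) → ℂ} (iF : ∀ γ ∈ GamHR (HQ Q) 𝔫 v r s, ∀ x, F (γ * x) = F x) {t : ℂ} (hT : IsTH (HQ Q) 𝔫 v r s h F t) : IsUH (HQ Q) 𝔫 v r s h F t :=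
  qxa_isU Q hrs hc hL iF hT

end

end Pool.Agent.Lib.L1S
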