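import Pool.Agent.Lib.L1S.QP2
import Pool.Agent.Lib.L1S.DE1
import Pool.Agent.Lib.L1S.DC

/-!
# L1S, QC1: the localisation of `𝓞 L` at a prime `v` of `K` and the level conditions
-/

namespace Pool.Agent.Lib.L1S

open MeasureTheory Matrix NumberField IsDedekindDomain Pool.Agent.Lib.H89N Pool.Agent.Lib.H33W

noncomputable section

set_option linter.unusedSectionVars false

section Loc

variable {K L : Type} [Field K] [NumberField K] [Field L] [NumberField L] [Algebra K L] {v : HeightOneSpectrum (𝓞 K)}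

theorem qc_cm (a c : 𝓞 K) : algebraMap K L ((a * c : 𝓞 K) : K) = algebraMap K L (a : K) * algebraMap K L (c : K) := by
  rw [← map_mul]
  rfl

theorem qc_c1 : algebraMap K L ((1 : 𝓞 K) : K) = 1 := by
  have e : ((1 : 𝓞 K) : K) = 1 := rfl
  rw [e, map_one]

theorem qc_alg {𝔞 : Ideal (𝓞 K)} {a : 𝓞 K} (h : a ∈ 𝔞) : InI (up L 𝔞) (algebraMap K L (a : K)) :=
  ⟨algebraMap (𝓞 K) (𝓞 L) a, Ideal.mem_map_of_mem _ h, rfl⟩

theorem qc_alg_top (a : 𝓞 K) : InI ⊤ (algebraMap K L (a : K)) := ⟨algebraMap (𝓞 K) (𝓞 L) a, Submodule.mem_top, rfl⟩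

theorem qc_algI {𝔞 : Ideal (𝓞 K)} {x : K} (h : InI 𝔞 x) : InI (up L 𝔞) (algebraMap K L x) := by
  obtain ⟨a, ha, rfl⟩ := h
  exact qc_alg ha

theorem qc_neg {𝔞 : Ideal (𝓞 L)} {x : L} (h : InI 𝔞 x) : InI 𝔞 (-x) := by
  obtain ⟨y, hy, rfl⟩ := h
  exact ⟨-y, neg_mem hy, by simp⟩

theorem qc_one : InI (⊤ : Ideal (𝓞 L)) (1 : L) := ⟨1, Submodule.mem_top, by simp⟩

theorem IntV.of_int {x : L} (h : InI ⊤ x) : IntV v x := by
  refine ⟨1, fun h1 => v.isPrime.ne_top ((Ideal.eq_top_iff_one _).2 h1), ?_⟩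
  have e : algebraMap K L ((1 : 𝓞 K) : K) * x = x := by
    rw [qc_c1, one_mul]
  rw [e]
  exact h

theorem IntV.zero : IntV v (0 : L) := IntV.of_int (InI.zero _)

theorem IntV.one : IntV v (1 : L) := IntV.of_int qc_one

theorem qc_notMem {a c : 𝓞 K} (ha : a ∉ v.asIdeal) (hc : c ∉ v.asIdeal) : a * c ∉ v.asIdeal := fun h =>
  (v.isPrime.mem_or_mem h).elim ha hc

theorem IntV.add {x y : L} (hx : IntV v x) (hy : IntV v y) : IntV v (x + y) := by
  obtain ⟨a, ha, hx⟩ := hx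
  obtain ⟨c, hc, hy⟩ := hy
  refine ⟨a * c, qc_notMem ha hc, ?_⟩
  have e : algebraMap K L ((a * c : 𝓞 K) : K) * (x + y) = algebraMap K L (c : K) * (algebraMap K L (a : K) * x) + algebraMap K L (a : K) * (algebraMap K L (c : K) * y) := by
    rw [qc_cm]
    ring
  rw [e]
  exact ((qc_alg_top c).mul' hx).add ((qc_alg_top a).mul' hy)

theorem IntV.mul {x y : L} (hx : IntV v x) (hy : IntV v y) : IntV v (x * y) := by
  obtain ⟨a, ha, hx⟩ := hx
  obtain ⟨c, hc, hy⟩ := hy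
  refine ⟨a * c, qc_notMem ha hc, ?_⟩
  have e : algebraMap K L ((a * c : 𝓞 K) : K) * (x * y) = (algebraMap K L (a : K) * x) * (algebraMap K L (c : K) * y) := by
    rw [qc_cm]
    ring
  rw [e]
  exact hx.mul' hy

theorem IntV.neg {x : L} (hx : IntV v x) : IntV v (-x) := by
  obtain ⟨a, ha, hx⟩ := hx
  refine ⟨a, ha, ?_⟩
  rw [mul_neg]
  exact qc_neg hx

theorem IntV.sub {x y : L} (hx : IntV v x) (hy : IntV v y) : IntV v (x - y) := by
  rw [sub_eq_add_neg]
  exact hx.add hy.neg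

theorem IntV.sum {α : Type} (s : Finset α) (f : α → L) (h : ∀ k ∈ s, IntV v (f k)) : IntV v (∑ k ∈ s, f k) := by
  classical
  induction s using Finset.induction_on with
  | empty => simpa using IntV.zero (L := L) (v := v)
  | insert a s ha ih =>
    rw [Finset.sum_insert ha]
    exact (h a (Finset.mem_insert_self _ _)).add (ih fun k hk => h k (Finset.mem_insert_of_mem hk))

theorem IntV.pow {x : L} (h : IntV v x) (n : ℕ) : IntV v (x ^ n) := by
  induction n with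
  | zero =>
    rw [pow_zero]
    exact IntV.one
  | succ n ih =>
    rw [pow_succ]
    exact ih.mul h

/-- The elements of `K` which are integral at `v`. -/
theorem intV_K {x : K} (h : v.valuation K x ≤ 1) : IntV v (algebraMap K L x) := by
  obtain ⟨n, d, e⟩ := v.exists_primeCompl_mul_eq_of_integer x h
  refine ⟨d, d.2, ?_⟩
  have e1 : algebraMap K L ((d : 𝓞 K) : K) * algebraMap K L x = algebraMap K L (n : K) := by
    rw [← map_mul, mul_comm]
    exact congrArg (algebraMap K L) e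
  rw [e1]
  exact qc_alg_top n

/-- The primes of `L` over `v`. -/
def Ovr (v : HeightOneSpectrum (𝓞 K)) (w : HeightOneSpectrum (𝓞 L)) : Prop := w.asIdeal.comap (algebraMap (𝓞 K) (𝓞 L)) = v.asIdeal

theorem IntV.val {w : HeightOneSpectrum (𝓞 L)} (hw : Ovr v w) {x : L} (h : IntV v x) : w.valuation L x ≤ 1 := by
  obtain ⟨a, ha, y, -, hy⟩ := h
  have h1 : algebraMap (𝓞 K) (𝓞 L) a ∉ w.asIdeal := by
    intro h2
    apply ha
    rw [← hw]
    exact h2
  have h2 : w.valuation L (algebraMap K L (a : K)) = 1 := by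
    have e : algebraMap K L (a : K) = algebraMap (𝓞 L) L (algebraMap (𝓞 K) (𝓞 L) a) := rfl
    rw [e, w.valuation_of_algebraMap]
    exact w.intValuation_eq_one_iff.2 h1
  have h3 : w.valuation L (algebraMap K L (a : K) * x) ≤ 1 := by
    rw [← hy]
    exact w.valuation_le_one y
  rwa [map_mul, h2, one_mul] at h3

theorem qc_over (v : HeightOneSpectrum (𝓞 K)) {I : Ideal (𝓞 L)} (h : I.comap (algebraMap (𝓞 K) (𝓞 L)) ≤ v.asIdeal) : ∃ w : HeightOneSpectrum (𝓞 L), Ovr v w ∧ I ≤ w.asIdeal := by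
  haveI := v.isPrime
  obtain ⟨Q, hQ1, hQ2, hQ3⟩ := Ideal.exists_ideal_over_prime_of_isIntegral v.asIdeal I h
  have hne : Q ≠ ⊥ := by
    rintro rfl
    apply v.ne_bot
    rw [← hQ3, ← RingHom.ker_eq_comap_bot]
    exact (RingHom.injective_iff_ker_eq_bot _).1 (FaithfulSMul.algebraMap_injective (𝓞 K) (𝓞 L))
  exact ⟨⟨Q, hQ2, hne⟩, hQ3, hQ1⟩

/-- Integral at all places over `v`. -/
theorem IntV.of_val {x : L} (h : ∀ w : HeightOneSpectrum (𝓞 L), Ovr v w → w.valuation L x ≤ 1) : IntV v x := by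
  set J : Ideal (𝓞 L) :=
    { carrier := {c | InI ⊤ ((c : L) * x)}
      add_mem' := by
        intro c d hc hd
        show InI ⊤ (((c + d : 𝓞 L) : L) * x)
        have e : ((c + d : 𝓞 L) : L) * x = (c : L) * x + (d : L) * x := by
          push_cast
          ring
        rw [e]
        exact InI.add hc hd
      zero_mem' := by
        show InI ⊤ (((0 : 𝓞 L) : L) * x)
        have e : ((0 : 𝓞 L) : L) * x = 0 := by
          push_cast
          ring
        rw [e]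
        exact InI.zero _
      smul_mem' := by
        intro c d hd
        show InI ⊤ (((c * d : 𝓞 L) : L) * x)
        have e : ((c * d : 𝓞 L) : L) * x = (c : L) * ((d : L) * x) := by
          push_cast
          ring
        rw [e]
        exact InI.mul' ⟨c, Submodule.mem_top, rfl⟩ hd } with hJ
  by_cases hc : J.comap (algebraMap (𝓞 K) (𝓞 L)) ≤ v.asIdeal
  · exfalso
    obtain ⟨w, hw, hle⟩ := qc_over v hc
    obtain ⟨n, d, e⟩ := w.exists_primeCompl_mul_eq_of_integer x (h w hw)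
    have h1 : (d : 𝓞 L) ∈ J := by
      show InI ⊤ (((d : 𝓞 L) : L) * x)
      rw [mul_comm]
      exact ⟨n, Submodule.mem_top, e.symm⟩
    exact d.2 (hle h1)
  · obtain ⟨a, ha, hav⟩ := SetLike.not_le_iff_exists.1 hc
    exact ⟨a, hav, ha⟩

theorem qc_map_le {w : HeightOneSpectrum (𝓞 L)} (hw : Ovr v w) (n : ℕ) : up L (v.asIdeal ^ n) ≤ w.asIdeal ^ n := by
  unfold up
  rw [Ideal.map_pow]
  refine Ideal.pow_right_mono ?_ n
  rw [Ideal.map_le_iff_le_comap]
  exact hw.ge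

theorem qc_up_bot {𝔫 : Ideal (𝓞 K)} (h : 𝔫 ≠ ⊥) : up L 𝔫 ≠ ⊥ := by
  intro h0
  apply h
  unfold up at h0
  rw [Ideal.map_eq_bot_iff_le_ker] at h0
  rw [(RingHom.injective_iff_ker_eq_bot _).1 (FaithfulSMul.algebraMap_injective (𝓞 K) (𝓞 L))] at h0
  exact le_bot_iff.1 h0

/-- Local-global. -/
theorem qc_glob {𝔞 : Ideal (𝓞 L)} {x : L} {j : ℕ} (h1 : ∀ a ∈ v.asIdeal ^ j, InI 𝔞 (algebraMap K L (a : K) * x)) {a : 𝓞 K} (ha : a ∉ v.asIdeal) (h2 : InI 𝔞 (algebraMap K L (a : K) * x)) : InI 𝔞 x := by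
  have hcop : v.asIdeal ^ j ⊔ Ideal.span {a} = ⊤ := by
    have h3 : v.asIdeal ⊔ Ideal.span {a} = ⊤ := by
      refine v.isMaximal.1.2 _ (lt_of_le_of_ne le_sup_left fun h => ha ?_)
      rw [h]
      exact Ideal.mem_sup_right (Ideal.mem_span_singleton_self a)
    have h4 : IsCoprime v.asIdeal (Ideal.span {a}) := Ideal.isCoprime_iff_sup_eq.2 h3
    exact Ideal.isCoprime_iff_sup_eq.1 h4.pow_left
  obtain ⟨y, hy, z, hz, e⟩ := Submodule.mem_sup.1 ((Ideal.eq_top_iff_one _).1 hcop)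
  obtain ⟨c, rfl⟩ := Ideal.mem_span_singleton'.1 hz
  have e1 : x = algebraMap K L (y : K) * x + algebraMap K L (c : K) * (algebraMap K L (a : K) * x) := by
    have e2 : algebraMap K L (y : K) + algebraMap K L (c : K) * algebraMap K L (a : K) = 1 := by
      rw [← map_mul, ← map_add]
      have e3 : (y : K) + (c : K) * (a : K) = ((y + c * a : 𝓞 K) : K) := by push_cast; ring
      rw [e3, e]
      simp
    calc x = (algebraMap K L (y : K) + algebraMap K L (c : K) * algebraMap K L (a : K)) * x := by rw [e2, one_mul]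
      _ = _ := by ring
  rw [e1]
  exact (h1 y hy).add ((qc_alg_top c).mul' h2)

/-- An element of `𝔫[1/v]` which is integral at `v`. -/
theorem qc_int {𝔫 : Ideal (𝓞 K)} (hv : ¬𝔫 ≤ v.asIdeal) {x : L} {j : ℕ} (h1 : DenL 𝔫 v j x) (h2 : IntV v x) : InI (up L 𝔫) x := by
  obtain ⟨n0, hn0, hn0'⟩ := SetLike.not_le_iff_exists.1 hv
  obtain ⟨a, ha, hx⟩ := h2
  refine qc_glob h1 (qc_notMem hn0' ha) ?_
  have e : algebraMap K L ((n0 * a : 𝓞 K) : K) * x = algebraMap K L (n0 : K) * (algebraMap K L (a : K) * x) := by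
    rw [qc_cm]
    ring
  rw [e]
  exact (qc_alg hn0).mul hx

theorem qc_pi0 {π : K} (hπ : v.valuation K π = WithZero.exp (-1 : ℤ)) : π ≠ 0 := by
  rintro rfl
  rw [map_zero] at hπ
  exact WithZero.exp_ne_zero hπ.symm

theorem qc_piv {π : K} (hπ : v.valuation K π = WithZero.exp (-1 : ℤ)) (n : ℕ) : v.valuation K (π ^ n) = WithZero.exp (-(n : ℤ)) := by
  have h := dc_pi hπ (n : ℤ)
  rwa [zpow_natCast] at h

/-- An integral element in `π ^ n` at `v`. -/
theorem qc_int_v {π : K} (hπ : v.valuation K π = WithZero.exp (-1 : ℤ)) {x : L} (h1 : InI ⊤ x) {n : ℕ} (h2 : IntV v ((algebraMap K L π)⁻¹ ^ n * x)) : InI (up L (v.asIdeal ^ n)) x := by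
  obtain ⟨a, ha, hx⟩ := h2
  have hπ0 : algebraMap K L π ≠ 0 := by
    rw [ne_eq, map_eq_zero]
    exact qc_pi0 hπ
  obtain ⟨p, d, e⟩ := v.exists_primeCompl_mul_eq_of_integer (π ^ n) (by
    rw [qc_piv hπ]
    exact dc0_le_one v n)
  have hp : p ∈ v.asIdeal ^ n := by
    have e0 : v.valuation K (algebraMap (𝓞 K) K p) ≤ WithZero.exp (-(n : ℤ)) := by
      rw [← e, map_mul, qc_piv hπ]
      calc WithZero.exp (-(n : ℤ)) * v.valuation K (algebraMap (𝓞 K) K d) ≤ WithZero.exp (-(n : ℤ)) * 1 := mul_le_mul' le_rfl (v.valuation_le_one _)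
        _ = _ := mul_one _
    rw [v.valuation_of_algebraMap] at e0
    exact (v.intValuation_le_pow_iff_mem p n).1 e0
  have e1 : algebraMap K L (π ^ n) * algebraMap K L ((d : 𝓞 K) : K) = algebraMap K L (p : K) := by
    rw [← map_mul]
    exact congrArg (algebraMap K L) e
  refine qc_glob (v := v) (j := n) (fun y hy => (qc_alg hy).mul h1) (qc_notMem (d.2 : (d : 𝓞 K) ∉ v.asIdeal) ha) ?_
  have e2 : algebraMap K L (((d : 𝓞 K) * a : 𝓞 K) : K) * x = algebraMap K L (p : K) * (algebraMap K L (a : K) * ((algebraMap K L π)⁻¹ ^ n * x)) := by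
    rw [qc_cm, ← e1, map_pow]
    have h3 : algebraMap K L π ^ n * (algebraMap K L π)⁻¹ ^ n = 1 := by rw [← mul_pow, mul_inv_cancel₀ hπ0, one_pow]
    linear_combination (-(algebraMap K L ((d : 𝓞 K) : K) * algebraMap K L (a : K) * x)) * h3
  rw [e2]
  exact (qc_alg hp).mul hx

theorem qc_v_int {π : K} (hπ : v.valuation K π = WithZero.exp (-1 : ℤ)) {x : L} {n : ℕ} (h : InI (up L (v.asIdeal ^ n)) x) : IntV v ((algebraMap K L π)⁻¹ ^ n * x) := by
  obtain ⟨y, hy, rfl⟩ := h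
  unfold up at hy
  rw [Ideal.map] at hy
  induction hy using Submodule.span_induction with
  | mem z hz =>
    obtain ⟨a, ha, rfl⟩ := hz
    have e : (algebraMap K L π)⁻¹ ^ n * ((algebraMap (𝓞 K) (𝓞 L) a : 𝓞 L) : L) = algebraMap K L ((π⁻¹) ^ n * (a : K)) := by
      rw [map_mul, map_pow, map_inv₀]
      rfl
    rw [e]
    refine intV_K ?_
    rw [map_mul, map_pow, map_inv₀, hπ]
    have h1 := dc0_int (v := v) (n := n) ⟨a, ha, rfl⟩
    calc (WithZero.exp (-1 : ℤ))⁻¹ ^ n * v.valuation K (a : K) ≤ (WithZero.exp (-1 : ℤ))⁻¹ ^ n * WithZero.exp (-(n : ℤ)) := mul_le_mul' le_rfl h1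
      _ = 1 := by
        rw [← WithZero.exp_neg, ← WithZero.exp_nsmul, ← WithZero.exp_add, ← WithZero.exp_zero]
        congr 1
        simp
  | zero =>
    have e : (algebraMap K L π)⁻¹ ^ n * ((0 : 𝓞 L) : L) = 0 := by simp
    rw [e]
    exact IntV.zero
  | add x y _ _ hx hy =>
    have e : (algebraMap K L π)⁻¹ ^ n * ((x + y : 𝓞 L) : L) = (algebraMap K L π)⁻¹ ^ n * (x : L) + (algebraMap K L π)⁻¹ ^ n * (y : L) := by
      push_cast
      ring
    rw [e]
    exact hx.add hy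
  | smul c x _ hx =>
    have e : (algebraMap K L π)⁻¹ ^ n * ((c • x : 𝓞 L) : L) = (c : L) * ((algebraMap K L π)⁻¹ ^ n * (x : L)) := by
      rw [smul_eq_mul]
      push_cast
      ring
    rw [e]
    exact (IntV.of_int ⟨c, Submodule.mem_top, rfl⟩).mul hx

/-! ## Powers of `π` -/

/-- `x ∈ π ^ n R`, `R` the localisation at `v`. -/
def PV (v : HeightOneSpectrum (𝓞 K)) (π : K) (n : ℕ) (x : L) : Prop := IntV v ((algebraMap K L π)⁻¹ ^ n * x)

theorem PV.zero' (π : K) (n : ℕ) : PV v π n (0 : L) := by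
  unfold PV
  rw [mul_zero]
  exact IntV.zero

theorem PV.add {π : K} {n : ℕ} {x y : L} (hx : PV v π n x) (hy : PV v π n y) : PV v π n (x + y) := by
  unfold PV
  rw [mul_add]
  exact IntV.add hx hy

theorem PV.neg {π : K} {n : ℕ} {x : L} (hx : PV v π n x) : PV v π n (-x) := by
  unfold PV
  rw [mul_neg]
  exact IntV.neg hx

theorem PV.sum {π : K} {n : ℕ} {α : Type} (s : Finset α) (f : α → L) (h : ∀ k ∈ s, PV v π n (f k)) : PV v π n (∑ k ∈ s, f k) := by
  unfold PV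
  rw [Finset.mul_sum]
  exact IntV.sum s _ h

theorem PV.mulI {π : K} {n : ℕ} {x y : L} (hx : PV v π n x) (hy : IntV v y) : PV v π n (x * y) := by
  unfold PV
  rw [← mul_assoc]
  exact IntV.mul hx hy

theorem PV.mulI' {π : K} {n : ℕ} {x y : L} (hx : IntV v x) (hy : PV v π n y) : PV v π n (x * y) := by
  rw [mul_comm]
  exact hy.mulI hx

theorem pv_zero {π : K} {x : L} : PV v π 0 x ↔ IntV v x := by
  unfold PV
  rw [pow_zero, one_mul]

theorem qc_pi_int {π : K} (hπ : v.valuation K π = WithZero.exp (-1 : ℤ)) : IntV v (algebraMap K L π) := by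
  refine intV_K ?_
  rw [hπ]
  exact dc0_le_one v 1

theorem PV.mono {π : K} (hπ : v.valuation K π = WithZero.exp (-1 : ℤ)) {n m : ℕ} (h : n ≤ m) {x : L} (hx : PV v π m x) : PV v π n x := by
  obtain ⟨k, rfl⟩ := Nat.exists_eq_add_of_le h
  have hπ0 : algebraMap K L π ≠ 0 := by
    rw [ne_eq, map_eq_zero]
    exact qc_pi0 hπ
  have e : (algebraMap K L π)⁻¹ ^ n * x = algebraMap K L π ^ k * ((algebraMap K L π)⁻¹ ^ (n + k) * x) := by
    have h1 : algebraMap K L π ^ k * (algebraMap K L π)⁻¹ ^ k = 1 := by rw [← mul_pow, mul_inv_cancel₀ hπ0, one_pow]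
    rw [pow_add]
    linear_combination (-((algebraMap K L π)⁻¹ ^ n * x)) * h1
  unfold PV
  rw [e]
  exact ((qc_pi_int hπ).pow k).mul hx

theorem PV.int {π : K} (hπ : v.valuation K π = WithZero.exp (-1 : ℤ)) {n : ℕ} {x : L} (hx : PV v π n x) : IntV v x := pv_zero.1 (hx.mono hπ (Nat.zero_le n))

theorem PV.mul {π : K} {n m : ℕ} {x y : L} (hx : PV v π n x) (hy : PV v π m y) : PV v π (n + m) (x * y) := by
  unfold PV
  have e : (algebraMap K L π)⁻¹ ^ (n + m) * (x * y) = ((algebraMap K L π)⁻¹ ^ n * x) * ((algebraMap K L π)⁻¹ ^ m * y) := by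
    rw [pow_add]
    ring
  rw [e]
  exact IntV.mul hx hy

/-- Every element has a nonzero integral multiple. -/
theorem qc_den (x : L) : ∃ m : ℤ, m ≠ 0 ∧ InI ⊤ ((m : L) * x) := by
  have h0 : IsAlgebraic ℤ x := by
    rw [IsFractionRing.isAlgebraic_iff ℤ ℚ L]
    exact Algebra.IsAlgebraic.isAlgebraic x
  obtain ⟨m, hm, h⟩ := h0.exists_integral_multiple
  refine ⟨m, hm, ⟨(m • x), h⟩, Submodule.mem_top, ?_⟩
  show m • x = (m : L) * x
  rw [zsmul_eq_mul]

/-- Every element is in `π ^ (-B) R` for some `B`. -/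
theorem pv_bound {π : K} (hπ : v.valuation K π = WithZero.exp (-1 : ℤ)) (x : L) : ∃ B : ℕ, IntV v (algebraMap K L π ^ B * x) := by
  obtain ⟨m, hm, h⟩ := qc_den x
  obtain ⟨B, hB⟩ := de_exp v ((m : K)⁻¹)
  refine ⟨B, ?_⟩
  have hm0 : (m : L) ≠ 0 := by exact_mod_cast hm
  have e : algebraMap K L π ^ B * x = algebraMap K L (π ^ B * (m : K)⁻¹) * ((m : L) * x) := by
    rw [map_mul, map_pow, map_inv₀, map_intCast]
    field_simp
  rw [e]
  refine (intV_K ?_).mul (IntV.of_int h)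
  rw [map_mul, qc_piv hπ]
  calc WithZero.exp (-(B : ℤ)) * v.valuation K ((m : K)⁻¹) ≤ WithZero.exp (-(B : ℤ)) * WithZero.exp (B : ℤ) := mul_le_mul' le_rfl hB
    _ = 1 := by
      rw [← WithZero.exp_add, ← WithZero.exp_zero]
      congr 1
      simp

end Loc

end

end Pool.Agent.Lib.L1S
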