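import Pool.Agent.Lib.L1S.QC1

/-!
# L1S, QC2: the level conditions over `L`, the opposite decomposition of the fixed elements
-/

namespace Pool.Agent.Lib.L1S

open MeasureTheory Matrix NumberField IsDedekindDomain Pool.Agent.Lib.H89N Pool.Agent.Lib.H33W

noncomputable section

set_option linter.unusedSectionVars false

variable {ι M N : Type} [Fintype ι] [DecidableEq ι] [AddCommGroup M] [Module ℚ M] [AddCommGroup N] [Module ℚ N]
  {P : RootPairing ι ℚ M N} [P.IsCrystallographic] [P.IsReduced] [P.IsIrreducible] [P.IsRootSystem]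

variable {b : P.Base} {K L : Type} [Field K] [NumberField K] [Field L] [NumberField L] [Algebra K L] {v : HeightOneSpectrum (𝓞 K)}

theorem qc_one_int (i j : I b) : IntV v ((1 : Matrix (I b) (I b) L) i j) := by
  by_cases h : i = j
  · subst h
    rw [Matrix.one_apply_eq]
    exact IntV.one
  · rw [Matrix.one_apply_ne h]
    exact IntV.zero

theorem qc_one_top (i j : I b) : InI ⊤ ((1 : Matrix (I b) (I b) L) i j) := by
  by_cases h : i = j
  · subst h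
    rw [Matrix.one_apply_eq]
    exact qc_one
  · rw [Matrix.one_apply_ne h]
    exact InI.zero _

theorem qc_ne {X : Matrix (I b) (I b) L} {i j : I b} (h : ht b i < ht b j) : (X - 1) i j = X i j := by
  rw [Matrix.sub_apply, Matrix.one_apply_ne, sub_zero]
  rintro rfl
  exact lt_irrefl _ h

theorem qc_mm {X Y : Matrix (I b) (I b) L} (hX : ∀ i j, IntV v (X i j)) (hY : ∀ i j, IntV v (Y i j)) (i j : I b) : IntV v ((X * Y) i j) := by
  rw [Matrix.mul_apply]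
  exact IntV.sum _ _ fun k _ => (hX i k).mul (hY k j)

theorem qc_mpow {X : Matrix (I b) (I b) L} (hX : ∀ i j, IntV v (X i j)) (n : ℕ) (i j : I b) : IntV v ((X ^ n) i j) := by
  induction n generalizing i j with
  | zero =>
    rw [pow_zero]
    exact qc_one_int i j
  | succ n ih =>
    rw [pow_succ]
    exact qc_mm ih hX i j

/-- The matrices of level `r, s` at `v` are closed under multiplication. -/
theorem IwV.mul' {π : K} (hπ : v.valuation K π = WithZero.exp (-1 : ℤ)) {r s : ℕ} {g h : Matrix (I b) (I b) L} (hg : IwV b v r s π g) (hh : IwV b v r s π h) : IwV b v r s π (g * h) := by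
  have e : g * h - 1 = (g - 1) * h + (h - 1) := by
    rw [sub_mul, one_mul]
    abel
  have lo : ∀ {x : Matrix (I b) (I b) L}, IwV b v r s π x → ∀ i j, ht b i < ht b j → PV v π (r + s) (x i j) := fun hx i j h => (hx i j).2.1 h
  have di : ∀ {x : Matrix (I b) (I b) L}, IwV b v r s π x → ∀ i j, ht b i = ht b j → PV v π r ((x - 1) i j) := fun hx i j h => (hx i j).2.2 h
  have hsub : ∀ {x : Matrix (I b) (I b) L}, IwV b v r s π x → ∀ i j, IntV v ((x - 1) i j) := by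
    intro x hx i j
    rw [Matrix.sub_apply]
    exact (hx i j).1.sub (qc_one_int i j)
  intro i j
  refine ⟨qc_mm (fun i j => (hg i j).1) (fun i j => (hh i j).1) i j, ?_, ?_⟩
  · intro hij
    show PV v π (r + s) ((g * h) i j)
    rw [Matrix.mul_apply]
    refine PV.sum _ _ fun k _ => ?_
    by_cases h1 : ht b i < ht b k
    · exact (lo hg i k h1).mulI (hh k j).1
    · exact PV.mulI' (hg i k).1 (lo hh k j ((not_lt.1 h1).trans_lt hij))
  · intro hij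
    show PV v π r ((g * h - 1) i j)
    rw [e, Matrix.add_apply]
    refine PV.add ?_ (di hh i j hij)
    rw [Matrix.mul_apply]
    refine PV.sum _ _ fun k _ => ?_
    rcases lt_trichotomy (ht b i) (ht b k) with h1 | h1 | h1
    · rw [qc_ne h1]
      exact ((lo hg i k h1).mono hπ (Nat.le_add_right r s)).mulI (hh k j).1
    · exact (di hg i k h1).mulI (hh k j).1
    · exact PV.mulI' (hsub hg i k) ((lo hh k j (h1.trans_le hij.le)).mono hπ (Nat.le_add_right r s))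

theorem IwV.one' (π : K) (r s : ℕ) : IwV b v r s π (1 : Matrix (I b) (I b) L) := by
  intro i j
  refine ⟨qc_one_int i j, fun h => ?_, fun _ => ?_⟩
  · show PV v π (r + s) ((1 : Matrix (I b) (I b) L) i j)
    rw [← qc_ne (X := (1 : Matrix (I b) (I b) L)) h, sub_self]
    exact PV.zero' π (r + s)
  · show PV v π r ((1 - 1 : Matrix (I b) (I b) L) i j)
    rw [sub_self]
    exact PV.zero' π r

/-- A matrix which is congruent to `1` modulo a high power of `v`. -/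
theorem IwV.of_cong' {π : K} (hπ : v.valuation K π = WithZero.exp (-1 : ℤ)) {r s : ℕ} {g : Matrix (I b) (I b) L} (h : ∀ i j, PV v π (r + s) ((g - 1) i j)) : IwV b v r s π g := by
  intro i j
  refine ⟨?_, fun hij => ?_, fun _ => (h i j).mono hπ (Nat.le_add_right r s)⟩
  · have e : g i j = (g - 1) i j + (1 : Matrix (I b) (I b) L) i j := by simp
    rw [e]
    exact ((h i j).int hπ).add (qc_one_int i j)
  · show PV v π (r + s) (g i j)
    rw [← qc_ne (X := g) hij]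
    exact h i j

theorem qc_top {g : Matrix (I b) (I b) L} {𝔞 : Ideal (𝓞 L)} (h : ∀ i j, InI 𝔞 ((g - 1) i j)) (i j : I b) : InI ⊤ (g i j) := by
  have e : g i j = (g - 1) i j + (1 : Matrix (I b) (I b) L) i j := by simp
  rw [e]
  exact (h i j).top.add (qc_one_top i j)

/-- The elements of `Γ` at `v`. -/
theorem qc_iw {π : K} (hπ : v.valuation K π = WithZero.exp (-1 : ℤ)) {𝔫 : Ideal (𝓞 K)} {r s : ℕ} {γ : GK b L} (hγ : γ ∈ GamL b L 𝔫 v r s) : IwV b v r s π γ.1.1 := by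
  have h0 := qc_top (b := b) (g := γ.1.1) (𝔞 := up L 𝔫) fun i j => (hγ i j).1.1
  intro i j
  exact ⟨IntV.of_int (h0 i j), fun h => qc_v_int hπ ((hγ i j).1.2.1 h), fun h => qc_v_int hπ ((hγ i j).1.2.2 h)⟩

theorem DenL.of_int {𝔫 : Ideal (𝓞 K)} {x : L} (h : InI (up L 𝔫) x) (j : ℕ) : DenL 𝔫 v j x := fun a _ => (qc_alg_top a).mul' h

theorem DenL.add {𝔫 : Ideal (𝓞 K)} {j : ℕ} {x y : L} (hx : DenL 𝔫 v j x) (hy : DenL 𝔫 v j y) : DenL 𝔫 v j (x + y) := fun a ha => by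
  rw [mul_add]
  exact (hx a ha).add (hy a ha)

theorem DenL.zero (𝔫 : Ideal (𝓞 K)) (j : ℕ) : DenL 𝔫 v j (0 : L) := fun a _ => by
  rw [mul_zero]
  exact InI.zero _

theorem DenL.sum {𝔫 : Ideal (𝓞 K)} {j : ℕ} {α : Type} (s : Finset α) (f : α → L) (h : ∀ k ∈ s, DenL 𝔫 v j (f k)) : DenL 𝔫 v j (∑ k ∈ s, f k) := fun a ha => by
  rw [Finset.mul_sum]
  exact InI.sum s _ fun k hk => h k hk a ha

theorem DenL.mono {𝔫 : Ideal (𝓞 K)} {j k : ℕ} (h : j ≤ k) {x : L} (hx : DenL 𝔫 v j x) : DenL 𝔫 v k x := fun a ha => hx a (Ideal.pow_le_pow_right h ha)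

theorem DenL.mul {𝔫 𝔪 : Ideal (𝓞 K)} {j k : ℕ} {x y : L} (hx : DenL 𝔫 v j x) (hy : DenL 𝔪 v k y) : DenL (𝔫 * 𝔪) v (j + k) (x * y) := by
  intro a ha
  rw [pow_add] at ha
  refine Submodule.mul_induction_on ha (fun m hm n hn => ?_) fun a c ha hc => ?_
  · have e : algebraMap K L ((m * n : 𝓞 K) : K) * (x * y) = (algebraMap K L (m : K) * x) * (algebraMap K L (n : K) * y) := by
      rw [qc_cm]
      ring
    rw [e]
    obtain ⟨y1, h1, e1⟩ := hx m hm
    obtain ⟨y2, h2, e2⟩ := hy n hn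
    refine ⟨y1 * y2, ?_, ?_⟩
    · unfold up
      rw [Ideal.map_mul]
      exact Ideal.mul_mem_mul h1 h2
    · rw [← e1, ← e2]
      push_cast
      ring
  · have e : algebraMap K L ((a + c : 𝓞 K) : K) * (x * y) = algebraMap K L (a : K) * (x * y) + algebraMap K L (c : K) * (x * y) := by
      have e1 : ((a + c : 𝓞 K) : K) = (a : K) + (c : K) := rfl
      rw [e1, map_add]
      ring
    rw [e]
    exact ha.add hc

theorem DenL.le {𝔫 𝔪 : Ideal (𝓞 K)} {j : ℕ} {x : L} (hx : DenL 𝔫 v j x) (h : 𝔫 ≤ 𝔪) : DenL 𝔪 v j x := by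
  intro a ha
  obtain ⟨z, hz, e⟩ := hx a ha
  have h1 : up L 𝔫 ≤ up L 𝔪 := up_mono L h
  exact ⟨z, h1 hz, e⟩

theorem DenL.mul1 {𝔫 𝔪 : Ideal (𝓞 K)} {j k : ℕ} {x y : L} (hx : DenL 𝔫 v j x) (hy : DenL 𝔪 v k y) : DenL 𝔫 v (j + k) (x * y) :=
  DenL.le (DenL.mul hx hy) Ideal.mul_le_left

theorem qc_den_one {𝔫 : Ideal (𝓞 K)} {j : ℕ} {X : Matrix (I b) (I b) L} (hX : ∀ r c, DenL 𝔫 v j ((X - 1) r c)) (r c : I b) : DenL (⊤ : Ideal (𝓞 K)) v j (X r c) := by
  have e : X r c = (X - 1) r c + (1 : Matrix (I b) (I b) L) r c := by simp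
  have htop : up L (⊤ : Ideal (𝓞 K)) = ⊤ := Ideal.map_top _
  rw [e]
  refine DenL.add (fun a ha => ?_) (DenL.of_int ?_ j)
  · rw [htop]
    exact (hX r c a ha).top
  · rw [htop]
    exact qc_one_top r c

theorem qc_hg {𝔫 : Ideal (𝓞 K)} {r s : ℕ} {γ : GK b L} (hγ : γ ∈ GamL b L 𝔫 v r s) : γ ∈ HGL b L 𝔫 v :=
  ⟨0, fun i j => ⟨DenL.of_int (hγ i j).1.1 0, DenL.of_int (hγ i j).2.1 0⟩⟩

theorem hgl_mul {𝔫 : Ideal (𝓞 K)} {g h : GK b L} (hg : g ∈ HGL b L 𝔫 v) (hh : h ∈ HGL b L 𝔫 v) : g * h ∈ HGL b L 𝔫 v := by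
  obtain ⟨l, hl⟩ := hg
  obtain ⟨m, hm⟩ := hh
  have key : ∀ (x y : Matrix (I b) (I b) L) (l m : ℕ), (∀ i j, DenL 𝔫 v l ((x - 1) i j)) → (∀ i j, DenL 𝔫 v m ((y - 1) i j)) → ∀ i j, DenL 𝔫 v (l + m) ((x * y - 1) i j) := by
    intro x y l m hx hy i j
    have e : x * y - 1 = (x - 1) * y + (y - 1) := by
      rw [sub_mul, one_mul]
      abel
    rw [e, Matrix.add_apply, Matrix.mul_apply]
    exact (DenL.sum _ _ fun k _ => (hx i k).mul1 (qc_den_one hy k j)).add ((hy i j).mono (Nat.le_add_left m l))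
  refine ⟨l + m, fun i j => ⟨key _ _ l m (fun i j => (hl i j).1) (fun i j => (hm i j).1) i j, ?_⟩⟩
  have e : (g * h)⁻¹.1.1 = h⁻¹.1.1 * g⁻¹.1.1 := by
    rw [_root_.mul_inv_rev]
    rfl
  rw [e, add_comm l m]
  exact key _ _ m l (fun i j => (hm i j).2) (fun i j => (hl i j).2) i j

theorem hgl_inv {𝔫 : Ideal (𝓞 K)} {g : GK b L} (hg : g ∈ HGL b L 𝔫 v) : g⁻¹ ∈ HGL b L 𝔫 v := by
  obtain ⟨l, hl⟩ := hg
  refine ⟨l, fun i j => ⟨(hl i j).2, ?_⟩⟩
  rw [inv_inv]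
  exact (hl i j).1

theorem hgl_one (𝔫 : Ideal (𝓞 K)) : (1 : GK b L) ∈ HGL b L 𝔫 v := qc_hg (r := 0) (s := 0) (one_mem _)

/-- **The elements of `Γ` are the elements of `HGL` which are of level `r, s` at `v` together with their inverses.** -/
theorem qc_mem {𝔫 : Ideal (𝓞 K)} (hv : ¬𝔫 ≤ v.asIdeal) {π : K} (hπ : v.valuation K π = WithZero.exp (-1 : ℤ)) {r s : ℕ} {g : GK b L} (h1 : g ∈ HGL b L 𝔫 v) (h2 : IwV b v r s π g.1.1)
    (h3 : IwV b v r s π g⁻¹.1.1) : g ∈ GamL b L 𝔫 v r s := by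
  obtain ⟨l, hl⟩ := h1
  have key : ∀ x : Matrix (I b) (I b) L, (∀ i j, DenL 𝔫 v l ((x - 1) i j)) → IwV b v r s π x → ∀ i j,
      InI (up L 𝔫) ((x - 1) i j) ∧ (ht b i < ht b j → InI (up L (v.asIdeal ^ (r + s))) (x i j)) ∧ (ht b i = ht b j → InI (up L (v.asIdeal ^ r)) ((x - 1) i j)) := by
    intro x hx hI
    have h4 : ∀ i j, InI (up L 𝔫) ((x - 1) i j) := by
      intro i j
      refine qc_int hv (hx i j) ?_
      rw [Matrix.sub_apply]
      exact (hI i j).1.sub (qc_one_int i j)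
    exact fun i j => ⟨h4 i j, fun h => qc_int_v hπ (qc_top h4 i j) ((hI i j).2.1 h), fun h => qc_int_v hπ (h4 i j).top ((hI i j).2.2 h)⟩
  intro i j
  exact ⟨key _ (fun i j => (hl i j).1) h2 i j, key _ (fun i j => (hl i j).2) h3 i j⟩

/-- The level at a place over `v`. -/
theorem qc_gk {w : HeightOneSpectrum (𝓞 L)} (hw : Ovr v w) {𝔫 : Ideal (𝓞 K)} {r s : ℕ} {γ : GK b L} (hγ : γ ∈ GamL b L 𝔫 v r s) : γ ∈ GamK b (up L 𝔫) w r s := by
  have key : ∀ {n : ℕ} {x : L}, InI (up L (v.asIdeal ^ n)) x → InI (w.asIdeal ^ n) x := fun ⟨y, hy, e⟩ => ⟨y, qc_map_le hw _ hy, e⟩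
  intro i j
  obtain ⟨⟨h1, h2, h3⟩, h4, h5, h6⟩ := hγ i j
  exact ⟨⟨h1, fun h => key (h2 h), fun h => key (h3 h)⟩, h4, fun h => key (h5 h), fun h => key (h6 h)⟩

theorem Lo.qta {Q : QS b K L} {X : Matrix (I b) (I b) L} (h : Lo b X) (s : L ≃ₐ[K] L) : Lo b (qta Q s X) := by
  intro r c hrc k
  obtain ⟨r, rfl⟩ := (Q.da s).pI.surjective r
  obtain ⟨c, rfl⟩ := (Q.da s).pI.surjective c
  obtain ⟨k, rfl⟩ := (Q.da s).sp.surjective k
  rw [qta_apply] at hrc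
  rw [(Q.da s).wq_pI, (Q.da s).wq_pI]
  refine h r c (fun h0 => hrc ?_) k
  rw [h0, map_zero]

theorem qc_ut_qta {Q : QS b K L} {X : Matrix (I b) (I b) L} {k : ℤ} (h : UTk b k X) (s : L ≃ₐ[K] L) : UTk b k (qta Q s X) := by
  intro r c hrc
  obtain ⟨r, rfl⟩ := (Q.da s).pI.surjective r
  obtain ⟨c, rfl⟩ := (Q.da s).pI.surjective c
  rw [(Q.da s).ht_pI, (Q.da s).ht_pI] at hrc
  rw [qta_apply, h r c hrc]
  by_cases hc : r = c
  · subst hc
    rw [Matrix.one_apply_eq, Matrix.one_apply_eq, map_one]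
  · rw [Matrix.one_apply_ne hc, Matrix.one_apply_ne fun h => hc ((Q.da s).pI.injective h), map_zero]

theorem qc_inv_coe (g : GK b L) : g.1.1 * g⁻¹.1.1 = 1 ∧ g⁻¹.1.1 * g.1.1 = 1 := by
  constructor
  · have : (g * g⁻¹).1.1 = 1 := by
      rw [mul_inv_cancel]
      rfl
    exact this
  · have : (g⁻¹ * g).1.1 = 1 := by
      rw [inv_mul_cancel]
      rfl
    exact this

/-- The inverse of an integral unitriangular matrix is integral. -/
theorem qc_inv_int {u : GK b L} (hu : u ∈ HU b L) (h : ∀ i j, IntV v (u.1.1 i j)) (i j : I b) : IntV v (u⁻¹.1.1 i j) := by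
  have hn := qp_nil ((mem_HU_iff b u).1 hu)
  have h0 : (1 - u.1.1) ^ NB b = 0 := by
    have e : 1 - u.1.1 = -(u.1.1 - 1) := by abel
    rw [e, neg_pow, hn, mul_zero]
  have h1 : u.1.1 * ∑ k ∈ Finset.range (NB b), (1 - u.1.1) ^ k = 1 := by
    have h2 := mul_neg_geom_sum (1 - u.1.1) (NB b)
    rw [sub_sub_cancel, h0, sub_zero] at h2
    exact h2
  have h2 : u⁻¹.1.1 = ∑ k ∈ Finset.range (NB b), (1 - u.1.1) ^ k := by
    calc u⁻¹.1.1 = u⁻¹.1.1 * (u.1.1 * ∑ k ∈ Finset.range (NB b), (1 - u.1.1) ^ k) := by rw [h1, mul_one]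
      _ = _ := by rw [← mul_assoc, (qc_inv_coe u).2, one_mul]
  rw [h2, Matrix.sum_apply]
  refine IntV.sum _ _ fun k _ => qc_mpow (fun i j => ?_) k i j
  rw [Matrix.sub_apply]
  exact (qc_one_int i j).sub (h i j)

/-- **The opposite decomposition** of the fixed elements of `Γ`. -/
theorem qc_opp {Q : QS b K L} {𝔫 : Ideal (𝓞 K)} {r s : ℕ} (hrs : 1 ≤ r + s) {g : GK b L} (hg : g ∈ GamL b L 𝔫 v r s) (hF : Fx Q g.1.1) :
    ∃ u ∈ HU b L, Lo b (g * u).1.1 ∧ Lo b (g * u)⁻¹.1.1 ∧ Fx Q u.1.1 ∧ (∀ i j, IntV v (u.1.1 i j)) ∧ ∀ i j, IntV v (u⁻¹.1.1 i j) := by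
  obtain ⟨w, hw, -⟩ := qc_over (L := L) v (I := ⊥) (by
    rw [← RingHom.ker_eq_comap_bot, (RingHom.injective_iff_ker_eq_bot _).1 (FaithfulSMul.algebraMap_injective (𝓞 K) (𝓞 L))]
    exact bot_le)
  obtain ⟨u, hu, hl, hl'⟩ := dc3_opp hrs (qc_gk hw hg)
  have hut : UTk b 1 u.1.1 := (mem_HU_iff b u).1 hu
  have hut' : UTk b 1 u⁻¹.1.1 := (mem_HU_iff b _).1 (inv_mem hu)
  have hint : ∀ i j, IntV v (u.1.1 i j) := by
    intro i j
    refine IntV.of_val fun w hw => ?_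
    have hgI := dc0_iw (qc_gk hw hg)
    have hgI' := dc0_iw (inv_mem (qc_gk hw hg))
    exact dc1_int hrs hgI (fun i j => (hgI' i j).1) (qc_inv_coe g).2 (fun i j h => ((mem_HU b L u).1 hu i j h).1) (fun i j h => by
      by_contra hne
      have h1 := dc3_ht_le (hl i j hne)
      omega) i j
  refine ⟨u, hu, hl, hl', ?_, hint, qc_inv_int hu hint⟩
  rw [fx_iff] at hF ⊢
  intro t
  have e1 : (g * u).1.1 = g.1.1 * u.1.1 := rfl
  have e2 : (g * u)⁻¹.1.1 = u⁻¹.1.1 * g⁻¹.1.1 := by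
    rw [_root_.mul_inv_rev]
    rfl
  have h1 : Lo b (g.1.1 * qta Q t u.1.1) := by
    have h2 := hl.qta (Q := Q) t
    rwa [e1, qta_mul, hF t] at h2
  have h2 : Lo b (u⁻¹.1.1 * qta Q t u.1.1) := by
    have h3 := hl'.mul h1
    rw [e2] at h3
    have e3 : u⁻¹.1.1 * g⁻¹.1.1 * (g.1.1 * qta Q t u.1.1) = u⁻¹.1.1 * qta Q t u.1.1 := by
      rw [mul_assoc, ← mul_assoc g⁻¹.1.1, (qc_inv_coe g).2, one_mul]
    rwa [e3] at h3
  have h3 : UTk b 1 (u⁻¹.1.1 * qta Q t u.1.1) := UTk_mul b zero_le_one hut' (qc_ut_qta hut t)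
  have h4 : u⁻¹.1.1 * qta Q t u.1.1 = 1 := by
    ext i j
    by_cases h0 : (u⁻¹.1.1 * qta Q t u.1.1) i j = 0
    · rw [h0, Matrix.one_apply_ne]
      rintro rfl
      rw [h3 i i (by omega), Matrix.one_apply_eq] at h0
      exact one_ne_zero h0
    · have h5 := dc3_ht_le (h2 i j h0)
      exact h3 i j (by omega)
  calc qta Q t u.1.1 = u.1.1 * u⁻¹.1.1 * qta Q t u.1.1 := by rw [(qc_inv_coe u).1, one_mul]
    _ = u.1.1 := by rw [mul_assoc, h4, mul_one]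

end

end Pool.Agent.Lib.L1S
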