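import Pool.Agent.Lib.L1S.QC2

/-!
# L1S, QC3: approximation by the powers `u ^ c`, `c ∈ K`
-/

namespace Pool.Agent.Lib.L1S

open MeasureTheory Matrix NumberField IsDedekindDomain Pool.Agent.Lib.H89N Pool.Agent.Lib.H33W

noncomputable section

set_option linter.unusedSectionVars false

variable {ι M N : Type} [Fintype ι] [DecidableEq ι] [AddCommGroup M] [Module ℚ M] [AddCommGroup N] [Module ℚ N]
  {P : RootPairing ι ℚ M N} [P.IsCrystallographic] [P.IsReduced] [P.IsIrreducible] [P.IsRootSystem]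

variable {b : P.Base} {K L : Type} [Field K] [NumberField K] [Field L] [NumberField L] [Algebra K L] {v : HeightOneSpectrum (𝓞 K)}

/-- `g`, `g⁻¹` integral at `v`. -/
def GiV (b : P.Base) {K L : Type} [Field K] [NumberField K] [Field L] [NumberField L] [Algebra K L] (v : HeightOneSpectrum (𝓞 K)) (g : GK b L) : Prop := ∀ i j, IntV v (g.1.1 i j) ∧ IntV v (g⁻¹.1.1 i j)

/-- `g`, `g⁻¹` congruent to `1` modulo `π ^ n` at `v`. -/
def GcV (b : P.Base) {K L : Type} [Field K] [NumberField K] [Field L] [NumberField L] [Algebra K L] (v : HeightOneSpectrum (𝓞 K)) (π : K) (n : ℕ) (g : GK b L) : Prop :=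
  ∀ i j, PV v π n ((g.1.1 - 1) i j) ∧ PV v π n ((g⁻¹.1.1 - 1) i j)

theorem qc_pmm {π : K} {n m : ℕ} {X Y : Matrix (I b) (I b) L} (hX : ∀ i j, PV v π n (X i j)) (hY : ∀ i j, PV v π m (Y i j)) (i j : I b) : PV v π (n + m) ((X * Y) i j) := by
  rw [Matrix.mul_apply]
  exact PV.sum _ _ fun k _ => (hX i k).mul (hY k j)

theorem GcV.one (π : K) (n : ℕ) : GcV b v π n (1 : GK b L) := by
  have e : (1 : GK b L)⁻¹.1.1 = 1 := by rw [inv_one]; rfl
  have e0 : (1 : GK b L).1.1 = 1 := rfl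
  intro i j
  rw [e, e0, sub_self]
  exact ⟨PV.zero' π n, PV.zero' π n⟩

theorem GcV.inv {π : K} {n : ℕ} {g : GK b L} (hg : GcV b v π n g) : GcV b v π n g⁻¹ := by
  intro i j
  refine ⟨(hg i j).2, ?_⟩
  rw [inv_inv]
  exact (hg i j).1

theorem qc_gc_int {π : K} (hπ : v.valuation K π = WithZero.exp (-1 : ℤ)) {n : ℕ} {X : Matrix (I b) (I b) L} (hX : ∀ i j, PV v π n ((X - 1) i j)) (i j : I b) : IntV v (X i j) := by
  have e : X i j = (X - 1) i j + (1 : Matrix (I b) (I b) L) i j := by simp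
  rw [e]
  exact ((hX i j).int hπ).add (qc_one_int i j)

theorem GcV.mul {π : K} (hπ : v.valuation K π = WithZero.exp (-1 : ℤ)) {n : ℕ} {g h : GK b L} (hg : GcV b v π n g) (hh : GcV b v π n h) : GcV b v π n (g * h) := by
  have key : ∀ X Y : Matrix (I b) (I b) L, (∀ i j, PV v π n ((X - 1) i j)) → (∀ i j, PV v π n ((Y - 1) i j)) → ∀ i j, PV v π n ((X * Y - 1) i j) := by
    intro X Y hX hY i j
    have e : X * Y - 1 = (X - 1) * Y + (Y - 1) := by
      rw [sub_mul, one_mul]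
      abel
    rw [e, Matrix.add_apply, Matrix.mul_apply]
    exact (PV.sum _ _ fun k _ => (hX i k).mulI (qc_gc_int hπ hY k j)).add (hY i j)
  intro i j
  refine ⟨key _ _ (fun i j => (hg i j).1) (fun i j => (hh i j).1) i j, ?_⟩
  have e : (g * h)⁻¹.1.1 = h⁻¹.1.1 * g⁻¹.1.1 := by
    rw [_root_.mul_inv_rev]
    rfl
  rw [e]
  exact key _ _ (fun i j => (hh i j).2) (fun i j => (hg i j).2) i j

theorem qc_bound {π : K} (hπ : v.valuation K π = WithZero.exp (-1 : ℤ)) (X : Matrix (I b) (I b) L) : ∃ B : ℕ, ∀ i j, IntV v (algebraMap K L π ^ B * X i j) := by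
  choose n hn using fun i j => pv_bound hπ (X i j)
  refine ⟨∑ i, ∑ j, n i j, fun i j => ?_⟩
  have h1 : n i j ≤ ∑ i, ∑ j, n i j := (Finset.single_le_sum (f := fun j => n i j) (fun _ _ => Nat.zero_le _) (Finset.mem_univ j)).trans
    (Finset.single_le_sum (f := fun i => ∑ j, n i j) (fun _ _ => Nat.zero_le _) (Finset.mem_univ i))
  obtain ⟨k, hk⟩ := Nat.exists_eq_add_of_le h1
  rw [hk, pow_add]
  have e : algebraMap K L π ^ n i j * algebraMap K L π ^ k * X i j = algebraMap K L π ^ k * (algebraMap K L π ^ n i j * X i j) := by ring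
  rw [e]
  exact ((qc_pi_int hπ).pow k).mul (hn i j)

/-- Conjugation by an arbitrary element. -/
theorem GcV.conj {π : K} (hπ : v.valuation K π = WithZero.exp (-1 : ℤ)) (d : GK b L) : ∃ B : ℕ, ∀ (n : ℕ) (x : GK b L), GcV b v π (n + B) x → GcV b v π n (d * x * d⁻¹) ∧ GcV b v π n (d⁻¹ * x * d) := by
  obtain ⟨B1, hB1⟩ := qc_bound hπ d.1.1
  obtain ⟨B2, hB2⟩ := qc_bound hπ d⁻¹.1.1
  have hπ0 : algebraMap K L π ≠ 0 := by
    rw [ne_eq, map_eq_zero]
    exact qc_pi0 hπ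
  refine ⟨B1 + B2, fun n x hx => ?_⟩
  obtain ⟨e1, e2⟩ := qc_inv_coe d
  have key : ∀ (X Y Z : Matrix (I b) (I b) L) (B1 B2 : ℕ), (∀ i j, IntV v (algebraMap K L π ^ B1 * X i j)) → (∀ i j, IntV v (algebraMap K L π ^ B2 * Z i j)) → X * Z = 1 →
      (∀ i j, PV v π (n + (B1 + B2)) ((Y - 1) i j)) → ∀ i j, PV v π n ((X * Y * Z - 1) i j) := by
    intro X Y Z B1 B2 hX hZ h1 hY i j
    have e : X * Y * Z - 1 = X * (Y - 1) * Z := by rw [Matrix.mul_sub, Matrix.sub_mul, Matrix.mul_one, h1]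
    rw [e, Matrix.mul_apply]
    refine PV.sum _ _ fun k _ => ?_
    rw [Matrix.mul_apply, Finset.sum_mul]
    refine PV.sum _ _ fun l _ => ?_
    unfold PV
    have h2 : algebraMap K L π ^ (B1 + B2) * (algebraMap K L π)⁻¹ ^ (B1 + B2) = 1 := by rw [← mul_pow, mul_inv_cancel₀ hπ0, one_pow]
    have e3 : (algebraMap K L π)⁻¹ ^ n * (X i l * (Y - 1) l k * Z k j) =
        (algebraMap K L π ^ B1 * X i l) * ((algebraMap K L π)⁻¹ ^ (n + (B1 + B2)) * (Y - 1) l k) * (algebraMap K L π ^ B2 * Z k j) := by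
      rw [pow_add (algebraMap K L π)⁻¹ n, pow_add (algebraMap K L π) B1 B2] at *
      linear_combination (-((algebraMap K L π)⁻¹ ^ n * (X i l * (Y - 1) l k * Z k j))) * h2
    rw [e3]
    exact ((hX i l).mul (hY l k)).mul (hZ k j)
  refine ⟨fun i j => ⟨key _ _ _ B1 B2 hB1 hB2 e1 (fun i j => (hx i j).1) i j, ?_⟩, fun i j => ⟨key _ _ _ B2 B1 hB2 hB1 e2 (fun i j => ?_) i j, ?_⟩⟩
  · have e : (d * x * d⁻¹)⁻¹.1.1 = d.1.1 * x⁻¹.1.1 * d⁻¹.1.1 := by
      have : (d * x * d⁻¹)⁻¹ = d * x⁻¹ * d⁻¹ := by group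
      rw [this]
      rfl
    rw [e]
    exact key _ _ _ B1 B2 hB1 hB2 e1 (fun i j => (hx i j).2) i j
  · rw [add_comm B2 B1]
    exact (hx i j).1
  · have e : (d⁻¹ * x * d)⁻¹.1.1 = d⁻¹.1.1 * x⁻¹.1.1 * d.1.1 := by
      have : (d⁻¹ * x * d)⁻¹ = d⁻¹ * x⁻¹ * d := by group
      rw [this]
      rfl
    rw [e]
    refine key _ _ _ B2 B1 hB2 hB1 e2 (fun i j => ?_) i j
    rw [add_comm B2 B1]
    exact (hx i j).2

theorem qc_intC (z : ℤ) : InI (⊤ : Ideal (𝓞 L)) ((z : ℤ) : L) := ⟨(z : 𝓞 L), Submodule.mem_top, map_intCast (algebraMap (𝓞 L) L) z⟩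

/-- A common denominator. -/
theorem qc_dens {α : Type} [Fintype α] (y : α → L) : ∃ m : ℤ, m ≠ 0 ∧ ∀ a, InI ⊤ ((m : L) * y a) := by
  classical
  choose m hm h using fun a => qc_den (y a)
  refine ⟨∏ a, m a, Finset.prod_ne_zero_iff.2 fun a _ => hm a, fun a => ?_⟩
  rw [← Finset.mul_prod_erase _ _ (Finset.mem_univ a)]
  have e : ((m a * ∏ x ∈ Finset.univ.erase a, m x : ℤ) : L) * y a = ((∏ x ∈ Finset.univ.erase a, m x : ℤ) : L) * ((m a : L) * y a) := by
    push_cast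
    ring
  rw [e]
  exact InI.mul' (qc_intC _) (h a)

theorem qc_denK {𝔫 : Ideal (𝓞 K)} {l : ℕ} {t : K} (h : Den 𝔫 v l t) : DenL 𝔫 v l (algebraMap K L t) := by
  intro a ha
  obtain ⟨y, hy, e⟩ := h a ha
  have e1 : algebraMap K L (a : K) * algebraMap K L t = algebraMap K L (y : K) := by
    rw [← map_mul]
    exact congrArg (algebraMap K L) e
  rw [e1]
  exact qc_alg hy

theorem DenL.mulT {𝔫 : Ideal (𝓞 K)} {j : ℕ} {x y : L} (hx : DenL 𝔫 v j x) (hy : InI ⊤ y) : DenL 𝔫 v j (x * y) := fun a ha => by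
  rw [← mul_assoc]
  exact (hx a ha).mul hy

theorem qc_prod_top {s : Finset ℕ} {f : ℕ → L} (h : ∀ k ∈ s, InI ⊤ (f k)) : InI ⊤ (∏ k ∈ s, f k) := by
  classical
  induction s using Finset.induction_on with
  | empty =>
    rw [Finset.prod_empty]
    exact qc_one
  | insert a s ha ih =>
    rw [Finset.prod_insert ha]
    exact (h a (Finset.mem_insert_self _ _)).mul' (ih fun k hk => h k (Finset.mem_insert_of_mem hk))

theorem qc_prod_int {s : Finset ℕ} {f : ℕ → L} (h : ∀ k ∈ s, IntV v (f k)) : IntV v (∏ k ∈ s, f k) := by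
  classical
  induction s using Finset.induction_on with
  | empty =>
    rw [Finset.prod_empty]
    exact IntV.one
  | insert a s ha ih =>
    rw [Finset.prod_insert ha]
    exact (h a (Finset.mem_insert_self _ _)).mul (ih fun k hk => h k (Finset.mem_insert_of_mem hk))

theorem qc_natC (n : ℕ) : InI (⊤ : Ideal (𝓞 L)) ((n : ℕ) : L) := ⟨(n : 𝓞 L), Submodule.mem_top, by simp⟩

/-- **Approximation at `v` by `u ^ c`**, `c ∈ K`, which is congruent to `1` modulo `𝔫` away from `v`. -/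
theorem qc_scal {𝔫 : Ideal (𝓞 K)} (hv : ¬𝔫 ≤ v.asIdeal) {π : K} (hπ : v.valuation K π = WithZero.exp (-1 : ℤ)) {u : GK b L} (hn : (u.1.1 - 1) ^ NB b = 0) (n : ℕ) :
    ∃ c : K, ∀ g : GK b L, g.1.1 = upw b u.1.1 (algebraMap K L c) → g⁻¹.1.1 = upw b u.1.1 (-algebraMap K L c) → g ∈ HGL b L 𝔫 v ∧ GcV b v π n (u⁻¹ * g) := by
  set y : Fin (NB b) × I b × I b → L := fun a => (((((a.1 : ℕ) + 1).factorial : L)⁻¹ • (u.1.1 - 1) ^ ((a.1 : ℕ) + 1)) a.2.1 a.2.2) with hy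
  obtain ⟨D, hD, hDy⟩ := qc_dens y
  have hDK : (D : K) ≠ 0 := by exact_mod_cast hD
  have hDL : (D : L) ≠ 0 := by exact_mod_cast hD
  obtain ⟨B, hB⟩ := de_exp v ((D : K)⁻¹)
  obtain ⟨t, ⟨l, ht⟩, ht'⟩ := de_approx hv ((D : K)⁻¹) (n + B)
  set c : K := D * t with hc
  have hDv : v.valuation K (D : K) ≤ 1 := dc4_intCast v D
  have hc1 : v.valuation K (c - 1) ≤ WithZero.exp (-((n + B : ℕ) : ℤ)) := by
    have e : c - 1 = D * (t - (D : K)⁻¹) := by
      rw [hc, mul_sub, mul_inv_cancel₀ hDK]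
    rw [e, map_mul]
    calc v.valuation K (D : K) * v.valuation K (t - (D : K)⁻¹) ≤ 1 * WithZero.exp (-((n + B : ℕ) : ℤ)) := mul_le_mul' hDv ht'
      _ = _ := one_mul _
  have hcv : v.valuation K c ≤ 1 := by
    have e : c = (c - 1) + 1 := by ring
    rw [e]
    refine (Valuation.map_add _ _ _).trans (max_le (hc1.trans (dc0_le_one v _)) ?_)
    rw [map_one]
  have hcI : InI ⊤ c := by
    refine dc0_glob (𝔫 := ⊤) (v := v) top_ne_bot (fun h => v.isPrime.ne_top (top_le_iff.1 h)) (l := l) ?_ hcv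
    intro a ha
    obtain ⟨z, hz, e⟩ := ht a ha
    refine ⟨D * z, Submodule.mem_top, ?_⟩
    have e2 : ((D * z : 𝓞 K) : K) = (D : K) * (z : K) := by
      have e3 : ((D : 𝓞 K) : K) = (D : K) := map_intCast (algebraMap (𝓞 K) K) D
      rw [← e3]
      rfl
    rw [hc, e2, ← e]
    ring
  have hcT : InI ⊤ (algebraMap K L c) := by
    obtain ⟨a, _, e⟩ := hcI
    rw [← e]
    exact qc_alg_top a
  -- the formula
  have form : ∀ (x : L) (i j : I b), (upw b u.1.1 x - 1) i j = ∑ k : Fin (NB b), (∏ m ∈ Finset.range (k : ℕ), (x - ((m + 1 : ℕ) : L))) * ((x * (D : L)⁻¹) * ((D : L) * y (k, i, j))) := by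
    intro x i j
    rw [upw_sub_one hn, Finset.mul_sum, Finset.sum_range]
    refine Finset.sum_congr rfl fun k _ => ?_
    rw [hy]
    simp only
    have h1 : (D : L)⁻¹ * D = 1 := inv_mul_cancel₀ hDL
    push_cast
    linear_combination (-(x * (∏ m ∈ Finset.range (k : ℕ), (x - (((m : ℕ) : L) + 1))) * ((((((k : ℕ) + 1).factorial : L)⁻¹ • (u.1.1 - 1) ^ ((k : ℕ) + 1)) i j)))) * h1
  have d1 : ∀ x : L, InI ⊤ x → DenL 𝔫 v l (x * (D : L)⁻¹) → ∀ i j, DenL 𝔫 v l ((upw b u.1.1 x - 1) i j) := by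
    intro x hx hx' i j
    rw [form]
    refine DenL.sum _ _ fun k _ => ?_
    rw [mul_comm]
    refine (hx'.mulT (hDy _)).mulT (qc_prod_top fun m _ => ?_)
    rw [sub_eq_add_neg]
    exact hx.add (qc_neg (qc_natC _))
  have d2 : ∀ x : L, IntV v x → PV v π n (x * (D : L)⁻¹) → ∀ i j, PV v π n ((upw b u.1.1 x - 1) i j) := by
    intro x hx hx' i j
    rw [form]
    refine PV.sum _ _ fun k _ => PV.mulI' (qc_prod_int fun m _ => ?_) (hx'.mulI (IntV.of_int (hDy _)))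
    exact hx.sub (IntV.of_int (qc_natC _))
  have hDc : DenL 𝔫 v l (algebraMap K L c * (D : L)⁻¹) := by
    have e : algebraMap K L c * (D : L)⁻¹ = algebraMap K L t := by
      rw [hc, map_mul, map_intCast]
      field_simp
    rw [e]
    exact qc_denK ht
  have hneg : ∀ {x : L}, DenL 𝔫 v l x → DenL 𝔫 v l (-x) := fun {x} hx a ha => by
    rw [mul_neg]
    exact qc_neg (hx a ha)
  have hP : PV v π n (algebraMap K L (c - 1) * (D : L)⁻¹) := by
    unfold PV
    have e : (algebraMap K L π)⁻¹ ^ n * (algebraMap K L (c - 1) * (D : L)⁻¹) = algebraMap K L (π⁻¹ ^ n * ((c - 1) * (D : K)⁻¹)) := by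
      rw [map_mul, map_mul, map_pow, map_inv₀, map_inv₀, map_intCast]
    rw [e]
    refine intV_K ?_
    rw [map_mul, map_mul, map_pow, map_inv₀, hπ]
    calc (WithZero.exp (-1 : ℤ))⁻¹ ^ n * (v.valuation K (c - 1) * v.valuation K (D : K)⁻¹)
        ≤ (WithZero.exp (-1 : ℤ))⁻¹ ^ n * (WithZero.exp (-((n + B : ℕ) : ℤ)) * WithZero.exp (B : ℤ)) := mul_le_mul' le_rfl (mul_le_mul' hc1 hB)
      _ = 1 := by
        rw [← WithZero.exp_neg, ← WithZero.exp_nsmul, ← WithZero.exp_add, ← WithZero.exp_add, ← WithZero.exp_zero]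
        congr 1
        push_cast
        rw [nsmul_eq_mul]
        ring
  have hcI1 : IntV v (algebraMap K L (c - 1)) := intV_K (hc1.trans (dc0_le_one v _))
  refine ⟨c, fun g hg hg' => ⟨⟨l, fun i j => ⟨?_, ?_⟩⟩, fun i j => ⟨?_, ?_⟩⟩⟩
  · rw [hg]
    exact d1 _ hcT hDc i j
  · rw [hg']
    refine d1 _ (qc_neg hcT) ?_ i j
    rw [neg_mul]
    exact hneg hDc
  · have e : (u⁻¹ * g).1.1 = upw b u.1.1 (algebraMap K L (c - 1)) := by
      have e1 : (u⁻¹ * g).1.1 = u⁻¹.1.1 * g.1.1 := rfl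
      have e2 : u⁻¹.1.1 = upw b u.1.1 (-1) := by
        calc u⁻¹.1.1 = u⁻¹.1.1 * (upw b u.1.1 1 * upw b u.1.1 (-1)) := by rw [upw_mul_neg hn, mul_one]
          _ = _ := by rw [upw_one hn, ← mul_assoc, (qc_inv_coe u).2, one_mul]
      rw [e1, e2, hg, ← upw_add hn, map_sub, map_one]
      congr 1
      ring
    rw [e]
    exact d2 _ hcI1 hP i j
  · have e : (u⁻¹ * g)⁻¹.1.1 = upw b u.1.1 (-algebraMap K L (c - 1)) := by
      have e1 : (u⁻¹ * g)⁻¹.1.1 = g⁻¹.1.1 * u.1.1 := by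
        rw [_root_.mul_inv_rev, inv_inv]
        rfl
      rw [e1, hg']
      calc upw b u.1.1 (-algebraMap K L c) * u.1.1 = upw b u.1.1 (-algebraMap K L c) * upw b u.1.1 1 := by rw [upw_one hn]
        _ = _ := by
          rw [← upw_add hn, map_sub, map_one]
          congr 1
          ring
    rw [e]
    refine d2 _ hcI1.neg ?_ i j
    rw [neg_mul]
    exact hP.neg

end

end Pool.Agent.Lib.L1S
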