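import Pool.Agent.Lib.L1S.QC3

/-!
# L1S, QC4: an eigenfunction of the double coset operator is an eigenfunction of `U_λ` (quasi-split groups)
-/

namespace Pool.Agent.Lib.L1S

open MeasureTheory Matrix NumberField IsDedekindDomain Pool.Agent.Lib.H89N Pool.Agent.Lib.H33W

noncomputable section

set_option linter.unusedSectionVars false

variable {ι M N : Type} [Fintype ι] [DecidableEq ι] [AddCommGroup M] [Module ℚ M] [AddCommGroup N] [Module ℚ N]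
  {P : RootPairing ι ℚ M N} [P.IsCrystallographic] [P.IsReduced] [P.IsIrreducible] [P.IsRootSystem]

variable {b : P.Base} {K L : Type} [Field K] [NumberField K] [Field L] [NumberField L] [Algebra K L] {v : HeightOneSpectrum (𝓞 K)}

theorem qc_al0 {π : K} (hπ : v.valuation K π = WithZero.exp (-1 : ℤ)) : algebraMap K L π ≠ 0 := by
  rw [ne_eq, map_eq_zero]
  exact qc_pi0 hπ

/-- `λ(π)⁻¹ X λ(π)` for a matrix `X` which lowers the weights. -/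
theorem qc_lo {π : K} (hπ : v.valuation K π = WithZero.exp (-1 : ℤ)) {c : b.support → ℤ} (hc : ∀ i : b.support, 0 ≤ pr b c (Sum.inr i)) {r s : ℕ} {X : Matrix (I b) (I b) L}
    (hX : IwV b v r s π X) (hL : Lo b X) : IwV b v r s π ((Matrix.diagonal fun i => algebraMap K L π ^ (-pr b c i)) * X * Matrix.diagonal fun i => algebraMap K L π ^ pr b c i) := by
  have hπ0 := qc_al0 (L := L) hπ
  have e : ∀ i j, ((Matrix.diagonal fun i => algebraMap K L π ^ (-pr b c i)) * X * Matrix.diagonal fun i => algebraMap K L π ^ pr b c i) i j = algebraMap K L π ^ (pr b c j - pr b c i) * X i j := by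
    intro i j
    rw [Matrix.mul_diagonal, Matrix.diagonal_mul, sub_eq_add_neg, zpow_add₀ hπ0]
    ring
  have hle : ∀ i j, ∃ z : L, IntV v z ∧ algebraMap K L π ^ (pr b c j - pr b c i) * X i j = z * X i j := by
    intro i j
    by_cases h : X i j = 0
    · exact ⟨1, IntV.one, by rw [h, mul_zero, mul_zero]⟩
    · have h1 := dc_pr_le hc (hL i j h)
      refine ⟨algebraMap K L π ^ (pr b c j - pr b c i), ?_, rfl⟩
      obtain ⟨m, hm⟩ := Int.eq_ofNat_of_zero_le (sub_nonneg.2 h1)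
      rw [hm, zpow_natCast]
      exact (qc_pi_int hπ).pow m
  intro i j
  refine ⟨?_, fun h => ?_, fun h => ?_⟩
  · obtain ⟨z, hz, h1⟩ := hle i j
    rw [e, h1]
    exact hz.mul (hX i j).1
  · obtain ⟨z, hz, h1⟩ := hle i j
    rw [e, h1]
    exact PV.mulI' hz ((hX i j).2.1 h)
  · rw [Matrix.sub_apply, e]
    have h1 : algebraMap K L π ^ (pr b c j - pr b c i) * X i j = X i j := by
      by_cases h0 : X i j = 0
      · rw [h0, mul_zero]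
      · rw [dc_pr_eq c (dc3_ht_eq (hL i j h0) h), sub_self, zpow_zero, one_mul]
    rw [h1]
    have h2 := (hX i j).2.2 h
    rwa [Matrix.sub_apply] at h2

/-- `λ(π)⁻¹ Y λ(π)` for `Y` close to `1`. -/
theorem qc_cong {π : K} (hπ : v.valuation K π = WithZero.exp (-1 : ℤ)) {c : b.support → ℤ} {r s : ℕ} {Y : Matrix (I b) (I b) L}
    (hY : ∀ i j, PV v π (r + s + 2 * ∑ k, (pr b c k).natAbs) ((Y - 1) i j)) :
    IwV b v r s π ((Matrix.diagonal fun i => algebraMap K L π ^ (-pr b c i)) * Y * Matrix.diagonal fun i => algebraMap K L π ^ pr b c i) := by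
  have hπ0 := qc_al0 (L := L) hπ
  refine IwV.of_cong' hπ fun i j => ?_
  have e0 : (Matrix.diagonal fun i => algebraMap K L π ^ (-pr b c i)) * (Matrix.diagonal fun i => algebraMap K L π ^ pr b c i) = (1 : Matrix (I b) (I b) L) := by
    rw [Matrix.diagonal_mul_diagonal, ← Matrix.diagonal_one]
    congr 1
    funext i
    rw [_root_.zpow_neg, inv_mul_cancel₀ (zpow_ne_zero _ hπ0)]
  have e1 : (Matrix.diagonal fun i => algebraMap K L π ^ (-pr b c i)) * Y * (Matrix.diagonal fun i => algebraMap K L π ^ pr b c i) - 1 =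
      (Matrix.diagonal fun i => algebraMap K L π ^ (-pr b c i)) * (Y - 1) * Matrix.diagonal fun i => algebraMap K L π ^ pr b c i := by
    rw [Matrix.mul_sub, Matrix.sub_mul, Matrix.mul_one, e0]
  rw [e1, Matrix.mul_diagonal, Matrix.diagonal_mul]
  have hs : ∀ k : I b, ((pr b c k).natAbs : ℤ) ≤ ((∑ k, (pr b c k).natAbs : ℕ) : ℤ) := fun k =>
    Int.ofNat_le.2 (Finset.single_le_sum (f := fun k => (pr b c k).natAbs) (fun _ _ => Nat.zero_le _) (Finset.mem_univ k))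
  have hi := hs i
  have hj := hs j
  have h1 := hY i j
  unfold PV at h1 ⊢
  generalize (∑ k, (pr b c k).natAbs : ℕ) = T at hi hj h1
  obtain ⟨m, hm⟩ : ∃ m : ℕ, (m : ℤ) = 2 * T - pr b c i + pr b c j := ⟨(2 * (T : ℤ) - pr b c i + pr b c j).toNat, Int.toNat_of_nonneg (by omega)⟩
  have e2 : (algebraMap K L π)⁻¹ ^ (r + s) * (algebraMap K L π ^ (-pr b c i) * (Y - 1) i j * algebraMap K L π ^ pr b c j) =
      algebraMap K L π ^ m * ((algebraMap K L π)⁻¹ ^ (r + s + 2 * T) * (Y - 1) i j) := by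
    have e3 : (algebraMap K L π)⁻¹ ^ (r + s) * algebraMap K L π ^ (-pr b c i) * algebraMap K L π ^ pr b c j = algebraMap K L π ^ m * (algebraMap K L π)⁻¹ ^ (r + s + 2 * T) := by
      rw [← zpow_natCast, ← zpow_natCast, ← zpow_natCast, _root_.inv_zpow', _root_.inv_zpow', ← zpow_add₀ hπ0, ← zpow_add₀ hπ0, ← zpow_add₀ hπ0]
      congr 1
      push_cast
      rw [hm]
      ring
    linear_combination ((Y - 1) i j) * e3
  rw [e2]
  exact ((qc_pi_int hπ).pow m).mul h1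

theorem qc_hlv {𝔫 : Ideal (𝓞 K)} {r s : ℕ} {c : b.support → ℤ} {π : K} {h : GK b L} (hlv : LvL b 𝔫 v r s c π h) {x y : GK b L} (hx : IwV b v r s π x.1.1) (hxL : Lo b x.1.1)
    (hy : ∀ i j, PV v π (r + s + 2 * ∑ k, (pr b c k).natAbs) ((y.1.1 - 1) i j)) : IwV b v r s π (h * (x * y) * h⁻¹).1.1 ∧ IwV b v r s π (h * (y * x) * h⁻¹).1.1 := by
  have hπ0 := qc_al0 (L := L) hlv.hπ
  have hD : (Matrix.diagonal fun i => algebraMap K L π ^ pr b c i) * (Matrix.diagonal fun i => algebraMap K L π ^ (-pr b c i)) = (1 : Matrix (I b) (I b) L) := by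
    rw [Matrix.diagonal_mul_diagonal, ← Matrix.diagonal_one]
    congr 1
    funext i
    rw [_root_.zpow_neg, mul_inv_cancel₀ (zpow_ne_zero _ hπ0)]
  have h1 := qc_lo hlv.hπ hlv.dom hx hxL
  have h2 := qc_cong hlv.hπ hy
  obtain ⟨hv1, hv2⟩ := hlv.hv
  set D : Matrix (I b) (I b) L := Matrix.diagonal fun i => algebraMap K L π ^ pr b c i with hDdef
  set D' : Matrix (I b) (I b) L := Matrix.diagonal fun i => algebraMap K L π ^ (-pr b c i) with hD'def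
  constructor
  · have e : (h * (x * y) * h⁻¹).1.1 = (h.1.1 * D) * (D' * x.1.1 * D) * (D' * y.1.1 * D) * (D' * h⁻¹.1.1) := by
      have e1 : (h * (x * y) * h⁻¹).1.1 = h.1.1 * (x.1.1 * y.1.1) * h⁻¹.1.1 := rfl
      rw [e1]
      calc h.1.1 * (x.1.1 * y.1.1) * h⁻¹.1.1 = h.1.1 * 1 * x.1.1 * 1 * y.1.1 * 1 * h⁻¹.1.1 := by simp only [mul_one, mul_assoc]
        _ = h.1.1 * (D * D') * x.1.1 * (D * D') * y.1.1 * (D * D') * h⁻¹.1.1 := by rw [hD]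
        _ = _ := by simp only [mul_assoc]
    rw [e]
    exact ((hv1.mul' hlv.hπ h1).mul' hlv.hπ h2).mul' hlv.hπ hv2
  · have e : (h * (y * x) * h⁻¹).1.1 = (h.1.1 * D) * (D' * y.1.1 * D) * (D' * x.1.1 * D) * (D' * h⁻¹.1.1) := by
      have e1 : (h * (y * x) * h⁻¹).1.1 = h.1.1 * (y.1.1 * x.1.1) * h⁻¹.1.1 := rfl
      rw [e1]
      calc h.1.1 * (y.1.1 * x.1.1) * h⁻¹.1.1 = h.1.1 * 1 * y.1.1 * 1 * x.1.1 * 1 * h⁻¹.1.1 := by simp only [mul_one, mul_assoc]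
        _ = h.1.1 * (D * D') * y.1.1 * (D * D') * x.1.1 * (D * D') * h⁻¹.1.1 := by rw [hD]
        _ = _ := by simp only [mul_assoc]
    rw [e]
    exact ((hv1.mul' hlv.hπ h2).mul' hlv.hπ h1).mul' hlv.hπ hv2

/-- **`Γ = (Γ ∩ h⁻¹ Γ h) (Γ ∩ U)`.** -/
theorem qc_main {Q : QS b K L} {𝔫 : Ideal (𝓞 K)} {r s : ℕ} (hrs : 1 ≤ r + s) {c : b.support → ℤ} {π : K} {h : GK b L} (hlv : LvL b 𝔫 v r s c π h) {g : GK b L} (hg : g ∈ GamL b L 𝔫 v r s)
    (hgQ : g ∈ HQ Q) : ∃ u ∈ GamL b L 𝔫 v r s, u ∈ HU b L ∧ u ∈ HQ Q ∧ h * (g * u⁻¹) * h⁻¹ ∈ GamL b L 𝔫 v r s := by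
  obtain ⟨u, hu, hl, hl', hF, hui, hui'⟩ := qc_opp hrs hg (hq_fx hgQ)
  have hut : UTk b 1 u.1.1 := (mem_HU_iff b u).1 hu
  obtain ⟨c0, hc0⟩ := qc_scal (n := r + s + 2 * ∑ k, (pr b c k).natAbs) hlv.nv hlv.hπ (qp_nil hut)
  obtain ⟨u', huU, e1, e2⟩ := upw_mem hu (algebraMap K L c0)
  obtain ⟨hH, hc⟩ := hc0 u' e1 e2
  have hut' : UTk b 1 u'.1.1 := (mem_HU_iff b u').1 huU
  have hF' : Fx Q u'.1.1 := by
    rw [e1]
    exact hF.upw c0
  have hQ' : u' ∈ HQ Q := Subgroup.subset_closure ⟨hF', Or.inl (ut_iff.2 hut')⟩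
  have hgI := qc_iw hlv.hπ hg
  have hgI' := qc_iw hlv.hπ (inv_mem hg)
  have hiw : ∀ x : Matrix (I b) (I b) L, (∀ i j, IntV v (x i j)) → (∀ i j, ht b i ≤ ht b j → x i j = (1 : Matrix (I b) (I b) L) i j) → IwV b v r s π x := by
    intro x h1 h2 i j
    refine ⟨h1 i j, fun h => ?_, fun h => ?_⟩
    · rw [h2 i j h.le]
      exact (IwV.one' (b := b) π r s i j).2.1 h
    · rw [Matrix.sub_apply, h2 i j h.le, sub_self]
      exact PV.zero' π r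
  have hiu : IwV b v r s π u.1.1 ∧ IwV b v r s π u⁻¹.1.1 :=
    ⟨hiw _ hui fun i j h => ((mem_HU b L u).1 hu i j h).1, hiw _ hui' fun i j h => ((mem_HU b L u).1 hu i j h).2⟩
  have hu'm : u' ∈ GamL b L 𝔫 v r s := by
    have hint : ∀ i j, IntV v (u'.1.1 i j) := by
      have e3 : u'.1.1 = u.1.1 * (u⁻¹ * u').1.1 := by
        have : u' = u * (u⁻¹ * u') := by group
        conv_lhs => rw [this]
        rfl
      rw [e3]
      exact qc_mm hui (qc_gc_int hlv.hπ fun i j => (hc i j).1)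
    have hint' := qc_inv_int huU hint
    exact qc_mem hlv.nv hlv.hπ hH (hiw _ hint fun i j h => ((mem_HU b L u').1 huU i j h).1) (hiw _ hint' fun i j h => ((mem_HU b L u').1 huU i j h).2)
  have hI1 : IwV b v r s π (g * u).1.1 := hgI.mul' hlv.hπ hiu.1
  have hI2 : IwV b v r s π (g * u)⁻¹.1.1 := by
    have e : (g * u)⁻¹.1.1 = u⁻¹.1.1 * g⁻¹.1.1 := by
      rw [_root_.mul_inv_rev]
      rfl
    rw [e]
    exact hiu.2.mul' hlv.hπ hgI'
  refine ⟨u'⁻¹, inv_mem hu'm, inv_mem huU, inv_mem hQ', ?_⟩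
  have e3 : h * (g * u'⁻¹⁻¹) * h⁻¹ = h * ((g * u) * (u⁻¹ * u')) * h⁻¹ := by group
  have e4 : (h * (g * u'⁻¹⁻¹) * h⁻¹)⁻¹ = h * ((u⁻¹ * u')⁻¹ * (g * u)⁻¹) * h⁻¹ := by group
  refine qc_mem hlv.nv hlv.hπ ?_ ?_ ?_
  · rw [inv_inv]
    exact hgl_mul (hgl_mul hlv.hh (hgl_mul (qc_hg hg) (qc_hg hu'm))) (hgl_inv hlv.hh)
  · rw [e3]
    exact (qc_hlv hlv hI1 hl fun i j => (hc i j).1).1
  · rw [e4]
    exact (qc_hlv hlv hI2 hl' fun i j => (hc i j).2).2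

/-- **An eigenfunction of the double coset operator is an eigenfunction of `U_λ`** (quasi-split groups). -/
theorem qc_isUH_of_isTH {Q : QS b K L} {𝔫 : Ideal (𝓞 K)} {r s : ℕ} (hrs : 1 ≤ r + s) {c : b.support → ℤ} {π : K} {h : HQ Q} (hlv : LvL b 𝔫 v r s c π h.1) {F : HRt (HQ Q) → ℂ} {θ : ℂ}
    (hF : ∀ γ ∈ GamHR (HQ Q) 𝔫 v r s, ∀ x, F (γ * x) = F x) (hT : IsTH (HQ Q) 𝔫 v r s h F θ) : IsUH (HQ Q) 𝔫 v r s h F θ := by
  classical
  obtain ⟨S, hS1, hS2, hS3⟩ := hT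
  set E := embH (HQ Q) with hE
  have key : ∀ w, ∃ u : HRt (HQ Q), w ∈ S → u ∈ GamHR (HQ Q) 𝔫 v r s ⊓ UHR (HQ Q) ∧ w * (E h * u)⁻¹ ∈ GamHR (HQ Q) 𝔫 v r s := by
    intro w
    by_cases hw : w ∈ S
    · obtain ⟨γ, hγ, γ', ⟨g, hg, rfl⟩, e⟩ := hS1 w hw
      obtain ⟨u, hu, huU, huQ, hm⟩ := qc_main hrs hlv hg g.2
      refine ⟨E ⟨u, huQ⟩, fun _ => ⟨⟨⟨⟨u, huQ⟩, hu, rfl⟩, huU⟩, ?_⟩⟩
      have e1 : w * (E h * E ⟨u, huQ⟩)⁻¹ = γ * E (h * (g * (⟨u, huQ⟩ : HQ Q)⁻¹) * h⁻¹) := by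
        rw [e, ← hE, map_mul, map_mul, map_mul, map_inv, map_inv]
        group
      rw [e1]
      exact mul_mem hγ ⟨_, hm, rfl⟩
    · exact ⟨1, fun h => absurd h hw⟩
  choose f hf using key
  have huniq : ∀ w, InTH (HQ Q) 𝔫 v r s h w → ∀ w1 ∈ S, ∀ w2 ∈ S, w * w1⁻¹ ∈ GamHR (HQ Q) 𝔫 v r s → w * w2⁻¹ ∈ GamHR (HQ Q) 𝔫 v r s → w1 = w2 := by
    intro w hw w1 h1 w2 h2 h3 h4
    obtain ⟨w', -, hw'⟩ := hS2 w hw
    rw [hw' w1 ⟨h1, h3⟩, hw' w2 ⟨h2, h4⟩]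
  have hfw : ∀ w ∈ S, ∀ u ∈ GamHR (HQ Q) 𝔫 v r s ⊓ UHR (HQ Q), E h * (u * (f w)⁻¹) * (E h)⁻¹ ∈ GamHR (HQ Q) 𝔫 v r s ↔ (E h * u) * w⁻¹ ∈ GamHR (HQ Q) 𝔫 v r s := by
    intro w hw u _
    have h1 := (hf w hw).2
    have e : E h * (u * (f w)⁻¹) * (E h)⁻¹ = ((E h * u) * w⁻¹) * (w * (E h * f w)⁻¹) := by group
    rw [e]
    exact ⟨fun h2 => (Subgroup.mul_mem_cancel_right _ h1).1 h2, fun h2 => mul_mem h2 h1⟩
  have hint : ∀ u ∈ GamHR (HQ Q) 𝔫 v r s ⊓ UHR (HQ Q), InTH (HQ Q) 𝔫 v r s h (E h * u) := fun u hu => ⟨1, one_mem _, u, hu.1, by rw [one_mul]⟩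
  have hinj : ∀ w1 ∈ S, ∀ w2 ∈ S, f w1 = f w2 → w1 = w2 := by
    intro w1 h1 w2 h2 e
    refine huniq w1 (hS1 w1 h1) w1 h1 w2 h2 ?_ ?_
    · rw [mul_inv_cancel]
      exact one_mem _
    · have e1 : w1 * w2⁻¹ = (w1 * (E h * f w1)⁻¹) * (w2 * (E h * f w2)⁻¹)⁻¹ := by
        rw [e]
        group
      rw [e1]
      exact mul_mem (hf w1 h1).2 (inv_mem (hf w2 h2).2)
  refine ⟨S.image f, ?_, ?_, ?_⟩
  · intro u hu
    obtain ⟨w, hw, rfl⟩ := Finset.mem_image.1 hu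
    exact (hf w hw).1
  · intro u hu
    obtain ⟨w, ⟨hw, hw1⟩, hw2⟩ := hS2 _ (hint u hu)
    refine ⟨f w, ⟨Finset.mem_image_of_mem f hw, (hfw w hw u hu).2 hw1⟩, ?_⟩
    rintro y ⟨hy, hy'⟩
    obtain ⟨w', hw', rfl⟩ := Finset.mem_image.1 hy
    rw [hw2 w' ⟨hw', (hfw w' hw' u hu).1 hy'⟩]
  · intro x
    rw [Finset.sum_image (fun w1 h1 w2 h2 e => hinj w1 h1 w2 h2 e), ← hS3 x]
    refine Finset.sum_congr rfl fun w hw => ?_
    have e : w * x = (w * (E h * f w)⁻¹) * (E h * f w * x) := by group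
    rw [e, hF _ (hf w hw).2]

end

end Pool.Agent.Lib.L1S
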