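import Pool.Agent.Lib.L1S.D8

/-!
# L1S, QD1: the arithmetic estimates of the minors with several places (for the quasi-split groups)

`K` is the splitting field, `𝔞 = m 𝔫 𝓞_K`, `𝔳 = v 𝓞_K` (`v` a place of the base field), no condition on the ramification.
-/

namespace Pool.Agent.Lib.L1S

open MeasureTheory Matrix NumberField IsDedekindDomain Pool.Agent.Lib.H89N Pool.Agent.Lib.H33W

noncomputable section

set_option linter.unusedSectionVars false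

variable {ι M N : Type} [Fintype ι] [DecidableEq ι] [AddCommGroup M] [Module ℚ M] [AddCommGroup N] [Module ℚ N]
  {P : RootPairing ι ℚ M N} [P.IsCrystallographic] [P.IsReduced] [P.IsIrreducible] [P.IsRootSystem]

variable {b : P.Base} {K : Type} [Field K] [NumberField K]

theorem qd_nw_pow (w : HeightOneSpectrum (𝓞 K)) {𝔳 : Ideal (𝓞 K)} (h : 𝔳 ≠ ⊥) (t : ℕ) : nw w (𝔳 ^ t) = nw w 𝔳 ^ t := nu2_nw_pow w h t

/-- The product formula for `𝔞 ^ k 𝔳 ^ (-s)`. -/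
theorem qd_norm {𝔞 𝔳 : Ideal (𝓞 K)} (h0 : 𝔞 ≠ ⊥) (h1 : 𝔳 ≠ ⊥) (k : ℕ) (s : ℤ) {D : K} (hD : D ≠ 0)
    (h : ∀ w, aw w D ≤ nw w 𝔞 ^ k * nw w 𝔳 ^ (-s)) : (Ideal.absNorm 𝔞 : ℝ) ^ k ≤ mixedEmbedding.norm (mixedEmbedding K D) * (Ideal.absNorm 𝔳 : ℝ) ^ s := by
  rw [d3_prod]
  have hk0 : 𝔞 ^ k ≠ ⊥ := pow_ne_zero k h0
  have hv1 : (0 : ℝ) < (Ideal.absNorm 𝔳 : ℝ) := by
    have := Ideal.absNorm_ne_zero_iff_mem_nonZeroDivisors.2 (mem_nonZeroDivisors_of_ne_zero h1)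
    exact_mod_cast Nat.pos_of_ne_zero this
  rcases le_or_gt 0 s with hs | hs
  · obtain ⟨t, rfl⟩ := Int.eq_ofNat_of_zero_le hs
    have ht0 : 𝔳 ^ t ≠ ⊥ := pow_ne_zero t h1
    have hJ : ((𝔳 ^ t : Ideal (𝓞 K)) : H89S.FI K) ≠ 0 := by
      rw [Ne, FractionalIdeal.coeIdeal_eq_zero]
      exact ht0
    have hA : ((𝔞 ^ k : Ideal (𝓞 K)) : H89S.FI K) ≠ 0 := by
      rw [Ne, FractionalIdeal.coeIdeal_eq_zero]
      exact hk0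
    have hI0 : ((𝔞 ^ k : Ideal (𝓞 K)) : H89S.FI K) / ((𝔳 ^ t : Ideal (𝓞 K)) : H89S.FI K) ≠ 0 := div_ne_zero hA hJ
    have hmem : D ∈ ((𝔞 ^ k : Ideal (𝓞 K)) : H89S.FI K) / ((𝔳 ^ t : Ideal (𝓞 K)) : H89S.FI K) := by
      rw [FractionalIdeal.mem_div_iff_of_ne_zero hJ]
      intro y hy
      obtain ⟨z, hz, rfl⟩ := (FractionalIdeal.mem_coeIdeal _).1 hy
      have hz' : ∀ w, aw w ((z : 𝓞 K) : K) ≤ nw w (𝔳 ^ t) := (nu2_A ht0 _).1 ⟨z, hz, rfl⟩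
      obtain ⟨x, hx, e⟩ := (nu2_A hk0 (D * ((z : 𝓞 K) : K))).2 fun w => by
        rw [map_mul, nu2_nw_pow w h0]
        have hnw := nw_pos w 𝔳
        calc aw w D * aw w ((z : 𝓞 K) : K) ≤ (nw w 𝔞 ^ k * nw w 𝔳 ^ (-(t : ℤ))) * nw w 𝔳 ^ t := by
              refine mul_le_mul (h w) ((hz' w).trans (le_of_eq (nu2_nw_pow w h1 t))) ((aw w).nonneg _) ?_
              exact mul_nonneg (pow_nonneg (nw_pos w 𝔞).le _) (zpow_pos hnw _).le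
          _ = nw w 𝔞 ^ k := by
            rw [mul_assoc, ← zpow_natCast (nw w 𝔳) t, ← zpow_add₀ hnw.ne', neg_add_cancel, zpow_zero, mul_one]
      exact (FractionalIdeal.mem_coeIdeal _).2 ⟨x, hx, e.symm⟩
    have h4 := H89S.n1_nm_le K hI0 hmem hD
    have h5 : H89S.nm (((𝔞 ^ k : Ideal (𝓞 K)) : H89S.FI K) / ((𝔳 ^ t : Ideal (𝓞 K)) : H89S.FI K)) = (Ideal.absNorm 𝔞 : ℝ) ^ k / (Ideal.absNorm 𝔳 : ℝ) ^ t := by
      unfold H89S.nm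
      rw [map_div₀, FractionalIdeal.coeIdeal_absNorm, FractionalIdeal.coeIdeal_absNorm]
      push_cast
      rw [map_pow, map_pow]
      push_cast
      rfl
    rw [h5, div_le_iff₀ (pow_pos hv1 t)] at h4
    rw [zpow_natCast]
    exact h4
  · obtain ⟨t, rfl⟩ : ∃ t : ℕ, s = -(t : ℤ) := ⟨(-s).toNat, by omega⟩
    have ht0 : 𝔳 ^ t ≠ ⊥ := pow_ne_zero t h1
    have hI : 𝔞 ^ k * 𝔳 ^ t ≠ ⊥ := mul_ne_zero hk0 ht0
    have h3 : ∃ z ∈ 𝔞 ^ k * 𝔳 ^ t, D = ((z : 𝓞 K) : K) := by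
      rw [nu2_A hI]
      intro w
      rw [d3_nw_mul w hk0 ht0, nu2_nw_pow w h0, nu2_nw_pow w h1]
      have h4 := h w
      rwa [neg_neg, zpow_natCast] at h4
    obtain ⟨z, hz, hzD⟩ := h3
    have hI0 : ((𝔞 ^ k * 𝔳 ^ t : Ideal (𝓞 K)) : H89S.FI K) ≠ 0 := by
      rw [Ne, FractionalIdeal.coeIdeal_eq_zero]
      exact hI
    have hmem : D ∈ ((𝔞 ^ k * 𝔳 ^ t : Ideal (𝓞 K)) : H89S.FI K) :=
      (FractionalIdeal.mem_coeIdeal _).2 ⟨z, hz, hzD.symm⟩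
    have h4 := H89S.n1_nm_le K hI0 hmem hD
    have h5 : H89S.nm ((𝔞 ^ k * 𝔳 ^ t : Ideal (𝓞 K)) : H89S.FI K) = (Ideal.absNorm 𝔞 : ℝ) ^ k * (Ideal.absNorm 𝔳 : ℝ) ^ t := by
      unfold H89S.nm
      rw [FractionalIdeal.coeIdeal_absNorm]
      simp
    rw [h5] at h4
    rw [_root_.zpow_neg, zpow_natCast, ← div_eq_mul_inv, le_div_iff₀ (pow_pos hv1 t)]
    exact h4

/-- The minor, general form. -/
theorem qd_minor {𝔞 𝔳 : Ideal (𝓞 K)} (h0 : 𝔞 ≠ ⊥) (h1 : 𝔳 ≠ ⊥) (T : ℕ) {γ : Matrix (I b) (I b) K} {i j : b.support} {w : Equiv.Perm ι} (hO : OppW b i j w) (hD : Dm b i w γ ≠ 0)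
    (μ μ' κ κ' : I b → ℤ) (k : ℕ) (s : ℤ) (hk : ∑ β ∈ Phi b i, μ (Sum.inr β) - ∑ β ∈ Phi b i, μ' (Sum.inr (w β)) = k)
    (hs : ∑ β ∈ Phi b i, κ (Sum.inr β) - ∑ β ∈ Phi b i, κ' (Sum.inr (w β)) = s)
    (h : ∀ w', ∀ r c : I b, ht b r < ht b c → aw w' (γ r c) ^ T ≤ nw w' 𝔞 ^ (μ c - μ' r) * nw w' 𝔳 ^ (κ' r - κ c)) :
    (Ideal.absNorm 𝔞 : ℝ) ^ k ≤ mixedEmbedding.norm (mixedEmbedding K (Dm b i w γ)) ^ T * (Ideal.absNorm 𝔳 : ℝ) ^ s := by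
  have hlow : ∀ β β' : Phi b i, ht b (Sum.inr (w β.1)) < ht b (Sum.inr β'.1) := by
    intro β β'
    have h3 := d3_neg ((hO β.1).1 β.2)
    have h4 := d3_pos β'.2
    exact h3.trans h4
  have key : ∀ w', aw w' (Dm b i w γ ^ T) ≤ nw w' 𝔞 ^ k * nw w' 𝔳 ^ (-s) := by
    intro w'
    have hq := nw_pos w' 𝔞
    have hp := nw_pos w' 𝔳
    have h6 := d5_det (aw w') (aw_nonarch w') T (Matrix.of fun β β' : Phi b i => γ (Sum.inr (w β.1)) (Sum.inr β'.1))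
      (fun β => nw w' 𝔞 ^ (-μ' (Sum.inr (w β.1))) * nw w' 𝔳 ^ (κ' (Sum.inr (w β.1)))) (fun β' => nw w' 𝔞 ^ (μ (Sum.inr β'.1)) * nw w' 𝔳 ^ (-κ (Sum.inr β'.1)))
      (fun β β' => by
        refine (h w' _ _ (hlow β β')).trans (le_of_eq ?_)
        rw [sub_eq_add_neg, sub_eq_add_neg, zpow_add₀ hq.ne', zpow_add₀ hp.ne']
        ring)
    rw [Finset.prod_mul_distrib, Finset.prod_mul_distrib, d3_prod_zpow _ _ hq.ne', d3_prod_zpow _ _ hq.ne', d3_prod_zpow _ _ hp.ne', d3_prod_zpow _ _ hp.ne'] at h6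
    rw [map_pow]
    refine h6.trans (le_of_eq ?_)
    have e1 : ∑ β : Phi b i, -μ' (Sum.inr (w β.1)) = -∑ β ∈ Phi b i, μ' (Sum.inr (w β)) := by
      rw [Finset.sum_neg_distrib, Finset.sum_coe_sort (Phi b i) fun β => μ' (Sum.inr (w β))]
    have e2 : ∑ β : Phi b i, κ' (Sum.inr (w β.1)) = ∑ β ∈ Phi b i, κ' (Sum.inr (w β)) := Finset.sum_coe_sort (Phi b i) fun β => κ' (Sum.inr (w β))
    have e3 : ∑ β : Phi b i, μ (Sum.inr β.1) = ∑ β ∈ Phi b i, μ (Sum.inr β) := Finset.sum_coe_sort (Phi b i) fun β => μ (Sum.inr β)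
    have e4 : ∑ β : Phi b i, -κ (Sum.inr β.1) = -∑ β ∈ Phi b i, κ (Sum.inr β) := by
      rw [Finset.sum_neg_distrib, Finset.sum_coe_sort (Phi b i) fun β => κ (Sum.inr β)]
    rw [e1, e2, e3, e4]
    have e5 : nw w' 𝔞 ^ k = nw w' 𝔞 ^ (-∑ β ∈ Phi b i, μ' (Sum.inr (w β))) * nw w' 𝔞 ^ (∑ β ∈ Phi b i, μ (Sum.inr β)) := by
      rw [← zpow_add₀ hq.ne', ← zpow_natCast, ← hk]
      congr 1
      ring
    have e6 : nw w' 𝔳 ^ (-s) = nw w' 𝔳 ^ (∑ β ∈ Phi b i, κ' (Sum.inr (w β))) * nw w' 𝔳 ^ (-∑ β ∈ Phi b i, κ (Sum.inr β)) := by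
      rw [← zpow_add₀ hp.ne', ← hs]
      congr 1
      ring
    rw [e5, e6]
    ring
  have h3 := qd_norm h0 h1 k s (pow_ne_zero T hD) key
  rwa [map_pow, map_pow] at h3

/-- The local hypotheses over the splitting field on `γ = h'⁻¹ γ_0 h`. -/
structure Qloc (b : P.Base) {K : Type} [Field K] [NumberField K] (𝔞 𝔳 : Ideal (𝓞 K)) (e : ℕ) (c c' : b.support → ℤ) (π : K) (γ : GK b K) : Prop where
  /-- `𝔞` and `𝔳` are coprime. -/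
  cop : ∀ w : HeightOneSpectrum (𝓞 K), 𝔳 ≤ w.asIdeal → ¬𝔞 ≤ w.asIdeal
  /-- `γ ≡ 1` modulo `𝔞` away from `𝔳`. -/
  aw1 : ∀ w : HeightOneSpectrum (𝓞 K), ¬𝔳 ≤ w.asIdeal → ∀ i j, aw w ((γ.1.1 - 1) i j) ≤ nw w 𝔞 ∧ aw w ((γ⁻¹.1.1 - 1) i j) ≤ nw w 𝔞
  /-- `π` generates `𝔳` locally. -/
  pi : ∀ w : HeightOneSpectrum (𝓞 K), 𝔳 ≤ w.asIdeal → aw w π = nw w 𝔳
  /-- `γ = λ'(π) g λ(π)⁻¹` at the places of `𝔳`, `g` of level `e`. -/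
  at' : ∀ w : HeightOneSpectrum (𝓞 K), 𝔳 ≤ w.asIdeal → ∃ g : GK b K, (∀ i j, (aw w (g.1.1 i j) ≤ 1 ∧ (ht b i < ht b j → aw w (g.1.1 i j) ≤ nw w 𝔳 ^ e)) ∧
    (aw w (g⁻¹.1.1 i j) ≤ 1 ∧ (ht b i < ht b j → aw w (g⁻¹.1.1 i j) ≤ nw w 𝔳 ^ e))) ∧ ∀ i j, γ.1.1 i j = π ^ pr b c' i * g.1.1 i j * π ^ (-pr b c j)

/-- Helper: the local estimate with the exponent `a` at the place `w`. -/
theorem qd_loc {w : HeightOneSpectrum (𝓞 K)} {e : ℕ} {g : GK b K}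
    (h : ∀ i j, (aw w (g.1.1 i j) ≤ 1 ∧ (ht b i < ht b j → aw w (g.1.1 i j) ≤ (Ideal.absNorm w.asIdeal : ℝ) ^ (-(e : ℤ)))) ∧
      (aw w (g⁻¹.1.1 i j) ≤ 1 ∧ (ht b i < ht b j → aw w (g⁻¹.1.1 i j) ≤ (Ideal.absNorm w.asIdeal : ℝ) ^ (-(e : ℤ)))))
    (l : b.support) (T : ℕ) (hT : ∀ a, mc b l a ≤ T) (i j : I b) : aw w (g.1.1 i j) ^ T ≤ (Ideal.absNorm w.asIdeal : ℝ) ^ (-((e : ℤ) * (mc b l j - mc b l i))) := by
  have h1 : ∀ x : K, aw w x ≤ 1 → w.valuation K x ≤ 1 := by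
    intro x hx
    rw [← WithZero.exp_zero]
    refine d6_exp_le ?_
    rwa [zpow_zero]
  refine d6_pow_le (iw_loc' (fun i j => ⟨h1 _ (h i j).1.1, fun hij => d6_exp_le ((h i j).1.2 hij)⟩) (fun i j => ⟨h1 _ (h i j).2.1, fun hij => d6_exp_le ((h i j).2.2 hij)⟩) l (mc b l) (d5_mc b l) T hT i j)

end

end Pool.Agent.Lib.L1S
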