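import Pool.Agent.Lib.L1S.QD1

/-!
# L1S, QD2: the minors are zero over the splitting field (for the quasi-split groups)
-/

namespace Pool.Agent.Lib.L1S

open MeasureTheory Matrix NumberField IsDedekindDomain Pool.Agent.Lib.H89N Pool.Agent.Lib.H33W

noncomputable section

set_option linter.unusedSectionVars false

variable {ι M N : Type} [Fintype ι] [DecidableEq ι] [AddCommGroup M] [Module ℚ M] [AddCommGroup N] [Module ℚ N]
  {P : RootPairing ι ℚ M N} [P.IsCrystallographic] [P.IsReduced] [P.IsIrreducible] [P.IsRootSystem]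

/-- The size condition for real numbers `q`, `n` and the exponent `e` of the level. -/
def Szr (b : P.Base) (q n : ℝ) (e : ℕ) (c c' : b.support → ℤ) : Prop :=
  ∀ i j, Opp b i j →
    q ^ (Sl b i c + Sl b j c') ≤ (n * q ^ e) ^ (Phi b i).card * n ^ (SH b i + SH b j) ∨
    ∃ (l : b.support) (T : ℕ), (∀ β, mc b l (Sum.inr β) ≤ T) ∧
      q ^ (T * (Sl b i c + Sl b j c')) ≤ (n * q ^ e) ^ (SM b i l + SM b j l) * n ^ (T * (SH b i + SH b j))

theorem szr_iff (b : P.Base) {K : Type} [Field K] [NumberField K] (𝔫 : Ideal (𝓞 K)) (v : HeightOneSpectrum (𝓞 K)) (r s : ℕ) (c c' : b.support → ℤ) :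
    Sz2 b 𝔫 v r s c c' ↔ Szr b (Ideal.absNorm v.asIdeal) (Ideal.absNorm 𝔫) (r + s) c c' := Iff.rfl

/-- The size condition for the powers. -/
theorem szr_pow {b : P.Base} {q n : ℝ} (hq : 0 < q) {e : ℕ} {c c' : b.support → ℤ} (h : Szr b q n e c c') (g : ℕ) : Szr b (q ^ g) (n ^ g) e c c' := by
  intro i j hO
  have e0 : n ^ g * (q ^ g) ^ e = (n * q ^ e) ^ g := by
    rw [mul_pow, ← pow_mul, ← pow_mul, mul_comm g e]
  have e1 : ∀ (x : ℝ) (m : ℤ), (x ^ g) ^ m = (x ^ m) ^ g := by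
    intro x m
    rw [← zpow_natCast, ← zpow_natCast, ← _root_.zpow_mul, ← _root_.zpow_mul, mul_comm]
  rcases h i j hO with h1 | ⟨l, T, hT, h1⟩
  · left
    rw [e0, e1, e1, ← pow_mul, mul_comm g (Phi b i).card, pow_mul, ← mul_pow]
    exact pow_le_pow_left₀ (zpow_pos hq _).le h1 g
  · right
    refine ⟨l, T, hT, ?_⟩
    rw [e0, e1, e1, e1, ← mul_pow]
    exact pow_le_pow_left₀ (zpow_pos hq _).le h1 g

variable {b : P.Base} {K : Type} [Field K] [NumberField K]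

theorem qd_nw_one (w : HeightOneSpectrum (𝓞 K)) {𝔞 : Ideal (𝓞 K)} (h0 : 𝔞 ≠ ⊥) (h : ¬𝔞 ≤ w.asIdeal) : nw w 𝔞 = 1 := nu2_nw_one w h0 h

/-- The two estimates of the minors. -/
theorem qd_ab {𝔞 𝔳 : Ideal (𝓞 K)} (h0 : 𝔞 ≠ ⊥) (h1 : 𝔳 ≠ ⊥) {e : ℕ} {c c' : b.support → ℤ} {π : K} {γ : GK b K} (hq : Qloc b 𝔞 𝔳 e c c' π γ)
    {i j : b.support} {w : Equiv.Perm ι} (hO : OppW b i j w) (hD : Dm b i w γ.1.1 ≠ 0) :
    (Ideal.absNorm 𝔞 : ℝ) ^ (Phi b i).card ≤ mixedEmbedding.norm (mixedEmbedding K (Dm b i w γ.1.1)) * (Ideal.absNorm 𝔳 : ℝ) ^ (Sl b i c + Sl b j c' - (e : ℤ) * (Phi b i).card) ∧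
      ∀ (l : b.support) (T : ℕ), (∀ β, mc b l (Sum.inr β) ≤ T) →
        (Ideal.absNorm 𝔞 : ℝ) ^ (SM b i l + SM b j l).toNat ≤ mixedEmbedding.norm (mixedEmbedding K (Dm b i w γ.1.1)) ^ T *
          (Ideal.absNorm 𝔳 : ℝ) ^ (T * (Sl b i c + Sl b j c') - (e : ℤ) * (SM b i l + SM b j l)) := by
  have hne : ∀ (X : Matrix (I b) (I b) K) (r c : I b), ht b r < ht b c → X r c = (X - 1) r c := by
    intro X r c h
    rw [Matrix.sub_apply, Matrix.one_apply_ne, sub_zero]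
    rintro rfl
    exact lt_irrefl _ h
  have hint : ∀ (w : HeightOneSpectrum (𝓞 K)) (X : Matrix (I b) (I b) K), (∀ i j, aw w ((X - 1) i j) ≤ nw w 𝔞) → ∀ i j, aw w (X i j) ≤ 1 := by
    intro w X hX i j
    have e : X i j = (X - 1) i j + (1 : Matrix (I b) (I b) K) i j := by simp
    rw [e]
    refine (aw_nonarch w _ _).trans (max_le ((hX i j).trans (nw_le_one w 𝔞)) ?_)
    by_cases h : i = j
    · subst h
      rw [Matrix.one_apply_eq, map_one]
    · rw [Matrix.one_apply_ne h, map_zero]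
      exact zero_le_one
  have hSi : ∑ β ∈ Phi b i, pr b c (Sum.inr β) = Sl b i c := rfl
  have hSj : ∑ β ∈ Phi b i, pr b c' (Sum.inr (w β)) = -Sl b j c' := d3_sum hO c'
  refine ⟨?_, fun l T hT => ?_⟩
  · have h2 := qd_minor h0 h1 1 hO hD (fun _ => 1) (fun _ => 0) (fun k => pr b c k - (e : ℤ)) (fun k => pr b c' k) (Phi b i).card
      (Sl b i c + Sl b j c' - (e : ℤ) * (Phi b i).card) (by simp) (by
        rw [hSj, Finset.sum_sub_distrib, hSi, Finset.sum_const, nsmul_eq_mul]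
        ring) (fun w' k k' hk => by
        rw [pow_one, sub_zero, zpow_one]
        have hp := nw_pos w' 𝔳
        by_cases hw : 𝔳 ≤ w'.asIdeal
        · obtain ⟨g, hg, hgγ⟩ := hq.at' w' hw
          rw [qd_nw_one w' h0 (hq.cop w' hw), one_mul, hgγ, map_mul, map_mul, map_zpow₀, map_zpow₀, hq.pi w' hw]
          calc nw w' 𝔳 ^ pr b c' k * aw w' (g.1.1 k k') * nw w' 𝔳 ^ (-pr b c k') ≤ nw w' 𝔳 ^ pr b c' k * nw w' 𝔳 ^ e * nw w' 𝔳 ^ (-pr b c k') :=
              mul_le_mul_of_nonneg_right (mul_le_mul_of_nonneg_left ((hg k k').1.2 hk) (zpow_pos hp _).le) (zpow_pos hp _).le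
            _ = _ := by
              rw [← zpow_natCast, ← zpow_add₀ hp.ne', ← zpow_add₀ hp.ne']
              congr 1
              ring
        · rw [qd_nw_one w' h1 hw, _root_.one_zpow, mul_one, hne γ.1.1 k k' hk]
          exact (hq.aw1 w' hw k k').1)
    rwa [pow_one] at h2
  · have hT' : ∀ a, mc b l a ≤ T := by
      intro a
      rcases a with k | β
      · exact Int.natCast_nonneg T
      · exact hT β
    have hP : 0 ≤ SM b i l + SM b j l := add_nonneg (d7_SM_nonneg i l) (d7_SM_nonneg j l)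
    refine qd_minor h0 h1 T hO hD (mc b l) (mc b l) (fun k => T * pr b c k - (e : ℤ) * mc b l k) (fun k => T * pr b c' k - (e : ℤ) * mc b l k) _ _ ?_ ?_ ?_
    · rw [d7_sum_mc hO, sub_neg_eq_add, Int.toNat_of_nonneg hP]
      rfl
    · rw [Finset.sum_sub_distrib, Finset.sum_sub_distrib, ← Finset.mul_sum, ← Finset.mul_sum, ← Finset.mul_sum, ← Finset.mul_sum, hSj, hSi, d7_sum_mc hO]
      have e : ∑ β ∈ Phi b i, mc b l (Sum.inr β) = SM b i l := rfl
      rw [e]
      ring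
    · intro w' k k' hk
      have hp := nw_pos w' 𝔳
      have hqp := nu2_pos w'
      by_cases hw : 𝔳 ≤ w'.asIdeal
      · obtain ⟨g, hg, hgγ⟩ := hq.at' w' hw
        set a := (Associates.mk w'.asIdeal).count (Associates.mk 𝔳).factors with haa
        have enw : nw w' 𝔳 = (Ideal.absNorm w'.asIdeal : ℝ) ^ (-(a : ℤ)) := rfl
        have enwe : nw w' 𝔳 ^ e = (Ideal.absNorm w'.asIdeal : ℝ) ^ (-((a * e : ℕ) : ℤ)) := by
          rw [enw, ← zpow_natCast, ← _root_.zpow_mul]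
          congr 1
          push_cast
          ring
        have h3 := qd_loc (w := w') (e := a * e) (fun i j => by
          have := hg i j
          rwa [enwe] at this) l T hT' k k'
        have h4 : aw w' (g.1.1 k k') ^ T ≤ nw w' 𝔳 ^ ((e : ℤ) * (mc b l k' - mc b l k)) := by
          refine h3.trans (le_of_eq ?_)
          rw [enw, ← _root_.zpow_mul]
          congr 1
          push_cast
          ring
        rw [qd_nw_one w' h0 (hq.cop w' hw), _root_.one_zpow, one_mul, hgγ, map_mul, map_mul, map_zpow₀, map_zpow₀, hq.pi w' hw, mul_pow, mul_pow, ← zpow_natCast,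
          ← zpow_natCast (nw w' 𝔳 ^ (-pr b c k')), ← _root_.zpow_mul, ← _root_.zpow_mul]
        calc nw w' 𝔳 ^ (pr b c' k * T) * aw w' (g.1.1 k k') ^ T * nw w' 𝔳 ^ (-pr b c k' * T)
            ≤ nw w' 𝔳 ^ (pr b c' k * T) * nw w' 𝔳 ^ ((e : ℤ) * (mc b l k' - mc b l k)) * nw w' 𝔳 ^ (-pr b c k' * T) :=
              mul_le_mul_of_nonneg_right (mul_le_mul_of_nonneg_left h4 (zpow_pos hp _).le) (zpow_pos hp _).le
          _ = _ := by
            rw [← zpow_add₀ hp.ne', ← zpow_add₀ hp.ne']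
            congr 1
            ring
      · rw [qd_nw_one w' h1 hw, _root_.one_zpow, mul_one]
        set a := (Associates.mk w'.asIdeal).count (Associates.mk 𝔞).factors with haa
        have enw : nw w' 𝔞 = (Ideal.absNorm w'.asIdeal : ℝ) ^ (-(a : ℤ)) := rfl
        have h2 := hq.aw1 w' hw
        have h3 := qd_loc (w := w') (e := a) (fun i j => ⟨⟨hint w' _ (fun i j => (h2 i j).1) i j, fun hij => by
            rw [hne γ.1.1 i j hij, ← enw]
            exact (h2 i j).1⟩, ⟨hint w' _ (fun i j => (h2 i j).2) i j, fun hij => by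
            rw [hne γ⁻¹.1.1 i j hij, ← enw]
            exact (h2 i j).2⟩⟩) l T hT' k k'
        refine h3.trans (le_of_eq ?_)
        rw [enw, ← _root_.zpow_mul]
        congr 1
        ring

/-- **The minors are zero**, over the splitting field. -/
theorem dm_zero3 (b : P.Base) (K : Type) [Field K] [NumberField K] {Ω : Set (GL (I b) (EE K))} (hΩ : IsCompact Ω) : ∃ m₀ : ℕ, ∀ m : ℕ, m₀ ≤ m → ∀ 𝔫 𝔳 : Ideal (𝓞 K), 𝔫 ≠ ⊥ → 𝔳 ≠ ⊥ →
    ∀ (e : ℕ) (c c' : b.support → ℤ) (π : K), Szr b (Ideal.absNorm 𝔳) (Ideal.absNorm 𝔫) e c c' →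
    ∀ A : M →ₗ[ℚ] ℝ, (∀ i : b.support, Real.log (Ideal.absNorm 𝔫) ≤ Module.finrank ℚ K * A (P.root i)) →
    ∀ γ : GK b K, Qloc b (Ideal.span {(m : 𝓞 K)} * 𝔫) 𝔳 e c c' π γ → Mv b Ω A (emb b K γ) →
    ∀ (i j : b.support) (w : Equiv.Perm ι), w ∈ Subgroup.closure (Set.range P.reflectionPerm) → OppW b i j w → Dm b i w γ.1.1 = 0 := by
  obtain ⟨C0, hC0, hC⟩ := dm_arch b K (fun u hu => uni_UR b hu) Ω hΩ
  set C : ℝ := max C0 1 with hCdef
  have hC1 : 1 ≤ C := le_max_right _ _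
  refine ⟨⌈C ^ (mB b + 1)⌉₊ + 1, fun m hm 𝔫 𝔳 h𝔫 h𝔳 e c c' π hS A hA γ hγ hM i j w hw hO => ?_⟩
  by_contra hD
  set q : ℝ := (Ideal.absNorm 𝔳 : ℝ) with hq
  set n : ℝ := (Ideal.absNorm 𝔫 : ℝ) with hn
  set d : ℝ := (Module.finrank ℚ K : ℝ) with hd
  have hN1 : ∀ J : Ideal (𝓞 K), J ≠ ⊥ → (1 : ℝ) ≤ (Ideal.absNorm J : ℝ) := by
    intro J hJ
    have := Ideal.absNorm_ne_zero_iff_mem_nonZeroDivisors.2 (mem_nonZeroDivisors_of_ne_zero hJ)
    exact_mod_cast Nat.pos_of_ne_zero this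
  have hq1 : 1 ≤ q := hN1 𝔳 h𝔳
  have hq0 : 0 < q := zero_lt_one.trans_le hq1
  have hn1 : 1 ≤ n := hN1 𝔫 h𝔫
  have hn0 : 0 < n := zero_lt_one.trans_le hn1
  have hm1' : 1 ≤ m := (Nat.le_add_left 1 _).trans hm
  have hm1 : (1 : ℝ) ≤ m := by exact_mod_cast hm1'
  have hmC : C ^ (mB b + 1) < m := by
    have h14 : C ^ (mB b + 1) ≤ ⌈C ^ (mB b + 1)⌉₊ := Nat.le_ceil _
    have h15 : ((⌈C ^ (mB b + 1)⌉₊ + 1 : ℕ) : ℝ) ≤ m := by exact_mod_cast hm
    push_cast at h15
    linarith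
  have h0 : Ideal.span {(m : 𝓞 K)} * 𝔫 ≠ ⊥ := by
    refine mul_ne_zero ?_ h𝔫
    rw [Ne, Ideal.zero_eq_bot, Ideal.span_singleton_eq_bot]
    have : m ≠ 0 := by omega
    exact_mod_cast this
  obtain ⟨h1, h2⟩ := qd_ab h0 h𝔳 hγ hO hD
  have h4 := hC A γ hM i j w hO
  have h6 := d4_AA A hA i
  have h7 := d4_AA A hA j
  have hnorm : (Ideal.absNorm (Ideal.span {(m : 𝓞 K)} * 𝔫) : ℝ) = (m : ℝ) ^ Module.finrank ℤ (𝓞 K) * n := by
    rw [map_mul, Ideal.absNorm_span_natCast, hn]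
    push_cast
    rfl
  rw [hnorm] at h1
  have hf1 : 1 ≤ Module.finrank ℤ (𝓞 K) := Module.finrank_pos
  have hE : Real.exp (-(d * (AA b A i + AA b A j))) ≤ n ^ (-(SH b i + SH b j)) := by
    have h8 : Real.exp (-(d * (AA b A i + AA b A j))) ≤ Real.exp (-(Real.log n * (HH b i + HH b j))) := by
      refine Real.exp_le_exp.2 ?_
      have h9 : Real.log n * (HH b i + HH b j) ≤ d * (AA b A i + AA b A j) := by
        rw [mul_add, mul_add]
        exact add_le_add h6 h7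
      linarith
    refine h8.trans (le_of_eq ?_)
    have e1 : SH b i = HH b i := rfl
    have e2 : SH b j = HH b j := rfl
    rw [e1, e2, ← Real.rpow_intCast, Real.rpow_def_of_pos hn0]
    congr 1
    push_cast
    ring
  have hDC : mixedEmbedding.norm (mixedEmbedding K (Dm b i w γ.1.1)) ≤ C * n ^ (-(SH b i + SH b j)) := by
    refine h4.trans ?_
    exact mul_le_mul (le_max_left _ _) hE (Real.exp_pos _).le (zero_le_one.trans hC1)
  have hD0 : 0 ≤ mixedEmbedding.norm (mixedEmbedding K (Dm b i w γ.1.1)) := mixedEmbedding.norm_nonneg _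
  have hCn : ∀ T ≤ mB b + 1, C ^ T ≤ C ^ (mB b + 1) := fun T hT => pow_le_pow_right₀ hC1 hT
  rcases hS i j ⟨w, hw, hO⟩ with h5 | ⟨l, T, hT, h5⟩
  · have h8 := d8_real (T := 1) (e := e) (S := Sl b i c + Sl b j c') (H := SH b i + SH b j) hm1 hn0 hq0 (zero_le_one.trans hC1) hD0 hf1 (d4_card i) (by
      rw [pow_one]
      exact h1) hDC (by
      rw [Nat.cast_one, one_mul, one_mul]
      exact h5) (by
      push_cast
      ring)
    exact absurd (h8.trans (hCn 1 (by omega))) (not_le.2 hmC)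
  · set T' := min T (mB b) with hT'
    have hTc : ∀ β, mc b l (Sum.inr β) ≤ T' := by
      intro β
      rw [hT']
      push_cast
      exact le_min (hT β) (d8_mB b l β)
    have hP1 : 1 ≤ SM b i l + SM b j l := by
      have := d7_SM_pos i l
      have := d7_SM_nonneg j l
      omega
    have hP2 : SM b i l + SM b j l = ((SM b i l + SM b j l).toNat : ℤ) := (Int.toNat_of_nonneg (by omega)).symm
    have hk1 : 1 ≤ (SM b i l + SM b j l).toNat := by omega
    have h9 := h2 l T' hTc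
    rw [hnorm] at h9
    have hX : 0 < q ^ (Sl b i c + Sl b j c') * n ^ (-(SH b i + SH b j)) := mul_pos (zpow_pos hq0 _) (zpow_pos hn0 _)
    have hY : 1 ≤ (n * q ^ e) ^ (SM b i l + SM b j l).toNat := one_le_pow₀ (one_le_mul_of_one_le_of_one_le hn1 (one_le_pow₀ hq1))
    have hXT : ∀ T : ℕ, q ^ (T * (Sl b i c + Sl b j c')) = (q ^ (Sl b i c + Sl b j c') * n ^ (-(SH b i + SH b j))) ^ T * n ^ (T * (SH b i + SH b j)) := by
      intro T
      rw [mul_pow, ← zpow_natCast (q ^ _), ← zpow_natCast (n ^ _), ← _root_.zpow_mul, ← _root_.zpow_mul, mul_assoc, ← zpow_add₀ hn0.ne']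
      have e1 : -(SH b i + SH b j) * (T : ℤ) + T * (SH b i + SH b j) = 0 := by ring
      rw [e1, zpow_zero, mul_one]
      congr 1
      ring
    have h10 : (q ^ (Sl b i c + Sl b j c') * n ^ (-(SH b i + SH b j))) ^ T' ≤ (n * q ^ e) ^ (SM b i l + SM b j l).toNat := by
      refine d8_pow hX hY (min_le_left T (mB b)) ?_
      rw [hXT T, hP2, zpow_natCast] at h5
      exact le_of_mul_le_mul_right h5 (zpow_pos hn0 _)
    have h11 := d8_real (T := T') (e := e) (k := (SM b i l + SM b j l).toNat) (S := Sl b i c + Sl b j c') (H := SH b i + SH b j) hm1 hn0 hq0 (zero_le_one.trans hC1) hD0 hf1 hk1 h9 hDC (by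
      rw [hXT T']
      exact mul_le_mul_of_nonneg_right h10 (zpow_pos hn0 _).le) (by
      rw [← hP2])
    exact absurd (h11.trans (hCn T' ((min_le_right T (mB b)).trans (Nat.le_succ _)))) (not_le.2 hmC)

end

end Pool.Agent.Lib.L1S
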