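import Pool.Agent.Lib.L1S.DC4

/-!
# L1S, QP1: the powers `u ^ c`, `c ∈ K`, of the unitriangular elements of `G(K)`

`u ^ c = ∑ binom(c, k) (u - 1) ^ k` is unitriangular and normalises the Lie algebra, hence lies in `G(K)`.
-/

namespace Pool.Agent.Lib.L1S

open MeasureTheory Matrix NumberField IsDedekindDomain Pool.Agent.Lib.H89N Pool.Agent.Lib.H33W Polynomial

noncomputable section

set_option linter.unusedSectionVars false

/-! ## Polynomial functions -/

section Pol

variable {K : Type} [Field K] [CharZero K]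

/-- Polynomial functions. -/
def IsPl (F : K → K) : Prop := ∃ f : K[X], ∀ c, F c = f.eval c

theorem IsPl.const (a : K) : IsPl fun _ : K => a := ⟨C a, fun c => by simp⟩

theorem IsPl.add {F G : K → K} (hF : IsPl F) (hG : IsPl G) : IsPl fun c => F c + G c := by
  obtain ⟨f, hf⟩ := hF
  obtain ⟨g, hg⟩ := hG
  exact ⟨f + g, fun c => by show F c + G c = _; rw [hf, hg, eval_add]⟩

theorem IsPl.mul {F G : K → K} (hF : IsPl F) (hG : IsPl G) : IsPl fun c => F c * G c := by
  obtain ⟨f, hf⟩ := hF
  obtain ⟨g, hg⟩ := hG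
  exact ⟨f * g, fun c => by show F c * G c = _; rw [hf, hg, eval_mul]⟩

theorem IsPl.sum {α : Type} (s : Finset α) (F : α → K → K) (h : ∀ a ∈ s, IsPl (F a)) : IsPl fun c => ∑ a ∈ s, F a c := by
  classical
  induction s using Finset.induction_on with
  | empty => simpa using IsPl.const (0 : K)
  | insert a s ha ih =>
    have h1 := (h a (Finset.mem_insert_self _ _)).add (ih fun k hk => h k (Finset.mem_insert_of_mem hk))
    simpa [Finset.sum_insert ha] using h1

/-- Composition with `c ↦ a c + d`. -/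
theorem IsPl.comp {F : K → K} (hF : IsPl F) (a d : K) : IsPl fun c => F (a * c + d) := by
  obtain ⟨f, hf⟩ := hF
  exact ⟨f.comp (C a * X + C d), fun c => by show F (a * c + d) = _; rw [hf, eval_comp]; simp⟩

theorem IsPl.zero {F : K → K} (hF : IsPl F) (h : ∀ n : ℕ, F n = 0) (c : K) : F c = 0 := by
  obtain ⟨f, hf⟩ := hF
  have h1 : f = 0 := by
    refine Polynomial.eq_zero_of_infinite_isRoot f ?_
    refine Set.Infinite.mono (s := Set.range fun n : ℕ => (n : K)) ?_ (Set.infinite_range_of_injective Nat.cast_injective)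
    rintro _ ⟨n, rfl⟩
    show f.eval _ = 0
    rw [← hf, h]
  rw [hf, h1, eval_zero]

theorem IsPl.eq {F G : K → K} (hF : IsPl F) (hG : IsPl G) (h : ∀ n : ℕ, F n = G n) (c : K) : F c = G c := by
  have h1 := (hF.add ((IsPl.const (-1)).mul hG)).zero (fun n => by
    show F n + -1 * G n = 0
    rw [h n]
    ring) c
  have h2 : F c + -1 * G c = 0 := h1
  linear_combination h2

variable {n : Type} [Fintype n]

/-- Matrix-valued polynomial functions. -/
def IsPM (F : K → Matrix n n K) : Prop := ∀ i j, IsPl fun c => F c i j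

theorem IsPM.const (X : Matrix n n K) : IsPM fun _ : K => X := fun _ _ => IsPl.const _

theorem IsPM.mul {F G : K → Matrix n n K} (hF : IsPM F) (hG : IsPM G) : IsPM fun c => F c * G c := by
  intro i j
  have h := IsPl.sum Finset.univ (fun k c => F c i k * G c k j) fun k _ => (hF i k).mul (hG k j)
  simpa only [Matrix.mul_apply] using h

theorem IsPM.comp {F : K → Matrix n n K} (hF : IsPM F) (a d : K) : IsPM fun c => F (a * c + d) := fun i j => (hF i j).comp a d

theorem IsPM.eq {F G : K → Matrix n n K} (hF : IsPM F) (hG : IsPM G) (h : ∀ m : ℕ, F m = G m) (c : K) : F c = G c := by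
  ext i j
  exact (hF i j).eq (hG i j) (fun m => by rw [h m]) c

theorem IsPM.lin [DecidableEq n] {F : K → Matrix n n K} (hF : IsPM F) (φ : Matrix n n K →ₗ[K] K) : IsPl fun c => φ (F c) := by
  have e : ∀ X : Matrix n n K, φ X = ∑ i, ∑ j, X i j * φ (Matrix.single i j 1) := by
    intro X
    conv_lhs => rw [Matrix.matrix_eq_sum_single X]
    rw [map_sum]
    refine Finset.sum_congr rfl fun i _ => ?_
    rw [map_sum]
    refine Finset.sum_congr rfl fun j _ => ?_
    have h : Matrix.single i j (X i j) = X i j • (Matrix.single i j 1 : Matrix n n K) := by rw [Matrix.smul_single, smul_eq_mul, mul_one]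
    rw [h, map_smul, smul_eq_mul]
  have h := IsPl.sum Finset.univ (fun i c => ∑ j, F c i j * φ (Matrix.single i j 1)) fun i _ => IsPl.sum Finset.univ _ fun j _ => (hF i j).mul (IsPl.const _)
  have e2 : (fun c => φ (F c)) = fun c => ∑ i, ∑ j, F c i j * φ (Matrix.single i j 1) := by
    funext c
    exact e (F c)
  rw [e2]
  exact h

/-- The binomial coefficients. -/
def bz (c : K) (k : ℕ) : K := (k.factorial : K)⁻¹ * (descPochhammer K k).eval c

theorem bz_pl (k : ℕ) : IsPl fun c : K => bz c k := ⟨C ((k.factorial : K)⁻¹) * descPochhammer K k, fun c => by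
  show bz c k = _
  unfold bz
  rw [eval_mul, eval_C]⟩

theorem bz_nat (m k : ℕ) : bz (m : K) k = (m.choose k : K) := by
  have h0 : (k.factorial : K) ≠ 0 := by exact_mod_cast k.factorial_ne_zero
  rw [bz, descPochhammer_eval_eq_descFactorial, Nat.descFactorial_eq_factorial_mul_choose]
  push_cast
  rw [inv_mul_cancel_left₀ h0]

theorem bz_zero (c : K) : bz c 0 = 1 := by
  simp [bz]

theorem bz_prod (c : K) (k : ℕ) : bz c k = (k.factorial : K)⁻¹ * ∏ j ∈ Finset.range k, (c - (j : ℕ)) := by
  have key : ∀ m : ℕ, (descPochhammer K m).eval c = ∏ j ∈ Finset.range m, (c - (j : ℕ)) := by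
    intro m
    induction m with
    | zero => simp
    | succ m ih => rw [Finset.prod_range_succ, ← ih, descPochhammer_succ_right, eval_mul, eval_sub, eval_X, eval_natCast]
  rw [bz, key]

/-- `binom(c, k + 1) = c (c - 1) ⋯ (c - k) / (k + 1)!`. -/
theorem bz_succ (c : K) (k : ℕ) : bz c (k + 1) = c * (((k + 1).factorial : K)⁻¹ * ∏ j ∈ Finset.range k, (c - (j + 1 : ℕ))) := by
  rw [bz_prod, Finset.prod_range_succ', Nat.cast_zero, sub_zero]
  ring

end Pol

variable {ι M N : Type} [Fintype ι] [DecidableEq ι] [AddCommGroup M] [Module ℚ M] [AddCommGroup N] [Module ℚ N]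
  {P : RootPairing ι ℚ M N} [P.IsCrystallographic] [P.IsReduced] [P.IsIrreducible] [P.IsRootSystem]

/-- A bound of the nilpotency of the strictly upper triangular matrices. -/
def NB (b : P.Base) : ℕ := (UTk_top b).choose.toNat

section Mat

variable {b : P.Base} {A : Type} [CommRing A]

theorem qp_pow {u : Matrix (I b) (I b) A} (hu : UTk b 1 u) (k : ℕ) (r c : I b) (h : ((u - 1) ^ k) r c ≠ 0) : ht b c + k ≤ ht b r := by
  induction k generalizing r with
  | zero =>
    rw [pow_zero] at h
    have h1 : r = c := by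
      by_contra hne
      exact h (Matrix.one_apply_ne hne)
    rw [h1]
    simp
  | succ k ih =>
    rw [pow_succ', Matrix.mul_apply] at h
    obtain ⟨l, -, hl⟩ := Finset.exists_ne_zero_of_sum_ne_zero h
    have h1 := left_ne_zero_of_mul hl
    have h2 := ih l (right_ne_zero_of_mul hl)
    have h3 : ht b l + 1 ≤ ht b r := by
      by_contra h4
      apply h1
      rw [Matrix.sub_apply, hu r l (by omega), sub_self]
    push_cast
    omega

theorem qp_nil {u : Matrix (I b) (I b) A} (hu : UTk b 1 u) : (u - 1) ^ NB b = 0 := by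
  have h1 : UTk b ((UTk_top b).choose) (1 + (u - 1) ^ NB b) := by
    intro r c hrc
    rw [Matrix.add_apply]
    by_cases h : ((u - 1) ^ NB b) r c = 0
    · rw [h, add_zero]
    · have h2 := qp_pow hu _ r c h
      have h3 : ((NB b : ℕ) : ℤ) = (UTk_top b).choose := Int.toNat_of_nonneg (by have := (UTk_top b).choose_spec.1; omega)
      omega
  have h2 := (UTk_top b).choose_spec.2 A _ h1
  simpa using h2

theorem qp_nil' {u : Matrix (I b) (I b) A} (hu : UTk b 1 u) {k : ℕ} (hk : NB b ≤ k) : (u - 1) ^ k = 0 := pow_eq_zero_of_le hk (qp_nil hu)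

end Mat

section Pow

variable (b : P.Base) {K : Type} [Field K] [CharZero K]

/-- `u ^ c`. -/
def upw (u : Matrix (I b) (I b) K) (c : K) : Matrix (I b) (I b) K := ∑ k ∈ Finset.range (NB b), bz c k • (u - 1) ^ k

variable {b}

theorem upw_pm (u : Matrix (I b) (I b) K) : IsPM (upw b u) := by
  intro i j
  have h := IsPl.sum (Finset.range (NB b)) (fun k c => bz c k * ((u - 1) ^ k) i j) fun k _ => (bz_pl k).mul (IsPl.const _)
  refine (show (fun c => upw b u c i j) = fun c => ∑ k ∈ Finset.range (NB b), bz c k * ((u - 1) ^ k) i j from ?_) ▸ h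
  funext c
  rw [upw, Matrix.sum_apply]
  rfl

theorem upw_nat {u : Matrix (I b) (I b) K} (hu : (u - 1) ^ NB b = 0) (m : ℕ) : upw b u (m : K) = u ^ m := by
  have e : u = (u - 1) + 1 := by abel
  have hc : Commute (u - 1) (1 : Matrix (I b) (I b) K) := Commute.one_right _
  have h1 : u ^ m = ∑ k ∈ Finset.range (m + 1), (m.choose k : K) • (u - 1) ^ k := by
    conv_lhs => rw [e, hc.add_pow]
    refine Finset.sum_congr rfl fun k _ => ?_
    rw [one_pow, mul_one, ← nsmul_eq_mul', ← Nat.cast_smul_eq_nsmul K]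
  have h2 : ∑ k ∈ Finset.range (m + 1), (m.choose k : K) • (u - 1) ^ k = ∑ k ∈ Finset.range (m + 1 + NB b), (m.choose k : K) • (u - 1) ^ k := by
    refine Finset.sum_subset (Finset.range_mono (by omega)) fun k _ hk => ?_
    rw [Finset.mem_range, not_lt] at hk
    rw [Nat.choose_eq_zero_of_lt (by omega), Nat.cast_zero, zero_smul]
  have h3 : upw b u (m : K) = ∑ k ∈ Finset.range (m + 1 + NB b), (m.choose k : K) • (u - 1) ^ k := by
    unfold upw
    simp only [bz_nat]
    refine Finset.sum_subset (Finset.range_mono (by omega)) fun k _ hk => ?_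
    rw [Finset.mem_range, not_lt] at hk
    rw [pow_eq_zero_of_le hk hu, smul_zero]
  rw [h3, h1, h2]

theorem upw_zero {u : Matrix (I b) (I b) K} (hu : (u - 1) ^ NB b = 0) : upw b u (0 : K) = 1 := by
  have h := upw_nat hu 0
  rwa [Nat.cast_zero, pow_zero] at h

theorem upw_one {u : Matrix (I b) (I b) K} (hu : (u - 1) ^ NB b = 0) : upw b u (1 : K) = u := by
  have h := upw_nat hu 1
  rwa [Nat.cast_one, pow_one] at h

theorem upw_add {u : Matrix (I b) (I b) K} (hu : (u - 1) ^ NB b = 0) (c d : K) : upw b u (c + d) = upw b u c * upw b u d := by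
  have h1 : ∀ (m : ℕ) (c : K), upw b u (c + m) = upw b u c * upw b u m := by
    intro m c
    have h2 := ((upw_pm u).comp 1 (m : K)).eq ((upw_pm u).mul (IsPM.const (upw b u (m : K)))) (fun k => by
      show upw b u (1 * (k : K) + m) = upw b u k * upw b u m
      rw [one_mul, ← Nat.cast_add, upw_nat hu, upw_nat hu, upw_nat hu, pow_add]) c
    have h3 : upw b u (1 * c + m) = upw b u c * upw b u m := h2
    rwa [one_mul] at h3
  have h2 := ((upw_pm u).comp 1 c).eq ((IsPM.const (upw b u c)).mul (upw_pm u)) (fun k => by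
    show upw b u (1 * (k : K) + c) = upw b u c * upw b u k
    rw [one_mul, add_comm, h1]) d
  have h3 : upw b u (1 * d + c) = upw b u c * upw b u d := h2
  rwa [one_mul, add_comm] at h3

theorem upw_mul_neg {u : Matrix (I b) (I b) K} (hu : (u - 1) ^ NB b = 0) (c : K) : upw b u c * upw b u (-c) = 1 := by
  rw [← upw_add hu, add_neg_cancel, upw_zero hu]

theorem upw_neg_mul {u : Matrix (I b) (I b) K} (hu : (u - 1) ^ NB b = 0) (c : K) : upw b u (-c) * upw b u c = 1 := by
  rw [← upw_add hu, neg_add_cancel, upw_zero hu]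

/-- `u ^ c` is unitriangular. -/
theorem upw_UT {u : Matrix (I b) (I b) K} (hu : UTk b 1 u) (c : K) : UTk b 1 (upw b u c) := by
  intro r l hrl
  rw [upw, Matrix.sum_apply]
  by_cases hN : NB b = 0
  · have h0 := qp_nil hu
    rw [hN, pow_zero] at h0
    rw [hN, Finset.range_zero, Finset.sum_empty, h0, Matrix.zero_apply]
  · rw [Finset.sum_eq_single 0]
    · rw [bz_zero, one_smul, pow_zero]
    · intro k _ hk
      rw [Matrix.smul_apply, smul_eq_mul]
      by_cases h : ((u - 1) ^ k) r l = 0
      · rw [h, mul_zero]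
      · have h1 := qp_pow hu k r l h
        omega
    · intro h
      rw [Finset.mem_range, not_lt] at h
      omega

/-- The nonconstant part of `u ^ c`. -/
theorem upw_sub_one {u : Matrix (I b) (I b) K} (hu : (u - 1) ^ NB b = 0) (c : K) (i j : I b) :
    (upw b u c - 1) i j = c * ∑ k ∈ Finset.range (NB b), (∏ l ∈ Finset.range k, (c - (l + 1 : ℕ))) * ((((k + 1).factorial : K)⁻¹ • (u - 1) ^ (k + 1)) i j) := by
  have h1 : upw b u c = ∑ k ∈ Finset.range (NB b + 1), bz c k • (u - 1) ^ k := by
    unfold upw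
    rw [Finset.sum_range_succ, hu, smul_zero, add_zero]
  rw [h1, Finset.sum_range_succ', bz_zero, one_smul, pow_zero, add_sub_cancel_right, Matrix.sum_apply, Finset.mul_sum]
  refine Finset.sum_congr rfl fun k _ => ?_
  rw [bz_succ, Matrix.smul_apply, Matrix.smul_apply, smul_eq_mul, smul_eq_mul]
  ring

theorem upw_Nmz {u u' : Matrix (I b) (I b) K} (hu : (u - 1) ^ NB b = 0) (h : Nmz b u u') (c : K) : Nmz b (upw b u c) (upw b u (-c)) := by
  have hp : ∀ m : ℕ, Nmz b (u ^ m) (u' ^ m) := by
    intro m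
    induction m with
    | zero =>
      rw [pow_zero, pow_zero]
      refine ⟨one_mul 1, one_mul 1, fun X hX => ?_⟩
      rw [one_mul, mul_one]
      exact ⟨hX, hX⟩
    | succ m ih =>
      rw [pow_succ, pow_succ']
      exact ih.mul h
  have hneg : ∀ m : ℕ, upw b u (-(m : K)) = u' ^ m := by
    intro m
    have h1 := upw_neg_mul hu (m : K)
    rw [upw_nat hu] at h1
    calc upw b u (-(m : K)) = upw b u (-(m : K)) * (u ^ m * u' ^ m) := by rw [(hp m).1, mul_one]
      _ = u' ^ m := by rw [← mul_assoc, h1, one_mul]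
  have hneg1 : IsPM fun c : K => upw b u (-c) := by
    have h1 := (upw_pm u).comp (-1) 0
    have e : (fun c : K => upw b u (-1 * c + 0)) = fun c => upw b u (-c) := by
      funext c
      congr 1
      ring
    rwa [e] at h1
  have key : ∀ (F : K → Matrix (I b) (I b) K), IsPM F → (∀ m : ℕ, F m ∈ gR b K) → ∀ c, F c ∈ gR b K := by
    intro F hF h1 c
    by_contra h2
    obtain ⟨φ, hφ1, hφ2⟩ := Submodule.exists_le_ker_of_notMem h2
    apply hφ1
    exact (hF.lin φ).zero (fun m => hφ2 (h1 m)) c
  refine ⟨upw_mul_neg hu c, upw_neg_mul hu c, fun X hX => ⟨?_, ?_⟩⟩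
  · refine key (fun c => upw b u c * X * upw b u (-c)) (((upw_pm u).mul (IsPM.const X)).mul hneg1) (fun m => ?_) c
    show upw b u m * X * upw b u (-(m : K)) ∈ gR b K
    rw [upw_nat hu, hneg]
    exact ((hp m).2.2 X hX).1
  · refine key (fun c => upw b u (-c) * X * upw b u c) ((hneg1.mul (IsPM.const X)).mul (upw_pm u)) (fun m => ?_) c
    show upw b u (-(m : K)) * X * upw b u m ∈ gR b K
    rw [upw_nat hu, hneg]
    exact ((hp m).2.2 X hX).2

end Pow

section GK

variable {b : P.Base} {K : Type} [Field K] [NumberField K]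

/-- `u ^ c ∈ U(K)`. -/
theorem upw_mem {u : GK b K} (hu : u ∈ HU b K) (c : K) : ∃ g : GK b K, g ∈ HU b K ∧ g.1.1 = upw b u.1.1 c ∧ g⁻¹.1.1 = upw b u.1.1 (-c) := by
  have hut : UTk b 1 u.1.1 := (mem_HU_iff b u).1 hu
  have hN : Nmz b u.1.1 u⁻¹.1.1 := GQ_Nmz b u.2
  have hnil := qp_nil hut
  obtain ⟨t, ht⟩ := prod_exists b (upw_Nmz hnil hN c) (upw_UT hut c)
  have e1 : (pK b K (posL b) t).1.1 = upw b u.1.1 c := by
    rw [pK_coe]
    exact ht.symm
  refine ⟨pK b K (posL b) t, ?_, e1, ?_⟩
  · rw [mem_HU_iff, e1]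
    exact upw_UT hut c
  · have e2 : (pK b K (posL b) t)⁻¹.1.1 * (pK b K (posL b) t).1.1 = 1 := by
      have : ((pK b K (posL b) t)⁻¹ * pK b K (posL b) t).1.1 = 1 := by
        rw [inv_mul_cancel]
        rfl
      exact this
    rw [e1] at e2
    calc (pK b K (posL b) t)⁻¹.1.1 = (pK b K (posL b) t)⁻¹.1.1 * (upw b u.1.1 c * upw b u.1.1 (-c)) := by rw [upw_mul_neg hnil, mul_one]
      _ = _ := by rw [← mul_assoc, e2, one_mul]

end GK

end

end Pool.Agent.Lib.L1S
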