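import Pool.Agent.Lib.L1S.QP1
import Pool.Agent.Lib.L1S.QStm
import Pool.Agent.Lib.L1S.LI3

/-!
# L1S, QP2: the powers `u ^ c` of the lower unitriangular elements and of the elements fixed by the Galois group
-/

namespace Pool.Agent.Lib.L1S

open MeasureTheory Matrix NumberField IsDedekindDomain Pool.Agent.Lib.H89N Pool.Agent.Lib.H33W

noncomputable section

set_option linter.unusedSectionVars false

variable {ι M N : Type} [Fintype ι] [DecidableEq ι] [AddCommGroup M] [Module ℚ M] [AddCommGroup N] [Module ℚ N]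
  {P : RootPairing ι ℚ M N} [P.IsCrystallographic] [P.IsReduced] [P.IsIrreducible] [P.IsRootSystem]

/-! ## Geck's involution -/

section om

variable {b : P.Base} {A : Type} [CommRing A]

/-- Geck's involution. -/
def om (b : P.Base) (A : Type) [CommRing A] : Matrix (I b) (I b) A := toA A (oZ b)

theorem om_mul : om b A * om b A = 1 := by
  unfold om
  rw [← toA_mul, oZ_mul, toA_one]

theorem om_xx [Algebra ℚ A] (i : b.support) (t : A) : om b A * xx b (i : ι) t * om b A = xx b (ng P i) t := by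
  have h := (DP_E b (i : ι)).conj (DP_E b (ng P i)) (om b A) 1 t (by
    rw [E_simple, E_neg_simple, one_smul, oZ_eZ]
    unfold om
    rw [← toA_mul, ← toA_mul, mul_assoc (oZ b * eZ b i), oZ_mul, mul_one])
  rw [one_mul] at h
  have h' : om b A * xx b (i : ι) t = xx b (ng P i) t * om b A := h
  rw [h', mul_assoc, om_mul, mul_one]

theorem om_xx' [Algebra ℚ A] (i : b.support) (t : A) : om b A * xx b (ng P i) t * om b A = xx b (i : ι) t := by
  rw [← om_xx]
  calc om b A * (om b A * xx b (i : ι) t * om b A) * om b A = (om b A * om b A) * xx b (i : ι) t * (om b A * om b A) := by simp only [mul_assoc]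
    _ = _ := by rw [om_mul, one_mul, mul_one]

theorem om_ht {r c : I b} (h : om b A r c ≠ 0) : ht b r = -ht b c := by
  have h1 : oZ b r c ≠ 0 := by
    intro h0
    apply h
    change ((oZ b r c : ℤ) : A) = 0
    rw [h0, Int.cast_zero]
  have h2 : wt b r = -wt b c := oZ_over r c h1
  have h3 : ((ht b r : ℤ) : ℚ) = -((ht b c : ℤ) : ℚ) := by
    rw [b1_ht, b1_ht, h2, map_neg, ← Finset.sum_neg_distrib]
    rfl
  exact_mod_cast h3

theorem om_sub (X : Matrix (I b) (I b) A) : om b A * X * om b A - 1 = om b A * (X - 1) * om b A := by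
  rw [Matrix.mul_sub, Matrix.sub_mul, mul_one, om_mul]

theorem om_entry {X : Matrix (I b) (I b) A} {r c : I b} (h : (om b A * X * om b A) r c ≠ 0) : ∃ k l, X k l ≠ 0 ∧ ht b r = -ht b k ∧ ht b c = -ht b l := by
  rw [Matrix.mul_apply] at h
  obtain ⟨l, -, hl⟩ := Finset.exists_ne_zero_of_sum_ne_zero h
  have h1 := left_ne_zero_of_mul hl
  have h2 := om_ht (right_ne_zero_of_mul hl)
  rw [Matrix.mul_apply] at h1
  obtain ⟨k, -, hk⟩ := Finset.exists_ne_zero_of_sum_ne_zero h1
  refine ⟨k, l, right_ne_zero_of_mul hk, om_ht (left_ne_zero_of_mul hk), by omega⟩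

theorem om_UT {X : Matrix (I b) (I b) A} (h : LT b X) : UT b (om b A * X * om b A) := by
  intro r c hrc
  rw [← sub_eq_zero, ← Matrix.sub_apply, om_sub]
  by_contra hne
  obtain ⟨k, l, h1, h2, h3⟩ := om_entry hne
  apply h1
  rw [Matrix.sub_apply, h k l (by omega), sub_self]

theorem om_LT {X : Matrix (I b) (I b) A} (h : UT b X) : LT b (om b A * X * om b A) := by
  intro r c hrc
  rw [← sub_eq_zero, ← Matrix.sub_apply, om_sub]
  by_contra hne
  obtain ⟨k, l, h1, h2, h3⟩ := om_entry hne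
  apply h1
  rw [Matrix.sub_apply, h k l (by omega), sub_self]

theorem om_pow (X : Matrix (I b) (I b) A) (k : ℕ) : (om b A * X * om b A) ^ k = om b A * X ^ k * om b A := by
  induction k with
  | zero => rw [pow_zero, pow_zero, mul_one, om_mul]
  | succ k ih =>
    rw [pow_succ, ih, pow_succ]
    calc om b A * X ^ k * om b A * (om b A * X * om b A) = om b A * X ^ k * (om b A * om b A) * X * om b A := by simp only [mul_assoc]
      _ = _ := by rw [om_mul, mul_one]; simp only [mul_assoc]

theorem om_om (X : Matrix (I b) (I b) A) : om b A * (om b A * X * om b A) * om b A = X := by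
  calc om b A * (om b A * X * om b A) * om b A = (om b A * om b A) * X * (om b A * om b A) := by simp only [mul_assoc]
    _ = _ := by rw [om_mul, one_mul, mul_one]

theorem ut_iff {X : Matrix (I b) (I b) A} : UT b X ↔ UTk b 1 X :=
  ⟨fun h r c hrc => h r c (by omega), fun h r c hrc => h r c (by omega)⟩

end om

section omK

variable {b : P.Base} {K : Type} [Field K] [CharZero K]

/-- Geck's involution. -/
def omG (b : P.Base) (K : Type) [Field K] [CharZero K] : GL (I b) K := ⟨om b K, om b K, om_mul, om_mul⟩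

theorem omG_mem {g : GL (I b) K} (hg : g ∈ GQ b K) : omG b K * g * (omG b K)⁻¹ ∈ GQ b K := by
  have h : GQ b K ≤ (GQ b K).comap (MulAut.conj (omG b K)).toMonoidHom := by
    conv_lhs => rw [GQ_eq]
    rw [Subgroup.closure_le]
    have key : ∀ (i : b.support) (t : K), omG b K * xG b (i : ι) t * (omG b K)⁻¹ = xG b (ng P i) t := fun i t => Units.ext (om_xx i t)
    have key' : ∀ (i : b.support) (t : K), omG b K * xG b (ng P i) t * (omG b K)⁻¹ = xG b (i : ι) t := fun i t => Units.ext (om_xx' i t)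
    rintro _ ⟨i, t, rfl | rfl⟩
    · show omG b K * xG b (i : ι) t * (omG b K)⁻¹ ∈ GQ b K
      rw [key, GQ_eq]
      exact Subgroup.subset_closure ⟨i, t, Or.inr rfl⟩
    · show omG b K * xG b (ng P i) t * (omG b K)⁻¹ ∈ GQ b K
      rw [key', GQ_eq]
      exact Subgroup.subset_closure ⟨i, t, Or.inl rfl⟩
  exact h hg

/-- Geck's involution of `G(K)`. -/
def omK (g : GK b K) : GK b K := ⟨omG b K * g.1 * (omG b K)⁻¹, omG_mem g.2⟩

theorem omK_coe (g : GK b K) : (omK g).1.1 = om b K * g.1.1 * om b K := rfl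

theorem omK_inv (g : GK b K) : (omK g)⁻¹.1.1 = om b K * g⁻¹.1.1 * om b K := by
  have h : (omK g)⁻¹ = omK g⁻¹ := by
    apply Subtype.ext
    show (omG b K * g.1 * (omG b K)⁻¹)⁻¹ = omG b K * g.1⁻¹ * (omG b K)⁻¹
    group
  rw [h]
  rfl

theorem upw_om (u : Matrix (I b) (I b) K) (c : K) : upw b (om b K * u * om b K) c = om b K * upw b u c * om b K := by
  unfold upw
  rw [Matrix.mul_sum, Matrix.sum_mul]
  refine Finset.sum_congr rfl fun k _ => ?_
  rw [om_sub, om_pow, mul_smul_comm, smul_mul_assoc]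

end omK

section gen

variable {b : P.Base} {K : Type} [Field K] [NumberField K]

/-- The powers of the upper and the lower unitriangular elements. -/
theorem upw_gen {u : GK b K} (h : UT b u.1.1 ∨ LT b u.1.1) : (u.1.1 - 1) ^ NB b = 0 ∧ ∀ c : K, ∃ g : GK b K, (UT b g.1.1 ∨ LT b g.1.1) ∧ g.1.1 = upw b u.1.1 c ∧ g⁻¹.1.1 = upw b u.1.1 (-c) := by
  rcases h with h | h
  · have hu : u ∈ HU b K := (mem_HU_iff b u).2 (ut_iff.1 h)
    refine ⟨qp_nil (ut_iff.1 h), fun c => ?_⟩
    obtain ⟨g, h1, h2, h3⟩ := upw_mem hu c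
    exact ⟨g, Or.inl (ut_iff.2 ((mem_HU_iff b g).1 h1)), h2, h3⟩
  · have hut : UT b (omK u).1.1 := om_UT h
    have hu : omK u ∈ HU b K := (mem_HU_iff b _).2 (ut_iff.1 hut)
    have e : u.1.1 = om b K * (omK u).1.1 * om b K := by rw [omK_coe, om_om]
    refine ⟨?_, fun c => ?_⟩
    · rw [e, om_sub, om_pow, qp_nil (ut_iff.1 hut), mul_zero, zero_mul]
    · obtain ⟨g, h1, h2, h3⟩ := upw_mem hu c
      refine ⟨omK g, Or.inr (om_LT (ut_iff.2 ((mem_HU_iff b g).1 h1))), ?_, ?_⟩
      · rw [omK_coe, h2, ← upw_om, ← e]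
      · rw [omK_inv, h3, ← upw_om, ← e]

end gen

/-! ## The Galois action -/

section gal

variable {b : P.Base} {K L : Type} [Field K] [NumberField K] [Field L] [NumberField L] [Algebra K L] (Q : QS b K L)

/-- `τ_s(X) = D_s s(X) D_s⁻¹`. -/
def qta (s : L ≃ₐ[K] L) (X : Matrix (I b) (I b) L) : Matrix (I b) (I b) L := (Q.da s).cj (X.map s)

variable {Q}

theorem fx_iff {X : Matrix (I b) (I b) L} : Fx Q X ↔ ∀ s, qta Q s X = X := by
  constructor
  · intro h s
    exact (Q.da s).cj_eq fun r c => h s r c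
  · intro h s r c
    have h1 := (Q.da s).cj_apply (X.map s) r c
    have h2 : (Q.da s).cj (X.map s) = X := h s
    rw [h2] at h1
    exact h1

theorem qta_apply (s : L ≃ₐ[K] L) (X : Matrix (I b) (I b) L) (r c : I b) : qta Q s X ((Q.da s).pI r) ((Q.da s).pI c) = s (X r c) := (Q.da s).cj_apply (X.map s) r c

theorem qta_mul (s : L ≃ₐ[K] L) (X Y : Matrix (I b) (I b) L) : qta Q s (X * Y) = qta Q s X * qta Q s Y := by
  unfold qta
  rw [← DA.cj_mul]
  congr 1
  exact Matrix.map_mul (f := (s : L →+* L))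

theorem qta_one (s : L ≃ₐ[K] L) : qta Q s (1 : Matrix (I b) (I b) L) = 1 := by
  unfold qta
  rw [Matrix.map_one _ (map_zero s) (map_one s), DA.cj_one]

theorem qta_add (s : L ≃ₐ[K] L) (X Y : Matrix (I b) (I b) L) : qta Q s (X + Y) = qta Q s X + qta Q s Y := by
  unfold qta
  rw [← DA.cj_add]
  congr 1
  ext i j
  exact map_add s _ _

theorem qta_sub (s : L ≃ₐ[K] L) (X Y : Matrix (I b) (I b) L) : qta Q s (X - Y) = qta Q s X - qta Q s Y := by
  have h := qta_add (Q := Q) s (X - Y) Y
  rw [sub_add_cancel] at h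
  rw [h, add_sub_cancel_right]

theorem qta_smul (s : L ≃ₐ[K] L) (a : L) (X : Matrix (I b) (I b) L) : qta Q s (a • X) = s a • qta Q s X := by
  unfold qta
  rw [← DA.cj_smul]
  congr 1
  ext i j
  exact map_mul s _ _

theorem qta_sum (s : L ≃ₐ[K] L) {α : Type} (S : Finset α) (f : α → Matrix (I b) (I b) L) : qta Q s (∑ a ∈ S, f a) = ∑ a ∈ S, qta Q s (f a) := by
  classical
  induction S using Finset.induction_on with
  | empty =>
    rw [Finset.sum_empty, Finset.sum_empty]
    have h := qta_sub (Q := Q) s 1 1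
    rwa [sub_self, sub_self] at h
  | insert a S ha ih => rw [Finset.sum_insert ha, Finset.sum_insert ha, qta_add, ih]

theorem qta_pow (s : L ≃ₐ[K] L) (X : Matrix (I b) (I b) L) (k : ℕ) : qta Q s (X ^ k) = qta Q s X ^ k := by
  induction k with
  | zero => rw [pow_zero, pow_zero, qta_one]
  | succ k ih => rw [pow_succ, pow_succ, qta_mul, ih]

theorem bz_map (s : L ≃ₐ[K] L) (c : L) (k : ℕ) : s (bz c k) = bz (s c) k := by
  rw [bz_prod, bz_prod, map_mul, map_inv₀, map_natCast, map_prod]
  congr 1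
  refine Finset.prod_congr rfl fun j _ => ?_
  rw [map_sub, map_natCast]

theorem qta_upw (s : L ≃ₐ[K] L) (u : Matrix (I b) (I b) L) (c : L) : qta Q s (upw b u c) = upw b (qta Q s u) (s c) := by
  unfold upw
  rw [qta_sum]
  refine Finset.sum_congr rfl fun k _ => ?_
  rw [qta_smul, qta_pow, qta_sub, qta_one, bz_map]

/-- The powers `u ^ c`, `c ∈ K`, of a fixed element are fixed. -/
theorem Fx.upw {u : Matrix (I b) (I b) L} (h : Fx Q u) (c : K) : Fx Q (upw b u (algebraMap K L c)) := by
  rw [fx_iff] at h ⊢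
  intro s
  rw [qta_upw, h s, AlgEquiv.commutes]

theorem Fx.mul {X Y : Matrix (I b) (I b) L} (hX : Fx Q X) (hY : Fx Q Y) : Fx Q (X * Y) := by
  rw [fx_iff] at hX hY ⊢
  intro s
  rw [qta_mul, hX, hY]

theorem Fx.one : Fx Q (1 : Matrix (I b) (I b) L) := by
  rw [fx_iff]
  exact fun s => qta_one s

/-- The inverse. -/
theorem Fx.inv {X Y : Matrix (I b) (I b) L} (hX : Fx Q X) (h : X * Y = 1) : Fx Q Y := by
  have h' : Y * X = 1 := mul_eq_one_comm.1 h
  rw [fx_iff] at hX ⊢
  intro s
  have h1 : X * qta Q s Y = 1 := by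
    rw [← hX s, ← qta_mul, h, qta_one]
  calc qta Q s Y = Y * X * qta Q s Y := by rw [h', one_mul]
    _ = Y := by rw [mul_assoc, h1, mul_one]

/-- The elements of the group are fixed. -/
theorem hq_fx {g : GK b L} (hg : g ∈ HQ Q) : Fx Q g.1.1 := by
  induction hg using Subgroup.closure_induction with
  | mem x h => exact h.1
  | one => exact Fx.one
  | mul x y _ _ hx hy => exact hx.mul hy
  | inv x _ hx => exact hx.inv (by
      have : (x * x⁻¹).1.1 = 1 := by
        rw [mul_inv_cancel]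
        rfl
      exact this)

end gal

end

end Pool.Agent.Lib.L1S
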