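import Pool.Agent.Lib.L1S.QC4

/-!
# L1S, QX1: strong approximation for `HQ Q`, the quotient of two Hecke elements
-/

namespace Pool.Agent.Lib.L1S

open MeasureTheory Matrix NumberField IsDedekindDomain Pool.Agent.Lib.H89N Pool.Agent.Lib.H33W

noncomputable section

set_option linter.unusedSectionVars false

variable {ι M N : Type} [Fintype ι] [DecidableEq ι] [AddCommGroup M] [Module ℚ M] [AddCommGroup N] [Module ℚ N]
  {P : RootPairing ι ℚ M N} [P.IsCrystallographic] [P.IsReduced] [P.IsIrreducible] [P.IsRootSystem]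

variable {b : P.Base} {K L : Type} [Field K] [NumberField K] [Field L] [NumberField L] [Algebra K L] {v : HeightOneSpectrum (𝓞 K)}

/-- **Strong approximation** for `HQ Q`. -/
theorem qx_sa {Q : QS b K L} {𝔫 : Ideal (𝓞 K)} (hv : ¬𝔫 ≤ v.asIdeal) {π : K} (hπ : v.valuation K π = WithZero.exp (-1 : ℤ)) {d : GK b L} (hd : d ∈ HQ Q) :
    ∀ n : ℕ, ∃ h ∈ HQ Q, h ∈ HGL b L 𝔫 v ∧ GcV b v π n (h * d⁻¹) := by
  induction hd using Subgroup.closure_induction with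
  | mem u hu =>
    intro n
    obtain ⟨hF, hU⟩ := hu
    obtain ⟨hn, hg⟩ := upw_gen hU
    obtain ⟨B, hB⟩ := GcV.conj hπ u
    obtain ⟨c, hc⟩ := qc_scal (n := n + B) hv hπ hn
    obtain ⟨g, hgU, e1, e2⟩ := hg (algebraMap K L c)
    obtain ⟨h1, h2⟩ := hc g e1 e2
    have hgF : Fx Q g.1.1 := by
      rw [e1]
      exact hF.upw c
    refine ⟨g, Subgroup.subset_closure ⟨hgF, hgU⟩, h1, ?_⟩
    have e : g * u⁻¹ = u * (u⁻¹ * g) * u⁻¹ := by group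
    rw [e]
    exact (hB n _ h2).1
  | one =>
    intro n
    refine ⟨1, one_mem _, hgl_one 𝔫, ?_⟩
    have e : (1 : GK b L) * 1⁻¹ = 1 := by group
    rw [e]
    exact GcV.one π n
  | mul x y _ _ ihx ihy =>
    intro n
    obtain ⟨B, hB⟩ := GcV.conj hπ x
    obtain ⟨h1, hQ1, hh1, hc1⟩ := ihx n
    obtain ⟨h2, hQ2, hh2, hc2⟩ := ihy (n + B)
    refine ⟨h1 * h2, mul_mem hQ1 hQ2, hgl_mul hh1 hh2, ?_⟩
    have e : h1 * h2 * (x * y)⁻¹ = (h1 * x⁻¹) * (x * (h2 * y⁻¹) * x⁻¹) := by group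
    rw [e]
    exact hc1.mul hπ (hB n _ hc2).1
  | inv x _ ihx =>
    intro n
    obtain ⟨B, hB⟩ := GcV.conj hπ x
    obtain ⟨h1, hQ1, hh1, hc1⟩ := ihx (n + B)
    refine ⟨h1⁻¹, inv_mem hQ1, hgl_inv hh1, ?_⟩
    have e : h1⁻¹ * x⁻¹⁻¹ = (x⁻¹ * (h1 * x⁻¹) * x)⁻¹ := by group
    rw [e]
    exact (hB n _ hc1).2.inv

/-- Existence of the Hecke element from `λ(π)⁻¹ ∈ HQ Q`. -/
theorem qx_exists {Q : QS b K L} {𝔫 : Ideal (𝓞 K)} (hv : ¬𝔫 ≤ v.asIdeal) (r s : ℕ) {c : b.support → ℤ} {π : K} (hπ : v.valuation K π = WithZero.exp (-1 : ℤ))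
    {d : GK b L} (hdQ : d ∈ HQ Q) (hd : d.1.1 = Matrix.diagonal fun r => algebraMap K L π ^ (-pr b c r)) : ∃ h ∈ HQ Q, h ∈ HGL b L 𝔫 v ∧ AtVL b v r s π c h := by
  have hπ0 := qc_al0 (L := L) hπ
  obtain ⟨h, hQ, hh, hc⟩ := qx_sa hv hπ hdQ (r + s)
  have hd' : d⁻¹.1.1 = Matrix.diagonal fun i => algebraMap K L π ^ pr b c i := by
    have e1 : d.1.1 * (Matrix.diagonal fun i => algebraMap K L π ^ pr b c i) = 1 := by
      rw [hd, Matrix.diagonal_mul_diagonal, ← Matrix.diagonal_one]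
      congr 1
      funext i
      rw [_root_.zpow_neg, inv_mul_cancel₀ (zpow_ne_zero _ hπ0)]
    calc d⁻¹.1.1 = d⁻¹.1.1 * (d.1.1 * Matrix.diagonal fun i => algebraMap K L π ^ pr b c i) := by rw [e1, Matrix.mul_one]
      _ = _ := by rw [← Matrix.mul_assoc, (qc_inv_coe d).2, Matrix.one_mul]
  refine ⟨h, hQ, hh, ?_, ?_⟩
  · have e : h.1.1 * (Matrix.diagonal fun i => algebraMap K L π ^ pr b c i) = (h * d⁻¹).1.1 := by
      rw [← hd']
      rfl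
    rw [e]
    exact IwV.of_cong' hπ fun i j => (hc i j).1
  · have e : (Matrix.diagonal fun i => algebraMap K L π ^ (-pr b c i)) * h⁻¹.1.1 = (h * d⁻¹)⁻¹.1.1 := by
      have e1 : (h * d⁻¹)⁻¹ = d * h⁻¹ := by group
      rw [e1, ← hd]
      rfl
    rw [e]
    exact IwV.of_cong' hπ fun i j => (hc i j).2

/-- Two Hecke elements of the same type differ by an element of `Γ`. -/
theorem qx_quot {Q : QS b K L} {𝔫 : Ideal (𝓞 K)} (hv : ¬𝔫 ≤ v.asIdeal) {r s : ℕ} {c : b.support → ℤ} {π : K} (hπ : v.valuation K π = WithZero.exp (-1 : ℤ))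
    {h h1 : HQ Q} (hh : h.1 ∈ HGL b L 𝔫 v) (ha : AtVL b v r s π c h.1) (hh1 : h1.1 ∈ HGL b L 𝔫 v) (ha1 : AtVL b v r s π c h1.1) : h * h1⁻¹ ∈ GamQ (HQ Q) 𝔫 v r s := by
  have hπ0 := qc_al0 (L := L) hπ
  have hD : (Matrix.diagonal fun i => algebraMap K L π ^ pr b c i) * (Matrix.diagonal fun i => algebraMap K L π ^ (-pr b c i)) = (1 : Matrix (I b) (I b) L) := by
    rw [Matrix.diagonal_mul_diagonal, ← Matrix.diagonal_one]
    congr 1
    funext i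
    rw [_root_.zpow_neg, mul_inv_cancel₀ (zpow_ne_zero _ hπ0)]
  have key : ∀ x y : GK b L, AtVL b v r s π c x → AtVL b v r s π c y → IwV b v r s π (x * y⁻¹).1.1 := by
    intro x y hx hy
    have e : (x * y⁻¹).1.1 = (x.1.1 * Matrix.diagonal fun i => algebraMap K L π ^ pr b c i) * ((Matrix.diagonal fun i => algebraMap K L π ^ (-pr b c i)) * y⁻¹.1.1) := by
      have e1 : (x * y⁻¹).1.1 = x.1.1 * y⁻¹.1.1 := rfl
      rw [e1, Matrix.mul_assoc, ← Matrix.mul_assoc (Matrix.diagonal fun i => algebraMap K L π ^ pr b c i), hD, one_mul]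
    rw [e]
    exact hx.1.mul' hπ hy.2
  show h.1 * h1.1⁻¹ ∈ GamL b L 𝔫 v r s
  refine qc_mem hv hπ (hgl_mul hh (hgl_inv hh1)) (key _ _ ha ha1) ?_
  have e : (h.1 * h1.1⁻¹)⁻¹ = h1.1 * h.1⁻¹ := by group
  rw [e]
  exact key _ _ ha1 ha

end

end Pool.Agent.Lib.L1S
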