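import Pool.Agent.Lib.L1S.QB0

/-!
# L1S, QX2: `sl₂`-triples of matrices: `exp(s e) exp(-s⁻¹ f) exp(s e) = s ^ h exp(e) exp(-f) exp(e)`
-/

namespace Pool.Agent.Lib.L1S

open Matrix

noncomputable section

set_option linter.unusedSectionVars false

variable {n : Type} [Fintype n] [DecidableEq n]

section Ad

variable {F : Type} [Field F] [CharZero F]

/-- `exp(X) Y = (Y + Z + W) exp(X)`, `Z = [X, Y]`, `2 W = [X, Z]`, `[X, W] = 0`. -/
theorem qx_exp3 {X Y Z W : Matrix n n F} (hX : IsNilpotent X) (h1 : X * Y - Y * X = Z) (h2 : X * Z - Z * X = (2 : F) • W) (h3 : X * W - W * X = 0) :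
    IsNilpotent.exp X * Y = (Y + Z + W) * IsNilpotent.exp X := by
  have hX0 := hX
  set DL : Module.End F (Matrix n n F) := LinearMap.mulLeft F X with hDL
  set DR : Module.End F (Matrix n n F) := LinearMap.mulRight F (-X) with hDR
  obtain ⟨k, hk⟩ := hX
  have hk' : (-X) ^ k = 0 := by rw [neg_pow, hk, mul_zero]
  have hL : DL ^ k = 0 := by
    rw [hDL, LinearMap.pow_mulLeft, hk]
    ext x
    simp
  have hR : DR ^ k = 0 := by
    rw [hDR, LinearMap.pow_mulRight, hk']
    ext x
    simp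
  have hc : Commute DL DR := by
    rw [hDL, hDR]
    exact LinearMap.commute_mulLeft_right _ _
  have e1 : IsNilpotent.exp DL = LinearMap.mulLeft F (IsNilpotent.exp X) := by
    rw [IsNilpotent.exp_eq_sum hL, IsNilpotent.exp_eq_sum hk]
    ext1 x
    rw [LinearMap.mulLeft_apply, Finset.sum_mul, LinearMap.sum_apply]
    refine Finset.sum_congr rfl fun i _ => ?_
    rw [LinearMap.smul_apply, hDL, LinearMap.pow_mulLeft, LinearMap.mulLeft_apply, smul_mul_assoc]
  have e2 : IsNilpotent.exp DR = LinearMap.mulRight F (IsNilpotent.exp (-X)) := by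
    rw [IsNilpotent.exp_eq_sum hR, IsNilpotent.exp_eq_sum hk']
    ext1 x
    rw [LinearMap.mulRight_apply, Finset.mul_sum, LinearMap.sum_apply]
    refine Finset.sum_congr rfl fun i _ => ?_
    rw [LinearMap.smul_apply, hDR, LinearMap.pow_mulRight, LinearMap.mulRight_apply, mul_smul_comm]
  have e3 : IsNilpotent.exp (DL + DR) = IsNilpotent.exp DL * IsNilpotent.exp DR := IsNilpotent.exp_add_of_commute hc ⟨k, hL⟩ ⟨k, hR⟩
  have hD : ∀ V, (DL + DR) V = X * V - V * X := by
    intro V
    rw [LinearMap.add_apply, hDL, hDR, LinearMap.mulLeft_apply, LinearMap.mulRight_apply, mul_neg, sub_eq_add_neg]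
  have e4 : IsNilpotent.exp X * Y * IsNilpotent.exp (-X) = IsNilpotent.exp (DL + DR) Y := by
    rw [e3, e1, e2, Module.End.mul_apply, LinearMap.mulLeft_apply, LinearMap.mulRight_apply, Matrix.mul_assoc]
  obtain ⟨l, hl⟩ := Commute.isNilpotent_add hc ⟨k, hL⟩ ⟨k, hR⟩
  have hl3 : (DL + DR) ^ (l + 3) = 0 := by rw [pow_add, hl, zero_mul]
  have d1 : (DL + DR) Y = Z := by rw [hD, h1]
  have d2 : ((DL + DR) ^ 2) Y = (2 : F) • W := by rw [pow_two, Module.End.mul_apply, d1, hD, h2]
  have d3 : ∀ j : ℕ, ((DL + DR) ^ (j + 3)) Y = 0 := by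
    intro j
    induction j with
    | zero => rw [zero_add, pow_succ', Module.End.mul_apply, d2, map_smul, hD, h3, smul_zero]
    | succ j ih => rw [show j + 1 + 3 = (j + 3) + 1 by ring, pow_succ', Module.End.mul_apply, ih, map_zero]
  have e5 : IsNilpotent.exp (DL + DR) Y = Y + Z + W := by
    rw [IsNilpotent.exp_eq_sum hl3, LinearMap.sum_apply, add_comm l 3, Finset.sum_range_add]
    have e6 : ∑ i ∈ Finset.range l, (((3 + i).factorial : ℚ)⁻¹ • (DL + DR) ^ (3 + i)) Y = 0 := by
      refine Finset.sum_eq_zero fun i _ => ?_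
      rw [LinearMap.smul_apply, add_comm 3 i, d3, smul_zero]
    rw [e6, add_zero, Finset.sum_range_succ, Finset.sum_range_succ, Finset.sum_range_one, LinearMap.smul_apply, LinearMap.smul_apply, LinearMap.smul_apply, pow_zero, pow_one, d1, d2]
    have e7 : ((Nat.factorial 2 : ℕ) : ℚ)⁻¹ • ((2 : F) • W) = W := by
      ext i j
      rw [Matrix.smul_apply, Matrix.smul_apply, Rat.smul_def, smul_eq_mul]
      have : (Nat.factorial 2 : ℕ) = 2 := rfl
      rw [this]
      push_cast
      field_simp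
    rw [e7]
    simp
  calc IsNilpotent.exp X * Y = IsNilpotent.exp X * Y * (IsNilpotent.exp (-X) * IsNilpotent.exp X) := by rw [IsNilpotent.exp_neg_mul_exp_self hX0, mul_one]
    _ = (IsNilpotent.exp X * Y * IsNilpotent.exp (-X)) * IsNilpotent.exp X := by simp only [Matrix.mul_assoc]
    _ = _ := by rw [e4, e5]

/-- The diagonal matrix `z ^ h`. -/
def dz (μ : n → ℤ) (z : F) : Matrix n n F := Matrix.diagonal fun r => z ^ μ r

/-- The element `exp(s e) exp(-s⁻¹ f) exp(s e)`. -/
def mse (e f : Matrix n n F) (s : F) : Matrix n n F := IsNilpotent.exp (s • e) * IsNilpotent.exp (-(s⁻¹ • f)) * IsNilpotent.exp (s • e)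

theorem qx_nil {e : Matrix n n F} (he : IsNilpotent e) (s : F) : IsNilpotent (s • e) := he.smul s

theorem qx_dz_e {μ : n → ℤ} {e : Matrix n n F} {k : ℤ} (we : ∀ r c, e r c ≠ 0 → μ r = μ c + k) {z : F} (hz : z ≠ 0) (t : F) : dz μ z * (t • e) = ((z ^ k * t) • e) * dz μ z := by
  ext r c
  rw [dz, Matrix.diagonal_mul, Matrix.mul_diagonal, Matrix.smul_apply, Matrix.smul_apply, smul_eq_mul, smul_eq_mul]
  by_cases h : e r c = 0
  · rw [h]
    ring
  · rw [we r c h, zpow_add₀ hz]
    ring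

theorem qx_h_e {μ : n → ℤ} {e : Matrix n n F} {k : ℤ} (we : ∀ r c, e r c ≠ 0 → μ r = μ c + k) :
    (Matrix.diagonal fun r => (μ r : F)) * e - e * (Matrix.diagonal fun r => (μ r : F)) = (k : F) • e := by
  ext r c
  rw [Matrix.sub_apply, Matrix.diagonal_mul, Matrix.mul_diagonal, Matrix.smul_apply, smul_eq_mul]
  by_cases h : e r c = 0
  · rw [h]
    ring
  · rw [we r c h]
    push_cast
    ring

/-- `m h = -h m`. -/
theorem qx_m_h {μ : n → ℤ} {e f : Matrix n n F} (he : IsNilpotent e) (hf : IsNilpotent f) (hef : e * f - f * e = Matrix.diagonal fun r => (μ r : F))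
    (we : ∀ r c, e r c ≠ 0 → μ r = μ c + 2) (wf : ∀ r c, f r c ≠ 0 → μ r = μ c + (-2)) :
    mse e f 1 * (Matrix.diagonal fun r => (μ r : F)) = -((Matrix.diagonal fun r => (μ r : F)) * mse e f 1) := by
  set h : Matrix n n F := Matrix.diagonal fun r => (μ r : F) with hh
  have a1 := qx_h_e (F := F) we
  have a2 := qx_h_e (F := F) wf
  rw [← hh] at a1 a2
  have x1 : e * h - h * e = (-2 : F) • e := by
    have : e * h - h * e = -(h * e - e * h) := by abel
    rw [this, a1]
    push_cast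
    module
  have b1 : IsNilpotent.exp e * h = (h + (-2 : F) • e + 0) * IsNilpotent.exp e := qx_exp3 he x1 (by
    rw [mul_smul_comm, smul_mul_assoc, sub_self, smul_zero]) (by rw [mul_zero, zero_mul, sub_zero])
  have b2 : IsNilpotent.exp (-f) * h = (h + (-2 : F) • f + 0) * IsNilpotent.exp (-f) := qx_exp3 hf.neg (by
    have : -f * h - h * -f = h * f - f * h := by rw [neg_mul, mul_neg]; abel
    rw [this, a2]
    push_cast
    rfl) (by
    rw [mul_smul_comm, smul_mul_assoc, neg_mul, mul_neg, smul_neg, smul_zero]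
    module) (by rw [mul_zero, zero_mul, sub_zero])
  have b3 : IsNilpotent.exp (-f) * e = (e + h + (-f)) * IsNilpotent.exp (-f) := qx_exp3 hf.neg (by
    have : -f * e - e * -f = e * f - f * e := by rw [neg_mul, mul_neg]; abel
    rw [this, hef]) (by
    have : -f * h - h * -f = h * f - f * h := by rw [neg_mul, mul_neg]; abel
    rw [this, a2]
    push_cast
    module) (by
    rw [neg_mul, mul_neg, neg_neg, sub_self])
  have e1 : mse e f 1 = IsNilpotent.exp e * IsNilpotent.exp (-f) * IsNilpotent.exp e := by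
    unfold mse
    rw [inv_one, one_smul, one_smul]
  rw [e1]
  have g1 : IsNilpotent.exp (-f) * (h + (-2 : F) • e + 0) = ((h + (-2 : F) • f + 0) - (2 : F) • (e + h + (-f))) * IsNilpotent.exp (-f) := by
    rw [Matrix.mul_add, Matrix.mul_add, mul_zero, mul_smul_comm, b2, b3, Matrix.sub_mul, smul_mul_assoc]
    module
  have c1 : IsNilpotent.exp e * IsNilpotent.exp (-f) * IsNilpotent.exp e * h = IsNilpotent.exp e * ((h + (-2 : F) • f + 0) - (2 : F) • (e + h + (-f))) * IsNilpotent.exp (-f) * IsNilpotent.exp e := by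
    calc IsNilpotent.exp e * IsNilpotent.exp (-f) * IsNilpotent.exp e * h = IsNilpotent.exp e * IsNilpotent.exp (-f) * (IsNilpotent.exp e * h) := by simp only [Matrix.mul_assoc]
      _ = IsNilpotent.exp e * (IsNilpotent.exp (-f) * (h + (-2 : F) • e + 0)) * IsNilpotent.exp e := by
        rw [b1]
        simp only [Matrix.mul_assoc]
      _ = _ := by
        rw [g1]
        simp only [Matrix.mul_assoc]
  have c2 : (h + (-2 : F) • f + 0) - (2 : F) • (e + h + (-f)) = -h - (2 : F) • e := by module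
  have c3 : IsNilpotent.exp e * (-h - (2 : F) • e) = -(h * IsNilpotent.exp e) := by
    have c4 : IsNilpotent.exp e * e = e * IsNilpotent.exp e := (qb0_comm (X := e) he he rfl).symm
    rw [Matrix.mul_sub, mul_neg, b1, mul_smul_comm, c4, add_zero, Matrix.add_mul, smul_mul_assoc]
    module
  rw [c1, c2, c3]
  simp only [Matrix.mul_assoc, neg_mul]

theorem qx_m_ne {μ : n → ℤ} {e f : Matrix n n F} (he : IsNilpotent e) (hf : IsNilpotent f) (hef : e * f - f * e = Matrix.diagonal fun r => (μ r : F))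
    (we : ∀ r c, e r c ≠ 0 → μ r = μ c + 2) (wf : ∀ r c, f r c ≠ 0 → μ r = μ c + (-2)) {r c : n} (h : mse e f 1 r c ≠ 0) : μ r = -μ c := by
  have h1 := congrFun (congrFun (qx_m_h he hf hef we wf) r) c
  rw [Matrix.mul_diagonal, Matrix.neg_apply, Matrix.diagonal_mul] at h1
  have h2 : mse e f 1 r c * ((μ c : F) + (μ r : F)) = 0 := by linear_combination h1
  have h3 := (mul_eq_zero.1 h2).resolve_left h
  have h4 : ((μ c + μ r : ℤ) : F) = 0 := by
    push_cast
    exact h3
  have h5 : μ c + μ r = 0 := by exact_mod_cast h4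
  omega

/-- For squares. -/
theorem qx_sq {μ : n → ℤ} {e f : Matrix n n F} (he : IsNilpotent e) (hf : IsNilpotent f) (hef : e * f - f * e = Matrix.diagonal fun r => (μ r : F))
    (we : ∀ r c, e r c ≠ 0 → μ r = μ c + 2) (wf : ∀ r c, f r c ≠ 0 → μ r = μ c + (-2)) {z : F} (hz : z ≠ 0) : mse e f (z ^ 2) = dz μ (z ^ 2) * mse e f 1 := by
  have a1 : dz μ z * IsNilpotent.exp ((1 : F) • e) = IsNilpotent.exp ((z ^ 2) • e) * dz μ z := by
    refine qb0_comm (qx_nil he _) (qx_nil he _) ?_
    rw [qx_dz_e we hz, mul_one]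
    norm_cast
  have a2 : dz μ z * IsNilpotent.exp (-((1 : F)⁻¹ • f)) = IsNilpotent.exp (-(((z ^ 2)⁻¹) • f)) * dz μ z := by
    refine qb0_comm (qx_nil hf _).neg (qx_nil hf _).neg ?_
    rw [mul_neg, neg_mul, qx_dz_e wf hz, inv_one, mul_one]
    congr 3
    rw [_root_.zpow_neg]
    norm_cast
  have a3 : dz μ z * mse e f 1 = mse e f (z ^ 2) * dz μ z := by
    unfold mse
    rw [← Matrix.mul_assoc, ← Matrix.mul_assoc, a1, Matrix.mul_assoc (IsNilpotent.exp ((z ^ 2) • e)) (dz μ z), a2]
    simp only [Matrix.mul_assoc]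
    rw [a1]
  have a4 : mse e f 1 = dz μ z * mse e f 1 * dz μ z := by
    ext r c
    rw [dz, Matrix.mul_diagonal, Matrix.diagonal_mul]
    by_cases h : mse e f 1 r c = 0
    · rw [h]
      ring
    · rw [qx_m_ne he hf hef we wf h, mul_comm (z ^ (-μ c)), mul_assoc, ← zpow_add₀ hz]
      simp
  have a5 : dz μ z * dz μ z = dz μ (z ^ 2) := by
    rw [dz, dz, Matrix.diagonal_mul_diagonal]
    congr 1
    funext r
    rw [pow_two, mul_zpow]
  have a6 : dz μ z * dz μ z⁻¹ = 1 := by
    rw [dz, dz, Matrix.diagonal_mul_diagonal, ← Matrix.diagonal_one]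
    congr 1
    funext r
    rw [_root_.inv_zpow, mul_inv_cancel₀ (zpow_ne_zero _ hz)]
  calc mse e f (z ^ 2) = mse e f (z ^ 2) * dz μ z * dz μ z⁻¹ := by rw [Matrix.mul_assoc, a6, Matrix.mul_one]
    _ = dz μ z * mse e f 1 * dz μ z⁻¹ := by rw [a3]
    _ = dz μ z * (dz μ z * mse e f 1 * dz μ z) * dz μ z⁻¹ := by rw [← a4]
    _ = (dz μ z * dz μ z) * mse e f 1 * (dz μ z * dz μ z⁻¹) := by simp only [Matrix.mul_assoc]
    _ = _ := by rw [a5, a6, Matrix.mul_one]

end Ad

/-- **`exp(s e) exp(-s⁻¹ f) exp(s e) = s ^ h exp(e) exp(-f) exp(e)`.** -/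
theorem qx_sl2 {F : Type} [Field F] [CharZero F] {μ : n → ℤ} {e f : Matrix n n F} (he : IsNilpotent e) (hf : IsNilpotent f) (hef : e * f - f * e = Matrix.diagonal fun r => (μ r : F))
    (we : ∀ r c, e r c ≠ 0 → μ r = μ c + 2) (wf : ∀ r c, f r c ≠ 0 → μ r = μ c + (-2)) {s : F} (hs : s ≠ 0) : mse e f s = dz μ s * mse e f 1 := by
  set φ : F →+* AlgebraicClosure F := algebraMap F (AlgebraicClosure F) with hφ
  obtain ⟨z, hz⟩ := IsAlgClosed.exists_pow_nat_eq (φ s) (n := 2) (by norm_num)
  have hz0 : z ≠ 0 := by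
    rintro rfl
    apply hs
    have : φ s = 0 := by
      rw [← hz]
      norm_num
    exact (map_eq_zero φ).1 this
  have hmn : ∀ {X : Matrix n n F}, IsNilpotent X → IsNilpotent (X.map φ) := fun {X} hX => hX.map φ.mapMatrix
  have hme : ∀ {X : Matrix n n F}, IsNilpotent X → (IsNilpotent.exp X).map φ = IsNilpotent.exp (X.map φ) := fun {X} hX => IsNilpotent.map_exp hX φ.mapMatrix
  have hsm : ∀ (t : F) (X : Matrix n n F), (t • X).map φ = φ t • X.map φ := by
    intro t X
    ext i j
    exact map_mul φ _ _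
  have hng : ∀ X : Matrix n n F, (-X).map φ = -X.map φ := by
    intro X
    ext i j
    exact map_neg φ _
  have hmap : ∀ t : F, (mse e f t).map φ = mse (e.map φ) (f.map φ) (φ t) := by
    intro t
    unfold mse
    rw [Matrix.map_mul, Matrix.map_mul, hme (qx_nil he t), hme (qx_nil hf _).neg, hsm, hng, hsm, map_inv₀]
  have h1 := qx_sq (F := AlgebraicClosure F) (μ := μ) (hmn he) (hmn hf) (by
    have : (e * f - f * e).map φ = (Matrix.diagonal fun r => (μ r : F)).map φ := by rw [hef]
    have e1 : (e * f - f * e).map φ = e.map φ * f.map φ - f.map φ * e.map φ := by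
      rw [Matrix.map_sub _ (map_sub φ), Matrix.map_mul, Matrix.map_mul]
    rw [← e1, this, Matrix.diagonal_map (map_zero φ)]
    exact congrArg Matrix.diagonal (funext fun r => map_intCast φ _)) (fun r c h => we r c (by
      rintro h0
      apply h
      rw [Matrix.map_apply, h0, map_zero])) (fun r c h => wf r c (by
      rintro h0
      apply h
      rw [Matrix.map_apply, h0, map_zero])) hz0
  have h2 : (mse e f s).map φ = (dz μ s * mse e f 1).map φ := by
    have e4 : (dz μ s).map φ = dz μ (φ s) := by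
      unfold dz
      rw [Matrix.diagonal_map (map_zero φ)]
      congr 1
      funext r
      exact map_zpow₀ φ _ _
    rw [Matrix.map_mul, hmap, hmap, e4, map_one, ← hz]
    exact h1
  ext r c
  exact φ.injective (congrFun (congrFun h2 r) c)

end

end Pool.Agent.Lib.L1S
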