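import Pool.Agent.Lib.L1S.QX1
import Pool.Agent.Lib.L1S.QX2
import Pool.Agent.Lib.L1S.QB2
import Pool.Agent.Lib.L1S.DE

/-!
# L1S, QX3: the torus element of a fixed `sl₂`-triple is in `HQ Q`; sums over orbits
-/

namespace Pool.Agent.Lib.L1S

open MeasureTheory Matrix NumberField IsDedekindDomain Pool.Agent.Lib.H89N Pool.Agent.Lib.H33W

noncomputable section

set_option linter.unusedSectionVars false

variable {ι M N : Type} [Fintype ι] [DecidableEq ι] [AddCommGroup M] [Module ℚ M] [AddCommGroup N] [Module ℚ N]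
  {P : RootPairing ι ℚ M N} [P.IsCrystallographic] [P.IsReduced] [P.IsIrreducible] [P.IsRootSystem]

variable {b : P.Base} {K L : Type} [Field K] [NumberField K] [Field L] [NumberField L] [Algebra K L]

theorem Fx.smul {Q : QS b K L} {X : Matrix (I b) (I b) L} (h : Fx Q X) (t : K) : Fx Q (algebraMap K L t • X) := by
  rw [fx_iff] at h ⊢
  intro s
  rw [qta_smul, h s, AlgEquiv.commutes]

theorem Fx.neg {Q : QS b K L} {X : Matrix (I b) (I b) L} (h : Fx Q X) : Fx Q (-X) := by
  have h1 := h.smul (-1)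
  have e : algebraMap K L (-1) • X = -X := by
    rw [map_neg, map_one, neg_smul, one_smul]
  rwa [e] at h1

theorem qx_om_nil {Y : Matrix (I b) (I b) L} (h : IsNilpotent (om b L * Y * om b L)) : IsNilpotent Y := by
  obtain ⟨k, hk⟩ := h
  refine ⟨k, ?_⟩
  rw [om_pow] at hk
  rw [← om_om (Y ^ k), hk, mul_zero, zero_mul]

/-- The exponential of a fixed lower element of the Lie algebra. -/
theorem qx_low (Q : QS b K L) {Y : Matrix (I b) (I b) L} (hY : om b L * Y * om b L ∈ gR b L) (hr : RaiseBy (ht b) 1 (om b L * Y * om b L)) (hf : Fx Q Y) :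
    ∃ g ∈ HQ Q, g.1.1 = IsNilpotent.exp Y := by
  obtain ⟨g, hg⟩ := qb0_exists hY hr
  have hnil := b3_nil hr
  have hnil' := qx_om_nil hnil
  have h1 : UT b g.1.1 := by
    intro r c hrc
    have h := b3_exp' le_rfl hr r c (by lia)
    rw [Matrix.sub_apply, sub_eq_zero] at h
    rw [hg]
    exact h
  have e1 : om b L * IsNilpotent.exp (om b L * Y * om b L) = IsNilpotent.exp Y * om b L := by
    refine qb0_comm hnil hnil' ?_
    calc om b L * (om b L * Y * om b L) = (om b L * om b L) * Y * om b L := by simp only [mul_assoc]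
      _ = _ := by rw [om_mul, one_mul]
  have e2 : (omK g).1.1 = IsNilpotent.exp Y := by
    rw [omK_coe, hg, e1, mul_assoc, om_mul, mul_one]
  refine ⟨omK g, Subgroup.subset_closure ⟨?_, Or.inr (om_LT h1)⟩, e2⟩
  rw [Fx_iff] at hf ⊢
  intro s
  rw [e2, IsNilpotent.map_exp hnil' (qtau Q s), hf s]

/-- **The torus element of a fixed `sl₂`-triple.** -/
theorem qx_triple (Q : QS b K L) {μ : I b → ℤ} {e f : Matrix (I b) (I b) L} (he1 : e ∈ gR b L) (he2 : RaiseBy (ht b) 1 e) (hf1 : om b L * f * om b L ∈ gR b L)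
    (hf2 : RaiseBy (ht b) 1 (om b L * f * om b L)) (Fe : Fx Q e) (Ff : Fx Q f) (hef : e * f - f * e = Matrix.diagonal fun r => (μ r : L))
    (we : ∀ r c, e r c ≠ 0 → μ r = μ c + 2) (wf : ∀ r c, f r c ≠ 0 → μ r = μ c + (-2)) {x : K} (hx : x ≠ 0) : ∃ d ∈ HQ Q, d.1.1 = dz μ (algebraMap K L x) := by
  have hne := b3_nil he2
  have hnf := qx_om_nil (b3_nil hf2)
  have hE : ∀ t : K, ∃ g ∈ HQ Q, g.1.1 = IsNilpotent.exp (algebraMap K L t • e) := by
    intro t
    obtain ⟨v, hv⟩ := qb2_exists Q (Y := algebraMap K L t • e) (Submodule.smul_mem _ _ he1) (b3_smul _ he2) (Fe.smul t)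
    exact ⟨v.1.1, v.1.2, hv⟩
  have hF : ∀ t : K, ∃ g ∈ HQ Q, g.1.1 = IsNilpotent.exp (-(algebraMap K L t • f)) := by
    intro t
    have e0 : om b L * (-(algebraMap K L t • f)) * om b L = -(algebraMap K L t • (om b L * f * om b L)) := by
      rw [mul_neg, neg_mul, mul_smul_comm, smul_mul_assoc]
    refine qx_low Q ?_ ?_ (Ff.smul t).neg
    · rw [e0]
      exact Submodule.neg_mem _ (Submodule.smul_mem _ _ hf1)
    · rw [e0, ← neg_smul]
      exact b3_smul _ hf2
  have hm : ∀ t : K, t ≠ 0 → ∃ g ∈ HQ Q, g.1.1 = mse e f (algebraMap K L t) := by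
    intro t _
    obtain ⟨g1, h1, e1⟩ := hE t
    obtain ⟨g2, h2, e2⟩ := hF t⁻¹
    refine ⟨g1 * g2 * g1, mul_mem (mul_mem h1 h2) h1, ?_⟩
    have e3 : (g1 * g2 * g1).1.1 = g1.1.1 * g2.1.1 * g1.1.1 := rfl
    rw [e3, e1, e2, map_inv₀]
    rfl
  obtain ⟨g, hg, e1⟩ := hm x hx
  obtain ⟨g', hg', e2⟩ := hm 1 one_ne_zero
  refine ⟨g * g'⁻¹, mul_mem hg (inv_mem hg'), ?_⟩
  have hx' : algebraMap K L x ≠ 0 := by
    rw [ne_eq, map_eq_zero]
    exact hx
  have e3 : (g * g'⁻¹).1.1 = g.1.1 * g'⁻¹.1.1 := rfl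
  rw [map_one] at e2
  rw [e3, e1, qx_sl2 hne hnf hef we wf hx', ← e2, Matrix.mul_assoc, (qc_inv_coe g').1, Matrix.mul_one]

/-- The orbit of a simple root. -/
def So (Q : QS b K L) (i : b.support) : Finset b.support := Finset.univ.image fun s : L ≃ₐ[K] L => (Q.da s).sp i

theorem qx_sp_mul (Q : QS b K L) (s t : L ≃ₐ[K] L) (i : b.support) : (Q.da (s * t)).sp i = (Q.da s).sp ((Q.da t).sp i) := by
  apply Subtype.ext
  show Q.act (s * t) i = Q.act s (Q.act t i)
  rw [map_mul]
  rfl

theorem qx_sp_one (Q : QS b K L) (i : b.support) : (Q.da 1).sp i = i := by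
  apply Subtype.ext
  show Q.act 1 i = i
  rw [map_one]
  rfl

theorem qx_sp_inv (Q : QS b K L) (s : L ≃ₐ[K] L) (i : b.support) : (Q.da s⁻¹).sp ((Q.da s).sp i) = i := by
  rw [← qx_sp_mul, inv_mul_cancel, qx_sp_one]

theorem qx_sp_inv' (Q : QS b K L) (s : L ≃ₐ[K] L) (i : b.support) : (Q.da s).sp ((Q.da s⁻¹).sp i) = i := by
  rw [← qx_sp_mul, mul_inv_cancel, qx_sp_one]

theorem mem_So {Q : QS b K L} {i j : b.support} : j ∈ So Q i ↔ ∃ s, (Q.da s).sp i = j := by
  unfold So
  rw [Finset.mem_image]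
  exact ⟨fun ⟨s, _, h⟩ => ⟨s, h⟩, fun ⟨s, h⟩ => ⟨s, Finset.mem_univ _, h⟩⟩

theorem So_self (Q : QS b K L) (i : b.support) : i ∈ So Q i := mem_So.2 ⟨1, qx_sp_one Q i⟩

theorem So_sp {Q : QS b K L} {i j : b.support} (s : L ≃ₐ[K] L) : (Q.da s).sp j ∈ So Q i ↔ j ∈ So Q i := by
  rw [mem_So, mem_So]
  constructor
  · rintro ⟨t, ht⟩
    refine ⟨s⁻¹ * t, ?_⟩
    rw [qx_sp_mul, ht, qx_sp_inv]
  · rintro ⟨t, rfl⟩
    exact ⟨s * t, qx_sp_mul Q s t i⟩

/-- Sums over an orbit are invariant. -/
theorem So_sum {A : Type} [AddCommMonoid A] (Q : QS b K L) (i : b.support) (s : L ≃ₐ[K] L) (f : b.support → A) : ∑ j ∈ So Q i, f ((Q.da s).sp j) = ∑ j ∈ So Q i, f j := by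
  refine Finset.sum_bij (fun j _ => (Q.da s).sp j) (fun j hj => (So_sp s).2 hj) (fun j _ k _ h => (Q.da s).sp.injective h) (fun j hj => ?_) fun j _ => rfl
  refine ⟨(Q.da s⁻¹).sp j, (So_sp s⁻¹).2 hj, qx_sp_inv' Q s j⟩

/-- `∑_(j in the orbit of i) ⟨·, α_j^∨⟩`. -/
def muS (Q : QS b K L) (i : b.support) (r : I b) : ℤ := ∑ j ∈ So Q i, pj b j r

/-- `λ(x)⁻¹ ∈ HQ Q` from the torus elements of the orbits. -/
theorem qx_lam (Q : QS b K L) (H : ∀ (i : b.support) (x : K), x ≠ 0 → ∃ d ∈ HQ Q, d.1.1 = dz (muS Q i) (algebraMap K L x)) {c : b.support → ℤ} (hc : InvC Q c) {x : K} (hx : x ≠ 0) :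
    ∃ d ∈ HQ Q, d.1.1 = Matrix.diagonal fun r => algebraMap K L x ^ (-pr b c r) := by
  have hx' : algebraMap K L x ≠ 0 := by
    rw [ne_eq, map_eq_zero]
    exact hx
  have key : ∀ (m : ℕ) (c : b.support → ℤ), (∀ s i, c ((Q.da s).sp i) = c i) → (Finset.univ.filter fun i => c i ≠ 0).card ≤ m →
      ∃ d ∈ HQ Q, d.1.1 = Matrix.diagonal fun r => algebraMap K L x ^ (-∑ j, c j * pj b j r) := by
    intro m
    induction m with
    | zero =>
      intro c _ h0
      refine ⟨1, one_mem _, ?_⟩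
      have h1 : ∀ j, c j = 0 := by
        intro j
        by_contra hne
        have h2 : j ∈ (Finset.univ.filter fun i => c i ≠ 0) := Finset.mem_filter.2 ⟨Finset.mem_univ _, hne⟩
        rw [Finset.card_eq_zero.1 (Nat.le_zero.1 h0)] at h2
        exact absurd h2 (Finset.notMem_empty _)
      have h2 : (1 : GK b L).1.1 = 1 := rfl
      rw [h2, ← Matrix.diagonal_one]
      congr 1
      funext r
      rw [Finset.sum_eq_zero fun j _ => by rw [h1 j, zero_mul], neg_zero, zpow_zero]
    | succ m ih =>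
      intro c hc hm
      by_cases h0 : ∀ j, c j = 0
      · exact ih c hc (by
          have : (Finset.univ.filter fun i => c i ≠ 0) = ∅ := Finset.filter_eq_empty_iff.2 fun j _ h => h (h0 j)
          rw [this]
          exact Nat.zero_le _)
      · push Not at h0
        obtain ⟨i, hi⟩ := h0
        set c' : b.support → ℤ := fun j => if j ∈ So Q i then 0 else c j with hc'
        have hc'inv : ∀ s j, c' ((Q.da s).sp j) = c' j := by
          intro s j
          rw [hc']
          simp only [So_sp, hc]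
        have hlt : (Finset.univ.filter fun j => c' j ≠ 0).card ≤ m := by
          have hss : (Finset.univ.filter fun j => c' j ≠ 0) ⊂ (Finset.univ.filter fun j => c j ≠ 0) := by
            rw [Finset.ssubset_iff_of_subset]
            · refine ⟨i, Finset.mem_filter.2 ⟨Finset.mem_univ _, hi⟩, fun h => ?_⟩
              have h1 := (Finset.mem_filter.1 h).2
              rw [hc'] at h1
              simp only [So_self, if_true] at h1
              exact h1 rfl
            · intro j hj
              have h1 := (Finset.mem_filter.1 hj).2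
              refine Finset.mem_filter.2 ⟨Finset.mem_univ _, fun h2 => h1 ?_⟩
              rw [hc']
              simp only [h2, ite_self]
          have := Finset.card_lt_card hss
          omega
        obtain ⟨d, hd, e1⟩ := ih c' hc'inv hlt
        have hxc : x ^ (-c i) ≠ 0 := zpow_ne_zero _ hx
        obtain ⟨d', hd', e2⟩ := H i (x ^ (-c i)) hxc
        refine ⟨d' * d, mul_mem hd' hd, ?_⟩
        have e3 : (d' * d).1.1 = d'.1.1 * d.1.1 := rfl
        rw [e3, e1, e2, dz, Matrix.diagonal_mul_diagonal]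
        congr 1
        funext r
        rw [map_zpow₀, ← _root_.zpow_mul, ← zpow_add₀ hx']
        congr 1
        have h1 : ∑ j, c j * pj b j r = ∑ j, c' j * pj b j r + c i * muS Q i r := by
          unfold muS
          rw [Finset.mul_sum, ← Finset.sum_filter_add_sum_filter_not Finset.univ (fun j => j ∈ So Q i) fun j => c j * pj b j r,
            ← Finset.sum_filter_add_sum_filter_not Finset.univ (fun j => j ∈ So Q i) fun j => c' j * pj b j r]
          have h2 : ∑ j ∈ Finset.univ.filter (fun j => j ∈ So Q i), c j * pj b j r = ∑ j ∈ So Q i, c i * pj b j r := by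
            have : (Finset.univ.filter fun j => j ∈ So Q i) = So Q i := by
              ext j
              simp
            rw [this]
            refine Finset.sum_congr rfl fun j hj => ?_
            obtain ⟨s, rfl⟩ := mem_So.1 hj
            rw [hc]
          have h3 : ∑ j ∈ Finset.univ.filter (fun j => j ∈ So Q i), c' j * pj b j r = 0 := by
            refine Finset.sum_eq_zero fun j hj => ?_
            rw [hc']
            simp only [(Finset.mem_filter.1 hj).2, if_true, zero_mul]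
          have h4 : ∑ j ∈ Finset.univ.filter (fun j => ¬j ∈ So Q i), c' j * pj b j r = ∑ j ∈ Finset.univ.filter (fun j => ¬j ∈ So Q i), c j * pj b j r := by
            refine Finset.sum_congr rfl fun j hj => ?_
            rw [hc']
            simp only [(Finset.mem_filter.1 hj).2, if_false]
          rw [h2, h3, h4]
          ring
        rw [h1]
        ring
  obtain ⟨d, hd, e⟩ := key _ c hc le_rfl
  refine ⟨d, hd, ?_⟩
  rw [e]
  congr 1
  funext r
  congr 2
  rcases r with i | β
  · simp [pj, pr]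
  · rfl

end

end Pool.Agent.Lib.L1S
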