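import Pool.Agent.Lib.L1S.QX4
import Pool.Agent.Lib.L1S.LI1

/-!
# L1S, QX5: the torus element `∏_(j in the orbit of i) α_j^∨(x)`, `x ∈ K`, is in `HQ Q`
-/

namespace Pool.Agent.Lib.L1S

open MeasureTheory Matrix NumberField IsDedekindDomain Pool.Agent.Lib.H89N Pool.Agent.Lib.H33W

noncomputable section

set_option linter.unusedSectionVars false

variable {ι M N : Type} [Fintype ι] [DecidableEq ι] [AddCommGroup M] [Module ℚ M] [AddCommGroup N] [Module ℚ N]
  {P : RootPairing ι ℚ M N} [P.IsCrystallographic] [P.IsReduced] [P.IsIrreducible] [P.IsRootSystem]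

section Rel

variable (b : P.Base) (A : Type) [CommRing A]

/-- `e_j` over `A`. -/
def eA (j : b.support) : Matrix (I b) (I b) A := toA A (eZ b j)

/-- `f_j` over `A`. -/
def fA (j : b.support) : Matrix (I b) (I b) A := toA A (fZ b j)

/-- `h_j` over `A`. -/
def hA (j : b.support) : Matrix (I b) (I b) A := toA A (hZ b j)

variable {b A}

theorem eA_fA_same (j : b.support) : eA b A j * fA b A j - fA b A j * eA b A j = hA b A j := by
  unfold eA fA hA
  rw [← toA_mul, ← toA_mul, ← toA_sub, eZ_fZ]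

theorem eA_fA_ne {j k : b.support} (h : j ≠ k) : eA b A j * fA b A k - fA b A k * eA b A j = 0 := by
  unfold eA fA
  have h1 : eZ b j * fZ b k - fZ b k * eZ b j = 0 := by
    apply toA_inj (A := ℚ)
    have h2 := RootPairing.GeckConstruction.lie_e_f_ne (R := ℚ) (b := b) (i := j) (j := k) h
    rw [Ring.lie_def] at h2
    rw [toA_sub, toA_mul, toA_mul, toA_eZ, toA_fZ, h2]
    ext r c
    simp [toA]
  rw [← toA_mul, ← toA_mul, ← toA_sub, h1]
  ext r c
  simp [toA]

theorem hA_eA (j k : b.support) : hA b A j * eA b A k - eA b A k * hA b A j = ((P.pairingIn ℤ (k : ι) (j : ι) : ℤ) : A) • eA b A k := by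
  unfold eA hA
  have h1 : hZ b j * eZ b k - eZ b k * hZ b j = P.pairingIn ℤ (k : ι) (j : ι) • eZ b k := by
    apply toA_inj (A := ℚ)
    have h := RootPairing.GeckConstruction.lie_h_e (R := ℚ) (b := b) k j
    rw [Ring.lie_def] at h
    rw [toA_sub, toA_mul, toA_mul, toA_zsmul, toA_eZ, toA_hZ, h, RootPairing.Base.cartanMatrix, RootPairing.Base.cartanMatrixIn_def]
  rw [← toA_mul, ← toA_mul, ← toA_sub, h1, toA_zsmul, Int.cast_smul_eq_zsmul]

theorem om_conj (X Y : Matrix (I b) (I b) A) : om b A * (X * Y) * om b A = (om b A * X * om b A) * (om b A * Y * om b A) := by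
  calc om b A * (X * Y) * om b A = om b A * X * 1 * Y * om b A := by simp only [mul_assoc, one_mul]
    _ = om b A * X * (om b A * om b A) * Y * om b A := by rw [om_mul]
    _ = _ := by simp only [mul_assoc]

theorem om_eA (j : b.support) : om b A * eA b A j * om b A = fA b A j := by
  unfold om eA fA
  rw [← toA_mul, ← toA_mul, ← oZ_eZ]

theorem om_fA (j : b.support) : om b A * fA b A j * om b A = eA b A j := by
  rw [← om_eA, om_om]

theorem eA_mem [Algebra ℚ A] (j : b.support) : eA b A j ∈ gR b A := by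
  refine Submodule.subset_span (Or.inr ⟨(j : ι), ?_⟩)
  unfold eA
  rw [← E_simple]

theorem eA_raise (j : b.support) : RaiseBy (ht b) 1 (eA b A j) := by
  have h := b3_E (b := b) A (j : ι)
  rw [RootPairing.Base.height_one_of_mem_support j.2, E_simple] at h
  exact h

theorem eA_wt (j : b.support) : HasWt b (P.root j) (eA b A j) := HasWt.toA (hasWt_eZ j)

theorem fA_wt (j : b.support) : HasWt b (-P.root j) (fA b A j) := HasWt.toA (hasWt_fZ j)

/-- `[e_j, e_k]`. -/
def ee (b : P.Base) (A : Type) [CommRing A] (j k : b.support) : Matrix (I b) (I b) A := eA b A j * eA b A k - eA b A k * eA b A j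

/-- `[f_j, f_k]`. -/
def ff (b : P.Base) (A : Type) [CommRing A] (j k : b.support) : Matrix (I b) (I b) A := fA b A j * fA b A k - fA b A k * fA b A j

theorem ee_swap (j k : b.support) : ee b A k j = -ee b A j k := by
  unfold ee
  abel

theorem ff_swap (j k : b.support) : ff b A k j = -ff b A j k := by
  unfold ff
  abel

theorem om_ff (j k : b.support) : om b A * ff b A j k * om b A = ee b A j k := by
  unfold ff ee
  rw [mul_sub, sub_mul, om_conj, om_conj, om_fA, om_fA]

theorem ee_raise (j k : b.support) : RaiseBy (ht b) 1 (ee b A j k) := by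
  have h1 := b3_mono (l := 1) (by norm_num) (b3_mul (eA_raise (A := A) j) (eA_raise (A := A) k))
  have h2 := b3_mono (l := 1) (by norm_num) (b3_mul (eA_raise (A := A) k) (eA_raise (A := A) j))
  have h3 := b3_add h1 (b3_smul (-1 : ℤ) h2)
  rw [neg_one_smul, ← sub_eq_add_neg] at h3
  exact h3

theorem ee_mem [Algebra ℚ A] (j k : b.support) : ee b A j k ∈ gR b A := gR_lie b (eA_mem j) (eA_mem k)

theorem ee_wt (j k : b.support) : HasWt b (P.root j + P.root k) (ee b A j k) := (eA_wt j).lie (eA_wt k)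

theorem ff_wt (j k : b.support) : HasWt b (-P.root j + -P.root k) (ff b A j k) := (fA_wt j).lie (fA_wt k)

end Rel

/-- Abstract: `[[a, c], [y, x]] = h_a + h_c` in a ring. -/
theorem qx_jac {R : Type} [Ring R] {a c x y ha hc : R} (h1 : a * x - x * a = ha) (h2 : c * y - y * c = hc) (h3 : a * y - y * a = 0) (h4 : c * x - x * c = 0)
    (h5 : hc * a - a * hc = -a) (h6 : ha * c - c * ha = -c) :
    (a * c - c * a) * (y * x - x * y) - (y * x - x * y) * (a * c - c * a) = ha + hc := by
  have e3 : a * y = y * a := sub_eq_zero.1 h3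
  have e4 : c * x = x * c := sub_eq_zero.1 h4
  -- `[[a, c], y] = [a, [c, y]] = [a, hc] = a`
  have k1 : (a * c - c * a) * y - y * (a * c - c * a) = a := by
    have : (a * c - c * a) * y - y * (a * c - c * a) = a * (c * y - y * c) - (c * y - y * c) * a + (a * y - y * a) * c - c * (a * y - y * a) := by noncomm_ring
    rw [this, h2, h3, zero_mul, mul_zero, add_zero, sub_zero]
    have h7 : a * hc - hc * a = -(hc * a - a * hc) := by abel
    rw [h7, h5, neg_neg]
  -- `[[a, c], x] = [[a, x], c] = [ha, c] = -c`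
  have k2 : (a * c - c * a) * x - x * (a * c - c * a) = -c := by
    have : (a * c - c * a) * x - x * (a * c - c * a) = (a * x - x * a) * c - c * (a * x - x * a) + a * (c * x - x * c) - (c * x - x * c) * a := by noncomm_ring
    rw [this, h1, h4, zero_mul, mul_zero, add_zero, sub_zero, h6]
  set E := a * c - c * a with hE
  have : E * (y * x - x * y) - (y * x - x * y) * E = (E * y - y * E) * x - x * (E * y - y * E) + y * (E * x - x * E) - (E * x - x * E) * y := by noncomm_ring
  rw [this, k1, k2, h1]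
  have h8 : y * -c - -c * y = c * y - y * c := by noncomm_ring
  calc ha + y * -c - -c * y = ha + (y * -c - -c * y) := by abel
    _ = ha + hc := by rw [h8, h2]

/-- Abstract: commuting elements. -/
theorem qx_comm0 {R : Type} [Ring R] {a c x y : R} (h1 : a * x - x * a = 0) (h2 : c * y - y * c = 0) (h3 : a * y - y * a = 0) (h4 : c * x - x * c = 0) :
    (a * c - c * a) * (y * x - x * y) - (y * x - x * y) * (a * c - c * a) = 0 := by
  have k1 : (a * c - c * a) * y - y * (a * c - c * a) = 0 := by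
    have : (a * c - c * a) * y - y * (a * c - c * a) = a * (c * y - y * c) - (c * y - y * c) * a + (a * y - y * a) * c - c * (a * y - y * a) := by noncomm_ring
    rw [this, h2, h3]
    simp
  have k2 : (a * c - c * a) * x - x * (a * c - c * a) = 0 := by
    have : (a * c - c * a) * x - x * (a * c - c * a) = (a * x - x * a) * c - c * (a * x - x * a) + a * (c * x - x * c) - (c * x - x * c) * a := by noncomm_ring
    rw [this, h1, h4]
    simp
  set E := a * c - c * a with hE
  have : E * (y * x - x * y) - (y * x - x * y) * E = (E * y - y * E) * x - x * (E * y - y * E) + y * (E * x - x * E) - (E * x - x * E) * y := by noncomm_ring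
  rw [this, k1, k2]
  simp

variable {b : P.Base} {K L : Type} [Field K] [NumberField K] [Field L] [NumberField L] [Algebra K L] (Q : QS b K L)

theorem qta_toA (s : L ≃ₐ[K] L) (X : Matrix (I b) (I b) ℤ) : qta Q s (toA L X) = toA L ((Q.da s).cj X) := by
  unfold qta toA
  rw [← DA.cj_map]
  congr 1
  ext r c
  simp

theorem qta_eA (s : L ≃ₐ[K] L) (j : b.support) : qta Q s (eA b L j) = eA b L ((Q.da s).sp j) := by
  unfold eA
  rw [qta_toA, DA.cj_eZ]

theorem qta_fA (s : L ≃ₐ[K] L) (j : b.support) : qta Q s (fA b L j) = fA b L ((Q.da s).sp j) := by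
  unfold fA
  rw [qta_toA, DA.cj_fZ]

theorem qta_ee (s : L ≃ₐ[K] L) (j k : b.support) : qta Q s (ee b L j k) = ee b L ((Q.da s).sp j) ((Q.da s).sp k) := by
  unfold ee
  rw [qta_sub, qta_mul, qta_mul, qta_eA, qta_eA]

theorem qta_ff (s : L ≃ₐ[K] L) (j k : b.support) : qta Q s (ff b L j k) = ff b L ((Q.da s).sp j) ((Q.da s).sp k) := by
  unfold ff
  rw [qta_sub, qta_mul, qta_mul, qta_fA, qta_fA]

/-- `∑ h_j = diagonal (muS)`. -/
theorem qx_sum_h (i : b.support) : ∑ j ∈ So Q i, hA b L j = Matrix.diagonal fun r => ((muS Q i r : ℤ) : L) := by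
  ext r c
  rw [Matrix.sum_apply]
  by_cases h : r = c
  · subst h
    rw [Matrix.diagonal_apply_eq]
    unfold muS
    push_cast
    refine Finset.sum_congr rfl fun j _ => ?_
    unfold hA toA hZ
    rw [Matrix.map_apply, Matrix.diagonal_apply_eq]
    rfl
  · rw [Matrix.diagonal_apply_ne _ h]
    refine Finset.sum_eq_zero fun j _ => ?_
    unfold hA toA hZ
    rw [Matrix.map_apply, Matrix.diagonal_apply_ne _ h]
    exact Int.cast_zero

/-- The weights. -/
theorem qx_muS_add {i : b.support} {μ : M} {m : ℤ} (hm : ∑ k ∈ So Q i, P.coroot' (k : ι) μ = (m : ℚ)) {X : Matrix (I b) (I b) L} (hX : HasWt b μ X) (r c : I b) (h : X r c ≠ 0) :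
    muS Q i r = muS Q i c + m := by
  have h1 : ((muS Q i r : ℤ) : ℚ) = ((muS Q i c : ℤ) : ℚ) + (m : ℚ) := by
    unfold muS
    push_cast
    rw [← hm, ← Finset.sum_add_distrib]
    refine Finset.sum_congr rfl fun k _ => ?_
    rw [de_pj, de_pj, hX r c h, map_add]
  exact_mod_cast h1

theorem qx_sum_entry {A : Type} [CommRing A] {α : Type} {S : Finset α} {f : α → Matrix (I b) (I b) A} {r c : I b} (h : (∑ a ∈ S, f a) r c ≠ 0) : ∃ a ∈ S, f a r c ≠ 0 := by
  by_contra hcon
  push Not at hcon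
  exact h (by rw [Matrix.sum_apply]; exact Finset.sum_eq_zero hcon)

theorem qx_double {R : Type} [Ring R] {α : Type} (S : Finset α) (X Y : α → R) : (∑ j ∈ S, X j) * (∑ m ∈ S, Y m) - (∑ m ∈ S, Y m) * (∑ j ∈ S, X j) = ∑ j ∈ S, ∑ m ∈ S, (X j * Y m - Y m * X j) := by
  rw [Finset.sum_mul_sum, Finset.sum_mul_sum]
  have h : ∑ m ∈ S, ∑ j ∈ S, Y m * X j = ∑ j ∈ S, ∑ m ∈ S, Y m * X j := Finset.sum_comm
  rw [h, ← Finset.sum_sub_distrib]
  exact Finset.sum_congr rfl fun j _ => (Finset.sum_sub_distrib _ _).symm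

/-- Case A. -/
theorem qx_A {i : b.support} (h : ∑ j ∈ So Q i, P.pairingIn ℤ (j : ι) (i : ι) = 2) {x : K} (hx : x ≠ 0) : ∃ d ∈ HQ Q, d.1.1 = dz (muS Q i) (algebraMap K L x) := by
  have hw : ∀ j ∈ So Q i, ∑ k ∈ So Q i, P.coroot' (k : ι) (P.root j) = ((2 : ℤ) : ℚ) := by
    intro j hj
    have h1 : ∑ k ∈ So Q i, P.pairingIn ℤ (j : ι) (k : ι) = 2 := by
      rw [Finset.sum_congr rfl fun k hk => qx_sym Q hj hk, qx_p_const Q hj, h]
    rw [← h1]
    push_cast
    exact Finset.sum_congr rfl fun k _ => (qx_pair _ _).symm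
  refine qx_triple Q (e := ∑ j ∈ So Q i, eA b L j) (f := ∑ j ∈ So Q i, fA b L j) ?_ ?_ ?_ ?_ ?_ ?_ ?_ ?_ ?_ hx
  · exact Submodule.sum_mem _ fun j _ => eA_mem j
  · exact b3_sum _ _ fun j _ => eA_raise j
  · rw [Finset.mul_sum, Finset.sum_mul]
    refine Submodule.sum_mem _ fun j _ => ?_
    rw [om_fA]
    exact eA_mem j
  · rw [Finset.mul_sum, Finset.sum_mul]
    refine b3_sum _ _ fun j _ => ?_
    rw [om_fA]
    exact eA_raise j
  · rw [fx_iff]
    intro s
    rw [qta_sum]
    simp only [qta_eA]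
    exact So_sum Q i s fun j => eA b L j
  · rw [fx_iff]
    intro s
    rw [qta_sum]
    simp only [qta_fA]
    exact So_sum Q i s fun j => fA b L j
  · rw [qx_double, ← qx_sum_h]
    refine Finset.sum_congr rfl fun j hj => ?_
    rw [Finset.sum_eq_single j]
    · exact eA_fA_same j
    · intro m _ hmj
      exact eA_fA_ne hmj.symm
    · intro h'
      exact absurd hj h'
  · intro r c hrc
    obtain ⟨j, hj, hjc⟩ := qx_sum_entry hrc
    exact qx_muS_add Q (hw j hj) (eA_wt j) r c hjc
  · intro r c hrc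
    obtain ⟨j, hj, hjc⟩ := qx_sum_entry hrc
    refine qx_muS_add Q (m := -2) ?_ (fA_wt j) r c hjc
    simp only [map_neg, Finset.sum_neg_distrib]
    rw [hw j hj]
    norm_num

section B

variable {Q}
variable {i : b.support} {nb : b.support → b.support}

theorem qx_EF (H : Nb Q i nb) {j m : b.support} (hj : j ∈ So Q i) (hm : m ∈ So Q i) :
    ee b L j (nb j) * ff b L (nb m) m - ff b L (nb m) m * ee b L j (nb j) = if m = j then hA b L j + hA b L (nb j) else if m = nb j then -(hA b L j + hA b L (nb j)) else 0 := by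
  have hdiag : ee b L j (nb j) * ff b L (nb j) j - ff b L (nb j) j * ee b L j (nb j) = hA b L j + hA b L (nb j) := by
    refine qx_jac (eA_fA_same j) (eA_fA_same (nb j)) (eA_fA_ne (H.ne j hj).symm) (eA_fA_ne (H.ne j hj)) ?_ ?_
    · rw [hA_eA]
      have h1 : P.pairingIn ℤ (j : ι) (nb j : ι) = -1 := by rw [qx_sym Q hj (H.mem j hj), H.pair j hj]
      rw [h1]
      push_cast
      rw [neg_one_smul]
    · rw [hA_eA, H.pair j hj]
      push_cast
      rw [neg_one_smul]
  by_cases h1 : m = j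
  · rw [if_pos h1, h1]
    exact hdiag
  · rw [if_neg h1]
    by_cases h2 : m = nb j
    · rw [if_pos h2, h2, H.nbnb hj, ff_swap (nb j) j, mul_neg, neg_mul, ← hdiag]
      abel
    · rw [if_neg h2]
      have h3 : nb m ≠ j := fun h => h2 (by rw [← h, H.nbnb hm])
      have h4 : nb m ≠ nb j := fun h => h1 (by rw [← H.nbnb hm, h, H.nbnb hj])
      exact qx_comm0 (eA_fA_ne (Ne.symm h1)) (eA_fA_ne (Ne.symm h4)) (eA_fA_ne (Ne.symm h3)) (eA_fA_ne (Ne.symm h2))

/-- The coefficients. -/
theorem qx_cc (H : Nb Q i nb) : ∃ c : b.support → L, (∀ s : L ≃ₐ[K] L, ∀ j ∈ So Q i, c ((Q.da s).sp j) = s (c j)) ∧ (∀ j ∈ So Q i, c (nb j) = -c j) ∧ ∀ j ∈ So Q i, c j ≠ 0 := by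
  classical
  have hfd : FiniteDimensional K L := by
    have hst : IsScalarTower ℚ K L := IsScalarTower.of_algebraMap_eq fun x => by simp
    exact FiniteDimensional.right ℚ K L
  set C : L → b.support → L := fun z j => ∑ t : L ≃ₐ[K] L, ((if (Q.da t).sp i = j then t z else 0) - (if (Q.da t).sp i = nb j then t z else 0)) with hC
  have h1 : ∀ z, ∀ s : L ≃ₐ[K] L, ∀ j ∈ So Q i, C z ((Q.da s).sp j) = s (C z j) := by
    intro z s j hj
    rw [hC]
    simp only [map_sum, map_sub]
    refine (Fintype.sum_equiv (Equiv.mulLeft s) _ _ fun t => ?_).symm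
    have e1 : ((Q.da ((Equiv.mulLeft s) t)).sp i = (Q.da s).sp j) ↔ ((Q.da t).sp i = j) := by
      have : (Equiv.mulLeft s) t = s * t := rfl
      rw [this, qx_sp_mul]
      exact (Q.da s).sp.injective.eq_iff
    have e2 : ((Q.da ((Equiv.mulLeft s) t)).sp i = nb ((Q.da s).sp j)) ↔ ((Q.da t).sp i = nb j) := by
      have : (Equiv.mulLeft s) t = s * t := rfl
      rw [this, qx_sp_mul, H.nb_sp s hj]
      exact (Q.da s).sp.injective.eq_iff
    simp only [e1, e2]
    have e3 : ((Equiv.mulLeft s) t) z = s (t z) := rfl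
    rw [e3]
    congr 1
    · split_ifs
      · rfl
      · exact map_zero s
    · split_ifs
      · rfl
      · exact map_zero s
  have h2 : ∀ z, ∀ j ∈ So Q i, C z (nb j) = -C z j := by
    intro z j hj
    rw [hC]
    simp only [H.nbnb hj]
    rw [← Finset.sum_neg_distrib]
    exact Finset.sum_congr rfl fun t _ => by abel
  obtain ⟨S, d, hd⟩ := li1_dual K L
  have h3 : ∃ z, C z i ≠ 0 := by
    by_contra hcon
    push Not at hcon
    have h4 : ∑ z ∈ S, d z * C z i = 1 := by
      rw [hC]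
      simp only [Finset.mul_sum]
      rw [Finset.sum_comm]
      have h5 : ∀ t : L ≃ₐ[K] L, ∑ z ∈ S, d z * ((if (Q.da t).sp i = i then t z else 0) - (if (Q.da t).sp i = nb i then t z else 0)) =
          ((if (Q.da t).sp i = i then (1 : L) else 0) - (if (Q.da t).sp i = nb i then 1 else 0)) * (if t = 1 then 1 else 0) := by
        intro t
        rw [← hd t, Finset.mul_sum]
        refine Finset.sum_congr rfl fun z _ => ?_
        split_ifs <;> ring
      rw [Finset.sum_congr rfl fun t _ => h5 t, Finset.sum_eq_single 1]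
      · rw [qx_sp_one, if_pos rfl, if_neg (H.ne i (So_self Q i)).symm, if_pos rfl]
        ring
      · intro t _ ht
        rw [if_neg ht, mul_zero]
      · intro h
        exact absurd (Finset.mem_univ _) h
    rw [Finset.sum_eq_zero fun z _ => by rw [hcon z, mul_zero]] at h4
    exact zero_ne_one h4
  obtain ⟨z, hz⟩ := h3
  refine ⟨C z, h1 z, h2 z, fun j hj => ?_⟩
  obtain ⟨s, rfl⟩ := mem_So.1 hj
  rw [h1 z s i (So_self Q i), ne_eq, map_eq_zero]
  exact hz

/-- Case B. -/
theorem qx_B (H : Nb Q i nb) {x : K} (hx : x ≠ 0) : ∃ d ∈ HQ Q, d.1.1 = dz (muS Q i) (algebraMap K L x) := by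
  obtain ⟨cc, hc1, hc2, hc3⟩ := qx_cc H
  have hw1 : ∀ j ∈ So Q i, ∑ k ∈ So Q i, P.coroot' (k : ι) (P.root j) = 1 := by
    intro j hj
    have h1 := H.sum_one hj
    have h2 : ((∑ k ∈ So Q i, P.pairingIn ℤ (j : ι) (k : ι) : ℤ) : ℚ) = 1 := by rw [h1]; norm_num
    rw [← h2]
    push_cast
    exact Finset.sum_congr rfl fun k _ => (qx_pair _ _).symm
  have four : (4 : L) ≠ 0 := by norm_num
  refine qx_triple Q (e := ∑ j ∈ So Q i, cc j • ee b L j (nb j)) (f := ∑ j ∈ So Q i, (4 * cc j)⁻¹ • ff b L (nb j) j) ?_ ?_ ?_ ?_ ?_ ?_ ?_ ?_ ?_ hx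
  · exact Submodule.sum_mem _ fun j _ => Submodule.smul_mem _ _ (ee_mem j (nb j))
  · exact b3_sum _ _ fun j _ => b3_smul _ (ee_raise j (nb j))
  · rw [Finset.mul_sum, Finset.sum_mul]
    refine Submodule.sum_mem _ fun j _ => ?_
    rw [mul_smul_comm, smul_mul_assoc, om_ff]
    exact Submodule.smul_mem _ _ (ee_mem (nb j) j)
  · rw [Finset.mul_sum, Finset.sum_mul]
    refine b3_sum _ _ fun j _ => ?_
    rw [mul_smul_comm, smul_mul_assoc, om_ff]
    exact b3_smul _ (ee_raise (nb j) j)
  · rw [fx_iff]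
    intro s
    rw [qta_sum]
    have h1 : ∀ j ∈ So Q i, qta Q s (cc j • ee b L j (nb j)) = cc ((Q.da s).sp j) • ee b L ((Q.da s).sp j) (nb ((Q.da s).sp j)) := by
      intro j hj
      rw [qta_smul, qta_ee, hc1 s j hj, H.nb_sp s hj]
    rw [Finset.sum_congr rfl h1]
    exact So_sum Q i s fun j => cc j • ee b L j (nb j)
  · rw [fx_iff]
    intro s
    rw [qta_sum]
    have h1 : ∀ j ∈ So Q i, qta Q s ((4 * cc j)⁻¹ • ff b L (nb j) j) = (4 * cc ((Q.da s).sp j))⁻¹ • ff b L (nb ((Q.da s).sp j)) ((Q.da s).sp j) := by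
      intro j hj
      rw [qta_smul, qta_ff, hc1 s j hj, H.nb_sp s hj, map_inv₀, map_mul, map_ofNat]
    rw [Finset.sum_congr rfl h1]
    exact So_sum Q i s fun j => (4 * cc j)⁻¹ • ff b L (nb j) j
  · rw [qx_double, ← qx_sum_h]
    have h1 : ∀ j ∈ So Q i, ∑ m ∈ So Q i, ((cc j • ee b L j (nb j)) * ((4 * cc m)⁻¹ • ff b L (nb m) m) - ((4 * cc m)⁻¹ • ff b L (nb m) m) * (cc j • ee b L j (nb j))) =
        (2⁻¹ : L) • (hA b L j + hA b L (nb j)) := by
      intro j hj
      have h2 : ∀ m ∈ So Q i, ((cc j • ee b L j (nb j)) * ((4 * cc m)⁻¹ • ff b L (nb m) m) - ((4 * cc m)⁻¹ • ff b L (nb m) m) * (cc j • ee b L j (nb j))) =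
          (if m = j then (4⁻¹ : L) • (hA b L j + hA b L (nb j)) else 0) + (if m = nb j then (4⁻¹ : L) • (hA b L j + hA b L (nb j)) else 0) := by
        intro m hm
        have h3 : ((cc j • ee b L j (nb j)) * ((4 * cc m)⁻¹ • ff b L (nb m) m) - ((4 * cc m)⁻¹ • ff b L (nb m) m) * (cc j • ee b L j (nb j))) =
            (cc j * (4 * cc m)⁻¹) • (ee b L j (nb j) * ff b L (nb m) m - ff b L (nb m) m * ee b L j (nb j)) := by
          rw [smul_mul_smul_comm, smul_mul_smul_comm, smul_sub, mul_comm ((4 * cc m)⁻¹) (cc j)]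
        rw [h3, qx_EF H hj hm]
        by_cases e1 : m = j
        · have e2 : ¬ m = nb j := fun h => H.ne j hj (by rw [← h, e1])
          rw [if_pos e1, if_pos e1, if_neg e2, add_zero, e1]
          congr 1
          have := hc3 j hj
          field_simp
        · rw [if_neg e1, if_neg e1, zero_add]
          by_cases e2 : m = nb j
          · rw [if_pos e2, if_pos e2, e2, hc2 j hj, smul_neg, ← neg_smul]
            congr 1
            have := hc3 j hj
            field_simp
          · rw [if_neg e2, if_neg e2, smul_zero]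
      rw [Finset.sum_congr rfl h2, Finset.sum_add_distrib, Finset.sum_ite_eq', Finset.sum_ite_eq', if_pos hj, if_pos (H.mem j hj), ← add_smul]
      congr 1
      norm_num
    rw [Finset.sum_congr rfl h1, ← Finset.smul_sum, Finset.sum_add_distrib]
    have h2 : ∑ j ∈ So Q i, hA b L (nb j) = ∑ j ∈ So Q i, hA b L j := by
      refine Finset.sum_bij (fun j _ => nb j) (fun j hj => H.mem j hj) (fun j hj k hk h => by rw [← H.nbnb hj, h, H.nbnb hk]) (fun j hj => ⟨nb j, H.mem j hj, H.nbnb hj⟩) fun j _ => rfl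
    rw [h2, ← two_smul L, smul_smul]
    norm_num
  · intro r c hrc
    obtain ⟨j, hj, hjc⟩ := qx_sum_entry hrc
    refine qx_muS_add Q (m := 2) ?_ (ee_wt (A := L) j (nb j)) r c fun h0 => hjc (by rw [Matrix.smul_apply, h0, smul_zero])
    simp only [map_add, Finset.sum_add_distrib]
    rw [hw1 j hj, hw1 (nb j) (H.mem j hj)]
    norm_num
  · intro r c hrc
    obtain ⟨j, hj, hjc⟩ := qx_sum_entry hrc
    refine qx_muS_add Q (m := -2) ?_ (ff_wt (A := L) (nb j) j) r c fun h0 => hjc (by rw [Matrix.smul_apply, h0, smul_zero])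
    simp only [map_add, map_neg, Finset.sum_add_distrib, Finset.sum_neg_distrib]
    rw [hw1 j hj, hw1 (nb j) (H.mem j hj)]
    norm_num

end B

/-- **The torus element of an orbit.** -/
theorem qx_orb (i : b.support) {x : K} (hx : x ≠ 0) : ∃ d ∈ HQ Q, d.1.1 = dz (muS Q i) (algebraMap K L x) := by
  by_cases h : ∑ j ∈ So Q i, P.pairingIn ℤ (j : ι) (i : ι) = 2
  · exact qx_A Q h hx
  · obtain ⟨nb, H⟩ := exists_nb Q h
    exact qx_B H hx

end

end Pool.Agent.Lib.L1S
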