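import Pool.Agent.Lib.L1S.D0
import Pool.Agent.Lib.L1S.MDefs

/-!
# L1S, module R (arithmetic), definitions. Owner: helper56.

The filtration of `U` by the height (`Rs`, `FK`, `FR`), the degree `k` part `dgk`, the interface `LieD` with the module L.
-/

namespace Pool.Agent.Lib.L1S

open MeasureTheory Matrix NumberField IsDedekindDomain Pool.Agent.Lib.H89N Pool.Agent.Lib.H33W

noncomputable section

set_option linter.unusedSectionVars false

variable {ι M N : Type} [Fintype ι] [DecidableEq ι] [AddCommGroup M] [Module ℚ M] [AddCommGroup N] [Module ℚ N]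
  {P : RootPairing ι ℚ M N} [P.IsCrystallographic] [P.IsRootSystem]

/-- The weights of the adjoint representation. -/
def wtR (b : P.Base) : I b → M := Sum.elim (fun _ => 0) P.root

/-- `g - 1` raises the height by at least `k`. -/
def Rs (b : P.Base) {R : Type} [CommRing R] (k : ℕ) (g : Matrix (I b) (I b) R) : Prop :=
  ∀ r c, ht b r < ht b c + k → g r c = (1 : Matrix (I b) (I b) R) r c

/-- The part of degree `k` of a matrix. -/
def dgk (b : P.Base) {R : Type} [CommRing R] (k : ℕ) (g : Matrix (I b) (I b) R) : Matrix (I b) (I b) R :=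
  Matrix.of fun r c => if ht b r = ht b c + k then g r c else 0

theorem rs_sub {b : P.Base} {R : Type} [CommRing R] {k : ℕ} {g : Matrix (I b) (I b) R} (hg : Rs b k g) {r c : I b} (h : ht b r < ht b c + k) : (g - 1) r c = 0 := by
  rw [Matrix.sub_apply, hg r c h, sub_self]

/-- The product of two matrices which raise the height by `k` and `l` raises it by `k + l`. -/
theorem rs_prod {b : P.Base} {R : Type} [CommRing R] {k l : ℤ} {x y : Matrix (I b) (I b) R} (hx : ∀ r c, ht b r < ht b c + k → x r c = 0) (hy : ∀ r c, ht b r < ht b c + l → y r c = 0)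
    {r c : I b} (h : ht b r < ht b c + (k + l)) : (x * y) r c = 0 := by
  rw [Matrix.mul_apply]
  refine Finset.sum_eq_zero fun m _ => ?_
  by_cases h1 : ht b r < ht b m + k
  · rw [hx r m h1, zero_mul]
  · have h2 : ht b m < ht b c + l := by omega
    rw [hy m c h2, mul_zero]

theorem rs_mul_eq {b : P.Base} {R : Type} [CommRing R] (g h : Matrix (I b) (I b) R) : g * h - 1 = (g - 1) + (h - 1) + (g - 1) * (h - 1) := by
  noncomm_ring

theorem Rs.mul {b : P.Base} {R : Type} [CommRing R] {k : ℕ} {g h : Matrix (I b) (I b) R} (hg : Rs b k g) (hh : Rs b k h) : Rs b k (g * h) := by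
  intro r c hrc
  have e : (g * h) r c = (g * h - 1) r c + (1 : Matrix (I b) (I b) R) r c := by rw [Matrix.sub_apply, sub_add_cancel]
  rw [e, rs_mul_eq, Matrix.add_apply, Matrix.add_apply, rs_sub hg hrc, rs_sub hh hrc,
    rs_prod (b := b) (k := k) (l := k) (fun r c h => rs_sub hg h) (fun r c h => rs_sub hh h) (by omega), zero_add, zero_add, zero_add]

theorem Rs.one {b : P.Base} {R : Type} [CommRing R] (k : ℕ) : Rs b k (1 : Matrix (I b) (I b) R) := fun _ _ _ => rfl

theorem Rs.mono {b : P.Base} {R : Type} [CommRing R] {k l : ℕ} (h : k ≤ l) {g : Matrix (I b) (I b) R} (hg : Rs b l g) : Rs b k g := fun r c hrc => hg r c (by omega)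

/-- The degree `k` part is additive. -/
theorem dgk_mul {b : P.Base} {R : Type} [CommRing R] {k : ℕ} (hk : 1 ≤ k) {g h : Matrix (I b) (I b) R} (hg : Rs b k g) (hh : Rs b k h) : dgk b k (g * h) = dgk b k g + dgk b k h := by
  ext r c
  rw [Matrix.add_apply]
  unfold dgk
  rw [Matrix.of_apply, Matrix.of_apply, Matrix.of_apply]
  by_cases hrc : ht b r = ht b c + k
  · rw [if_pos hrc, if_pos hrc, if_pos hrc]
    have hne : r ≠ c := by
      rintro rfl
      omega
    have e : ∀ x : Matrix (I b) (I b) R, x r c = (x - 1) r c := fun x => by rw [Matrix.sub_apply, Matrix.one_apply_ne hne, sub_zero]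
    rw [e (g * h), e g, e h, rs_mul_eq, Matrix.add_apply, Matrix.add_apply,
      rs_prod (b := b) (k := k) (l := k) (fun r c h => rs_sub hg h) (fun r c h => rs_sub hh h) (by omega), add_zero]
  · rw [if_neg hrc, if_neg hrc, if_neg hrc, add_zero]

theorem dgk_one {b : P.Base} {R : Type} [CommRing R] {k : ℕ} (hk : 1 ≤ k) : dgk b k (1 : Matrix (I b) (I b) R) = 0 := by
  ext r c
  unfold dgk
  rw [Matrix.of_apply, Matrix.zero_apply]
  split_ifs with h
  · exact Matrix.one_apply_ne (by rintro rfl; omega)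
  · rfl

/-- `dgk g = 0` and `Rs k g` give `Rs (k + 1) g`. -/
theorem rs_succ {b : P.Base} {R : Type} [CommRing R] {k : ℕ} {g : Matrix (I b) (I b) R} (hk : 1 ≤ k) : Rs b (k + 1) g ↔ Rs b k g ∧ dgk b k g = 0 := by
  constructor
  · intro h
    refine ⟨h.mono (Nat.le_succ k), ?_⟩
    ext r c
    unfold dgk
    rw [Matrix.of_apply, Matrix.zero_apply]
    split_ifs with h1
    · rw [h r c (by push_cast; omega)]
      exact Matrix.one_apply_ne (by rintro rfl; omega)
    · rfl
  · rintro ⟨h1, h2⟩ r c hrc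
    by_cases h3 : ht b r < ht b c + k
    · exact h1 r c h3
    · have h4 : ht b r = ht b c + k := by push_cast at hrc; omega
      have h5 : dgk b k g r c = 0 := by rw [h2, Matrix.zero_apply]
      unfold dgk at h5
      rw [Matrix.of_apply, if_pos h4] at h5
      rw [h5, Matrix.one_apply_ne (by rintro rfl; omega)]

variable (b : P.Base) (K : Type) [Field K] [NumberField K]

/-- The elements of `G(K)` which raise the height by at least `k`. -/
def FK (k : ℕ) : Subgroup (GK b K) where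
  carrier := {g | Rs b k g.1.1 ∧ Rs b k g⁻¹.1.1}
  one_mem' := ⟨Rs.one k, by rw [inv_one]; exact Rs.one k⟩
  mul_mem' := by
    rintro g h ⟨h1, h2⟩ ⟨h3, h4⟩
    refine ⟨h1.mul h3, ?_⟩
    rw [_root_.mul_inv_rev]
    exact h4.mul h2
  inv_mem' := by
    rintro g ⟨h1, h2⟩
    exact ⟨h2, by rw [inv_inv]; exact h1⟩

/-- The elements of `U` which raise the height by at least `k`. -/
def FR (k : ℕ) : Subgroup (UR b K) where
  carrier := {g | Rs b k g.1.1.1 ∧ Rs b k g⁻¹.1.1.1}
  one_mem' := ⟨Rs.one k, by rw [inv_one]; exact Rs.one k⟩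
  mul_mem' := by
    rintro g h ⟨h1, h2⟩ ⟨h3, h4⟩
    refine ⟨h1.mul h3, ?_⟩
    rw [_root_.mul_inv_rev]
    exact h4.mul h2
  inv_mem' := by
    rintro g ⟨h1, h2⟩
    exact ⟨h2, by rw [inv_inv]; exact h1⟩

variable {b K}

theorem mem_Gh {𝔫 : Ideal (𝓞 K)} {v : HeightOneSpectrum (𝓞 K)} {r s : ℕ} {h g : GK b K} : g ∈ Gh b 𝔫 v r s h ↔ h * g * h⁻¹ ∈ GamK b 𝔫 v r s := Iff.rfl

/-- The positive roots of height `k`. -/
def Posk (b : P.Base) (k : ℕ) : Finset ι := Finset.univ.filter fun β => 0 < b.height β ∧ b.height β = k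

/-- **The interface with the module L**: root vectors `DP β 1` (integral matrices) with the divided powers `DP β k`, the one parameter groups over `K` and over `K ⊗ ℝ`, the structure of the degree `k` parts. -/
structure LieD (b : P.Base) (K : Type) [Field K] [NumberField K] where
  /-- The divided powers `E_β ^ k / k!`. -/
  DP : ι → ℕ → Matrix (I b) (I b) ℤ
  /-- All of them are zero from here on. -/
  m : ℕ
  dp0 : ∀ β, DP β 0 = 1
  dpm : ∀ β k, m ≤ k → DP β k = 0
  supp : ∀ β ∈ Pos b, ∀ k r c, DP β k r c ≠ 0 → wtR b r = wtR b c + k • P.root β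
  /-- Coefficients of an integral functional `cf β` with `cf β (E_β) = 1`. -/
  z : ι → b.support → ℤ
  z1 : ∀ β ∈ Pos b, ∑ j, z β j * DP β 1 (Sum.inl j) (Sum.inr (P.reflectionPerm β β)) = 1
  /-- `x_β(t)` over `K`. -/
  xK : ι → K → GK b K
  xK_val : ∀ β ∈ Pos b, ∀ t, (xK β t).1.1 = ∑ k ∈ Finset.range m, t ^ k • (DP β k).map (Int.cast : ℤ → K)
  xK_add : ∀ β ∈ Pos b, ∀ s t, xK β (s + t) = xK β s * xK β t
  /-- `x_β(t)` over `K ⊗ ℝ`. -/
  xE : ι → EE K → GR b K
  xE_val : ∀ β ∈ Pos b, ∀ t, (xE β t).1.1 = ∑ k ∈ Finset.range m, t ^ k • (DP β k).map (Int.cast : ℤ → EE K)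
  xE_add : ∀ β ∈ Pos b, ∀ s t, xE β (s + t) = xE β s * xE β t
  xE_cont : ∀ β ∈ Pos b, Continuous (xE β)
  emb_xK : ∀ β ∈ Pos b, ∀ t, emb b K (xK β t) = xE β (mixedEmbedding K t)
  degK : ∀ g ∈ HU b K, ∀ k : ℕ, 1 ≤ k → Rs b k g.1.1 → ∃ y : ι → K, dgk b k g.1.1 = ∑ β ∈ Posk b k, y β • (DP β 1).map (Int.cast : ℤ → K)
  degE : ∀ g ∈ UR b K, ∀ k : ℕ, 1 ≤ k → Rs b k g.1.1 → ∃ y : ι → EE K, dgk b k g.1.1 = ∑ β ∈ Posk b k, y β • (DP β 1).map (Int.cast : ℤ → EE K)
  uni : ∀ u ∈ UR b K, Uni b u.1.1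

/-- The functional `cf β`: the coefficient of `E_β`. -/
def LieD.cf {b : P.Base} {K : Type} [Field K] [NumberField K] (L : LieD b K) {R : Type} [CommRing R] (β : ι) (X : Matrix (I b) (I b) R) : R :=
  ∑ j, (L.z β j : R) * X (Sum.inl j) (Sum.inr (P.reflectionPerm β β))

/-- The root vector `E_β` over a ring. -/
def LieD.E {b : P.Base} {K : Type} [Field K] [NumberField K] (L : LieD b K) (R : Type) [CommRing R] (β : ι) : Matrix (I b) (I b) R := (L.DP β 1).map (Int.cast : ℤ → R)

end

end Pool.Agent.Lib.L1S
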