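import Pool.Agent.Lib.L1S.T1
import Pool.Agent.Lib.H33W.Defs

/-!
# Module T, part 2: strict fundamental domains of discrete subgroups (general)

`H` is a (countable) group, `X` a locally compact second countable group, `e : H → X` a homomorphism, `h • x = e h * x`; `Γ` is a subgroup of `H` such that only finitely many elements of `Γ` go to a compact set.
-/

namespace Pool.Agent.Lib.L1S

open MeasureTheory Pool.Agent.Lib.H33W
open scoped Pointwise ENNReal

section

variable {H X : Type} [Group H] [Group X] [TopologicalSpace X] [IsTopologicalGroup X] [MulAction H X] {e : H →* X}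

theorem t2_nhd [LocallyCompactSpace X] [T2Space X] (he : ∀ (h : H) (x : X), h • x = e h * x) {Γ : Subgroup H} (inj : ∀ γ ∈ Γ, e γ = 1 → γ = 1)
    (hfin : ∀ Q : Set X, IsCompact Q → {γ : H | γ ∈ Γ ∧ e γ ∈ Q}.Finite) (x : X) : ∃ U : Set X, IsOpen U ∧ x ∈ U ∧ ∀ γ ∈ Γ, γ ≠ 1 → ∀ u ∈ U, γ • u ∉ U := by
  obtain ⟨V, hV, hVx⟩ := exists_compact_mem_nhds x
  have hcomp : IsCompact (V * V⁻¹) := hV.mul hV.inv
  have hfin : {γ : H | γ ∈ Γ ∧ γ ≠ 1 ∧ e γ ∈ V * V⁻¹}.Finite := (hfin _ hcomp).subset fun γ hγ => ⟨hγ.1, hγ.2.2⟩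
  have hsep : ∀ γ : H, ∃ W : Set X, IsOpen W ∧ x ∈ W ∧ (γ ∈ Γ → γ ≠ 1 → ∀ u ∈ W, γ • u ∉ W) := by
    intro γ
    by_cases hγ : γ ∈ Γ ∧ γ ≠ 1
    · have hne : x ≠ e γ * x := by
        intro h
        exact hγ.2 (inj γ hγ.1 (mul_eq_right.1 h.symm))
      obtain ⟨A, B, hA, hB, hxA, hxB, hAB⟩ := t2_separation hne
      refine ⟨A ∩ (fun u => e γ * u) ⁻¹' B, hA.inter (hB.preimage (continuous_const_mul _)), ⟨hxA, hxB⟩, ?_⟩
      rintro - - u ⟨hu1, hu2⟩ hu3
      rw [he] at hu3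
      exact Set.disjoint_left.1 hAB hu3.1 hu2
    · exact ⟨Set.univ, isOpen_univ, Set.mem_univ _, fun h h' => absurd ⟨h, h'⟩ hγ⟩
  choose W hW1 hW2 hW3 using hsep
  refine ⟨interior V ∩ ⋂ γ ∈ hfin.toFinset, W γ, ?_, ?_, ?_⟩
  · exact isOpen_interior.inter (isOpen_biInter_finset fun γ _ => hW1 γ)
  · exact ⟨mem_interior_iff_mem_nhds.2 hVx, Set.mem_iInter₂.2 fun γ _ => hW2 γ⟩
  · rintro γ hγ hne u ⟨hu1, hu2⟩ ⟨hu3, hu4⟩
    have hmem : γ ∈ hfin.toFinset := by
      rw [Set.Finite.mem_toFinset]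
      refine ⟨hγ, hne, ?_⟩
      have e1 : e γ = (γ • u) * u⁻¹ := by rw [he, mul_inv_cancel_right]
      rw [e1]
      exact Set.mul_mem_mul (interior_subset hu3) (Set.inv_mem_inv.2 (interior_subset hu1))
    exact hW3 γ hγ hne u (Set.mem_iInter₂.1 hu2 γ hmem) (Set.mem_iInter₂.1 hu4 γ hmem)

/-- **Existence of strict fundamental domains.** -/
theorem t2_exists_sf [LocallyCompactSpace X] [T2Space X] [SecondCountableTopology X] [MeasurableSpace X] [BorelSpace X] [Countable H] (he : ∀ (h : H) (x : X), h • x = e h * x)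
    {Γ : Subgroup H} (inj : ∀ γ ∈ Γ, e γ = 1 → γ = 1) (hfin : ∀ Q : Set X, IsCompact Q → {γ : H | γ ∈ Γ ∧ e γ ∈ Q}.Finite) : ∃ F : Set X, SF Γ F := by
  choose U hU1 hU2 hU3 using t2_nhd he inj hfin
  obtain ⟨S, hS, hSU⟩ := TopologicalSpace.countable_cover_nhds (f := U) fun x => (hU1 x).mem_nhds (hU2 x)
  have hSne : S.Nonempty := by
    by_contra h
    rw [Set.not_nonempty_iff_eq_empty] at h
    rw [h] at hSU
    have h1 : (1 : X) ∈ (⋃ x ∈ (∅ : Set X), U x) := by rw [hSU]; trivial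
    simp at h1
  obtain ⟨s, hs⟩ := hS.exists_eq_range hSne
  have hcov : ∀ x : X, ∃ n, x ∈ U (s n) := by
    intro x
    have h1 : x ∈ (⋃ x ∈ S, U x) := by rw [hSU]; trivial
    obtain ⟨y, hy, hxy⟩ := Set.mem_iUnion₂.1 h1
    rw [hs] at hy
    obtain ⟨n, rfl⟩ := hy
    exact ⟨n, hxy⟩
  let T : ℕ → Set X := fun m => ⋃ γ : Γ, (fun x => γ • x) ⁻¹' U (s m)
  have hTo : ∀ m, IsOpen (T m) := by
    intro m
    apply isOpen_iUnion
    intro γ
    have e1 : (fun x : X => γ • x) = fun x => e γ.1 * x := by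
      funext x
      exact he γ.1 x
    rw [e1]
    exact (hU1 (s m)).preimage (continuous_const_mul (e γ.1))
  have hTinv : ∀ m (γ : Γ) x, γ • x ∈ T m ↔ x ∈ T m := by
    intro m γ x
    constructor
    · intro h
      obtain ⟨δ, hδ⟩ := Set.mem_iUnion.1 h
      refine Set.mem_iUnion.2 ⟨δ * γ, ?_⟩
      change (δ * γ) • x ∈ U (s m)
      rw [mul_smul]
      exact hδ
    · intro h
      obtain ⟨δ, hδ⟩ := Set.mem_iUnion.1 h
      refine Set.mem_iUnion.2 ⟨δ * γ⁻¹, ?_⟩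
      change (δ * γ⁻¹) • (γ • x) ∈ U (s m)
      rw [← mul_smul, inv_mul_cancel_right]
      exact hδ
  have hUT : ∀ m, U (s m) ⊆ T m := by
    intro m x hx
    refine Set.mem_iUnion.2 ⟨1, ?_⟩
    change (1 : Γ) • x ∈ U (s m)
    rw [one_smul]
    exact hx
  refine ⟨⋃ m, (U (s m) \ ⋃ j ∈ Finset.range m, T j), ?_, ?_⟩
  · apply MeasurableSet.iUnion
    intro m
    exact (hU1 (s m)).measurableSet.diff (Finset.measurableSet_biUnion _ fun j _ => (hTo j).measurableSet)
  · intro x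
    classical
    have hex : ∃ m, x ∈ T m := by
      obtain ⟨m, hm⟩ := hcov x
      exact ⟨m, hUT m hm⟩
    have hmin := fun m (hm : m < Nat.find hex) => Nat.find_min hex hm
    obtain ⟨γ, hγ⟩ := Set.mem_iUnion.1 (Nat.find_spec hex)
    have key : ∀ δ : Γ, δ • x ∈ (⋃ m, (U (s m) \ ⋃ j ∈ Finset.range m, T j)) →
        δ • x ∈ U (s (Nat.find hex)) := by
      intro δ hδ
      obtain ⟨m, hn1, hn2⟩ := Set.mem_iUnion.1 hδ
      have hle : Nat.find hex ≤ m := Nat.find_min' hex ((hTinv m δ x).1 (hUT m hn1))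
      have hge : m ≤ Nat.find hex := by
        by_contra hcon
        apply hn2
        exact Set.mem_iUnion₂.2 ⟨Nat.find hex, Finset.mem_range.2 (not_le.1 hcon),
          (hTinv _ δ x).2 (Nat.find_spec hex)⟩
      have : m = Nat.find hex := le_antisymm hge hle
      rw [← this]
      exact hn1
    refine ⟨γ, ?_, ?_⟩
    · refine Set.mem_iUnion.2 ⟨Nat.find hex, hγ, ?_⟩
      intro h
      obtain ⟨m, hm, hmT⟩ := Set.mem_iUnion₂.1 h
      exact hmin m (Finset.mem_range.1 hm) ((hTinv m γ x).1 hmT)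
    · intro δ hδ
      have h1 := key δ hδ
      by_contra hne
      have h2 : (δ * γ⁻¹).1 ≠ 1 := by
        intro h
        apply hne
        have h3 : δ * γ⁻¹ = 1 := Subtype.ext h
        exact mul_inv_eq_one.1 h3
      have h4 := hU3 (s (Nat.find hex)) (δ * γ⁻¹).1 (δ * γ⁻¹).2 h2 (γ • x) hγ
      apply h4
      have h5 : (δ * γ⁻¹).1 • (γ • x) = (δ * γ⁻¹) • (γ • x) := rfl
      rw [h5, ← mul_smul, inv_mul_cancel_right]
      exact h1

end

section

variable {H X : Type} [Group H] [Countable H] [MulAction H X] [MeasurableSpace X] {μ : Measure X} {Γ : Subgroup H} {F : Set X}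

/-- A strict fundamental domain is a fundamental domain in the sense of Mathlib. -/
theorem t2_isFD (h : SF Γ F) : IsFundamentalDomain Γ F μ := IsFundamentalDomain.mk' h.meas.nullMeasurableSet h.fd

/-- The measure of a strict fundamental domain is at most the measure of every set which meets all orbits. -/
theorem t2_le (hp : ∀ h : H, MeasurePreserving (fun x : X => h • x) μ μ) (h : SF Γ F) {C : Set X} (hC : ∀ x, ∃ γ ∈ Γ, γ • x ∈ C) : μ F ≤ μ C := by
  have : MeasurableConstSMul Γ X := ⟨fun g => (hp g.1).measurable⟩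
  have : SMulInvariantMeasure Γ X μ := ⟨fun g s hs => (hp g.1).measure_preimage hs.nullMeasurableSet⟩
  have hF := t2_isFD (μ := μ) h
  rw [hF.measure_eq_tsum C]
  have hsub : F ⊆ ⋃ g : Γ, g • C ∩ F := by
    intro x hx
    obtain ⟨γ, hγ, hx2⟩ := hC x
    refine Set.mem_iUnion.2 ⟨(⟨γ, hγ⟩ : Γ)⁻¹, ?_, hx⟩
    rw [Set.mem_inv_smul_set_iff]
    exact hx2
  exact (measure_mono hsub).trans (measure_iUnion_le _)

theorem t2_pos (hp : ∀ h : H, MeasurePreserving (fun x : X => h • x) μ μ) (h : SF Γ F) (h0 : μ ≠ 0) : μ F ≠ 0 := by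
  have : MeasurableConstSMul Γ X := ⟨fun g => (hp g.1).measurable⟩
  have : SMulInvariantMeasure Γ X μ := ⟨fun g s hs => (hp g.1).measure_preimage hs.nullMeasurableSet⟩
  have hF := t2_isFD (μ := μ) h
  intro h1
  apply h0
  rw [← Measure.measure_univ_eq_zero, hF.measure_eq_tsum Set.univ]
  rw [ENNReal.tsum_eq_zero]
  intro g
  exact measure_mono_null Set.inter_subset_right h1

end

end Pool.Agent.Lib.L1S
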