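import Pool.Agent.Lib.L1S.T4
import Pool.Agent.Lib.L1S.AN14
import Pool.Agent.Lib.L1S.AN15

/-!
# Module T, part 5: the data of module A for our groups
-/

namespace Pool.Agent.Lib.L1S

open MeasureTheory Matrix NumberField IsDedekindDomain Pool.Agent.Lib.H89N Pool.Agent.Lib.H33W Topology
open scoped ENNReal

noncomputable section

variable {ι M N : Type} [Fintype ι] [DecidableEq ι] [AddCommGroup M] [Module ℚ M] [AddCommGroup N] [Module ℚ N]
  {P : RootPairing ι ℚ M N} [P.IsCrystallographic] (b : P.Base) {K : Type} [Field K] [NumberField K]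

theorem t5_Gh_one (𝔫 : Ideal (𝓞 K)) (v : HeightOneSpectrum (𝓞 K)) (r s : ℕ) : Gh b 𝔫 v r s 1 = GamK b 𝔫 v r s := by
  ext g
  change (1 : GK b K) * g * 1⁻¹ ∈ GamK b 𝔫 v r s ↔ g ∈ GamK b 𝔫 v r s
  rw [one_mul, inv_one, mul_one]

/-- Cocompactness of `Γ_U`. -/
def CC (b : P.Base) {K : Type} [Field K] [NumberField K] (Γ : Subgroup (GK b K)) : Prop :=
  ∃ KT : Set (UR b K), IsCompact KT ∧ ∀ t, ∃ δ : HU b K, (δ : GK b K) ∈ Γ ∧ ∃ s ∈ KT, t = kU b K δ * s

theorem t5_hp (ν : Measure (UR b K)) [ν.IsHaarMeasure] (δ : HU b K) : MeasurePreserving (fun x : UR b K => δ • x) ν ν :=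
  measurePreserving_mul_left ν (kU b K δ)

/-- The covolume of `Γ_U` is finite and positive. -/
theorem t5_fin {Γ : Subgroup (GK b K)} (hcc : CC b Γ) {D : Set (UR b K)} (hD : SF (Γ.subgroupOf (HU b K)) D) (ν : Measure (UR b K)) [ν.IsHaarMeasure] : ν D ≠ ⊤ := by
  have := t3_count b K
  obtain ⟨KT, hKT, h⟩ := hcc
  have h1 : ν D ≤ ν KT := by
    refine t2_le (t5_hp b ν) hD fun x => ?_
    obtain ⟨δ, h1, s, hs, e⟩ := h x
    refine ⟨δ⁻¹, Subgroup.inv_mem _ h1, ?_⟩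
    have e2 : δ⁻¹ • x = s := by
      rw [e]
      change kU b K δ⁻¹ * (kU b K δ * s) = s
      rw [map_inv, inv_mul_cancel_left]
    rw [e2]
    exact hs
  exact (h1.trans_lt hKT.measure_lt_top).ne

theorem t5_pos {Γ : Subgroup (GK b K)} {D : Set (UR b K)} (hD : SF (Γ.subgroupOf (HU b K)) D) (ν : Measure (UR b K)) [ν.IsHaarMeasure] : ν D ≠ 0 := by
  have := t3_count b K
  exact t2_pos (t5_hp b ν) hD (NeZero.ne ν)

/-- `U` is unimodular. -/
theorem t5_unimod {Γ : Subgroup (GK b K)} (hcc : CC b Γ) {D : Set (UR b K)} (hD : SF (Γ.subgroupOf (HU b K)) D) (ν : Measure (UR b K)) [ν.IsHaarMeasure] :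
    (∀ s : UR b K, MeasurePreserving (fun t : UR b K => t * s) ν ν) ∧ MeasurePreserving (fun t : UR b K => t⁻¹) ν ν := by
  have := t3_count b K
  exact an_unimod (kU b K) (fun h t => rfl) hD (t5_fin b hcc hD ν)

/-- The data of module A. -/
theorem t5_gd {Γ : Subgroup (GK b K)} (hcc : CC b Γ) {D : Set (UR b K)} (hD : SF (Γ.subgroupOf (HU b K)) D) (μ : Measure (GR b K)) [μ.IsHaarMeasure]
    (ν : Measure (UR b K)) [ν.IsHaarMeasure] (θ : b.support → (EE K →ₗ[ℝ] ℝ)) (hmul : ∀ s t : UR b K, psi b θ (s * t) = psi b θ s * psi b θ t) :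
    GD (emb b K) (UR b K).subtype (kU b K) μ ν (psi b θ) where
  act _ _ := rfl
  actT _ _ := rfl
  jk _ := rfl
  mj := ((continuous_subtype_val.comp continuous_fst).mul continuous_snd).measurable
  lm g := measurePreserving_mul_left μ g
  lT g := measurePreserving_mul_left ν g
  rT := (t5_unimod b hcc hD ν).1
  iT := (t5_unimod b hcc hD ν).2
  mψ := (t4_psi_cont b θ).measurable
  nψ := t4_psi_norm b θ
  hψ := hmul

/-- Invariant continuous functions are bounded on the sets `U Q`, `Q` compact. -/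
theorem t5_bdd {Γ : Subgroup (GK b K)} (hcc : CC b Γ) {f : GR b K → ℂ} (cf : Continuous f) (hf : ∀ γ ∈ Γ, ∀ x, f (emb b K γ * x) = f x) {Q : Set (GR b K)} (hQ : IsCompact Q) :
    ∃ B : ℝ, ∀ t : UR b K, ∀ y ∈ Q, ‖f ((t : GR b K) * y)‖ ≤ B := by
  obtain ⟨KT, hKT, h⟩ := hcc
  have hQ' : IsCompact ((fun p : UR b K × GR b K => (p.1 : GR b K) * p.2) '' (KT ×ˢ Q)) :=
    (hKT.prod hQ).image ((continuous_subtype_val.comp continuous_fst).mul continuous_snd)
  obtain ⟨B, hB⟩ := hQ'.exists_bound_of_continuousOn cf.continuousOn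
  refine ⟨B, fun t y hy => ?_⟩
  obtain ⟨δ, h1, s, hs, e⟩ := h t
  have e2 : (t : GR b K) * y = emb b K δ.1 * ((s : GR b K) * y) := by
    rw [e]
    exact mul_assoc _ _ _
  rw [e2, hf _ h1]
  exact hB _ ⟨(s, y), ⟨hs, hy⟩, rfl⟩

/-- A function as in the theorem has the properties required by module A. -/
theorem t5_af {𝔫 : Ideal (𝓞 K)} {v : HeightOneSpectrum (𝓞 K)} {r s : ℕ} {μ : Measure (GR b K)} [μ.IsHaarMeasure] {D F : Set (GR b K)}
    (hF : SF (GamK b 𝔫 v r s) F) (hD : IsFundamentalDomain (Gam b 𝔫 v r s) D μ) {φ f : GR b K → ℂ} (h : Aut b 𝔫 v r s μ D φ f) :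
    AF μ (GamK b 𝔫 v r s) F φ f where
  cont := h.cont
  inv γ hγ x := h.inv _ ⟨γ, hγ, rfl⟩ x
  l2 := t4_l2G b 𝔫 v r s μ hF hD h.cont h.inv h.l2
  eig := h.eig

end

end Pool.Agent.Lib.L1S
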