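import Pool.Agent.Lib.L1S.Q0

/-!
# Version V1: definitions of the character, the Whittaker coefficients and the functions for an arbitrary subgroup `H` of `G(L)` and an arbitrary subgroup `Γ` of `H`
-/

namespace Pool.Agent.Lib.L1S

open MeasureTheory Matrix NumberField IsDedekindDomain Pool.Agent.Lib.H89N Pool.Agent.Lib.H33W

noncomputable section

variable {ι M N : Type} [Fintype ι] [DecidableEq ι] [AddCommGroup M] [Module ℚ M] [AddCommGroup N] [Module ℚ N]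
  {P : RootPairing ι ℚ M N} [P.IsCrystallographic] {b : P.Base} {L : Type} [Field L] [NumberField L] (H : Subgroup (GK b L))

/-- The inclusion `U_H → U`. -/
def iUH : UHR H →* UR b L where
  toFun u := ⟨u.1.1, u.2⟩
  map_one' := rfl
  map_mul' _ _ := rfl

/-- The image of `Γ` in the real group. -/
def imH (Γ : Subgroup H) : Subgroup (HRt H) := Γ.map (embH H)

/-- `Γ ∩ U` as a subgroup of `U`. -/
def imU (Γ : Subgroup H) : Subgroup (UHR H) := (imH H Γ).subgroupOf (UHR H)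

/-- The character `ψ(u) = e(∑ θ_i(c_i(u)))` of `U_H`. -/
def psT (θ : b.support → (EE L →ₗ[ℝ] ℝ)) (u : UHR H) : ℂ := psi b θ (iUH H u)

/-- **The Whittaker coefficient** of `F` at `x`: the mean value of `F (u x) ψ(u)⁻¹` over `Γ_U \ U` (`D` a fundamental domain). -/
def WhT (ν : Measure (UHR H)) (D : Set (UHR H)) (θ : b.support → (EE L →ₗ[ℝ] ℝ)) (F : HRt H → ℂ) (x : HRt H) : ℂ :=
  ⨍ u in D, F (u.1 * x) * star (psT H θ u) ∂ν

/-- Continuous functions in `L²(Γ \ G)` (`D` a fundamental domain) which are eigenfunctions of the convolution operator of `φ` with eigenvalue at least one in absolute value: `∫ F (x y) φ (y) dy = c F (x)`, `|c| ≥ 1`. -/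
structure AuT (Γ : Subgroup H) (μ : Measure (HRt H)) (D : Set (HRt H)) (φ F : HRt H → ℂ) : Prop where
  cont : Continuous F
  inv : ∀ γ ∈ imH H Γ, ∀ x, F (γ * x) = F x
  l2 : MemLp F 2 (μ.restrict D)
  eig : ∃ c : ℂ, 1 ≤ ‖c‖ ∧ ∀ x, ∫ y, F (x * y) * φ y ∂μ = c * F x

/-- `w ∈ Γ h Γ`. -/
def InTT (Γ : Subgroup H) (h : H) (w : HRt H) : Prop := ∃ γ ∈ imH H Γ, ∃ γ' ∈ imH H Γ, w = γ * embH H h * γ'

/-- **The Hecke operator** of the double coset `Γ h Γ`: `∑ F (w x) = t F (x)`, the sum over `w ∈ Γ \ Γ h Γ`. -/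
def IsTT (Γ : Subgroup H) (h : H) (F : HRt H → ℂ) (t : ℂ) : Prop :=
  ∃ S : Finset (HRt H), (∀ w ∈ S, InTT H Γ h w) ∧ (∀ w, InTT H Γ h w → ∃! w', w' ∈ S ∧ w * w'⁻¹ ∈ imH H Γ) ∧ ∀ x, ∑ w ∈ S, F (w * x) = t * F x

/-- The operator over the unipotent group: `∑ F (h u x) = t F (x)`, the sum over `u ∈ (Γ_U ∩ h⁻¹ Γ h) \ Γ_U`, `Γ_U = Γ ∩ U`. -/
def IsUT (Γ : Subgroup H) (h : H) (F : HRt H → ℂ) (t : ℂ) : Prop :=
  ∃ S : Finset (HRt H), (∀ w ∈ S, w ∈ imH H Γ ⊓ UHR H) ∧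
    (∀ u ∈ imH H Γ ⊓ UHR H, ∃! w, w ∈ S ∧ embH H h * (u * w⁻¹) * (embH H h)⁻¹ ∈ imH H Γ) ∧
    ∀ x, ∑ w ∈ S, F (embH H h * w * x) = t * F x

/-- `h⁻¹ Γ h ∩ U` as a subgroup of `U`. -/
def imUh (Γ : Subgroup H) (h : H) : Subgroup (UHR H) := ((imH H Γ).comap (MulAut.conj (embH H h)).toMonoidHom).subgroupOf (UHR H)

end

end Pool.Agent.Lib.L1S
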