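import Pool.Agent.Lib.L1S.TH1
import Pool.Agent.Lib.L1S.T5

/-!
# Module T_H (version V1), part 2: the character, comparison of fundamental domains, the data of module A, for an arbitrary subgroup `H` of `G(L)` and an arbitrary subgroup `Γ` of `H`
-/

namespace Pool.Agent.Lib.L1S

open MeasureTheory Matrix NumberField IsDedekindDomain Pool.Agent.Lib.H89N Pool.Agent.Lib.H33W Topology
open scoped ENNReal

noncomputable section

variable {ι M N : Type} [Fintype ι] [DecidableEq ι] [AddCommGroup M] [Module ℚ M] [AddCommGroup N] [Module ℚ N]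
  {P : RootPairing ι ℚ M N} [P.IsCrystallographic] {b : P.Base} {L : Type} [Field L] [NumberField L] (H : Subgroup (GK b L))

/-! ## The character -/

theorem psT_cont (θ : b.support → (EE L →ₗ[ℝ] ℝ)) : Continuous (psT H θ) := (t4_psi_cont b θ).comp (iUH_cont H)

theorem psT_norm (θ : b.support → (EE L →ₗ[ℝ] ℝ)) (u : UHR H) : ‖psT H θ u‖ = 1 := t4_psi_norm b θ _

theorem psT_mul {θ : b.support → (EE L →ₗ[ℝ] ℝ)} (h : ∀ s t : UR b L, psi b θ (s * t) = psi b θ s * psi b θ t) (s t : UHR H) :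
    psT H θ (s * t) = psT H θ s * psT H θ t := by
  unfold psT
  rw [map_mul, h]

theorem psT_k (θ : b.support → (EE L →ₗ[ℝ] ℝ)) (g : HUH H) : psT H θ (kUH H g) = psi b θ (kU b L (hHU H g)) := rfl

/-! ## Comparison of fundamental domains -/

variable (Γ : Subgroup H)

/-- The elements of `Γ_U` are the images of the elements of `Γ ∩ U`. -/
theorem th2_mem_imU (w : UHR H) : w ∈ imU H Γ ↔ ∃ δ : HUH H, (δ : H) ∈ Γ ∧ kUH H δ = w := by
  constructor
  · intro h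
    obtain ⟨g, hg, e⟩ := h
    refine ⟨⟨g, ?_⟩, hg, Subtype.ext e⟩
    change embH H g ∈ UHR H
    rw [e]
    exact w.2
  · rintro ⟨δ, h1, rfl⟩
    exact ⟨δ.1, h1, rfl⟩

theorem th2_mem_imH (w : HRt H) : w ∈ imH H Γ ↔ ∃ γ ∈ Γ, embH H γ = w := Iff.rfl

variable {Γ}

/-- A strict fundamental domain of `Γ ∩ U` is a fundamental domain of `Γ_U`. -/
theorem th2_fdU {D : Set (UHR H)} (hD : SF (Γ.subgroupOf (HUH H)) D) (ν : Measure (UHR H)) : IsFundamentalDomain (imU H Γ) D ν := by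
  refine IsFundamentalDomain.mk' hD.meas.nullMeasurableSet fun x => ?_
  obtain ⟨δ, h1, h2⟩ := hD.fd x
  refine ⟨⟨kUH H δ.1, (th2_mem_imU H Γ _).2 ⟨δ.1, δ.2, rfl⟩⟩, h1, ?_⟩
  rintro ⟨w, hw⟩ h3
  obtain ⟨ε, hε, rfl⟩ := (th2_mem_imU H Γ _).1 hw
  have h4 := h2 ⟨ε, hε⟩ h3
  apply Subtype.ext
  exact congrArg (kUH H) (congrArg Subtype.val h4)

/-- A strict fundamental domain of `Γ` is a fundamental domain in the sense of Mathlib. -/
theorem th2_fdG {F : Set (HRt H)} (hF : SF Γ F) (μ : Measure (HRt H)) : IsFundamentalDomain (imH H Γ) F μ := by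
  refine IsFundamentalDomain.mk' hF.meas.nullMeasurableSet fun x => ?_
  obtain ⟨δ, h1, h2⟩ := hF.fd x
  refine ⟨⟨embH H δ.1, ⟨δ.1, δ.2, rfl⟩⟩, h1, ?_⟩
  rintro ⟨w, hw⟩ h3
  obtain ⟨ε, hε, rfl⟩ := hw
  have h4 := h2 ⟨ε, hε⟩ h3
  apply Subtype.ext
  exact congrArg (embH H) (congrArg Subtype.val h4)

variable (Γ)

theorem th2_countG : Countable (imH H Γ) := by
  have := th_count H
  have h : Function.Surjective fun γ : Γ => (⟨embH H γ.1, ⟨γ.1, γ.2, rfl⟩⟩ : imH H Γ) := by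
    rintro ⟨w, γ, hγ, rfl⟩
    exact ⟨⟨γ, hγ⟩, rfl⟩
  exact h.countable

theorem th2_countU : Countable (imU H Γ) := by
  have := th2_countG H Γ
  have h : Function.Injective fun w : imU H Γ => (⟨w.1.1, w.2⟩ : imH H Γ) := by
    intro w w' e
    apply Subtype.ext
    apply Subtype.ext
    have e1 : (⟨w.1.1, w.2⟩ : imH H Γ).1 = (⟨w'.1.1, w'.2⟩ : imH H Γ).1 := congrArg Subtype.val e
    exact e1
  exact h.countable

variable {Γ}

/-- The measures of all fundamental domains of `Γ_U` are equal. -/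
theorem th2_volU {D D' : Set (UHR H)} (ν : Measure (UHR H)) [ν.IsHaarMeasure] (hD : SF (Γ.subgroupOf (HUH H)) D)
    (hD' : IsFundamentalDomain (imU H Γ) D' ν) : ν D' = ν D := by
  have := th2_countU H Γ
  exact hD'.measure_eq (th2_fdU H hD ν)

/-- **The Whittaker coefficient** for an arbitrary fundamental domain. -/
theorem th2_Wh {D D' : Set (UHR H)} (ν : Measure (UHR H)) [ν.IsHaarMeasure] (hD : SF (Γ.subgroupOf (HUH H)) D)
    (hD' : IsFundamentalDomain (imU H Γ) D' ν) (θ : b.support → (EE L →ₗ[ℝ] ℝ)) (hψ : ∀ δ : HUH H, (δ : H) ∈ Γ → ∀ u, psT H θ (kUH H δ * u) = psT H θ u)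
    {F : HRt H → ℂ} (hF : ∀ γ ∈ imH H Γ, ∀ x, F (γ * x) = F x) (x : HRt H) :
    WhT H ν D' θ F x = Wm (UHR H).subtype (psT H θ) ν D F x := by
  have := th2_countU H Γ
  unfold WhT Wm
  rw [setAverage_eq, setAverage_eq, measureReal_def, measureReal_def, th2_volU H ν hD hD']
  congr 1
  have e : ∫ u in D', F (u.1 * x) * star (psT H θ u) ∂ν = ∫ u in D, F (u.1 * x) * star (psT H θ u) ∂ν := by
    refine hD'.setIntegral_eq (th2_fdU H hD ν) fun w u => ?_
    obtain ⟨δ, h1, h2⟩ := (th2_mem_imU H Γ _).1 w.2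
    have e1 : (w • u : UHR H) = kUH H δ * u := by
      rw [h2]
      rfl
    have e2 : ((w • u : UHR H) : HRt H) * x = embH H δ.1 * (u.1 * x) := by
      rw [e1]
      exact mul_assoc _ _ _
    rw [e2, e1, hψ δ h1, hF _ ⟨δ.1, h1, rfl⟩]
  rw [e]
  refine integral_congr_ae (Filter.Eventually.of_forall fun u => ?_)
  exact mul_comm _ _

/-- Integrals of invariant functions over two fundamental domains of `Γ`. -/
theorem th2_intG {F D : Set (HRt H)} (μ : Measure (HRt H)) [μ.IsHaarMeasure] (hF : SF Γ F) (hD : IsFundamentalDomain (imH H Γ) D μ)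
    {f : HRt H → ℂ} (hf : ∀ γ ∈ imH H Γ, ∀ x, f (γ * x) = f x) : ∫ x in D, f x ∂μ = ∫ x in F, f x ∂μ := by
  have := th2_countG H Γ
  exact hD.setIntegral_eq (th2_fdG H hF μ) fun w x => hf w.1 w.2 x

theorem th2_lintG {F D : Set (HRt H)} (μ : Measure (HRt H)) [μ.IsHaarMeasure] (hF : SF Γ F) (hD : IsFundamentalDomain (imH H Γ) D μ)
    {f : HRt H → ℝ≥0∞} (hf : ∀ γ ∈ imH H Γ, ∀ x, f (γ * x) = f x) : ∫⁻ x in D, f x ∂μ = ∫⁻ x in F, f x ∂μ := by
  have := th2_countG H Γ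
  exact hD.setLIntegral_eq (th2_fdG H hF μ) _ fun w x => hf w.1 w.2 x

/-- Square integrability does not depend on the fundamental domain. -/
theorem th2_l2G {F D : Set (HRt H)} (μ : Measure (HRt H)) [μ.IsHaarMeasure] (hF : SF Γ F) (hD : IsFundamentalDomain (imH H Γ) D μ)
    {f : HRt H → ℂ} (cf : Continuous f) (hf : ∀ γ ∈ imH H Γ, ∀ x, f (γ * x) = f x) (h : MemLp f 2 (μ.restrict D)) : MemLp f 2 (μ.restrict F) := by
  refine ⟨cf.measurable.aestronglyMeasurable, ?_⟩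
  have h2 := h.2
  rw [eLpNorm_eq_lintegral_rpow_enorm_toReal (by norm_num) (by norm_num)] at h2 ⊢
  rw [← th2_lintG H μ hF hD fun γ hγ x => by rw [hf γ hγ x]]
  exact h2

/-! ## The data of module A -/

/-- Cocompactness of `Γ_U`. -/
def CCH (Γ : Subgroup H) : Prop :=
  ∃ KT : Set (UHR H), IsCompact KT ∧ ∀ t, ∃ δ : HUH H, (δ : H) ∈ Γ ∧ ∃ s ∈ KT, t = kUH H δ * s

theorem th2_hp (ν : Measure (UHR H)) [ν.IsHaarMeasure] (δ : HUH H) : MeasurePreserving (fun x : UHR H => δ • x) ν ν :=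
  measurePreserving_mul_left ν (kUH H δ)

/-- The covolume of `Γ_U` is finite and positive. -/
theorem th2_fin (hcc : CCH H Γ) {D : Set (UHR H)} (hD : SF (Γ.subgroupOf (HUH H)) D) (ν : Measure (UHR H)) [ν.IsHaarMeasure] : ν D ≠ ⊤ := by
  have := th_count H
  obtain ⟨KT, hKT, h⟩ := hcc
  have h1 : ν D ≤ ν KT := by
    refine t2_le (th2_hp H ν) hD fun x => ?_
    obtain ⟨δ, h1, s, hs, e⟩ := h x
    refine ⟨δ⁻¹, Subgroup.inv_mem _ h1, ?_⟩
    have e2 : δ⁻¹ • x = s := by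
      rw [e]
      change kUH H δ⁻¹ * (kUH H δ * s) = s
      rw [map_inv, inv_mul_cancel_left]
    rw [e2]
    exact hs
  exact (h1.trans_lt hKT.measure_lt_top).ne

theorem th2_pos {D : Set (UHR H)} (hD : SF (Γ.subgroupOf (HUH H)) D) (ν : Measure (UHR H)) [ν.IsHaarMeasure] : ν D ≠ 0 := by
  have := th_count H
  exact t2_pos (th2_hp H ν) hD (NeZero.ne ν)

/-- `U` is unimodular. -/
theorem th2_unimod (hcc : CCH H Γ) {D : Set (UHR H)} (hD : SF (Γ.subgroupOf (HUH H)) D) (ν : Measure (UHR H)) [ν.IsHaarMeasure] :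
    (∀ s : UHR H, MeasurePreserving (fun t : UHR H => t * s) ν ν) ∧ MeasurePreserving (fun t : UHR H => t⁻¹) ν ν := by
  have := th_count H
  exact an_unimod (kUH H) (fun h t => rfl) hD (th2_fin H hcc hD ν)

/-- The data of module A. -/
theorem th2_gd (hcc : CCH H Γ) {D : Set (UHR H)} (hD : SF (Γ.subgroupOf (HUH H)) D) (μ : Measure (HRt H)) [μ.IsHaarMeasure]
    (ν : Measure (UHR H)) [ν.IsHaarMeasure] (θ : b.support → (EE L →ₗ[ℝ] ℝ)) (hmul : ∀ s t : UHR H, psT H θ (s * t) = psT H θ s * psT H θ t) :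
    GD (embH H) (UHR H).subtype (kUH H) μ ν (psT H θ) where
  act _ _ := rfl
  actT _ _ := rfl
  jk _ := rfl
  mj := ((continuous_subtype_val.comp continuous_fst).mul continuous_snd).measurable
  lm g := measurePreserving_mul_left μ g
  lT g := measurePreserving_mul_left ν g
  rT := (th2_unimod H hcc hD ν).1
  iT := (th2_unimod H hcc hD ν).2
  mψ := (psT_cont H θ).measurable
  nψ := psT_norm H θ
  hψ := hmul

/-- Invariant continuous functions are bounded on the sets `U Q`, `Q` compact. -/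
theorem th2_bdd (hcc : CCH H Γ) {f : HRt H → ℂ} (cf : Continuous f) (hf : ∀ γ ∈ Γ, ∀ x, f (embH H γ * x) = f x) {Q : Set (HRt H)} (hQ : IsCompact Q) :
    ∃ B : ℝ, ∀ t : UHR H, ∀ y ∈ Q, ‖f ((t : HRt H) * y)‖ ≤ B := by
  obtain ⟨KT, hKT, h⟩ := hcc
  have hQ' : IsCompact ((fun p : UHR H × HRt H => (p.1 : HRt H) * p.2) '' (KT ×ˢ Q)) :=
    (hKT.prod hQ).image ((continuous_subtype_val.comp continuous_fst).mul continuous_snd)
  obtain ⟨B, hB⟩ := hQ'.exists_bound_of_continuousOn cf.continuousOn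
  refine ⟨B, fun t y hy => ?_⟩
  obtain ⟨δ, h1, s, hs, e⟩ := h t
  have e2 : (t : HRt H) * y = embH H δ.1 * ((s : HRt H) * y) := by
    rw [e]
    exact mul_assoc _ _ _
  rw [e2, hf _ h1]
  exact hB _ ⟨(s, y), ⟨hs, hy⟩, rfl⟩

/-- A function as in the theorem has the properties required by module A. -/
theorem th2_af {μ : Measure (HRt H)} [μ.IsHaarMeasure] {D F : Set (HRt H)} (hF : SF Γ F) (hD : IsFundamentalDomain (imH H Γ) D μ) {φ f : HRt H → ℂ}
    (h : AuT H Γ μ D φ f) : AF μ Γ F φ f where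
  cont := h.cont
  inv γ hγ x := h.inv _ ⟨γ, hγ, rfl⟩ x
  l2 := th2_l2G H μ hF hD h.cont h.inv h.l2
  eig := h.eig

/-- Cocompactness and subgroups of finite index. -/
theorem CCH.mono {H : Subgroup (GK b L)} {Γ Γ' : Subgroup H} (h : CCH H Γ') (hle : Γ' ≤ Γ) : CCH H Γ := by
  obtain ⟨KT, hKT, h1⟩ := h
  refine ⟨KT, hKT, fun t => ?_⟩
  obtain ⟨δ, h2, h3⟩ := h1 t
  exact ⟨δ, hle h2, h3⟩

/-! ## The compact set `Q` and the set `S` of module A -/

/-- `S = U Q`: the data `FQ` for a discrete `Γ` with cocompact `Γ_U`. `Q' = KT Q` covers `S` by `Γ ∩ U`. -/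
theorem th2_fq (hd : Dsc H Γ) (hcc : CCH H Γ) (μ : Measure (HRt H)) [μ.IsHaarMeasure] {Q : Set (HRt H)} (hQ : IsCompact Q) :
    ∃ Q' : Set (HRt H), IsCompact Q' ∧ FQ μ Γ (HUH H) {x | ∃ u : UHR H, ∃ q ∈ Q, x = (u : HRt H) * q} Q' := by
  obtain ⟨KT, hKT, h⟩ := hcc
  have hQ' : IsCompact ((fun p : UHR H × HRt H => (p.1 : HRt H) * p.2) '' (KT ×ˢ Q)) :=
    (hKT.prod hQ).image ((continuous_subtype_val.comp continuous_fst).mul continuous_snd)
  refine ⟨_, hQ', ⟨?_, hd.fin hQ', hQ'.isClosed.measurableSet, hQ'.measure_lt_top.ne⟩⟩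
  rintro x ⟨u, q, hq, rfl⟩
  obtain ⟨δ, h1, s, hs, e⟩ := h u
  refine ⟨(δ : H)⁻¹, inv_mem ⟨h1, δ.2⟩, ?_⟩
  refine ⟨(s, q), ⟨hs, hq⟩, ?_⟩
  show (s : HRt H) * q = embH H (δ : H)⁻¹ * ((u : HRt H) * q)
  have e1 : (u : HRt H) = embH H (δ : H) * (s : HRt H) := congrArg Subtype.val e
  rw [e1, map_inv]
  group

end

end Pool.Agent.Lib.L1S
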