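import Pool.Agent.Lib.L1S.TH4
import Pool.Agent.Lib.L1S.M3

/-!
# Module T_H (version V1), part 5: the sets `U a Ω` in the real group of `H`
-/

namespace Pool.Agent.Lib.L1S

open MeasureTheory Matrix NumberField IsDedekindDomain Pool.Agent.Lib.H89N Pool.Agent.Lib.H33W Pool.Agent.Lib.H67G Topology
open scoped ENNReal

noncomputable section

variable {ι M N : Type} [Fintype ι] [DecidableEq ι] [AddCommGroup M] [Module ℚ M] [AddCommGroup N] [Module ℚ N]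
  {P : RootPairing ι ℚ M N} [P.IsCrystallographic] {b : P.Base} {L : Type} [Field L] [NumberField L] (H : Subgroup (GK b L))

/-- `x ∈ U_H a Ω`. -/
def InRangeT (Ω : Set (GL (I b) (EE L))) (A : M →ₗ[ℚ] ℝ) (x : HRt H) : Prop :=
  ∃ u : UHR H, ∃ ω ∈ Ω, x.1.1.1 = u.1.1.1.1 * dg b L A * ω.1

theorem InRangeT.inRange {Ω : Set (GL (I b) (EE L))} {A : M →ₗ[ℚ] ℝ} {x : HRt H} (hx : InRangeT H Ω A x) : InRange b Ω A x.1 := by
  obtain ⟨u, ω, hω, e⟩ := hx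
  exact ⟨u.1.1, u.2, ω, hω, e⟩

theorem th5_compact {C : Set (HRt H)} (hC : IsCompact C) : IsCompact (Subtype.val '' C : Set (GR b L)) := hC.image continuous_subtype_val

/-- An element which moves a point of `U x C` to a point of `U x C`. -/
theorem th5_mv {Ω : Set (GL (I b) (EE L))} {A : M →ₗ[ℚ] ℝ} {x : HRt H} (hx : InRange b Ω A x.1) {C : Set (HRt H)} {γ : HRt H} (h : MvT H x C γ) :
    Mv b (Om2 b Ω (Subtype.val '' C)) A γ.1 := by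
  obtain ⟨u, u', y, hy, y', hy', e⟩ := h
  refine m_mv b hx (t := iUH H u) (t' := iUH H u') (y := y.1) (y' := y'.1) ⟨y, hy, rfl⟩ ⟨y', hy', rfl⟩ ?_
  exact congrArg Subtype.val e

/-- The volume bound. -/
theorem th5_vol {ν : Measure (UHR H)} [ν.IsHaarMeasure] (hr : ∀ s : UHR H, MeasurePreserving (fun t : UHR H => t * s) ν ν)
    {Ω : Set (GL (I b) (EE L))} {A : M →ₗ[ℚ] ℝ} {x : HRt H} (hx : InRangeT H Ω A x) (C : Set (HRt H)) :
    ν {u : UHR H | ∃ y ∈ C, ∃ y' ∈ C, (u : HRt H) = x * y * (x * y')⁻¹} ≤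
      ν {u : UHR H | ∃ κ ∈ Om2 b Ω (Subtype.val '' C), u.1.1.1.1 = dg b L A * κ.1 * dg b L (-A)} := by
  obtain ⟨u, ω, hω, e⟩ := hx
  have hxu : x.1.1 = u.1.1.1 * m3A b L A * ω := Units.ext e
  have hmp : MeasurePreserving (fun s : UHR H => u⁻¹ * (s * u)) ν ν := (measurePreserving_mul_left ν u⁻¹).comp (hr u)
  have hsub : {s : UHR H | ∃ y ∈ C, ∃ y' ∈ C, (s : HRt H) = x * y * (x * y')⁻¹} ⊆ (fun s : UHR H => u⁻¹ * (s * u)) ⁻¹'
      {u : UHR H | ∃ κ ∈ Om2 b Ω (Subtype.val '' C), u.1.1.1.1 = dg b L A * κ.1 * dg b L (-A)} := by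
    rintro s ⟨y, hy, y', hy', h1⟩
    refine ⟨ω * y.1.1 * (ω * y'.1.1)⁻¹, ⟨ω, hω, y.1, ⟨y, hy, rfl⟩, ω, hω, y'.1, ⟨y', hy', rfl⟩, rfl⟩, ?_⟩
    have e1 : s.1.1.1 = x.1.1 * y.1.1 * (x.1.1 * y'.1.1)⁻¹ := congrArg (fun z : HRt H => z.1.1) h1
    have e3 : u.1.1.1⁻¹ * (s.1.1.1 * u.1.1.1) = m3A b L A * (ω * y.1.1 * (ω * y'.1.1)⁻¹) * (m3A b L A)⁻¹ := by
      rw [e1, hxu]
      group
    have e4 := congrArg Units.val e3
    exact e4
  calc ν {u : UHR H | ∃ y ∈ C, ∃ y' ∈ C, (u : HRt H) = x * y * (x * y')⁻¹} ≤ ν ((fun s : UHR H => u⁻¹ * (s * u)) ⁻¹'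
      {u : UHR H | ∃ κ ∈ Om2 b Ω (Subtype.val '' C), u.1.1.1.1 = dg b L A * κ.1 * dg b L (-A)}) := measure_mono hsub
    _ ≤ (ν.map (fun s : UHR H => u⁻¹ * (s * u)))
        {u : UHR H | ∃ κ ∈ Om2 b Ω (Subtype.val '' C), u.1.1.1.1 = dg b L A * κ.1 * dg b L (-A)} :=
        Measure.le_map_apply hmp.measurable.aemeasurable _
    _ = _ := by rw [hmp.map_eq]

/-- The volume bound for a discrete `Γ` with cocompact `Γ ∩ U`. -/
theorem th5_vol' {Γ : Subgroup H} (hd : Dsc H Γ) (hcc : CCH H Γ) {ν : Measure (UHR H)} [ν.IsHaarMeasure]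
    {Ω : Set (GL (I b) (EE L))} {A : M →ₗ[ℚ] ℝ} {x : HRt H} (hx : InRangeT H Ω A x) (C : Set (HRt H)) :
    ν {u : UHR H | ∃ y ∈ C, ∃ y' ∈ C, (u : HRt H) = x * y * (x * y')⁻¹} ≤
      ν {u : UHR H | ∃ κ ∈ Om2 b Ω (Subtype.val '' C), u.1.1.1.1 = dg b L A * κ.1 * dg b L (-A)} := by
  obtain ⟨D, hD⟩ := hd.sfU
  exact th5_vol H (th2_unimod H hcc hD ν).1 hx C

end

end Pool.Agent.Lib.L1S
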