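import Pool.Agent.Lib.L1S.AW15
import Pool.Agent.Lib.L1S.TH4

/-!
# TW0: the count of the exceptional elements at the points `x C`
-/

namespace Pool.Agent.Lib.L1S

open MeasureTheory Matrix NumberField IsDedekindDomain Pool.Agent.Lib.H89N Pool.Agent.Lib.H33W Pool.Agent.Lib.H67G Topology
open scoped ENNReal

noncomputable section

/-- The integral over a fundamental domain does not depend on the base point. -/
theorem aw_avs {H G T : Type} [Group H] [Countable H] [Group G] [Group T] [TopologicalSpace G] [MeasurableSpace G] [MeasurableSpace T] [MulAction H G] {HU : Subgroup H} [MulAction HU T]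
    {emb : H →* G} {j : T →* G} {k : HU →* T} {μ : Measure G} {ν : Measure T} {ψ : T → ℂ} (hG : GD emb j k μ ν ψ) {Γ' : Subgroup H} {D : Set T}
    (hD : SF (Γ'.subgroupOf HU) D) {f : T → ℝ≥0∞} (mf : Measurable f) (hf : ∀ u ∈ Γ'.subgroupOf HU, ∀ t, f (u • t) = f t) (s : T) :
    ∫⁻ t in D, f (t * s) ∂ν = ∫⁻ t in D, f t ∂ν := by
  have hpT : ∀ g : HU, MeasurePreserving (fun t : T => g • t) ν ν := fun g => by
    rw [show (fun t : T => g • t) = fun t => k g * t from funext fun t => hG.actT g t]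
    exact hG.lT (k g)
  obtain ⟨D2, hD2⟩ : ∃ D2 : Set T, D2 = (fun t => t * s⁻¹) ⁻¹' D := ⟨_, rfl⟩
  have sD2 : SF (Γ'.subgroupOf HU) D2 := by
    rw [hD2]
    refine ⟨(hG.rT s⁻¹).measurable hD.meas, fun t => ?_⟩
    obtain ⟨γ, h1, h2⟩ := hD.fd (t * s⁻¹)
    have e : ∀ γ : ↥(Γ'.subgroupOf HU), (γ • t) * s⁻¹ = γ • (t * s⁻¹) := by
      intro γ
      show ((γ : HU) • t) * s⁻¹ = (γ : HU) • (t * s⁻¹)
      rw [hG.actT, hG.actT, mul_assoc]
    refine ⟨γ, ?_, fun γ' h3 => h2 γ' ?_⟩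
    · show (γ • t) * s⁻¹ ∈ D
      rw [e]
      exact h1
    · have h4 : (γ' • t) * s⁻¹ ∈ D := h3
      rw [e] at h4
      exact h4
  have h1 := (hG.rT s).setLIntegral_comp_preimage sD2.meas mf
  have h2 : (fun t => t * s) ⁻¹' D2 = D := by
    rw [hD2]
    ext t
    show t * s * s⁻¹ ∈ D ↔ t ∈ D
    rw [mul_inv_cancel_right]
  rw [h2] at h1
  rw [h1, u2_lint hpT le_rfl hD sD2 mf hf, an_u2k (by rw [Subgroup.relIndex_self]; exact one_ne_zero), Subgroup.relIndex_self, Nat.cast_one, one_mul]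

variable {ι M N : Type} [Fintype ι] [DecidableEq ι] [AddCommGroup M] [Module ℚ M] [AddCommGroup N] [Module ℚ N]
  {P : RootPairing ι ℚ M N} [P.IsCrystallographic] {b : P.Base} {L : Type} [Field L] [NumberField L] (H : Subgroup (GK b L))

/-- The set `U x C`. -/
def ST (x : HRt H) (C : Set (HRt H)) : Set (HRt H) := {z : HRt H | ∃ t : UHR H, ∃ y ∈ (fun y => x * y) '' C, z = (t : HRt H) * y}

theorem mem_ST {x : HRt H} {C : Set (HRt H)} {z : HRt H} : z ∈ ST H x C ↔ ∃ t : UHR H, ∃ y ∈ C, z = (t : HRt H) * (x * y) :=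
  ⟨fun ⟨t, _, ⟨y, hy, rfl⟩, e⟩ => ⟨t, y, hy, e⟩, fun ⟨t, y, hy, e⟩ => ⟨t, _, ⟨y, hy, rfl⟩, e⟩⟩

theorem ST_mul {x : HRt H} {C : Set (HRt H)} (t : UHR H) (z : HRt H) : (t : HRt H) * z ∈ ST H x C ↔ z ∈ ST H x C :=
  ⟨fun ⟨t', y, hy, e⟩ => ⟨t⁻¹ * t', y, hy, by
      show z = (t : HRt H)⁻¹ * (t' : HRt H) * y
      rw [mul_assoc, ← e, inv_mul_cancel_left]⟩, fun ⟨t', y, hy, e⟩ => ⟨t * t', y, hy, by
      show (t : HRt H) * z = (t : HRt H) * (t' : HRt H) * y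
      rw [e, mul_assoc]⟩⟩

/-- The count of the exceptional elements `Bd a b` for the family `g`: for every `y ∈ C` the average over `t ∈ D₁ b` (a fundamental domain of `g_b⁻¹ Γ₁ g_b ∩ U` in `U`) of the number of the classes `(g_a⁻¹ Γ₁ g_a ∩ U) γ` of exceptional elements `γ ∈ g_a⁻¹ Γ₁ g_b` with `γ t x y ∈ U x C` is at most `n a b`,
and `n` is bounded by `B` in the sense of the Schur test with the weights `w`. -/
structure CntT {κ : Type} [Fintype κ] (ν : Measure (UHR H)) (Γ₁ : Subgroup H) (g : κ → H) (x : HRt H) (C : Set (HRt H)) (D₁ : κ → Set (UHR H)) (Bd : κ → κ → Set H)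
    (n : κ → κ → ℝ≥0∞) (w : κ → ℝ≥0∞) (B : ℝ≥0∞) : Prop where
  bad : BadS (fun i => cjG Γ₁ (g i)) (HUH H) Bd
  disj : ∀ k, ∀ γ ∈ Bd k k, γ ∉ HUH H
  sf : ∀ i, SF ((cjG Γ₁ (g i)).subgroupOf (HUH H)) (D₁ i)
  cnt : ∀ a b, ∀ y ∈ C, ∫⁻ t in D₁ b, ce (cjG Γ₁ (g a) ⊓ HUH H) (Zs Γ₁ (g a) (g b) ∩ Bd a b) (fun γ => (ST H x C).indicator 1 (embH H γ * ((t : HRt H) * (x * y)))) ∂ν ≤ n a b * ν (D₁ b)
  w0 : ∀ a, w a ≠ 0
  wt : ∀ a, w a ≠ ⊤
  hw : ∀ b, ∑ a, w a * n a b ≤ B * w b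

/-- The count at all points of `U x C`. -/
theorem CntT.toB {κ : Type} [Fintype κ] {μ : Measure (HRt H)} {ν : Measure (UHR H)} {ψ : UHR H → ℂ} [Countable H] (hG : GD (embH H) (UHR H).subtype (kUH H) μ ν ψ)
    {Γ₁ : Subgroup H} {g : κ → H} {x : HRt H} {C : Set (HRt H)} (mS : MeasurableSet (ST H x C)) {D₁ : κ → Set (UHR H)} {Bd : κ → κ → Set H}
    {n : κ → κ → ℝ≥0∞} {w : κ → ℝ≥0∞} {B : ℝ≥0∞} (hC : CntT H ν Γ₁ g x C D₁ Bd n w B) :
    CntB ν (fun t z => (UHR H).subtype t * z) Γ₁ (HUH H) g (fun i => cjG Γ₁ (g i)) D₁ (ST H x C) Bd n w B where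
  bad := hC.bad
  disj := hC.disj
  cnt := by
    intro a b z hz
    obtain ⟨s, y, hy, rfl⟩ := (mem_ST H).1 hz
    have i1 : MeasurableConstSMul H (HRt H) := ⟨fun c => (an10_fun hG c).measurable⟩
    have mI : Measurable ((ST H x C).indicator (1 : HRt H → ℝ≥0∞)) := measurable_one.indicator mS
    have hΓ : ∀ k g', g' ∈ (fun i => cjG Γ₁ (g i)) k ↔ g k * g' * (g k)⁻¹ ∈ Γ₁ := fun k g' => Iff.rfl
    obtain ⟨f, hf⟩ : ∃ f : UHR H → ℝ≥0∞, f = fun t : UHR H => ce (cjG Γ₁ (g a) ⊓ HUH H) (Zs Γ₁ (g a) (g b) ∩ Bd a b) (fun γ => (ST H x C).indicator 1 (γ • ((t : HRt H) * (x * y)))) := ⟨_, rfl⟩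
    have mf : Measurable f := by
      rw [hf]
      have h1 : Measurable fun t : UHR H => ((t, x * y) : UHR H × HRt H) := measurable_id.prodMk measurable_const
      have h2 := hG.mj.comp h1
      have h3 : Measurable fun y : HRt H => ce (cjG Γ₁ (g a) ⊓ HUH H) (Zs Γ₁ (g a) (g b) ∩ Bd a b) fun γ => (ST H x C).indicator (1 : HRt H → ℝ≥0∞) (γ • y) :=
        aw_cemeas (φ := (ST H x C).indicator (1 : HRt H → ℝ≥0∞)) mI
      have h4 := h3.comp h2
      exact h4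
    have invf : ∀ u ∈ (cjG Γ₁ (g b)).subgroupOf (HUH H), ∀ t, f (u • t) = f t := by
      intro u hu t
      rw [hf]
      have h1 := ce_shift (U₀ := cjG Γ₁ (g a) ⊓ HUH H) (S := Zs Γ₁ (g a) (g b) ∩ Bd a b) ((aw_badz hΓ hC.bad).yl a b)
        (b := fun γ => (ST H x C).indicator (1 : HRt H → ℝ≥0∞) (γ • ((t : HRt H) * (x * y)))) (fun u' hu' γ => by
          have e1 : (u' * γ) • ((t : HRt H) * (x * y)) = ((kUH H ⟨u', hu'.2⟩ : UHR H) : HRt H) * (γ • ((t : HRt H) * (x * y))) := by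
            rw [mul_smul]
            rfl
          have h2 := ST_mul H (x := x) (C := C) (kUH H ⟨u', hu'.2⟩) (γ • ((t : HRt H) * (x * y)))
          rw [e1]
          by_cases h3 : γ • ((t : HRt H) * (x * y)) ∈ ST H x C
          · rw [Set.indicator_of_mem h3, Set.indicator_of_mem (h2.2 h3)]
            rfl
          · rw [Set.indicator_of_notMem h3, Set.indicator_of_notMem fun h4 => h3 (h2.1 h4)]) (u : H) ((aw_badz hΓ hC.bad).yr a b (u : H) ⟨hu, u.2⟩)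
      show ce (cjG Γ₁ (g a) ⊓ HUH H) (Zs Γ₁ (g a) (g b) ∩ Bd a b) (fun γ => (ST H x C).indicator 1 (γ • (((u • t : UHR H) : HRt H) * (x * y)))) = _
      have e2 : ∀ γ : H, γ • (((u • t : UHR H) : HRt H) * (x * y)) = (γ * (u : H)) • ((t : HRt H) * (x * y)) := by
        intro γ
        rw [mul_smul]
        congr 1
        show ((kUH H u * t : UHR H) : HRt H) * (x * y) = (u : H) • ((t : HRt H) * (x * y))
        rw [Subgroup.coe_mul, mul_assoc]
        rfl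
      simp only [e2]
      exact h1
    have h1 := hC.cnt a b y hy
    have h2 := aw_avs hG (hC.sf b) mf invf s
    have e3 : ∀ t : UHR H, ce (cjG Γ₁ (g a) ⊓ HUH H) (Zs Γ₁ (g a) (g b) ∩ Bd a b) (fun γ => (ST H x C).indicator 1 (γ • ((UHR H).subtype t * ((s : HRt H) * (x * y))))) = f (t * s) := by
      intro t
      rw [hf]
      have e4 : (UHR H).subtype t * ((s : HRt H) * (x * y)) = ((t * s : UHR H) : HRt H) * (x * y) := by
        rw [Subgroup.coe_mul, mul_assoc]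
        rfl
      rw [e4]
    have e5 : ∀ t : UHR H, ce (cjG Γ₁ (g a) ⊓ HUH H) (Zs Γ₁ (g a) (g b) ∩ Bd a b) (fun γ => (ST H x C).indicator 1 (embH H γ * ((t : HRt H) * (x * y)))) = f t := by
      intro t
      rw [hf]
      rfl
    show ∫⁻ t in D₁ b, ce (cjG Γ₁ (g a) ⊓ HUH H) (Zs Γ₁ (g a) (g b) ∩ Bd a b) (fun γ => (ST H x C).indicator 1 (γ • ((UHR H).subtype t * ((s : HRt H) * (x * y))))) ∂ν ≤ _
    simp only [e3]
    simp only [e5] at h1
    rw [h2]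
    exact h1
  w0 := hC.w0
  wt := hC.wt
  hw := hC.hw

end

end Pool.Agent.Lib.L1S
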