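import Pool.Agent.Lib.L1S.TX4

/-!
# TX5: the density inequalities with the convolution integral: no exceptional elements; one point, eigenvalues at least `Λ`
-/

namespace Pool.Agent.Lib.L1S

open MeasureTheory Matrix NumberField IsDedekindDomain Pool.Agent.Lib.H89N Pool.Agent.Lib.H33W Pool.Agent.Lib.H67G Topology
open scoped ENNReal

noncomputable section

variable {ι M N : Type} [Fintype ι] [DecidableEq ι] [AddCommGroup M] [Module ℚ M] [AddCommGroup N] [Module ℚ N]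
  {P : RootPairing ι ℚ M N} [P.IsCrystallographic] {b : P.Base} {L : Type} [Field L] [NumberField L] (H : Subgroup (GK b L))

/-- No exceptional elements. -/
theorem cntT_zero {κ : Type} [Fintype κ] (ν : Measure (UHR H)) (Γ₁ : Subgroup H) (g : κ → H) (x : HRt H) (C : Set (HRt H)) {E₁ : κ → Set (UHR H)}
    (hE : ∀ i, SF ((cjG Γ₁ (g i)).subgroupOf (HUH H)) (E₁ i)) : CntT H ν Γ₁ g x C E₁ (fun _ _ => ∅) (fun _ _ => 0) (fun _ => 1) 0 where
  bad := ⟨fun _ _ _ _ _ => Iff.rfl, fun _ _ _ => Iff.rfl⟩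
  disj := fun _ _ h => absurd h (Set.notMem_empty _)
  sf := hE
  cnt := by
    classical
    intro a b' y _
    rw [Set.inter_empty, zero_mul]
    have h1 : ∀ f : H → ℝ≥0∞, ce (cjG Γ₁ (g a) ⊓ HUH H) (∅ : Set H) f = 0 := by
      intro f
      unfold ce
      refine ENNReal.tsum_eq_zero.2 fun c => ?_
      rw [if_neg (Set.notMem_empty _)]
    simp only [h1, lintegral_zero, le_refl]
  w0 := fun _ => one_ne_zero
  wt := fun _ => ENNReal.one_ne_top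
  hw := fun _ => by simp

/-- **The density inequalities** with the convolution integral instead of the volume. -/
theorem th4_main5 {κ : Type} [Fintype κ] {Γ Γ₁ : Subgroup H} {g : κ → H} {θ : b.support → (EE L →ₗ[ℝ] ℝ)} {x : HRt H} {φ : HRt H → ℂ} (hy : THyp H Γ Γ₁ g θ x (tsupport φ))
    (cφ : Continuous φ) (sφ : HasCompactSupport φ) {μ : Measure (HRt H)} [μ.IsHaarMeasure] {ν : Measure (UHR H)} [ν.IsHaarMeasure]
    {D₁ : Set (UHR H)} (hD₁ : SF (Γ.subgroupOf (HUH H)) D₁) {X c₁ : ℝ} (hX : 0 ≤ X)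
    (hJ : Jf (UHR H).subtype μ ν φ x ≤ ENNReal.ofReal X * ν D₁) (hc : (Γ₁.relIndex Γ : ℝ) ≤ c₁)
    {q : κ → ℝ} (hq : ∀ i, (((cjG Γ (g i)).subgroupOf (HUH H)).relIndex (Γ.subgroupOf (HUH H)) : ℝ) = q i) (hq0 : ∀ i, 0 < q i)
    {D : Set (HRt H)} (hD : IsFundamentalDomain (imH H Γ) D μ) {m : ℕ} {lam : Fin m → ℂ} {F : Fin m → HRt H → ℂ} (hF : ∀ l, AuE H Γ μ D φ (lam l) (F l))
    (hort : ∀ l k, ∫ x in D, star (F l x) * F k x ∂μ = if l = k then 1 else 0) (a : κ → ℂ) :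
    (∀ h : κ → H, (∀ i, h i * (g i)⁻¹ ∈ Γ) → ∀ D' : κ → Set (UHR H), (∀ i, IsFundamentalDomain (imUh H Γ (h i)) (D' i) ν) →
      ∑ l, ‖lam l‖ ^ 2 * ‖∑ i, a i * WhT H ν (D' i) θ (fun y => F l (embH H (h i) * y)) x‖ ^ 2 ≤ c₁ * X * ∑ i, ‖a i‖ ^ 2 * (q i)⁻¹) ∧
    (∀ t : Fin m → κ → ℂ, (∀ l i, IsUT H Γ (g i) (F l) (t l i)) → ∀ D' : Set (UHR H), IsFundamentalDomain (imU H Γ) D' ν →
      ∑ l, ‖lam l‖ ^ 2 * (‖∑ i, a i * t l i‖ ^ 2 * ‖WhT H ν D' θ (F l) x‖ ^ 2) ≤ c₁ * X * ∑ i, ‖a i‖ ^ 2 * q i) := by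
  have ci : Countable H := th_count H
  have hpT : ∀ g : HUH H, MeasurePreserving (fun t : UHR H => g • t) ν ν := th2_hp H ν
  have hle : ∀ k, (cjG Γ₁ (g k)).subgroupOf (HUH H) ≤ Γ.subgroupOf (HUH H) := fun k w hw => hy.sub k ⟨cjG_mono hy.le _ hw, w.2⟩
  choose E₁ hE₁ using fun k => an_sf (fun g => (hpT g).measurable) (hle k) hD₁
  have hC : CntT H ν Γ₁ g x (tsupport φ) E₁ (fun _ _ => ∅) (fun _ _ => 0) (fun _ => 1) (ENNReal.ofReal 0) := by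
    rw [ENNReal.ofReal_zero]
    exact cntT_zero H ν Γ₁ g x (tsupport φ) hE₁
  have key := th4_main4 H hy.to0 cφ sφ (μ := μ) (ν := ν) le_rfl hC (fun i j γ hγ _ hm => hy.dich i j γ hγ hm) hD₁ hX hJ hc hq hq0 hD hF hort a
  simp only [add_zero, one_mul] at key
  exact key

/-- **The inequality at one point**: orthonormal eigenfunctions of the convolution operator of `φ` with the eigenvalues `lam l`. -/
theorem th4_specE {Γ Γ₁ : Subgroup H} {θ : b.support → (EE L →ₗ[ℝ] ℝ)} {x : HRt H} {φ : HRt H → ℂ} (hy : THyp H Γ Γ₁ (fun _ : Unit => (1 : H)) θ x (tsupport φ))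
    (cφ : Continuous φ) (sφ : HasCompactSupport φ) {μ : Measure (HRt H)} [μ.IsHaarMeasure] {ν : Measure (UHR H)} [ν.IsHaarMeasure]
    {D₁ : Set (UHR H)} (hD₁ : SF (Γ.subgroupOf (HUH H)) D₁) {X c₁ : ℝ} (hX : 0 ≤ X)
    (hJ : Jf (UHR H).subtype μ ν φ x ≤ ENNReal.ofReal X * ν D₁) (hc : (Γ₁.relIndex Γ : ℝ) ≤ c₁)
    {D : Set (HRt H)} (hD : IsFundamentalDomain (imH H Γ) D μ) {m : ℕ} {lam : Fin m → ℂ} {F : Fin m → HRt H → ℂ} (hF : ∀ l, AuE H Γ μ D φ (lam l) (F l))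
    (hort : ∀ l k, ∫ x in D, star (F l x) * F k x ∂μ = if l = k then 1 else 0) {D' : Set (UHR H)} (hD' : IsFundamentalDomain (imU H Γ) D' ν) :
    ∑ l, ‖lam l‖ ^ 2 * ‖WhT H ν D' θ (F l) x‖ ^ 2 ≤ c₁ * X := by
  have hq : ∀ i : Unit, (((cjG Γ ((fun _ : Unit => (1 : H)) i)).subgroupOf (HUH H)).relIndex (Γ.subgroupOf (HUH H)) : ℝ) = (fun _ : Unit => (1 : ℝ)) i := by
    intro i
    show ((((cjG Γ (1 : H)).subgroupOf (HUH H)).relIndex (Γ.subgroupOf (HUH H)) : ℕ) : ℝ) = 1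
    rw [cjG_one, Subgroup.relIndex_self, Nat.cast_one]
  have key := (th4_main5 H hy cφ sφ (μ := μ) (ν := ν) hD₁ hX hJ hc hq (fun _ => one_pos) hD hF hort (fun _ => 1)).1
    (fun _ => 1) (fun _ => by
      show (1 : H) * (1 : H)⁻¹ ∈ Γ
      rw [inv_one, mul_one]
      exact Γ.one_mem) (fun _ => D') (fun _ => by
      have h1 := imUh_eq H Γ 1
      rw [cjG_one] at h1
      show IsFundamentalDomain (imUh H Γ 1) D' ν
      rw [h1]
      exact hD')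
  simp only [Finset.univ_unique, Finset.sum_singleton, one_mul, map_one, norm_one, one_pow, inv_one, mul_one] at key
  exact key

/-- **The inequality at one point**: eigenvalues at least `Λ` in absolute value. -/
theorem th4_spec {Γ Γ₁ : Subgroup H} {θ : b.support → (EE L →ₗ[ℝ] ℝ)} {x : HRt H} {φ : HRt H → ℂ} (hy : THyp H Γ Γ₁ (fun _ : Unit => (1 : H)) θ x (tsupport φ))
    (cφ : Continuous φ) (sφ : HasCompactSupport φ) {μ : Measure (HRt H)} [μ.IsHaarMeasure] {ν : Measure (UHR H)} [ν.IsHaarMeasure]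
    {D₁ : Set (UHR H)} (hD₁ : SF (Γ.subgroupOf (HUH H)) D₁) {X c₁ Λ : ℝ} (hX : 0 ≤ X) (hΛ : 0 < Λ)
    (hJ : Jf (UHR H).subtype μ ν φ x ≤ ENNReal.ofReal X * ν D₁) (hc : (Γ₁.relIndex Γ : ℝ) ≤ c₁)
    {D : Set (HRt H)} (hD : IsFundamentalDomain (imH H Γ) D μ) {m : ℕ} {lam : Fin m → ℂ} {F : Fin m → HRt H → ℂ} (hF : ∀ l, AuE H Γ μ D φ (lam l) (F l)) (hl : ∀ l, Λ ≤ ‖lam l‖)
    (hort : ∀ l k, ∫ x in D, star (F l x) * F k x ∂μ = if l = k then 1 else 0) {D' : Set (UHR H)} (hD' : IsFundamentalDomain (imU H Γ) D' ν) :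
    ∑ l, ‖WhT H ν D' θ (F l) x‖ ^ 2 ≤ c₁ * X * (Λ ^ 2)⁻¹ := by
  have key := th4_specE H hy cφ sφ (μ := μ) (ν := ν) hD₁ hX hJ hc hD hF hort hD'
  have h1 : Λ ^ 2 * ∑ l, ‖WhT H ν D' θ (F l) x‖ ^ 2 ≤ c₁ * X := by
    refine le_trans ?_ key
    rw [Finset.mul_sum]
    exact Finset.sum_le_sum fun l _ => mul_le_mul_of_nonneg_right (pow_le_pow_left₀ hΛ.le (hl l) 2) (by positivity)
  rw [← div_eq_mul_inv, le_div_iff₀ (by positivity), mul_comm]
  exact h1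

end

end Pool.Agent.Lib.L1S
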